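import Pool.Agent.Lib.MP_ae5b4e_an_AZ.T1d
import Pool.Agent.Lib.MP_ae5b4e_an_WD.ZD
import Pool.Agent.Lib.MP_ae5b4e_an_M.FnA
import Pool.Agent.Lib.MP_ae5b4e_an_A1.Defs
import Pool.Agent.Lib.MP_1f4a82_an.Local

/-! # AZ: the chart at a zero of `q` and the density -/

noncomputable section

namespace Pool.Agent.MP_ae5b4e_an_AZ

open Complex Set Filter Topology Metric
open Pool.Agent.MP_ae5b4e_an_M (S1 C1f E2 Gf bb S1_sq C1f_sq E2_sq)
open Pool.Agent.MP_ae5b4e_an_WD (ZChart)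
open PorTR (Hm)

/-- the density of the time in the coordinate `x = (1/2) log q` -/
def kap (p : ℝ) (lam : ℂ → ℂ) (x : ℂ) : ℂ := p * deriv lam (cexp (p * x)) * cexp ((1 + p) * x)

private theorem F1_ball {μ : ℕ} (hμ : 0 < μ) {r₀ : ℝ} (hr0 : 0 < r₀) {x : ℂ}
    (hx : x.re < Real.log r₀ / (2 / μ)) :
    cexp (((2 / μ : ℝ) : ℂ) * x) ∈ ball (0 : ℂ) r₀ := by
  have hp : (0 : ℝ) < 2 / μ := by
    have : (0 : ℝ) < μ := by exact_mod_cast hμ
    positivity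
  rw [mem_ball_zero_iff, Complex.norm_exp, re_ofReal_mul]
  rw [lt_div_iff₀ hp] at hx
  calc Real.exp (2 / μ * x.re) < Real.exp (Real.log r₀) := Real.exp_lt_exp.2 (by linarith)
    _ = r₀ := Real.exp_log hr0

private theorem F1_pmu {μ : ℕ} (hμ : 0 < μ) : ((2 / μ : ℝ) : ℂ) * (μ : ℂ) = 2 := by
  have : (μ : ℂ) ≠ 0 := by exact_mod_cast hμ.ne'
  push_cast
  field_simp

private theorem F1_pow {μ : ℕ} (hμ : 0 < μ) (x : ℂ) :
    cexp (((2 / μ : ℝ) : ℂ) * x) ^ μ = cexp x ^ 2 := by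
  rw [← Complex.exp_nat_mul, ← Complex.exp_nat_mul]
  congr 1
  have h := F1_pmu hμ
  linear_combination x * h

private theorem F1_qd {q : ℂ → ℂ} {z₀ : ℂ} {μ : ℕ} {lam : ℂ → ℂ} {r : ℝ}
    (hq : DifferentiableOn ℂ q Hm) (h : ZChart q z₀ μ lam r) {c : ℂ} (hc : c ∈ ball (0 : ℂ) r) :
    deriv q (lam c) * deriv lam c = μ * c ^ (μ - 1) := by
  have hopen : IsOpen {z : ℂ | z.im < 0} := isOpen_lt continuous_im continuous_const
  have hlam : DifferentiableAt ℂ lam c := (h.d c hc).differentiableAt (isOpen_ball.mem_nhds hc)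
  have hqd : DifferentiableAt ℂ q (lam c) := by
    have h1 : DifferentiableOn ℂ q {z : ℂ | z.im < 0} := hq.mono (fun z hz' => hz')
    exact (h1 _ (h.val c hc).1).differentiableAt (hopen.mem_nhds (h.val c hc).1)
  have hcomp : HasDerivAt (fun x => q (lam x)) (deriv q (lam c) * deriv lam c) c :=
    hqd.hasDerivAt.comp c hlam.hasDerivAt
  have hpow : HasDerivAt (fun x : ℂ => x ^ μ) (μ * c ^ (μ - 1)) c := hasDerivAt_pow μ c
  have hev : (fun x => q (lam x)) =ᶠ[𝓝 c] fun x => x ^ μ := by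
    filter_upwards [isOpen_ball.mem_nhds hc] with x hx
    exact (h.val x hx).2
  exact hcomp.unique (hpow.congr_of_eventuallyEq hev)

/-- THE DENSITY OF A CHART, `p = 2 / μ`, `X₀ = log r₀ / p`.

Proof. `lam` is differentiable and injective on the open ball, so `deriv lam ≠ 0`
(`Pool.Agent.Lib` or Mathlib: an injective holomorphic function has nonzero derivative; e.g.
`AnalyticAt` local normal form / `WD` lemmas on `ZChart`). By continuity of `deriv lam` at `0` choose `r₀ ≤ r` with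
`‖deriv lam c - deriv lam 0‖ ≤ η ‖deriv lam 0‖` on `ball 0 r₀`. For `Re x < log r₀ / p` `‖exp (p x)‖ < r₀`. `kap` is
analytic there. -/
theorem kap_of_chart {q : ℂ → ℂ} {z₀ : ℂ} {μ : ℕ} {lam : ℂ → ℂ} {r : ℝ}
    (h : ZChart q z₀ μ lam r) {η : ℝ} (hη : 0 < η) (hη' : η ≤ 1 / 20) :
    ∃ r₀ : ℝ, 0 < r₀ ∧ r₀ ≤ r ∧ (∀ c ∈ ball (0 : ℂ) r₀, deriv lam c ≠ 0) ∧
      Kap (2 / μ) (Real.log r₀ / (2 / μ)) η ((2 / μ : ℝ) * deriv lam 0) (kap (2 / μ) lam) := by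
  have hmu : (0 : ℝ) < μ := by exact_mod_cast h.mu
  have hp : (0 : ℝ) < 2 / μ := by positivity
  have hne : ∀ c ∈ ball (0 : ℂ) r, deriv lam c ≠ 0 := by
    intro c hc
    exact Pool.Agent.Lib.MP_1f4a82_an.deriv_ne_zero_of_injOn
      (h.d.analyticAt (isOpen_ball.mem_nhds hc)) (isOpen_ball.mem_nhds hc) h.inj
  have h0 : (0 : ℂ) ∈ ball (0 : ℂ) r := mem_ball_self h.pos
  have hcont : ContinuousAt (deriv lam) 0 :=
    (h.d.analyticAt (isOpen_ball.mem_nhds h0)).deriv.continuousAt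
  have hpos : 0 < η * ‖deriv lam 0‖ := mul_pos hη (norm_pos_iff.2 (hne 0 h0))
  obtain ⟨δ, hδ, hball⟩ := Metric.continuousAt_iff.1 hcont _ hpos
  refine ⟨min r δ, lt_min h.pos hδ, min_le_left _ _, fun c hc =>
    hne c (ball_subset_ball (min_le_left _ _) hc), hp, hη.le, hη', ?_, ?_, ?_⟩
  · exact mul_ne_zero (by exact_mod_cast hp.ne') (hne 0 h0)
  · intro x hx
    have h1 := ball_subset_ball (min_le_left r δ) (F1_ball h.mu (lt_min h.pos hδ) hx)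
    have h2 : AnalyticAt ℂ (deriv lam) (cexp (((2 / μ : ℝ) : ℂ) * x)) :=
      (h.d.analyticAt (isOpen_ball.mem_nhds h1)).deriv
    have h3 : AnalyticAt ℂ (fun x : ℂ => cexp (((2 / μ : ℝ) : ℂ) * x)) x := by fun_prop
    have h4 : AnalyticAt ℂ (fun x : ℂ => deriv lam (cexp (((2 / μ : ℝ) : ℂ) * x))) x :=
      AnalyticAt.comp (g := deriv lam) (f := fun x : ℂ => cexp (((2 / μ : ℝ) : ℂ) * x)) h2 h3
    have h5 : AnalyticAt ℂ (fun x : ℂ => cexp ((1 + ((2 / μ : ℝ) : ℂ)) * x)) x := by fun_prop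
    exact (analyticAt_const.mul h4).mul h5
  · intro x hx
    have h1 := F1_ball h.mu (lt_min h.pos hδ) hx
    have h2 := hball (x := cexp (((2 / μ : ℝ) : ℂ) * x)) (by
      rw [mem_ball] at h1
      exact h1.trans_le (min_le_right _ _))
    rw [dist_eq_norm] at h2
    have e : kap (2 / μ) lam x - ((2 / μ : ℝ) : ℂ) * deriv lam 0 *
        cexp ((1 + ((2 / μ : ℝ) : ℂ)) * x) = ((2 / μ : ℝ) : ℂ) *
          (deriv lam (cexp (((2 / μ : ℝ) : ℂ) * x)) - deriv lam 0) *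
          cexp ((1 + ((2 / μ : ℝ) : ℂ)) * x) := by
      unfold kap
      ring
    rw [e, norm_mul, norm_mul, norm_mul, norm_mul]
    have h3 := mul_le_mul_of_nonneg_left h2.le (norm_nonneg ((2 / μ : ℝ) : ℂ))
    have h4 := mul_le_mul_of_nonneg_right h3 (norm_nonneg (cexp ((1 + ((2 / μ : ℝ) : ℂ)) * x)))
    refine h4.trans (le_of_eq ?_)
    ring

/-- the state `(l, α)` at `(om, ζ)` -/
def stz (p : ℝ) (lam Y : ℂ → ℂ) (x : ℂ × ℂ) : ℂ × ℂ :=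
  (lam (cexp (p * (x.1 - x.2))), Y x.1 * cexp (x.2 - x.1))

/-- `q α² = Y²`. Proof. `q (lam c) = c ^ μ = exp (2 (om - ζ))`, `p μ = 2`. -/
theorem stz_q {q : ℂ → ℂ} {z₀ : ℂ} {μ : ℕ} {lam : ℂ → ℂ} {r r₀ : ℝ} (h : ZChart q z₀ μ lam r)
    (hr0 : 0 < r₀) (hr : r₀ ≤ r) {Y : ℂ → ℂ} {x : ℂ × ℂ}
    (hx : (x.1 - x.2).re < Real.log r₀ / (2 / μ)) :
    q (stz (2 / μ) lam Y x).1 * (stz (2 / μ) lam Y x).2 ^ 2 = Y x.1 ^ 2 ∧
      (stz (2 / μ) lam Y x).1.im < 0 := by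
  have h1 := ball_subset_ball hr (F1_ball h.mu hr0 hx)
  obtain ⟨h2, h3⟩ := h.val _ h1
  refine ⟨?_, h2⟩
  show q (lam (cexp (((2 / μ : ℝ) : ℂ) * (x.1 - x.2)))) *
    (Y x.1 * cexp (x.2 - x.1)) ^ 2 = Y x.1 ^ 2
  rw [h3, F1_pow h.mu]
  have h4 : cexp (x.1 - x.2) * cexp (x.2 - x.1) = 1 := by
    rw [← Complex.exp_add]
    have : x.1 - x.2 + (x.2 - x.1) = 0 := by ring
    rw [this, Complex.exp_zero]
  linear_combination (Y x.1 ^ 2 * (cexp (x.1 - x.2) * cexp (x.2 - x.1) + 1)) * h4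

/-- THE FIRST INTEGRAL. Proof. `stz_q`, `S1_sq`, `C1f_sq`: `Gf = α (sin Y / Y) exp (1 - Y cos Y / sin Y)`,
`α = Y exp (ζ - om)`, `cos Y = - V sin Y`, `exp om = (-1)^k sin Y exp (1 + Y V)`. -/
theorem stz_Gf {q : ℂ → ℂ} {z₀ : ℂ} {μ : ℕ} {lam : ℂ → ℂ} {r r₀ : ℝ} (h : ZChart q z₀ μ lam r)
    (hr0 : 0 < r₀) (hr : r₀ ≤ r) {Y : ℂ → ℂ} {x : ℂ × ℂ} {k : ℕ} {v : ℂ}
    (hx : (x.1 - x.2).re < Real.log r₀ / (2 / μ)) (hY : Y x.1 ≠ 0) (hs : sin (Y x.1) ≠ 0)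
    (hc : cos (Y x.1) = -(v * sin (Y x.1)))
    (he : cexp x.1 = (-1) ^ k * sin (Y x.1) * cexp (1 + Y x.1 * v)) :
    Gf q (stz (2 / μ) lam Y x).1 (stz (2 / μ) lam Y x).2 = (-1) ^ k * cexp x.2 ∧
      S1 (q (stz (2 / μ) lam Y x).1 * (stz (2 / μ) lam Y x).2 ^ 2) ≠ 0 ∧
      (stz (2 / μ) lam Y x).2 ≠ 0 := by
  obtain ⟨h1, -⟩ := stz_q (Y := Y) h hr0 hr hx
  have hS : Y x.1 * S1 (Y x.1 ^ 2) = sin (Y x.1) := S1_sq (Y x.1)
  have hC : C1f (Y x.1 ^ 2) = cos (Y x.1) := C1f_sq (Y x.1)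
  have hS0 : S1 (Y x.1 ^ 2) ≠ 0 := by
    intro h2
    rw [h2, mul_zero] at hS
    exact hs hS.symm
  refine ⟨?_, ?_, ?_⟩
  · unfold Gf
    rw [h1, hC, hc]
    have e1 : (1 : ℂ) - -(v * sin (Y x.1)) / S1 (Y x.1 ^ 2) = 1 + Y x.1 * v := by
      rw [← hS]
      field_simp
      ring
    rw [e1]
    show Y x.1 * cexp (x.2 - x.1) * S1 (Y x.1 ^ 2) * cexp (1 + Y x.1 * v) = (-1) ^ k * cexp x.2
    have hsq : ((-1 : ℂ) ^ k) * (-1) ^ k = 1 := by
      rw [← mul_pow]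
      norm_num
    have e2 : cexp x.2 = cexp (x.2 - x.1) * cexp x.1 := by
      rw [← Complex.exp_add]
      congr 1
      ring
    rw [e2, he]
    linear_combination (cexp (x.2 - x.1) * cexp (1 + Y x.1 * v)) * hS -
      (cexp (x.2 - x.1) * sin (Y x.1) * cexp (1 + Y x.1 * v)) * hsq
  · rw [h1]
    exact hS0
  · exact mul_ne_zero hY (Complex.exp_ne_zero _)

/-- THE LIMIT EQUATION along a curve `θ ↦ om θ` with `om' κ / Y = 1`.

Proof. `x := om - ζ`, `c := exp (p x)`. First component: `lam' (c) p c om' = Y exp (- x)`. Second component: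
`(Y' - Y) exp (- x) om' = (sin² Y / Y - Y) exp (- x) Y / kap x = (sin² Y - Y²) exp (- (2 + p) x) / (p lam' (c))`.
`bb q l α = - (q' / 2) α⁴ E2 (Y²)`, `α⁴ E2 (Y²) = exp (- 4 x) (Y² - sin² Y)` (`E2_sq`), `q' (l) lam' (c) = μ c^(μ-1)`
(derivative of `q (lam c) = c ^ μ`, `q` differentiable at `l`), `c^(μ-1) = exp (2 x - p x)`, `μ = 2 / p`. -/
theorem stz_ode {q : ℂ → ℂ} {z₀ : ℂ} {μ : ℕ} {lam : ℂ → ℂ} {r r₀ : ℝ} (h : ZChart q z₀ μ lam r)
    (hq : DifferentiableOn ℂ q Hm) (hr0 : 0 < r₀) (hr : r₀ ≤ r)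
    (hd : ∀ c ∈ ball (0 : ℂ) r₀, deriv lam c ≠ 0) {Y om : ℂ → ℂ} {θ ζ om' : ℂ}
    (hx : (om θ - ζ).re < Real.log r₀ / (2 / μ)) (hom : HasDerivAt om om' θ)
    (hom' : om' * (kap (2 / μ) lam (om θ - ζ) / Y (om θ)) = 1) (hY0 : Y (om θ) ≠ 0)
    (hY : HasDerivAt Y (sin (Y (om θ)) ^ 2 / Y (om θ)) (om θ)) :
    HasDerivAt (fun t => stz (2 / μ) lam Y (om t, ζ))
      (Pool.Agent.MP_ae5b4e_an_A1.gI q (stz (2 / μ) lam Y (om θ, ζ))) θ := by
  have hmu : (μ : ℂ) ≠ 0 := by exact_mod_cast h.mu.ne'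
  obtain ⟨P, hP⟩ : ∃ P : ℂ, P = ((2 / μ : ℝ) : ℂ) := ⟨_, rfl⟩
  have hPm : P * μ = 2 := by
    rw [hP]
    exact F1_pmu h.mu
  have hP0 : P ≠ 0 := by
    intro h0
    rw [h0, zero_mul] at hPm
    exact two_ne_zero hPm.symm
  have hcb := F1_ball h.mu hr0 hx
  have hpow := F1_pow h.mu (om θ - ζ)
  obtain ⟨hqY, -⟩ := stz_q (Y := Y) (x := (om θ, ζ)) h hr0 hr hx
  have hqY' : q (lam (cexp (((2 / μ : ℝ) : ℂ) * (om θ - ζ)))) *
    (Y (om θ) * cexp (ζ - om θ)) ^ 2 = Y (om θ) ^ 2 := hqY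
  rw [← hP] at hcb hpow hqY'
  obtain ⟨c, hc⟩ : ∃ c : ℂ, c = cexp (P * (om θ - ζ)) := ⟨_, rfl⟩
  rw [← hc] at hcb hpow hqY'
  have hcr := ball_subset_ball hr hcb
  have hD := hd c hcb
  have hqd := F1_qd hq h hcr
  have hc0 : c ≠ 0 := by
    rw [hc]
    exact Complex.exp_ne_zero _
  have hlam : HasDerivAt lam (deriv lam c) c :=
    ((h.d c hcr).differentiableAt (isOpen_ball.mem_nhds hcr)).hasDerivAt
  -- the first component
  have d1 : HasDerivAt (fun t => cexp (P * (om t - ζ))) (c * (P * om')) θ := by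
    have h1 := ((hom.sub_const ζ).const_mul P).cexp
    rwa [← hc] at h1
  have d2 : HasDerivAt (fun t => lam (cexp (P * (om t - ζ)))) (deriv lam c * (c * (P * om')))
      θ := by
    rw [hc] at hlam
    have h1 := HasDerivAt.comp (h₂ := lam) (h := fun t => cexp (P * (om t - ζ))) θ hlam d1
    rwa [← hc] at h1
  -- the second component
  have d3 : HasDerivAt (fun t => cexp (ζ - om t)) (cexp (ζ - om θ) * (-om')) θ :=
    (hom.const_sub ζ).cexp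
  have d4 : HasDerivAt (fun t => Y (om t)) (sin (Y (om θ)) ^ 2 / Y (om θ) * om') θ :=
    HasDerivAt.comp (h₂ := Y) (h := om) θ hY hom
  have d5 := d4.mul d3
  have hkap : kap (2 / μ) lam (om θ - ζ) = P * deriv lam c * (cexp (om θ - ζ) * c) := by
    unfold kap
    rw [← hP, ← hc, add_mul, one_mul, Complex.exp_add, ← hc]
  rw [hkap] at hom'
  obtain ⟨F, hF⟩ : ∃ F : ℂ, F = cexp (ζ - om θ) := ⟨_, rfl⟩
  obtain ⟨E, hE⟩ : ∃ E : ℂ, E = cexp (om θ - ζ) := ⟨_, rfl⟩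
  have hFE : F * E = 1 := by
    rw [hF, hE, ← Complex.exp_add]
    have : ζ - om θ + (om θ - ζ) = 0 := by ring
    rw [this, Complex.exp_zero]
  rw [← hE] at hom' hpow
  rw [← hF] at d5 hqY'
  obtain ⟨y, hy⟩ : ∃ y : ℂ, y = Y (om θ) := ⟨_, rfl⟩
  obtain ⟨D, hDd⟩ : ∃ D : ℂ, D = deriv lam c := ⟨_, rfl⟩
  rw [← hy] at hom' hqY' d5 hY0
  rw [← hDd] at hom' d2 hD hqd
  have h1 : om' * P * D * c * E = y := by
    field_simp at hom'
    linear_combination hom'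
  have h2 : deriv q (lam c) * D * c = μ * E ^ 2 := by
    have h3 : c ^ (μ - 1) * c = c ^ μ := by
      rw [← pow_succ, Nat.sub_add_cancel h.mu]
    rw [hqd, mul_assoc, h3, hpow]
  have hkey : om' * E ^ 3 = deriv q (lam c) * y / 2 := by
    apply mul_right_cancel₀ (mul_ne_zero (mul_ne_zero hP0 hD) hc0)
    linear_combination (E ^ 2) * h1 - (y * P / 2) * h2 - (E ^ 2 * y / 2) * hPm
  have hom2 : om' = deriv q (lam c) * y / 2 * F ^ 3 := by
    calc om' = om' * (F * E) ^ 3 := by rw [hFE]; ring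
      _ = (om' * E ^ 3) * F ^ 3 := by ring
      _ = deriv q (lam c) * y / 2 * F ^ 3 := by rw [hkey]
  have hE2 := E2_sq y
  have goal2 : sin y ^ 2 / y * om' * F + y * (F * -om') =
      Pool.Agent.MP_ae5b4e_an_M.bb q (lam c) (y * F) := by
    unfold bb
    rw [hqY']
    have e1 : (y * F) ^ 4 * E2 (y ^ 2) = F ^ 4 * (y ^ 2 - sin y ^ 2) := by
      rw [← hE2]
      ring
    have e2 : -(deriv q (lam c) / 2) * (y * F) ^ 4 * E2 (y ^ 2) =
        -(deriv q (lam c) / 2) * (F ^ 4 * (y ^ 2 - sin y ^ 2)) := by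
      rw [← e1]
      ring
    rw [e2, hom2]
    field_simp
    ring
  have goal1 : D * (c * (P * om')) = y * F := by
    calc D * (c * (P * om')) = (om' * P * D * c) * (F * E) := by rw [hFE]; ring
      _ = (om' * P * D * c * E) * F := by ring
      _ = y * F := by rw [h1]
  have d6 := d2.prodMk d5
  have e3 : (D * (c * (P * om')), sin y ^ 2 / y * om' * F + y * (F * -om')) =
      Pool.Agent.MP_ae5b4e_an_A1.gI q (stz (2 / μ) lam Y (om θ, ζ)) := by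
    rw [goal1, goal2]
    unfold Pool.Agent.MP_ae5b4e_an_A1.gI stz
    rw [← hP, ← hc, ← hF, ← hy]
  rw [← e3]
  have e4 : (fun t => stz (2 / μ) lam Y (om t, ζ)) =
      fun t => (lam (cexp (P * (om t - ζ))), Y (om t) * cexp (ζ - om t)) := by
    funext t
    unfold stz
    rw [← hP]
  rw [e4]
  exact d6

end Pool.Agent.MP_ae5b4e_an_AZ
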