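import Pool.Agent.Lib.MP_ae5b4e_an_AZ.F1
import Pool.Agent.Lib.MP_ae5b4e_an_T.T3Gf

/-! # AZ: families of solutions from sections; glueing -/

noncomputable section

namespace Pool.Agent.MP_ae5b4e_an_AZ

open Complex Set Filter Topology Metric
open Pool.Agent.MP_ae5b4e_an_M (S1 C1f E2 Gf bb)
open Pool.Agent.MP_ae5b4e_an_WD (ZChart)
open Pool.Agent.MP_ae5b4e_an_A1 (Fw gI)
open PorTR (Hm)

/-- A family of solutions of the limit equation in the coordinates `(θ, ζ)` with first integral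
`s exp ζ`. -/
structure Fz (q : ℂ → ℂ) (s : ℂ) (Ω : Set (ℂ × ℂ)) (z : ℂ × ℂ → ℂ × ℂ) : Prop where
  Ω_open : IsOpen Ω
  z_an : AnalyticOnNhd ℂ z Ω
  maps : ∀ x ∈ Ω, (z x).1.im < 0
  ode : ∀ x ∈ Ω, HasDerivAt (fun θ => z (θ, x.2)) (gI q (z x)) x.1
  s1 : ∀ x ∈ Ω, S1 (q (z x).1 * (z x).2 ^ 2) ≠ 0
  gf : ∀ x ∈ Ω, Gf q (z x).1 (z x).2 = s * cexp x.2
  ne : ∀ x ∈ Ω, (z x).2 ≠ 0

/-- Proof. Injectivity of the differential as in `fw_slit` (A1/Slt): `H u := Gf q u.1 u.2` is differentiable at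
`z x` (`Gf_an`, T3Gf) and `H (z x') = s exp (x'.2)` near `x`. If `fderiv z x (a, b) = 0`, then `s exp (ζ) b = 0`, `b = 0`;
`fderiv z x (a, 0) = a gI q (z x)` (`ode`), first component `a (z x).2 = 0`, so `a = 0`. -/
theorem Fz.fw {q : ℂ → ℂ} (hq : DifferentiableOn ℂ q Hm) {s : ℂ} (hs : s ≠ 0) {Ω : Set (ℂ × ℂ)}
    {z : ℂ × ℂ → ℂ × ℂ} (h : Fz q s Ω z) : Fw (Hm ×ˢ univ) (gI q) Ω z := by
  refine ⟨h.Ω_open, h.z_an, fun x hx => ⟨h.maps x hx, mem_univ _⟩, fun x hx => h.ode x hx, ?_⟩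
  intro x hx
  obtain ⟨D, hD⟩ : ∃ D, D = fderiv ℂ z x := ⟨_, rfl⟩
  have hDd : HasFDerivAt z D x := by
    rw [hD]
    exact (h.z_an x hx).differentiableAt.hasFDerivAt
  -- the first integral
  have hH : AnalyticAt ℂ (fun u : ℂ × ℂ => Gf q u.1 u.2) (z x) :=
    Pool.Agent.MP_ae5b4e_an_T.Gf_an (l := (z x).1) (α := (z x).2) hq (h.maps x hx) (h.s1 x hx)
  have hcomp : (fun x' => Gf q (z x').1 (z x').2) =ᶠ[𝓝 x] fun x' => s * cexp x'.2 := by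
    filter_upwards [h.Ω_open.mem_nhds hx] with x' hx'
    exact h.gf x' hx'
  have hsnd : HasFDerivAt (fun x' => Gf q (z x').1 (z x').2)
      ((fderiv ℂ (fun u : ℂ × ℂ => Gf q u.1 u.2) (z x)).comp D) x :=
    HasFDerivAt.comp (g := fun u : ℂ × ℂ => Gf q u.1 u.2) (f := z) x
      hH.differentiableAt.hasFDerivAt hDd
  have hexp : HasFDerivAt (fun x' : ℂ × ℂ => s * cexp x'.2)
      (s • (cexp x.2 • ContinuousLinearMap.snd ℂ ℂ ℂ)) x :=
    (HasFDerivAt.cexp hasFDerivAt_snd).const_mul s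
  have hsnd' : (fderiv ℂ (fun u : ℂ × ℂ => Gf q u.1 u.2) (z x)).comp D =
      s • (cexp x.2 • ContinuousLinearMap.snd ℂ ℂ ℂ) :=
    (hsnd.congr_of_eventuallyEq hcomp.symm).unique hexp
  -- the derivative in the first direction
  have hfst : D (1, 0) = gI q (z x) := by
    have e1 : HasFDerivAt z D ((fun s : ℂ => (s, x.2)) x.1) := hDd
    have e2 : HasDerivAt (fun s : ℂ => (s, x.2)) ((1 : ℂ), (0 : ℂ)) x.1 :=
      (hasDerivAt_id x.1).prodMk (hasDerivAt_const x.1 x.2)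
    have e3 := HasFDerivAt.comp_hasDerivAt (f := fun s : ℂ => (s, x.2)) (l := z) x.1 e1 e2
    exact e3.unique (h.ode x hx)
  rw [← hD]
  rw [injective_iff_map_eq_zero]
  rintro ⟨a, b⟩ hab
  have hb : b = 0 := by
    have e1 := congrArg (fun T : (ℂ × ℂ) →L[ℂ] ℂ => T (a, b)) hsnd'
    simp only [ContinuousLinearMap.comp_apply, hab, map_zero] at e1
    have e2 : s * (cexp x.2 * b) = 0 := e1.symm
    rcases mul_eq_zero.1 e2 with h0 | h0
    · exact absurd h0 hs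
    · rcases mul_eq_zero.1 h0 with h1 | h1
      · exact absurd h1 (Complex.exp_ne_zero _)
      · exact h1
  subst hb
  have ha : a = 0 := by
    have e1 : D (a, 0) = a • D (1, 0) := by
      rw [← map_smul]
      congr 1
      ext <;> simp
    rw [e1, hfst] at hab
    have e2 := congrArg Prod.fst hab
    have e3 : a * (z x).2 = 0 := e2
    rcases mul_eq_zero.1 e3 with h0 | h0
    · exact h0
    · exact absurd h0 (h.ne x hx)
  rw [ha]
  rfl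

/-- Glueing. Proof. `z x := if h : ∃ i, x ∈ Ω i then zi (choose h) x else 0`; near a point of `Ω i` it is
`zi i`. -/
theorem Fz.glue {ι : Type*} {q : ℂ → ℂ} {s : ℂ} {Ω : ι → Set (ℂ × ℂ)} {zi : ι → ℂ × ℂ → ℂ × ℂ}
    (h : ∀ i, Fz q s (Ω i) (zi i)) (he : ∀ i j, ∀ x ∈ Ω i, x ∈ Ω j → zi i x = zi j x) :
    ∃ z : ℂ × ℂ → ℂ × ℂ, Fz q s (⋃ i, Ω i) z ∧ ∀ i, ∀ x ∈ Ω i, z x = zi i x := by
  classical
  obtain ⟨z, hz⟩ : ∃ z : ℂ × ℂ → ℂ × ℂ, ∀ i, ∀ x ∈ Ω i, z x = zi i x := by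
    refine ⟨fun x => if hx : ∃ i, x ∈ Ω i then zi hx.choose x else 0, fun i x hx => ?_⟩
    have h1 : ∃ i, x ∈ Ω i := ⟨i, hx⟩
    show (if hx : ∃ i, x ∈ Ω i then zi hx.choose x else 0) = zi i x
    rw [dif_pos h1]
    exact he _ i x h1.choose_spec hx
  refine ⟨z, ⟨isOpen_iUnion fun i => (h i).Ω_open, ?_, ?_, ?_, ?_, ?_, ?_⟩, hz⟩
  · intro x hx
    obtain ⟨i, hi⟩ := mem_iUnion.1 hx
    refine ((h i).z_an x hi).congr ?_
    filter_upwards [(h i).Ω_open.mem_nhds hi] with x' hx'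
    exact (hz i x' hx').symm
  · intro x hx
    obtain ⟨i, hi⟩ := mem_iUnion.1 hx
    rw [hz i x hi]
    exact (h i).maps x hi
  · intro x hx
    obtain ⟨i, hi⟩ := mem_iUnion.1 hx
    rw [hz i x hi]
    refine ((h i).ode x hi).congr_of_eventuallyEq ?_
    have hc : ContinuousAt (fun θ : ℂ => (θ, x.2)) x.1 := by fun_prop
    filter_upwards [hc.eventually ((h i).Ω_open.mem_nhds hi)] with θ hθ
    exact hz i (θ, x.2) hθ
  · intro x hx
    obtain ⟨i, hi⟩ := mem_iUnion.1 hx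
    rw [hz i x hi]
    exact (h i).s1 x hi
  · intro x hx
    obtain ⟨i, hi⟩ := mem_iUnion.1 hx
    rw [hz i x hi]
    exact (h i).gf x hi
  · intro x hx
    obtain ⟨i, hi⟩ := mem_iUnion.1 hx
    rw [hz i x hi]
    exact (h i).ne x hi

/-- A FAMILY FROM A SECTION `om (θ, ζ)` with `T (om (θ, ζ), ζ) = θ`.

Proof. `z x := stz p lam Y (om x, x.2)`, analytic by composition (`lam` analytic on the ball, `Y` analytic at
`om x`). For fixed `ζ`: differentiate `T (om (θ, ζ), ζ) = θ`: `om' * (κ / Y) = 1`; `stz_ode`; `stz_Gf`; `stz_q`. -/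
theorem fz_sec {q : ℂ → ℂ} {z₀ : ℂ} {μ k : ℕ} {lam : ℂ → ℂ} {r r₀ : ℝ} (h : ZChart q z₀ μ lam r)
    (hq : DifferentiableOn ℂ q Hm) (hr0 : 0 < r₀) (hr : r₀ ≤ r)
    (hd : ∀ c ∈ ball (0 : ℂ) r₀, deriv lam c ≠ 0) {Ω : Set (ℂ × ℂ)} (hΩ : IsOpen Ω)
    {om : ℂ × ℂ → ℂ} (hom : AnalyticOnNhd ℂ om Ω) {Y V : ℂ → ℂ} {T : ℂ × ℂ → ℂ}
    (hm : ∀ x ∈ Ω, (om x - x.2).re < Real.log r₀ / (2 / μ) ∧ AnalyticAt ℂ Y (om x) ∧
      Y (om x) ≠ 0 ∧ sin (Y (om x)) ≠ 0 ∧ cos (Y (om x)) = -(V (om x) * sin (Y (om x))) ∧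
      cexp (om x) = (-1) ^ k * sin (Y (om x)) * cexp (1 + Y (om x) * V (om x)) ∧
      HasDerivAt Y (sin (Y (om x)) ^ 2 / Y (om x)) (om x) ∧
      HasDerivAt (fun w => T (w, x.2)) (kap (2 / μ) lam (om x - x.2) / Y (om x)) (om x) ∧
      T (om x, x.2) = x.1) :
    Fz q ((-1) ^ k) Ω (fun x => stz (2 / μ) lam Y (om x, x.2)) := by
  have hmu : (0 : ℝ) < μ := by exact_mod_cast h.mu
  have hp : (0 : ℝ) < 2 / μ := by positivity
  refine ⟨hΩ, ?_, ?_, ?_, ?_, ?_, ?_⟩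
  · intro x hx
    obtain ⟨a1, a2, a3, a4, a5, a6, a7, a8, a9⟩ := hm x hx
    have hox := hom x hx
    have hc : cexp (((2 / μ : ℝ) : ℂ) * (om x - x.2)) ∈ ball (0 : ℂ) r := by
      rw [mem_ball, dist_zero_right, Complex.norm_exp, Complex.re_ofReal_mul]
      refine lt_of_lt_of_le ?_ hr
      rw [← Real.lt_log_iff_exp_lt hr0]
      have := mul_lt_mul_of_pos_left a1 hp
      rwa [mul_div_cancel₀ _ hp.ne'] at this
    have hlam : AnalyticAt ℂ lam (cexp (((2 / μ : ℝ) : ℂ) * (om x - x.2))) :=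
      h.d.analyticAt (isOpen_ball.mem_nhds hc)
    have e1 : AnalyticAt ℂ (fun x : ℂ × ℂ => cexp (((2 / μ : ℝ) : ℂ) * (om x - x.2))) x :=
      (analyticAt_const.mul (hox.sub analyticAt_snd)).cexp
    have e2 : AnalyticAt ℂ (fun x : ℂ × ℂ => lam (cexp (((2 / μ : ℝ) : ℂ) * (om x - x.2)))) x :=
      AnalyticAt.fun_comp (g := lam)
        (f := fun x : ℂ × ℂ => cexp (((2 / μ : ℝ) : ℂ) * (om x - x.2))) hlam e1
    have e3 : AnalyticAt ℂ (fun x : ℂ × ℂ => Y (om x)) x :=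
      AnalyticAt.fun_comp (g := Y) (f := om) a2 hox
    exact e2.prod (e3.mul (analyticAt_snd.sub hox).cexp)
  · intro x hx
    obtain ⟨a1, -⟩ := hm x hx
    exact (stz_q (Y := Y) (x := (om x, x.2)) h hr0 hr a1).2
  · intro x hx
    obtain ⟨a1, a2, a3, a4, a5, a6, a7, a8, a9⟩ := hm x hx
    have hslice : AnalyticAt ℂ (fun θ : ℂ => om (θ, x.2)) x.1 :=
      AnalyticAt.fun_comp (g := om) (f := fun θ : ℂ => (θ, x.2)) (hom x hx)
        (analyticAt_id.prod analyticAt_const)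
    have hder := hslice.differentiableAt.hasDerivAt
    have h1 : HasDerivAt (fun θ : ℂ => T (om (θ, x.2), x.2))
        (kap (2 / μ) lam (om x - x.2) / Y (om x) * deriv (fun θ : ℂ => om (θ, x.2)) x.1) x.1 :=
      HasDerivAt.comp (h₂ := fun w => T (w, x.2)) (h := fun θ : ℂ => om (θ, x.2)) x.1 a8 hder
    have hc : ContinuousAt (fun θ : ℂ => (θ, x.2)) x.1 := by fun_prop
    have h2 : (fun θ : ℂ => T (om (θ, x.2), x.2)) =ᶠ[𝓝 x.1] fun θ => θ := by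
      filter_upwards [hc.eventually (hΩ.mem_nhds hx)] with θ hθ
      exact (hm (θ, x.2) hθ).2.2.2.2.2.2.2.2
    have h3 := (h1.congr_of_eventuallyEq h2.symm).unique (hasDerivAt_id' x.1)
    exact stz_ode (om := fun θ : ℂ => om (θ, x.2)) (θ := x.1) (ζ := x.2) h hq hr0 hr hd a1 hder
      (by rw [mul_comm]; exact h3) a3 a7
  · intro x hx
    obtain ⟨a1, a2, a3, a4, a5, a6, a7, a8, a9⟩ := hm x hx
    exact (stz_Gf (x := (om x, x.2)) h hr0 hr a1 a3 a4 a5 a6).2.1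
  · intro x hx
    obtain ⟨a1, a2, a3, a4, a5, a6, a7, a8, a9⟩ := hm x hx
    exact (stz_Gf (x := (om x, x.2)) h hr0 hr a1 a3 a4 a5 a6).1
  · intro x hx
    obtain ⟨a1, a2, a3, a4, a5, a6, a7, a8, a9⟩ := hm x hx
    exact (stz_Gf (x := (om x, x.2)) h hr0 hr a1 a3 a4 a5 a6).2.2

end Pool.Agent.MP_ae5b4e_an_AZ
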