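import Pool.Agent.Lib.SCV.Osgood

/-! # AZ: primitives on star shaped domains, with a parameter -/

noncomputable section

namespace Pool.Agent.MP_ae5b4e_an_AZ

open Complex Set Filter Topology Metric MeasureTheory intervalIntegral

/-- the primitive of `f (·, ζ)` from `c` along the segment -/
def prim (c : ℂ) (f : ℂ × ℂ → ℂ) (x : ℂ × ℂ) : ℂ :=
  (x.1 - c) * ∫ s in (0 : ℝ)..1, f (c + s * (x.1 - c), x.2)

/-- the linear map `(h₁, h₂) ↦ (s h₁, h₂)` -/
def primL (s : ℝ) : ℂ × ℂ →L[ℂ] ℂ × ℂ :=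
  ((s : ℂ) • ContinuousLinearMap.fst ℂ ℂ ℂ).prod (ContinuousLinearMap.snd ℂ ℂ ℂ)

theorem primL_apply (s : ℝ) (h : ℂ × ℂ) : primL s h = ((s : ℂ) * h.1, h.2) := rfl

theorem primL_cont : Continuous primL := by
  have h : primL = fun s : ℝ => (s : ℂ) • ((ContinuousLinearMap.fst ℂ ℂ ℂ).prod
      (0 : ℂ × ℂ →L[ℂ] ℂ)) +
      (0 : ℂ × ℂ →L[ℂ] ℂ).prod (ContinuousLinearMap.snd ℂ ℂ ℂ) := by
    funext s
    ext <;> simp [primL]
  rw [h]
  fun_prop

/-- the point on the segment -/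
def primP (c : ℂ) (x : ℂ × ℂ) (s : ℝ) : ℂ × ℂ := (c + s * (x.1 - c), x.2)

theorem primP_cont (c : ℂ) : Continuous (fun p : (ℂ × ℂ) × ℝ => primP c p.1 p.2) := by
  unfold primP
  fun_prop

theorem primP_fd (c : ℂ) (x : ℂ × ℂ) (s : ℝ) :
    HasFDerivAt (fun x => primP c x s) (primL s) x := by
  have h : (fun x => primP c x s) = fun x => primL s x + primP c 0 s := by
    funext y
    rw [primL_apply]
    unfold primP
    simp only [Prod.mk_add_mk, Prod.fst_zero, Prod.snd_zero, add_zero]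
    congr 1
    ring
  rw [h]
  exact (primL s).hasFDerivAt.add_const _

theorem prim_fd {c : ℂ} {f : ℂ × ℂ → ℂ} {E : Set (ℂ × ℂ)} (hE : IsOpen E)
    (hf : AnalyticOnNhd ℂ f E)
    (hs : ∀ x ∈ E, ∀ s : ℝ, 0 ≤ s → s ≤ 1 → (c + s * (x.1 - c), x.2) ∈ E) {x : ℂ × ℂ}
    (hx : x ∈ E) :
    HasFDerivAt (fun x : ℂ × ℂ => ∫ s in (0 : ℝ)..1, f (primP c x s))
      (∫ s in (0 : ℝ)..1, (fderiv ℂ f (primP c x s)).comp (primL s)) x ∧
    ContinuousOn (fun s : ℝ => (fderiv ℂ f (primP c x s)).comp (primL s)) (Icc 0 1) := by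
  obtain ⟨r, hr, hrE⟩ := Metric.nhds_basis_closedBall.mem_iff.1 (hE.mem_nhds hx)
  have hfc : ContinuousOn (fderiv ℂ f) E := hf.fderiv.continuousOn
  have hdf : ∀ y ∈ E, HasFDerivAt f (fderiv ℂ f y) y := fun y hy =>
    (hf y hy).differentiableAt.hasFDerivAt
  have hmap : ∀ y ∈ closedBall x r, ∀ s ∈ Icc (0 : ℝ) 1, primP c y s ∈ E := fun y hy s hs' =>
    hs y (hrE hy) s hs'.1 hs'.2
  have hcF : ContinuousOn (fun p : (ℂ × ℂ) × ℝ =>
      (fderiv ℂ f (primP c p.1 p.2)).comp (primL p.2)) (closedBall x r ×ˢ Icc (0 : ℝ) 1) := by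
    have h1 : ContinuousOn (fun p : (ℂ × ℂ) × ℝ => fderiv ℂ f (primP c p.1 p.2))
        (closedBall x r ×ˢ Icc (0 : ℝ) 1) :=
      hfc.comp (primP_cont c).continuousOn (fun p hp => hmap p.1 hp.1 p.2 hp.2)
    exact h1.clm_comp ((primL_cont.comp continuous_snd).continuousOn)
  have hK : IsCompact (closedBall x r ×ˢ Icc (0 : ℝ) 1) :=
    (isCompact_closedBall x r).prod isCompact_Icc
  obtain ⟨C, hC⟩ := hK.exists_bound_of_continuousOn hcF
  have hcx : ∀ y ∈ closedBall x r,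
      ContinuousOn (fun s : ℝ => (fderiv ℂ f (primP c y s)).comp (primL s)) (Icc 0 1) := by
    intro y hy
    exact hcF.comp (f := fun s : ℝ => (y, s)) (by fun_prop) (fun s hs' => ⟨hy, hs'⟩)
  have hcf : ∀ y ∈ closedBall x r,
      ContinuousOn (fun s : ℝ => f (primP c y s)) (Icc 0 1) := by
    intro y hy
    refine hf.continuousOn.comp (f := fun s : ℝ => primP c y s) ?_
      (fun s hs' => hmap y hy s hs')
    exact ((primP_cont c).comp (f := fun s : ℝ => (y, s)) (by fun_prop)).continuousOn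
  have hx' : x ∈ closedBall x r := mem_closedBall_self hr.le
  have hsub : Set.uIoc (0 : ℝ) 1 ⊆ Icc 0 1 := by
    rw [Set.uIoc_of_le zero_le_one]
    exact Ioc_subset_Icc_self
  refine ⟨?_, hcx x hx'⟩
  refine intervalIntegral.hasFDerivAt_integral_of_dominated_of_fderiv_le
    (F := fun x s => f (primP c x s))
    (F' := fun x s => (fderiv ℂ f (primP c x s)).comp (primL s)) (bound := fun _ => C)
    (s := ball x r) (ball_mem_nhds x hr) ?_ ?_ ?_ ?_ ?_ ?_
  · filter_upwards [ball_mem_nhds x hr] with y hy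
    exact ((hcf y (ball_subset_closedBall hy)).mono hsub).aestronglyMeasurable
      measurableSet_uIoc
  · refine ContinuousOn.intervalIntegrable ?_
    rw [Set.uIcc_of_le zero_le_one]
    exact hcf x hx'
  · exact ((hcx x hx').mono hsub).aestronglyMeasurable measurableSet_uIoc
  · refine Eventually.of_forall (fun s hs' y hy => ?_)
    exact hC (y, s) ⟨ball_subset_closedBall hy, hsub hs'⟩
  · exact intervalIntegrable_const
  · refine Eventually.of_forall (fun s hs' y hy => ?_)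
    exact (hdf _ (hmap y (ball_subset_closedBall hy) s (hsub hs'))).comp y (primP_fd c y s)

/-- Proof. Fix `x = (z₀, ζ)`; the fibre `E_ζ = {z | (z, ζ) ∈ E}` is open and star shaped about `c`.
`g z := ∫₀¹ f (c + s (z - c), ζ) ds` has derivative `∫₀¹ s ∂₁ f (c + s (z - c), ζ) ds`
(differentiation under the
integral sign; on the compact segment `{(c + s (z₀ - c), ζ)}` Cauchy estimates on discs of a fixed
radius
inside `E`). So the derivative of `(z - c) g z` is `∫₀¹ (f + s (z - c) ∂₁ f) ds = ∫₀¹ d/ds (s f (c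
+ s (z - c), ζ)) ds
= f (z, ζ)`. -/
theorem prim_der {c : ℂ} {f : ℂ × ℂ → ℂ} {E : Set (ℂ × ℂ)} (hE : IsOpen E)
    (hf : AnalyticOnNhd ℂ f E)
    (hs : ∀ x ∈ E, ∀ s : ℝ, 0 ≤ s → s ≤ 1 → (c + s * (x.1 - c), x.2) ∈ E) {x : ℂ × ℂ}
    (hx : x ∈ E) : HasDerivAt (fun z => prim c f (z, x.2)) (f x) x.1 := by
  obtain ⟨h1, h2⟩ := prim_fd hE hf hs hx
  have hdf : ∀ y ∈ E, HasFDerivAt f (fderiv ℂ f y) y := fun y hy =>
    (hf y hy).differentiableAt.hasFDerivAt
  have h3 : HasFDerivAt (fun z : ℂ => (z, x.2))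
      ((ContinuousLinearMap.id ℂ ℂ).prod (0 : ℂ →L[ℂ] ℂ)) x.1 :=
    (hasFDerivAt_id x.1).prodMk (hasFDerivAt_const x.2 x.1)
  have h4 : HasDerivAt (fun z : ℂ => ∫ s in (0 : ℝ)..1, f (primP c (z, x.2) s))
      (∫ s in (0 : ℝ)..1, (fderiv ℂ f (primP c x s)) ((s : ℂ), 0)) x.1 := by
    have h5 := (HasFDerivAt.comp x.1 (f := fun z : ℂ => (z, x.2)) (by simpa using h1) h3).hasDerivAt
    refine h5.congr_deriv ?_
    rw [ContinuousLinearMap.comp_apply]
    rw [ContinuousLinearMap.intervalIntegral_apply]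
    · refine intervalIntegral.integral_congr (fun s _ => ?_)
      simp [primL_apply]
    · refine ContinuousOn.intervalIntegrable ?_
      rw [Set.uIcc_of_le zero_le_one]
      exact h2
  have h6 := ((hasDerivAt_id x.1).sub_const c).mul h4
  have h7 : HasDerivAt (fun z => prim c f (z, x.2))
      (1 * (∫ s in (0 : ℝ)..1, f (primP c (x.1, x.2) s)) +
        (x.1 - c) * ∫ s in (0 : ℝ)..1, (fderiv ℂ f (primP c x s)) ((s : ℂ), 0)) x.1 := h6
  refine h7.congr_deriv ?_
  have hseg : ∀ s ∈ Icc (0 : ℝ) 1, primP c x s ∈ E := fun s hs' => hs x hx s hs'.1 hs'.2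
  have hc1 : ContinuousOn (fun s : ℝ => f (primP c x s)) (Icc 0 1) := by
    refine hf.continuousOn.comp (f := fun s : ℝ => primP c x s) ?_ hseg
    exact ((primP_cont c).comp (f := fun s : ℝ => (x, s)) (by fun_prop)).continuousOn
  have hc2 : ContinuousOn (fun s : ℝ => (fderiv ℂ f (primP c x s)) ((s : ℂ), 0)) (Icc 0 1) := by
    have h8 : ContinuousOn (fun s : ℝ => ((fderiv ℂ f (primP c x s)).comp (primL s)) (1, 0))
        (Icc 0 1) := h2.clm_apply continuousOn_const
    refine h8.congr (fun s _ => ?_)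
    simp [primL_apply]
  have hi1 : IntervalIntegrable (fun s : ℝ => f (primP c x s)) volume 0 1 := by
    refine ContinuousOn.intervalIntegrable ?_
    rw [Set.uIcc_of_le zero_le_one]
    exact hc1
  have hi2 : IntervalIntegrable (fun s : ℝ => (x.1 - c) *
      (fderiv ℂ f (primP c x s)) ((s : ℂ), 0)) volume 0 1 := by
    refine ContinuousOn.intervalIntegrable ?_
    rw [Set.uIcc_of_le zero_le_one]
    exact continuousOn_const.mul hc2
  have h9 : ∫ s in (0 : ℝ)..1, (f (primP c x s) + (x.1 - c) *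
      (fderiv ℂ f (primP c x s)) ((s : ℂ), 0)) =
      (1 : ℝ) * f (primP c x 1) - (0 : ℝ) * f (primP c x 0) := by
    have h10 : ∀ s ∈ Set.uIcc (0 : ℝ) 1, HasDerivAt (fun s : ℝ => (s : ℂ) * f (primP c x s))
        (f (primP c x s) + (x.1 - c) * (fderiv ℂ f (primP c x s)) ((s : ℂ), 0)) s := by
      intro s hs'
      rw [Set.uIcc_of_le zero_le_one] at hs'
      have ha : HasDerivAt (fun s : ℝ => (s : ℂ)) 1 s := Complex.ofRealCLM.hasDerivAt
      have hb : HasDerivAt (fun s : ℝ => primP c x s) ((x.1 - c), (0 : ℂ)) s := by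
        have hb1 : HasDerivAt (fun s : ℝ => c + (s : ℂ) * (x.1 - c)) (x.1 - c) s := by
          simpa using (ha.mul_const (x.1 - c)).const_add c
        exact hb1.prodMk (hasDerivAt_const s x.2)
      have hd : HasDerivAt (fun s : ℝ => f (primP c x s))
          ((fderiv ℂ f (primP c x s)) ((x.1 - c), (0 : ℂ))) s := by
        have := ((hdf _ (hseg s hs')).restrictScalars ℝ).comp_hasDerivAt s hb
        simpa [Function.comp_def] using this
      have he := ha.mul hd
      refine he.congr_deriv ?_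
      rw [one_mul]
      congr 1
      have hg : (((x.1 - c), (0 : ℂ)) : ℂ × ℂ) = (x.1 - c) • ((1 : ℂ), (0 : ℂ)) := by
        simp
      have hh : (((s : ℂ), (0 : ℂ)) : ℂ × ℂ) = (s : ℂ) • ((1 : ℂ), (0 : ℂ)) := by
        simp
      rw [hg, hh, map_smul, map_smul]
      simp only [smul_eq_mul]
      ring
    rw [intervalIntegral.integral_eq_sub_of_hasDerivAt h10 (hi1.add hi2)]
  have h11 : primP c x 1 = x := by
    unfold primP
    simp
  rw [h11] at h9
  simp only [Complex.ofReal_one, one_mul, Complex.ofReal_zero, zero_mul, sub_zero] at h9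
  rw [← h9, intervalIntegral.integral_add hi1 hi2, intervalIntegral.integral_const_mul, one_mul]

/-- Proof. `osgood` (`Pool.Agent.Lib.SCV.Osgood`): separately differentiable (`prim_der`; in `ζ`:
differentiation
under the integral sign), continuous (dominated convergence / uniform continuity on compact sets).
-/
theorem prim_an {c : ℂ} {f : ℂ × ℂ → ℂ} {E : Set (ℂ × ℂ)} (hE : IsOpen E)
    (hf : AnalyticOnNhd ℂ f E)
    (hs : ∀ x ∈ E, ∀ s : ℝ, 0 ≤ s → s ≤ 1 → (c + s * (x.1 - c), x.2) ∈ E) :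
    AnalyticOnNhd ℂ (prim c f) E := by
  refine Pool.Agent.SCV.differentiableOn_analyticOnNhd E hE _ (fun x hx => ?_)
  obtain ⟨h1, _⟩ := prim_fd hE hf hs hx
  have h2 : DifferentiableAt ℂ (fun x : ℂ × ℂ => x.1 - c) x := by fun_prop
  exact (h2.mul h1.differentiableAt).differentiableWithinAt

end Pool.Agent.MP_ae5b4e_an_AZ
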