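import Pool.Agent.Lib.MP_ae5b4e_an_AZ.V2

/-! # AZ: the domain and the structure of `V, Y` -/

noncomputable section

namespace Pool.Agent.MP_ae5b4e_an_AZ

open Complex Set Filter Topology Metric

/-- the domain of `Y`: the plane without `{Im = W, Re ≤ U0}` and `{Im ≤ -W, Re ≤ U0}` -/
def Xk (k : ℕ) : Set ℂ := {z | |z.im| < Wk k ∨ U0 < z.re ∨ Wk k < z.im}

/-- `V = - cot Y` and `Y` as functions of `om` -/
structure Sh (k : ℕ) (V Y : ℂ → ℂ) : Prop where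
  V_an : AnalyticOnNhd ℂ V (Xk k)
  Y_an : AnalyticOnNhd ℂ Y (Xk k)
  s1 : ∀ z : ℂ, (|z.im| < Wk k ∨ U0 < z.re) → V z ∈ C1 ∧ om1 k (V z) = z ∧ Y z = y1 k (V z)
  s2 : ∀ z : ℂ, Wk k < z.im → V z ∈ C2 ∧ om2 k (V z) = z ∧ Y z = y2 k (V z)

theorem isOpen_Xk (k : ℕ) : IsOpen (Xk k) := by
  have h1 : IsOpen {z : ℂ | |z.im| < Wk k} := isOpen_lt (by fun_prop) continuous_const
  have h2 : IsOpen {z : ℂ | U0 < z.re} := isOpen_lt continuous_const (by fun_prop)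
  have h3 : IsOpen {z : ℂ | Wk k < z.im} := isOpen_lt continuous_const (by fun_prop)
  exact h1.union (h2.union h3)

end Pool.Agent.MP_ae5b4e_an_AZ
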