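import Pool.Agent.Lib.MP_ae5b4e_an_AZ.V3
import Pool.Agent.Lib.MP_ae5b4e_an_AZ.V5d

/-! # AZ: properties of `V, Y` -/

noncomputable section

namespace Pool.Agent.MP_ae5b4e_an_AZ

open Complex Set Filter Topology Metric

variable {k : ℕ} {V Y : ℂ → ℂ}

theorem v5b_cases {z : ℂ} (hz : z ∈ Xk k) :
    (∀ᶠ w in 𝓝 z, |w.im| < Wk k ∨ U0 < w.re) ∨ (∀ᶠ w in 𝓝 z, Wk k < w.im) := by
  rcases hz with h | h | h
  · left
    have h1 : IsOpen {w : ℂ | |w.im| < Wk k} := isOpen_lt (by fun_prop) continuous_const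
    filter_upwards [h1.mem_nhds h] with w hw
    exact Or.inl hw
  · left
    have h2 : IsOpen {w : ℂ | U0 < w.re} := isOpen_lt continuous_const (by fun_prop)
    filter_upwards [h2.mem_nhds h] with w hw
    exact Or.inr hw
  · right
    have h3 : IsOpen {w : ℂ | Wk k < w.im} := isOpen_lt continuous_const (by fun_prop)
    filter_upwards [h3.mem_nhds h] with w hw
    exact hw

theorem v5b_Wk_nonneg (k : ℕ) : (k : ℝ) * Real.pi = Wk k - Real.pi / 2 ∧ 0 < Wk k := by
  constructor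
  · unfold Wk
    ring
  · unfold Wk
    have := Real.pi_pos
    positivity

theorem v5b_y1_ne (k : ℕ) {v : ℂ} (hv : v ∈ C1) : y1 k v ≠ 0 := by
  intro h
  have h1 := (re_y1_mem k hv).1
  rw [h, zero_re] at h1
  have h2 := (v5b_Wk_nonneg k).1
  have : 0 ≤ (k : ℝ) * Real.pi := by
    have := Real.pi_pos
    positivity
  linarith

theorem v5b_y2_ne (k : ℕ) {v : ℂ} (hv : v ∈ C2) : y2 k v ≠ 0 := by
  intro h
  have h1 := (re_y2_mem k hv).1
  rw [h, zero_re] at h1
  have h2 := (v5b_Wk_nonneg k).2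
  linarith

/-- Proof. On the open set `G1` (resp. `G2`): differentiate `om1 (V z) = z` (`HasDerivAt.comp`, uniqueness of
derivatives): `y1 (V z) * V' (z) = 1`, and `Y z = y1 (V z)`. -/
theorem Sh.hasDerivAt_V (h : Sh k V Y) {z : ℂ} (hz : z ∈ Xk k) : HasDerivAt V (1 / Y z) z := by
  have hV : DifferentiableAt ℂ V z := (h.V_an z hz).differentiableAt
  have hd := hV.hasDerivAt
  rcases v5b_cases hz with h1 | h1
  · obtain ⟨m, e1, e2⟩ := h.s1 z h1.self_of_nhds
    have h2 : HasDerivAt (fun w => om1 k (V w)) (y1 k (V z) * deriv V z) z :=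
      (hasDerivAt_om1 k m).comp z hd
    have h3 : HasDerivAt (fun w => om1 k (V w)) 1 z := by
      refine (hasDerivAt_id z).congr_of_eventuallyEq ?_
      filter_upwards [h1] with w hw
      exact (h.s1 w hw).2.1
    have h4 := h2.unique h3
    have h5 : deriv V z = 1 / Y z := by
      rw [e2, eq_div_iff (v5b_y1_ne k m), mul_comm]
      exact h4
    rwa [h5] at hd
  · obtain ⟨m, e1, e2⟩ := h.s2 z h1.self_of_nhds
    have h2 : HasDerivAt (fun w => om2 k (V w)) (y2 k (V z) * deriv V z) z :=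
      (hasDerivAt_om2 k m).comp z hd
    have h3 : HasDerivAt (fun w => om2 k (V w)) 1 z := by
      refine (hasDerivAt_id z).congr_of_eventuallyEq ?_
      filter_upwards [h1] with w hw
      exact (h.s2 w hw).2.1
    have h4 := h2.unique h3
    have h5 : deriv V z = 1 / Y z := by
      rw [e2, eq_div_iff (v5b_y2_ne k m), mul_comm]
      exact h4
    rwa [h5] at hd

/-- Proof. `Y = y1 ∘ V` near `z`: derivative `1 / (1 + V²) * (1 / Y)`, and `sin (Y)² = 1 / (1 + V²)`
(`trig1`, `trig2`). -/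
theorem Sh.hasDerivAt_Y (h : Sh k V Y) {z : ℂ} (hz : z ∈ Xk k) :
    HasDerivAt Y (sin (Y z) ^ 2 / Y z) z := by
  have hd := h.hasDerivAt_V hz
  rcases v5b_cases hz with h1 | h1
  · obtain ⟨m, e1, e2⟩ := h.s1 z h1.self_of_nhds
    have h2 : HasDerivAt (fun w => y1 k (V w)) (1 / (1 + V z ^ 2) * (1 / Y z)) z :=
      (hasDerivAt_y1 k m).comp z hd
    have h3 : HasDerivAt Y (1 / (1 + V z ^ 2) * (1 / Y z)) z := by
      refine h2.congr_of_eventuallyEq ?_
      filter_upwards [h1] with w hw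
      exact (h.s1 w hw).2.2
    refine h3.congr_deriv ?_
    rw [← (trig1 k m).2.2.1, ← e2]
    ring
  · obtain ⟨m, e1, e2⟩ := h.s2 z h1.self_of_nhds
    have h2 : HasDerivAt (fun w => y2 k (V w)) (1 / (1 + V z ^ 2) * (1 / Y z)) z :=
      (hasDerivAt_y2 k m).comp z hd
    have h3 : HasDerivAt Y (1 / (1 + V z ^ 2) * (1 / Y z)) z := by
      refine h2.congr_of_eventuallyEq ?_
      filter_upwards [h1] with w hw
      exact (h.s2 w hw).2.2
    refine h3.congr_deriv ?_
    rw [← (trig2 k m).2.2.1, ← e2]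
    ring

/-- Proof. `re_y1_mem`, `re_y2_mem`, `Wk k = (k + 1/2) π`. -/
theorem Sh.re_mem (h : Sh k V Y) {z : ℂ} (hz : z ∈ Xk k) :
    k * Real.pi < (Y z).re ∧ (Y z).re < (k + 2) * Real.pi := by
  have hW := (v5b_Wk_nonneg k).1
  have hpi := Real.pi_pos
  have e3 : ((k : ℝ) + 2) * Real.pi = Wk k + 3 / 2 * Real.pi := by
    rw [add_mul, hW]
    ring
  rcases v5b_cases hz with h1 | h1
  · obtain ⟨m, e1, e2⟩ := h.s1 z h1.self_of_nhds
    have h2 := re_y1_mem k m
    rw [← e2] at h2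
    constructor
    · linarith [h2.1]
    · linarith [h2.2]
  · obtain ⟨m, e1, e2⟩ := h.s2 z h1.self_of_nhds
    have h2 := re_y2_mem k m
    rw [← e2] at h2
    constructor
    · linarith [h2.1]
    · linarith [h2.2]

/-- Proof. First `0 < Im (V z)`. Sheet 1, `v = V z ∈ C1`, `Im (om1 v) > 0`: if `Re v ≠ 0`: `im_om1_neg`; if
`Re v = 0`: `om1_I`. Sheet 2, `v ∈ C2`, `Im (om2 v) > W`: if `Re v = 0`: `Im v > 1`; if `Re v > 0`: `om2 = om1`; if
`Re v < 0`: `Im (om2 v) = Im (om1 v) + π (Im v - 1)`, which is `< 0` for `Im v ≤ 0`. Then `im_y1_pos`,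
`im_y2_pos`. -/
theorem Sh.im_pos (h : Sh k V Y) {z : ℂ} (hz : z ∈ Xk k) (hi : 0 < z.im) :
    0 < (V z).im ∧ 0 < (Y z).im := by
  have hW := (v5b_Wk_nonneg k).2
  have hpi := Real.pi_pos
  rcases v5b_cases hz with h1 | h1
  · obtain ⟨m, e1, e2⟩ := h.s1 z h1.self_of_nhds
    have hv : 0 < (V z).im := by
      rw [← e1] at hi
      by_contra hcon
      push Not at hcon
      by_cases hre : (V z).re = 0
      · have h3 : |(V z).im| < 1 := by
          rcases mem_C1_iff.1 m with h4 | h4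
          · exact absurd hre h4
          · exact h4
        have h5 : V z = ((V z).im : ℂ) * I := by
          apply Complex.ext
          · simp [hre]
          · simp
        rw [h5, om1_I k h3] at hi
        have h6 : ((Uc (V z).im : ℂ) + Wk k * ((V z).im : ℂ) * I).im = Wk k * (V z).im := by
          simp
        rw [h6] at hi
        nlinarith
      · obtain ⟨a1, -, a3⟩ := im_om1_neg k hre
        rcases hcon.lt_or_eq with h4 | h4
        · linarith [a1 h4]
        · linarith [a3 h4]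
    refine ⟨hv, ?_⟩
    rw [e2]
    exact im_y1_pos k m hv
  · obtain ⟨m, e1, e2⟩ := h.s2 z h1.self_of_nhds
    have hzi : Wk k < (om2 k (V z)).im := by
      rw [e1]
      exact h1.self_of_nhds
    have hv : 0 < (V z).im := by
      by_contra hcon
      push Not at hcon
      rcases lt_trichotomy (V z).re 0 with hre | hre | hre
      · obtain ⟨-, h3⟩ := y2_eq_of_neg k hre
        rw [h3] at hzi
        have h4 : (om1 k (V z) + Real.pi * (V z - I)).im =
            (om1 k (V z)).im + Real.pi * ((V z).im - 1) := by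
          simp
        rw [h4] at hzi
        obtain ⟨a1, -, a3⟩ := im_om1_neg k hre.ne
        rcases hcon.lt_or_eq with h5 | h5
        · nlinarith [a1 h5]
        · nlinarith [a3 h5]
      · rcases mem_C2_iff.1 m with h4 | h4
        · exact absurd hre h4
        · linarith
      · obtain ⟨-, h3⟩ := y2_eq_of_pos k hre
        rw [h3] at hzi
        obtain ⟨a1, -, a3⟩ := im_om1_neg k hre.ne'
        rcases hcon.lt_or_eq with h5 | h5
        · linarith [a1 h5]
        · linarith [a3 h5]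
    refine ⟨hv, ?_⟩
    rw [e2]
    exact im_y2_pos k m hv

/-- Proof. `trig1`, `trig2`. -/
theorem Sh.trig (h : Sh k V Y) {z : ℂ} (hz : z ∈ Xk k) :
    sin (Y z) ≠ 0 ∧ cos (Y z) = -(V z * sin (Y z)) ∧ sin (Y z) ^ 2 = 1 / (1 + V z ^ 2) ∧
      cexp z = (-1) ^ k * sin (Y z) * cexp (1 + Y z * V z) := by
  rcases v5b_cases hz with h1 | h1
  · obtain ⟨m, e1, e2⟩ := h.s1 z h1.self_of_nhds
    obtain ⟨a, b, c, d, -⟩ := trig1 k m
    rw [← e2] at a b c d
    rw [e1] at d
    exact ⟨a, b, c, d⟩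
  · obtain ⟨m, e1, e2⟩ := h.s2 z h1.self_of_nhds
    obtain ⟨a, b, c, d, -⟩ := trig2 k m
    rw [← e2] at a b c d
    rw [e1] at d
    exact ⟨a, b, c, d⟩

theorem v5b_exp (k : ℕ) {v Lp Lm : ℂ} (hp : cexp Lp = 1 + v * I) (hm : cexp Lm = 1 - v * I) :
    cexp (2 * I * (Wk k + (Lp - Lm) / (2 * I))) = -((1 + v * I) / (1 - v * I)) := by
  have hI : (I : ℂ) ≠ 0 := I_ne_zero
  have e1 : 2 * I * (Wk k + (Lp - Lm) / (2 * I)) = (Wk k * I + Wk k * I) + (Lp - Lm) := by
    field_simp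
    ring
  rw [e1, Complex.exp_add, Complex.exp_add, Complex.exp_sub, exp_Wk, hp, hm]
  have hsq : ((-1 : ℂ) ^ k) * (-1) ^ k = 1 := by
    rw [← mul_pow]
    norm_num
  have e2 : (-1 : ℂ) ^ k * I * ((-1) ^ k * I) = -1 := by
    linear_combination I ^ 2 * hsq + I_sq
  rw [e2]
  ring

/-- Proof. `exp (2 i y) = exp (2 i W) exp (Lp - Lm) = - (1 + v I) / (1 - v I)` (`exp_Wk`, `exp_log_p1` ...). -/
theorem Sh.exp_2iY (h : Sh k V Y) {z : ℂ} (hz : z ∈ Xk k) :
    cexp (2 * I * Y z) = -((1 + V z * I) / (1 - V z * I)) := by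
  rcases v5b_cases hz with h1 | h1
  · obtain ⟨m, e1, e2⟩ := h.s1 z h1.self_of_nhds
    rw [e2]
    exact v5b_exp k (exp_log_p1 m) (exp_log_m1 m)
  · obtain ⟨m, e1, e2⟩ := h.s2 z h1.self_of_nhds
    rw [e2]
    exact v5b_exp k (exp_log_p2 m) (exp_log_m2 m)

end Pool.Agent.MP_ae5b4e_an_AZ
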