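import Pool.Agent.Lib.MP_ae5b4e_an_AZ.T1d
import Pool.Agent.Lib.MP_ae5b4e_an_AZ.V5b

/-! # AZ: the time function on the slit domain: definitions -/

noncomputable section

namespace Pool.Agent.MP_ae5b4e_an_AZ

open Complex Set Filter Topology Metric MeasureTheory

variable {k : ℕ} {V Y : ℂ → ℂ} {p X₀ η : ℝ} {c₁ : ℂ} {κ : ℂ → ℂ}

theorem Wk_ge {k : ℕ} (hk : 1 ≤ k) : 3 / 2 * Real.pi ≤ Wk k := by
  have h1 : (1 : ℝ) ≤ k := by exact_mod_cast hk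
  have h2 := Real.pi_pos
  unfold Wk
  nlinarith

theorem U0_lt_one : U0 < 1 := by
  unfold U0
  have := Real.log_pos (by norm_num : (1 : ℝ) < 2)
  linarith

theorem U0_pos : 0 < U0 := by
  unfold U0
  have := Real.log_two_lt_d9
  linarith

/-- Proof. `k π ≥ π`; `Sh.re_mem`. -/
theorem Sh.LD_strip (h : Sh k V Y) (hk : 1 ≤ k) : LD {z : ℂ | |z.im| < Wk k} Real.pi Y := by
  have hpi := Real.pi_pos
  have hk' : (1 : ℝ) ≤ k := by exact_mod_cast hk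
  refine ⟨isOpen_lt (continuous_abs.comp continuous_im) continuous_const, ?_, hpi, ?_, ?_⟩
  · intro z hz t _
    have h1 : |z.im| < Wk k := hz
    show |(z - t).im| < Wk k
    rwa [sub_im, ofReal_im, sub_zero]
  · exact fun z hz => h.Y_an z (Or.inl hz)
  · intro z hz
    have h1 := (h.re_mem (Or.inl hz : z ∈ Xk k)).1
    nlinarith

/-- Proof. As `Sh.LD_strip`. -/
theorem Sh.LD_up (h : Sh k V Y) (hk : 1 ≤ k) : LD {z : ℂ | Wk k < z.im} Real.pi Y := by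
  have hpi := Real.pi_pos
  have hk' : (1 : ℝ) ≤ k := by exact_mod_cast hk
  refine ⟨isOpen_lt continuous_const continuous_im, ?_, hpi, ?_, ?_⟩
  · intro z hz t _
    have h1 : Wk k < z.im := hz
    show Wk k < (z - t).im
    rwa [sub_im, ofReal_im, sub_zero]
  · exact fun z hz => h.Y_an z (Or.inr (Or.inr hz))
  · intro z hz
    have h1 := (h.re_mem (Or.inr (Or.inr hz) : z ∈ Xk k)).1
    nlinarith

/-- the domain of the time function: the strip for all `ζ`, the rest of `Xk` for `Re ζ > R₀` -/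
def DT (k : ℕ) (X₀ R₀ : ℝ) : Set (ℂ × ℂ) :=
  {x | x.1 ∈ Xk k ∧ (x.1 - x.2).re < X₀ ∧ (|x.1.im| < Wk k ∨ R₀ < x.2.re)}

/-- the time function -/
structure TT (k : ℕ) (X₀ R₀ : ℝ) (κ Y : ℂ → ℂ) (T : ℂ × ℂ → ℂ) (θZ : ℂ → ℂ) : Prop where
  an : AnalyticOnNhd ℂ T (DT k X₀ R₀)
  der : ∀ x ∈ DT k X₀ R₀, HasDerivAt (fun z => T (z, x.2)) (κ (x.1 - x.2) / Y x.1) x.1
  strip : ∀ x : ℂ × ℂ, |x.1.im| < Wk k → (x.1 - x.2).re < X₀ → T x = TZ κ Y x
  up : ∀ x : ℂ × ℂ, Wk k < x.1.im → (x.1 - x.2).re < X₀ → R₀ < x.2.re →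
    T x = θZ x.2 + TZ κ Y x

theorem isOpen_DT (k : ℕ) (X₀ R₀ : ℝ) : IsOpen (DT k X₀ R₀) :=
  ((isOpen_Xk k).preimage continuous_fst).inter
    ((isOpen_lt (continuous_re.comp (continuous_fst.sub continuous_snd)) continuous_const).inter
      ((isOpen_lt (continuous_abs.comp (continuous_im.comp continuous_fst)) continuous_const).union
        (isOpen_lt continuous_const (continuous_re.comp continuous_snd))))

/-- Bound of the derivative. Proof. `Kap.bd`, `‖Y‖ ≥ Re Y > k π ≥ π`. -/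
theorem f_le (h : Sh k V Y) (hk : 1 ≤ k) (hκ : Kap p X₀ η c₁ κ) {x : ℂ × ℂ} (h1 : x.1 ∈ Xk k)
    (h2 : (x.1 - x.2).re < X₀) : ‖κ (x.1 - x.2) / Y x.1‖ ≤
      (1 + η) * ‖c₁‖ / Real.pi * Real.exp ((1 + p) * (x.1 - x.2).re) := by
  have hpi := Real.pi_pos
  have hk' : (1 : ℝ) ≤ k := by exact_mod_cast hk
  have a1 := hκ.bd _ h2
  obtain ⟨w, hw⟩ : ∃ w : ℂ, w = c₁ * cexp ((1 + p) * (x.1 - x.2)) := ⟨_, rfl⟩
  rw [← hw] at a1
  have a2 : ‖w‖ = ‖c₁‖ * Real.exp ((1 + p) * (x.1 - x.2).re) := by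
    have e : ((1 + (p : ℂ)) * (x.1 - x.2)).re = (1 + p) * (x.1 - x.2).re := by
      have e1 : (1 + (p : ℂ)) = ((1 + p : ℝ) : ℂ) := by push_cast; rfl
      rw [e1, re_ofReal_mul]
    rw [hw, norm_mul, Complex.norm_exp, e]
  have a3 : ‖κ (x.1 - x.2)‖ ≤ (1 + η) * ‖w‖ := by
    have := norm_add_le (κ (x.1 - x.2) - w) w
    rw [sub_add_cancel] at this
    linarith
  have a4 : Real.pi ≤ ‖Y x.1‖ := by
    have h3 := (h.re_mem h1).1
    have h4 := re_le_norm (Y x.1)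
    nlinarith
  rw [norm_div]
  have a5 : ‖κ (x.1 - x.2)‖ / ‖Y x.1‖ ≤ (1 + η) * ‖w‖ / Real.pi :=
    div_le_div₀ (mul_nonneg (by linarith [hκ.η_nonneg]) (norm_nonneg _)) a3 hpi a4
  refine a5.trans (le_of_eq ?_)
  rw [a2]
  ring

/-- the reduced time function -/
def JT (p : ℝ) (c₁ : ℂ) (T : ℂ × ℂ → ℂ) (x : ℂ × ℂ) : ℂ :=
  T x / (c₁ * cexp ((1 + p) * (x.1 - x.2)))

end Pool.Agent.MP_ae5b4e_an_AZ
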