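import Pool.Agent.Lib.MP_ae5b4e_an_AZ.T1
import Pool.Agent.Lib.MP_ae5b4e_an_AZ.T2
import Pool.Agent.Lib.MP_ae5b4e_an_AZ.T3a

/-! # AZ: the time function on the slit domain: existence -/

noncomputable section

namespace Pool.Agent.MP_ae5b4e_an_AZ

open Complex Set Filter Topology Metric MeasureTheory

variable {k : ℕ} {V Y : ℂ → ℂ} {p X₀ η : ℝ} {c₁ : ℂ} {κ : ℂ → ℂ}

/-- the part of the domain with `R₀ < Re ζ` -/
private def T3E (k : ℕ) (X₀ R₀ : ℝ) : Set (ℂ × ℂ) :=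
  {x | x.1 ∈ Xk k ∧ (x.1 - x.2).re < X₀ ∧ R₀ < x.2.re}

private theorem T3E_open (k : ℕ) (X₀ R₀ : ℝ) : IsOpen (T3E k X₀ R₀) :=
  ((isOpen_Xk k).preimage continuous_fst).inter
    ((isOpen_lt (continuous_re.comp (continuous_fst.sub continuous_snd)) continuous_const).inter
      (isOpen_lt continuous_const (continuous_re.comp continuous_snd)))

/-- the centre -/
private def T3c (k : ℕ) : ℂ := ⟨U0 + 1, Wk k⟩

/-- the base point -/
private def T3b : ℂ := ⟨U0 + 1, 0⟩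

private theorem T3_star {R₀ : ℝ} (hR : U0 + 1 - R₀ < X₀) :
    ∀ x ∈ T3E k X₀ R₀, ∀ s : ℝ, 0 ≤ s → s ≤ 1 → (T3c k + s * (x.1 - T3c k), x.2) ∈ T3E k X₀ R₀ := by
  rintro x ⟨h1, h2, h3⟩ s hs0 hs1
  have hW : 0 < Wk k := (v5b_Wk_nonneg k).2
  have er : (T3c k + s * (x.1 - T3c k)).re = (1 - s) * (U0 + 1) + s * x.1.re := by
    simp only [T3c, add_re, mul_re, sub_re, ofReal_re, ofReal_im, zero_mul, sub_zero]
    ring
  have ei : (T3c k + s * (x.1 - T3c k)).im = (1 - s) * Wk k + s * x.1.im := by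
    simp only [T3c, add_im, mul_im, sub_im, ofReal_re, ofReal_im, zero_mul, add_zero]
    ring
  have h2' : x.1.re - x.2.re < X₀ := by rwa [sub_re] at h2
  refine ⟨?_, ?_, h3⟩
  · show (T3c k + s * (x.1 - T3c k)) ∈ Xk k
    rcases hs0.eq_or_lt with h0 | h0
    · right; left
      rw [er, ← h0]
      linarith
    · rcases h1 with h | h | h
      · left
        rw [ei]
        rw [abs_lt] at h ⊢
        constructor <;> nlinarith [h.1, h.2]
      · right; left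
        rw [er]
        nlinarith
      · right; right
        rw [ei]
        nlinarith
  · show (T3c k + s * (x.1 - T3c k) - x.2).re < X₀
    rw [sub_re, er]
    rcases hs1.eq_or_lt with h0 | h0
    · rw [h0]; linarith
    · nlinarith

private theorem T3_f_an (h : Sh k V Y) (hk : 1 ≤ k) (hκ : Kap p X₀ η c₁ κ) {R₀ : ℝ} :
    AnalyticOnNhd ℂ (fun x : ℂ × ℂ => κ (x.1 - x.2) / Y x.1) (T3E k X₀ R₀) := by
  rintro x ⟨h1, h2, h3⟩
  have a1 : AnalyticAt ℂ (fun x : ℂ × ℂ => κ (x.1 - x.2)) x :=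
    AnalyticAt.fun_comp (g := κ) (f := fun x : ℂ × ℂ => x.1 - x.2) (hκ.an _ h2)
      (analyticAt_fst.sub analyticAt_snd)
  have a2 : AnalyticAt ℂ (fun x : ℂ × ℂ => Y x.1) x :=
    AnalyticAt.fun_comp (g := Y) (f := fun x : ℂ × ℂ => x.1) (h.Y_an _ h1) analyticAt_fst
  refine a1.div a2 ?_
  intro h0
  have h4 := (h.re_mem h1).1
  have hk' : (1 : ℝ) ≤ k := by exact_mod_cast hk
  have hpi := Real.pi_pos
  rw [h0, zero_re] at h4
  nlinarith

/-- the continuation -/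
private def T3X (k : ℕ) (κ Y : ℂ → ℂ) (x : ℂ × ℂ) : ℂ :=
  TZ κ Y (T3b, x.2) + prim (T3c k) (fun x : ℂ × ℂ => κ (x.1 - x.2) / Y x.1) x -
    prim (T3c k) (fun x : ℂ × ℂ => κ (x.1 - x.2) / Y x.1) (T3b, x.2)

private theorem T3b_mem {R₀ : ℝ} (hR : U0 + 1 - R₀ < X₀) {ζ : ℂ} (hζ : R₀ < ζ.re) :
    |T3b.im| < Wk k ∧ (T3b - ζ).re < X₀ := by
  constructor
  · show |(0 : ℝ)| < Wk k
    rw [abs_zero]
    exact (v5b_Wk_nonneg k).2
  · rw [sub_re]
    show U0 + 1 - ζ.re < X₀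
    linarith

private theorem T3X_an (h : Sh k V Y) (hk : 1 ≤ k) (hκ : Kap p X₀ η c₁ κ) {R₀ : ℝ}
    (hR : U0 + 1 - R₀ < X₀) : AnalyticOnNhd ℂ (T3X k κ Y) (T3E k X₀ R₀) := by
  intro x hx
  have hb := T3b_mem (k := k) hR hx.2.2
  have a1 : AnalyticAt ℂ (fun x : ℂ × ℂ => TZ κ Y (T3b, x.2)) x :=
    AnalyticAt.fun_comp (g := TZ κ Y) (f := fun x : ℂ × ℂ => (T3b, x.2))
      (TZ_an hκ (h.LD_strip hk) _ ⟨hb.1, hb.2⟩) (analyticAt_const.prod analyticAt_snd)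
  have hp := prim_an (T3E_open k X₀ R₀) (T3_f_an h hk hκ) (T3_star hR)
  have a3 : AnalyticAt ℂ (fun x : ℂ × ℂ =>
      prim (T3c k) (fun x : ℂ × ℂ => κ (x.1 - x.2) / Y x.1) (T3b, x.2)) x :=
    AnalyticAt.fun_comp (g := prim (T3c k) (fun x : ℂ × ℂ => κ (x.1 - x.2) / Y x.1))
      (f := fun x : ℂ × ℂ => (T3b, x.2)) (hp _ ⟨Or.inl hb.1, hb.2, hx.2.2⟩)
      (analyticAt_const.prod analyticAt_snd)
  exact (a1.add (hp x hx)).sub a3

private theorem T3X_der (h : Sh k V Y) (hk : 1 ≤ k) (hκ : Kap p X₀ η c₁ κ) {R₀ : ℝ}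
    (hR : U0 + 1 - R₀ < X₀) {x : ℂ × ℂ} (hx : x ∈ T3E k X₀ R₀) :
    HasDerivAt (fun z => T3X k κ Y (z, x.2)) (κ (x.1 - x.2) / Y x.1) x.1 := by
  have h1 := prim_der (T3E_open k X₀ R₀) (T3_f_an h hk hκ) (T3_star hR) hx
  exact (h1.const_add (TZ κ Y (T3b, x.2))).sub_const
    (prim (T3c k) (fun x : ℂ × ℂ => κ (x.1 - x.2) / Y x.1) (T3b, x.2))

private theorem T3_const {S : Set ℂ} (hS : IsOpen S) (hc : Convex ℝ S) {F G f : ℂ → ℂ}
    (hF : ∀ z ∈ S, HasDerivAt F (f z) z) (hG : ∀ z ∈ S, HasDerivAt G (f z) z) {z w : ℂ}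
    (hz : z ∈ S) (hw : w ∈ S) : F z - G z = F w - G w := by
  have hd : ∀ z ∈ S, HasDerivAt (fun z => F z - G z) 0 z := fun z hz =>
    ((hF z hz).sub (hG z hz)).congr_deriv (sub_self _)
  exact hS.is_const_of_deriv_eq_zero hc.isPreconnected
    (fun z hz => (hd z hz).differentiableAt.differentiableWithinAt)
    (fun z hz => (hd z hz).deriv) hz hw

private theorem T3_conv (ζ : ℂ) (X₀ : ℝ) : Convex ℝ {z : ℂ | (z - ζ).re < X₀} := by
  have h : {z : ℂ | (z - ζ).re < X₀} = {z : ℂ | z.re < X₀ + ζ.re} := by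
    ext z
    simp only [mem_ofPred_eq, sub_re]
    constructor <;> intro h <;> linarith
  rw [h]
  exact convex_halfSpace_re_lt _

private theorem T3_strip (h : Sh k V Y) (hk : 1 ≤ k) (hκ : Kap p X₀ η c₁ κ) {R₀ : ℝ}
    (hR : U0 + 1 - R₀ < X₀) {x : ℂ × ℂ} (h1 : |x.1.im| < Wk k) (h2 : (x.1 - x.2).re < X₀)
    (h3 : R₀ < x.2.re) : T3X k κ Y x = TZ κ Y x := by
  have hb := T3b_mem (k := k) hR h3
  have hS : IsOpen ({z : ℂ | |z.im| < Wk k} ∩ {z : ℂ | (z - x.2).re < X₀}) :=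
    (isOpen_lt (by fun_prop) continuous_const).inter
      (isOpen_lt (continuous_re.comp (continuous_id.sub continuous_const)) continuous_const)
  have hc1 : Convex ℝ {z : ℂ | |z.im| < Wk k} := by
    have e : {z : ℂ | |z.im| < Wk k} = {z : ℂ | -Wk k < z.im} ∩ {z : ℂ | z.im < Wk k} := by
      ext z
      simp only [mem_ofPred_eq, mem_inter_iff, abs_lt]
    rw [e]
    exact (convex_halfSpace_im_gt _).inter (convex_halfSpace_im_lt _)
  have h5 := T3_const hS (hc1.inter (T3_conv x.2 X₀)) (F := fun z => T3X k κ Y (z, x.2))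
    (G := fun z => TZ κ Y (z, x.2)) (f := fun z => κ (z - x.2) / Y z)
    (fun z hz => T3X_der (x := (z, x.2)) h hk hκ hR ⟨Or.inl hz.1, hz.2, h3⟩)
    (fun z hz => TZ_der (x := (z, x.2)) hκ (h.LD_strip hk) ⟨hz.1, hz.2⟩)
    (z := x.1) (w := T3b) ⟨h1, h2⟩ hb
  have h6 : T3X k κ Y (T3b, x.2) - TZ κ Y (T3b, x.2) = 0 := by
    unfold T3X
    ring
  have h7 : T3X k κ Y x - TZ κ Y x = 0 := h5.trans h6
  exact sub_eq_zero.1 h7

/-- EXISTENCE OF THE TIME FUNCTION.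

Proof. `c := U0 + 1 + W I`, `c₀ := U0 + 1` (real). `E := {x | x.1 ∈ Xk k ∧ Re (x.1 - x.2) < X₀ ∧ R₀ < Re x.2}`
is open, and its fibres are star shaped about `c`: `Re (c - ζ) = U0 + 1 - Re ζ < X₀` by `hR`, the half plane is
convex; `Xk k` is star shaped about `c`: points with `|Im z| < W` move up to `Im = W` at the end, with
`|Im| < W` before; points with `U0 < Re z` keep `U0 < Re`; points with `W < Im z` keep `W < Im` before the end;
the end point `c` itself is in `Xk k` (`U0 < Re c`). `f x := κ (x.1 - x.2) / Y x.1` is analytic on `E`. Put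
`TX x := TZ κ Y (c₀, x.2) + prim c f x - prim c f (c₀, x.2)` (`(c₀, x.2) ∈ E`), analytic (`prim_an`, `TZ_an`), `∂₁ TX = f`
(`prim_der`). For fixed `ζ` with `R₀ < Re ζ` `TX (·, ζ) - TZ κ Y (·, ζ)` has derivative `0` on the convex set
`{|Im z| < W, Re (z - ζ) < X₀}` and vanishes at `c₀`: `TX = TZ κ Y` there. On the convex set `{W < Im z, Re (z - ζ) < X₀}`
`TX (·, ζ) - TZ κ Y (·, ζ)` is constant `=: θZ ζ`. `T x := if |x.1.im| < W then TZ κ Y x else TX x`: near a point of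
`DT` with `|Im| < W` it is `TZ κ Y`, near a point with `R₀ < Re ζ` it is `TX`. -/
theorem exists_TT (h : Sh k V Y) (hk : 1 ≤ k) (hκ : Kap p X₀ η c₁ κ) {R₀ : ℝ}
    (hR : U0 + 1 - R₀ < X₀) : ∃ (T : ℂ × ℂ → ℂ) (θZ : ℂ → ℂ), TT k X₀ R₀ κ Y T θZ := by
  classical
  obtain ⟨T, hT⟩ : ∃ T : ℂ × ℂ → ℂ, T = fun x =>
    if |x.1.im| < Wk k then TZ κ Y x else T3X k κ Y x := ⟨_, rfl⟩
  have hT1 : ∀ x : ℂ × ℂ, |x.1.im| < Wk k → T x = TZ κ Y x := fun x hx => by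
    rw [hT]
    exact if_pos hx
  have hT2 : ∀ x ∈ T3E k X₀ R₀, T x = T3X k κ Y x := fun x hx => by
    by_cases h1 : |x.1.im| < Wk k
    · rw [hT1 x h1, T3_strip h hk hκ hR h1 hx.2.1 hx.2.2]
    · rw [hT]
      exact if_neg h1
  obtain ⟨z₂, hz₂⟩ : ∃ z₂ : ℂ, z₂ = ⟨U0 + 1, Wk k + 1⟩ := ⟨_, rfl⟩
  have hz2 : Wk k < z₂.im := by
    rw [hz₂]
    exact lt_add_one _
  have hz2' : ∀ ζ : ℂ, R₀ < ζ.re → (z₂ - ζ).re < X₀ := fun ζ hζ => by
    rw [sub_re, hz₂]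
    show U0 + 1 - ζ.re < X₀
    linarith
  refine ⟨T, fun ζ => T3X k κ Y (z₂, ζ) - TZ κ Y (z₂, ζ), ?_, ?_, ?_, ?_⟩
  · intro x hx
    by_cases h1 : |x.1.im| < Wk k
    · refine (TZ_an hκ (h.LD_strip hk) x ⟨h1, hx.2.1⟩).congr ?_
      have ho : IsOpen {y : ℂ × ℂ | |y.1.im| < Wk k} :=
        isOpen_lt (continuous_abs.comp (continuous_im.comp continuous_fst)) continuous_const
      filter_upwards [ho.mem_nhds h1] with y hy
      exact (hT1 y hy).symm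
    · have hE : x ∈ T3E k X₀ R₀ := ⟨hx.1, hx.2.1, hx.2.2.resolve_left h1⟩
      refine (T3X_an h hk hκ hR x hE).congr ?_
      filter_upwards [(T3E_open k X₀ R₀).mem_nhds hE] with y hy
      exact (hT2 y hy).symm
  · intro x hx
    by_cases h1 : |x.1.im| < Wk k
    · refine (TZ_der hκ (h.LD_strip hk) (x := x) ⟨h1, hx.2.1⟩).congr_of_eventuallyEq ?_
      have ho : IsOpen {z : ℂ | |z.im| < Wk k} := isOpen_lt (by fun_prop) continuous_const
      filter_upwards [ho.mem_nhds h1] with z hz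
      exact hT1 (z, x.2) hz
    · have hE : x ∈ T3E k X₀ R₀ := ⟨hx.1, hx.2.1, hx.2.2.resolve_left h1⟩
      refine (T3X_der h hk hκ hR hE).congr_of_eventuallyEq ?_
      have hc : ContinuousAt (fun z : ℂ => (z, x.2)) x.1 := by fun_prop
      have := hc.eventually ((T3E_open k X₀ R₀).mem_nhds (show ((x.1, x.2) : ℂ × ℂ) ∈ _ from hE))
      filter_upwards [this] with z hz
      exact hT2 (z, x.2) hz
  · intro x h1 _
    exact hT1 x h1
  · intro x h1 h2 h3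
    have hE : x ∈ T3E k X₀ R₀ := ⟨Or.inr (Or.inr h1), h2, h3⟩
    rw [hT2 x hE]
    have hS : IsOpen ({z : ℂ | Wk k < z.im} ∩ {z : ℂ | (z - x.2).re < X₀}) :=
      (isOpen_lt continuous_const (by fun_prop)).inter
        (isOpen_lt (continuous_re.comp (continuous_id.sub continuous_const)) continuous_const)
    have h5 := T3_const hS ((convex_halfSpace_im_gt _).inter (T3_conv x.2 X₀))
      (F := fun z => T3X k κ Y (z, x.2))
      (G := fun z => TZ κ Y (z, x.2)) (f := fun z => κ (z - x.2) / Y z)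
      (fun z hz => T3X_der (x := (z, x.2)) h hk hκ hR ⟨Or.inr (Or.inr hz.1), hz.2, h3⟩)
      (fun z hz => TZ_der (x := (z, x.2)) hκ (h.LD_up hk) ⟨hz.1, hz.2⟩)
      (z := x.1) (w := z₂) ⟨h1, h2⟩ ⟨hz2, hz2' x.2 h3⟩
    have h6 : T3X k κ Y x - TZ κ Y x = T3X k κ Y (z₂, x.2) - TZ κ Y (z₂, x.2) := h5
    rw [← h6]
    ring

end Pool.Agent.MP_ae5b4e_an_AZ
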