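import Pool.Agent.Lib.MP_ae5b4e_an_AZ.G0
import Pool.Agent.Lib.MP_ae5b4e_an_AZ.T3

/-! # AZ: (g2), the sector about `Z` (strip `|Im om| < V1`, all `ζ`) -/

noncomputable section

namespace Pool.Agent.MP_ae5b4e_an_AZ

open Complex Set Filter Topology Metric

variable {k : ℕ} {V Y : ℂ → ℂ} {p X₀ η : ℝ} {c₁ : ℂ} {κ : ℂ → ℂ}

/-- `log (exp ((1 + p) ζ) T / c₁) = (1 + p) om + log J` -/
def fJ (p : ℝ) (J : ℂ × ℂ → ℂ) (x : ℂ × ℂ) : ℂ := (1 + p) * x.1 + log (J x)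

/-- Proof. `JZ` is analytic on `DZ` (`TZ_an`), `log` is analytic in the slit plane; derivative: `1
+ p + J' / J`, `J = T / (c₁ exp ((1 + p) (z - ζ)))`, `J' / J = T' / T - (1 + p)`, `T' = κ / Y`
(`TZ_der`); it is not `0`, since `κ ≠ 0` (`Kap.bd`, `η < 1`, `c₁ ≠ 0`). -/
theorem fJ_der {D : Set ℂ} {c₀ : ℝ} (hκ : Kap p X₀ η c₁ κ) (hY : LD D c₀ Y) {x : ℂ × ℂ}
    (hx : x ∈ DZ D X₀) (hJ : 0 < (JZ p c₁ κ Y x).re) :
    AnalyticAt ℂ (fJ p (JZ p c₁ κ Y)) x ∧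
      HasDerivAt (fun z => fJ p (JZ p c₁ κ Y) (z, x.2))
        (κ (x.1 - x.2) / (Y x.1 * TZ κ Y x)) x.1 ∧
      κ (x.1 - x.2) / (Y x.1 * TZ κ Y x) ≠ 0 ∧
      c₁ * cexp (fJ p (JZ p c₁ κ Y) x) = cexp ((1 + p) * x.2) * TZ κ Y x := by
  have hc₁ := hκ.c₁_ne
  have hE : ∀ z w : ℂ, c₁ * cexp ((1 + p) * (z - w)) ≠ 0 := fun z w =>
    mul_ne_zero hc₁ (Complex.exp_ne_zero _)
  have hJ0 : JZ p c₁ κ Y x ≠ 0 := by
    intro h
    rw [h, zero_re] at hJ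
    exact lt_irrefl _ hJ
  have hT0 : TZ κ Y x ≠ 0 := by
    intro h
    refine hJ0 ?_
    unfold JZ
    rw [h, zero_div]
  have hY0 : Y x.1 ≠ 0 := by
    intro h
    have h1 := hY.re _ hx.1
    rw [h, zero_re] at h1
    exact absurd hY.c₀_pos (not_lt.2 h1)
  have hκ0 : κ (x.1 - x.2) ≠ 0 := by
    intro h
    have h1 := hκ.bd _ hx.2
    rw [h, zero_sub, norm_neg] at h1
    have h2 : 0 < ‖c₁ * cexp ((1 + p) * (x.1 - x.2))‖ := norm_pos_iff.2 (hE _ _)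
    have h3 := hκ.η_le
    have h4 : η * ‖c₁ * cexp ((1 + p) * (x.1 - x.2))‖ ≤
        1 / 20 * ‖c₁ * cexp ((1 + p) * (x.1 - x.2))‖ := mul_le_mul_of_nonneg_right h3 h2.le
    linarith
  have hsl : JZ p c₁ κ Y x ∈ slitPlane := Or.inl hJ
  refine ⟨?_, ?_, div_ne_zero hκ0 (mul_ne_zero hY0 hT0), ?_⟩
  · have h1 : AnalyticAt ℂ (JZ p c₁ κ Y) x := by
      refine AnalyticAt.div (TZ_an hκ hY x hx) ?_ (hE _ _)
      exact analyticAt_const.mul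
        ((analyticAt_const.mul (analyticAt_fst.sub analyticAt_snd)).cexp)
    have h2 : AnalyticAt ℂ (fun y : ℂ × ℂ => (1 + p : ℂ) * y.1) x :=
      analyticAt_const.mul analyticAt_fst
    exact h2.add (h1.clog hsl)
  · have h1 := TZ_der hκ hY hx
    have h2 : HasDerivAt (fun z : ℂ => c₁ * cexp ((1 + p) * (z - x.2)))
        (c₁ * (cexp ((1 + p) * (x.1 - x.2)) * (1 + p))) x.1 := by
      have h3 : HasDerivAt (fun z : ℂ => (1 + p : ℂ) * (z - x.2)) (1 + p) x.1 := by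
        simpa using ((hasDerivAt_id x.1).sub_const x.2).const_mul (1 + p : ℂ)
      exact h3.cexp.const_mul c₁
    have h3 : HasDerivAt (fun z : ℂ => JZ p c₁ κ Y (z, x.2)) _ x.1 :=
      h1.div h2 (hE _ _)
    have h4 := h3.clog (by exact hsl)
    have h5 : HasDerivAt (fun z : ℂ => (1 + p : ℂ) * z) (1 + p) x.1 := by
      simpa using (hasDerivAt_id x.1).const_mul (1 + p : ℂ)
    have h6 := h5.add h4
    refine h6.congr_deriv ?_
    have e1 : JZ p c₁ κ Y (x.1, x.2) = TZ κ Y x / (c₁ * cexp ((1 + p) * (x.1 - x.2))) := rfl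
    rw [e1]
    have e2 := hE x.1 x.2
    have e3 : cexp ((1 + p) * (x.1 - x.2)) ≠ 0 := Complex.exp_ne_zero _
    have e4 : TZ κ Y (x.1, x.2) = TZ κ Y x := rfl
    rw [e4]
    generalize cexp ((1 + p) * (x.1 - x.2)) = e at e3 ⊢
    field_simp
    ring
  · unfold fJ
    rw [Complex.exp_add, Complex.exp_log hJ0]
    unfold JZ
    have e1 : cexp ((1 + p) * x.1) = cexp ((1 + p) * (x.1 - x.2)) * cexp ((1 + p) * x.2) := by
      rw [← Complex.exp_add]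
      congr 1
      ring
    rw [e1]
    have e3 : cexp ((1 + p) * (x.1 - x.2)) ≠ 0 := Complex.exp_ne_zero _
    generalize cexp ((1 + p) * (x.1 - x.2)) = e at e3 ⊢
    field_simp

/-- source of (g2) -/
def P2 (V1 X₁ : ℝ) : Set (ℂ × ℂ) := {x | |x.1.im| < V1 ∧ (x.1 - x.2).re < X₁}

/-- target of (g2) -/
def G2 (p B L : ℝ) : Set (ℂ × ℂ) := {y | |y.1.im| < B ∧ y.1.re < L + (1 + p) * y.2.re}

theorem isOpen_G2 (p B L : ℝ) : IsOpen (G2 p B L) :=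
  (isOpen_lt (continuous_abs.comp (continuous_im.comp continuous_fst)) continuous_const).inter
    (isOpen_lt (continuous_re.comp continuous_fst)
      (continuous_const.add (continuous_const.mul (continuous_re.comp continuous_snd))))

private theorem G2_combo {a b u v : ℝ} (ha : 0 ≤ a) (hb : 0 ≤ b) (hab : a + b = 1) (hu : 0 < u)
    (hv : 0 < v) : 0 < a * u + b * v := by
  rcases ha.eq_or_lt with h | h
  · have h1 : b = 1 := by linarith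
    rw [← h, h1]
    linarith
  · have h1 := mul_pos h hu
    have h2 := mul_nonneg hb hv.le
    linarith

/-- Proof. Linear inequalities. -/
theorem convex_G2 (p B L : ℝ) : Convex ℝ (G2 p B L) := by
  intro x hx y hy a b ha hb hab
  obtain ⟨hx1, hx2⟩ := hx
  obtain ⟨hy1, hy2⟩ := hy
  rw [abs_lt] at hx1 hy1
  have e1 : (a • x + b • y).1.im = a * x.1.im + b * y.1.im := by simp
  have e2 : (a • x + b • y).1.re = a * x.1.re + b * y.1.re := by simp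
  have e3 : (a • x + b • y).2.re = a * x.2.re + b * y.2.re := by simp
  have f1 := G2_combo ha hb hab (sub_pos.2 hx1.1) (sub_pos.2 hy1.1)
  have f2 := G2_combo ha hb hab (sub_pos.2 hx1.2) (sub_pos.2 hy1.2)
  have f3 := G2_combo ha hb hab (sub_pos.2 hx2) (sub_pos.2 hy2)
  have f4 : a * B + b * B = B := by rw [← add_mul, hab, one_mul]
  have f5 : a * L + b * L = L := by rw [← add_mul, hab, one_mul]
  refine ⟨abs_lt.2 ⟨?_, ?_⟩, ?_⟩
  · rw [e1]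
    linarith
  · rw [e1]
    linarith
  · rw [e2, e3]
    linarith

private theorem G2_strip {V1 X₁ : ℝ} {k : ℕ} {x : ℂ × ℂ} (h1 : V1 < Wk k) (hX : X₁ < X₀)
    (hx1 : |x.1.im| ≤ V1) (hx2 : (x.1 - x.2).re ≤ X₁) : x ∈ DZ {z : ℂ | |z.im| < Wk k} X₀ :=
  ⟨lt_of_le_of_lt hx1 h1, lt_of_le_of_lt hx2 hX⟩

/-- bounds of `J` -/
private theorem G2_J (h : Sh k V Y) (hk : 1 ≤ k) (hκ : Kap p X₀ η c₁ κ) {V1 c C X₁ : ℝ}
    (h0 : 0 < V1) (h1 : V1 < Wk k) (hc : 0 < c) (hη : η ≤ c / 2)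
    (hb : ∀ z : ℂ, |z.im| ≤ V1 → c * ‖Y z‖ ≤ (Y z).re ∧ ‖Y z‖ ≤ C) (hX : X₁ < X₀)
    {x : ℂ × ℂ} (hx1 : |x.1.im| ≤ V1) (hx2 : (x.1 - x.2).re ≤ X₁) :
    0 < c / (2 * C * (1 + p)) ∧ c / (2 * C * (1 + p)) ≤ (JZ p c₁ κ Y x).re ∧
      ‖JZ p c₁ κ Y x‖ ≤ (1 + η) / (Real.pi * (1 + p)) := by
  have hp := hκ.p_pos
  have hY := h.LD_strip hk
  have hC : 0 < C := by
    have h2 := hb x.1 hx1
    have h3 := hY.re x.1 (lt_of_le_of_lt hx1 h1)
    have h4 := re_le_norm (Y x.1)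
    have h5 := Real.pi_pos
    linarith
  refine ⟨by positivity, JZ_bd hκ hY (G2_strip h1 hX hx1 hx2) hc hη fun t ht => hb _ ?_⟩
  rwa [sub_im, ofReal_im, sub_zero]

private theorem G2_re (x : ℂ × ℂ) (J : ℂ × ℂ → ℂ) :
    (fJ p J x).re = (1 + p) * x.1.re + Real.log ‖J x‖ := by
  unfold fJ
  rw [add_re, log_re, show (1 + p : ℂ) = ((1 + p : ℝ) : ℂ) by push_cast; ring, re_ofReal_mul]

private theorem G2_im (x : ℂ × ℂ) (J : ℂ × ℂ → ℂ) :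
    (fJ p J x).im = (1 + p) * x.1.im + arg (J x) := by
  unfold fJ
  rw [add_im, log_im, show (1 + p : ℂ) = ((1 + p : ℝ) : ℂ) by push_cast; ring, im_ofReal_mul]

/-- PROPERNESS of (g2).

Proof. `c₂ := c / (2 C (1 + p)) ≤ Re J ≤ ‖J‖ ≤ C₂` on `{|Im om| ≤ V1, Re (om - ζ) < X₀}`
(`JZ_bd`), so `|arg J| < π / 2`. Let `K ⊆ G2` be compact, `S := P2 ∩ f⁻¹ K`. Bounded: `ζ` is
bounded, `|Im om| < V1`, `Re y.1 = (1 + p) Re om + log ‖J‖` bounded, so `Re om` is bounded.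
Closed: `(om, ζ)` a limit of points of `S`: `|Im om| ≤ V1`, `Re (om - ζ) ≤ X₁ < X₀`, so `x ∈ DZ
strip X₀`, `fJ` is continuous there and `(fJ x, x.2) ∈ K ⊆ G2`. If `|Im om| = V1`: `|Im (fJ x)| ≥
(1 + p) V1 - π / 2 = B`, no. If `Re (om - ζ) = X₁`: `Re (fJ x) = (1 + p) (X₁ + Re ζ) + log ‖J‖ ≥ L
+ (1 + p) Re ζ`, no. So `x ∈ P2`. -/
theorem proper_G2 (h : Sh k V Y) (hk : 1 ≤ k) (hκ : Kap p X₀ η c₁ κ) {V1 c C X₁ : ℝ}
    (h0 : 0 < V1) (h1 : V1 < Wk k) (hc : 0 < c) (hη : η ≤ c / 2)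
    (hb : ∀ z : ℂ, |z.im| ≤ V1 → c * ‖Y z‖ ≤ (Y z).re ∧ ‖Y z‖ ≤ C) (hX : X₁ < X₀) :
    ∀ K ⊆ G2 p ((1 + p) * V1 - Real.pi / 2) ((1 + p) * X₁ + Real.log (c / (2 * C * (1 + p)))),
      IsCompact K →
        IsCompact (P2 V1 X₁ ∩ (fun y : ℂ × ℂ => (fJ p (JZ p c₁ κ Y) y, y.2)) ⁻¹' K) := by
  intro K hKG hK
  have hp := hκ.p_pos
  have hη0 := hκ.η_nonneg
  have hpi := Real.pi_pos
  have hY := h.LD_strip hk
  have hJ : ∀ x : ℂ × ℂ, |x.1.im| ≤ V1 → (x.1 - x.2).re ≤ X₁ →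
      0 < c / (2 * C * (1 + p)) ∧ c / (2 * C * (1 + p)) ≤ (JZ p c₁ κ Y x).re ∧
      ‖JZ p c₁ κ Y x‖ ≤ (1 + η) / (Real.pi * (1 + p)) := fun x hx1 hx2 =>
    G2_J h hk hκ h0 h1 hc hη hb hX hx1 hx2
  refine Metric.isCompact_of_isClosed_isBounded ?_ ?_
  · refine isClosed_of_closure_subset fun x hx => ?_
    have hcl : IsClosed {y : ℂ × ℂ | |y.1.im| ≤ V1 ∧ (y.1 - y.2).re ≤ X₁} :=
      (isClosed_le (continuous_abs.comp (continuous_im.comp continuous_fst))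
        continuous_const).inter
        (isClosed_le (continuous_re.comp (continuous_fst.sub continuous_snd)) continuous_const)
    obtain ⟨hx1, hx2⟩ : |x.1.im| ≤ V1 ∧ (x.1 - x.2).re ≤ X₁ :=
      closure_minimal (t := {y : ℂ × ℂ | |y.1.im| ≤ V1 ∧ (y.1 - y.2).re ≤ X₁})
        (fun y hy => ⟨hy.1.1.le, hy.1.2.le⟩) hcl hx
    obtain ⟨j0, j1, j2⟩ := hJ x hx1 hx2
    have hJ0 : 0 < (JZ p c₁ κ Y x).re := lt_of_lt_of_le j0 j1
    have hd := (fJ_der hκ hY (G2_strip h1 hX hx1 hx2) hJ0).1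
    have hcont : ContinuousAt (fun y : ℂ × ℂ => (fJ p (JZ p c₁ κ Y) y, y.2)) x :=
      hd.continuousAt.prodMk continuousAt_snd
    have hmem : (fJ p (JZ p c₁ κ Y) x, x.2) ∈ K := by
      have h3 := hcont.continuousWithinAt.mem_closure hx (t := K) (fun y hy => hy.2)
      rwa [hK.isClosed.closure_eq] at h3
    obtain ⟨k1, k2⟩ := hKG hmem
    refine ⟨⟨?_, ?_⟩, hmem⟩
    · refine lt_of_le_of_ne hx1 fun he => ?_
      have k1' : |(fJ p (JZ p c₁ κ Y) x).im| < (1 + p) * V1 - Real.pi / 2 := k1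
      rw [G2_im] at k1'
      have h3 : |arg (JZ p c₁ κ Y x)| < Real.pi / 2 :=
        abs_arg_lt_pi_div_two_iff.2 (Or.inl hJ0)
      have h4 : |(1 + p) * x.1.im| = (1 + p) * V1 := by
        rw [abs_mul, he, abs_of_pos (by linarith)]
      have h5 := abs_sub_abs_le_abs_sub ((1 + p) * x.1.im) (-arg (JZ p c₁ κ Y x))
      rw [abs_neg, sub_neg_eq_add, h4] at h5
      linarith
    · refine lt_of_le_of_ne hx2 fun he => ?_
      have k2' : (fJ p (JZ p c₁ κ Y) x).re < (1 + p) * X₁ +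
          Real.log (c / (2 * C * (1 + p))) + (1 + p) * x.2.re := k2
      rw [G2_re] at k2'
      have h3 : Real.log (c / (2 * C * (1 + p))) ≤ Real.log ‖JZ p c₁ κ Y x‖ :=
        Real.log_le_log j0 (j1.trans (re_le_norm _))
      rw [sub_re] at he
      have h4 : (1 + p) * x.1.re = (1 + p) * X₁ + (1 + p) * x.2.re := by
        rw [← mul_add, ← he]
        ring
      linarith
  · obtain ⟨M, hM⟩ := hK.isBounded.exists_norm_le
    rw [isBounded_iff_forall_norm_le]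
    refine ⟨M + (|Real.log (c / (2 * C * (1 + p)))| +
      |Real.log ((1 + η) / (Real.pi * (1 + p)))|) + V1, fun x hx => ?_⟩
    obtain ⟨⟨hx1, hx2⟩, hx3⟩ := hx
    obtain ⟨j0, j1, j2⟩ := hJ x hx1.le hx2.le
    have m1 : ‖(fJ p (JZ p c₁ κ Y) x, x.2)‖ ≤ M := hM _ hx3
    have m2 : ‖fJ p (JZ p c₁ κ Y) x‖ ≤ M := (norm_fst_le (fJ p (JZ p c₁ κ Y) x, x.2)).trans m1
    have m3 : ‖x.2‖ ≤ M := (norm_snd_le (fJ p (JZ p c₁ κ Y) x, x.2)).trans m1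
    have l1 : Real.log (c / (2 * C * (1 + p))) ≤ Real.log ‖JZ p c₁ κ Y x‖ :=
      Real.log_le_log j0 (j1.trans (re_le_norm _))
    have l2 : Real.log ‖JZ p c₁ κ Y x‖ ≤ Real.log ((1 + η) / (Real.pi * (1 + p))) :=
      Real.log_le_log (lt_of_lt_of_le (lt_of_lt_of_le j0 j1) (re_le_norm _)) j2
    have r1 := (abs_re_le_norm _).trans m2
    rw [G2_re, abs_le] at r1
    have a1 := neg_abs_le (Real.log (c / (2 * C * (1 + p))))
    have a2 := le_abs_self (Real.log ((1 + η) / (Real.pi * (1 + p))))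
    have a3 := abs_nonneg (Real.log (c / (2 * C * (1 + p))))
    have a4 := abs_nonneg (Real.log ((1 + η) / (Real.pi * (1 + p))))
    have r2 : |(1 + p) * x.1.re| ≤ M + (|Real.log (c / (2 * C * (1 + p)))| +
        |Real.log ((1 + η) / (Real.pi * (1 + p)))|) := by
      rw [abs_le]
      constructor <;> linarith
    have r3 : |x.1.re| ≤ |(1 + p) * x.1.re| := by
      rw [abs_mul, abs_of_pos (by linarith : 0 < 1 + p)]
      have := mul_nonneg hp.le (abs_nonneg x.1.re)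
      linarith
    have r4 := norm_le_abs_re_add_abs_im x.1
    refine max_le ?_ ?_
    · linarith
    · linarith

/-- THE SECTION (g2), with any base point. Proof. `sec_pair` with `fJ_der`, `proper_G2`,
`convex_G2`. -/
theorem sec_G2 (h : Sh k V Y) (hk : 1 ≤ k) (hκ : Kap p X₀ η c₁ κ) {V1 c C X₁ : ℝ}
    (h0 : 0 < V1) (h1 : V1 < Wk k) (hc : 0 < c) (hη : η ≤ c / 2)
    (hb : ∀ z : ℂ, |z.im| ≤ V1 → c * ‖Y z‖ ≤ (Y z).re ∧ ‖Y z‖ ≤ C) (hX : X₁ < X₀)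
    {B L : ℝ} (hB : B = (1 + p) * V1 - Real.pi / 2)
    (hL : L = (1 + p) * X₁ + Real.log (c / (2 * C * (1 + p)))) {x₀ : ℂ × ℂ}
    (hx : x₀ ∈ P2 V1 X₁) (hy : (fJ p (JZ p c₁ κ Y) x₀, x₀.2) ∈ G2 p B L) :
    ∃ g : ℂ × ℂ → ℂ, AnalyticOnNhd ℂ g (G2 p B L) ∧
      (∀ y ∈ G2 p B L, (g y, y.2) ∈ P2 V1 X₁ ∧ fJ p (JZ p c₁ κ Y) (g y, y.2) = y.1) ∧
      g (fJ p (JZ p c₁ κ Y) x₀, x₀.2) = x₀.1 := by
  subst hB hL
  have hY := h.LD_strip hk
  have hP : IsOpen (P2 V1 X₁) :=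
    (isOpen_lt (continuous_abs.comp (continuous_im.comp continuous_fst)) continuous_const).inter
      (isOpen_lt (continuous_re.comp (continuous_fst.sub continuous_snd)) continuous_const)
  have hd : ∀ x ∈ P2 V1 X₁, AnalyticAt ℂ (fJ p (JZ p c₁ κ Y)) x ∧
      HasDerivAt (fun z => fJ p (JZ p c₁ κ Y) (z, x.2))
        (κ (x.1 - x.2) / (Y x.1 * TZ κ Y x)) x.1 ∧
      κ (x.1 - x.2) / (Y x.1 * TZ κ Y x) ≠ 0 := by
    intro x hx
    obtain ⟨j0, j1, -⟩ := G2_J h hk hκ h0 h1 hc hη hb hX hx.1.le hx.2.le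
    obtain ⟨d1, d2, d3, -⟩ := fJ_der hκ hY (G2_strip h1 hX hx.1.le hx.2.le)
      (lt_of_lt_of_le j0 j1)
    exact ⟨d1, d2, d3⟩
  exact sec_pair hP (fun x hx => (hd x hx).1)
    (d := fun x => κ (x.1 - x.2) / (Y x.1 * TZ κ Y x)) (fun x hx => (hd x hx).2)
    (isOpen_G2 _ _ _) ((convex_G2 _ _ _).starConvex hy)
    (proper_G2 h hk hκ h0 h1 hc hη hb hX) hx hy

end Pool.Agent.MP_ae5b4e_an_AZ
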