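import Pool.Agent.Lib.MP_ae5b4e_an_AZ.V3

/-! # AZ: the overlap of the two sheets -/

noncomputable section

namespace Pool.Agent.MP_ae5b4e_an_AZ

open Complex Set Filter Topology Metric

/-- Proof. `om1` is injective on the convex set `{Re v > 0}`: for `v ≠ v'` the real function
`t ↦ Re (om1 k (v + t (v' - v)) * conj (v' - v))` on `[0, 1]` has derivative
`Re (y1 ..) * ‖v' - v‖² > 0` (`hasDerivAt_om1`, `re_y1_mem`, `Wk k ≥ π / 2`). -/
theorem om1_injOn (k : ℕ) : InjOn (om1 k) {v | 0 < v.re} := by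
  intro v hv v' hv' h
  by_contra hne
  set w : ℂ := v' - v with hw
  have hw0 : w ≠ 0 := sub_ne_zero.2 (Ne.symm hne)
  have hre : ∀ t ∈ Icc (0 : ℝ) 1, 0 < (v + (t : ℂ) * w).re := by
    intro t ht
    have h1 : (v + (t : ℂ) * w).re = (1 - t) * v.re + t * v'.re := by
      rw [hw]
      simp
      ring
    rw [h1]
    have h2 : 0 < v.re := hv
    have h3 : 0 < v'.re := hv'
    rcases ht.1.eq_or_lt with h4 | h4
    · rw [← h4]
      simpa using h2
    · have h5 : 0 ≤ (1 - t) * v.re := mul_nonneg (by linarith [ht.2]) h2.le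
      have h6 : 0 < t * v'.re := mul_pos h4 h3
      linarith
  have hC : ∀ t ∈ Icc (0 : ℝ) 1, v + (t : ℂ) * w ∈ C1 :=
    fun t ht => mem_C1_iff.2 (Or.inl (hre t ht).ne')
  have hd : ∀ t ∈ Icc (0 : ℝ) 1, HasDerivAt
      (fun t : ℝ => (om1 k (v + (t : ℂ) * w) * (starRingEnd ℂ) w).re)
      ((y1 k (v + (t : ℂ) * w) * w * (starRingEnd ℂ) w).re) t := by
    intro t ht
    have h1 : HasDerivAt (fun z : ℂ => v + z * w) w (t : ℂ) := by
      simpa using ((hasDerivAt_id (t : ℂ)).mul_const w).const_add v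
    have h2 := ((hasDerivAt_om1 k (hC t ht)).comp (t : ℂ) h1).mul_const ((starRingEnd ℂ) w)
    exact h2.real_of_complex
  obtain ⟨c, hc, hcc⟩ := exists_hasDerivAt_eq_slope
    (fun t : ℝ => (om1 k (v + (t : ℂ) * w) * (starRingEnd ℂ) w).re)
    (fun t : ℝ => (y1 k (v + (t : ℂ) * w) * w * (starRingEnd ℂ) w).re) one_pos
    (fun t ht => (hd t ht).continuousAt.continuousWithinAt)
    (fun t ht => hd t (Ioo_subset_Icc_self ht))
  have e1 : v + ((1 : ℝ) : ℂ) * w = v' := by
    rw [hw]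
    push_cast
    ring
  have e0 : v + ((0 : ℝ) : ℂ) * w = v := by
    push_cast
    ring
  have e2 : (y1 k (v + (c : ℂ) * w) * w * (starRingEnd ℂ) w).re =
      (y1 k (v + (c : ℂ) * w)).re * normSq w := by
    rw [mul_assoc, mul_conj, re_mul_ofReal]
  simp only [e1, e0] at hcc
  rw [e2, h, sub_self, zero_div] at hcc
  have h3 := (re_y1_mem k (hC c (Ioo_subset_Icc_self hc))).1
  have h4 : Real.pi / 2 ≤ Wk k := by
    unfold Wk
    have : (0 : ℝ) ≤ k := Nat.cast_nonneg k
    nlinarith [Real.pi_pos]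
  have h5 : 0 < (y1 k (v + (c : ℂ) * w)).re := by linarith
  have h6 : 0 < normSq w := normSq_pos.2 hw0
  exact (mul_pos h5 h6).ne' hcc

private theorem V5a_Wk_pos (k : ℕ) : 0 < Wk k := by
  unfold Wk
  positivity

private theorem V5a_Uc_le {s : ℝ} (hs : 1 ≤ |s|) : Uc s ≤ U0 := by
  rcases le_abs.1 hs with h | h
  · exact Uc_le s h
  · rw [← Uc_neg]
    exact Uc_le _ h

/-- Proof. If `Re v = 0`: `|Im v| < 1` (`mem_C1_iff`) and `om1_I`: `Im (om1 v) = W Im v < W`. If `Re v < 0`,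
`s := Im v`: `om1_left`: `Re (om1 v) < Uc s`; for `|s| ≥ 1` `Uc s = Uc |s| ≤ U0` (`Uc_le`, `Uc_neg`): contradiction; for
`0 ≤ s < 1` `Im (om1 v) ≤ W s < W` (`om1_left`); for `s < 0` `Im (om1 v) < 0` (`im_om1_neg`). -/
theorem re_pos_of_om1 (k : ℕ) {v : ℂ} (hv : v ∈ C1) (h1 : U0 < (om1 k v).re)
    (h2 : Wk k < (om1 k v).im) : 0 < v.re := by
  have hW := V5a_Wk_pos k
  rcases lt_trichotomy v.re 0 with h | h | h
  · exfalso
    obtain ⟨h3, h4⟩ := om1_left k h
    by_cases hs : 1 ≤ |v.im|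
    · have := V5a_Uc_le hs
      linarith
    · push Not at hs
      rw [abs_lt] at hs
      rcases lt_or_ge v.im 0 with h5 | h5
      · have := (im_om1_neg k h.ne).1 h5
        linarith
      · have h6 := h4 h5 hs.2
        nlinarith [hs.2]
  · exfalso
    have hs : |v.im| < 1 := by
      rcases mem_C1_iff.1 hv with h' | h'
      · exact absurd h h'
      · exact h'
    have hvI : v = (v.im : ℂ) * I := by
      apply Complex.ext
      · simp [h]
      · simp
    have h3 := om1_I k hs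
    rw [← hvI] at h3
    rw [h3] at h2
    have h4 : ((Uc v.im : ℂ) + Wk k * v.im * I).im = Wk k * v.im := by
      rw [← ofReal_mul]
      simp
    rw [h4] at h2
    have := (abs_lt.1 hs).2
    nlinarith
  · exact h

/-- Proof. If `Re v = 0` then `1 < s := Im v` and `re_om2_I`: `Re (om2 v) = Uc s ≤ U0`. If `Re v < 0`:
`y2_eq_of_neg`: `om2 v = om1 v + π (v - I)`, so `Re (om2 v) < Re (om1 v) < Uc s` and
`Im (om2 v) = Im (om1 v) + π (s - 1)`: `|s| ≥ 1`: contradiction to `h1`; `0 ≤ s < 1`: `Im (om2 v) < W s < W`; `s < 0`: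
`Im (om2 v) < 0`. -/
theorem re_pos_of_om2 (k : ℕ) {v : ℂ} (hv : v ∈ C2) (h1 : U0 < (om2 k v).re)
    (h2 : Wk k < (om2 k v).im) : 0 < v.re := by
  have hW := V5a_Wk_pos k
  rcases lt_trichotomy v.re 0 with h | h | h
  · exfalso
    obtain ⟨h3, h4⟩ := om1_left k h
    rw [(y2_eq_of_neg k h).2] at h1 h2
    have e1 : (om1 k v + Real.pi * (v - I)).re = (om1 k v).re + Real.pi * v.re := by
      simp
    have e2 : (om1 k v + Real.pi * (v - I)).im = (om1 k v).im + Real.pi * (v.im - 1) := by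
      simp
    rw [e1] at h1
    rw [e2] at h2
    have hpi := Real.pi_pos
    have h7 : Real.pi * v.re < 0 := mul_neg_of_pos_of_neg hpi h
    by_cases hs : 1 ≤ |v.im|
    · have := V5a_Uc_le hs
      linarith
    · push Not at hs
      rw [abs_lt] at hs
      have h8 : Real.pi * (v.im - 1) < 0 := mul_neg_of_pos_of_neg hpi (by linarith)
      rcases lt_or_ge v.im 0 with h5 | h5
      · have := (im_om1_neg k h.ne).1 h5
        linarith
      · have h6 := h4 h5 hs.2
        nlinarith [hs.2]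
  · exfalso
    have hs : 1 < v.im := by
      rcases mem_C2_iff.1 hv with h' | h'
      · exact absurd h h'
      · exact h'
    have hvI : v = (v.im : ℂ) * I := by
      apply Complex.ext
      · simp [h]
      · simp
    have h3 := re_om2_I k v.im
    rw [← hvI] at h3
    rw [h3] at h1
    have := Uc_le v.im hs.le
    linarith
  · exact h

/-- Proof. `v = 1 + I`: `1 + v I = I`, `log = π/2 I`; `1 - v I = 2 - I`: with `ℓ = log ‖2 - I‖ > 0`,
`φ = - arg (2 - I) > 0`: `(2 - I) (ℓ - φ I)` has imaginary part `- 2 φ - ℓ`; `I (log (-I) + π I) = I (π / 2 I)`, real; so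
`Im (om2 (1 + I)) = W + (2 φ + ℓ) / 2 > W`. -/
theorem im_om2_base (k : ℕ) : (1 + I : ℂ) ∈ C2 ∧ Wk k < (om2 k (1 + I)).im := by
  refine ⟨mem_C2_iff.2 (Or.inl (by simp)), ?_⟩
  rw [(y2_eq_of_pos k (v := 1 + I) (by simp)).2]
  unfold om1
  have e1 : (1 + (1 + I) * I : ℂ) = I := by linear_combination I_sq
  have e2 : (1 - (1 + I) * I : ℂ) = 2 - I := by linear_combination -I_sq
  rw [e1, e2, Complex.log_I]
  have e3 : (1 + (Wk k : ℂ) * (1 + I) - (I * (Real.pi / 2 * I) + (2 - I) * log (2 - I)) / 2).im =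
      Wk k - (2 * arg (2 - I) - Real.log ‖(2 - I : ℂ)‖) / 2 := by
    have e4 : (I * ((Real.pi : ℂ) / 2 * I)) = ((-(Real.pi / 2) : ℝ) : ℂ) := by
      push_cast
      linear_combination ((Real.pi : ℂ) / 2) * I_sq
    rw [e4]
    have e5 : ((2 - I) * log (2 - I)).im = 2 * arg (2 - I) - Real.log ‖(2 - I : ℂ)‖ := by
      rw [mul_im, log_re, log_im]
      simp
      ring
    have e6 : ((((-(Real.pi / 2) : ℝ) : ℂ) + (2 - I) * log (2 - I)) / 2).im =
        ((2 - I) * log (2 - I)).im / 2 := by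
      rw [Complex.div_ofNat_im, add_im, ofReal_im, zero_add]
    rw [sub_im, e6, e5]
    simp
  rw [e3]
  have h1 : arg (2 - I) < 0 := by
    rw [arg_neg_iff]
    simp
  have h2 : 0 < Real.log ‖(2 - I : ℂ)‖ := by
    apply Real.log_pos
    have h3 : ‖(2 - I : ℂ)‖ ^ 2 = 5 := by
      rw [Complex.sq_norm, normSq_apply]
      simp
      norm_num
    nlinarith [norm_nonneg (2 - I : ℂ)]
  linarith

end Pool.Agent.MP_ae5b4e_an_AZ
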