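import Pool.Agent.Lib.MP_ae5b4e_an_AZ.V4
import Pool.Agent.Lib.MP_ae5b4e_an_AZ.V5a
import Pool.Agent.Lib.MP_ae5b4e_an_AZ.V5d

/-! # AZ: existence of the functions `V, Y` (inverse of `om`) on the slit domain -/

noncomputable section

namespace Pool.Agent.MP_ae5b4e_an_AZ

open Complex Set Filter Topology Metric

private theorem V5_om1_zero (k : ℕ) : om1 k 0 = 1 := by
  simp [om1]

private theorem V5_U0 : U0 < 1 := by
  have := Real.log_pos (by norm_num : (1 : ℝ) < 2)
  unfold U0
  linarith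

private theorem V5_star (k : ℕ) : StarConvex ℝ (1 : ℂ) {z : ℂ | |z.im| < Wk k ∨ U0 < z.re} := by
  intro z hz a b ha hb hab
  rcases hz with hz | hz
  · refine Or.inl ?_
    have e : (a • (1 : ℂ) + b • z).im = b * z.im := by simp
    rw [e, abs_mul, abs_of_nonneg hb]
    have h1 : b * |z.im| ≤ 1 * |z.im| :=
      mul_le_mul_of_nonneg_right (by linarith) (abs_nonneg _)
    linarith
  · refine Or.inr ?_
    have e : (a • (1 : ℂ) + b • z).re = a + b * z.re := by simp
    rw [e]
    have h0 := V5_U0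
    rcases ha.eq_or_lt with h | h
    · have hb1 : b = 1 := by linarith
      rw [← h, hb1]
      linarith
    · have h2 : a * U0 < a * 1 := mul_lt_mul_of_pos_left h0 h
      have h3 : b * U0 ≤ b * z.re := mul_le_mul_of_nonneg_left hz.le hb
      have h4 : U0 = a * U0 + b * U0 := by
        rw [← add_mul, hab, one_mul]
      linarith

/-- EXISTENCE OF `V, Y`.

Proof. `G1 := {|Im z| < W ∨ U0 < Re z}` is open, star convex about `1 = om1 k 0` (`U0 = 1 - log 2
< 1`), and satisfies `hcut` of `sec1` (`|Im z| < W ≤ W + (s - 1) k π`, or `U0 < Re z = Uc s ≤ U0`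
is impossible: `Uc_le`): `V1 : G1 → C1`. `G2 := {W < Im z}` is convex, base point `1 + I`
(`im_om2_base`), `sec2`: `V2 : G2 → C2`. On `G1 ∩ G2` (`U0 < Re z`, `W < Im z`): `0 < Re (V1 z)`
(`re_pos_of_om1`), `0 < Re (V2 z)` (`re_pos_of_om2`), and `om1 (V2 z) = om2 (V2 z) = z = om1 (V1
z)` (`y2_eq_of_pos`), so `V1 z = V2 z` (`om1_injOn`); also `y1 (V1 z) = y2 (V2 z)`. Put `V z := if
W < z.im then V2 z else V1 z`, `Y z := if W < z.im then y2 (V2 z) else y1 (V1 z)`. Near a point of
`G1` `V = V1`, `Y = y1 ∘ V1`; near a point of `G2` `V = V2`, `Y = y2 ∘ V2`; `Xk = G1 ∪ G2`. `y1`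
is analytic on `C1` (`hasDerivAt_y1`), `y2` on `C2`. -/
theorem exists_Sh {k : ℕ} (hk : 1 ≤ k) : ∃ V Y : ℂ → ℂ, Sh k V Y := by
  classical
  have ho1 : IsOpen {z : ℂ | |z.im| < Wk k ∨ U0 < z.re} := by
    have h1 : IsOpen {z : ℂ | |z.im| < Wk k} := isOpen_lt (by fun_prop) continuous_const
    have h2 : IsOpen {z : ℂ | U0 < z.re} := isOpen_lt continuous_const (by fun_prop)
    exact h1.union h2
  have ho2 : IsOpen {z : ℂ | Wk k < z.im} := isOpen_lt continuous_const (by fun_prop)
  obtain ⟨V1, hV1, hV1', -⟩ := sec1 hk ho1 (v₀ := 0) (mem_C1_iff.2 (Or.inr (by simp)))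
    (by rw [V5_om1_zero]; exact V5_star k)
    (by rw [V5_om1_zero]; exact Or.inr (by rw [one_re]; exact V5_U0))
    (fun z hz s hs hzs => by
      rcases hz with hz | hz
      · have h1 : 0 ≤ (s - 1) * (k * Real.pi) := by
          have := Real.pi_pos
          have h2 : 0 ≤ s - 1 := by linarith
          positivity
        linarith
      · have h1 := Uc_le s hs
        rw [← hzs] at h1
        exact absurd hz (not_lt.2 h1))
  obtain ⟨hb1, hb2⟩ := im_om2_base k
  obtain ⟨V2, hV2, hV2', -⟩ := sec2 hk ho2 hb1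
    ((convex_halfSpace_im_gt (Wk k)).starConvex hb2) hb2 (fun z hz => hz)
  -- the overlap
  have hov : ∀ z : ℂ, U0 < z.re → Wk k < z.im → 0 < (V2 z).re ∧ V2 z = V1 z := by
    intro z h1 h2
    obtain ⟨a1, a2⟩ := hV1' z (Or.inr h1)
    obtain ⟨b1, b2⟩ := hV2' z h2
    have a3 : 0 < (V1 z).re := re_pos_of_om1 k a1 (by rw [a2]; exact h1) (by rw [a2]; exact h2)
    have b3 : 0 < (V2 z).re := re_pos_of_om2 k b1 (by rw [b2]; exact h1) (by rw [b2]; exact h2)
    refine ⟨b3, om1_injOn k b3 a3 ?_⟩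
    rw [a2, ← (y2_eq_of_pos k b3).2, b2]
  have hVG1 : ∀ z : ℂ, (|z.im| < Wk k ∨ U0 < z.re) →
      (if Wk k < z.im then V2 z else V1 z) = V1 z ∧
      (if Wk k < z.im then y2 k (V2 z) else y1 k (V1 z)) = y1 k (V1 z) := by
    intro z hz
    by_cases h : Wk k < z.im
    · rw [if_pos h, if_pos h]
      have h1 : U0 < z.re := by
        rcases hz with hz | hz
        · exact absurd (lt_of_le_of_lt (le_abs_self _) hz) (not_lt.2 h.le)
        · exact hz
      obtain ⟨h2, h3⟩ := hov z h1 h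
      refine ⟨h3, ?_⟩
      rw [(y2_eq_of_pos k h2).1, h3]
    · rw [if_neg h, if_neg h]
      exact ⟨rfl, rfl⟩
  have hy1 : AnalyticOnNhd ℂ (y1 k) C1 := DifferentiableOn.analyticOnNhd (fun v hv =>
    (hasDerivAt_y1 k hv).differentiableAt.differentiableWithinAt) isOpen_C1
  have hy2 : AnalyticOnNhd ℂ (y2 k) C2 := DifferentiableOn.analyticOnNhd (fun v hv =>
    (hasDerivAt_y2 k hv).differentiableAt.differentiableWithinAt) isOpen_C2
  refine ⟨fun z => if Wk k < z.im then V2 z else V1 z,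
    fun z => if Wk k < z.im then y2 k (V2 z) else y1 k (V1 z), ?_, ?_, ?_, ?_⟩
  · intro z hz
    by_cases h : Wk k < z.im
    · refine (hV2 z h).congr ?_
      filter_upwards [ho2.mem_nhds h] with w hw
      exact (if_pos hw).symm
    · have h1 : |z.im| < Wk k ∨ U0 < z.re := by
        rcases hz with hz | hz | hz
        · exact Or.inl hz
        · exact Or.inr hz
        · exact absurd hz h
      refine (hV1 z h1).congr ?_
      filter_upwards [ho1.mem_nhds h1] with w hw
      exact (hVG1 w hw).1.symm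
  · intro z hz
    by_cases h : Wk k < z.im
    · refine ((hy2 _ (hV2' z h).1).comp (hV2 z h)).congr ?_
      filter_upwards [ho2.mem_nhds h] with w hw
      exact (if_pos hw).symm
    · have h1 : |z.im| < Wk k ∨ U0 < z.re := by
        rcases hz with hz | hz | hz
        · exact Or.inl hz
        · exact Or.inr hz
        · exact absurd hz h
      refine ((hy1 _ (hV1' z h1).1).comp (hV1 z h1)).congr ?_
      filter_upwards [ho1.mem_nhds h1] with w hw
      exact (hVG1 w hw).2.symm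
  · intro z hz
    rw [(hVG1 z hz).1, (hVG1 z hz).2]
    exact ⟨(hV1' z hz).1, (hV1' z hz).2, rfl⟩
  · intro z hz
    rw [if_pos hz, if_pos hz]
    exact ⟨(hV2' z hz).1, (hV2' z hz).2, rfl⟩

end Pool.Agent.MP_ae5b4e_an_AZ
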