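import Pool.Agent.Lib.MP_ae5b4e_an_AZ.V6a
import Pool.Agent.Lib.MP_ae5b4e_an_AZ.V5

/-! # AZ: the tip and the sheet near `Z` -/

noncomputable section

namespace Pool.Agent.MP_ae5b4e_an_AZ

open Complex Set Filter Topology Metric

variable {k : ℕ} {V Y : ℂ → ℂ}

/-- the tip -/
def tip (k : ℕ) : ℂ := U0 + Wk k * I

theorem v6b_Wk_pos (k : ℕ) : 0 < Wk k := (v5b_Wk_nonneg k).2

theorem v6b_tip_re (k : ℕ) : (tip k).re = U0 := by
  simp [tip]

theorem v6b_tip_im (k : ℕ) : (tip k).im = Wk k := by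
  simp [tip]

theorem v6b_abs_lt {s : ℝ} (h : U0 < Uc s) : |s| < 1 := by
  by_contra hcon
  push Not at hcon
  have h1 := Uc_le |s| hcon
  have h2 : Uc |s| = Uc s := by
    rcases abs_cases s with ⟨e, -⟩ | ⟨e, -⟩
    · rw [e]
    · rw [e, Uc_neg]
  linarith

theorem v6b_one_lt {s : ℝ} (h : Uc s < U0) : 1 < |s| := by
  by_contra hcon
  push Not at hcon
  have := (Uc_mem s hcon).1
  linarith

theorem v6b_vI {v : ℂ} (h : v.re = 0) : v = (v.im : ℂ) * I := by
  apply Complex.ext
  · simp [h]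
  · simp

/-- the tip is not a value of `om1` on `C1` -/
theorem v6b_not1 (k : ℕ) {v : ℂ} (hv : v ∈ C1) (h : om1 k v = tip k) : False := by
  have hW := v6b_Wk_pos k
  have hr : (om1 k v).re = U0 := by rw [h, v6b_tip_re]
  have hi : (om1 k v).im = Wk k := by rw [h, v6b_tip_im]
  rcases lt_trichotomy v.re 0 with hx | hx | hx
  · obtain ⟨a, b⟩ := om1_left k hx
    rw [hr] at a
    have h1 := abs_lt.1 (v6b_abs_lt a)
    rcases lt_or_ge v.im 0 with h2 | h2
    · have := (im_om1_neg k hx.ne).1 h2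
      linarith
    · have := b h2 h1.2
      nlinarith
  · have h1 : |v.im| < 1 := by
      rcases mem_C1_iff.1 hv with h4 | h4
      · exact absurd hx h4
      · exact h4
    rw [v6b_vI hx, om1_I k h1] at hi
    have h6 : ((Uc v.im : ℂ) + Wk k * (v.im : ℂ) * I).im = Wk k * v.im := by
      simp
    rw [h6] at hi
    have := (abs_lt.1 h1).2
    nlinarith
  · obtain ⟨a, b⟩ := om1_right k hx
    rw [hr] at a
    rcases lt_abs.1 (v6b_one_lt a) with h2 | h2
    · have h3 := b h2.le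
      have h4 : 0 ≤ (v.im - 1) * (k * Real.pi) := by
        have := Real.pi_pos
        have : 0 ≤ v.im - 1 := by linarith
        positivity
      linarith
    · have := (im_om1_neg k hx.ne').1 (by linarith)
      linarith

theorem v6b_re_lim {f : ℂ → ℂ} {F : Ultrafilter ℂ} {v z : ℂ} (h1 : (F : Filter ℂ) ≤ 𝓝 v)
    (h4 : Tendsto f F (𝓝 z)) (hc : Continuous fun v => (f v).re) : (f v).re = z.re := by
  have h5 : Tendsto (fun v => (f v).re) F (𝓝 (f v).re) := (hc.tendsto v).mono_left h1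
  have h6 : Tendsto (fun v => (f v).re) F (𝓝 z.re) := (continuous_re.tendsto z).comp h4
  exact tendsto_nhds_unique h5 h6

/-- limits on sheet 1 -/
theorem v6b_tip1 {k : ℕ} (hk : 1 ≤ k) {F : Ultrafilter ℂ} {v : ℂ} (hF : (F : Filter ℂ) ≤ 𝓝 v)
    (hC : ∀ᶠ w in (F : Filter ℂ), w ∈ C1) (ht : Tendsto (om1 k) F (𝓝 (tip k))) : v = I := by
  have hW := v6b_Wk_pos k
  by_cases hv : v ∈ C1
  · exfalso
    refine v6b_not1 k hv ?_
    have h1 : Tendsto (om1 k) F (𝓝 (om1 k v)) :=
      (hasDerivAt_om1 k hv).continuousAt.tendsto.mono_left hF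
    exact tendsto_nhds_unique h1 ht
  · rw [mem_C1_iff, not_or, not_not, not_lt] at hv
    obtain ⟨hx, hs⟩ := hv
    have hvI := v6b_vI hx
    have hlim : Tendsto (fun w => (om1 k w).im) F (𝓝 (Wk k)) := by
      have := (continuous_im.tendsto (tip k)).comp ht
      rwa [v6b_tip_im] at this
    have hkp : 0 < (k : ℝ) * Real.pi := by
      have := Real.pi_pos
      have : (0 : ℝ) < k := by exact_mod_cast hk
      positivity
    rcases le_total 0 v.im with h0 | h0
    · rw [abs_of_nonneg h0] at hs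
      rcases hs.lt_or_eq with h1 | h1
      · exfalso
        have h2 : Wk k < Wk k + (v.im - 1) * (k * Real.pi) := by
          have := mul_pos (sub_pos.2 h1) hkp
          linarith
        obtain ⟨c, hc1, hc2⟩ := exists_between h2
        have h3 := im_om1_cut k h1.le hc2
        rw [← hvI] at h3
        have h4 : ∀ᶠ w in (F : Filter ℂ), c < (om1 k w).im := hF h3
        have h5 := ge_of_tendsto hlim (h4.mono fun w hw => hw.le)
        linarith
      · rw [hvI, ← h1]
        simp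
    · exfalso
      rw [abs_of_nonpos h0] at hs
      have h2 : Wk k / 2 < Wk k + (-v.im - 1) * (k * Real.pi) := by
        have := mul_nonneg (sub_nonneg.2 hs) hkp.le
        linarith
      have h3 := im_om1_cut k hs h2
      have h10 : Tendsto (starRingEnd ℂ) (𝓝 v) (𝓝 (((-v.im : ℝ) : ℂ) * I)) := by
        have h11 := (continuous_conj.tendsto v)
        have h12 : (starRingEnd ℂ) v = ((-v.im : ℝ) : ℂ) * I := by
          apply Complex.ext
          · simp [hx]
          · simp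
        rwa [h12] at h11
      have h12 : ∀ᶠ w in (F : Filter ℂ), Wk k / 2 < (om1 k ((starRingEnd ℂ) w)).im :=
        hF (h10.eventually h3)
      have h13 : ∀ᶠ w in (F : Filter ℂ), (om1 k w).im ≤ -(Wk k / 2) := by
        filter_upwards [h12, hC] with w hw hw'
        rw [om1_conj k hw', conj_im] at hw
        linarith
      have h14 := le_of_tendsto hlim h13
      linarith

/-- limits on sheet 2 -/
theorem v6b_tip2 {k : ℕ} {F : Ultrafilter ℂ} {v : ℂ} (hF : (F : Filter ℂ) ≤ 𝓝 v)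
    (ht : Tendsto (om2 k) F (𝓝 (tip k))) : v = I := by
  have hW := v6b_Wk_pos k
  have hpi := Real.pi_pos
  by_cases hv : v ∈ C2
  · exfalso
    have h1 : Tendsto (om2 k) F (𝓝 (om2 k v)) :=
      (hasDerivAt_om2 k hv).continuousAt.tendsto.mono_left hF
    have h2 : om2 k v = tip k := tendsto_nhds_unique h1 ht
    have hr : (om2 k v).re = U0 := by rw [h2, v6b_tip_re]
    have hi : (om2 k v).im = Wk k := by rw [h2, v6b_tip_im]
    rcases lt_trichotomy v.re 0 with hx | hx | hx
    · rw [(y2_eq_of_neg k hx).2] at hr hi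
      have e1 : (om1 k v + Real.pi * (v - I)).re = (om1 k v).re + Real.pi * v.re := by
        simp
      have e2 : (om1 k v + Real.pi * (v - I)).im = (om1 k v).im + Real.pi * (v.im - 1) := by
        simp
      rw [e1] at hr
      rw [e2] at hi
      obtain ⟨a, b⟩ := om1_left k hx
      have h3 : Real.pi * v.re < 0 := mul_neg_of_pos_of_neg hpi hx
      have h4 := abs_lt.1 (v6b_abs_lt (s := v.im) (by linarith))
      have h5 : Real.pi * (v.im - 1) < 0 := mul_neg_of_pos_of_neg hpi (by linarith [h4.2])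
      rcases lt_or_ge v.im 0 with h6 | h6
      · have := (im_om1_neg k hx.ne).1 h6
        linarith
      · have := b h6 h4.2
        nlinarith [h4.2]
    · have h3 : 1 < v.im := by
        rcases mem_C2_iff.1 hv with h4 | h4
        · exact absurd hx h4
        · exact h4
      rw [v6b_vI hx, re_om2_I] at hr
      have := Uc_lt v.im h3
      linarith
    · rw [(y2_eq_of_pos k hx).2] at h2
      exact v6b_not1 k (mem_C1_iff.2 (Or.inl hx.ne')) h2
  · rw [mem_C2_iff, not_or, not_not, not_lt] at hv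
    obtain ⟨hx, hs⟩ := hv
    have hvI := v6b_vI hx
    have hlim : Tendsto (fun w => (om2 k w).im) F (𝓝 (Wk k)) := by
      have := (continuous_im.tendsto (tip k)).comp ht
      rwa [v6b_tip_im] at this
    rcases hs.lt_or_eq with h1 | h1
    · exfalso
      have h2 : Wk k * max v.im 0 < Wk k := by
        have : max v.im 0 < 1 := max_lt h1 one_pos
        nlinarith
      obtain ⟨c, hc1, hc2⟩ := exists_between h2
      have h3 := im_om2_cut' k hs hc1
      rw [← hvI] at h3
      have h4 : ∀ᶠ w in (F : Filter ℂ), (om2 k w).im < c := hF h3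
      have h5 := le_of_tendsto hlim (h4.mono fun w hw => hw.le)
      linarith
    · rw [hvI, h1]
      simp

/-- the bound of `V` near the tip -/
theorem v6b_bound (h : Sh k V Y) (hk : 1 ≤ k) {z : ℂ} (hz : z ∈ Xk k) {M : ℝ} (hM : ‖z‖ ≤ M) :
    ‖V z‖ ≤ max 2 ((M + 7) / 2) := by
  rcases le_total 2 ‖V z‖ with h2 | h2
  · refine le_max_of_le_right ?_
    rcases v5b_cases hz with h1 | h1
    · obtain ⟨m, e1, -⟩ := h.s1 z h1.self_of_nhds
      have := norm_om1_ge hk m h2
      rw [e1] at this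
      linarith
    · obtain ⟨m, e1, -⟩ := h.s2 z h1.self_of_nhds
      have := norm_om2_ge hk m h2
      rw [e1] at this
      linarith
  · exact le_max_of_le_left h2

theorem v6b_tendsto (h : Sh k V Y) (hk : 1 ≤ k) : Tendsto V (𝓝[Xk k] (tip k)) (𝓝 I) := by
  rw [tendsto_iff_ultrafilter]
  intro g hg
  have hg1 : (g : Filter ℂ) ≤ 𝓝 (tip k) := hg.trans inf_le_left
  have hg2 : ∀ᶠ z in (g : Filter ℂ), z ∈ Xk k := hg (eventually_mem_nhdsWithin)
  have hb : ∀ᶠ z in (g : Filter ℂ), V z ∈ closedBall (0 : ℂ) (max 2 ((‖tip k‖ + 1 + 7) / 2)) := by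
    have h1 : ∀ᶠ z in (g : Filter ℂ), ‖z‖ < ‖tip k‖ + 1 :=
      hg1 ((continuous_norm.tendsto (tip k)).eventually (gt_mem_nhds (lt_add_one _)))
    filter_upwards [h1, hg2] with z hz hz'
    rw [mem_closedBall_zero_iff]
    exact v6b_bound h hk hz' hz.le
  obtain ⟨v, -, hv⟩ := (isCompact_closedBall (0 : ℂ)
    (max 2 ((‖tip k‖ + 1 + 7) / 2))).ultrafilter_le_nhds (g.map V) (by
      rw [le_principal_iff, Ultrafilter.mem_coe, Ultrafilter.mem_map]
      exact hb)
  have hvI : v = I := by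
    have hor : ∀ᶠ z in (g : Filter ℂ), (|z.im| < Wk k ∨ U0 < z.re) ∨ Wk k < z.im := by
      filter_upwards [hg2] with z hz
      rcases hz with h1 | h1 | h1
      · exact Or.inl (Or.inl h1)
      · exact Or.inl (Or.inr h1)
      · exact Or.inr h1
    rcases Ultrafilter.eventually_or.1 hor with h1 | h1
    · refine v6b_tip1 hk (F := g.map V) hv ?_ ?_
      · rw [Ultrafilter.coe_map, eventually_map]
        filter_upwards [h1] with z hz
        exact (h.s1 z hz).1
      · rw [Ultrafilter.coe_map, tendsto_map'_iff]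
        refine Tendsto.congr' ?_ hg1
        filter_upwards [h1] with z hz
        exact (h.s1 z hz).2.1.symm
    · refine v6b_tip2 (k := k) (F := g.map V) hv ?_
      rw [Ultrafilter.coe_map, tendsto_map'_iff]
      refine Tendsto.congr' ?_ hg1
      filter_upwards [h1] with z hz
      exact (h.s2 z hz).2.1.symm
  rw [← hvI]
  exact hv

/-- THE TIP IS THE POINT `v = I`: `V z → I` for `z → tip` in the domain.

Proof. Otherwise there are `ε > 0` and an ultrafilter `F ≤ 𝓝[Xk k] (tip k)` with `ε ≤ ‖V z - I‖`. `V` is bounded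
along `F` (`norm_om1_ge`, `norm_om2_ge`: `‖V z‖ ≤ max 2 ((‖z‖ + 7) / 2)`), so `V z → v*` along `F`, `v* ≠ I`. Either
`|Im z| < W ∨ U0 < Re z` along `F` (sheet 1) or `W < Im z` (sheet 2). `x := Re v*`, `s := Im v*`.
SHEET 1. `Re (om1 k v*) = U0` (`continuous_re_om1`). If `v* ∈ C1`: `om1 k v* = tip k` (continuity), imaginary part
`W`: `x = 0`: `|s| < 1` and `om1_I`: `W s < W`, no. `x < 0`: `U0 < Uc s` so `|s| < 1` (`Uc_le`, `Uc_neg`), and the
imaginary part is `≤ W s < W` or `< 0`, no. `x > 0`: `om1_right`: `Uc s < U0`, so `|s| > 1` (`Uc_mem`), `s > 1`: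
imaginary part `> W`, no; `s < - 1`: `< 0`, no. If `v* ∉ C1`: `x = 0`, `1 ≤ |s|`; `s = 1` is excluded; `s > 1`:
`im_om1_cut`: limit of the imaginary parts `≥ W + (s - 1) k π > W`, no; `s ≤ - 1`: by conjugation `≤ - W`, no.
SHEET 2. `Re (om2 k v*) = U0`. If `v* ∈ C2`: `om2 k v* = tip k`. `x > 0`: `om2 = om1`, as before. `x = 0`, `s > 1`:
`Uc s = U0`, but `Uc s < U0` (`Uc_lt`). `x < 0`: `Re (om2) < Uc s`, so `|s| < 1`; `Im (om2) = Im (om1) + π (s - 1) < W`, no.
If `v* ∉ C2`: `x = 0`, `s ≤ 1`, `s ≠ 1`: `im_om2_cut'` (limit of the imaginary parts `≤ W max s 0 < W`), no. -/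
theorem Sh.tip (h : Sh k V Y) (hk : 1 ≤ k) : Tendsto V (𝓝[Xk k] (tip k)) (𝓝 I) := by
  exact v6b_tendsto h hk

/-- the domain of the near sheet -/
def X0 (k : ℕ) (A R : ℝ) : Set ℂ := {z | |z.im| < Wk k ∨ (z.re < -R ∧ |z.im| < A)}

/-- `V', Y'` on the sheet of `Z` -/
structure Sh0 (k : ℕ) (A R : ℝ) (V Y V' Y' : ℂ → ℂ) : Prop where
  V_an : AnalyticOnNhd ℂ V' (X0 k A R)
  Y_an : AnalyticOnNhd ℂ Y' (X0 k A R)
  s1 : ∀ z ∈ X0 k A R, V' z ∈ C1 ∧ om1 k (V' z) = z ∧ Y' z = y1 k (V' z)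
  eq : ∀ z : ℂ, |z.im| < Wk k → V' z = V z ∧ Y' z = Y z

theorem v6b_isOpen_X0 (k : ℕ) (A R : ℝ) : IsOpen (X0 k A R) := by
  have h1 : IsOpen {z : ℂ | |z.im| < Wk k} := isOpen_lt (by fun_prop) continuous_const
  have h2 : IsOpen {z : ℂ | z.re < -R} := isOpen_lt (by fun_prop) continuous_const
  have h3 : IsOpen {z : ℂ | |z.im| < A} := isOpen_lt (by fun_prop) continuous_const
  exact h1.union (h2.inter h3)

theorem v6b_inv {f : ℂ → ℂ} {a x : ℂ} (h : HasDerivAt f a x) (ha : a ≠ 0) :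
    (fderiv ℂ f x).IsInvertible := by
  refine ⟨ContinuousLinearEquiv.unitsEquivAut ℂ (Units.mk0 a ha), ?_⟩
  rw [h.hasFDerivAt.fderiv]
  ext
  simp

/-- Proof. `R := sup of |Uc|` on `[1, 1 + |A| / (k π)]` plus `1` (continuous function on a compact set).
`G := X0 k A R`, open; star convex about `c₀ := - (R + 1)` (real): points with `Re z < - R` stay there, points with
`|Im z| < W` stay there. `v₀ := V c₀ ∈ C1`, `om1 k v₀ = c₀`. `hcut`: `z ∈ G`, `1 ≤ s`, `Re z = Uc s`: if `|Im z| < W`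
fine; otherwise `Uc s < - R` forces `s > 1 + |A| / (k π)`, so `|Im z| < A ≤ (s - 1) k π`. `sec1`: `V'`,
`Y' := y1 k ∘ V'`. `eq`: both `V` and `V'` are lifts through `om1 k` of the identity on the preconnected (convex)
strip, equal at `c₀`: `lifts_eqOn` (`P = C1`). -/
theorem exists_Sh0 (h : Sh k V Y) (hk : 1 ≤ k) (A : ℝ) :
    ∃ (R : ℝ) (V' Y' : ℂ → ℂ), 0 < R ∧ Sh0 k A R V Y V' Y' := by
  have hW := v6b_Wk_pos k
  have hkp : 0 < (k : ℝ) * Real.pi := by
    have := Real.pi_pos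
    have : (0 : ℝ) < k := by exact_mod_cast hk
    positivity
  set S0 : ℝ := 1 + |A| / (k * Real.pi) with hS0
  have hS1 : 1 ≤ S0 := by
    have : 0 ≤ |A| / (k * Real.pi) := by positivity
    linarith
  set R : ℝ := |Uc S0| + 1 with hR
  have hR0 : 0 < R := by positivity
  have hUc : ∀ s : ℝ, 1 ≤ s → Uc s < -R → S0 < s := by
    intro s hs hlt
    by_contra hcon
    push Not at hcon
    have h1 := Uc_anti (mem_Ici.2 hs) (mem_Ici.2 hS1) hcon
    have h2 := neg_abs_le (Uc S0)
    linarith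
  have hc0 : |((-(R + 1) : ℝ) : ℂ).im| < Wk k := by
    simpa using hW
  obtain ⟨hm, he, -⟩ := h.s1 ((-(R + 1) : ℝ) : ℂ) (Or.inl hc0)
  have hstar : StarConvex ℝ (om1 k (V ((-(R + 1) : ℝ) : ℂ))) (X0 k A R) := by
    rw [he]
    intro z hz a b ha hb hab
    have e1 : (a • ((-(R + 1) : ℝ) : ℂ) + b • z).im = b * z.im := by
      simp
    have e2 : (a • ((-(R + 1) : ℝ) : ℂ) + b • z).re = a * (-(R + 1)) + b * z.re := by
      simp
      ring
    have h1 : |b * z.im| ≤ |z.im| := by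
      rw [abs_mul, abs_of_nonneg hb]
      have := abs_nonneg z.im
      nlinarith
    rcases hz with h2 | ⟨h2, h3⟩
    · left
      show |(a • ((-(R + 1) : ℝ) : ℂ) + b • z).im| < Wk k
      rw [e1]
      linarith
    · right
      constructor
      · rw [e2]
        rcases ha.lt_or_eq with h4 | h4
        · nlinarith
        · have hb1 : b = 1 := by linarith
          rw [← h4, hb1]
          linarith
      · rw [e1]
        linarith
  have hmem : om1 k (V ((-(R + 1) : ℝ) : ℂ)) ∈ X0 k A R := by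
    rw [he]
    exact Or.inl hc0
  obtain ⟨g, g1, g2, g3⟩ := sec1 hk (v6b_isOpen_X0 k A R) hm hstar hmem (by
    intro z hz s hs hre
    have h0 : 0 ≤ (s - 1) * (k * Real.pi) := mul_nonneg (by linarith) hkp.le
    rcases hz with h2 | ⟨h2, h3⟩
    · linarith
    · rw [hre] at h2
      have h4 := hUc s hs h2
      have h5 : |A| < (s - 1) * (k * Real.pi) := by
        rw [← div_lt_iff₀ hkp]
        linarith
      have := le_abs_self A
      linarith)
  have hy1 : AnalyticOnNhd ℂ (y1 k) C1 :=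
    DifferentiableOn.analyticOnNhd (fun v hv =>
      (hasDerivAt_y1 k hv).differentiableAt.differentiableWithinAt) isOpen_C1
  have hom1 : AnalyticOnNhd ℂ (om1 k) C1 :=
    DifferentiableOn.analyticOnNhd (fun v hv =>
      (hasDerivAt_om1 k hv).differentiableAt.differentiableWithinAt) isOpen_C1
  have hEq : EqOn g V {z : ℂ | |z.im| < Wk k} := by
    have hconv : Convex ℝ {z : ℂ | |z.im| < Wk k} := by
      have h1 : {z : ℂ | |z.im| < Wk k} = Complex.imLm ⁻¹' (Ioo (-Wk k) (Wk k)) := by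
        ext z
        simp [abs_lt]
      rw [h1]
      exact (convex_Ioo _ _).linear_preimage _
    refine lifts_eqOn (f := om1 k) isOpen_C1 hom1 ?_ hconv.isPreconnected ?_ ?_ ?_ ?_ ?_
      (a := ((-(R + 1) : ℝ) : ℂ)) hc0 ?_
    · intro v hv
      exact v6b_inv (hasDerivAt_om1 k hv) (v5b_y1_ne k hv)
    · exact g1.continuousOn.mono fun z hz => Or.inl hz
    · exact h.V_an.continuousOn.mono fun z hz => Or.inl hz
    · exact fun z hz => (g2 z (Or.inl hz)).1
    · exact fun z hz => (h.s1 z (Or.inl hz)).1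
    · intro z hz
      rw [(g2 z (Or.inl hz)).2, (h.s1 z (Or.inl hz)).2.1]
    · rw [he] at g3
      exact g3
  refine ⟨R, g, fun z => y1 k (g z), hR0, g1, ?_, ?_, ?_⟩
  · intro z hz
    exact (hy1 (g z) (g2 z hz).1).comp (g1 z hz)
  · intro z hz
    exact ⟨(g2 z hz).1, (g2 z hz).2, rfl⟩
  · intro z hz
    have h1 : g z = V z := hEq hz
    refine ⟨h1, ?_⟩
    rw [h1]
    exact (h.s1 z (Or.inl hz)).2.2.symm

/-- Proof. As `Sh.hasDerivAt_Y` and `re_y1_mem`. -/
theorem Sh0.prop {A R : ℝ} {V' Y' : ℂ → ℂ} (h : Sh0 k A R V Y V' Y') {z : ℂ}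
    (hz : z ∈ X0 k A R) : HasDerivAt Y' (sin (Y' z) ^ 2 / Y' z) z ∧
      k * Real.pi < (Y' z).re ∧ (Y' z).re < (k + 1) * Real.pi ∧ sin (Y' z) ≠ 0 ∧
      cos (Y' z) = -(V' z * sin (Y' z)) ∧
      cexp z = (-1) ^ k * sin (Y' z) * cexp (1 + Y' z * V' z) := by
  have hU := (v6b_isOpen_X0 k A R).mem_nhds hz
  obtain ⟨m, e1, e2⟩ := h.s1 z hz
  obtain ⟨a, b, c, d, -⟩ := trig1 k m
  have hV : DifferentiableAt ℂ V' z := (h.V_an z hz).differentiableAt
  have hd := hV.hasDerivAt
  have h2 : HasDerivAt (fun w => om1 k (V' w)) (y1 k (V' z) * deriv V' z) z :=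
    (hasDerivAt_om1 k m).comp z hd
  have h3 : HasDerivAt (fun w => om1 k (V' w)) 1 z := by
    refine (hasDerivAt_id z).congr_of_eventuallyEq ?_
    filter_upwards [hU] with w hw
    exact (h.s1 w hw).2.1
  have h4 := h2.unique h3
  have h5 : deriv V' z = 1 / Y' z := by
    rw [e2, eq_div_iff (v5b_y1_ne k m), mul_comm]
    exact h4
  rw [h5] at hd
  have h6 : HasDerivAt (fun w => y1 k (V' w)) (1 / (1 + V' z ^ 2) * (1 / Y' z)) z :=
    (hasDerivAt_y1 k m).comp z hd
  have h7 : HasDerivAt Y' (1 / (1 + V' z ^ 2) * (1 / Y' z)) z := by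
    refine h6.congr_of_eventuallyEq ?_
    filter_upwards [hU] with w hw
    exact (h.s1 w hw).2.2
  have h8 := re_y1_mem k m
  have hW := (v5b_Wk_nonneg k).1
  rw [← e2] at a b c d h8
  rw [e1] at d
  refine ⟨h7.congr_deriv ?_, by linarith [h8.1], ?_, a, b, d⟩
  · rw [← c]
    ring
  · rw [add_mul, hW]
    linarith [h8.2]

end Pool.Agent.MP_ae5b4e_an_AZ
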