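import Pool.Agent.Lib.MP_ae5b4e_an_AZ.G0
import Pool.Agent.Lib.MP_ae5b4e_an_AZ.T3
import Pool.Agent.Lib.MP_ae5b4e_an_AZ.G2
import Pool.Agent.Lib.MP_ae5b4e_an_AZ.V6b

/-! # AZ: (g4), the near region -/

noncomputable section

namespace Pool.Agent.MP_ae5b4e_an_AZ

open Complex Set Filter Topology Metric

variable {k : ℕ} {V Y : ℂ → ℂ} {p X₀ η : ℝ} {c₁ : ℂ} {κ : ℂ → ℂ}

/-- source of (g4) -/
def P4 (R4 Vm R5 : ℝ) : Set (ℂ × ℂ) := {x | x.1.re < -R4 ∧ |x.1.im| < Vm ∧ -R5 < x.2.re}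

/-- target of (g4) -/
def G4 (A L R5 : ℝ) : Set (ℂ × ℂ) := {y | y.1.re < L ∧ |y.1.im| < A ∧ -R5 < y.2.re}

theorem isOpen_G4 (A L R5 : ℝ) : IsOpen (G4 A L R5) :=
  (isOpen_lt (continuous_re.comp continuous_fst) continuous_const).inter
    ((isOpen_lt (continuous_abs.comp (continuous_im.comp continuous_fst)) continuous_const).inter
      (isOpen_lt continuous_const (continuous_re.comp continuous_snd)))

/-- Proof. Linear inequalities. -/
theorem convex_G4 (A L R5 : ℝ) : Convex ℝ (G4 A L R5) := by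
  intro x hx y hy a b ha hb hab
  obtain ⟨x1, x2, x3⟩ := hx
  obtain ⟨y1, y2, y3⟩ := hy
  have h1 := convex_Iio (𝕜 := ℝ) L (mem_Iio.2 x1) (mem_Iio.2 y1) ha hb hab
  have h2 := convex_Ioo (𝕜 := ℝ) (-A) A (mem_Ioo.2 (abs_lt.1 x2)) (mem_Ioo.2 (abs_lt.1 y2))
    ha hb hab
  have h3 := convex_Ioi (𝕜 := ℝ) (-R5) (mem_Ioi.2 x3) (mem_Ioi.2 y3) ha hb hab
  simp only [smul_eq_mul, mem_Iio, mem_Ioo, mem_Ioi] at h1 h2 h3
  refine ⟨?_, ?_, ?_⟩
  · have e : (a • x + b • y).1.re = a * x.1.re + b * y.1.re := by simp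
    rw [e]
    exact h1
  · have e : (a • x + b • y).1.im = a * x.1.im + b * y.1.im := by simp
    rw [e]
    exact abs_lt.2 h2
  · have e : (a • x + b • y).2.re = a * x.2.re + b * y.2.re := by simp
    rw [e]
    exact h3

private theorem g4_isOpen_P4 (R4 Vm R5 : ℝ) : IsOpen (P4 R4 Vm R5) :=
  (isOpen_lt (continuous_re.comp continuous_fst) continuous_const).inter
    ((isOpen_lt (continuous_abs.comp (continuous_im.comp continuous_fst)) continuous_const).inter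
      (isOpen_lt continuous_const (continuous_re.comp continuous_snd)))

private theorem g4_cast (p : ℝ) : ((1 : ℂ) + p) = ((1 + p : ℝ) : ℂ) := by push_cast; rfl

private theorem g4_re (p : ℝ) (J : ℂ × ℂ → ℂ) (x : ℂ × ℂ) :
    (fJ p J x).re = (1 + p) * x.1.re + Real.log ‖J x‖ := by
  unfold fJ
  rw [add_re, log_re, g4_cast, re_ofReal_mul]

private theorem g4_im (p : ℝ) (J : ℂ × ℂ → ℂ) (x : ℂ × ℂ) :
    (fJ p J x).im = (1 + p) * x.1.im + arg (J x) := by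
  unfold fJ
  rw [add_im, log_im, g4_cast, im_ofReal_mul]

/-- a number near `1 / b` -/
private theorem g4_near {b : ℝ} (hb : 0 < b) {J : ℂ} (h : ‖(b : ℂ) * J - 1‖ ≤ 1 / 5) :
    0 < J.re ∧ |arg J| ≤ 1 / 4 ∧ 4 / (5 * b) ≤ ‖J‖ ∧ ‖J‖ ≤ 6 / (5 * b) := by
  have h1 : 4 / 5 ≤ ((b : ℂ) * J).re := by
    have h2 := (abs_le.1 (abs_re_le_norm ((b : ℂ) * J - 1))).1
    rw [sub_re, one_re] at h2
    linarith
  have h2 : |((b : ℂ) * J).im| ≤ 1 / 5 := by
    have h3 := abs_im_le_norm ((b : ℂ) * J - 1)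
    rw [sub_im, one_im, sub_zero] at h3
    linarith
  rw [re_ofReal_mul] at h1
  rw [im_ofReal_mul] at h2
  have h3 : 0 < J.re := by
    by_contra hcon
    push Not at hcon
    nlinarith
  have hn : ‖(b : ℂ) * J‖ = b * ‖J‖ := by
    rw [norm_mul, norm_real, Real.norm_eq_abs, abs_of_pos hb]
  refine ⟨h3, ?_, ?_, ?_⟩
  · have h4 : Real.tan (arg J) = J.im / J.re := tan_arg J
    have h5 : |J.im / J.re| ≤ 1 / 4 := by
      rw [abs_div, abs_of_pos h3, div_le_iff₀ h3]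
      rw [abs_mul, abs_of_pos hb] at h2
      have h6 : b * |J.im| ≤ b * (1 / 4 * J.re) := by linarith
      exact le_of_mul_le_mul_left h6 hb
    have h6 := abs_lt.1 (abs_arg_lt_pi_div_two_iff.2 (Or.inl h3))
    rcases le_total 0 (arg J) with h7 | h7
    · rw [abs_of_nonneg h7]
      have h8 := Real.le_tan h7 h6.2
      rw [h4] at h8
      exact h8.trans ((le_abs_self _).trans h5)
    · rw [abs_of_nonpos h7]
      have h8 := Real.le_tan (x := -arg J) (by linarith) (by linarith [h6.1])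
      rw [Real.tan_neg, h4] at h8
      exact h8.trans ((neg_le_abs _).trans h5)
  · have h4 := abs_re_le_norm ((b : ℂ) * J)
    rw [hn, re_ofReal_mul] at h4
    have h5 := le_abs_self (b * J.re)
    rw [div_le_iff₀ (by positivity)]
    linarith
  · have h4 := norm_sub_norm_le ((b : ℂ) * J) 1
    rw [hn, norm_one] at h4
    rw [le_div_iff₀ (by positivity)]
    linarith

/-- properness, in an abstract form -/
private theorem g4_proper {J : ℂ × ℂ → ℂ} {b R4 Vm A L R5 : ℝ} (hp : 0 < p) (hb : 0 < b)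
    (hcl : ∀ x : ℂ × ℂ, x.1.re ≤ -R4 → |x.1.im| ≤ Vm → -R5 < x.2.re →
      ContinuousAt (fJ p J) x ∧ ‖(b : ℂ) * J x - 1‖ ≤ 1 / 5)
    (h1 : L ≤ -((1 + p) * R4) + Real.log (4 / (5 * b))) (h2 : A ≤ (1 + p) * Vm - 1 / 4) :
    ∀ K ⊆ G4 A L R5, IsCompact K →
      IsCompact (P4 R4 Vm R5 ∩ (fun y : ℂ × ℂ => (fJ p J y, y.2)) ⁻¹' K) := by
  intro K hK hKc
  have hb1 : 0 < 4 / (5 * b) := by positivity
  refine Metric.isCompact_of_isClosed_isBounded ?_ ?_
  · refine isClosed_of_closure_subset fun x hx => ?_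
    have c1 : x.1.re ≤ -R4 := by
      have hc : IsClosed {y : ℂ × ℂ | y.1.re ≤ -R4} :=
        isClosed_le (continuous_re.comp continuous_fst) continuous_const
      exact closure_minimal (fun y hy => le_of_lt hy.1.1) hc hx
    have c2 : |x.1.im| ≤ Vm := by
      have hc : IsClosed {y : ℂ × ℂ | |y.1.im| ≤ Vm} :=
        isClosed_le (continuous_abs.comp (continuous_im.comp continuous_fst)) continuous_const
      exact closure_minimal (fun y hy => le_of_lt hy.1.2.1) hc hx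
    have c3 : -R5 < x.2.re := by
      have hc : IsClosed {y : ℂ × ℂ | y.2 ∈ Prod.snd '' K} :=
        (hKc.image continuous_snd).isClosed.preimage continuous_snd
      have hsub : P4 R4 Vm R5 ∩ (fun y : ℂ × ℂ => (fJ p J y, y.2)) ⁻¹' K ⊆
          {y : ℂ × ℂ | y.2 ∈ Prod.snd '' K} := fun y hy => ⟨(fJ p J y, y.2), hy.2, rfl⟩
      have h3 : x.2 ∈ Prod.snd '' K := closure_minimal hsub hc hx
      obtain ⟨y, hy, hy2⟩ := h3
      have h4 := (hK hy).2.2
      rwa [hy2] at h4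
    obtain ⟨hc, hn⟩ := hcl x c1 c2 c3
    have hΦ : (fJ p J x, x.2) ∈ K := by
      have h3 : ContinuousAt (fun y : ℂ × ℂ => (fJ p J y, y.2)) x :=
        hc.prodMk continuousAt_snd
      have h4 := h3.continuousWithinAt.mem_closure hx (t := K) (fun y hy => hy.2)
      rwa [hKc.isClosed.closure_eq] at h4
    obtain ⟨g1, g2, -⟩ := hK hΦ
    obtain ⟨-, n2, n3, -⟩ := g4_near hb hn
    refine ⟨⟨lt_of_le_of_ne c1 fun he => ?_, lt_of_le_of_ne c2 fun he => ?_, c3⟩, hΦ⟩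
    · have h3 : (fJ p J x).re < L := g1
      rw [g4_re, he] at h3
      have h4 := Real.log_le_log hb1 n3
      linarith
    · have h3 : |(fJ p J x).im| < A := g2
      rw [g4_im] at h3
      have h4 := abs_sub_abs_le_abs_sub ((1 + p) * x.1.im) (-arg (J x))
      rw [sub_neg_eq_add, abs_neg, abs_mul, abs_of_pos (by linarith : 0 < 1 + p), he] at h4
      linarith
  · obtain ⟨M, hM⟩ := hKc.isBounded.exists_norm_le
    set m : ℝ := (M + |Real.log (6 / (5 * b))|) / (1 + p) with hm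
    refine (Metric.isBounded_closedBall (x := (0 : ℂ × ℂ)) (r := max (m + |R4| + Vm) M)).subset
      fun x hx => ?_
    obtain ⟨⟨c1, c2, c3⟩, hx2⟩ := hx
    have h3 := hM _ hx2
    obtain ⟨-, hn⟩ := hcl x c1.le c2.le c3
    obtain ⟨n1, -, -, n4⟩ := g4_near hb hn
    have h4 : ‖fJ p J x‖ ≤ M := (norm_fst_le ((fJ p J x, x.2) : ℂ × ℂ)).trans h3
    have h5 : ‖x.2‖ ≤ M := (norm_snd_le ((fJ p J x, x.2) : ℂ × ℂ)).trans h3
    have h6 := (abs_le.1 ((abs_re_le_norm _).trans h4)).1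
    rw [g4_re] at h6
    have hJ0 : 0 < ‖J x‖ := norm_pos_iff.2 fun h => by rw [h, zero_re] at n1; exact n1.false
    have h7 := Real.log_le_log hJ0 n4
    have h8 : -m ≤ x.1.re := by
      rw [hm, ← neg_div, div_le_iff₀ (by linarith : 0 < 1 + p)]
      have h9 := le_abs_self (Real.log (6 / (5 * b)))
      linarith
    have h9 : |x.1.re| ≤ m + |R4| := by
      have hm0 : 0 ≤ m := by
        have hM0 : 0 ≤ M := (norm_nonneg _).trans h4
        rw [hm]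
        positivity
      rw [abs_le]
      constructor
      · linarith [abs_nonneg R4]
      · linarith [neg_abs_le R4, neg_le_abs R4]
    rw [mem_closedBall_zero_iff, Prod.norm_def]
    refine max_le_max ?_ h5
    have h10 := norm_le_abs_re_add_abs_im x.1
    linarith

/-- THE SECTION (g4), near `Z`, for all `ζ` with `- R5 < Re ζ`, with any base point.

Proof. `b := (1 + p) k π`, `Vm := (A + 1) / (1 + p)`. `exists_Sh0` with `2 Vm + Wk k`: `R, V', Y'`. `LD (X0 ..) π Y'`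
(left invariant, `Sh0.prop`). `near_gen` with `A = 2 Vm`, `ε` with `2 ε / (k π) ≤ 1 / 10`: `R'`. `R4 := max` of `R`, `R'`,
`R5 - X₀` plus `1`: for `Re om ≤ - R4`, `|Im om| ≤ Vm`, `- R5 < Re ζ`: `Re (om - ζ) < X₀`, `‖Y' (om - t) - k π‖ ≤ ε` for `t ≥ 0`,
so `‖b J' - 1‖ ≤ 2 η + 2 ε / (k π) ≤ 1 / 5` (`JZ_near`). `L := - (1 + p) R4 + log (4 / (5 b))`. Properness as in
`proper_G1`: boundary `Re om = - R4`: `Re f ≥ L`; `|Im om| = Vm`: `|Im f| ≥ A`; lower bound of `Re om` on the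
preimage of a compact set: `Re f = (1 + p) Re om + log ‖J'‖`. -/
theorem sec_G4 (h : Sh k V Y) (hk : 1 ≤ k) (hκ : Kap p X₀ η c₁ κ) {A R5 : ℝ}
    (hA : 1 ≤ A) : ∃ (R4 L Rx : ℝ) (V' Y' : ℂ → ℂ), Rx < R4 ∧
      Sh0 k (2 * ((A + 1) / (1 + p)) + Wk k) Rx V Y V' Y' ∧ R5 - R4 < X₀ ∧
      ∀ x₀ ∈ P4 R4 ((A + 1) / (1 + p)) R5, (fJ p (JZ p c₁ κ Y') x₀, x₀.2) ∈ G4 A L R5 →
        ∃ g : ℂ × ℂ → ℂ, AnalyticOnNhd ℂ g (G4 A L R5) ∧
          (∀ y ∈ G4 A L R5, (g y, y.2) ∈ P4 R4 ((A + 1) / (1 + p)) R5 ∧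
            ‖(1 + p) * (k * Real.pi) * JZ p c₁ κ Y' (g y, y.2) - 1‖ ≤ 1 / 5 ∧
            fJ p (JZ p c₁ κ Y') (g y, y.2) = y.1) ∧
          g (fJ p (JZ p c₁ κ Y') x₀, x₀.2) = x₀.1 := by
  have hpi := Real.pi_pos
  have hk' : (1 : ℝ) ≤ k := by exact_mod_cast hk
  have hkp : 0 < (k : ℝ) * Real.pi := by positivity
  have hp := hκ.p_pos
  have hp1 : 0 < 1 + p := by linarith
  obtain ⟨Vm, hVm⟩ : ∃ Vm : ℝ, Vm = (A + 1) / (1 + p) := ⟨_, rfl⟩
  have hVm0 : 0 < Vm := by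
    rw [hVm]
    positivity
  have hW : 0 < Wk k := v6b_Wk_pos k
  obtain ⟨R, V', Y', hR, hS⟩ := exists_Sh0 h hk (2 * Vm + Wk k)
  obtain ⟨R', hR'⟩ := near_gen hk (2 * Vm) (ε := Real.pi / 20) (by positivity)
  obtain ⟨R4, hR4⟩ : ∃ R4 : ℝ, R4 = max (max R R') (R5 - X₀) + 1 := ⟨_, rfl⟩
  have r1 : R < R4 := by
    have h1 := (le_max_left R R').trans (le_max_left (max R R') (R5 - X₀))
    linarith
  have r2 : R' ≤ R4 := by
    have h1 := (le_max_right R R').trans (le_max_left (max R R') (R5 - X₀))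
    linarith
  have r3 : R5 - R4 < X₀ := by
    have h1 := le_max_right (max R R') (R5 - X₀)
    linarith
  have hLD : LD (X0 k (2 * Vm + Wk k) R) Real.pi Y' := by
    refine ⟨v6b_isOpen_X0 _ _ _, ?_, hpi, hS.Y_an, ?_⟩
    · intro z hz t ht
      have e1 : (z - t).im = z.im := by rw [sub_im, ofReal_im, sub_zero]
      have e2 : (z - t).re = z.re - t := by rw [sub_re, ofReal_re]
      rcases hz with h1 | ⟨h1, h2⟩
      · left
        show |(z - t).im| < Wk k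
        rw [e1]
        exact h1
      · right
        refine ⟨?_, ?_⟩
        · rw [e2]
          linarith
        · rw [e1]
          exact h2
    · intro z hz
      have h1 := (hS.prop hz).2.1
      nlinarith
  obtain ⟨b, hb⟩ : ∃ b : ℝ, b = (1 + p) * (k * Real.pi) := ⟨_, rfl⟩
  have hb0 : 0 < b := by
    rw [hb]
    positivity
  have hbc : (b : ℂ) = (1 + p) * (k * Real.pi) := by
    rw [hb]
    push_cast
    rfl
  have key : ∀ x : ℂ × ℂ, x.1.re ≤ -R4 → |x.1.im| ≤ Vm → -R5 < x.2.re →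
      x ∈ DZ (X0 k (2 * Vm + Wk k) R) X₀ ∧ ‖(b : ℂ) * JZ p c₁ κ Y' x - 1‖ ≤ 1 / 5 := by
    intro x hx1 hx2 hx3
    have hX : ∀ t : ℝ, 0 ≤ t → x.1 - t ∈ X0 k (2 * Vm + Wk k) R := by
      intro t ht
      right
      have e1 : (x.1 - t).im = x.1.im := by rw [sub_im, ofReal_im, sub_zero]
      have e2 : (x.1 - t).re = x.1.re - t := by rw [sub_re, ofReal_re]
      refine ⟨?_, ?_⟩
      · rw [e2]
        linarith
      · rw [e1]
        linarith
    have hx : x ∈ DZ (X0 k (2 * Vm + Wk k) R) X₀ := by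
      refine ⟨?_, ?_⟩
      · have h1 := hX 0 le_rfl
        rwa [ofReal_zero, sub_zero] at h1
      · rw [sub_re]
        linarith
    refine ⟨hx, ?_⟩
    have h1 : ∀ t : ℝ, 0 ≤ t → ‖Y' (x.1 - t) - ((k * Real.pi : ℝ) : ℂ)‖ ≤ Real.pi / 20 := by
      intro t ht
      obtain ⟨m, m1, m2⟩ := hS.s1 _ (hX t ht)
      rw [m2]
      have e : ((k * Real.pi : ℝ) : ℂ) = k * Real.pi := by push_cast; rfl
      rw [e]
      refine hR' _ m ?_ ?_
      · rw [m1, sub_re, ofReal_re]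
        linarith
      · rw [m1, sub_im, ofReal_im, sub_zero]
        linarith
    have h2 := JZ_near hκ hLD hx hkp (by positivity : 0 ≤ Real.pi / 20) (by nlinarith) h1
    have h3 : 2 * η + 2 * (Real.pi / 20) / (k * Real.pi) ≤ 1 / 5 := by
      have h4 : 2 * (Real.pi / 20) / (k * Real.pi) ≤ 1 / 10 := by
        rw [div_le_iff₀ hkp]
        nlinarith
      linarith [hκ.η_le]
    rw [hbc]
    have e : ((k * Real.pi : ℝ) : ℂ) = k * Real.pi := by push_cast; rfl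
    rw [e] at h2
    exact h2.trans h3
  have key2 : ∀ x : ℂ × ℂ, x.1.re ≤ -R4 → |x.1.im| ≤ Vm → -R5 < x.2.re →
      AnalyticAt ℂ (fJ p (JZ p c₁ κ Y')) x ∧
        HasDerivAt (fun z => fJ p (JZ p c₁ κ Y') (z, x.2))
          (κ (x.1 - x.2) / (Y' x.1 * TZ κ Y' x)) x.1 ∧
        κ (x.1 - x.2) / (Y' x.1 * TZ κ Y' x) ≠ 0 := by
    intro x hx1 hx2 hx3
    obtain ⟨m1, m2⟩ := key x hx1 hx2 hx3
    obtain ⟨a, b, c, -⟩ := fJ_der hκ hLD m1 (g4_near hb0 m2).1
    exact ⟨a, b, c⟩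
  rw [← hVm]
  refine ⟨R4, -((1 + p) * R4) + Real.log (4 / (5 * b)), R, V', Y', r1, hS, r3, ?_⟩
  intro x₀ hx₀ hy₀
  obtain ⟨g, g1, g2, g3⟩ := sec_pair (F := fJ p (JZ p c₁ κ Y')) (x₀ := x₀)
    (P := P4 R4 Vm R5) (G := G4 A (-((1 + p) * R4) + Real.log (4 / (5 * b))) R5)
    (d := fun x => κ (x.1 - x.2) / (Y' x.1 * TZ κ Y' x)) (g4_isOpen_P4 _ _ _)
    (fun x hx => (key2 x hx.1.le hx.2.1.le hx.2.2).1)
    (fun x hx => (key2 x hx.1.le hx.2.1.le hx.2.2).2) (isOpen_G4 _ _ _)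
    ((convex_G4 _ _ _).starConvex hy₀)
    (g4_proper hp hb0 (fun x a1 a2 a3 => ⟨(key2 x a1 a2 a3).1.continuousAt, (key x a1 a2 a3).2⟩)
      le_rfl (by
        rw [hVm, mul_div_cancel₀ _ hp1.ne']
        linarith)) hx₀ hy₀
  refine ⟨g, g1, fun y hy => ?_, g3⟩
  obtain ⟨a, b'⟩ := g2 y hy
  refine ⟨a, ?_, b'⟩
  rw [← hbc]
  exact (key _ a.1.le a.2.1.le a.2.2).2

end Pool.Agent.MP_ae5b4e_an_AZ
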