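import Pool.Agent.Lib.MP_ae5b4e_an_AZ.G1
import Pool.Agent.Lib.MP_ae5b4e_an_AZ.G4

/-! # AZ: the sections (g1) and (g4) with an arbitrary base point -/

noncomputable section

namespace Pool.Agent.MP_ae5b4e_an_AZ

open Complex Set Filter Topology Metric

variable {k : ℕ} {V Y : ℂ → ℂ} {p X₀ η : ℝ} {c₁ : ℂ} {κ : ℂ → ℂ}

private theorem g6_isOpen_P4 (R4 Vm R5 : ℝ) : IsOpen (P4 R4 Vm R5) :=
  (isOpen_lt (continuous_re.comp continuous_fst) continuous_const).inter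
    ((isOpen_lt (continuous_abs.comp (continuous_im.comp continuous_fst)) continuous_const).inter
      (isOpen_lt continuous_const (continuous_re.comp continuous_snd)))

private theorem g6_cast (p : ℝ) : ((1 : ℂ) + p) = ((1 + p : ℝ) : ℂ) := by push_cast; rfl

private theorem g6_re (p : ℝ) (J : ℂ × ℂ → ℂ) (x : ℂ × ℂ) :
    (fJ p J x).re = (1 + p) * x.1.re + Real.log ‖J x‖ := by
  unfold fJ
  rw [add_re, log_re, g6_cast, re_ofReal_mul]

private theorem g6_im (p : ℝ) (J : ℂ × ℂ → ℂ) (x : ℂ × ℂ) :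
    (fJ p J x).im = (1 + p) * x.1.im + arg (J x) := by
  unfold fJ
  rw [add_im, log_im, g6_cast, im_ofReal_mul]

/-- a number near `1 / b` -/
private theorem g6_near {b : ℝ} (hb : 0 < b) {J : ℂ} (h : ‖(b : ℂ) * J - 1‖ ≤ 1 / 5) :
    0 < J.re ∧ |arg J| ≤ 1 / 4 ∧ 4 / (5 * b) ≤ ‖J‖ ∧ ‖J‖ ≤ 6 / (5 * b) := by
  have h1 : 4 / 5 ≤ ((b : ℂ) * J).re := by
    have h2 := (abs_le.1 (abs_re_le_norm ((b : ℂ) * J - 1))).1
    rw [sub_re, one_re] at h2
    linarith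
  have h2 : |((b : ℂ) * J).im| ≤ 1 / 5 := by
    have h3 := abs_im_le_norm ((b : ℂ) * J - 1)
    rw [sub_im, one_im, sub_zero] at h3
    linarith
  rw [re_ofReal_mul] at h1
  rw [im_ofReal_mul] at h2
  have h3 : 0 < J.re := by
    by_contra hcon
    push Not at hcon
    nlinarith
  have hn : ‖(b : ℂ) * J‖ = b * ‖J‖ := by
    rw [norm_mul, norm_real, Real.norm_eq_abs, abs_of_pos hb]
  refine ⟨h3, ?_, ?_, ?_⟩
  · have h4 : Real.tan (arg J) = J.im / J.re := tan_arg J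
    have h5 : |J.im / J.re| ≤ 1 / 4 := by
      rw [abs_div, abs_of_pos h3, div_le_iff₀ h3]
      rw [abs_mul, abs_of_pos hb] at h2
      have h6 : b * |J.im| ≤ b * (1 / 4 * J.re) := by linarith
      exact le_of_mul_le_mul_left h6 hb
    have h6 := abs_lt.1 (abs_arg_lt_pi_div_two_iff.2 (Or.inl h3))
    rcases le_total 0 (arg J) with h7 | h7
    · rw [abs_of_nonneg h7]
      have h8 := Real.le_tan h7 h6.2
      rw [h4] at h8
      exact h8.trans ((le_abs_self _).trans h5)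
    · rw [abs_of_nonpos h7]
      have h8 := Real.le_tan (x := -arg J) (by linarith) (by linarith [h6.1])
      rw [Real.tan_neg, h4] at h8
      exact h8.trans ((neg_le_abs _).trans h5)
  · have h4 := abs_re_le_norm ((b : ℂ) * J)
    rw [hn, re_ofReal_mul] at h4
    have h5 := le_abs_self (b * J.re)
    rw [div_le_iff₀ (by positivity)]
    linarith
  · have h4 := norm_sub_norm_le ((b : ℂ) * J) 1
    rw [hn, norm_one] at h4
    rw [le_div_iff₀ (by positivity)]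
    linarith

/-- properness, in an abstract form -/
private theorem g6_proper {J : ℂ × ℂ → ℂ} {b R4 Vm A L R5 : ℝ} (hp : 0 < p) (hb : 0 < b)
    (hcl : ∀ x : ℂ × ℂ, x.1.re ≤ -R4 → |x.1.im| ≤ Vm → -R5 < x.2.re →
      ContinuousAt (fJ p J) x ∧ ‖(b : ℂ) * J x - 1‖ ≤ 1 / 5)
    (h1 : L ≤ -((1 + p) * R4) + Real.log (4 / (5 * b))) (h2 : A ≤ (1 + p) * Vm - 1 / 4) :
    ∀ K ⊆ G4 A L R5, IsCompact K →
      IsCompact (P4 R4 Vm R5 ∩ (fun y : ℂ × ℂ => (fJ p J y, y.2)) ⁻¹' K) := by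
  intro K hK hKc
  have hb1 : 0 < 4 / (5 * b) := by positivity
  refine Metric.isCompact_of_isClosed_isBounded ?_ ?_
  · refine isClosed_of_closure_subset fun x hx => ?_
    have c1 : x.1.re ≤ -R4 := by
      have hc : IsClosed {y : ℂ × ℂ | y.1.re ≤ -R4} :=
        isClosed_le (continuous_re.comp continuous_fst) continuous_const
      exact closure_minimal (fun y hy => le_of_lt hy.1.1) hc hx
    have c2 : |x.1.im| ≤ Vm := by
      have hc : IsClosed {y : ℂ × ℂ | |y.1.im| ≤ Vm} :=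
        isClosed_le (continuous_abs.comp (continuous_im.comp continuous_fst)) continuous_const
      exact closure_minimal (fun y hy => le_of_lt hy.1.2.1) hc hx
    have c3 : -R5 < x.2.re := by
      have hc : IsClosed {y : ℂ × ℂ | y.2 ∈ Prod.snd '' K} :=
        (hKc.image continuous_snd).isClosed.preimage continuous_snd
      have hsub : P4 R4 Vm R5 ∩ (fun y : ℂ × ℂ => (fJ p J y, y.2)) ⁻¹' K ⊆
          {y : ℂ × ℂ | y.2 ∈ Prod.snd '' K} := fun y hy => ⟨(fJ p J y, y.2), hy.2, rfl⟩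
      have h3 : x.2 ∈ Prod.snd '' K := closure_minimal hsub hc hx
      obtain ⟨y, hy, hy2⟩ := h3
      have h4 := (hK hy).2.2
      rwa [hy2] at h4
    obtain ⟨hc, hn⟩ := hcl x c1 c2 c3
    have hΦ : (fJ p J x, x.2) ∈ K := by
      have h3 : ContinuousAt (fun y : ℂ × ℂ => (fJ p J y, y.2)) x :=
        hc.prodMk continuousAt_snd
      have h4 := h3.continuousWithinAt.mem_closure hx (t := K) (fun y hy => hy.2)
      rwa [hKc.isClosed.closure_eq] at h4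
    obtain ⟨g1, g2, -⟩ := hK hΦ
    obtain ⟨-, n2, n3, -⟩ := g6_near hb hn
    refine ⟨⟨lt_of_le_of_ne c1 fun he => ?_, lt_of_le_of_ne c2 fun he => ?_, c3⟩, hΦ⟩
    · have h3 : (fJ p J x).re < L := g1
      rw [g6_re, he] at h3
      have h4 := Real.log_le_log hb1 n3
      linarith
    · have h3 : |(fJ p J x).im| < A := g2
      rw [g6_im] at h3
      have h4 := abs_sub_abs_le_abs_sub ((1 + p) * x.1.im) (-arg (J x))
      rw [sub_neg_eq_add, abs_neg, abs_mul, abs_of_pos (by linarith : 0 < 1 + p), he] at h4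
      linarith
  · obtain ⟨M, hM⟩ := hKc.isBounded.exists_norm_le
    set m : ℝ := (M + |Real.log (6 / (5 * b))|) / (1 + p) with hm
    refine (Metric.isBounded_closedBall (x := (0 : ℂ × ℂ)) (r := max (m + |R4| + Vm) M)).subset
      fun x hx => ?_
    obtain ⟨⟨c1, c2, c3⟩, hx2⟩ := hx
    have h3 := hM _ hx2
    obtain ⟨-, hn⟩ := hcl x c1.le c2.le c3
    obtain ⟨n1, -, -, n4⟩ := g6_near hb hn
    have h4 : ‖fJ p J x‖ ≤ M := (norm_fst_le ((fJ p J x, x.2) : ℂ × ℂ)).trans h3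
    have h5 : ‖x.2‖ ≤ M := (norm_snd_le ((fJ p J x, x.2) : ℂ × ℂ)).trans h3
    have h6 := (abs_le.1 ((abs_re_le_norm _).trans h4)).1
    rw [g6_re] at h6
    have hJ0 : 0 < ‖J x‖ := norm_pos_iff.2 fun h => by rw [h, zero_re] at n1; exact n1.false
    have h7 := Real.log_le_log hJ0 n4
    have h8 : -m ≤ x.1.re := by
      rw [hm, ← neg_div, div_le_iff₀ (by linarith : 0 < 1 + p)]
      have h9 := le_abs_self (Real.log (6 / (5 * b)))
      linarith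
    have h9 : |x.1.re| ≤ m + |R4| := by
      have hm0 : 0 ≤ m := by
        have hM0 : 0 ≤ M := (norm_nonneg _).trans h4
        rw [hm]
        positivity
      rw [abs_le]
      constructor
      · linarith [abs_nonneg R4]
      · linarith [neg_abs_le R4, neg_le_abs R4]
    rw [mem_closedBall_zero_iff, Prod.norm_def]
    refine max_le_max ?_ h5
    have h10 := norm_le_abs_re_add_abs_im x.1
    linarith

/-- A function with derivative of positive real part on a convex set is injective. -/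
private theorem g6_inj {f f' : ℂ → ℂ} {S : Set ℂ} (hS : Convex ℝ S)
    (hf : ∀ z ∈ S, HasDerivAt f (f' z) z) (hpos : ∀ z ∈ S, 0 < (f' z).re) : InjOn f S := by
  intro v hv v' hv' h
  by_contra hne
  obtain ⟨w, hw⟩ : ∃ w : ℂ, w = v' - v := ⟨_, rfl⟩
  have hw0 : w ≠ 0 := by
    rw [hw]
    exact sub_ne_zero.2 (Ne.symm hne)
  have hre : ∀ t ∈ Icc (0 : ℝ) 1, v + (t : ℂ) * w ∈ S := by
    intro t ht
    have h1 := hS hv hv' (by linarith [ht.2] : 0 ≤ 1 - t) ht.1 (by ring)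
    have h2 : (1 - t) • v + t • v' = v + (t : ℂ) * w := by
      rw [hw, real_smul, real_smul]
      push_cast
      ring
    rwa [h2] at h1
  have hd : ∀ t ∈ Icc (0 : ℝ) 1, HasDerivAt
      (fun t : ℝ => (f (v + (t : ℂ) * w) * (starRingEnd ℂ) w).re)
      ((f' (v + (t : ℂ) * w) * w * (starRingEnd ℂ) w).re) t := by
    intro t ht
    have h1 : HasDerivAt (fun z : ℂ => v + z * w) w (t : ℂ) := by
      simpa using ((hasDerivAt_id (t : ℂ)).mul_const w).const_add v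
    have h2 := ((hf _ (hre t ht)).comp (t : ℂ) h1).mul_const ((starRingEnd ℂ) w)
    exact h2.real_of_complex
  obtain ⟨c, hc, hcc⟩ := exists_hasDerivAt_eq_slope
    (fun t : ℝ => (f (v + (t : ℂ) * w) * (starRingEnd ℂ) w).re)
    (fun t : ℝ => (f' (v + (t : ℂ) * w) * w * (starRingEnd ℂ) w).re) one_pos
    (fun t ht => (hd t ht).continuousAt.continuousWithinAt)
    (fun t ht => hd t (Ioo_subset_Icc_self ht))
  have e1 : v + ((1 : ℝ) : ℂ) * w = v' := by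
    rw [hw]
    push_cast
    ring
  have e0 : v + ((0 : ℝ) : ℂ) * w = v := by
    push_cast
    ring
  have e2 : (f' (v + (c : ℂ) * w) * w * (starRingEnd ℂ) w).re =
      (f' (v + (c : ℂ) * w)).re * normSq w := by
    rw [mul_assoc, mul_conj, re_mul_ofReal]
  simp only [e1, e0] at hcc
  rw [e2, h, sub_self, zero_div] at hcc
  exact (mul_pos (hpos _ (hre c (Ioo_subset_Icc_self hc))) (normSq_pos.2 hw0)).ne' hcc

/-- the real part of a quotient of numbers near `1` -/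
private theorem g6_quot {w₁ w₂ w₃ : ℂ} (h1 : ‖w₁ - 1‖ ≤ 1 / 20) (h2 : ‖w₂ - 1‖ ≤ 1 / 5)
    (h3 : ‖w₃ - 1‖ ≤ 1 / 20) : 0 < (w₁ / (w₃ * w₂)).re := by
  obtain ⟨a2, -, -, -⟩ := g1_core h2
  obtain ⟨a3, -, -, -⟩ := g1_core (h3.trans (by norm_num))
  have b2 : w₂ ≠ 0 := by
    intro h0
    rw [h0, norm_zero] at a2
    linarith
  have b3 : w₃ ≠ 0 := by
    intro h0
    rw [h0, norm_zero] at a3
    linarith
  -- `w₁ - w₃ w₂` is small
  have e1 : w₁ - w₃ * w₂ = (w₁ - 1) - (w₃ - 1) - (w₂ - 1) - (w₃ - 1) * (w₂ - 1) := by ring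
  have e2 : ‖w₁ - w₃ * w₂‖ ≤ 1 / 20 + 1 / 20 + 1 / 5 + 1 / 20 * (1 / 5) := by
    rw [e1]
    refine (norm_sub_le _ _).trans (add_le_add ((norm_sub_le _ _).trans (add_le_add
      ((norm_sub_le _ _).trans (add_le_add h1 h3)) h2)) ?_)
    rw [norm_mul]
    exact mul_le_mul h3 h2 (norm_nonneg _) (by norm_num)
  have e3 : 4 / 5 * (4 / 5) ≤ ‖w₃ * w₂‖ := by
    rw [norm_mul]
    exact mul_le_mul a3 a2 (by norm_num) (norm_nonneg _)
  have e4 : w₁ / (w₃ * w₂) - 1 = (w₁ - w₃ * w₂) / (w₃ * w₂) := by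
    rw [sub_div, div_self (mul_ne_zero b3 b2)]
  have e5 : ‖w₁ / (w₃ * w₂) - 1‖ < 1 := by
    rw [e4, norm_div, div_lt_one (by linarith)]
    linarith
  have e6 := (abs_le.1 (abs_re_le_norm (w₁ / (w₃ * w₂) - 1))).1
  rw [sub_re, one_re] at e6
  linarith

/-- THE SECTION (g1), with any base point. Proof. The proof of `sec_G1` (G1.lean), without the choice of the base
point; `‖J‖ ≤ C` from `‖b J - 1‖ ≤ 1 / 5`. -/
theorem sec_G1b (h : Sh k V Y) (hk : 1 ≤ k) (hκ : Kap p X₀ η c₁ κ) {X₁ A : ℝ} (hX : X₁ < X₀)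
    (hA : 1 ≤ A) : ∃ U₂ R₂ L₁ L₂ C : ℝ, U0 < U₂ ∧
      ∀ (R₀ : ℝ) (T : ℂ × ℂ → ℂ) (θZ : ℂ → ℂ), TT k X₀ R₀ κ Y T θZ → ∀ R : ℝ, R₀ ≤ R → R₂ ≤ R →
        (∀ x : ℂ × ℂ, U₂ ≤ x.1.re → |x.1.im| ≤ (A + 1) / (1 + p) → (x.1 - x.2).re ≤ X₁ →
          R < x.2.re → x ∈ DT k X₀ R₀ ∧ 0 < (JT p c₁ T x).re ∧ |arg (JT p c₁ T x)| ≤ 1 / 4 ∧
            ‖JT p c₁ T x‖ ≤ C) ∧
        ∀ x₀ ∈ P1 U₂ ((A + 1) / (1 + p)) X₁ R, (fJ p (JT p c₁ T) x₀, x₀.2) ∈ G1 p A L₁ L₂ R →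
          ∃ g : ℂ × ℂ → ℂ, AnalyticOnNhd ℂ g (G1 p A L₁ L₂ R) ∧
            (∀ y ∈ G1 p A L₁ L₂ R, (g y, y.2) ∈ P1 U₂ ((A + 1) / (1 + p)) X₁ R ∧
              fJ p (JT p c₁ T) (g y, y.2) = y.1) ∧
            g (fJ p (JT p c₁ T) x₀, x₀.2) = x₀.1 := by
  have hp := hκ.p_pos
  have hη := hκ.η_le
  have hpi := Real.pi_pos
  have hp1 : 0 < 1 + p := by linarith
  have hA0 : 0 < A := by linarith
  obtain ⟨U₂, R₂, hU, hfar⟩ := TT.far h hk hκ ((A + 1) / (1 + p)) (ε := 1 / 10) (by norm_num)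
  obtain ⟨b, hb⟩ : ∃ b : ℝ, b = (1 + p) * ((k + 1) * Real.pi) := ⟨_, rfl⟩
  have hb0 : 0 < b := by
    rw [hb]
    positivity
  have hbC : (1 + (p : ℂ)) * (((k : ℂ) + 1) * (Real.pi : ℂ)) = (b : ℂ) := by
    rw [hb]
    push_cast
    ring
  refine ⟨U₂, R₂, (1 + p) * U₂ + Real.log (6 / (5 * b)), (1 + p) * X₁ + Real.log (4 / (5 * b)),
    6 / (5 * b), hU, ?_⟩
  intro R₀ T θZ hT R hR0 hR2
  have hcl : ∀ x : ℂ × ℂ, U₂ ≤ x.1.re → |x.1.im| ≤ (A + 1) / (1 + p) → (x.1 - x.2).re ≤ X₁ →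
      R < x.2.re → x ∈ DT k X₀ R₀ ∧ ‖b * JT p c₁ T x - 1‖ ≤ 1 / 5 := by
    intro x a1 a2 a3 a4
    have a5 : R₀ < x.2.re := by linarith
    have a6 : (x.1 - x.2).re < X₀ := by linarith
    refine ⟨⟨Or.inr (Or.inl (by linarith)), a6, Or.inr a5⟩, ?_⟩
    have := hfar R₀ T θZ hT x a1 a2 a5 (by linarith) a6
    rw [hbC] at this
    linarith
  refine ⟨fun x a1 a2 a3 a4 => ?_, ?_⟩
  · obtain ⟨b1, b2⟩ := hcl x a1 a2 a3 a4
    obtain ⟨n1, n2, -, n4⟩ := g6_near hb0 b2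
    exact ⟨b1, n1, n2, n4⟩
  have hclP : ∀ x ∈ P1 U₂ ((A + 1) / (1 + p)) X₁ R,
      x ∈ DT k X₀ R₀ ∧ ‖b * JT p c₁ T x - 1‖ ≤ 1 / 5 := fun x hx =>
    hcl x hx.1.le hx.2.1.le hx.2.2.1.le hx.2.2.2
  have hder : ∀ x ∈ P1 U₂ ((A + 1) / (1 + p)) X₁ R,
      AnalyticAt ℂ (fJ p (JT p c₁ T)) x ∧
      HasDerivAt (fun z => fJ p (JT p c₁ T) (z, x.2)) (κ (x.1 - x.2) / (Y x.1 * T x)) x.1 ∧
      κ (x.1 - x.2) / (Y x.1 * T x) ≠ 0 := by
    intro x hx
    obtain ⟨a1, a2⟩ := hclP x hx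
    have hY : Y x.1 ≠ 0 := by
      intro h0
      have h1 := (h.re_mem a1.1).1
      rw [h0, zero_re] at h1
      have : 0 ≤ (k : ℝ) * Real.pi := by positivity
      linarith
    obtain ⟨c1, c2, c3, -⟩ := fJT_der hκ hT a1 (g1_core2 hb0 a2).2.2.2 hY
    exact ⟨c1, c2, c3⟩
  have hproper := proper_G1 (isOpen_DT k X₀ R₀) (g1_JT_an hκ hT) (A := A)
    (L₁ := (1 + p) * U₂ + Real.log (6 / (5 * b))) (L₂ := (1 + p) * X₁ + Real.log (4 / (5 * b)))
    hp hb0 hcl le_rfl (by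
      rw [mul_div_cancel₀ _ hp1.ne']
      linarith) le_rfl
  intro x₀ hx₀ hy₀
  exact sec_pair (F := fJ p (JT p c₁ T)) (g1_isOpen_P1 _ _ _ _)
    (fun x hx => (hder x hx).1) (d := fun x => κ (x.1 - x.2) / (Y x.1 * T x))
    (fun x hx => (hder x hx).2) (isOpen_G1 _ _ _ _ _)
    ((convex_G1 _ _ _ _ _).starConvex hy₀) hproper hx₀ hy₀

/-- THE SECTION (g4), with any base point, with the bounds on the whole source and injectivity.

Proof. As `sec_G4` (G4.lean). `near_gen` with `ε` so small that `ε ≤ 1 / 20` as well. INJECTIVITY: for fixed `ζ` the set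
`{z | (z, ζ) ∈ P4}` is convex, and `z ↦ fJ p (JZ p c₁ κ Y') (z, ζ)` has the derivative `κ (z - ζ) / (Y' z TZ)` (`fJ_der`)
`= (1 + h) / (Y' z J)`, `‖h‖ ≤ 1 / 20` (`Kap.bd`), `b J = 1 + e`, `‖e‖ ≤ 1 / 5`, `b = (1 + p) k π`, `Y' z = k π (1 + e')`,
`‖e'‖ ≤ 1 / 60`: the derivative is `(1 + p) (1 + h) / ((1 + e) (1 + e'))`, its real part is positive. A function
with derivative of positive real part on a convex set is injective (as in `om1_injOn`, V5a). -/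
theorem sec_G4b (h : Sh k V Y) (hk : 1 ≤ k) (hκ : Kap p X₀ η c₁ κ) {A R5 : ℝ}
    (hA : 1 ≤ A) : ∃ (R4 L Rx C : ℝ) (V' Y' : ℂ → ℂ), Rx < R4 ∧
      Sh0 k (2 * ((A + 1) / (1 + p)) + Wk k) Rx V Y V' Y' ∧ R5 - R4 < X₀ ∧
      (∀ x ∈ P4 R4 ((A + 1) / (1 + p)) R5, 0 < (JZ p c₁ κ Y' x).re ∧
        |arg (JZ p c₁ κ Y' x)| ≤ 1 / 4 ∧ ‖JZ p c₁ κ Y' x‖ ≤ C ∧ ‖Y' x.1‖ ≤ C) ∧
      (∀ x ∈ P4 R4 ((A + 1) / (1 + p)) R5, ∀ z : ℂ, (z, x.2) ∈ P4 R4 ((A + 1) / (1 + p)) R5 →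
        fJ p (JZ p c₁ κ Y') (z, x.2) = fJ p (JZ p c₁ κ Y') x → z = x.1) ∧
      ∀ x₀ ∈ P4 R4 ((A + 1) / (1 + p)) R5, (fJ p (JZ p c₁ κ Y') x₀, x₀.2) ∈ G4 A L R5 →
        ∃ g : ℂ × ℂ → ℂ, AnalyticOnNhd ℂ g (G4 A L R5) ∧
          (∀ y ∈ G4 A L R5, (g y, y.2) ∈ P4 R4 ((A + 1) / (1 + p)) R5 ∧
            fJ p (JZ p c₁ κ Y') (g y, y.2) = y.1) ∧
          g (fJ p (JZ p c₁ κ Y') x₀, x₀.2) = x₀.1 := by
  have hpi := Real.pi_pos
  have hk' : (1 : ℝ) ≤ k := by exact_mod_cast hk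
  have hkp : 0 < (k : ℝ) * Real.pi := by positivity
  have hp := hκ.p_pos
  have hp1 : 0 < 1 + p := by linarith
  obtain ⟨Vm, hVm⟩ : ∃ Vm : ℝ, Vm = (A + 1) / (1 + p) := ⟨_, rfl⟩
  have hVm0 : 0 < Vm := by
    rw [hVm]
    positivity
  have hW : 0 < Wk k := v6b_Wk_pos k
  obtain ⟨R, V', Y', hR, hS⟩ := exists_Sh0 h hk (2 * Vm + Wk k)
  obtain ⟨R', hR'⟩ := near_gen hk (2 * Vm) (ε := Real.pi / 20) (by positivity)
  obtain ⟨R4, hR4⟩ : ∃ R4 : ℝ, R4 = max (max R R') (R5 - X₀) + 1 := ⟨_, rfl⟩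
  have r1 : R < R4 := by
    have h1 := (le_max_left R R').trans (le_max_left (max R R') (R5 - X₀))
    linarith
  have r2 : R' ≤ R4 := by
    have h1 := (le_max_right R R').trans (le_max_left (max R R') (R5 - X₀))
    linarith
  have r3 : R5 - R4 < X₀ := by
    have h1 := le_max_right (max R R') (R5 - X₀)
    linarith
  have hLD : LD (X0 k (2 * Vm + Wk k) R) Real.pi Y' := by
    refine ⟨v6b_isOpen_X0 _ _ _, ?_, hpi, hS.Y_an, ?_⟩
    · intro z hz t ht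
      have e1 : (z - t).im = z.im := by rw [sub_im, ofReal_im, sub_zero]
      have e2 : (z - t).re = z.re - t := by rw [sub_re, ofReal_re]
      rcases hz with h1 | ⟨h1, h2⟩
      · left
        show |(z - t).im| < Wk k
        rw [e1]
        exact h1
      · right
        refine ⟨?_, ?_⟩
        · rw [e2]
          linarith
        · rw [e1]
          exact h2
    · intro z hz
      have h1 := (hS.prop hz).2.1
      nlinarith
  obtain ⟨b, hb⟩ : ∃ b : ℝ, b = (1 + p) * (k * Real.pi) := ⟨_, rfl⟩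
  have hb0 : 0 < b := by
    rw [hb]
    positivity
  have hbc : (b : ℂ) = (1 + p) * (k * Real.pi) := by
    rw [hb]
    push_cast
    rfl
  have key : ∀ x : ℂ × ℂ, x.1.re ≤ -R4 → |x.1.im| ≤ Vm → -R5 < x.2.re →
      x ∈ DZ (X0 k (2 * Vm + Wk k) R) X₀ ∧ ‖(b : ℂ) * JZ p c₁ κ Y' x - 1‖ ≤ 1 / 5 ∧
        ‖Y' x.1 - ((k * Real.pi : ℝ) : ℂ)‖ ≤ Real.pi / 20 := by
    intro x hx1 hx2 hx3
    have hX : ∀ t : ℝ, 0 ≤ t → x.1 - t ∈ X0 k (2 * Vm + Wk k) R := by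
      intro t ht
      right
      have e1 : (x.1 - t).im = x.1.im := by rw [sub_im, ofReal_im, sub_zero]
      have e2 : (x.1 - t).re = x.1.re - t := by rw [sub_re, ofReal_re]
      refine ⟨?_, ?_⟩
      · rw [e2]
        linarith
      · rw [e1]
        linarith
    have hx : x ∈ DZ (X0 k (2 * Vm + Wk k) R) X₀ := by
      refine ⟨?_, ?_⟩
      · have h1 := hX 0 le_rfl
        rwa [ofReal_zero, sub_zero] at h1
      · rw [sub_re]
        linarith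
    refine ⟨hx, ?_⟩
    have h1 : ∀ t : ℝ, 0 ≤ t → ‖Y' (x.1 - t) - ((k * Real.pi : ℝ) : ℂ)‖ ≤ Real.pi / 20 := by
      intro t ht
      obtain ⟨m, m1, m2⟩ := hS.s1 _ (hX t ht)
      rw [m2]
      have e : ((k * Real.pi : ℝ) : ℂ) = k * Real.pi := by push_cast; rfl
      rw [e]
      refine hR' _ m ?_ ?_
      · rw [m1, sub_re, ofReal_re]
        linarith
      · rw [m1, sub_im, ofReal_im, sub_zero]
        linarith
    have h2 := JZ_near hκ hLD hx hkp (by positivity : 0 ≤ Real.pi / 20) (by nlinarith) h1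
    have h3 : 2 * η + 2 * (Real.pi / 20) / (k * Real.pi) ≤ 1 / 5 := by
      have h4 : 2 * (Real.pi / 20) / (k * Real.pi) ≤ 1 / 10 := by
        rw [div_le_iff₀ hkp]
        nlinarith
      linarith [hκ.η_le]
    rw [hbc]
    have e : ((k * Real.pi : ℝ) : ℂ) = k * Real.pi := by push_cast; rfl
    rw [e] at h2
    refine ⟨h2.trans h3, ?_⟩
    have h4 := h1 0 le_rfl
    rwa [ofReal_zero, sub_zero] at h4
  have key2 : ∀ x : ℂ × ℂ, x.1.re ≤ -R4 → |x.1.im| ≤ Vm → -R5 < x.2.re →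
      AnalyticAt ℂ (fJ p (JZ p c₁ κ Y')) x ∧
        HasDerivAt (fun z => fJ p (JZ p c₁ κ Y') (z, x.2))
          (κ (x.1 - x.2) / (Y' x.1 * TZ κ Y' x)) x.1 ∧
        κ (x.1 - x.2) / (Y' x.1 * TZ κ Y' x) ≠ 0 := by
    intro x hx1 hx2 hx3
    obtain ⟨m1, m2⟩ := key x hx1 hx2 hx3
    obtain ⟨a, b, c, -⟩ := fJ_der hκ hLD m1 (g6_near hb0 m2.1).1
    exact ⟨a, b, c⟩
  have key3 : ∀ x ∈ P4 R4 Vm R5, 0 < (κ (x.1 - x.2) / (Y' x.1 * TZ κ Y' x)).re := by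
    intro x hx
    obtain ⟨m1, m2, m3⟩ := key x hx.1.le hx.2.1.le hx.2.2
    have hE : c₁ * cexp ((1 + p) * (x.1 - x.2)) ≠ 0 := g1_E_ne hκ x
    have hbC : (b : ℂ) ≠ 0 := by exact_mod_cast hb0.ne'
    have hkC : ((k * Real.pi : ℝ) : ℂ) ≠ 0 := by exact_mod_cast hkp.ne'
    have u1 : ‖κ (x.1 - x.2) / (c₁ * cexp ((1 + p) * (x.1 - x.2))) - 1‖ ≤ 1 / 20 := by
      have v1 := hκ.bd (x.1 - x.2) m1.2
      rw [div_sub_one hE, norm_div, div_le_iff₀ (norm_pos_iff.2 hE)]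
      exact v1.trans (mul_le_mul_of_nonneg_right hκ.η_le (norm_nonneg _))
    have u3 : ‖Y' x.1 / ((k * Real.pi : ℝ) : ℂ) - 1‖ ≤ 1 / 20 := by
      rw [div_sub_one hkC, norm_div, norm_real, Real.norm_eq_abs, abs_of_pos hkp,
        div_le_iff₀ hkp]
      refine m3.trans ?_
      nlinarith
    have u4 := g6_quot u1 m2 u3
    have u5 : κ (x.1 - x.2) / (Y' x.1 * TZ κ Y' x) =
        ((1 + p : ℝ) : ℂ) * (κ (x.1 - x.2) / (c₁ * cexp ((1 + p) * (x.1 - x.2))) /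
          (Y' x.1 / ((k * Real.pi : ℝ) : ℂ) * ((b : ℂ) * JZ p c₁ κ Y' x))) := by
      have hT0 : TZ κ Y' x ≠ 0 := by
        intro h0
        have v1 := (g6_near hb0 m2).1
        have v2 : JZ p c₁ κ Y' x = 0 := by
          simp only [JZ, h0, zero_div]
        rw [v2, zero_re] at v1
        exact v1.false
      have hY0 : Y' x.1 ≠ 0 := by
        intro h0
        rw [h0, zero_div, zero_sub, norm_neg, norm_one] at u3
        norm_num at u3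
      have v3 : JZ p c₁ κ Y' x = TZ κ Y' x / (c₁ * cexp ((1 + p) * (x.1 - x.2))) := rfl
      have v4 : (b : ℂ) = ((1 + p : ℝ) : ℂ) * ((k * Real.pi : ℝ) : ℂ) := by
        rw [hb]
        push_cast
        ring
      have v5 : ((1 + p : ℝ) : ℂ) ≠ 0 := by exact_mod_cast hp1.ne'
      rw [v3, v4]
      generalize c₁ * cexp ((1 + p) * (x.1 - x.2)) = E at hE ⊢
      generalize ((k * Real.pi : ℝ) : ℂ) = q at hkC ⊢
      generalize ((1 + p : ℝ) : ℂ) = r at v5 ⊢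
      field_simp
    rw [u5, re_ofReal_mul]
    exact mul_pos hp1 u4
  have hsl : ∀ ζ : ℂ, Convex ℝ {z : ℂ | (z, ζ) ∈ P4 R4 Vm R5} := by
    intro ζ z₁ hz₁ z₂ hz₂ s t hs ht hst
    obtain ⟨x1, x2, x3⟩ := hz₁
    obtain ⟨y1, y2, -⟩ := hz₂
    simp only at x1 x2 x3 y1 y2
    have h1 := convex_Iio (𝕜 := ℝ) (-R4) (mem_Iio.2 x1) (mem_Iio.2 y1) hs ht hst
    have h2 := convex_Ioo (𝕜 := ℝ) (-Vm) Vm (mem_Ioo.2 (abs_lt.1 x2)) (mem_Ioo.2 (abs_lt.1 y2))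
      hs ht hst
    simp only [smul_eq_mul, mem_Iio, mem_Ioo] at h1 h2
    refine ⟨?_, ?_, x3⟩
    · have e : (s • z₁ + t • z₂).re = s * z₁.re + t * z₂.re := by simp
      show (s • z₁ + t • z₂).re < -R4
      rw [e]
      exact h1
    · have e : (s • z₁ + t • z₂).im = s * z₁.im + t * z₂.im := by simp
      show |(s • z₁ + t • z₂).im| < Vm
      rw [e]
      exact abs_lt.2 h2
  rw [← hVm]
  refine ⟨R4, -((1 + p) * R4) + Real.log (4 / (5 * b)), R,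
    max (6 / (5 * b)) (k * Real.pi + Real.pi / 20), V', Y', r1, hS, r3, ?_, ?_, ?_⟩
  · intro x hx
    obtain ⟨-, m2, m3⟩ := key x hx.1.le hx.2.1.le hx.2.2
    obtain ⟨n1, n2, -, n4⟩ := g6_near hb0 m2
    refine ⟨n1, n2, n4.trans (le_max_left _ _), le_trans ?_ (le_max_right _ _)⟩
    have v1 := norm_sub_norm_le (Y' x.1) ((k * Real.pi : ℝ) : ℂ)
    rw [norm_real, Real.norm_eq_abs, abs_of_pos hkp] at v1
    linarith
  · intro x hx z hz he
    refine g6_inj (f := fun z => fJ p (JZ p c₁ κ Y') (z, x.2))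
      (f' := fun z => κ (z - x.2) / (Y' z * TZ κ Y' (z, x.2))) (hsl x.2)
      (fun z hz => ?_) (fun z hz => ?_) hz hx he
    · have h1 : (z, x.2) ∈ P4 R4 Vm R5 := hz
      exact (key2 (z, x.2) h1.1.le h1.2.1.le h1.2.2).2.1
    · exact key3 (z, x.2) hz
  intro x₀ hx₀ hy₀
  exact sec_pair (F := fJ p (JZ p c₁ κ Y')) (x₀ := x₀)
    (P := P4 R4 Vm R5) (G := G4 A (-((1 + p) * R4) + Real.log (4 / (5 * b))) R5)
    (d := fun x => κ (x.1 - x.2) / (Y' x.1 * TZ κ Y' x)) (g6_isOpen_P4 _ _ _)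
    (fun x hx => (key2 x hx.1.le hx.2.1.le hx.2.2).1)
    (fun x hx => (key2 x hx.1.le hx.2.1.le hx.2.2).2) (isOpen_G4 _ _ _)
    ((convex_G4 _ _ _).starConvex hy₀)
    (g6_proper hp hb0 (fun x a1 a2 a3 =>
      ⟨(key2 x a1 a2 a3).1.continuousAt, (key x a1 a2 a3).2.1⟩)
      le_rfl (by
        rw [hVm, mul_div_cancel₀ _ hp1.ne']
        linarith)) hx₀ hy₀

end Pool.Agent.MP_ae5b4e_an_AZ
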