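import Pool.Agent.Lib.MP_ae5b4e_an_AZ.G3

/-! # AZ: upper bounds of the scaled time function -/

noncomputable section

namespace Pool.Agent.MP_ae5b4e_an_AZ

open Complex Set Filter Topology Metric MeasureTheory intervalIntegral

variable {k : ℕ} {V Y : ℂ → ℂ} {p X₀ η : ℝ} {c₁ : ℂ} {κ : ℂ → ℂ}

private theorem g7_fac (k : ℕ) (p : ℝ) (c₁ ζ w : ℂ) :
    ‖E0 k p * cexp ((1 + p) * ζ) / c₁ * w‖ = Real.exp ((1 + p) * ζ.re) / ‖c₁‖ * ‖w‖ := by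
  have h0 : ‖E0 k p‖ = 1 := by
    unfold E0
    rw [Complex.norm_exp]
    simp
  rw [norm_mul, norm_div, norm_mul, h0, one_mul, Complex.norm_exp]
  congr 3
  rw [show (1 + (p : ℂ)) = ((1 + p : ℝ) : ℂ) by push_cast; rfl, re_ofReal_mul]

/-- the time from the left end, scaled -/
private theorem g7_TZ (hκ : Kap p X₀ η c₁ κ) {D : Set ℂ} (hY : LD D Real.pi Y)
    {x : ℂ × ℂ} (hx : x ∈ DZ D X₀) :
    ‖E0 k p * cexp ((1 + p) * x.2) / c₁ * TZ κ Y x‖ ≤ Real.exp ((1 + p) * x.1.re) := by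
  have h1 := (TZ_int hκ hY hx).2
  have hc : 0 < ‖c₁‖ := norm_pos_iff.2 hκ.c₁_ne
  have hp := hκ.p_pos
  have hη := hκ.η_le
  have hpi := Real.pi_gt_three
  rw [g7_fac]
  have h2 : Real.exp ((1 + p) * x.2.re) / ‖c₁‖ * ‖TZ κ Y x‖ ≤
      Real.exp ((1 + p) * x.2.re) / ‖c₁‖ * ((1 + η) * ‖c₁‖ / (Real.pi * (1 + p)) *
        Real.exp ((1 + p) * (x.1 - x.2).re)) :=
    mul_le_mul_of_nonneg_left h1 (by positivity)
  refine h2.trans ?_
  have h3 : Real.exp ((1 + p) * x.2.re) / ‖c₁‖ * ((1 + η) * ‖c₁‖ / (Real.pi * (1 + p)) *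
        Real.exp ((1 + p) * (x.1 - x.2).re)) =
      (1 + η) / (Real.pi * (1 + p)) * Real.exp ((1 + p) * x.1.re) := by
    have h4 : Real.exp ((1 + p) * x.1.re) =
        Real.exp ((1 + p) * x.2.re) * Real.exp ((1 + p) * (x.1 - x.2).re) := by
      rw [← Real.exp_add, sub_re]
      congr 1
      ring
    rw [h4]
    have hpi0 : Real.pi ≠ 0 := by linarith
    have hp0 : (1 + p) ≠ 0 := by linarith
    field_simp
  rw [h3]
  have h5 : (1 + η) / (Real.pi * (1 + p)) ≤ 1 := by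
    rw [div_le_one (by positivity)]
    nlinarith
  exact mul_le_of_le_one_left (Real.exp_pos _).le h5

/-- Lipschitz estimate along a segment to the left of `U` -/
private theorem g7_lip (h : Sh k V Y) (hk : 1 ≤ k) (hκ : Kap p X₀ η c₁ κ) {R₀ : ℝ}
    {T : ℂ × ℂ → ℂ} {θZ θt : ℂ → ℂ} (hT : TT k X₀ R₀ κ Y T θZ) {ζ z z' : ℂ} {U : ℝ}
    (hζ : R₀ < ζ.re) (h1 : z.re ≤ U) (h2 : z'.re ≤ U) (h1' : (z - ζ).re < X₀)
    (h2' : (z' - ζ).re < X₀) (hs : ∀ t ∈ Icc (0 : ℝ) 1, z + t * (z' - z) ∈ Xk k) :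
    ‖wT k p c₁ T θt (z', ζ)‖ ≤ ‖wT k p c₁ T θt (z, ζ)‖ +
      Real.exp ((1 + p) * U) * ‖z' - z‖ := by
  obtain ⟨L, hL⟩ : ∃ L : ℝ, L = ‖c₁‖ * Real.exp ((1 + p) * U) *
      Real.exp (-((1 + p) * ζ.re)) := ⟨_, rfl⟩
  have hp := hκ.p_pos
  have hpi := Real.pi_gt_three
  have hc : 0 < ‖c₁‖ := norm_pos_iff.2 hκ.c₁_ne
  have hre0 : ∀ t : ℝ, (z + t * (z' - z)).re = (1 - t) * z.re + t * z'.re := by
    intro t
    simp only [add_re, mul_re, sub_re, ofReal_re, ofReal_im, zero_mul, sub_zero]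
    ring
  have hre : ∀ t ∈ Icc (0 : ℝ) 1, (z + t * (z' - z)).re ≤ U := by
    intro t ht
    rw [hre0]
    have h3 := mul_le_mul_of_nonneg_left h1 (by linarith [ht.2] : 0 ≤ 1 - t)
    have h4 := mul_le_mul_of_nonneg_left h2 ht.1
    linarith
  have hlt : ∀ t ∈ Icc (0 : ℝ) 1, (z + t * (z' - z) - ζ).re < X₀ := by
    intro t ht
    rw [sub_re] at h1' h2' ⊢
    rw [hre0]
    rcases ht.1.eq_or_lt with h3 | h3
    · rw [← h3]
      linarith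
    · have h4 := mul_lt_mul_of_pos_left h2' h3
      have h5 := mul_le_mul_of_nonneg_left h1'.le (by linarith [ht.2] : 0 ≤ 1 - t)
      linarith
  have hb : ∀ t ∈ Icc (0 : ℝ) 1,
      ‖κ (z + t * (z' - z) - ζ) / Y (z + t * (z' - z))‖ ≤ L := by
    intro t ht
    have h3 := f_le (x := (z + t * (z' - z), ζ)) h hk hκ (hs t ht) (hlt t ht)
    refine h3.trans ?_
    have h4 : Real.exp ((1 + p) * (z + t * (z' - z) - ζ).re) ≤
        Real.exp ((1 + p) * U) * Real.exp (-((1 + p) * ζ.re)) := by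
      rw [← Real.exp_add]
      refine Real.exp_le_exp.2 ?_
      rw [sub_re]
      have := mul_le_mul_of_nonneg_left (hre t ht) (by linarith : 0 ≤ 1 + p)
      linarith
    have h5 : (1 + η) * ‖c₁‖ / Real.pi ≤ ‖c₁‖ := by
      rw [div_le_iff₀ (by linarith)]
      have := norm_nonneg c₁
      nlinarith [hκ.η_le]
    calc (1 + η) * ‖c₁‖ / Real.pi * Real.exp ((1 + p) * (z + t * (z' - z) - ζ).re)
        ≤ ‖c₁‖ * (Real.exp ((1 + p) * U) * Real.exp (-((1 + p) * ζ.re))) :=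
          mul_le_mul h5 h4 (Real.exp_nonneg _) (norm_nonneg _)
      _ = L := by rw [hL]; ring
  have hd : ∀ t ∈ Icc (0 : ℝ) 1, HasDerivWithinAt (fun t : ℝ => T (z + t * (z' - z), ζ))
      (κ (z + t * (z' - z) - ζ) / Y (z + t * (z' - z)) * (z' - z)) (Icc 0 1) t := by
    intro t ht
    have h3 := hT.der (z + t * (z' - z), ζ) ⟨hs t ht, hlt t ht, Or.inr hζ⟩
    have ha : HasDerivAt (fun s : ℝ => z + (s : ℂ) * (z' - z)) (z' - z) t := by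
      simpa using ((Complex.ofRealCLM.hasDerivAt (x := t)).mul_const (z' - z)).const_add z
    exact (HasDerivAt.comp (h₂ := fun w => T (w, ζ)) t h3 ha).hasDerivWithinAt
  have hfin := norm_image_sub_le_of_norm_deriv_le_segment_01' hd (C := L * ‖z' - z‖) (by
    intro t ht
    rw [norm_mul]
    exact mul_le_mul_of_nonneg_right (hb t ⟨ht.1, ht.2.le⟩) (norm_nonneg _))
  simp only [ofReal_one, one_mul, ofReal_zero, zero_mul, add_zero, add_sub_cancel] at hfin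
  have e1 : wT k p c₁ T θt (z', ζ) = wT k p c₁ T θt (z, ζ) +
      E0 k p * cexp ((1 + p) * ζ) / c₁ * (T (z', ζ) - T (z, ζ)) := by
    unfold wT
    ring
  rw [e1]
  refine (norm_add_le _ _).trans (add_le_add le_rfl ?_)
  rw [g7_fac]
  have e2 : Real.exp ((1 + p) * ζ.re) / ‖c₁‖ * ‖T (z', ζ) - T (z, ζ)‖ ≤
      Real.exp ((1 + p) * ζ.re) / ‖c₁‖ * (L * ‖z' - z‖) :=
    mul_le_mul_of_nonneg_left hfin (by positivity)
  refine e2.trans (le_of_eq ?_)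
  rw [hL, Real.exp_neg]
  have e5 := (Real.exp_pos ((1 + p) * ζ.re)).ne'
  field_simp

/-- UPPER BOUND of the time relative to the tip, uniform in `ζ`.

Proof. `F := E0 exp ((1 + p) ζ) / c₁`, `‖F‖ = exp ((1 + p) Re ζ) / ‖c₁‖`, and
`‖f (om, ζ)‖ ≤ (1 + η) ‖c₁‖ / π
exp ((1 + p) Re (om - ζ)) ≤ ‖c₁‖ exp ((1 + p) Re (om - ζ))` (`f_le`, `η ≤ 1 /
20`), so along a path in `{Re ≤ U₂}` of length
`ℓ` `‖F (T - T')‖ ≤ exp ((1 + p) U₂) ℓ` (mean value inequality with `TT.der`; wlog `U0 + 1 ≤ U₂`,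
otherwise use
`max U₂ (U0 + 1)`). `x = (U + i v, ζ)`.
(a) `‖F (T (tip + 1 / 2, ζ) - θt ζ)‖ ≤ |Ct| / ‖c₁‖` (`Tip`). (b) From `tip + 1 / 2` to
`U0 + 1 + i W` and vertically
to `U0 + 1 + i v`: length `≤ 1 / 2 + π` (`|v - W| ≤ π`), in `Xk` since `U0 < Re`. The points are in
`DT`:
`Re (..) - Re ζ ≤ U0 + 1 - R₀ < X₀`. (c) If `U0 < U`: horizontally to `U + i v`: length `≤ U₂ + 1`
if `U0 < U ≤ U₂` (`Re (..)`
is between `U` and `U0 + 1`, `Re (om - ζ) < X₀`). (d) If `U ≤ U0`: `x.1 ∈ Xk` gives `|v| < W` or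
`W < v`; in both cases
`T (U + i v, ζ) - T (U0 + 1 + i v, ζ) = TZ κ Y (U + i v, ζ) - TZ κ Y (U0 + 1 + i v, ζ)`
(`TT.strip`, `TT.up`), and
`‖F TZ‖ ≤ exp ((1 + p) Re om) ≤ exp ((1 + p) U₂)` each (`TZ_int`, `c₀ = π`, as in G3c). -/
theorem wT_upper (h : Sh k V Y) (hk : 1 ≤ k) (hκ : Kap p X₀ η c₁ κ) (U₂ Ct : ℝ) :
    ∃ M₂ : ℝ, 0 < M₂ ∧ ∀ (R₀ : ℝ) (T : ℂ × ℂ → ℂ) (θZ θt : ℂ → ℂ), TT k X₀ R₀ κ Y T θZ →
      U0 + 1 - R₀ < X₀ → Tip k p R₀ T θt Ct → ∀ x : ℂ × ℂ, x.1 ∈ Xk k → x.1.re ≤ U₂ →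
        |(1 + p) * (x.1.im - Wk k)| ≤ Real.pi → (x.1 - x.2).re < X₀ → R₀ < x.2.re →
          ‖wT k p c₁ T θt x‖ ≤ M₂ := by
  have hp := hκ.p_pos
  have hpi := Real.pi_gt_three
  have hc : 0 < ‖c₁‖ := norm_pos_iff.2 hκ.c₁_ne
  have hU0 := U0_pos
  obtain ⟨U₃, hU₃⟩ : ∃ U₃ : ℝ, U₃ = max U₂ (U0 + 1) := ⟨_, rfl⟩
  have hU2 : U₂ ≤ U₃ := by rw [hU₃]; exact le_max_left _ _
  have hU1 : U0 + 1 ≤ U₃ := by rw [hU₃]; exact le_max_right _ _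
  obtain ⟨E, hE⟩ : ∃ E : ℝ, E = Real.exp ((1 + p) * U₃) := ⟨_, rfl⟩
  have hE0 : 0 < E := by rw [hE]; exact Real.exp_pos _
  have hexp : ∀ u : ℝ, u ≤ U₃ → Real.exp ((1 + p) * u) ≤ E := by
    intro u hu
    rw [hE]
    exact Real.exp_le_exp.2 (mul_le_mul_of_nonneg_left hu (by linarith))
  have hU30 : 0 < U₃ := by linarith
  have hpi0 : 0 < Real.pi := by linarith
  refine ⟨|Ct| / ‖c₁‖ + E * (1 / 2) + E * Real.pi + (E * U₃ + 2 * E), by positivity, ?_⟩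
  intro R₀ T θZ θt hT hR ht x hx hxU hv hX hζ
  obtain ⟨⟨U, v⟩, ζ⟩ := x
  change (⟨U, v⟩ : ℂ) ∈ Xk k at hx
  change U ≤ U₂ at hxU
  change |(1 + p) * (v - Wk k)| ≤ Real.pi at hv
  change ((⟨U, v⟩ : ℂ) - ζ).re < X₀ at hX
  change R₀ < ζ.re at hζ
  have hvd : |v - Wk k| ≤ Real.pi := by
    rw [abs_mul, abs_of_pos (by linarith : (0 : ℝ) < 1 + p)] at hv
    have := mul_nonneg hp.le (abs_nonneg (v - Wk k))
    linarith
  have hright : ∀ z : ℂ, U0 < z.re → z ∈ Xk k := fun z hz => Or.inr (Or.inl hz)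
  have hseg : ∀ z z' : ℂ, U0 < z.re → U0 < z'.re → ∀ t ∈ Icc (0 : ℝ) 1,
      z + t * (z' - z) ∈ Xk k := by
    intro z z' hz hz' t ht1
    refine hright _ ?_
    have e : (z + t * (z' - z)).re = (1 - t) * z.re + t * z'.re := by
      simp only [add_re, mul_re, sub_re, ofReal_re, ofReal_im, zero_mul, sub_zero]
      ring
    rw [e]
    rcases ht1.1.eq_or_lt with h3 | h3
    · rw [← h3]
      linarith
    · have h4 := mul_lt_mul_of_pos_left hz' h3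
      have h5 := mul_le_mul_of_nonneg_left hz.le (by linarith [ht1.2] : 0 ≤ 1 - t)
      linarith
  have hXl : ∀ z : ℂ, z.re ≤ U0 + 1 → (z - ζ).re < X₀ := by
    intro z hz
    rw [sub_re]
    linarith
  -- the point near the tip
  have q0r : (tip k + (1 / 2 : ℝ)).re = U0 + 1 / 2 := by
    rw [add_re, v6b_tip_re, ofReal_re]
  have a0 : ‖wT k p c₁ T θt (tip k + (1 / 2 : ℝ), ζ)‖ ≤ |Ct| / ‖c₁‖ := by
    have e0 : tip k + ((1 / 2 : ℝ) : ℂ) - tip k = ((1 / 2 : ℝ) : ℂ) := by ring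
    have e1 := ht.2 (tip k + ((1 / 2 : ℝ) : ℂ), ζ) (hright _ (by rw [q0r]; linarith)) (by
      rw [e0, Complex.norm_real, Real.norm_of_nonneg (by norm_num)]) hζ
    rw [e0, Complex.norm_real, Real.norm_of_nonneg (by norm_num : (0 : ℝ) ≤ 1 / 2)] at e1
    unfold wT
    rw [g7_fac]
    have e2 : Ct * Real.exp (-((1 + p) * ζ.re)) * (1 / 2) ≤
        |Ct| * Real.exp (-((1 + p) * ζ.re)) := by
      have e3 := Real.exp_pos (-((1 + p) * ζ.re))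
      have e4 := mul_le_mul_of_nonneg_right (le_abs_self Ct) e3.le
      have e5 := mul_nonneg (abs_nonneg Ct) e3.le
      linarith
    have e6 : Real.exp ((1 + p) * ζ.re) / ‖c₁‖ * ‖T (tip k + ((1 / 2 : ℝ) : ℂ), ζ) - θt ζ‖ ≤
        Real.exp ((1 + p) * ζ.re) / ‖c₁‖ * (|Ct| * Real.exp (-((1 + p) * ζ.re))) :=
      mul_le_mul_of_nonneg_left (e1.trans e2) (by positivity)
    refine e6.trans (le_of_eq ?_)
    rw [Real.exp_neg]
    have e5 := (Real.exp_pos ((1 + p) * ζ.re)).ne'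
    field_simp
  -- to `U0 + 1 + i W`
  have a1 := g7_lip (θt := θt) h hk hκ hT (z := tip k + (1 / 2 : ℝ)) (z' := ⟨U0 + 1, Wk k⟩)
    (U := U₃) hζ (by rw [q0r]; linarith) (by linarith) (hXl _ (by rw [q0r]; linarith))
    (hXl _ le_rfl) (hseg _ _ (by rw [q0r]; linarith) (by show U0 < U0 + 1; linarith))
  have n1 : ‖(⟨U0 + 1, Wk k⟩ : ℂ) - (tip k + (1 / 2 : ℝ))‖ = 1 / 2 := by
    have e : (⟨U0 + 1, Wk k⟩ : ℂ) - (tip k + (1 / 2 : ℝ)) = ((1 / 2 : ℝ) : ℂ) := by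
      apply Complex.ext
      · rw [sub_re, q0r, ofReal_re]
        ring
      · rw [sub_im, add_im, v6b_tip_im, ofReal_im]
        show Wk k - (Wk k + 0) = 0
        ring
    rw [e, Complex.norm_real, Real.norm_of_nonneg (by norm_num)]
  rw [n1, ← hE] at a1
  -- to `U0 + 1 + i v`
  have a2 := g7_lip (θt := θt) h hk hκ hT (z := ⟨U0 + 1, Wk k⟩) (z' := ⟨U0 + 1, v⟩)
    (U := U₃) hζ (by linarith) (by linarith) (hXl _ le_rfl) (hXl _ le_rfl)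
    (hseg _ _ (by show U0 < U0 + 1; linarith) (by show U0 < U0 + 1; linarith))
  have n2 : ‖(⟨U0 + 1, v⟩ : ℂ) - ⟨U0 + 1, Wk k⟩‖ = |v - Wk k| := by
    have e : (⟨U0 + 1, v⟩ : ℂ) - ⟨U0 + 1, Wk k⟩ = ((v - Wk k : ℝ) : ℂ) * I := by
      apply Complex.ext <;> simp
    rw [e, norm_mul, norm_I, mul_one, norm_real, Real.norm_eq_abs]
  rw [n2, ← hE] at a2
  have a2' : E * |v - Wk k| ≤ E * Real.pi := mul_le_mul_of_nonneg_left hvd hE0.le
  have a3 : ‖wT k p c₁ T θt ((⟨U0 + 1, v⟩ : ℂ), ζ)‖ ≤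
      |Ct| / ‖c₁‖ + E * (1 / 2) + E * Real.pi := by linarith
  rcases lt_or_ge U0 U with hU | hU
  · have a4 := g7_lip (θt := θt) h hk hκ hT (z := ⟨U0 + 1, v⟩) (z' := ⟨U, v⟩)
      (U := U₃) hζ (by linarith) (by show U ≤ U₃; linarith) (hXl _ le_rfl) hX
      (hseg _ _ (by show U0 < U0 + 1; linarith) hU)
    have n3 : ‖(⟨U, v⟩ : ℂ) - ⟨U0 + 1, v⟩‖ = |U - (U0 + 1)| := by
      have e : (⟨U, v⟩ : ℂ) - ⟨U0 + 1, v⟩ = ((U - (U0 + 1) : ℝ) : ℂ) := by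
        apply Complex.ext <;> simp
      rw [e, norm_real, Real.norm_eq_abs]
    rw [n3, ← hE] at a4
    have a5 : |U - (U0 + 1)| ≤ U₃ := by
      rw [abs_le]
      constructor <;> linarith
    have a6 := mul_le_mul_of_nonneg_left a5 hE0.le
    linarith
  · have hcase : |v| < Wk k ∨ Wk k < v := by
      rcases hx with h1 | h1 | h1
      · exact Or.inl h1
      · exact absurd h1 (not_lt.2 hU)
      · exact Or.inr h1
    have a4 : ‖wT k p c₁ T θt ((⟨U, v⟩ : ℂ), ζ)‖ ≤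
        ‖wT k p c₁ T θt ((⟨U0 + 1, v⟩ : ℂ), ζ)‖ + 2 * E := by
      have key : ∀ D : Set ℂ, LD D Real.pi Y → (⟨U, v⟩ : ℂ) ∈ D → (⟨U0 + 1, v⟩ : ℂ) ∈ D →
          T ((⟨U, v⟩ : ℂ), ζ) - T ((⟨U0 + 1, v⟩ : ℂ), ζ) =
            TZ κ Y ((⟨U, v⟩ : ℂ), ζ) - TZ κ Y ((⟨U0 + 1, v⟩ : ℂ), ζ) →
          ‖wT k p c₁ T θt ((⟨U, v⟩ : ℂ), ζ)‖ ≤
            ‖wT k p c₁ T θt ((⟨U0 + 1, v⟩ : ℂ), ζ)‖ + 2 * E := by
        intro D hD d1 d2 hdiff
        have e1 : wT k p c₁ T θt ((⟨U, v⟩ : ℂ), ζ) =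
            wT k p c₁ T θt ((⟨U0 + 1, v⟩ : ℂ), ζ) +
              (E0 k p * cexp ((1 + p) * ζ) / c₁ * TZ κ Y ((⟨U, v⟩ : ℂ), ζ) -
                E0 k p * cexp ((1 + p) * ζ) / c₁ * TZ κ Y ((⟨U0 + 1, v⟩ : ℂ), ζ)) := by
          rw [← mul_sub, ← hdiff]
          unfold wT
          ring
        rw [e1]
        have e2 := g7_TZ (k := k) hκ hD (x := ((⟨U, v⟩ : ℂ), ζ)) ⟨d1, hX⟩
        have e3 := g7_TZ (k := k) hκ hD (x := ((⟨U0 + 1, v⟩ : ℂ), ζ)) ⟨d2, hXl _ le_rfl⟩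
        have e4 := hexp U (by linarith)
        have e5 := hexp (U0 + 1) hU1
        refine (norm_add_le _ _).trans (add_le_add le_rfl ?_)
        refine (norm_sub_le _ _).trans ?_
        change _ ≤ Real.exp ((1 + p) * U) at e2
        change _ ≤ Real.exp ((1 + p) * (U0 + 1)) at e3
        linarith
      rcases hcase with h1 | h1
      · refine key {z : ℂ | |z.im| < Wk k} (h.LD_strip hk) h1 h1 ?_
        rw [hT.strip ((⟨U, v⟩ : ℂ), ζ) h1 hX,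
          hT.strip ((⟨U0 + 1, v⟩ : ℂ), ζ) h1 (hXl _ le_rfl)]
      · refine key {z : ℂ | Wk k < z.im} (h.LD_up hk) h1 h1 ?_
        rw [hT.up ((⟨U, v⟩ : ℂ), ζ) h1 hX hζ,
          hT.up ((⟨U0 + 1, v⟩ : ℂ), ζ) h1 (hXl _ le_rfl) hζ]
        ring
    have a5 : 0 ≤ E * U₃ := mul_nonneg hE0.le (by linarith)
    linarith

end Pool.Agent.MP_ae5b4e_an_AZ
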