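import Pool.Agent.Lib.MP_ae5b4e_an_AZ.G5
import Pool.Agent.Lib.MP_ae5b4e_an_AZ.G6
import Pool.Agent.Lib.MP_ae5b4e_an_AZ.G7

/-! # AZ: the coordinates `(θ, ζ)` and the four regions -/

noncomputable section

namespace Pool.Agent.MP_ae5b4e_an_AZ

open Complex Set Filter Topology Metric

/-- the angle of the parameter `ζ`; `b₁` is an argument of `c₁` -/
def be (p b₁ : ℝ) (ζ : ℂ) : ℝ := (1 + p) * ζ.im - b₁

/-- the angle at which the tip is exactly above a horizontal passage -/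
def bt (k : ℕ) (p : ℝ) : ℝ := (1 + p) * Wk k + Real.pi / 4

/-- `f = log (exp ((1 + p) ζ) θ / c₁)`, the branch which is analytic for `θ ∉ i [0, ∞)` -/
def fc (p b₁ : ℝ) (c₁ : ℂ) (x : ℂ × ℂ) : ℂ :=
  log (I * x.1) + (1 + p) * x.2 - (Real.log ‖c₁‖ + (Real.pi / 2 + b₁) * I)

/-- far from the tip, `Re ζ` large -/
def O1 (p b₁ A δ E rr R : ℝ) : Set (ℂ × ℂ) :=
  {x | |arg (I * x.1)| < Real.pi / 2 + δ ∧ E * Real.exp (-((1 + p) * x.2.re)) < ‖x.1‖ ∧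
    ‖x.1‖ < rr ∧ |be p b₁ x.2| < A ∧ R < x.2.re}

/-- all `ζ` of a strip about `be = π / 2` -/
def O2 (p b₁ B δ rr : ℝ) : Set (ℂ × ℂ) :=
  {x | |arg (I * x.1)| < Real.pi / 2 + δ ∧ x.1 ≠ 0 ∧ ‖x.1‖ < rr ∧
    |be p b₁ x.2 - Real.pi / 2| < B}

/-- complement of a cone above the tip -/
def O3 (k : ℕ) (p b₁ E₃ R : ℝ) (θt : ℂ → ℂ) : Set (ℂ × ℂ) :=
  {x | ‖x.1‖ < E₃ * Real.exp (-((1 + p) * x.2.re)) ∧
    (x.1 - θt x.2).im < 3 / 5 * |(x.1 - θt x.2).re| ∧ |be p b₁ x.2 - bt k p| < 1 / 25 ∧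
    R < x.2.re}

/-- near `Z`, `Re ζ` bounded -/
def O4 (p b₁ A δ rr R5 R6 : ℝ) : Set (ℂ × ℂ) :=
  {x | |arg (I * x.1)| < Real.pi / 2 + δ ∧ x.1 ≠ 0 ∧ ‖x.1‖ < rr ∧ |be p b₁ x.2| < A ∧
    -R5 < x.2.re ∧ x.2.re < R6}

/-- overlap of (g1) and (g3) in the coordinates `(f, ζ)` -/
def S13 (k : ℕ) (p b₁ L₁ L₃ δ R : ℝ) : Set (ℂ × ℂ) :=
  {y | L₁ < y.1.re ∧ y.1.re < L₃ ∧ |be p b₁ y.2 - bt k p| < 1 / 25 ∧
    |y.1.im + Real.pi / 2 - be p b₁ y.2| < Real.pi / 2 + δ ∧ R < y.2.re}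

/-- the scaled time relative to the tip as a function of `(f, ζ)` -/
def wf (k : ℕ) (p : ℝ) (c₁ : ℂ) (θt : ℂ → ℂ) (y : ℂ × ℂ) : ℂ :=
  E0 k p * (cexp y.1 - cexp ((1 + p) * y.2) / c₁ * θt y.2)

/-- the scaled time relative to the tip as a function of `(θ, ζ)` -/
def wθ (k : ℕ) (p : ℝ) (c₁ : ℂ) (θt : ℂ → ℂ) (x : ℂ × ℂ) : ℂ :=
  E0 k p * cexp ((1 + p) * x.2) / c₁ * (x.1 - θt x.2)

variable {k : ℕ} {p b₁ : ℝ} {c₁ : ℂ}

private theorem F3_slit {x : ℂ × ℂ} (hx : x.1 ≠ 0) (ha : |arg (I * x.1)| < Real.pi) :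
    I * x.1 ∈ slitPlane := by
  rw [mem_slitPlane_iff_arg]
  refine ⟨fun h => ?_, mul_ne_zero I_ne_zero hx⟩
  rw [h, abs_of_pos Real.pi_pos] at ha
  exact lt_irrefl _ ha

private theorem F3_op {c : ℝ} (hc : c < Real.pi) :
    IsOpen {x : ℂ × ℂ | |arg (I * x.1)| < c ∧ x.1 ≠ 0} := by
  rw [isOpen_iff_mem_nhds]
  intro x hx
  have h1 : ContinuousAt (fun y : ℂ × ℂ => |arg (I * y.1)|) x := by
    have h2 : ContinuousAt arg (I * x.1) := continuousAt_arg (F3_slit hx.2 (hx.1.trans hc))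
    have h3 : ContinuousAt (fun y : ℂ × ℂ => I * y.1) x := by fun_prop
    exact (ContinuousAt.comp (f := fun y : ℂ × ℂ => I * y.1) (g := arg) h2 h3).abs
  have h4 : ContinuousAt (fun y : ℂ × ℂ => y.1) x := continuous_fst.continuousAt
  filter_upwards [h1.eventually (gt_mem_nhds hx.1), h4.eventually_ne hx.2] with y hy1 hy2
  exact ⟨hy1, hy2⟩

private theorem F3_be (p b₁ : ℝ) : Continuous (fun x : ℂ × ℂ => be p b₁ x.2) := by
  unfold be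
  fun_prop

private theorem F3_log (hc : c₁ ≠ 0) {r L t : ℝ} (hr : r ≤ ‖c₁‖ * Real.exp L) (ht : t < r)
    (ht0 : 0 < t) : Real.log t < Real.log ‖c₁‖ + L := by
  have h1 : Real.log t < Real.log (‖c₁‖ * Real.exp L) :=
    Real.log_lt_log ht0 (lt_of_lt_of_le ht hr)
  rwa [Real.log_mul (norm_ne_zero_iff.2 hc) (Real.exp_pos _).ne', Real.log_exp] at h1

private theorem F3_cv {a b s t c : ℝ} (ha : 0 ≤ a) (hb : 0 ≤ b) (hab : a + b = 1)
    (hs : c < s) (ht : c < t) : c < a * s + b * t := by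
  rcases ha.eq_or_lt with h | h
  · have hb1 : b = 1 := by linarith
    rw [← h, hb1]
    linarith
  · have h1 := mul_lt_mul_of_pos_left hs h
    have h2 := mul_le_mul_of_nonneg_left ht.le hb
    have h3 : c = a * c + b * c := by
      rw [← add_mul, hab, one_mul]
    linarith

private theorem F3_cv' {a b s t c : ℝ} (ha : 0 ≤ a) (hb : 0 ≤ b) (hab : a + b = 1)
    (hs : s < c) (ht : t < c) : a * s + b * t < c := by
  have h1 := F3_cv ha hb hab (neg_lt_neg hs) (neg_lt_neg ht)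
  linarith

private theorem F3_ca {a b s t c : ℝ} (ha : 0 ≤ a) (hb : 0 ≤ b) (hab : a + b = 1)
    (hs : |s| < c) (ht : |t| < c) : |a * s + b * t| < c := by
  rw [abs_lt] at hs ht ⊢
  exact ⟨F3_cv ha hb hab hs.1 ht.1, F3_cv' ha hb hab hs.2 ht.2⟩

theorem fc_re {x : ℂ × ℂ} : (fc p b₁ c₁ x).re =
    Real.log ‖x.1‖ + (1 + p) * x.2.re - Real.log ‖c₁‖ := by
  unfold fc
  simp only [sub_re, add_re, mul_re, log_re, ofReal_re, ofReal_im, I_re, I_im, norm_mul, norm_I,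
    one_mul, one_re, one_im, add_im, zero_mul, mul_zero, sub_zero, add_zero, mul_one]
  simp

theorem fc_im {x : ℂ × ℂ} : (fc p b₁ c₁ x).im = arg (I * x.1) - Real.pi / 2 + be p b₁ x.2 := by
  unfold fc be
  simp only [sub_im, add_im, mul_im, log_im, ofReal_re, ofReal_im, I_re, I_im, one_re, one_im,
    add_re, zero_mul, mul_zero, add_zero, mul_one, zero_add]
  simp
  ring

/-- Proof. `exp (log (I θ)) = I θ`, `exp (π / 2 I) = I`, `exp (log ‖c₁‖ + b₁ I) = c₁`. -/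
theorem fc_exp (hc : c₁ ≠ 0) (hb : c₁ = ‖c₁‖ * cexp (b₁ * I)) {x : ℂ × ℂ} (hx : x.1 ≠ 0) :
    c₁ * cexp (fc p b₁ c₁ x) = cexp ((1 + p) * x.2) * x.1 := by
  have hI : I * x.1 ≠ 0 := mul_ne_zero I_ne_zero hx
  have h1 : cexp (Real.log ‖c₁‖ + (Real.pi / 2 + b₁) * I) = I * c₁ := by
    have e1 : ((Real.log ‖c₁‖ : ℝ) : ℂ) + (Real.pi / 2 + b₁) * I =
        ((Real.log ‖c₁‖ : ℝ) : ℂ) + (Real.pi / 2 * I + b₁ * I) := by ring
    rw [e1, Complex.exp_add, Complex.exp_add, ← ofReal_exp, Real.exp_log (norm_pos_iff.2 hc),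
      exp_pi_div_two_mul_I]
    conv_rhs => rw [hb]
    ring
  unfold fc
  rw [Complex.exp_sub, Complex.exp_add, exp_log hI, h1]
  have hI0 := I_ne_zero
  field_simp

/-- Proof. `I * x.1 ∈ slitPlane` if `x.1 ≠ 0` and `|arg (I x.1)| < π`. -/
theorem fc_an {x : ℂ × ℂ} (hx : x.1 ≠ 0) (ha : |arg (I * x.1)| < Real.pi) :
    AnalyticAt ℂ (fc p b₁ c₁) x := by
  have h1 : AnalyticAt ℂ log (I * x.1) := analyticAt_clog (F3_slit hx ha)
  have h2 : AnalyticAt ℂ (fun y : ℂ × ℂ => I * y.1) x := analyticAt_const.mul analyticAt_fst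
  have h3 : AnalyticAt ℂ (fun y : ℂ × ℂ => log (I * y.1)) x :=
    AnalyticAt.fun_comp (g := log) (f := fun y : ℂ × ℂ => I * y.1) h1 h2
  have h4 : AnalyticAt ℂ (fun y : ℂ × ℂ => (1 + (p : ℂ)) * y.2) x :=
    analyticAt_const.mul analyticAt_snd
  exact (h3.add h4).sub analyticAt_const

/-- Proof. `exp` of both sides agree, so the difference is `2 π i m`. -/
theorem eq_of_exp {f g : ℂ} (h : cexp f = cexp g) (hi : |f.im - g.im| < 2 * Real.pi) : f = g := by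
  obtain ⟨n, hn⟩ := exp_eq_exp_iff_exists_int.1 h
  have h1 : f.im - g.im = n * (2 * Real.pi) := by
    rw [hn]
    simp
  rw [h1, abs_mul, abs_of_pos Real.two_pi_pos] at hi
  have h2 : |(n : ℝ)| < 1 := by
    have := Real.two_pi_pos
    by_contra hcon
    rw [not_lt] at hcon
    nlinarith
  have h3 : n = 0 := by
    rw [← Int.abs_lt_one_iff]
    exact_mod_cast h2
  rw [hn, h3]
  simp

/-- Proof. `arg` is continuous in the slit plane; the remaining conditions are continuous. -/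
theorem isOpen_O1 {A δ E rr R : ℝ} (hE : 0 < E) (hδ : δ < Real.pi / 2) :
    IsOpen (O1 p b₁ A δ E rr R) := by
  have h1 : O1 p b₁ A δ E rr R = {x : ℂ × ℂ | |arg (I * x.1)| < Real.pi / 2 + δ ∧ x.1 ≠ 0} ∩
      {x | E * Real.exp (-((1 + p) * x.2.re)) < ‖x.1‖ ∧ ‖x.1‖ < rr ∧ |be p b₁ x.2| < A ∧
        R < x.2.re} := by
    ext x
    constructor
    · rintro ⟨a1, a2, a3⟩
      refine ⟨⟨a1, ?_⟩, a2, a3⟩
      intro h
      rw [h, norm_zero] at a2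
      have := mul_pos hE (Real.exp_pos (-((1 + p) * x.2.re)))
      linarith
    · rintro ⟨⟨a1, -⟩, a2, a3⟩
      exact ⟨a1, a2, a3⟩
  rw [h1]
  have hb := F3_be p b₁
  have o1 : IsOpen {x : ℂ × ℂ | E * Real.exp (-((1 + p) * x.2.re)) < ‖x.1‖} :=
    isOpen_lt (by fun_prop) (by fun_prop)
  have o2 : IsOpen {x : ℂ × ℂ | ‖x.1‖ < rr} := isOpen_lt (by fun_prop) continuous_const
  have o3 : IsOpen {x : ℂ × ℂ | |be p b₁ x.2| < A} := isOpen_lt hb.abs continuous_const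
  have o4 : IsOpen {x : ℂ × ℂ | R < x.2.re} := isOpen_lt continuous_const (by fun_prop)
  exact (F3_op (by linarith)).inter (o1.inter (o2.inter (o3.inter o4)))

theorem isOpen_O2 {B δ rr : ℝ} (hδ : δ < Real.pi / 2) : IsOpen (O2 p b₁ B δ rr) := by
  have h1 : O2 p b₁ B δ rr = {x : ℂ × ℂ | |arg (I * x.1)| < Real.pi / 2 + δ ∧ x.1 ≠ 0} ∩
      {x | ‖x.1‖ < rr ∧ |be p b₁ x.2 - Real.pi / 2| < B} := by
    ext x
    constructor
    · rintro ⟨a1, a2, a3⟩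
      exact ⟨⟨a1, a2⟩, a3⟩
    · rintro ⟨⟨a1, a2⟩, a3⟩
      exact ⟨a1, a2, a3⟩
  rw [h1]
  have hb := F3_be p b₁
  have o1 : IsOpen {x : ℂ × ℂ | ‖x.1‖ < rr} := isOpen_lt (by fun_prop) continuous_const
  have o2 : IsOpen {x : ℂ × ℂ | |be p b₁ x.2 - Real.pi / 2| < B} :=
    isOpen_lt (hb.sub continuous_const).abs continuous_const
  exact (F3_op (by linarith)).inter (o1.inter o2)

/-- Proof. `θt` is continuous on the open set `{R < Re ζ}`. -/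
theorem isOpen_O3 {E₃ R : ℝ} {θt : ℂ → ℂ} (hθ : AnalyticOnNhd ℂ θt {ζ | R < ζ.re}) :
    IsOpen (O3 k p b₁ E₃ R θt) := by
  rw [isOpen_iff_mem_nhds]
  intro x hx
  obtain ⟨a1, a2, a3, a4⟩ := hx
  have hb := F3_be p b₁
  have hθx : ContinuousAt (fun y : ℂ × ℂ => θt y.2) x :=
    ContinuousAt.comp (f := fun y : ℂ × ℂ => y.2) (g := θt) (hθ x.2 a4).continuousAt
      continuous_snd.continuousAt
  have hd : ContinuousAt (fun y : ℂ × ℂ => y.1 - θt y.2) x :=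
    continuous_fst.continuousAt.sub hθx
  have hre : ContinuousAt (fun y : ℂ × ℂ => (y.1 - θt y.2).re) x :=
    continuous_re.continuousAt.comp hd
  have him : ContinuousAt (fun y : ℂ × ℂ => (y.1 - θt y.2).im) x :=
    continuous_im.continuousAt.comp hd
  have c1 : ∀ᶠ y in 𝓝 x, ‖y.1‖ < E₃ * Real.exp (-((1 + p) * y.2.re)) :=
    (isOpen_lt (f := fun y : ℂ × ℂ => ‖y.1‖)
      (g := fun y => E₃ * Real.exp (-((1 + p) * y.2.re))) (by fun_prop)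
      (by fun_prop)).mem_nhds a1
  have c2 : ∀ᶠ y in 𝓝 x, (y.1 - θt y.2).im < 3 / 5 * |(y.1 - θt y.2).re| :=
    him.eventually_lt (hre.abs.const_mul (3 / 5)) a2
  have c3 : ∀ᶠ y in 𝓝 x, |be p b₁ y.2 - bt k p| < 1 / 25 :=
    (isOpen_lt (hb.sub continuous_const).abs continuous_const).mem_nhds a3
  have c4 : ∀ᶠ y in 𝓝 x, R < y.2.re :=
    (isOpen_lt (f := fun _ : ℂ × ℂ => R) (g := fun y => y.2.re) continuous_const
      (by fun_prop)).mem_nhds a4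
  filter_upwards [c1, c2, c3, c4] with y h1 h2 h3 h4
  exact ⟨h1, h2, h3, h4⟩

theorem isOpen_O4 {A δ rr R5 R6 : ℝ} (hδ : δ < Real.pi / 2) :
    IsOpen (O4 p b₁ A δ rr R5 R6) := by
  have h1 : O4 p b₁ A δ rr R5 R6 =
      {x : ℂ × ℂ | |arg (I * x.1)| < Real.pi / 2 + δ ∧ x.1 ≠ 0} ∩
      {x | ‖x.1‖ < rr ∧ |be p b₁ x.2| < A ∧ -R5 < x.2.re ∧ x.2.re < R6} := by
    ext x
    constructor
    · rintro ⟨a1, a2, a3⟩
      exact ⟨⟨a1, a2⟩, a3⟩
    · rintro ⟨⟨a1, a2⟩, a3⟩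
      exact ⟨a1, a2, a3⟩
  rw [h1]
  have hb := F3_be p b₁
  have o1 : IsOpen {x : ℂ × ℂ | ‖x.1‖ < rr} := isOpen_lt (by fun_prop) continuous_const
  have o2 : IsOpen {x : ℂ × ℂ | |be p b₁ x.2| < A} := isOpen_lt hb.abs continuous_const
  have o3 : IsOpen {x : ℂ × ℂ | -R5 < x.2.re} := isOpen_lt continuous_const (by fun_prop)
  have o4 : IsOpen {x : ℂ × ℂ | x.2.re < R6} := isOpen_lt (by fun_prop) continuous_const
  exact (F3_op (by linarith)).inter (o1.inter (o2.inter (o3.inter o4)))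

/-- Proof. `fc_re`, `fc_im`; `log` is monotone. -/
theorem O1_sub (hc : c₁ ≠ 0) {A A₁ δ E rr R L₁ L₂ : ℝ} (hA : A + Real.pi + δ ≤ A₁)
    (hE : ‖c₁‖ * Real.exp L₁ ≤ E) (hr : rr ≤ ‖c₁‖ * Real.exp L₂) {x : ℂ × ℂ}
    (hx : x ∈ O1 p b₁ A δ E rr R) : (fc p b₁ c₁ x, x.2) ∈ G1 p A₁ L₁ L₂ R := by
  obtain ⟨a1, a2, a3, a4, a5⟩ := hx
  have hcn : 0 < ‖c₁‖ := norm_pos_iff.2 hc
  have hE0 : 0 < E := lt_of_lt_of_le (by positivity) hE
  have hx0 : 0 < ‖x.1‖ := lt_trans (by positivity) a2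
  refine ⟨?_, ?_, ?_, a5⟩
  · change L₁ < (fc p b₁ c₁ x).re
    rw [fc_re]
    have h1 : Real.log (‖c₁‖ * Real.exp L₁ * Real.exp (-((1 + p) * x.2.re))) <
        Real.log ‖x.1‖ := by
      refine Real.log_lt_log (by positivity) (lt_of_le_of_lt ?_ a2)
      exact mul_le_mul_of_nonneg_right hE (Real.exp_pos _).le
    rw [Real.log_mul (by positivity) (Real.exp_pos _).ne',
      Real.log_mul hcn.ne' (Real.exp_pos _).ne', Real.log_exp, Real.log_exp] at h1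
    linarith
  · change |(fc p b₁ c₁ x).im| < A₁
    rw [fc_im]
    rw [abs_lt] at a1 a4 ⊢
    have hpi := Real.pi_pos
    constructor <;> linarith [a1.1, a1.2, a4.1, a4.2]
  · change (fc p b₁ c₁ x).re < L₂ + (1 + p) * x.2.re
    rw [fc_re]
    have h1 := F3_log hc hr a3 hx0
    linarith

theorem O2_sub (hc : c₁ ≠ 0) {B B₂ δ rr L : ℝ} (hB : B + Real.pi / 2 + δ ≤ B₂)
    (hr : rr ≤ ‖c₁‖ * Real.exp L) {x : ℂ × ℂ} (hx : x ∈ O2 p b₁ B δ rr) :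
    (fc p b₁ c₁ x, x.2) ∈ G2 p B₂ L := by
  obtain ⟨a1, a2, a3, a4⟩ := hx
  have hx0 : 0 < ‖x.1‖ := norm_pos_iff.2 a2
  refine ⟨?_, ?_⟩
  · change |(fc p b₁ c₁ x).im| < B₂
    rw [fc_im]
    rw [abs_lt] at a1 a4 ⊢
    constructor <;> linarith [a1.1, a1.2, a4.1, a4.2]
  · change (fc p b₁ c₁ x).re < L + (1 + p) * x.2.re
    rw [fc_re]
    have h1 := F3_log hc hr a3 hx0
    linarith

theorem O4_sub (hp : 0 < p) (hc : c₁ ≠ 0) {A A₁ δ rr L R5 R6 : ℝ} (hA : A + Real.pi + δ ≤ A₁)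
    (hr : rr ≤ ‖c₁‖ * Real.exp (L - (1 + p) * R6)) {x : ℂ × ℂ}
    (hx : x ∈ O4 p b₁ A δ rr R5 R6) : (fc p b₁ c₁ x, x.2) ∈ G4 A₁ L R5 := by
  obtain ⟨a1, a2, a3, a4, a5, a6⟩ := hx
  have hx0 : 0 < ‖x.1‖ := norm_pos_iff.2 a2
  refine ⟨?_, ?_, a5⟩
  · change (fc p b₁ c₁ x).re < L
    rw [fc_re]
    have h1 := F3_log hc hr a3 hx0
    have h2 : (1 + p) * x.2.re < (1 + p) * R6 := mul_lt_mul_of_pos_left a6 (by linarith)
    linarith
  · change |(fc p b₁ c₁ x).im| < A₁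
    rw [fc_im]
    rw [abs_lt] at a1 a4 ⊢
    have hpi := Real.pi_pos
    constructor <;> linarith [a1.1, a1.2, a4.1, a4.2]

/-- Proof. Linear inequalities. -/
theorem convex_S13 (k : ℕ) (p b₁ L₁ L₃ δ R : ℝ) : Convex ℝ (S13 k p b₁ L₁ L₃ δ R) := by
  rintro x ⟨x1, x2, x3, x4, x5⟩ y ⟨y1, y2, y3, y4, y5⟩ a b ha hb hab
  have e1 : (a • x + b • y).1.re = a * x.1.re + b * y.1.re := by simp
  have e2 : (a • x + b • y).1.im = a * x.1.im + b * y.1.im := by simp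
  have e3 : (a • x + b • y).2.re = a * x.2.re + b * y.2.re := by simp
  have e4 : be p b₁ (a • x + b • y).2 = a * be p b₁ x.2 + b * be p b₁ y.2 := by
    have e5 : (a • x + b • y).2.im = a * x.2.im + b * y.2.im := by simp
    unfold be
    rw [e5]
    have e6 : b₁ = a * b₁ + b * b₁ := by rw [← add_mul, hab, one_mul]
    linear_combination -e6
  refine ⟨?_, ?_, ?_, ?_, ?_⟩
  · rw [e1]
    exact F3_cv ha hb hab x1 y1
  · rw [e1]
    exact F3_cv' ha hb hab x2 y2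
  · rw [e4]
    have e7 : a * be p b₁ x.2 + b * be p b₁ y.2 - bt k p =
        a * (be p b₁ x.2 - bt k p) + b * (be p b₁ y.2 - bt k p) := by
      linear_combination bt k p * hab
    rw [e7]
    exact F3_ca ha hb hab x3 y3
  · rw [e2, e4]
    have e7 : a * x.1.im + b * y.1.im + Real.pi / 2 -
        (a * be p b₁ x.2 + b * be p b₁ y.2) =
        a * (x.1.im + Real.pi / 2 - be p b₁ x.2) +
          b * (y.1.im + Real.pi / 2 - be p b₁ y.2) := by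
      linear_combination -(Real.pi / 2) * hab
    rw [e7]
    exact F3_ca ha hb hab x4 y4
  · rw [e3]
    exact F3_cv ha hb hab x5 y5

end Pool.Agent.MP_ae5b4e_an_AZ
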