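import Pool.Agent.Lib.MP_ae5b4e_an_AZ.F3

/-! # AZ: the region below the tip in the coordinates `w` -/

noncomputable section

namespace Pool.Agent.MP_ae5b4e_an_AZ

open Complex Set Filter Topology Metric

variable {k : ℕ} {p b₁ : ℝ} {c₁ : ℂ}

private theorem f3b_E0 (k : ℕ) (p : ℝ) : E0 k p = cexp (((-bt k p : ℝ) : ℂ) * I) := by
  unfold E0 bt
  push_cast
  rfl

private theorem f3b_fac (k : ℕ) (hc : c₁ ≠ 0) (hb : c₁ = ‖c₁‖ * cexp (b₁ * I)) (ζ : ℂ) :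
    E0 k p * cexp ((1 + p) * ζ) / c₁ = ((Real.exp ((1 + p) * ζ.re) / ‖c₁‖ : ℝ) : ℂ) *
      cexp (((be p b₁ ζ - bt k p : ℝ) : ℂ) * I) := by
  have hn : (‖c₁‖ : ℂ) ≠ 0 := by exact_mod_cast (norm_pos_iff.2 hc).ne'
  have he := Complex.exp_ne_zero ((b₁ : ℂ) * I)
  have h1 : cexp ((1 + p) * ζ) = (Real.exp ((1 + p) * ζ.re) : ℂ) *
      cexp ((((1 + p) * ζ.im : ℝ) : ℂ) * I) := by
    rw [ofReal_exp, ← Complex.exp_add]
    congr 1
    apply Complex.ext <;> simp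
  have h2 : cexp (((be p b₁ ζ - bt k p : ℝ) : ℂ) * I) * cexp ((b₁ : ℂ) * I) =
      cexp (((-bt k p : ℝ) : ℂ) * I) * cexp ((((1 + p) * ζ.im : ℝ) : ℂ) * I) := by
    rw [← Complex.exp_add, ← Complex.exp_add]
    congr 1
    unfold be
    push_cast
    ring
  rw [f3b_E0, h1, div_eq_iff hc]
  conv_rhs => rw [hb]
  push_cast
  rw [norm_mul, norm_real, norm_norm, Complex.norm_exp_ofReal_mul_I, mul_one]
  have h3 : cexp (((-bt k p : ℝ) : ℂ) * I) *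
      (cexp (((1 + p) * ζ.re : ℝ) : ℂ) * cexp ((((1 + p) * ζ.im : ℝ) : ℂ) * I)) =
      cexp (((1 + p) * ζ.re : ℝ) : ℂ) *
        (cexp (((be p b₁ ζ - bt k p : ℝ) : ℂ) * I) * cexp ((b₁ : ℂ) * I)) := by
    rw [h2]
    ring
  push_cast at h3
  rw [h3]
  field_simp

private theorem f3b_normfac (k : ℕ) (p : ℝ) (c₁ ζ w : ℂ) :
    ‖E0 k p * cexp ((1 + p) * ζ) / c₁ * w‖ = Real.exp ((1 + p) * ζ.re) / ‖c₁‖ * ‖w‖ := by
  rw [norm_mul, norm_div, norm_mul, f3b_E0, Complex.norm_exp_ofReal_mul_I, one_mul,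
    Complex.norm_exp]
  congr 3
  rw [show (1 + (p : ℂ)) = ((1 + p : ℝ) : ℂ) by push_cast; rfl, re_ofReal_mul]

private theorem f3b_theta (k : ℕ) (hc : c₁ ≠ 0) {R₀ Cθ : ℝ} {θt : ℂ → ℂ}
    (hθ : ∀ ζ : ℂ, R₀ < ζ.re → ‖θt ζ‖ ≤ ‖c₁‖ * Cθ * Real.exp (-((1 + p) * ζ.re))) {ζ : ℂ}
    (hζ : R₀ < ζ.re) : ‖E0 k p * cexp ((1 + p) * ζ) / c₁ * θt ζ‖ ≤ Cθ := by
  have hn := norm_pos_iff.2 hc
  rw [f3b_normfac]
  refine (mul_le_mul_of_nonneg_left (hθ ζ hζ) (by positivity)).trans (le_of_eq ?_)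
  rw [Real.exp_neg]
  have e5 := (Real.exp_pos ((1 + p) * ζ.re)).ne'
  field_simp

private theorem f3b_cone {a b c s : ℝ} (h1 : c ^ 2 + s ^ 2 = 1) (hs : |s| ≤ 1 / 25)
    (hc : 9 / 10 ≤ c) (h : |c * a - s * b| ≤ 3 / 2 * (c * b + s * a)) : 3 / 5 * |a| ≤ b := by
  obtain ⟨P, hP⟩ : ∃ P, P = c * a - s * b := ⟨_, rfl⟩
  obtain ⟨Q, hQ⟩ : ∃ Q, Q = c * b + s * a := ⟨_, rfl⟩
  rw [← hP, ← hQ] at h
  have ha : a = c * P + s * Q := by
    rw [hP, hQ]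
    linear_combination (-a) * h1
  have hb : b = c * Q - s * P := by
    rw [hP, hQ]
    linear_combination (-b) * h1
  have hQ0 : 0 ≤ Q := by linarith [abs_nonneg P]
  have h2 : |a| ≤ c * |P| + |s| * Q := by
    rw [ha]
    refine (abs_add_le _ _).trans ?_
    rw [abs_mul, abs_mul, abs_of_pos (by linarith : 0 < c), abs_of_nonneg hQ0]
  have h3 : c * Q - |s| * |P| ≤ b := by
    rw [hb, ← abs_mul]
    linarith [le_abs_self (s * P)]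
  have h4 : c * |P| ≤ c * (3 / 2 * Q) := mul_le_mul_of_nonneg_left h (by linarith)
  have h5 : |s| * |P| ≤ 1 / 25 * (3 / 2 * Q) := mul_le_mul hs h (abs_nonneg _) (by norm_num)
  have h6 : |s| * Q ≤ 1 / 25 * Q := mul_le_mul_of_nonneg_right hs hQ0
  have h7 : 9 / 10 * Q ≤ c * Q := mul_le_mul_of_nonneg_right hc hQ0
  linarith

private theorem f3b_trig1 {x : ℝ} (h1 : -(Real.pi / 2) ≤ x) (h2 : x ≤ 7 / 50) :
    1 / 2 ≤ Real.cos x - 3 / 2 * Real.sin x := by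
  rcases le_total x 0 with h0 | h0
  · have c1 : 0 ≤ Real.cos x := Real.cos_nonneg_of_mem_Icc ⟨h1, by linarith [Real.pi_pos]⟩
    have c2 : Real.sin x ≤ 0 := Real.sin_nonpos_of_nonpos_of_neg_pi_le h0 (by
      linarith [Real.pi_pos])
    have c3 := Real.sin_sq_add_cos_sq x
    nlinarith
  · have c1 := Real.one_sub_sq_div_two_le_cos (x := x)
    have c2 := Real.sin_le h0
    nlinarith

private theorem f3b_trig {x : ℝ} (h : |x + Real.pi / 2| ≤ Real.pi / 2 + 7 / 50) :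
    ∃ σ : ℝ, |σ| = 1 ∧ 1 / 2 ≤ σ * Real.cos x - 3 / 2 * Real.sin x := by
  rw [abs_le] at h
  rcases le_total (-(Real.pi / 2)) x with h0 | h0
  · refine ⟨1, abs_one, ?_⟩
    rw [one_mul]
    exact f3b_trig1 h0 (by linarith)
  · refine ⟨-1, by rw [abs_neg, abs_one], ?_⟩
    have h1 := f3b_trig1 (x := -x - Real.pi) (by linarith) (by linarith)
    rw [Real.cos_sub_pi, Real.sin_sub_pi, Real.cos_neg, Real.sin_neg] at h1
    linarith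

/-- Proof. `E0 exp ((1 + p) ζ) / c₁ = m exp (i τ)`, `m = exp ((1 + p) Re ζ) / ‖c₁‖`, `τ = be - bt`, `|τ| < 1 / 25`. Norm:
`≤ m (E₃ + ‖c₁‖ Cθ) exp (- (1 + p) Re ζ) = E₃ / ‖c₁‖ + Cθ`. Cone: let `w = m exp (i τ) u`, `u = θ - θt`, and suppose
`|Re w| ≤ 3 / 2 Im w`. `u = exp (- i τ) w / m`: `Re u = (cos τ Re w + sin τ Im w) / m`, `Im u = (cos τ Im w - sin τ Re w) / m`,
so `|Re u| ≤ (3 / 2 cos τ + |sin τ|) Im w / m`, `Im u ≥ (cos τ - 3 / 2 |sin τ|) Im w / m`, and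
`cos τ - 3 / 2 |sin τ| ≥ 3 / 5 (3 / 2 cos τ + |sin τ|)`, i.e. `cos τ / 10 ≥ 21 / 10 |sin τ|` (`|sin τ| ≤ 1 / 25`, `cos τ ≥ 1 - τ² / 2`).
So `Im u ≥ 3 / 5 |Re u|`, contradiction. -/
theorem O3_sub (hc : c₁ ≠ 0) (hb : c₁ = ‖c₁‖ * cexp (b₁ * I)) {E₃ R R₀ Cθ ρ : ℝ} {θt : ℂ → ℂ}
    (hR : R₀ ≤ R) (hθ : ∀ ζ : ℂ, R₀ < ζ.re → ‖θt ζ‖ ≤ ‖c₁‖ * Cθ * Real.exp (-((1 + p) * ζ.re)))
    (hρ : E₃ / ‖c₁‖ + Cθ ≤ ρ) {x : ℂ × ℂ} (hx : x ∈ O3 k p b₁ E₃ R θt) :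
    (wθ k p c₁ θt x, x.2) ∈ G3 ρ R := by
  obtain ⟨h1, h2, h3, h4⟩ := hx
  have hn := norm_pos_iff.2 hc
  have hζ : R₀ < x.2.re := by linarith
  refine ⟨?_, ?_, h4⟩
  · have e1 : wθ k p c₁ θt x = E0 k p * cexp ((1 + p) * x.2) / c₁ * x.1 -
        E0 k p * cexp ((1 + p) * x.2) / c₁ * θt x.2 := by
      unfold wθ
      ring
    show ‖wθ k p c₁ θt x‖ < ρ
    rw [e1]
    have e2 := norm_sub_le (E0 k p * cexp ((1 + p) * x.2) / c₁ * x.1)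
      (E0 k p * cexp ((1 + p) * x.2) / c₁ * θt x.2)
    have e3 := f3b_theta k hc hθ hζ
    have e4 : ‖E0 k p * cexp ((1 + p) * x.2) / c₁ * x.1‖ < E₃ / ‖c₁‖ := by
      rw [f3b_normfac]
      have e5 := (Real.exp_pos ((1 + p) * x.2.re)).ne'
      have e6 : E₃ / ‖c₁‖ = Real.exp ((1 + p) * x.2.re) / ‖c₁‖ *
          (E₃ * Real.exp (-((1 + p) * x.2.re))) := by
        rw [Real.exp_neg]
        field_simp
      rw [e6]
      exact mul_lt_mul_of_pos_left h1 (by positivity)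
    linarith
  · intro hC
    have hC' : |(wθ k p c₁ θt x).re| ≤ 3 / 2 * (wθ k p c₁ θt x).im := hC
    obtain ⟨τ, hτ⟩ : ∃ τ, τ = be p b₁ x.2 - bt k p := ⟨_, rfl⟩
    obtain ⟨m, hm⟩ : ∃ m, m = Real.exp ((1 + p) * x.2.re) / ‖c₁‖ := ⟨_, rfl⟩
    obtain ⟨u, hu⟩ : ∃ u, u = x.1 - θt x.2 := ⟨_, rfl⟩
    have hm0 : 0 < m := by
      rw [hm]
      positivity
    have e1 : wθ k p c₁ θt x = (m : ℂ) * (cexp ((τ : ℂ) * I) * u) := by
      unfold wθ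
      rw [f3b_fac k hc hb, ← hτ, ← hm, ← hu]
      ring
    have e2 : (cexp ((τ : ℂ) * I) * u).re = Real.cos τ * u.re - Real.sin τ * u.im := by
      rw [mul_re, Complex.exp_ofReal_mul_I_re, Complex.exp_ofReal_mul_I_im]
    have e3 : (cexp ((τ : ℂ) * I) * u).im = Real.cos τ * u.im + Real.sin τ * u.re := by
      rw [mul_im, Complex.exp_ofReal_mul_I_re, Complex.exp_ofReal_mul_I_im]
    rw [e1, re_ofReal_mul, im_ofReal_mul, e2, e3, abs_mul, abs_of_pos hm0] at hC'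
    have hC2 : |Real.cos τ * u.re - Real.sin τ * u.im| ≤
        3 / 2 * (Real.cos τ * u.im + Real.sin τ * u.re) := by
      refine le_of_mul_le_mul_left ?_ hm0
      linarith
    rw [← hτ] at h3
    rw [← hu] at h2
    have hs : |Real.sin τ| ≤ 1 / 25 := Real.abs_sin_le_abs.trans h3.le
    have hcs : 9 / 10 ≤ Real.cos τ := by
      have c1 := Real.one_sub_sq_div_two_le_cos (x := τ)
      have c2 : τ ^ 2 ≤ (1 / 25) ^ 2 := by
        rw [← sq_abs]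
        exact pow_le_pow_left₀ (abs_nonneg _) h3.le 2
      linarith
    have h5 := f3b_cone (Real.cos_sq_add_sin_sq τ) hs hcs hC2
    linarith

/-- Proof. `fc_re`, `fc_im`, and `wf (fc x, ζ) = wθ x` by `fc_exp`. -/
theorem O13_sub (hc : c₁ ≠ 0) (hb : c₁ = ‖c₁‖ * cexp (b₁ * I)) {A δ E E₃ rr R L₁ L₃ : ℝ}
    {θt : ℂ → ℂ} (hE0 : 0 < E) (hE : ‖c₁‖ * Real.exp L₁ ≤ E) (hE₃ : E₃ ≤ ‖c₁‖ * Real.exp L₃)
    {x : ℂ × ℂ} (hx : x ∈ O1 p b₁ A δ E rr R) (hx' : x ∈ O3 k p b₁ E₃ R θt) :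
    (fc p b₁ c₁ x, x.2) ∈ S13 k p b₁ L₁ L₃ δ R ∧
      wf k p c₁ θt (fc p b₁ c₁ x, x.2) = wθ k p c₁ θt x := by
  obtain ⟨a1, a2, a3, a4, a5⟩ := hx
  obtain ⟨b1, b2, b3, b4⟩ := hx'
  have hn := norm_pos_iff.2 hc
  have hx0 : 0 < ‖x.1‖ := lt_trans (by positivity) a2
  refine ⟨⟨?_, ?_, b3, ?_, a5⟩, ?_⟩
  · show L₁ < (fc p b₁ c₁ x).re
    rw [fc_re]
    have e1 : ‖c₁‖ * Real.exp L₁ * Real.exp (-((1 + p) * x.2.re)) < ‖x.1‖ :=
      lt_of_le_of_lt (mul_le_mul_of_nonneg_right hE (Real.exp_pos _).le) a2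
    have e2 := Real.log_lt_log (by positivity) e1
    rw [Real.log_mul (by positivity) (by positivity), Real.log_mul hn.ne' (by positivity),
      Real.log_exp, Real.log_exp] at e2
    linarith
  · show (fc p b₁ c₁ x).re < L₃
    rw [fc_re]
    have e1 : ‖x.1‖ < ‖c₁‖ * Real.exp L₃ * Real.exp (-((1 + p) * x.2.re)) :=
      lt_of_lt_of_le b1 (mul_le_mul_of_nonneg_right hE₃ (Real.exp_pos _).le)
    have e2 := Real.log_lt_log hx0 e1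
    rw [Real.log_mul (by positivity) (by positivity), Real.log_mul hn.ne' (by positivity),
      Real.log_exp, Real.log_exp] at e2
    linarith
  · show |(fc p b₁ c₁ x).im + Real.pi / 2 - be p b₁ x.2| < Real.pi / 2 + δ
    rw [fc_im]
    have e1 : arg (I * x.1) - Real.pi / 2 + be p b₁ x.2 + Real.pi / 2 - be p b₁ x.2 =
        arg (I * x.1) := by ring
    rw [e1]
    exact a1
  · have e1 := fc_exp (p := p) hc hb (x := x) (norm_pos_iff.1 hx0)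
    unfold wf wθ
    show E0 k p * (cexp (fc p b₁ c₁ x) - cexp ((1 + p) * x.2) / c₁ * θt x.2) = _
    have e2 : cexp (fc p b₁ c₁ x) = cexp ((1 + p) * x.2) * x.1 / c₁ := by
      rw [eq_div_iff hc, ← e1]
      ring
    rw [e2]
    ring

/-- Proof. `E0 exp f = exp (Re f) exp (i φ)`, `φ = Im f - bt`, `φ + π / 2 ∈ (- π / 2 - δ - 1 / 25, π / 2 + δ + 1 / 25)`, so
`φ ∈ (- π - 1 / 5, 1 / 5)`; the other term has norm `≤ Cθ`. For one sign `σ = ± 1`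
`σ cos φ - 3 / 2 sin φ ≥ 1 / 2` (`σ = 1` for `φ ≥ - π / 2`, `σ = - 1` for `φ ≤ - π / 2`), so for `w = wf y`:
`σ Re w - 3 / 2 Im w ≥ exp (Re f) / 2 - 5 / 2 Cθ > 0` since `exp (Re f) > exp L₁ ≥ 6 Cθ` (if `Cθ = 0` it is `> 0` as well).
So `w ∉ Cn`. Norm: `< exp L₃ + Cθ ≤ ρ`. -/
theorem S13_sub (hc : c₁ ≠ 0) {L₁ L₃ δ R R₀ Cθ ρ : ℝ} {θt : ℂ → ℂ} (hδ : 0 < δ)
    (hδ1 : δ ≤ 1 / 10) (hR : R₀ ≤ R) (hCθ : 0 ≤ Cθ)
    (hθ : ∀ ζ : ℂ, R₀ < ζ.re → ‖θt ζ‖ ≤ ‖c₁‖ * Cθ * Real.exp (-((1 + p) * ζ.re)))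
    (h6 : 6 * Cθ ≤ Real.exp L₁) (hρ : Real.exp L₃ + Cθ ≤ ρ) {y : ℂ × ℂ}
    (hy : y ∈ S13 k p b₁ L₁ L₃ δ R) : (wf k p c₁ θt y, y.2) ∈ G3 ρ R := by
  obtain ⟨h1, h2, h3, h4, h5⟩ := hy
  have hζ : R₀ < y.2.re := by linarith
  have e0 := f3b_theta k hc hθ hζ
  obtain ⟨e, he⟩ : ∃ e, e = E0 k p * cexp ((1 + p) * y.2) / c₁ * θt y.2 := ⟨_, rfl⟩
  rw [← he] at e0
  have e1 : E0 k p * cexp y.1 = (Real.exp y.1.re : ℂ) *
      cexp (((y.1.im - bt k p : ℝ) : ℂ) * I) := by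
    rw [f3b_E0, ofReal_exp, ← Complex.exp_add, ← Complex.exp_add]
    congr 1
    apply Complex.ext
    · simp
    · simp
      ring
  obtain ⟨φ, hφ⟩ : ∃ φ, φ = y.1.im - bt k p := ⟨_, rfl⟩
  rw [← hφ] at e1
  have e2 : wf k p c₁ θt y = (Real.exp y.1.re : ℂ) * cexp ((φ : ℂ) * I) - e := by
    rw [← e1, he]
    unfold wf
    ring
  refine ⟨?_, ?_, h5⟩
  · show ‖wf k p c₁ θt y‖ < ρ
    rw [e2]
    have e3 := norm_sub_le ((Real.exp y.1.re : ℂ) * cexp ((φ : ℂ) * I)) e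
    rw [norm_mul, norm_real, Real.norm_of_nonneg (Real.exp_pos _).le,
      Complex.norm_exp_ofReal_mul_I, mul_one] at e3
    have e4 := Real.exp_lt_exp.2 h2
    linarith
  · intro hC
    have hC' : |(wf k p c₁ θt y).re| ≤ 3 / 2 * (wf k p c₁ θt y).im := hC
    have hφ2 : |φ + Real.pi / 2| ≤ Real.pi / 2 + 7 / 50 := by
      have e5 : φ + Real.pi / 2 = (y.1.im + Real.pi / 2 - be p b₁ y.2) +
          (be p b₁ y.2 - bt k p) := by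
        rw [hφ]
        ring
      rw [e5]
      refine (abs_add_le _ _).trans ?_
      linarith
    obtain ⟨σ, hσ, hσ2⟩ := f3b_trig hφ2
    have e6 : (wf k p c₁ θt y).re = Real.exp y.1.re * Real.cos φ - e.re := by
      rw [e2, sub_re, re_ofReal_mul, Complex.exp_ofReal_mul_I_re]
    have e7 : (wf k p c₁ θt y).im = Real.exp y.1.re * Real.sin φ - e.im := by
      rw [e2, sub_im, im_ofReal_mul, Complex.exp_ofReal_mul_I_im]
    have e8 : σ * (wf k p c₁ θt y).re ≤ |(wf k p c₁ θt y).re| := by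
      refine (le_abs_self _).trans ?_
      rw [abs_mul, hσ, one_mul]
    have e9 : σ * e.re ≤ Cθ := by
      refine (le_abs_self _).trans ?_
      rw [abs_mul, hσ, one_mul]
      exact (Complex.abs_re_le_norm e).trans e0
    have e10 : -Cθ ≤ e.im := (abs_le.1 ((Complex.abs_im_le_norm e).trans e0)).1
    have e11 : Real.exp y.1.re * (1 / 2) ≤
        Real.exp y.1.re * (σ * Real.cos φ - 3 / 2 * Real.sin φ) :=
      mul_le_mul_of_nonneg_left hσ2 (Real.exp_pos _).le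
    have e12 := Real.exp_lt_exp.2 h1
    rw [e6] at e8
    rw [e6, e7] at hC'
    have e13 : σ * (Real.exp y.1.re * Real.cos φ - e.re) =
        Real.exp y.1.re * (σ * Real.cos φ - 3 / 2 * Real.sin φ) - σ * e.re +
          3 / 2 * (Real.exp y.1.re * Real.sin φ) := by ring
    linarith

end Pool.Agent.MP_ae5b4e_an_AZ
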