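import Pool.Agent.Lib.MP_ae5b4e_an_AZ.V6b

/-! # AZ: the sheet of the point `Z` on a cone -/

noncomputable section

namespace Pool.Agent.MP_ae5b4e_an_AZ

open Complex Set Filter Topology Metric

variable {k : ℕ} {V Y : ℂ → ℂ}

/-- the domain of the near sheet: strip and cone -/
def Xc (k : ℕ) (R : ℝ) : Set ℂ := {z | |z.im| < Wk k ∨ z.re + |z.im| < -R}

/-- `V', Y'` on the sheet of `Z` -/
structure Shc (k : ℕ) (R : ℝ) (V Y V' Y' : ℂ → ℂ) : Prop where
  V_an : AnalyticOnNhd ℂ V' (Xc k R)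
  Y_an : AnalyticOnNhd ℂ Y' (Xc k R)
  s1 : ∀ z ∈ Xc k R, V' z ∈ C1 ∧ om1 k (V' z) = z ∧ Y' z = y1 k (V' z)
  eq : ∀ z : ℂ, |z.im| < Wk k → V' z = V z ∧ Y' z = Y z

theorem isOpen_Xc (k : ℕ) (R : ℝ) : IsOpen (Xc k R) := by
  have h1 : IsOpen {z : ℂ | |z.im| < Wk k} := isOpen_lt (by fun_prop) continuous_const
  have h2 : IsOpen {z : ℂ | z.re + |z.im| < -R} := isOpen_lt (by fun_prop) continuous_const
  exact h1.union h2

theorem v7_U0 : 0 < U0 := by
  unfold U0
  have h2 : Real.log 2 < 1 := by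
    have := Real.log_two_lt_d9
    linarith
  linarith

/-- Proof. `2 (1 - Uc s) = (1 + s) log (1 + s) - (s - 1) log (s - 1) = (s - 1) log ((1 + s) / (s - 1)) + 2 log (1 + s)
≤ 2 + 2 log (1 + s)` (`log (1 + 2 / (s - 1)) ≤ 2 / (s - 1)`), for `1 < s`; `log (1 + s) ≤ s`. For `s = 1`: `Uc 1 = U0 > 0`. -/
theorem neg_Uc_le {s : ℝ} (hs : 1 ≤ s) : -Uc s ≤ s := by
  have h0 : 0 < 1 + s := by linarith
  have h1 : Real.log (1 + s) ≤ s := by
    have := Real.log_le_sub_one_of_pos h0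
    linarith
  rcases hs.lt_or_eq with h2 | h2
  · have h3 : 0 < s - 1 := by linarith
    have h4 : Real.log (1 - s) = Real.log (s - 1) := by
      rw [← Real.log_neg_eq_log, neg_sub]
    have h5 : Real.log ((1 + s) / (s - 1)) ≤ (1 + s) / (s - 1) - 1 :=
      Real.log_le_sub_one_of_pos (div_pos h0 h3)
    rw [Real.log_div h0.ne' h3.ne'] at h5
    have h6 : (s - 1) * ((1 + s) / (s - 1) - 1) = 2 := by
      field_simp
      ring
    have h7 := mul_le_mul_of_nonneg_left h5 h3.le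
    rw [h6] at h7
    unfold Uc
    rw [h4]
    nlinarith
  · rw [← h2]
    have h3 := (Uc_mem 1 (by simp)).1
    have h4 := v7_U0
    linarith

/-- Proof. As `exists_Sh0` (V6b.lean). `G := Xc k 1` is open and star convex about `c₀ := - 2` (real): the strip and the cone
`{Re + |Im| < - 1}` are convex and contain `c₀`. `sec1`, `hcut`: let `z ∈ G`, `1 ≤ s`, `Re z = Uc s`: if `|Im z| < W` fine;
otherwise `|Im z| < - 1 - Uc s ≤ s - 1 ≤ (s - 1) k π` (`neg_Uc_le`, `k π ≥ 3`). -/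
theorem exists_Shc (h : Sh k V Y) (hk : 1 ≤ k) : ∃ V' Y' : ℂ → ℂ, Shc k 1 V Y V' Y' := by
  have hW := v6b_Wk_pos k
  have hpi3 := Real.pi_gt_three
  have hk1 : (1 : ℝ) ≤ k := by exact_mod_cast hk
  have hkp : 1 ≤ (k : ℝ) * Real.pi := by nlinarith
  have hc0 : |((-2 : ℝ) : ℂ).im| < Wk k := by
    simpa using hW
  obtain ⟨hm, he, -⟩ := h.s1 ((-2 : ℝ) : ℂ) (Or.inl hc0)
  have hstar : StarConvex ℝ (om1 k (V ((-2 : ℝ) : ℂ))) (Xc k 1) := by
    rw [he]
    intro z hz a b ha hb hab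
    have e1 : (a • ((-2 : ℝ) : ℂ) + b • z).im = b * z.im := by
      simp
    have e2 : (a • ((-2 : ℝ) : ℂ) + b • z).re = a * (-2) + b * z.re := by
      simp
    have e3 : |b * z.im| = b * |z.im| := by
      rw [abs_mul, abs_of_nonneg hb]
    rcases hz with h2 | h2
    · left
      show |(a • ((-2 : ℝ) : ℂ) + b • z).im| < Wk k
      rw [e1, e3]
      have := abs_nonneg z.im
      nlinarith
    · right
      show (a • ((-2 : ℝ) : ℂ) + b • z).re + |(a • ((-2 : ℝ) : ℂ) + b • z).im| < -1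
      rw [e1, e2, e3]
      rcases hb.lt_or_eq with h4 | h4
      · nlinarith
      · have ha1 : a = 1 := by linarith
        rw [← h4, ha1]
        norm_num
  have hmem : om1 k (V ((-2 : ℝ) : ℂ)) ∈ Xc k 1 := by
    rw [he]
    exact Or.inl hc0
  obtain ⟨g, g1, g2, g3⟩ := sec1 hk (isOpen_Xc k 1) hm hstar hmem (by
    intro z hz s hs hre
    have h0 : 0 ≤ (s - 1) * (k * Real.pi) := mul_nonneg (by linarith) (by linarith)
    rcases hz with h2 | h2
    · linarith
    · rw [hre] at h2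
      have h4 := neg_Uc_le hs
      nlinarith)
  have hy1 : AnalyticOnNhd ℂ (y1 k) C1 :=
    DifferentiableOn.analyticOnNhd (fun v hv =>
      (hasDerivAt_y1 k hv).differentiableAt.differentiableWithinAt) isOpen_C1
  have hom1 : AnalyticOnNhd ℂ (om1 k) C1 :=
    DifferentiableOn.analyticOnNhd (fun v hv =>
      (hasDerivAt_om1 k hv).differentiableAt.differentiableWithinAt) isOpen_C1
  have hEq : EqOn g V {z : ℂ | |z.im| < Wk k} := by
    have hconv : Convex ℝ {z : ℂ | |z.im| < Wk k} := by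
      have h1 : {z : ℂ | |z.im| < Wk k} = Complex.imLm ⁻¹' (Ioo (-Wk k) (Wk k)) := by
        ext z
        simp [abs_lt]
      rw [h1]
      exact (convex_Ioo _ _).linear_preimage _
    refine lifts_eqOn (f := om1 k) isOpen_C1 hom1 ?_ hconv.isPreconnected ?_ ?_ ?_ ?_ ?_
      (a := ((-2 : ℝ) : ℂ)) hc0 ?_
    · intro v hv
      exact v6b_inv (hasDerivAt_om1 k hv) (v5b_y1_ne k hv)
    · exact g1.continuousOn.mono fun z hz => Or.inl hz
    · exact h.V_an.continuousOn.mono fun z hz => Or.inl hz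
    · exact fun z hz => (g2 z (Or.inl hz)).1
    · exact fun z hz => (h.s1 z (Or.inl hz)).1
    · intro z hz
      rw [(g2 z (Or.inl hz)).2, (h.s1 z (Or.inl hz)).2.1]
    · rw [he] at g3
      exact g3
  refine ⟨g, fun z => y1 k (g z), g1, ?_, ?_, ?_⟩
  · intro z hz
    exact (hy1 (g z) (g2 z hz).1).comp (g1 z hz)
  · intro z hz
    exact ⟨(g2 z hz).1, (g2 z hz).2, rfl⟩
  · intro z hz
    have h1 : g z = V z := hEq hz
    refine ⟨h1, ?_⟩
    rw [h1]
    exact (h.s1 z (Or.inl hz)).2.2.symm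

/-- Proof. As `Sh0.prop`. -/
theorem Shc.prop {R : ℝ} {V' Y' : ℂ → ℂ} (h : Shc k R V Y V' Y') {z : ℂ}
    (hz : z ∈ Xc k R) : HasDerivAt Y' (sin (Y' z) ^ 2 / Y' z) z ∧
      k * Real.pi < (Y' z).re ∧ (Y' z).re < (k + 1) * Real.pi ∧ sin (Y' z) ≠ 0 ∧
      cos (Y' z) = -(V' z * sin (Y' z)) ∧
      cexp z = (-1) ^ k * sin (Y' z) * cexp (1 + Y' z * V' z) := by
  have hU := (isOpen_Xc k R).mem_nhds hz
  obtain ⟨m, e1, e2⟩ := h.s1 z hz
  obtain ⟨a, b, c, d, -⟩ := trig1 k m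
  have hV : DifferentiableAt ℂ V' z := (h.V_an z hz).differentiableAt
  have hd := hV.hasDerivAt
  have h2 : HasDerivAt (fun w => om1 k (V' w)) (y1 k (V' z) * deriv V' z) z :=
    (hasDerivAt_om1 k m).comp z hd
  have h3 : HasDerivAt (fun w => om1 k (V' w)) 1 z := by
    refine (hasDerivAt_id z).congr_of_eventuallyEq ?_
    filter_upwards [hU] with w hw
    exact (h.s1 w hw).2.1
  have h4 := h2.unique h3
  have h5 : deriv V' z = 1 / Y' z := by
    rw [e2, eq_div_iff (v5b_y1_ne k m), mul_comm]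
    exact h4
  rw [h5] at hd
  have h6 : HasDerivAt (fun w => y1 k (V' w)) (1 / (1 + V' z ^ 2) * (1 / Y' z)) z :=
    (hasDerivAt_y1 k m).comp z hd
  have h7 : HasDerivAt Y' (1 / (1 + V' z ^ 2) * (1 / Y' z)) z := by
    refine h6.congr_of_eventuallyEq ?_
    filter_upwards [hU] with w hw
    exact (h.s1 w hw).2.2
  have h8 := re_y1_mem k m
  have hW := (v5b_Wk_nonneg k).1
  rw [← e2] at a b c d h8
  rw [e1] at d
  refine ⟨h7.congr_deriv ?_, by linarith [h8.1], ?_, a, b, d⟩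
  · rw [← c]
    ring
  · rw [add_mul, hW]
    linarith [h8.2]

/-- Proof. As `near_gen` (V6a.lean). Let `R ≥ 1`, `Re (om1 k v) + |Im (om1 k v)| ≤ - R`. (a) `Re v < 0`: if `Re v = 0`,
`|Im v| < 1` and `Re (om1 k v) = Uc ≥ U0 > 0`, no. If `Re v > 0`, `s := Im v`: `|s| ≤ 1`: `Re (om1 k v) > Uc s ≥ U0`, no; `1 < s`:
`om1_right`: `W + (s - 1) k π < Im (om1 k v) < - R - Uc s ≤ - 1 + s`, no; `s < - 1`: the same by `om1_conj`. (b) `‖v‖` is large
if `R` is large (`norm_om1_le`: `‖v‖ ≤ M` implies `‖om1 k v‖ ≤ C`, but `‖om1 k v‖ ≥ R`), then `y1_far`. -/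
theorem near_cone {k : ℕ} (hk : 1 ≤ k) {ε : ℝ} (hε : 0 < ε) : ∃ R : ℝ, 1 ≤ R ∧ ∀ v : ℂ, v ∈ C1 →
    (om1 k v).re + |(om1 k v).im| ≤ -R → v.re < 0 ∧ ‖y1 k v - k * Real.pi‖ ≤ ε := by
  have hpi3 := Real.pi_gt_three
  have hk' : (1 : ℝ) ≤ k := by exact_mod_cast hk
  have hkpi : 1 ≤ (k : ℝ) * Real.pi := by nlinarith
  have hW := v6b_Wk_pos k
  obtain ⟨M, hM⟩ : ∃ M : ℝ, M = max 2 (Real.pi / ε) := ⟨_, rfl⟩
  have hM2 : 2 ≤ M := by
    rw [hM]
    exact le_max_left _ _
  have hMε : Real.pi / ε ≤ M := by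
    rw [hM]
    exact le_max_right _ _
  obtain ⟨C, hC⟩ := norm_om1_le k M
  obtain ⟨R, hR⟩ : ∃ R : ℝ, R = max 1 (C + 1) := ⟨_, rfl⟩
  have hR1 : 1 ≤ R := by
    rw [hR]
    exact le_max_left _ _
  have hRC : C + 1 ≤ R := by
    rw [hR]
    exact le_max_right _ _
  -- the upper part
  have hup : ∀ v : ℂ, 0 < v.re → 1 < v.im → -R < (om1 k v).re + |(om1 k v).im| := by
    intro v h1 h2
    obtain ⟨h4, h5⟩ := om1_right k h1
    have h6 := h5 h2.le
    have h7 := le_abs_self (om1 k v).im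
    have h8 := neg_Uc_le h2.le
    nlinarith
  refine ⟨R, hR1, fun v hv h1 => ?_⟩
  have hre : v.re < 0 := by
    by_contra hcon
    push Not at hcon
    rcases le_or_gt |v.im| 1 with h3 | h3
    · have h4 : Uc v.im ≤ (om1 k v).re := by
        rcases hcon.lt_or_eq with h0 | h0
        · exact (om1_right k h0).1.le
        · have e : v = (v.im : ℂ) * I := by
            apply Complex.ext
            · simp [← h0]
            · simp
          have h5 : (om1 k v).re = Uc v.im := by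
            conv_lhs => rw [e]
            exact re_om1_I k _
          exact h5.ge
      have h5 := (Uc_mem v.im h3).1
      have h6 := abs_nonneg (om1 k v).im
      linarith [v7_U0]
    · have h4 : 0 < v.re := by
        rcases mem_C1_iff.1 hv with h5 | h5
        · exact lt_of_le_of_ne hcon (Ne.symm h5)
        · linarith
      rcases le_total 0 v.im with h5 | h5
      · rw [abs_of_nonneg h5] at h3
        linarith [hup v h4 h3]
      · rw [abs_of_nonpos h5] at h3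
        have h6 := hup ((starRingEnd ℂ) v) (by rwa [conj_re]) (by rwa [conj_im])
        rw [om1_conj k hv, conj_re, conj_im, abs_neg] at h6
        linarith
  have hnv : M < ‖v‖ := by
    by_contra hcon
    push Not at hcon
    have h3 := hC _ hcon
    have h4 := abs_re_le_norm (om1 k v)
    have h5 := neg_le_abs (om1 k v).re
    have h6 := abs_nonneg (om1 k v).im
    linarith
  refine ⟨hre, ?_⟩
  have h3 := (y1_far k (v := v) (by linarith)).2 hre
  refine h3.trans ?_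
  rw [div_le_iff₀ (by linarith)]
  rw [div_le_iff₀ hε] at hMε
  nlinarith

end Pool.Agent.MP_ae5b4e_an_AZ
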