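import Pool.Agent.Lib.MP_ae5b4e_an_AZ.G0
import Pool.Agent.Lib.MP_ae5b4e_an_AZ.T3
import Pool.Agent.Lib.MP_ae5b4e_an_AZ.G2
import Pool.Agent.Lib.MP_ae5b4e_an_AZ.V7

/-! # AZ: (g4), near `Z`, for all `ζ` -/

noncomputable section

namespace Pool.Agent.MP_ae5b4e_an_AZ

open Complex Set Filter Topology Metric

variable {k : ℕ} {V Y : ℂ → ℂ} {p X₀ η : ℝ} {c₁ : ℂ} {κ : ℂ → ℂ}

/-- source of (g4) -/
def Pc (R4 X₁ : ℝ) : Set (ℂ × ℂ) := {x | x.1.re + |x.1.im| < -R4 ∧ (x.1 - x.2).re < X₁}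

/-- target of (g4) -/
def Gc (p L L' : ℝ) : Set (ℂ × ℂ) := {y | y.1.re + |y.1.im| < L ∧ y.1.re < L' + (1 + p) * y.2.re}

private theorem g8_re (p : ℝ) (J : ℂ × ℂ → ℂ) (x : ℂ × ℂ) :
    (fJ p J x).re = (1 + p) * x.1.re + Real.log ‖J x‖ := by
  unfold fJ
  rw [add_re, log_re]
  congr 1
  have : (1 : ℂ) + p = ((1 + p : ℝ) : ℂ) := by push_cast; rfl
  rw [this, re_ofReal_mul]

private theorem g8_im (p : ℝ) (J : ℂ × ℂ → ℂ) (x : ℂ × ℂ) :
    (fJ p J x).im = (1 + p) * x.1.im + arg (J x) := by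
  unfold fJ
  rw [add_im, log_im]
  congr 1
  have : (1 : ℂ) + p = ((1 + p : ℝ) : ℂ) := by push_cast; rfl
  rw [this, im_ofReal_mul]

/-- a number near `1 / b` -/
private theorem g8_near {b : ℝ} (hb : 0 < b) {J : ℂ} (h : ‖(b : ℂ) * J - 1‖ ≤ 1 / 5) :
    0 < J.re ∧ |arg J| ≤ 1 / 4 ∧ 4 / (5 * b) ≤ ‖J‖ ∧ ‖J‖ ≤ 6 / (5 * b) := by
  have h1 : 4 / 5 ≤ ((b : ℂ) * J).re := by
    have h2 := (abs_le.1 (abs_re_le_norm ((b : ℂ) * J - 1))).1
    rw [sub_re, one_re] at h2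
    linarith
  have h2 : |((b : ℂ) * J).im| ≤ 1 / 5 := by
    have h3 := abs_im_le_norm ((b : ℂ) * J - 1)
    rw [sub_im, one_im, sub_zero] at h3
    linarith
  rw [re_ofReal_mul] at h1
  rw [im_ofReal_mul] at h2
  have h3 : 0 < J.re := by
    by_contra hcon
    push Not at hcon
    nlinarith
  have hn : ‖(b : ℂ) * J‖ = b * ‖J‖ := by
    rw [norm_mul, norm_real, Real.norm_eq_abs, abs_of_pos hb]
  refine ⟨h3, ?_, ?_, ?_⟩
  · have h4 : Real.tan (arg J) = J.im / J.re := tan_arg J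
    have h5 : |J.im / J.re| ≤ 1 / 4 := by
      rw [abs_div, abs_of_pos h3, div_le_iff₀ h3]
      rw [abs_mul, abs_of_pos hb] at h2
      have h6 : b * |J.im| ≤ b * (1 / 4 * J.re) := by linarith
      exact le_of_mul_le_mul_left h6 hb
    have h6 := abs_lt.1 (abs_arg_lt_pi_div_two_iff.2 (Or.inl h3))
    rcases le_total 0 (arg J) with h7 | h7
    · rw [abs_of_nonneg h7]
      have h8 := Real.le_tan h7 h6.2
      rw [h4] at h8
      exact h8.trans ((le_abs_self _).trans h5)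
    · rw [abs_of_nonpos h7]
      have h8 := Real.le_tan (x := -arg J) (by linarith) (by linarith [h6.1])
      rw [Real.tan_neg, h4] at h8
      exact h8.trans ((neg_le_abs _).trans h5)
  · have h4 := abs_re_le_norm ((b : ℂ) * J)
    rw [hn, re_ofReal_mul] at h4
    have h5 := le_abs_self (b * J.re)
    rw [div_le_iff₀ (by positivity)]
    linarith
  · have h4 := norm_sub_norm_le ((b : ℂ) * J) 1
    rw [hn, norm_one] at h4
    rw [le_div_iff₀ (by positivity)]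
    linarith

/-- A function with derivative of positive real part on a convex set is injective. -/
private theorem g8_inj {f f' : ℂ → ℂ} {S : Set ℂ} (hS : Convex ℝ S)
    (hf : ∀ z ∈ S, HasDerivAt f (f' z) z) (hpos : ∀ z ∈ S, 0 < (f' z).re) : InjOn f S := by
  intro v hv v' hv' h
  by_contra hne
  obtain ⟨w, hw⟩ : ∃ w : ℂ, w = v' - v := ⟨_, rfl⟩
  have hw0 : w ≠ 0 := by
    rw [hw]
    exact sub_ne_zero.2 (Ne.symm hne)
  have hre : ∀ t ∈ Icc (0 : ℝ) 1, v + (t : ℂ) * w ∈ S := by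
    intro t ht
    have h1 := hS hv hv' (by linarith [ht.2] : 0 ≤ 1 - t) ht.1 (by ring)
    have h2 : (1 - t) • v + t • v' = v + (t : ℂ) * w := by
      rw [hw, real_smul, real_smul]
      push_cast
      ring
    rwa [h2] at h1
  have hd : ∀ t ∈ Icc (0 : ℝ) 1, HasDerivAt
      (fun t : ℝ => (f (v + (t : ℂ) * w) * (starRingEnd ℂ) w).re)
      ((f' (v + (t : ℂ) * w) * w * (starRingEnd ℂ) w).re) t := by
    intro t ht
    have h1 : HasDerivAt (fun z : ℂ => v + z * w) w (t : ℂ) := by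
      simpa using ((hasDerivAt_id (t : ℂ)).mul_const w).const_add v
    have h2 := ((hf _ (hre t ht)).comp (t : ℂ) h1).mul_const ((starRingEnd ℂ) w)
    exact h2.real_of_complex
  obtain ⟨c, hc, hcc⟩ := exists_hasDerivAt_eq_slope
    (fun t : ℝ => (f (v + (t : ℂ) * w) * (starRingEnd ℂ) w).re)
    (fun t : ℝ => (f' (v + (t : ℂ) * w) * w * (starRingEnd ℂ) w).re) one_pos
    (fun t ht => (hd t ht).continuousAt.continuousWithinAt)
    (fun t ht => hd t (Ioo_subset_Icc_self ht))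
  have e1 : v + ((1 : ℝ) : ℂ) * w = v' := by
    rw [hw]
    push_cast
    ring
  have e0 : v + ((0 : ℝ) : ℂ) * w = v := by
    push_cast
    ring
  have e2 : (f' (v + (c : ℂ) * w) * w * (starRingEnd ℂ) w).re =
      (f' (v + (c : ℂ) * w)).re * normSq w := by
    rw [mul_assoc, mul_conj, re_mul_ofReal]
  simp only [e1, e0] at hcc
  rw [e2, h, sub_self, zero_div] at hcc
  exact (mul_pos (hpos _ (hre c (Ioo_subset_Icc_self hc))) (normSq_pos.2 hw0)).ne' hcc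

private theorem g8_norm {w : ℂ} {r : ℝ} (hw : ‖w - 1‖ ≤ r) : 1 - r ≤ ‖w‖ := by
  have h2 : 1 ≤ ‖w‖ + ‖w - 1‖ := by
    have := norm_sub_le w (w - 1)
    rwa [sub_sub_cancel, norm_one] at this
  linarith

/-- the real part of a quotient of numbers near `1` -/
private theorem g8_quot {w₁ w₂ w₃ : ℂ} (h1 : ‖w₁ - 1‖ ≤ 1 / 20) (h2 : ‖w₂ - 1‖ ≤ 1 / 5)
    (h3 : ‖w₃ - 1‖ ≤ 1 / 20) : 0 < (w₁ / (w₃ * w₂)).re := by
  have a2 := g8_norm h2
  have a3 := g8_norm h3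
  have b2 : w₂ ≠ 0 := by
    intro h0
    rw [h0, norm_zero] at a2
    linarith
  have b3 : w₃ ≠ 0 := by
    intro h0
    rw [h0, norm_zero] at a3
    linarith
  -- `w₁ - w₃ w₂` is small
  have e1 : w₁ - w₃ * w₂ = (w₁ - 1) - (w₃ - 1) - (w₂ - 1) - (w₃ - 1) * (w₂ - 1) := by ring
  have e2 : ‖w₁ - w₃ * w₂‖ ≤ 1 / 20 + 1 / 20 + 1 / 5 + 1 / 20 * (1 / 5) := by
    rw [e1]
    refine (norm_sub_le _ _).trans (add_le_add ((norm_sub_le _ _).trans (add_le_add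
      ((norm_sub_le _ _).trans (add_le_add h1 h3)) h2)) ?_)
    rw [norm_mul]
    exact mul_le_mul h3 h2 (norm_nonneg _) (by norm_num)
  have e3 : (1 - 1 / 20) * (1 - 1 / 5) ≤ ‖w₃ * w₂‖ := by
    rw [norm_mul]
    exact mul_le_mul a3 a2 (by norm_num) (norm_nonneg _)
  have e4 : w₁ / (w₃ * w₂) - 1 = (w₁ - w₃ * w₂) / (w₃ * w₂) := by
    rw [sub_div, div_self (mul_ne_zero b3 b2)]
  have e5 : ‖w₁ / (w₃ * w₂) - 1‖ < 1 := by
    rw [e4, norm_div, div_lt_one (by linarith)]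
    linarith
  have e6 := (abs_le.1 (abs_re_le_norm (w₁ / (w₃ * w₂) - 1))).1
  rw [sub_re, one_re] at e6
  linarith

private theorem g8_combo {a b u v : ℝ} (ha : 0 ≤ a) (hb : 0 ≤ b) (hab : a + b = 1) (hu : 0 < u)
    (hv : 0 < v) : 0 < a * u + b * v := by
  rcases ha.eq_or_lt with h | h
  · have h1 : b = 1 := by linarith
    rw [← h, h1]
    linarith
  · have h1 := mul_pos h hu
    have h2 := mul_nonneg hb hv.le
    linarith

/-- the functional `Re + |Im|` is convex -/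
private theorem g8_cone {z w : ℂ} {a b r : ℝ} (ha : 0 ≤ a) (hb : 0 ≤ b) (hab : a + b = 1)
    (hz : z.re + |z.im| < r) (hw : w.re + |w.im| < r) :
    (a • z + b • w).re + |(a • z + b • w).im| < r := by
  have e1 : (a • z + b • w).re = a * z.re + b * w.re := by simp
  have e2 : (a • z + b • w).im = a * z.im + b * w.im := by simp
  have e3 : |a * z.im + b * w.im| ≤ a * |z.im| + b * |w.im| := by
    refine (abs_add_le _ _).trans ?_
    rw [abs_mul, abs_mul, abs_of_nonneg ha, abs_of_nonneg hb]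
  have e4 := g8_combo ha hb hab (sub_pos.2 hz) (sub_pos.2 hw)
  have e5 : a * r + b * r = r := by rw [← add_mul, hab, one_mul]
  rw [e1, e2]
  linarith

private theorem g8_isOpen_Pc (R4 X₁ : ℝ) : IsOpen (Pc R4 X₁) :=
  (isOpen_lt ((continuous_re.comp continuous_fst).add
    (continuous_abs.comp (continuous_im.comp continuous_fst))) continuous_const).inter
    (isOpen_lt (continuous_re.comp (continuous_fst.sub continuous_snd)) continuous_const)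

theorem isOpen_Gc (p L L' : ℝ) : IsOpen (Gc p L L') := by
  exact (isOpen_lt ((continuous_re.comp continuous_fst).add
    (continuous_abs.comp (continuous_im.comp continuous_fst))) continuous_const).inter
    (isOpen_lt (continuous_re.comp continuous_fst)
      (continuous_const.add (continuous_const.mul (continuous_re.comp continuous_snd))))

/-- Proof. `|·|` is convex. -/
theorem convex_Gc (p L L' : ℝ) : Convex ℝ (Gc p L L') := by
  intro x hx y hy a b ha hb hab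
  obtain ⟨x1, x2⟩ := hx
  obtain ⟨y1, y2⟩ := hy
  refine ⟨g8_cone ha hb hab x1 y1, ?_⟩
  have e1 : (a • x + b • y).1.re = a * x.1.re + b * y.1.re := by simp
  have e2 : (a • x + b • y).2.re = a * x.2.re + b * y.2.re := by simp
  have e4 := g8_combo ha hb hab (sub_pos.2 x2) (sub_pos.2 y2)
  have e5 : a * L' + b * L' = L' := by rw [← add_mul, hab, one_mul]
  rw [e1, e2]
  linarith

/-- the near sheet is invariant under translations to the left. Proof. `Shc.prop`, `k π ≥ π`. -/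
theorem LD_Xc (hk : 1 ≤ k) {R : ℝ} {V' Y' : ℂ → ℂ} (h0 : Shc k R V Y V' Y') :
    LD (Xc k R) Real.pi Y' := by
  have hpi := Real.pi_pos
  have hk' : (1 : ℝ) ≤ k := by exact_mod_cast hk
  refine ⟨isOpen_Xc k R, ?_, hpi, h0.Y_an, ?_⟩
  · intro z hz t ht
    have e1 : (z - t).im = z.im := by rw [sub_im, ofReal_im, sub_zero]
    have e2 : (z - t).re = z.re - t := by rw [sub_re, ofReal_re]
    rcases hz with h1 | h1
    · left
      rw [e1]
      exact h1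
    · right
      rw [e1, e2]
      linarith
  · intro z hz
    have h1 := (h0.prop hz).2.1
    nlinarith

/-- `J` on the near sheet. Proof. `near_cone` with `ε ≤ 1 / 20` and `2 ε / (k π) ≤ 1 / 60`; `R4 > R`. `JZ_near` with
`b = k π`: `‖(1 + p) k π J - 1‖ ≤ 2 η + 2 ε / (k π) ≤ 1 / 5` (the left half line of a point of the cone is in the cone;
`Shc.s1` gives `v = V' (om - t) ∈ C1`, `om1 k v = om - t`, `Y' = y1 k v`). `g1_core2`-like: `|arg J| ≤ 1 / 4`, `Re J > 0`. -/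
theorem JZ_cone (hk : 1 ≤ k) (hκ : Kap p X₀ η c₁ κ) : ∃ R4 : ℝ, 1 < R4 ∧
    ∀ (V' Y' : ℂ → ℂ), Shc k 1 V Y V' Y' → ∀ x : ℂ × ℂ, x.1.re + |x.1.im| ≤ -R4 →
      (x.1 - x.2).re < X₀ →
        ‖(1 + p) * (k * Real.pi) * JZ p c₁ κ Y' x - 1‖ ≤ 1 / 5 ∧ 0 < (JZ p c₁ κ Y' x).re ∧
        |arg (JZ p c₁ κ Y' x)| ≤ 1 / 4 ∧ ‖Y' x.1 - k * Real.pi‖ ≤ 1 / 20 := by
  have hpi := Real.pi_gt_three
  have hk' : (1 : ℝ) ≤ k := by exact_mod_cast hk
  have hkp : 3 < (k : ℝ) * Real.pi := by nlinarith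
  have hkp0 : 0 < (k : ℝ) * Real.pi := by linarith
  have hp := hκ.p_pos
  obtain ⟨R, hR1, hR⟩ := near_cone hk (ε := 1 / 20) (by norm_num)
  obtain ⟨b, hb⟩ : ∃ b : ℝ, b = (1 + p) * (k * Real.pi) := ⟨_, rfl⟩
  have hb0 : 0 < b := by
    rw [hb]
    positivity
  have hbc : (b : ℂ) = (1 + p) * (k * Real.pi) := by
    rw [hb]
    push_cast
    rfl
  have e : ((k * Real.pi : ℝ) : ℂ) = k * Real.pi := by push_cast; rfl
  refine ⟨R + 1, by linarith, ?_⟩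
  intro V' Y' hS x hx1 hx2
  have hX : ∀ t : ℝ, 0 ≤ t → x.1 - t ∈ Xc k 1 := by
    intro t ht
    right
    rw [sub_im, ofReal_im, sub_zero, sub_re, ofReal_re]
    linarith
  have hx : x ∈ DZ (Xc k 1) X₀ := by
    have h1 := hX 0 le_rfl
    rw [ofReal_zero, sub_zero] at h1
    exact ⟨h1, hx2⟩
  have h1 : ∀ t : ℝ, 0 ≤ t → ‖Y' (x.1 - t) - ((k * Real.pi : ℝ) : ℂ)‖ ≤ 1 / 20 := by
    intro t ht
    obtain ⟨m0, m1, m2⟩ := hS.s1 _ (hX t ht)
    rw [m2, e]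
    refine (hR _ m0 ?_).2
    rw [m1, sub_im, ofReal_im, sub_zero, sub_re, ofReal_re]
    linarith
  have h2 := JZ_near hκ (LD_Xc hk hS) hx hkp0 (by norm_num : (0 : ℝ) ≤ 1 / 20) (by linarith) h1
  have h3 : 2 * η + 2 * (1 / 20) / (k * Real.pi) ≤ 1 / 5 := by
    have h4 : 2 * (1 / 20) / (k * Real.pi) ≤ 1 / 10 := by
      rw [div_le_iff₀ hkp0]
      linarith
    linarith [hκ.η_le]
  rw [e] at h2
  have h5 := h2.trans h3
  have h6 : ‖(b : ℂ) * JZ p c₁ κ Y' x - 1‖ ≤ 1 / 5 := by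
    rw [hbc]
    exact h5
  obtain ⟨n1, n2, -, -⟩ := g8_near hb0 h6
  have h4 := h1 0 le_rfl
  rw [ofReal_zero, sub_zero, e] at h4
  exact ⟨h5, n1, n2, h4⟩

private theorem g8_mem {R4 : ℝ} (hR4 : 1 < R4) {x : ℂ × ℂ} (hx1 : x.1.re + |x.1.im| ≤ -R4)
    (hx2 : (x.1 - x.2).re < X₀) : x ∈ DZ (Xc k 1) X₀ := by
  refine ⟨Or.inr ?_, hx2⟩
  linarith

/-- INJECTIVITY. Proof. For fixed `ζ` the set `{z | (z, ζ) ∈ Pc}` is convex, and `z ↦ fJ p (JZ p c₁ κ Y') (z, ζ)` has the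
derivative `κ (z - ζ) / (Y' z TZ)` (`fJ_der`, `LD_Xc`) `= (1 + h) / (Y' z J)`, `‖h‖ ≤ 1 / 20` (`Kap.bd`), `b J = 1 + e`, `‖e‖ ≤ 1 / 5`,
`b = (1 + p) k π`, `Y' z = k π (1 + e')`, `‖e'‖ ≤ 1 / 60`: the derivative is `(1 + p) (1 + h) / ((1 + e) (1 + e'))`, its real
part is positive. A function with derivative of positive real part on a convex set is injective (as in
`om1_injOn`, V5a). -/
theorem inj_Pc (hk : 1 ≤ k) (hκ : Kap p X₀ η c₁ κ) {V' Y' : ℂ → ℂ} (hs : Shc k 1 V Y V' Y')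
    {R4 X₁ : ℝ} (hR4 : 1 < R4) (hX : X₁ ≤ X₀)
    (hJ : ∀ x : ℂ × ℂ, x.1.re + |x.1.im| ≤ -R4 → (x.1 - x.2).re < X₀ →
        ‖(1 + p) * (k * Real.pi) * JZ p c₁ κ Y' x - 1‖ ≤ 1 / 5 ∧ 0 < (JZ p c₁ κ Y' x).re ∧
        |arg (JZ p c₁ κ Y' x)| ≤ 1 / 4 ∧ ‖Y' x.1 - k * Real.pi‖ ≤ 1 / 20) {x : ℂ × ℂ} {z : ℂ}
    (hx : x ∈ Pc R4 X₁) (hz : (z, x.2) ∈ Pc R4 X₁)
    (he : fJ p (JZ p c₁ κ Y') (z, x.2) = fJ p (JZ p c₁ κ Y') x) : z = x.1 := by
  have hpi := Real.pi_gt_three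
  have hk' : (1 : ℝ) ≤ k := by exact_mod_cast hk
  have hkp : 3 < (k : ℝ) * Real.pi := by nlinarith
  have hkp0 : 0 < (k : ℝ) * Real.pi := by linarith
  have hp := hκ.p_pos
  have hp1 : 0 < 1 + p := by linarith
  obtain ⟨b, hb⟩ : ∃ b : ℝ, b = (1 + p) * (k * Real.pi) := ⟨_, rfl⟩
  have hb0 : 0 < b := by
    rw [hb]
    positivity
  have hbc : (b : ℂ) = (1 + p) * (k * Real.pi) := by
    rw [hb]
    push_cast
    rfl
  have e : ((k * Real.pi : ℝ) : ℂ) = k * Real.pi := by push_cast; rfl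
  have key3 : ∀ x ∈ Pc R4 X₁, 0 < (κ (x.1 - x.2) / (Y' x.1 * TZ κ Y' x)).re := by
    intro x hx
    have hx2 : (x.1 - x.2).re < X₀ := lt_of_lt_of_le hx.2 hX
    obtain ⟨m2, m1, -, m3⟩ := hJ x hx.1.le hx2
    rw [← hbc] at m2
    rw [← e] at m3
    have hE : c₁ * cexp ((1 + p) * (x.1 - x.2)) ≠ 0 :=
      mul_ne_zero hκ.c₁_ne (Complex.exp_ne_zero _)
    have hbC : (b : ℂ) ≠ 0 := by exact_mod_cast hb0.ne'
    have hkC : ((k * Real.pi : ℝ) : ℂ) ≠ 0 := by exact_mod_cast hkp0.ne'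
    have u1 : ‖κ (x.1 - x.2) / (c₁ * cexp ((1 + p) * (x.1 - x.2))) - 1‖ ≤ 1 / 20 := by
      have v1 := hκ.bd (x.1 - x.2) hx2
      rw [div_sub_one hE, norm_div, div_le_iff₀ (norm_pos_iff.2 hE)]
      exact v1.trans (mul_le_mul_of_nonneg_right hκ.η_le (norm_nonneg _))
    have u3 : ‖Y' x.1 / ((k * Real.pi : ℝ) : ℂ) - 1‖ ≤ 1 / 20 := by
      rw [div_sub_one hkC, norm_div, norm_real, Real.norm_eq_abs, abs_of_pos hkp0,
        div_le_iff₀ hkp0]
      refine m3.trans ?_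
      linarith
    have u4 := g8_quot u1 m2 u3
    have u5 : κ (x.1 - x.2) / (Y' x.1 * TZ κ Y' x) =
        ((1 + p : ℝ) : ℂ) * (κ (x.1 - x.2) / (c₁ * cexp ((1 + p) * (x.1 - x.2))) /
          (Y' x.1 / ((k * Real.pi : ℝ) : ℂ) * ((b : ℂ) * JZ p c₁ κ Y' x))) := by
      have hT0 : TZ κ Y' x ≠ 0 := by
        intro h0
        have v2 : JZ p c₁ κ Y' x = 0 := by
          simp only [JZ, h0, zero_div]
        rw [v2, zero_re] at m1
        exact m1.false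
      have hY0 : Y' x.1 ≠ 0 := by
        intro h0
        rw [h0, zero_div, zero_sub, norm_neg, norm_one] at u3
        norm_num at u3
      have v3 : JZ p c₁ κ Y' x = TZ κ Y' x / (c₁ * cexp ((1 + p) * (x.1 - x.2))) := rfl
      have v4 : (b : ℂ) = ((1 + p : ℝ) : ℂ) * ((k * Real.pi : ℝ) : ℂ) := by
        rw [hb]
        push_cast
        ring
      have v5 : ((1 + p : ℝ) : ℂ) ≠ 0 := by exact_mod_cast hp1.ne'
      rw [v3, v4]
      generalize c₁ * cexp ((1 + p) * (x.1 - x.2)) = E at hE ⊢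
      generalize ((k * Real.pi : ℝ) : ℂ) = q at hkC ⊢
      generalize ((1 + p : ℝ) : ℂ) = r at v5 ⊢
      field_simp
    rw [u5, re_ofReal_mul]
    exact mul_pos hp1 u4
  have hsl : Convex ℝ {z : ℂ | (z, x.2) ∈ Pc R4 X₁} := by
    intro z₁ hz₁ z₂ hz₂ s t hs' ht hst
    refine ⟨g8_cone hs' ht hst hz₁.1 hz₂.1, ?_⟩
    have x2 : (z₁ - x.2).re < X₁ := hz₁.2
    have y2 : (z₂ - x.2).re < X₁ := hz₂.2
    rw [sub_re] at x2 y2
    show (s • z₁ + t • z₂ - x.2).re < X₁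
    have e1 : (s • z₁ + t • z₂ - x.2).re = s * z₁.re + t * z₂.re - x.2.re := by simp
    have e4 := g8_combo hs' ht hst (sub_pos.2 x2) (sub_pos.2 y2)
    have e5 : s * X₁ + t * X₁ = X₁ := by rw [← add_mul, hst, one_mul]
    have e6 : s * x.2.re + t * x.2.re = x.2.re := by rw [← add_mul, hst, one_mul]
    rw [e1]
    linarith
  refine g8_inj (f := fun z => fJ p (JZ p c₁ κ Y') (z, x.2))
    (f' := fun z => κ (z - x.2) / (Y' z * TZ κ Y' (z, x.2))) hsl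
    (fun z hz => ?_) (fun z hz => ?_) hz hx he
  · have h1 : (z, x.2) ∈ Pc R4 X₁ := hz
    have h2 : ((z, x.2).1 - (z, x.2).2).re < X₀ := lt_of_lt_of_le h1.2 hX
    exact (fJ_der hκ (LD_Xc hk hs) (g8_mem hR4 h1.1.le h2) (hJ _ h1.1.le h2).2.1).2.1
  · exact key3 (z, x.2) hz

/-- properness, in an abstract form -/
private theorem g8_proper {J : ℂ × ℂ → ℂ} {b R4 X₁ L L' : ℝ} (hp : 0 < p) (hb : 0 < b)
    (hcl : ∀ x : ℂ × ℂ, x.1.re + |x.1.im| ≤ -R4 → (x.1 - x.2).re ≤ X₁ →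
      ContinuousAt (fJ p J) x ∧ ‖(b : ℂ) * J x - 1‖ ≤ 1 / 5)
    (h1 : L ≤ -((1 + p) * R4) + Real.log (4 / (5 * b)) - 1 / 4)
    (h2 : L' ≤ (1 + p) * X₁ + Real.log (4 / (5 * b))) :
    ∀ K ⊆ Gc p L L', IsCompact K →
      IsCompact (Pc R4 X₁ ∩ (fun y : ℂ × ℂ => (fJ p J y, y.2)) ⁻¹' K) := by
  intro K hK hKc
  have hb1 : 0 < 4 / (5 * b) := by positivity
  have hp1 : 0 < 1 + p := by linarith
  refine Metric.isCompact_of_isClosed_isBounded ?_ ?_
  · refine isClosed_of_closure_subset fun x hx => ?_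
    have c1 : x.1.re + |x.1.im| ≤ -R4 := by
      have hc : IsClosed {y : ℂ × ℂ | y.1.re + |y.1.im| ≤ -R4} :=
        isClosed_le ((continuous_re.comp continuous_fst).add
          (continuous_abs.comp (continuous_im.comp continuous_fst))) continuous_const
      exact closure_minimal (fun y hy => le_of_lt hy.1.1) hc hx
    have c2 : (x.1 - x.2).re ≤ X₁ := by
      have hc : IsClosed {y : ℂ × ℂ | (y.1 - y.2).re ≤ X₁} :=
        isClosed_le (continuous_re.comp (continuous_fst.sub continuous_snd)) continuous_const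
      exact closure_minimal (fun y hy => le_of_lt hy.1.2) hc hx
    obtain ⟨hc, hn⟩ := hcl x c1 c2
    have hΦ : (fJ p J x, x.2) ∈ K := by
      have h3 : ContinuousAt (fun y : ℂ × ℂ => (fJ p J y, y.2)) x :=
        hc.prodMk continuousAt_snd
      have h4 := h3.continuousWithinAt.mem_closure hx (t := K) (fun y hy => hy.2)
      rwa [hKc.isClosed.closure_eq] at h4
    obtain ⟨g1, g2⟩ := hK hΦ
    obtain ⟨-, n2, n3, -⟩ := g8_near hb hn
    have hlog := Real.log_le_log hb1 n3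
    refine ⟨⟨lt_of_le_of_ne c1 fun he => ?_, lt_of_le_of_ne c2 fun he => ?_⟩, hΦ⟩
    · have h3 : (fJ p J x).re + |(fJ p J x).im| < L := g1
      rw [g8_re, g8_im] at h3
      have h4 := abs_sub_abs_le_abs_sub ((1 + p) * x.1.im) (-arg (J x))
      rw [sub_neg_eq_add, abs_neg, abs_mul, abs_of_pos hp1] at h4
      have h5 : (1 + p) * x.1.re + (1 + p) * |x.1.im| = -((1 + p) * R4) := by
        rw [← mul_add, he, mul_neg]
      linarith
    · have h3 : (fJ p J x).re < L' + (1 + p) * x.2.re := g2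
      rw [g8_re] at h3
      rw [sub_re] at he
      have h5 : (1 + p) * x.1.re = (1 + p) * X₁ + (1 + p) * x.2.re := by
        rw [← mul_add, ← he, sub_add_cancel]
      linarith
  · obtain ⟨M, hM⟩ := hKc.isBounded.exists_norm_le
    refine (Metric.isBounded_closedBall (x := (0 : ℂ × ℂ)) (r := max (M + |Real.log (4 / (5 * b))| +
      |Real.log (6 / (5 * b))| + (M + 1 / 4)) M)).subset fun x hx => ?_
    obtain ⟨⟨c1, c2⟩, hx2⟩ := hx
    have h3 := hM _ hx2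
    obtain ⟨-, hn⟩ := hcl x c1.le c2.le
    obtain ⟨n1, n2, n3, n4⟩ := g8_near hb hn
    have h4 : ‖fJ p J x‖ ≤ M := (norm_fst_le ((fJ p J x, x.2) : ℂ × ℂ)).trans h3
    have h5 : ‖x.2‖ ≤ M := (norm_snd_le ((fJ p J x, x.2) : ℂ × ℂ)).trans h3
    have h6 := abs_le.1 ((abs_re_le_norm _).trans h4)
    have h7 := (abs_im_le_norm _).trans h4
    rw [g8_re] at h6
    rw [g8_im] at h7
    have hJ0 : 0 < ‖J x‖ := norm_pos_iff.2 fun h => by rw [h, zero_re] at n1; exact n1.false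
    have l1 := Real.log_le_log hb1 n3
    have l2 := Real.log_le_log hJ0 n4
    have a1 := neg_abs_le (Real.log (4 / (5 * b)))
    have a2 := le_abs_self (Real.log (6 / (5 * b)))
    have a3 := abs_nonneg (Real.log (4 / (5 * b)))
    have a4 := abs_nonneg (Real.log (6 / (5 * b)))
    have r1 : |(1 + p) * x.1.re| ≤ M + |Real.log (4 / (5 * b))| + |Real.log (6 / (5 * b))| := by
      rw [abs_le]
      constructor
      · linarith [h6.1]
      · linarith [h6.2]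
    have r2 : |(1 + p) * x.1.im| ≤ M + 1 / 4 := by
      have h8 := abs_sub_abs_le_abs_sub ((1 + p) * x.1.im) (-arg (J x))
      rw [sub_neg_eq_add, abs_neg] at h8
      linarith
    have r3 : ∀ u : ℝ, |u| ≤ |(1 + p) * u| := by
      intro u
      rw [abs_mul, abs_of_pos hp1]
      have := mul_nonneg hp.le (abs_nonneg u)
      linarith
    rw [mem_closedBall_zero_iff, Prod.norm_def]
    refine max_le_max ?_ h5
    have h10 := norm_le_abs_re_add_abs_im x.1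
    have h11 := r3 x.1.re
    have h12 := r3 x.1.im
    linarith

/-- THE SECTION (g4), with any base point.

Proof. `b := (1 + p) k π`, `L := - (1 + p) R4 + log (4 / (5 b)) - 1 / 4`, `L' := (1 + p) X₁ + log (4 / (5 b))`. Properness as
`proper_G1` / `proper_G2`: let `K ⊆ Gc` compact, `S := Pc ∩ f⁻¹ K`; bounded: `ζ` bounded, `|Im om| ≤ |Im f| + 1 / 4` bounded,
`(1 + p) Re om = Re f - log ‖J‖` bounded (`4 / (5 b) ≤ ‖J‖ ≤ 6 / (5 b)`). Closed: for a limit `x` of points of `S`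
`Re om + |Im om| ≤ - R4`, `Re (om - ζ) ≤ X₁ < X₀`: in `DZ (Xc k 1) X₀`, `f` continuous, `(f x, ζ) ∈ K`. If
`Re om + |Im om| = - R4`: `Re f + |Im f| ≥ (1 + p) (Re om + |Im om|) + log ‖J‖ - |arg J| ≥ L`, no. If `Re (om - ζ) = X₁`:
`Re f ≥ (1 + p) (X₁ + Re ζ) + log (4 / (5 b))`, no. `sec_pair` (`fJ_der`, `LD_Xc`, `convex_Gc`). -/
theorem sec_Gc (hk : 1 ≤ k) (hκ : Kap p X₀ η c₁ κ) {V' Y' : ℂ → ℂ} (hs : Shc k 1 V Y V' Y')
    {R4 X₁ : ℝ} (hR4 : 1 < R4) (hX : X₁ < X₀)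
    (hJ : ∀ x : ℂ × ℂ, x.1.re + |x.1.im| ≤ -R4 → (x.1 - x.2).re < X₀ →
        ‖(1 + p) * (k * Real.pi) * JZ p c₁ κ Y' x - 1‖ ≤ 1 / 5 ∧ 0 < (JZ p c₁ κ Y' x).re ∧
        |arg (JZ p c₁ κ Y' x)| ≤ 1 / 4 ∧ ‖Y' x.1 - k * Real.pi‖ ≤ 1 / 20) :
    ∃ L L' : ℝ, ∀ x₀ ∈ Pc R4 X₁, (fJ p (JZ p c₁ κ Y') x₀, x₀.2) ∈ Gc p L L' →
        ∃ g : ℂ × ℂ → ℂ, AnalyticOnNhd ℂ g (Gc p L L') ∧
          (∀ y ∈ Gc p L L', (g y, y.2) ∈ Pc R4 X₁ ∧
            fJ p (JZ p c₁ κ Y') (g y, y.2) = y.1) ∧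
          g (fJ p (JZ p c₁ κ Y') x₀, x₀.2) = x₀.1 := by
  have hpi := Real.pi_gt_three
  have hk' : (1 : ℝ) ≤ k := by exact_mod_cast hk
  have hkp0 : 0 < (k : ℝ) * Real.pi := by positivity
  have hp := hκ.p_pos
  obtain ⟨b, hb⟩ : ∃ b : ℝ, b = (1 + p) * (k * Real.pi) := ⟨_, rfl⟩
  have hb0 : 0 < b := by
    rw [hb]
    positivity
  have hbc : (b : ℂ) = (1 + p) * (k * Real.pi) := by
    rw [hb]
    push_cast
    rfl
  have key : ∀ x : ℂ × ℂ, x.1.re + |x.1.im| ≤ -R4 → (x.1 - x.2).re ≤ X₁ →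
      ‖(b : ℂ) * JZ p c₁ κ Y' x - 1‖ ≤ 1 / 5 ∧ AnalyticAt ℂ (fJ p (JZ p c₁ κ Y')) x ∧
        HasDerivAt (fun z => fJ p (JZ p c₁ κ Y') (z, x.2))
          (κ (x.1 - x.2) / (Y' x.1 * TZ κ Y' x)) x.1 ∧
        κ (x.1 - x.2) / (Y' x.1 * TZ κ Y' x) ≠ 0 := by
    intro x hx1 hx2
    have hx3 : (x.1 - x.2).re < X₀ := lt_of_le_of_lt hx2 hX
    obtain ⟨m2, m1, -, -⟩ := hJ x hx1 hx3
    rw [← hbc] at m2
    obtain ⟨a, b, c, -⟩ := fJ_der hκ (LD_Xc hk hs) (g8_mem hR4 hx1 hx3) m1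
    exact ⟨m2, a, b, c⟩
  refine ⟨-((1 + p) * R4) + Real.log (4 / (5 * b)) - 1 / 4,
    (1 + p) * X₁ + Real.log (4 / (5 * b)), ?_⟩
  intro x₀ hx₀ hy₀
  exact sec_pair (F := fJ p (JZ p c₁ κ Y')) (x₀ := x₀) (P := Pc R4 X₁)
    (G := Gc p (-((1 + p) * R4) + Real.log (4 / (5 * b)) - 1 / 4)
      ((1 + p) * X₁ + Real.log (4 / (5 * b))))
    (d := fun x => κ (x.1 - x.2) / (Y' x.1 * TZ κ Y' x)) (g8_isOpen_Pc _ _)
    (fun x hx => (key x hx.1.le hx.2.le).2.1)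
    (fun x hx => (key x hx.1.le hx.2.le).2.2) (isOpen_Gc _ _ _)
    ((convex_Gc _ _ _).starConvex hy₀)
    (g8_proper hp hb0 (fun x a1 a2 => ⟨(key x a1 a2).2.1.continuousAt, (key x a1 a2).1⟩)
      le_rfl le_rfl) hx₀ hy₀

end Pool.Agent.MP_ae5b4e_an_AZ
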