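import Pool.Agent.Lib.MP_ae5b4e_an_AZ.F3b
import Pool.Agent.Lib.MP_ae5b4e_an_AZ.G8

/-! # AZ: the region near `Z` -/

noncomputable section

namespace Pool.Agent.MP_ae5b4e_an_AZ

open Complex Set Filter Topology Metric

variable {k : ℕ} {V Y : ℂ → ℂ} {p b₁ X₀ η : ℝ} {c₁ : ℂ} {κ : ℂ → ℂ}

private theorem f3c_slit {x : ℂ × ℂ} (hx : x.1 ≠ 0) (ha : |arg (I * x.1)| < Real.pi) :
    I * x.1 ∈ slitPlane := by
  rw [mem_slitPlane_iff_arg]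
  refine ⟨fun h => ?_, mul_ne_zero I_ne_zero hx⟩
  rw [h, abs_of_pos Real.pi_pos] at ha
  exact lt_irrefl _ ha

private theorem f3c_E0 (k : ℕ) (p : ℝ) : E0 k p = cexp (((-bt k p : ℝ) : ℂ) * I) := by
  unfold E0 bt
  push_cast
  rfl

private theorem f3c_E0n (k : ℕ) (p : ℝ) : ‖E0 k p‖ = 1 := by
  rw [f3c_E0, Complex.norm_exp_ofReal_mul_I]

private theorem f3c_fac (k : ℕ) (hc : c₁ ≠ 0) (hb : c₁ = ‖c₁‖ * cexp (b₁ * I)) (ζ : ℂ) :
    E0 k p * cexp ((1 + p) * ζ) / c₁ = ((Real.exp ((1 + p) * ζ.re) / ‖c₁‖ : ℝ) : ℂ) *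
      cexp (((be p b₁ ζ - bt k p : ℝ) : ℂ) * I) := by
  have hn : (‖c₁‖ : ℂ) ≠ 0 := by exact_mod_cast (norm_pos_iff.2 hc).ne'
  have he := Complex.exp_ne_zero ((b₁ : ℂ) * I)
  have h1 : cexp ((1 + p) * ζ) = (Real.exp ((1 + p) * ζ.re) : ℂ) *
      cexp ((((1 + p) * ζ.im : ℝ) : ℂ) * I) := by
    rw [ofReal_exp, ← Complex.exp_add]
    congr 1
    apply Complex.ext <;> simp
  have h2 : cexp (((be p b₁ ζ - bt k p : ℝ) : ℂ) * I) * cexp ((b₁ : ℂ) * I) =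
      cexp (((-bt k p : ℝ) : ℂ) * I) * cexp ((((1 + p) * ζ.im : ℝ) : ℂ) * I) := by
    rw [← Complex.exp_add, ← Complex.exp_add]
    congr 1
    unfold be
    push_cast
    ring
  rw [f3c_E0, h1, div_eq_iff hc]
  conv_rhs => rw [hb]
  push_cast
  rw [norm_mul, norm_real, norm_norm, Complex.norm_exp_ofReal_mul_I, mul_one]
  have h3 : cexp (((-bt k p : ℝ) : ℂ) * I) *
      (cexp (((1 + p) * ζ.re : ℝ) : ℂ) * cexp ((((1 + p) * ζ.im : ℝ) : ℂ) * I)) =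
      cexp (((1 + p) * ζ.re : ℝ) : ℂ) *
        (cexp (((be p b₁ ζ - bt k p : ℝ) : ℂ) * I) * cexp ((b₁ : ℂ) * I)) := by
    rw [h2]
    ring
  push_cast at h3
  rw [h3]
  field_simp

/-- the remaining part of the time is small -/
private theorem f3c_TZ (hκ : Kap p X₀ η c₁ κ) {D : Set ℂ} (hY : LD D Real.pi Y)
    {x : ℂ × ℂ} (hx : x ∈ DZ D X₀) :
    ‖E0 k p * cexp ((1 + p) * x.2) / c₁ * TZ κ Y x‖ ≤ Real.exp ((1 + p) * x.1.re) := by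
  have h1 := (TZ_int hκ hY hx).2
  have hc : 0 < ‖c₁‖ := norm_pos_iff.2 hκ.c₁_ne
  have hp := hκ.p_pos
  have hη := hκ.η_le
  have hpi := Real.pi_gt_three
  have hfac : ‖E0 k p * cexp ((1 + p) * x.2) / c₁ * TZ κ Y x‖ =
      Real.exp ((1 + p) * x.2.re) / ‖c₁‖ * ‖TZ κ Y x‖ := by
    rw [norm_mul, norm_div, norm_mul, f3c_E0n, one_mul, Complex.norm_exp]
    congr 3
    rw [show (1 + (p : ℂ)) = ((1 + p : ℝ) : ℂ) by push_cast; rfl, re_ofReal_mul]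
  rw [hfac]
  have h2 : Real.exp ((1 + p) * x.2.re) / ‖c₁‖ * ‖TZ κ Y x‖ ≤
      Real.exp ((1 + p) * x.2.re) / ‖c₁‖ * ((1 + η) * ‖c₁‖ / (Real.pi * (1 + p)) *
        Real.exp ((1 + p) * (x.1 - x.2).re)) :=
    mul_le_mul_of_nonneg_left h1 (by positivity)
  refine h2.trans ?_
  have h3 : Real.exp ((1 + p) * x.2.re) / ‖c₁‖ * ((1 + η) * ‖c₁‖ / (Real.pi * (1 + p)) *
        Real.exp ((1 + p) * (x.1 - x.2).re)) =
      (1 + η) / (Real.pi * (1 + p)) * Real.exp ((1 + p) * x.1.re) := by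
    have h4 : Real.exp ((1 + p) * x.1.re) =
        Real.exp ((1 + p) * x.2.re) * Real.exp ((1 + p) * (x.1 - x.2).re) := by
      rw [← Real.exp_add, sub_re]
      congr 1
      ring
    rw [h4]
    have hpi0 : Real.pi ≠ 0 := by linarith
    have hp0 : (1 + p) ≠ 0 := by linarith
    field_simp
  rw [h3]
  have h5 : (1 + η) / (Real.pi * (1 + p)) ≤ 1 := by
    rw [div_le_one (by positivity)]
    nlinarith
  exact mul_le_of_le_one_left (Real.exp_pos _).le h5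

/-- near `Z`, all `ζ` -/
def Oc (p b₁ : ℝ) (c₁ : ℂ) (δ L L' : ℝ) : Set (ℂ × ℂ) :=
  {x | |arg (I * x.1)| < Real.pi / 2 + δ ∧ x.1 ≠ 0 ∧ (fc p b₁ c₁ x, x.2) ∈ Gc p L L'}

/-- Proof. `fc` is continuous where `I * x.1` is in the slit plane; `isOpen_Gc`. -/
theorem isOpen_Oc {δ L L' : ℝ} (hδ : δ < Real.pi / 2) : IsOpen (Oc p b₁ c₁ δ L L') := by
  rw [isOpen_iff_mem_nhds]
  rintro x ⟨h1, h2, h3⟩
  have hpi := Real.pi_pos
  have ha : |arg (I * x.1)| < Real.pi := by linarith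
  have c1 : ContinuousAt (fun y : ℂ × ℂ => |arg (I * y.1)|) x := by
    have h4 : ContinuousAt arg (I * x.1) := continuousAt_arg (f3c_slit h2 ha)
    have h5 : ContinuousAt (fun y : ℂ × ℂ => I * y.1) x := by fun_prop
    exact (ContinuousAt.comp (f := fun y : ℂ × ℂ => I * y.1) (g := arg) h4 h5).abs
  have c2 : ContinuousAt (fun y : ℂ × ℂ => y.1) x := continuous_fst.continuousAt
  have c3 : ContinuousAt (fun y : ℂ × ℂ => (fc p b₁ c₁ y, y.2)) x :=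
    (fc_an h2 ha).continuousAt.prodMk continuous_snd.continuousAt
  filter_upwards [c1.eventually (gt_mem_nhds h1), c2.eventually_ne h2,
    c3.eventually ((isOpen_Gc p L L').mem_nhds h3)] with y hy1 hy2 hy3
  exact ⟨hy1, hy2, hy3⟩

/-- Proof. `fc_re`, `fc_im`: `Re f + |Im f| ≤ log ‖θ‖ + (1 + p) Re ζ - log ‖c₁‖ + π + δ + |be ζ|`; `ζ ↦ (1 + p) Re ζ`, `be`
are bounded on a ball; `log ‖θ‖ → - ∞` for `θ → 0`. -/
theorem Oc_near (hc : c₁ ≠ 0) {δ L L' : ℝ} (ζ₀ : ℂ) : ∃ e : ℝ, 0 < e ∧ ∀ ζ ∈ ball ζ₀ 1, ∀ θ : ℂ,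
    θ ≠ 0 → ‖θ‖ < e → |arg (I * θ)| < Real.pi / 2 + δ → (θ, ζ) ∈ Oc p b₁ c₁ δ L L' := by
  obtain ⟨B, hB⟩ : ∃ B, B = |1 + p| * (‖ζ₀‖ + 1) := ⟨_, rfl⟩
  obtain ⟨M, hM⟩ : ∃ M, M = min (L + Real.log ‖c₁‖ - 2 * B - |b₁| - 3 / 2 * Real.pi)
    (L' + Real.log ‖c₁‖) := ⟨_, rfl⟩
  refine ⟨Real.exp M, Real.exp_pos M, fun ζ hζ θ hθ0 hθ ha => ⟨ha, hθ0, ?_⟩⟩
  have hn : 0 < ‖θ‖ := norm_pos_iff.2 hθ0
  have hl : Real.log ‖θ‖ < M := by
    rw [Real.log_lt_iff_lt_exp hn]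
    exact hθ
  have hM1 : M ≤ L + Real.log ‖c₁‖ - 2 * B - |b₁| - 3 / 2 * Real.pi := by
    rw [hM]
    exact min_le_left _ _
  have hM2 : M ≤ L' + Real.log ‖c₁‖ := by
    rw [hM]
    exact min_le_right _ _
  have hζn : ‖ζ‖ ≤ ‖ζ₀‖ + 1 := by
    rw [mem_ball_iff_norm] at hζ
    have := norm_sub_norm_le ζ ζ₀
    linarith
  have hre : |(1 + p) * ζ.re| ≤ B := by
    rw [abs_mul, hB]
    exact mul_le_mul_of_nonneg_left ((Complex.abs_re_le_norm ζ).trans hζn) (abs_nonneg _)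
  have him : |(1 + p) * ζ.im| ≤ B := by
    rw [abs_mul, hB]
    exact mul_le_mul_of_nonneg_left ((Complex.abs_im_le_norm ζ).trans hζn) (abs_nonneg _)
  have hbe : |be p b₁ ζ| ≤ B + |b₁| := by
    unfold be
    exact (abs_sub _ _).trans (by linarith)
  have hpi := Real.pi_pos
  have h1 : |(fc p b₁ c₁ (θ, ζ)).im| ≤ 3 / 2 * Real.pi + B + |b₁| := by
    rw [fc_im]
    have e1 := abs_add_le (arg (I * θ) - Real.pi / 2) (be p b₁ ζ)
    have e2 := abs_sub (arg (I * θ)) (Real.pi / 2)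
    have e3 := abs_arg_le_pi (I * θ)
    rw [abs_of_pos (by linarith : 0 < Real.pi / 2)] at e2
    show |arg (I * θ) - Real.pi / 2 + be p b₁ ζ| ≤ _
    linarith
  have h2 : (fc p b₁ c₁ (θ, ζ)).re = Real.log ‖θ‖ + (1 + p) * ζ.re - Real.log ‖c₁‖ := fc_re
  refine ⟨?_, ?_⟩
  · show (fc p b₁ c₁ (θ, ζ)).re + |(fc p b₁ c₁ (θ, ζ)).im| < L
    have h3 := le_abs_self ((1 + p) * ζ.re)
    rw [h2]
    linarith
  · show (fc p b₁ c₁ (θ, ζ)).re < L' + (1 + p) * ζ.re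
    rw [h2]
    linarith

/-- `Im θ < d |Re θ|` in terms of the argument. Proof. `I θ = - Im θ + i Re θ`. If `Im θ < 0` its real part is positive:
`|arg| < π / 2`. If `0 ≤ Im θ < d |Re θ|`: `|arg (I θ)| = π / 2 + arctan (Im θ / |Re θ|) ≤ π / 2 + Im θ / |Re θ| < π / 2 + d`
(e.g. `|arg (I θ)| = arccos (Re (I θ) / ‖θ‖)`, or `arg` of a number with negative real part). -/
theorem arg_lt_of_im {θ : ℂ} {d : ℝ} (hd : 0 < d) (hd1 : d ≤ 1) (h : θ.im < d * |θ.re|) :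
    |arg (I * θ)| < Real.pi / 2 + d ∧ θ ≠ 0 := by
  have hθ0 : θ ≠ 0 := by
    rintro rfl
    simp at h
  refine ⟨?_, hθ0⟩
  have hpi := Real.pi_pos
  have hz0 : I * θ ≠ 0 := mul_ne_zero I_ne_zero hθ0
  by_contra hcon
  push Not at hcon
  have hn : 0 < ‖I * θ‖ := norm_pos_iff.2 hz0
  have hre : ‖I * θ‖ * Real.cos |arg (I * θ)| = -θ.im := by
    rw [Real.cos_abs, Complex.norm_mul_cos_arg]
    simp
  have him : ‖I * θ‖ * Real.sin |arg (I * θ)| = |θ.re| := by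
    rw [← Real.abs_sin_eq_sin_abs_of_abs_le_pi (abs_arg_le_pi _)]
    nth_rewrite 1 [← abs_of_pos hn]
    rw [← abs_mul, Complex.norm_mul_sin_arg]
    simp
  obtain ⟨β, hβ⟩ : ∃ β, β = |arg (I * θ)| - Real.pi / 2 := ⟨_, rfl⟩
  have hβ' : |arg (I * θ)| = β + Real.pi / 2 := by
    rw [hβ]
    ring
  have hβ1 : d ≤ β := by linarith
  have hβ2 : β ≤ Real.pi / 2 := by
    have := abs_arg_le_pi (I * θ)
    linarith
  rw [hβ', Real.cos_add_pi_div_two] at hre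
  rw [hβ', Real.sin_add_pi_div_two] at him
  rw [← him] at h
  have h1 : θ.im = ‖I * θ‖ * Real.sin β := by linarith
  rw [h1] at h
  have h2 : Real.sin β < d * Real.cos β := by
    refine lt_of_mul_lt_mul_left ?_ hn.le
    linarith
  rcases hβ2.eq_or_lt with h3 | h3
  · rw [h3, Real.sin_pi_div_two, Real.cos_pi_div_two] at h2
    linarith
  · have hβ0 : 0 < β := by linarith
    have hcos : 0 < Real.cos β := Real.cos_pos_of_mem_Ioo ⟨by linarith, h3⟩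
    have h4 := Real.lt_tan hβ0 h3
    rw [Real.tan_eq_sin_div_cos, lt_div_iff₀ hcos] at h4
    have h5 := mul_le_mul_of_nonneg_right hβ1 hcos.le
    linarith

/-- THE POINT `Z` SEEN FROM THE TIP. Proof. For `0 < s` small and `U → - ∞` the values `wT (U + i (W - s), ζ)` tend to
`E0 exp ((1 + p) ζ) / c₁ (0 - θt ζ)` (`TT.strip`, `TZ_int`, as in G3c), and their norms are `≥ m` by `wT_lower`
(`d = 1 / (40 (1 + p))`, `U ≤ U0 - d`). -/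
theorem wZ_lower (h : Sh k V Y) (hk : 1 ≤ k) (hκ : Kap p X₀ η c₁ κ) : ∃ m : ℝ, 0 < m ∧
    ∀ (R₀ : ℝ) (T : ℂ × ℂ → ℂ) (θZ θt : ℂ → ℂ) (Ct : ℝ), TT k X₀ R₀ κ Y T θZ →
      U0 + 1 - R₀ < X₀ → Tip k p R₀ T θt Ct → ∀ ζ : ℂ, R₀ < ζ.re →
        m ≤ ‖E0 k p * cexp ((1 + p) * ζ) / c₁ * (0 - θt ζ)‖ := by
  have hp := hκ.p_pos
  have hp1 : 0 < 1 + p := by linarith
  obtain ⟨d, hd⟩ : ∃ d, d = 1 / (40 * (1 + p)) := ⟨_, rfl⟩
  have hd0 : 0 < d := by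
    rw [hd]
    positivity
  have hd1 : (1 + p) * d = 1 / 40 := by
    rw [hd]
    field_simp
  obtain ⟨m, hm, hlow⟩ := wT_lower h hk hκ hd0 (by linarith)
  refine ⟨m, hm, fun R₀ T θZ θt Ct hT hR ht ζ hζ => ?_⟩
  refine le_of_forall_pos_le_add fun ε hε => ?_
  have hW := Wk_ge hk
  have hpi := Real.pi_gt_three
  obtain ⟨U, hU1, hU2⟩ : ∃ U : ℝ, U ≤ U0 - d ∧ Real.exp ((1 + p) * U) ≤ ε := by
    refine ⟨min (U0 - d) (Real.log ε / (1 + p)), min_le_left _ _, ?_⟩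
    have h1 := mul_le_mul_of_nonneg_left (min_le_right (U0 - d) (Real.log ε / (1 + p))) hp1.le
    rw [mul_div_cancel₀ _ hp1.ne'] at h1
    have h2 := Real.exp_le_exp.2 h1
    rwa [Real.exp_log hε] at h2
  have hd2 : d ≤ 1 / 40 := by nlinarith
  have hX : |(⟨U, Wk k - d⟩ : ℂ).im| < Wk k := by
    show |Wk k - d| < Wk k
    rw [abs_of_pos (by linarith)]
    linarith
  have hXX : ((⟨U, Wk k - d⟩ : ℂ) - ζ).re < X₀ := by
    rw [sub_re]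
    show U - ζ.re < X₀
    linarith
  have h1 := hlow R₀ T θZ θt Ct hT hR ht ⟨U, Wk k - d⟩ ζ (Or.inl hX) (by
      show U ≤ U0 + 1
      linarith) (by
      show |(1 + p) * (Wk k - d - Wk k)| ≤ 1 / 20
      rw [show (1 + p) * (Wk k - d - Wk k) = -((1 + p) * d) by ring, hd1, abs_neg]
      norm_num) hζ (by
      have h2 := Complex.abs_re_le_norm ((⟨U, Wk k - d⟩ : ℂ) - tip k)
      rw [sub_re, v6b_tip_re] at h2
      have h3 : |(⟨U, Wk k - d⟩ : ℂ).re - U0| = U0 - U := by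
        show |U - U0| = U0 - U
        rw [abs_of_nonpos (by linarith)]
        ring
      rw [h3] at h2
      linarith)
  have h2 := f3c_TZ (k := k) hκ (h.LD_strip hk) (x := ((⟨U, Wk k - d⟩ : ℂ), ζ)) ⟨hX, hXX⟩
  have h3 : wT k p c₁ T θt ((⟨U, Wk k - d⟩ : ℂ), ζ) =
      E0 k p * cexp ((1 + p) * ζ) / c₁ * (0 - θt ζ) +
      E0 k p * cexp ((1 + p) * ζ) / c₁ * TZ κ Y ((⟨U, Wk k - d⟩ : ℂ), ζ) := by
    unfold wT
    rw [hT.strip ((⟨U, Wk k - d⟩ : ℂ), ζ) hX hXX]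
    ring
  have h4 := norm_add_le (E0 k p * cexp ((1 + p) * ζ) / c₁ * (0 - θt ζ))
    (E0 k p * cexp ((1 + p) * ζ) / c₁ * TZ κ Y ((⟨U, Wk k - d⟩ : ℂ), ζ))
  rw [← h3] at h4
  have h5 : ‖E0 k p * cexp ((1 + p) * ζ) / c₁ * TZ κ Y ((⟨U, Wk k - d⟩ : ℂ), ζ)‖ ≤
      Real.exp ((1 + p) * U) := h2
  linarith

/-- `Z` IS STRICTLY INSIDE THE CONE ABOVE THE TIP.

Proof. Suppose `x` is in both. `w₀ := E0 exp ((1 + p) ζ) / c₁ (0 - θt ζ) ∈ Cn`, `‖w₀‖ ≥ m`, `Im w₀ ≥ ‖w₀‖ / 2 ≥ m / 2` (`Cn_norm`).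
`E0 exp ((1 + p) ζ) / c₁ = M exp (i τ)`, `M > 0`, `τ = be - bt`, `|τ| < 1 / 25`, and `u := M (θ - θt) = exp (- i τ) w₀ + M θ`,
`M ‖θ‖ = exp (Re f) < exp L` (`fc_re`; `Re f ≤ Re f + |Im f| < L`). `Im (exp (- i τ) w₀) ≥ (cos τ - 3 / 2 |sin τ|) Im w₀`,
`|Re (exp (- i τ) w₀)| ≤ (3 / 2 cos τ + |sin τ|) Im w₀`, so
`Im u - 3 / 5 |Re u| ≥ (cos τ / 10 - 21 / 10 |sin τ|) Im w₀ - 8 / 5 exp L ≥ m / 150 - 8 / 5 exp L > 0`, contradiction to
`x ∈ O3`. -/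
theorem O3_Oc (hc : c₁ ≠ 0) (hb : c₁ = ‖c₁‖ * cexp (b₁ * I)) {E₃ R m δ L L' : ℝ} {θt : ℂ → ℂ}
    (hm : 0 < m) (hL : Real.exp L ≤ m / 300)
    (hw : ∀ ζ : ℂ, R < ζ.re → E0 k p * cexp ((1 + p) * ζ) / c₁ * (0 - θt ζ) ∈ Cn ∧
      m ≤ ‖E0 k p * cexp ((1 + p) * ζ) / c₁ * (0 - θt ζ)‖) :
    Disjoint (O3 k p b₁ E₃ R θt) (Oc p b₁ c₁ δ L L') := by
  rw [Set.disjoint_left]
  rintro x ⟨-, h2, h3, h4⟩ ⟨-, hx0, h5, -⟩
  have hn := norm_pos_iff.2 hc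
  have hx : 0 < ‖x.1‖ := norm_pos_iff.2 hx0
  obtain ⟨hw1, hw2⟩ := hw x.2 h4
  have hw3 := Cn_norm hw1
  obtain ⟨w, hwd⟩ : ∃ w, w = E0 k p * cexp ((1 + p) * x.2) / c₁ * (0 - θt x.2) := ⟨_, rfl⟩
  rw [← hwd] at hw1 hw2 hw3
  have hw1' : |w.re| ≤ 3 / 2 * w.im := hw1
  obtain ⟨τ, hτ⟩ : ∃ τ, τ = be p b₁ x.2 - bt k p := ⟨_, rfl⟩
  obtain ⟨M, hM⟩ : ∃ M, M = Real.exp ((1 + p) * x.2.re) / ‖c₁‖ := ⟨_, rfl⟩
  have hM0 : 0 < M := by
    rw [hM]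
    positivity
  rw [f3c_fac k hc hb, ← hτ, ← hM] at hwd
  rw [← hτ] at h3
  -- the scaled position of the singular point
  obtain ⟨a, ha⟩ : ∃ a : ℂ, a = (M : ℂ) * (0 - θt x.2) := ⟨_, rfl⟩
  have hwa : w = cexp ((τ : ℂ) * I) * a := by
    rw [hwd, ha]
    ring
  have ha2 : a = cexp (((-τ : ℝ) : ℂ) * I) * w := by
    rw [hwa, ← mul_assoc, ← Complex.exp_add]
    have e1 : ((-τ : ℝ) : ℂ) * I + (τ : ℂ) * I = 0 := by
      push_cast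
      ring
    rw [e1, Complex.exp_zero, one_mul]
  have hare : a.re = Real.cos τ * w.re + Real.sin τ * w.im := by
    rw [ha2, mul_re, Complex.exp_ofReal_mul_I_re, Complex.exp_ofReal_mul_I_im, Real.cos_neg,
      Real.sin_neg]
    ring
  have haim : a.im = Real.cos τ * w.im - Real.sin τ * w.re := by
    rw [ha2, mul_im, Complex.exp_ofReal_mul_I_re, Complex.exp_ofReal_mul_I_im, Real.cos_neg,
      Real.sin_neg]
    ring
  have hs : |Real.sin τ| ≤ 1 / 25 := Real.abs_sin_le_abs.trans h3.le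
  have hcs : 999 / 1000 ≤ Real.cos τ := by
    have c1 := Real.one_sub_sq_div_two_le_cos (x := τ)
    have c2 : τ ^ 2 ≤ (1 / 25) ^ 2 := by
      rw [← sq_abs]
      exact pow_le_pow_left₀ (abs_nonneg _) h3.le 2
    linarith
  have hcs1 : Real.cos τ ≤ 1 := Real.cos_le_one τ
  have hwi : m / 2 ≤ w.im := by linarith
  have hwi0 : 0 ≤ w.im := by linarith
  have f1 : |Real.sin τ * w.re| ≤ 1 / 25 * (3 / 2 * w.im) := by
    rw [abs_mul]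
    exact mul_le_mul hs hw1' (abs_nonneg _) (by norm_num)
  have f2 : |Real.sin τ * w.im| ≤ 1 / 25 * w.im := by
    rw [abs_mul, abs_of_nonneg hwi0]
    exact mul_le_mul_of_nonneg_right hs hwi0
  have f3 : |Real.cos τ * w.re| ≤ Real.cos τ * (3 / 2 * w.im) := by
    rw [abs_mul, abs_of_pos (by linarith : 0 < Real.cos τ)]
    exact mul_le_mul_of_nonneg_left hw1' (by linarith)
  have f4 : |a.re| ≤ Real.cos τ * (3 / 2 * w.im) + 1 / 25 * w.im := by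
    rw [hare]
    exact (abs_add_le _ _).trans (add_le_add f3 f2)
  have f5 : Real.cos τ * w.im - 1 / 25 * (3 / 2 * w.im) ≤ a.im := by
    rw [haim]
    have := le_abs_self (Real.sin τ * w.re)
    linarith
  have f6 : 999 / 1000 * w.im ≤ Real.cos τ * w.im := mul_le_mul_of_nonneg_right hcs hwi0
  -- the scaled time
  have g1 : (fc p b₁ c₁ x).re < L := by
    have h6 : (fc p b₁ c₁ x).re + |(fc p b₁ c₁ x).im| < L := h5
    have := abs_nonneg (fc p b₁ c₁ x).im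
    linarith
  have g2 : M * ‖x.1‖ = Real.exp (fc p b₁ c₁ x).re := by
    rw [fc_re, Real.exp_sub, Real.exp_add, Real.exp_log hx, Real.exp_log hn, hM]
    ring
  have g3 : M * ‖x.1‖ < Real.exp L := by
    rw [g2]
    exact Real.exp_lt_exp.2 g1
  have g4 : ‖(M : ℂ) * x.1‖ = M * ‖x.1‖ := by
    rw [norm_mul, norm_real, Real.norm_of_nonneg hM0.le]
  have g5 := (Complex.abs_re_le_norm ((M : ℂ) * x.1)).trans_eq g4
  have g6 := (Complex.abs_im_le_norm ((M : ℂ) * x.1)).trans_eq g4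
  have g7 : (M : ℂ) * (x.1 - θt x.2) = (M : ℂ) * x.1 + a := by
    rw [ha]
    ring
  have g8 : M * (x.1 - θt x.2).im = ((M : ℂ) * x.1).im + a.im := by
    rw [← im_ofReal_mul, g7, add_im]
  have g9 : M * (x.1 - θt x.2).re = ((M : ℂ) * x.1).re + a.re := by
    rw [← re_ofReal_mul, g7, add_re]
  have g10 : M * (x.1 - θt x.2).im < 3 / 5 * |M * (x.1 - θt x.2).re| := by
    rw [abs_mul, abs_of_pos hM0]
    have := mul_lt_mul_of_pos_left h2 hM0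
    linarith
  rw [g8, g9] at g10
  have g11 := abs_add_le ((M : ℂ) * x.1).re a.re
  have g12 := (abs_le.1 g6).1
  linarith

/-- Proof. `fc_re`: `Re f > log (E / ‖c₁‖) ≥ L` on `O1`. -/
theorem O1_Oc (hc : c₁ ≠ 0) {A δ E rr R L L' : ℝ} (hE : ‖c₁‖ * Real.exp L ≤ E) :
    Disjoint (O1 p b₁ A δ E rr R) (Oc p b₁ c₁ δ L L') := by
  rw [Set.disjoint_left]
  rintro x ⟨-, h2, -, -, -⟩ ⟨-, hx0, h5, -⟩
  have hn := norm_pos_iff.2 hc
  have h6 : (fc p b₁ c₁ x).re + |(fc p b₁ c₁ x).im| < L := h5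
  have h7 := abs_nonneg (fc p b₁ c₁ x).im
  rw [fc_re] at h6
  have e1 : ‖c₁‖ * Real.exp L * Real.exp (-((1 + p) * x.2.re)) < ‖x.1‖ :=
    lt_of_le_of_lt (mul_le_mul_of_nonneg_right hE (Real.exp_pos _).le) h2
  have e2 := Real.log_lt_log (by positivity) e1
  rw [Real.log_mul (by positivity) (by positivity), Real.log_mul hn.ne' (by positivity),
    Real.log_exp, Real.log_exp] at e2
  linarith

/-- Proof. `|be - π / 2| < B` and `|be - bt| < 1 / 25` are incompatible. -/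
theorem O2_O3 {B δ rr E₃ R : ℝ} {θt : ℂ → ℂ} (hB : Real.pi / 2 + B + 1 / 25 ≤ bt k p) :
    Disjoint (O2 p b₁ B δ rr) (O3 k p b₁ E₃ R θt) := by
  rw [Set.disjoint_left]
  rintro x ⟨-, -, -, h2⟩ ⟨-, -, h3, -⟩
  rw [abs_lt] at h2 h3
  linarith [h2.2, h3.1]

end Pool.Agent.MP_ae5b4e_an_AZ
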