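import Pool.Agent.Lib.MP_ae5b4e_an_AZ.F3b

/-! # AZ: glueing of the sections (g1), (g2), (g4) -/

noncomputable section

namespace Pool.Agent.MP_ae5b4e_an_AZ

open Complex Set Filter Topology Metric

variable {k : ℕ} {V Y : ℂ → ℂ} {p X₀ η : ℝ} {c₁ : ℂ} {κ : ℂ → ℂ} {b₁ : ℝ}

private theorem f4b_cast (p : ℝ) : ((1 : ℂ) + p) = ((1 + p : ℝ) : ℂ) := by push_cast; rfl

private theorem f4b_re (p : ℝ) (J : ℂ × ℂ → ℂ) (x : ℂ × ℂ) :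
    (fJ p J x).re = (1 + p) * x.1.re + Real.log ‖J x‖ := by
  unfold fJ
  rw [add_re, log_re, f4b_cast, re_ofReal_mul]

private theorem f4b_im (p : ℝ) (J : ℂ × ℂ → ℂ) (x : ℂ × ℂ) :
    (fJ p J x).im = (1 + p) * x.1.im + arg (J x) := by
  unfold fJ
  rw [add_im, log_im, f4b_cast, im_ofReal_mul]

private theorem f4b_Y (h : Sh k V Y) {z : ℂ} (hz : z ∈ Xk k) : Y z ≠ 0 := by
  intro h0
  have h1 := (h.re_mem hz).1
  rw [h0, zero_re] at h1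
  have hk' : (0 : ℝ) ≤ k := Nat.cast_nonneg k
  have := mul_nonneg hk' Real.pi_pos.le
  linarith

private theorem f4b_κ (hκ : Kap p X₀ η c₁ κ) {z : ℂ} (hz : z.re < X₀) : κ z ≠ 0 := by
  intro h0
  have h1 := hκ.bd z hz
  rw [h0, zero_sub, norm_neg] at h1
  have h2 : 0 < ‖c₁ * cexp ((1 + p) * z)‖ :=
    norm_pos_iff.2 (mul_ne_zero hκ.c₁_ne (Complex.exp_ne_zero _))
  have h3 := hκ.η_le
  have h4 : η * ‖c₁ * cexp ((1 + p) * z)‖ ≤ 1 / 20 * ‖c₁ * cexp ((1 + p) * z)‖ :=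
    mul_le_mul_of_nonneg_right h3 h2.le
  linarith

/-- bounds of `J` -/
private theorem f4b_J (h : Sh k V Y) (hk : 1 ≤ k) (hκ : Kap p X₀ η c₁ κ) {V1 c C X₁ : ℝ}
    (h1 : V1 < Wk k) (hc : 0 < c) (hη : η ≤ c / 2)
    (hb : ∀ z : ℂ, |z.im| ≤ V1 → c * ‖Y z‖ ≤ (Y z).re ∧ ‖Y z‖ ≤ C) (hX : X₁ < X₀)
    {x : ℂ × ℂ} (hx : x ∈ P2 V1 X₁) : x ∈ DZ {z : ℂ | |z.im| < Wk k} X₀ ∧
    0 < c / (2 * C * (1 + p)) ∧ c / (2 * C * (1 + p)) ≤ (JZ p c₁ κ Y x).re := by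
  have hp := hκ.p_pos
  have hY := h.LD_strip hk
  obtain ⟨hx1, hx2⟩ := hx
  have hC : 0 < C := by
    have h2 := hb x.1 hx1.le
    have h3 := hY.re x.1 (hx1.trans h1)
    have h4 := re_le_norm (Y x.1)
    have h5 := Real.pi_pos
    linarith
  have hxD : x ∈ DZ {z : ℂ | |z.im| < Wk k} X₀ := ⟨hx1.trans h1, hx2.trans hX⟩
  refine ⟨hxD, by positivity, (JZ_bd hκ hY hxD hc hη fun t ht => hb _ ?_).1⟩
  rw [sub_im, ofReal_im, sub_zero]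
  exact hx1.le

private theorem f4b_fJ (p : ℝ) {J J' : ℂ × ℂ → ℂ} {x : ℂ × ℂ} (h : J x = J' x) :
    fJ p J x = fJ p J' x := by
  unfold fJ
  rw [h]

private theorem f4b_cancel (p : ℝ) {c₁ ζ a b y : ℂ} (h1 : c₁ * cexp y = cexp ((1 + p) * ζ) * a)
    (h2 : c₁ * cexp y = cexp ((1 + p) * ζ) * b) : a = b := by
  rw [h1] at h2
  exact mul_left_cancel₀ (Complex.exp_ne_zero _) h2

/-- (g2) FROM (g1).

Proof. Base point: `ζ := t` real and large, `f := L₁ + 1` real: `y := (f, ζ)` is in `G1` (`|0| < A₁`, `f < L₂ + (1 + p) t`,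
`R < t`) and in `G2` (`0 < B`, `f < L + (1 + p) t`). `z := g₁ y`: `Im (fJ) = 0 = (1 + p) Im z + arg J`, so
`|Im z| ≤ 1 / (4 (1 + p)) ≤ 1 / 4 < V1`; `Re (z - ζ) < X₁`: `x₀ := (z, ζ) ∈ P2 V1 X₁`. As `|Im z| < W`, `JT x₀ = JZ x₀`
(`TT.strip`), so `fJ p (JZ ..) x₀ = f`. `sec_G2` with this base point. EQUALITY on `G1 ∩ G2` (convex): `pair_eqOn` (`F = T`,
`P = DT k X₀ R₀`, derivative `κ / Y ≠ 0`): both satisfy `c₁ exp y.1 = exp ((1 + p) y.2) T` (`fJT_der`, `fJ_der`;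
`0 < Re JZ` from `JZ_bd` with `hb`), `T = TZ` at `g₂` (`|Im g₂| < V1 < W`). -/
theorem sec12 (h : Sh k V Y) (hk : 1 ≤ k) (hκ : Kap p X₀ η c₁ κ) {V1 c C X₁ : ℝ}
    (h0 : 1 / 4 < V1) (h1 : V1 < Wk k) (hc : 0 < c) (hη : η ≤ c / 2)
    (hb : ∀ z : ℂ, |z.im| ≤ V1 → c * ‖Y z‖ ≤ (Y z).re ∧ ‖Y z‖ ≤ C) (hX : X₁ < X₀)
    {B L : ℝ} (hB0 : 0 < B) (hB : B = (1 + p) * V1 - Real.pi / 2)
    (hL : L = (1 + p) * X₁ + Real.log (c / (2 * C * (1 + p)))) {R₀ : ℝ} {T : ℂ × ℂ → ℂ}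
    {θZ : ℂ → ℂ} (hT : TT k X₀ R₀ κ Y T θZ) {A₁ U₂ L₁ L₂ R : ℝ} (hR' : R₀ ≤ R) (hA₁ : 0 < A₁)
    (hJ : ∀ x : ℂ × ℂ, U₂ ≤ x.1.re → |x.1.im| ≤ (A₁ + 1) / (1 + p) → (x.1 - x.2).re ≤ X₁ →
      R < x.2.re → x ∈ DT k X₀ R₀ ∧ 0 < (JT p c₁ T x).re ∧ |arg (JT p c₁ T x)| ≤ 1 / 4)
    {g₁ : ℂ × ℂ → ℂ} (hg₁a : AnalyticOnNhd ℂ g₁ (G1 p A₁ L₁ L₂ R))
    (hg₁ : ∀ y ∈ G1 p A₁ L₁ L₂ R, (g₁ y, y.2) ∈ P1 U₂ ((A₁ + 1) / (1 + p)) X₁ R ∧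
      fJ p (JT p c₁ T) (g₁ y, y.2) = y.1) :
    ∃ g₂ : ℂ × ℂ → ℂ, AnalyticOnNhd ℂ g₂ (G2 p B L) ∧
      (∀ y ∈ G2 p B L, (g₂ y, y.2) ∈ P2 V1 X₁ ∧ fJ p (JZ p c₁ κ Y) (g₂ y, y.2) = y.1) ∧
      ∀ y ∈ G1 p A₁ L₁ L₂ R ∩ G2 p B L, g₁ y = g₂ y := by
  have hp := hκ.p_pos
  have hY := h.LD_strip hk
  have hm : ∀ y ∈ G1 p A₁ L₁ L₂ R, (g₁ y, y.2) ∈ DT k X₀ R₀ ∧
      0 < (JT p c₁ T (g₁ y, y.2)).re ∧ |arg (JT p c₁ T (g₁ y, y.2))| ≤ 1 / 4 := by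
    intro y hy
    obtain ⟨a1, a2, a3, a4⟩ := (hg₁ y hy).1
    exact hJ (g₁ y, y.2) a1.le a2.le a3.le a4
  obtain ⟨t, ht⟩ : ∃ t : ℝ, t = |R| + |L₁| + |L₂| + |L| + 2 := ⟨_, rfl⟩
  have ht0 : 0 ≤ t := by
    rw [ht]
    positivity
  have ht1 : t ≤ (1 + p) * t := by nlinarith
  have a1 := le_abs_self R
  have a2 := le_abs_self L₁
  have a3 := neg_abs_le L₂
  have a4 := neg_abs_le L
  have a5 := abs_nonneg R
  have a6 := abs_nonneg L₁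
  have a7 := abs_nonneg L₂
  have a8 := abs_nonneg L
  have hy1 : (((L₁ + 1 : ℝ) : ℂ), (t : ℂ)) ∈ G1 p A₁ L₁ L₂ R := by
    refine ⟨?_, ?_, ?_, ?_⟩
    · show L₁ < ((L₁ + 1 : ℝ) : ℂ).re
      rw [ofReal_re]
      linarith
    · show |((L₁ + 1 : ℝ) : ℂ).im| < A₁
      rw [ofReal_im, abs_zero]
      exact hA₁
    · show ((L₁ + 1 : ℝ) : ℂ).re < L₂ + (1 + p) * (t : ℂ).re
      rw [ofReal_re, ofReal_re]
      linarith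
    · show R < (t : ℂ).re
      rw [ofReal_re]
      linarith
  have hy2 : (((L₁ + 1 : ℝ) : ℂ), (t : ℂ)) ∈ G2 p B L := by
    refine ⟨?_, ?_⟩
    · show |((L₁ + 1 : ℝ) : ℂ).im| < B
      rw [ofReal_im, abs_zero]
      exact hB0
    · show ((L₁ + 1 : ℝ) : ℂ).re < L + (1 + p) * (t : ℂ).re
      rw [ofReal_re, ofReal_re]
      linarith
  obtain ⟨y, hy⟩ : ∃ y : ℂ × ℂ, y = (((L₁ + 1 : ℝ) : ℂ), (t : ℂ)) := ⟨_, rfl⟩
  have hyim : y.1.im = 0 := by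
    rw [hy]
    exact ofReal_im _
  rw [← hy] at hy1 hy2
  obtain ⟨b1, b2, b3⟩ := hm y hy1
  obtain ⟨b4, b5⟩ := hg₁ y hy1
  have him : |(g₁ y).im| < V1 := by
    have c1 : (1 + p) * (g₁ y).im + arg (JT p c₁ T (g₁ y, y.2)) = 0 := by
      have c2 := f4b_im p (JT p c₁ T) (g₁ y, y.2)
      rw [b5, hyim] at c2
      exact c2.symm
    have c3 : (1 + p) * |(g₁ y).im| ≤ 1 / 4 := by
      have c4 : (1 + p) * (g₁ y).im = -arg (JT p c₁ T (g₁ y, y.2)) := by linarith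
      have c5 : |(1 + p) * (g₁ y).im| ≤ 1 / 4 := by
        rw [c4, abs_neg]
        exact b3
      rwa [abs_mul, abs_of_pos (by linarith : 0 < 1 + p)] at c5
    have c6 : 0 ≤ p * |(g₁ y).im| := mul_nonneg hp.le (abs_nonneg _)
    linarith
  have hx0 : (g₁ y, y.2) ∈ P2 V1 X₁ := ⟨him, b4.2.2.1⟩
  have hTS : ∀ x : ℂ × ℂ, x ∈ P2 V1 X₁ → T x = TZ κ Y x := fun x hx =>
    hT.strip x (hx.1.trans h1) (hx.2.trans hX)
  have hJJ : JZ p c₁ κ Y (g₁ y, y.2) = JT p c₁ T (g₁ y, y.2) := by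
    unfold JZ JT
    rw [hTS _ hx0]
  have hf0 : fJ p (JZ p c₁ κ Y) (g₁ y, y.2) = y.1 := by
    rw [f4b_fJ p hJJ, b5]
  obtain ⟨g₂, e1, e2, e3⟩ := sec_G2 h hk hκ (by linarith) h1 hc hη hb hX hB hL hx0 (by
    rw [hf0]
    exact hy2)
  rw [hf0] at e3
  refine ⟨g₂, e1, e2, ?_⟩
  refine pair_eqOn (A := ℂ × ℂ) (isOpen_DT k X₀ R₀) hT.an
    (d := fun x => κ (x.1 - x.2) / Y x.1) (fun x hx => ⟨hT.der x hx, ?_⟩)
    (S := G1 p A₁ L₁ L₂ R ∩ G2 p B L)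
    ((convex_G1 _ _ _ _ _).inter (convex_G2 _ _ _)).isPreconnected
    (ζ := fun y => y.2) (hg₁a.continuousOn.mono inter_subset_left)
    (e1.continuousOn.mono inter_subset_right) continuousOn_snd
    (fun a ha => (hm a ha.1).1) (fun a ha => ?_) (fun a ha => ?_) ⟨hy1, hy2⟩ e3.symm
  · exact div_ne_zero (f4b_κ hκ hx.2.1) (f4b_Y h hx.1)
  · obtain ⟨f1, f2⟩ := (e2 a ha.2).1
    exact ⟨Or.inl (f1.trans h1), f2.trans hX, Or.inl (f1.trans h1)⟩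
  · obtain ⟨f1, f2⟩ := e2 a ha.2
    obtain ⟨f3, f4, f5⟩ := f4b_J h hk hκ h1 hc hη hb hX f1
    have f6 := (fJ_der hκ hY f3 (f4.trans_le f5)).2.2.2
    rw [f2, ← hTS _ f1] at f6
    obtain ⟨f7, f8⟩ := hg₁ a ha.1
    obtain ⟨f9, f10, -⟩ := hm a ha.1
    have f11 := (fJT_der hκ hT f9 f10 (f4b_Y h f9.1)).2.2.2
    rw [f8] at f11
    exact f4b_cancel p f11 f6

/-- `TZ` only depends on `Y` on the left half line. Proof. `Sh0.eq`; `Im (z - t) = Im z`. -/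
theorem TZ_strip {A R : ℝ} {V' Y' : ℂ → ℂ} (h0 : Sh0 k A R V Y V' Y') {x : ℂ × ℂ}
    (hx : |x.1.im| < Wk k) : TZ κ Y' x = TZ κ Y x ∧ JZ p c₁ κ Y' x = JZ p c₁ κ Y x ∧
      fJ p (JZ p c₁ κ Y') x = fJ p (JZ p c₁ κ Y) x := by
  have h1 : TZ κ Y' x = TZ κ Y x := by
    unfold TZ
    refine MeasureTheory.setIntegral_congr_fun measurableSet_Ioi fun t _ => ?_
    have h2 : |(x.1 - (t : ℂ)).im| < Wk k := by
      rw [sub_im, ofReal_im, sub_zero]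
      exact hx
    show κ (x.1 - x.2 - t) / Y' (x.1 - t) = κ (x.1 - x.2 - t) / Y (x.1 - t)
    rw [(h0.eq _ h2).2]
  have h2 : JZ p c₁ κ Y' x = JZ p c₁ κ Y x := by
    unfold JZ
    rw [h1]
  exact ⟨h1, h2, f4b_fJ p h2⟩

/-- the near sheet is invariant under translations to the left. Proof. `Sh0.prop`, `k π ≥ π`. -/
theorem LD_X0 (hk : 1 ≤ k) {A R : ℝ} {V' Y' : ℂ → ℂ} (h0 : Sh0 k A R V Y V' Y') :
    LD (X0 k A R) Real.pi Y' := by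
  have hpi := Real.pi_pos
  have hk' : (1 : ℝ) ≤ k := by exact_mod_cast hk
  refine ⟨v6b_isOpen_X0 k A R, ?_, hpi, h0.Y_an, fun z hz => ?_⟩
  · intro z hz t ht
    rcases hz with h1 | ⟨h1, h2⟩
    · left
      show |(z - t).im| < Wk k
      rwa [sub_im, ofReal_im, sub_zero]
    · right
      constructor
      · show (z - t).re < -R
        rw [sub_re, ofReal_re]
        linarith
      · show |(z - t).im| < A
        rwa [sub_im, ofReal_im, sub_zero]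
  · have h1 := (h0.prop hz).2.1
    nlinarith

/-- (g4) FROM (g2).

Proof. Base point: `ζ := - R5 + 1` real, `f` real and very negative; `y := (f, ζ)` is in `G2` and in `G4`. `z := g₂ y`:
`(1 + p) Im z = - arg J`, `|arg J| < π / 2` (`0 < Re JZ`, `JZ_bd`), so `|Im z| < π / 2 / (1 + p) < (A + 1) / (1 + p)`; `(1 + p) Re z = f - log ‖J‖`,
`‖J‖ ≥ c / (2 C (1 + p))`, so `Re z < - R4` for `f` very negative: `x₀ := (z, ζ) ∈ P4`; `fJ p (JZ .. Y') x₀ = f` by `TZ_strip`.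
`hsec` gives `g₄`. EQUALITY on `G2 ∩ G4` (convex): `pair_eqOn` with `F = TZ κ Y'`, `P = DZ (X0 k Ax Rx) X₀` (open, `TZ_an`,
`TZ_der` with `LD_X0`, derivative `κ / Y' ≠ 0`): `(g₂ y, y.2) ∈ P` as `|Im g₂| < V1 < W`; `(g₄ y, y.2) ∈ P` as
`Re g₄ < - R4 < - Rx`, `|Im g₄| < Vm ≤ Ax`, `Re (g₄ - ζ) < - R4 + R5 < X₀`. Both satisfy
`c₁ exp y.1 = exp ((1 + p) y.2) TZ κ Y'` (`fJ_der`; `TZ_strip` at `g₂`). -/
theorem sec24 (h : Sh k V Y) (hk : 1 ≤ k) (hκ : Kap p X₀ η c₁ κ) {V1 c C X₁ : ℝ}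
    (h0 : 0 < V1) (h1 : V1 < Wk k) (hc : 0 < c) (hη : η ≤ c / 2)
    (hb : ∀ z : ℂ, |z.im| ≤ V1 → c * ‖Y z‖ ≤ (Y z).re ∧ ‖Y z‖ ≤ C) (hX : X₁ < X₀)
    {B L : ℝ} (hB0 : 0 < B) (hB : B = (1 + p) * V1 - Real.pi / 2)
    {g₂ : ℂ × ℂ → ℂ} (hg₂a : AnalyticOnNhd ℂ g₂ (G2 p B L))
    (hg₂ : ∀ y ∈ G2 p B L, (g₂ y, y.2) ∈ P2 V1 X₁ ∧ fJ p (JZ p c₁ κ Y) (g₂ y, y.2) = y.1)
    {A R5 R4 L₄ Rx Ax : ℝ} {V' Y' : ℂ → ℂ} (hA : 1 ≤ A) (hRx : Rx < R4)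
    (hAx : (A + 1) / (1 + p) ≤ Ax) (hs : Sh0 k Ax Rx V Y V' Y') (hR5 : R5 - R4 < X₀)
    (hJ : ∀ x ∈ P4 R4 ((A + 1) / (1 + p)) R5, 0 < (JZ p c₁ κ Y' x).re)
    (hsec : ∀ x₀ ∈ P4 R4 ((A + 1) / (1 + p)) R5, (fJ p (JZ p c₁ κ Y') x₀, x₀.2) ∈ G4 A L₄ R5 →
        ∃ g : ℂ × ℂ → ℂ, AnalyticOnNhd ℂ g (G4 A L₄ R5) ∧
          (∀ y ∈ G4 A L₄ R5, (g y, y.2) ∈ P4 R4 ((A + 1) / (1 + p)) R5 ∧
            fJ p (JZ p c₁ κ Y') (g y, y.2) = y.1) ∧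
          g (fJ p (JZ p c₁ κ Y') x₀, x₀.2) = x₀.1) :
    ∃ g₄ : ℂ × ℂ → ℂ, AnalyticOnNhd ℂ g₄ (G4 A L₄ R5) ∧
      (∀ y ∈ G4 A L₄ R5, (g₄ y, y.2) ∈ P4 R4 ((A + 1) / (1 + p)) R5 ∧
        fJ p (JZ p c₁ κ Y') (g₄ y, y.2) = y.1) ∧
      ∀ y ∈ G2 p B L ∩ G4 A L₄ R5, g₂ y = g₄ y := by
  have hp := hκ.p_pos
  have hpi := Real.pi_lt_four
  have hY := h.LD_strip hk
  have hY' := LD_X0 hk hs
  obtain ⟨f, hf⟩ : ∃ f : ℝ, f = min (min (L + (1 + p) * (-R5 + 1)) L₄)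
    (Real.log (c / (2 * C * (1 + p))) - (1 + p) * R4) - 1 := ⟨_, rfl⟩
  have hf1 : f < L + (1 + p) * (-R5 + 1) := by
    have a1 := (min_le_left (min (L + (1 + p) * (-R5 + 1)) L₄)
      (Real.log (c / (2 * C * (1 + p))) - (1 + p) * R4)).trans (min_le_left _ _)
    linarith
  have hf2 : f < L₄ := by
    have a1 := (min_le_left (min (L + (1 + p) * (-R5 + 1)) L₄)
      (Real.log (c / (2 * C * (1 + p))) - (1 + p) * R4)).trans (min_le_right _ _)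
    linarith
  have hf3 : f < Real.log (c / (2 * C * (1 + p))) - (1 + p) * R4 := by
    have a1 := min_le_right (min (L + (1 + p) * (-R5 + 1)) L₄)
      (Real.log (c / (2 * C * (1 + p))) - (1 + p) * R4)
    linarith
  obtain ⟨y, hy⟩ : ∃ y : ℂ × ℂ, y = ((f : ℂ), ((-R5 + 1 : ℝ) : ℂ)) := ⟨_, rfl⟩
  have hyim : y.1.im = 0 := by
    rw [hy]
    exact ofReal_im _
  have hyre : y.1.re = f := by
    rw [hy]
    exact ofReal_re _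
  have hy2re : y.2.re = -R5 + 1 := by
    rw [hy]
    exact ofReal_re _
  have hyG2 : y ∈ G2 p B L := by
    refine ⟨?_, ?_⟩
    · rw [hyim, abs_zero]
      exact hB0
    · rw [hyre, hy2re]
      exact hf1
  have hyG4 : y ∈ G4 A L₄ R5 := by
    refine ⟨?_, ?_, ?_⟩
    · rw [hyre]
      exact hf2
    · rw [hyim, abs_zero]
      linarith
    · rw [hy2re]
      linarith
  obtain ⟨b1, b2⟩ := hg₂ y hyG2
  obtain ⟨b3, b4, b5⟩ := f4b_J h hk hκ h1 hc hη hb hX b1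
  have hJ0 : 0 < (JZ p c₁ κ Y (g₂ y, y.2)).re := b4.trans_le b5
  have him : |(g₂ y).im| < (A + 1) / (1 + p) := by
    have c1 : (1 + p) * (g₂ y).im + arg (JZ p c₁ κ Y (g₂ y, y.2)) = 0 := by
      have c2 := f4b_im p (JZ p c₁ κ Y) (g₂ y, y.2)
      rw [b2, hyim] at c2
      exact c2.symm
    have c2 : |arg (JZ p c₁ κ Y (g₂ y, y.2))| < Real.pi / 2 :=
      abs_arg_lt_pi_div_two_iff.2 (Or.inl hJ0)
    have c4 : (1 + p) * (g₂ y).im = -arg (JZ p c₁ κ Y (g₂ y, y.2)) := by linarith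
    have c5 : |(1 + p) * (g₂ y).im| < Real.pi / 2 := by
      rw [c4, abs_neg]
      exact c2
    rw [abs_mul, abs_of_pos (by linarith : 0 < 1 + p)] at c5
    rw [lt_div_iff₀ (by linarith : 0 < 1 + p)]
    linarith
  have hre : (g₂ y).re < -R4 := by
    have c1 : f = (1 + p) * (g₂ y).re + Real.log ‖JZ p c₁ κ Y (g₂ y, y.2)‖ := by
      have c2 := f4b_re p (JZ p c₁ κ Y) (g₂ y, y.2)
      rw [b2, hyre] at c2
      exact c2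
    have c2 : Real.log (c / (2 * C * (1 + p))) ≤ Real.log ‖JZ p c₁ κ Y (g₂ y, y.2)‖ :=
      Real.log_le_log b4 (b5.trans (re_le_norm _))
    have c3 : (1 + p) * (g₂ y).re < (1 + p) * -R4 := by linarith
    exact lt_of_mul_lt_mul_left c3 (by linarith)
  have hx0 : (g₂ y, y.2) ∈ P4 R4 ((A + 1) / (1 + p)) R5 := by
    refine ⟨hre, him, ?_⟩
    show -R5 < y.2.re
    rw [hy2re]
    linarith
  have hf0 : fJ p (JZ p c₁ κ Y') (g₂ y, y.2) = y.1 := by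
    rw [(TZ_strip (p := p) (c₁ := c₁) (κ := κ) hs (x := (g₂ y, y.2)) (b1.1.trans h1)).2.2]
    exact b2
  obtain ⟨g₄, e1, e2, e3⟩ := hsec (g₂ y, y.2) hx0 (by
    rw [hf0]
    exact hyG4)
  rw [hf0] at e3
  refine ⟨g₄, e1, e2, ?_⟩
  have hm4 : ∀ a ∈ G4 A L₄ R5, (g₄ a, a.2) ∈ DZ (X0 k Ax Rx) X₀ := by
    intro a ha
    obtain ⟨f1, f2, f3⟩ := (e2 a ha).1
    change (g₄ a).re < -R4 at f1
    change |(g₄ a).im| < (A + 1) / (1 + p) at f2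
    change -R5 < a.2.re at f3
    refine ⟨Or.inr ⟨?_, f2.trans_le hAx⟩, ?_⟩
    · show (g₄ a).re < -Rx
      linarith
    · show (g₄ a - a.2).re < X₀
      rw [sub_re]
      linarith
  refine pair_eqOn (A := ℂ × ℂ) (isOpen_DZ hY'.D_open) (TZ_an hκ hY')
    (d := fun x => κ (x.1 - x.2) / Y' x.1) (fun x hx => ⟨TZ_der hκ hY' hx, ?_⟩)
    (S := G2 p B L ∩ G4 A L₄ R5)
    ((convex_G2 _ _ _).inter (convex_G4 _ _ _)).isPreconnected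
    (ζ := fun y => y.2) (hg₂a.continuousOn.mono inter_subset_left)
    (e1.continuousOn.mono inter_subset_right) continuousOn_snd
    (fun a ha => ?_) (fun a ha => hm4 a ha.2) (fun a ha => ?_) ⟨hyG2, hyG4⟩ e3.symm
  · refine div_ne_zero (f4b_κ hκ hx.2) ?_
    intro h0'
    have h2 := hY'.re _ hx.1
    rw [h0', zero_re] at h2
    exact absurd Real.pi_pos (not_lt.2 h2)
  · obtain ⟨f1, f2⟩ := (hg₂ a ha.1).1
    exact ⟨Or.inl (f1.trans h1), f2.trans hX⟩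
  · obtain ⟨f1, f2⟩ := hg₂ a ha.1
    obtain ⟨f3, f4, f5⟩ := f4b_J h hk hκ h1 hc hη hb hX f1
    have f6 := (fJ_der hκ hY f3 (f4.trans_le f5)).2.2.2
    rw [f2, ← (TZ_strip (p := p) (c₁ := c₁) (κ := κ) hs (x := (g₂ a, a.2))
      (f1.1.trans h1)).1] at f6
    obtain ⟨f7, f8⟩ := e2 a ha.2
    have f11 := (fJ_der hκ hY' (hm4 a ha.2) (hJ _ f7)).2.2.2
    rw [f8] at f11
    exact f4b_cancel p f6 f11

end Pool.Agent.MP_ae5b4e_an_AZ
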