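import Pool.Agent.Lib.MP_ae5b4e_an_AZ.G8
import Pool.Agent.Lib.MP_ae5b4e_an_AZ.T3a

/-! # AZ: glueing of the sections (g2), (g4) -/

noncomputable section

namespace Pool.Agent.MP_ae5b4e_an_AZ

open Complex Set Filter Topology Metric

variable {k : ℕ} {V Y : ℂ → ℂ} {p X₀ η : ℝ} {c₁ : ℂ} {κ : ℂ → ℂ}

/-- `TZ` only depends on `Y` on the left half line. Proof. `Shc.eq`; `Im (z - t) = Im z`. -/
theorem TZ_stripc {R : ℝ} {V' Y' : ℂ → ℂ} (h0 : Shc k R V Y V' Y') {x : ℂ × ℂ}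
    (hx : |x.1.im| < Wk k) : TZ κ Y' x = TZ κ Y x ∧ JZ p c₁ κ Y' x = JZ p c₁ κ Y x ∧
      fJ p (JZ p c₁ κ Y') x = fJ p (JZ p c₁ κ Y) x := by
  have hT : TZ κ Y' x = TZ κ Y x := by
    unfold TZ
    congr 1
    funext t
    have h1 : |(x.1 - (t : ℂ)).im| < Wk k := by
      rwa [sub_im, ofReal_im, sub_zero]
    rw [(h0.eq _ h1).2]
  have hJ : JZ p c₁ κ Y' x = JZ p c₁ κ Y x := by
    unfold JZ
    rw [hT]
  refine ⟨hT, hJ, ?_⟩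
  unfold fJ
  rw [hJ]

/-- (g4) FROM (g2).

Proof. Base point: `ζ := 0`, `f` real and very negative; `y := (f, 0)` is in `G2` and in `Gc`. `z := g₂ y`:
`(1 + p) Im z = - arg J`, `|arg J| < π / 2` (`0 < Re JZ`, `JZ_bd`), so `|Im z| < 2`; `(1 + p) Re z = f - log ‖J‖`,
`‖J‖ ≥ c / (2 C (1 + p))`, so `Re z + |Im z| < - R4` for `f` very negative: `x₀ := (z, 0) ∈ Pc R4 X₁`; `fJ p (JZ .. Y') x₀ = f` by
`TZ_stripc` (`|Im z| < V1 < W`). `hsec` gives `g₄`. EQUALITY on `G2 ∩ Gc` (convex): `pair_eqOn` with `F = TZ κ Y'`,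
`P = DZ (Xc k 1) X₀` (open, `TZ_an`, `TZ_der` with `LD_Xc`, derivative `κ / Y' ≠ 0`): `(g₂ y, y.2) ∈ P` as `|Im g₂| < V1 < W`;
`(g₄ y, y.2) ∈ P` as `Re g₄ + |Im g₄| < - R4 < - 1`, `Re (g₄ - ζ) < X₁ < X₀`. Both satisfy
`c₁ exp y.1 = exp ((1 + p) y.2) TZ κ Y'` (`fJ_der`; `TZ_stripc` at `g₂`). -/
theorem sec24c (h : Sh k V Y) (hk : 1 ≤ k) (hκ : Kap p X₀ η c₁ κ) {V1 c C X₁ : ℝ}
    (h0 : 0 < V1) (h1 : V1 < Wk k) (hc : 0 < c) (hη : η ≤ c / 2)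
    (hb : ∀ z : ℂ, |z.im| ≤ V1 → c * ‖Y z‖ ≤ (Y z).re ∧ ‖Y z‖ ≤ C) (hX : X₁ < X₀)
    {B L : ℝ} (hB0 : 0 < B)
    {g₂ : ℂ × ℂ → ℂ} (hg₂a : AnalyticOnNhd ℂ g₂ (G2 p B L))
    (hg₂ : ∀ y ∈ G2 p B L, (g₂ y, y.2) ∈ P2 V1 X₁ ∧ fJ p (JZ p c₁ κ Y) (g₂ y, y.2) = y.1)
    {R4 L₄ L₄' : ℝ} {V' Y' : ℂ → ℂ} (hR4 : 1 < R4) (hs : Shc k 1 V Y V' Y')
    (hJ : ∀ x ∈ Pc R4 X₁, 0 < (JZ p c₁ κ Y' x).re)
    (hsec : ∀ x₀ ∈ Pc R4 X₁, (fJ p (JZ p c₁ κ Y') x₀, x₀.2) ∈ Gc p L₄ L₄' →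
        ∃ g : ℂ × ℂ → ℂ, AnalyticOnNhd ℂ g (Gc p L₄ L₄') ∧
          (∀ y ∈ Gc p L₄ L₄', (g y, y.2) ∈ Pc R4 X₁ ∧
            fJ p (JZ p c₁ κ Y') (g y, y.2) = y.1) ∧
          g (fJ p (JZ p c₁ κ Y') x₀, x₀.2) = x₀.1) :
    ∃ g₄ : ℂ × ℂ → ℂ, AnalyticOnNhd ℂ g₄ (Gc p L₄ L₄') ∧
      (∀ y ∈ Gc p L₄ L₄', (g₄ y, y.2) ∈ Pc R4 X₁ ∧
        fJ p (JZ p c₁ κ Y') (g₄ y, y.2) = y.1) ∧
      ∀ y ∈ G2 p B L ∩ Gc p L₄ L₄', g₂ y = g₄ y := by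
  have hp := hκ.p_pos
  have hp1 : 0 < 1 + p := by linarith
  have hLs := h.LD_strip hk
  have hLc := LD_Xc hk hs
  have hpi := Real.pi_pos
  -- positivity of `C`
  have hC : 0 < C := by
    have h2 := hLs.re (0 : ℂ) (by
      show |(0 : ℂ).im| < Wk k
      simp only [zero_im, abs_zero]
      linarith)
    have h3 := (hb 0 (by simp only [zero_im, abs_zero]; exact h0.le)).2
    have h4 := re_le_norm (Y 0)
    linarith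
  -- bounds of `J` in the strip
  have hJs : ∀ x : ℂ × ℂ, |x.1.im| < V1 → (x.1 - x.2).re < X₁ →
      x ∈ DZ {z : ℂ | |z.im| < Wk k} X₀ ∧ c / (2 * C * (1 + p)) ≤ (JZ p c₁ κ Y x).re := by
    intro x hx1 hx2
    have hxD : x ∈ DZ {z : ℂ | |z.im| < Wk k} X₀ := ⟨hx1.trans h1, hx2.trans hX⟩
    refine ⟨hxD, (JZ_bd hκ hLs hxD hc hη ?_).1⟩
    intro t _
    apply hb
    rw [sub_im, ofReal_im, sub_zero]
    exact hx1.le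
  obtain ⟨m, hm⟩ : ∃ m : ℝ, m = c / (2 * C * (1 + p)) := ⟨_, rfl⟩
  have hm0 : 0 < m := by
    rw [hm]
    positivity
  obtain ⟨f, hf1, hf2, hf3, hf4⟩ : ∃ f : ℝ, f < L ∧ f < L₄ ∧ f < L₄' ∧
      f < -((1 + p) * R4) + Real.log m - Real.pi / 2 := by
    refine ⟨min (min L L₄) (min L₄' (-((1 + p) * R4) + Real.log m - Real.pi / 2)) - 1, ?_, ?_,
      ?_, ?_⟩
    · have h2 : min (min L L₄) (min L₄' (-((1 + p) * R4) + Real.log m - Real.pi / 2)) ≤ L :=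
        (min_le_left _ _).trans (min_le_left _ _)
      linarith
    · have h2 : min (min L L₄) (min L₄' (-((1 + p) * R4) + Real.log m - Real.pi / 2)) ≤ L₄ :=
        (min_le_left _ _).trans (min_le_right _ _)
      linarith
    · have h2 : min (min L L₄) (min L₄' (-((1 + p) * R4) + Real.log m - Real.pi / 2)) ≤ L₄' :=
        (min_le_right _ _).trans (min_le_left _ _)
      linarith
    · have h2 : min (min L L₄) (min L₄' (-((1 + p) * R4) + Real.log m - Real.pi / 2)) ≤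
          -((1 + p) * R4) + Real.log m - Real.pi / 2 :=
        (min_le_right _ _).trans (min_le_right _ _)
      linarith
  obtain ⟨y₀, hy₀⟩ : ∃ y₀ : ℂ × ℂ, y₀ = ((f : ℂ), (0 : ℂ)) := ⟨_, rfl⟩
  have hy2 : y₀ ∈ G2 p B L := by
    rw [hy₀]
    constructor
    · simpa using hB0
    · simpa using hf1
  have hyc : y₀ ∈ Gc p L₄ L₄' := by
    rw [hy₀]
    constructor
    · simpa using hf2
    · simpa using hf3
  obtain ⟨⟨hz1, hz2⟩, hz3⟩ := hg₂ y₀ hy2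
  obtain ⟨x₀, hx₀⟩ : ∃ x₀ : ℂ × ℂ, x₀ = (g₂ y₀, y₀.2) := ⟨_, rfl⟩
  rw [← hx₀] at hz1 hz2 hz3
  obtain ⟨hxD, hJm⟩ := hJs x₀ hz1 hz2
  rw [← hm] at hJm
  have hJpos : 0 < (JZ p c₁ κ Y x₀).re := hm0.trans_le hJm
  have hfJ : fJ p (JZ p c₁ κ Y) x₀ = (f : ℂ) := by
    rw [hz3, hy₀]
  have hre : (1 + p) * x₀.1.re + Real.log ‖JZ p c₁ κ Y x₀‖ = f := by
    have h2 := congrArg Complex.re hfJ
    unfold fJ at h2
    rw [add_re, log_re, ofReal_re, show (1 + p : ℂ) = ((1 + p : ℝ) : ℂ) by push_cast; ring,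
      re_ofReal_mul] at h2
    exact h2
  have him : (1 + p) * x₀.1.im + arg (JZ p c₁ κ Y x₀) = 0 := by
    have h2 := congrArg Complex.im hfJ
    unfold fJ at h2
    rw [add_im, log_im, ofReal_im, show (1 + p : ℂ) = ((1 + p : ℝ) : ℂ) by push_cast; ring,
      im_ofReal_mul] at h2
    exact h2
  have harg : |arg (JZ p c₁ κ Y x₀)| ≤ Real.pi / 2 :=
    (abs_arg_lt_pi_div_two_iff.2 (Or.inl hJpos)).le
  have himb : (1 + p) * |x₀.1.im| ≤ Real.pi / 2 := by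
    have h2 : (1 + p) * |x₀.1.im| = |(1 + p) * x₀.1.im| := by
      rw [abs_mul, abs_of_pos hp1]
    rw [h2, show (1 + p) * x₀.1.im = -arg (JZ p c₁ κ Y x₀) by linarith, abs_neg]
    exact harg
  have hlog : Real.log m ≤ Real.log ‖JZ p c₁ κ Y x₀‖ :=
    Real.log_le_log hm0 (hJm.trans (re_le_norm _))
  have hxP : x₀ ∈ Pc R4 X₁ := by
    refine ⟨?_, hz2⟩
    have h2 : (1 + p) * (x₀.1.re + |x₀.1.im|) < (1 + p) * (-R4) := by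
      rw [mul_add]
      linarith
    exact lt_of_mul_lt_mul_left h2 hp1.le
  obtain ⟨-, -, hfe⟩ := TZ_stripc (κ := κ) (p := p) (c₁ := c₁) hs (hz1.trans h1)
  have hfx : fJ p (JZ p c₁ κ Y') x₀ = y₀.1 := by
    rw [hfe, hz3]
  have hx2 : x₀.2 = y₀.2 := by rw [hx₀]
  have hpair : (fJ p (JZ p c₁ κ Y') x₀, x₀.2) = y₀ := by
    rw [hfx, hx2]
  obtain ⟨g₄, hg₄a, hg₄, hg₄0⟩ := hsec x₀ hxP (by rw [hpair]; exact hyc)
  rw [hpair] at hg₄0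
  refine ⟨g₄, hg₄a, hg₄, ?_⟩
  have heq0 : g₂ y₀ = g₄ y₀ := by
    rw [hg₄0, hx₀]
  have hopen : IsOpen (DZ (Xc k 1) X₀) := isOpen_DZ (isOpen_Xc k 1)
  have hder : ∀ x ∈ DZ (Xc k 1) X₀, HasDerivAt (fun z => TZ κ Y' (z, x.2))
      (κ (x.1 - x.2) / Y' x.1) x.1 ∧ κ (x.1 - x.2) / Y' x.1 ≠ 0 := by
    intro x hx
    refine ⟨TZ_der hκ hLc hx, div_ne_zero ?_ ?_⟩
    · intro h2
      have h3 := hκ.bd _ hx.2
      rw [h2, zero_sub, norm_neg] at h3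
      have h4 : 0 < ‖c₁ * cexp ((1 + p) * (x.1 - x.2))‖ :=
        norm_pos_iff.2 (mul_ne_zero hκ.c₁_ne (Complex.exp_ne_zero _))
      have h5 : η * ‖c₁ * cexp ((1 + p) * (x.1 - x.2))‖ ≤
          1 / 20 * ‖c₁ * cexp ((1 + p) * (x.1 - x.2))‖ :=
        mul_le_mul_of_nonneg_right hκ.η_le h4.le
      linarith
    · intro h2
      have h3 := hLc.re _ hx.1
      rw [h2, zero_re] at h3
      linarith
  have hm1 : ∀ y ∈ G2 p B L ∩ Gc p L₄ L₄', (g₂ y, y.2) ∈ DZ (Xc k 1) X₀ := by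
    intro y hy
    obtain ⟨⟨h2, h3⟩, -⟩ := hg₂ y hy.1
    exact ⟨Or.inl (h2.trans h1), h3.trans hX⟩
  have hm2 : ∀ y ∈ G2 p B L ∩ Gc p L₄ L₄', (g₄ y, y.2) ∈ DZ (Xc k 1) X₀ := by
    intro y hy
    obtain ⟨⟨h2, h3⟩, -⟩ := hg₄ y hy.2
    refine ⟨Or.inr ?_, h3.trans hX⟩
    have h4 : (g₄ y).re + |(g₄ y).im| < -R4 := h2
    show (g₄ y).re + |(g₄ y).im| < -1
    linarith
  have hF : ∀ y ∈ G2 p B L ∩ Gc p L₄ L₄', TZ κ Y' (g₂ y, y.2) = TZ κ Y' (g₄ y, y.2) := by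
    intro y hy
    obtain ⟨⟨h2, h3⟩, h4⟩ := hg₂ y hy.1
    obtain ⟨h5, h6⟩ := hg₄ y hy.2
    obtain ⟨a1, a2⟩ := hJs (g₂ y, y.2) h2 h3
    rw [← hm] at a2
    have a3 := (fJ_der hκ hLs a1 (hm0.trans_le a2)).2.2.2
    have a4 := (fJ_der hκ hLc (hm2 y hy) (hJ _ h5)).2.2.2
    rw [h4, ← (TZ_stripc (κ := κ) (p := p) (c₁ := c₁) hs
      (show |((g₂ y, y.2) : ℂ × ℂ).1.im| < Wk k from h2.trans h1)).1] at a3
    rw [h6] at a4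
    have a5 : cexp ((1 + p) * y.2) * TZ κ Y' (g₂ y, y.2) =
        cexp ((1 + p) * y.2) * TZ κ Y' (g₄ y, y.2) := by
      rw [← a3, ← a4]
    exact mul_left_cancel₀ (Complex.exp_ne_zero _) a5
  have hconv : IsPreconnected (G2 p B L ∩ Gc p L₄ L₄') :=
    ((convex_G2 p B L).inter (convex_Gc p L₄ L₄')).isPreconnected
  have hfin := pair_eqOn (F := TZ κ Y') hopen (TZ_an hκ hLc) hder hconv (g₁ := g₂) (g₂ := g₄)
    (ζ := fun y : ℂ × ℂ => y.2) (hg₂a.continuousOn.mono inter_subset_left)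
    (hg₄a.continuousOn.mono inter_subset_right) continuous_snd.continuousOn hm1 hm2 hF
    ⟨hy2, hyc⟩ heq0
  exact fun y hy => hfin hy

end Pool.Agent.MP_ae5b4e_an_AZ
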