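import Pool.Agent.Lib.MP_ae5b4e_an_AZ.F3c

/-! # AZ: sections in the coordinates `(θ, ζ)` -/

noncomputable section

namespace Pool.Agent.MP_ae5b4e_an_AZ

open Complex Set Filter Topology Metric

/-- a section `om (θ, ζ)` of the time function `T (om, ζ)` over `O` -/
structure Se (κ Y : ℂ → ℂ) (D : Set ℂ) (X₁ : ℝ) (T : ℂ × ℂ → ℂ) (O : Set (ℂ × ℂ))
    (om : ℂ × ℂ → ℂ) : Prop where
  an : AnalyticOnNhd ℂ om O
  mem : ∀ x ∈ O, om x ∈ D ∧ (om x - x.2).re < X₁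
  der : ∀ x ∈ O, HasDerivAt (fun z => T (z, x.2)) (κ (om x - x.2) / Y (om x)) (om x)
  eq : ∀ x ∈ O, T (om x, x.2) = x.1

variable {k : ℕ} {V Y : ℂ → ℂ} {p b₁ X₀ η : ℝ} {c₁ : ℂ} {κ : ℂ → ℂ}

private theorem f4d_E0 (k : ℕ) (p : ℝ) : E0 k p = cexp (((-bt k p : ℝ) : ℂ) * I) := by
  unfold E0 bt
  push_cast
  rfl

private theorem f4d_fac (k : ℕ) (hc : c₁ ≠ 0) (hb : c₁ = ‖c₁‖ * cexp (b₁ * I)) (ζ : ℂ) :
    E0 k p * cexp ((1 + p) * ζ) / c₁ = ((Real.exp ((1 + p) * ζ.re) / ‖c₁‖ : ℝ) : ℂ) *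
      cexp (((be p b₁ ζ - bt k p : ℝ) : ℂ) * I) := by
  have hn : (‖c₁‖ : ℂ) ≠ 0 := by exact_mod_cast (norm_pos_iff.2 hc).ne'
  have he := Complex.exp_ne_zero ((b₁ : ℂ) * I)
  have h1 : cexp ((1 + p) * ζ) = (Real.exp ((1 + p) * ζ.re) : ℂ) *
      cexp ((((1 + p) * ζ.im : ℝ) : ℂ) * I) := by
    rw [ofReal_exp, ← Complex.exp_add]
    congr 1
    apply Complex.ext <;> simp
  have h2 : cexp (((be p b₁ ζ - bt k p : ℝ) : ℂ) * I) * cexp ((b₁ : ℂ) * I) =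
      cexp (((-bt k p : ℝ) : ℂ) * I) * cexp ((((1 + p) * ζ.im : ℝ) : ℂ) * I) := by
    rw [← Complex.exp_add, ← Complex.exp_add]
    congr 1
    unfold be
    push_cast
    ring
  rw [f4d_E0, h1, div_eq_iff hc]
  conv_rhs => rw [hb]
  push_cast
  rw [norm_mul, norm_real, norm_norm, Complex.norm_exp_ofReal_mul_I, mul_one]
  have h3 : cexp (((-bt k p : ℝ) : ℂ) * I) *
      (cexp (((1 + p) * ζ.re : ℝ) : ℂ) * cexp ((((1 + p) * ζ.im : ℝ) : ℂ) * I)) =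
      cexp (((1 + p) * ζ.re : ℝ) : ℂ) *
        (cexp (((be p b₁ ζ - bt k p : ℝ) : ℂ) * I) * cexp ((b₁ : ℂ) * I)) := by
    rw [h2]
    ring
  push_cast at h3
  rw [h3]
  field_simp

/-- Proof. Analytic by composition (`fc_an`). `fJ (om, ζ) = fc x`, so `exp ((1 + p) ζ) T (om, ζ) = c₁ exp (fc x) =
exp ((1 + p) ζ) θ` (`fc_exp`). -/
theorem se_of_f (hc : c₁ ≠ 0) (hb : c₁ = ‖c₁‖ * cexp (b₁ * I)) {D : Set ℂ} {X₁ : ℝ}
    {T J g : ℂ × ℂ → ℂ} {G O Q : Set (ℂ × ℂ)} (hg : AnalyticOnNhd ℂ g G)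
    (hsec : ∀ y ∈ G, (g y, y.2) ∈ Q ∧ fJ p J (g y, y.2) = y.1)
    (hQ : ∀ x ∈ Q, x.1 ∈ D ∧ (x.1 - x.2).re < X₁ ∧
      HasDerivAt (fun z => T (z, x.2)) (κ (x.1 - x.2) / Y x.1) x.1 ∧
      c₁ * cexp (fJ p J x) = cexp ((1 + p) * x.2) * T x)
    (hO : ∀ x ∈ O, x.1 ≠ 0 ∧ |arg (I * x.1)| < Real.pi ∧ (fc p b₁ c₁ x, x.2) ∈ G) :
    Se κ Y D X₁ T O (fun x => g (fc p b₁ c₁ x, x.2)) := by
  have hcomp : ∀ x ∈ O, (fun x : ℂ × ℂ => (fc p b₁ c₁ x, x.2)) x ∈ G := fun x hx => (hO x hx).2.2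
  refine ⟨fun x hx => ?_, fun x hx => ?_, fun x hx => ?_, fun x hx => ?_⟩
  · have h1 : AnalyticAt ℂ (fun x : ℂ × ℂ => (fc p b₁ c₁ x, x.2)) x :=
      (fc_an (hO x hx).1 (hO x hx).2.1).prod analyticAt_snd
    exact AnalyticAt.fun_comp (g := g) (f := fun x : ℂ × ℂ => (fc p b₁ c₁ x, x.2))
      (hg _ (hcomp x hx)) h1
  · obtain ⟨a1, a2, -, -⟩ := hQ _ (hsec _ (hcomp x hx)).1
    exact ⟨a1, a2⟩
  · exact (hQ _ (hsec _ (hcomp x hx)).1).2.2.1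
  · obtain ⟨b1, b2⟩ := hsec _ (hcomp x hx)
    have b3 := (hQ _ b1).2.2.2
    rw [b2] at b3
    have b4 : cexp ((1 + p) * x.2) * x.1 =
        cexp ((1 + p) * x.2) * T (g (fc p b₁ c₁ x, x.2), x.2) :=
      (fc_exp (p := p) hc hb (hO x hx).1).symm.trans b3
    exact (mul_left_cancel₀ (Complex.exp_ne_zero _) b4).symm

/-- Proof. `wθ` is analytic where `θt` is. `wT (om, ζ) = wθ x` gives `T (om, ζ) = θ` (cancel the nonzero factor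
`E0 exp ((1 + p) ζ) / c₁` and `θt ζ`). `P3`: `Re (om - ζ) < U₃ - R ≤ X₁`, and `(om, ζ) ∈ DT`, `TT.der`. -/
theorem se_of_w (hc : c₁ ≠ 0) {X₁ R₀ R U₃ ρ E₃ : ℝ} {T g : ℂ × ℂ → ℂ} {θZ θt : ℂ → ℂ}
    (hT : TT k X₀ R₀ κ Y T θZ) (hR : R₀ ≤ R) (hX : X₁ ≤ X₀) (hU : U₃ - R ≤ X₁)
    (ht : AnalyticOnNhd ℂ θt {ζ | R₀ < ζ.re}) (hg : AnalyticOnNhd ℂ g (G3 ρ R))
    (hsec : ∀ y ∈ G3 ρ R, (g y, y.2) ∈ P3 k p U₃ R ∧ wT k p c₁ T θt (g y, y.2) = y.1)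
    (hO : ∀ x ∈ O3 k p b₁ E₃ R θt, (wθ k p c₁ θt x, x.2) ∈ G3 ρ R) :
    Se κ Y (Xk k) X₁ T (O3 k p b₁ E₃ R θt) (fun x => g (wθ k p c₁ θt x, x.2)) := by
  have hE : ∀ ζ : ℂ, E0 k p * cexp ((1 + p) * ζ) / c₁ ≠ 0 := fun ζ =>
    div_ne_zero (mul_ne_zero (by unfold E0; exact Complex.exp_ne_zero _)
      (Complex.exp_ne_zero _)) hc
  have hm : ∀ x ∈ O3 k p b₁ E₃ R θt, g (wθ k p c₁ θt x, x.2) ∈ Xk k ∧
      (g (wθ k p c₁ θt x, x.2) - x.2).re < X₁ ∧ R₀ < x.2.re := by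
    intro x hx
    obtain ⟨a1, -, a3, a4⟩ := (hsec _ (hO x hx)).1
    simp only at a1 a3 a4
    refine ⟨a1, ?_, by linarith⟩
    rw [sub_re]
    linarith
  refine ⟨fun x hx => ?_, fun x hx => ⟨(hm x hx).1, (hm x hx).2.1⟩, fun x hx => ?_,
    fun x hx => ?_⟩
  · have h0 : AnalyticAt ℂ (fun y : ℂ × ℂ => θt y.2) x :=
      AnalyticAt.fun_comp (g := θt) (f := fun y : ℂ × ℂ => y.2) (ht _ (hm x hx).2.2)
        analyticAt_snd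
    have h1 : AnalyticAt ℂ (wθ k p c₁ θt) x :=
      (((analyticAt_const.mul (analyticAt_const.mul analyticAt_snd).cexp).div analyticAt_const
        hc).mul (analyticAt_fst.sub h0))
    exact AnalyticAt.fun_comp (g := g) (f := fun x : ℂ × ℂ => (wθ k p c₁ θt x, x.2))
      (hg _ (hO x hx)) (h1.prod analyticAt_snd)
  · obtain ⟨a1, a2, a3⟩ := hm x hx
    exact hT.der (g (wθ k p c₁ θt x, x.2), x.2) ⟨a1, a2.trans_le hX, Or.inr a3⟩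
  · have b2 := (hsec _ (hO x hx)).2
    have b3 : T (g (wθ k p c₁ θt x, x.2), x.2) - θt x.2 = x.1 - θt x.2 :=
      mul_left_cancel₀ (hE x.2) b2
    exact sub_left_inj.1 b3

/-- Bound of `Y` to the right of the cut. Proof. `Sh.far` (`ε = 1`): bounded for `Re z ≥ R'`; the set
`{U₂ ≤ Re z ≤ R', |Im z| ≤ Vm}` is compact, contained in the open set `Xk k` (`U0 < U₂`), `Y` is continuous there. -/
theorem Y_right (h : Sh k V Y) {U₂ : ℝ} (hU : U0 < U₂) (Vm : ℝ) : ∃ C : ℝ, 0 < C ∧ ∀ z : ℂ,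
    U₂ ≤ z.re → |z.im| ≤ Vm → ‖Y z‖ ≤ C := by
  obtain ⟨R', hR'⟩ := h.far one_pos
  have hcp : IsCompact (Icc U₂ R' ×ℂ Icc (-Vm) Vm) := isCompact_Icc.reProdIm isCompact_Icc
  have hsub : (Icc U₂ R' ×ℂ Icc (-Vm) Vm) ⊆ Xk k := fun z hz =>
    Or.inr (Or.inl (hU.trans_le hz.1.1))
  obtain ⟨C, hC⟩ := hcp.exists_bound_of_continuousOn (h.Y_an.continuousOn.mono hsub)
  refine ⟨max 1 (max C (1 + (k + 1) * Real.pi)), lt_max_of_lt_left one_pos, fun z h1 h2 => ?_⟩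
  rcases le_total z.re R' with h3 | h3
  · exact (hC z ⟨⟨h1, h3⟩, abs_le.1 h2⟩).trans ((le_max_left _ _).trans (le_max_right _ _))
  · have h4 := hR' z h3
    have h5 := norm_sub_norm_le (Y z) ((k + 1) * Real.pi)
    have h6 : ‖((k : ℂ) + 1) * (Real.pi : ℂ)‖ = (k + 1) * Real.pi := by
      have e : ((k : ℂ) + 1) * (Real.pi : ℂ) = (((k + 1) * Real.pi : ℝ) : ℂ) := by push_cast; rfl
      rw [e, norm_real, Real.norm_of_nonneg (by positivity)]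
    rw [h6] at h5
    refine le_trans ?_ ((le_max_right _ _).trans (le_max_right _ _))
    linarith

/-- The state stays bounded at positive times. Proof. `θ = T (om, ζ) = c₁ exp ((1 + p) (om - ζ)) J`:
`ε ≤ ‖c₁‖ exp ((1 + p) Re (om - ζ)) C`, take logarithms. -/
theorem re_ge_of_J (hκ : Kap p X₀ η c₁ κ) {C ε : ℝ} (hε : 0 < ε) : ∃ M : ℝ,
    ∀ (T : ℂ × ℂ → ℂ) (x : ℂ × ℂ), ‖JT p c₁ T x‖ ≤ C → ε ≤ ‖T x‖ → -M ≤ (x.1 - x.2).re := by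
  have hp := hκ.p_pos
  have hp1 : 0 < 1 + p := by linarith
  have hn := norm_pos_iff.2 hκ.c₁_ne
  obtain ⟨C', hC'⟩ : ∃ C', C' = max C 1 := ⟨_, rfl⟩
  have h1 : 1 ≤ C' := by
    rw [hC']
    exact le_max_right _ _
  have h2 : C ≤ C' := by
    rw [hC']
    exact le_max_left _ _
  have hC0 : 0 < C' * ‖c₁‖ := by positivity
  refine ⟨(Real.log (C' * ‖c₁‖) - Real.log ε) / (1 + p), fun T x hJ hT => ?_⟩
  have hE : c₁ * cexp ((1 + p) * (x.1 - x.2)) ≠ 0 := g1_E_ne hκ x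
  have e1 : T x = JT p c₁ T x * (c₁ * cexp ((1 + p) * (x.1 - x.2))) :=
    (div_mul_cancel₀ _ hE).symm
  have e2 : ‖c₁ * cexp ((1 + p) * (x.1 - x.2))‖ = ‖c₁‖ * Real.exp ((1 + p) * (x.1 - x.2).re) := by
    rw [norm_mul, Complex.norm_exp, show (1 + (p : ℂ)) = ((1 + p : ℝ) : ℂ) by push_cast; rfl,
      re_ofReal_mul]
  have e3 : ε ≤ C' * ‖c₁‖ * Real.exp ((1 + p) * (x.1 - x.2).re) := by
    rw [e1, norm_mul, e2] at hT
    refine hT.trans ?_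
    rw [mul_assoc]
    exact mul_le_mul_of_nonneg_right (hJ.trans h2) (by positivity)
  have e4 := Real.log_le_log hε e3
  rw [Real.log_mul hC0.ne' (Real.exp_pos _).ne', Real.log_exp] at e4
  rw [← neg_div, div_le_iff₀ hp1]
  linarith

/-- The limit at the tip. Proof. `wθ (θt ζ - I s, ζ) = E0 exp ((1 + p) ζ) / c₁ (- I s) = M exp (i τ) (- i s)`, `|τ| < 1 / 25`: it
tends to `0` and is not in `Cn` for `s > 0` (its imaginary part is `- M s cos τ < 0`). `g (w, ζ) → tip k` along `𝓝[Cnᶜ] 0`,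
with values in `Xk k` (`hsec`; `(wθ, ζ) ∈ G3` for small `s`). -/
theorem tip_lim_w (hc : c₁ ≠ 0) (hb : c₁ = ‖c₁‖ * cexp (b₁ * I)) {U₃ R ρ : ℝ} {T g : ℂ × ℂ → ℂ}
    {θt : ℂ → ℂ} (hρ : 0 < ρ)
    (hsec : ∀ y ∈ G3 ρ R, (g y, y.2) ∈ P3 k p U₃ R ∧ wT k p c₁ T θt (g y, y.2) = y.1) {ζ : ℂ}
    (hζ : R < ζ.re) (hl : Tendsto (fun w => g (w, ζ)) (𝓝[Cnᶜ] 0) (𝓝 (tip k)))
    (hτ : |be p b₁ ζ - bt k p| < 1 / 25) :
    Tendsto (fun s : ℝ => g (wθ k p c₁ θt (θt ζ - I * s, ζ), ζ)) (𝓝[>] 0)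
      (𝓝[Xk k] (tip k)) := by
  obtain ⟨M, hM⟩ : ∃ M : ℝ, M = Real.exp ((1 + p) * ζ.re) / ‖c₁‖ := ⟨_, rfl⟩
  have hM0 : 0 < M := by
    have := norm_pos_iff.2 hc
    rw [hM]
    positivity
  obtain ⟨τ, hτ'⟩ : ∃ τ, τ = be p b₁ ζ - bt k p := ⟨_, rfl⟩
  have hcos : 0 < Real.cos τ := by
    rw [← hτ'] at hτ
    rw [abs_lt] at hτ
    have h3 := Real.pi_gt_three
    exact Real.cos_pos_of_mem_Ioo ⟨by linarith [hτ.1], by linarith [hτ.2]⟩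
  have e1 : ∀ s : ℝ, wθ k p c₁ θt (θt ζ - I * s, ζ) =
      (M : ℂ) * (cexp ((τ : ℂ) * I) * (-(I * s))) := by
    intro s
    unfold wθ
    simp only
    rw [f4d_fac k hc hb, ← hM, ← hτ']
    ring
  have e2 : ∀ s : ℝ, (wθ k p c₁ θt (θt ζ - I * s, ζ)).im = -(M * (Real.cos τ * s)) := by
    intro s
    have h1 : (-(I * (s : ℂ))).re = 0 := by simp
    have h2 : (-(I * (s : ℂ))).im = -s := by simp
    rw [e1, im_ofReal_mul, mul_im, Complex.exp_ofReal_mul_I_re, Complex.exp_ofReal_mul_I_im, h1,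
      h2]
    ring
  have t0 : Tendsto (fun s : ℝ => wθ k p c₁ θt (θt ζ - I * s, ζ)) (𝓝[>] 0) (𝓝 0) := by
    have h1 : Continuous (fun s : ℝ => (M : ℂ) * (cexp ((τ : ℂ) * I) * (-(I * s)))) := by
      fun_prop
    have h2 := h1.tendsto 0
    simp only [ofReal_zero, mul_zero, neg_zero] at h2
    refine Tendsto.congr (fun s => (e1 s).symm) ?_
    exact h2.mono_left nhdsWithin_le_nhds
  have hn : ∀ s : ℝ, 0 < s → wθ k p c₁ θt (θt ζ - I * s, ζ) ∈ Cnᶜ := by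
    intro s hs hC
    have h1 : |(wθ k p c₁ θt (θt ζ - I * s, ζ)).re| ≤
        3 / 2 * (wθ k p c₁ θt (θt ζ - I * s, ζ)).im := hC
    rw [e2] at h1
    have h2 := mul_pos hM0 (mul_pos hcos hs)
    have h3 := abs_nonneg (wθ k p c₁ θt (θt ζ - I * s, ζ)).re
    linarith
  have t1 : Tendsto (fun s : ℝ => wθ k p c₁ θt (θt ζ - I * s, ζ)) (𝓝[>] 0) (𝓝[Cnᶜ] 0) :=
    tendsto_nhdsWithin_iff.2 ⟨t0, eventually_nhdsWithin_of_forall fun s hs => hn s hs⟩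
  refine tendsto_nhdsWithin_iff.2 ⟨hl.comp t1, ?_⟩
  have t2 : ∀ᶠ s : ℝ in 𝓝[>] 0, ‖wθ k p c₁ θt (θt ζ - I * s, ζ)‖ < ρ := by
    have h1 := t0.norm
    rw [norm_zero] at h1
    exact h1.eventually (gt_mem_nhds hρ)
  filter_upwards [t2, self_mem_nhdsWithin] with s h1 h2
  exact (hsec (wθ k p c₁ θt (θt ζ - I * s, ζ), ζ) ⟨h1, hn s h2, hζ⟩).1.1

end Pool.Agent.MP_ae5b4e_an_AZ
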