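import Pool.Agent.Lib.MP_ae5b4e_an_AZ.F4a
import Pool.Agent.Lib.MP_ae5b4e_an_AZ.F4b
import Pool.Agent.Lib.MP_ae5b4e_an_AZ.F4c
import Pool.Agent.Lib.MP_ae5b4e_an_AZ.F4d

/-! # AZ: THE GEOMETRY at the level of sections -/

noncomputable section

namespace Pool.Agent.MP_ae5b4e_an_AZ

open Complex Set Filter Topology Metric

/-- sections over the four regions, which agree on the overlaps -/
structure Geo (k : ℕ) (V Y : ℂ → ℂ) (p X₀ : ℝ) (c₁ : ℂ) (κ : ℂ → ℂ) (b₁ A B δ : ℝ)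
    (X₁ R E E₃ rr R4 L L' : ℝ) (T : ℂ × ℂ → ℂ) (θt V' Y' : ℂ → ℂ)
    (om₁ om₂ om₃ om₄ : ℂ × ℂ → ℂ) : Prop where
  X₁_lt : X₁ < X₀
  E_pos : 0 < E
  E₃_ge : 4 * E ≤ δ * E₃
  rr_pos : 0 < rr
  R4_gt : 1 < R4
  tip_an : AnalyticOnNhd ℂ θt {ζ | R < ζ.re}
  tip_le : ∀ ζ : ℂ, R < ζ.re → ‖θt ζ‖ ≤ E * Real.exp (-((1 + p) * ζ.re))
  shc : Shc k 1 V Y V' Y'
  s1 : Se κ Y (Xk k) X₁ T (O1 p b₁ A δ E rr R) om₁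
  s2 : Se κ Y {z | |z.im| < Wk k} X₁ T (O2 p b₁ B δ rr) om₂
  s3 : Se κ Y (Xk k) X₁ T (O3 k p b₁ E₃ R θt) om₃
  s4 : Se κ Y' (Xc k 1) X₁ (TZ κ Y') (Oc p b₁ c₁ δ L L') om₄
  e12 : ∀ x ∈ O1 p b₁ A δ E rr R, x ∈ O2 p b₁ B δ rr → om₁ x = om₂ x
  e13 : ∀ x ∈ O1 p b₁ A δ E rr R, x ∈ O3 k p b₁ E₃ R θt → om₁ x = om₃ x
  e24 : ∀ x ∈ O2 p b₁ B δ rr, x ∈ Oc p b₁ c₁ δ L L' → om₂ x = om₄ x
  d14 : Disjoint (O1 p b₁ A δ E rr R) (Oc p b₁ c₁ δ L L')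
  d34 : Disjoint (O3 k p b₁ E₃ R θt) (Oc p b₁ c₁ δ L L')
  d23 : Disjoint (O2 p b₁ B δ rr) (O3 k p b₁ E₃ R θt)
  bd : ∀ ε : ℝ, 0 < ε → ∃ M : ℝ, ∀ x ∈ O1 p b₁ A δ E rr R, ε ≤ ‖x.1‖ →
    -M ≤ (om₁ x - x.2).re ∧ ‖Y (om₁ x)‖ ≤ M
  tip_lim : ∀ ζ : ℂ, R < ζ.re → |be p b₁ ζ - bt k p| < 1 / 25 →
    Tendsto (fun s : ℝ => om₃ (θt ζ - I * s, ζ)) (𝓝[>] 0) (𝓝[Xk k] (tip k))
  z_mem : ∀ x ∈ Oc p b₁ c₁ δ L L', (om₄ x, x.2) ∈ Pc R4 X₁ ∧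
    fJ p (JZ p c₁ κ Y') (om₄ x, x.2) = fc p b₁ c₁ x
  z_inj : ∀ x ∈ Pc R4 X₁, ∀ z : ℂ, (z, x.2) ∈ Pc R4 X₁ →
    fJ p (JZ p c₁ κ Y') (z, x.2) = fJ p (JZ p c₁ κ Y') x → z = x.1

variable {k : ℕ} {V Y : ℂ → ℂ} {p b₁ X₀ η : ℝ} {c₁ : ℂ} {κ : ℂ → ℂ}

private theorem f4_Y (h : Sh k V Y) {z : ℂ} (hz : z ∈ Xk k) : Y z ≠ 0 := by
  intro h0
  have h1 := (h.re_mem hz).1
  rw [h0, zero_re] at h1
  have hk' : (0 : ℝ) ≤ k := Nat.cast_nonneg k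
  have := mul_nonneg hk' Real.pi_pos.le
  linarith

private theorem f4_J (h : Sh k V Y) (hk : 1 ≤ k) (hκ : Kap p X₀ η c₁ κ) {V1 c C X₁ : ℝ}
    (h1 : V1 < Wk k) (hc : 0 < c) (hη : η ≤ c / 2)
    (hb : ∀ z : ℂ, |z.im| ≤ V1 → c * ‖Y z‖ ≤ (Y z).re ∧ ‖Y z‖ ≤ C) (hX : X₁ < X₀)
    {x : ℂ × ℂ} (hx : x ∈ P2 V1 X₁) : x ∈ DZ {z : ℂ | |z.im| < Wk k} X₀ ∧
      0 < (JZ p c₁ κ Y x).re := by
  have hp := hκ.p_pos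
  have hY := h.LD_strip hk
  obtain ⟨hx1, hx2⟩ := hx
  have hC : 0 < C := by
    have h2 := hb x.1 hx1.le
    have h3 := hY.re x.1 (hx1.trans h1)
    have h4 := re_le_norm (Y x.1)
    have h5 := Real.pi_pos
    linarith
  have hxD : x ∈ DZ {z : ℂ | |z.im| < Wk k} X₀ := ⟨hx1.trans h1, hx2.trans hX⟩
  refine ⟨hxD, lt_of_lt_of_le ?_ (JZ_bd hκ hY hxD hc hη fun t ht => hb _ ?_).1⟩
  · positivity
  · rw [sub_im, ofReal_im, sub_zero]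
    exact hx1.le

/-- THE GEOMETRY.

Proof. Constants. `X₁ := X₀ - 1`, `A₁ := A + π + 1`. (1) `sec_G1b` (`X₁, A₁`): `U₂, R₂, L₁, L₂, C_J`. (2) `exists_Shc`: `V', Y'`;
`JZ_cone`: `R4`; `sec_Gc`: `L₄, L₄'`. (3) `R₀` with `U0 + 1 - R₀ < X₀`; `exists_TT`: `T, θZ`; `TT.exists_tip`: `θt`, so
`Tip k p R₀ T θt Ct` with `Ct := 4 (‖c₁‖ exp ((1 + p) (U0 + 1)))`; `Cθ := exp ((1 + p) (U0 + 1)) (W + 2)`
(`TT.norm_tip_le`: `‖θt ζ‖ ≤ ‖c₁‖ Cθ exp (- (1 + p) Re ζ)`). (4) `M₂` from `wT_upper` (`U₂, Ct`), `m` from `wZ_lower`. (5)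
`E := ‖c₁‖ (exp L₁ + 6 Cθ + 1)`, `E₃ := max (4 E / δ) (‖c₁‖ (M₂ + Cθ + 1)) ` (then `E < E₃`), `L₁' := log (E / ‖c₁‖)`,
`L₃ := log (E₃ / ‖c₁‖)`, `ρ := E₃ / ‖c₁‖ + Cθ`. (6) `out_G3` (`ρ, Ct`): `U₃', R₃`; `U₃ := max U₃' (U0 + 2)` (the conclusion of
`out_G3` holds for all `Re ≥ U₃'`). (7) `R := max` of `R₀, R₂, R₃, U₃ - X₁`. (8) `g₃` from `sec_G5` (`hU`: `U₃ - R ≤ X₁ ≤ X₀`;
`hout` from `out_G3`). (9) `base13`, then `g₁` from `sec_G1b` with this base point; `glue13`. (10) `sec12`: `g₂`, with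
`B₂ := (1 + p) V1 - π / 2`, `L₂' := (1 + p) X₁ + log (c / (2 C (1 + p)))`. (11) `sec24c`: `g₄`. (12) `L := min L₄` of
`min (log (E / ‖c₁‖)) (log (m / 300))`, `L' := L₄'` (`Gc p L L' ⊆ Gc p L₄ L₄'`), `rr := ‖c₁‖ min (exp L₂) (exp L₂')`.
`om₁ x := g₁ (fc x, x.2)`, `om₂`, `om₄` likewise, `om₃ x := g₃ (wθ x, x.2)`.
Fields. `s1, s2, s4`: `se_of_f` with `O1_sub`, `O2_sub`, the definition of `Oc`; `hQ` from `TT.der`, `fJT_der` (`J` from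
`sec_G1b`); for (g2) `T = TZ` on the strip (`TT.strip`, `TT.der`), `fJ_der`, `JZ_bd`; for (g4) `TZ_der`, `fJ_der` with `LD_Xc`.
`s3`: `se_of_w`, `O3_sub`. `e12`, `e24`: the points `(fc x, x.2)` are in both targets. `e13`: `O13_sub` and `O1_sub`. `d14`: `O1_Oc`;
`d34`: `O3_Oc` with `wT_Z`, `wZ_lower`; `d23`: `O2_O3`: `π / 2 + B + 1 / 25 ≤ (1 + p) V1 - π / 2 ≤ bt`. `bd`: `re_ge_of_J` (`C_J`),
`Y_right` (`U₂`, `(A₁ + 1) / (1 + p)`). `tip_lim`: `tip_lim_w`. `z_mem`: section. `z_inj`: `inj_Pc`. `tip_le`: `‖c₁‖ Cθ ≤ E`. -/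
theorem geo (h : Sh k V Y) (hk : 1 ≤ k) (hκ : Kap p X₀ η c₁ κ) (hb₁ : c₁ = ‖c₁‖ * cexp (b₁ * I))
    {V1 c C : ℝ} (h0 : 1 / 4 < V1) (h1 : V1 < Wk k) (hc : 0 < c) (hη : η ≤ c / 2)
    (hb : ∀ z : ℂ, |z.im| ≤ V1 → c * ‖Y z‖ ≤ (Y z).re ∧ ‖Y z‖ ≤ C)
    {A B δ : ℝ} (hB0 : 0 < B) (hδ : 0 < δ) (hδ1 : δ ≤ 1 / 10)
    (hB : B + Real.pi / 2 + δ ≤ (1 + p) * V1 - Real.pi / 2) (hA : bt k p + 1 ≤ A) :
    ∃ (X₁ R E E₃ rr R4 L L' : ℝ) (T : ℂ × ℂ → ℂ) (θt V' Y' : ℂ → ℂ)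
      (om₁ om₂ om₃ om₄ : ℂ × ℂ → ℂ),
      Geo k V Y p X₀ c₁ κ b₁ A B δ X₁ R E E₃ rr R4 L L' T θt V' Y' om₁ om₂ om₃ om₄ := by
  have hp := hκ.p_pos
  have hp1 : 0 < 1 + p := by linarith
  have hpi := Real.pi_gt_three
  have hpi0 := Real.pi_pos
  have hc₁ := hκ.c₁_ne
  have hn : 0 < ‖c₁‖ := norm_pos_iff.2 hc₁
  have hWk := Wk_ge hk
  have hU0 := U0_pos
  have hbt : bt k p = (1 + p) * Wk k + Real.pi / 4 := rfl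
  have hpW : 0 < (1 + p) * Wk k := mul_pos hp1 (by linarith)
  obtain ⟨X₁, hX₁⟩ : ∃ X₁ : ℝ, X₁ = X₀ - 1 := ⟨_, rfl⟩
  have hX : X₁ < X₀ := by linarith
  obtain ⟨A₁, hA₁⟩ : ∃ A₁ : ℝ, A₁ = A + Real.pi + 1 := ⟨_, rfl⟩
  -- (1)
  obtain ⟨U₂, R₂, L₁, L₂, CJ, hU₂, hG1⟩ := sec_G1b h hk hκ (X₁ := X₁) (A := A₁) hX (by linarith)
  -- (2)
  obtain ⟨V', Y', hS⟩ := exists_Shc h hk
  obtain ⟨R4, hR4, hR4J⟩ := JZ_cone (V := V) (Y := Y) hk hκ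
  obtain ⟨L₄, L₄', hGc⟩ := sec_Gc hk hκ hS hR4 hX (hR4J V' Y' hS)
  -- (3)
  obtain ⟨R₀, hR₀⟩ : ∃ R₀ : ℝ, R₀ = U0 + 2 - X₀ := ⟨_, rfl⟩
  have hRX : U0 + 1 - R₀ < X₀ := by linarith
  obtain ⟨T, θZ, hT⟩ := exists_TT h hk hκ hRX
  obtain ⟨θt, htan, htip⟩ := TT.exists_tip h hk hκ hT hRX
  obtain ⟨Ct, hCt⟩ : ∃ Ct : ℝ, Ct = 4 * (‖c₁‖ * Real.exp ((1 + p) * (U0 + 1))) := ⟨_, rfl⟩
  rw [← hCt] at htip
  have ht : Tip k p R₀ T θt Ct := ⟨htan, htip⟩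
  obtain ⟨Cθ, hCθ⟩ : ∃ Cθ : ℝ, Cθ = Real.exp ((1 + p) * (U0 + 1)) * (Wk k + 2) := ⟨_, rfl⟩
  have hC0 : 0 ≤ Cθ := by
    rw [hCθ]
    have : 0 < Wk k := by linarith
    positivity
  have hθ : ∀ ζ : ℂ, R₀ < ζ.re → ‖θt ζ‖ ≤ ‖c₁‖ * Cθ * Real.exp (-((1 + p) * ζ.re)) := by
    intro ζ hζ
    have e1 := TT.norm_tip_le h hk hκ hT hRX htip hζ
    refine e1.trans (le_of_eq ?_)
    rw [hCθ]
    ring
  -- (4)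
  obtain ⟨M₂, hM₂0, hM₂⟩ := wT_upper h hk hκ U₂ Ct
  obtain ⟨m, hm, hmw⟩ := wZ_lower h hk hκ
  -- (5)
  obtain ⟨E, hE⟩ : ∃ E : ℝ, E = ‖c₁‖ * (Real.exp L₁ + 6 * Cθ + 1) := ⟨_, rfl⟩
  have hE0 : 0 < E := by
    rw [hE]
    positivity
  obtain ⟨E₃, hE₃⟩ : ∃ E₃ : ℝ, E₃ = max (4 * E / δ) (‖c₁‖ * (M₂ + Cθ + 1)) := ⟨_, rfl⟩
  have hE₃a : 4 * E ≤ δ * E₃ := by
    have e1 : 4 * E / δ ≤ E₃ := by
      rw [hE₃]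
      exact le_max_left _ _
    rw [div_le_iff₀ hδ] at e1
    linarith
  have hE₃b : ‖c₁‖ * (M₂ + Cθ + 1) ≤ E₃ := by
    rw [hE₃]
    exact le_max_right _ _
  have hE₃0 : 0 < E₃ := lt_of_lt_of_le (by positivity) hE₃b
  have hEE : E < E₃ := by
    have e1 : δ * E₃ ≤ 1 / 10 * E₃ := mul_le_mul_of_nonneg_right hδ1 hE₃0.le
    linarith
  obtain ⟨L₁', hL₁'⟩ : ∃ L₁' : ℝ, L₁' = Real.log (E / ‖c₁‖) := ⟨_, rfl⟩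
  obtain ⟨L₃, hL₃⟩ : ∃ L₃ : ℝ, L₃ = Real.log (E₃ / ‖c₁‖) := ⟨_, rfl⟩
  have hexp1 : Real.exp L₁' = E / ‖c₁‖ := by
    rw [hL₁', Real.exp_log (by positivity)]
  have hexp1' : Real.exp L₁' = Real.exp L₁ + 6 * Cθ + 1 := by
    rw [hexp1, hE, mul_div_cancel_left₀ _ hn.ne']
  have hexp3 : Real.exp L₃ = E₃ / ‖c₁‖ := by
    rw [hL₃, Real.exp_log (by positivity)]
  obtain ⟨ρ, hρ⟩ : ∃ ρ : ℝ, ρ = E₃ / ‖c₁‖ + Cθ := ⟨_, rfl⟩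
  have hρ0 : 0 < ρ := by
    rw [hρ]
    positivity
  -- (6)
  obtain ⟨U₃', R₃, hU₃', hout⟩ := out_G3 h hk hκ ρ Ct
  obtain ⟨U₃, hU₃⟩ : ∃ U₃ : ℝ, U₃ = max U₃' (U0 + 2) := ⟨_, rfl⟩
  have hU₃a : U₃' ≤ U₃ := by
    rw [hU₃]
    exact le_max_left _ _
  have hU₃b : U0 + 2 ≤ U₃ := by
    rw [hU₃]
    exact le_max_right _ _
  -- (7)
  obtain ⟨R, hR⟩ : ∃ R : ℝ, R = max (max R₀ R₂) (max R₃ (U₃ - X₁)) := ⟨_, rfl⟩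
  have hRa : R₀ ≤ R := by
    rw [hR]
    exact (le_max_left _ _).trans (le_max_left _ _)
  have hRb : R₂ ≤ R := by
    rw [hR]
    exact (le_max_right _ _).trans (le_max_left _ _)
  have hRc : R₃ ≤ R := by
    rw [hR]
    exact (le_max_left _ _).trans (le_max_right _ _)
  have hRd : U₃ - X₁ ≤ R := by
    rw [hR]
    exact (le_max_right _ _).trans (le_max_right _ _)
  have hU : U₃ - R ≤ X₁ := by linarith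
  -- (8)
  obtain ⟨g₃, hg₃a, hg₃, hg₃l⟩ := sec_G5 h hk hκ hT hRX ht (ρ := ρ) (U₃ := U₃) (R := R) hρ0 hRa
    (by linarith) (by linarith) (fun x hx1 hx2 hx3 => hout R₀ T θZ θt hT hRX ht x
      (by rw [hx1]; exact hU₃a) hx2 (by linarith) (by linarith)
      (by rw [sub_re, hx1]; linarith))
  -- (9)
  obtain ⟨hJ', hG1s⟩ := hG1 R₀ T θZ hT R hRa hRb
  have hJ : ∀ x : ℂ × ℂ, U₂ ≤ x.1.re → |x.1.im| ≤ (A₁ + 1) / (1 + p) →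
      (x.1 - x.2).re ≤ X₁ → R < x.2.re →
      x ∈ DT k X₀ R₀ ∧ 0 < (JT p c₁ T x).re ∧ |arg (JT p c₁ T x)| ≤ 1 / 4 := by
    intro x e1 e2 e3 e4
    obtain ⟨f1, f2, f3, -⟩ := hJ' x e1 e2 e3 e4
    exact ⟨f1, f2, f3⟩
  have hL11 : L₁ ≤ L₁' := by
    rw [← Real.exp_le_exp, hexp1']
    linarith
  have hL13 : L₁' < L₃ := by
    rw [← Real.exp_lt_exp, hexp1, hexp3]
    exact div_lt_div_of_pos_right hEE hn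
  have hL6 : 6 * Cθ ≤ Real.exp L₁' := by
    rw [hexp1']
    linarith [Real.exp_pos L₁]
  have hLM : M₂ + Cθ < Real.exp L₃ := by
    rw [hexp3, lt_div_iff₀ hn]
    have e1 : (M₂ + Cθ) * ‖c₁‖ < ‖c₁‖ * (M₂ + Cθ + 1) := by
      have : ‖c₁‖ * (M₂ + Cθ + 1) = (M₂ + Cθ) * ‖c₁‖ + ‖c₁‖ := by ring
      linarith
    linarith
  have hLρ : Real.exp L₃ + Cθ ≤ ρ := by
    rw [hexp3, hρ]
  obtain ⟨y₀, hy₀, hy₀P, hy₀f⟩ := base13 (b₁ := b₁) h hk hκ hb₁ hT hC0 hθ (X₁ := X₁) (A₁ := A₁)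
    (U₂ := U₂) (L₁ := L₁) (L₂ := L₂) (L₁' := L₁') (L₃ := L₃) (ρ := ρ) (U₃ := U₃) (R := R)
    (M₂ := M₂) (δ := δ) hRa hX hU hU₂ (by linarith) hJ
    (fun x hx hxU => hM₂ R₀ T θZ θt hT hRX ht x hx.1 hxU hx.2.1.le
      (by
        have e1 := hx.2.2.1
        have e2 := hx.2.2.2
        rw [sub_re]
        linarith) (by
        have e2 := hx.2.2.2
        linarith)) hL11 hL13 hL6 hLM hLρ hδ hδ1 hg₃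
  obtain ⟨g₁, hg₁a, hg₁, hg₁0⟩ := hG1s (g₃ (wf k p c₁ θt y₀, y₀.2), y₀.2) hy₀P
    (by rw [hy₀f]; exact hy₀.2)
  rw [hy₀f] at hg₁0
  have hgl := glue13 (b₁ := b₁) h hk hκ hT htan hC0 hθ hRa hX hU hJ hL6 hLρ hδ hδ1 hg₃a hg₃
    hg₁a hg₁ hy₀ hg₁0
  -- (10)
  obtain ⟨B₂, hB₂⟩ : ∃ B₂ : ℝ, B₂ = (1 + p) * V1 - Real.pi / 2 := ⟨_, rfl⟩
  obtain ⟨L₂', hL₂'⟩ : ∃ L₂' : ℝ, L₂' = (1 + p) * X₁ + Real.log (c / (2 * C * (1 + p))) :=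
    ⟨_, rfl⟩
  have hB₂0 : 0 < B₂ := by linarith
  obtain ⟨g₂, hg₂a, hg₂, h12⟩ := sec12 h hk hκ h0 h1 hc hη hb hX hB₂0 hB₂ hL₂' hT hRa
    (by linarith) hJ hg₁a hg₁
  -- (11)
  obtain ⟨g₄, hg₄a, hg₄, h24⟩ := sec24c h hk hκ (by linarith) h1 hc hη hb hX hB₂0 hg₂a hg₂
    hR4 hS (fun x hx => (hR4J V' Y' hS x hx.1.le (hx.2.trans hX)).2.1) hGc
  -- (12)
  obtain ⟨L, hL⟩ : ∃ L : ℝ, L = min L₄ (min (Real.log (E / ‖c₁‖)) (Real.log (m / 300))) :=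
    ⟨_, rfl⟩
  have hLa : L ≤ L₄ := by
    rw [hL]
    exact min_le_left _ _
  have hLb : Real.exp L ≤ E / ‖c₁‖ := by
    rw [← Real.exp_log (show 0 < E / ‖c₁‖ by positivity), Real.exp_le_exp, hL]
    exact (min_le_right _ _).trans (min_le_left _ _)
  have hLc : Real.exp L ≤ m / 300 := by
    rw [← Real.exp_log (show 0 < m / 300 by positivity), Real.exp_le_exp, hL]
    exact (min_le_right _ _).trans (min_le_right _ _)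
  have hLE : ‖c₁‖ * Real.exp L ≤ E := by
    rw [le_div_iff₀ hn] at hLb
    linarith
  obtain ⟨rr, hrr⟩ : ∃ rr : ℝ, rr = ‖c₁‖ * min (Real.exp L₂) (Real.exp L₂') := ⟨_, rfl⟩
  have hrr0 : 0 < rr := by
    rw [hrr]
    exact mul_pos hn (lt_min (Real.exp_pos _) (Real.exp_pos _))
  have hrr1 : rr ≤ ‖c₁‖ * Real.exp L₂ := by
    rw [hrr]
    exact mul_le_mul_of_nonneg_left (min_le_left _ _) hn.le
  have hrr2 : rr ≤ ‖c₁‖ * Real.exp L₂' := by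
    rw [hrr]
    exact mul_le_mul_of_nonneg_left (min_le_right _ _) hn.le
  have hEL : ‖c₁‖ * Real.exp L₁ ≤ E := by
    rw [hE]
    exact mul_le_mul_of_nonneg_left (by linarith) hn.le
  have hELe : ‖c₁‖ * Real.exp L₁' ≤ E := by
    rw [hexp1, mul_div_cancel₀ _ hn.ne']
  have hE₃L : E₃ ≤ ‖c₁‖ * Real.exp L₃ := by
    rw [hexp3, mul_div_cancel₀ _ hn.ne']
  have hO1 : ∀ x ∈ O1 p b₁ A δ E rr R, (fc p b₁ c₁ x, x.2) ∈ G1 p A₁ L₁ L₂ R := fun x hx =>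
    O1_sub hc₁ (by linarith) hEL hrr1 hx
  have hO2 : ∀ x ∈ O2 p b₁ B δ rr, (fc p b₁ c₁ x, x.2) ∈ G2 p B₂ L₂' := fun x hx =>
    O2_sub hc₁ (by linarith) hrr2 hx
  have hO3 : ∀ x ∈ O3 k p b₁ E₃ R θt, (wθ k p c₁ θt x, x.2) ∈ G3 ρ R := fun x hx =>
    O3_sub hc₁ hb₁ hRa hθ hρ.ge hx
  have hOc : ∀ x ∈ Oc p b₁ c₁ δ L L₄', (fc p b₁ c₁ x, x.2) ∈ Gc p L₄ L₄' := fun x hx =>
    ⟨lt_of_lt_of_le hx.2.2.1 hLa, hx.2.2.2⟩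
  have hO1n : ∀ x ∈ O1 p b₁ A δ E rr R, x.1 ≠ 0 := by
    intro x hx h0
    have e1 := hx.2.1
    rw [h0, norm_zero] at e1
    exact absurd e1 (not_lt.2 (by positivity))
  have hargδ : Real.pi / 2 + δ ≤ Real.pi := by linarith
  have hs1 : Se κ Y (Xk k) X₁ T (O1 p b₁ A δ E rr R) (fun x => g₁ (fc p b₁ c₁ x, x.2)) := by
    refine se_of_f hc₁ hb₁ (J := JT p c₁ T) (Q := P1 U₂ ((A₁ + 1) / (1 + p)) X₁ R) hg₁a hg₁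
      (fun x hx => ?_) (fun x hx => ⟨hO1n x hx, hx.1.trans_le hargδ, hO1 x hx⟩)
    obtain ⟨e1, e2, e3, e4⟩ := hx
    obtain ⟨f1, f2, f3⟩ := hJ x e1.le e2.le e3.le e4
    exact ⟨f1.1, e3, hT.der x f1, (fJT_der hκ hT f1 f2 (f4_Y h f1.1)).2.2.2⟩
  have hs2 : Se κ Y {z | |z.im| < Wk k} X₁ T (O2 p b₁ B δ rr)
      (fun x => g₂ (fc p b₁ c₁ x, x.2)) := by
    refine se_of_f hc₁ hb₁ (J := JZ p c₁ κ Y) (Q := P2 V1 X₁) hg₂a hg₂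
      (fun x hx => ?_) (fun x hx => ⟨hx.2.1, hx.1.trans_le hargδ, hO2 x hx⟩)
    obtain ⟨e1, e2⟩ := f4_J h hk hκ h1 hc hη hb hX hx
    refine ⟨e1.1, hx.2, hT.der x ⟨Or.inl e1.1, e1.2, Or.inl e1.1⟩, ?_⟩
    rw [hT.strip x e1.1 e1.2]
    exact (fJ_der hκ (h.LD_strip hk) e1 e2).2.2.2
  have hs4 : Se κ Y' (Xc k 1) X₁ (TZ κ Y') (Oc p b₁ c₁ δ L L₄')
      (fun x => g₄ (fc p b₁ c₁ x, x.2)) := by
    refine se_of_f hc₁ hb₁ (J := JZ p c₁ κ Y') (Q := Pc R4 X₁) hg₄a hg₄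
      (fun x hx => ?_) (fun x hx => ⟨hx.2.1, hx.1.trans_le hargδ, hOc x hx⟩)
    have e1 : x ∈ DZ (Xc k 1) X₀ := by
      refine ⟨Or.inr ?_, hx.2.trans hX⟩
      have := hx.1
      linarith
    exact ⟨e1.1, hx.2, TZ_der hκ (LD_Xc hk hS) e1, (fJ_der hκ (LD_Xc hk hS) e1
      (hR4J V' Y' hS x hx.1.le e1.2).2.1).2.2.2⟩
  refine ⟨X₁, R, E, E₃, rr, R4, L, L₄', T, θt, V', Y', fun x => g₁ (fc p b₁ c₁ x, x.2),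
    fun x => g₂ (fc p b₁ c₁ x, x.2), fun x => g₃ (wθ k p c₁ θt x, x.2),
    fun x => g₄ (fc p b₁ c₁ x, x.2), ?_⟩
  exact
    { X₁_lt := hX
      E_pos := hE0
      E₃_ge := hE₃a
      rr_pos := hrr0
      R4_gt := hR4
      tip_an := htan.mono fun ζ (hζ : R < ζ.re) => (lt_of_le_of_lt hRa hζ : R₀ < ζ.re)
      tip_le := fun ζ hζ => (hθ ζ (lt_of_le_of_lt hRa hζ)).trans
        (mul_le_mul_of_nonneg_right (by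
          rw [hE]
          exact mul_le_mul_of_nonneg_left (by linarith [Real.exp_pos L₁]) hn.le)
          (Real.exp_pos _).le)
      shc := hS
      s1 := hs1
      s2 := hs2
      s3 := se_of_w hc₁ hT hRa hX.le hU htan hg₃a hg₃ hO3
      s4 := hs4
      e12 := fun x hx hx' => h12 _ ⟨hO1 x hx, hO2 x hx'⟩
      e13 := fun x hx hx' => by
        obtain ⟨e1, e2⟩ := O13_sub hc₁ hb₁ hE0 hELe hE₃L hx hx'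
        have e3 := hgl _ ⟨e1, hO1 x hx⟩
        rw [e2] at e3
        exact e3
      e24 := fun x hx hx' => h24 _ ⟨hO2 x hx, hOc x hx'⟩
      d14 := O1_Oc hc₁ hLE
      d34 := O3_Oc hc₁ hb₁ hm hLc fun ζ hζ =>
        ⟨wT_Z h hk hκ hT hRX ht (lt_of_le_of_lt hRa hζ),
          hmw R₀ T θZ θt Ct hT hRX ht ζ (lt_of_le_of_lt hRa hζ)⟩
      d23 := O2_O3 (by
        have e1 : (1 + p) * V1 ≤ (1 + p) * Wk k := mul_le_mul_of_nonneg_left h1.le hp1.le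
        linarith)
      bd := fun ε hε => by
        obtain ⟨M, hM⟩ := re_ge_of_J (C := CJ) hκ hε
        obtain ⟨C', hC'0, hC'⟩ := Y_right h hU₂ ((A₁ + 1) / (1 + p))
        refine ⟨max M C', fun x hx hxε => ?_⟩
        obtain ⟨e1, e2, e3, e4⟩ := (hg₁ _ (hO1 x hx)).1
        obtain ⟨-, -, -, f4⟩ := hJ' _ e1.le e2.le e3.le e4
        have f5 := hM T _ f4 (by rw [hs1.eq x hx]; exact hxε)
        exact ⟨(neg_le_neg (le_max_left M C')).trans f5,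
          (hC' _ e1.le e2.le).trans (le_max_right M C')⟩
      tip_lim := fun ζ hζ hτ => tip_lim_w hc₁ hb₁ hρ0 hg₃ hζ (hg₃l ζ hζ) hτ
      z_mem := fun x hx => hg₄ _ (hOc x hx)
      z_inj := fun x hx z hz he => inj_Pc hk hκ hS hR4 hX.le (hR4J V' Y' hS) hx hz he }

end Pool.Agent.MP_ae5b4e_an_AZ
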