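import Pool.Agent.Lib.MP_ae5b4e_an_AZ.F3b

/-! # AZ: glueing of the sections (g3) and (g1) -/

noncomputable section

namespace Pool.Agent.MP_ae5b4e_an_AZ

open Complex Set Filter Topology Metric

variable {k : ℕ} {V Y : ℂ → ℂ} {p X₀ η : ℝ} {c₁ : ℂ} {κ : ℂ → ℂ} {b₁ : ℝ}

private theorem f4a_Y (h : Sh k V Y) (hk : 1 ≤ k) {z : ℂ} (hz : z ∈ Xk k) : Y z ≠ 0 := by
  intro h0
  have h1 := (h.re_mem hz).1
  rw [h0, zero_re] at h1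
  have hk' : (1 : ℝ) ≤ k := by exact_mod_cast hk
  have hpi := Real.pi_pos
  nlinarith

private theorem f4a_κ (hκ : Kap p X₀ η c₁ κ) {w : ℂ} (hw : w.re < X₀) : κ w ≠ 0 := by
  intro h0
  have h1 := hκ.bd w hw
  rw [h0, zero_sub, norm_neg] at h1
  have h2 : 0 < ‖c₁ * cexp ((1 + p) * w)‖ :=
    norm_pos_iff.2 (mul_ne_zero hκ.c₁_ne (Complex.exp_ne_zero _))
  have h3 := hκ.η_le
  nlinarith

private theorem f4a_E0 (k : ℕ) (p : ℝ) : ‖E0 k p‖ = 1 := by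
  unfold E0
  rw [Complex.norm_exp]
  simp

private theorem f4a_E0ne (k : ℕ) (p : ℝ) : E0 k p ≠ 0 := by
  unfold E0
  exact Complex.exp_ne_zero _

private theorem f4a_theta (k : ℕ) (hc : c₁ ≠ 0) {R₀ Cθ : ℝ} {θt : ℂ → ℂ}
    (hθ : ∀ ζ : ℂ, R₀ < ζ.re → ‖θt ζ‖ ≤ ‖c₁‖ * Cθ * Real.exp (-((1 + p) * ζ.re))) {ζ : ℂ}
    (hζ : R₀ < ζ.re) : ‖E0 k p * (cexp ((1 + p) * ζ) / c₁ * θt ζ)‖ ≤ Cθ := by
  have hn := norm_pos_iff.2 hc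
  have e1 : ‖cexp ((1 + p) * ζ)‖ = Real.exp ((1 + p) * ζ.re) := by
    rw [Complex.norm_exp]
    congr 1
    simp
  rw [norm_mul, f4a_E0, one_mul, norm_mul, norm_div, e1]
  refine (mul_le_mul_of_nonneg_left (hθ ζ hζ) (by positivity)).trans (le_of_eq ?_)
  rw [Real.exp_neg]
  have e5 := (Real.exp_pos ((1 + p) * ζ.re)).ne'
  field_simp

private theorem f4a_rel (hc : c₁ ≠ 0) {T : ℂ × ℂ → ℂ} {θt : ℂ → ℂ} {x y : ℂ × ℂ}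
    (h2 : x.2 = y.2) (h : wT k p c₁ T θt x = wf k p c₁ θt y) :
    c₁ * cexp y.1 = cexp ((1 + p) * y.2) * T x := by
  unfold wT wf at h
  rw [h2] at h
  have h3 : E0 k p * (cexp ((1 + p) * y.2) / c₁ * T x) = E0 k p * cexp y.1 := by
    linear_combination h
  have h4 := mul_left_cancel₀ (f4a_E0ne k p) h3
  rw [← h4]
  field_simp

private theorem f4a_DT {R₀ U₃ X₁ R : ℝ} (hR' : R₀ ≤ R) (hX₁ : X₁ < X₀) (hU : U₃ - R ≤ X₁)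
    {x : ℂ × ℂ} (hx : x ∈ P3 k p U₃ R) : x ∈ DT k X₀ R₀ := by
  obtain ⟨h1, h2, h3, h4⟩ := hx
  refine ⟨h1, ?_, Or.inr (by linarith)⟩
  rw [sub_re]
  linarith

/-- THE BASE POINT of (g1), taken from (g3).

Proof. `ζ := t + i (bt + b₁) / (1 + p)`, so `be ζ = bt`, `t > R` large (below). `l` real with `L₁' < l < L₃`,
`exp l > M₂ + Cθ` (possible by `hL`, `hLM`: `l` close to `L₃`); `f := l + i (bt - π / 2)`, `y := (f, ζ) ∈ S13`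
(`Im f + π / 2 - be = 0`). `w := wf y`, `(w, ζ) ∈ G3` (`S13_sub`), `E0 exp f = - i exp l`, so `‖w‖ ≥ exp l - Cθ > M₂`.
`z := g₃ (w, ζ)`, `(z, ζ) ∈ P3`, `wT (z, ζ) = w`: by `hM₂` `U₂ < Re z`. `|Im z - W| < π / (1 + p)` and `Re z < U₃`, so
`|Im z| < (A₁ + 1) / (1 + p)` (`(1 + p) W + π < A₁`), `Re (z - ζ) < U₃ - R ≤ X₁`: `x₀ := (z, ζ) ∈ P1` (`R < t`). `T (z, ζ)`:
from `wT = wf`: `c₁ exp f = exp ((1 + p) ζ) T (z, ζ)`. `fJ x₀ = (1 + p) z + log J`, `|arg J| ≤ 1 / 4`, and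
`c₁ exp (fJ x₀) = exp ((1 + p) ζ) T x₀` (`fJT_der`, `Y ≠ 0`), so `exp (fJ x₀) = exp f`, and
`Im (fJ x₀) = (1 + p) Im z + arg J` is in `((1 + p) W - π - 1 / 4, (1 + p) W + π + 1 / 4)`, `Im f = (1 + p) W - π / 4`: the
difference is `< 2 π` in absolute value: `fJ x₀ = f` (`eq_of_exp`). `(f, ζ) ∈ G1 p A₁ L₁ L₂ R`: `L₁ ≤ L₁' < l`,
`|bt - π / 2| < A₁`, `l < L₂ + (1 + p) t` for `t` large. -/
theorem base13 (h : Sh k V Y) (hk : 1 ≤ k) (hκ : Kap p X₀ η c₁ κ) (hb : c₁ = ‖c₁‖ * cexp (b₁ * I))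
    {R₀ : ℝ} {T : ℂ × ℂ → ℂ} {θZ θt : ℂ → ℂ} (hT : TT k X₀ R₀ κ Y T θZ) {Cθ : ℝ} (hC0 : 0 ≤ Cθ)
    (hθ : ∀ ζ : ℂ, R₀ < ζ.re → ‖θt ζ‖ ≤ ‖c₁‖ * Cθ * Real.exp (-((1 + p) * ζ.re)))
    {X₁ A₁ U₂ L₁ L₂ L₁' L₃ ρ U₃ R M₂ δ : ℝ} (hR' : R₀ ≤ R) (hX₁ : X₁ < X₀) (hU : U₃ - R ≤ X₁)
    (hU₂ : U0 < U₂) (hA₁ : (1 + p) * Wk k + Real.pi < A₁)
    (hJ : ∀ x : ℂ × ℂ, U₂ ≤ x.1.re → |x.1.im| ≤ (A₁ + 1) / (1 + p) → (x.1 - x.2).re ≤ X₁ →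
      R < x.2.re → x ∈ DT k X₀ R₀ ∧ 0 < (JT p c₁ T x).re ∧ |arg (JT p c₁ T x)| ≤ 1 / 4)
    (hM₂ : ∀ x ∈ P3 k p U₃ R, x.1.re ≤ U₂ → ‖wT k p c₁ T θt x‖ ≤ M₂) (hL : L₁ ≤ L₁')
    (hL' : L₁' < L₃) (hL6 : 6 * Cθ ≤ Real.exp L₁') (hLM : M₂ + Cθ < Real.exp L₃)
    (hρ : Real.exp L₃ + Cθ ≤ ρ) (hδ : 0 < δ) (hδ1 : δ ≤ 1 / 10) {g₃ : ℂ × ℂ → ℂ}
    (hg₃ : ∀ y ∈ G3 ρ R, (g₃ y, y.2) ∈ P3 k p U₃ R ∧ wT k p c₁ T θt (g₃ y, y.2) = y.1) :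
    ∃ y ∈ S13 k p b₁ L₁' L₃ δ R ∩ G1 p A₁ L₁ L₂ R,
      (g₃ (wf k p c₁ θt y, y.2), y.2) ∈ P1 U₂ ((A₁ + 1) / (1 + p)) X₁ R ∧
        fJ p (JT p c₁ T) (g₃ (wf k p c₁ θt y, y.2), y.2) = y.1 := by
  have hp := hκ.p_pos
  have hp1 : 0 < 1 + p := by linarith
  have hpi := Real.pi_pos
  have hpi3 := Real.pi_gt_three
  have hc := hκ.c₁_ne
  obtain ⟨l, ⟨hl1, hl2⟩, hl3⟩ : ∃ l ∈ Ioo L₁' L₃, M₂ + Cθ < Real.exp l := by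
    have e1 : ∀ᶠ l in 𝓝[<] L₃, M₂ + Cθ < Real.exp l :=
      ((Real.continuous_exp.tendsto L₃).eventually (lt_mem_nhds hLM)).filter_mono
        nhdsWithin_le_nhds
    have e2 : ∀ᶠ l in 𝓝[<] L₃, l ∈ Ioo L₁' L₃ := Ioo_mem_nhdsLT hL'
    obtain ⟨l, h1, h2⟩ := (e2.and e1).exists
    exact ⟨l, h1, h2⟩
  obtain ⟨t, ht1, ht2⟩ : ∃ t : ℝ, R < t ∧ l < L₂ + (1 + p) * t := by
    refine ⟨max (R + 1) ((l - L₂) / (1 + p) + 1), ?_, ?_⟩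
    · have := le_max_left (R + 1) ((l - L₂) / (1 + p) + 1)
      linarith
    · have h1 := le_max_right (R + 1) ((l - L₂) / (1 + p) + 1)
      have h2 := mul_le_mul_of_nonneg_left h1 hp1.le
      have h3 : (1 + p) * ((l - L₂) / (1 + p) + 1) = (l - L₂) + (1 + p) := by
        field_simp
      linarith
  obtain ⟨ζ, hζ⟩ : ∃ ζ : ℂ, ζ = ⟨t, (bt k p + b₁) / (1 + p)⟩ := ⟨_, rfl⟩
  obtain ⟨f, hf⟩ : ∃ f : ℂ, f = ⟨l, bt k p - Real.pi / 2⟩ := ⟨_, rfl⟩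
  have hζre : ζ.re = t := by rw [hζ]
  have hfre : f.re = l := by rw [hf]
  have hfim : f.im = bt k p - Real.pi / 2 := by rw [hf]
  have hbe : be p b₁ ζ = bt k p := by
    unfold be
    rw [hζ]
    show (1 + p) * ((bt k p + b₁) / (1 + p)) - b₁ = bt k p
    field_simp
    ring
  have hWk := Wk_ge hk
  have hbt : bt k p - Real.pi / 2 = (1 + p) * Wk k - Real.pi / 4 := by
    unfold bt
    ring
  have hWp : Wk k ≤ (1 + p) * Wk k := by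
    have : 0 ≤ p * Wk k := mul_nonneg hp.le (by linarith)
    linarith
  have hy1 : (f, ζ) ∈ S13 k p b₁ L₁' L₃ δ R := by
    refine ⟨?_, ?_, ?_, ?_, ?_⟩
    · show L₁' < f.re
      rw [hfre]
      exact hl1
    · show f.re < L₃
      rw [hfre]
      exact hl2
    · show |be p b₁ ζ - bt k p| < 1 / 25
      rw [hbe, sub_self, abs_zero]
      norm_num
    · show |f.im + Real.pi / 2 - be p b₁ ζ| < Real.pi / 2 + δ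
      rw [hbe, hfim]
      have e1 : bt k p - Real.pi / 2 + Real.pi / 2 - bt k p = 0 := by ring
      rw [e1, abs_zero]
      linarith
    · show R < ζ.re
      rw [hζre]
      exact ht1
  have hy2 : (f, ζ) ∈ G1 p A₁ L₁ L₂ R := by
    refine ⟨?_, ?_, ?_, ?_⟩
    · show L₁ < f.re
      rw [hfre]
      linarith
    · show |f.im| < A₁
      rw [hfim, hbt, abs_of_nonneg (by linarith)]
      linarith
    · show f.re < L₂ + (1 + p) * ζ.re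
      rw [hfre, hζre]
      exact ht2
    · show R < ζ.re
      rw [hζre]
      exact ht1
  have hG3 : (wf k p c₁ θt (f, ζ), ζ) ∈ G3 ρ R :=
    S13_sub hc hδ hδ1 hR' hC0 hθ hL6 hρ hy1
  obtain ⟨hP3, hw⟩ := hg₃ _ hG3
  obtain ⟨z, hz⟩ : ∃ z, z = g₃ (wf k p c₁ θt (f, ζ), ζ) := ⟨_, rfl⟩
  have hP3' : (z, ζ) ∈ P3 k p U₃ R := by
    rw [hz]
    exact hP3
  have hw' : wT k p c₁ T θt (z, ζ) = wf k p c₁ θt (f, ζ) := by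
    rw [hz]
    exact hw
  refine ⟨(f, ζ), ⟨hy1, hy2⟩, ?_⟩
  show (g₃ (wf k p c₁ θt (f, ζ), ζ), ζ) ∈ P1 U₂ ((A₁ + 1) / (1 + p)) X₁ R ∧
    fJ p (JT p c₁ T) (g₃ (wf k p c₁ θt (f, ζ), ζ), ζ) = f
  rw [← hz]
  have hRt : R₀ < ζ.re := by
    rw [hζre]
    linarith
  have hnw : M₂ < ‖wf k p c₁ θt (f, ζ)‖ := by
    have e1 : E0 k p * cexp f = wf k p c₁ θt (f, ζ) +
        E0 k p * (cexp ((1 + p) * ζ) / c₁ * θt ζ) := by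
      unfold wf
      show E0 k p * cexp f = E0 k p * (cexp f - cexp ((1 + p) * ζ) / c₁ * θt ζ) + _
      ring
    have e2 : ‖E0 k p * cexp f‖ = Real.exp l := by
      rw [norm_mul, f4a_E0, one_mul, Complex.norm_exp, hfre]
    have e3 := norm_add_le (wf k p c₁ θt (f, ζ)) (E0 k p * (cexp ((1 + p) * ζ) / c₁ * θt ζ))
    rw [← e1, e2] at e3
    have e4 := f4a_theta k hc hθ hRt
    linarith
  obtain ⟨a1, a2, a3, a4⟩ := hP3'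
  have hzre : U₂ < z.re := by
    by_contra hcon
    push Not at hcon
    have h1 := hM₂ (z, ζ) ⟨a1, a2, a3, a4⟩ hcon
    rw [hw'] at h1
    linarith
  have a2' : |(1 + p) * (z.im - Wk k)| < Real.pi := a2
  have a3' : z.re < U₃ := a3
  have hzim : |z.im| < (A₁ + 1) / (1 + p) := by
    rw [lt_div_iff₀ hp1]
    rw [abs_lt] at a2'
    have h1 : |(1 + p) * z.im| < A₁ := by
      rw [abs_lt]
      constructor <;> nlinarith [a2'.1, a2'.2]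
    rw [abs_mul, abs_of_pos hp1] at h1
    linarith
  have hzζ : (z - ζ).re < X₁ := by
    rw [sub_re, hζre]
    linarith
  obtain ⟨hD, hJre, hJarg⟩ := hJ (z, ζ) hzre.le hzim.le hzζ.le a4
  obtain ⟨-, -, -, hfe⟩ := fJT_der hκ hT hD hJre (f4a_Y h hk a1)
  have hfe' : c₁ * cexp (fJ p (JT p c₁ T) (z, ζ)) = cexp ((1 + p) * ζ) * T (z, ζ) := hfe
  have hfr : c₁ * cexp f = cexp ((1 + p) * ζ) * T (z, ζ) :=
    f4a_rel (x := (z, ζ)) (y := (f, ζ)) hc rfl hw'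
  refine ⟨⟨hzre, hzim, hzζ, a4⟩, ?_⟩
  refine eq_of_exp (mul_left_cancel₀ hc (hfe'.trans hfr.symm)) ?_
  rw [g1_im, hfim, hbt]
  show |(1 + p) * z.im + arg (JT p c₁ T (z, ζ)) - ((1 + p) * Wk k - Real.pi / 4)| < 2 * Real.pi
  rw [abs_lt] at a2' ⊢
  rw [abs_le] at hJarg
  constructor <;> linarith [a2'.1, a2'.2, hJarg.1, hJarg.2]

/-- EQUALITY on the overlap. Proof. `pair_eqOn` (`F = T`, `P = DT k X₀ R₀`, derivative `κ / Y ≠ 0`) on the convex set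
`S13 ∩ G1`, lifts `g₁ y` and `g₃ (wf y, y.2)`: `T (g₁ y, y.2)` is determined by
`c₁ exp y.1 = exp ((1 + p) y.2) T` (`fJT_der`, `fJ = y.1`), and `T (g₃ .., y.2)` by `wT = wf`, the same equation. -/
theorem glue13 (h : Sh k V Y) (hk : 1 ≤ k) (hκ : Kap p X₀ η c₁ κ)
    {R₀ : ℝ} {T : ℂ × ℂ → ℂ} {θZ θt : ℂ → ℂ} (hT : TT k X₀ R₀ κ Y T θZ)
    (htan : AnalyticOnNhd ℂ θt {ζ | R₀ < ζ.re}) {Cθ : ℝ} (hC0 : 0 ≤ Cθ)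
    (hθ : ∀ ζ : ℂ, R₀ < ζ.re → ‖θt ζ‖ ≤ ‖c₁‖ * Cθ * Real.exp (-((1 + p) * ζ.re)))
    {X₁ A₁ U₂ L₁ L₂ L₁' L₃ ρ U₃ R δ : ℝ} (hR' : R₀ ≤ R) (hX₁ : X₁ < X₀) (hU : U₃ - R ≤ X₁)
    (hJ : ∀ x : ℂ × ℂ, U₂ ≤ x.1.re → |x.1.im| ≤ (A₁ + 1) / (1 + p) → (x.1 - x.2).re ≤ X₁ →
      R < x.2.re → x ∈ DT k X₀ R₀ ∧ 0 < (JT p c₁ T x).re ∧ |arg (JT p c₁ T x)| ≤ 1 / 4)
    (hL6 : 6 * Cθ ≤ Real.exp L₁') (hρ : Real.exp L₃ + Cθ ≤ ρ) (hδ : 0 < δ) (hδ1 : δ ≤ 1 / 10)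
    {g₃ : ℂ × ℂ → ℂ} (hg₃a : AnalyticOnNhd ℂ g₃ (G3 ρ R))
    (hg₃ : ∀ y ∈ G3 ρ R, (g₃ y, y.2) ∈ P3 k p U₃ R ∧ wT k p c₁ T θt (g₃ y, y.2) = y.1)
    {g₁ : ℂ × ℂ → ℂ} (hg₁a : AnalyticOnNhd ℂ g₁ (G1 p A₁ L₁ L₂ R))
    (hg₁ : ∀ y ∈ G1 p A₁ L₁ L₂ R, (g₁ y, y.2) ∈ P1 U₂ ((A₁ + 1) / (1 + p)) X₁ R ∧
      fJ p (JT p c₁ T) (g₁ y, y.2) = y.1) {y₀ : ℂ × ℂ}
    (hy₀ : y₀ ∈ S13 k p b₁ L₁' L₃ δ R ∩ G1 p A₁ L₁ L₂ R)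
    (he : g₁ y₀ = g₃ (wf k p c₁ θt y₀, y₀.2)) :
    ∀ y ∈ S13 k p b₁ L₁' L₃ δ R ∩ G1 p A₁ L₁ L₂ R, g₁ y = g₃ (wf k p c₁ θt y, y.2) := by
  have hc := hκ.c₁_ne
  have hDT1 : ∀ y ∈ G1 p A₁ L₁ L₂ R, (g₁ y, y.2) ∈ DT k X₀ R₀ ∧
      0 < (JT p c₁ T (g₁ y, y.2)).re := by
    intro y hy
    obtain ⟨⟨b1, b2, b3, b4⟩, -⟩ := hg₁ y hy
    obtain ⟨h1, h2, -⟩ := hJ (g₁ y, y.2) b1.le b2.le b3.le b4
    exact ⟨h1, h2⟩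
  have hT1 : ∀ y ∈ G1 p A₁ L₁ L₂ R,
      c₁ * cexp y.1 = cexp ((1 + p) * y.2) * T (g₁ y, y.2) := by
    intro y hy
    obtain ⟨h1, h2⟩ := hDT1 y hy
    obtain ⟨-, -, -, h3⟩ := fJT_der hκ hT h1 h2 (f4a_Y h hk h1.1)
    rw [(hg₁ y hy).2] at h3
    exact h3
  have hm : ∀ y ∈ S13 k p b₁ L₁' L₃ δ R, (wf k p c₁ θt y, y.2) ∈ G3 ρ R := fun y hy =>
    S13_sub hc hδ hδ1 hR' hC0 hθ hL6 hρ hy
  have hT3 : ∀ y ∈ S13 k p b₁ L₁' L₃ δ R,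
      c₁ * cexp y.1 = cexp ((1 + p) * y.2) * T (g₃ (wf k p c₁ θt y, y.2), y.2) := by
    intro y hy
    have h1 : wT k p c₁ T θt (g₃ (wf k p c₁ θt y, y.2), y.2) = wf k p c₁ θt y :=
      (hg₃ _ (hm y hy)).2
    exact f4a_rel (x := (g₃ (wf k p c₁ θt y, y.2), y.2)) (y := y) hc rfl h1
  have hwc : ContinuousOn (fun y : ℂ × ℂ => (wf k p c₁ θt y, y.2))
      (S13 k p b₁ L₁' L₃ δ R ∩ G1 p A₁ L₁ L₂ R) := by
    intro y hy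
    have hy2 : R₀ < y.2.re := by
      have := hy.1.2.2.2.2
      linarith
    have c1 : ContinuousAt (fun y : ℂ × ℂ => θt y.2) y :=
      ContinuousAt.comp (f := fun y : ℂ × ℂ => y.2) (g := θt) (htan y.2 hy2).continuousAt
        continuous_snd.continuousAt
    have c2 : ContinuousAt (fun y : ℂ × ℂ => cexp y.1) y := by fun_prop
    have c3 : ContinuousAt (fun y : ℂ × ℂ => cexp ((1 + p) * y.2) / c₁) y :=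
      (by fun_prop : ContinuousAt (fun y : ℂ × ℂ => cexp ((1 + p) * y.2)) y).div_const _
    have c4 : ContinuousAt (wf k p c₁ θt) y := continuousAt_const.mul (c2.sub (c3.mul c1))
    exact (c4.prodMk continuous_snd.continuousAt).continuousWithinAt
  exact pair_eqOn (A := ℂ × ℂ) (F := T) (isOpen_DT k X₀ R₀) hT.an
    (d := fun x => κ (x.1 - x.2) / Y x.1)
    (fun x hx => ⟨hT.der x hx, div_ne_zero (f4a_κ hκ hx.2.1) (f4a_Y h hk hx.1)⟩)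
    ((convex_S13 k p b₁ L₁' L₃ δ R).inter (convex_G1 p A₁ L₁ L₂ R)).isPreconnected
    (g₁ := g₁) (g₂ := fun y => g₃ (wf k p c₁ θt y, y.2)) (ζ := Prod.snd)
    (fun y hy => (hg₁a y hy.2).continuousAt.continuousWithinAt)
    (hg₃a.continuousOn.comp hwc fun y hy => hm y hy.1)
    continuous_snd.continuousOn
    (fun y hy => (hDT1 y hy.2).1)
    (fun y hy => f4a_DT hR' hX₁ hU (hg₃ _ (hm y hy.1)).1)
    (fun y hy => mul_left_cancel₀ (Complex.exp_ne_zero ((1 + p) * y.2))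
      ((hT1 y hy.2).symm.trans (hT3 y hy.1))) hy₀ he

end Pool.Agent.MP_ae5b4e_an_AZ
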