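import Pool.Agent.Lib.MP_ae5b4e_an_AZ.F2
import Pool.Agent.Lib.MP_ae5b4e_an_AZ.F4

/-! # AZ: THE FAMILY OF STATES AT A ZERO OF `q` -/

noncomputable section

namespace Pool.Agent.MP_ae5b4e_an_AZ

open Complex Set Filter Topology Metric
open Pool.Agent.MP_ae5b4e_an_M (S1 C1f E2 Gf bb)
open Pool.Agent.MP_ae5b4e_an_WD (ZChart)
open Pool.Agent.MP_ae5b4e_an_A1 (Fw gI)
open PorTR (Hm)

/-- THE GEOMETRY AT A ZERO OF `q`: one family `z (θ, ζ)` of solutions of the limit equation, first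
integral `(-1)^k exp ζ`; the point `Z_k` is at `θ = 0`, the tip at `θ = θt ζ` -/
structure ZG (q : ℂ → ℂ) (k : ℕ) (p : ℝ) (lam : ℂ → ℂ) (c₁ : ℂ) (b₁ A B δ R E rr : ℝ)
    (θt : ℂ → ℂ) (Ω : Set (ℂ × ℂ)) (z : ℂ × ℂ → ℂ × ℂ) : Prop where
  p_pos : 0 < p
  B_gt : Real.pi / 2 < B
  B_le : B + Real.pi / 2 + 1 / 25 ≤ bt k p
  A_ge : bt k p + 1 ≤ A
  δ_pos : 0 < δ
  δ_le : δ ≤ 1 / 10
  E_pos : 0 < E
  rr_pos : 0 < rr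
  fz : Fz q ((-1) ^ k) Ω z
  g1 : ∀ ζ θ : ℂ, R < ζ.re → |be p b₁ ζ| < A → E * Real.exp (-((1 + p) * ζ.re)) < ‖θ‖ →
    ‖θ‖ < rr → θ.im < δ * |θ.re| → (θ, ζ) ∈ Ω
  g2 : ∀ ζ θ : ℂ, |be p b₁ ζ - Real.pi / 2| < B → ‖θ‖ < rr → θ.im < δ * |θ.re| → (θ, ζ) ∈ Ω
  g3 : ∀ ζ θ : ℂ, R < ζ.re → |be p b₁ ζ - bt k p| < 1 / 25 → ‖θ‖ < rr →
    θ.im < 2 * E * Real.exp (-((1 + p) * ζ.re)) →
    (θ - θt ζ).im < 3 / 5 * |(θ - θt ζ).re| → (θ, ζ) ∈ Ω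
  near : ∀ ζ₀ : ℂ, ∃ e : ℝ, 0 < e ∧ ∀ ζ ∈ ball ζ₀ 1, ∀ θ : ℂ, ‖θ‖ < e → θ.im < δ * |θ.re| →
    (θ, ζ) ∈ Ω
  tip_an : AnalyticOnNhd ℂ θt {ζ | R < ζ.re}
  tip_le : ∀ ζ : ℂ, R < ζ.re → ‖θt ζ‖ ≤ E * Real.exp (-((1 + p) * ζ.re))
  cpt : ∀ ε : ℝ, 0 < ε → ∃ K : Set (ℂ × ℂ), IsCompact K ∧ K ⊆ Hm ×ˢ univ ∧ ∀ ζ θ : ℂ, R < ζ.re →
    |be p b₁ ζ| < A → E * Real.exp (-((1 + p) * ζ.re)) < ‖θ‖ → ε ≤ ‖θ‖ → ‖θ‖ < rr →
    θ.im < δ * |θ.re| → z (θ, ζ) ∈ K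
  lb : ∀ ζ : ℂ, R < ζ.re → |be p b₁ ζ - bt k p| < 1 / 25 →
    (lam (cexp (p * (tip k - ζ)))).im < 0 ∧ q (lam (cexp (p * (tip k - ζ)))) ≠ 0 ∧
      deriv q (lam (cexp (p * (tip k - ζ)))) ≠ 0
  tip : ∀ ζ : ℂ, R < ζ.re → |be p b₁ ζ - bt k p| < 1 / 25 →
    Tendsto (fun s : ℝ => (z (θt ζ - I * s, ζ)).1) (𝓝[>] 0) (𝓝 (lam (cexp (p * (tip k - ζ))))) ∧
    Tendsto (fun s : ℝ => ‖C1f (q (z (θt ζ - I * s, ζ)).1 * (z (θt ζ - I * s, ζ)).2 ^ 2)‖)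
      (𝓝[>] 0) atTop
  germ : ∃ (R4 X₁ : ℝ) (V Y V' Y' : ℂ → ℂ), Sh k V Y ∧ Shc k 1 V Y V' Y' ∧ 1 < R4 ∧
    ∀ ζ₀ : ℂ, ∃ e : ℝ, 0 < e ∧ ∀ ζ ∈ ball ζ₀ 1, ∀ θ : ℂ, ‖θ‖ < e → θ.im < δ * |θ.re| → ∀ w : ℂ,
      (w, ζ) ∈ Pc R4 X₁ → fJ p (JZ p c₁ (kap p lam) Y') (w, ζ) = fc p b₁ c₁ (θ, ζ) →
      z (θ, ζ) = stz p lam Y' (w, ζ)

private theorem f5_ball {μ : ℕ} (hμ : 0 < μ) {r₀ : ℝ} (hr0 : 0 < r₀) {x : ℂ}
    (hx : x.re < Real.log r₀ / (2 / μ)) :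
    cexp (((2 / μ : ℝ) : ℂ) * x) ∈ ball (0 : ℂ) r₀ := by
  have hp : (0 : ℝ) < 2 / μ := by
    have : (0 : ℝ) < μ := by exact_mod_cast hμ
    positivity
  rw [mem_ball_zero_iff, Complex.norm_exp, re_ofReal_mul]
  rw [lt_div_iff₀ hp] at hx
  calc Real.exp (2 / μ * x.re) < Real.exp (Real.log r₀) := Real.exp_lt_exp.2 (by linarith)
    _ = r₀ := Real.exp_log hr0

private theorem f5_qd {q : ℂ → ℂ} {z₀ : ℂ} {μ : ℕ} {lam : ℂ → ℂ} {r : ℝ}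
    (hq : DifferentiableOn ℂ q Hm) (h : ZChart q z₀ μ lam r) {c : ℂ} (hc : c ∈ ball (0 : ℂ) r) :
    deriv q (lam c) * deriv lam c = μ * c ^ (μ - 1) := by
  have hopen : IsOpen {z : ℂ | z.im < 0} := isOpen_lt continuous_im continuous_const
  have hlam : DifferentiableAt ℂ lam c := (h.d c hc).differentiableAt (isOpen_ball.mem_nhds hc)
  have hqd : DifferentiableAt ℂ q (lam c) := by
    have h1 : DifferentiableOn ℂ q {z : ℂ | z.im < 0} := hq.mono (fun z hz' => hz')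
    exact (h1 _ (h.val c hc).1).differentiableAt (hopen.mem_nhds (h.val c hc).1)
  have hcomp : HasDerivAt (fun x => q (lam x)) (deriv q (lam c) * deriv lam c) c :=
    hqd.hasDerivAt.comp c hlam.hasDerivAt
  have hpow : HasDerivAt (fun x : ℂ => x ^ μ) (μ * c ^ (μ - 1)) c := hasDerivAt_pow μ c
  have hev : (fun x => q (lam x)) =ᶠ[𝓝 c] fun x => x ^ μ := by
    filter_upwards [isOpen_ball.mem_nhds hc] with x hx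
    exact (h.val x hx).2
  exact hcomp.unique (hpow.congr_of_eventuallyEq hev)

/-- a family over a section on the main sheet -/
private theorem f5_fz {q : ℂ → ℂ} {z₀ : ℂ} {μ k : ℕ} {lam : ℂ → ℂ} {r r₀ : ℝ}
    (hq : DifferentiableOn ℂ q Hm) (hch : ZChart q z₀ μ lam r) (hr0 : 0 < r₀) (hr : r₀ ≤ r)
    (hd : ∀ c ∈ ball (0 : ℂ) r₀, deriv lam c ≠ 0) {V Y : ℂ → ℂ} (h : Sh k V Y) {X₁ : ℝ}
    (hX : X₁ < Real.log r₀ / (2 / μ)) {D : Set ℂ} (hD : D ⊆ Xk k) {T om : ℂ × ℂ → ℂ}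
    {O : Set (ℂ × ℂ)} (hO : IsOpen O) (hs : Se (kap (2 / μ) lam) Y D X₁ T O om) :
    Fz q ((-1) ^ k) O (fun x => stz (2 / μ) lam Y (om x, x.2)) := by
  refine fz_sec (V := V) (T := T) hch hq hr0 hr hd hO hs.an fun x hx => ?_
  obtain ⟨m1, m2⟩ := hs.mem x hx
  have m3 := hD m1
  obtain ⟨t1, t2, -, t4⟩ := h.trig m3
  refine ⟨m2.trans hX, h.Y_an _ m3, ?_, t1, t2, t4, h.hasDerivAt_Y m3, hs.der x hx,
    hs.eq x hx⟩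
  intro h0
  rw [h0, Complex.sin_zero] at t1
  exact t1 rfl

/-- the family over the near sheet -/
private theorem f5_fz4 {q : ℂ → ℂ} {z₀ : ℂ} {μ k : ℕ} {lam : ℂ → ℂ} {r r₀ : ℝ}
    (hq : DifferentiableOn ℂ q Hm) (hch : ZChart q z₀ μ lam r) (hr0 : 0 < r₀) (hr : r₀ ≤ r)
    (hd : ∀ c ∈ ball (0 : ℂ) r₀, deriv lam c ≠ 0) {V Y V' Y' : ℂ → ℂ} (h : Shc k 1 V Y V' Y')
    {X₁ : ℝ} (hX : X₁ < Real.log r₀ / (2 / μ)) {T om : ℂ × ℂ → ℂ}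
    {O : Set (ℂ × ℂ)} (hO : IsOpen O) (hs : Se (kap (2 / μ) lam) Y' (Xc k 1) X₁ T O om) :
    Fz q ((-1) ^ k) O (fun x => stz (2 / μ) lam Y' (om x, x.2)) := by
  refine fz_sec (V := V') (T := T) hch hq hr0 hr hd hO hs.an fun x hx => ?_
  obtain ⟨m1, m2⟩ := hs.mem x hx
  obtain ⟨t1, -, -, t4, t5, t6⟩ := h.prop m1
  refine ⟨m2.trans hX, h.Y_an _ m1, ?_, t4, t5, t6, t1, hs.der x hx, hs.eq x hx⟩
  intro h0
  rw [h0, Complex.sin_zero] at t4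
  exact t4 rfl

/-- points below the tip are in the third region -/
private theorem f5_O3 {k : ℕ} {p b₁ E E₃ R : ℝ} {θt : ℂ → ℂ} (hE : E < E₃) {ζ : ℂ}
    (hle : ‖θt ζ‖ ≤ E * Real.exp (-((1 + p) * ζ.re))) (hζ : R < ζ.re)
    (hτ : |be p b₁ ζ - bt k p| < 1 / 25) :
    ∀ᶠ s : ℝ in 𝓝[>] 0, (θt ζ - I * s, ζ) ∈ O3 k p b₁ E₃ R θt := by
  have hpos : 0 < (E₃ - E) * Real.exp (-((1 + p) * ζ.re)) :=
    mul_pos (by linarith) (Real.exp_pos _)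
  filter_upwards [Ioo_mem_nhdsGT hpos] with s hs
  obtain ⟨h1, h2⟩ := hs
  have e1 : (θt ζ - I * s - θt ζ).im = -s := by simp
  have e2 : (θt ζ - I * s - θt ζ).re = 0 := by simp
  refine ⟨?_, ?_, hτ, hζ⟩
  · show ‖θt ζ - I * s‖ < E₃ * Real.exp (-((1 + p) * ζ.re))
    have e3 : ‖I * (s : ℂ)‖ = s := by
      rw [norm_mul, norm_I, one_mul, norm_real, Real.norm_of_nonneg h1.le]
    have e4 := norm_sub_le (θt ζ) (I * s)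
    rw [e3] at e4
    linarith
  · show (θt ζ - I * s - θt ζ).im < 3 / 5 * |(θt ζ - I * s - θt ζ).re|
    rw [e1, e2, abs_zero]
    linarith

/-- the states blow up at the tip -/
private theorem f5_blow {k : ℕ} (hk : 1 ≤ k) {V Y : ℂ → ℂ} (h : Sh k V Y) {om : ℝ → ℂ}
    {l : Filter ℝ} (hom : Tendsto om l (𝓝[Xk k] (tip k))) :
    Tendsto (fun s => ‖C1f (Y (om s) ^ 2)‖) l atTop := by
  have hV : Tendsto (fun s => V (om s)) l (𝓝 I) := (h.tip hk).comp hom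
  have hmem : ∀ᶠ s in l, om s ∈ Xk k := hom.eventually eventually_mem_nhdsWithin
  have h1 : Tendsto (fun s => ‖V (om s)‖ ^ 2) l (𝓝 1) := by
    have h2 := (hV.norm).pow 2
    rwa [norm_I, one_pow] at h2
  have h3 : Tendsto (fun s => ‖1 + V (om s) ^ 2‖) l (𝓝 0) := by
    have h4 := ((hV.pow 2).const_add 1).norm
    rwa [I_sq, add_neg_cancel, norm_zero] at h4
  have h5 : Tendsto (fun s => ‖1 + V (om s) ^ 2‖) l (𝓝[>] 0) := by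
    refine tendsto_nhdsWithin_iff.2 ⟨h3, ?_⟩
    filter_upwards [hmem] with s hs
    rw [mem_Ioi, norm_pos_iff]
    intro h0
    obtain ⟨t1, -, t3, -⟩ := h.trig hs
    rw [h0, div_zero] at t3
    exact t1 (pow_eq_zero_iff (two_ne_zero)|>.1 t3)
  have h6 : Tendsto (fun s => ‖V (om s)‖ ^ 2 * ‖1 + V (om s) ^ 2‖⁻¹) l atTop :=
    h1.pos_mul_atTop one_pos (tendsto_inv_nhdsGT_zero.comp h5)
  have h7 : Tendsto (fun s => √(‖V (om s)‖ ^ 2 * ‖1 + V (om s) ^ 2‖⁻¹)) l atTop :=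
    Real.tendsto_sqrt_atTop.comp h6
  refine h7.congr' ?_
  filter_upwards [hmem] with s hs
  obtain ⟨-, t2, t3, -⟩ := h.trig hs
  have e1 : ‖C1f (Y (om s) ^ 2)‖ ^ 2 = ‖V (om s)‖ ^ 2 * ‖1 + V (om s) ^ 2‖⁻¹ := by
    rw [Pool.Agent.MP_ae5b4e_an_M.C1f_sq, t2, norm_neg, norm_mul, mul_pow,
      ← norm_pow (sin (Y (om s))), t3, one_div, norm_inv]
  rw [← e1, Real.sqrt_sq (norm_nonneg _)]

private theorem f5_im {θ : ℂ} {E E₃ e δ : ℝ} (he : 0 < e) (hδ : 0 < δ) (hδ1 : δ ≤ 1 / 10)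
    (h1 : 4 * E ≤ δ * E₃) (h2 : E₃ * e ≤ ‖θ‖) (h3 : θ.im < 2 * E * e) : θ.im < δ * |θ.re| := by
  have h4 : 4 * E * e ≤ δ * E₃ * e := mul_le_mul_of_nonneg_right h1 he.le
  have h5 : δ * (E₃ * e) ≤ δ * ‖θ‖ := mul_le_mul_of_nonneg_left h2 hδ.le
  have h6 : δ * ‖θ‖ ≤ δ * (|θ.re| + |θ.im|) :=
    mul_le_mul_of_nonneg_left (norm_le_abs_re_add_abs_im θ) hδ.le
  have h7 : 2 * θ.im < δ * |θ.re| + δ * |θ.im| := by linarith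
  rcases lt_or_ge θ.im 0 with h8 | h8
  · exact h8.trans_le (by positivity)
  · rw [abs_of_nonneg h8] at h7
    have h9 : δ * θ.im ≤ 1 / 10 * θ.im := mul_le_mul_of_nonneg_right hδ1 h8
    have h10 : 0 ≤ δ * |θ.re| := by positivity
    linarith

/-- the compact set of states at positive times -/
private theorem f5_K {q : ℂ → ℂ} {z₀ : ℂ} {μ : ℕ} {lam : ℂ → ℂ} {r r₀ : ℝ}
    (hch : ZChart q z₀ μ lam r) (hr0 : 0 < r₀) (hr : r₀ ≤ r) {X₁ : ℝ}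
    (hX : X₁ < Real.log r₀ / (2 / μ)) (M : ℝ) : ∃ K : Set (ℂ × ℂ), IsCompact K ∧
    K ⊆ Hm ×ˢ univ ∧ ∀ (Y : ℂ → ℂ) (x : ℂ × ℂ), (x.1 - x.2).re < X₁ → -M ≤ (x.1 - x.2).re →
      ‖Y x.1‖ ≤ M → stz (2 / μ) lam Y x ∈ K := by
  have hmu : (0 : ℝ) < μ := by exact_mod_cast hch.mu
  have hp : (0 : ℝ) < 2 / μ := by positivity
  have hlt : Real.exp (2 / μ * X₁) < r := by
    rw [lt_div_iff₀ hp] at hX
    calc Real.exp (2 / μ * X₁) < Real.exp (Real.log r₀) := Real.exp_lt_exp.2 (by linarith)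
      _ = r₀ := Real.exp_log hr0
      _ ≤ r := hr
  have hsub : closedBall (0 : ℂ) (Real.exp (2 / μ * X₁)) ⊆ ball 0 r := closedBall_subset_ball hlt
  refine ⟨(lam '' closedBall 0 (Real.exp (2 / μ * X₁))) ×ˢ closedBall 0 (M * Real.exp M),
    ((isCompact_closedBall _ _).image_of_continuousOn
      (hch.d.continuousOn.mono hsub)).prod (isCompact_closedBall _ _), ?_, ?_⟩
  · rintro ⟨a, b⟩ ⟨⟨c, hc, rfl⟩, -⟩
    exact ⟨(hch.val c (hsub hc)).1, mem_univ _⟩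
  · intro Y x h1 h2 h3
    refine ⟨⟨cexp (((2 / μ : ℝ) : ℂ) * (x.1 - x.2)), ?_, rfl⟩, ?_⟩
    · rw [mem_closedBall_zero_iff, Complex.norm_exp, re_ofReal_mul]
      exact Real.exp_le_exp.2 (mul_le_mul_of_nonneg_left h1.le hp.le)
    · show Y x.1 * cexp (x.2 - x.1) ∈ closedBall (0 : ℂ) (M * Real.exp M)
      rw [mem_closedBall_zero_iff, norm_mul, Complex.norm_exp]
      have h4 : (x.2 - x.1).re ≤ M := by
        rw [sub_re] at h2 ⊢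
        linarith
      exact mul_le_mul h3 (Real.exp_le_exp.2 h4) (Real.exp_pos _).le
        ((norm_nonneg _).trans h3)

/-- glueing of four families -/
private theorem f5_glue {q : ℂ → ℂ} {s : ℂ} {Ω₁ Ω₂ Ω₃ Ω₄ : Set (ℂ × ℂ)}
    {z₁ z₂ z₃ z₄ : ℂ × ℂ → ℂ × ℂ} (h1 : Fz q s Ω₁ z₁) (h2 : Fz q s Ω₂ z₂) (h3 : Fz q s Ω₃ z₃)
    (h4 : Fz q s Ω₄ z₄) (e12 : ∀ x ∈ Ω₁, x ∈ Ω₂ → z₁ x = z₂ x)
    (e13 : ∀ x ∈ Ω₁, x ∈ Ω₃ → z₁ x = z₃ x) (e14 : ∀ x ∈ Ω₁, x ∈ Ω₄ → z₁ x = z₄ x)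
    (e23 : ∀ x ∈ Ω₂, x ∈ Ω₃ → z₂ x = z₃ x) (e24 : ∀ x ∈ Ω₂, x ∈ Ω₄ → z₂ x = z₄ x)
    (e34 : ∀ x ∈ Ω₃, x ∈ Ω₄ → z₃ x = z₄ x) :
    ∃ (Ω : Set (ℂ × ℂ)) (z : ℂ × ℂ → ℂ × ℂ), Fz q s Ω z ∧
      (∀ x ∈ Ω₁, x ∈ Ω ∧ z x = z₁ x) ∧ (∀ x ∈ Ω₂, x ∈ Ω ∧ z x = z₂ x) ∧
      (∀ x ∈ Ω₃, x ∈ Ω ∧ z x = z₃ x) ∧ (∀ x ∈ Ω₄, x ∈ Ω ∧ z x = z₄ x) := by
  obtain ⟨z, hz, hze⟩ := Fz.glue (ι := Fin 4) (Ω := ![Ω₁, Ω₂, Ω₃, Ω₄]) (zi := ![z₁, z₂, z₃, z₄])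
    (q := q) (s := s) (fun i => by
      fin_cases i
      · exact h1
      · exact h2
      · exact h3
      · exact h4) (fun i j => by
      fin_cases i <;> fin_cases j
      · exact fun _ _ _ => rfl
      · exact e12
      · exact e13
      · exact e14
      · exact fun x hx hx' => (e12 x hx' hx).symm
      · exact fun _ _ _ => rfl
      · exact e23
      · exact e24
      · exact fun x hx hx' => (e13 x hx' hx).symm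
      · exact fun x hx hx' => (e23 x hx' hx).symm
      · exact fun _ _ _ => rfl
      · exact e34
      · exact fun x hx hx' => (e14 x hx' hx).symm
      · exact fun x hx hx' => (e24 x hx' hx).symm
      · exact fun x hx hx' => (e34 x hx' hx).symm
      · exact fun _ _ _ => rfl)
  exact ⟨_, z, hz, fun x hx => ⟨mem_iUnion.2 ⟨0, hx⟩, hze 0 x hx⟩,
    fun x hx => ⟨mem_iUnion.2 ⟨1, hx⟩, hze 1 x hx⟩,
    fun x hx => ⟨mem_iUnion.2 ⟨2, hx⟩, hze 2 x hx⟩,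
    fun x hx => ⟨mem_iUnion.2 ⟨3, hx⟩, hze 3 x hx⟩⟩

/-- FROM SECTIONS TO STATES. `p = 2 / μ`, `κ = kap p lam`, `X₀ = log r₀ / p`.

Proof. `Ω := O1 ∪ O2 ∪ O3 ∪ Oc`. `fz_sec` for the four sections (`Y` analytic on `Xk k`, `Sh.re_mem` (`Y ≠ 0`), `Sh.trig`,
`Sh.hasDerivAt_Y`; for `om₄`: `Shc.prop`, `T = TZ κ Y'`): `z₁, z₂, z₃` with `Y`, `z₄` with `Y'`. They agree on the overlaps:
`e12`, `e13`, `e24` (there `Y' (om₂ x) = Y (om₂ x)` by `Shc.eq`, `|Im om₂| < W`), `O2 ∩ O3`, `O1 ∩ Oc`, `O3 ∩ Oc` are empty.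
`Fz.glue` (index type `Fin 4`). `g1`, `g2`: `arg_lt_of_im` (`δ ≤ 1 / 10`). `g3`: if `‖θ‖ < E₃ exp (- (1 + p) Re ζ)` it is in
`O3`; otherwise `Im θ < 2 E exp (..) ≤ δ / 2 ‖θ‖ ≤ δ / 2 (|Re θ| + |Im θ|)`, so `Im θ < δ |Re θ|` and `x ∈ O1`
(`E < E₃`, `|be| < bt + 1 ≤ A`, `0 < bt`). `near`, `germ`: `Oc_near` (radius `e` for the ball `ball ζ₀ 1`), on `Oc`
`z = stz p lam Y' (om₄ x, x.2)` and `w = om₄ x` by `z_mem`, `z_inj`. `cpt`: for `x ∈ O1`, `ε ≤ ‖x.1‖`: with `M` from `bd`: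
`c := exp (p (om - ζ))` is in the closed ball of radius `exp (p X₁) < exp (p X₀) = r₀`, `K := lam '' closedBall ×ˢ closedBall 0 (M exp M)`
(`‖Y exp (ζ - om)‖ ≤ M exp M`, `0 ≤ M`). `lb`: `Re (tip - ζ) ≤ X₁ < X₀` (limit of `s3.mem` along `tip_lim`), so
`c := exp (p (tip - ζ))` is in the ball of radius `r₀ ≤ r`, `c ≠ 0`: `ZChart.val`, and the derivative of
`q (lam c) = c ^ μ` is `μ c ^ (μ - 1) ≠ 0`. `tip`: `θt ζ - I s ∈ O3` for small `s > 0` (and the norm condition: `‖θt ζ‖ ≤ E exp (..)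
< E₃ exp (..)`), `z.1 = lam (exp (p (om₃ - ζ)))`, continuity; `C1f (Y²) = cos Y = - V sin Y` (`stz_q`, `C1f_sq`, `Sh.trig`),
`‖sin Y‖² = 1 / ‖1 + V²‖ → ∞` as `V → I` (`Sh.tip`, `tip_lim`). -/
theorem zg_of_geo {q : ℂ → ℂ} (hq : DifferentiableOn ℂ q Hm) {z₀ : ℂ} {μ k : ℕ} {lam : ℂ → ℂ}
    {r r₀ : ℝ} (hch : ZChart q z₀ μ lam r) (hk : 1 ≤ k) (hr0 : 0 < r₀) (hr : r₀ ≤ r)
    (hd : ∀ c ∈ ball (0 : ℂ) r₀, deriv lam c ≠ 0) {V Y : ℂ → ℂ} (h : Sh k V Y) {c₁ : ℂ}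
    (hc₁ : c₁ ≠ 0) {b₁ A B δ : ℝ} (hb₁ : c₁ = ‖c₁‖ * cexp (b₁ * I)) (hB : Real.pi / 2 < B)
    (hB' : B + Real.pi / 2 + 1 / 25 ≤ bt k (2 / μ)) (hA : bt k (2 / μ) + 1 ≤ A) (hδ : 0 < δ)
    (hδ1 : δ ≤ 1 / 10) {X₁ R E E₃ rr R4 L L' : ℝ} {T : ℂ × ℂ → ℂ} {θt V' Y' : ℂ → ℂ}
    {om₁ om₂ om₃ om₄ : ℂ × ℂ → ℂ}
    (hG : Geo k V Y (2 / μ) (Real.log r₀ / (2 / μ)) c₁ (kap (2 / μ) lam) b₁ A B δ X₁ R E E₃ rr R4
      L L' T θt V' Y' om₁ om₂ om₃ om₄) :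
    ∃ (Ω : Set (ℂ × ℂ)) (z : ℂ × ℂ → ℂ × ℂ), ZG q k (2 / μ) lam c₁ b₁ A B δ R E rr θt Ω z := by
  have hmu : (0 : ℝ) < μ := by exact_mod_cast hch.mu
  have hp : (0 : ℝ) < 2 / μ := by positivity
  have hpi := Real.pi_gt_three
  have hWk := Wk_ge hk
  have hbt0 : 0 < bt k (2 / μ) := by linarith
  have hE := hG.E_pos
  have hE₃0 : 0 < E₃ := by
    by_contra hcon
    push Not at hcon
    have h1 : δ * E₃ ≤ 0 := mul_nonpos_of_nonneg_of_nonpos hδ.le hcon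
    linarith [hG.E₃_ge]
  have hEE : E < E₃ := by
    have h1 : δ * E₃ ≤ 1 / 10 * E₃ := mul_le_mul_of_nonneg_right hδ1 hE₃0.le
    linarith [hG.E₃_ge]
  have hδ2 : δ < Real.pi / 2 := by linarith
  have f1 := f5_fz hq hch hr0 hr hd h hG.X₁_lt subset_rfl (isOpen_O1 hE hδ2) hG.s1
  have f2 := f5_fz hq hch hr0 hr hd h hG.X₁_lt (fun z hz => Or.inl hz) (isOpen_O2 hδ2) hG.s2
  have f3 := f5_fz hq hch hr0 hr hd h hG.X₁_lt subset_rfl (isOpen_O3 hG.tip_an) hG.s3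
  have f4 := f5_fz4 hq hch hr0 hr hd hG.shc hG.X₁_lt (isOpen_Oc hδ2) hG.s4
  obtain ⟨Ω, z, hz, i1, i2, i3, i4⟩ := f5_glue f1 f2 f3 f4
    (fun x hx hx' => by rw [hG.e12 x hx hx']) (fun x hx hx' => by rw [hG.e13 x hx hx'])
    (fun x hx hx' => absurd hx' (Set.disjoint_left.1 hG.d14 hx))
    (fun x hx hx' => absurd hx' (Set.disjoint_left.1 hG.d23 hx))
    (fun x hx hx' => by
      have e1 := hG.e24 x hx hx'
      have e2 := (hG.shc.eq _ (hG.s2.mem x hx).1).2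
      show stz (2 / μ) lam Y (om₂ x, x.2) = stz (2 / μ) lam Y' (om₄ x, x.2)
      rw [← e1]
      unfold stz
      rw [e2])
    (fun x hx hx' => absurd hx' (Set.disjoint_left.1 hG.d34 hx))
  refine ⟨Ω, z, ?_⟩
  have hO1 : ∀ ζ θ : ℂ, R < ζ.re → |be (2 / μ) b₁ ζ| < A →
      E * Real.exp (-((1 + 2 / μ) * ζ.re)) < ‖θ‖ → ‖θ‖ < rr → θ.im < δ * |θ.re| →
      (θ, ζ) ∈ O1 (2 / μ) b₁ A δ E rr R := fun ζ θ h1 h2 h3 h4 h5 =>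
    ⟨(arg_lt_of_im hδ (by linarith) h5).1, h3, h4, h2, h1⟩
  have htipO3 : ∀ ζ : ℂ, R < ζ.re → |be (2 / μ) b₁ ζ - bt k (2 / μ)| < 1 / 25 →
      ∀ᶠ s : ℝ in 𝓝[>] 0, (θt ζ - I * s, ζ) ∈ O3 k (2 / μ) b₁ E₃ R θt := fun ζ h1 h2 =>
    f5_O3 hEE (hG.tip_le ζ h1) h1 h2
  have hcb : ∀ ζ : ℂ, R < ζ.re → |be (2 / μ) b₁ ζ - bt k (2 / μ)| < 1 / 25 →
      cexp (((2 / μ : ℝ) : ℂ) * (tip k - ζ)) ∈ ball (0 : ℂ) r₀ := by
    intro ζ h1 h2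
    refine f5_ball hch.mu hr0 (lt_of_le_of_lt ?_ hG.X₁_lt)
    have h3 : Tendsto (fun s : ℝ => (om₃ (θt ζ - I * s, ζ) - ζ).re) (𝓝[>] 0)
        (𝓝 (tip k - ζ).re) :=
      ((continuous_re.tendsto _).comp
        (((hG.tip_lim ζ h1 h2).mono_right nhdsWithin_le_nhds).sub_const ζ))
    refine le_of_tendsto h3 ?_
    filter_upwards [htipO3 ζ h1 h2] with s hs
    exact (hG.s3.mem _ hs).2.le
  refine
    { p_pos := hp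
      B_gt := hB
      B_le := hB'
      A_ge := hA
      δ_pos := hδ
      δ_le := hδ1
      E_pos := hE
      rr_pos := hG.rr_pos
      fz := hz
      g1 := fun ζ θ h1 h2 h3 h4 h5 => (i1 _ (hO1 ζ θ h1 h2 h3 h4 h5)).1
      g2 := fun ζ θ h1 h2 h3 => by
        obtain ⟨e1, e2⟩ := arg_lt_of_im hδ (by linarith) h3
        exact (i2 (θ, ζ) ⟨e1, e2, h2, h1⟩).1
      g3 := fun ζ θ h1 h2 h3 h4 h5 => ?_
      near := fun ζ₀ => ?_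
      tip_an := hG.tip_an
      tip_le := hG.tip_le
      cpt := fun ε hε => ?_
      lb := fun ζ h1 h2 => ?_
      tip := fun ζ h1 h2 => ?_
      germ := ⟨R4, X₁, V, Y, V', Y', h, hG.shc, hG.R4_gt, fun ζ₀ => ?_⟩ }
  · rcases lt_or_ge ‖θ‖ (E₃ * Real.exp (-((1 + 2 / μ) * ζ.re))) with h6 | h6
    · exact (i3 (θ, ζ) ⟨h6, h5, h2, h1⟩).1
    · have h7 := f5_im (Real.exp_pos _) hδ hδ1 hG.E₃_ge h6 h4
      refine (i1 _ (hO1 ζ θ h1 ?_ ?_ h3 h7)).1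
      · have h8 := abs_add_le (be (2 / μ) b₁ ζ - bt k (2 / μ)) (bt k (2 / μ))
        rw [sub_add_cancel, abs_of_pos hbt0] at h8
        linarith
      · exact lt_of_lt_of_le (mul_lt_mul_of_pos_right hEE (Real.exp_pos _)) h6
  · obtain ⟨e, he, hen⟩ := Oc_near (p := 2 / μ) (b₁ := b₁) hc₁ (δ := δ) (L := L) (L' := L') ζ₀
    refine ⟨e, he, fun ζ hζ θ h1 h2 => ?_⟩
    obtain ⟨e1, e2⟩ := arg_lt_of_im hδ (by linarith) h2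
    exact (i4 _ (hen ζ hζ θ e2 h1 e1)).1
  · obtain ⟨M, hM⟩ := hG.bd ε hε
    obtain ⟨K, hK1, hK2, hK3⟩ := f5_K hch hr0 hr hG.X₁_lt M
    refine ⟨K, hK1, hK2, fun ζ θ h1 h2 h3 h4 h5 h6 => ?_⟩
    have hx := hO1 ζ θ h1 h2 h3 h5 h6
    obtain ⟨m1, m2⟩ := hM _ hx h4
    rw [(i1 _ hx).2]
    exact hK3 Y (om₁ (θ, ζ), ζ) (hG.s1.mem _ hx).2 m1 m2
  · have hc := hcb ζ h1 h2
    have hcr := ball_subset_ball hr hc
    obtain ⟨v1, v2⟩ := hch.val _ hcr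
    refine ⟨v1, ?_, ?_⟩
    · rw [v2]
      exact pow_ne_zero _ (Complex.exp_ne_zero _)
    · intro h0
      have h3 := f5_qd hq hch hcr
      rw [h0, zero_mul] at h3
      exact mul_ne_zero (by exact_mod_cast hch.mu.ne') (pow_ne_zero _ (Complex.exp_ne_zero _))
        h3.symm
  · have hev : ∀ᶠ s : ℝ in 𝓝[>] 0, z (θt ζ - I * s, ζ) =
        stz (2 / μ) lam Y (om₃ (θt ζ - I * s, ζ), ζ) := by
      filter_upwards [htipO3 ζ h1 h2] with s hs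
      exact (i3 _ hs).2
    have hlim := hG.tip_lim ζ h1 h2
    constructor
    · have hcr := ball_subset_ball hr (hcb ζ h1 h2)
      have hlam : ContinuousAt lam (cexp (((2 / μ : ℝ) : ℂ) * (tip k - ζ))) :=
        ((hch.d _ hcr).differentiableAt (isOpen_ball.mem_nhds hcr)).continuousAt
      have h3 : Tendsto (fun s : ℝ => cexp (((2 / μ : ℝ) : ℂ) * (om₃ (θt ζ - I * s, ζ) - ζ)))
          (𝓝[>] 0) (𝓝 (cexp (((2 / μ : ℝ) : ℂ) * (tip k - ζ)))) :=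
        (Complex.continuous_exp.tendsto _).comp
          (((hlim.mono_right nhdsWithin_le_nhds).sub_const ζ).const_mul _)
      refine (hlam.tendsto.comp h3).congr' ?_
      filter_upwards [hev] with s hs
      rw [hs]
      rfl
    · refine (f5_blow hk h hlim).congr' ?_
      filter_upwards [hev, htipO3 ζ h1 h2] with s hs hs'
      rw [hs, (stz_q (x := (om₃ (θt ζ - I * s, ζ), ζ)) hch hr0 hr
        ((hG.s3.mem _ hs').2.trans hG.X₁_lt)).1]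
  · obtain ⟨e, he, hen⟩ := Oc_near (p := 2 / μ) (b₁ := b₁) hc₁ (δ := δ) (L := L) (L' := L') ζ₀
    refine ⟨e, he, fun ζ hζ θ h1 h2 w hw hwe => ?_⟩
    obtain ⟨e1, e2⟩ := arg_lt_of_im hδ (by linarith) h2
    have hx := hen ζ hζ θ e2 h1 e1
    obtain ⟨m1, m2⟩ := hG.z_mem _ hx
    have m3 := hG.z_inj _ m1 w hw (by rw [m2]; exact hwe)
    rw [(i4 _ hx).2, m3]

end Pool.Agent.MP_ae5b4e_an_AZ
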