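import Pool.Agent.Lib.MP_ae5b4e_an_AZ.F5

/-! # AZ: existence of the family of states at a zero of `q` -/

noncomputable section

namespace Pool.Agent.MP_ae5b4e_an_AZ

open Complex Set Filter Topology Metric
open Pool.Agent.MP_ae5b4e_an_M (S1 C1f E2 Gf bb)
open Pool.Agent.MP_ae5b4e_an_WD (ZChart)
open Pool.Agent.MP_ae5b4e_an_A1 (Fw gI)
open PorTR (Hm)

/-- THE GEOMETRY AT A ZERO OF `q`.

Proof. `p := 2 / μ`. `(1 + p) W > 3 π / 2` (`W ≥ 3 π / 2`, `p > 0`): let `δ := min (1 / 10) (((1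
+ p) W - 3 π / 2) / 8)` and
`V1 < W` with `(1 + p) (W - V1) ≤ δ`, `V1 > 1 / 4`; `B := (1 + p) V1 - π - δ`: `B - π / 2 ≥ (1 +
p) W - 3 π / 2 - 2 δ > 0`, and
`B + π / 2 + 1 / 25 ≤ (1 + p) W - π / 2 + 1 / 25 ≤ bt`. `exists_Sh`: `V, Y`; `Sh.strip` (`V1`):
`c, C` (wlog `0 < c`);
`η := min (1 / 20) (c / 2)`; `kap_of_chart`: `r₀`; `c₁ := (2 / μ) lam' (0)`. `geo`, `zg_of_geo`. -/
theorem zgeo {q : ℂ → ℂ} (hq : DifferentiableOn ℂ q Hm) {z₀ : ℂ} {μ k : ℕ} {lam : ℂ → ℂ} {r : ℝ}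
    (hch : ZChart q z₀ μ lam r) (hk : 1 ≤ k) {b₁ : ℝ}
    (hb₁ : deriv lam 0 = ‖deriv lam 0‖ * cexp (b₁ * I)) {A : ℝ} (hA : bt k (2 / μ) + 1 ≤ A) :
    ∃ (B δ R E rr : ℝ) (θt : ℂ → ℂ) (Ω : Set (ℂ × ℂ)) (z : ℂ × ℂ → ℂ × ℂ),
      ZG q k (2 / μ) lam ((2 / μ : ℝ) * deriv lam 0) b₁ A B δ R E rr θt Ω z := by
  have hmu : (0 : ℝ) < μ := by exact_mod_cast hch.mu
  obtain ⟨p, hp⟩ : ∃ p : ℝ, p = 2 / μ := ⟨_, rfl⟩
  have hp0 : 0 < p := hp ▸ by positivity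
  have hpi := Real.pi_gt_three
  have hpi4 := Real.pi_le_four
  have hk' : (1 : ℝ) ≤ k := by exact_mod_cast hk
  obtain ⟨Wr, hWr⟩ : ∃ Wr : ℝ, Wr = Wk k := ⟨_, rfl⟩
  have hW : 3 * Real.pi / 2 ≤ Wr := by
    have h1 : Wk k = k * Real.pi + Real.pi / 2 := by
      rw [Wk]
      ring
    rw [hWr, h1]
    nlinarith
  have hbt : bt k p = (1 + p) * Wr + Real.pi / 4 := by rw [hWr]; rfl
  have hD : 0 < (1 + p) * Wr - 3 * Real.pi / 2 := by nlinarith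
  obtain ⟨δ, hδd⟩ : ∃ δ : ℝ, δ = min (1 / 10) (((1 + p) * Wr - 3 * Real.pi / 2) / 8) := ⟨_, rfl⟩
  have hδ : 0 < δ := hδd ▸ lt_min (by norm_num) (by linarith)
  have hδ1 : δ ≤ 1 / 10 := hδd ▸ min_le_left _ _
  have hδ2 : δ ≤ ((1 + p) * Wr - 3 * Real.pi / 2) / 8 := hδd ▸ min_le_right _ _
  have hp1 : 0 < 1 + p := by linarith
  obtain ⟨V1, hV1d⟩ : ∃ V1 : ℝ, V1 = Wr - δ / (1 + p) := ⟨_, rfl⟩
  have hδp : 0 < δ / (1 + p) := div_pos hδ hp1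
  have hδp' : δ / (1 + p) ≤ 1 / 10 := by
    rw [div_le_iff₀ hp1]
    nlinarith
  have hV1 : V1 < Wr := by linarith
  have hV1' : 1 / 4 < V1 := by linarith
  have hpV : (1 + p) * V1 = (1 + p) * Wr - δ := by
    rw [hV1d, mul_sub, mul_div_cancel₀ _ hp1.ne']
  obtain ⟨B, hBd⟩ : ∃ B : ℝ, B = (1 + p) * V1 - Real.pi - δ := ⟨_, rfl⟩
  obtain ⟨V, Y, hSh⟩ := exists_Sh hk
  obtain ⟨c, C, hc, hb⟩ := hSh.strip hk (V1 := V1) (hWr ▸ hV1)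
  obtain ⟨r₀, hr0, hr, hd, hκ⟩ := kap_of_chart hch (η := min (1 / 20) (c / 2))
    (lt_min (by norm_num) (by linarith)) (min_le_left _ _)
  have hc₁ : ((2 / μ : ℝ) : ℂ) * deriv lam 0 =
      ‖((2 / μ : ℝ) : ℂ) * deriv lam 0‖ * cexp (b₁ * I) := by
    have h2 : ‖((2 / μ : ℝ) : ℂ)‖ = 2 / μ := by
      rw [Complex.norm_real, Real.norm_of_nonneg (by positivity)]
    rw [norm_mul, h2]
    conv_lhs => rw [hb₁]
    push_cast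
    ring
  have hne := hκ.c₁_ne
  rw [← hp] at hκ hc₁ hA hne ⊢
  obtain ⟨X₁, R, E, E₃, rr, R4, L, L', T, θt, V', Y', om₁, om₂, om₃, om₄, hG⟩ :=
    geo hSh hk hκ hc₁ hV1' (hWr ▸ hV1) hc (min_le_right _ _) hb (A := A) (B := B) (δ := δ)
      (by linarith) hδ hδ1 (by linarith) hA
  rw [hp] at hG hA hbt hne hc₁ ⊢
  obtain ⟨Ω, z, hZ⟩ := zg_of_geo hq hch hk hr0 hr hd hSh (c₁ := ((2 / μ : ℝ) : ℂ) * deriv lam 0)
    hne hc₁ (A := A) (B := B) (δ := δ) (by linarith) (by rw [hbt]; rw [← hp]; linarith) hA hδ hδ1 hG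
  exact ⟨B, δ, R, E, rr, θt, Ω, z, hZ⟩

end Pool.Agent.MP_ae5b4e_an_AZ
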