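import Mathlib

/-!
# POR, (Z'): potential theory, abstract part (section 2.4 and section 3 of POR_Z_PRIME)

`f n` holomorphic, `N n -> oo` along a filter `U`; a point is DEFICIENT if
`|f n| <= exp (- c N n)` on a ball about it for almost all `n`.

* `def_prop` : in a connected open set with `|f n| <= exp (eps N n)` locally (for every `eps`)
  a deficiency at one point propagates to all points (dichotomy, section 3);
* `half_strip` : on a half strip `Re > R0`, `|Im| < A`, with `|f n| <= exp ((C exp (- Re) + eps) N)`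
  everywhere, `|f n| <= exp (eps N)` on `|Im| < b`, `b > pi / 2`, and
  `|f n| >= exp (- (C exp (- x) + eps) N)` at `x + i bt` for all large `x`,
  no point of `|Im| < b` is deficient (section 2.4).
-/

namespace Pool.Agent.MP_ae5b4e_an_AZ

open Filter Topology Metric Set

/-- deficient at `z` -/
def DefAt (U : Filter ℕ) (N : ℕ → ℝ) (f : ℕ → ℂ → ℂ) (z : ℂ) : Prop :=
  ∃ r > 0, ∃ c > 0, ∀ᶠ n in U, ∀ w ∈ ball z r, ‖f n w‖ ≤ Real.exp (-(c * N n))

/-- annulus lemma (three circles with an integer exponent) -/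
theorem ann_le {f : ℂ → ℂ} {a : ℂ} {s R M1 M2 : ℝ} (K : ℕ)
    (hs : 0 < s) (hsR : s < R)
    (hf : ∀ z ∈ closedBall a R, DifferentiableAt ℂ f z)
    (h1 : ∀ z ∈ closedBall a R, ‖f z‖ ≤ M1) (h2 : ∀ z ∈ closedBall a s, ‖f z‖ ≤ M2)
    (hM : M2 * (R / s) ^ K ≤ M1) :
    ∀ z ∈ closedBall a R, s ≤ ‖z - a‖ → ‖f z‖ ≤ M1 * (‖z - a‖ / R) ^ K := by
  have hR : 0 < R := hs.trans hsR
  set A : Set ℂ := {z | s < ‖z - a‖ ∧ ‖z - a‖ < R} with hA
  have hAo : IsOpen A := by
    have h1 : IsOpen {z : ℂ | s < ‖z - a‖} := isOpen_lt continuous_const (by fun_prop)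
    have h2 : IsOpen {z : ℂ | ‖z - a‖ < R} := isOpen_lt (by fun_prop) continuous_const
    exact h1.inter h2
  have hcl : closure A ⊆ {z | s ≤ ‖z - a‖ ∧ ‖z - a‖ ≤ R} := by
    apply closure_minimal
    · intro z hz; exact ⟨hz.1.le, hz.2.le⟩
    · have h1 : IsClosed {z : ℂ | s ≤ ‖z - a‖} := isClosed_le continuous_const (by fun_prop)
      have h2 : IsClosed {z : ℂ | ‖z - a‖ ≤ R} := isClosed_le (by fun_prop) continuous_const
      exact h1.inter h2
  have hne : ∀ z ∈ closure A, z - a ≠ 0 := by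
    intro z hz h0
    have := (hcl hz).1
    rw [h0, norm_zero] at this
    linarith
  set g : ℂ → ℂ := fun z => f z * ((R : ℂ) / (z - a)) ^ K with hg
  have hgd : ∀ z ∈ closure A, DifferentiableAt ℂ g z := by
    intro z hz
    have hfd : DifferentiableAt ℂ f z :=
      hf z (by rw [mem_closedBall, dist_eq_norm]; exact (hcl hz).2)
    have hq : DifferentiableAt ℂ (fun z => (R : ℂ) / (z - a)) z :=
      (differentiableAt_const _).div (differentiableAt_id.sub (differentiableAt_const _))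
        (hne z hz)
    exact hfd.mul (hq.pow K)
  have hgc : DiffContOnCl ℂ g A :=
    ⟨fun z hz => (hgd z (subset_closure hz)).differentiableWithinAt,
      fun z hz => (hgd z hz).continuousAt.continuousWithinAt⟩
  have hbdd : Bornology.IsBounded A := by
    apply (isBounded_ball (x := a) (r := R)).subset
    intro z hz
    rw [mem_ball, dist_eq_norm]; exact hz.2
  have hgn : ∀ z, ‖g z‖ = ‖f z‖ * (R / ‖z - a‖) ^ K := by
    intro z
    simp only [hg, norm_mul, norm_pow, norm_div, Complex.norm_real, Real.norm_eq_abs,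
      abs_of_pos hR]
  have hfr : ∀ z ∈ frontier A, ‖g z‖ ≤ M1 := by
    intro z hz
    have hzc : z ∈ closure A := frontier_subset_closure hz
    have hzA : z ∉ A := by
      rw [hAo.frontier_eq] at hz; exact hz.2
    rw [hgn z]
    have hz1 := hcl hzc
    rcases eq_or_lt_of_le hz1.1 with h | h
    · have hM2 : ‖f z‖ ≤ M2 := h2 z (by rw [mem_closedBall, dist_eq_norm, ← h])
      rw [← h]
      exact (mul_le_mul_of_nonneg_right hM2 (by positivity)).trans hM
    · rcases eq_or_lt_of_le hz1.2 with h' | h'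
      · rw [h', div_self hR.ne', one_pow, mul_one]
        exact h1 z (by rw [mem_closedBall, dist_eq_norm, h'])
      · exact absurd ⟨h, h'⟩ hzA
  intro z hz hsz
  rw [mem_closedBall, dist_eq_norm] at hz
  have hpos : 0 < ‖z - a‖ := hs.trans_le hsz
  have key : ‖f z‖ * (R / ‖z - a‖) ^ K ≤ M1 := by
    rcases eq_or_lt_of_le hsz with h | h
    · have hM2 : ‖f z‖ ≤ M2 := h2 z (by rw [mem_closedBall, dist_eq_norm, ← h])
      rw [← h]
      exact (mul_le_mul_of_nonneg_right hM2 (by positivity)).trans hM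
    · rcases eq_or_lt_of_le hz with h' | h'
      · rw [h', div_self hR.ne', one_pow, mul_one]
        exact h1 z (by rw [mem_closedBall, dist_eq_norm, h'])
      · rw [← hgn z]
        exact Complex.norm_le_of_forall_mem_frontier_norm_le hbdd hgc hfr
          (subset_closure ⟨h, h'⟩)
  have h3 : (R / ‖z - a‖) ^ K * (‖z - a‖ / R) ^ K = 1 := by
    rw [← mul_pow]
    rw [show R / ‖z - a‖ * (‖z - a‖ / R) = 1 by field_simp]
    exact one_pow K
  calc ‖f z‖ = ‖f z‖ * ((R / ‖z - a‖) ^ K * (‖z - a‖ / R) ^ K) := by rw [h3, mul_one]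
    _ = (‖f z‖ * (R / ‖z - a‖) ^ K) * (‖z - a‖ / R) ^ K := by ring
    _ ≤ M1 * (‖z - a‖ / R) ^ K := mul_le_mul_of_nonneg_right key (by positivity)

/-- three circles with exponents -/
theorem had {f : ℂ → ℂ} {a : ℂ} {s t R c u N : ℝ} (hs : 0 < s) (hst : s ≤ t)
    (htR : t < R) (hc : 0 ≤ c) (hu : 0 ≤ u) (hN : 0 ≤ N)
    (hf : ∀ z ∈ closedBall a R, DifferentiableAt ℂ f z)
    (h1 : ∀ z ∈ closedBall a R, ‖f z‖ ≤ Real.exp (u * N))
    (h2 : ∀ z ∈ closedBall a s, ‖f z‖ ≤ Real.exp (-(c * N))) :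
    ∀ z ∈ closedBall a t, ‖f z‖ ≤
      Real.exp (Real.log (R / t) + (u - Real.log (R / t) / Real.log (R / s) * c) * N) := by
  have ht : 0 < t := hs.trans_le hst
  have hR : 0 < R := ht.trans htR
  have hsR : s < R := hst.trans_lt htR
  have hlt : 0 < Real.log (R / t) := Real.log_pos (by rw [lt_div_iff₀ ht]; linarith)
  have hls : 0 < Real.log (R / s) := Real.log_pos (by rw [lt_div_iff₀ hs]; linarith)
  have hle : Real.log (R / t) ≤ Real.log (R / s) :=
    Real.log_le_log (by positivity) (div_le_div_of_nonneg_left hR.le hs hst)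
  have hth : Real.log (R / t) / Real.log (R / s) ≤ 1 := (div_le_one hls).2 hle
  set K : ℕ := ⌊(c + u) * N / Real.log (R / s)⌋₊ with hK
  have hK0 : 0 ≤ (c + u) * N / Real.log (R / s) := by positivity
  have hK1 : (K : ℝ) * Real.log (R / s) ≤ (c + u) * N := by
    have := Nat.floor_le hK0
    rwa [← hK, le_div_iff₀ hls] at this
  have hK2 : (c + u) * N / Real.log (R / s) - 1 ≤ K := by
    have := Nat.lt_floor_add_one ((c + u) * N / Real.log (R / s))
    rw [← hK] at this
    linarith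
  have hpow : ∀ x : ℝ, 0 < x → x ^ K = Real.exp (K * Real.log x) := by
    intro x hx
    rw [Real.exp_nat_mul, Real.exp_log hx]
  have hM : Real.exp (-(c * N)) * (R / s) ^ K ≤ Real.exp (u * N) := by
    rw [hpow _ (by positivity), ← Real.exp_add]
    apply Real.exp_le_exp.2
    nlinarith
  have ann := ann_le K hs hsR hf h1 h2 hM
  intro z hz
  rw [mem_closedBall, dist_eq_norm] at hz
  by_cases hsz : s ≤ ‖z - a‖
  · have h3 := ann z (by rw [mem_closedBall, dist_eq_norm]; linarith) hsz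
    refine h3.trans ?_
    have h4 : (‖z - a‖ / R) ^ K ≤ (t / R) ^ K :=
      pow_le_pow_left₀ (by positivity) (div_le_div_of_nonneg_right hz hR.le) K
    refine (mul_le_mul_of_nonneg_left h4 (Real.exp_pos _).le).trans ?_
    rw [hpow _ (by positivity), ← Real.exp_add]
    apply Real.exp_le_exp.2
    have h5 : Real.log (t / R) = - Real.log (R / t) := by
      rw [← Real.log_inv, inv_div]
    rw [h5]
    have h6 : ((c + u) * N / Real.log (R / s) - 1) * Real.log (R / t)
        ≤ K * Real.log (R / t) := mul_le_mul_of_nonneg_right hK2 hlt.le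
    have h7 : Real.log (R / t) / Real.log (R / s) * (u * N) ≥ 0 := by positivity
    have h8 : ((c + u) * N / Real.log (R / s) - 1) * Real.log (R / t)
        = Real.log (R / t) / Real.log (R / s) * c * N
          + Real.log (R / t) / Real.log (R / s) * (u * N) - Real.log (R / t) := by
      field_simp
    linarith
  · push Not at hsz
    refine (h2 z (by rw [mem_closedBall, dist_eq_norm]; exact hsz.le)).trans ?_
    apply Real.exp_le_exp.2
    have h9 : Real.log (R / t) / Real.log (R / s) * (c * N) ≤ 1 * (c * N) :=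
      mul_le_mul_of_nonneg_right hth (by positivity)
    have h10 : 0 ≤ u * N := by positivity
    linarith

/-- compactness: local eventual statements are uniform on compact sets -/
theorem cpt_ev {U : Filter ℕ} {P : ℕ → ℂ → Prop} {K : Set ℂ} (hK : IsCompact K)
    (h : ∀ z ∈ K, ∃ r > 0, ∀ᶠ n in U, ∀ w ∈ ball z r, P n w) :
    ∀ᶠ n in U, ∀ w ∈ K, P n w := by
  refine hK.induction_on (p := fun s => ∀ᶠ n in U, ∀ w ∈ s, P n w) ?_ ?_ ?_ ?_
  · exact Eventually.of_forall (fun n w hw => absurd hw (Set.notMem_empty w))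
  · intro s t hst ht
    exact ht.mono (fun n hn w hw => hn w (hst hw))
  · intro s t hs ht
    filter_upwards [hs, ht] with n h1 h2 w hw
    exact hw.elim (h1 w) (h2 w)
  · intro z hz
    obtain ⟨r, hr, h1⟩ := h z hz
    exact ⟨ball z r, mem_nhdsWithin_of_mem_nhds (ball_mem_nhds z hr), h1⟩

/-- compactness for deficiency -/
theorem cpt_def {U : Filter ℕ} {N : ℕ → ℝ} (hN : Tendsto N U atTop) {f : ℕ → ℂ → ℂ} {K : Set ℂ}
    (hK : IsCompact K) (h : ∀ z ∈ K, DefAt U N f z) :
    ∃ c > 0, ∀ᶠ n in U, ∀ w ∈ K, ‖f n w‖ ≤ Real.exp (-(c * N n)) := by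
  have hN0 : ∀ᶠ n in U, 0 ≤ N n := hN.eventually_ge_atTop 0
  refine hK.induction_on (p := fun s => ∃ c > 0, ∀ᶠ n in U, ∀ w ∈ s,
    ‖f n w‖ ≤ Real.exp (-(c * N n))) ?_ ?_ ?_ ?_
  · exact ⟨1, one_pos, Eventually.of_forall (fun n w hw => absurd hw (Set.notMem_empty w))⟩
  · rintro s t hst ⟨c, hc, ht⟩
    exact ⟨c, hc, ht.mono (fun n hn w hw => hn w (hst hw))⟩
  · rintro s t ⟨c, hc, hs⟩ ⟨d, hd, ht⟩
    refine ⟨min c d, lt_min hc hd, ?_⟩
    filter_upwards [hs, ht, hN0] with n h1 h2 h3 w hw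
    rcases hw with hw | hw
    · refine (h1 w hw).trans (Real.exp_le_exp.2 ?_)
      have := mul_le_mul_of_nonneg_right (min_le_left c d) h3
      linarith
    · refine (h2 w hw).trans (Real.exp_le_exp.2 ?_)
      have := mul_le_mul_of_nonneg_right (min_le_right c d) h3
      linarith
  · intro z hz
    obtain ⟨r, hr, c, hc, h1⟩ := h z hz
    exact ⟨ball z r, mem_nhdsWithin_of_mem_nhds (ball_mem_nhds z hr), c, hc, h1⟩

theorem DefAt.near {U : Filter ℕ} {N : ℕ → ℝ} {f : ℕ → ℂ → ℂ} {z : ℂ} (h : DefAt U N f z) :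
    ∃ r > 0, ∀ w ∈ ball z r, DefAt U N f w := by
  obtain ⟨r, hr, c, hc, h1⟩ := h
  refine ⟨r, hr, fun w hw => ?_⟩
  rw [mem_ball] at hw
  refine ⟨r - dist w z, by linarith, c, hc, ?_⟩
  filter_upwards [h1] with n hn v hv
  rw [mem_ball] at hv
  exact hn v (by rw [mem_ball]; have := dist_triangle v w z; linarith)

/-- one step of the propagation: deficiency at the centre of a ball on which the upper bound `0`
holds gives deficiency at every point of the ball -/
theorem def_step {U : Filter ℕ} {N : ℕ → ℝ} (hN : Tendsto N U atTop) {f : ℕ → ℂ → ℂ}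
    {a z : ℂ} {R : ℝ} (hz : z ∈ ball a R)
    (hd : ∀ w ∈ closedBall a R, ∃ r > 0, ∀ᶠ n in U, DifferentiableOn ℂ (f n) (ball w r))
    (hb : ∀ ε > 0, ∀ w ∈ closedBall a R, ∃ r > 0, ∀ᶠ n in U, ∀ v ∈ ball w r,
      ‖f n v‖ ≤ Real.exp (ε * N n))
    (ha : DefAt U N f a) : DefAt U N f z := by
  obtain ⟨s0, hs0, c, hc, h1⟩ := ha
  rw [mem_ball, dist_eq_norm] at hz
  have hR : 0 < R := (norm_nonneg _).trans_lt hz
  set s : ℝ := min (s0 / 2) (R / 4) with hs
  have hsp : 0 < s := lt_min (by linarith) (by linarith)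
  have hsR : s ≤ R / 4 := min_le_right _ _
  have hss : s < s0 := (min_le_left _ _).trans_lt (by linarith)
  set t : ℝ := max s ((‖z - a‖ + R) / 2) with ht
  have htR : t < R := max_lt (by linarith) (by linarith)
  have hst : s ≤ t := le_max_left _ _
  have htp : 0 < t := hsp.trans_le hst
  have hzt : ‖z - a‖ < t := lt_of_lt_of_le (by linarith) (le_max_right _ _)
  have hlt : 0 < Real.log (R / t) := Real.log_pos (by rw [lt_div_iff₀ htp]; linarith)
  have hls : 0 < Real.log (R / s) := Real.log_pos (by rw [lt_div_iff₀ hsp]; linarith)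
  set θ : ℝ := Real.log (R / t) / Real.log (R / s) with hθ
  have hθ0 : 0 < θ := div_pos hlt hls
  refine ⟨t - ‖z - a‖, by linarith, θ * c / 4, by positivity, ?_⟩
  -- differentiability on the closed ball
  have hd' : ∀ᶠ n in U, ∀ w ∈ closedBall a R, DifferentiableAt ℂ (f n) w := by
    refine cpt_ev (isCompact_closedBall a R) ?_
    intro w hw
    obtain ⟨r, hr, h⟩ := hd w hw
    refine ⟨r, hr, h.mono (fun n hn v hv => hn.differentiableAt (isOpen_ball.mem_nhds hv))⟩
  have hb' : ∀ᶠ n in U, ∀ w ∈ closedBall a R, ‖f n w‖ ≤ Real.exp (θ * c / 2 * N n) :=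
    cpt_ev (isCompact_closedBall a R) (hb (θ * c / 2) (by positivity))
  have hNl : ∀ᶠ n in U, Real.log (R / t) / (θ * c / 4) ≤ N n := hN.eventually_ge_atTop _
  filter_upwards [h1, hd', hb', hNl, hN.eventually_ge_atTop 0] with n h1 hd' hb' hNl hN0 w hw
  rw [mem_ball, dist_eq_norm] at hw
  have hw' : w ∈ closedBall a t := by
    rw [mem_closedBall, dist_eq_norm]
    have : ‖w - a‖ ≤ ‖w - z‖ + ‖z - a‖ := by
      have := norm_add_le (w - z) (z - a)
      rwa [sub_add_sub_cancel] at this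
    linarith
  have hh := had hsp hst htR hc.le (by positivity : 0 ≤ θ * c / 2) hN0 hd' hb'
    (fun v hv => h1 v (closedBall_subset_ball hss hv)) w hw'
  refine hh.trans (Real.exp_le_exp.2 ?_)
  rw [← hθ]
  rw [div_le_iff₀ (by positivity)] at hNl
  nlinarith

/-- DICHOTOMY: in a connected open set with local upper bound `0`, a deficiency propagates -/
theorem def_prop {U : Filter ℕ} {N : ℕ → ℝ} (hN : Tendsto N U atTop) {f : ℕ → ℂ → ℂ}
    {O : Set ℂ} (hO : IsOpen O) (hc : IsPreconnected O)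
    (hd : ∀ w ∈ O, ∃ r > 0, ∀ᶠ n in U, DifferentiableOn ℂ (f n) (ball w r))
    (hb : ∀ ε > 0, ∀ w ∈ O, ∃ r > 0, ∀ᶠ n in U, ∀ v ∈ ball w r,
      ‖f n v‖ ≤ Real.exp (ε * N n))
    {z0 : ℂ} (h0 : z0 ∈ O) (hz0 : DefAt U N f z0) : ∀ z ∈ O, DefAt U N f z := by
  have hD : IsOpen {z | DefAt U N f z} := by
    rw [Metric.isOpen_iff]
    intro z hz
    exact DefAt.near hz
  set D : Set ℂ := {z | DefAt U N f z} with hDdef
  suffices hs : O ⊆ D from fun z hz => hs hz
  refine hc.subset_of_closure_inter_subset hD ⟨z0, h0, hz0⟩ ?_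
  rintro z ⟨hz, hzO⟩
  obtain ⟨R, hR, hRO⟩ := Metric.isOpen_iff.1 hO z hzO
  obtain ⟨a, ha, haz⟩ := Metric.mem_closure_iff.1 hz (R / 4) (by linarith)
  have hsub : closedBall a (R / 2) ⊆ O := by
    intro w hw
    apply hRO
    rw [mem_closedBall] at hw
    rw [mem_ball]
    have := dist_triangle w a z
    rw [dist_comm a z] at this
    linarith
  exact def_step hN (R := R / 2) (a := a) (by rw [mem_ball]; linarith)
    (fun w hw => hd w (hsub hw)) (fun ε hε w hw => hb ε hε w (hsub hw)) ha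

/-- rectangle lemma -/
theorem rect_le {f : ℂ → ℂ} {R1 R2 b l c e N : ℝ} (hR : R1 < R2) (hb : 0 < b)
    (hl : l * b = Real.pi / 2) (hc : 0 ≤ c) (he : 0 ≤ e) (hN : 0 ≤ N)
    (hf : ∀ z : ℂ, R1 ≤ z.re → z.re ≤ R2 → |z.im| ≤ b → DifferentiableAt ℂ f z)
    (h1 : ∀ z : ℂ, R1 ≤ z.re → z.re ≤ R2 → |z.im| ≤ b → ‖f z‖ ≤ Real.exp (e * N))
    (h2 : ∀ z : ℂ, z.re = R1 → |z.im| ≤ b → ‖f z‖ ≤ Real.exp (-(c * N))) :
    ∀ z : ℂ, R1 ≤ z.re → z.re ≤ R2 → |z.im| ≤ b →
      ‖f z‖ ≤ Real.exp ((e - c * ((Real.exp (-(l * (z.re - R1)))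
        - Real.exp (-(l * (2 * R2 - R1 - z.re)))) * Real.cos (l * z.im))) * N) := by
  have hlp : 0 < l := by
    by_contra h
    push Not at h
    have := mul_nonpos_of_nonpos_of_nonneg h hb.le
    have := Real.pi_pos
    linarith
  set Φ : ℂ → ℂ := fun z => Complex.exp (-(l * (z - R1))) - Complex.exp (-(l * (2 * R2 - R1 - z)))
    with hΦ
  have hΦre : ∀ z : ℂ, (Φ z).re = (Real.exp (-(l * (z.re - R1)))
        - Real.exp (-(l * (2 * R2 - R1 - z.re)))) * Real.cos (l * z.im) := by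
    intro z
    simp only [hΦ, Complex.sub_re, Complex.exp_re]
    have e1 : (-((l : ℂ) * (z - R1))).re = -(l * (z.re - R1)) := by simp
    have e2 : (-((l : ℂ) * (z - R1))).im = -(l * z.im) := by simp
    have e3 : (-((l : ℂ) * (2 * R2 - R1 - z))).re = -(l * (2 * R2 - R1 - z.re)) := by simp
    have e4 : (-((l : ℂ) * (2 * R2 - R1 - z))).im = l * z.im := by simp
    rw [e1, e2, e3, e4, Real.cos_neg]
    ring
  set g : ℂ → ℂ := fun z => f z * Complex.exp ((c * N : ℝ) * Φ z) with hg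
  have hgn : ∀ z, ‖g z‖ = ‖f z‖ * Real.exp (c * N * (Φ z).re) := by
    intro z
    simp only [hg, norm_mul, Complex.norm_exp, Complex.re_ofReal_mul]
  set Q : Set ℂ := Ioo R1 R2 ×ℂ Ioo (-b) b with hQ
  have hbb : -b < b := by linarith
  have hclQ : closure Q = Icc R1 R2 ×ℂ Icc (-b) b := by
    rw [hQ, Complex.closure_reProdIm, closure_Ioo hR.ne, closure_Ioo hbb.ne]
  have hmem : ∀ z : ℂ, z ∈ closure Q ↔ (R1 ≤ z.re ∧ z.re ≤ R2) ∧ |z.im| ≤ b := by
    intro z
    rw [hclQ, Complex.mem_reProdIm, mem_Icc, mem_Icc, abs_le]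
  have hgd : ∀ z ∈ closure Q, DifferentiableAt ℂ g z := by
    intro z hz
    obtain ⟨⟨h3, h4⟩, h5⟩ := (hmem z).1 hz
    have hd : DifferentiableAt ℂ (fun z => Complex.exp ((c * N : ℝ) * Φ z)) z := by
      simp only [hΦ]; fun_prop
    exact (hf z h3 h4 h5).mul hd
  have hgc : DiffContOnCl ℂ g Q :=
    ⟨fun z hz => (hgd z (subset_closure hz)).differentiableWithinAt,
      fun z hz => (hgd z hz).continuousAt.continuousWithinAt⟩
  have hbdd : Bornology.IsBounded Q := by
    rw [hQ]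
    exact (Metric.isBounded_Ioo R1 R2).reProdIm (Metric.isBounded_Ioo (-b) b)
  have hfr : ∀ z ∈ frontier Q, ‖g z‖ ≤ Real.exp (e * N) := by
    intro z hz
    have hzc : z ∈ closure Q := frontier_subset_closure hz
    obtain ⟨⟨h3, h4⟩, h5⟩ := (hmem z).1 hzc
    rw [hQ, Complex.frontier_reProdIm, frontier_Ioo hR, frontier_Ioo hbb] at hz
    rw [hgn z, hΦre z]
    have hcN : 0 ≤ c * N := mul_nonneg hc hN
    rcases hz with hz | hz
    · -- horizontal sides
      have him : z.im = -b ∨ z.im = b := by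
        have := (Complex.mem_reProdIm.1 hz).2
        simpa using this
      have hcos : Real.cos (l * z.im) = 0 := by
        rcases him with h | h
        · rw [h, mul_neg, Real.cos_neg, hl, Real.cos_pi_div_two]
        · rw [h, hl, Real.cos_pi_div_two]
      rw [hcos, mul_zero, mul_zero, Real.exp_zero, mul_one]
      exact h1 z h3 h4 h5
    · have hre : z.re = R1 ∨ z.re = R2 := by
        have := (Complex.mem_reProdIm.1 hz).1
        simpa using this
      rcases hre with h | h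
      · have h6 := h2 z h h5
        have hcos1 : Real.cos (l * z.im) ≤ 1 := Real.cos_le_one _
        have hcos0 : 0 ≤ Real.cos (l * z.im) := by
          apply Real.cos_nonneg_of_mem_Icc
          have h7 := abs_le.1 h5
          constructor
          · have := mul_le_mul_of_nonneg_left h7.1 hlp.le
            rw [mul_neg, hl] at this; linarith
          · have := mul_le_mul_of_nonneg_left h7.2 hlp.le
            rw [hl] at this; linarith
        have h8 : (Real.exp (-(l * (z.re - R1))) - Real.exp (-(l * (2 * R2 - R1 - z.re))))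
            * Real.cos (l * z.im) ≤ 1 := by
          rw [h, sub_self, mul_zero, neg_zero, Real.exp_zero]
          have h9 : 0 < Real.exp (-(l * (2 * R2 - R1 - R1))) := Real.exp_pos _
          have h10 : Real.exp (-(l * (2 * R2 - R1 - R1))) ≤ 1 := by
            rw [Real.exp_le_one_iff]
            nlinarith
          nlinarith
        calc ‖f z‖ * Real.exp (c * N * ((Real.exp (-(l * (z.re - R1)))
              - Real.exp (-(l * (2 * R2 - R1 - z.re)))) * Real.cos (l * z.im)))
            ≤ Real.exp (-(c * N)) * Real.exp (c * N * 1) := by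
              refine mul_le_mul h6 (Real.exp_le_exp.2 (mul_le_mul_of_nonneg_left h8 hcN))
                (Real.exp_pos _).le (Real.exp_pos _).le
          _ = 1 := by rw [← Real.exp_add]; simp
          _ ≤ Real.exp (e * N) := Real.one_le_exp (mul_nonneg he hN)
      · have h0 : Real.exp (-(l * (z.re - R1))) - Real.exp (-(l * (2 * R2 - R1 - z.re))) = 0 := by
          rw [h, show 2 * R2 - R1 - R2 = R2 - R1 by ring, sub_self]
        rw [h0, zero_mul, mul_zero, Real.exp_zero, mul_one]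
        exact h1 z h3 h4 h5
  intro z h3 h4 h5
  have h6 : ‖g z‖ ≤ Real.exp (e * N) :=
    Complex.norm_le_of_forall_mem_frontier_norm_le hbdd hgc hfr ((hmem z).2 ⟨⟨h3, h4⟩, h5⟩)
  rw [hgn z, hΦre z] at h6
  set X := (Real.exp (-(l * (z.re - R1))) - Real.exp (-(l * (2 * R2 - R1 - z.re))))
            * Real.cos (l * z.im) with hX
  have h7 : ‖f z‖ = (‖f z‖ * Real.exp (c * N * X)) * Real.exp (-(c * N * X)) := by
    rw [mul_assoc, ← Real.exp_add]; simp
  rw [h7]
  refine (mul_le_mul_of_nonneg_right h6 (Real.exp_pos _).le).trans ?_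
  rw [← Real.exp_add]
  apply Real.exp_le_exp.2
  linarith [mul_comm (e - c * X) N]

/-- the elementary contradiction `K exp (-l x) <= C exp (-x)` for large `x`, `l < 1` -/
theorem exp_contra {l K C x0 : ℝ} (hl : l < 1) (hK : 0 < K)
    (h : ∀ x, x0 < x → K * Real.exp (-(l * x)) ≤ C * Real.exp (-x)) : False := by
  have h1 : Tendsto (fun x : ℝ => Real.exp ((1 - l) * x)) atTop atTop :=
    Real.tendsto_exp_atTop.comp (tendsto_id.const_mul_atTop (by linarith))
  obtain ⟨x, hx1, hx2⟩ := ((h1.eventually_gt_atTop (C / K)).and (eventually_gt_atTop x0)).exists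
  have h2 := h x hx2
  have h3 : Real.exp ((1 - l) * x) * Real.exp (-x) = Real.exp (-(l * x)) := by
    rw [← Real.exp_add]; ring_nf
  rw [← h3] at h2
  have h4 : K * Real.exp ((1 - l) * x) ≤ C := by
    have h5 : 0 < Real.exp (-x) := Real.exp_pos _
    nlinarith
  rw [div_lt_iff₀ hK] at hx1
  linarith

/-- HALF STRIP THEOREM (section 2.4 of the text, centre line `Im = 0`) -/
theorem half_strip0 {U : Filter ℕ} [U.NeBot] {N : ℕ → ℝ} (hN : Tendsto N U atTop)
    {f : ℕ → ℂ → ℂ} {R0 A b C bt : ℝ} (hb : Real.pi / 2 < b) (hbA : b ≤ A) (hbt : |bt| < A)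
    (hC : 0 ≤ C)
    (hd : ∀ z : ℂ, R0 < z.re → |z.im| < A →
      ∃ r > 0, ∀ᶠ n in U, DifferentiableOn ℂ (f n) (ball z r))
    (h1 : ∀ ε > 0, ∀ z : ℂ, R0 < z.re → |z.im| < A → ∃ r > 0, ∀ᶠ n in U, ∀ w ∈ ball z r,
      ‖f n w‖ ≤ Real.exp ((C * Real.exp (-w.re) + ε) * N n))
    (h2 : ∀ ε > 0, ∀ z : ℂ, R0 < z.re → |z.im| < b → ∃ r > 0, ∀ᶠ n in U, ∀ w ∈ ball z r,
      ‖f n w‖ ≤ Real.exp (ε * N n))
    (h3 : ∀ ε > 0, ∀ x : ℝ, R0 < x → ∀ᶠ n in U,
      Real.exp (-((C * Real.exp (-x) + ε) * N n)) ≤ ‖f n (x + bt * Complex.I)‖)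
    {z0 : ℂ} (hz1 : R0 < z0.re) (hz2 : |z0.im| < b) : ¬ DefAt U N f z0 := by
  intro hdef
  have hpi3 : 3 < Real.pi := Real.pi_gt_three
  have hb0 : 0 < b := by linarith
  -- all points of the half strip are deficient
  set O : Set ℂ := {z | R0 < z.re ∧ |z.im| < b} with hOdef
  have hOo : IsOpen O := by
    have h4 : IsOpen {z : ℂ | R0 < z.re} := isOpen_lt continuous_const Complex.continuous_re
    have h5 : IsOpen {z : ℂ | |z.im| < b} :=
      isOpen_lt Complex.continuous_im.abs continuous_const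
    exact h4.inter h5
  have hOc : Convex ℝ O := by
    have h4 : Convex ℝ {z : ℂ | R0 < z.re} := convex_halfSpace_re_gt R0
    have h5 : Convex ℝ {z : ℂ | |z.im| < b} := by
      have h6 : {z : ℂ | |z.im| < b} = {z : ℂ | -b < z.im} ∩ {z : ℂ | z.im < b} := by
        ext z; simp [abs_lt]
      rw [h6]
      exact (convex_halfSpace_im_gt (-b)).inter (convex_halfSpace_im_lt b)
    exact h4.inter h5
  have hall : ∀ z ∈ O, DefAt U N f z :=
    def_prop hN hOo hOc.isPreconnected (fun w hw => hd w hw.1 (hw.2.trans_le hbA))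
      (fun ε hε w hw => h2 ε hε w hw.1 hw.2) ⟨hz1, hz2⟩ hdef
  -- the smaller strip
  set b' : ℝ := (Real.pi / 2 + b) / 2 with hb'
  have hb'1 : Real.pi / 2 < b' := by rw [hb']; linarith
  have hb'2 : b' < b := by rw [hb']; linarith
  have hb'0 : 0 < b' := by linarith
  set l : ℝ := Real.pi / (2 * b') with hl
  have hl1 : l < 1 := by rw [hl, div_lt_one (by positivity)]; linarith
  have hl0 : 0 < l := by positivity
  have hlb : l * b' = Real.pi / 2 := by rw [hl]; field_simp
  set R1 : ℝ := R0 + 1 with hR1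
  -- uniform deficiency on the segment Re = R1
  obtain ⟨c, hc, hseg⟩ : ∃ c > 0, ∀ᶠ n in U, ∀ w ∈ {z : ℂ | z.re = R1 ∧ |z.im| ≤ b'},
      ‖f n w‖ ≤ Real.exp (-(c * N n)) := by
    refine cpt_def hN ?_ ?_
    · have h4 : {z : ℂ | z.re = R1 ∧ |z.im| ≤ b'} = {R1} ×ℂ Icc (-b') b' := by
        ext z; simp [Complex.mem_reProdIm, abs_le]
      rw [h4]
      exact isCompact_singleton.reProdIm isCompact_Icc
    · rintro z ⟨hz1, hz2⟩
      exact hall z ⟨by rw [hz1, hR1]; linarith, hz2.trans_lt hb'2⟩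
  -- constants
  set t : ℝ := max |bt| (1 / 2) with ht
  set ρ : ℝ := (t + A) / 2 with hρ
  have htA : t < A := max_lt hbt (by linarith)
  have ht0 : 0 < t := by rw [ht]; positivity
  have htρ : t < ρ := by rw [hρ]; linarith
  have hρA : ρ < A := by rw [hρ]; linarith
  have hρ0 : 0 < ρ := ht0.trans htρ
  have ht2 : 1 / 2 ≤ t := le_max_right _ _
  have hlt : 0 < Real.log (ρ / t) := Real.log_pos (by rw [lt_div_iff₀ ht0]; linarith)
  have hls : 0 < Real.log (ρ / (1 / 2)) :=
    Real.log_pos (by rw [lt_div_iff₀ (by norm_num)]; linarith)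
  set θ : ℝ := Real.log (ρ / t) / Real.log (ρ / (1 / 2)) with hθ
  have hθ0 : 0 < θ := div_pos hlt hls
  set κ : ℝ := Real.exp (-(l * (1 / 2 - R1))) / 4 with hκ
  have hκ0 : 0 < κ := by positivity
  refine exp_contra (l := l) (K := θ * (c * κ / 2)) (C := C * (1 + Real.exp ρ))
    (x0 := R1 + ρ + 1) hl1 (by positivity) ?_
  intro x hx
  -- deficiency near the centre line
  set R2 : ℝ := x + 1 / 2 + 1 / l with hR2
  have hxR2 : x + 1 / 2 < R2 := by rw [hR2]; have : 0 < 1 / l := by positivity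
                                   linarith
  have hR12 : R1 < R2 := by linarith
  have hrect : IsCompact (Icc R1 R2 ×ℂ Icc (-b') b') := isCompact_Icc.reProdIm isCompact_Icc
  have hrm : ∀ z : ℂ, z ∈ Icc R1 R2 ×ℂ Icc (-b') b' ↔ (R1 ≤ z.re ∧ z.re ≤ R2) ∧ |z.im| ≤ b' := by
    intro z; rw [Complex.mem_reProdIm, mem_Icc, mem_Icc, abs_le]
  have hrd : ∀ᶠ n in U, ∀ w ∈ Icc R1 R2 ×ℂ Icc (-b') b', DifferentiableAt ℂ (f n) w := by
    refine cpt_ev hrect ?_
    intro w hw
    obtain ⟨⟨hw1, hw2⟩, hw3⟩ := (hrm w).1 hw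
    obtain ⟨r, hr, h⟩ := hd w (by linarith) (by linarith)
    refine ⟨r, hr, h.mono (fun n hn v hv => hn.differentiableAt (isOpen_ball.mem_nhds hv))⟩
  set E : ℝ := Real.exp (-(l * x)) with hE
  have hE0 : 0 < E := Real.exp_pos _
  have hsmall : ∀ᶠ n in U, ∀ w ∈ closedBall (x : ℂ) (1 / 2),
      ‖f n w‖ ≤ Real.exp (-(c * κ / 2 * E * N n)) := by
    have hru : ∀ᶠ n in U, ∀ w ∈ Icc R1 R2 ×ℂ Icc (-b') b',
        ‖f n w‖ ≤ Real.exp (c * κ / 2 * E * N n) := by
      refine cpt_ev hrect ?_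
      intro w hw
      obtain ⟨⟨hw1, hw2⟩, hw3⟩ := (hrm w).1 hw
      exact h2 (c * κ / 2 * E) (by positivity) w (by linarith) (by linarith)
    filter_upwards [hrd, hru, hseg, hN.eventually_ge_atTop 0] with n hrd hru hseg hN0 w hw
    rw [mem_closedBall, dist_eq_norm] at hw
    have hre : |w.re - x| ≤ 1 / 2 := by
      have := (Complex.abs_re_le_norm (w - x)).trans hw
      simpa using this
    have him : |w.im| ≤ 1 / 2 := by
      have := (Complex.abs_im_le_norm (w - x)).trans hw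
      simpa using this
    rw [abs_le] at hre
    have hw1 : R1 ≤ w.re := by linarith
    have hw2 : w.re ≤ R2 := by linarith
    have hw3 : |w.im| ≤ b' := by linarith
    have hR := rect_le hR12 hb'0 hlb hc.le (by positivity : 0 ≤ c * κ / 2 * E) hN0
      (fun z h4 h5 h6 => hrd z ((hrm z).2 ⟨⟨h4, h5⟩, h6⟩))
      (fun z h4 h5 h6 => hru z ((hrm z).2 ⟨⟨h4, h5⟩, h6⟩))
      (fun z h4 h5 => hseg z ⟨h4, h5⟩) w hw1 hw2 hw3
    refine hR.trans (Real.exp_le_exp.2 ?_)
    have hcos : 1 / 2 ≤ Real.cos (l * w.im) := by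
      have h6 : |l * w.im| ≤ 1 / 2 := by
        rw [abs_mul, abs_of_pos hl0]
        have : l * |w.im| ≤ 1 * (1 / 2) := mul_le_mul hl1.le him (abs_nonneg _) (by norm_num)
        linarith
      have h7 := Real.one_sub_sq_div_two_le_cos (x := l * w.im)
      have h8 : (l * w.im) ^ 2 ≤ (1 / 2) ^ 2 := by
        rw [← sq_abs]; exact pow_le_pow_left₀ (abs_nonneg _) h6 2
      linarith
    have hΦ : 2 * κ * E * 1 ≤ Real.exp (-(l * (w.re - R1)))
        - Real.exp (-(l * (2 * R2 - R1 - w.re))) := by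
      have h6 : Real.exp (-(l * (2 * R2 - R1 - w.re)))
          ≤ Real.exp (-(l * (w.re - R1))) / 2 := by
        have h7 : Real.exp (-(l * (2 * R2 - R1 - w.re)))
          ≤ Real.exp (-(l * (w.re - R1)) - 2) := by
          apply Real.exp_le_exp.2
          have h8 : l * (2 * R2 - 2 * w.re) ≥ 2 := by
            have h9 : 2 * R2 - 2 * w.re ≥ 2 * (1 / l) := by rw [hR2]; linarith
            calc l * (2 * R2 - 2 * w.re) ≥ l * (2 * (1 / l)) :=
                  mul_le_mul_of_nonneg_left h9 hl0.le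
              _ = 2 := by field_simp
          nlinarith
        refine h7.trans ?_
        rw [Real.exp_sub]
        apply div_le_div_of_nonneg_left (Real.exp_pos _).le (by norm_num)
        have := Real.add_one_le_exp (2 : ℝ)
        linarith
      have h7 : 4 * κ * E ≤ Real.exp (-(l * (w.re - R1))) := by
        rw [hκ, hE, show 4 * (Real.exp (-(l * (1 / 2 - R1))) / 4) * Real.exp (-(l * x))
          = Real.exp (-(l * (1 / 2 - R1))) * Real.exp (-(l * x)) by ring, ← Real.exp_add]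
        apply Real.exp_le_exp.2
        nlinarith
      linarith
    have hX : κ * E ≤ (Real.exp (-(l * (w.re - R1)))
        - Real.exp (-(l * (2 * R2 - R1 - w.re)))) * Real.cos (l * w.im) := by
      have h6 : 2 * κ * E * (1 / 2) ≤ (Real.exp (-(l * (w.re - R1)))
        - Real.exp (-(l * (2 * R2 - R1 - w.re)))) * Real.cos (l * w.im) :=
        mul_le_mul (by linarith) hcos (by norm_num) (by have : 0 < κ * E := by positivity
                                                        linarith)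
      linarith
    have hX2 := mul_le_mul_of_nonneg_left hX hc.le
    have hX3 : (c * κ / 2 * E - c * ((Real.exp (-(l * (w.re - R1)))
        - Real.exp (-(l * (2 * R2 - R1 - w.re)))) * Real.cos (l * w.im)))
        ≤ -(c * κ / 2 * E) := by linarith
    have hX4 := mul_le_mul_of_nonneg_right hX3 hN0
    linarith
  -- the big ball
  have hbig : ∀ w ∈ closedBall (x : ℂ) ρ, R0 < w.re ∧ |w.im| < A ∧ x - ρ ≤ w.re := by
    intro w hw
    rw [mem_closedBall, dist_eq_norm] at hw
    have hre : |w.re - x| ≤ ρ := by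
      have := (Complex.abs_re_le_norm (w - x)).trans hw
      simpa using this
    have him : |w.im| ≤ ρ := by
      have := (Complex.abs_im_le_norm (w - x)).trans hw
      simpa using this
    rw [abs_le] at hre
    exact ⟨by linarith, by linarith, by linarith⟩
  have hbd : ∀ᶠ n in U, ∀ w ∈ closedBall (x : ℂ) ρ, DifferentiableAt ℂ (f n) w := by
    refine cpt_ev (isCompact_closedBall _ _) ?_
    intro w hw
    obtain ⟨r, hr, h⟩ := hd w (hbig w hw).1 (hbig w hw).2.1
    refine ⟨r, hr, h.mono (fun n hn v hv => hn.differentiableAt (isOpen_ball.mem_nhds hv))⟩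
  -- it suffices to prove the inequality up to ε
  have hfin : ∀ ε > 0, θ * (c * κ / 2) * E ≤ C * (1 + Real.exp ρ) * Real.exp (-x) + 3 * ε := by
    intro ε hε
    set u : ℝ := C * Real.exp ρ * Real.exp (-x) + ε with hu
    have hu0 : 0 ≤ u := by positivity
    have hub : ∀ᶠ n in U, ∀ w ∈ closedBall (x : ℂ) ρ,
        ‖f n w‖ ≤ Real.exp ((C * Real.exp (-w.re) + ε) * N n) :=
      cpt_ev (isCompact_closedBall _ _) (fun w hw => h1 ε hε w (hbig w hw).1 (hbig w hw).2.1)
    have hlow := h3 ε hε x (by linarith)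
    have hNl : ∀ᶠ n in U, Real.log (ρ / t) / ε ≤ N n := hN.eventually_ge_atTop _
    obtain ⟨n, hn1, hn2, hn3, hn4, hn5, hn6, hn7⟩ :=
      (hsmall.and (hbd.and (hub.and (hlow.and (hNl.and ((hN.eventually_ge_atTop 0).and
        (hN.eventually_gt_atTop 0))))))).exists
    have hH := had (a := (x : ℂ)) (s := 1 / 2) (t := t) (R := ρ) (c := c * κ / 2 * E) (u := u)
      (N := N n) (by norm_num) ht2 htρ (by positivity) hu0 hn6 hn2
      (fun z hz => (hn3 z hz).trans (Real.exp_le_exp.2 (by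
        apply mul_le_mul_of_nonneg_right _ hn6
        have h4 := (hbig z hz).2.2
        have h5 : Real.exp (-z.re) ≤ Real.exp ρ * Real.exp (-x) := by
          rw [← Real.exp_add]; exact Real.exp_le_exp.2 (by linarith)
        have h6 := mul_le_mul_of_nonneg_left h5 hC
        rw [hu]; linarith))) hn1 (x + bt * Complex.I) (by
          rw [mem_closedBall, dist_eq_norm]
          have h4 : (x : ℂ) + bt * Complex.I - x = bt * Complex.I := by ring
          rw [h4, norm_mul, Complex.norm_I, mul_one, Complex.norm_real, Real.norm_eq_abs]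
          exact le_max_left _ _)
    have h4 := Real.exp_le_exp.1 (hn4.trans hH)
    rw [← hθ] at h4
    rw [div_le_iff₀ hε] at hn5
    have h5 : (θ * (c * κ / 2 * E)) * N n
        ≤ (C * (1 + Real.exp ρ) * Real.exp (-x) + 3 * ε) * N n := by
      rw [hu] at h4
      nlinarith
    have h6 := le_of_mul_le_mul_right h5 hn7
    linarith
  refine le_of_forall_pos_le_add (fun ε hε => ?_)
  have := hfin (ε / 3) (by positivity)
  linarith

/-- HALF STRIP THEOREM, centre line `Im = bc` -/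
theorem half_strip {U : Filter ℕ} [U.NeBot] {N : ℕ → ℝ} (hN : Tendsto N U atTop)
    {f : ℕ → ℂ → ℂ} {R0 A b C bc bt : ℝ} (hb : Real.pi / 2 < b) (hbA : b ≤ A)
    (hbt : |bt - bc| < A) (hC : 0 ≤ C)
    (hd : ∀ z : ℂ, R0 < z.re → |z.im - bc| < A →
      ∃ r > 0, ∀ᶠ n in U, DifferentiableOn ℂ (f n) (ball z r))
    (h1 : ∀ ε > 0, ∀ z : ℂ, R0 < z.re → |z.im - bc| < A → ∃ r > 0, ∀ᶠ n in U, ∀ w ∈ ball z r,
      ‖f n w‖ ≤ Real.exp ((C * Real.exp (-w.re) + ε) * N n))
    (h2 : ∀ ε > 0, ∀ z : ℂ, R0 < z.re → |z.im - bc| < b → ∃ r > 0, ∀ᶠ n in U, ∀ w ∈ ball z r,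
      ‖f n w‖ ≤ Real.exp (ε * N n))
    (h3 : ∀ ε > 0, ∀ x : ℝ, R0 < x → ∀ᶠ n in U,
      Real.exp (-((C * Real.exp (-x) + ε) * N n)) ≤ ‖f n (x + bt * Complex.I)‖)
    {z0 : ℂ} (hz1 : R0 < z0.re) (hz2 : |z0.im - bc| < b) : ¬ DefAt U N f z0 := by
  intro hdef
  have hsh : ∀ w z : ℂ, ∀ r : ℝ, w ∈ ball z r → w + bc * Complex.I ∈ ball (z + bc * Complex.I) r := by
    intro w z r hw
    rw [mem_ball, dist_eq_norm] at hw ⊢
    rwa [add_sub_add_right_eq_sub]
  have hre : ∀ z : ℂ, (z + bc * Complex.I).re = z.re := by intro z; simp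
  have him : ∀ z : ℂ, (z + bc * Complex.I).im - bc = z.im := by intro z; simp
  refine half_strip0 (U := U) (N := N) hN (f := fun n z => f n (z + bc * Complex.I))
    (R0 := R0) (A := A) (b := b) (C := C) (bt := bt - bc) hb hbA hbt hC ?_ ?_ ?_ ?_
    (z0 := z0 - bc * Complex.I) ?_ ?_ ?_
  · intro z hz1 hz2
    obtain ⟨r, hr, h⟩ := hd (z + bc * Complex.I) (by rwa [hre]) (by rwa [him])
    refine ⟨r, hr, h.mono (fun n hn => ?_)⟩
    exact hn.comp (differentiableOn_id.add_const _) (fun w hw => hsh w z r hw)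
  · intro ε hε z hz1 hz2
    obtain ⟨r, hr, h⟩ := h1 ε hε (z + bc * Complex.I) (by rwa [hre]) (by rwa [him])
    refine ⟨r, hr, h.mono (fun n hn w hw => ?_)⟩
    have := hn _ (hsh w z r hw)
    rwa [hre] at this
  · intro ε hε z hz1 hz2
    obtain ⟨r, hr, h⟩ := h2 ε hε (z + bc * Complex.I) (by rwa [hre]) (by rwa [him])
    exact ⟨r, hr, h.mono (fun n hn w hw => hn _ (hsh w z r hw))⟩
  · intro ε hε x hx
    refine (h3 ε hε x hx).mono (fun n hn => ?_)
    have h4 : (x : ℂ) + ((bt - bc : ℝ) : ℂ) * Complex.I + bc * Complex.I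
        = x + bt * Complex.I := by push_cast; ring
    simp only [h4]
    exact hn
  · simpa using hz1
  · simpa using hz2
  · obtain ⟨r, hr, c, hc, h⟩ := hdef
    refine ⟨r, hr, c, hc, h.mono (fun n hn w hw => ?_)⟩
    have h4 := hsh w _ r hw
    rw [sub_add_cancel] at h4
    exact hn _ h4

end Pool.Agent.MP_ae5b4e_an_AZ
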