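import Pool.Agent.Lib.MP_ae5b4e_an_A1.Push
import Pool.Agent.Lib.MP_ae5b4e_an_A1.Pe
import Pool.Agent.Lib.MP_ae5b4e_an_A1.Coord
import Pool.Agent.Lib.MP_ae5b4e_an_A1.Box
import Pool.Agent.Lib.MP_ae5b4e_an_A3.Osc
import Pool.Agent.Lib.MP_ae5b4e_an_AZ.ZP

/-!
# POR, (Z'), kick part: definitions

`Fn ε y₁ y₂ κ D F` (one `n`): `F (θ, c)` is `ε`-periodic in `θ`, and for the heights `y₁ < Im θ < y₂` and
the parameters `c ∈ D` analytic and bounded by `κ`. `md ε y F m c` (A3/Defs) is the `m`-th Fourier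
coefficient; the FIRST MODE (which grows upwards) is `m = -1`.
`pc p` = (height, parameter). `Pd U ε R X`: `X n` is `ε n`-periodic, and analytic and small over the
compact subsets of `R` for almost all `n`. `Kk U ε gn al ar R Zl Zr X`: `X` is the kick of the
passage from the exact family `Zl` at the abscissa `al` to the exact family `Zr` at `ar`:
after `m` steps the state `Zl n q` is the state of `Zr n` at the point `q + m ε + X n q` (`q` near the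
abscissa `al`, `q + m ε` near `ar`, on its right).
`Nd`: boxes at `∓ e` about a singular point at `0` (near data). `DfZ`: the first mode is deficient.
-/

noncomputable section

namespace Pool.Agent.MP_ae5b4e_an_AZ

open Complex Set Filter Topology Metric
open Pool.Agent.MP_ae5b4e_an_A1
open Pool.Agent.MP_ae5b4e_an_BX (Rec)
open Pool.Agent.MP_ae5b4e_an_A3 (rs md Dfc)

/-- single `n`: periodic, analytic and bounded over the heights `(y₁, y₂)` and the parameters `D` -/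
structure Fn (ε y₁ y₂ κ : ℝ) (D : Set ℂ) (F : ℂ × ℂ → ℂ) : Prop where
  per : ∀ p, F (tr ε p) = F p
  an : ∀ p : ℂ × ℂ, y₁ < p.1.im → p.1.im < y₂ → p.2 ∈ D → AnalyticAt ℂ F p
  bd : ∀ p : ℂ × ℂ, y₁ < p.1.im → p.1.im < y₂ → p.2 ∈ D → ‖F p‖ ≤ κ

theorem Fn.mono {ε y₁ y₂ κ : ℝ} {D : Set ℂ} {F : ℂ × ℂ → ℂ} (h : Fn ε y₁ y₂ κ D F) {y₁' y₂' κ' : ℝ}
    {D' : Set ℂ} (h1 : y₁ ≤ y₁') (h2 : y₂' ≤ y₂) (h3 : κ ≤ κ') (h4 : D' ⊆ D) :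
    Fn ε y₁' y₂' κ' D' F :=
  ⟨h.per, fun p a b c => h.an p (h1.trans_lt a) (b.trans_le h2) (h4 c),
    fun p a b c => (h.bd p (h1.trans_lt a) (b.trans_le h2) (h4 c)).trans h3⟩

/-- height and parameter -/
def pc (p : ℂ × ℂ) : ℝ × ℂ := (p.1.im, p.2)

/-- periodic deviations, analytic and small over the compact subsets of `R` -/
structure Pd (U : Ultrafilter ℕ) (ε : ℕ → ℝ) (R : Set (ℝ × ℂ)) (X : ℕ → ℂ × ℂ → ℂ × ℂ) : Prop where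
  per : ∀ n p, X n (tr (ε n) p) = X n p
  an : ∀ K ⊆ R, IsCompact K → ∀ᶠ n in (U : Filter ℕ), ∀ p, pc p ∈ K → AnalyticAt ℂ (X n) p
  lim : ∀ K ⊆ R, IsCompact K → ∀ δ : ℝ, 0 < δ →
    ∀ᶠ n in (U : Filter ℕ), ∀ p, pc p ∈ K → ‖X n p‖ ≤ δ

/-- `X` is the kick of the passage from `Zl` at `al` to `Zr` at `ar` -/
structure Kk (U : Ultrafilter ℕ) (ε : ℕ → ℝ) (gn : ℕ → ℂ × ℂ → ℂ × ℂ) (al ar : ℝ)
    (R : Set (ℝ × ℂ)) (Zl Zr X : ℕ → ℂ × ℂ → ℂ × ℂ) : Prop where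
  pd : Pd U ε R X
  rel : ∀ K ⊆ R, IsCompact K → ∃ w : ℝ, 0 < w ∧ ∀ᶠ n in (U : Filter ℕ), ∀ q : ℂ × ℂ, pc q ∈ K →
    |q.1.re - al| ≤ w → ∀ m : ℕ, ar ≤ q.1.re + m * ε n → q.1.re + m * ε n ≤ ar + w →
      Zr n (tr ((m * ε n : ℝ) : ℂ) q + X n q) = (stp (ε n) (gn n))^[m] (Zl n q)

/-- the heights and parameters of the regular passages between two abscissas -/
def Rp (Ω : Set (ℂ × ℂ)) (a₁ a₂ : ℝ) : Set (ℝ × ℂ) :=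
  {x | ∀ s ∈ Icc a₁ a₂, ((⟨s, x.1⟩ : ℂ), x.2) ∈ Ω}

/-- the first mode of the second component of `X` -/
def fm (ε : ℕ → ℝ) (y : ℝ) (X : ℕ → ℂ × ℂ → ℂ × ℂ) (n : ℕ) (c : ℂ) : ℂ :=
  md (ε n) y (fun p => (X n p).2) (-1) c

/-- the large numbers `2 π / ε n` -/
def NN (ε : ℕ → ℝ) (n : ℕ) : ℝ := 2 * Real.pi / ε n

/-- change of coordinates (it commutes with the translations of the first variable) -/
def ch (τ σ : ℂ → ℂ) (p : ℂ × ℂ) : ℂ × ℂ := (p.1 + τ p.2, σ p.2)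

/-- near data: boxes at `∓ e`; `z` is regular in the region `‖θ‖ < 2 e`, `Im θ < d |Re θ|` -/
structure Nd (U : Ultrafilter ℕ) (ε : ℕ → ℝ) (gn : ℕ → ℂ × ℂ → ℂ × ℂ) (Ω : Set (ℂ × ℂ))
    (z : ℂ × ℂ → ℂ × ℂ) (d e h r : ℝ) (c₀ : ℂ) (Zl Zr X : ℕ → ℂ × ℂ → ℂ × ℂ) : Prop where
  e_pos : 0 < e
  h_pos : 0 < h
  r_pos : 0 < r
  h_e : 2 * h ≤ e
  h_d : h * (1 + d) ≤ d * e
  reg : ∀ c ∈ ball c₀ r, ∀ θ : ℂ, ‖θ‖ < 2 * e → θ.im < d * |θ.re| → (θ, c) ∈ Ω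
  exl : Ex U ε gn (Rec (-e - h) (-e + h) (-h) h ×ˢ ball c₀ r) z Zl
  exr : Ex U ε gn (Rec (e - h) (e + h) (-h) h ×ˢ ball c₀ r) z Zr
  kk : Kk U ε gn (-e) e (Ioo (-h) 0 ×ˢ ball c₀ r) Zl Zr X

/-- THE FIRST MODE OF THE SINGULAR POINT AT `0` IS DEFICIENT at the parameter `c₀` -/
def DfZ (U : Ultrafilter ℕ) (ε : ℕ → ℝ) (gn : ℕ → ℂ × ℂ → ℂ × ℂ) (Ω : Set (ℂ × ℂ))
    (z : ℂ × ℂ → ℂ × ℂ) (d : ℝ) (c₀ : ℂ) : Prop :=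
  ∃ (e h r : ℝ) (Zl Zr X : ℕ → ℂ × ℂ → ℂ × ℂ), Nd U ε gn Ω z d e h r c₀ Zl Zr X ∧
    DefAt U (NN ε) (fm ε (-(h / 2)) X) c₀

/-- the geometry at a point `Z_k`: coordinates `(θ, ζ)`, `Z_k` at `θ = 0`, `ζ` = logarithm of the
parameter, `be ζ = (1 + p) Im ζ - b0`; `d` = slope of the region, `ρ` = abscissa of the far boxes -/
structure ZGeo (M : Set (ℂ × ℂ)) (g : ℂ × ℂ → ℂ × ℂ) (Ω : Set (ℂ × ℂ)) (z : ℂ × ℂ → ℂ × ℂ)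
    (d ρ p b0 b A C R0 : ℝ) : Prop where
  fw : Fw M g Ω z
  d_pos : 0 < d
  ρ_pos : 0 < ρ
  p_pos : 0 < p
  b_gt : Real.pi / 2 < b
  b_le : b ≤ A
  C_nonneg : 0 ≤ C
  near : ∀ c : ℂ, ∃ e r : ℝ, 0 < e ∧ 0 < r ∧ ∀ c' ∈ ball c r, ∀ θ : ℂ, ‖θ‖ < 2 * e →
    θ.im < d * |θ.re| → (θ, c') ∈ Ω
  strip : ∀ c : ℂ, |(1 + p) * c.im - b0 - Real.pi / 2| < b → ∀ θ : ℂ, ‖θ‖ < 2 * ρ →
    θ.im < d * |θ.re| → (θ, c) ∈ Ω
  far : ∀ c : ℂ, R0 < (1 + p) * c.re → |(1 + p) * c.im - b0 - Real.pi / 2| < A → ∀ θ : ℂ,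
    C * Real.exp (-((1 + p) * c.re)) < ‖θ‖ → ‖θ‖ < 2 * ρ → θ.im < d * |θ.re| → (θ, c) ∈ Ω
  cpt : ∃ K : Set (ℂ × ℂ), IsCompact K ∧ K ⊆ M ∧ ∀ c : ℂ, R0 < (1 + p) * c.re →
    |(1 + p) * c.im - b0 - Real.pi / 2| < A → ∀ θ : ℂ, ρ / 2 < ‖θ‖ → ‖θ‖ < 2 * ρ →
      θ.im < d * |θ.re| → z (θ, c) ∈ K

@[simp] theorem pc_tr (t : ℝ) (p : ℂ × ℂ) : pc (tr (t : ℂ) p) = pc p := by
  simp [pc]

theorem continuous_pc : Continuous pc := by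
  unfold pc
  fun_prop

@[simp] theorem ch_tr (τ σ : ℂ → ℂ) (t : ℂ) (p : ℂ × ℂ) : ch τ σ (tr t p) = tr t (ch τ σ p) := by
  ext
  · simp [ch, tr]; ring
  · simp [ch, tr]

theorem NN_pos {ε : ℕ → ℝ} (h0 : ∀ n, 0 < ε n) (n : ℕ) : 0 < NN ε n :=
  div_pos (by positivity) (h0 n)

theorem NN_lim {U : Ultrafilter ℕ} {ε : ℕ → ℝ} (h0 : ∀ n, 0 < ε n) (h1 : Tendsto ε U (𝓝 0)) :
    Tendsto (NN ε) (U : Filter ℕ) atTop := by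
  unfold NN
  have h2 : Tendsto ε U (𝓝[>] 0) :=
    tendsto_nhdsWithin_iff.2 ⟨h1, Eventually.of_forall h0⟩
  exact (tendsto_const_nhds (x := 2 * Real.pi)).pos_mul_atTop (by positivity)
    (tendsto_inv_nhdsGT_zero.comp h2) |>.congr fun n => by simp [div_eq_mul_inv]

variable {U : Ultrafilter ℕ} {ε : ℕ → ℝ} {R R' : Set (ℝ × ℂ)} {X : ℕ → ℂ × ℂ → ℂ × ℂ}
  {gn : ℕ → ℂ × ℂ → ℂ × ℂ} {al ar : ℝ} {Zl Zr : ℕ → ℂ × ℂ → ℂ × ℂ}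

theorem Pd.mono (h : Pd U ε R X) (hR : R' ⊆ R) : Pd U ε R' X :=
  ⟨h.per, fun K hK => h.an K (hK.trans hR), fun K hK => h.lim K (hK.trans hR)⟩

theorem Kk.mono (h : Kk U ε gn al ar R Zl Zr X) (hR : R' ⊆ R) : Kk U ε gn al ar R' Zl Zr X :=
  ⟨h.pd.mono hR, fun K hK => h.rel K (hK.trans hR)⟩

theorem Ex.mono' {O O' : Set (ℂ × ℂ)} {z : ℂ × ℂ → ℂ × ℂ} {Z : ℕ → ℂ × ℂ → ℂ × ℂ}
    (h : Ex U ε gn O z Z) (hO : O' ⊆ O) : Ex U ε gn O' z Z :=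
  ⟨fun K hK => h.an K (hK.trans hO), fun K hK => h.eq K (hK.trans hO),
    fun K hK => h.conv K (hK.trans hO)⟩

/-- `Ex` depends only on the values of `z` on `O` -/
theorem Ex.congr' {O : Set (ℂ × ℂ)} {z z' : ℂ × ℂ → ℂ × ℂ} {Z : ℕ → ℂ × ℂ → ℂ × ℂ}
    (h : Ex U ε gn O z Z) (hz : ∀ p ∈ O, z p = z' p) : Ex U ε gn O z' Z :=
  ⟨h.an, h.eq, fun K hK hc δ hδ => by
    filter_upwards [h.conv K hK hc δ hδ] with n hn p hp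
    rw [← hz p (hK hp)]
    exact hn p hp⟩

end Pool.Agent.MP_ae5b4e_an_AZ
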