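import Pool.Agent.Lib.MP_ae5b4e_an_AZ.F5b
import Pool.Agent.Lib.MP_ae5b4e_an_AZ.KDefs

/-! # AZ: the geometry in the form used by the kick part -/

noncomputable section

namespace Pool.Agent.MP_ae5b4e_an_AZ

open Complex Set Filter Topology Metric
open Pool.Agent.MP_ae5b4e_an_WD (ZChart)
open Pool.Agent.MP_ae5b4e_an_A1 (Fw gI)
open PorTR (Hm)

/-- The form used by the kick part (KDefs). Proof. `Fz.fw`; `far`: `R0 < (1 + p) Re c` gives `R < Re c`,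
`|be - π / 2| < A - π / 2` gives `|be| < A`; `cpt` with `ε = rr / 4`: `E exp (- R0) ≤ rr / 4` by the choice of `R0`;
`near` with `e / 2`. -/
theorem ZG.zgeo {q : ℂ → ℂ} (hq : DifferentiableOn ℂ q Hm) {k : ℕ} {p : ℝ} {lam : ℂ → ℂ} {c₁ : ℂ}
    {b₁ A B δ R E rr : ℝ} {θt : ℂ → ℂ} {Ω : Set (ℂ × ℂ)} {z : ℂ × ℂ → ℂ × ℂ}
    (h : ZG q k p lam c₁ b₁ A B δ R E rr θt Ω z) {R0 : ℝ} (h1 : (1 + p) * R ≤ R0)
    (h2 : E * Real.exp (-R0) ≤ rr / 4) :
    ZGeo (Hm ×ˢ univ) (gI q) Ω z δ (rr / 2) p b₁ B (A - Real.pi / 2) E R0 := by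
  have hp1 : 0 < 1 + p := by linarith [h.p_pos]
  have hpi := Real.pi_gt_three
  have hR : ∀ c : ℂ, R0 < (1 + p) * c.re → R < c.re := fun c hc =>
    lt_of_mul_lt_mul_left (h1.trans_lt hc) hp1.le
  have hbe : ∀ c : ℂ, |(1 + p) * c.im - b₁ - Real.pi / 2| < A - Real.pi / 2 →
      |be p b₁ c| < A := by
    intro c hc
    have h3 := abs_lt.1 hc
    rw [be, abs_lt]
    constructor <;> linarith [h3.1, h3.2]
  have h2ρ : 2 * (rr / 2) = rr := by ring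
  refine
    { fw := Fz.fw hq (pow_ne_zero _ (by norm_num)) h.fz
      d_pos := h.δ_pos
      ρ_pos := half_pos h.rr_pos
      p_pos := h.p_pos
      b_gt := h.B_gt
      b_le := by linarith [h.B_le, h.A_ge]
      C_nonneg := h.E_pos.le
      near := fun c => ?_
      strip := fun c hc θ h3 h4 => ?_
      far := fun c hc hc' θ h3 h4 h5 => ?_
      cpt := ?_ }
  · obtain ⟨e, he, hen⟩ := h.near c
    refine ⟨e / 2, 1, half_pos he, one_pos, fun c' hc' θ h3 h4 => hen c' hc' θ ?_ h4⟩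
    linarith
  · exact h.g2 c θ hc (by rwa [h2ρ] at h3) h4
  · exact h.g1 c θ (hR c hc) (hbe c hc') h3 (by rwa [h2ρ] at h4) h5
  · obtain ⟨K, hK1, hK2, hK3⟩ := h.cpt (rr / 4) (by linarith [h.rr_pos])
    refine ⟨K, hK1, hK2, fun c hc hc' θ h3 h4 h5 => ?_⟩
    have h6 : E * Real.exp (-((1 + p) * c.re)) ≤ E * Real.exp (-R0) :=
      mul_le_mul_of_nonneg_left (Real.exp_le_exp.2 (by linarith)) h.E_pos.le
    refine hK3 c θ (hR c hc) (hbe c hc') ?_ ?_ (by rwa [h2ρ] at h4) h5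
    · linarith
    · linarith

end Pool.Agent.MP_ae5b4e_an_AZ
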