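import Pool.Agent.Lib.MP_ae5b4e_an_AZ.Lift

/-! # AZ: sections of maps `(om, ζ) ↦ (F (om, ζ), ζ)` -/

noncomputable section

namespace Pool.Agent.MP_ae5b4e_an_AZ

open Complex Set Filter Topology Metric

/-- Proof. `fderiv` of `y ↦ (F y, y.2)` at `x` is `(a, b) ↦ (d a + e b, b)` with `e = fderiv F x (0, 1)`,
`fderiv F x (1, 0) = d` (chain rule); inverse `(u, b) ↦ ((u - e b) / d, b)`
(`ContinuousLinearEquiv.equivOfInverse`, or an injective endomorphism of a finite dimensional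
space: `LinearEquiv.ofInjectiveEndo`). -/
theorem pair_inv {F : ℂ × ℂ → ℂ} {x : ℂ × ℂ} (hF : AnalyticAt ℂ F x) {d : ℂ}
    (hd : HasDerivAt (fun z => F (z, x.2)) d x.1) (hd0 : d ≠ 0) :
    (fderiv ℂ (fun y : ℂ × ℂ => (F y, y.2)) x).IsInvertible := by
  obtain ⟨L, hL⟩ : ∃ L, L = fderiv ℂ F x := ⟨_, rfl⟩
  have h1 : HasFDerivAt F L x := by
    rw [hL]
    exact hF.differentiableAt.hasFDerivAt
  have h2 : HasFDerivAt (fun y : ℂ × ℂ => (F y, y.2))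
      (L.prod (ContinuousLinearMap.snd ℂ ℂ ℂ)) x := h1.prodMk hasFDerivAt_snd
  have h3 : HasDerivAt (fun z : ℂ => (z, x.2)) ((1 : ℂ), (0 : ℂ)) x.1 :=
    (hasDerivAt_id x.1).prodMk (hasDerivAt_const x.1 x.2)
  have h4 : HasDerivAt (fun z => F (z, x.2)) (L (1, 0)) x.1 := by
    have h1' : HasFDerivAt F L ((fun z : ℂ => (z, x.2)) x.1) := h1
    exact h1'.comp_hasDerivAt x.1 h3
  have hLd : L (1, 0) = d := h4.unique hd
  have hLab : ∀ a b : ℂ, L (a, b) = a * d + b * L (0, 1) := by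
    intro a b
    have h5 : ((a, b) : ℂ × ℂ) = a • ((1 : ℂ), (0 : ℂ)) + b • ((0 : ℂ), (1 : ℂ)) := by simp
    rw [h5, map_add, map_smul, map_smul, hLd]
    simp
  rw [h2.fderiv]
  refine ⟨ContinuousLinearEquiv.equivOfInverse (L.prod (ContinuousLinearMap.snd ℂ ℂ ℂ))
    ((d⁻¹ • (ContinuousLinearMap.fst ℂ ℂ ℂ - L (0, 1) • ContinuousLinearMap.snd ℂ ℂ ℂ)).prod
      (ContinuousLinearMap.snd ℂ ℂ ℂ)) ?_ ?_, rfl⟩
  · rintro ⟨a, b⟩
    refine Prod.ext ?_ rfl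
    change d⁻¹ * (L (a, b) - L (0, 1) * b) = a
    rw [hLab]
    field_simp
    ring
  · rintro ⟨a, b⟩
    refine Prod.ext ?_ rfl
    change L (d⁻¹ * (a - L (0, 1) * b), b) = a
    rw [hLab]
    field_simp
    ring

/-- Sections with a parameter. Proof. `exists_section` for `f y = (F y, y.2)` on `E = ℂ × ℂ`; `g :=` first
component of the section, the second component is the identity. -/
theorem sec_pair {F : ℂ × ℂ → ℂ} {P G : Set (ℂ × ℂ)} {x₀ : ℂ × ℂ} (hP : IsOpen P)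
    (hF : AnalyticOnNhd ℂ F P) {d : ℂ × ℂ → ℂ}
    (hd : ∀ x ∈ P, HasDerivAt (fun z => F (z, x.2)) (d x) x.1 ∧ d x ≠ 0) (hG : IsOpen G)
    (hs : StarConvex ℝ (F x₀, x₀.2) G)
    (hprop : ∀ C ⊆ G, IsCompact C → IsCompact (P ∩ (fun y : ℂ × ℂ => (F y, y.2)) ⁻¹' C))
    (hx : x₀ ∈ P) (hy : (F x₀, x₀.2) ∈ G) :
    ∃ g : ℂ × ℂ → ℂ, AnalyticOnNhd ℂ g G ∧ (∀ y ∈ G, (g y, y.2) ∈ P ∧ F (g y, y.2) = y.1) ∧
      g (F x₀, x₀.2) = x₀.1 := by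
  obtain ⟨s, hsA, hsP, hs0⟩ := exists_section (E := ℂ × ℂ) (f := fun y : ℂ × ℂ => (F y, y.2))
    (x₀ := x₀) (y₀ := (F x₀, x₀.2)) hP (fun x hx => (hF x hx).prod analyticAt_snd)
    (fun x hx => pair_inv (hF x hx) (hd x hx).1 (hd x hx).2) hG hs hprop hx rfl hy
  have key : ∀ y ∈ G, ((s y).1, y.2) = s y := by
    intro y hy
    have h1 : (F (s y), (s y).2) = y := (hsP y hy).2
    have h2 : (s y).2 = y.2 := by
      have h4 := congrArg Prod.snd h1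
      exact h4
    exact Prod.ext rfl h2.symm
  refine ⟨fun y => (s y).1, fun y hy => analyticAt_fst.comp (hsA y hy), fun y hy => ?_, ?_⟩
  · have h1 : (F (s y), (s y).2) = y := (hsP y hy).2
    have h3 : F (s y) = y.1 := by
      have h4 := congrArg Prod.fst h1
      exact h4
    change ((s y).1, y.2) ∈ P ∧ F ((s y).1, y.2) = y.1
    rw [key y hy]
    exact ⟨(hsP y hy).1, h3⟩
  · change (s (F x₀, x₀.2)).1 = x₀.1
    rw [hs0]

/-- Uniqueness. Proof. `lifts_eqOn` for the map `y ↦ (F y, y.2)` on `P` and the lifts `a ↦ (g₁ a, ζ a)`,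
`a ↦ (g₂ a, ζ a)`. -/
theorem pair_eqOn {A : Type*} [TopologicalSpace A] {F : ℂ × ℂ → ℂ} {P : Set (ℂ × ℂ)}
    (hP : IsOpen P) (hF : AnalyticOnNhd ℂ F P) {d : ℂ × ℂ → ℂ}
    (hd : ∀ x ∈ P, HasDerivAt (fun z => F (z, x.2)) (d x) x.1 ∧ d x ≠ 0) {S : Set A}
    (hS : IsPreconnected S) {g₁ g₂ ζ : A → ℂ} (h₁ : ContinuousOn g₁ S) (h₂ : ContinuousOn g₂ S)
    (hζ : ContinuousOn ζ S) (m₁ : ∀ a ∈ S, (g₁ a, ζ a) ∈ P) (m₂ : ∀ a ∈ S, (g₂ a, ζ a) ∈ P)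
    (he : ∀ a ∈ S, F (g₁ a, ζ a) = F (g₂ a, ζ a)) {a : A} (ha : a ∈ S) (hga : g₁ a = g₂ a) :
    EqOn g₁ g₂ S := by
  have h := lifts_eqOn (E := ℂ × ℂ) (f := fun y : ℂ × ℂ => (F y, y.2)) hP
    (fun x hx => (hF x hx).prod analyticAt_snd)
    (fun x hx => pair_inv (hF x hx) (hd x hx).1 (hd x hx).2) hS
    (g₁ := fun a => (g₁ a, ζ a)) (g₂ := fun a => (g₂ a, ζ a)) (h₁.prodMk hζ) (h₂.prodMk hζ)
    m₁ m₂ (fun a ha => Prod.ext (he a ha) rfl) ha (Prod.ext hga rfl)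
  intro b hb
  exact congrArg Prod.fst (h hb)

end Pool.Agent.MP_ae5b4e_an_AZ
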