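import Pool.Agent.Lib.MP_ae5b4e_an_AZ.V5b

/-! # AZ: asymptotics of `V, Y` (far and near) -/

noncomputable section

namespace Pool.Agent.MP_ae5b4e_an_AZ

open Complex Set Filter Topology Metric

/-- Proof. `w = a + i b`: `‖sin w‖² = sin² a + sinh² b ≥ (2 a / π)² + b² ≥ (4 / π²) ‖w‖²` (`Real.mul_le_sin`,
`|sinh b| ≥ |b|`). -/
theorem norm_le_sin {w : ℂ} (hw : |w.re| ≤ Real.pi / 2) : ‖w‖ ≤ Real.pi / 2 * ‖sin w‖ := by
  have hpi := Real.pi_pos
  have h1 : ‖sin w‖ ^ 2 = Real.sin w.re ^ 2 + Real.sinh w.im ^ 2 := by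
    have e : sin w = ((Real.sin w.re * Real.cosh w.im : ℝ) : ℂ) +
        ((Real.cos w.re * Real.sinh w.im : ℝ) : ℂ) * I := by
      rw [Complex.sin_eq]
      push_cast
      ring
    rw [e, Complex.sq_norm, Complex.normSq_add_mul_I]
    have h2 := Real.cosh_sq w.im
    have h3 := Real.sin_sq_add_cos_sq w.re
    linear_combination (Real.sin w.re ^ 2) * h2 + (Real.sinh w.im ^ 2) * h3
  have h2 : 2 / Real.pi * |w.re| ≤ |Real.sin w.re| := Real.mul_abs_le_abs_sin hw
  have h3 : |w.im| ≤ |Real.sinh w.im| := by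
    rw [Real.abs_sinh]
    exact Real.self_le_sinh_iff.2 (abs_nonneg _)
  have h4 : w.re ^ 2 ≤ (Real.pi / 2) ^ 2 * Real.sin w.re ^ 2 := by
    have h5 : |w.re| ≤ Real.pi / 2 * |Real.sin w.re| := by
      have := mul_le_mul_of_nonneg_left h2 (by positivity : 0 ≤ Real.pi / 2)
      have e : Real.pi / 2 * (2 / Real.pi * |w.re|) = |w.re| := by field_simp
      rwa [e] at this
    have h6 := mul_self_le_mul_self (abs_nonneg _) h5
    rw [abs_mul_abs_self] at h6
    have e : Real.pi / 2 * |Real.sin w.re| * (Real.pi / 2 * |Real.sin w.re|) =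
        (Real.pi / 2) ^ 2 * (|Real.sin w.re| * |Real.sin w.re|) := by ring
    rw [e, abs_mul_abs_self] at h6
    linarith
  have h5 : w.im ^ 2 ≤ (Real.pi / 2) ^ 2 * Real.sinh w.im ^ 2 := by
    have h6 := mul_self_le_mul_self (abs_nonneg _) h3
    rw [abs_mul_abs_self, abs_mul_abs_self] at h6
    have h7 : 1 ≤ Real.pi / 2 := by linarith [Real.pi_gt_three]
    have h8 : 1 ≤ (Real.pi / 2) ^ 2 := by nlinarith
    nlinarith [sq_nonneg (Real.sinh w.im)]
  have h6 : ‖w‖ ^ 2 ≤ (Real.pi / 2 * ‖sin w‖) ^ 2 := by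
    rw [mul_pow, h1, Complex.sq_norm, Complex.normSq_apply]
    linarith
  exact (pow_le_pow_iff_left₀ (norm_nonneg _) (by positivity) two_ne_zero).1 h6

/-- Proof. `‖u log u‖ ≤ ‖u‖ |log ‖u‖| + π ‖u‖`, and `x |log x|` is bounded on `[0, M + 1]`. -/
theorem norm_om1_le (k : ℕ) (M : ℝ) : ∃ C : ℝ, ∀ v : ℂ, ‖v‖ ≤ M → ‖om1 k v‖ ≤ C := by
  obtain ⟨B, hB⟩ := (isCompact_Icc (a := (0 : ℝ)) (b := M + 1)).exists_bound_of_continuousOn
    Real.continuous_mul_log.continuousOn
  have hpi := Real.pi_pos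
  have hu : ∀ u : ℂ, ‖u‖ ≤ M + 1 → ‖u * log u‖ ≤ B + Real.pi * (M + 1) := by
    intro u hu
    have h1 := hB ‖u‖ ⟨norm_nonneg u, hu⟩
    rw [Real.norm_eq_abs, abs_mul, abs_of_nonneg (norm_nonneg u)] at h1
    have h2 : ‖log u‖ ≤ |Real.log ‖u‖| + Real.pi := by
      have h3 := Complex.norm_le_abs_re_add_abs_im (log u)
      rw [log_re, log_im] at h3
      linarith [abs_arg_le_pi u]
    rw [norm_mul]
    have h3 := mul_le_mul_of_nonneg_left h2 (norm_nonneg u)
    have h4 : ‖u‖ * Real.pi ≤ (M + 1) * Real.pi := mul_le_mul_of_nonneg_right hu hpi.le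
    linarith
  refine ⟨1 + |Wk k| * M + (B + Real.pi * (M + 1)), fun v hv => ?_⟩
  have hvI : ‖v * I‖ = ‖v‖ := by simp
  have n1 : ‖1 + v * I‖ ≤ M + 1 := by
    have := norm_add_le (1 : ℂ) (v * I)
    rw [norm_one, hvI] at this
    linarith
  have n2 : ‖1 - v * I‖ ≤ M + 1 := by
    have := norm_sub_le (1 : ℂ) (v * I)
    rw [norm_one, hvI] at this
    linarith
  have a1 := hu _ n1
  have a2 := hu _ n2
  unfold om1
  have b1 := norm_sub_le (1 + (Wk k : ℂ) * v)
    (((1 + v * I) * log (1 + v * I) + (1 - v * I) * log (1 - v * I)) / 2)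
  have b2 := norm_add_le (1 : ℂ) ((Wk k : ℂ) * v)
  have b3 : ‖((1 + v * I) * log (1 + v * I) + (1 - v * I) * log (1 - v * I)) / 2‖ ≤
      B + Real.pi * (M + 1) := by
    rw [norm_div]
    have := norm_add_le ((1 + v * I) * log (1 + v * I)) ((1 - v * I) * log (1 - v * I))
    have e : ‖(2 : ℂ)‖ = 2 := by simp
    rw [e]
    linarith
  have b4 : ‖(Wk k : ℂ) * v‖ ≤ |Wk k| * M := by
    rw [norm_mul, Complex.norm_real, Real.norm_eq_abs]
    exact mul_le_mul_of_nonneg_left hv (abs_nonneg _)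
  rw [norm_one] at b2
  linarith

/-- `y1` is near `(k + 1) π` (resp. `k π`) for `v` large in the right (left) half plane.

Proof. Right: `w := y1 k v - (k + 1) π`, `Re w ∈ (-π/2, 0)` because `Re (y1 k v) ∈ (W, W + π / 2)` for
`Re v > 0` (`re_y1`, `arg_diff`), and `(k + 1) π = W + π / 2`. `‖sin w‖ = ‖sin (y1 k v)‖` (periodicity up to sign), so
`‖sin w‖² = 1 / ‖1 + v²‖ ≤ 1 / (‖v‖² - 1) ≤ 4 / ‖v‖²` for `‖v‖ ≥ 2`, and `norm_le_sin`. Left: the same with
`w := y1 k v - k π`, `Re w ∈ (0, π / 2)`. -/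
theorem y1_far (k : ℕ) {v : ℂ} (h2 : 2 ≤ ‖v‖) :
    (0 < v.re → ‖y1 k v - (k + 1) * Real.pi‖ ≤ Real.pi / ‖v‖) ∧
      (v.re < 0 → ‖y1 k v - k * Real.pi‖ ≤ Real.pi / ‖v‖) := by
  have hpi := Real.pi_pos
  have hv0 : 0 < ‖v‖ := by linarith
  have hs : v.re ≠ 0 → ‖sin (y1 k v)‖ ≤ 2 / ‖v‖ := by
    intro hx
    obtain ⟨-, -, h3, -⟩ := trig1 k (mem_C1_iff.2 (Or.inl hx))
    have h4 : ‖sin (y1 k v)‖ ^ 2 = 1 / ‖1 + v ^ 2‖ := by
      rw [← norm_pow, h3, norm_div, norm_one]
    have h5 : ‖v‖ ^ 2 - 1 ≤ ‖1 + v ^ 2‖ := by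
      have := norm_sub_norm_le (v ^ 2) (-(1 : ℂ))
      rw [norm_neg, norm_one, norm_pow] at this
      have e : v ^ 2 - -1 = 1 + v ^ 2 := by ring
      rwa [e] at this
    have h6 : ‖v‖ ^ 2 / 4 ≤ ‖1 + v ^ 2‖ := by nlinarith
    have h7 : ‖sin (y1 k v)‖ ^ 2 ≤ (2 / ‖v‖) ^ 2 := by
      rw [h4, div_pow, div_le_div_iff₀ (by linarith [sq_pos_of_pos hv0]) (by positivity)]
      linarith
    exact (pow_le_pow_iff_left₀ (norm_nonneg _) (by positivity) two_ne_zero).1 h7
  have key : ∀ n : ℕ, v.re ≠ 0 → |(y1 k v - n * Real.pi).re| ≤ Real.pi / 2 →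
      ‖y1 k v - n * Real.pi‖ ≤ Real.pi / ‖v‖ := by
    intro n hx hn
    have h1 := norm_le_sin hn
    rw [Complex.sin_antiperiodic.sub_nat_mul_eq n, norm_mul, norm_pow, norm_neg, norm_one,
      one_pow, one_mul] at h1
    have h2 := mul_le_mul_of_nonneg_left (hs hx) (by positivity : 0 ≤ Real.pi / 2)
    have e : Real.pi / 2 * (2 / ‖v‖) = Real.pi / ‖v‖ := by field_simp
    rw [e] at h2
    exact h1.trans h2
  have hre : ∀ n : ℕ, (y1 k v - n * Real.pi).re = (y1 k v).re - n * Real.pi := by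
    intro n
    rw [sub_re]
    congr 1
    have e : ((n : ℂ) * Real.pi) = ((n * Real.pi : ℝ) : ℂ) := by push_cast; rfl
    rw [e, ofReal_re]
  have hW : Wk k = k * Real.pi + Real.pi / 2 := by
    rw [Wk]
    ring
  constructor
  · intro hx
    obtain ⟨h1, h2⟩ := arg_diff.1 hx
    have h3 := key (k + 1) hx.ne' (by
      rw [hre, re_y1, hW, abs_le]
      push_cast
      constructor <;> linarith)
    push_cast at h3
    exact h3
  · intro hx
    obtain ⟨h1, h2⟩ := arg_diff.2 hx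
    exact key k hx.ne (by
      rw [hre, re_y1, hW, abs_le]
      constructor <;> linarith)

variable {k : ℕ} {V Y : ℂ → ℂ}

private theorem V6a_U0 : 0 < U0 ∧ U0 ≤ 1 := by
  unfold U0
  have h1 : 0 < Real.log 2 := Real.log_pos (by norm_num)
  have h2 : Real.log 2 < 1 := by
    have := Real.log_two_lt_d9
    linarith
  constructor <;> linarith

private theorem V6a_Uc_le_one (s : ℝ) : Uc s ≤ 1 := by
  rcases le_or_gt |s| 1 with h | h
  · exact (Uc_mem s h).2
  · rcases le_total 0 s with h0 | h0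
    · rw [abs_of_nonneg h0] at h
      exact (Uc_le s h.le).trans V6a_U0.2
    · rw [abs_of_nonpos h0] at h
      rw [← Uc_neg]
      exact (Uc_le (-s) h.le).trans V6a_U0.2

/-- FAR REGION. Proof. `v := V z`, `z = om1 k v` (`s1`, since `U0 < 1 < Re z`). `Re v > 0`: if `Re v < 0`:
`Re z < Uc (Im v)` (`om1_left`), and if `Re v = 0`, `Re z = Uc (Im v)`, `|Im v| < 1` (`om1_I`); `Uc s ≤ 1` for all `s`
(`Uc_mem`, `Uc_le`, `Uc_neg`, `U0 ≤ 1`): contradiction for `Re z > 1`. `‖v‖` is large for `‖z‖` large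
(`norm_om1_le`), then `y1_far`. -/
theorem Sh.far (h : Sh k V Y) {ε : ℝ} (hε : 0 < ε) : ∃ R : ℝ, ∀ z : ℂ, R ≤ z.re →
    ‖Y z - (k + 1) * Real.pi‖ ≤ ε := by
  obtain ⟨M, hM⟩ : ∃ M : ℝ, M = max 2 (Real.pi / ε) := ⟨_, rfl⟩
  have hM2 : 2 ≤ M := by
    rw [hM]
    exact le_max_left _ _
  have hMε : Real.pi / ε ≤ M := by
    rw [hM]
    exact le_max_right _ _
  obtain ⟨C, hC⟩ := norm_om1_le k M
  refine ⟨max 2 (C + 1), fun z hz => ?_⟩
  have hz2 : 2 ≤ z.re := (le_max_left _ _).trans hz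
  have hzC : C + 1 ≤ z.re := (le_max_right _ _).trans hz
  obtain ⟨hv, hom, hY⟩ := h.s1 z (Or.inr (by linarith [V6a_U0.2]))
  have hnv : M < ‖V z‖ := by
    by_contra hcon
    push Not at hcon
    have h1 := hC _ hcon
    rw [hom] at h1
    have h2 := re_le_norm z
    linarith
  have hre : 0 < (V z).re := by
    by_contra hcon
    push Not at hcon
    rcases hcon.lt_or_eq with h0 | h0
    · have h1 := (om1_left k h0).1
      rw [hom] at h1
      linarith [V6a_Uc_le_one (V z).im]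
    · have e : V z = ((V z).im : ℂ) * I := by
        apply Complex.ext
        · simp [h0]
        · simp
      have h1 : (om1 k (V z)).re = Uc (V z).im := by
        conv_lhs => rw [e]
        exact re_om1_I k _
      rw [hom] at h1
      linarith [V6a_Uc_le_one (V z).im]
  have h1 := (y1_far k (v := V z) (by linarith)).1 hre
  rw [hY]
  refine h1.trans ?_
  rw [div_le_iff₀ (by linarith)]
  rw [div_le_iff₀ hε] at hMε
  nlinarith

/-- Right of the cut. Proof. `x := Re v > 0`, `s := Im v`. (a) `x' ↦ Re (om1 k (x' + i s))` is continuous on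
`[0, ∞)` (`continuous_re_om1`), derivative `Re y1 > 0` for `x' > 0`: `Uc s = Re (om1 k (i s)) < Re (om1 k v)`.
(b) `1 ≤ s`: `x' ↦ Im (om1 k (x' + i s))` has derivative `Im y1 > 0` for `x' > 0`, so it is increasing, and for
every `c < W + (s - 1) k π` it is `> c` for small `x' > 0` (`im_om1_cut`): `W + (s - 1) k π ≤ Im (om1 k v)`; strict, since the
function is strictly increasing (compare with `x / 2`). -/
theorem om1_right (k : ℕ) {v : ℂ} (hx : 0 < v.re) : Uc v.im < (om1 k v).re ∧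
    (1 ≤ v.im → Wk k + (v.im - 1) * (k * Real.pi) < (om1 k v).im) := by
  obtain ⟨x, s⟩ := v
  simp only at hx ⊢
  have ev : (⟨x, s⟩ : ℂ) = (x : ℂ) + s * I := by
    apply Complex.ext <;> simp
  have hmem : ∀ x' : ℝ, 0 < x' → (x' : ℂ) + s * I ∈ C1 := by
    intro x' hx'
    rw [mem_C1_iff]
    left
    simpa using hx'.ne'
  constructor
  · have hcont : ContinuousOn (fun x' : ℝ => (om1 k ((x' : ℂ) + s * I)).re) (Ici 0) :=
      ((continuous_re_om1 k).comp
        (by fun_prop : Continuous fun x' : ℝ => (x' : ℂ) + s * I)).continuousOn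
    have hmono : StrictMonoOn (fun x' : ℝ => (om1 k ((x' : ℂ) + s * I)).re) (Ici 0) := by
      refine strictMonoOn_of_deriv_pos (convex_Ici 0) hcont ?_
      intro x' hx'
      rw [interior_Ici] at hx'
      rw [(v3e_re (v3e_horiz k (hmem x' hx'))).deriv]
      exact v3e_re_pos k (hmem x' hx')
    have h1 := hmono (mem_Ici.2 le_rfl) (mem_Ici.2 hx.le) hx
    simp only [ofReal_zero, zero_add] at h1
    rw [re_om1_I] at h1
    rw [ev]
    exact h1
  · intro h1
    have hmono : StrictMonoOn (fun x' : ℝ => (om1 k ((x' : ℂ) + s * I)).im) (Ioi 0) := by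
      refine strictMonoOn_of_deriv_pos (convex_Ioi 0) ?_ ?_
      · intro x' hx'
        exact (v3e_im (v3e_horiz k (hmem x' hx'))).continuousAt.continuousWithinAt
      · intro x' hx'
        rw [interior_Ioi] at hx'
        rw [(v3e_im (v3e_horiz k (hmem x' hx'))).deriv]
        exact im_y1_pos k (hmem x' hx') (by simpa using lt_of_lt_of_le one_pos h1)
    have h2 : (om1 k (((x / 2 : ℝ) : ℂ) + s * I)).im < (om1 k ((x : ℂ) + s * I)).im :=
      hmono (mem_Ioi.2 (by linarith)) (mem_Ioi.2 hx) (by linarith)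
    have h3 : Wk k + (s - 1) * (k * Real.pi) ≤ (om1 k (((x / 2 : ℝ) : ℂ) + s * I)).im := by
      refine le_of_forall_lt fun c hc => ?_
      have h4 := im_om1_cut k h1 hc
      have h5 : Tendsto (fun x' : ℝ => (x' : ℂ) + s * I) (𝓝[>] 0) (𝓝 ((s : ℂ) * I)) := by
        have h6 : Continuous fun x' : ℝ => (x' : ℂ) + s * I := by fun_prop
        have h7 := (h6.tendsto 0).mono_left (nhdsWithin_le_nhds (s := Ioi 0))
        rwa [ofReal_zero, zero_add] at h7
      have h6 := h5.eventually h4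
      have h7 : ∀ᶠ x' : ℝ in 𝓝[>] 0, x' ∈ Ioo 0 (x / 2) :=
        Ioo_mem_nhdsGT (by linarith)
      obtain ⟨x', h8, h9⟩ := (h6.and h7).exists
      have h10 : (om1 k ((x' : ℂ) + s * I)).im < (om1 k (((x / 2 : ℝ) : ℂ) + s * I)).im :=
        hmono (mem_Ioi.2 h9.1) (mem_Ioi.2 (by linarith)) h9.2
      exact h8.trans h10
    rw [ev]
    exact h3.trans_lt h2

/-- NEAR REGION of a function `V'` with values in `C1`.

Proof. Let `A ≥ W`. `v := V' z`. (a) `Re v < 0` if `Re z < - R'`: otherwise `Re v ≥ 0`; `Re v = 0`: `|Im v| < 1`,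
`Re z = Uc ≥ U0`; `Re v > 0`: if `|Im v| ≤ 1`, `Re z > Uc ≥ U0`; if `Im v > 1`: `om1_right`:
`W + (s - 1) k π < Im z < A`, so `s ≤ 1 + A / (k π)` and `Re z > Uc s ≥ - sup |Uc|` on the compact
`[1, 1 + A / (k π)]` (`Uc` continuous); if `Im v < - 1` the same by `om1_conj`. (b) `‖v‖` is large (`norm_om1_le`) and
`y1_far`. -/
theorem near_gen {k : ℕ} (hk : 1 ≤ k) (A : ℝ) {ε : ℝ} (hε : 0 < ε) : ∃ R : ℝ, ∀ v : ℂ, v ∈ C1 →
    (om1 k v).re ≤ -R → |(om1 k v).im| ≤ A → ‖y1 k v - k * Real.pi‖ ≤ ε := by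
  have hpi := Real.pi_pos
  have hk' : (1 : ℝ) ≤ k := by exact_mod_cast hk
  have hkpi : 0 < (k : ℝ) * Real.pi := by positivity
  have hW : 0 < Wk k := by
    rw [Wk]
    positivity
  obtain ⟨S, hS⟩ : ∃ S : ℝ, S = 1 + |A| / (k * Real.pi) := ⟨_, rfl⟩
  have hS1 : 1 ≤ S := by
    rw [hS]
    have : 0 ≤ |A| / (k * Real.pi) := by positivity
    linarith
  obtain ⟨M, hM⟩ : ∃ M : ℝ, M = max 2 (Real.pi / ε) := ⟨_, rfl⟩
  have hM2 : 2 ≤ M := by
    rw [hM]
    exact le_max_left _ _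
  have hMε : Real.pi / ε ≤ M := by
    rw [hM]
    exact le_max_right _ _
  obtain ⟨C, hC⟩ := norm_om1_le k M
  obtain ⟨R, hR⟩ : ∃ R : ℝ, R = max 1 (max (1 - Uc S) (C + 1)) := ⟨_, rfl⟩
  have hR1 : 1 ≤ R := by
    rw [hR]
    exact le_max_left _ _
  have hRS : 1 - Uc S ≤ R := by
    rw [hR]
    exact (le_max_left _ _).trans (le_max_right _ _)
  have hRC : C + 1 ≤ R := by
    rw [hR]
    exact (le_max_right _ _).trans (le_max_right _ _)
  -- the upper part
  have hup : ∀ v : ℂ, 0 < v.re → 1 < v.im → |(om1 k v).im| ≤ A → -R < (om1 k v).re := by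
    intro v h1 h2 h3
    obtain ⟨h4, h5⟩ := om1_right k h1
    have h6 := h5 h2.le
    have h7 := le_abs_self (om1 k v).im
    have h8 := le_abs_self A
    have h9 : v.im ≤ S := by
      have h10 : (v.im - 1) * (k * Real.pi) ≤ |A| := by linarith
      rw [← le_div_iff₀ hkpi] at h10
      rw [hS]
      linarith
    have h10 : Uc S ≤ Uc v.im := Uc_anti (mem_Ici.2 h2.le) (mem_Ici.2 hS1) h9
    linarith
  refine ⟨R, fun v hv h1 h2 => ?_⟩
  have hre : v.re < 0 := by
    by_contra hcon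
    push Not at hcon
    rcases le_or_gt |v.im| 1 with h3 | h3
    · have h4 : Uc v.im ≤ (om1 k v).re := by
        rcases hcon.lt_or_eq with h0 | h0
        · exact (om1_right k h0).1.le
        · have e : v = (v.im : ℂ) * I := by
            apply Complex.ext
            · simp [← h0]
            · simp
          have h5 : (om1 k v).re = Uc v.im := by
            conv_lhs => rw [e]
            exact re_om1_I k _
          exact h5.ge
      have h5 := (Uc_mem v.im h3).1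
      linarith [V6a_U0.1]
    · have h4 : 0 < v.re := by
        rcases mem_C1_iff.1 hv with h5 | h5
        · exact lt_of_le_of_ne hcon (Ne.symm h5)
        · linarith
      rcases le_total 0 v.im with h5 | h5
      · rw [abs_of_nonneg h5] at h3
        linarith [hup v h4 h3 h2]
      · rw [abs_of_nonpos h5] at h3
        have h6 := hup ((starRingEnd ℂ) v) (by rwa [conj_re]) (by rwa [conj_im]) (by
          rw [om1_conj k hv, conj_im, abs_neg]
          exact h2)
        rw [om1_conj k hv, conj_re] at h6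
        linarith
  have hnv : M < ‖v‖ := by
    by_contra hcon
    push Not at hcon
    have h3 := hC _ hcon
    have h4 := abs_re_le_norm (om1 k v)
    have h5 := neg_le_abs (om1 k v).re
    linarith
  have h3 := (y1_far k (v := v) (by linarith)).2 hre
  refine h3.trans ?_
  rw [div_le_iff₀ (by linarith)]
  rw [div_le_iff₀ hε] at hMε
  nlinarith

/-- Bounds in the strip `|Im| ≤ V1 < W`.

Proof. `v := V z`, `Y z = y1 k v`. (a) `om1 k` has limit `U0 + W I` at `v = I` along `C1` (all of `ℂ`: `u log u → 0` for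
`u → 0`; `1 - v I → 2`), so there is `r > 0` with `|Im (om1 k v)| > V1` for `‖v - I‖ < r`, and by `om1_conj` for
`‖v + I‖ < r`, `v ∈ C1`. So `‖1 ± v I‖ = ‖v ∓ I‖ ≥ r`... (b) `|Im y1| = |log ‖1 - v I‖ - log ‖1 + v I‖| / 2` (`im_y1`): for
`‖v‖ ≥ 3` the quotient of the norms is in `[1 / 2, 2]`, for `‖v‖ ≤ 3` both norms are in `[r, 4]`. (c) `Re y1 ∈
(k π, (k + 1) π)`. So `‖Y z‖ ≤ C` and `c ‖Y z‖ ≤ c C ≤ k π < Re (Y z)` for small `c`. -/
theorem Sh.strip (h : Sh k V Y) (hk : 1 ≤ k) {V1 : ℝ} (h1 : V1 < Wk k) : ∃ c C : ℝ, 0 < c ∧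
    ∀ z : ℂ, |z.im| ≤ V1 → c * ‖Y z‖ ≤ (Y z).re ∧ ‖Y z‖ ≤ C := by
  have hpi := Real.pi_pos
  have hk' : (1 : ℝ) ≤ k := by exact_mod_cast hk
  have hkpi : 0 < (k : ℝ) * Real.pi := by positivity
  have hW : Wk k = k * Real.pi + Real.pi / 2 := by
    rw [Wk]
    ring
  have hcut := im_om1_cut k (s := 1) (c := V1) le_rfl (by
    rw [sub_self, zero_mul, add_zero]
    exact h1)
  rw [ofReal_one, one_mul] at hcut
  obtain ⟨r, hr, hball⟩ := Metric.eventually_nhds_iff.1 hcut
  have hI : (I : ℂ) ≠ 0 := I_ne_zero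
  obtain ⟨C, hCdef⟩ : ∃ C : ℝ, C = (k + 1) * Real.pi + 1 / r := ⟨_, rfl⟩
  have hC0 : 0 < C := by
    rw [hCdef]
    positivity
  have key : ∀ z : ℂ, |z.im| ≤ V1 → k * Real.pi < (Y z).re ∧ ‖Y z‖ ≤ C := by
    intro z hz
    obtain ⟨hv, hom, hY⟩ := h.s1 z (Or.inl (hz.trans_lt h1))
    obtain ⟨v, hvdef⟩ : ∃ v : ℂ, v = V z := ⟨_, rfl⟩
    rw [← hvdef] at hv hom hY
    have d1 : r ≤ ‖v - I‖ := by
      by_contra hcon
      push Not at hcon
      have h2 := hball (y := v) (by rwa [dist_eq_norm])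
      rw [hom] at h2
      linarith [le_abs_self z.im]
    have d2 : r ≤ ‖v + I‖ := by
      by_contra hcon
      push Not at hcon
      have h2 := hball (y := (starRingEnd ℂ) v) (by
        have e : (starRingEnd ℂ) v - I = (starRingEnd ℂ) (v + I) := by
          rw [map_add, conj_I]
          ring
        rw [dist_eq_norm, e, Complex.norm_conj]
        exact hcon)
      rw [om1_conj k hv, conj_im, hom] at h2
      linarith [neg_le_abs z.im]
    have n1 : ‖1 + v * I‖ = ‖v - I‖ := by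
      have e : 1 + v * I = I * (v - I) := by linear_combination I_sq
      rw [e, norm_mul, Complex.norm_I, one_mul]
    have n2 : ‖1 - v * I‖ = ‖v + I‖ := by
      have e : 1 - v * I = -I * (v + I) := by linear_combination I_sq
      rw [e, norm_mul, norm_neg, Complex.norm_I, one_mul]
    have t1 : ‖v + I‖ ≤ ‖v - I‖ + 2 := by
      have := norm_add_le (v - I) (2 * I)
      have e : v - I + 2 * I = v + I := by ring
      rw [e, norm_mul, Complex.norm_I, mul_one] at this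
      simpa using this
    have t2 : ‖v - I‖ ≤ ‖v + I‖ + 2 := by
      have := norm_sub_le (v + I) (2 * I)
      have e : v + I - 2 * I = v - I := by ring
      rw [e, norm_mul, Complex.norm_I, mul_one] at this
      simpa using this
    have logb : ∀ p q : ℝ, r ≤ p → r ≤ q → q ≤ p + 2 → Real.log q - Real.log p ≤ 2 / r := by
      intro p q hp hq hpq
      have hp0 : 0 < p := hr.trans_le hp
      have hq0 : 0 < q := hr.trans_le hq
      rw [← Real.log_div hq0.ne' hp0.ne']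
      have h2 := Real.log_le_sub_one_of_pos (div_pos hq0 hp0)
      have h3 : q / p - 1 ≤ 2 / p := by
        rw [div_sub_one hp0.ne']
        exact div_le_div_of_nonneg_right (by linarith) hp0.le
      have h4 : 2 / p ≤ 2 / r := div_le_div_of_nonneg_left (by norm_num) hr hp
      linarith
    have him : |(y1 k v).im| ≤ 1 / r := by
      rw [im_y1, n1, n2, abs_le]
      have l1 := logb _ _ d1 d2 t1
      have l2 := logb _ _ d2 d1 t2
      have e : 2 / r = 2 * (1 / r) := by ring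
      rw [e] at l1 l2
      constructor <;> linarith
    obtain ⟨r1, r2⟩ := re_y1_mem k hv
    rw [hY]
    refine ⟨by linarith, ?_⟩
    have h2 := Complex.norm_le_abs_re_add_abs_im (y1 k v)
    rw [abs_of_nonneg (by linarith : 0 ≤ (y1 k v).re)] at h2
    rw [hCdef]
    linarith
  refine ⟨k * Real.pi / C, C, by positivity, fun z hz => ?_⟩
  obtain ⟨h2, h3⟩ := key z hz
  refine ⟨?_, h3⟩
  have h4 : k * Real.pi / C * ‖Y z‖ ≤ k * Real.pi / C * C :=
    mul_le_mul_of_nonneg_left h3 (by positivity)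
  rw [div_mul_cancel₀ _ hC0.ne'] at h4
  linarith

end Pool.Agent.MP_ae5b4e_an_AZ
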