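import Pool.Agent.Lib.MP_ae5b4e_an_AZ.T1
import Pool.Agent.Lib.MP_ae5b4e_an_AZ.T3a
import Pool.Agent.Lib.MP_ae5b4e_an_AZ.V6a

/-! # AZ: the time function in the far region -/

noncomputable section

namespace Pool.Agent.MP_ae5b4e_an_AZ

open Complex Set Filter Topology Metric MeasureTheory

variable {k : ℕ} {V Y : ℂ → ℂ} {p X₀ η : ℝ} {c₁ : ℂ} {κ : ℂ → ℂ}

/-- FAR REGION: `J` is near `1 / ((1 + p) (k + 1) π)`.

Proof. Let `b := (k + 1) π`, `ε₁ := ε b / 8`, `U₁ ≥ U0 + 1` the `R` of `Sh.far` for `ε₁` (so `‖Y z - b‖ ≤ ε₁` for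
`Re z ≥ U₁`). Let `R₀'` be such that `U₁ - R₀' < X₀`. For `x = (U + i v, ζ)`, `U ≥ U₁`, `|v| ≤ Vm`: the horizontal
segment from `U₁ + i v` to `U + i v` and the vertical segment from `U₁` to `U₁ + i v` are in the domain, so
`T x = T (U₁, ζ) + ∫_vertical f + ∫_{U₁}^U f (u + i v) du`. The first two terms are bounded by
`C exp ((1 + p) (U₁ - Re ζ))`, `C = C (Vm)` (`TZ_int`, `f_le`). Third term: divided by `c₁ exp ((1 + p) (om - ζ))` it is
`∫₀^{U - U₁} exp (- (1 + p) t) (1 + h) / Y dt`, and `‖b (1 + h) / Y - 1‖ ≤ 2 η + 2 ε₁ / b`; the missing part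
`∫_{U - U₁}^∞ exp (- (1 + p) t) dt` is `≤ exp (- (1 + p) (U - U₁))`. So
`‖(1 + p) b J - 1‖ ≤ 2 η + ε / 4 + C' exp (- (1 + p) (U - U₁))`, and for `U ≥ U₂` the last term is `≤ ε / 2`. -/
theorem TT.far (h : Sh k V Y) (hk : 1 ≤ k) (hκ : Kap p X₀ η c₁ κ) (Vm : ℝ) {ε : ℝ} (hε : 0 < ε) :
    ∃ U₂ R₂ : ℝ, U0 < U₂ ∧ ∀ (R₀ : ℝ) (T : ℂ × ℂ → ℂ) (θZ : ℂ → ℂ), TT k X₀ R₀ κ Y T θZ →
      ∀ x : ℂ × ℂ, U₂ ≤ x.1.re → |x.1.im| ≤ Vm → R₀ < x.2.re → R₂ < x.2.re →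
        (x.1 - x.2).re < X₀ →
          ‖(1 + p) * ((k + 1) * Real.pi) * JT p c₁ T x - 1‖ ≤ 2 * η + ε := by
  have hp := hκ.p_pos
  have hη := hκ.η_nonneg
  have hc₁ : 0 < ‖c₁‖ := norm_pos_iff.2 hκ.c₁_ne
  have hpi := Real.pi_pos
  have hp1 : 0 < 1 + p := by linarith
  obtain ⟨b, hb⟩ : ∃ b : ℝ, b = (k + 1) * Real.pi := ⟨_, rfl⟩
  have hb0 : 0 < b := by
    rw [hb]
    positivity
  have hbC : ((k : ℂ) + 1) * (Real.pi : ℂ) = (b : ℂ) := by
    rw [hb]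
    push_cast
    ring
  obtain ⟨ε₁, hε₁⟩ : ∃ ε₁ : ℝ, ε₁ = min ε 1 * b / 8 := ⟨_, rfl⟩
  have hm0 : 0 < min ε 1 := lt_min hε one_pos
  have hε₁0 : 0 < ε₁ := by
    rw [hε₁]
    positivity
  have hε₁a : ε₁ ≤ ε * b / 8 := by
    rw [hε₁]
    have := min_le_left ε 1
    gcongr
  have hε₁b : ε₁ ≤ b / 8 := by
    rw [hε₁]
    have := min_le_right ε 1
    nlinarith
  obtain ⟨R, hR⟩ := h.far hε₁0
  obtain ⟨U₁, hU₁⟩ : ∃ U₁ : ℝ, U₁ = max R (U0 + 1) := ⟨_, rfl⟩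
  have hU₁R : R ≤ U₁ := by
    rw [hU₁]
    exact le_max_left _ _
  have hU₁0 : U0 < U₁ := by
    have : U0 + 1 ≤ U₁ := by
      rw [hU₁]
      exact le_max_right _ _
    linarith
  obtain ⟨C, hC⟩ : ∃ C : ℝ, C = (1 + p) * b * ((1 + η) / (Real.pi * (1 + p)) +
    (1 + η) / Real.pi * |Vm|) + 1 := ⟨_, rfl⟩
  have hC0 : 0 ≤ C := by
    rw [hC]
    positivity
  have hL0 : 0 ≤ 2 * C / ε := by positivity
  refine ⟨U₁ + 2 * C / ε, 0, by linarith, ?_⟩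
  intro R₀ T θZ hT x hxU hxv hxR _ hxX
  obtain ⟨om, ζ⟩ := x
  simp only at hxU hxv hxR hxX
  rw [sub_re] at hxX
  have hdom : ∀ z : ℂ, U0 < z.re → z.re ≤ om.re → ((z, ζ) : ℂ × ℂ) ∈ DT k X₀ R₀ := by
    intro z h1 h2
    refine ⟨Or.inr (Or.inl h1), ?_, Or.inr hxR⟩
    change (z - ζ).re < X₀
    rw [sub_re]
    linarith
  have hUo : U₁ ≤ om.re := by linarith
  -- the value at `U₁ + i v`
  have hT0 : ‖T ((U₁ : ℂ), ζ)‖ ≤
      (1 + η) * ‖c₁‖ / (Real.pi * (1 + p)) * Real.exp ((1 + p) * (U₁ - ζ.re)) := by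
    have hW : |((U₁ : ℝ) : ℂ).im| < Wk k := by
      rw [ofReal_im, abs_zero]
      exact lt_of_lt_of_le (by positivity) (Wk_ge hk)
    have hX : ((U₁ : ℂ) - ζ).re < X₀ := by
      rw [sub_re, ofReal_re]
      linarith
    rw [hT.strip ((U₁ : ℂ), ζ) hW hX]
    have := (TZ_int hκ (h.LD_strip hk) (x := ((U₁ : ℂ), ζ)) ⟨hW, hX⟩).2
    simpa only [sub_re, ofReal_re] using this
  have hvert : ‖T (U₁ + om.im * I, ζ) - T ((U₁ : ℂ), ζ)‖ ≤
      (1 + η) * ‖c₁‖ / Real.pi * Real.exp ((1 + p) * (U₁ - ζ.re)) * |om.im| := by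
    have hre : ∀ s : ℝ, ((U₁ : ℂ) + s * I).re = U₁ := by
      intro s
      simp
    have hd : ∀ s : ℝ, HasDerivAt (fun s : ℝ => T (U₁ + s * I, ζ))
        (κ (U₁ + s * I - ζ) / Y (U₁ + s * I) * I) s := by
      intro s
      have h1 := hT.der (U₁ + s * I, ζ) (hdom _ (by rwa [hre]) (by rwa [hre]))
      have h2 : HasDerivAt (fun z : ℂ => (U₁ : ℂ) + z * I) I (s : ℂ) := by
        simpa using ((hasDerivAt_id (s : ℂ)).mul_const I).const_add (U₁ : ℂ)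
      exact (HasDerivAt.comp (s : ℂ) h1 h2).comp_ofReal
    have hbd : ∀ s : ℝ, ‖κ (U₁ + s * I - ζ) / Y (U₁ + s * I) * I‖ ≤
        (1 + η) * ‖c₁‖ / Real.pi * Real.exp ((1 + p) * (U₁ - ζ.re)) := by
      intro s
      have h1 := f_le h hk hκ (x := (U₁ + s * I, ζ)) (Or.inr (Or.inl (by
        change U0 < ((U₁ : ℂ) + s * I).re
        rwa [hre]))) (by
        change ((U₁ : ℂ) + s * I - ζ).re < X₀
        rw [sub_re, hre]
        linarith)
      have h2 : ((U₁ : ℂ) + s * I - ζ).re = U₁ - ζ.re := by rw [sub_re, hre]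
      simp only [h2] at h1
      rwa [norm_mul, Complex.norm_I, mul_one]
    have h3 := convex_univ.norm_image_sub_le_of_norm_hasDerivWithin_le
      (fun s _ => (hd s).hasDerivWithinAt) (fun s _ => hbd s) (mem_univ (0 : ℝ)) (mem_univ om.im)
    simpa using h3
  -- the function on the horizontal segment
  obtain ⟨g, hg⟩ : ∃ g : ℝ → ℂ, g = fun u : ℝ => (1 + p) * b / c₁ * T (u + om.im * I, ζ) -
    cexp ((1 + p) * (u + om.im * I - ζ)) := ⟨_, rfl⟩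
  have hgd : ∀ u : ℝ, U₁ ≤ u → u ≤ om.re → HasDerivAt g ((1 + p) * b / c₁ *
      (κ (u + om.im * I - ζ) / Y (u + om.im * I)) -
        cexp ((1 + p) * (u + om.im * I - ζ)) * (1 + p)) u := by
    intro u h1 h2
    have hre : ((u : ℂ) + om.im * I).re = u := by simp
    have h3 := hT.der (u + om.im * I, ζ) (hdom _ (by rw [hre]; linarith) (by rwa [hre]))
    have h4 : HasDerivAt (fun z : ℂ => z + om.im * I) 1 (u : ℂ) := by
      simpa using (hasDerivAt_id (u : ℂ)).add_const (om.im * I)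
    have h5 := HasDerivAt.comp (u : ℂ) h3 h4
    rw [mul_one] at h5
    have h6 : HasDerivAt (fun z : ℂ => cexp ((1 + p) * (z + om.im * I - ζ)))
        (cexp ((1 + p) * (u + om.im * I - ζ)) * (1 + p)) (u : ℂ) := by
      have h7 := ((h4.sub_const ζ).const_mul ((1 : ℂ) + p)).cexp
      rwa [mul_one] at h7
    rw [hg]
    exact ((h5.const_mul ((1 + p) * b / c₁ : ℂ)).sub h6).comp_ofReal
  obtain ⟨δ, hδ⟩ : ∃ δ : ℝ, δ = 2 * η + ε / 2 := ⟨_, rfl⟩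
  have hδ0 : 0 ≤ δ := by
    rw [hδ]
    linarith
  have hnorm : ∀ w : ℂ, ‖cexp ((1 + p) * w)‖ = Real.exp ((1 + p) * w.re) := by
    intro w
    rw [Complex.norm_exp]
    congr 1
    simp
  have hgb : ∀ u : ℝ, U₁ ≤ u → u ≤ om.re → ‖(1 + p) * b / c₁ *
      (κ (u + om.im * I - ζ) / Y (u + om.im * I)) -
        cexp ((1 + p) * (u + om.im * I - ζ)) * (1 + p)‖ ≤
        δ * (Real.exp ((1 + p) * (u - ζ.re)) * (1 + p)) := by
    intro u h1 h2
    have hre : ((u : ℂ) + om.im * I).re = u := by simp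
    have hre2 : ((u : ℂ) + om.im * I - ζ).re = u - ζ.re := by rw [sub_re, hre]
    have h3 := hR ((u : ℂ) + om.im * I) (by rw [hre]; linarith)
    rw [hbC] at h3
    have h4 := hκ.bd ((u : ℂ) + om.im * I - ζ) (by rw [hre2]; linarith)
    obtain ⟨y, hy⟩ : ∃ y : ℂ, y = Y ((u : ℂ) + om.im * I) := ⟨_, rfl⟩
    obtain ⟨q, hq⟩ : ∃ q : ℂ, q = κ ((u : ℂ) + om.im * I - ζ) := ⟨_, rfl⟩
    obtain ⟨e, he⟩ : ∃ e : ℂ, e = cexp ((1 + p) * ((u : ℂ) + om.im * I - ζ)) := ⟨_, rfl⟩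
    have hen : ‖e‖ = Real.exp ((1 + p) * (u - ζ.re)) := by rw [he, hnorm, hre2]
    rw [← hy] at h3
    rw [← hq, ← he, norm_mul] at h4
    rw [← hy, ← hq, ← he, ← hen]
    have hyn : 7 / 8 * b ≤ ‖y‖ := by
      have h5 : ‖(b : ℂ)‖ ≤ ‖y‖ + ‖y - b‖ := by
        have := norm_sub_le y (y - b)
        rwa [sub_sub_cancel] at this
      rw [Complex.norm_real, Real.norm_of_nonneg hb0.le] at h5
      linarith
    have hy0 : 0 < ‖y‖ := lt_of_lt_of_le (by positivity) hyn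
    have hyne : y ≠ 0 := norm_pos_iff.1 hy0
    have hid : (1 + p) * b / c₁ * (q / y) - e * (1 + p) =
        (1 + p) * (b * (q - c₁ * e) - c₁ * e * (y - b)) / (c₁ * y) := by
      have := hκ.c₁_ne
      field_simp
      ring
    rw [hid, norm_div, norm_mul, norm_mul]
    have hp1n : ‖(1 : ℂ) + p‖ = 1 + p := by
      rw [show (1 : ℂ) + p = ((1 + p : ℝ) : ℂ) by push_cast; rfl, Complex.norm_real,
        Real.norm_of_nonneg hp1.le]
    rw [hp1n, div_le_iff₀ (by positivity)]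
    have h6 : ‖(b : ℂ) * (q - c₁ * e) - c₁ * e * (y - b)‖ ≤
        b * (η * (‖c₁‖ * ‖e‖)) + ‖c₁‖ * ‖e‖ * ε₁ := by
      refine (norm_sub_le _ _).trans ?_
      rw [norm_mul, norm_mul (c₁ * e), norm_mul c₁ e, Complex.norm_real,
        Real.norm_of_nonneg hb0.le]
      gcongr
    have h7 : b * η + ε₁ ≤ δ * ‖y‖ := by
      have h8 : δ * (7 / 8 * b) ≤ δ * ‖y‖ := mul_le_mul_of_nonneg_left hyn hδ0
      rw [hδ] at h8 ⊢
      nlinarith [mul_nonneg hη hb0.le, mul_pos hε hb0]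
    have h9 : 0 ≤ ‖c₁‖ * ‖e‖ := by positivity
    calc (1 + p) * ‖(b : ℂ) * (q - c₁ * e) - c₁ * e * (y - b)‖
        ≤ (1 + p) * (b * (η * (‖c₁‖ * ‖e‖)) + ‖c₁‖ * ‖e‖ * ε₁) := by gcongr
      _ = (1 + p) * (‖c₁‖ * ‖e‖) * (b * η + ε₁) := by ring
      _ ≤ (1 + p) * (‖c₁‖ * ‖e‖) * (δ * ‖y‖) := by gcongr
      _ = δ * (‖e‖ * (1 + p)) * (‖c₁‖ * ‖y‖) := by ring
  have hmain : ‖g om.re‖ ≤ δ * Real.exp ((1 + p) * (om.re - ζ.re)) + ‖g U₁‖ := by
    refine image_norm_le_of_norm_deriv_right_le_deriv_boundary (a := U₁) (b := om.re)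
      (B := fun u => δ * Real.exp ((1 + p) * (u - ζ.re)) + ‖g U₁‖)
      (B' := fun u => δ * (Real.exp ((1 + p) * (u - ζ.re)) * (1 + p)))
      (fun u hu => (hgd u hu.1 hu.2).continuousAt.continuousWithinAt)
      (fun u hu => (hgd u hu.1 hu.2.le).hasDerivWithinAt) ?_ (fun u => ?_)
      (fun u hu => hgb u hu.1 hu.2.le) (right_mem_Icc.2 hUo)
    · have : 0 ≤ δ * Real.exp ((1 + p) * (U₁ - ζ.re)) := by positivity
      linarith
    · have h1 := ((((hasDerivAt_id u).sub_const ζ.re).const_mul (1 + p)).exp.const_mul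
        δ).add_const ‖g U₁‖
      simpa using h1
  have hgU : ‖g U₁‖ ≤ C * Real.exp ((1 + p) * (U₁ - ζ.re)) := by
    have h1 : ‖T (U₁ + om.im * I, ζ)‖ ≤ (1 + η) * ‖c₁‖ / (Real.pi * (1 + p)) *
        Real.exp ((1 + p) * (U₁ - ζ.re)) +
        (1 + η) * ‖c₁‖ / Real.pi * Real.exp ((1 + p) * (U₁ - ζ.re)) * |Vm| := by
      have h2 : |om.im| ≤ |Vm| := hxv.trans (le_abs_self Vm)
      have h3 : (1 + η) * ‖c₁‖ / Real.pi * Real.exp ((1 + p) * (U₁ - ζ.re)) * |om.im| ≤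
          (1 + η) * ‖c₁‖ / Real.pi * Real.exp ((1 + p) * (U₁ - ζ.re)) * |Vm| := by gcongr
      have h4 := norm_add_le (T ((U₁ : ℂ), ζ)) (T (U₁ + om.im * I, ζ) - T ((U₁ : ℂ), ζ))
      rw [add_sub_cancel] at h4
      linarith
    have hre2 : ((U₁ : ℂ) + om.im * I - ζ).re = U₁ - ζ.re := by simp
    have hp1n : ‖(1 : ℂ) + p‖ = 1 + p := by
      rw [show (1 : ℂ) + p = ((1 + p : ℝ) : ℂ) by push_cast; rfl, Complex.norm_real,
        Real.norm_of_nonneg hp1.le]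
    rw [hg]
    refine (norm_sub_le _ _).trans ?_
    rw [hnorm, hre2, norm_mul, norm_div, norm_mul, hp1n, Complex.norm_real,
      Real.norm_of_nonneg hb0.le]
    have h5 : (1 + p) * b / ‖c₁‖ * ‖T (U₁ + om.im * I, ζ)‖ ≤
        (1 + p) * b / ‖c₁‖ * ((1 + η) * ‖c₁‖ / (Real.pi * (1 + p)) *
        Real.exp ((1 + p) * (U₁ - ζ.re)) +
        (1 + η) * ‖c₁‖ / Real.pi * Real.exp ((1 + p) * (U₁ - ζ.re)) * |Vm|) := by gcongr
    have h6 : (1 + p) * b / ‖c₁‖ * ((1 + η) * ‖c₁‖ / (Real.pi * (1 + p)) *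
        Real.exp ((1 + p) * (U₁ - ζ.re)) +
        (1 + η) * ‖c₁‖ / Real.pi * Real.exp ((1 + p) * (U₁ - ζ.re)) * |Vm|) =
        (1 + p) * b * ((1 + η) / (Real.pi * (1 + p)) + (1 + η) / Real.pi * |Vm|) *
          Real.exp ((1 + p) * (U₁ - ζ.re)) := by
      have := hc₁.ne'
      field_simp
    rw [h6] at h5
    have h7 : C * Real.exp ((1 + p) * (U₁ - ζ.re)) =
        (1 + p) * b * ((1 + η) / (Real.pi * (1 + p)) + (1 + η) / Real.pi * |Vm|) *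
          Real.exp ((1 + p) * (U₁ - ζ.re)) + Real.exp ((1 + p) * (U₁ - ζ.re)) := by
      rw [hC]
      ring
    rw [h7]
    linarith
  have hdec : C * Real.exp ((1 + p) * (U₁ - ζ.re)) ≤
      ε / 2 * Real.exp ((1 + p) * (om.re - ζ.re)) := by
    have h1 : Real.exp ((1 + p) * (om.re - ζ.re)) =
        Real.exp ((1 + p) * (om.re - U₁)) * Real.exp ((1 + p) * (U₁ - ζ.re)) := by
      rw [← Real.exp_add]
      congr 1
      ring
    have h2 : 2 * C / ε + 1 ≤ Real.exp ((1 + p) * (om.re - U₁)) := by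
      refine (Real.add_one_le_exp _).trans (Real.exp_le_exp.2 ?_)
      have h3 : 2 * C / ε ≤ om.re - U₁ := by linarith
      nlinarith
    have h4 : C ≤ ε / 2 * Real.exp ((1 + p) * (om.re - U₁)) := by
      have h5 : ε / 2 * (2 * C / ε + 1) ≤ ε / 2 * Real.exp ((1 + p) * (om.re - U₁)) := by gcongr
      have h6 : ε / 2 * (2 * C / ε + 1) = C + ε / 2 := by field_simp
      linarith
    rw [h1, ← mul_assoc]
    gcongr
  have hom : (om.re : ℂ) + om.im * I = om := Complex.re_add_im om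
  have hfin : (1 + p) * ((k + 1) * Real.pi) * JT p c₁ T (om, ζ) - 1 =
      g om.re / cexp ((1 + p) * (om - ζ)) := by
    rw [hbC, hg, JT]
    simp only [hom]
    have h1 := Complex.exp_ne_zero ((1 + p) * (om - ζ))
    have := hκ.c₁_ne
    field_simp
  rw [hfin, norm_div, hnorm, sub_re, div_le_iff₀ (Real.exp_pos _)]
  have h1 := hmain.trans (add_le_add_right (hgU.trans hdec) _)
  refine h1.trans (le_of_eq ?_)
  rw [hδ]
  ring

end Pool.Agent.MP_ae5b4e_an_AZ
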