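import Pool.Agent.Lib.MP_ae5b4e_an_AZ.G0
import Pool.Agent.Lib.MP_ae5b4e_an_AZ.T3
import Pool.Agent.Lib.MP_ae5b4e_an_AZ.T3b
import Pool.Agent.Lib.MP_ae5b4e_an_AZ.G2

/-! # AZ: (g1), the far region -/

noncomputable section

namespace Pool.Agent.MP_ae5b4e_an_AZ

open Complex Set Filter Topology Metric

variable {k : ℕ} {V Y : ℂ → ℂ} {p X₀ η : ℝ} {c₁ : ℂ} {κ : ℂ → ℂ}

theorem g1_E_ne (hκ : Kap p X₀ η c₁ κ) (x : ℂ × ℂ) :
    c₁ * cexp ((1 + p) * (x.1 - x.2)) ≠ 0 :=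
  mul_ne_zero hκ.c₁_ne (Complex.exp_ne_zero _)

theorem g1_JT_an (hκ : Kap p X₀ η c₁ κ) {R₀ : ℝ} {T : ℂ × ℂ → ℂ} {θZ : ℂ → ℂ}
    (hT : TT k X₀ R₀ κ Y T θZ) : AnalyticOnNhd ℂ (JT p c₁ T) (DT k X₀ R₀) := by
  intro x hx
  have h1 : AnalyticAt ℂ (fun x : ℂ × ℂ => c₁ * cexp ((1 + p) * (x.1 - x.2))) x :=
    analyticAt_const.mul ((analyticAt_const.mul (analyticAt_fst.sub analyticAt_snd)).cexp)
  exact (hT.an x hx).div h1 (g1_E_ne hκ x)

/-- Proof. As `fJ_der`, with `TT.an`, `TT.der`. -/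
theorem fJT_der (hκ : Kap p X₀ η c₁ κ) {R₀ : ℝ} {T : ℂ × ℂ → ℂ} {θZ : ℂ → ℂ}
    (hT : TT k X₀ R₀ κ Y T θZ) {x : ℂ × ℂ} (hx : x ∈ DT k X₀ R₀) (hJ : 0 < (JT p c₁ T x).re)
    (hY : Y x.1 ≠ 0) :
    AnalyticAt ℂ (fJ p (JT p c₁ T)) x ∧
      HasDerivAt (fun z => fJ p (JT p c₁ T) (z, x.2)) (κ (x.1 - x.2) / (Y x.1 * T x)) x.1 ∧
      κ (x.1 - x.2) / (Y x.1 * T x) ≠ 0 ∧
      c₁ * cexp (fJ p (JT p c₁ T) x) = cexp ((1 + p) * x.2) * T x := by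
  have hE := g1_E_ne hκ x
  have hJ0 : JT p c₁ T x ≠ 0 := by
    intro h0
    rw [h0, zero_re] at hJ
    exact lt_irrefl 0 hJ
  have hT0 : T x ≠ 0 := by
    intro h0
    apply hJ0
    simp only [JT, h0, zero_div]
  have hsl : JT p c₁ T x ∈ slitPlane := Or.inl hJ
  have hκ0 : κ (x.1 - x.2) ≠ 0 := by
    intro h0
    have h1 := hκ.bd (x.1 - x.2) hx.2.1
    rw [h0, zero_sub, norm_neg] at h1
    have h2 : 0 < ‖c₁ * cexp ((1 + p) * (x.1 - x.2))‖ := norm_pos_iff.2 hE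
    have h3 := hκ.η_le
    nlinarith
  refine ⟨?_, ?_, ?_, ?_⟩
  · exact (analyticAt_const.mul analyticAt_fst).add ((g1_JT_an hκ hT x hx).clog hsl)
  · have h1 := hT.der x hx
    have h2 : HasDerivAt (fun z : ℂ => c₁ * cexp ((1 + p) * (z - x.2)))
        (c₁ * (cexp ((1 + p) * (x.1 - x.2)) * (1 + p))) x.1 := by
      have h3 := ((((hasDerivAt_id x.1).sub_const x.2).const_mul ((1 : ℂ) + p)).cexp).const_mul c₁
      rwa [mul_one] at h3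
    have h4 : HasDerivAt (fun z => JT p c₁ T (z, x.2))
        ((κ (x.1 - x.2) / Y x.1 * (c₁ * cexp ((1 + p) * (x.1 - x.2))) -
          T x * (c₁ * (cexp ((1 + p) * (x.1 - x.2)) * (1 + p)))) /
          (c₁ * cexp ((1 + p) * (x.1 - x.2))) ^ 2) x.1 := h1.div h2 hE
    have h5 := h4.clog hsl
    have h6 : HasDerivAt (fun z : ℂ => (1 + (p : ℂ)) * z) (1 + p) x.1 := by
      simpa using (hasDerivAt_id x.1).const_mul (1 + (p : ℂ))
    refine (h6.add h5).congr_deriv ?_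
    have h7 : JT p c₁ T x = T x / (c₁ * cexp ((1 + p) * (x.1 - x.2))) := rfl
    have h8 : JT p c₁ T (x.1, x.2) = T x / (c₁ * cexp ((1 + p) * (x.1 - x.2))) := rfl
    rw [h8]
    have h9 : c₁ * (cexp ((1 + p) * (x.1 - x.2)) * (1 + p)) =
        c₁ * cexp ((1 + p) * (x.1 - x.2)) * (1 + p) := by ring
    rw [h9]
    generalize c₁ * cexp ((1 + p) * (x.1 - x.2)) = E at hE ⊢
    field_simp
    ring
  · exact div_ne_zero hκ0 (mul_ne_zero hY hT0)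
  · have h1 : cexp (fJ p (JT p c₁ T) x) = cexp ((1 + p) * x.1) * JT p c₁ T x := by
      unfold fJ
      rw [Complex.exp_add, Complex.exp_log hJ0]
    have h2 : cexp ((1 + p) * x.1) = cexp ((1 + p) * (x.1 - x.2)) * cexp ((1 + p) * x.2) := by
      rw [← Complex.exp_add]
      congr 1
      ring
    rw [h1, h2]
    have h7 : JT p c₁ T x = T x / (c₁ * cexp ((1 + p) * (x.1 - x.2))) := rfl
    rw [h7]
    have hc := hκ.c₁_ne
    have he := Complex.exp_ne_zero ((1 + p) * (x.1 - x.2))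
    rw [mul_div_assoc', mul_div_assoc', div_eq_iff hE]
    ring

/-- source of (g1) -/
def P1 (U₂ Vm X₁ R : ℝ) : Set (ℂ × ℂ) :=
  {x | U₂ < x.1.re ∧ |x.1.im| < Vm ∧ (x.1 - x.2).re < X₁ ∧ R < x.2.re}

/-- target of (g1) -/
def G1 (p A L₁ L₂ R : ℝ) : Set (ℂ × ℂ) :=
  {y | L₁ < y.1.re ∧ |y.1.im| < A ∧ y.1.re < L₂ + (1 + p) * y.2.re ∧ R < y.2.re}

theorem isOpen_G1 (p A L₁ L₂ R : ℝ) : IsOpen (G1 p A L₁ L₂ R) :=
  (isOpen_lt continuous_const (continuous_re.comp continuous_fst)).inter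
    ((isOpen_lt (continuous_abs.comp (continuous_im.comp continuous_fst)) continuous_const).inter
      ((isOpen_lt (continuous_re.comp continuous_fst)
        (continuous_const.add (continuous_const.mul (continuous_re.comp continuous_snd)))).inter
        (isOpen_lt continuous_const (continuous_re.comp continuous_snd))))

/-- Proof. Linear inequalities. -/
theorem convex_G1 (p A L₁ L₂ R : ℝ) : Convex ℝ (G1 p A L₁ L₂ R) := by
  intro x hx y hy a b ha hb hab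
  obtain ⟨x1, x2, x3, x4⟩ := hx
  obtain ⟨y1, y2, y3, y4⟩ := hy
  rw [abs_lt] at x2 y2
  have e1 : (a • x + b • y).1.re = a * x.1.re + b * y.1.re := by simp
  have e2 : (a • x + b • y).1.im = a * x.1.im + b * y.1.im := by simp
  have e3 : (a • x + b • y).2.re = a * x.2.re + b * y.2.re := by simp
  have c1 := convex_Ioi (𝕜 := ℝ) L₁ (mem_Ioi.2 x1) (mem_Ioi.2 y1) ha hb hab
  have c2 := convex_Ioo (𝕜 := ℝ) (-A) A (mem_Ioo.2 x2) (mem_Ioo.2 y2) ha hb hab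
  have c3 := convex_Iio (𝕜 := ℝ) L₂ (mem_Iio.2 (by linarith : x.1.re - (1 + p) * x.2.re < L₂))
    (mem_Iio.2 (by linarith : y.1.re - (1 + p) * y.2.re < L₂)) ha hb hab
  have c4 := convex_Ioi (𝕜 := ℝ) R (mem_Ioi.2 x4) (mem_Ioi.2 y4) ha hb hab
  simp only [smul_eq_mul, mem_Ioi, mem_Iio, mem_Ioo] at c1 c2 c3 c4
  refine ⟨by rw [e1]; exact c1, by rw [e2, abs_lt]; exact c2, ?_, by rw [e3]; exact c4⟩
  rw [e1, e3]
  linarith

theorem g1_core {w : ℂ} (hw : ‖w - 1‖ ≤ 1 / 5) :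
    4 / 5 ≤ ‖w‖ ∧ ‖w‖ ≤ 6 / 5 ∧ |arg w| ≤ 1 / 4 ∧ 4 / 5 ≤ w.re := by
  have h1 : ‖w‖ ≤ ‖w - 1‖ + 1 := by
    have := norm_add_le (w - 1) 1
    rwa [sub_add_cancel, norm_one] at this
  have h2 : 1 ≤ ‖w‖ + ‖w - 1‖ := by
    have := norm_sub_le w (w - 1)
    rwa [sub_sub_cancel, norm_one] at this
  have h3 : |(w - 1).re| ≤ 1 / 5 := (Complex.abs_re_le_norm _).trans hw
  rw [sub_re, one_re, abs_le] at h3
  refine ⟨by linarith, by linarith, ?_, by linarith [h3.1]⟩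
  have h4 : ‖w - 1‖ < 1 := by linarith
  have h5 := Complex.norm_log_one_add_le h4
  rw [add_sub_cancel] at h5
  have h6 : |arg w| ≤ ‖log w‖ := by
    rw [← log_im]
    exact Complex.abs_im_le_norm _
  have h7 : ‖w - 1‖ ^ 2 * (1 - ‖w - 1‖)⁻¹ ≤ (1 / 5) ^ 2 * (1 - 1 / 5)⁻¹ := by
    have h8 : (1 - ‖w - 1‖)⁻¹ ≤ (1 - 1 / 5 : ℝ)⁻¹ := inv_anti₀ (by norm_num) (by linarith)
    have h9 : ‖w - 1‖ ^ 2 ≤ (1 / 5 : ℝ) ^ 2 := pow_le_pow_left₀ (norm_nonneg _) hw 2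
    have h10 : 0 ≤ (1 - ‖w - 1‖)⁻¹ := inv_nonneg.2 (by linarith)
    exact mul_le_mul h9 h8 h10 (by norm_num)
  have h8 : (1 / 5 : ℝ) ^ 2 * (1 - 1 / 5)⁻¹ = 1 / 20 := by norm_num
  rw [h8] at h7
  linarith

theorem g1_core2 {b : ℝ} (hb : 0 < b) {J : ℂ} (h : ‖b * J - 1‖ ≤ 1 / 5) :
    Real.log (4 / (5 * b)) ≤ Real.log ‖J‖ ∧ Real.log ‖J‖ ≤ Real.log (6 / (5 * b)) ∧
      |arg J| ≤ 1 / 4 ∧ 0 < J.re := by
  obtain ⟨h1, h2, h3, h4⟩ := g1_core h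
  rw [norm_mul, Complex.norm_real, Real.norm_of_nonneg hb.le] at h1 h2
  rw [arg_real_mul _ hb] at h3
  rw [re_ofReal_mul] at h4
  have h5 : 4 / (5 * b) ≤ ‖J‖ := by
    rw [div_le_iff₀ (by positivity)]
    linarith
  have h6 : ‖J‖ ≤ 6 / (5 * b) := by
    rw [le_div_iff₀ (by positivity)]
    linarith
  have h7 : 0 < 4 / (5 * b) := by positivity
  refine ⟨Real.log_le_log h7 h5, Real.log_le_log (h7.trans_le h5) h6, h3, ?_⟩
  by_contra hcon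
  push Not at hcon
  have := mul_nonpos_of_nonneg_of_nonpos hb.le hcon
  linarith

theorem g1_re (p : ℝ) (J : ℂ × ℂ → ℂ) (x : ℂ × ℂ) :
    (fJ p J x).re = (1 + p) * x.1.re + Real.log ‖J x‖ := by
  unfold fJ
  rw [add_re, log_re]
  congr 1
  have : (1 : ℂ) + p = ((1 + p : ℝ) : ℂ) := by push_cast; rfl
  rw [this, re_ofReal_mul]

theorem g1_im (p : ℝ) (J : ℂ × ℂ → ℂ) (x : ℂ × ℂ) :
    (fJ p J x).im = (1 + p) * x.1.im + arg (J x) := by
  unfold fJ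
  rw [add_im, log_im]
  congr 1
  have : (1 : ℂ) + p = ((1 + p : ℝ) : ℂ) := by push_cast; rfl
  rw [this, im_ofReal_mul]

theorem g1_isOpen_P1 (U₂ Vm X₁ R : ℝ) : IsOpen (P1 U₂ Vm X₁ R) :=
  (isOpen_lt continuous_const (continuous_re.comp continuous_fst)).inter
    ((isOpen_lt (continuous_abs.comp (continuous_im.comp continuous_fst)) continuous_const).inter
      ((isOpen_lt (continuous_re.comp (continuous_fst.sub continuous_snd)) continuous_const).inter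
        (isOpen_lt continuous_const (continuous_re.comp continuous_snd))))

/-- PROPERNESS of (g1), in an abstract form: `J` is analytic and `‖b J - 1‖ ≤ 1 / 5` on a
neighbourhood (relative to `R < Re ζ`) of the closure of `P1`.

Proof. `0.8 / b ≤ ‖J‖ ≤ 1.2 / b`, `|arg J| ≤ 1 / 4` (`arcsin (1/5)`). Let `K ⊆ G1` compact, `S := P1 ∩ f⁻¹ K`.
Bounded: `ζ` bounded, `|Im om| < Vm`, `U₂ < Re om < X₁ + Re ζ`. Closed: `x` a limit of points of `S`: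
`U₂ ≤ Re om`, `|Im om| ≤ Vm`, `Re (om - ζ) ≤ X₁`, and `x.2` is a limit of second components of `K` (closed), so
`R < Re x.2`. So `x ∈ N`, `(fJ x, x.2) ∈ K ⊆ G1`. If `Re om = U₂`: `Re (fJ x) ≤ (1 + p) U₂ + log (6 / (5 b)) ≤ L₁`, no.
If `|Im om| = Vm`: `|Im (fJ x)| ≥ (1 + p) Vm - 1 / 4 ≥ A`, no. If `Re (om - ζ) = X₁`:
`Re (fJ x) ≥ (1 + p) (X₁ + Re ζ) + log (4 / (5 b)) ≥ L₂ + (1 + p) Re ζ`, no. -/
theorem proper_G1 {N : Set (ℂ × ℂ)} (hN : IsOpen N) {J : ℂ × ℂ → ℂ} (hJ : AnalyticOnNhd ℂ J N)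
    {b U₂ Vm X₁ R A L₁ L₂ : ℝ} (hp : 0 < p) (hb : 0 < b)
    (hcl : ∀ x : ℂ × ℂ, U₂ ≤ x.1.re → |x.1.im| ≤ Vm → (x.1 - x.2).re ≤ X₁ → R < x.2.re →
      x ∈ N ∧ ‖b * J x - 1‖ ≤ 1 / 5)
    (h1 : (1 + p) * U₂ + Real.log (6 / (5 * b)) ≤ L₁) (h2 : A ≤ (1 + p) * Vm - 1 / 4)
    (h3 : L₂ ≤ (1 + p) * X₁ + Real.log (4 / (5 * b))) :
    ∀ K ⊆ G1 p A L₁ L₂ R, IsCompact K →
      IsCompact (P1 U₂ Vm X₁ R ∩ (fun y : ℂ × ℂ => (fJ p J y, y.2)) ⁻¹' K) := by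
  intro K hKG hK
  have hp1 : 0 < 1 + p := by linarith
  obtain ⟨M, hM⟩ := hK.isBounded.exists_norm_le
  refine isCompact_of_isClosed_isBounded ?_ ?_
  · refine isClosed_of_closure_subset fun x hx => ?_
    have hcl0 : IsClosed {x : ℂ × ℂ | U₂ ≤ x.1.re ∧ |x.1.im| ≤ Vm ∧ (x.1 - x.2).re ≤ X₁ ∧
        x.2 ∈ Prod.snd '' K} := by
      have c1 : IsClosed (Prod.snd '' K) := (hK.image continuous_snd).isClosed
      exact (isClosed_le continuous_const (continuous_re.comp continuous_fst)).inter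
        ((isClosed_le (continuous_abs.comp (continuous_im.comp continuous_fst))
          continuous_const).inter
        ((isClosed_le (continuous_re.comp (continuous_fst.sub continuous_snd))
          continuous_const).inter (c1.preimage continuous_snd)))
    have hx1 : x ∈ {x : ℂ × ℂ | U₂ ≤ x.1.re ∧ |x.1.im| ≤ Vm ∧ (x.1 - x.2).re ≤ X₁ ∧
        x.2 ∈ Prod.snd '' K} := by
      refine closure_minimal ?_ hcl0 hx
      rintro y ⟨hy1, hy2⟩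
      exact ⟨hy1.1.le, hy1.2.1.le, hy1.2.2.1.le, ⟨_, hy2, rfl⟩⟩
    obtain ⟨a1, a2, a3, y, hy, hy2⟩ := hx1
    have a4 : R < x.2.re := by
      rw [← hy2]
      exact (hKG hy).2.2.2
    obtain ⟨b1, b2⟩ := hcl x a1 a2 a3 a4
    obtain ⟨l1, l2, l3, l4⟩ := g1_core2 hb b2
    have hc : ContinuousAt (fun y : ℂ × ℂ => (fJ p J y, y.2)) x := by
      have d1 : AnalyticAt ℂ (fJ p J) x :=
        (analyticAt_const.mul analyticAt_fst).add ((hJ x b1).clog (Or.inl l4))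
      exact d1.continuousAt.prodMk continuousAt_snd
    have hmem : ((fJ p J x, x.2) : ℂ × ℂ) ∈ K := by
      have d1 := hc.continuousWithinAt.mem_closure_image hx
      have d2 : closure ((fun y : ℂ × ℂ => (fJ p J y, y.2)) ''
          (P1 U₂ Vm X₁ R ∩ (fun y : ℂ × ℂ => (fJ p J y, y.2)) ⁻¹' K)) ⊆ K := by
        refine closure_minimal ?_ hK.isClosed
        rintro _ ⟨z, hz, rfl⟩
        exact hz.2
      exact d2 d1
    obtain ⟨g1, g2, g3, -⟩ := hKG hmem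
    simp only at g1 g2 g3
    rw [g1_re] at g1 g3
    rw [g1_im] at g2
    refine ⟨⟨?_, ?_, ?_, a4⟩, hmem⟩
    · by_contra hcon
      push Not at hcon
      have := mul_le_mul_of_nonneg_left hcon hp1.le
      linarith
    · by_contra hcon
      push Not at hcon
      have e1 := mul_le_mul_of_nonneg_left hcon hp1.le
      have e2 : (1 + p) * |x.1.im| - |arg (J x)| ≤ |(1 + p) * x.1.im + arg (J x)| := by
        have e3 := abs_sub_abs_le_abs_sub ((1 + p) * x.1.im) (-arg (J x))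
        rw [abs_neg, sub_neg_eq_add, abs_mul, abs_of_pos hp1] at e3
        exact e3
      linarith
    · by_contra hcon
      push Not at hcon
      rw [sub_re] at hcon
      have e1 := mul_le_mul_of_nonneg_left hcon hp1.le
      linarith
  · rw [isBounded_iff_forall_norm_le]
    refine ⟨max (|U₂| + |X₁| + M + |Vm|) M, ?_⟩
    rintro x ⟨hx1, hx2⟩
    have hM1 := hM _ hx2
    rw [Prod.norm_def] at hM1 ⊢
    have hM2 : ‖x.2‖ ≤ M := (le_max_right _ _).trans hM1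
    refine max_le_max ?_ hM2
    obtain ⟨a1, a2, a3, -⟩ := hx1
    have b1 : ‖x.1‖ ≤ |x.1.re| + |x.1.im| := Complex.norm_le_abs_re_add_abs_im _
    have b2 : |x.1.im| ≤ |Vm| := a2.le.trans (le_abs_self _)
    have b3 : |x.1.re| ≤ |U₂| + |X₁| + M := by
      have c1 := neg_abs_le U₂
      have c2 := le_abs_self X₁
      have c3 : x.2.re ≤ M := (Complex.re_le_norm _).trans hM2
      have c4 : 0 ≤ M := (norm_nonneg _).trans hM2
      rw [sub_re] at a3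
      rw [abs_le]
      constructor
      · have := abs_nonneg X₁
        linarith
      · have := abs_nonneg U₂
        linarith
    linarith

/-- THE SECTION (g1).

Proof. `b := (1 + p) (k + 1) π`. `Vm := (A + 1) / (1 + p)`, `TT.far` with `Vm`, `ε = 1 / 10`: `U₂`, `R₂`;
`2 η + ε ≤ 1 / 5`. `L₁ := (1 + p) U₂ + log (6 / (5 b))`, `L₂ := (1 + p) X₁ + log (4 / (5 b))`. For `R ≥ max R₀ R₂`:
`proper_G1` (`N = DT`, `U0 < U₂`), `sec_pair` (`fJT_der`, `convex_G1`). Base point: `x₀ := (t + X₁ - 1, t)` with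
`t` real, large: `Re f = (1 + p) (t + X₁ - 1) + log ‖J‖`, `‖J‖ ≤ 6 / (5 b)` and `- (1 + p) + log (3 / 2) < 0`;
`|Im f| = |arg J| ≤ 1 / 4 < A`. -/
theorem sec_G1 (h : Sh k V Y) (hk : 1 ≤ k) (hκ : Kap p X₀ η c₁ κ) {X₁ A : ℝ} (hX : X₁ < X₀)
    (hA : 1 ≤ A) : ∃ U₂ R₂ L₁ L₂ : ℝ, U0 < U₂ ∧
      ∀ (R₀ : ℝ) (T : ℂ × ℂ → ℂ) (θZ : ℂ → ℂ), TT k X₀ R₀ κ Y T θZ →
        ∀ R : ℝ, R₀ ≤ R → R₂ ≤ R → ∃ g : ℂ × ℂ → ℂ, AnalyticOnNhd ℂ g (G1 p A L₁ L₂ R) ∧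
          (∀ y ∈ G1 p A L₁ L₂ R, (g y, y.2) ∈ P1 U₂ ((A + 1) / (1 + p)) X₁ R ∧
            0 < (JT p c₁ T (g y, y.2)).re ∧
            ‖(1 + p) * ((k + 1) * Real.pi) * JT p c₁ T (g y, y.2) - 1‖ ≤ 1 / 5 ∧
            fJ p (JT p c₁ T) (g y, y.2) = y.1) := by
  have hp := hκ.p_pos
  have hη := hκ.η_le
  have hpi := Real.pi_pos
  have hp1 : 0 < 1 + p := by linarith
  have hA0 : 0 < A := by linarith
  obtain ⟨U₂, R₂, hU, hfar⟩ := TT.far h hk hκ ((A + 1) / (1 + p)) (ε := 1 / 10) (by norm_num)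
  obtain ⟨b, hb⟩ : ∃ b : ℝ, b = (1 + p) * ((k + 1) * Real.pi) := ⟨_, rfl⟩
  have hb0 : 0 < b := by
    rw [hb]
    positivity
  have hbC : (1 + (p : ℂ)) * (((k : ℂ) + 1) * (Real.pi : ℂ)) = (b : ℂ) := by
    rw [hb]
    push_cast
    ring
  refine ⟨U₂, R₂, (1 + p) * U₂ + Real.log (6 / (5 * b)), (1 + p) * X₁ + Real.log (4 / (5 * b)),
    hU, ?_⟩
  intro R₀ T θZ hT R hR0 hR2
  have hcl : ∀ x : ℂ × ℂ, U₂ ≤ x.1.re → |x.1.im| ≤ (A + 1) / (1 + p) → (x.1 - x.2).re ≤ X₁ →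
      R < x.2.re → x ∈ DT k X₀ R₀ ∧ ‖b * JT p c₁ T x - 1‖ ≤ 1 / 5 := by
    intro x a1 a2 a3 a4
    have a5 : R₀ < x.2.re := by linarith
    have a6 : (x.1 - x.2).re < X₀ := by linarith
    refine ⟨⟨Or.inr (Or.inl (by linarith)), a6, Or.inr a5⟩, ?_⟩
    have := hfar R₀ T θZ hT x a1 a2 a5 (by linarith) a6
    rw [hbC] at this
    linarith
  have hclP : ∀ x ∈ P1 U₂ ((A + 1) / (1 + p)) X₁ R,
      x ∈ DT k X₀ R₀ ∧ ‖b * JT p c₁ T x - 1‖ ≤ 1 / 5 := fun x hx =>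
    hcl x hx.1.le hx.2.1.le hx.2.2.1.le hx.2.2.2
  have hder : ∀ x ∈ P1 U₂ ((A + 1) / (1 + p)) X₁ R,
      AnalyticAt ℂ (fJ p (JT p c₁ T)) x ∧
      HasDerivAt (fun z => fJ p (JT p c₁ T) (z, x.2)) (κ (x.1 - x.2) / (Y x.1 * T x)) x.1 ∧
      κ (x.1 - x.2) / (Y x.1 * T x) ≠ 0 := by
    intro x hx
    obtain ⟨a1, a2⟩ := hclP x hx
    have hY : Y x.1 ≠ 0 := by
      intro h0
      have h1 := (h.re_mem a1.1).1
      rw [h0, zero_re] at h1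
      have : 0 ≤ (k : ℝ) * Real.pi := by positivity
      linarith
    obtain ⟨c1, c2, c3, -⟩ := fJT_der hκ hT a1 (g1_core2 hb0 a2).2.2.2 hY
    exact ⟨c1, c2, c3⟩
  have hproper := proper_G1 (isOpen_DT k X₀ R₀) (g1_JT_an hκ hT) (A := A)
    (L₁ := (1 + p) * U₂ + Real.log (6 / (5 * b))) (L₂ := (1 + p) * X₁ + Real.log (4 / (5 * b)))
    hp hb0 hcl le_rfl (by
      rw [mul_div_cancel₀ _ hp1.ne']
      linarith) le_rfl
  -- the base point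
  obtain ⟨t, ht⟩ : ∃ t : ℝ, max R (max (U₂ - X₁ + 1)
      ((U₂ - X₁ + 1) + (Real.log (6 / (5 * b)) - Real.log (4 / (5 * b))) / (1 + p))) < t :=
    exists_gt _
  rw [max_lt_iff, max_lt_iff] at ht
  obtain ⟨t1, t2, t3⟩ := ht
  have hx₀ : (((t + X₁ - 1 : ℝ) : ℂ), (t : ℂ)) ∈ P1 U₂ ((A + 1) / (1 + p)) X₁ R := by
    refine ⟨?_, ?_, ?_, ?_⟩
    · show U₂ < ((t + X₁ - 1 : ℝ) : ℂ).re
      rw [ofReal_re]
      linarith
    · show |((t + X₁ - 1 : ℝ) : ℂ).im| < (A + 1) / (1 + p)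
      rw [ofReal_im, abs_zero]
      positivity
    · show (((t + X₁ - 1 : ℝ) : ℂ) - (t : ℂ)).re < X₁
      rw [sub_re, ofReal_re, ofReal_re]
      linarith
    · show R < (t : ℂ).re
      rwa [ofReal_re]
  obtain ⟨l1, l2, l3, l4⟩ := g1_core2 hb0 (hclP _ hx₀).2
  have hlog : Real.log (6 / (5 * b)) - Real.log (4 / (5 * b)) < 1 := by
    rw [← Real.log_div (by positivity) (by positivity)]
    have e1 : 6 / (5 * b) / (4 / (5 * b)) = 3 / 2 := by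
      field_simp
      norm_num
    rw [e1]
    have := Real.log_le_sub_one_of_pos (by norm_num : (0 : ℝ) < 3 / 2)
    linarith
  have hy₀ : ((fJ p (JT p c₁ T) (((t + X₁ - 1 : ℝ) : ℂ), (t : ℂ)),
      (((t + X₁ - 1 : ℝ) : ℂ), (t : ℂ)).2) : ℂ × ℂ) ∈ G1 p A
        ((1 + p) * U₂ + Real.log (6 / (5 * b))) ((1 + p) * X₁ + Real.log (4 / (5 * b))) R := by
    refine ⟨?_, ?_, ?_, ?_⟩
    · show (1 + p) * U₂ + Real.log (6 / (5 * b)) < (fJ p (JT p c₁ T) _).re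
      rw [g1_re, ofReal_re]
      have e1 : (Real.log (6 / (5 * b)) - Real.log (4 / (5 * b))) / (1 + p) * (1 + p) =
          Real.log (6 / (5 * b)) - Real.log (4 / (5 * b)) := div_mul_cancel₀ _ hp1.ne'
      nlinarith
    · show |(fJ p (JT p c₁ T) _).im| < A
      rw [g1_im, ofReal_im, mul_zero, zero_add]
      linarith
    · show (fJ p (JT p c₁ T) _).re < (1 + p) * X₁ + Real.log (4 / (5 * b)) + (1 + p) * (t : ℂ).re
      rw [g1_re, ofReal_re, ofReal_re]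
      nlinarith
    · show R < (t : ℂ).re
      rwa [ofReal_re]
  obtain ⟨g, g1, g2, -⟩ := sec_pair (F := fJ p (JT p c₁ T)) (g1_isOpen_P1 _ _ _ _)
    (fun x hx => (hder x hx).1) (d := fun x => κ (x.1 - x.2) / (Y x.1 * T x))
    (fun x hx => (hder x hx).2) (isOpen_G1 _ _ _ _ _)
    ((convex_G1 _ _ _ _ _).starConvex hy₀) hproper hx₀ hy₀
  refine ⟨g, g1, fun y hy => ?_⟩
  obtain ⟨c1, c2⟩ := g2 y hy
  have c3 := (hclP _ c1).2
  refine ⟨c1, (g1_core2 hb0 c3).2.2.2, ?_, c2⟩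
  rw [hbC]
  exact c3

end Pool.Agent.MP_ae5b4e_an_AZ
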