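import Pool.Agent.Lib.MP_ae5b4e_an_AZ.G3c
import Pool.Agent.Lib.MP_ae5b4e_an_AZ.G0
import Pool.Agent.Lib.MP_ae5b4e_an_AZ.T3b

/-! # AZ: (g3), the complement of the cone above the tip -/

noncomputable section

namespace Pool.Agent.MP_ae5b4e_an_AZ

open Complex Set Filter Topology Metric MeasureTheory intervalIntegral

variable {k : ℕ} {V Y : ℂ → ℂ} {p X₀ η : ℝ} {c₁ : ℂ} {κ : ℂ → ℂ}

/-- source of (g3) -/
def P3 (k : ℕ) (p U₃ R : ℝ) : Set (ℂ × ℂ) :=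
  {x | x.1 ∈ Xk k ∧ |(1 + p) * (x.1.im - Wk k)| < Real.pi ∧ x.1.re < U₃ ∧ R < x.2.re}

/-- target of (g3) -/
def G3 (ρ R : ℝ) : Set (ℂ × ℂ) := {y | ‖y.1‖ < ρ ∧ y.1 ∉ Cn ∧ R < y.2.re}

theorem isOpen_P3 (k : ℕ) (p U₃ R : ℝ) : IsOpen (P3 k p U₃ R) :=
  ((isOpen_Xk k).preimage continuous_fst).inter
    ((isOpen_lt (continuous_abs.comp (continuous_const.mul
      ((continuous_im.comp continuous_fst).sub continuous_const))) continuous_const).inter
      ((isOpen_lt (continuous_re.comp continuous_fst) continuous_const).inter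
        (isOpen_lt continuous_const (continuous_re.comp continuous_snd))))

theorem isOpen_G3 (ρ R : ℝ) : IsOpen (G3 ρ R) :=
  (isOpen_lt (continuous_norm.comp continuous_fst) continuous_const).inter
    ((isClosed_Cn.isOpen_compl.preimage continuous_fst).inter
      (isOpen_lt continuous_const (continuous_re.comp continuous_snd)))

/-- Proof. For `w = x + i y ∉ Cn`, i.e. `3 / 2 y < |x|`, and `0 ≤ a, b`, `a + b = 1`: `a (- i t) + b w` has real part `b x`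
and imaginary part `b y - a t`, `3 / 2 (b y - a t) ≤ 3 / 2 b y < |b x|` if `b > 0`; if `b = 0` it is `- i t ∉ Cn`. Norm and
`Re ζ`: convexity. -/
theorem star_G3 {ρ R t : ℝ} (ht : 0 < t) (htρ : t < ρ) {ζ₀ : ℂ} (hζ : R < ζ₀.re) :
    StarConvex ℝ (-(t * I) , ζ₀) (G3 ρ R) := by
  intro y hy a b ha hb hab
  obtain ⟨h1, h2, h3⟩ := hy
  have e1 : (a • ((-(t * I) : ℂ), ζ₀) + b • y : ℂ × ℂ).1 = (a : ℂ) * (-(t * I)) + b * y.1 := by
    simp
  have e2 : (a • ((-(t * I) : ℂ), ζ₀) + b • y : ℂ × ℂ).2 = (a : ℂ) * ζ₀ + b * y.2 := by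
    simp
  have n1 : ‖(a : ℂ) * (-(t * I))‖ = a * t := by
    rw [norm_mul, norm_neg, norm_mul, Complex.norm_I, mul_one, Complex.norm_real,
      Complex.norm_real, Real.norm_of_nonneg ha, Real.norm_of_nonneg ht.le]
  have n2 : ‖(b : ℂ) * y.1‖ = b * ‖y.1‖ := by
    rw [norm_mul, Complex.norm_real, Real.norm_of_nonneg hb]
  refine ⟨?_, ?_, ?_⟩
  · rw [e1]
    have m1 := norm_add_le ((a : ℂ) * (-(t * I))) (b * y.1)
    rw [n1, n2] at m1
    rcases hb.eq_or_lt with hb0 | hb0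
    · have ha1 : a = 1 := by linarith
      rw [← hb0, ha1] at m1
      rw [← hb0, ha1]
      linarith
    · have m2 := mul_lt_mul_of_pos_left h1 hb0
      have m3 := mul_le_mul_of_nonneg_left htρ.le ha
      have m4 : a * ρ + b * ρ = ρ := by rw [← add_mul, hab, one_mul]
      linarith
  · rw [e1]
    intro hc
    have hc' : |((a : ℂ) * (-(t * I)) + b * y.1).re| ≤
      3 / 2 * ((a : ℂ) * (-(t * I)) + b * y.1).im := hc
    have r1 : ((a : ℂ) * (-(t * I)) + b * y.1).re = b * y.1.re := by simp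
    have r2 : ((a : ℂ) * (-(t * I)) + b * y.1).im = -(a * t) + b * y.1.im := by simp
    rw [r1, r2, abs_mul, abs_of_nonneg hb] at hc'
    have h2' : 3 / 2 * y.1.im < |y.1.re| := by
      by_contra hcon
      exact h2 (not_lt.1 hcon)
    have hat : 0 ≤ a * t := mul_nonneg ha ht.le
    rcases hb.eq_or_lt with hb0 | hb0
    · have ha1 : a = 1 := by linarith
      rw [← hb0, ha1] at hc'
      linarith
    · have m2 := mul_lt_mul_of_pos_left h2' hb0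
      linarith
  · rw [e2]
    have r1 : ((a : ℂ) * ζ₀ + b * y.2).re = a * ζ₀.re + b * y.2.re := by simp
    rw [r1]
    rcases hb.eq_or_lt with hb0 | hb0
    · have ha1 : a = 1 := by linarith
      rw [← hb0, ha1]
      linarith
    · have m2 := mul_lt_mul_of_pos_left h3 hb0
      have m3 := mul_le_mul_of_nonneg_left hζ.le ha
      have m4 : a * R + b * R = R := by rw [← add_mul, hab, one_mul]
      linarith

private theorem g3_normE (k : ℕ) (p : ℝ) : ‖E0 k p‖ = 1 := by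
  unfold E0
  rw [Complex.norm_exp]
  simp

private theorem g3_normexp (p : ℝ) (ζ : ℂ) :
    ‖cexp ((1 + p) * ζ)‖ = Real.exp ((1 + p) * ζ.re) := by
  rw [Complex.norm_exp]
  congr 1
  simp

private theorem g3_normwT (k : ℕ) (p : ℝ) (c₁ : ℂ) (T : ℂ × ℂ → ℂ) (θt : ℂ → ℂ) (x : ℂ × ℂ) :
    ‖wT k p c₁ T θt x‖ = Real.exp ((1 + p) * x.2.re) / ‖c₁‖ * ‖T x - θt x.2‖ := by
  unfold wT
  rw [norm_mul, norm_div, norm_mul, g3_normE, g3_normexp, one_mul]

private theorem g3_mem {R₀ U₃ R : ℝ} (hR' : R₀ ≤ R) (hU : U₃ - R ≤ X₀) {x : ℂ × ℂ}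
    (hx : x ∈ P3 k p U₃ R) : x ∈ DT k X₀ R₀ ∧ R₀ < x.2.re := by
  obtain ⟨h1, h2, h3, h4⟩ := hx
  have h5 : R₀ < x.2.re := by linarith
  refine ⟨⟨h1, ?_, Or.inr h5⟩, h5⟩
  rw [sub_re]
  linarith

private theorem g3_im (hk : 1 ≤ k) (hp : 0 < p) {v : ℝ}
    (hv : |(1 + p) * (v - Wk k)| ≤ Real.pi) : |v - Wk k| ≤ Real.pi ∧ 0 < v := by
  have hpi := Real.pi_pos
  have h1 : |v - Wk k| ≤ Real.pi := by
    rw [abs_mul, abs_of_pos (by linarith : (0 : ℝ) < 1 + p)] at hv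
    have h2 : |v - Wk k| ≤ (1 + p) * |v - Wk k| := by
      have := mul_nonneg hp.le (abs_nonneg (v - Wk k))
      linarith
    linarith
  refine ⟨h1, ?_⟩
  have h2 := (abs_le.1 h1).1
  have h3 := Wk_ge hk
  linarith

/-- Proof. `TT.an`, `θt` analytic; `∂₁ wT = dn` (`TT.der`), `dn ≠ 0` (`κ ≠ 0`, `E0 ≠ 0`). -/
theorem wT_der (h : Sh k V Y) (hk : 1 ≤ k) (hκ : Kap p X₀ η c₁ κ) {R₀ : ℝ} {T : ℂ × ℂ → ℂ}
    {θZ θt : ℂ → ℂ} (hT : TT k X₀ R₀ κ Y T θZ) {Ct : ℝ}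
    (ht : Tip k p R₀ T θt Ct) {x : ℂ × ℂ} (hx : x ∈ DT k X₀ R₀) (hζ : R₀ < x.2.re) :
    AnalyticAt ℂ (wT k p c₁ T θt) x ∧
      HasDerivAt (fun z => wT k p c₁ T θt (z, x.2)) (dn k p c₁ κ Y x) x.1 ∧
      dn k p c₁ κ Y x ≠ 0 := by
  have hY : Y x.1 ≠ 0 := by
    intro h0
    have h1 := (h.re_mem hx.1).1
    rw [h0, zero_re] at h1
    have hk' : (0 : ℝ) ≤ k := Nat.cast_nonneg k
    have := mul_nonneg hk' Real.pi_pos.le
    linarith
  have hκ0 : κ (x.1 - x.2) ≠ 0 := by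
    intro h0
    have h1 := hκ.bd _ hx.2.1
    rw [h0, zero_sub, norm_neg] at h1
    have h2 : 0 < ‖c₁ * cexp ((1 + p) * (x.1 - x.2))‖ :=
      norm_pos_iff.2 (mul_ne_zero hκ.c₁_ne (Complex.exp_ne_zero _))
    have h3 := mul_le_mul_of_nonneg_right hκ.η_le h2.le
    linarith
  have hθ : AnalyticAt ℂ (fun y : ℂ × ℂ => θt y.2) x :=
    AnalyticAt.fun_comp (g := θt) (f := Prod.snd) (ht.1 x.2 hζ) analyticAt_snd
  have hE : AnalyticAt ℂ (fun y : ℂ × ℂ => E0 k p * cexp ((1 + p) * y.2) / c₁) x := by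
    have h1 : AnalyticAt ℂ (fun y : ℂ × ℂ => cexp ((1 + p) * y.2)) x :=
      (analyticAt_const.mul analyticAt_snd).cexp
    exact (analyticAt_const.mul h1).div analyticAt_const hκ.c₁_ne
  refine ⟨hE.mul ((hT.an x hx).sub hθ), ?_, ?_⟩
  · exact ((hT.der x hx).sub_const (θt x.2)).const_mul (E0 k p * cexp ((1 + p) * x.2) / c₁)
  · exact mul_ne_zero (div_ne_zero (mul_ne_zero (Complex.exp_ne_zero _) (Complex.exp_ne_zero _))
      hκ.c₁_ne) (div_ne_zero hκ0 hY)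

/-- PROPERNESS of (g3).

Proof. Let `K ⊆ G3 ρ R` compact, `S := P3 ∩ f⁻¹ K`. There is `ε > 0` with `ε ≤ ‖y.1 - c‖` for `y ∈ K`, `c ∈ Cn`
(compact set and disjoint closed set). `R ≥ R₀`, `U₃ - R ≤ X₁ < X₀`. BOUNDED: `ζ` bounded; `Im om` bounded;
`Re om < U₃`; `Re om ≥ min U0 (log ε / (1 + p))` by `wT_left` (`0 < Im om` as `(1 + p) W ≥ 3 π / 2 > π`). CLOSED: let
`(om, ζ)` be a limit of points `x_n` of `S`; `R < Re ζ` (`ζ` is a limit of second components of `K`), `Re om ≤ U₃`,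
`|(1 + p) (Im om - W)| ≤ π`. (1) `om ∈ Xk k`: then `x ∈ DT` (`Re (om - ζ) < U₃ - R ≤ X₀`), `wT` is continuous at `x`, so
`(wT x, ζ) ∈ K`. If `(1 + p) (Im om - W) = ∓ π`: `wT_a`, `wT_b`: `wT x ∈ Cn`, no. If `Re om = U₃`: `hout`:
`ρ ≤ ‖wT x‖`, no. So `x ∈ S`. (2) `om ∉ Xk k`: `Re om ≤ U0`, `Im om = W` (since `Im om > 0`). If `Re om < U0`: for large
`n`, `Re om_n < U0` and `wT_cut`: distance of `wT x_n` from `Cn` `≤ C |Im om_n - W| → 0`: contradiction to `ε`. If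
`om = tip k`: `‖wT x_n‖ ≤ Ct / ‖c₁‖ ‖om_n - tip‖ → 0` (`Tip`), and `0 ∈ Cn`: contradiction. -/
theorem proper_G3 (h : Sh k V Y) (hk : 1 ≤ k) (hκ : Kap p X₀ η c₁ κ) {R₀ : ℝ} {T : ℂ × ℂ → ℂ}
    {θZ θt : ℂ → ℂ} (hT : TT k X₀ R₀ κ Y T θZ) (hR : U0 + 1 - R₀ < X₀) {Ct : ℝ}
    (ht : Tip k p R₀ T θt Ct) {ρ U₃ R : ℝ} (hR' : R₀ ≤ R) (hU : U₃ - R ≤ X₀) (hU0 : U0 < U₃)
    (hout : ∀ x : ℂ × ℂ, x.1.re = U₃ → |(1 + p) * (x.1.im - Wk k)| ≤ Real.pi → R < x.2.re →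
      ρ ≤ ‖wT k p c₁ T θt x‖) :
    ∀ K ⊆ G3 ρ R, IsCompact K →
      IsCompact (P3 k p U₃ R ∩ (fun y : ℂ × ℂ => (wT k p c₁ T θt y, y.2)) ⁻¹' K) := by
  intro K hK hKc
  have hp := hκ.p_pos
  have hpi := Real.pi_pos
  have hc : 0 < ‖c₁‖ := norm_pos_iff.2 hκ.c₁_ne
  have hdisj : Disjoint (Prod.fst '' K) Cn := by
    rw [Set.disjoint_left]
    rintro _ ⟨y, hy, rfl⟩ hyC
    exact (hK hy).2.1 hyC
  obtain ⟨ε', hε'0, hε'⟩ := exists_pos_forall_lt_edist (hKc.image continuous_fst) isClosed_Cn hdisj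
  obtain ⟨ε, hε⟩ : ∃ ε : ℝ, ε = ε' := ⟨_, rfl⟩
  have hε0 : 0 < ε := by rw [hε]; exact_mod_cast hε'0
  have hεK : ∀ y ∈ K, ∀ c ∈ Cn, ε < ‖y.1 - c‖ := by
    intro y hy c hcC
    have h1 := hε' y.1 ⟨y, hy, rfl⟩ c hcC
    rw [edist_dist, ← dist_eq_norm, hε] at *
    have h2 : ENNReal.ofReal (ε' : ℝ) < ENNReal.ofReal (dist y.1 c) := by
      rwa [ENNReal.ofReal_coe_nnreal]
    exact (ENNReal.ofReal_lt_ofReal_iff_of_nonneg ε'.coe_nonneg).1 h2
  have hKcl : IsClosed K := hKc.isClosed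
  have hK2 : IsCompact (Prod.snd '' K) := hKc.image continuous_snd
  obtain ⟨M, hM⟩ := hK2.isBounded.exists_norm_le
  obtain ⟨S, hS⟩ : ∃ S : Set (ℂ × ℂ), S = P3 k p U₃ R ∩
    (fun y : ℂ × ℂ => (wT k p c₁ T θt y, y.2)) ⁻¹' K := ⟨_, rfl⟩
  rw [← hS]
  have hSm : ∀ x ∈ S, x ∈ P3 k p U₃ R ∧ (wT k p c₁ T θt x, x.2) ∈ K := by
    intro x hx
    rw [hS] at hx
    exact hx
  -- bounded
  have hbd : Bornology.IsBounded S := by
    rw [isBounded_iff_forall_norm_le]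
    refine ⟨max (max |min U0 (Real.log ε / (1 + p))| |U₃| + (|Wk k| + Real.pi)) M, fun x hx => ?_⟩
    obtain ⟨hP, hxK⟩ := hSm x hx
    obtain ⟨h1, h2, h3, h4⟩ := hP
    have hζ : ‖x.2‖ ≤ M := hM x.2 ⟨_, hxK, rfl⟩
    obtain ⟨h5, h6⟩ := g3_im hk hp h2.le
    have h7 : min U0 (Real.log ε / (1 + p)) ≤ x.1.re := by
      rcases le_total x.1.re U0 with h8 | h8
      · refine (min_le_right _ _).trans ?_
        obtain ⟨c, hcC, hcn⟩ := wT_left h hk hκ hT hR ht h1 h8 h6 (by linarith)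
        have h9 := hεK _ hxK c hcC
        have h10 : ε ≤ Real.exp ((1 + p) * x.1.re) := h9.le.trans hcn
        have h11 := Real.log_le_log hε0 h10
        rw [Real.log_exp] at h11
        rw [div_le_iff₀ (by linarith)]
        linarith
      · exact (min_le_left _ _).trans h8
    have h8 : |x.1.re| ≤ max |min U0 (Real.log ε / (1 + p))| |U₃| := by
      rw [abs_le]
      constructor
      · have a1 := neg_abs_le (min U0 (Real.log ε / (1 + p)))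
        have a2 := le_max_left |min U0 (Real.log ε / (1 + p))| |U₃|
        linarith
      · have a1 := le_abs_self U₃
        have a2 := le_max_right |min U0 (Real.log ε / (1 + p))| |U₃|
        linarith
    have h9 : |x.1.im| ≤ |Wk k| + Real.pi := by
      have a1 := abs_add_le (x.1.im - Wk k) (Wk k)
      rw [sub_add_cancel] at a1
      linarith
    have h10 : ‖x.1‖ ≤ |x.1.re| + |x.1.im| := Complex.norm_le_abs_re_add_abs_im _
    rw [Prod.norm_def]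
    refine max_le_max ?_ hζ
    linarith
  refine Metric.isCompact_of_isClosed_isBounded ?_ hbd
  refine isClosed_of_closure_subset fun x hx => ?_
  obtain ⟨u, hu, hux⟩ := mem_closure_iff_seq_limit.1 hx
  have hu1 : Tendsto (fun n => (u n).1) atTop (𝓝 x.1) :=
    (continuous_fst.tendsto x).comp hux
  have hu2 : Tendsto (fun n => (u n).2) atTop (𝓝 x.2) :=
    (continuous_snd.tendsto x).comp hux
  have hre : Tendsto (fun n => (u n).1.re) atTop (𝓝 x.1.re) :=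
    (continuous_re.tendsto x.1).comp hu1
  have him : Tendsto (fun n => (u n).1.im) atTop (𝓝 x.1.im) :=
    (continuous_im.tendsto x.1).comp hu1
  have hζR : R < x.2.re := by
    have h1 : x.2 ∈ Prod.snd '' K := hK2.isClosed.mem_of_tendsto hu2
      (Eventually.of_forall fun n => ⟨_, (hSm _ (hu n)).2, rfl⟩)
    obtain ⟨y, hy, hyx⟩ := h1
    rw [← hyx]
    exact (hK hy).2.2
  have hζ0 : R₀ < x.2.re := by linarith
  have hreU : x.1.re ≤ U₃ :=
    le_of_tendsto hre (Eventually.of_forall fun n => (hSm _ (hu n)).1.2.2.1.le)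
  have himp : |(1 + p) * (x.1.im - Wk k)| ≤ Real.pi :=
    le_of_tendsto ((tendsto_const_nhds.mul (him.sub_const _)).abs)
      (Eventually.of_forall fun n => (hSm _ (hu n)).1.2.1.le)
  have hX : (x.1 - x.2).re < X₀ := by
    rw [sub_re]
    linarith
  by_cases hxk : x.1 ∈ Xk k
  · have hDT : x ∈ DT k X₀ R₀ := ⟨hxk, hX, Or.inr hζ0⟩
    have hcont : ContinuousAt (fun y : ℂ × ℂ => (wT k p c₁ T θt y, y.2)) x :=
      (wT_der h hk hκ hT ht hDT hζ0).1.continuousAt.prodMk continuousAt_snd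
    have hfK : (wT k p c₁ T θt x, x.2) ∈ K := hKcl.mem_of_tendsto (hcont.tendsto.comp hux)
      (Eventually.of_forall fun n => (hSm _ (hu n)).2)
    obtain ⟨k1, k2, k3⟩ := hK hfK
    rw [hS]
    refine ⟨⟨hxk, ?_, ?_, hζR⟩, hfK⟩
    · refine lt_of_le_of_ne himp fun heq => ?_
      rcases eq_or_eq_neg_of_abs_eq heq with h1 | h1
      · exact k2 (wT_b h hk hκ hT hR ht hX (by rw [h1, sub_self, abs_zero]; norm_num) hζ0)
      · exact k2 (wT_a h hk hκ hT hR ht hX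
          (by rw [h1, neg_add_cancel, abs_zero]; norm_num) hζ0)
    · refine lt_of_le_of_ne hreU fun heq => ?_
      exact absurd (hout x heq himp hζR) (not_le.2 k1)
  · exfalso
    have hn1 : Wk k ≤ |x.1.im| := by
      by_contra hcon
      exact hxk (Or.inl (not_le.1 hcon))
    have hn2 : x.1.re ≤ U0 := by
      by_contra hcon
      exact hxk (Or.inr (Or.inl (not_le.1 hcon)))
    have hn3 : x.1.im ≤ Wk k := by
      by_contra hcon
      exact hxk (Or.inr (Or.inr (not_le.1 hcon)))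
    have hpos := (g3_im hk hp himp).2
    have him' : x.1.im = Wk k := by
      rw [abs_of_pos hpos] at hn1
      exact le_antisymm hn3 hn1
    rcases hn2.lt_or_eq with hlt | heq
    · have e1 : ∀ᶠ n in atTop, (u n).1.re < U0 := hre.eventually (gt_mem_nhds hlt)
      have t1 : Tendsto (fun n => |(1 + p) * ((u n).1.im - Wk k)|) atTop (𝓝 0) := by
        have := (tendsto_const_nhds (x := (1 + p))).mul (him.sub_const (Wk k))
        rw [him', sub_self, mul_zero] at this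
        have h2 := this.abs
        rwa [abs_zero] at h2
      have e2 : ∀ᶠ n in atTop, |(1 + p) * ((u n).1.im - Wk k)| < 1 / 20 :=
        t1.eventually (gt_mem_nhds (by norm_num))
      have t2 : Tendsto (fun n => Ct / ‖c₁‖ * |(u n).1.im - Wk k|) atTop (𝓝 0) := by
        have h1 := him.sub_const (Wk k)
        rw [him', sub_self] at h1
        have h2 := (tendsto_const_nhds (x := Ct / ‖c₁‖)).mul h1.abs
        rwa [abs_zero, mul_zero] at h2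
      have e3 : ∀ᶠ n in atTop, ε ≤ Ct / ‖c₁‖ * |(u n).1.im - Wk k| := by
        filter_upwards [e1, e2] with n a1 a2
        obtain ⟨hP, hnK⟩ := hSm _ (hu n)
        have hq := g3_mem (X₀ := X₀) hR' hU hP
        obtain ⟨c, hcC, hcn⟩ := wT_cut h hk hκ hT hR ht hP.1 a1.le a2.le hq.2
        exact ((hεK _ hnK c hcC).le).trans hcn
      have := ge_of_tendsto t2 e3
      linarith
    · have htip : x.1 = tip k := by
        apply Complex.ext
        · rw [heq, v6b_tip_re]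
        · rw [him', v6b_tip_im]
      have t1 : Tendsto (fun n => ‖(u n).1 - tip k‖) atTop (𝓝 0) := by
        have h1 := (hu1.sub_const (tip k)).norm
        rw [htip, sub_self, norm_zero] at h1
        exact h1
      have e1 : ∀ᶠ n in atTop, ‖(u n).1 - tip k‖ < 1 / 2 :=
        t1.eventually (gt_mem_nhds (by norm_num))
      have t2 : Tendsto (fun n => Ct / ‖c₁‖ * ‖(u n).1 - tip k‖) atTop (𝓝 0) := by
        have h2 := (tendsto_const_nhds (x := Ct / ‖c₁‖)).mul t1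
        rwa [mul_zero] at h2
      have e3 : ∀ᶠ n in atTop, ε ≤ Ct / ‖c₁‖ * ‖(u n).1 - tip k‖ := by
        filter_upwards [e1] with n a1
        obtain ⟨hP, hnK⟩ := hSm _ (hu n)
        have hq := g3_mem (X₀ := X₀) hR' hU hP
        have b1 := ht.2 (u n) hP.1 a1.le hq.2
        have b2 := hεK _ hnK 0 (by
          change |(0 : ℂ).re| ≤ 3 / 2 * (0 : ℂ).im
          simp)
        rw [sub_zero] at b2
        change ε < ‖wT k p c₁ T θt (u n)‖ at b2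
        rw [g3_normwT] at b2
        have b3 : Real.exp ((1 + p) * (u n).2.re) / ‖c₁‖ * ‖T (u n) - θt (u n).2‖ ≤
            Real.exp ((1 + p) * (u n).2.re) / ‖c₁‖ *
              (Ct * Real.exp (-((1 + p) * (u n).2.re)) * ‖(u n).1 - tip k‖) :=
          mul_le_mul_of_nonneg_left b1 (by positivity)
        have b4 : Real.exp ((1 + p) * (u n).2.re) / ‖c₁‖ *
              (Ct * Real.exp (-((1 + p) * (u n).2.re)) * ‖(u n).1 - tip k‖) =
            Ct / ‖c₁‖ * ‖(u n).1 - tip k‖ *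
              (Real.exp ((1 + p) * (u n).2.re) * Real.exp (-((1 + p) * (u n).2.re))) := by
          ring
        rw [← Real.exp_add, add_neg_cancel, Real.exp_zero, mul_one] at b4
        linarith
      have := ge_of_tendsto t2 e3
      linarith

/-- THE SECTION (g3). Proof. `sec_pair` with `wT_der`, `proper_G3`, `star_G3`. -/
theorem sec_G3 (h : Sh k V Y) (hk : 1 ≤ k) (hκ : Kap p X₀ η c₁ κ) {R₀ : ℝ} {T : ℂ × ℂ → ℂ}
    {θZ θt : ℂ → ℂ} (hT : TT k X₀ R₀ κ Y T θZ) (hR : U0 + 1 - R₀ < X₀) {Ct : ℝ}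
    (ht : Tip k p R₀ T θt Ct) {ρ U₃ R : ℝ} (hR' : R₀ ≤ R) (hU : U₃ - R ≤ X₀) (hU0 : U0 < U₃)
    (hout : ∀ x : ℂ × ℂ, x.1.re = U₃ → |(1 + p) * (x.1.im - Wk k)| ≤ Real.pi → R < x.2.re →
      ρ ≤ ‖wT k p c₁ T θt x‖) {x₀ : ℂ × ℂ} (hx : x₀ ∈ P3 k p U₃ R) {t : ℝ} (ht0 : 0 < t)
    (htρ : t < ρ) (hw : wT k p c₁ T θt x₀ = -(t * I)) :
    ∃ g : ℂ × ℂ → ℂ, AnalyticOnNhd ℂ g (G3 ρ R) ∧
      (∀ y ∈ G3 ρ R, (g y, y.2) ∈ P3 k p U₃ R ∧ wT k p c₁ T θt (g y, y.2) = y.1) ∧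
      g (-(t * I), x₀.2) = x₀.1 := by
  have hP : ∀ x ∈ P3 k p U₃ R, AnalyticAt ℂ (wT k p c₁ T θt) x ∧
      HasDerivAt (fun z => wT k p c₁ T θt (z, x.2)) (dn k p c₁ κ Y x) x.1 ∧
      dn k p c₁ κ Y x ≠ 0 := by
    intro x hx
    obtain ⟨h1, h2⟩ := g3_mem (X₀ := X₀) hR' hU hx
    exact wT_der h hk hκ hT ht h1 h2
  have hζ : R < x₀.2.re := hx.2.2.2
  have hy : ((-(t * I) : ℂ), x₀.2) ∈ G3 ρ R := by
    refine ⟨?_, ?_, hζ⟩
    · change ‖-((t : ℂ) * I)‖ < ρ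
      rw [norm_neg, norm_mul, Complex.norm_I, mul_one, Complex.norm_real,
        Real.norm_of_nonneg ht0.le]
      exact htρ
    · intro hc
      have hc' : |(-((t : ℂ) * I)).re| ≤ 3 / 2 * (-((t : ℂ) * I)).im := hc
      have r1 : (-((t : ℂ) * I)).im = -t := by simp
      rw [r1] at hc'
      have := abs_nonneg (-((t : ℂ) * I)).re
      linarith
  have hstar : StarConvex ℝ (wT k p c₁ T θt x₀, x₀.2) (G3 ρ R) := by
    rw [hw]
    exact star_G3 ht0 htρ hζ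
  obtain ⟨g, g1, g2, g3⟩ := sec_pair (isOpen_P3 k p U₃ R) (fun x hx => (hP x hx).1)
    (d := dn k p c₁ κ Y) (fun x hx => (hP x hx).2) (isOpen_G3 ρ R) hstar
    (proper_G3 h hk hκ hT hR ht hR' hU hU0 hout) hx (by rw [hw]; exact hy)
  refine ⟨g, g1, g2, ?_⟩
  rw [hw] at g3
  exact g3

/-- THE OUTER BOUNDARY. Proof. `TT.far` with `Vm := Wk k + π`, `ε = 1 / 10`: for `Re om ≥ U₂`, `Re ζ > R₂`:
`‖b J - 1‖ ≤ 1 / 5`, `b = (1 + p) (k + 1) π`, so
`‖E0 exp ((1 + p) ζ) / c₁ T‖ = exp ((1 + p) Re om) ‖J‖ ≥ 4 / (5 b) exp ((1 + p) Re om)`; the tip part is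
`≤ Ct'` (`TT.norm_tip_le`). Choose `U₃ ≥ U₂` with `4 / (5 b) exp ((1 + p) U₃) ≥ ρ + Ct'`. -/
theorem out_G3 (h : Sh k V Y) (hk : 1 ≤ k) (hκ : Kap p X₀ η c₁ κ) (ρ Ct : ℝ) :
    ∃ U₃ R₂ : ℝ, U0 < U₃ ∧ ∀ (R₀ : ℝ) (T : ℂ × ℂ → ℂ) (θZ θt : ℂ → ℂ), TT k X₀ R₀ κ Y T θZ →
      U0 + 1 - R₀ < X₀ → Tip k p R₀ T θt Ct → ∀ x : ℂ × ℂ, U₃ ≤ x.1.re →
        |(1 + p) * (x.1.im - Wk k)| ≤ Real.pi → R₀ < x.2.re → R₂ < x.2.re →
          (x.1 - x.2).re < X₀ → ρ ≤ ‖wT k p c₁ T θt x‖ := by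
  have hp := hκ.p_pos
  have hpi := Real.pi_pos
  have hc : 0 < ‖c₁‖ := norm_pos_iff.2 hκ.c₁_ne
  obtain ⟨U₂, R₂, hU₂, hfar⟩ := TT.far h hk hκ (Wk k + Real.pi) (by norm_num : (0 : ℝ) < 1 / 10)
  obtain ⟨b, hb⟩ : ∃ b : ℝ, b = (1 + p) * ((k + 1) * Real.pi) := ⟨_, rfl⟩
  have hb0 : 0 < b := by rw [hb]; positivity
  obtain ⟨C, hC⟩ : ∃ C : ℝ, C = Real.exp ((1 + p) * (U0 + 1)) * (Wk k + 2) := ⟨_, rfl⟩
  refine ⟨max U₂ ((ρ + C) * (5 * b / 4)), R₂, lt_of_lt_of_le hU₂ (le_max_left _ _), ?_⟩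
  intro R₀ T θZ θt hT hR ht x hxU him hR₀ hR₂ hX
  have hU2 : U₂ ≤ x.1.re := (le_max_left _ _).trans hxU
  have hUL : (ρ + C) * (5 * b / 4) ≤ x.1.re := (le_max_right _ _).trans hxU
  have hpos : 0 < x.1.re := by
    have := U0_pos
    linarith
  obtain ⟨i1, i2⟩ := g3_im hk hp him
  have himW : |x.1.im| ≤ Wk k + Real.pi := by
    rw [abs_of_pos i2]
    have := (abs_le.1 i1).2
    linarith
  have hJ := hfar R₀ T θZ hT x hU2 himW hR₀ hR₂ hX
  have hJ1 : 4 / 5 ≤ b * ‖JT p c₁ T x‖ := by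
    have e1 : (1 + (p : ℂ)) * ((k + 1) * Real.pi) * JT p c₁ T x = (b : ℂ) * JT p c₁ T x := by
      rw [hb]; push_cast; ring
    have e2 : ‖(b : ℂ) * JT p c₁ T x‖ = b * ‖JT p c₁ T x‖ := by
      rw [norm_mul, Complex.norm_real, Real.norm_of_nonneg hb0.le]
    have e3 : ‖(1 : ℂ)‖ ≤ ‖(b : ℂ) * JT p c₁ T x‖ + ‖(b : ℂ) * JT p c₁ T x - 1‖ := by
      have := norm_sub_le ((b : ℂ) * JT p c₁ T x) ((b : ℂ) * JT p c₁ T x - 1)
      rwa [sub_sub_cancel] at this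
    rw [e1] at hJ
    rw [norm_one, e2] at e3
    have := hκ.η_le
    linarith
  have hmain : E0 k p * cexp ((1 + p) * x.2) / c₁ * T x =
      E0 k p * cexp ((1 + p) * x.1) * JT p c₁ T x := by
    unfold JT
    have e1 : cexp ((1 + p) * x.1) = cexp ((1 + p) * x.2) * cexp ((1 + p) * (x.1 - x.2)) := by
      rw [← Complex.exp_add]
      congr 1
      ring
    rw [e1]
    have h1 := hκ.c₁_ne
    have h2 := Complex.exp_ne_zero ((1 + p) * (x.1 - x.2))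
    field_simp
  have hn1 : ‖E0 k p * cexp ((1 + p) * x.2) / c₁ * T x‖ =
      Real.exp ((1 + p) * x.1.re) * ‖JT p c₁ T x‖ := by
    rw [hmain, norm_mul, norm_mul, g3_normE, g3_normexp, one_mul]
  have hn2 : ‖E0 k p * cexp ((1 + p) * x.2) / c₁ * θt x.2‖ ≤ C := by
    have b1 := TT.norm_tip_le h hk hκ hT hR ht.2 hR₀
    rw [norm_mul, norm_div, norm_mul, g3_normE, g3_normexp, one_mul]
    have b3 : Real.exp ((1 + p) * x.2.re) / ‖c₁‖ * ‖θt x.2‖ ≤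
        Real.exp ((1 + p) * x.2.re) / ‖c₁‖ * (‖c₁‖ * Real.exp ((1 + p) * (U0 + 1)) *
          (Wk k + 2) * Real.exp (-((1 + p) * x.2.re))) :=
      mul_le_mul_of_nonneg_left b1 (by positivity)
    have b4 : Real.exp ((1 + p) * x.2.re) / ‖c₁‖ * (‖c₁‖ * Real.exp ((1 + p) * (U0 + 1)) *
          (Wk k + 2) * Real.exp (-((1 + p) * x.2.re))) =
        (‖c₁‖ / ‖c₁‖) * (Real.exp ((1 + p) * (U0 + 1)) * (Wk k + 2)) *
          (Real.exp ((1 + p) * x.2.re) * Real.exp (-((1 + p) * x.2.re))) := by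
      ring
    rw [← Real.exp_add, add_neg_cancel, Real.exp_zero, mul_one, div_self hc.ne', one_mul,
      ← hC] at b4
    linarith
  have hn3 : ‖E0 k p * cexp ((1 + p) * x.2) / c₁ * T x‖ -
      ‖E0 k p * cexp ((1 + p) * x.2) / c₁ * θt x.2‖ ≤ ‖wT k p c₁ T θt x‖ := by
    unfold wT
    rw [mul_sub]
    exact norm_sub_norm_le _ _
  have hn4 : ρ + C ≤ Real.exp ((1 + p) * x.1.re) * ‖JT p c₁ T x‖ := by
    have a1 : x.1.re ≤ Real.exp ((1 + p) * x.1.re) := by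
      have a2 := Real.add_one_le_exp ((1 + p) * x.1.re)
      have a3 := mul_pos hp hpos
      linarith
    have a2 : 4 / 5 / b ≤ ‖JT p c₁ T x‖ := by
      rw [div_le_iff₀ hb0]
      linarith
    have a3 : (ρ + C) * (5 * b / 4) * (4 / 5 / b) = ρ + C := by
      field_simp
    have a4 : x.1.re * (4 / 5 / b) ≤ Real.exp ((1 + p) * x.1.re) * ‖JT p c₁ T x‖ :=
      mul_le_mul a1 a2 (by positivity) (Real.exp_pos _).le
    have a5 : (ρ + C) * (5 * b / 4) * (4 / 5 / b) ≤ x.1.re * (4 / 5 / b) :=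
      mul_le_mul_of_nonneg_right hUL (by positivity)
    linarith
  rw [hn1] at hn3
  linarith

end Pool.Agent.MP_ae5b4e_an_AZ
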