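import Pool.Agent.Lib.MP_ae5b4e_an_AZ.T3a

/-! # AZ: the cone above the tip and the directions of the boundary lines -/

noncomputable section

namespace Pool.Agent.MP_ae5b4e_an_AZ

open Complex Set Filter Topology Metric MeasureTheory intervalIntegral

/-- the closed convex cone about the upward direction -/
def Cn : Set ℂ := {w | |w.re| ≤ 3 / 2 * w.im}

theorem isClosed_Cn : IsClosed Cn :=
  isClosed_le (continuous_abs.comp continuous_re) (continuous_const.mul continuous_im)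

/-- Proof. Triangle inequality. -/
theorem Cn_add {u w : ℂ} (hu : u ∈ Cn) (hw : w ∈ Cn) : u + w ∈ Cn := by
  have h1 : |u.re| ≤ 3 / 2 * u.im := hu
  have h2 : |w.re| ≤ 3 / 2 * w.im := hw
  show |(u + w).re| ≤ 3 / 2 * (u + w).im
  rw [add_re, add_im]
  have := abs_add_le u.re w.re
  linarith

theorem Cn_smul {t : ℝ} (ht : 0 ≤ t) {w : ℂ} (hw : w ∈ Cn) : (t : ℂ) * w ∈ Cn := by
  have h2 : |w.re| ≤ 3 / 2 * w.im := hw
  show |((t : ℂ) * w).re| ≤ 3 / 2 * ((t : ℂ) * w).im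
  rw [re_ofReal_mul, im_ofReal_mul, abs_mul, abs_of_nonneg ht]
  nlinarith

/-- Proof. `±Re` and `3 / 2 Im` are linear: monotonicity of the integral of real functions. -/
theorem Cn_integral {g : ℝ → ℂ} {a b : ℝ} (hab : a ≤ b) (hg : IntervalIntegrable g volume a b)
    (h : ∀ t ∈ Icc a b, g t ∈ Cn) : ∫ t in a..b, g t ∈ Cn := by
  have h1 : (∫ t in a..b, g t).re = ∫ t in a..b, (g t).re :=
    (reCLM.intervalIntegral_comp_comm hg).symm
  have h2 : (∫ t in a..b, g t).im = ∫ t in a..b, (g t).im :=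
    (imCLM.intervalIntegral_comp_comm hg).symm
  have i1 : IntervalIntegrable (fun t => (g t).re) volume a b :=
    ⟨hg.1.re, hg.2.re⟩
  have i2 : IntervalIntegrable (fun t => (g t).im) volume a b :=
    ⟨hg.1.im, hg.2.im⟩
  show |(∫ t in a..b, g t).re| ≤ 3 / 2 * (∫ t in a..b, g t).im
  rw [h1, h2, ← intervalIntegral.integral_const_mul]
  refine (intervalIntegral.abs_integral_le_integral_abs hab).trans ?_
  exact intervalIntegral.integral_mono_on hab i1.abs (i2.const_mul (3 / 2)) fun t ht => h t ht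

theorem Cn_integral_Ioi {g : ℝ → ℂ} (hg : IntegrableOn g (Ioi 0)) (h : ∀ t : ℝ, 0 ≤ t → g t ∈ Cn) :
    ∫ t in Ioi (0 : ℝ), g t ∈ Cn := by
  have h1 : (∫ t in Ioi (0 : ℝ), g t).re = ∫ t in Ioi (0 : ℝ), (g t).re :=
    (reCLM.integral_comp_comm hg).symm
  have h2 : (∫ t in Ioi (0 : ℝ), g t).im = ∫ t in Ioi (0 : ℝ), (g t).im :=
    (imCLM.integral_comp_comm hg).symm
  have i1 : IntegrableOn (fun t => (g t).re) (Ioi (0 : ℝ)) := hg.re
  have i2 : IntegrableOn (fun t => (g t).im) (Ioi (0 : ℝ)) := hg.im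
  show |(∫ t in Ioi (0 : ℝ), g t).re| ≤ 3 / 2 * (∫ t in Ioi (0 : ℝ), g t).im
  rw [h1, h2, ← MeasureTheory.integral_const_mul]
  refine abs_integral_le_integral_abs.trans ?_
  exact setIntegral_mono_on i1.abs (i2.const_mul (3 / 2)) measurableSet_Ioi
    fun t ht => h t (le_of_lt ht)

theorem g3a_w0 {a b : ℝ} (ha : 0 < a) (hb : 0 ≤ b) :
    |(cexp (((3 * Real.pi / 4 : ℝ) : ℂ) * I) / (a + b * I)).re| ≤
      (cexp (((3 * Real.pi / 4 : ℝ) : ℂ) * I) / (a + b * I)).im := by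
  have hc : Real.cos (3 * Real.pi / 4) = -(√2 / 2) := by
    rw [← Real.cos_pi_div_four, ← Real.cos_pi_sub]
    congr 1
    ring
  have hs : Real.sin (3 * Real.pi / 4) = √2 / 2 := by
    rw [← Real.sin_pi_div_four, ← Real.sin_pi_sub]
    congr 1
    ring
  have hD : 0 < a ^ 2 + b ^ 2 := by positivity
  have hne : (a : ℂ) + b * I ≠ 0 := by
    intro h
    have := congrArg Complex.re h
    simp at this
    linarith
  have key : cexp (((3 * Real.pi / 4 : ℝ) : ℂ) * I) / (a + b * I) =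
      ((√2 / 2 * (b - a) / (a ^ 2 + b ^ 2) : ℝ) : ℂ) +
        ((√2 / 2 * (a + b) / (a ^ 2 + b ^ 2) : ℝ) : ℂ) * I := by
    rw [div_eq_iff hne, Complex.exp_mul_I, ← ofReal_cos, ← ofReal_sin, hc, hs]
    apply Complex.ext
    · simp only [add_re, mul_re, ofReal_re, ofReal_im, I_re, I_im, add_im, mul_im]
      field_simp
      ring
    · simp only [add_re, mul_re, ofReal_re, ofReal_im, I_re, I_im, add_im, mul_im]
      field_simp
      ring
  have hre : (cexp (((3 * Real.pi / 4 : ℝ) : ℂ) * I) / (a + b * I)).re =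
      √2 / 2 * (b - a) / (a ^ 2 + b ^ 2) := by
    rw [key]
    simp only [add_re, mul_re, ofReal_re, ofReal_im, I_re, I_im]
    ring
  have him : (cexp (((3 * Real.pi / 4 : ℝ) : ℂ) * I) / (a + b * I)).im =
      √2 / 2 * (a + b) / (a ^ 2 + b ^ 2) := by
    rw [key]
    simp only [add_im, mul_im, ofReal_re, ofReal_im, I_re, I_im]
    ring
  rw [hre, him, abs_div, abs_of_pos hD, abs_mul, abs_of_nonneg (by positivity : 0 ≤ √2 / 2)]
  have h3 : |b - a| ≤ a + b := by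
    rw [abs_le]
    constructor <;> linarith
  gcongr

/-- Proof. `exp (3 π i / 4) / (a + b i) = (- 1 + i) (a - i b) / (√2 (a² + b²)) =
((b - a) + i (a + b)) / (√2 (a² + b²)) =: w₀`, so `|Re w₀| ≤ Im w₀` and `‖w₀‖ ≤ √2 Im w₀`. The factor
`exp (i α) (1 + h) = 1 + e`, `‖e‖ ≤ |α| + ‖h‖ ≤ 1 / 10`: `|Re ((1 + e) w₀)| ≤ Im w₀ (1 + √2 / 10)`,
`Im ((1 + e) w₀) ≥ Im w₀ (1 - √2 / 10)`, and `1 + √2 / 10 ≤ 3 / 2 (1 - √2 / 10)`. -/
theorem cone_dir {a b ρ α : ℝ} {h : ℂ} (ha : 0 < a) (hb : 0 ≤ b) (hρ : 0 ≤ ρ)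
    (hα : |α| ≤ 1 / 20) (hh : ‖h‖ ≤ 1 / 20) :
    (ρ : ℂ) * cexp (((3 * Real.pi / 4 + α : ℝ) : ℂ) * I) * (1 + h) / (a + b * I) ∈ Cn := by
  obtain ⟨w, hw⟩ : ∃ w : ℂ, w = cexp (((3 * Real.pi / 4 : ℝ) : ℂ) * I) / (a + b * I) :=
    ⟨_, rfl⟩
  have hw0 := g3a_w0 ha hb
  rw [← hw] at hw0
  obtain ⟨e, he⟩ : ∃ e : ℂ, e = cexp ((α : ℂ) * I) * (1 + h) - 1 := ⟨_, rfl⟩
  have hen : ‖e‖ ≤ 1 / 10 := by
    have h1 : ‖cexp (I * (α : ℂ)) - 1‖ ≤ ‖α‖ := Real.norm_exp_I_mul_ofReal_sub_one_le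
    have h2 : e = (cexp (I * (α : ℂ)) - 1) + cexp (I * (α : ℂ)) * h := by
      rw [he, mul_comm (α : ℂ) I]
      ring
    have h3 : ‖cexp (I * (α : ℂ)) * h‖ = ‖h‖ := by
      rw [norm_mul, mul_comm I, Complex.norm_exp_ofReal_mul_I, one_mul]
    rw [h2]
    refine (norm_add_le _ _).trans ?_
    rw [h3]
    rw [Real.norm_eq_abs] at h1
    linarith
  have hwn : ‖w‖ ≤ 3 / 2 * w.im := by
    have h2 : 0 ≤ w.im := (abs_nonneg _).trans hw0
    have h1 : ‖w‖ ^ 2 = w.re ^ 2 + w.im ^ 2 := by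
      rw [Complex.sq_norm, Complex.normSq_apply]
      ring
    have h3 : w.re ^ 2 ≤ w.im ^ 2 := sq_le_sq' (abs_le.1 hw0).1 (abs_le.1 hw0).2
    refine le_of_sq_le_sq ?_ (by linarith)
    rw [h1]
    nlinarith
  have hew : ‖e * w‖ ≤ 3 / 20 * w.im := by
    rw [norm_mul]
    have := mul_le_mul hen hwn (norm_nonneg _) (by norm_num)
    linarith
  have hmem : w + e * w ∈ Cn := by
    show |(w + e * w).re| ≤ 3 / 2 * (w + e * w).im
    rw [add_re, add_im]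
    have h1 := Complex.abs_re_le_norm (e * w)
    have h2 := Complex.abs_im_le_norm (e * w)
    have h3 := abs_add_le w.re (e * w).re
    have h4 := neg_abs_le (e * w).im
    have h5 : 0 ≤ w.im := (abs_nonneg _).trans hw0
    linarith
  have hfin : (ρ : ℂ) * cexp (((3 * Real.pi / 4 + α : ℝ) : ℂ) * I) * (1 + h) / (a + b * I) =
      (ρ : ℂ) * (w + e * w) := by
    have h1 : cexp (((3 * Real.pi / 4 + α : ℝ) : ℂ) * I) =
        cexp (((3 * Real.pi / 4 : ℝ) : ℂ) * I) * cexp ((α : ℂ) * I) := by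
      rw [← Complex.exp_add]
      congr 1
      push_cast
      ring
    rw [h1, he, hw]
    ring
  rw [hfin]
  exact Cn_smul hρ hmem

variable {k : ℕ} {V Y : ℂ → ℂ} {p X₀ η : ℝ} {c₁ : ℂ} {κ : ℂ → ℂ}

/-- the rotation which makes the direction of the chain at `be_t` horizontal -/
def E0 (k : ℕ) (p : ℝ) : ℂ := cexp (-(((1 + p) * Wk k + Real.pi / 4 : ℝ) : ℂ) * I)

/-- the scaled density in rotated coordinates -/
def dn (k : ℕ) (p : ℝ) (c₁ : ℂ) (κ Y : ℂ → ℂ) (x : ℂ × ℂ) : ℂ :=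
  E0 k p * cexp ((1 + p) * x.2) / c₁ * (κ (x.1 - x.2) / Y x.1)

theorem g3a_form (h : Sh k V Y) (hκ : Kap p X₀ η c₁ κ) {x : ℂ × ℂ} (h1 : x.1 ∈ Xk k)
    (h2 : (x.1 - x.2).re < X₀) : ∃ e : ℂ, ‖e‖ ≤ 1 / 20 ∧ dn k p c₁ κ Y x =
      (Real.exp ((1 + p) * x.1.re) : ℂ) *
        cexp ((((1 + p) * (x.1.im - Wk k) - Real.pi / 4 : ℝ) : ℂ) * I) * (1 + e) /
          ((Y x.1).re + (Y x.1).im * I) := by
  have hη := hκ.η_le
  have hc := hκ.c₁_ne
  obtain ⟨E, hE⟩ : ∃ E : ℂ, E = cexp ((1 + p) * (x.1 - x.2)) := ⟨_, rfl⟩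
  have hE0 : E ≠ 0 := by
    rw [hE]
    exact Complex.exp_ne_zero _
  have hb := hκ.bd (x.1 - x.2) h2
  rw [← hE] at hb
  have hcE : c₁ * E ≠ 0 := mul_ne_zero hc hE0
  refine ⟨(κ (x.1 - x.2) - c₁ * E) / (c₁ * E), ?_, ?_⟩
  · rw [norm_div, div_le_iff₀ (norm_pos_iff.2 hcE)]
    refine hb.trans ?_
    gcongr
  · have e1 : 1 + (κ (x.1 - x.2) - c₁ * E) / (c₁ * E) = κ (x.1 - x.2) / (c₁ * E) := by
      field_simp
      ring
    have hY : ((Y x.1).re : ℂ) + (Y x.1).im * I = Y x.1 := Complex.re_add_im _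
    have e2 : (Real.exp ((1 + p) * x.1.re) : ℂ) *
        cexp ((((1 + p) * (x.1.im - Wk k) - Real.pi / 4 : ℝ) : ℂ) * I) =
        E0 k p * cexp ((1 + p) * x.2) * E := by
      rw [hE, E0, ofReal_exp, ← Complex.exp_add, ← Complex.exp_add, ← Complex.exp_add]
      congr 1
      apply Complex.ext
      · simp
        ring
      · simp
        ring
    rw [e1, hY, e2, dn]
    field_simp

theorem g3a_pos (h : Sh k V Y) (hk : 1 ≤ k) {z : ℂ} (h1 : z ∈ Xk k) (hi : 0 < z.im) :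
    0 < (Y z).re ∧ 0 ≤ (Y z).im := by
  refine ⟨?_, (h.im_pos h1 hi).2.le⟩
  have h2 := (h.re_mem h1).1
  have h3 : 0 ≤ (k : ℝ) * Real.pi := by
    have := Real.pi_pos
    positivity
  linarith

/-- Directions. Proof. `κ (z - ζ) = c₁ exp ((1 + p) (z - ζ)) (1 + h)`, `‖h‖ ≤ η ≤ 1 / 20`, so
`dn = exp ((1 + p) U) exp (i ((1 + p) v - (1 + p) W - π / 4)) (1 + h) / Y`, `z = U + i v`,
`Y = a + b i` with `a > 0`, `b > 0` (`Sh.re_mem`, `Sh.im_pos`, `0 < v`). The angle is `α - π / 4` with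
`α = (1 + p) (v - W)`; multiplied by `- 1 = exp (i π)`: `3 π / 4 + α`: `cone_dir`. In the other cases
`(1 + p) (v - W) = α ∓ π`: `exp (i (α ∓ π - π / 4)) = exp (i (3 π / 4 + α))`. -/
theorem dn_left (h : Sh k V Y) (hk : 1 ≤ k) (hκ : Kap p X₀ η c₁ κ) {x : ℂ × ℂ} (h1 : x.1 ∈ Xk k)
    (h2 : (x.1 - x.2).re < X₀) (h3 : |(1 + p) * (x.1.im - Wk k)| ≤ 1 / 20) :
    -dn k p c₁ κ Y x ∈ Cn := by
  have hp := hκ.p_pos
  have hW := Wk_ge hk
  have hpi := Real.pi_gt_three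
  obtain ⟨e, he, hd⟩ := g3a_form h hκ h1 h2
  have hi : 0 < x.1.im := by
    have := (abs_le.1 h3).1
    nlinarith
  obtain ⟨ha, hb⟩ := g3a_pos h hk h1 hi
  have hc := cone_dir ha hb (Real.exp_pos ((1 + p) * x.1.re)).le h3 he
  have e1 : cexp ((((1 + p) * (x.1.im - Wk k) - Real.pi / 4 : ℝ) : ℂ) * I) =
      -cexp (((3 * Real.pi / 4 + (1 + p) * (x.1.im - Wk k) : ℝ) : ℂ) * I) := by
    have e2 : ((3 * Real.pi / 4 + (1 + p) * (x.1.im - Wk k) : ℝ) : ℂ) * I =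
        (((1 + p) * (x.1.im - Wk k) - Real.pi / 4 : ℝ) : ℂ) * I + Real.pi * I := by
      push_cast
      ring
    rw [e2, Complex.exp_add, Complex.exp_pi_mul_I]
    ring
  rw [hd, e1]
  convert hc using 1
  ring

theorem dn_a (h : Sh k V Y) (hk : 1 ≤ k) (hκ : Kap p X₀ η c₁ κ) {x : ℂ × ℂ} (h1 : x.1 ∈ Xk k)
    (h2 : (x.1 - x.2).re < X₀) (h3 : |(1 + p) * (x.1.im - Wk k) + Real.pi| ≤ 1 / 20) :
    dn k p c₁ κ Y x ∈ Cn := by
  have hp := hκ.p_pos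
  have hW := Wk_ge hk
  have hpi := Real.pi_gt_three
  obtain ⟨e, he, hd⟩ := g3a_form h hκ h1 h2
  have hi : 0 < x.1.im := by
    have h4 := (abs_le.1 h3).1
    by_contra hcon
    push Not at hcon
    nlinarith
  obtain ⟨ha, hb⟩ := g3a_pos h hk h1 hi
  have hc := cone_dir ha hb (Real.exp_pos ((1 + p) * x.1.re)).le h3 he
  have e1 : cexp ((((1 + p) * (x.1.im - Wk k) - Real.pi / 4 : ℝ) : ℂ) * I) =
      cexp (((3 * Real.pi / 4 + ((1 + p) * (x.1.im - Wk k) + Real.pi) : ℝ) : ℂ) * I) := by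
    have e2 : ((3 * Real.pi / 4 + ((1 + p) * (x.1.im - Wk k) + Real.pi) : ℝ) : ℂ) * I =
        (((1 + p) * (x.1.im - Wk k) - Real.pi / 4 : ℝ) : ℂ) * I + 2 * Real.pi * I := by
      push_cast
      ring
    rw [e2, Complex.exp_add, Complex.exp_two_pi_mul_I, mul_one]
  rw [hd, e1]
  exact hc

theorem dn_b (h : Sh k V Y) (hk : 1 ≤ k) (hκ : Kap p X₀ η c₁ κ) {x : ℂ × ℂ} (h1 : x.1 ∈ Xk k)
    (h2 : (x.1 - x.2).re < X₀) (h3 : |(1 + p) * (x.1.im - Wk k) - Real.pi| ≤ 1 / 20) :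
    dn k p c₁ κ Y x ∈ Cn := by
  have hp := hκ.p_pos
  have hW := Wk_ge hk
  have hpi := Real.pi_gt_three
  obtain ⟨e, he, hd⟩ := g3a_form h hκ h1 h2
  have hi : 0 < x.1.im := by
    have h4 := (abs_le.1 h3).1
    by_contra hcon
    push Not at hcon
    nlinarith
  obtain ⟨ha, hb⟩ := g3a_pos h hk h1 hi
  have hc := cone_dir ha hb (Real.exp_pos ((1 + p) * x.1.re)).le h3 he
  have e1 : ((3 * Real.pi / 4 + ((1 + p) * (x.1.im - Wk k) - Real.pi) : ℝ) : ℂ) * I =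
      (((1 + p) * (x.1.im - Wk k) - Real.pi / 4 : ℝ) : ℂ) * I := by
    push_cast
    ring
  rw [e1] at hc
  rw [hd]
  exact hc

end Pool.Agent.MP_ae5b4e_an_AZ
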