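import Pool.Agent.Lib.MP_ae5b4e_an_AZ.T3
import Pool.Agent.Lib.MP_ae5b4e_an_AZ.V6b

/-! # AZ: the value of the time function at the tip -/

noncomputable section

namespace Pool.Agent.MP_ae5b4e_an_AZ

open Complex Set Filter Topology Metric MeasureTheory intervalIntegral

variable {k : ℕ} {V Y : ℂ → ℂ} {p X₀ η : ℝ} {c₁ : ℂ} {κ : ℂ → ℂ}

private theorem G3b_pos {t a b : ℝ} (h0 : 0 ≤ t) (h1 : t ≤ 1) (ha : 0 < a) (hb : 0 < b) :
    0 < (1 - t) * a + t * b := by
  rcases h0.eq_or_lt with h2 | h2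
  · rw [← h2]
    linarith
  · have := mul_pos h2 hb
    have := mul_nonneg (sub_nonneg.2 h1) ha.le
    linarith

/-- Lipschitz estimates of the time function along axis parallel segments inside the domain.

Proof. Mean value inequality with `TT.der`, `f_le` (`Re ≤ U0 + 1` on the segments, `η ≤ 1 / 20`, `π ≥ 3`):
`‖f‖ ≤ ‖c₁‖ exp ((1 + p) (U0 + 1 - Re ζ))`. (a) horizontal: `z, z'` in `Xk k` with the same imaginary part, the
segment in `Xk k`; (b) vertical: `U0 < Re z = Re z'`. -/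
theorem TT.lip (h : Sh k V Y) (hk : 1 ≤ k) (hκ : Kap p X₀ η c₁ κ) {R₀ : ℝ} {T : ℂ × ℂ → ℂ}
    {θZ : ℂ → ℂ} (hT : TT k X₀ R₀ κ Y T θZ) (hR : U0 + 1 - R₀ < X₀) {ζ z z' : ℂ}
    (hζ : R₀ < ζ.re) (h1 : z.re ≤ U0 + 1) (h2 : z'.re ≤ U0 + 1)
    (hs : ∀ t ∈ Icc (0 : ℝ) 1, z + t * (z' - z) ∈ Xk k) :
    ‖T (z', ζ) - T (z, ζ)‖ ≤
      ‖c₁‖ * Real.exp ((1 + p) * (U0 + 1)) * Real.exp (-((1 + p) * ζ.re)) * ‖z' - z‖ := by
  obtain ⟨L, hL⟩ : ∃ L : ℝ, L = ‖c₁‖ * Real.exp ((1 + p) * (U0 + 1)) *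
      Real.exp (-((1 + p) * ζ.re)) := ⟨_, rfl⟩
  rw [← hL]
  have hp := hκ.p_pos
  have hpi := Real.pi_gt_three
  have hre : ∀ t ∈ Icc (0 : ℝ) 1, (z + t * (z' - z)).re ≤ U0 + 1 := by
    intro t ht
    have e : (z + t * (z' - z)).re = (1 - t) * z.re + t * z'.re := by
      simp only [add_re, mul_re, sub_re, ofReal_re, ofReal_im, zero_mul, sub_zero]
      ring
    rw [e]
    have h3 := mul_le_mul_of_nonneg_left h1 (by linarith [ht.2] : 0 ≤ 1 - t)
    have h4 := mul_le_mul_of_nonneg_left h2 ht.1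
    linarith
  have hlt : ∀ t ∈ Icc (0 : ℝ) 1, (z + t * (z' - z) - ζ).re < X₀ := by
    intro t ht
    rw [sub_re]
    linarith [hre t ht]
  have hb : ∀ t ∈ Icc (0 : ℝ) 1,
      ‖κ (z + t * (z' - z) - ζ) / Y (z + t * (z' - z))‖ ≤ L := by
    intro t ht
    have h3 := f_le (x := (z + t * (z' - z), ζ)) h hk hκ (hs t ht) (hlt t ht)
    refine h3.trans ?_
    have h4 : Real.exp ((1 + p) * (z + t * (z' - z) - ζ).re) ≤
        Real.exp ((1 + p) * (U0 + 1)) * Real.exp (-((1 + p) * ζ.re)) := by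
      rw [← Real.exp_add]
      refine Real.exp_le_exp.2 ?_
      rw [sub_re]
      have := mul_le_mul_of_nonneg_left (hre t ht) (by linarith : 0 ≤ 1 + p)
      linarith
    have h5 : (1 + η) * ‖c₁‖ / Real.pi ≤ ‖c₁‖ := by
      rw [div_le_iff₀ (by linarith)]
      have := norm_nonneg c₁
      nlinarith [hκ.η_le]
    calc (1 + η) * ‖c₁‖ / Real.pi * Real.exp ((1 + p) * (z + t * (z' - z) - ζ).re)
        ≤ ‖c₁‖ * (Real.exp ((1 + p) * (U0 + 1)) * Real.exp (-((1 + p) * ζ.re))) :=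
          mul_le_mul h5 h4 (Real.exp_nonneg _) (norm_nonneg _)
      _ = L := by rw [hL]; ring
  have hd : ∀ t ∈ Icc (0 : ℝ) 1, HasDerivWithinAt (fun t : ℝ => T (z + t * (z' - z), ζ))
      (κ (z + t * (z' - z) - ζ) / Y (z + t * (z' - z)) * (z' - z)) (Icc 0 1) t := by
    intro t ht
    have h3 := hT.der (z + t * (z' - z), ζ) ⟨hs t ht, hlt t ht, Or.inr hζ⟩
    have ha : HasDerivAt (fun s : ℝ => z + (s : ℂ) * (z' - z)) (z' - z) t := by
      simpa using ((Complex.ofRealCLM.hasDerivAt (x := t)).mul_const (z' - z)).const_add z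
    exact (HasDerivAt.comp (h₂ := fun w => T (w, ζ)) t h3 ha).hasDerivWithinAt
  have hfin := norm_image_sub_le_of_norm_deriv_le_segment_01' hd (C := L * ‖z' - z‖) (by
    intro t ht
    rw [norm_mul]
    exact mul_le_mul_of_nonneg_right (hb t ⟨ht.1, ht.2.le⟩) (norm_nonneg _))
  simp only [ofReal_one, one_mul, ofReal_zero, zero_mul, add_zero, add_sub_cancel] at hfin
  exact hfin

/-- THE TIP. Proof. `z_s := tip k + s`, `0 < s ≤ 1`, is in `Xk k`; by `TT.lip` `T (z_s, ζ)` is Cauchy for `s → 0+`,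
uniformly for `ζ` in compact sets: `θt ζ := lim`, analytic as a locally uniform limit
(`TendstoLocallyUniformlyOn.differentiableOn`), `‖T (z_s, ζ) - θt ζ‖ ≤ L s`, `L = ‖c₁‖ exp (..) exp (- (1 + p) Re ζ)`.
For `z ∈ Xk k`, `d := ‖z - tip‖ ≤ 1 / 2`, `s := d` (if `d = 0` nothing: `tip ∉ Xk k`): move horizontally from `z` to
`Re = U0 + s` (inside `Xk k`: if `Re z ≤ U0` then `Im z ≠ W`, and `Im z > - W`; right of `U0` everything is allowed), length
`≤ 2 d`; then vertically at `Re = U0 + s` to `z_s`, length `≤ d`; then `L s`: total `≤ 4 L d`. -/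
theorem TT.exists_tip (h : Sh k V Y) (hk : 1 ≤ k) (hκ : Kap p X₀ η c₁ κ) {R₀ : ℝ} {T : ℂ × ℂ → ℂ}
    {θZ : ℂ → ℂ} (hT : TT k X₀ R₀ κ Y T θZ) (hR : U0 + 1 - R₀ < X₀) :
    ∃ θt : ℂ → ℂ, AnalyticOnNhd ℂ θt {ζ | R₀ < ζ.re} ∧
      ∀ x : ℂ × ℂ, x.1 ∈ Xk k → ‖x.1 - tip k‖ ≤ 1 / 2 → R₀ < x.2.re →
        ‖T x - θt x.2‖ ≤ 4 * (‖c₁‖ * Real.exp ((1 + p) * (U0 + 1))) *
          Real.exp (-((1 + p) * x.2.re)) * ‖x.1 - tip k‖ := by
  obtain ⟨K, hK⟩ : ∃ K : ℝ, K = ‖c₁‖ * Real.exp ((1 + p) * (U0 + 1)) := ⟨_, rfl⟩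
  rw [← hK]
  have hK0 : 0 ≤ K := by
    rw [hK]
    positivity
  have hp := hκ.p_pos
  obtain ⟨s, hs⟩ : ∃ s : ℕ → ℝ, s = fun n : ℕ => 1 / ((n : ℝ) + 1) := ⟨_, rfl⟩
  have hs0 : ∀ n, 0 < s n := fun n => by
    rw [hs]
    positivity
  have hs1 : ∀ n, s n ≤ 1 := fun n => by
    rw [hs]
    show 1 / ((n : ℝ) + 1) ≤ 1
    rw [div_le_one (by positivity)]
    linarith [(Nat.cast_nonneg n : (0 : ℝ) ≤ n)]
  have hst : Tendsto s atTop (𝓝 0) := by
    rw [hs]
    exact tendsto_one_div_add_atTop_nhds_zero_nat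
  have hseg : ∀ ζ : ℂ, R₀ < ζ.re → ∀ a b : ℝ, 0 < a → a ≤ 1 → 0 < b → b ≤ 1 →
      ‖T (tip k + b, ζ) - T (tip k + a, ζ)‖ ≤ K * Real.exp (-((1 + p) * ζ.re)) * |b - a| := by
    intro ζ hζ a b ha0 ha1 hb0 hb1
    have h1 := TT.lip h hk hκ hT hR hζ (z := tip k + a) (z' := tip k + b)
      (by rw [add_re, v6b_tip_re, ofReal_re]; linarith)
      (by rw [add_re, v6b_tip_re, ofReal_re]; linarith)
      (by
        intro t ht
        right; left
        have e : (tip k + (a : ℂ) + (t : ℂ) * (tip k + (b : ℂ) - (tip k + (a : ℂ)))).re =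
            U0 + ((1 - t) * a + t * b) := by
          simp only [add_re, mul_re, sub_re, ofReal_re, ofReal_im, zero_mul, sub_zero, v6b_tip_re]
          ring
        rw [e]
        have := G3b_pos ht.1 ht.2 ha0 hb0
        linarith)
    have e : ‖tip k + (b : ℂ) - (tip k + (a : ℂ))‖ = |b - a| := by
      rw [add_sub_add_left_eq_sub, ← ofReal_sub, Complex.norm_real, Real.norm_eq_abs]
    rw [e, ← hK] at h1
    exact h1
  have hlim : ∀ ζ : ℂ, ∃ w : ℂ, R₀ < ζ.re → Tendsto (fun n => T (tip k + s n, ζ)) atTop (𝓝 w) := by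
    intro ζ
    by_cases hζ : R₀ < ζ.re
    · have hc : CauchySeq (fun n => T (tip k + s n, ζ)) := by
        have h1 : CauchySeq s := hst.cauchySeq
        rw [Metric.cauchySeq_iff] at h1 ⊢
        intro ε hε
        obtain ⟨M, hM⟩ : ∃ M : ℝ, M = K * Real.exp (-((1 + p) * ζ.re)) + 1 := ⟨_, rfl⟩
        have hM0 : 0 < M := by
          rw [hM]
          positivity
        obtain ⟨N, hN⟩ := h1 (ε / M) (div_pos hε hM0)
        refine ⟨N, fun m hm n hn => ?_⟩
        have h2 := hN m hm n hn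
        rw [Real.dist_eq, lt_div_iff₀ hM0] at h2
        rw [dist_eq_norm]
        refine (hseg ζ hζ _ _ (hs0 n) (hs1 n) (hs0 m) (hs1 m)).trans_lt ?_
        refine lt_of_le_of_lt ?_ h2
        rw [mul_comm]
        refine mul_le_mul_of_nonneg_left ?_ (abs_nonneg _)
        rw [hM]
        linarith
      obtain ⟨w, hw⟩ := cauchySeq_tendsto_of_complete hc
      exact ⟨w, fun _ => hw⟩
    · exact ⟨0, fun h1 => absurd h1 hζ⟩
  choose θt hθt using hlim
  have hest : ∀ ζ : ℂ, R₀ < ζ.re → ∀ a : ℝ, 0 < a → a ≤ 1 →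
      ‖T (tip k + a, ζ) - θt ζ‖ ≤ K * Real.exp (-((1 + p) * ζ.re)) * a := by
    intro ζ hζ a ha0 ha1
    have h1 : Tendsto (fun n => ‖T (tip k + a, ζ) - T (tip k + s n, ζ)‖) atTop
        (𝓝 ‖T (tip k + a, ζ) - θt ζ‖) := (tendsto_const_nhds.sub (hθt ζ hζ)).norm
    have h2 : Tendsto (fun n => K * Real.exp (-((1 + p) * ζ.re)) * |a - s n|) atTop
        (𝓝 (K * Real.exp (-((1 + p) * ζ.re)) * |a - 0|)) :=
      ((tendsto_const_nhds.sub hst).abs).const_mul _
    rw [sub_zero, abs_of_pos ha0] at h2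
    exact le_of_tendsto_of_tendsto' h1 h2 (fun n => hseg ζ hζ _ _ (hs0 n) (hs1 n) ha0 ha1)
  have hopen : IsOpen {ζ : ℂ | R₀ < ζ.re} := isOpen_lt continuous_const continuous_re
  refine ⟨θt, ?_, ?_⟩
  · refine DifferentiableOn.analyticOnNhd ?_ hopen
    have hunif : TendstoUniformlyOn (fun n ζ => T (tip k + s n, ζ)) θt atTop
        {ζ : ℂ | R₀ < ζ.re} := by
      rw [Metric.tendstoUniformlyOn_iff]
      intro ε hε
      obtain ⟨M, hM⟩ : ∃ M : ℝ, M = K * Real.exp (-((1 + p) * R₀)) + 1 := ⟨_, rfl⟩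
      have hM0 : 0 < M := by
        rw [hM]
        positivity
      have h1 : ∀ᶠ n in atTop, s n < ε / M := hst.eventually (gt_mem_nhds (div_pos hε hM0))
      filter_upwards [h1] with n hn ζ hζ
      rw [lt_div_iff₀ hM0] at hn
      rw [dist_comm, dist_eq_norm]
      refine (hest ζ hζ _ (hs0 n) (hs1 n)).trans_lt (lt_of_le_of_lt ?_ hn)
      rw [mul_comm]
      refine mul_le_mul_of_nonneg_left ?_ (hs0 n).le
      have h2 : Real.exp (-((1 + p) * ζ.re)) ≤ Real.exp (-((1 + p) * R₀)) := by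
        refine Real.exp_le_exp.2 (neg_le_neg ?_)
        exact mul_le_mul_of_nonneg_left (le_of_lt hζ) (by linarith)
      have h3 := mul_le_mul_of_nonneg_left h2 hK0
      rw [hM]
      linarith
    refine hunif.tendstoLocallyUniformlyOn.differentiableOn (Eventually.of_forall fun n => ?_) hopen
    intro ζ hζ
    have h1 : AnalyticAt ℂ (fun ζ : ℂ => T (tip k + s n, ζ)) ζ := by
      refine AnalyticAt.fun_comp (g := T) (f := fun ζ : ℂ => (tip k + s n, ζ)) ?_
        (analyticAt_const.prod analyticAt_id)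
      refine hT.an _ ⟨?_, ?_, Or.inr hζ⟩
      · right; left
        show U0 < (tip k + (s n : ℂ)).re
        rw [add_re, v6b_tip_re, ofReal_re]
        linarith [hs0 n]
      · show (tip k + (s n : ℂ) - ζ).re < X₀
        have hζ' : R₀ < ζ.re := hζ
        rw [sub_re, add_re, v6b_tip_re, ofReal_re]
        linarith [hs1 n]
    exact h1.differentiableAt.differentiableWithinAt
  · rintro ⟨z, ζ⟩ hz hd hζ
    simp only at hz hd hζ ⊢
    obtain ⟨d, hdd⟩ : ∃ d : ℝ, d = ‖z - tip k‖ := ⟨_, rfl⟩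
    rw [← hdd] at hd ⊢
    obtain ⟨L, hL⟩ : ∃ L : ℝ, L = K * Real.exp (-((1 + p) * ζ.re)) := ⟨_, rfl⟩
    have hL0 : 0 ≤ L := by
      rw [hL]
      positivity
    have hd0 : 0 < d := by
      rw [hdd, norm_pos_iff, sub_ne_zero]
      rintro rfl
      have hW := v6b_Wk_pos k
      rcases hz with h1 | h1 | h1
      · rw [v6b_tip_im, abs_of_pos hW] at h1
        exact lt_irrefl _ h1
      · rw [v6b_tip_re] at h1
        exact lt_irrefl _ h1
      · rw [v6b_tip_im] at h1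
        exact lt_irrefl _ h1
    have hre : |z.re - U0| ≤ d := by
      have h1 := abs_re_le_norm (z - tip k)
      rwa [sub_re, v6b_tip_re, ← hdd] at h1
    have him : |z.im - Wk k| ≤ d := by
      have h1 := abs_im_le_norm (z - tip k)
      rwa [sub_im, v6b_tip_im, ← hdd] at h1
    obtain ⟨hre1, hre2⟩ := abs_le.1 hre
    -- horizontal
    obtain ⟨a, ha⟩ : ∃ a : ℂ, a = ⟨U0 + d, z.im⟩ := ⟨_, rfl⟩
    have har : a.re = U0 + d := by rw [ha]
    have hai : a.im = z.im := by rw [ha]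
    have s1 : ‖T (a, ζ) - T (z, ζ)‖ ≤ L * (2 * d) := by
      have h1 := TT.lip h hk hκ hT hR hζ (z := z) (z' := a) (by linarith) (by linarith) (by
        intro t ht
        have e1 : (z + (t : ℂ) * (a - z)).im = z.im := by
          simp [hai]
        have e2 : (z + (t : ℂ) * (a - z)).re = (1 - t) * z.re + t * (U0 + d) := by
          simp only [add_re, mul_re, sub_re, ofReal_re, ofReal_im, zero_mul, sub_zero, har]
          ring
        rcases hz with h1 | h1 | h1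
        · left
          rwa [e1]
        · right; left
          rw [e2]
          have := G3b_pos ht.1 ht.2 (sub_pos.2 h1) hd0
          linarith
        · right; right
          rwa [e1])
      rw [← hK, ← hL] at h1
      refine h1.trans (mul_le_mul_of_nonneg_left ?_ hL0)
      have e : a - z = ((U0 + d - z.re : ℝ) : ℂ) := by
        apply Complex.ext
        · simp [har]
        · simp [hai]
      rw [e, Complex.norm_real, Real.norm_eq_abs, abs_le]
      constructor <;> linarith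
    have s2 : ‖T (tip k + d, ζ) - T (a, ζ)‖ ≤ L * d := by
      have h1 := TT.lip h hk hκ hT hR hζ (z := a) (z' := tip k + d) (by linarith)
        (by rw [add_re, v6b_tip_re, ofReal_re]; linarith) (by
        intro t ht
        right; left
        have e2 : (a + (t : ℂ) * (tip k + d - a)).re = U0 + d := by
          simp only [add_re, mul_re, sub_re, ofReal_re, ofReal_im, zero_mul, sub_zero, har,
            v6b_tip_re]
          ring
        rw [e2]
        linarith)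
      rw [← hK, ← hL] at h1
      refine h1.trans (mul_le_mul_of_nonneg_left ?_ hL0)
      have e : tip k + d - a = ((Wk k - z.im : ℝ) : ℂ) * I := by
        apply Complex.ext
        · simp [har, v6b_tip_re]
        · simp [hai, v6b_tip_im]
      rw [e, norm_mul, Complex.norm_I, mul_one, Complex.norm_real, Real.norm_eq_abs, abs_sub_comm]
      exact him
    have s3 := hest ζ hζ d hd0 (by linarith)
    rw [← hL] at s3
    have e4 : T (z, ζ) - θt ζ = -(T (a, ζ) - T (z, ζ)) - (T (tip k + d, ζ) - T (a, ζ)) +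
        (T (tip k + d, ζ) - θt ζ) := by ring
    have h5 : 4 * K * Real.exp (-((1 + p) * ζ.re)) * d = 4 * L * d := by
      rw [hL]
      ring
    rw [e4, h5]
    refine (norm_add_le _ _).trans ?_
    have h6 := norm_sub_le (-(T (a, ζ) - T (z, ζ))) (T (tip k + d, ζ) - T (a, ζ))
    rw [norm_neg] at h6
    linarith

/-- Bound of the tip. Proof. `T (U0 + 1, ζ)` (`TT.strip`, `TZ_int` with `c₀ = π`), then the vertical segment to
`U0 + 1 + W I` and the horizontal segment to the tip (`TT.lip`): total length `W + 1`. -/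
theorem TT.norm_tip_le (h : Sh k V Y) (hk : 1 ≤ k) (hκ : Kap p X₀ η c₁ κ) {R₀ : ℝ} {T : ℂ × ℂ → ℂ}
    {θZ θt : ℂ → ℂ} (hT : TT k X₀ R₀ κ Y T θZ) (hR : U0 + 1 - R₀ < X₀) {C : ℝ}
    (ht : ∀ x : ℂ × ℂ, x.1 ∈ Xk k → ‖x.1 - tip k‖ ≤ 1 / 2 → R₀ < x.2.re →
        ‖T x - θt x.2‖ ≤ C * Real.exp (-((1 + p) * x.2.re)) * ‖x.1 - tip k‖) {ζ : ℂ}
    (hζ : R₀ < ζ.re) : ‖θt ζ‖ ≤
      ‖c₁‖ * Real.exp ((1 + p) * (U0 + 1)) * (Wk k + 2) * Real.exp (-((1 + p) * ζ.re)) := by
  obtain ⟨L, hL⟩ : ∃ L : ℝ, L = ‖c₁‖ * Real.exp ((1 + p) * (U0 + 1)) *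
      Real.exp (-((1 + p) * ζ.re)) := ⟨_, rfl⟩
  have hp := hκ.p_pos
  have hW := v6b_Wk_pos k
  have hpi := Real.pi_gt_three
  have hL0 : 0 ≤ L := by
    rw [hL]
    positivity
  obtain ⟨b, hb⟩ : ∃ b : ℂ, b = ⟨U0 + 1, 0⟩ := ⟨_, rfl⟩
  have hbr : b.re = U0 + 1 := by rw [hb]
  have hbi : b.im = 0 := by rw [hb]
  obtain ⟨a, ha⟩ : ∃ a : ℂ, a = ⟨U0 + 1, Wk k⟩ := ⟨_, rfl⟩
  have har : a.re = U0 + 1 := by rw [ha]
  have hai : a.im = Wk k := by rw [ha]
  have hbs : |b.im| < Wk k := by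
    rw [hbi, abs_zero]
    exact hW
  have hbX : (b - ζ).re < X₀ := by
    rw [sub_re, hbr]
    linarith
  have s0 : ‖T (b, ζ)‖ ≤ L := by
    rw [hT.strip (b, ζ) hbs hbX]
    have h1 := (TZ_int hκ (h.LD_strip hk) (x := (b, ζ)) ⟨hbs, hbX⟩).2
    refine h1.trans ?_
    have h2 : (1 + η) * ‖c₁‖ / (Real.pi * (1 + p)) ≤ ‖c₁‖ := by
      rw [div_le_iff₀ (by positivity)]
      have h3 : 1 + η ≤ Real.pi * (1 + p) := by nlinarith [hκ.η_le]
      have h4 := mul_le_mul_of_nonneg_right h3 (norm_nonneg c₁)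
      linarith
    have h3 : Real.exp ((1 + p) * (b - ζ).re) =
        Real.exp ((1 + p) * (U0 + 1)) * Real.exp (-((1 + p) * ζ.re)) := by
      rw [← Real.exp_add, sub_re, hbr]
      congr 1
      ring
    show (1 + η) * ‖c₁‖ / (Real.pi * (1 + p)) * Real.exp ((1 + p) * (b - ζ).re) ≤ L
    rw [h3, hL, mul_assoc ‖c₁‖]
    exact mul_le_mul_of_nonneg_right h2 (by positivity)
  have s1 : ‖T (a, ζ) - T (b, ζ)‖ ≤ L * Wk k := by
    have h1 := TT.lip h hk hκ hT hR hζ (z := b) (z' := a) hbr.le har.le (by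
      intro t ht
      right; left
      have e2 : (b + (t : ℂ) * (a - b)).re = U0 + 1 := by
        simp only [add_re, mul_re, sub_re, ofReal_re, ofReal_im, zero_mul, sub_zero, har, hbr]
        ring
      rw [e2]
      linarith)
    rw [← hL] at h1
    refine h1.trans (mul_le_mul_of_nonneg_left ?_ hL0)
    have e : a - b = ((Wk k : ℝ) : ℂ) * I := by
      apply Complex.ext
      · simp [har, hbr]
      · simp [hai, hbi]
    rw [e, norm_mul, Complex.norm_I, mul_one, Complex.norm_real, Real.norm_of_nonneg hW.le]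
  have s2 : ∀ s : ℝ, 0 < s → s ≤ 1 → ‖T (tip k + s, ζ) - T (a, ζ)‖ ≤ L := by
    intro s hs0 hs1
    have h1 := TT.lip h hk hκ hT hR hζ (z := a) (z' := tip k + s) har.le
      (by rw [add_re, v6b_tip_re, ofReal_re]; linarith) (by
      intro t ht
      right; left
      have e2 : (a + (t : ℂ) * (tip k + s - a)).re = U0 + ((1 - t) * 1 + t * s) := by
        simp only [add_re, mul_re, sub_re, ofReal_re, ofReal_im, zero_mul, sub_zero, har,
          v6b_tip_re]
        ring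
      rw [e2]
      have := G3b_pos ht.1 ht.2 one_pos hs0
      linarith)
    rw [← hL] at h1
    refine h1.trans ?_
    have e : tip k + s - a = ((s - 1 : ℝ) : ℂ) := by
      apply Complex.ext
      · simp [har, v6b_tip_re]
      · simp [hai, v6b_tip_im]
    rw [e, Complex.norm_real, Real.norm_eq_abs]
    have h2 : |s - 1| ≤ 1 := by
      rw [abs_le]
      constructor <;> linarith
    have := mul_le_mul_of_nonneg_left h2 hL0
    linarith
  have s3 : ∀ s : ℝ, 0 < s → s ≤ 1 / 2 →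
      ‖θt ζ‖ ≤ L * (Wk k + 2) + C * Real.exp (-((1 + p) * ζ.re)) * s := by
    intro s hs0 hs1
    have hn : ‖tip k + s - tip k‖ = s := by
      rw [add_sub_cancel_left, Complex.norm_real, Real.norm_of_nonneg hs0.le]
    have h1 := ht (tip k + s, ζ) (by
      right; left
      show U0 < (tip k + (s : ℂ)).re
      rw [add_re, v6b_tip_re, ofReal_re]
      linarith) (by
      show ‖tip k + s - tip k‖ ≤ 1 / 2
      rw [hn]
      exact hs1) hζ
    simp only [hn] at h1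
    have h2 := s2 s hs0 (by linarith)
    have e4 : θt ζ = T (b, ζ) + (T (a, ζ) - T (b, ζ)) + (T (tip k + s, ζ) - T (a, ζ)) -
        (T (tip k + s, ζ) - θt ζ) := by ring
    rw [e4]
    refine (norm_sub_le _ _).trans ?_
    have h3 := norm_add_le (T (b, ζ) + (T (a, ζ) - T (b, ζ))) (T (tip k + s, ζ) - T (a, ζ))
    have h4 := norm_add_le (T (b, ζ)) (T (a, ζ) - T (b, ζ))
    linarith
  have hlim : Tendsto (fun s : ℝ => L * (Wk k + 2) + C * Real.exp (-((1 + p) * ζ.re)) * s)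
      (𝓝[>] 0) (𝓝 (L * (Wk k + 2) + C * Real.exp (-((1 + p) * ζ.re)) * 0)) := by
    refine Tendsto.mono_left ?_ nhdsWithin_le_nhds
    exact Continuous.tendsto (by fun_prop) 0
  rw [mul_zero, add_zero] at hlim
  have hfin : ‖θt ζ‖ ≤ L * (Wk k + 2) := by
    refine ge_of_tendsto hlim ?_
    filter_upwards [Ioc_mem_nhdsGT (show (0 : ℝ) < 1 / 2 by norm_num)] with s hs
    exact s3 s hs.1 hs.2
  refine hfin.trans (le_of_eq ?_)
  rw [hL]
  ring

end Pool.Agent.MP_ae5b4e_an_AZ
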