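import Pool.Agent.Lib.MP_ae5b4e_an_AZ.G3a
import Pool.Agent.Lib.MP_ae5b4e_an_AZ.G3b

/-! # AZ: boundary values of the scaled time function lie in the cone -/

noncomputable section

namespace Pool.Agent.MP_ae5b4e_an_AZ

open Complex Set Filter Topology Metric MeasureTheory intervalIntegral

variable {k : ℕ} {V Y : ℂ → ℂ} {p X₀ η : ℝ} {c₁ : ℂ} {κ : ℂ → ℂ}

/-- time relative to the tip, scaled and rotated -/
def wT (k : ℕ) (p : ℝ) (c₁ : ℂ) (T : ℂ × ℂ → ℂ) (θt : ℂ → ℂ) (x : ℂ × ℂ) : ℂ :=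
  E0 k p * cexp ((1 + p) * x.2) / c₁ * (T x - θt x.2)

/-- `θt` is the value of `T` at the tip -/
def Tip (k : ℕ) (p R₀ : ℝ) (T : ℂ × ℂ → ℂ) (θt : ℂ → ℂ) (Ct : ℝ) : Prop :=
  AnalyticOnNhd ℂ θt {ζ | R₀ < ζ.re} ∧
    ∀ x : ℂ × ℂ, x.1 ∈ Xk k → ‖x.1 - tip k‖ ≤ 1 / 2 → R₀ < x.2.re →
      ‖T x - θt x.2‖ ≤ Ct * Real.exp (-((1 + p) * x.2.re)) * ‖x.1 - tip k‖

private theorem G3c_E0 (k : ℕ) (p : ℝ) : ‖E0 k p‖ = 1 := by
  unfold E0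
  rw [Complex.norm_exp]
  simp

private theorem G3c_fac (k : ℕ) (p : ℝ) (c₁ ζ w : ℂ) :
    ‖E0 k p * cexp ((1 + p) * ζ) / c₁ * w‖ = Real.exp ((1 + p) * ζ.re) / ‖c₁‖ * ‖w‖ := by
  rw [norm_mul, norm_div, norm_mul, G3c_E0, one_mul, Complex.norm_exp]
  congr 3
  rw [show (1 + (p : ℂ)) = ((1 + p : ℝ) : ℂ) by push_cast; rfl, re_ofReal_mul]

private theorem G3c_tip (k : ℕ) (v : ℝ) : ‖(⟨U0, v⟩ : ℂ) - tip k‖ = |v - Wk k| := by
  have h : (⟨U0, v⟩ : ℂ) - tip k = ((v - Wk k : ℝ) : ℂ) * I := by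
    unfold tip
    apply Complex.ext <;> simp
  rw [h, norm_mul, norm_I, mul_one, norm_real, Real.norm_eq_abs]

private theorem G3c_cont (h : Sh k V Y) (hk : 1 ≤ k) (hκ : Kap p X₀ η c₁ κ) {z ζ : ℂ}
    (h1 : z ∈ Xk k) (h2 : (z - ζ).re < X₀) : ContinuousAt (fun z => κ (z - ζ) / Y z) z := by
  have a1 : ContinuousAt (fun z : ℂ => κ (z - ζ)) z :=
    ContinuousAt.comp (f := fun z : ℂ => z - ζ) (hκ.an _ h2).continuousAt (by fun_prop)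
  refine a1.div (h.Y_an _ h1).continuousAt ?_
  intro h0
  have h4 := (h.re_mem h1).1
  have hk' : (1 : ℝ) ≤ k := by exact_mod_cast hk
  have hpi := Real.pi_pos
  rw [h0, zero_re] at h4
  nlinarith

/-- the remaining part of the time is small -/
private theorem G3c_TZ (hκ : Kap p X₀ η c₁ κ) {D : Set ℂ} (hY : LD D Real.pi Y)
    {x : ℂ × ℂ} (hx : x ∈ DZ D X₀) :
    ‖E0 k p * cexp ((1 + p) * x.2) / c₁ * TZ κ Y x‖ ≤ Real.exp ((1 + p) * x.1.re) := by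
  have h1 := (TZ_int hκ hY hx).2
  have hc : 0 < ‖c₁‖ := norm_pos_iff.2 hκ.c₁_ne
  have hp := hκ.p_pos
  have hη := hκ.η_le
  have hpi := Real.pi_gt_three
  rw [G3c_fac]
  have h2 : Real.exp ((1 + p) * x.2.re) / ‖c₁‖ * ‖TZ κ Y x‖ ≤
      Real.exp ((1 + p) * x.2.re) / ‖c₁‖ * ((1 + η) * ‖c₁‖ / (Real.pi * (1 + p)) *
        Real.exp ((1 + p) * (x.1 - x.2).re)) :=
    mul_le_mul_of_nonneg_left h1 (by positivity)
  refine h2.trans ?_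
  have h3 : Real.exp ((1 + p) * x.2.re) / ‖c₁‖ * ((1 + η) * ‖c₁‖ / (Real.pi * (1 + p)) *
        Real.exp ((1 + p) * (x.1 - x.2).re)) =
      (1 + η) / (Real.pi * (1 + p)) * Real.exp ((1 + p) * x.1.re) := by
    have h4 : Real.exp ((1 + p) * x.1.re) =
        Real.exp ((1 + p) * x.2.re) * Real.exp ((1 + p) * (x.1 - x.2).re) := by
      rw [← Real.exp_add, sub_re]
      congr 1
      ring
    rw [h4]
    have hpi0 : Real.pi ≠ 0 := by linarith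
    have hp0 : (1 + p) ≠ 0 := by linarith
    field_simp
  rw [h3]
  have h5 : (1 + η) / (Real.pi * (1 + p)) ≤ 1 := by
    rw [div_le_one (by positivity)]
    nlinarith
  exact mul_le_of_le_one_left (Real.exp_pos _).le h5

private theorem G3c_strip (h : Sh k V Y) (hk : 1 ≤ k) (hκ : Kap p X₀ η c₁ κ) {R₀ : ℝ}
    {T : ℂ × ℂ → ℂ} {θZ θt : ℂ → ℂ} (hT : TT k X₀ R₀ κ Y T θZ) {x : ℂ × ℂ}
    (h1 : |x.1.im| < Wk k) (h2 : (x.1 - x.2).re < X₀) :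
    ‖wT k p c₁ T θt x - E0 k p * cexp ((1 + p) * x.2) / c₁ * (0 - θt x.2)‖ ≤
      Real.exp ((1 + p) * x.1.re) := by
  have h3 := G3c_TZ (k := k) hκ (h.LD_strip hk) (x := x) ⟨h1, h2⟩
  have h4 : wT k p c₁ T θt x - E0 k p * cexp ((1 + p) * x.2) / c₁ * (0 - θt x.2) =
      E0 k p * cexp ((1 + p) * x.2) / c₁ * TZ κ Y x := by
    unfold wT
    rw [hT.strip x h1 h2]
    ring
  rwa [h4]

private theorem G3c_up (h : Sh k V Y) (hk : 1 ≤ k) (hκ : Kap p X₀ η c₁ κ) {R₀ : ℝ}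
    {T : ℂ × ℂ → ℂ} {θZ θt : ℂ → ℂ} (hT : TT k X₀ R₀ κ Y T θZ) {x : ℂ × ℂ}
    (h1 : Wk k < x.1.im) (h2 : (x.1 - x.2).re < X₀) (h3 : R₀ < x.2.re) :
    ‖wT k p c₁ T θt x - E0 k p * cexp ((1 + p) * x.2) / c₁ * (θZ x.2 - θt x.2)‖ ≤
      Real.exp ((1 + p) * x.1.re) := by
  have h5 := G3c_TZ (k := k) hκ (h.LD_up hk) (x := x) ⟨h1, h2⟩
  have h4 : wT k p c₁ T θt x - E0 k p * cexp ((1 + p) * x.2) / c₁ * (θZ x.2 - θt x.2) =
      E0 k p * cexp ((1 + p) * x.2) / c₁ * TZ κ Y x := by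
    unfold wT
    rw [hT.up x h1 h2 h3]
    ring
  rwa [h4]

private theorem G3c_choice {p : ℝ} (hp : 0 < p) {c Ct ε : ℝ} (hc : 0 < c) (hε : 0 < ε) :
    ∃ s U : ℝ, 0 < s ∧ (1 + p) * s ≤ 1 / 20 ∧ s ≤ 1 / 20 ∧ Ct / c * s < ε / 2 ∧ U ≤ U0 ∧
      Real.exp ((1 + p) * U) < ε / 2 := by
  have hb := abs_nonneg Ct
  refine ⟨min (1 / (20 * (1 + p))) (ε * c / (3 * (|Ct| + 1))),
    min (min U0 0) (Real.log (ε / 3)), ?_, ?_, ?_, ?_, ?_, ?_⟩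
  · refine lt_min (by positivity) (by positivity)
  · have h1 := min_le_left (1 / (20 * (1 + p))) (ε * c / (3 * (|Ct| + 1)))
    have h2 := mul_le_mul_of_nonneg_left h1 (by linarith : 0 ≤ 1 + p)
    refine h2.trans (le_of_eq ?_)
    field_simp
  · refine (min_le_left _ _).trans ?_
    rw [div_le_div_iff₀ (by positivity) (by norm_num)]
    nlinarith
  · obtain ⟨s, hs⟩ : ∃ s, s = min (1 / (20 * (1 + p))) (ε * c / (3 * (|Ct| + 1))) := ⟨_, rfl⟩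
    rw [← hs]
    have hs0 : 0 < s := by
      rw [hs]
      exact lt_min (by positivity) (by positivity)
    have h1 : s ≤ ε * c / (3 * (|Ct| + 1)) := by
      rw [hs]
      exact min_le_right _ _
    have h2 : Ct / c * s ≤ |Ct| / c * s :=
      mul_le_mul_of_nonneg_right (div_le_div_of_nonneg_right (le_abs_self _) hc.le) hs0.le
    have h3 : |Ct| / c * s ≤ |Ct| / c * (ε * c / (3 * (|Ct| + 1))) :=
      mul_le_mul_of_nonneg_left h1 (by positivity)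
    have h4 : |Ct| / c * (ε * c / (3 * (|Ct| + 1))) = ε / 3 * (|Ct| / (|Ct| + 1)) := by
      field_simp
    have h5 : |Ct| / (|Ct| + 1) ≤ 1 := by
      rw [div_le_one (by positivity)]
      linarith
    have h6 : ε / 3 * (|Ct| / (|Ct| + 1)) ≤ ε / 3 * 1 :=
      mul_le_mul_of_nonneg_left h5 (by positivity)
    linarith
  · exact (min_le_left _ _).trans (min_le_left _ _)
  · obtain ⟨U, hU⟩ : ∃ U, U = min (min U0 0) (Real.log (ε / 3)) := ⟨_, rfl⟩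
    rw [← hU]
    have h1 : U ≤ 0 := by
      rw [hU]
      exact (min_le_left _ _).trans (min_le_right _ _)
    have h2 : U ≤ Real.log (ε / 3) := by
      rw [hU]
      exact min_le_right _ _
    have h3 : Real.exp ((1 + p) * U) ≤ Real.exp (Real.log (ε / 3)) :=
      Real.exp_le_exp.2 (by nlinarith)
    rw [Real.exp_log (by positivity)] at h3
    linarith

/-- ON BOTH SIDES OF THE CUT: up to an error `C |Im om - W|` the value is in the cone.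

Proof. `x = (U + i v, ζ)`, `U ≤ U0`, `v ≠ W` (as `x.1 ∈ Xk`), `d := |v - W| ≤ 1 / 20`. Horizontal segment from `x` to
`z' := U0 + i v` (in `Xk k`): `T x - T (z', ζ) = - ∫_U^{U0} f (u + i v) du` (`TT.der`,
`integral_eq_sub_of_hasDerivAt`), so `wT x = ∫_U^{U0} (- dn (u + i v, ζ)) du + wT (z', ζ)`; the integrand is in
`Cn` (`dn_left`), so is the integral (`Cn_integral`); `‖wT (z', ζ)‖ ≤ exp ((1 + p) Re ζ) / ‖c₁‖ * Ct exp (- (1 + p) Re ζ) d`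
(`‖E0‖ = 1`). -/
theorem wT_cut (h : Sh k V Y) (hk : 1 ≤ k) (hκ : Kap p X₀ η c₁ κ) {R₀ : ℝ} {T : ℂ × ℂ → ℂ}
    {θZ θt : ℂ → ℂ} (hT : TT k X₀ R₀ κ Y T θZ) (hR : U0 + 1 - R₀ < X₀) {Ct : ℝ}
    (ht : Tip k p R₀ T θt Ct) {x : ℂ × ℂ} (h1 : x.1 ∈ Xk k) (h2 : x.1.re ≤ U0)
    (h3 : |(1 + p) * (x.1.im - Wk k)| ≤ 1 / 20) (h4 : R₀ < x.2.re) :
    ∃ c ∈ Cn, ‖wT k p c₁ T θt x - c‖ ≤ Ct / ‖c₁‖ * |x.1.im - Wk k| := by
  have hp := hκ.p_pos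
  have hc : 0 < ‖c₁‖ := norm_pos_iff.2 hκ.c₁_ne
  obtain ⟨⟨U, v⟩, ζ⟩ := x
  change U ≤ U0 at h2
  change |(1 + p) * (v - Wk k)| ≤ 1 / 20 at h3
  change R₀ < ζ.re at h4
  have h1' : |v| < Wk k ∨ Wk k < v := by
    rcases h1 with h | h | h
    · exact Or.inl h
    · exact absurd h (not_lt.2 h2)
    · exact Or.inr h
  have hX : ∀ u : ℝ, (⟨u, v⟩ : ℂ) ∈ Xk k := fun u => by
    rcases h1' with h | h
    · exact Or.inl h
    · exact Or.inr (Or.inr h)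
  have hre : ∀ u ∈ Icc U U0, ((⟨u, v⟩ : ℂ) - ζ).re < X₀ := fun u hu => by
    rw [sub_re]
    show u - ζ.re < X₀
    linarith [hu.2]
  have hdist : |v - Wk k| ≤ 1 / 20 := by
    rw [abs_mul, abs_of_pos (by linarith : 0 < 1 + p)] at h3
    nlinarith [abs_nonneg (v - Wk k)]
  have ez : ∀ u : ℝ, (⟨u, v⟩ : ℂ) = (u : ℂ) + v * I := fun u => by
    apply Complex.ext <;> simp
  have hd : ∀ u ∈ Icc U U0, HasDerivAt (fun u : ℝ => T ((⟨u, v⟩ : ℂ), ζ))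
      (κ ((⟨u, v⟩ : ℂ) - ζ) / Y ⟨u, v⟩) u := fun u hu => by
    have a1 := hT.der ((⟨u, v⟩ : ℂ), ζ) ⟨hX u, hre u hu, Or.inr h4⟩
    have a2 : HasDerivAt (fun z : ℂ => T (z, ζ)) (κ ((⟨u, v⟩ : ℂ) - ζ) / Y ⟨u, v⟩)
        ((u : ℂ) + v * I) := by
      rw [← ez]
      exact a1
    have a3 := (HasDerivAt.comp_add_const (u : ℂ) (v * I) a2).comp_ofReal
    simpa only [ez] using a3
  have hcont : ContinuousOn (fun u : ℝ => κ ((⟨u, v⟩ : ℂ) - ζ) / Y ⟨u, v⟩) (Icc U U0) := by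
    intro u hu
    have a1 := G3c_cont h hk hκ (hX u) (hre u hu)
    have a2 : ContinuousAt (fun u : ℝ => (⟨u, v⟩ : ℂ)) u := by
      simp only [ez]
      fun_prop
    exact (ContinuousAt.comp (f := fun u : ℝ => (⟨u, v⟩ : ℂ)) a1 a2).continuousWithinAt
  have hint : IntervalIntegrable (fun u : ℝ => κ ((⟨u, v⟩ : ℂ) - ζ) / Y ⟨u, v⟩) volume U U0 := by
    refine ContinuousOn.intervalIntegrable ?_
    rwa [Set.uIcc_of_le h2]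
  have hftc : ∫ u in U..U0, κ ((⟨u, v⟩ : ℂ) - ζ) / Y ⟨u, v⟩ =
      T ((⟨U0, v⟩ : ℂ), ζ) - T ((⟨U, v⟩ : ℂ), ζ) := by
    refine integral_eq_sub_of_hasDerivAt (f := fun u : ℝ => T ((⟨u, v⟩ : ℂ), ζ))
      (fun u hu => ?_) hint
    rw [Set.uIcc_of_le h2] at hu
    exact hd u hu
  refine ⟨∫ u in U..U0, -dn k p c₁ κ Y ((⟨u, v⟩ : ℂ), ζ), ?_, ?_⟩
  · refine Cn_integral h2 ?_ (fun u hu => ?_)
    · exact (hint.const_mul (E0 k p * cexp ((1 + p) * ζ) / c₁)).neg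
    · exact dn_left h hk hκ (hX u) (hre u hu) h3
  · have e1 : ∫ u in U..U0, -dn k p c₁ κ Y ((⟨u, v⟩ : ℂ), ζ) =
        -(E0 k p * cexp ((1 + p) * ζ) / c₁ *
          (T ((⟨U0, v⟩ : ℂ), ζ) - T ((⟨U, v⟩ : ℂ), ζ))) := by
      rw [← hftc, ← intervalIntegral.integral_const_mul, ← intervalIntegral.integral_neg]
      rfl
    have e2 : wT k p c₁ T θt ((⟨U, v⟩ : ℂ), ζ) -
        ∫ u in U..U0, -dn k p c₁ κ Y ((⟨u, v⟩ : ℂ), ζ) =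
        E0 k p * cexp ((1 + p) * ζ) / c₁ * (T ((⟨U0, v⟩ : ℂ), ζ) - θt ζ) := by
      rw [e1]
      unfold wT
      ring
    rw [e2, G3c_fac]
    have e3 := ht.2 ((⟨U0, v⟩ : ℂ), ζ) (hX U0) (by rw [G3c_tip]; linarith) h4
    rw [G3c_tip] at e3
    have e4 : Real.exp ((1 + p) * ζ.re) / ‖c₁‖ * ‖T ((⟨U0, v⟩ : ℂ), ζ) - θt ζ‖ ≤
        Real.exp ((1 + p) * ζ.re) / ‖c₁‖ *
          (Ct * Real.exp (-((1 + p) * ζ.re)) * |v - Wk k|) :=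
      mul_le_mul_of_nonneg_left e3 (by positivity)
    refine e4.trans (le_of_eq ?_)
    rw [Real.exp_neg]
    have e5 := (Real.exp_pos ((1 + p) * ζ.re)).ne'
    field_simp

/-- THE POINT `Z`. Proof. For `v < W` near `W`: `wT (U + i v, ζ) → E0 exp ((1 + p) ζ) / c₁ (0 - θt ζ)` for `U → - ∞`
(`TT.strip`, `TZ_int`: `‖TZ‖ ≤ C exp ((1 + p) U)`). By `wT_cut` the distance of this limit from the closed set
`Cn` is `≤ Ct / ‖c₁‖ |v - W|` for all such `v`: it is in `Cn`. -/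
theorem wT_Z (h : Sh k V Y) (hk : 1 ≤ k) (hκ : Kap p X₀ η c₁ κ) {R₀ : ℝ} {T : ℂ × ℂ → ℂ}
    {θZ θt : ℂ → ℂ} (hT : TT k X₀ R₀ κ Y T θZ) (hR : U0 + 1 - R₀ < X₀) {Ct : ℝ}
    (ht : Tip k p R₀ T θt Ct) {ζ : ℂ} (hζ : R₀ < ζ.re) :
    E0 k p * cexp ((1 + p) * ζ) / c₁ * (0 - θt ζ) ∈ Cn := by
  have hp := hκ.p_pos
  have hc : 0 < ‖c₁‖ := norm_pos_iff.2 hκ.c₁_ne
  rw [← isClosed_Cn.closure_eq, Metric.mem_closure_iff]
  intro ε hε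
  obtain ⟨s, U, hs0, hs1, hs2, hs3, hU, hU2⟩ := G3c_choice hp (Ct := Ct) hc hε
  have hW := Wk_ge hk
  have hpi := Real.pi_gt_three
  have hX : |(⟨U, Wk k - s⟩ : ℂ).im| < Wk k := by
    show |Wk k - s| < Wk k
    rw [abs_of_pos (by linarith)]
    linarith
  obtain ⟨c, hcC, hcd⟩ := wT_cut h hk hκ hT hR ht (x := ((⟨U, Wk k - s⟩ : ℂ), ζ)) (Or.inl hX) hU
    (by
      show |(1 + p) * (Wk k - s - Wk k)| ≤ 1 / 20
      rw [show (1 + p) * (Wk k - s - Wk k) = -((1 + p) * s) by ring, abs_neg,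
        abs_of_nonneg (by positivity)]
      exact hs1) hζ
  refine ⟨c, hcC, ?_⟩
  have h1 := G3c_strip (θt := θt) h hk hκ hT (x := ((⟨U, Wk k - s⟩ : ℂ), ζ)) hX (by
    rw [sub_re]
    show U - ζ.re < X₀
    linarith)
  have h2 : |(⟨U, Wk k - s⟩ : ℂ).im - Wk k| = s := by
    show |Wk k - s - Wk k| = s
    rw [show Wk k - s - Wk k = -s by ring, abs_neg, abs_of_pos hs0]
  change ‖wT k p c₁ T θt ((⟨U, Wk k - s⟩ : ℂ), ζ) - c‖ ≤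
    Ct / ‖c₁‖ * |(⟨U, Wk k - s⟩ : ℂ).im - Wk k| at hcd
  rw [h2] at hcd
  change ‖wT k p c₁ T θt ((⟨U, Wk k - s⟩ : ℂ), ζ) - E0 k p * cexp ((1 + p) * ζ) / c₁ *
    (0 - θt ζ)‖ ≤ Real.exp ((1 + p) * U) at h1
  rw [dist_eq_norm]
  have h3 := norm_sub_le (wT k p c₁ T θt ((⟨U, Wk k - s⟩ : ℂ), ζ) - c)
    (wT k p c₁ T θt ((⟨U, Wk k - s⟩ : ℂ), ζ) - E0 k p * cexp ((1 + p) * ζ) / c₁ * (0 - θt ζ))
  rw [sub_sub_sub_cancel_left] at h3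
  linarith

/-- THE POINT `Z'`. Proof. The same from above (`TT.up`). -/
theorem wT_Z' (h : Sh k V Y) (hk : 1 ≤ k) (hκ : Kap p X₀ η c₁ κ) {R₀ : ℝ} {T : ℂ × ℂ → ℂ}
    {θZ θt : ℂ → ℂ} (hT : TT k X₀ R₀ κ Y T θZ) (hR : U0 + 1 - R₀ < X₀) {Ct : ℝ}
    (ht : Tip k p R₀ T θt Ct) {ζ : ℂ} (hζ : R₀ < ζ.re) :
    E0 k p * cexp ((1 + p) * ζ) / c₁ * (θZ ζ - θt ζ) ∈ Cn := by
  have hp := hκ.p_pos
  have hc : 0 < ‖c₁‖ := norm_pos_iff.2 hκ.c₁_ne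
  rw [← isClosed_Cn.closure_eq, Metric.mem_closure_iff]
  intro ε hε
  obtain ⟨s, U, hs0, hs1, hs2, hs3, hU, hU2⟩ := G3c_choice hp (Ct := Ct) hc hε
  have hX : Wk k < (⟨U, Wk k + s⟩ : ℂ).im := by
    show Wk k < Wk k + s
    linarith
  obtain ⟨c, hcC, hcd⟩ := wT_cut h hk hκ hT hR ht (x := ((⟨U, Wk k + s⟩ : ℂ), ζ))
    (Or.inr (Or.inr hX)) hU
    (by
      show |(1 + p) * (Wk k + s - Wk k)| ≤ 1 / 20
      rw [show (1 + p) * (Wk k + s - Wk k) = (1 + p) * s by ring,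
        abs_of_nonneg (by positivity)]
      exact hs1) hζ
  refine ⟨c, hcC, ?_⟩
  have h1 := G3c_up (θt := θt) h hk hκ hT (x := ((⟨U, Wk k + s⟩ : ℂ), ζ)) hX (by
    rw [sub_re]
    show U - ζ.re < X₀
    linarith) hζ
  have h2 : |(⟨U, Wk k + s⟩ : ℂ).im - Wk k| = s := by
    show |Wk k + s - Wk k| = s
    rw [show Wk k + s - Wk k = s by ring, abs_of_pos hs0]
  change ‖wT k p c₁ T θt ((⟨U, Wk k + s⟩ : ℂ), ζ) - c‖ ≤
    Ct / ‖c₁‖ * |(⟨U, Wk k + s⟩ : ℂ).im - Wk k| at hcd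
  rw [h2] at hcd
  change ‖wT k p c₁ T θt ((⟨U, Wk k + s⟩ : ℂ), ζ) - E0 k p * cexp ((1 + p) * ζ) / c₁ *
    (θZ ζ - θt ζ)‖ ≤ Real.exp ((1 + p) * U) at h1
  rw [dist_eq_norm]
  have h3 := norm_sub_le (wT k p c₁ T θt ((⟨U, Wk k + s⟩ : ℂ), ζ) - c)
    (wT k p c₁ T θt ((⟨U, Wk k + s⟩ : ℂ), ζ) - E0 k p * cexp ((1 + p) * ζ) / c₁ * (θZ ζ - θt ζ))
  rw [sub_sub_sub_cancel_left] at h3
  linarith

/-- THE LOWER BOUNDARY LINE. Proof. `(1 + p) W ≥ 3 π / 2` so `0 < v < W` for `|(1 + p) (v - W) + π| ≤ 1 / 20`: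
`T x = TZ κ Y x` (`TT.strip`), `wT x = ∫₀^∞ dn (x.1 - t, ζ) dt + E0 .. (0 - θt)`; `dn_a`, `Cn_integral_Ioi`, `wT_Z`,
`Cn_add`. -/
theorem wT_a (h : Sh k V Y) (hk : 1 ≤ k) (hκ : Kap p X₀ η c₁ κ) {R₀ : ℝ} {T : ℂ × ℂ → ℂ}
    {θZ θt : ℂ → ℂ} (hT : TT k X₀ R₀ κ Y T θZ) (hR : U0 + 1 - R₀ < X₀) {Ct : ℝ}
    (ht : Tip k p R₀ T θt Ct) {x : ℂ × ℂ} (h2 : (x.1 - x.2).re < X₀)
    (h3 : |(1 + p) * (x.1.im - Wk k) + Real.pi| ≤ 1 / 20) (h4 : R₀ < x.2.re) :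
    wT k p c₁ T θt x ∈ Cn := by
  have hp := hκ.p_pos
  have hW := Wk_ge hk
  have hpi := Real.pi_gt_three
  rw [abs_le] at h3
  have hv1 : x.1.im < Wk k := by
    by_contra hc
    have : 0 ≤ (1 + p) * (x.1.im - Wk k) := mul_nonneg (by linarith) (by linarith)
    linarith [h3.2]
  have hv0 : 0 < x.1.im := by
    have h5 : Wk k - x.1.im ≤ (1 + p) * (Wk k - x.1.im) := by nlinarith
    linarith [h3.1]
  have hv : |x.1.im| < Wk k := by rwa [abs_of_pos hv0]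
  have hY := h.LD_strip hk
  have hx : x ∈ DZ {z : ℂ | |z.im| < Wk k} X₀ := ⟨hv, h2⟩
  have e1 : wT k p c₁ T θt x = (∫ t in Ioi (0 : ℝ), dn k p c₁ κ Y (x.1 - t, x.2)) +
      E0 k p * cexp ((1 + p) * x.2) / c₁ * (0 - θt x.2) := by
    have e2 : ∫ t in Ioi (0 : ℝ), dn k p c₁ κ Y (x.1 - t, x.2) =
        E0 k p * cexp ((1 + p) * x.2) / c₁ * TZ κ Y x := by
      unfold TZ dn
      rw [← MeasureTheory.integral_const_mul]
      refine MeasureTheory.integral_congr_ae (Eventually.of_forall fun t => ?_)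
      show _ * (κ (x.1 - t - x.2) / Y (x.1 - t)) = _ * (κ (x.1 - x.2 - t) / Y (x.1 - t))
      rw [sub_right_comm]
    rw [e2]
    unfold wT
    rw [hT.strip x hv h2]
    ring
  rw [e1]
  refine Cn_add (Cn_integral_Ioi ?_ (fun t ht0 => ?_)) (wT_Z h hk hκ hT hR ht h4)
  · have e3 : IntegrableOn (fun t : ℝ => E0 k p * cexp ((1 + p) * x.2) / c₁ *
        (κ (x.1 - x.2 - t) / Y (x.1 - t))) (Ioi 0) :=
      (TZ_int hκ hY hx).1.const_mul (E0 k p * cexp ((1 + p) * x.2) / c₁)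
    refine e3.congr_fun (fun t _ => ?_) measurableSet_Ioi
    show _ * (κ (x.1 - x.2 - t) / Y (x.1 - t)) = _ * (κ (x.1 - t - x.2) / Y (x.1 - t))
    rw [sub_right_comm]
  · have i1 : (x.1 - (t : ℂ)).im = x.1.im := by simp
    refine dn_a h hk hκ (x := (x.1 - t, x.2)) (Or.inl ?_) ?_ ?_
    · show |(x.1 - (t : ℂ)).im| < Wk k
      rwa [i1]
    · show (x.1 - (t : ℂ) - x.2).re < X₀
      rw [sub_re, sub_re, ofReal_re]
      rw [sub_re] at h2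
      linarith
    · show |(1 + p) * ((x.1 - (t : ℂ)).im - Wk k) + Real.pi| ≤ 1 / 20
      rw [i1, abs_le]
      exact h3

/-- THE UPPER BOUNDARY LINE. Proof. `W < v`: `T x = θZ ζ + TZ κ Y x` (`TT.up`), `dn_b`, `wT_Z'`. -/
theorem wT_b (h : Sh k V Y) (hk : 1 ≤ k) (hκ : Kap p X₀ η c₁ κ) {R₀ : ℝ} {T : ℂ × ℂ → ℂ}
    {θZ θt : ℂ → ℂ} (hT : TT k X₀ R₀ κ Y T θZ) (hR : U0 + 1 - R₀ < X₀) {Ct : ℝ}
    (ht : Tip k p R₀ T θt Ct) {x : ℂ × ℂ} (h2 : (x.1 - x.2).re < X₀)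
    (h3 : |(1 + p) * (x.1.im - Wk k) - Real.pi| ≤ 1 / 20) (h4 : R₀ < x.2.re) :
    wT k p c₁ T θt x ∈ Cn := by
  have hp := hκ.p_pos
  have hpi := Real.pi_gt_three
  rw [abs_le] at h3
  have hv : Wk k < x.1.im := by
    by_contra hc
    have : (1 + p) * (x.1.im - Wk k) ≤ 0 := mul_nonpos_of_nonneg_of_nonpos (by linarith)
      (by linarith)
    linarith [h3.1]
  have hY := h.LD_up hk
  have hx : x ∈ DZ {z : ℂ | Wk k < z.im} X₀ := ⟨hv, h2⟩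
  have e1 : wT k p c₁ T θt x = (∫ t in Ioi (0 : ℝ), dn k p c₁ κ Y (x.1 - t, x.2)) +
      E0 k p * cexp ((1 + p) * x.2) / c₁ * (θZ x.2 - θt x.2) := by
    have e2 : ∫ t in Ioi (0 : ℝ), dn k p c₁ κ Y (x.1 - t, x.2) =
        E0 k p * cexp ((1 + p) * x.2) / c₁ * TZ κ Y x := by
      unfold TZ dn
      rw [← MeasureTheory.integral_const_mul]
      refine MeasureTheory.integral_congr_ae (Eventually.of_forall fun t => ?_)
      show _ * (κ (x.1 - t - x.2) / Y (x.1 - t)) = _ * (κ (x.1 - x.2 - t) / Y (x.1 - t))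
      rw [sub_right_comm]
    rw [e2]
    unfold wT
    rw [hT.up x hv h2 h4]
    ring
  rw [e1]
  refine Cn_add (Cn_integral_Ioi ?_ (fun t ht0 => ?_)) (wT_Z' h hk hκ hT hR ht h4)
  · have e3 : IntegrableOn (fun t : ℝ => E0 k p * cexp ((1 + p) * x.2) / c₁ *
        (κ (x.1 - x.2 - t) / Y (x.1 - t))) (Ioi 0) :=
      (TZ_int hκ hY hx).1.const_mul (E0 k p * cexp ((1 + p) * x.2) / c₁)
    refine e3.congr_fun (fun t _ => ?_) measurableSet_Ioi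
    show _ * (κ (x.1 - x.2 - t) / Y (x.1 - t)) = _ * (κ (x.1 - t - x.2) / Y (x.1 - t))
    rw [sub_right_comm]
  · have i1 : (x.1 - (t : ℂ)).im = x.1.im := by simp
    refine dn_b h hk hκ (x := (x.1 - t, x.2)) (Or.inr (Or.inr ?_)) ?_ ?_
    · show Wk k < (x.1 - (t : ℂ)).im
      rwa [i1]
    · show (x.1 - (t : ℂ) - x.2).re < X₀
      rw [sub_re, sub_re, ofReal_re]
      rw [sub_re] at h2
      linarith
    · show |(1 + p) * ((x.1 - (t : ℂ)).im - Wk k) - Real.pi| ≤ 1 / 20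
      rw [i1, abs_le]
      exact h3

/-- For `Re om → - ∞` the value tends to the cone, uniformly.

Proof. `Im om < W`: `wT x = E0 .. (0 - θt) + E0 .. TZ`, `‖E0 exp ((1 + p) ζ) / c₁ TZ‖ ≤ (1 + η) / (π (1 + p))
exp ((1 + p) Re om)` (`TZ_int`); `W < Im om`: the same with `θZ`. -/
theorem wT_left (h : Sh k V Y) (hk : 1 ≤ k) (hκ : Kap p X₀ η c₁ κ) {R₀ : ℝ} {T : ℂ × ℂ → ℂ}
    {θZ θt : ℂ → ℂ} (hT : TT k X₀ R₀ κ Y T θZ) (hR : U0 + 1 - R₀ < X₀) {Ct : ℝ}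
    (ht : Tip k p R₀ T θt Ct) {x : ℂ × ℂ} (h1 : x.1 ∈ Xk k) (h2 : x.1.re ≤ U0)
    (h3 : 0 < x.1.im) (h4 : R₀ < x.2.re) :
    ∃ c ∈ Cn, ‖wT k p c₁ T θt x - c‖ ≤ Real.exp ((1 + p) * x.1.re) := by
  have h5 : (x.1 - x.2).re < X₀ := by
    rw [sub_re]
    linarith
  rcases h1 with h6 | h6 | h6
  · exact ⟨_, wT_Z h hk hκ hT hR ht h4, G3c_strip h hk hκ hT h6 h5⟩
  · exact absurd h6 (not_lt.2 h2)
  · exact ⟨_, wT_Z' h hk hκ hT hR ht h4, G3c_up h hk hκ hT h6 h5 h4⟩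

end Pool.Agent.MP_ae5b4e_an_AZ
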