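import Pool.Agent.Lib.MP_ae5b4e_an_AZ.G5b

/-! # AZ: the section (g3) with base point at the tip -/

noncomputable section

namespace Pool.Agent.MP_ae5b4e_an_AZ

open Complex Set Filter Topology Metric MeasureTheory intervalIntegral

variable {k : ℕ} {V Y : ℂ → ℂ} {p X₀ η : ℝ} {c₁ : ℂ} {κ : ℂ → ℂ}

/-- Proof. Let `y ∈ G3`, `0 ≤ a, b`, `a + b = 1`. Norm and `Re ζ`: convexity (if `b = 0` use `h2`, `h3`). Cone: if
`a w₀ + b w ∈ Cn`, then adding `a (- w₀) ∈ Cn` (`Cn_smul`, `Cn_add`) `b w ∈ Cn`; if `b > 0`, `w = (1 / b) (b w) ∈ Cn`, no.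
If `b = 0`: `w₀ ∈ Cn` and `- w₀ ∈ Cn` give `w₀ = 0`, no. -/
theorem star_G3' {ρ R : ℝ} {w₀ ζ₀ : ℂ} (h0 : w₀ ≠ 0) (h1 : -w₀ ∈ Cn) (h2 : ‖w₀‖ < ρ)
    (h3 : R < ζ₀.re) : StarConvex ℝ (w₀, ζ₀) (G3 ρ R) := by
  intro y hy a b ha hb hab
  obtain ⟨k1, k2, k3⟩ := hy
  have e1 : (a • (w₀, ζ₀) + b • y : ℂ × ℂ).1 = (a : ℂ) * w₀ + b * y.1 := by
    simp
  have e2 : (a • (w₀, ζ₀) + b • y : ℂ × ℂ).2 = (a : ℂ) * ζ₀ + b * y.2 := by
    simp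
  have n1 : ‖(a : ℂ) * w₀‖ = a * ‖w₀‖ := by
    rw [norm_mul, Complex.norm_real, Real.norm_of_nonneg ha]
  have n2 : ‖(b : ℂ) * y.1‖ = b * ‖y.1‖ := by
    rw [norm_mul, Complex.norm_real, Real.norm_of_nonneg hb]
  refine ⟨?_, ?_, ?_⟩
  · rw [e1]
    have m1 := norm_add_le ((a : ℂ) * w₀) (b * y.1)
    rw [n1, n2] at m1
    rcases hb.eq_or_lt with hb0 | hb0
    · have ha1 : a = 1 := by linarith
      rw [← hb0, ha1] at m1
      rw [← hb0, ha1]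
      linarith
    · have m2 := mul_lt_mul_of_pos_left k1 hb0
      have m3 := mul_le_mul_of_nonneg_left h2.le ha
      have m4 : a * ρ + b * ρ = ρ := by rw [← add_mul, hab, one_mul]
      linarith
  · rw [e1]
    intro hc
    rcases hb.eq_or_lt with hb0 | hb0
    · have ha1 : a = 1 := by linarith
      rw [← hb0, ha1, ofReal_one, one_mul, ofReal_zero, zero_mul, add_zero] at hc
      have c1 : |w₀.re| ≤ 3 / 2 * w₀.im := hc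
      have c2 : |(-w₀).re| ≤ 3 / 2 * (-w₀).im := h1
      rw [neg_re, neg_im, abs_neg] at c2
      have c3 := abs_nonneg w₀.re
      have c4 : w₀.im = 0 := by linarith
      have c5 : |w₀.re| = 0 := by
        rw [c4] at c1
        linarith
      exact h0 (Complex.ext (abs_eq_zero.1 c5) c4)
    · have c1 := Cn_add hc (Cn_smul ha h1)
      have c2 : (a : ℂ) * w₀ + b * y.1 + a * -w₀ = b * y.1 := by ring
      rw [c2] at c1
      have c3 := Cn_smul (t := 1 / b) (by positivity) c1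
      have c4 : ((1 / b : ℝ) : ℂ) * (b * y.1) = y.1 := by
        have hb' : (b : ℂ) ≠ 0 := by exact_mod_cast hb0.ne'
        push_cast
        field_simp
      rw [c4] at c3
      exact k2 c3
  · rw [e2]
    have r1 : ((a : ℂ) * ζ₀ + b * y.2).re = a * ζ₀.re + b * y.2.re := by simp
    rw [r1]
    rcases hb.eq_or_lt with hb0 | hb0
    · have ha1 : a = 1 := by linarith
      rw [← hb0, ha1]
      linarith
    · have m2 := mul_lt_mul_of_pos_left k3 hb0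
      have m3 := mul_le_mul_of_nonneg_left h3.le ha
      have m4 : a * R + b * R = R := by rw [← add_mul, hab, one_mul]
      linarith

private theorem g5_normE (k : ℕ) (p : ℝ) : ‖E0 k p‖ = 1 := by
  unfold E0
  rw [Complex.norm_exp]
  simp

private theorem g5_normexp (p : ℝ) (ζ : ℂ) :
    ‖cexp ((1 + p) * ζ)‖ = Real.exp ((1 + p) * ζ.re) := by
  rw [Complex.norm_exp]
  congr 1
  simp

private theorem g5_normwT (k : ℕ) (p : ℝ) (c₁ : ℂ) (T : ℂ × ℂ → ℂ) (θt : ℂ → ℂ) (x : ℂ × ℂ) :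
    ‖wT k p c₁ T θt x‖ = Real.exp ((1 + p) * x.2.re) / ‖c₁‖ * ‖T x - θt x.2‖ := by
  unfold wT
  rw [norm_mul, norm_div, norm_mul, g5_normE, g5_normexp, one_mul]

private theorem g5_mem {R₀ U₃ R : ℝ} (hR' : R₀ ≤ R) (hU : U₃ - R ≤ X₀) {x : ℂ × ℂ}
    (hx : x ∈ P3 k p U₃ R) : x ∈ DT k X₀ R₀ ∧ R₀ < x.2.re := by
  obtain ⟨h1, h2, h3, h4⟩ := hx
  have h5 : R₀ < x.2.re := by linarith
  refine ⟨⟨h1, ?_, Or.inr h5⟩, h5⟩
  rw [sub_re]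
  linarith

/-- the norm near the tip -/
private theorem g5_tip {R₀ : ℝ} {T : ℂ × ℂ → ℂ} {θt : ℂ → ℂ} {Ct : ℝ}
    (ht : Tip k p R₀ T θt Ct) {x : ℂ × ℂ} (h1 : x.1 ∈ Xk k) (h2 : ‖x.1 - tip k‖ ≤ 1 / 2)
    (h3 : R₀ < x.2.re) : ‖wT k p c₁ T θt x‖ ≤ Ct / ‖c₁‖ * ‖x.1 - tip k‖ := by
  have b1 := ht.2 x h1 h2 h3
  rw [g5_normwT]
  have b3 : Real.exp ((1 + p) * x.2.re) / ‖c₁‖ * ‖T x - θt x.2‖ ≤
      Real.exp ((1 + p) * x.2.re) / ‖c₁‖ *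
        (Ct * Real.exp (-((1 + p) * x.2.re)) * ‖x.1 - tip k‖) :=
    mul_le_mul_of_nonneg_left b1 (by positivity)
  have b4 : Real.exp ((1 + p) * x.2.re) / ‖c₁‖ *
        (Ct * Real.exp (-((1 + p) * x.2.re)) * ‖x.1 - tip k‖) =
      Ct / ‖c₁‖ * ‖x.1 - tip k‖ *
        (Real.exp ((1 + p) * x.2.re) * Real.exp (-((1 + p) * x.2.re))) := by
    ring
  rw [← Real.exp_add, add_neg_cancel, Real.exp_zero, mul_one] at b4
  linarith

/-- the points to the right of the tip -/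
private theorem g5_pt (k : ℕ) {s : ℝ} (hs : 0 < s) : tip k + s ∈ Xk k ∧
    (tip k + s).re = U0 + s ∧ (tip k + s).im = Wk k ∧ ‖tip k + s - tip k‖ = s := by
  have e1 : (tip k + s).re = U0 + s := by
    rw [add_re, v6b_tip_re, ofReal_re]
  have e2 : (tip k + s).im = Wk k := by
    rw [add_im, v6b_tip_im, ofReal_im, add_zero]
  refine ⟨Or.inr (Or.inl ?_), e1, e2, ?_⟩
  · rw [e1]
    linarith
  · rw [add_sub_cancel_left, Complex.norm_real, Real.norm_of_nonneg hs.le]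

/-- the image of the points to the right of the tip -/
private theorem g5_img (h : Sh k V Y) (hk : 1 ≤ k) (hκ : Kap p X₀ η c₁ κ) {R₀ : ℝ}
    {T : ℂ × ℂ → ℂ} {θZ θt : ℂ → ℂ} (hT : TT k X₀ R₀ κ Y T θZ) (hR : U0 + 1 - R₀ < X₀) {Ct : ℝ}
    (ht : Tip k p R₀ T θt Ct) {s : ℝ} (hs : 0 < s) (hs1 : s ≤ 1 / 2) {ζ : ℂ} (hζ : R₀ < ζ.re) :
    wT k p c₁ T θt (tip k + s, ζ) ≠ 0 ∧ -wT k p c₁ T θt (tip k + s, ζ) ∈ Cn ∧
      ‖wT k p c₁ T θt (tip k + s, ζ)‖ ≤ |Ct| / ‖c₁‖ * s := by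
  have hp := hκ.p_pos
  obtain ⟨q1, q2, q3, q4⟩ := g5_pt k hs
  have hre : (tip k + s).re ≤ U0 + 1 := by
    rw [q2]
    linarith
  have him : |(1 + p) * ((tip k + s).im - Wk k)| ≤ 1 / 20 := by
    rw [q3, sub_self, mul_zero, abs_zero]
    norm_num
  refine ⟨?_, ?_, ?_⟩
  · obtain ⟨d, hd⟩ : ∃ d, d = min s (1 / (20 * (1 + p))) := ⟨_, rfl⟩
    have hd0 : 0 < d := by
      rw [hd]
      exact lt_min hs (by positivity)
    have hd1 : (1 + p) * d ≤ 1 / 20 := by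
      have h1 : d ≤ 1 / (20 * (1 + p)) := by
        rw [hd]
        exact min_le_right _ _
      have h2 := mul_le_mul_of_nonneg_left h1 (by linarith : (0 : ℝ) ≤ 1 + p)
      have h3 : (1 + p) * (1 / (20 * (1 + p))) = 1 / 20 := by
        have : (1 + p) ≠ 0 := by linarith
        field_simp
      linarith
    obtain ⟨m, hm, hlow⟩ := wT_lower h hk hκ hd0 hd1
    have h1 := hlow R₀ T θZ θt Ct hT hR ht (tip k + s) ζ q1 hre him hζ (by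
      rw [q4, hd]
      exact min_le_left _ _)
    intro h0
    rw [h0, norm_zero] at h1
    linarith
  · have h1 := wT_dir h hk hκ hT hR ht q1 hre him hζ
    rw [add_sub_cancel_left] at h1
    have h2 := Cn_smul hs.le h1
    have h3 : (s : ℂ) * -(wT k p c₁ T θt (tip k + s, ζ) / s) =
        -wT k p c₁ T θt (tip k + s, ζ) := by
      have hs' : (s : ℂ) ≠ 0 := by exact_mod_cast hs.ne'
      field_simp
    rw [h3] at h2
    exact h2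
  · have h1 := g5_tip (c₁ := c₁) ht (x := (tip k + s, ζ)) q1 (by
      change ‖tip k + s - tip k‖ ≤ 1 / 2
      rw [q4]
      exact hs1) hζ
    change _ ≤ Ct / ‖c₁‖ * ‖tip k + s - tip k‖ at h1
    rw [q4] at h1
    have h2 : Ct / ‖c₁‖ * s ≤ |Ct| / ‖c₁‖ * s := by
      have := le_abs_self Ct
      gcongr
    linarith

/-- a punctured half disc without the cone is preconnected -/
private theorem g5_conn {m : ℝ} (hm : 0 < m) : IsPreconnected {w : ℂ | ‖w‖ < m ∧ w ∉ Cn} := by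
  have hw0 : (-((m / 2 : ℝ) * I) : ℂ) ≠ 0 := by
    rw [neg_ne_zero]
    exact mul_ne_zero (by exact_mod_cast (by positivity : m / 2 ≠ 0)) I_ne_zero
  have hn : ‖(-((m / 2 : ℝ) * I) : ℂ)‖ = m / 2 := by
    rw [norm_neg, norm_mul, Complex.norm_I, mul_one, Complex.norm_real,
      Real.norm_of_nonneg (by positivity)]
  have hC : -(-((m / 2 : ℝ) * I) : ℂ) ∈ Cn := by
    rw [neg_neg]
    change |(((m / 2 : ℝ) : ℂ) * I).re| ≤ 3 / 2 * (((m / 2 : ℝ) : ℂ) * I).im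
    rw [re_ofReal_mul, im_ofReal_mul, I_re, I_im, mul_zero, mul_one, abs_zero]
    positivity
  have hs := star_G3' (ρ := m) (R := 0) (ζ₀ := 1) hw0 hC (by rw [hn]; linarith)
    (by rw [one_re]; norm_num)
  have hs2 : StarConvex ℝ (-((m / 2 : ℝ) * I) : ℂ) {w : ℂ | ‖w‖ < m ∧ w ∉ Cn} := by
    intro w hw a b ha hb hab
    have h1 := hs (y := (w, 1)) ⟨hw.1, hw.2, by rw [one_re]; norm_num⟩ ha hb hab
    exact ⟨h1.1, h1.2.1⟩
  refine (hs2.isPathConnected ⟨?_, ?_⟩).isConnected.isPreconnected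
  · rw [hn]
    linarith
  · intro hc
    have c1 : |(-((m / 2 : ℝ) * I) : ℂ).re| ≤ 3 / 2 * (-((m / 2 : ℝ) * I) : ℂ).im := hc
    have c2 : (-((m / 2 : ℝ) * I) : ℂ).im = -(m / 2) := by
      rw [neg_im, im_ofReal_mul, I_im, mul_one]
    rw [c2] at c1
    have := abs_nonneg (-((m / 2 : ℝ) * I) : ℂ).re
    linarith

/-- the values of a section along a segment -/
private theorem g5_val {F : ℂ × ℂ → ℂ} {P G : Set (ℂ × ℂ)} (hPo : IsOpen P)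
    (hF : AnalyticOnNhd ℂ F P) {d : ℂ × ℂ → ℂ}
    (hd : ∀ x ∈ P, HasDerivAt (fun z => F (z, x.2)) (d x) x.1 ∧ d x ≠ 0) {g : ℂ × ℂ → ℂ}
    (g1 : AnalyticOnNhd ℂ g G) (g2 : ∀ y ∈ G, (g y, y.2) ∈ P ∧ F (g y, y.2) = y.1) {t : ℂ}
    {s₁ R : ℝ}
    (hPt : ∀ s : ℝ, 0 < s → s < s₁ → ∀ ζ : ℂ, R < ζ.re → (t + s, ζ) ∈ P)
    (hG : ∀ s : ℝ, 0 < s → s < s₁ → ∀ ζ : ℂ, R < ζ.re → (F (t + s, ζ), ζ) ∈ G) {s₂ : ℝ}
    (h20 : 0 < s₂) (h21 : s₂ < s₁) {ζ₂ : ℂ} (hζ₂ : R < ζ₂.re)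
    (g3 : g (F (t + s₂, ζ₂), ζ₂) = t + s₂) :
    ∀ s : ℝ, 0 < s → s < s₁ → ∀ ζ : ℂ, R < ζ.re → g (F (t + s, ζ), ζ) = t + s := by
  intro s hs hs1 ζ hζ
  obtain ⟨S, hS⟩ : ∃ S : Set (ℝ × ℂ), S = Ioo 0 s₁ ×ˢ {ζ : ℂ | R < ζ.re} := ⟨_, rfl⟩
  have hSmem : ∀ a ∈ S, 0 < a.1 ∧ a.1 < s₁ ∧ R < a.2.re := by
    intro a ha
    rw [hS] at ha
    exact ⟨ha.1.1, ha.1.2, ha.2⟩
  have hSc : IsPreconnected S := by
    rw [hS]
    exact ((convex_Ioo _ _).prod (convex_halfSpace_re_gt R)).isPreconnected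
  have hφ : Continuous (fun a : ℝ × ℂ => ((t + a.1, a.2) : ℂ × ℂ)) :=
    (continuous_const.add (continuous_ofReal.comp continuous_fst)).prodMk continuous_snd
  have hw : ContinuousOn (fun a : ℝ × ℂ => F (t + a.1, a.2)) S := by
    intro a ha
    obtain ⟨a1, a2, a3⟩ := hSmem a ha
    have h1 : ContinuousAt F ((t + a.1, a.2) : ℂ × ℂ) :=
      (hF _ (hPt a.1 a1 a2 a.2 a3)).continuousAt
    exact (ContinuousAt.comp (f := fun a : ℝ × ℂ => ((t + a.1, a.2) : ℂ × ℂ)) h1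
      hφ.continuousAt).continuousWithinAt
  have hg₁ : ContinuousOn (fun a : ℝ × ℂ => g (F (t + a.1, a.2), a.2)) S := by
    refine ContinuousOn.comp (t := G) (g := g)
      (f := fun a : ℝ × ℂ => (F (t + a.1, a.2), a.2)) g1.continuousOn
      (hw.prodMk continuousOn_snd) ?_
    intro a ha
    obtain ⟨a1, a2, a3⟩ := hSmem a ha
    exact hG a.1 a1 a2 a.2 a3
  have key := pair_eqOn hPo hF hd hSc
    (g₁ := fun a : ℝ × ℂ => g (F (t + a.1, a.2), a.2))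
    (g₂ := fun a : ℝ × ℂ => t + a.1) (ζ := fun a : ℝ × ℂ => a.2) hg₁
    (continuous_const.add (continuous_ofReal.comp continuous_fst)).continuousOn
    continuousOn_snd
    (fun a ha => by
      obtain ⟨a1, a2, a3⟩ := hSmem a ha
      exact (g2 _ (hG a.1 a1 a2 a.2 a3)).1)
    (fun a ha => by
      obtain ⟨a1, a2, a3⟩ := hSmem a ha
      exact hPt a.1 a1 a2 a.2 a3)
    (fun a ha => by
      obtain ⟨a1, a2, a3⟩ := hSmem a ha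
      exact (g2 _ (hG a.1 a1 a2 a.2 a3)).2)
    (a := (s₂, ζ₂))
    (by
      rw [hS]
      exact ⟨⟨h20, h21⟩, hζ₂⟩)
    g3
  have hmem : ((s, ζ) : ℝ × ℂ) ∈ S := by
    rw [hS]
    exact ⟨⟨hs, hs1⟩, hζ⟩
  exact key hmem

/-- the limit at the tip from the intermediate value theorem -/
private theorem g5_lim {f : ℂ → ℂ} {t : ℂ} {ρ d₀ : ℝ} (hρ : 0 < ρ) (hd₀ : 0 < d₀)
    (hc : ContinuousOn f {w : ℂ | ‖w‖ < ρ ∧ w ∉ Cn})
    (hne : ∀ d : ℝ, 0 < d → d ≤ d₀ → ∃ m : ℝ, 0 < m ∧ ∀ w : ℂ, ‖w‖ < m → ‖w‖ < ρ → w ∉ Cn →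
      ‖f w - t‖ ≠ d)
    (hsm : ∀ d : ℝ, 0 < d → ∀ m : ℝ, 0 < m → ∃ w : ℂ, ‖w‖ < m ∧ w ∉ Cn ∧ ‖f w - t‖ < d) :
    Tendsto f (𝓝[Cnᶜ] 0) (𝓝 t) := by
  rw [Metric.tendsto_nhds]
  intro ε hε
  obtain ⟨d, hd⟩ : ∃ d, d = min ε d₀ := ⟨_, rfl⟩
  have hd0 : 0 < d := by
    rw [hd]
    exact lt_min hε hd₀
  have hdε : d ≤ ε := by
    rw [hd]
    exact min_le_left _ _
  have hdd : d ≤ d₀ := by
    rw [hd]
    exact min_le_right _ _
  obtain ⟨m, hm, hlow⟩ := hne d hd0 hdd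
  obtain ⟨m', hm'⟩ : ∃ m', m' = min m ρ := ⟨_, rfl⟩
  have hm'0 : 0 < m' := by
    rw [hm']
    exact lt_min hm hρ
  have hm'm : m' ≤ m := by
    rw [hm']
    exact min_le_left _ _
  have hm'ρ : m' ≤ ρ := by
    rw [hm']
    exact min_le_right _ _
  have hNc : ContinuousOn (fun w : ℂ => ‖f w - t‖) {w : ℂ | ‖w‖ < m' ∧ w ∉ Cn} :=
    ((hc.mono fun w hw => ⟨lt_of_lt_of_le hw.1 hm'ρ, hw.2⟩).sub continuousOn_const).norm
  obtain ⟨w₁, i1, i2, i3⟩ := hsm d hd0 m' hm'0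
  have hw₁ : w₁ ∈ {w : ℂ | ‖w‖ < m' ∧ w ∉ Cn} := ⟨i1, i2⟩
  have hall : ∀ w ∈ {w : ℂ | ‖w‖ < m' ∧ w ∉ Cn}, ‖f w - t‖ < d := by
    intro w hw
    by_contra hcon
    push Not at hcon
    obtain ⟨w₂, hw₂, heq⟩ := (g5_conn hm'0).intermediate_value hw₁ hw hNc ⟨i3.le, hcon⟩
    exact hlow w₂ (lt_of_lt_of_le hw₂.1 hm'm) (lt_of_lt_of_le hw₂.1 hm'ρ) hw₂.2 heq
  have hev : ∀ᶠ w : ℂ in 𝓝[Cnᶜ] 0, ‖w‖ < m' := by
    refine mem_nhdsWithin_of_mem_nhds ?_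
    have h1 := Metric.ball_mem_nhds (0 : ℂ) hm'0
    filter_upwards [h1] with w hw
    rwa [mem_ball_zero_iff] at hw
  filter_upwards [hev, self_mem_nhdsWithin] with w hw1 hw2
  rw [dist_eq_norm]
  exact lt_of_lt_of_le (hall w ⟨hw1, hw2⟩) hdε

/-- THE SECTION (g3), NORMALISED AT THE TIP.

Proof. (1) For `0 < s ≤ 1 / 2` and `R < Re ζ` put `x_s := (tip k + s, ζ)`: `x_s ∈ P3` (`Im = W`, `U0 < Re < U₃`),
`- wT x_s = s c` with `c ∈ Cn` (`wT_dir`, `z - tip = s`), `wT x_s ≠ 0` (`wT_lower` with a small `d ≤ s`), and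
`‖wT x_s‖ ≤ Ct / ‖c₁‖ * s` (`Tip`). Let `s₁ ∈ (0, 1 / 2)` with `|Ct| / ‖c₁‖ * s₁ < ρ`. `sec_pair` (`wT_der`, `isOpen_G3`,
`star_G3'`, `proper_G3`) with the base point `x₀ := (tip k + s₁ / 2, R + 1)`: `g`, with `g (wT x₀, R + 1) = tip k + s₁ / 2`.
(2) For all `0 < s < s₁`, `R < Re ζ`: `g (wT x_s, ζ) = tip k + s`: `pair_eqOn` (`F = wT`, `P = P3`) on the convex set
`{(s, ζ) | 0 < s < s₁, R < Re ζ} ⊆ ℝ × ℂ`, lifts `g (wT (tip + s, ζ), ζ)` and `tip + s`; `(wT x_s, ζ) ∈ G3`: norm `< ρ`, not in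
`Cn` since the negative is in `Cn` and it is not `0`.
(3) Limit. Fix `ζ`, let `ε > 0`; wlog `ε ≤ 1 / 2`, `(1 + p) ε ≤ 1 / 20`. `m` from `wT_lower` for `d = ε`, `m' := min m ρ`.
`Q := {w | ‖w‖ < m', w ∉ Cn}` is preconnected: `Q` is star convex about `- (m' / 2) I` (`star_G3'` for `G3 m' R` at fixed
second component, or directly). `N w := ‖g (w, ζ) - tip k‖` is continuous on `Q` and never equal to `ε`: if
`N w = ε`, then `z := g (w, ζ)` satisfies `|(1 + p) (Im z - W)| ≤ (1 + p) ε ≤ 1 / 20`, `Re z ≤ U0 + 1`, `z ∈ Xk k`, so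
`m ≤ ‖wT (z, ζ)‖ = ‖w‖ < m`. For `s` small `w := wT x_s ∈ Q` and `N w = s < ε`. So `N < ε` on `Q`
(`IsPreconnected.image`, intermediate values). -/
theorem sec_G5 (h : Sh k V Y) (hk : 1 ≤ k) (hκ : Kap p X₀ η c₁ κ) {R₀ : ℝ} {T : ℂ × ℂ → ℂ}
    {θZ θt : ℂ → ℂ} (hT : TT k X₀ R₀ κ Y T θZ) (hR : U0 + 1 - R₀ < X₀) {Ct : ℝ}
    (ht : Tip k p R₀ T θt Ct) {ρ U₃ R : ℝ} (hρ : 0 < ρ) (hR' : R₀ ≤ R) (hU : U₃ - R ≤ X₀)
    (hU0 : U0 + 1 < U₃)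
    (hout : ∀ x : ℂ × ℂ, x.1.re = U₃ → |(1 + p) * (x.1.im - Wk k)| ≤ Real.pi → R < x.2.re →
      ρ ≤ ‖wT k p c₁ T θt x‖) :
    ∃ g : ℂ × ℂ → ℂ, AnalyticOnNhd ℂ g (G3 ρ R) ∧
      (∀ y ∈ G3 ρ R, (g y, y.2) ∈ P3 k p U₃ R ∧ wT k p c₁ T θt (g y, y.2) = y.1) ∧
      ∀ ζ : ℂ, R < ζ.re → Tendsto (fun w => g (w, ζ)) (𝓝[Cnᶜ] 0) (𝓝 (tip k)) := by
  have hp := hκ.p_pos
  have hpi := Real.pi_pos
  have hc : 0 < ‖c₁‖ := norm_pos_iff.2 hκ.c₁_ne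
  have hP : ∀ x ∈ P3 k p U₃ R, AnalyticAt ℂ (wT k p c₁ T θt) x ∧
      HasDerivAt (fun z => wT k p c₁ T θt (z, x.2)) (dn k p c₁ κ Y x) x.1 ∧
      dn k p c₁ κ Y x ≠ 0 := by
    intro x hx
    obtain ⟨h1, h2⟩ := g5_mem (X₀ := X₀) hR' hU hx
    exact wT_der h hk hκ hT ht h1 h2
  have hprop := proper_G3 h hk hκ hT hR ht hR' hU (by linarith) hout
  obtain ⟨C, hC⟩ : ∃ C, C = |Ct| / ‖c₁‖ := ⟨_, rfl⟩
  have hC0 : 0 ≤ C := by
    rw [hC]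
    positivity
  have hImg : ∀ s : ℝ, 0 < s → s ≤ 1 / 2 → ∀ ζ : ℂ, R < ζ.re →
      wT k p c₁ T θt (tip k + s, ζ) ≠ 0 ∧ -wT k p c₁ T θt (tip k + s, ζ) ∈ Cn ∧
      ‖wT k p c₁ T θt (tip k + s, ζ)‖ ≤ C * s := by
    intro s hs hs1 ζ hζ
    rw [hC]
    exact g5_img h hk hκ hT hR ht hs hs1 (by linarith)
  have hlow : ∀ d : ℝ, 0 < d → (1 + p) * d ≤ 1 / 20 → ∃ m : ℝ, 0 < m ∧
      ∀ z ζ : ℂ, z ∈ Xk k → z.re ≤ U0 + 1 → |(1 + p) * (z.im - Wk k)| ≤ 1 / 20 →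
        R < ζ.re → d ≤ ‖z - tip k‖ → m ≤ ‖wT k p c₁ T θt (z, ζ)‖ := by
    intro d hd hd1
    obtain ⟨m, hm, hlow⟩ := wT_lower h hk hκ hd hd1
    exact ⟨m, hm, fun z ζ h1 h2 h3 h4 h5 =>
      hlow R₀ T θZ θt Ct hT hR ht z ζ h1 h2 h3 (by linarith) h5⟩
  -- the points to the right of the tip are in the source
  have hPt : ∀ s : ℝ, 0 < s → s ≤ 1 / 2 → ∀ ζ : ℂ, R < ζ.re → (tip k + s, ζ) ∈ P3 k p U₃ R := by
    intro s hs hs1 ζ hζ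
    obtain ⟨q1, q2, q3, q4⟩ := g5_pt k hs
    refine ⟨q1, ?_, ?_, hζ⟩
    · change |(1 + p) * ((tip k + s).im - Wk k)| < Real.pi
      rw [q3, sub_self, mul_zero, abs_zero]
      exact hpi
    · change (tip k + s).re < U₃
      rw [q2]
      linarith
  have hnorm : ∀ s : ℝ, 0 < s → ‖tip k + s - tip k‖ = s := fun s hs => (g5_pt k hs).2.2.2
  have htr := v6b_tip_re k
  have hti := v6b_tip_im k
  obtain ⟨F, hF⟩ : ∃ F, F = wT k p c₁ T θt := ⟨_, rfl⟩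
  obtain ⟨dd, hdd⟩ : ∃ dd, dd = dn k p c₁ κ Y := ⟨_, rfl⟩
  rw [← hF, ← hdd] at hP
  rw [← hF] at hprop hImg hlow ⊢
  obtain ⟨t, htt⟩ : ∃ t, t = tip k := ⟨_, rfl⟩
  rw [← htt] at hPt hImg hlow hnorm htr hti ⊢
  clear ht hT hout hF hdd htt
  have hsm : ∀ m : ℝ, 0 < m → ∃ s₁ : ℝ, 0 < s₁ ∧ s₁ ≤ 1 / 4 ∧ ∀ s : ℝ, s ≤ s₁ → C * s < m := by
    intro m hm
    refine ⟨min (1 / 4) (m / (2 * (C + 1))), lt_min (by norm_num) (by positivity),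
      min_le_left _ _, fun s hs => ?_⟩
    have h1 : s ≤ m / (2 * (C + 1)) := hs.trans (min_le_right _ _)
    have h2 := mul_le_mul_of_nonneg_left h1 hC0
    have h3 : C * (m / (2 * (C + 1))) < m := by
      rw [mul_div_assoc', div_lt_iff₀ (by positivity)]
      nlinarith
    linarith
  have hnC : ∀ w : ℂ, w ≠ 0 → -w ∈ Cn → w ∉ Cn := by
    intro w h0 h1 h2
    have c1 : |w.re| ≤ 3 / 2 * w.im := h2
    have c2 : |(-w).re| ≤ 3 / 2 * (-w).im := h1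
    rw [neg_re, neg_im, abs_neg] at c2
    have c3 := abs_nonneg w.re
    have c4 : w.im = 0 := by linarith
    have c5 : |w.re| = 0 := by
      rw [c4] at c1
      linarith
    exact h0 (Complex.ext (abs_eq_zero.1 c5) c4)
  obtain ⟨s₁, hs0, hs4, hs₁⟩ := hsm ρ hρ
  have hG : ∀ s : ℝ, 0 < s → s < s₁ → ∀ ζ : ℂ, R < ζ.re → (F (t + s, ζ), ζ) ∈ G3 ρ R := by
    intro s hs hs1 ζ hζ
    obtain ⟨i1, i2, i3⟩ := hImg s hs (by linarith) ζ hζ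
    exact ⟨lt_of_le_of_lt i3 (hs₁ s hs1.le), hnC _ i1 i2, hζ⟩
  -- the section
  obtain ⟨s₂, hs₂⟩ : ∃ s₂ : ℝ, s₂ = s₁ / 2 := ⟨_, rfl⟩
  have h20 : 0 < s₂ := by linarith
  have h21 : s₂ < s₁ := by linarith
  obtain ⟨ζ₂, hζ₂⟩ : ∃ ζ₂ : ℂ, R < ζ₂.re := ⟨((R + 1 : ℝ) : ℂ), by
    rw [ofReal_re]
    linarith⟩
  have hstar : StarConvex ℝ (F (t + s₂, ζ₂), ((t + s₂, ζ₂) : ℂ × ℂ).2) (G3 ρ R) := by
    obtain ⟨i1, i2, i3⟩ := hImg s₂ h20 (by linarith) _ hζ₂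
    exact star_G3' i1 i2 (lt_of_le_of_lt i3 (hs₁ _ h21.le)) hζ₂
  obtain ⟨g, g1, g2, g3⟩ := sec_pair (isOpen_P3 k p U₃ R) (fun x hx => (hP x hx).1)
    (d := dd) (fun x hx => (hP x hx).2) (isOpen_G3 ρ R) hstar
    hprop (hPt s₂ h20 (by linarith) ζ₂ hζ₂) (hG s₂ h20 h21 ζ₂ hζ₂)
  refine ⟨g, g1, g2, ?_⟩
  have hval := g5_val (isOpen_P3 k p U₃ R) (fun x hx => (hP x hx).1) (fun x hx => (hP x hx).2)
    g1 g2 (fun s h1 h2 ζ h3 => hPt s h1 (by linarith) ζ h3) hG h20 h21 hζ₂ g3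
  -- the limit
  intro ζ hζ
  obtain ⟨d₀, hd₀⟩ : ∃ d₀, d₀ = min (1 / 2) (1 / (20 * (1 + p))) := ⟨_, rfl⟩
  have hd00 : 0 < d₀ := by
    rw [hd₀]
    exact lt_min (by norm_num) (by positivity)
  have hdh : d₀ ≤ 1 / 2 := by
    rw [hd₀]
    exact min_le_left _ _
  have hd1 : (1 + p) * d₀ ≤ 1 / 20 := by
    have h1 : d₀ ≤ 1 / (20 * (1 + p)) := by
      rw [hd₀]
      exact min_le_right _ _
    have h2 := mul_le_mul_of_nonneg_left h1 (by linarith : (0 : ℝ) ≤ 1 + p)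
    have h3 : (1 + p) * (1 / (20 * (1 + p))) = 1 / 20 := by
      have : (1 + p) ≠ 0 := by linarith
      field_simp
    linarith
  have hQG : ∀ w ∈ {w : ℂ | ‖w‖ < ρ ∧ w ∉ Cn}, (w, ζ) ∈ G3 ρ R := fun w hw =>
    ⟨hw.1, hw.2, hζ⟩
  refine g5_lim hρ hd00 ?_ ?_ ?_
  · exact ContinuousOn.comp (t := G3 ρ R) (g := g) (f := fun w : ℂ => (w, ζ)) g1.continuousOn
      (continuousOn_id.prodMk continuousOn_const) hQG
  · intro d hd hdd₀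
    have hpd : (1 + p) * d ≤ 1 / 20 := by
      have := mul_le_mul_of_nonneg_left hdd₀ (by linarith : (0 : ℝ) ≤ 1 + p)
      linarith
    obtain ⟨m, hm, hlow'⟩ := hlow d hd hpd
    refine ⟨m, hm, ?_⟩
    intro w hw1 hw2 hw3 heq
    obtain ⟨hPw, hwT⟩ := g2 (w, ζ) (hQG w ⟨hw2, hw3⟩)
    have hX : g (w, ζ) ∈ Xk k := hPw.1
    have hre : (g (w, ζ)).re ≤ U0 + 1 := by
      have h1 := Complex.re_le_norm (g (w, ζ) - t)
      rw [sub_re, htr, heq] at h1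
      linarith
    have him : |(1 + p) * ((g (w, ζ)).im - Wk k)| ≤ 1 / 20 := by
      have h1 := Complex.abs_im_le_norm (g (w, ζ) - t)
      rw [sub_im, hti, heq] at h1
      rw [abs_mul, abs_of_pos (by linarith : (0 : ℝ) < 1 + p)]
      exact (mul_le_mul_of_nonneg_left h1 (by linarith)).trans hpd
    have h1 := hlow' (g (w, ζ)) ζ hX hre him hζ heq.ge
    have h2 : F (g (w, ζ), ζ) = w := hwT
    rw [h2] at h1
    linarith
  · intro d hd m hm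
    obtain ⟨s₃, ht0, ht4, ht₂⟩ := hsm m hm
    obtain ⟨s, hs⟩ : ∃ s, s = min (s₁ / 2) (min s₃ (d / 2)) := ⟨_, rfl⟩
    have hs00 : 0 < s := by
      rw [hs]
      exact lt_min (by linarith) (lt_min ht0 (by linarith))
    have hss1 : s < s₁ := by
      have : s ≤ s₁ / 2 := by
        rw [hs]
        exact min_le_left _ _
      linarith
    have hss2 : s ≤ s₃ := by
      rw [hs]
      exact (min_le_right _ _).trans (min_le_left _ _)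
    have hssd : s < d := by
      have : s ≤ d / 2 := by
        rw [hs]
        exact (min_le_right _ _).trans (min_le_right _ _)
      linarith
    obtain ⟨i1, i2, i3⟩ := hImg s hs00 (by linarith) ζ hζ
    refine ⟨F (t + s, ζ), lt_of_le_of_lt i3 (ht₂ s hss2), hnC _ i1 i2, ?_⟩
    rw [hval s hs00 hss1 ζ hζ, hnorm s hs00]
    exact hssd

end Pool.Agent.MP_ae5b4e_an_AZ
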