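import Pool.Agent.Lib.MP_ae5b4e_an_AZ.G3

/-! # AZ: lower bounds of the scaled time function relative to the tip -/

noncomputable section

namespace Pool.Agent.MP_ae5b4e_an_AZ

open Complex Set Filter Topology Metric MeasureTheory intervalIntegral

variable {k : ℕ} {V Y : ℂ → ℂ} {p X₀ η : ℝ} {c₁ : ℂ} {κ : ℂ → ℂ}

theorem G5a_mul_log : Tendsto (fun u : ℂ => u * log u) (𝓝 0) (𝓝 0) := by
  have hR : Tendsto (fun u : ℂ => |‖u‖ * Real.log ‖u‖| + Real.pi * ‖u‖) (𝓝 0) (𝓝 0) := by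
    have hc : Continuous fun u : ℂ => |‖u‖ * Real.log ‖u‖| + Real.pi * ‖u‖ :=
      ((Real.continuous_mul_log.comp continuous_norm).abs).add (continuous_const.mul continuous_norm)
    have h1 := hc.tendsto 0
    simpa using h1
  refine squeeze_zero_norm (fun u => ?_) hR
  rw [norm_mul]
  have h1 : ‖log u‖ ≤ |Real.log ‖u‖| + Real.pi := by
    refine (Complex.norm_le_abs_re_add_abs_im _).trans ?_
    rw [Complex.log_re, Complex.log_im]
    exact add_le_add le_rfl (Complex.abs_arg_le_pi u)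
  calc ‖u‖ * ‖log u‖ ≤ ‖u‖ * (|Real.log ‖u‖| + Real.pi) :=
        mul_le_mul_of_nonneg_left h1 (norm_nonneg _)
    _ = |‖u‖ * Real.log ‖u‖| + Real.pi * ‖u‖ := by
        rw [abs_mul, abs_of_nonneg (norm_nonneg u)]
        ring

theorem G5a_om_tip (k : ℕ) : Tendsto (om1 k) (𝓝 I) (𝓝 (tip k)) ∧
    Tendsto (om2 k) (𝓝 I) (𝓝 (tip k)) := by
  have hu : Tendsto (fun v : ℂ => 1 + v * I) (𝓝 I) (𝓝 0) := by
    have hc : Continuous fun v : ℂ => 1 + v * I := by fun_prop
    have h1 := hc.tendsto I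
    simpa using h1
  have hnu : Tendsto (fun v : ℂ => -(1 + v * I)) (𝓝 I) (𝓝 0) := by
    have h1 := hu.neg
    simpa using h1
  have hm : Tendsto (fun v : ℂ => (1 - v * I) * log (1 - v * I)) (𝓝 I) (𝓝 (2 * Real.log 2)) := by
    have h2 : (1 - I * I : ℂ) = 2 := by
      rw [I_mul_I]
      norm_num
    have hc : ContinuousAt (fun v : ℂ => (1 - v * I) * log (1 - v * I)) I := by
      refine ContinuousAt.mul (by fun_prop) (ContinuousAt.clog (by fun_prop) ?_)
      rw [h2]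
      exact Or.inl (by norm_num)
    have h1 := hc.tendsto
    rw [h2] at h1
    have h3 : (log 2 : ℂ) = (Real.log 2 : ℝ) := by
      rw [Complex.ofReal_log (by norm_num)]
      norm_num
    rwa [h3] at h1
  have hlin : Tendsto (fun v : ℂ => 1 + Wk k * v) (𝓝 I) (𝓝 (1 + Wk k * I)) := by
    have hc : Continuous fun v : ℂ => 1 + (Wk k : ℂ) * v := by fun_prop
    exact hc.tendsto I
  have hval : (1 + Wk k * I - (0 + 2 * Real.log 2) / 2 : ℂ) = tip k := by
    unfold tip U0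
    push_cast
    ring
  have hval2 : (1 + Wk k * I - ((-0 + 0 * (Real.pi * I)) + 2 * Real.log 2) / 2 : ℂ) = tip k := by
    rw [← hval]
    ring
  constructor
  · rw [← hval]
    unfold om1
    exact hlin.sub (((G5a_mul_log.comp hu).add hm).div_const 2)
  · rw [← hval2]
    have h4 : om2 k = fun v : ℂ => 1 + Wk k * v - ((-(-(1 + v * I) * log (-(1 + v * I))) +
        (1 + v * I) * (Real.pi * I)) + (1 - v * I) * log (1 - v * I)) / 2 := by
      funext v
      unfold om2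
      ring
    rw [h4]
    exact hlin.sub ((((G5a_mul_log.comp hnu).neg.add (hu.mul_const _)).add hm).div_const 2)

/-- `Y` is bounded away from the tip.

Proof. `Im z > 0`, so `0 < Im (V z)` (`Sh.im_pos`), `v := V z`; `‖v‖ ≤ max 2 ((M + 7) / 2) =: M'` (`v6b_bound`).
`Y z = y1 k v` or `y2 k v` (`Sh.s1`, `Sh.s2`), real part in `(k π, (k + 2) π)` (`Sh.re_mem`), imaginary part
`(log ‖1 - v I‖ - log ‖1 + v I‖) / 2` (`im_y1`, `im_y2`). `1 ≤ ‖1 - v I‖ ≤ 1 + M'` (`Re (1 - v I) = 1 + Im v`).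
`om1 k` and `om2 k` are continuous at `v = I` with value `tip k` (`u log u → 0` for `u → 0`, also with
`log (-u) + π I`; `1 - I * I = 2`; `Complex.log 0 = 0`): there is `r > 0` with `‖om1 k v - tip k‖ < d`,
`‖om2 k v - tip k‖ < d` for `‖v - I‖ < r`. As `d ≤ ‖z - tip k‖` and `z = om1 k v` or `z = om2 k v`:
`‖1 + v I‖ = ‖v - I‖ ≥ r`, and `≤ 1 + M'`. -/
theorem Sh_bdd (h : Sh k V Y) (hk : 1 ≤ k) {d : ℝ} (hd : 0 < d) (M : ℝ) :
    ∃ C : ℝ, 0 < C ∧ ∀ z ∈ Xk k, 0 < z.im → ‖z‖ ≤ M → d ≤ ‖z - tip k‖ → ‖Y z‖ ≤ C := by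
  obtain ⟨t1, t2⟩ := G5a_om_tip k
  obtain ⟨r1, hr1, b1⟩ := Metric.tendsto_nhds_nhds.1 t1 d hd
  obtain ⟨r2, hr2, b2⟩ := Metric.tendsto_nhds_nhds.1 t2 d hd
  set M' : ℝ := max 2 ((M + 7) / 2) with hM'
  have hM2 : 2 ≤ M' := le_max_left _ _
  set r := min r1 r2 with hr
  have hr0 : 0 < r := lt_min hr1 hr2
  set A : ℝ := |Real.log r| + |Real.log (1 + M')| with hA
  have hpi := Real.pi_pos
  refine ⟨(k + 2) * Real.pi + A, by positivity, fun z hz hi hzM hzd => ?_⟩
  have hv0 := (h.im_pos hz hi).1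
  have hvM := v6b_bound h hk hz hzM
  rw [← hM'] at hvM
  have hre := h.re_mem hz
  have hk0 : 0 ≤ (k : ℝ) * Real.pi := by positivity
  -- the distance of `v` to `I`
  have hfar : r ≤ ‖V z - I‖ ∧ (Y z).im = (Real.log ‖1 - V z * I‖ - Real.log ‖1 + V z * I‖) / 2 := by
    rcases v5b_cases hz with h1 | h1
    · obtain ⟨m, e1, e2⟩ := h.s1 z h1.self_of_nhds
      refine ⟨?_, by rw [e2, im_y1]⟩
      by_contra hcon
      push Not at hcon
      have h3 := b1 (show dist (V z) I < r1 by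
        rw [dist_eq_norm]
        exact hcon.trans_le (min_le_left _ _))
      rw [e1, dist_eq_norm] at h3
      linarith
    · obtain ⟨m, e1, e2⟩ := h.s2 z h1.self_of_nhds
      refine ⟨?_, by rw [e2, im_y2]⟩
      by_contra hcon
      push Not at hcon
      have h3 := b2 (show dist (V z) I < r2 by
        rw [dist_eq_norm]
        exact hcon.trans_le (min_le_right _ _))
      rw [e1, dist_eq_norm] at h3
      linarith
  obtain ⟨hf, him⟩ := hfar
  have e3 : ‖1 + V z * I‖ = ‖V z - I‖ := by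
    have : 1 + V z * I = I * (V z - I) := by
      rw [mul_sub, I_mul_I]
      ring
    rw [this, norm_mul, norm_I, one_mul]
  have hnI : ‖V z * I‖ = ‖V z‖ := by
    rw [norm_mul, norm_I, mul_one]
  have u1 : ‖1 + V z * I‖ ≤ 1 + M' := by
    refine (norm_add_le _ _).trans ?_
    rw [norm_one, hnI]
    linarith
  have u2 : ‖1 - V z * I‖ ≤ 1 + M' := by
    refine (norm_sub_le _ _).trans ?_
    rw [norm_one, hnI]
    linarith
  have l2 : 1 ≤ ‖1 - V z * I‖ := by
    have h3 := Complex.abs_re_le_norm (1 - V z * I)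
    have h4 : (1 - V z * I).re = 1 + (V z).im := by simp
    rw [h4, abs_of_pos (by linarith)] at h3
    linarith
  have l1 : r ≤ ‖1 + V z * I‖ := by
    rw [e3]
    exact hf
  have g1 : |Real.log ‖1 + V z * I‖| ≤ A := by
    rw [abs_le]
    have h3 := Real.log_le_log hr0 l1
    have h4 := Real.log_le_log (hr0.trans_le l1) u1
    have h5 := neg_abs_le (Real.log r)
    have h6 := le_abs_self (Real.log (1 + M'))
    have h7 := abs_nonneg (Real.log r)
    have h8 := abs_nonneg (Real.log (1 + M'))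
    constructor
    · rw [hA]
      linarith
    · rw [hA]
      linarith
  have g2 : |Real.log ‖1 - V z * I‖| ≤ A := by
    rw [abs_le]
    have h3 := Real.log_nonneg l2
    have h4 := Real.log_le_log (by linarith) u2
    have h6 := le_abs_self (Real.log (1 + M'))
    have h7 := abs_nonneg (Real.log r)
    have h8 := abs_nonneg (Real.log (1 + M'))
    constructor
    · rw [hA]
      linarith
    · rw [hA]
      linarith
  have g3 : |(Y z).im| ≤ A := by
    rw [him, abs_div, abs_of_pos (by norm_num : (0 : ℝ) < 2)]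
    have := abs_sub (Real.log ‖1 - V z * I‖) (Real.log ‖1 + V z * I‖)
    linarith
  refine (Complex.norm_le_abs_re_add_abs_im _).trans ?_
  rw [abs_of_pos (by linarith [hre.1])]
  linarith [hre.2]

/-- the norm on the cone -/
theorem Cn_norm {w : ℂ} (hw : w ∈ Cn) : ‖w‖ ≤ 2 * w.im := by
  have h1 : |w.re| ≤ 3 / 2 * w.im := hw
  have h2 := abs_nonneg w.re
  have h3 : ‖w‖ ^ 2 = w.re ^ 2 + w.im ^ 2 := by
    rw [← Complex.normSq_eq_norm_sq, Complex.normSq_apply]
    ring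
  have h4 : w.re ^ 2 = |w.re| ^ 2 := (sq_abs _).symm
  refine le_of_sq_le_sq ?_ (by linarith)
  rw [h3, h4]
  nlinarith

/-- the segment from the tip -/
theorem Xk_seg {z : ℂ} (hz : z ∈ Xk k) {s : ℝ} (h0 : 0 < s) (h1 : s ≤ 1) :
    tip k + s * (z - tip k) ∈ Xk k := by
  have hW := v6b_Wk_pos k
  have e1 : (tip k + s * (z - tip k)).re = U0 + s * (z.re - U0) := by
    rw [add_re, re_ofReal_mul, sub_re, v6b_tip_re]
  have e2 : (tip k + s * (z - tip k)).im = Wk k + s * (z.im - Wk k) := by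
    rw [add_im, im_ofReal_mul, sub_im, v6b_tip_im]
  show |(tip k + s * (z - tip k)).im| < Wk k ∨ U0 < (tip k + s * (z - tip k)).re ∨
    Wk k < (tip k + s * (z - tip k)).im
  rw [e1, e2]
  rcases hz with h | h | h
  · left
    rw [abs_lt] at h ⊢
    constructor
    · nlinarith [h.1, h.2]
    · nlinarith [h.1, h.2]
  · right
    left
    nlinarith
  · right
    right
    nlinarith

/-- Lower bound of the density. Proof. As `g3a_form`: `dn = E0 exp ((1 + p) ζ) / c₁ * κ (om - ζ) / Y om`,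
`‖κ (om - ζ)‖ ≥ (1 - η) ‖c₁‖ exp ((1 + p) Re (om - ζ))` (`Kap.bd`), `η ≤ 1 / 20`, `‖E0‖ = 1`. -/
theorem norm_dn_ge (h : Sh k V Y) (hk : 1 ≤ k) (hκ : Kap p X₀ η c₁ κ) {x : ℂ × ℂ} (h1 : x.1 ∈ Xk k)
    (h2 : (x.1 - x.2).re < X₀) {C : ℝ} (hC : ‖Y x.1‖ ≤ C) :
    Real.exp ((1 + p) * x.1.re) / (2 * C) ≤ ‖dn k p c₁ κ Y x‖ := by
  obtain ⟨e, he, hd⟩ := g3a_form h hκ h1 h2
  have hYre : 0 < (Y x.1).re := by
    have h3 := (h.re_mem h1).1
    have h4 : 0 ≤ (k : ℝ) * Real.pi := by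
      have := Real.pi_pos
      positivity
    linarith
  have hY0 : 0 < ‖Y x.1‖ := by
    refine norm_pos_iff.2 fun h3 => ?_
    rw [h3] at hYre
    simp at hYre
  have hC0 : 0 < C := hY0.trans_le hC
  have hY : ((Y x.1).re : ℂ) + (Y x.1).im * I = Y x.1 := Complex.re_add_im _
  have he1 : 19 / 20 ≤ ‖1 + e‖ := by
    have h3 : ‖(1 : ℂ)‖ - ‖-e‖ ≤ ‖1 - -e‖ := norm_sub_norm_le _ _
    rw [norm_one, norm_neg, sub_neg_eq_add] at h3
    linarith
  rw [hd, hY, norm_div, norm_mul, norm_mul, Complex.norm_real, Complex.norm_exp_ofReal_mul_I,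
    mul_one, Real.norm_of_nonneg (Real.exp_pos _).le]
  have hE := Real.exp_pos ((1 + p) * x.1.re)
  rw [div_le_div_iff₀ (by positivity) hY0]
  have h5 : Real.exp ((1 + p) * x.1.re) * ‖Y x.1‖ ≤ Real.exp ((1 + p) * x.1.re) * C :=
    mul_le_mul_of_nonneg_left hC hE.le
  have h6 : Real.exp ((1 + p) * x.1.re) * (19 / 20) ≤ Real.exp ((1 + p) * x.1.re) * ‖1 + e‖ :=
    mul_le_mul_of_nonneg_left he1 hE.le
  have h7 : Real.exp ((1 + p) * x.1.re) * (19 / 20) * (2 * C) ≤
      Real.exp ((1 + p) * x.1.re) * ‖1 + e‖ * (2 * C) :=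
    mul_le_mul_of_nonneg_right h6 (by positivity)
  have h8 : 0 < Real.exp ((1 + p) * x.1.re) * C := by positivity
  linarith

end Pool.Agent.MP_ae5b4e_an_AZ
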