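import Pool.Agent.Lib.MP_ae5b4e_an_AZ.G5a

/-! # AZ: lower bounds of the scaled time function relative to the tip, part 2 -/

noncomputable section

namespace Pool.Agent.MP_ae5b4e_an_AZ

open Complex Set Filter Topology Metric MeasureTheory intervalIntegral

variable {k : ℕ} {V Y : ℂ → ℂ} {p X₀ η : ℝ} {c₁ : ℂ} {κ : ℂ → ℂ}

private theorem G5b_E0 (k : ℕ) (p : ℝ) : ‖E0 k p‖ = 1 := by
  unfold E0
  rw [Complex.norm_exp]
  simp

private theorem G5b_fac (k : ℕ) (p : ℝ) (c₁ ζ w : ℂ) :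
    ‖E0 k p * cexp ((1 + p) * ζ) / c₁ * w‖ = Real.exp ((1 + p) * ζ.re) / ‖c₁‖ * ‖w‖ := by
  rw [norm_mul, norm_div, norm_mul, G5b_E0, one_mul, Complex.norm_exp]
  congr 3
  rw [show (1 + (p : ℂ)) = ((1 + p : ℝ) : ℂ) by push_cast; rfl, re_ofReal_mul]

private theorem G5b_cont (h : Sh k V Y) (hk : 1 ≤ k) (hκ : Kap p X₀ η c₁ κ) {z ζ : ℂ}
    (h1 : z ∈ Xk k) (h2 : (z - ζ).re < X₀) : ContinuousAt (fun z => κ (z - ζ) / Y z) z := by
  have a1 : ContinuousAt (fun z : ℂ => κ (z - ζ)) z :=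
    ContinuousAt.comp (f := fun z : ℂ => z - ζ) (hκ.an _ h2).continuousAt (by fun_prop)
  refine a1.div (h.Y_an _ h1).continuousAt ?_
  intro h0
  have h4 := (h.re_mem h1).1
  have hk' : (1 : ℝ) ≤ k := by exact_mod_cast hk
  have hpi := Real.pi_pos
  rw [h0, zero_re] at h4
  nlinarith

private theorem G5b_re (k : ℕ) (z : ℂ) (t : ℝ) :
    (tip k + t * (z - tip k)).re = U0 + t * (z.re - U0) := by
  rw [add_re, re_ofReal_mul, sub_re, v6b_tip_re]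

private theorem G5b_im (k : ℕ) (z : ℂ) (t : ℝ) :
    (tip k + t * (z - tip k)).im = Wk k + t * (z.im - Wk k) := by
  rw [add_im, im_ofReal_mul, sub_im, v6b_tip_im]

private theorem G5b_pt {R₀ : ℝ} (hR : U0 + 1 - R₀ < X₀) {z ζ : ℂ}
    (h1 : z ∈ Xk k) (h2 : z.re ≤ U0 + 1) (h3 : |(1 + p) * (z.im - Wk k)| ≤ 1 / 20)
    (h4 : R₀ < ζ.re) {t : ℝ} (h0 : 0 < t) (ht : t ≤ 1) :
    tip k + t * (z - tip k) ∈ Xk k ∧ (tip k + t * (z - tip k) - ζ).re < X₀ ∧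
      |(1 + p) * ((tip k + t * (z - tip k)).im - Wk k)| ≤ 1 / 20 := by
  refine ⟨Xk_seg h1 h0 ht, ?_, ?_⟩
  · rw [sub_re, G5b_re]
    have h5 : t * (z.re - U0) ≤ t * 1 := mul_le_mul_of_nonneg_left (by linarith) h0.le
    linarith
  · rw [G5b_im, show (1 + p) * (Wk k + t * (z.im - Wk k) - Wk k) =
      t * ((1 + p) * (z.im - Wk k)) by ring, abs_mul, abs_of_pos h0]
    have h5 : t * |(1 + p) * (z.im - Wk k)| ≤ 1 * |(1 + p) * (z.im - Wk k)| :=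
      mul_le_mul_of_nonneg_right ht (abs_nonneg _)
    linarith

private theorem G5b_dist (k : ℕ) (z : ℂ) {t : ℝ} (h0 : 0 < t) :
    ‖tip k + t * (z - tip k) - tip k‖ = t * ‖z - tip k‖ := by
  rw [add_sub_cancel_left, norm_mul, norm_real, Real.norm_of_nonneg h0.le]

private theorem G5b_small (hκ : Kap p X₀ η c₁ κ) {R₀ : ℝ} {T : ℂ × ℂ → ℂ} {θt : ℂ → ℂ} {Ct : ℝ}
    (ht : Tip k p R₀ T θt Ct) {z ζ : ℂ} (h1 : z ∈ Xk k) (h4 : R₀ < ζ.re) {s : ℝ} (h0 : 0 < s)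
    (hs : s ≤ 1) (hd : s * ‖z - tip k‖ ≤ 1 / 2) :
    ‖wT k p c₁ T θt (tip k + s * (z - tip k), ζ)‖ ≤ |Ct| / ‖c₁‖ * (s * ‖z - tip k‖) := by
  have hc : 0 < ‖c₁‖ := norm_pos_iff.2 hκ.c₁_ne
  have e3 := ht.2 (tip k + s * (z - tip k), ζ) (Xk_seg h1 h0 hs)
    (by
      show ‖tip k + s * (z - tip k) - tip k‖ ≤ 1 / 2
      rw [G5b_dist k z h0]
      exact hd) h4
  change ‖T (tip k + s * (z - tip k), ζ) - θt ζ‖ ≤ Ct * Real.exp (-((1 + p) * ζ.re)) *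
    ‖tip k + s * (z - tip k) - tip k‖ at e3
  rw [G5b_dist k z h0] at e3
  unfold wT
  rw [G5b_fac]
  have e4 : Real.exp ((1 + p) * ζ.re) / ‖c₁‖ * ‖T (tip k + s * (z - tip k), ζ) - θt ζ‖ ≤
      Real.exp ((1 + p) * ζ.re) / ‖c₁‖ *
        (|Ct| * Real.exp (-((1 + p) * ζ.re)) * (s * ‖z - tip k‖)) := by
    refine mul_le_mul_of_nonneg_left (e3.trans ?_) (by positivity)
    have := le_abs_self Ct
    gcongr
  refine e4.trans (le_of_eq ?_)
  rw [Real.exp_neg]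
  have e5 := (Real.exp_pos ((1 + p) * ζ.re)).ne'
  field_simp

private theorem G5b_choice {D K ε σ : ℝ} (hD : 0 ≤ D) (hK : 0 ≤ K) (hε : 0 < ε) (hσ : 0 < σ) :
    ∃ s : ℝ, 0 < s ∧ s ≤ 1 ∧ s ≤ σ ∧ s * D ≤ 1 / 2 ∧ K * s < ε := by
  obtain ⟨s, hs⟩ : ∃ s, s = min (min 1 σ) (min (1 / (2 * (D + 1))) (ε / (K + 1))) := ⟨_, rfl⟩
  have h0 : 0 < s := by
    rw [hs]
    exact lt_min (lt_min one_pos hσ) (lt_min (by positivity) (by positivity))
  have h1 : s ≤ 1 := by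
    rw [hs]
    exact (min_le_left _ _).trans (min_le_left _ _)
  have h2 : s ≤ σ := by
    rw [hs]
    exact (min_le_left _ _).trans (min_le_right _ _)
  have h3 : s ≤ 1 / (2 * (D + 1)) := by
    rw [hs]
    exact (min_le_right _ _).trans (min_le_left _ _)
  have h4 : s ≤ ε / (K + 1) := by
    rw [hs]
    exact (min_le_right _ _).trans (min_le_right _ _)
  rw [le_div_iff₀ (by positivity)] at h3 h4
  refine ⟨s, h0, h1, h2, ?_, ?_⟩
  · nlinarith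
  · nlinarith

/-- Along a segment from the tip. Put `q s := wT (tip k + s (om - tip k), ζ)`, `0 < s ≤ 1`.

Proof. `q' (s) = (om - tip) dn (tip + s (om - tip), ζ)` (`wT_der`; the points are in `DT`: `Xk_seg`,
`Re (..) - Re ζ ≤ U0 + 1 - R₀ < X₀`), so `q 1 - q s = (om - tip) ∫_s^1 dn` (`integral_eq_sub_of_hasDerivAt`), and
`- ∫_s^1 dn ∈ Cn` (`dn_left`, `Cn_integral`). -/
theorem wT_seg (h : Sh k V Y) (hk : 1 ≤ k) (hκ : Kap p X₀ η c₁ κ) {R₀ : ℝ} {T : ℂ × ℂ → ℂ}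
    {θZ θt : ℂ → ℂ} (hT : TT k X₀ R₀ κ Y T θZ) (hR : U0 + 1 - R₀ < X₀) {Ct : ℝ}
    (ht : Tip k p R₀ T θt Ct) {z ζ : ℂ} (h1 : z ∈ Xk k) (h2 : z.re ≤ U0 + 1)
    (h3 : |(1 + p) * (z.im - Wk k)| ≤ 1 / 20) (h4 : R₀ < ζ.re) {s : ℝ} (hs : 0 < s) (hs1 : s ≤ 1) :
    IntervalIntegrable (fun t : ℝ => -dn k p c₁ κ Y (tip k + t * (z - tip k), ζ)) volume s 1 ∧
    wT k p c₁ T θt (z, ζ) - wT k p c₁ T θt (tip k + s * (z - tip k), ζ) =
      -((z - tip k) * ∫ t in s..1, -dn k p c₁ κ Y (tip k + t * (z - tip k), ζ)) ∧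
    (∀ t ∈ Icc s 1, -dn k p c₁ κ Y (tip k + t * (z - tip k), ζ) ∈ Cn) := by
  have hp := hκ.p_pos
  have hpt := fun (t : ℝ) (hu : t ∈ Icc s 1) =>
    G5b_pt hR h1 h2 h3 h4 (t := t) (hs.trans_le hu.1) hu.2
  have hder : ∀ t ∈ Icc s 1, HasDerivAt
      (fun t : ℝ => wT k p c₁ T θt (tip k + t * (z - tip k), ζ))
      (dn k p c₁ κ Y (tip k + t * (z - tip k), ζ) * (z - tip k)) t := fun t hu => by
    obtain ⟨b1, b2, b3⟩ := hpt t hu
    have a1 := (wT_der (c₁ := c₁) h hk hκ hT ht (x := (tip k + t * (z - tip k), ζ))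
      ⟨b1, b2, Or.inr h4⟩ h4).2.1
    have a2 : HasDerivAt (fun t : ℝ => tip k + (t : ℂ) * (z - tip k)) (z - tip k) t := by
      have a3 := ((hasDerivAt_id t).ofReal_comp.mul_const (z - tip k)).const_add (tip k)
      simpa using a3
    exact HasDerivAt.comp t a1 a2
  have hcont : ContinuousOn (fun t : ℝ => dn k p c₁ κ Y (tip k + t * (z - tip k), ζ))
      (Icc s 1) := by
    intro t hu
    obtain ⟨b1, b2, b3⟩ := hpt t hu
    have a1 := G5b_cont h hk hκ b1 b2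
    have a2 : ContinuousAt (fun t : ℝ => tip k + (t : ℂ) * (z - tip k)) t := by fun_prop
    have a3 := ContinuousAt.comp (f := fun t : ℝ => tip k + (t : ℂ) * (z - tip k)) a1 a2
    exact (a3.const_mul (E0 k p * cexp ((1 + p) * ζ) / c₁)).continuousWithinAt
  have hint : IntervalIntegrable (fun t : ℝ => dn k p c₁ κ Y (tip k + t * (z - tip k), ζ))
      volume s 1 := by
    refine ContinuousOn.intervalIntegrable ?_
    rwa [Set.uIcc_of_le hs1]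
  refine ⟨hint.neg, ?_, fun t hu => ?_⟩
  · have hftc : ∫ t in s..1, dn k p c₁ κ Y (tip k + t * (z - tip k), ζ) * (z - tip k) =
        wT k p c₁ T θt (tip k + (1 : ℝ) * (z - tip k), ζ) -
          wT k p c₁ T θt (tip k + s * (z - tip k), ζ) := by
      refine integral_eq_sub_of_hasDerivAt
        (f := fun t : ℝ => wT k p c₁ T θt (tip k + t * (z - tip k), ζ))
        (fun t hu => ?_) (hint.mul_const (z - tip k))
      rw [Set.uIcc_of_le hs1] at hu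
      exact hder t hu
    have e1 : tip k + ((1 : ℝ) : ℂ) * (z - tip k) = z := by
      rw [ofReal_one]
      ring
    rw [e1, intervalIntegral.integral_mul_const] at hftc
    rw [← hftc, intervalIntegral.integral_neg]
    ring
  · obtain ⟨b1, b2, b3⟩ := hpt t hu
    exact dn_left h hk hκ b1 b2 b3

/-- Direction. Proof. `z ≠ tip k` (`tip k ∉ Xk k`). For `s → 0`: `wT (tip + s (z - tip), ζ) → 0` (`Tip`: the norm of the time
relative to the tip is `≤ Ct exp (- (1 + p) Re ζ) s ‖z - tip‖` as soon as `s ‖z - tip‖ ≤ 1 / 2`), and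
`- (wT (z, ζ) - wT (tip + s ..)) / (z - tip) ∈ Cn` by `wT_seg`, `Cn_integral`; `Cn` is closed. -/
theorem wT_dir (h : Sh k V Y) (hk : 1 ≤ k) (hκ : Kap p X₀ η c₁ κ) {R₀ : ℝ} {T : ℂ × ℂ → ℂ}
    {θZ θt : ℂ → ℂ} (hT : TT k X₀ R₀ κ Y T θZ) (hR : U0 + 1 - R₀ < X₀) {Ct : ℝ}
    (ht : Tip k p R₀ T θt Ct) {z ζ : ℂ} (h1 : z ∈ Xk k) (h2 : z.re ≤ U0 + 1)
    (h3 : |(1 + p) * (z.im - Wk k)| ≤ 1 / 20) (h4 : R₀ < ζ.re) :
    -(wT k p c₁ T θt (z, ζ) / (z - tip k)) ∈ Cn := by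
  have hp := hκ.p_pos
  have hc : 0 < ‖c₁‖ := norm_pos_iff.2 hκ.c₁_ne
  have hne : z - tip k ≠ 0 := by
    intro h0
    rw [sub_eq_zero.1 h0] at h1
    rcases h1 with h5 | h5 | h5
    · rw [v6b_tip_im] at h5
      exact absurd (le_abs_self (Wk k)) (not_le.2 h5)
    · rw [v6b_tip_re] at h5
      exact lt_irrefl _ h5
    · rw [v6b_tip_im] at h5
      exact lt_irrefl _ h5
  have hD : 0 < ‖z - tip k‖ := norm_pos_iff.2 hne
  rw [← isClosed_Cn.closure_eq, Metric.mem_closure_iff]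
  intro ε hε
  obtain ⟨s, hs0, hs1, -, hs2, hs3⟩ := G5b_choice (D := ‖z - tip k‖) (K := |Ct| / ‖c₁‖)
    (norm_nonneg _) (by positivity) hε one_pos
  obtain ⟨i1, i2, i3⟩ := wT_seg h hk hκ hT hR ht h1 h2 h3 h4 hs0 hs1
  have i4 := Cn_integral hs1 i1 i3
  refine ⟨_, i4, ?_⟩
  have e1 : -(wT k p c₁ T θt (z, ζ) / (z - tip k)) -
      (∫ t in s..1, -dn k p c₁ κ Y (tip k + t * (z - tip k), ζ)) =
      -(wT k p c₁ T θt (tip k + s * (z - tip k), ζ) / (z - tip k)) := by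
    rw [sub_eq_iff_eq_add] at i2
    rw [i2]
    field_simp
    ring
  rw [dist_eq_norm, e1, norm_neg, norm_div, div_lt_iff₀ hD]
  refine (G5b_small hκ ht h1 h4 hs0 hs1 hs2).trans_lt ?_
  rw [← mul_assoc]
  exact mul_lt_mul_of_pos_right hs3 hD

/-- LOWER BOUND, uniform in `ζ`.

Proof. `C` from `Sh_bdd` (`d / 2`, `M = ‖tip k‖ + d`), `m := d / 4 * exp ((1 + p) (U0 - d)) / (2 C)`. Let `D := ‖z - tip‖ ≥ d`,
`s₁ := d / (2 D)`, `s₂ := d / D ≤ 1`. For `t ∈ [s₁, s₂]` the point `z_t := tip + t (z - tip)` has distance in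
`[d / 2, d]` from the tip, so `0 < Im z_t` (`|Im z_t - W| ≤ 1 / 20`), `Re z_t ≥ U0 - d`, `‖Y z_t‖ ≤ C` and
`Im (- dn) ≥ ‖dn‖ / 2 ≥ m' := exp ((1 + p) (U0 - d)) / (4 C)` (`norm_dn_ge`, `Cn_norm`). For small `s`
(`s < s₁`) `Im ∫_s^1 (- dn) ≥ ∫_{s₁}^{s₂} Im (- dn) ≥ (s₂ - s₁) m' = d / (2 D) m'` (the integrand has imaginary
part `≥ 0`), so `‖wT (z, ζ) - wT (z_s, ζ)‖ ≥ D * d / (2 D) m' = d m' / 2`; let `s → 0` (`Tip`). -/
theorem wT_lower (h : Sh k V Y) (hk : 1 ≤ k) (hκ : Kap p X₀ η c₁ κ) {d : ℝ} (hd : 0 < d)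
    (hd1 : (1 + p) * d ≤ 1 / 20) : ∃ m : ℝ, 0 < m ∧
      ∀ (R₀ : ℝ) (T : ℂ × ℂ → ℂ) (θZ θt : ℂ → ℂ) (Ct : ℝ), TT k X₀ R₀ κ Y T θZ →
        U0 + 1 - R₀ < X₀ → Tip k p R₀ T θt Ct → ∀ z ζ : ℂ, z ∈ Xk k → z.re ≤ U0 + 1 →
          |(1 + p) * (z.im - Wk k)| ≤ 1 / 20 → R₀ < ζ.re → d ≤ ‖z - tip k‖ →
            m ≤ ‖wT k p c₁ T θt (z, ζ)‖ := by
  have hp := hκ.p_pos
  have hc : 0 < ‖c₁‖ := norm_pos_iff.2 hκ.c₁_ne
  obtain ⟨C, hC, hCb⟩ := Sh_bdd h hk (d := d / 2) (by linarith) (‖tip k‖ + d)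
  obtain ⟨m', hm'⟩ : ∃ m', m' = Real.exp ((1 + p) * (U0 - d)) / (4 * C) := ⟨_, rfl⟩
  have hm0 : 0 < m' := by
    rw [hm']
    positivity
  refine ⟨d * m' / 2, by positivity, ?_⟩
  intro R₀ T θZ θt Ct hT hR ht z ζ h1 h2 h3 h4 h5
  obtain ⟨D, hDd⟩ : ∃ D, D = ‖z - tip k‖ := ⟨_, rfl⟩
  rw [← hDd] at h5
  have hD : 0 < D := hd.trans_le h5
  have hs12 : d / (2 * D) ≤ d / D := by
    apply div_le_div_of_nonneg_left hd.le hD
    linarith
  have hs1 : 0 < d / (2 * D) := by positivity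
  have hs2 : d / D ≤ 1 := by
    rw [div_le_one hD]
    exact h5
  have key : ∀ t ∈ Icc (d / (2 * D)) (d / D),
      m' ≤ (-dn k p c₁ κ Y (tip k + t * (z - tip k), ζ)).im := by
    intro t hu
    have ht0 : 0 < t := hs1.trans_le hu.1
    have ht1 : t ≤ 1 := hu.2.trans hs2
    obtain ⟨b1, b2, b3⟩ := G5b_pt hR h1 h2 h3 h4 ht0 ht1
    have c1 := G5b_dist k z ht0
    rw [← hDd] at c1
    have c2 : d / 2 ≤ t * D := by
      have := (div_le_iff₀ (by positivity)).1 hu.1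
      linarith
    have c3 : t * D ≤ d := (le_div_iff₀ hD).1 hu.2
    have c4 : 0 < (tip k + t * (z - tip k)).im := by
      have hW := Wk_ge hk
      have hpi := Real.pi_gt_three
      rw [abs_mul, abs_of_pos (by linarith : 0 < 1 + p)] at b3
      have c5 : |(tip k + t * (z - tip k)).im - Wk k| ≤ 1 / 20 := by
        nlinarith [abs_nonneg ((tip k + t * (z - tip k)).im - Wk k)]
      have := (abs_le.1 c5).1
      linarith
    have c6 : ‖tip k + t * (z - tip k)‖ ≤ ‖tip k‖ + d := by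
      have c7 := norm_add_le (tip k) (tip k + t * (z - tip k) - tip k)
      rw [add_sub_cancel] at c7
      linarith
    have c8 := hCb _ b1 c4 c6 (by rw [c1]; exact c2)
    have c9 : U0 - d ≤ (tip k + t * (z - tip k)).re := by
      have d1 := Complex.abs_re_le_norm (tip k + t * (z - tip k) - tip k)
      rw [c1, sub_re, v6b_tip_re] at d1
      have := (abs_le.1 (d1.trans c3)).1
      linarith
    have d2 := norm_dn_ge h hk hκ (x := (tip k + t * (z - tip k), ζ)) b1 b2 c8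
    have d3 := Cn_norm (dn_left h hk hκ (x := (tip k + t * (z - tip k), ζ)) b1 b2 b3)
    rw [norm_neg] at d3
    have d4 : Real.exp ((1 + p) * (U0 - d)) ≤
        Real.exp ((1 + p) * (tip k + t * (z - tip k)).re) :=
      Real.exp_le_exp.2 (mul_le_mul_of_nonneg_left c9 (by linarith))
    have d5 : Real.exp ((1 + p) * (U0 - d)) / (2 * C) ≤
        Real.exp ((1 + p) * (tip k + t * (z - tip k)).re) / (2 * C) :=
      div_le_div_of_nonneg_right d4 (by positivity)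
    have d6 : 2 * m' = Real.exp ((1 + p) * (U0 - d)) / (2 * C) := by
      rw [hm']
      field_simp
      ring
    change Real.exp ((1 + p) * (tip k + t * (z - tip k)).re) / (2 * C) ≤ _ at d2
    linarith
  refine le_of_forall_pos_le_add fun ε hε => ?_
  obtain ⟨s, hs0, hsle, hsσ, hsd, hsε⟩ := G5b_choice (D := D) (K := |Ct| / ‖c₁‖ * D)
    hD.le (by positivity) hε hs1
  obtain ⟨i1, i2, i3⟩ := wT_seg h hk hκ hT hR ht h1 h2 h3 h4 hs0 hsle
  obtain ⟨J, hJ⟩ : ∃ J, J = ∫ t in s..1, -dn k p c₁ κ Y (tip k + t * (z - tip k), ζ) :=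
    ⟨_, rfl⟩
  rw [← hJ] at i2
  have hJim : J.im = ∫ t in s..1, (-dn k p c₁ κ Y (tip k + t * (z - tip k), ζ)).im := by
    rw [hJ]
    exact (imCLM.intervalIntegral_comp_comm i1).symm
  have i4 : IntervalIntegrable (fun t : ℝ => (-dn k p c₁ κ Y (tip k + t * (z - tip k), ζ)).im)
      volume s 1 := ⟨i1.1.im, i1.2.im⟩
  have hnn : ∀ t ∈ Icc s 1, 0 ≤ (-dn k p c₁ κ Y (tip k + t * (z - tip k), ζ)).im := by
    intro t hu
    have d3 := Cn_norm (i3 t hu)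
    linarith [norm_nonneg (-dn k p c₁ κ Y (tip k + t * (z - tip k), ζ))]
  have j1 : ∫ t in (d / (2 * D))..(d / D), (-dn k p c₁ κ Y (tip k + t * (z - tip k), ζ)).im ≤
      ∫ t in s..1, (-dn k p c₁ κ Y (tip k + t * (z - tip k), ζ)).im := by
    refine intervalIntegral.integral_mono_interval hsσ hs12 hs2 ?_ i4
    refine (ae_restrict_iff' measurableSet_Ioc).2 (Eventually.of_forall fun t hu => ?_)
    exact hnn t ⟨hu.1.le, hu.2⟩
  have i5 : IntervalIntegrable (fun t : ℝ => (-dn k p c₁ κ Y (tip k + t * (z - tip k), ζ)).im)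
      volume (d / (2 * D)) (d / D) := by
    refine i4.mono_set ?_
    rw [Set.uIcc_of_le hs12, Set.uIcc_of_le hsle]
    exact Icc_subset_Icc hsσ hs2
  have j2 : ∫ _t in (d / (2 * D))..(d / D), m' ≤
      ∫ t in (d / (2 * D))..(d / D), (-dn k p c₁ κ Y (tip k + t * (z - tip k), ζ)).im :=
    intervalIntegral.integral_mono_on hs12 intervalIntegrable_const i5 key
  rw [intervalIntegral.integral_const, smul_eq_mul] at j2
  have j3 : (d / D - d / (2 * D)) * m' ≤ J.im := by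
    rw [hJim]
    linarith
  have j4 : D * ((d / D - d / (2 * D)) * m') = d * m' / 2 := by
    field_simp
    ring
  have j5 : D * ((d / D - d / (2 * D)) * m') ≤ D * ‖J‖ :=
    mul_le_mul_of_nonneg_left (j3.trans ((le_abs_self _).trans (Complex.abs_im_le_norm J))) hD.le
  have j6 : ‖wT k p c₁ T θt (z, ζ) - wT k p c₁ T θt (tip k + s * (z - tip k), ζ)‖ = D * ‖J‖ := by
    rw [i2, norm_neg, norm_mul, hDd]
  have j7 := norm_sub_le (wT k p c₁ T θt (z, ζ)) (wT k p c₁ T θt (tip k + s * (z - tip k), ζ))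
  have j8 := G5b_small hκ ht h1 h4 hs0 hsle (by rw [← hDd]; exact hsd)
  rw [← hDd] at j8
  have j9 : |Ct| / ‖c₁‖ * (s * D) = |Ct| / ‖c₁‖ * D * s := by ring
  linarith

end Pool.Agent.MP_ae5b4e_an_AZ
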