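import Pool.Agent.Lib.MP_ae5b4e_an_T.T4Z

/-!
# POR (iii), (Z'): the data of a point `Z_k` of the line, as they come from block T (`T.slit_Zx`)
-/

noncomputable section

namespace Pool.Agent.MP_ae5b4e_an_AZ

open Complex Set Filter Topology Metric
open Pool.Agent.MP_ae5b4e_an_WB
open Pool.Agent.MP_ae5b4e_an_WD
open Pool.Agent.MP_ae5b4e_an_T

/-- THE DATA OF A POINT `Z_k`: slit neighbourhood `Slb Tb ζ γ R ρ`, coordinate `Zf` (the logarithm of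
`(-1)^k w`), label `lb (Zf p, p.2)`, `γ ∂_τ` label `alZ k Y (Zf p, p.2)`; `lam` = chart of the zero `l` -/
structure ZC (q : ℂ → ℂ) (vi : ℂ → ℝ) (L : ℂ × ℂ → ℂ) (γ : ℝ) (ζ : ℂ) (Tb : ℂ → ℂ) (l : ℂ) (k : ℕ)
    (R ρ : ℝ) (μ : ℕ) (lam : ℂ → ℂ) (r M ρ0 : ℝ) (Y : ℂ → ℂ) (c1 k0 : ℂ) (K lb Zf : ℂ × ℂ → ℂ) :
    Prop where
  low : l.im < 0
  k_pos : 1 ≤ k
  chart : ZChart q l μ lam r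
  Y_an : AnalyticOnNhd ℂ Y (DZ M)
  Y_eq : ∀ x ∈ DZ M, sin (Y x) ≠ 0 ∧ G (Y x) = (-1) ^ k * exp x
  Y_lim : Tendsto Y (comap re atBot) (𝓝 (k * Real.pi))
  c1_eq : c1 ^ μ * (γ : ℂ) ^ 2 = 1
  mod : Mod q (DZ M) (1 + 2 / μ) k0 γ ρ0 K lb (alZ k Y)
  lbd : ∀ p ∈ DZ M ×ˢ ball (γ : ℂ) ρ0, lb p ≠ l ∧ p.2 ^ 2 * q (lb p) = exp (2 * p.1) ∧
    lb p = lam (ccf c1 μ γ p) ∧ ccf c1 μ γ p ∈ ball (0 : ℂ) r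
  ρ_le : ρ ≤ ρ0
  sln : SlN vi L γ ζ Tb R ρ (fun p => lb (Zf p, p.2))
  Z_an : AnalyticOnNhd ℂ Zf (Slb Tb ζ γ R ρ)
  Z_eq : ∀ p ∈ Slb Tb ζ γ R ρ, Zf p ∈ DZ M ∧ Tm (1 + 2 / μ) K (Zf p, p.2) = p.1 - Tb p.2
  st : ∀ p ∈ Slb Tb ζ γ R ρ, p ∈ Dv vi → lb (Zf p, p.2) = L p ∧ alZ k Y (Zf p, p.2) = p.2 * dt L p

/-- `ζ` is a point of type `Z_k` of the slice `γ`, with the branch point function `Tb` -/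
def ZO (q : ℂ → ℂ) (vi : ℂ → ℝ) (L : ℂ × ℂ → ℂ) (γ : ℝ) (ζ : ℂ) (Tb : ℂ → ℂ) (l : ℂ) (k : ℕ) :
    Prop :=
  ∃ (R ρ : ℝ) (μ : ℕ) (lam : ℂ → ℂ) (r M ρ0 : ℝ) (Y : ℂ → ℂ) (c1 k0 : ℂ) (K lb Zf : ℂ × ℂ → ℂ),
    ZC q vi L γ ζ Tb l k R ρ μ lam r M ρ0 Y c1 k0 K lb Zf

/-- `T.slit_Z` with the additional conclusion `ZO` -/
theorem slit_ZO {q : ℂ → ℂ} {C : ℝ} {vi : ℂ → ℝ} {L : ℂ × ℂ → ℂ} (h : Lb q C vi L) {γ : ℝ}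
    (hγ : 0 < γ) (hqn : ∃ z ∈ Hm, ∃ z' ∈ Hm, q z ≠ q z') {x : ℝ} {l : ℂ} (hl : l.im < 0) {k : ℕ}
    (hZ : ZkAt q γ (vi γ) (fun τ => L (τ, γ)) x l k) {ε : ℝ} (hε : 0 < ε) :
    ∃ (Tb : ℂ → ℂ) (Λ : ℂ × ℂ → ℂ) (R ρ : ℝ), R < ε ∧
      SlN vi L γ ((x : ℂ) - vi γ * I) Tb R ρ Λ ∧
      (∀ p ∈ Slb Tb ((x : ℂ) - vi γ * I) γ R ρ, ‖Λ p - l‖ < ε) ∧
      ZAt q (Dv vi) L γ ((x : ℂ) - vi γ * I) l k ∧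
      (∀ u : ℂ, 0 < u.re → ∀ (μ : ℕ) (lam : ℂ → ℂ) (r : ℝ), ZChart q l μ lam r →
        ∃ s1 : ℝ, 0 < s1 ∧ ∀ s ∈ Ioc (0 : ℝ) s1, ∃ δ : ℝ, 0 < δ ∧
          ∀ τ ∈ ball ((x : ℂ) - vi γ * I - I * s) δ, (τ, (γ : ℂ)) ∈ Dv vi ∧
            ∃ c : ℂ, ZGerm q (Dv vi) L γ u μ lam τ c (fun z => Tb (γ * exp (u * z)))) ∧
      ZO q vi L γ ((x : ℂ) - vi γ * I) Tb l k := by
  obtain ⟨Tb, Λ, R, ρ, h1, h2, h3, h4, h5, μ, lam, r, M, ρ0, Y, c1, k0, K, lb, Zf, k1, k2, k3, k4, k5,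
    k6, k7, k8, k9, k10, k11, k12⟩ := slit_Zx h hγ hqn hl hZ hε
  refine ⟨Tb, Λ, R, ρ, h1, h2, h3, h4, h5, R, ρ, μ, lam, r, M, ρ0, Y, c1, k0, K, lb, Zf, ?_⟩
  have hΛ : Λ = fun p => lb (Zf p, p.2) := funext k9
  exact ⟨hl, hZ.2.2.1, k1, k2, k3, k4, k5, k6, fun p hp => ⟨(k7 p hp).2.1, (k7 p hp).2.2.1,
    (k7 p hp).2.2.2.1, (k7 p hp).2.2.2.2⟩, k8, hΛ ▸ h2, k10, k11, k12⟩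

end Pool.Agent.MP_ae5b4e_an_AZ
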