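import Pool.Agent.Lib.MP_ae5b4e_an_AZ.IdC
import Pool.Agent.Lib.MP_ae5b4e_an_AZ.F5
import Pool.Agent.Lib.MP_ae5b4e_an_AZ.ZO

/-!
# POR, (Z'), identification: the window label near a point `Z_k` is the family of AZ
-/

noncomputable section

namespace Pool.Agent.MP_ae5b4e_an_AZ

open Complex Set Filter Topology Metric MeasureTheory
open Pool.Agent.MP_ae5b4e_an_WB (G)
open Pool.Agent.MP_ae5b4e_an_WD (ZChart)
open Pool.Agent.MP_ae5b4e_an_T (Slb Mod Tm ccf cgf alZ)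

variable {q : ℂ → ℂ} {l : ℂ} {k : ℕ} {γ0 : ℝ} {ζ : ℂ} {Tb : ℂ → ℂ} {R ρ : ℝ} {Λ : ℂ × ℂ → ℂ}
  {μ : ℕ} {lam : ℂ → ℂ} {r M ρ0 : ℝ} {Y : ℂ → ℂ} {c1 k0 : ℂ} {K lb Zf : ℂ × ℂ → ℂ}

/-- an argument near a given number -/
theorem id_arg (a : ℂ) (t : ℝ) : ∃ b : ℝ, a = ‖a‖ * cexp (b * I) ∧ |b - t| ≤ Real.pi := by
  have hpi := Real.pi_pos
  obtain ⟨n, hn⟩ : ∃ n : ℤ, n = round ((t - arg a) / (2 * Real.pi)) := ⟨_, rfl⟩
  refine ⟨arg a + n * (2 * Real.pi), ?_, ?_⟩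
  · have e1 : (((arg a + n * (2 * Real.pi) : ℝ)) : ℂ) * I = arg a * I + n * (2 * Real.pi * I) := by
      push_cast
      ring
    rw [e1, Complex.exp_add, Complex.exp_int_mul_two_pi_mul_I, mul_one,
      Complex.norm_mul_exp_arg_mul_I]
  · have h1 := abs_sub_round ((t - arg a) / (2 * Real.pi))
    rw [← hn] at h1
    have e1 : arg a + n * (2 * Real.pi) - t =
        -(((t - arg a) / (2 * Real.pi) - n) * (2 * Real.pi)) := by
      field_simp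
      ring
    rw [e1, abs_neg, abs_mul, abs_of_pos (by positivity : 0 < 2 * Real.pi)]
    calc |(t - arg a) / (2 * Real.pi) - n| * (2 * Real.pi) ≤ 1 / 2 * (2 * Real.pi) :=
          mul_le_mul_of_nonneg_right h1 (by positivity)
      _ = Real.pi := by ring

/-- from the structure `ZC` -/
theorem ZC.zsd {vi : ℂ → ℝ} {L : ℂ × ℂ → ℂ} (hγ : 0 < γ0)
    (h : ZC q vi L γ0 ζ Tb l k R ρ μ lam r M ρ0 Y c1 k0 K lb Zf) :
    ZSd q l k γ0 ζ Tb R ρ (fun p => lb (Zf p, p.2)) μ lam r M ρ0 Y c1 k0 K lb Zf :=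
  ⟨hγ, h.k_pos, h.sln.pos, h.sln.le, h.sln.Tan, h.sln.T0, h.chart, h.Y_an, h.Y_eq, h.Y_lim, h.c1_eq,
    h.mod, fun p hp => (h.lbd p hp).2.2, h.ρ_le, fun _ => rfl, h.Z_an, h.Z_eq⟩

/-- the last step: `z = stz` is the state of the slit neighbourhood -/
private theorem idd_state (h : ZSd q l k γ0 ζ Tb R ρ Λ μ lam r M ρ0 Y c1 k0 K lb Zf) (m : ℤ)
    {c X : ℂ} (hc : ‖c - zt1 k γ0‖ < 3) (hcb : sgm k c ∈ ball (γ0 : ℂ) ρ0) (hX : X.re < -M)
    {Y' : ℂ → ℂ} (hY : Y' (X + m * (2 * Real.pi * I)) = Y X) :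
    stz (2 / μ) (fun z => lam (omg k γ0 c1 μ m * z)) Y' (X + m * (2 * Real.pi * I), c) =
      (lb (X, sgm k c), alZ k Y (X, sgm k c)) := by
  have h1 := (h.lbe (X, sgm k c) ⟨hX, hcb⟩).1
  rw [ccf_eq h.γ_pos h.ch.mu m hc] at h1
  unfold stz
  refine Prod.ext ?_ ?_
  · exact h1.symm
  · show Y' (X + m * (2 * Real.pi * I)) * cexp (c - (X + m * (2 * Real.pi * I))) =
      (-1) ^ k * sgm k c * Y X * cexp (-X)
    have e1 : c - (X + m * (2 * Real.pi * I)) = (c + -X) + ((-m : ℤ) : ℂ) * (2 * Real.pi * I) := by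
      push_cast
      ring
    rw [hY, e1, Complex.exp_add, Complex.exp_int_mul_two_pi_mul_I, mul_one, Complex.exp_add]
    unfold sgm
    linear_combination (-(Y X * cexp c * cexp (-X))) * neg_one_pow_sq k

/-- THE IDENTIFICATION at one point of the region, in terms of bounds of the coordinate. -/
private theorem idd_point (h : ZSd q l k γ0 ζ Tb R ρ Λ μ lam r M ρ0 Y c1 k0 K lb Zf) (m : ℤ)
    {B M' : ℝ} (hMM : M ≤ M')
    (hsh : ∀ x : ℂ, x.re < -M' → |x.im| < B → ∃ v : ℂ, v.re < 0 ∧ v ∈ C1 ∧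
      om1 k v = x + m * (2 * Real.pi * I) ∧ y1 k v = Y x)
    {X₀ η : ℝ} {c₁ : ℂ}
    (hκ : Kap (2 / μ) X₀ η c₁ (kap (2 / μ) (fun z => lam (omg k γ0 c1 μ m * z))))
    {V₀ Y₀ V' Y' : ℂ → ℂ} (hS : Shc k 1 V₀ Y₀ V' Y') {R4 : ℝ} (hR4 : 1 < R4)
    (hJ : ∀ x : ℂ × ℂ, x.1.re + |x.1.im| ≤ -R4 → (x.1 - x.2).re < X₀ →
      0 < (JZ (2 / μ) c₁ (kap (2 / μ) (fun z => lam (omg k γ0 c1 μ m * z))) Y' x).re ∧
        |arg (JZ (2 / μ) c₁ (kap (2 / μ) (fun z => lam (omg k γ0 c1 μ m * z))) Y' x)| ≤ 1 / 4 ∧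
        ‖Y' x.1 - k * Real.pi‖ ≤ 1 / 20)
    {b₁ : ℝ} (hb₁ : c₁ = ‖c₁‖ * cexp (b₁ * I)) {f0 c θ L : ℂ} (hc : ‖c - zt1 k γ0‖ < 1)
    (hcp : 2 / μ * ‖c - zt1 k γ0‖ ≤ 1) (hcb : sgm k c ∈ ball (γ0 : ℂ) ρ) (hθ : θ ≠ 0)
    (hP : (θ * sgm k c + Tb (sgm k c), sgm k c) ∈ Slb Tb ζ γ0 R ρ) (hL : ‖L‖ ≤ 3 / 200) {X : ℂ}
    (hXe : X = Zf (θ * sgm k c + Tb (sgm k c), sgm k c))
    (hX : ((1 + 2 / μ : ℝ) : ℂ) * X = f0 + log (I * θ) + c - L)
    (hbt : |b₁ + (f0.im + 2 * Real.pi * m * (1 + 2 / μ) + Real.pi / 2 -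
      2 / μ * (zt1 k γ0).im)| ≤ Real.pi) (hX1 : X.re < -M') (hX2 : |X.im| < B)
    (hX3 : X.re + (B + 2 * Real.pi * |(m : ℝ)|) < -R4) (hX4 : X.re - c.re < X₀) :
    fJ (2 / μ) (JZ (2 / μ) c₁ (kap (2 / μ) (fun z => lam (omg k γ0 c1 μ m * z))) Y')
        (X + m * (2 * Real.pi * I), c) = fc (2 / μ) b₁ c₁ (θ, c) ∧
      Y' (X + m * (2 * Real.pi * I)) = Y X := by
  have hpi := Real.pi_gt_three
  obtain ⟨κ, hκd⟩ : ∃ κ, κ = kap (2 / μ) (fun z => lam (omg k γ0 c1 μ m * z)) := ⟨_, rfl⟩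
  rw [← hκd] at hκ hJ ⊢
  obtain ⟨w, hw⟩ : ∃ w : ℂ, w = X + m * (2 * Real.pi * I) := ⟨_, rfl⟩
  have hwr : w.re = X.re := by
    rw [hw, add_re]
    simp
  have hwi : w.im = X.im + m * (2 * Real.pi) := by
    rw [hw, add_im]
    simp
  have hwi2 : |w.im| ≤ B + 2 * Real.pi * |(m : ℝ)| := by
    rw [hwi]
    refine (abs_add_le _ _).trans ?_
    rw [abs_mul, abs_of_pos (by positivity : 0 < 2 * Real.pi)]
    linarith
  -- the sheets agree on the left half line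
  have hYs : ∀ s : ℝ, 0 ≤ s → Y' (w - s) = Y (X - s) := by
    intro s hs
    have e1 : (X - (s : ℂ)).re = X.re - s := by rw [sub_re, ofReal_re]
    have e2 : (X - (s : ℂ)).im = X.im := by rw [sub_im, ofReal_im, sub_zero]
    have e3 : (w - (s : ℂ)).re = X.re - s := by rw [sub_re, ofReal_re, hwr]
    have e4 : (w - (s : ℂ)).im = w.im := by rw [sub_im, ofReal_im, sub_zero]
    obtain ⟨v, hv1, hv2, hv3, hv4⟩ := hsh (X - s) (by rw [e1]; linarith) (by rw [e2]; exact hX2)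
    have h1 : (w - (s : ℂ)).re + |(w - (s : ℂ)).im| ≤ -R4 := by
      rw [e3, e4]
      linarith
    have h2 := (hJ (w - s, c) h1 (by
      show (w - (s : ℂ) - c).re < X₀
      rw [sub_re, e3]
      linarith)).2.2
    refine id_shc hS (Or.inr (by linarith)) h2 hv1 ?_ hv4
    rw [hv3, hw]
    ring
  have hY0 : Y' w = Y X := by
    have := hYs 0 le_rfl
    rwa [ofReal_zero, sub_zero, sub_zero] at this
  rw [← hw]
  refine ⟨?_, hY0⟩
  have hσ := sgm_ne k c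
  -- the time
  have hcb0 : sgm k c ∈ ball (γ0 : ℂ) ρ0 := ball_subset_ball h.ρ_le hcb
  have hT := id_time h m (hc.trans (by norm_num)) hcb0 (Y' := Y') (x := X) (by linarith)
    (by rw [← hw]; exact hYs)
  have hZ := (h.Zt _ hP).2
  rw [← hXe] at hZ
  dsimp only at hZ
  rw [add_sub_cancel_right, hT, ← hw, ← hκd, mul_comm θ] at hZ
  have hTZ : TZ κ Y' (w, c) = θ := mul_left_cancel₀ hσ hZ
  obtain ⟨j1, j2, -⟩ := hJ (w, c) (by
    show w.re + |w.im| ≤ -R4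
    rw [hwr]
    linarith) (by
    show (w - c).re < X₀
    rw [sub_re, hwr]
    linarith)
  have hc₁ := hκ.c₁_ne
  have hJ0 : JZ (2 / μ) c₁ κ Y' (w, c) ≠ 0 := by
    intro h0
    rw [h0, zero_re] at j1
    exact lt_irrefl _ j1
  refine eq_of_exp ?_ ?_
  · have e1 : c₁ * cexp (fc (2 / μ) b₁ c₁ (θ, c)) =
        cexp ((1 + ((2 / μ : ℝ) : ℂ)) * c) * θ := fc_exp hc₁ hb₁ hθ
    have e2 : c₁ * cexp (fJ (2 / μ) (JZ (2 / μ) c₁ κ Y') (w, c)) =
        cexp ((1 + ((2 / μ : ℝ) : ℂ)) * c) * θ := by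
      unfold fJ
      rw [Complex.exp_add, Complex.exp_log hJ0]
      unfold JZ
      rw [hTZ]
      have e3 : cexp ((1 + ((2 / μ : ℝ) : ℂ)) * w) = cexp ((1 + ((2 / μ : ℝ) : ℂ)) * c) *
          cexp ((1 + ((2 / μ : ℝ) : ℂ)) * (w - c)) := by
        rw [← Complex.exp_add]
        congr 1
        ring
      dsimp only
      rw [e3]
      have e4 := Complex.exp_ne_zero ((1 + ((2 / μ : ℝ) : ℂ)) * (w - c))
      field_simp
    exact mul_left_cancel₀ hc₁ (e2.trans e1.symm)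
  · have i1 : (fJ (2 / μ) (JZ (2 / μ) c₁ κ Y') (w, c)).im = (1 + 2 / μ) * w.im +
        arg (JZ (2 / μ) c₁ κ Y' (w, c)) := by
      unfold fJ
      rw [add_im, log_im]
      congr 1
      have : (1 : ℂ) + ((2 / μ : ℝ) : ℂ) = ((1 + 2 / μ : ℝ) : ℂ) := by push_cast; rfl
      rw [this, im_ofReal_mul]
    have i2 := fc_im (p := 2 / μ) (b₁ := b₁) (c₁ := c₁) (x := (θ, c))
    have i3 := congrArg im hX
    rw [im_ofReal_mul, sub_im, add_im, add_im, log_im] at i3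
    rw [i1, i2, hwi]
    unfold be
    dsimp only
    obtain ⟨P, hPd⟩ : ∃ P : ℝ, P = 2 / μ := ⟨_, rfl⟩
    rw [← hPd] at i3 hbt hcp ⊢
    have hP0 : 0 ≤ P := by
      rw [hPd]
      positivity
    have i4 : |(c - zt1 k γ0).im| ≤ ‖c - zt1 k γ0‖ := abs_im_le_norm _
    rw [sub_im] at i4
    have i5 : |P * (c.im - (zt1 k γ0).im)| ≤ 1 := by
      rw [abs_mul, abs_of_nonneg hP0]
      exact (mul_le_mul_of_nonneg_left i4 hP0).trans hcp
    have i6 := (abs_im_le_norm L).trans hL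
    have i7 : (1 + P) * (X.im + m * (2 * Real.pi)) + arg (JZ P c₁ κ Y' (w, c)) -
        (arg (I * θ) - Real.pi / 2 + ((1 + P) * c.im - b₁)) =
        (b₁ + (f0.im + 2 * Real.pi * m * (1 + P) + Real.pi / 2 - P * (zt1 k γ0).im)) -
          P * (c.im - (zt1 k γ0).im) - L.im + arg (JZ P c₁ κ Y' (w, c)) := by
      linear_combination i3
    rw [i7]
    rw [← hPd] at j2
    have k1 := abs_le.1 hbt
    have k2 := abs_le.1 i5
    have k3 := abs_le.1 i6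
    have k4 := abs_le.1 j2
    rw [abs_lt]
    constructor
    · linarith [k1.1, k2.2, k3.2, k4.1]
    · linarith [k1.2, k2.1, k3.1, k4.2]

/-- THE IDENTIFICATION (the hypothesis `hid` of `macro_dz`).

Proof. `id_branch` bounds the imaginary part of the coordinate `Zf` on the region; `id_sheet`, `idd_point`. -/
theorem id_hid (h : ZSd q l k γ0 ζ Tb R ρ Λ μ lam r M ρ0 Y c1 k0 K lb Zf) :
    ∃ (ω : ℂ) (b₁ : ℝ), ω ^ μ = 1 ∧ ZChart q l μ (fun z => lam (ω * z)) r ∧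
      deriv (fun z => lam (ω * z)) 0 = ‖deriv (fun z => lam (ω * z)) 0‖ * cexp (b₁ * I) ∧
      ∀ {A B δ R' E rr : ℝ} {θt : ℂ → ℂ} {Ω : Set (ℂ × ℂ)} {z : ℂ × ℂ → ℂ × ℂ},
        ZG q k (2 / μ) (fun z => lam (ω * z)) ((2 / μ : ℝ) * deriv (fun z => lam (ω * z)) 0) b₁
          A B δ R' E rr θt Ω z →
        ∃ e r' : ℝ, 0 < e ∧ 0 < r' ∧ ∀ c ∈ ball (zt1 k γ0) r', ∀ θ : ℂ, ‖θ‖ < 2 * e →
          θ.im < δ * |θ.re| → (θ, c) ∈ Ω ∧ sgm k c ∈ ball (γ0 : ℂ) ρ ∧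
          (θ * sgm k c + Tb (sgm k c), sgm k c) ∈ Slb Tb ζ γ0 R ρ ∧
          z (θ, c) = (lb (Zf (θ * sgm k c + Tb (sgm k c), sgm k c), sgm k c),
            alZ k Y (Zf (θ * sgm k c + Tb (sgm k c), sgm k c), sgm k c)) := by
  have hpi := Real.pi_gt_three
  have hγ := h.γ_pos
  have hμ := h.ch.mu
  have hμr : (0 : ℝ) < μ := by exact_mod_cast hμ
  obtain ⟨e0, r0, f0, he0, hr0, hr1, hbr⟩ := id_branch h
  obtain ⟨β, hβ⟩ : ∃ β : ℝ, β = 1 + 2 / μ := ⟨_, rfl⟩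
  have hβ0 : 1 ≤ β := by
    rw [hβ]
    have : 0 ≤ 2 / (μ : ℝ) := by positivity
    linarith
  obtain ⟨B, hB⟩ : ∃ B : ℝ, B = |f0.im| + Real.pi + |(zt1 k γ0).im| + 3 := ⟨_, rfl⟩
  obtain ⟨m, M', hMM, hsh⟩ := id_sheet h.k_pos h.Yan h.Yeq h.Ylim B
  have hω := omg_pow (k := k) hγ hμ h.c1e m
  have hch := zchart_rot h.ch hω
  obtain ⟨b₁, hb₁, hbt⟩ := id_arg (deriv (fun z => lam (omg k γ0 c1 μ m * z)) 0)
    (-(f0.im + 2 * Real.pi * m * (1 + 2 / μ) + Real.pi / 2 - 2 / μ * (zt1 k γ0).im))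
  rw [sub_neg_eq_add] at hbt
  refine ⟨omg k γ0 c1 μ m, b₁, hω, hch, hb₁, ?_⟩
  intro A B' δ R' E rr θt Ω z hZG
  obtain ⟨R4, X₁, V₀, Y₀, V', Y', hSh, hShc, hR4, hgerm⟩ := hZG.germ
  obtain ⟨r₀, -, -, -, hκ⟩ := kap_of_chart hch (η := 1 / 20) (by norm_num) le_rfl
  obtain ⟨X₀, hX₀⟩ : ∃ X₀ : ℝ, X₀ = Real.log r₀ / (2 / μ) := ⟨_, rfl⟩
  rw [← hX₀] at hκ
  obtain ⟨R4', hR4', hJ⟩ := JZ_cone (V := V₀) (Y := Y₀) h.k_pos hκ
  obtain ⟨e1, he1, hg⟩ := hgerm (zt1 k γ0)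
  obtain ⟨e2, he2, hn⟩ := hZG.near (zt1 k γ0)
  have hc₁ : ((2 / μ : ℝ) : ℂ) * deriv (fun z => lam (omg k γ0 c1 μ m * z)) 0 =
      ‖((2 / μ : ℝ) : ℂ) * deriv (fun z => lam (omg k γ0 c1 μ m * z)) 0‖ * cexp (b₁ * I) := by
    have h2 : ‖((2 / μ : ℝ) : ℂ)‖ = 2 / μ := by
      rw [Complex.norm_real, Real.norm_of_nonneg (by positivity)]
    rw [norm_mul, h2]
    conv_lhs => rw [hb₁]
    push_cast
    ring
  obtain ⟨Q, hQ⟩ : ∃ Q : ℝ, Q = |M'| + |R4| + |R4'| + (B + 2 * Real.pi * |(m : ℝ)|) + |X₁| +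
      |X₀| + |(zt1 k γ0).re| + 2 := ⟨_, rfl⟩
  obtain ⟨e3, he3⟩ : ∃ e3 : ℝ, e3 = Real.exp (-(|f0.re| + |(zt1 k γ0).re| + 2 + β * Q)) :=
    ⟨_, rfl⟩
  have he30 : 0 < e3 := by
    rw [he3]
    exact Real.exp_pos _
  have hB0 : 0 ≤ B := by
    rw [hB]
    positivity
  have hm0 : 0 ≤ 2 * Real.pi * |(m : ℝ)| := by positivity
  obtain ⟨r', hr'⟩ : ∃ r' : ℝ, r' = min r0 (min (1 / 2) (1 / (1 + 2 / μ))) := ⟨_, rfl⟩
  obtain ⟨e, he⟩ : ∃ e : ℝ, e = min e0 (min e1 (min e2 e3)) / 2 := ⟨_, rfl⟩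
  have he4 : 0 < min e0 (min e1 (min e2 e3)) := lt_min he0 (lt_min he1 (lt_min he2 he30))
  refine ⟨e, r', by rw [he]; positivity, by rw [hr']; positivity, fun c hc θ hθ hθi => ?_⟩
  have hδ := hZG.δ_le
  have hθi2 : θ.im < 1 / 10 * |θ.re| := hθi.trans_le
    (mul_le_mul_of_nonneg_right hδ (abs_nonneg _))
  have hθe : ‖θ‖ < min e0 (min e1 (min e2 e3)) := by
    rw [he] at hθ
    linarith
  have t0 : ‖θ‖ < 2 * e0 := by
    have := hθe.trans_le (min_le_left _ _)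
    linarith
  have t1 : ‖θ‖ < e1 := hθe.trans_le ((min_le_right _ _).trans (min_le_left _ _))
  have t2 : ‖θ‖ < e2 := hθe.trans_le ((min_le_right _ _).trans ((min_le_right _ _).trans
    (min_le_left _ _)))
  have t3 : ‖θ‖ < e3 := hθe.trans_le ((min_le_right _ _).trans ((min_le_right _ _).trans
    (min_le_right _ _)))
  have hcn : ‖c - zt1 k γ0‖ < r' := by rwa [mem_ball, dist_eq_norm] at hc
  have r1 : r' ≤ r0 := by rw [hr']; exact min_le_left _ _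
  have r2 : r' ≤ 1 / 2 := by rw [hr']; exact (min_le_right _ _).trans (min_le_left _ _)
  have r3 : r' ≤ 1 / (1 + 2 / μ) := by
    rw [hr']
    exact (min_le_right _ _).trans (min_le_right _ _)
  have hc0 : c ∈ ball (zt1 k γ0) r0 := ball_subset_ball r1 hc
  have hc1 : c ∈ ball (zt1 k γ0) 1 := ball_subset_ball (r2.trans (by norm_num)) hc
  obtain ⟨h1, h2, L, hL, hX⟩ := hbr c hc0 θ t0 hθi2
  have hθ0 : θ ≠ 0 := by
    rintro rfl
    simp at hθi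
  have hθn : 0 < ‖θ‖ := norm_pos_iff.2 hθ0
  refine ⟨hn c hc1 θ t2 hθi, h1, h2, ?_⟩
  obtain ⟨X, hXd⟩ : ∃ X, X = Zf (θ * sgm k c + Tb (sgm k c), sgm k c) := ⟨_, rfl⟩
  rw [← hXd] at hX ⊢
  -- bounds
  have hre := congrArg re hX
  have him := congrArg im hX
  rw [re_ofReal_mul, sub_re, add_re, add_re, log_re, norm_mul, norm_I, one_mul, ← hβ] at hre
  rw [im_ofReal_mul, sub_im, add_im, add_im, log_im, ← hβ] at him
  have hLr := (abs_re_le_norm L).trans hL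
  have hLi := (abs_im_le_norm L).trans hL
  have hcr := (abs_re_le_norm (c - zt1 k γ0)).trans_lt hcn
  have hci := (abs_im_le_norm (c - zt1 k γ0)).trans_lt hcn
  rw [sub_re] at hcr
  rw [sub_im] at hci
  have hcr' := abs_lt.1 hcr
  have hci' := abs_lt.1 hci
  have hLr' := abs_le.1 hLr
  have hLi' := abs_le.1 hLi
  have hx2 : |X.im| < B := by
    have g1 : |β * X.im| < B := by
      have a1 := abs_le.1 (abs_arg_le_pi (I * θ))
      have a2 := le_abs_self f0.im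
      have a3 := neg_abs_le f0.im
      have a4 := le_abs_self (zt1 k γ0).im
      have a5 := neg_abs_le (zt1 k γ0).im
      rw [him, abs_lt, hB]
      constructor
      · linarith [a1.1]
      · linarith [a1.2]
    rw [abs_mul, abs_of_pos (by linarith : 0 < β)] at g1
    nlinarith [abs_nonneg X.im]
  have hx1 : X.re < -Q := by
    have g1 : Real.log ‖θ‖ < -(|f0.re| + |(zt1 k γ0).re| + 2 + β * Q) := by
      rw [Real.log_lt_iff_lt_exp hθn, ← he3]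
      exact t3
    have a2 := le_abs_self f0.re
    have a4 := le_abs_self (zt1 k γ0).re
    have g2 : β * X.re < β * (-Q) := by
      rw [hre]
      linarith
    exact lt_of_mul_lt_mul_left g2 (by linarith)
  have q1 := neg_abs_le M'
  have q1' := le_abs_self M'
  have q2 := le_abs_self R4
  have q3 := le_abs_self R4'
  have q4 := neg_abs_le X₁
  have q5 := neg_abs_le X₀
  have q6 := neg_abs_le (zt1 k γ0).re
  have q7 := abs_nonneg M'
  have q8 := abs_nonneg R4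
  have q9 := abs_nonneg R4'
  have q10 := abs_nonneg X₁
  have q11 := abs_nonneg X₀
  have q12 := abs_nonneg (zt1 k γ0).re
  have hcp : 2 / μ * ‖c - zt1 k γ0‖ ≤ 1 := by
    have g1 : 2 / (μ : ℝ) * ‖c - zt1 k γ0‖ ≤ (1 + 2 / μ) * (1 / (1 + 2 / μ)) := by
      refine mul_le_mul (by linarith) (hcn.le.trans r3) (norm_nonneg _) (by positivity)
    rwa [mul_one_div_cancel (by positivity)] at g1
  have hwr : (X + m * (2 * Real.pi * I)).re = X.re := by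
    rw [add_re]
    simp
  have hwi : |(X + m * (2 * Real.pi * I)).im| ≤ B + 2 * Real.pi * |(m : ℝ)| := by
    have g1 : (X + m * (2 * Real.pi * I)).im = X.im + m * (2 * Real.pi) := by
      rw [add_im]
      simp
    rw [g1]
    refine (abs_add_le _ _).trans ?_
    rw [abs_mul, abs_of_pos (by positivity : 0 < 2 * Real.pi)]
    linarith
  obtain ⟨p1, p2⟩ := idd_point h m hMM hsh hκ hShc hR4' (fun x y1 y2 => (hJ V' Y' hShc x y1 y2).2)
    hc₁ (hcn.trans_le (r2.trans (by norm_num))) hcp h1 hθ0 h2 hL hXd hX hbt (by linarith) hx2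
    (by linarith) (by linarith)
  rw [hg c hc1 θ t1 hθi (X + m * (2 * Real.pi * I)) ⟨by
    show (X + m * (2 * Real.pi * I)).re + |(X + m * (2 * Real.pi * I)).im| < -R4
    rw [hwr]
    linarith, by
    show (X + m * (2 * Real.pi * I) - c).re < X₁
    rw [sub_re, hwr]
    linarith⟩ p1]
  exact idd_state h m (hcn.trans_le (r2.trans (by norm_num))) (ball_subset_ball h.ρ_le h1)
    (by linarith) p2

end Pool.Agent.MP_ae5b4e_an_AZ
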