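import Pool.Agent.Lib.MP_ae5b4e_an_AZ.K11

/-!
# POR, (Z'): charts: the relation of the kicks
-/

noncomputable section

namespace Pool.Agent.MP_ae5b4e_an_AZ

open Complex Set Filter Topology Metric
open Pool.Agent.MP_ae5b4e_an_A1
open Pool.Agent.MP_ae5b4e_an_BX (Rec)
open Pool.Agent.MP_ae5b4e_an_A3 (rs md Dfc osc_le Per_osc Per_zero)
open Pool.Agent.MP_ae5b4e_an_A4 (am Per SN)
open Pool.Agent.MP_ae5b4e_an_MERO (fo St fo_indep norm_fo_le hasSum_fo)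

variable {U : Ultrafilter ℕ} {ε : ℕ → ℝ} {M Ω : Set (ℂ × ℂ)} {g : ℂ × ℂ → ℂ × ℂ}
  {gn : ℕ → ℂ × ℂ → ℂ × ℂ} {z : ℂ × ℂ → ℂ × ℂ} {D : Set ℂ} {τ σ : ℂ → ℂ}

private theorem K11b_tr_add (t : ℂ) (p x : ℂ × ℂ) : tr t p + x = tr t (p + x) := by
  ext
  · simp only [tr, Prod.fst_add]
    ring
  · simp only [tr, Prod.snd_add]

private theorem K11b_tr_inj {t : ℂ} {p q : ℂ × ℂ} (h : tr t p = tr t q) : p = q := by
  have h1 := congrArg (tr (-t)) h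
  rwa [tr_tr, tr_tr, neg_add_cancel, tr_zero, tr_zero] at h1

private theorem K11b_per {E : Type*} {e : ℝ} {F : ℂ × ℂ → E} (h : ∀ p, F (tr e p) = F p) (k : ℤ)
    (p : ℂ × ℂ) : F (tr ((k * e : ℝ) : ℂ) p) = F p := by
  have hn : ∀ (m : ℕ) (p : ℂ × ℂ), F (tr ((m * e : ℝ) : ℂ) p) = F p := by
    intro m
    induction m with
    | zero =>
      intro p
      rw [Nat.cast_zero, zero_mul, Complex.ofReal_zero, tr_zero]
    | succ m ih =>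
      intro p
      have h1 : tr ((((m + 1 : ℕ) : ℝ) * e : ℝ) : ℂ) p = tr e (tr ((m * e : ℝ) : ℂ) p) := by
        rw [tr_tr]
        congr 1
        push_cast
        ring
      rw [h1, h, ih]
  obtain ⟨m, rfl | rfl⟩ := k.eq_nat_or_neg
  · have h1 := hn m p
    rw [Int.cast_natCast]
    exact h1
  · have h1 := hn m (tr ((((-(m : ℤ) : ℤ) : ℝ) * e : ℝ) : ℂ) p)
    rw [tr_tr] at h1
    rw [← h1]
    have h2 : (((m : ℝ) * e : ℝ) : ℂ) + ((((-(m : ℤ) : ℤ) : ℝ) * e : ℝ) : ℂ) = 0 := by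
      push_cast
      ring
    rw [h2, tr_zero]

private theorem K11b_tube {E : Type*} [TopologicalSpace E] {Kh : Set ℝ} (hKh : IsCompact Kh)
    {D : Set ℂ} (hD : IsOpen D) {f : ℝ × ℂ → E} (hf : ContinuousOn f (univ ×ˢ D)) {O : Set E}
    (hO : IsOpen O) {c₀ : ℂ} (hc₀ : c₀ ∈ D) (h : ∀ y ∈ Kh, f (y, c₀) ∈ O) :
    ∃ ρ : ℝ, 0 < ρ ∧ closedBall c₀ ρ ⊆ D ∧ ∀ y ∈ Kh, ∀ c ∈ closedBall c₀ ρ, f (y, c) ∈ O := by
  have hS : IsOpen ((univ ×ˢ D) ∩ f ⁻¹' O) :=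
    hf.isOpen_inter_preimage (isOpen_univ.prod hD) hO
  have hsub : Kh ×ˢ ({c₀} : Set ℂ) ⊆ (univ ×ˢ D) ∩ f ⁻¹' O := by
    rintro ⟨y, c⟩ ⟨hy, hc⟩
    have hc' : c = c₀ := hc
    subst hc'
    exact ⟨⟨mem_univ _, hc₀⟩, h y hy⟩
  obtain ⟨u, v, -, hv, hu1, hv1, huv⟩ := generalized_tube_lemma hKh isCompact_singleton hS hsub
  obtain ⟨ρ, hρ, hρv⟩ := nhds_basis_closedBall.mem_iff.1
    ((hv.inter hD).mem_nhds ⟨hv1 rfl, hc₀⟩)
  refine ⟨ρ, hρ, fun c hc => (hρv hc).2, fun y hy c hc => ?_⟩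
  exact (huv (⟨hu1 hy, (hρv hc).1⟩ : (y, c) ∈ u ×ˢ v)).2

private theorem K11b_norm {x : ℂ × ℂ} {r : ℝ} (h1 : ‖x.1‖ ≤ r) (h2 : ‖x.2‖ ≤ r) : ‖x‖ ≤ r := by
  rw [Prod.norm_def]
  exact max_le h1 h2

/-- THE KICKS IN TWO CHARTS. `Zr` is exact for `z` on the open set `Or ⊆ Ω`; the kick `X` from `Zl` to
`Zr` (abscissas `al₁, ar₁`) and the kick `X'` from `Zl ∘ ch` to `Zr ∘ ch` (abscissas `al, ar`),
`al₁ = al + Re τ c₀`. For every compact set `K` of heights over the point `c₀` (such that the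
corresponding points are in `Or` and `R`) the relation holds over a neighbourhood of `c₀`.

Proof. `K₁ := {(y + Im τ c, σ c) | y ∈ Kh, c ∈ closedBall c₀ ρ₁}` for a small `ρ₁` is a compact subset of `R`,
and the points `(ar₁ + i y', γ)`, `(y', γ) ∈ K₁`, form a compact subset `Kr` of `Or`; `w₁` from `hX.rel` for
`K₁`, `w₂` from `hX'.rel` for `Kh ×ˢ closedBall c₀ ρ₁ ⊆ R'`. `ρ ≤ ρ₁` with `‖τ c - τ c₀‖ ≤ w₁ / 4` on
`ball c₀ ρ`. For almost all `n`, `q` with `q.1.im ∈ Kh`, `q.2 ∈ ball c₀ ρ`: first let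
`|q.1.re - al| ≤ w := min w₁ w₂ / 4` and choose `m` with `q.1.re + m ε ∈ [ar + w, ar + w + ε]` (then
`(ch q).1.re + m ε ∈ [ar₁, ar₁ + w₁]`, `ar₁ = ar + Re τ c₀`, if also `‖τ c - τ c₀‖ ≤ w / 2`). Then
`Zr (ch (tr (m ε) q + X' q)) = Φ^[m] (Zl (ch q)) = Zr (tr (m ε) (ch q) + X (ch q))` (`hX'.rel`, `hX.rel` at
`ch q`). Both arguments are close to `tr (m ε) (ch q)`, which is close to `Kr`; `Ex.uniq` (for the
compact thickening of `Kr` in `Or`): `ch (tr (m ε) q + X' q) = tr (m ε) (ch q) + X (ch q)`, and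
`ch (tr (m ε) q + X' q) = tr (m ε) (ch (q + X' q))`. For the other `q`: both sides of the claim commute
with `tr ε`. -/
theorem ch_rel (hV : VF U ε M g gn) (hz : Fw M g Ω z) {Or : Set (ℂ × ℂ)} (hOr : IsOpen Or)
    (hOrΩ : Or ⊆ Ω) {Zl Zr X X' : ℕ → ℂ × ℂ → ℂ × ℂ} (er : Ex U ε gn Or z Zr) (hD : IsOpen D)
    (hτ : AnalyticOnNhd ℂ τ D) (hσ : AnalyticOnNhd ℂ σ D) {c₀ : ℂ} (hc₀ : c₀ ∈ D) {al ar : ℝ}
    (ha : al < ar) {R R' : Set (ℝ × ℂ)} (hR : IsOpen R) (hR' : IsOpen R')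
    (hX : Kk U ε gn (al + (τ c₀).re) (ar + (τ c₀).re) R Zl Zr X)
    (hX' : Kk U ε gn al ar R' (fun n => Zl n ∘ ch τ σ) (fun n => Zr n ∘ ch τ σ) X') {Kh : Set ℝ}
    (hKh : IsCompact Kh) (h1 : ∀ y ∈ Kh, (y, c₀) ∈ R')
    (h2 : ∀ y ∈ Kh, (y + (τ c₀).im, σ c₀) ∈ R)
    (h3 : ∀ y ∈ Kh, ((⟨ar + (τ c₀).re, y + (τ c₀).im⟩ : ℂ), σ c₀) ∈ Or) :
    ∃ ρ : ℝ, 0 < ρ ∧ ∀ᶠ n in (U : Filter ℕ), ∀ q : ℂ × ℂ, q.1.im ∈ Kh → q.2 ∈ ball c₀ ρ →
      ch τ σ (q + X' n q) = ch τ σ q + X n (ch τ σ q) := by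
  have hτc : ContinuousOn τ D := hτ.continuousOn
  have hσc : ContinuousOn σ D := hσ.continuousOn
  have hmD : MapsTo (Prod.snd : ℝ × ℂ → ℂ) (univ ×ˢ D) D := fun x hx => hx.2
  have cτ : ContinuousOn (fun x : ℝ × ℂ => τ x.2) (univ ×ˢ D) :=
    hτc.comp continuous_snd.continuousOn hmD
  have cσ : ContinuousOn (fun x : ℝ × ℂ => σ x.2) (univ ×ˢ D) :=
    hσc.comp continuous_snd.continuousOn hmD
  have ci : ContinuousOn (fun x : ℝ × ℂ => x.1 + (τ x.2).im) (univ ×ˢ D) :=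
    continuous_fst.continuousOn.add (Complex.continuous_im.comp_continuousOn cτ)
  have cf : ContinuousOn (fun x : ℝ × ℂ => ((x.1 + (τ x.2).im : ℝ), σ x.2)) (univ ×ˢ D) :=
    ci.prodMk cσ
  have cg : ContinuousOn (fun x : ℝ × ℂ =>
      ((⟨ar + (τ c₀).re, x.1 + (τ x.2).im⟩ : ℂ), σ x.2)) (univ ×ˢ D) := by
    refine ContinuousOn.prodMk ?_ cσ
    have e1 : (fun x : ℝ × ℂ => (⟨ar + (τ c₀).re, x.1 + (τ x.2).im⟩ : ℂ)) =
        fun x : ℝ × ℂ => ((ar + (τ c₀).re : ℝ) : ℂ) + ((x.1 + (τ x.2).im : ℝ) : ℂ) * I :=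
      funext fun x => Complex.mk_eq_add_mul_I _ _
    rw [e1]
    exact continuousOn_const.add
      ((Complex.continuous_ofReal.comp_continuousOn ci).mul continuousOn_const)
  obtain ⟨ρa, hρa, hDa, ha'⟩ := K11b_tube hKh hD (f := fun x : ℝ × ℂ => x)
    continuous_id.continuousOn hR' hc₀ h1
  obtain ⟨ρb, hρb, hDb, hb'⟩ := K11b_tube hKh hD cf hR hc₀ h2
  obtain ⟨ρc, hρc, hDc, hc'⟩ := K11b_tube hKh hD cg hOr hc₀ h3
  obtain ⟨ρ₁, hρ₁, hle⟩ : ∃ ρ₁ : ℝ, 0 < ρ₁ ∧ ρ₁ ≤ ρa ∧ ρ₁ ≤ ρb ∧ ρ₁ ≤ ρc :=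
    ⟨min ρa (min ρb ρc), lt_min hρa (lt_min hρb hρc), min_le_left _ _,
      (min_le_right _ _).trans (min_le_left _ _), (min_le_right _ _).trans (min_le_right _ _)⟩
  obtain ⟨hle1, hle2, hle3⟩ := hle
  have hDρ : closedBall c₀ ρ₁ ⊆ D := (closedBall_subset_closedBall hle1).trans hDa
  have hsubD : Kh ×ˢ closedBall c₀ ρ₁ ⊆ (univ : Set ℝ) ×ˢ D :=
    prod_mono (subset_univ _) hDρ
  have hKK : IsCompact (Kh ×ˢ closedBall c₀ ρ₁) := hKh.prod (isCompact_closedBall c₀ ρ₁)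
  have hK2 : Kh ×ˢ closedBall c₀ ρ₁ ⊆ R' := by
    rintro ⟨y, c⟩ ⟨hy, hc⟩
    exact ha' y hy c (closedBall_subset_closedBall hle1 hc)
  have hK1c := hKK.image_of_continuousOn (cf.mono hsubD)
  have hK1 : (fun x : ℝ × ℂ => ((x.1 + (τ x.2).im : ℝ), σ x.2)) '' (Kh ×ˢ closedBall c₀ ρ₁) ⊆
      R := by
    rintro _ ⟨⟨y, c⟩, ⟨hy, hc⟩, rfl⟩
    exact hb' y hy c (closedBall_subset_closedBall hle2 hc)
  have hKrc := hKK.image_of_continuousOn (cg.mono hsubD)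
  have hKr : (fun x : ℝ × ℂ => ((⟨ar + (τ c₀).re, x.1 + (τ x.2).im⟩ : ℂ), σ x.2)) ''
      (Kh ×ˢ closedBall c₀ ρ₁) ⊆ Or := by
    rintro _ ⟨⟨y, c⟩, ⟨hy, hc⟩, rfl⟩
    exact hc' y hy c (closedBall_subset_closedBall hle3 hc)
  obtain ⟨w₁, hw₁, hrel1⟩ := hX.rel _ hK1 hK1c
  obtain ⟨w₂, hw₂, hrel2⟩ := hX'.rel _ hK2 hKK
  obtain ⟨r, hr, huniq⟩ := Ex.uniq hz hOr hOrΩ er hKrc hKr
  obtain ⟨w, hw, hww1, hww2, hwr⟩ : ∃ w : ℝ, 0 < w ∧ 4 * w ≤ w₁ ∧ 4 * w ≤ w₂ ∧ 8 * w ≤ r :=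
    ⟨min (w₁ / 4) (min (w₂ / 4) (r / 8)), by positivity, by
      have := min_le_left (w₁ / 4) (min (w₂ / 4) (r / 8))
      linarith, by
      have := (min_le_right (w₁ / 4) (min (w₂ / 4) (r / 8))).trans (min_le_left _ _)
      linarith, by
      have := (min_le_right (w₁ / 4) (min (w₂ / 4) (r / 8))).trans (min_le_right _ _)
      linarith⟩
  -- uniform continuity of `τ`, `σ`
  have uτ := (isCompact_closedBall c₀ ρ₁).uniformContinuousOn_of_continuous (hτc.mono hDρ)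
  have uσ := (isCompact_closedBall c₀ ρ₁).uniformContinuousOn_of_continuous (hσc.mono hDρ)
  obtain ⟨δ₁, hδ₁, hτu⟩ := Metric.uniformContinuousOn_iff.1 uτ (w / 2) (by positivity)
  obtain ⟨δ₂, hδ₂, hσu⟩ := Metric.uniformContinuousOn_iff.1 uσ (w / 2) (by positivity)
  obtain ⟨ρ, hρ, hρ1, hρδ⟩ : ∃ ρ : ℝ, 0 < ρ ∧ 2 * ρ ≤ ρ₁ ∧ ρ ≤ δ₁ :=
    ⟨min (ρ₁ / 2) δ₁, by positivity, by
      have := min_le_left (ρ₁ / 2) δ₁
      linarith, min_le_right _ _⟩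
  obtain ⟨δ, hδ, hδρ, hδ1, hδ2, hδw⟩ : ∃ δ : ℝ, 0 < δ ∧ 2 * δ ≤ ρ₁ ∧ 2 * δ ≤ δ₁ ∧ 2 * δ ≤ δ₂ ∧
      δ ≤ w :=
    ⟨min (ρ₁ / 2) (min (δ₁ / 2) (min (δ₂ / 2) w)), by positivity, by
      have := min_le_left (ρ₁ / 2) (min (δ₁ / 2) (min (δ₂ / 2) w))
      linarith, by
      have := (min_le_right (ρ₁ / 2) (min (δ₁ / 2) (min (δ₂ / 2) w))).trans (min_le_left _ _)
      linarith, by
      have := ((min_le_right (ρ₁ / 2) (min (δ₁ / 2) (min (δ₂ / 2) w))).trans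
        (min_le_right _ _)).trans (min_le_left _ _)
      linarith, ((min_le_right (ρ₁ / 2) (min (δ₁ / 2) (min (δ₂ / 2) w))).trans
        (min_le_right _ _)).trans (min_le_right _ _)⟩
  have hball : ball c₀ ρ ⊆ closedBall c₀ ρ₁ :=
    ball_subset_closedBall.trans (closedBall_subset_closedBall (by linarith))
  refine ⟨ρ, hρ, ?_⟩
  filter_upwards [hrel1, hrel2, huniq, hX.pd.lim _ hK1 hK1c δ hδ, hX'.pd.lim _ hK2 hKK δ hδ,
    hV.ε_lim.eventually (gt_mem_nhds hw)] with n hn1 hn2 hn3 hn4 hn5 hn6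
  have hε := hV.ε_pos n
  -- the claim near the abscissa `al`
  have key : ∀ q : ℂ × ℂ, q.1.im ∈ Kh → q.2 ∈ ball c₀ ρ → |q.1.re - al| ≤ w →
      ch τ σ (q + X' n q) = ch τ σ q + X n (ch τ σ q) := by
    intro q hq1 hq2 hq3
    have hqc : q.2 ∈ closedBall c₀ ρ₁ := hball hq2
    have hpc2 : pc q ∈ Kh ×ˢ closedBall c₀ ρ₁ := ⟨hq1, hqc⟩
    have hc0 : c₀ ∈ closedBall c₀ ρ₁ := mem_closedBall_self hρ₁.le
    have hτq : ‖τ q.2 - τ c₀‖ < w / 2 := by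
      rw [← dist_eq_norm]
      exact hτu _ hqc _ hc0 (lt_of_lt_of_le (mem_ball.1 hq2) hρδ)
    have hτre : |(τ q.2).re - (τ c₀).re| < w / 2 := by
      rw [← Complex.sub_re]
      exact (Complex.abs_re_le_norm _).trans_lt hτq
    have hpc1 : pc (ch τ σ q) ∈
        (fun x : ℝ × ℂ => ((x.1 + (τ x.2).im : ℝ), σ x.2)) '' (Kh ×ˢ closedBall c₀ ρ₁) :=
      ⟨pc q, hpc2, by simp [pc, ch]⟩
    obtain ⟨hr1, hr2⟩ := abs_le.1 hq3
    obtain ⟨ht1, ht2⟩ := abs_lt.1 hτre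
    obtain ⟨m, hm⟩ : ∃ m : ℕ, m = ⌈(ar + w - q.1.re) / ε n⌉₊ := ⟨_, rfl⟩
    have hm1 : ar + w ≤ q.1.re + m * ε n := by
      have h5 := Nat.le_ceil ((ar + w - q.1.re) / ε n)
      rw [← hm, div_le_iff₀ hε] at h5
      linarith
    have hm2 : q.1.re + m * ε n ≤ ar + 2 * w := by
      have h5 := Nat.ceil_lt_add_one (a := (ar + w - q.1.re) / ε n)
        (div_nonneg (by linarith) hε.le)
      rw [← hm] at h5
      have h6 : (m : ℝ) * ε n < ((ar + w - q.1.re) / ε n + 1) * ε n :=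
        mul_lt_mul_of_pos_right h5 hε
      rw [add_mul, div_mul_cancel₀ _ hε.ne'] at h6
      linarith
    have e1 := hn2 q hpc2 (hq3.trans (by linarith)) m (by linarith) (by linarith)
    have hre : (ch τ σ q).1.re = q.1.re + (τ q.2).re := by simp [ch]
    have e2 := hn1 (ch τ σ q) hpc1 (by
      rw [hre, abs_le]
      constructor <;> linarith) m (by
      rw [hre]
      linarith) (by
      rw [hre]
      linarith)
    rw [Function.comp_apply, Function.comp_apply, ← e2] at e1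
    -- the point of `Kr`
    have hp : ((⟨ar + (τ c₀).re, q.1.im + (τ q.2).im⟩ : ℂ), σ q.2) ∈
        (fun x : ℝ × ℂ => ((⟨ar + (τ c₀).re, x.1 + (τ x.2).im⟩ : ℂ), σ x.2)) ''
          (Kh ×ˢ closedBall c₀ ρ₁) := ⟨pc q, hpc2, rfl⟩
    have hC : ‖tr ((m * ε n : ℝ) : ℂ) (ch τ σ q) -
        ((⟨ar + (τ c₀).re, q.1.im + (τ q.2).im⟩ : ℂ), σ q.2)‖ ≤ 5 / 2 * w := by
      refine K11b_norm ?_ ?_
      · have h7 : (tr ((m * ε n : ℝ) : ℂ) (ch τ σ q) -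
            ((⟨ar + (τ c₀).re, q.1.im + (τ q.2).im⟩ : ℂ), σ q.2)).1 =
            ((q.1.re + m * ε n + (τ q.2).re - (ar + (τ c₀).re) : ℝ) : ℂ) := by
          apply Complex.ext
          · simp [ch, tr]
            ring
          · simp [ch, tr]
        rw [h7, Complex.norm_real, Real.norm_eq_abs, abs_le]
        constructor <;> linarith
      · have h7 : (tr ((m * ε n : ℝ) : ℂ) (ch τ σ q) -
            ((⟨ar + (τ c₀).re, q.1.im + (τ q.2).im⟩ : ℂ), σ q.2)).2 = 0 := by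
          simp [ch, tr]
        rw [h7, norm_zero]
        positivity
    have hx := hn4 _ hpc1
    have hx' := hn5 _ hpc2
    have hx'2 : ‖(X' n q).2‖ ≤ δ := (norm_snd_le _).trans hx'
    have hx'1 : ‖(X' n q).1‖ ≤ δ := (norm_fst_le _).trans hx'
    have hq2' : (q + X' n q).2 ∈ closedBall c₀ ρ₁ := by
      rw [mem_closedBall, dist_eq_norm]
      have h8 : ‖q.2 - c₀‖ < ρ := by
        rw [← dist_eq_norm]
        exact mem_ball.1 hq2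
      calc ‖(q + X' n q).2 - c₀‖ = ‖(q.2 - c₀) + (X' n q).2‖ := by
            congr 1
            rw [Prod.snd_add]
            ring
        _ ≤ ‖q.2 - c₀‖ + ‖(X' n q).2‖ := norm_add_le _ _
        _ ≤ ρ₁ := by linarith
    have hd : dist (q + X' n q).2 q.2 < 2 * δ := by
      rw [dist_eq_norm, Prod.snd_add, add_sub_cancel_left]
      linarith
    have hdτ := hτu _ hq2' _ hqc (hd.trans_le hδ1)
    have hdσ := hσu _ hq2' _ hqc (hd.trans_le hδ2)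
    rw [dist_eq_norm] at hdτ hdσ
    have hA : ‖ch τ σ (q + X' n q) - ch τ σ q‖ ≤ 3 / 2 * w := by
      refine K11b_norm ?_ ?_
      · have h9 : (ch τ σ (q + X' n q) - ch τ σ q).1 =
            (X' n q).1 + (τ (q + X' n q).2 - τ q.2) := by
          simp only [ch, Prod.fst_sub, Prod.fst_add]
          ring
        rw [h9]
        refine (norm_add_le _ _).trans ?_
        linarith
      · have h9 : (ch τ σ (q + X' n q) - ch τ σ q).2 = σ (q + X' n q).2 - σ q.2 := rfl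
        rw [h9]
        linarith
    have e3 := hn3 _ hp (ch τ σ (tr ((m * ε n : ℝ) : ℂ) q + X' n q))
      (tr ((m * ε n : ℝ) : ℂ) (ch τ σ q) + X n (ch τ σ q)) (by
        rw [K11b_tr_add, ch_tr]
        have h10 : tr ((m * ε n : ℝ) : ℂ) (ch τ σ (q + X' n q)) -
            ((⟨ar + (τ c₀).re, q.1.im + (τ q.2).im⟩ : ℂ), σ q.2) =
            (ch τ σ (q + X' n q) - ch τ σ q) + (tr ((m * ε n : ℝ) : ℂ) (ch τ σ q) -
              ((⟨ar + (τ c₀).re, q.1.im + (τ q.2).im⟩ : ℂ), σ q.2)) := by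
          rw [← tr_sub ((m * ε n : ℝ) : ℂ) (ch τ σ (q + X' n q)) (ch τ σ q)]
          abel
        rw [h10]
        refine (norm_add_le _ _).trans_lt ?_
        linarith) (by
        have h10 : tr ((m * ε n : ℝ) : ℂ) (ch τ σ q) + X n (ch τ σ q) -
            ((⟨ar + (τ c₀).re, q.1.im + (τ q.2).im⟩ : ℂ), σ q.2) =
            X n (ch τ σ q) + (tr ((m * ε n : ℝ) : ℂ) (ch τ σ q) -
              ((⟨ar + (τ c₀).re, q.1.im + (τ q.2).im⟩ : ℂ), σ q.2)) := by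
          abel
        rw [h10]
        refine (norm_add_le _ _).trans_lt ?_
        linarith) e1
    rw [K11b_tr_add, K11b_tr_add, ch_tr] at e3
    exact K11b_tr_inj e3
  -- all abscissas
  intro q hq1 hq2
  obtain ⟨k, hk⟩ : ∃ k : ℤ, k = round ((q.1.re - al) / ε n) := ⟨_, rfl⟩
  obtain ⟨q', hq'⟩ : ∃ q', q' = tr ((((-k : ℤ) : ℝ) * ε n : ℝ) : ℂ) q := ⟨_, rfl⟩
  have hqq : q = tr (((k : ℝ) * ε n : ℝ) : ℂ) q' := by
    rw [hq', tr_tr]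
    have h5 : (((k : ℝ) * ε n : ℝ) : ℂ) + ((((-k : ℤ) : ℝ) * ε n : ℝ) : ℂ) = 0 := by
      push_cast
      ring
    rw [h5, tr_zero]
  have hre : |q'.1.re - al| ≤ w := by
    have h5 := abs_sub_round ((q.1.re - al) / ε n)
    rw [← hk] at h5
    have h6 : q'.1.re - al = ((q.1.re - al) / ε n - k) * ε n := by
      rw [hq', sub_mul, div_mul_cancel₀ _ hε.ne']
      simp [tr]
      ring
    rw [h6, abs_mul, abs_of_pos hε]
    calc |(q.1.re - al) / ε n - k| * ε n ≤ 1 / 2 * ε n := mul_le_mul_of_nonneg_right h5 hε.le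
      _ ≤ w := by linarith
  have him : q'.1.im = q.1.im := by
    rw [hq']
    simp [tr]
  have h2' : q'.2 = q.2 := by
    rw [hq', tr_snd]
  have e4 := key q' (by rw [him]; exact hq1) (by rw [h2']; exact hq2) hre
  rw [hqq, K11b_per (hX'.pd.per n) k q', K11b_tr_add, ch_tr, ch_tr,
    K11b_per (hX.pd.per n) k (ch τ σ q'), K11b_tr_add, e4]

end Pool.Agent.MP_ae5b4e_an_AZ
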