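import Pool.Agent.Lib.MP_ae5b4e_an_AZ.KDefs

/-!
# POR, (Z'): one function, one `n`: zero mode and first mode subtracted
-/

noncomputable section

namespace Pool.Agent.MP_ae5b4e_an_AZ

open Complex Set Filter Topology Metric
open Pool.Agent.MP_ae5b4e_an_A1
open Pool.Agent.MP_ae5b4e_an_BX (Rec)
open Pool.Agent.MP_ae5b4e_an_A3 (rs md Dfc osc_le Per_osc Per_zero)
open Pool.Agent.MP_ae5b4e_an_A4 (am Per SN)
open Pool.Agent.MP_ae5b4e_an_MERO (fo St fo_indep norm_fo_le hasSum_fo)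

/-- FLATNESS II: zero mode and first mode subtracted.

Proof. As `A3.osc_le` (A3/Osc.lean), for the slice `f ζ = F (ε ζ, c)`: `hasSum_fo` at `t = p.1 / ε`,
coefficients at the height `y / ε`. The terms `m = 0` and `m = -1` are the two subtracted ones. For
`m ≥ 1` use the height `(Im p.1 - d') / ε` (`fo_indep`, `norm_fo_le`): the term is at most
`κ exp (- 2 π m d' / ε)`. For `m ≤ -2` use the height `(Im p.1 + d) / ε`: at most
`κ exp (- 2 π |m| d / ε)`. With `q = exp (- 2 π d / ε) ≤ 1 / 2`, `q' = exp (- 2 π d' / ε) ≤ 1 /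
2` the sum is at
most `κ (q ^ 2 / (1 - q) + q' / (1 - q')) ≤ 2 κ (q ^ 2 + q')`, `q ^ 2 = exp (- 4 π d / ε)`. -/
theorem Fn.flat1 {ε y₁ y₂ κ : ℝ} {D : Set ℂ} {F : ℂ × ℂ → ℂ} (hε : 0 < ε) (h : Fn ε y₁ y₂ κ D F)
    {d d' : ℝ} (hd : ε ≤ d) (hd' : ε ≤ d') {p : ℂ × ℂ} (hp : p.2 ∈ D) (h1 : y₁ + d' < p.1.im)
    (h2 : p.1.im + d < y₂) {y : ℝ} (hy : y ∈ Ioo y₁ y₂) :
    ‖F p - md ε y F 0 p.2 - md ε y F (-1) p.2 * cexp (-(2 * Real.pi * I * p.1 / ε))‖ ≤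
      4 * κ * (Real.exp (-(4 * Real.pi / ε * d)) + Real.exp (-(2 * Real.pi / ε * d'))) := by
  obtain ⟨q, hq⟩ : ∃ q : ℝ, q = Real.exp (-(2 * Real.pi / ε * d)) := ⟨_, rfl⟩
  obtain ⟨q', hq'⟩ : ∃ q' : ℝ, q' = Real.exp (-(2 * Real.pi / ε * d')) := ⟨_, rfl⟩
  have hsm : ∀ x : ℝ, ε ≤ x → Real.exp (-(2 * Real.pi / ε * x)) ≤ 1 / 2 := by
    intro x hx
    have hpi := Real.pi_gt_three
    have e0 : 1 ≤ x / ε := (one_le_div hε).2 hx
    have e1 : 1 ≤ 2 * Real.pi / ε * x := by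
      have e2 : 2 * Real.pi / ε * x = 2 * Real.pi * (x / ε) := by ring
      rw [e2]
      nlinarith
    have e2 := Real.add_one_le_exp (2 * Real.pi / ε * x)
    rw [Real.exp_neg, inv_le_comm₀ (Real.exp_pos _) (by norm_num)]
    norm_num
    linarith
  have hq0 : 0 < q := hq ▸ Real.exp_pos _
  have hq0' : 0 < q' := hq' ▸ Real.exp_pos _
  have hq2 : q ≤ 1 / 2 := hq ▸ hsm d hd
  have hq2' : q' ≤ 1 / 2 := hq' ▸ hsm d' hd'
  have hqq : Real.exp (-(4 * Real.pi / ε * d)) = q ^ 2 := by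
    rw [hq, ← Real.exp_nat_mul]
    congr 1
    push_cast
    ring
  have hεC : (ε : ℂ) ≠ 0 := by exact_mod_cast hε.ne'
  have hd0 : 0 < d := hε.trans_le hd
  have hd0' : 0 < d' := hε.trans_le hd'
  obtain ⟨f, hfd⟩ : ∃ f : ℂ → ℂ, f = fun ζ => F ((ε : ℂ) * ζ, p.2) := ⟨_, rfl⟩
  obtain ⟨t, htd⟩ : ∃ t : ℂ, t = p.1 / ε := ⟨_, rfl⟩
  have htim : t.im = p.1.im / ε := by
    rw [htd, Complex.div_ofReal_im]
  have himε : ∀ z : ℂ, ((ε : ℂ) * z).im = ε * z.im := fun z => by simp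
  have hin : ∀ z : ℂ, z ∈ St (y₁ / ε) (y₂ / ε) →
      y₁ < ((ε : ℂ) * z).im ∧ ((ε : ℂ) * z).im < y₂ := by
    intro z hz
    rw [himε]
    have e1 := (div_lt_iff₀ hε).1 hz.1
    have e2 := (lt_div_iff₀ hε).1 hz.2
    exact ⟨by linarith, by linarith⟩
  have hf : DifferentiableOn ℂ f (St (y₁ / ε) (y₂ / ε)) := by
    intro z hz
    have e1 := (h.an ((ε : ℂ) * z, p.2) (hin z hz).1 (hin z hz).2 hp).differentiableAt
    have e2 : DifferentiableAt ℂ (fun ζ : ℂ => ((ε : ℂ) * ζ, p.2)) z := by fun_prop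
    rw [hfd]
    exact (e1.comp z e2).differentiableWithinAt
  have hper : ∀ z ∈ St (y₁ / ε) (y₂ / ε), f (z + 1) = f z := by
    intro z _
    rw [hfd]
    have e1 := h.per ((ε : ℂ) * z, p.2)
    simp only [tr] at e1
    simp only [mul_add, mul_one]
    exact e1
  have hbd : ∀ z ∈ St (y₁ / ε) (y₂ / ε), ‖f z‖ ≤ κ := by
    intro z hz
    rw [hfd]
    exact h.bd ((ε : ℂ) * z, p.2) (hin z hz).1 (hin z hz).2 hp
  have hS : ∀ s : ℝ, y₁ < s → s < y₂ → s / ε ∈ Ioo (y₁ / ε) (y₂ / ε) := fun s h1 h2 =>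
    ⟨div_lt_div_of_pos_right h1 hε, div_lt_div_of_pos_right h2 hε⟩
  have ht : t ∈ St (y₁ / ε) (y₂ / ε) := by
    have e1 := hS p.1.im (by linarith) (by linarith)
    rw [← htim] at e1
    exact e1
  have hy' : y / ε ∈ Ioo (y₁ / ε) (y₂ / ε) := hS y hy.1 hy.2
  have hκ : 0 ≤ κ := (norm_nonneg _).trans (hbd t ht)
  obtain ⟨c, hc⟩ : ∃ c : ℤ → ℂ, c = fun m : ℤ => fo f (y / ε) m * cexp (2 * Real.pi * I * m * t) :=
    ⟨_, rfl⟩
  have hs : HasSum c (f t) := by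
    rw [hc]
    exact hasSum_fo hf hper ht hy'
  have hpos : ∀ n : ℕ, ‖c ((n : ℤ) + 1)‖ ≤ κ * q' ^ (n + 1) := by
    intro n
    have hy1 : (p.1.im - d') / ε ∈ Ioo (y₁ / ε) (y₂ / ε) :=
      hS _ (by linarith) (by linarith)
    have e1 := norm_fo_le (f := f) (y := (p.1.im - d') / ε) (M := κ)
      (fun z hz => hbd z ⟨by rw [hz]; exact hy1.1, by rw [hz]; exact hy1.2⟩) ((n : ℤ) + 1)
    rw [hc]
    simp only
    rw [norm_mul, Pool.Agent.MP_ae5b4e_an_A4.norm_e, fo_indep hf hper hy' hy1]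
    calc ‖fo f ((p.1.im - d') / ε) ((n : ℤ) + 1)‖ *
          Real.exp (-(2 * Real.pi * (((n : ℤ) + 1 : ℤ) : ℝ) * t.im))
        ≤ (κ * Real.exp (2 * Real.pi * (((n : ℤ) + 1 : ℤ) : ℝ) * ((p.1.im - d') / ε))) *
          Real.exp (-(2 * Real.pi * (((n : ℤ) + 1 : ℤ) : ℝ) * t.im)) :=
          mul_le_mul_of_nonneg_right e1 (Real.exp_pos _).le
      _ = κ * q' ^ (n + 1) := by
          rw [hq', ← Real.exp_nat_mul, mul_assoc, ← Real.exp_add, htim]
          congr 2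
          push_cast
          ring
  have hneg : ∀ n : ℕ, ‖c (-((n : ℤ) + 1))‖ ≤ κ * q ^ (n + 1) := by
    intro n
    have hy1 : (p.1.im + d) / ε ∈ Ioo (y₁ / ε) (y₂ / ε) :=
      hS _ (by linarith) (by linarith)
    have e1 := norm_fo_le (f := f) (y := (p.1.im + d) / ε) (M := κ)
      (fun z hz => hbd z ⟨by rw [hz]; exact hy1.1, by rw [hz]; exact hy1.2⟩) (-((n : ℤ) + 1))
    rw [hc]
    simp only
    rw [norm_mul, Pool.Agent.MP_ae5b4e_an_A4.norm_e, fo_indep hf hper hy' hy1]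
    calc ‖fo f ((p.1.im + d) / ε) (-((n : ℤ) + 1))‖ *
          Real.exp (-(2 * Real.pi * ((-((n : ℤ) + 1) : ℤ) : ℝ) * t.im))
        ≤ (κ * Real.exp (2 * Real.pi * ((-((n : ℤ) + 1) : ℤ) : ℝ) * ((p.1.im + d) / ε))) *
          Real.exp (-(2 * Real.pi * ((-((n : ℤ) + 1) : ℤ) : ℝ) * t.im)) :=
          mul_le_mul_of_nonneg_right e1 (Real.exp_pos _).le
      _ = κ * q ^ (n + 1) := by
          rw [hq, ← Real.exp_nat_mul, mul_assoc, ← Real.exp_add, htim]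
          congr 2
          push_cast
          ring
  have hg : HasSum (fun n : ℕ => κ * q' ^ (n + 1)) (κ * (q' * (1 - q')⁻¹)) := by
    refine HasSum.mul_left κ ?_
    have e1 : (fun n : ℕ => q' ^ (n + 1)) = fun n : ℕ => q' * q' ^ n := by
      funext n
      ring
    rw [e1]
    exact (hasSum_geometric_of_lt_one hq0'.le (by linarith)).mul_left q'
  have hg2 : HasSum (fun n : ℕ => κ * q ^ (n + 2)) (κ * (q ^ 2 * (1 - q)⁻¹)) := by
    refine HasSum.mul_left κ ?_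
    have e1 : (fun n : ℕ => q ^ (n + 2)) = fun n : ℕ => q ^ 2 * q ^ n := by
      funext n
      ring
    rw [e1]
    exact (hasSum_geometric_of_lt_one hq0.le (by linarith)).mul_left (q ^ 2)
  have hs1 : Summable fun n : ℕ => c ((n : ℤ) + 1) :=
    Summable.of_norm_bounded hg.summable hpos
  have hs0 : Summable fun n : ℕ => c (n : ℤ) := by
    rw [← summable_nat_add_iff 1]
    simpa using hs1
  have hneg2 : ∀ n : ℕ, ‖c (-((n : ℤ) + 2))‖ ≤ κ * q ^ (n + 2) := by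
    intro n
    have e1 := hneg (n + 1)
    have e2 : -(((n + 1 : ℕ) : ℤ) + 1) = -((n : ℤ) + 2) := by
      push_cast
      ring
    rw [e2] at e1
    exact e1
  have hs3 : Summable fun n : ℕ => c (-((n : ℤ) + 2)) :=
    Summable.of_norm_bounded hg2.summable hneg2
  have e32 : (fun n : ℕ => c (-(((n + 1 : ℕ) : ℤ) + 1))) = fun n : ℕ => c (-((n : ℤ) + 2)) := by
    funext n
    refine congrArg c ?_
    push_cast
    ring
  have hs2 : Summable fun n : ℕ => c (-((n : ℤ) + 1)) := by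
    rw [← summable_nat_add_iff 1]
    rw [e32]
    exact hs3
  have hsum : f t = c 0 + (∑' n : ℕ, c ((n : ℤ) + 1)) +
      (c (-1) + ∑' n : ℕ, c (-((n : ℤ) + 2))) := by
    rw [← hs.tsum_eq, tsum_of_nat_of_neg_add_one hs0 hs2, hs0.tsum_eq_zero_add,
      hs2.tsum_eq_zero_add, e32]
    simp
  have hc0 : c 0 = md ε y F 0 p.2 := by
    rw [hc, md, am, hfd]
    simp [rs]
  have hc1 : c (-1) = md ε y F (-1) p.2 * cexp (-(2 * Real.pi * I * p.1 / ε)) := by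
    rw [hc, md, am, hfd, htd]
    simp only [rs]
    congr 2
    push_cast
    ring
  have hft : f t = F p := by
    rw [hfd, htd]
    simp only
    rw [mul_div_cancel₀ _ hεC]
  have hb1 := tsum_of_norm_bounded hg hpos
  have hb2 := tsum_of_norm_bounded hg2 hneg2
  have e3 : F p - md ε y F 0 p.2 - md ε y F (-1) p.2 * cexp (-(2 * Real.pi * I * p.1 / ε)) =
      (∑' n : ℕ, c (-((n : ℤ) + 2))) + ∑' n : ℕ, c ((n : ℤ) + 1) := by
    rw [← hft, hsum, hc0, hc1]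
    ring
  rw [e3, hqq, ← hq']
  refine (norm_add_le _ _).trans ?_
  have hinv : ∀ x : ℝ, 0 < x → x ≤ 1 / 2 → (1 - x)⁻¹ ≤ 2 := by
    intro x _ hx
    rw [inv_le_comm₀ (by linarith) (by norm_num)]
    linarith
  have e4 : κ * (q' * (1 - q')⁻¹) ≤ 2 * κ * q' := by
    have e6 : q' * (1 - q')⁻¹ ≤ q' * 2 := mul_le_mul_of_nonneg_left (hinv q' hq0' hq2') hq0'.le
    have e7 := mul_le_mul_of_nonneg_left e6 hκ
    linarith
  have e5 : κ * (q ^ 2 * (1 - q)⁻¹) ≤ 2 * κ * q ^ 2 := by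
    have e6 : q ^ 2 * (1 - q)⁻¹ ≤ q ^ 2 * 2 :=
      mul_le_mul_of_nonneg_left (hinv q hq0 hq2) (by positivity)
    have e7 := mul_le_mul_of_nonneg_left e6 hκ
    linarith
  have e8 : 0 ≤ κ * q ^ 2 := by positivity
  have e9 : 0 ≤ κ * q' := by positivity
  linarith

end Pool.Agent.MP_ae5b4e_an_AZ
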