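import Pool.Agent.Lib.MP_ae5b4e_an_AZ.K1
import Pool.Agent.Lib.MP_ae5b4e_an_AZ.K2

/-!
# POR, (Z'): flatness from a small first mode; change of chart at one parameter
-/

noncomputable section

namespace Pool.Agent.MP_ae5b4e_an_AZ

open Complex Set Filter Topology Metric
open Pool.Agent.MP_ae5b4e_an_A1
open Pool.Agent.MP_ae5b4e_an_BX (Rec)
open Pool.Agent.MP_ae5b4e_an_A3 (rs md Dfc osc_le Per_osc Per_zero)
open Pool.Agent.MP_ae5b4e_an_A4 (am Per SN)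
open Pool.Agent.MP_ae5b4e_an_MERO (fo St fo_indep norm_fo_le hasSum_fo)

/-- FLAT FROM A SMALL FIRST MODE. Heights: bottom `y₁`, top `y₂`, `t` = the level: if the first mode
is at most `exp (- 2 π (t + η) / ε)` then at the heights `Im p.1 ≤ t - k + s` the function is equal to
its zero mode up to `2 exp (- 2 π (k + η / 2) / ε)`.

Proof. `flat1` with `d = k - 3 s`, `d' = k + η`: `p.1.im + (k - 3 s) ≤ t - 2 s < y₂`. The first mode term
is at most `exp (- 2 π (t + η) / ε) exp (2 π Im p.1 / ε) ≤ exp (- 2 π (k + η - s) / ε)`, and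
`η - s ≥ η / 2`. The error: `4 κ (exp (- 4 π (k - 3 s) / ε) + exp (- 2 π (k + η) / ε))` with
`2 (k - 3 s) ≥ k + η / 2` (from `6 s + η / 2 ≤ k`), and `8 κ ≤ 1`. -/
theorem Fn.flat {ε y₁ y₂ κ : ℝ} {D : Set ℂ} {F : ℂ × ℂ → ℂ} (hε : 0 < ε) (h : Fn ε y₁ y₂ κ D F)
    (hκ : 8 * κ ≤ 1) {t k s η : ℝ} (hs : 0 < s) (hsη : 2 * s ≤ η) (hk : 6 * s + η / 2 ≤ k)
    (hεk : ε ≤ k - 3 * s) (hy₂ : t - s ≤ y₂) {p : ℂ × ℂ} (hp : p.2 ∈ D)
    (h1 : y₁ + (k + η) < p.1.im) (h2 : p.1.im ≤ t - k + s) {y : ℝ} (hy : y ∈ Ioo y₁ y₂)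
    (hm : ‖md ε y F (-1) p.2‖ ≤ Real.exp (-(2 * Real.pi / ε * (t + η)))) :
    ‖F p - md ε y F 0 p.2‖ ≤ 2 * Real.exp (-(2 * Real.pi / ε * (k + η / 2))) := by
  have hpi := Real.pi_pos
  have hN : 0 < 2 * Real.pi / ε := by positivity
  have h3 := h.flat1 hε (d := k - 3 * s) (d' := k + η) hεk (by linarith) hp h1 (by linarith) hy
  obtain ⟨N, hNd⟩ : ∃ N : ℝ, N = 2 * Real.pi / ε := ⟨_, rfl⟩
  obtain ⟨E, hE⟩ : ∃ E : ℝ, E = Real.exp (-(2 * Real.pi / ε * (k + η / 2))) := ⟨_, rfl⟩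
  have hE0 : 0 < E := by
    rw [hE]
    exact Real.exp_pos _
  have e1 : Real.exp (-(4 * Real.pi / ε * (k - 3 * s))) ≤ E := by
    rw [hE]
    refine Real.exp_le_exp.2 ?_
    have h4 : 4 * Real.pi / ε * (k - 3 * s) = 2 * Real.pi / ε * (2 * (k - 3 * s)) := by ring
    rw [h4]
    have h5 := mul_le_mul_of_nonneg_left (show k + η / 2 ≤ 2 * (k - 3 * s) by linarith) hN.le
    linarith
  have e2 : Real.exp (-(2 * Real.pi / ε * (k + η))) ≤ E := by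
    rw [hE]
    refine Real.exp_le_exp.2 ?_
    have h5 := mul_le_mul_of_nonneg_left (show k + η / 2 ≤ k + η by linarith) hN.le
    linarith
  have e3 : ‖md ε y F (-1) p.2 * cexp (-(2 * Real.pi * I * p.1 / ε))‖ ≤ E := by
    rw [norm_mul, Complex.norm_exp]
    have h4 : (-(2 * Real.pi * I * p.1 / ε) : ℂ).re = 2 * Real.pi / ε * p.1.im := by
      have h5 : (-(2 * Real.pi * I * p.1 / ε) : ℂ) = ((2 * Real.pi / ε : ℝ) : ℂ) * (-(I * p.1)) := by
        push_cast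
        ring
      rw [h5, re_ofReal_mul]
      simp
    rw [h4]
    calc ‖md ε y F (-1) p.2‖ * Real.exp (2 * Real.pi / ε * p.1.im)
        ≤ Real.exp (-(2 * Real.pi / ε * (t + η))) * Real.exp (2 * Real.pi / ε * p.1.im) :=
          mul_le_mul_of_nonneg_right hm (Real.exp_pos _).le
      _ ≤ E := by
          rw [← Real.exp_add, hE]
          refine Real.exp_le_exp.2 ?_
          have h5 := mul_le_mul_of_nonneg_left
            (show k + η / 2 ≤ t + η - p.1.im by linarith) hN.le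
          linarith
  have e4 : 4 * κ * (Real.exp (-(4 * Real.pi / ε * (k - 3 * s))) +
      Real.exp (-(2 * Real.pi / ε * (k + η)))) ≤ E := by
    have h5 := Real.exp_pos (-(4 * Real.pi / ε * (k - 3 * s)))
    have h6 := Real.exp_pos (-(2 * Real.pi / ε * (k + η)))
    nlinarith
  rw [← hE]
  have e5 : F p - md ε y F 0 p.2 = (F p - md ε y F 0 p.2 -
      md ε y F (-1) p.2 * cexp (-(2 * Real.pi * I * p.1 / ε))) +
      md ε y F (-1) p.2 * cexp (-(2 * Real.pi * I * p.1 / ε)) := by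
    ring
  rw [e5]
  refine (norm_add_le _ _).trans ?_
  linarith

/-- CHANGE OF CHART, one parameter. `F` at the parameter `γ` with level `t`, heights above `y₁`;
`F'` at the parameter `c` with level `t'`; the oscillations at corresponding heights are related.

Proof. Apply `Fn.flat` to `F` (with `D = {γ}`, level `t`): at the points `P = (θ + τ, γ)` with
`Im θ = t' - k`, `Im τ = t - t'`: `‖F P - md0‖ ≤ 2 exp (- 2 π (k + η / 2) / ε)`. So
`‖F' (θ, c) - F' (θ₀, c)‖ ≤ 4 L exp (..)` for all `θ, θ₀` on the line `Im = t' - k`, and `md_osc` for `F'`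
at the height `t' - k`: `‖md ε (t' - k) F' (-1) c‖ ≤ 4 L exp (- 2 π (k + η / 2) / ε) exp (- 2 π (t' - k) / ε)`. -/
theorem one_flat {ε y₁ y₂ κ t t' k s η L : ℝ} {F F' : ℂ × ℂ → ℂ} {γ c τ : ℂ} (hε : 0 < ε)
    (h : Fn ε y₁ y₂ κ {γ} F) (hκ : 8 * κ ≤ 1) (hs : 0 < s) (hsη : 2 * s ≤ η)
    (hk : 6 * s + η / 2 ≤ k) (hεk : ε ≤ k - 3 * s) (hy₂ : t - s ≤ y₂) (hy₁ : y₁ + (k + η) < t - k)
    (hτ : τ.im = t - t') (hL : 0 ≤ L)
    (hF' : ∀ θ : ℂ, θ.im = t' - k → AnalyticAt ℂ F' (θ, c))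
    (hrel : ∀ θ θ₀ : ℂ, θ.im = t' - k → θ₀.im = t' - k →
      ‖F' (θ, c) - F' (θ₀, c)‖ ≤ L * ‖F (θ + τ, γ) - F (θ₀ + τ, γ)‖) {y : ℝ} (hy : y ∈ Ioo y₁ y₂)
    (hm : ‖md ε y F (-1) γ‖ ≤ Real.exp (-(2 * Real.pi / ε * (t + η)))) :
    ‖md ε (t' - k) F' (-1) c‖ ≤ 4 * L * Real.exp (-(2 * Real.pi / ε * (t' + η / 2))) := by
  have hfl : ∀ θ : ℂ, θ.im = t' - k → ‖F (θ + τ, γ) - md ε y F 0 γ‖ ≤
      2 * Real.exp (-(2 * Real.pi / ε * (k + η / 2))) := by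
    intro θ hθ
    have him : ((θ + τ, γ) : ℂ × ℂ).1.im = t - k := by
      show (θ + τ).im = t - k
      rw [add_im, hθ, hτ]
      ring
    refine h.flat hε hκ hs hsη hk hεk hy₂ (p := (θ + τ, γ)) rfl ?_ ?_ hy hm
    · rw [him]
      exact hy₁
    · rw [him]
      linarith
  have hosc : ∀ θ θ₀ : ℂ, θ.im = t' - k → θ₀.im = t' - k →
      ‖F' (θ, c) - F' (θ₀, c)‖ ≤ 4 * L * Real.exp (-(2 * Real.pi / ε * (k + η / 2))) := by
    intro θ θ₀ hθ hθ₀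
    refine (hrel θ θ₀ hθ hθ₀).trans ?_
    have h1 : ‖F (θ + τ, γ) - F (θ₀ + τ, γ)‖ ≤
        2 * Real.exp (-(2 * Real.pi / ε * (k + η / 2))) +
        2 * Real.exp (-(2 * Real.pi / ε * (k + η / 2))) := by
      have e : F (θ + τ, γ) - F (θ₀ + τ, γ) =
          (F (θ + τ, γ) - md ε y F 0 γ) - (F (θ₀ + τ, γ) - md ε y F 0 γ) := by ring
      rw [e]
      exact (norm_sub_le _ _).trans (add_le_add (hfl θ hθ) (hfl θ₀ hθ₀))
    have h2 := mul_le_mul_of_nonneg_left h1 hL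
    linarith
  have him : ∀ x : ℝ, ((ε : ℂ) * x + ((t' - k : ℝ) : ℂ) * I).im = t' - k := by
    intro x
    have e : ((ε : ℂ) * x + ((t' - k : ℝ) : ℂ) * I) = (((ε * x : ℝ) : ℂ)) + ((t' - k : ℝ) : ℂ) * I := by
      push_cast
      ring
    rw [e]
    simp
  have h1 := md_osc (F := F') hε (y := t' - k) (c := c)
    (v := F' (((ε : ℂ) * (0 : ℝ) + ((t' - k : ℝ) : ℂ) * I), c))
    (δ := 4 * L * Real.exp (-(2 * Real.pi / ε * (k + η / 2))))
    (fun x _ => hF' _ (him x)) (fun x _ => hosc _ _ (him x) (him 0))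
  refine h1.trans (le_of_eq ?_)
  rw [mul_assoc, ← Real.exp_add]
  congr 2
  ring

end Pool.Agent.MP_ae5b4e_an_AZ
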