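import Pool.Agent.Lib.MP_ae5b4e_an_AZ.K1

/-!
# POR, (Z'): the first modes of a sequence of kicks
-/

noncomputable section

namespace Pool.Agent.MP_ae5b4e_an_AZ

open Complex Set Filter Topology Metric
open Pool.Agent.MP_ae5b4e_an_A1
open Pool.Agent.MP_ae5b4e_an_BX (Rec)
open Pool.Agent.MP_ae5b4e_an_A3 (rs md Dfc osc_le Per_osc Per_zero)
open Pool.Agent.MP_ae5b4e_an_A4 (am Per SN)
open Pool.Agent.MP_ae5b4e_an_MERO (fo St fo_indep norm_fo_le hasSum_fo)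

variable {U : Ultrafilter ℕ} {ε : ℕ → ℝ} {R : Set (ℝ × ℂ)} {X : ℕ → ℂ × ℂ → ℂ × ℂ}

/-- Proof. Tube lemma: `Icc a₁ a₂` is compact (`generalized_tube_lemma`, or sequences as in
`A1.isOpen_PO`). -/
theorem isOpen_Rp {Ω : Set (ℂ × ℂ)} (hΩ : IsOpen Ω) (a₁ a₂ : ℝ) : IsOpen (Rp Ω a₁ a₂) := by
  rw [isOpen_iff_mem_nhds]
  intro x hx
  refine isCompact_Icc.eventually_forall_of_forall_eventually (x₀ := x) (K := Icc a₁ a₂)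
    (P := fun (x : ℝ × ℂ) (s : ℝ) => ((⟨s, x.1⟩ : ℂ), x.2) ∈ Ω) fun s hs => ?_
  have hc : Continuous fun z : (ℝ × ℂ) × ℝ => ((⟨z.2, z.1.1⟩ : ℂ), z.1.2) := by
    simp only [Complex.mk_eq_add_mul_I]
    fun_prop
  exact hc.continuousAt.preimage_mem_nhds (hΩ.mem_nhds (hx s hs))

/-- The single `n` structures. Proof. `K := Icc y₁ y₂ ×ˢ closedBall c₀ r` is compact and `⊆ R`; the
components of an analytic map are analytic, `‖(X n p).1‖, ‖(X n p).2‖ ≤ ‖X n p‖ ≤ κ`. -/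
theorem Pd.fn (h : Pd U ε R X) {y₁ y₂ κ r : ℝ} {c₀ : ℂ} (hκ : 0 < κ)
    (hR : ∀ y ∈ Icc y₁ y₂, ∀ c ∈ closedBall c₀ r, (y, c) ∈ R) : ∀ᶠ n in (U : Filter ℕ),
      Fn (ε n) y₁ y₂ κ (ball c₀ r) (fun p => (X n p).1) ∧
        Fn (ε n) y₁ y₂ κ (ball c₀ r) (fun p => (X n p).2) := by
  have hK : IsCompact (Icc y₁ y₂ ×ˢ closedBall c₀ r) :=
    isCompact_Icc.prod (isCompact_closedBall c₀ r)
  have hKR : Icc y₁ y₂ ×ˢ closedBall c₀ r ⊆ R := fun x hx => hR x.1 hx.1 x.2 hx.2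
  filter_upwards [h.an _ hKR hK, h.lim _ hKR hK κ hκ] with n h1 h2
  have hpc : ∀ p : ℂ × ℂ, y₁ < p.1.im → p.1.im < y₂ → p.2 ∈ ball c₀ r →
      pc p ∈ Icc y₁ y₂ ×ˢ closedBall c₀ r := fun p a b c =>
    ⟨⟨a.le, b.le⟩, ball_subset_closedBall c⟩
  refine ⟨⟨fun p => ?_, fun p a b c => ?_, fun p a b c => ?_⟩,
    ⟨fun p => ?_, fun p a b c => ?_, fun p a b c => ?_⟩⟩
  · show (X n (tr (ε n) p)).1 = (X n p).1
    rw [h.per]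
  · exact analyticAt_fst.comp (h1 p (hpc p a b c))
  · exact (norm_fst_le _).trans (h2 p (hpc p a b c))
  · show (X n (tr (ε n) p)).2 = (X n p).2
    rw [h.per]
  · exact analyticAt_snd.comp (h1 p (hpc p a b c))
  · exact (norm_snd_le _).trans (h2 p (hpc p a b c))

/-- holomorphy of the first mode. Proof. `Pd.fn`, `Fn.md_diff`. -/
theorem Pd.fm_diff (h : Pd U ε R X) (h0 : ∀ n, 0 < ε n) {y₁ y₂ y r : ℝ} {c₀ : ℂ}
    (hy : y ∈ Ioo y₁ y₂) (hR : ∀ y ∈ Icc y₁ y₂, ∀ c ∈ closedBall c₀ r, (y, c) ∈ R) :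
    ∀ᶠ n in (U : Filter ℕ), DifferentiableOn ℂ (fm ε y X n) (ball c₀ r) := by
  filter_upwards [h.fn one_pos hR] with n hn
  exact hn.2.md_diff (h0 n) isOpen_ball hy (-1)

/-- UPPER BOUND of the first mode by the height `y₂`. Proof. `Pd.fn` with `κ = 1`, `Fn.md_le` at
`y' = y₂`, `m = -1`: `exp (2 π (-1) y₂ / ε) = exp (- y₂ * NN ε n)`. -/
theorem Pd.fm_le (h : Pd U ε R X) (h0 : ∀ n, 0 < ε n) {y₁ y₂ y r : ℝ} {c₀ : ℂ}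
    (hy : y ∈ Ioo y₁ y₂) (hR : ∀ y ∈ Icc y₁ y₂, ∀ c ∈ closedBall c₀ r, (y, c) ∈ R) :
    ∀ᶠ n in (U : Filter ℕ), ∀ c ∈ ball c₀ r, ‖fm ε y X n c‖ ≤ Real.exp (-y₂ * NN ε n) := by
  filter_upwards [h.fn one_pos hR] with n hn c hc
  have h1 := hn.2.md_le (h0 n) hc hy (y' := y₂) ⟨(hy.1.trans hy.2).le, le_rfl⟩ (-1)
  refine h1.trans (le_of_eq ?_)
  rw [one_mul, NN]
  congr 1
  push_cast
  ring

/-- the height is irrelevant. Proof. `Pd.fn`, `Fn.md_indep`. -/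
theorem Pd.fm_indep (h : Pd U ε R X) (h0 : ∀ n, 0 < ε n) {y₁ y₂ y y' r : ℝ} {c₀ : ℂ}
    (hy : y ∈ Ioo y₁ y₂) (hy' : y' ∈ Ioo y₁ y₂)
    (hR : ∀ y ∈ Icc y₁ y₂, ∀ c ∈ closedBall c₀ r, (y, c) ∈ R) :
    ∀ᶠ n in (U : Filter ℕ), ∀ c ∈ ball c₀ r, fm ε y X n c = fm ε y' X n c := by
  filter_upwards [h.fn one_pos hR] with n hn c hc
  exact hn.2.md_indep (h0 n) hc hy hy' (-1)

end Pool.Agent.MP_ae5b4e_an_AZ
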