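import Pool.Agent.Lib.MP_ae5b4e_an_AZ.K12a
import Pool.Agent.Lib.MP_ae5b4e_an_AZ.K11b
import Pool.Agent.Lib.MP_ae5b4e_an_AZ.K3
import Pool.Agent.Lib.MP_ae5b4e_an_AZ.K5

/-!
# POR, (Z'): charts: lower bounds of the first modes
-/

noncomputable section

namespace Pool.Agent.MP_ae5b4e_an_AZ

open Complex Set Filter Topology Metric
open Pool.Agent.MP_ae5b4e_an_A1
open Pool.Agent.MP_ae5b4e_an_BX (Rec)
open Pool.Agent.MP_ae5b4e_an_A3 (rs md Dfc osc_le Per_osc Per_zero)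
open Pool.Agent.MP_ae5b4e_an_A4 (am Per SN)
open Pool.Agent.MP_ae5b4e_an_MERO (fo St fo_indep norm_fo_le hasSum_fo)

variable {U : Ultrafilter ℕ} {ε : ℕ → ℝ} {M Ω : Set (ℂ × ℂ)} {g : ℂ × ℂ → ℂ × ℂ}
  {gn : ℕ → ℂ × ℂ → ℂ × ℂ} {z : ℂ × ℂ → ℂ × ℂ} {D : Set ℂ} {τ σ : ℂ → ℂ}

theorem K12b_tube {R : Set (ℝ × ℂ)} (hR : IsOpen R) {K : Set ℝ} (hK : IsCompact K) {c : ℂ}
    (h : ∀ y ∈ K, (y, c) ∈ R) :
    ∃ r : ℝ, 0 < r ∧ ∀ y ∈ K, ∀ c' ∈ closedBall c r, (y, c') ∈ R := by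
  have h0 : K ×ˢ ({c} : Set ℂ) ⊆ R := by
    rintro ⟨y, c'⟩ ⟨hy, hc'⟩
    have hc'' : c' = c := hc'
    rw [hc'']
    exact h y hy
  obtain ⟨u, v, hu, hv, h1, h2, h3⟩ := generalized_tube_lemma hK isCompact_singleton hR h0
  obtain ⟨ρ, hρ, h4⟩ := Metric.isOpen_iff.1 hv c (h2 rfl)
  refine ⟨ρ / 2, by positivity, fun y hy c' hc' => h3 ⟨h1 hy, h4 ?_⟩⟩
  exact (mem_closedBall.1 hc').trans_lt (by linarith)

theorem K12b_indep {U : Ultrafilter ℕ} {ε : ℕ → ℝ} {R : Set (ℝ × ℂ)}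
    {X : ℕ → ℂ × ℂ → ℂ × ℂ} (hRo : IsOpen R) (h : Pd U ε R X) (h0 : ∀ n, 0 < ε n)
    {y₁ t : ℝ} {c : ℂ} (hR : ∀ y ∈ Ioo y₁ t, (y, c) ∈ R) {y y' : ℝ} (hy : y ∈ Ioo y₁ t)
    (hy' : y' ∈ Ioo y₁ t) : ∀ᶠ n in (U : Filter ℕ), fm ε y X n c = fm ε y' X n c := by
  have a1 : y₁ < min y y' := lt_min hy.1 hy'.1
  have a2 : max y y' < t := max_lt hy.2 hy'.2
  have a3 : min y y' ≤ y := min_le_left _ _
  have a4 : min y y' ≤ y' := min_le_right _ _
  have a5 : y ≤ max y y' := le_max_left _ _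
  have a6 : y' ≤ max y y' := le_max_right _ _
  obtain ⟨r, hr, h2⟩ := K12b_tube hRo
    (isCompact_Icc (a := (y₁ + min y y') / 2) (b := (t + max y y') / 2)) (c := c)
    (fun x hx => hR x ⟨by linarith [hx.1], by linarith [hx.2]⟩)
  have h3 := h.fm_indep h0 (y := y) (y' := y') ⟨by linarith, by linarith⟩
    ⟨by linarith, by linarith⟩ h2
  filter_upwards [h3] with n hn
  exact hn c (mem_ball_self hr)

/-- LOWER BOUNDS, one parameter, chart without shift: the first mode of `X'` (kick of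
`Zl ∘ ch 0 σ, Zr ∘ ch 0 σ`) at `c₀` has a lower bound of rate `t`, so has the first mode of `X` at
`σ c₀`. All heights in `(y₁, t)` are admissible for both.

Proof. Suppose the claim fails for `δ`; `U` is an ultrafilter, so `‖fm ε y X n γ₀‖ < exp (- (t + δ) NN)` for
almost all `n`. `k := (t - y₁) / 16`, `η := min δ (k / 2)`, `s := η / 16`; `ch_rel` with `Kh = {t - k}` (`τ = 0`);
`one_flat` with `F := (X n ·).2` at `γ₀ = σ c₀`, `F' := (X' n ·).2` at `c₀`, `t' = t`, `τ = 0`, `y₁ := t - 4 k`,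
`L` from `inv_lip`: `‖fm ε (t - k) X' n c₀‖ ≤ 4 L exp (- (t + η / 2) NN) < exp (- (t + η / 4) NN)` for `n` large,
against the hypothesis for `η / 4` (`Pd.fm_indep` moves the heights). -/
theorem chart_low (hV : VF U ε M g gn) (hz : Fw M g Ω z) {Or : Set (ℂ × ℂ)} (hOr : IsOpen Or)
    (hOrΩ : Or ⊆ Ω) {Zl Zr X X' : ℕ → ℂ × ℂ → ℂ × ℂ} (er : Ex U ε gn Or z Zr) (hD : IsOpen D)
    (hσ : AnalyticOnNhd ℂ σ D) {c₀ : ℂ} (hc₀ : c₀ ∈ D) (hσ' : deriv σ c₀ ≠ 0) {al ar : ℝ}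
    (ha : al < ar) {R R' : Set (ℝ × ℂ)} (hRo : IsOpen R) (hRo' : IsOpen R') {y₁ t y y' : ℝ}
    (hy₁ : y₁ < t) (hR : ∀ y ∈ Ioo y₁ t, (y, σ c₀) ∈ R) (hR' : ∀ y ∈ Ioo y₁ t, (y, c₀) ∈ R')
    (hX : Kk U ε gn al ar R Zl Zr X)
    (hX' : Kk U ε gn al ar R' (fun n => Zl n ∘ ch 0 σ) (fun n => Zr n ∘ ch 0 σ) X')
    (h3 : ∀ y ∈ Ioo y₁ t, ((⟨ar, y⟩ : ℂ), σ c₀) ∈ Or) (hy : y ∈ Ioo y₁ t) (hy' : y' ∈ Ioo y₁ t)
    (hlow : ∀ δ : ℝ, 0 < δ → ∀ᶠ n in (U : Filter ℕ),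
      Real.exp (-((t + δ) * NN ε n)) ≤ ‖fm ε y' X' n c₀‖) :
    ∀ δ : ℝ, 0 < δ → ∀ᶠ n in (U : Filter ℕ),
      Real.exp (-((t + δ) * NN ε n)) ≤ ‖fm ε y X n (σ c₀)‖ := by
  intro δ hδ
  by_contra hcon
  have hcon' := Ultrafilter.eventually_not.2 hcon
  have h0 := hV.ε_pos
  have hN := NN_lim h0 hV.ε_lim
  obtain ⟨k, hk⟩ : ∃ k : ℝ, k = (t - y₁) / 16 := ⟨_, rfl⟩
  have hk0 : 0 < k := by
    rw [hk]
    linarith
  have hkt : y₁ < t - 4 * k := by
    rw [hk]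
    linarith
  obtain ⟨η, hη⟩ : ∃ η : ℝ, η = min δ (k / 2) := ⟨_, rfl⟩
  have hη0 : 0 < η := by
    rw [hη]
    exact lt_min hδ (by linarith)
  have hηδ : η ≤ δ := by
    rw [hη]
    exact min_le_left _ _
  have hηk : η ≤ k / 2 := by
    rw [hη]
    exact min_le_right _ _
  obtain ⟨s, hs⟩ : ∃ s : ℝ, s = η / 16 := ⟨_, rfl⟩
  have hs0 : 0 < s := by
    rw [hs]
    linarith
  have htk : t - k ∈ Ioo y₁ t := ⟨by linarith, by linarith⟩
  have ht2 : t - 2 * k ∈ Ioo y₁ t := ⟨by linarith, by linarith⟩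
  obtain ⟨L, ρ, hL, hρ, hlip⟩ := inv_lip (hσ c₀ hc₀) hσ'
  -- the relation of the kicks
  have hX0 : Kk U ε gn (al + ((0 : ℂ → ℂ) c₀).re) (ar + ((0 : ℂ → ℂ) c₀).re) R Zl Zr X := by
    simpa using hX
  have hKh : ∀ y ∈ ({t - k} : Set ℝ), y = t - k := fun y hy => hy
  obtain ⟨ρ₁, hρ₁, hrel⟩ := ch_rel (τ := 0) hV hz hOr hOrΩ er hD analyticOnNhd_const hσ hc₀ ha
    hRo hRo' hX0 hX' (Kh := {t - k}) isCompact_singleton
    (fun y hy => by rw [hKh y hy]; exact hR' _ htk)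
    (fun y hy => by
      rw [hKh y hy]
      have := hR _ htk
      simpa using this)
    (fun y hy => by
      rw [hKh y hy]
      have := h3 _ htk
      simpa using this)
  -- the structure of `X`
  obtain ⟨r, hr, hrR⟩ := K12b_tube hRo (isCompact_Icc (a := t - 4 * k) (b := t - s)) (c := σ c₀)
    (fun x hx => hR x ⟨by linarith [hx.1], by linarith [hx.2]⟩)
  have hfn := hX.pd.fn (κ := 1 / 8) (by norm_num) hrR
  -- the point of height `t - k` for `X'`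
  have hK' : ({(t - k, c₀)} : Set (ℝ × ℂ)) ⊆ R' := by
    rintro x hx
    have hx' : x = (t - k, c₀) := hx
    rw [hx']
    exact hR' _ htk
  have han := hX'.pd.an _ hK' isCompact_singleton
  have hlm := hX'.pd.lim _ hK' isCompact_singleton (ρ / 2) (by positivity)
  have hi1 := K12b_indep hRo hX.pd h0 hR hy ht2
  have hi2 := K12b_indep hRo' hX'.pd h0 hR' hy' htk
  have hlo := hlow (η / 4) (by positivity)
  have hbig : ∀ᶠ n in (U : Filter ℕ), 4 * L < Real.exp (η / 4 * NN ε n) := by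
    have e1 : Tendsto (fun n => Real.exp (η / 4 * NN ε n)) (U : Filter ℕ) atTop :=
      Real.tendsto_exp_atTop.comp (hN.const_mul_atTop (by positivity))
    exact e1.eventually (eventually_gt_atTop _)
  have hsm : ∀ᶠ n in (U : Filter ℕ), ε n < k - 3 * s :=
    hV.ε_lim.eventually (gt_mem_nhds (by linarith))
  have hF : ∀ᶠ _n in (U : Filter ℕ), False := by
    filter_upwards [hcon', hrel, hfn, han, hlm, hi1, hi2, hlo, hbig, hsm] with n b1 b2 b3 b4 b5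
      b6 b7 b8 b9 b10
    have hNN : NN ε n = 2 * Real.pi / ε n := rfl
    have hNp := NN_pos h0 n
    have c1 : Fn (ε n) (t - 4 * k) (t - s) (1 / 8) {σ c₀} (fun p => (X n p).2) :=
      b3.2.mono le_rfl le_rfl le_rfl (Set.singleton_subset_iff.2 (mem_ball_self hr))
    have c2 : ∀ θ : ℂ, θ.im = t - k →
        σ (c₀ + (X' n (θ, c₀)).2) = σ c₀ + (X n (θ + 0, σ c₀)).2 := by
      intro θ hθ
      have d1 := b2 (θ, c₀) hθ (mem_ball_self hρ₁)
      have d2 := congrArg Prod.snd d1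
      simpa [ch] using d2
    have c3 : ∀ θ : ℂ, θ.im = t - k → c₀ + (X' n (θ, c₀)).2 ∈ ball c₀ ρ := by
      intro θ hθ
      have d1 := b5 (θ, c₀) (by
        show (θ.im, c₀) = (t - k, c₀)
        rw [hθ])
      rw [mem_ball, dist_eq_norm, add_sub_cancel_left]
      exact ((norm_snd_le _).trans d1).trans_lt (by linarith)
    have c4 := one_flat (t := t) (t' := t) (F' := fun p => (X' n p).2) (c := c₀) (τ := 0)
      (h0 n) c1 (by norm_num) hs0 (η := η) (by linarith) (k := k) (by linarith) b10.le le_rfl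
      (by linarith) (by simp) hL.le
      (fun θ hθ => by
        have d1 := b4 (θ, c₀) (by
          show (θ.im, c₀) = (t - k, c₀)
          rw [hθ])
        exact analyticAt_snd.comp d1)
      (fun θ θ₀ hθ hθ₀ => by
        have d1 := (hlip _ (c3 θ hθ) _ (c3 θ₀ hθ₀)).1
        rw [c2 θ hθ, c2 θ₀ hθ₀] at d1
        rw [add_sub_add_left_eq_sub, add_sub_add_left_eq_sub] at d1
        exact d1) (y := t - 2 * k) ⟨by linarith, by linarith⟩
      (by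
        push Not at b1
        have d1 : ‖fm ε (t - 2 * k) X n (σ c₀)‖ ≤ Real.exp (-((t + δ) * NN ε n)) := by
          rw [← b6]
          exact b1.le
        refine d1.trans (Real.exp_le_exp.2 ?_)
        rw [← hNN]
        have d2 : η * NN ε n ≤ δ * NN ε n := mul_le_mul_of_nonneg_right hηδ hNp.le
        linarith)
    have c5 : ‖fm ε (t - k) X' n c₀‖ ≤ 4 * L * Real.exp (-(2 * Real.pi / ε n * (t + η / 2))) :=
      c4
    rw [b7] at b8
    have c6 := b8.trans c5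
    rw [← hNN] at c6
    have c7 : Real.exp (-((t + η / 4) * NN ε n)) =
        Real.exp (η / 4 * NN ε n) * Real.exp (-(NN ε n * (t + η / 2))) := by
      rw [← Real.exp_add]
      congr 1
      ring
    rw [c7] at c6
    have c8 := le_of_mul_le_mul_right c6 (Real.exp_pos _)
    linarith
  exact hF.exists.choose_spec

end Pool.Agent.MP_ae5b4e_an_AZ
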