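import Pool.Agent.Lib.MP_ae5b4e_an_AZ.K7
import Pool.Agent.Lib.MP_ae5b4e_an_AZ.K5

/-!
# POR, (Z'): existence of the kick of a regular passage
-/

noncomputable section

namespace Pool.Agent.MP_ae5b4e_an_AZ

open Complex Set Filter Topology Metric
open Pool.Agent.MP_ae5b4e_an_A1
open Pool.Agent.MP_ae5b4e_an_BX (Rec)
open Pool.Agent.MP_ae5b4e_an_A3 (rs md Dfc osc_le Per_osc Per_zero)
open Pool.Agent.MP_ae5b4e_an_A4 (am Per SN)
open Pool.Agent.MP_ae5b4e_an_MERO (fo St fo_indep norm_fo_le hasSum_fo)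

variable {U : Ultrafilter ℕ} {ε : ℕ → ℝ} {M Ω : Set (ℂ × ℂ)} {g : ℂ × ℂ → ℂ × ℂ}
  {gn : ℕ → ℂ × ℂ → ℂ × ℂ} {z : ℂ × ℂ → ℂ × ℂ}

/-- the points over `K` at the abscissa `a` -/
private def K8_at (a : ℝ) (x : ℝ × ℂ) : ℂ × ℂ := ((⟨a, x.1⟩ : ℂ), x.2)

private theorem K8_cpt (a : ℝ) {K : Set (ℝ × ℂ)} (hK : IsCompact K) :
    IsCompact (K8_at a '' K) := by
  refine hK.image ?_
  have h : K8_at a = fun x : ℝ × ℂ => ((a : ℂ) + (x.1 : ℂ) * I, x.2) := by
    funext x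
    unfold K8_at
    rw [Complex.mk_eq_add_mul_I]
  rw [h]
  fun_prop

private theorem K8_dist (a : ℝ) (p : ℂ × ℂ) : dist p (K8_at a (pc p)) = |p.1.re - a| := by
  have e : p.1 - (⟨a, p.1.im⟩ : ℂ) = ((p.1.re - a : ℝ) : ℂ) := by
    apply Complex.ext
    · simp
    · simp
  change dist p ((⟨a, p.1.im⟩ : ℂ), p.2) = _
  rw [Prod.dist_eq, dist_self, max_eq_left dist_nonneg, dist_eq_norm, e, norm_real,
    Real.norm_eq_abs]

private theorem K8_mem {a d : ℝ} {K : Set (ℝ × ℂ)} {p : ℂ × ℂ} (hp : pc p ∈ K)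
    (h : |p.1.re - a| ≤ d) : p ∈ cthickening d (K8_at a '' K) := by
  refine mem_cthickening_of_dist_le p _ d _ (mem_image_of_mem _ hp) ?_
  rw [K8_dist]
  exact h

private theorem K8_mem' {a d e : ℝ} {K : Set (ℝ × ℂ)} {p x : ℂ × ℂ} (hp : pc p ∈ K)
    (h : |p.1.re - a| ≤ e) (hx : ‖x‖ ≤ d - e) : p + x ∈ cthickening d (K8_at a '' K) := by
  refine mem_cthickening_of_dist_le _ _ d _ (mem_image_of_mem _ hp) ?_
  refine (dist_triangle (p + x) p _).trans ?_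
  rw [K8_dist, dist_eq_norm, add_sub_cancel_left]
  linarith

private theorem K8_add (t : ℂ) (p x : ℂ × ℂ) : tr t (p + x) = tr t p + x := by
  ext
  · simp [tr]; ring
  · simp [tr]

/-- iteration of the conjugation -/
private theorem K8_it {e : ℝ} {G Z : ℂ × ℂ → ℂ × ℂ} {C : Set (ℂ × ℂ)}
    (h : ∀ p ∈ C, Z (tr (e : ℂ) p) = stp e G (Z p)) (p : ℂ × ℂ) (k : ℕ)
    (hp : ∀ i < k, tr ((i * e : ℝ) : ℂ) p ∈ C) :
    Z (tr ((k * e : ℝ) : ℂ) p) = (stp e G)^[k] (Z p) := by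
  induction k with
  | zero => simp [tr_zero]
  | succ k ih =>
    have h1 := h _ (hp k (Nat.lt_succ_self k))
    rw [tr_tr] at h1
    have e1 : ((e : ℂ) + ((k * e : ℝ) : ℂ)) = (((k + 1 : ℕ) * e : ℝ) : ℂ) := by
      push_cast
      ring
    rw [e1] at h1
    rw [h1, ih (fun i hi => hp i (hi.trans (Nat.lt_succ_self k))), Function.iterate_succ_apply']

private theorem K8_per {e : ℝ} {Y : ℂ × ℂ → ℂ × ℂ} (h : ∀ p, Y (tr (e : ℂ) p) = Y p) (k : ℕ)
    (p : ℂ × ℂ) : Y (tr ((k * e : ℝ) : ℂ) p) = Y p := by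
  induction k with
  | zero => simp [tr_zero]
  | succ k ih =>
    have e1 : (((k + 1 : ℕ) * e : ℝ) : ℂ) = ((e : ℂ) + ((k * e : ℝ) : ℂ)) := by
      push_cast
      ring
    rw [e1, ← tr_tr, h, ih]

/-- one `n` -/
private theorem K8_one {e w d al ar : ℝ} (he : 0 < e) (hew : e ≤ w / 4) (hwd : d = 8 * w)
    (ha : al < ar) {G Zl Zr Y : ℂ × ℂ → ℂ × ℂ} {K : Set (ℝ × ℂ)}
    (hl : ∀ p ∈ cthickening d (K8_at al '' K), Zl (tr (e : ℂ) p) = stp e G (Zl p))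
    (hr : ∀ p ∈ cthickening d (K8_at ar '' K), Zr (tr (e : ℂ) p) = stp e G (Zr p))
    (hY : ∀ p, Y (tr (e : ℂ) p) = Y p) (hYw : ∀ p, pc p ∈ K → ‖Y p‖ ≤ w)
    (hX : ∀ p : ℂ × ℂ, pc p ∈ K → ar ≤ p.1.re → p.1.re ≤ ar + e →
      Zr (p + Y p) = push e G ⌊(ar - al) / e⌋₊ Zl p)
    (q : ℂ × ℂ) (hq : pc q ∈ K) (hqa : |q.1.re - al| ≤ w) (m : ℕ) (hm1 : ar ≤ q.1.re + m * e)
    (hm2 : q.1.re + m * e ≤ ar + w) :
    Zr (tr ((m * e : ℝ) : ℂ) q + Y q) = (stp e G)^[m] (Zl q) := by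
  have hw : 0 < w := by linarith
  obtain ⟨j, hj⟩ : ∃ j : ℕ, j = ⌊(q.1.re + m * e - ar) / e⌋₊ := ⟨_, rfl⟩
  have hj1 : (j : ℝ) * e ≤ q.1.re + m * e - ar := by
    have h1 : (j : ℝ) ≤ (q.1.re + m * e - ar) / e := by
      rw [hj]
      exact Nat.floor_le (div_nonneg (by linarith) he.le)
    exact (le_div_iff₀ he).1 h1
  have hj2 : q.1.re + m * e - ar < (j : ℝ) * e + e := by
    have h1 : (q.1.re + m * e - ar) / e < (j : ℝ) + 1 := by
      rw [hj]
      exact Nat.lt_floor_add_one _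
    have h2 := (div_lt_iff₀ he).1 h1
    linarith
  obtain ⟨m₀, hm₀⟩ : ∃ m₀ : ℕ, m₀ = ⌊(ar - al) / e⌋₊ := ⟨_, rfl⟩
  have hm01 : (m₀ : ℝ) * e ≤ ar - al := by
    have h1 : (m₀ : ℝ) ≤ (ar - al) / e := by
      rw [hm₀]
      exact Nat.floor_le (div_nonneg (by linarith) he.le)
    exact (le_div_iff₀ he).1 h1
  have hm02 : ar - al < (m₀ : ℝ) * e + e := by
    have h1 : (ar - al) / e < (m₀ : ℝ) + 1 := by
      rw [hm₀]
      exact Nat.lt_floor_add_one _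
    have h2 := (div_lt_iff₀ he).1 h1
    linarith
  rw [← hm₀] at hX
  -- the points
  obtain ⟨p', hp'⟩ : ∃ p' : ℂ × ℂ, p' = tr ((m * e - j * e : ℝ) : ℂ) q := ⟨_, rfl⟩
  obtain ⟨u, hu⟩ : ∃ u : ℂ × ℂ, u = tr (-((m₀ * e : ℝ) : ℂ)) p' := ⟨_, rfl⟩
  have hp'K : pc p' ∈ K := by
    rw [hp', pc_tr]
    exact hq
  have hu' : u = tr ((m * e - j * e - m₀ * e : ℝ) : ℂ) q := by
    rw [hu, hp', tr_tr]
    congr 1
    push_cast
    ring
  have huK : pc u ∈ K := by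
    rw [hu', pc_tr]
    exact hq
  have hp're : p'.1.re = q.1.re + (m * e - j * e) := by
    rw [hp', tr_fst, Complex.add_re, Complex.ofReal_re]
  have hure : u.1.re = q.1.re + (m * e - j * e - m₀ * e) := by
    rw [hu', tr_fst, Complex.add_re, Complex.ofReal_re]
  -- the kick at the point `p'`
  have h1 := hX p' hp'K (by linarith) (by linarith)
  have h2 : push e G m₀ Zl p' = (stp e G)^[m₀] (Zl u) := by
    rw [hu]
    rfl
  -- on the right
  have h3 : Zr (tr ((j * e : ℝ) : ℂ) (p' + Y p')) = (stp e G)^[j] (Zr (p' + Y p')) := by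
    refine K8_it hr _ j fun i hi => ?_
    rw [K8_add]
    have hie : (i : ℝ) * e ≤ j * e := by
      have : (i : ℝ) ≤ j := by exact_mod_cast hi.le
      exact mul_le_mul_of_nonneg_right this he.le
    have hi0 : 0 ≤ (i : ℝ) * e := by positivity
    refine K8_mem' (e := 2 * w) (by rw [pc_tr]; exact hp'K) ?_ ?_
    · rw [tr_fst, Complex.add_re, Complex.ofReal_re, hp're, abs_le]
      constructor <;> linarith
    · have := hYw p' hp'K
      linarith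
  have h4 : tr ((j * e : ℝ) : ℂ) (p' + Y p') = tr ((m * e : ℝ) : ℂ) q + Y q := by
    rw [K8_add]
    congr 1
    · rw [hp', tr_tr]
      congr 1
      push_cast
      ring
    · rw [← K8_per hY j p', ← K8_per hY m q, hp', tr_tr]
      congr 2
      push_cast
      ring
  -- on the left
  have h5 : (stp e G)^[m] (Zl q) = (stp e G)^[j] ((stp e G)^[m₀] (Zl u)) := by
    rw [← Function.iterate_add_apply]
    have hq1 := abs_le.1 hqa
    rcases le_total m (j + m₀) with hle | hle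
    · obtain ⟨k, hk⟩ := Nat.exists_eq_add_of_le hle
      have hkR : (m₀ : ℝ) + j = m + k := by
        have : ((j + m₀ : ℕ) : ℝ) = ((m + k : ℕ) : ℝ) := by rw [hk]
        push_cast at this
        linarith
      have hke : (k : ℝ) * e = m₀ * e + j * e - m * e := by
        have : (k : ℝ) = m₀ + j - m := by linarith
        rw [this]
        ring
      have h6 : q = tr ((k * e : ℝ) : ℂ) u := by
        rw [hu', tr_tr, hke]
        have : ((m₀ * e + j * e - m * e : ℝ) : ℂ) + ((m * e - j * e - m₀ * e : ℝ) : ℂ) = 0 := by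
          push_cast
          ring
        rw [this, tr_zero]
      have h7 : Zl (tr ((k * e : ℝ) : ℂ) u) = (stp e G)^[k] (Zl u) := by
        refine K8_it hl _ k fun i hi => ?_
        have hie : (i : ℝ) * e ≤ k * e := by
          have : (i : ℝ) ≤ k := by exact_mod_cast hi.le
          exact mul_le_mul_of_nonneg_right this he.le
        have hi0 : 0 ≤ (i : ℝ) * e := by positivity
        refine K8_mem (by rw [pc_tr]; exact huK) ?_
        rw [tr_fst, Complex.add_re, Complex.ofReal_re, hure, abs_le]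
        constructor <;> linarith
      rw [← h6] at h7
      rw [h7, ← Function.iterate_add_apply, hk]
    · obtain ⟨k, hk⟩ := Nat.exists_eq_add_of_le hle
      have hke : (k : ℝ) * e = m * e - j * e - m₀ * e := by
        have : (m : ℝ) = j + m₀ + k := by
          rw [hk]
          push_cast
          ring
        rw [this]
        ring
      have h6 : u = tr ((k * e : ℝ) : ℂ) q := by
        rw [hu', hke]
      have h7 : Zl (tr ((k * e : ℝ) : ℂ) q) = (stp e G)^[k] (Zl q) := by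
        refine K8_it hl _ k fun i hi => ?_
        have hie : (i : ℝ) * e ≤ k * e := by
          have : (i : ℝ) ≤ k := by exact_mod_cast hi.le
          exact mul_le_mul_of_nonneg_right this he.le
        have hi0 : 0 ≤ (i : ℝ) * e := by positivity
        refine K8_mem (by rw [pc_tr]; exact hq) ?_
        rw [tr_fst, Complex.add_re, Complex.ofReal_re, abs_le]
        constructor <;> linarith
      rw [h6, h7, ← Function.iterate_add_apply, hk]
  rw [← h4, h3, h1, h2, h5]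

/-- one relation with the step number `⌊(ar - al) / ε⌋` at the abscissas in `[ar, ar + ε]` gives the
relation for all step numbers.

Proof. Let `K ⊆ R` be compact; `Kl := {p | p.1.re = al ∧ pc p ∈ K} ⊆ Ol`, `Kr := {p | p.1.re = ar ∧ pc p ∈ K} ⊆
Or` are compact: `d > 0` with `cthickening d Kl ⊆ Ol`, `cthickening d Kr ⊆ Or`. `w := d / 8`. For almost all
`n`: `ε n ≤ w / 4`, `Ex.eq` for `Zl`, `Zr` on the thickenings, `hX` for `K`, `‖X n p‖ ≤ w` over `K`. Let `q, m`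
be given, `p := tr (m ε) q`, `j := ⌊(p.1.re - ar) / ε⌋₊`, `p' := tr (- j ε) p` (abscissa in
`[ar, ar + ε]`), `m₀ := ⌊(ar - al) / ε⌋₊`, `u := tr (- m₀ ε) p'` (abscissa in `[al, al + 2 ε]`). With the
integer `k := m₀ + j - m`: `q = tr (k ε) u`, `|k| ε ≤ w + 2 ε`. If `0 ≤ k`: `Zl q = Φ^[k] (Zl u)` (`k`
applications of `Ex.eq` in `cthickening d Kl`), so `Φ^[m] (Zl q) = Φ^[m + k] (Zl u) = Φ^[j] (Φ^[m₀] (Zl u))`.
If `k < 0`: `Zl u = Φ^[-k] (Zl q)` and `m = j + m₀ + (-k)`, so again `Φ^[m] (Zl q) = Φ^[j] (Φ^[m₀] (Zl u))`.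
`hX` at `p'`: `Φ^[m₀] (Zl u) = push m₀ Zl p' = Zr (p' + X p')`, and `Φ^[j] (Zr (p' + X p')) =
Zr (tr (j ε) (p' + X p')) = Zr (p + X p')` (`Ex.eq` in `cthickening d Kr`), `X p' = X q` (periodicity). -/
theorem rel_all (h0 : ∀ n, 0 < ε n) (h1 : Tendsto ε U (𝓝 0)) {al ar : ℝ} (ha : al < ar)
    {Ol Or : Set (ℂ × ℂ)} (hOl : IsOpen Ol) (hOr : IsOpen Or) {Zl Zr X : ℕ → ℂ × ℂ → ℂ × ℂ}
    (hl : Ex U ε gn Ol z Zl) (hr : Ex U ε gn Or z Zr) {R : Set (ℝ × ℂ)}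
    (hRl : ∀ x ∈ R, ((⟨al, x.1⟩ : ℂ), x.2) ∈ Ol) (hRr : ∀ x ∈ R, ((⟨ar, x.1⟩ : ℂ), x.2) ∈ Or)
    (hX0 : Pd U ε R X)
    (hX : ∀ K ⊆ R, IsCompact K → ∀ᶠ n in (U : Filter ℕ), ∀ p : ℂ × ℂ, pc p ∈ K →
      ar ≤ p.1.re → p.1.re ≤ ar + ε n →
        Zr n (p + X n p) = push (ε n) (gn n) ⌊(ar - al) / ε n⌋₊ (Zl n) p) :
    Kk U ε gn al ar R Zl Zr X := by
  refine ⟨hX0, fun K hKR hK => ?_⟩
  have hKl : K8_at al '' K ⊆ Ol := by
    rintro _ ⟨x, hx, rfl⟩
    exact hRl x (hKR hx)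
  have hKr : K8_at ar '' K ⊆ Or := by
    rintro _ ⟨x, hx, rfl⟩
    exact hRr x (hKR hx)
  obtain ⟨dl, hdl, hsl⟩ := (K8_cpt al hK).exists_cthickening_subset_open hOl hKl
  obtain ⟨dr, hdr, hsr⟩ := (K8_cpt ar hK).exists_cthickening_subset_open hOr hKr
  obtain ⟨w, hw⟩ : ∃ w : ℝ, w = min dl dr / 8 := ⟨_, rfl⟩
  have hd : 0 < min dl dr := lt_min hdl hdr
  have hw0 : 0 < w := by
    rw [hw]
    positivity
  have hsl' : cthickening (8 * w) (K8_at al '' K) ⊆ Ol :=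
    (cthickening_mono (by rw [hw]; linarith [min_le_left dl dr]) _).trans hsl
  have hsr' : cthickening (8 * w) (K8_at ar '' K) ⊆ Or :=
    (cthickening_mono (by rw [hw]; linarith [min_le_right dl dr]) _).trans hsr
  have hε : ∀ᶠ n in (U : Filter ℕ), ε n < w / 4 := h1.eventually_lt_const (by positivity)
  refine ⟨w, hw0, ?_⟩
  filter_upwards [hε, hl.eq _ hsl' (K8_cpt al hK).cthickening,
    hr.eq _ hsr' (K8_cpt ar hK).cthickening, hX K hKR hK, hX0.lim K hKR hK w hw0]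
    with n n1 n2 n3 n4 n5 q hq hqa m hm1 hm2
  exact K8_one (h0 n) n1.le rfl ha n2 n3 (hX0.per n) n5 n4 q hq hqa m hm1 hm2

/-- EXISTENCE OF THE KICK. Proof. `t := ar - al`, `Ol, Or` the two boxes (open), `O := Or ∩ PO Ω Ol t`
(open, `isOpen_PO`). `Ex.push` for `Zl` and `coord` (for `Zr` and the pushed family, on `O ⊆ Ω`) give
`F` with `Cr U ε O F` and `Zr n (F n p) = push ⌊t / ε⌋ Zl p` on the compact subsets of `O`. Every `x` in the
region has `(ar + i x.1, x.2) ∈ O` (the points `tr (-s)` of it, `0 ≤ s ≤ t`, are in `Ω` by `Rp`, and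
the last one is in `Ol`). `X n := pe (ε n) ar (F n p - p)`: `Cr_pd`, and for `|p.1.re - ar| ≤ w` (small, so
that `p` is in a compact subset of `O`) `Zr n (p + X n p) = Zr n (F n p) = push ..`; then `rel_all`. -/
theorem exists_kick (hV : VF U ε M g gn) (hz : Fw M g Ω z) {al ar w y₁ y₂ : ℝ} (ha : al < ar)
    (hw : 0 < w) {D : Set ℂ} (hD : IsOpen D) {Zl Zr : ℕ → ℂ × ℂ → ℂ × ℂ}
    (hl : Ex U ε gn (Rec (al - w) (al + w) y₁ y₂ ×ˢ D) z Zl)
    (hr : Ex U ε gn (Rec (ar - w) (ar + w) y₁ y₂ ×ˢ D) z Zr)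
    (hlΩ : Rec (al - w) (al + w) y₁ y₂ ×ˢ D ⊆ Ω) (hrΩ : Rec (ar - w) (ar + w) y₁ y₂ ×ˢ D ⊆ Ω) :
    ∃ X, Kk U ε gn al ar ({x : ℝ × ℂ | y₁ < x.1 ∧ x.1 < y₂ ∧ x.2 ∈ D} ∩ Rp Ω al ar) Zl Zr X := by
  have h0 := hV.ε_pos
  have h1 := hV.ε_lim
  have ht : 0 ≤ ar - al := by linarith
  have hRec : ∀ a b c d : ℝ, IsOpen (Rec a b c d) := by
    intro a b c d
    exact (isOpen_lt continuous_const Complex.continuous_re).inter
      ((isOpen_lt Complex.continuous_re continuous_const).inter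
        ((isOpen_lt continuous_const Complex.continuous_im).inter
          (isOpen_lt Complex.continuous_im continuous_const)))
  have hOl : IsOpen (Rec (al - w) (al + w) y₁ y₂ ×ˢ D) := (hRec _ _ _ _).prod hD
  have hOr : IsOpen (Rec (ar - w) (ar + w) y₁ y₂ ×ˢ D) := (hRec _ _ _ _).prod hD
  have hPO := isOpen_PO hz.Ω_open hOl (ar - al)
  obtain ⟨O, hOd⟩ : ∃ O : Set (ℂ × ℂ), O = (Rec (ar - w) (ar + w) y₁ y₂ ×ˢ D) ∩
    PO Ω (Rec (al - w) (al + w) y₁ y₂ ×ˢ D) (ar - al) := ⟨_, rfl⟩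
  have hO : IsOpen O := by
    rw [hOd]
    exact hOr.inter hPO
  have hO1 : O ⊆ Rec (ar - w) (ar + w) y₁ y₂ ×ˢ D := by
    rw [hOd]
    exact inter_subset_left
  have hO2 : O ⊆ PO Ω (Rec (al - w) (al + w) y₁ y₂ ×ˢ D) (ar - al) := by
    rw [hOd]
    exact inter_subset_right
  obtain ⟨F, hF, hFe⟩ := coord hV hz hO (hO1.trans hrΩ) (Ex.mono' hr hO1)
    (Ex.mono' (Ex.push hV hz hOl hl ht) hO2)
  have hR : ∀ x ∈ {x : ℝ × ℂ | y₁ < x.1 ∧ x.1 < y₂ ∧ x.2 ∈ D} ∩ Rp Ω al ar,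
      ((⟨ar, x.1⟩ : ℂ), x.2) ∈ O := by
    rintro x ⟨⟨hx1, hx2, hx3⟩, hx4⟩
    rw [hOd]
    refine ⟨⟨⟨?_, ?_, hx1, hx2⟩, hx3⟩, ⟨⟨?_, hx3⟩, ?_⟩⟩
    · change ar - w < ar
      linarith
    · change ar < ar + w
      linarith
    · refine ⟨?_, ?_, ?_, ?_⟩
      · change al - w < ((⟨ar, x.1⟩ : ℂ) + -((ar - al : ℝ) : ℂ)).re
        rw [Complex.add_re, Complex.neg_re, Complex.ofReal_re]
        change al - w < ar + -(ar - al)
        linarith
      · change ((⟨ar, x.1⟩ : ℂ) + -((ar - al : ℝ) : ℂ)).re < al + w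
        rw [Complex.add_re, Complex.neg_re, Complex.ofReal_re]
        change ar + -(ar - al) < al + w
        linarith
      · change y₁ < ((⟨ar, x.1⟩ : ℂ) + -((ar - al : ℝ) : ℂ)).im
        rw [Complex.add_im, Complex.neg_im, Complex.ofReal_im, neg_zero, add_zero]
        exact hx1
      · change ((⟨ar, x.1⟩ : ℂ) + -((ar - al : ℝ) : ℂ)).im < y₂
        rw [Complex.add_im, Complex.neg_im, Complex.ofReal_im, neg_zero, add_zero]
        exact hx2
    · intro s hs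
      have h2 := hx4 (ar - s) ⟨by linarith [hs.2], by linarith [hs.1]⟩
      have e : tr (-(s : ℂ)) ((⟨ar, x.1⟩ : ℂ), x.2) = ((⟨ar - s, x.1⟩ : ℂ), x.2) := by
        refine Prod.ext ?_ rfl
        change (⟨ar, x.1⟩ : ℂ) + -(s : ℂ) = ⟨ar - s, x.1⟩
        apply Complex.ext
        · rw [Complex.add_re, Complex.neg_re, Complex.ofReal_re]
          rfl
        · rw [Complex.add_im, Complex.neg_im, Complex.ofReal_im, neg_zero, add_zero]
      rw [e]
      exact h2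
  obtain ⟨hP, hPe⟩ := Cr_pd h0 h1 hO hF (a := ar)
    (R := {x : ℝ × ℂ | y₁ < x.1 ∧ x.1 < y₂ ∧ x.2 ∈ D} ∩ Rp Ω al ar) hR
  refine ⟨_, rel_all h0 h1 ha hOl hOr hl hr ?_ ?_ hP ?_⟩
  · rintro x ⟨⟨hx1, hx2, hx3⟩, -⟩
    refine ⟨⟨?_, ?_, hx1, hx2⟩, hx3⟩
    · change al - w < al
      linarith
    · change al < al + w
      linarith
  · exact fun x hx => hO1 (hR x hx)
  · intro K hKR hK
    obtain ⟨w', hw', hev⟩ := hPe K hKR hK
    have hKr : K8_at ar '' K ⊆ O := by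
      rintro _ ⟨x, hx, rfl⟩
      exact hR x (hKR hx)
    obtain ⟨d, hd, hds⟩ := (K8_cpt ar hK).exists_cthickening_subset_open hO hKr
    have hε : ∀ᶠ n in (U : Filter ℕ), ε n < min w' d := h1.eventually_lt_const (lt_min hw' hd)
    filter_upwards [hε, hev, hFe _ hds (K8_cpt ar hK).cthickening] with n n1 n2 n3 p hp hp1 hp2
    have h4 : |p.1.re - ar| ≤ ε n := abs_le.2 ⟨by linarith [h0 n], by linarith⟩
    have h5 := n2 p hp (h4.trans (n1.le.trans (min_le_left _ _)))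
    have h6 := n3 p (K8_mem hp (h4.trans (n1.le.trans (min_le_right _ _))))
    rw [h5] at h6
    exact h6

end Pool.Agent.MP_ae5b4e_an_AZ
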