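import Pool.Agent.Lib.MP_ae5b4e_an_AZ.K6
import Pool.Agent.Lib.MP_ae5b4e_an_AZ.K8

/-!
# POR, (Z'): far data
-/

noncomputable section

namespace Pool.Agent.MP_ae5b4e_an_AZ

open Complex Set Filter Topology Metric
open Pool.Agent.MP_ae5b4e_an_A1
open Pool.Agent.MP_ae5b4e_an_BX (Rec)
open Pool.Agent.MP_ae5b4e_an_A3 (rs md Dfc osc_le Per_osc Per_zero)
open Pool.Agent.MP_ae5b4e_an_A4 (am Per SN)
open Pool.Agent.MP_ae5b4e_an_MERO (fo St fo_indep norm_fo_le hasSum_fo)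

variable {U : Ultrafilter ℕ} {ε : ℕ → ℝ} {M Ω : Set (ℂ × ℂ)} {g : ℂ × ℂ → ℂ × ℂ}
  {gn : ℕ → ℂ × ℂ → ℂ × ℂ} {z : ℂ × ℂ → ℂ × ℂ} {d ρ p b0 b A C R0 : ℝ}

/-- parameters of the far boxes -/
def Df (p b0 A R1 : ℝ) : Set ℂ := {c | R1 < (1 + p) * c.re ∧ |(1 + p) * c.im - b0 - Real.pi / 2| < A}

/-- the parameter with `(1 + p) c = x + i (bt + b0)` -/
def ct (p b0 bt x : ℝ) : ℂ := ((x : ℂ) + ((bt + b0 : ℝ) : ℂ) * I) / ((1 + p : ℝ) : ℂ)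

/-- FAR DATA: boxes of uniform height over all parameters of the half strip, and the kick.

Proof. `K` = compact set of states (`cpt`), `b₀` from `exists_exD`. `h := min (b₀ / 2) (min (ρ / 16)
(d ρ / (8 (1 + d))))`, `R1 ≥ R0` with `C exp (- R1) < h / 2`. For `θ ∈ Rec (∓ρ - 2 h) (∓ρ + 2 h) (-2 h) (2 h)`:
`ρ / 2 < ‖θ‖ < 2 ρ`, `Im θ < 2 h ≤ d (ρ - 2 h) ≤ d |Re θ|`: in `Ω` by `far`, `z` in `K` by `cpt`. So `exists_exD`
(`τ = h`, `D = Df p b0 A R1`, open) gives `Zl, Zr`; `exists_kick` with `w = h`, `y₁ = - h`, `y₂ = h`; `Kk.mono`: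
for `- h < y < - C exp (- (1 + p) Re c)` and `|s| ≤ ρ` the point `s + i y` satisfies
`C exp (..) < |y| ≤ ‖θ‖ < 2 ρ`, `y < 0 ≤ d |s|`: `far`; for `c` in the strip and `- h < y < 0`: `strip`. -/
theorem far_data (hV : VF U ε M g gn) (hG : ZGeo M g Ω z d ρ p b0 b A C R0) :
    ∃ (h R1 : ℝ) (Zl Zr X : ℕ → ℂ × ℂ → ℂ × ℂ), 0 < h ∧ 2 * h ≤ ρ ∧ h * (1 + d) ≤ d * ρ ∧ R0 ≤ R1 ∧
      C * Real.exp (-R1) < h / 2 ∧
      Ex U ε gn (Rec (-ρ - h) (-ρ + h) (-h) h ×ˢ Df p b0 A R1) z Zl ∧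
      Ex U ε gn (Rec (ρ - h) (ρ + h) (-h) h ×ˢ Df p b0 A R1) z Zr ∧
      Kk U ε gn (-ρ) ρ {x : ℝ × ℂ | x.2 ∈ Df p b0 A R1 ∧ -h < x.1 ∧
        (x.1 < -(C * Real.exp (-((1 + p) * x.2.re))) ∨
          (|(1 + p) * x.2.im - b0 - Real.pi / 2| < b ∧ x.1 < 0))} Zl Zr X := by
  have hd := hG.d_pos
  have hρ := hG.ρ_pos
  have hC := hG.C_nonneg
  obtain ⟨K, hKc, hKM, hK⟩ := hG.cpt
  obtain ⟨β, hβ, hex⟩ := exists_exD hV hKc hKM
  obtain ⟨h, hh0, hh1, hh2, hh3⟩ : ∃ h : ℝ, 0 < h ∧ 2 * h ≤ β ∧ 16 * h ≤ ρ ∧ 8 * (h * (1 + d)) ≤ d * ρ := by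
    refine ⟨min (β / 2) (min (ρ / 16) (d * ρ / (8 * (1 + d)))), by positivity, ?_, ?_, ?_⟩
    · have := min_le_left (β / 2) (min (ρ / 16) (d * ρ / (8 * (1 + d))))
      linarith
    · have := (min_le_right (β / 2) (min (ρ / 16) (d * ρ / (8 * (1 + d))))).trans (min_le_left _ _)
      linarith
    · have h1 := (min_le_right (β / 2) (min (ρ / 16) (d * ρ / (8 * (1 + d))))).trans (min_le_right _ _)
      rw [le_div_iff₀ (by positivity)] at h1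
      linarith
  obtain ⟨R1, hR1, hR0⟩ : ∃ R1 : ℝ, C * Real.exp (-R1) < h / 2 ∧ R0 ≤ R1 := by
    have h1 : Tendsto (fun x : ℝ => C * Real.exp (-x)) atTop (𝓝 (C * 0)) :=
      Real.tendsto_exp_neg_atTop_nhds_zero.const_mul C
    rw [mul_zero] at h1
    exact ((h1.eventually (gt_mem_nhds (by positivity : (0 : ℝ) < h / 2))).and
      (eventually_ge_atTop R0)).exists
  have hCe : ∀ c ∈ Df p b0 A R1, C * Real.exp (-((1 + p) * c.re)) < h / 2 := by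
    intro c hc
    refine lt_of_le_of_lt ?_ hR1
    refine mul_le_mul_of_nonneg_left (Real.exp_le_exp.2 ?_) hC
    have := hc.1
    linarith
  have hDo : IsOpen (Df p b0 A R1) := by
    have c1 : Continuous fun c : ℂ => (1 + p) * c.re := by fun_prop
    have c2 : Continuous fun c : ℂ => |(1 + p) * c.im - b0 - Real.pi / 2| := by fun_prop
    exact (isOpen_lt continuous_const c1).inter (isOpen_lt c2 continuous_const)
  have hd2 : 2 * h ≤ d * (ρ - 2 * h) := by nlinarith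
  have key : ∀ s : ℝ, (s = -ρ ∨ s = ρ) → ∀ θ ∈ Rec (s - h - h) (s + h + h) (-h - h) (h + h),
      ρ / 2 < ‖θ‖ ∧ ‖θ‖ < 2 * ρ ∧ θ.im < d * |θ.re| := by
    intro s hs θ hθ
    obtain ⟨a1, a2, a3, a4⟩ := hθ
    have hre : ρ - 2 * h < |θ.re| := by
      rcases hs with rfl | rfl
      · rw [lt_abs]; right; linarith
      · rw [lt_abs]; left; linarith
    have hre2 : |θ.re| < ρ + 2 * h := by
      rw [abs_lt]
      rcases hs with rfl | rfl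
      · constructor <;> linarith
      · constructor <;> linarith
    have him : |θ.im| < 2 * h := by
      rw [abs_lt]
      constructor <;> linarith
    have n1 := Complex.abs_re_le_norm θ
    have n2 := Complex.norm_le_abs_re_add_abs_im θ
    refine ⟨by linarith, by linarith, ?_⟩
    have : d * (ρ - 2 * h) < d * |θ.re| := mul_lt_mul_of_pos_left hre hd
    linarith
  have keyΩ : ∀ s : ℝ, (s = -ρ ∨ s = ρ) →
      Rec (s - h - h) (s + h + h) (-h - h) (h + h) ×ˢ Df p b0 A R1 ⊆ Ω := by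
    rintro s hs ⟨θ, c⟩ ⟨hθ, hc⟩
    obtain ⟨b1, b2, b3⟩ := key s hs θ hθ
    have := hCe c hc
    exact hG.far c (lt_of_le_of_lt hR0 hc.1) hc.2 θ (by linarith) b2 b3
  have keyK : ∀ s : ℝ, (s = -ρ ∨ s = ρ) →
      ∀ q ∈ Rec (s - h - h) (s + h + h) (-h - h) (h + h) ×ˢ Df p b0 A R1, z q ∈ K := by
    rintro s hs ⟨θ, c⟩ ⟨hθ, hc⟩
    obtain ⟨b1, b2, b3⟩ := key s hs θ hθ
    exact hK c (lt_of_le_of_lt hR0 hc.1) hc.2 θ b1 b2 b3
  have mk : ∀ s : ℝ, (s = -ρ ∨ s = ρ) → ∃ Z : ℕ → ℂ × ℂ → ℂ × ℂ,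
      Ex U ε gn (Rec (s - h) (s + h) (-h) h ×ˢ Df p b0 A R1) z Z := by
    intro s hs
    exact hex (s - h) (s + h) (-h) h h (by linarith) (by linarith) (by linarith) hh0 _ hDo z
      (fun q hq => hG.fw.z_an q (keyΩ s hs hq)) (keyK s hs)
      (fun q hq => hG.fw.ode q (keyΩ s hs hq))
  have sub : ∀ s : ℝ, (s = -ρ ∨ s = ρ) →
      Rec (s - h) (s + h) (-h) h ×ˢ Df p b0 A R1 ⊆ Ω := by
    intro s hs q hq
    refine keyΩ s hs ⟨?_, hq.2⟩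
    obtain ⟨a1, a2, a3, a4⟩ := hq.1
    exact ⟨by linarith, by linarith, by linarith, by linarith⟩
  obtain ⟨Zl, hZl⟩ := mk (-ρ) (Or.inl rfl)
  obtain ⟨Zr, hZr⟩ := mk ρ (Or.inr rfl)
  obtain ⟨X, hX⟩ := exists_kick hV hG.fw (by linarith : -ρ < ρ) hh0 hDo hZl hZr
    (sub (-ρ) (Or.inl rfl)) (sub ρ (Or.inr rfl))
  refine ⟨h, R1, Zl, Zr, X, hh0, by linarith, by nlinarith, hR0, hR1, hZl, hZr, hX.mono ?_⟩
  rintro ⟨y, c⟩ ⟨hc, hy, hx⟩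
  have hc : c ∈ Df p b0 A R1 := hc
  have hy : -h < y := hy
  have hx : y < -(C * Real.exp (-((1 + p) * c.re))) ∨
          (|(1 + p) * c.im - b0 - Real.pi / 2| < b ∧ y < 0) := hx
  have hCn : 0 ≤ C * Real.exp (-((1 + p) * c.re)) := by positivity
  have hy0 : y < 0 := by
    rcases hx with hx | hx
    · linarith
    · exact hx.2
  refine ⟨⟨hy, by show y < h; linarith, hc⟩, ?_⟩
  intro s hs
  show ((⟨s, y⟩ : ℂ), c) ∈ Ω
  have hs1 : |s| ≤ ρ := abs_le.2 ⟨hs.1, hs.2⟩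
  have hy1 : |y| = -y := abs_of_neg hy0
  have n1 : |y| ≤ ‖(⟨s, y⟩ : ℂ)‖ := Complex.abs_im_le_norm (⟨s, y⟩ : ℂ)
  have n2 : ‖(⟨s, y⟩ : ℂ)‖ ≤ |s| + |y| := Complex.norm_le_abs_re_add_abs_im (⟨s, y⟩ : ℂ)
  have n3 : ‖(⟨s, y⟩ : ℂ)‖ < 2 * ρ := by linarith
  have n4 : (⟨s, y⟩ : ℂ).im < d * |(⟨s, y⟩ : ℂ).re| := by
    show y < d * |s|
    have : 0 ≤ d * |s| := by positivity
    linarith
  rcases hx with hx | hx
  · exact hG.far c (lt_of_le_of_lt hR0 hc.1) hc.2 _ (by linarith) n3 n4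
  · exact hG.strip c hx.1 _ n3 n4

end Pool.Agent.MP_ae5b4e_an_AZ
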