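import Pool.Agent.Lib.MP_ae5b4e_an_AZ.KDefs

/-!
# POR, (Z'): the kick does not depend on the abscissas
-/

noncomputable section

namespace Pool.Agent.MP_ae5b4e_an_AZ

open Complex Set Filter Topology Metric
open Pool.Agent.MP_ae5b4e_an_A1
open Pool.Agent.MP_ae5b4e_an_BX (Rec)
open Pool.Agent.MP_ae5b4e_an_A3 (rs md Dfc osc_le Per_osc Per_zero)
open Pool.Agent.MP_ae5b4e_an_A4 (am Per SN)
open Pool.Agent.MP_ae5b4e_an_MERO (fo St fo_indep norm_fo_le hasSum_fo)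

variable {U : Ultrafilter ℕ} {ε : ℕ → ℝ} {gn : ℕ → ℂ × ℂ → ℂ × ℂ} {z : ℂ × ℂ → ℂ × ℂ}

theorem K9_iter {Φ : ℂ × ℂ → ℂ × ℂ} {W : ℂ × ℂ → ℂ × ℂ} {e : ℝ} {S : Set (ℂ × ℂ)}
    (hS : ∀ p ∈ S, W (tr (e : ℂ) p) = Φ (W p)) {p : ℂ × ℂ} (j : ℕ)
    (h : ∀ i < j, tr ((i * e : ℝ) : ℂ) p ∈ S) : Φ^[j] (W p) = W (tr ((j * e : ℝ) : ℂ) p) := by
  induction j with
  | zero =>
    simp only [Function.iterate_zero, id_eq, Nat.cast_zero, zero_mul, ofReal_zero, tr_zero]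
  | succ j ih =>
    rw [Function.iterate_succ_apply', ih fun i hi => h i (hi.trans (Nat.lt_succ_self j)),
      ← hS _ (h j (Nat.lt_succ_self j)), tr_tr]
    congr 2
    push_cast
    ring

theorem K9_per {X : ℂ × ℂ → ℂ × ℂ} {e : ℝ} (hX : ∀ p, X (tr (e : ℂ) p) = X p) (j : ℕ)
    (p : ℂ × ℂ) : X (tr ((j * e : ℝ) : ℂ) p) = X p := by
  induction j with
  | zero => simp only [Nat.cast_zero, zero_mul, ofReal_zero, tr_zero]
  | succ j ih =>
    rw [← ih, ← hX (tr ((j * e : ℝ) : ℂ) p), tr_tr]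
    congr 2
    push_cast
    ring

/-- the part of a tube over the abscissas `[a, b]` -/
def K9_K (a b : ℝ) (K : Set (ℝ × ℂ)) : Set (ℂ × ℂ) :=
  (fun x : ℝ × (ℝ × ℂ) => (((x.1 : ℂ) + (x.2.1 : ℂ) * I, x.2.2) : ℂ × ℂ)) '' (Icc a b ×ˢ K)

theorem K9_compact {a b : ℝ} {K : Set (ℝ × ℂ)} (hK : IsCompact K) : IsCompact (K9_K a b K) := by
  refine (isCompact_Icc.prod hK).image ?_
  fun_prop

theorem K9_sub {a b : ℝ} {K R : Set (ℝ × ℂ)} {O : Set (ℂ × ℂ)} (hK : K ⊆ R)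
    (hR : R ⊆ Rp O a b) : K9_K a b K ⊆ O := by
  rintro _ ⟨⟨s, x⟩, ⟨hs, hx⟩, rfl⟩
  have h1 := hR (hK hx) s hs
  have h2 : ((s : ℂ) + (x.1 : ℂ) * I) = (⟨s, x.1⟩ : ℂ) := by
    apply Complex.ext <;> simp
  show ((s : ℂ) + (x.1 : ℂ) * I, x.2) ∈ O
  rw [h2]
  exact h1

theorem K9_near {a b w : ℝ} {K : Set (ℝ × ℂ)} (hab : a ≤ b) {p v : ℂ × ℂ} (hp : pc p ∈ K)
    (h1 : a - w ≤ p.1.re) (h2 : p.1.re ≤ b + w) (hw : 0 ≤ w) (hv : ‖v‖ ≤ w) {d : ℝ}
    (hd : 2 * w ≤ d) : p + v ∈ cthickening d (K9_K a b K) := by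
  obtain ⟨s, hs⟩ : ∃ s : ℝ, s = max a (min b p.1.re) := ⟨_, rfl⟩
  have hsI : s ∈ Icc a b := by
    rw [hs]
    exact ⟨le_max_left _ _, max_le hab (min_le_left _ _)⟩
  have hsd : |p.1.re - s| ≤ w := by
    rw [hs, abs_le]
    rcases le_total b p.1.re with h3 | h3
    · rw [min_eq_left h3, max_eq_right hab]
      constructor <;> linarith
    · rw [min_eq_right h3]
      rcases le_total a p.1.re with h4 | h4
      · rw [max_eq_right h4]
        constructor <;> linarith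
      · rw [max_eq_left h4]
        constructor <;> linarith
  have hmem : (((s : ℂ) + (p.1.im : ℂ) * I, p.2) : ℂ × ℂ) ∈ K9_K a b K :=
    ⟨(s, pc p), ⟨hsI, hp⟩, rfl⟩
  refine mem_cthickening_of_dist_le _ _ _ _ hmem ?_
  have h3 : dist p (((s : ℂ) + (p.1.im : ℂ) * I, p.2) : ℂ × ℂ) ≤ w := by
    rw [Prod.dist_eq]
    refine max_le ?_ ?_
    · have h4 : p.1 - ((s : ℂ) + (p.1.im : ℂ) * I) = ((p.1.re - s : ℝ) : ℂ) := by
        apply Complex.ext <;> simp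
      show dist p.1 ((s : ℂ) + (p.1.im : ℂ) * I) ≤ w
      rw [dist_eq_norm, h4, Complex.norm_real, Real.norm_eq_abs]
      exact hsd
    · show dist p.2 p.2 ≤ w
      rw [dist_self]
      exact hw
  have h4 : dist (p + v) p ≤ w := by
    rw [dist_eq_norm, add_sub_cancel_left]
    exact hv
  have h5 := dist_triangle (p + v) p (((s : ℂ) + (p.1.im : ℂ) * I, p.2) : ℂ × ℂ)
  linarith

/-- LONG FAMILIES. `Zl` is exact from `al` to `al'`, `Zr` from `ar'` to `ar`: a kick for the inner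
abscissas `al', ar'` is a kick for the outer abscissas `al, ar`.

Proof. Let `K ⊆ R` be compact, `w'` from `hX` for `K`. `Kl := {p | p.1.re ∈ Icc al al' ∧ pc p ∈ K} ⊆ Ol` and
`Kr := {p | p.1.re ∈ Icc ar' ar ∧ pc p ∈ K} ⊆ Or` are compact: `d > 0` with `cthickening d Kl ⊆ Ol`, the same
for `Kr`. `w := min (min (w' / 4) (d / 8)) ((ar' - al') / 4)`. For almost all `n`: `ε n ≤ w`, `Ex.eq` for `Zl`, `Zr`
on the two thickenings, `‖X n q‖ ≤ w` over `K`. Let `q, m` be given. `m₁ := ⌊(al' - al) / ε⌋₊`,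
`m₂ := ⌊(q.1.re + m ε - ar') / ε⌋₊` (so `q.1.re + (m - m₂) ε ∈ [ar', ar' + ε]`); `m₁ + m₂ ≤ m` since
`ar' ≤ q.1.re + (m - m₂) ε` and `q.1.re + m₁ ε ≤ al' + w`; `m' := m - m₁ - m₂`. `q' := tr (m₁ ε) q` is within
`2 w ≤ w'` of the abscissa `al'`.
(1) `Φ^[m₁] (Zl q) = Zl q'` (`m₁` applications of `Ex.eq`, the points `tr (i ε) q` are in
`cthickening d Kl`). (2) `Φ^[m'] (Zl q') = Zr (tr (m' ε) q' + X q')` by `hX`. (3) `x := tr (m' ε) q' + X q'`: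
`Φ^[m₂] (Zr x) = Zr (tr (m₂ ε) x)` (`Ex.eq`, the points `tr (i ε) x` are in `cthickening d Kr`). (4)
`tr (m₂ ε) x = tr (m ε) q + X q'` and `X q' = X q` (periodicity). `A1.Ex.iter` may be used. -/
theorem kick_pos (h0 : ∀ n, 0 < ε n) (h1 : Tendsto ε U (𝓝 0)) {al al' ar' ar : ℝ} (ha1 : al ≤ al')
    (ha2 : al' < ar') (ha3 : ar' ≤ ar) {Ol Or : Set (ℂ × ℂ)} (hOl : IsOpen Ol) (hOr : IsOpen Or)
    {Zl Zr X : ℕ → ℂ × ℂ → ℂ × ℂ} (hl : Ex U ε gn Ol z Zl) (hr : Ex U ε gn Or z Zr)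
    {R : Set (ℝ × ℂ)} (hRl : R ⊆ Rp Ol al al') (hRr : R ⊆ Rp Or ar' ar)
    (hX : Kk U ε gn al' ar' R Zl Zr X) : Kk U ε gn al ar R Zl Zr X := by
  refine ⟨hX.pd, fun K hKR hK => ?_⟩
  obtain ⟨w', hw', hrel⟩ := hX.rel K hKR hK
  obtain ⟨d₁, hd₁, hd₁O⟩ := (K9_compact (a := al) (b := al') hK).exists_cthickening_subset_open
    hOl (K9_sub hKR hRl)
  obtain ⟨d₂, hd₂, hd₂O⟩ := (K9_compact (a := ar') (b := ar) hK).exists_cthickening_subset_open
    hOr (K9_sub hKR hRr)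
  obtain ⟨w, hw, w1, w2, w3, w4⟩ : ∃ w : ℝ, 0 < w ∧ 4 * w ≤ w' ∧ 2 * w ≤ d₁ ∧ 2 * w ≤ d₂ ∧
      4 * w ≤ ar' - al' := by
    refine ⟨min (min (w' / 4) ((ar' - al') / 4)) (min (d₁ / 2) (d₂ / 2)), ?_, ?_, ?_, ?_, ?_⟩
    · have : 0 < ar' - al' := by linarith
      positivity
    · have h3 := (min_le_left (min (w' / 4) ((ar' - al') / 4)) (min (d₁ / 2) (d₂ / 2))).trans
        (min_le_left _ _)
      linarith
    · have h3 := (min_le_right (min (w' / 4) ((ar' - al') / 4)) (min (d₁ / 2) (d₂ / 2))).trans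
        (min_le_left _ _)
      linarith
    · have h3 := (min_le_right (min (w' / 4) ((ar' - al') / 4)) (min (d₁ / 2) (d₂ / 2))).trans
        (min_le_right _ _)
      linarith
    · have h3 := (min_le_left (min (w' / 4) ((ar' - al') / 4)) (min (d₁ / 2) (d₂ / 2))).trans
        (min_le_right _ _)
      linarith
  refine ⟨w, hw, ?_⟩
  have hε : ∀ᶠ n in (U : Filter ℕ), ε n < w := h1.eventually (gt_mem_nhds hw)
  filter_upwards [hrel, hε, hl.eq _ hd₁O (K9_compact hK).cthickening,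
    hr.eq _ hd₂O (K9_compact hK).cthickening, hX.pd.lim K hKR hK w hw] with n b1 b2 b3 b4 b5
  intro q hq hqa m hm1 hm2
  have hεn := h0 n
  obtain ⟨e, he⟩ : ∃ e : ℝ, e = ε n := ⟨_, rfl⟩
  rw [← he] at b1 b2 b3 b4 hm1 hm2 hεn ⊢
  obtain ⟨q1, q2⟩ := abs_le.1 hqa
  -- the numbers of steps
  obtain ⟨m₁, hm₁⟩ : ∃ m₁ : ℕ, m₁ = ⌊(al' - al) / e⌋₊ := ⟨_, rfl⟩
  obtain ⟨m₂, hm₂⟩ : ∃ m₂ : ℕ, m₂ = ⌊(q.1.re + m * e - ar') / e⌋₊ := ⟨_, rfl⟩
  have c1 : (m₁ : ℝ) * e ≤ al' - al := by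
    have h3 := Nat.floor_le (a := (al' - al) / e) (div_nonneg (by linarith) hεn.le)
    rw [← hm₁, le_div_iff₀ hεn] at h3
    exact h3
  have c2 : al' - al < (m₁ : ℝ) * e + e := by
    have h3 := Nat.lt_floor_add_one ((al' - al) / e)
    rw [← hm₁, div_lt_iff₀ hεn] at h3
    linarith
  have c3 : (m₂ : ℝ) * e ≤ q.1.re + m * e - ar' := by
    have h3 := Nat.floor_le (a := (q.1.re + m * e - ar') / e)
      (div_nonneg (by linarith) hεn.le)
    rw [← hm₂, le_div_iff₀ hεn] at h3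
    exact h3
  have c4 : q.1.re + m * e - ar' < (m₂ : ℝ) * e + e := by
    have h3 := Nat.lt_floor_add_one ((q.1.re + m * e - ar') / e)
    rw [← hm₂, div_lt_iff₀ hεn] at h3
    linarith
  have c5 : m₁ + m₂ ≤ m := by
    have h3 : ((m₁ + m₂ : ℕ) : ℝ) * e ≤ (m : ℝ) * e := by
      push_cast
      linarith
    exact_mod_cast le_of_mul_le_mul_right h3 hεn
  obtain ⟨m', hm'⟩ := Nat.exists_eq_add_of_le c5
  have hmr : (m : ℝ) = m₁ + m₂ + m' := by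
    rw [hm']
    push_cast
    ring
  -- the first part
  have e1 : (stp e (gn n))^[m₁] (Zl n q) = Zl n (tr ((m₁ * e : ℝ) : ℂ) q) := by
    refine K9_iter b3 m₁ fun i hi => ?_
    have h3 : (i : ℝ) * e ≤ m₁ * e := by
      have h4 : (i : ℝ) ≤ m₁ := by exact_mod_cast hi.le
      exact mul_le_mul_of_nonneg_right h4 hεn.le
    have h4 : (0 : ℝ) ≤ (i : ℝ) * e := by positivity
    have h5 := K9_near (v := 0) (K := K) (p := tr ((i * e : ℝ) : ℂ) q) (w := w) ha1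
      (by rw [pc_tr]; exact hq) (by simp; linarith) (by simp; linarith) hw.le
      (by rw [norm_zero]; exact hw.le) w2
    rw [add_zero] at h5
    exact h5
  -- the middle part
  have e2 := b1 (tr ((m₁ * e : ℝ) : ℂ) q) (by rw [pc_tr]; exact hq)
    (by
      simp only [tr_fst, add_re, ofReal_re]
      rw [abs_le]
      constructor <;> linarith) m'
    (by
      simp only [tr_fst, add_re, ofReal_re]
      rw [hmr] at c3
      linarith)
    (by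
      simp only [tr_fst, add_re, ofReal_re]
      rw [hmr] at c4
      linarith)
  rw [K9_per (X := X n) (e := e) (fun p => by rw [he]; exact hX.pd.per n p) m₁ q] at e2
  rw [tr_tr] at e2
  -- the last part
  obtain ⟨x, hx⟩ : ∃ x : ℂ × ℂ,
    x = tr (((m' * e : ℝ) : ℂ) + ((m₁ * e : ℝ) : ℂ)) q + X n q := ⟨_, rfl⟩
  rw [← hx] at e2
  have e3 : (stp e (gn n))^[m₂] (Zr n x) = Zr n (tr ((m₂ * e : ℝ) : ℂ) x) := by
    refine K9_iter b4 m₂ fun i hi => ?_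
    have h3 : (i : ℝ) * e ≤ m₂ * e := by
      have h4 : (i : ℝ) ≤ m₂ := by exact_mod_cast hi.le
      exact mul_le_mul_of_nonneg_right h4 hεn.le
    have h4 : (0 : ℝ) ≤ (i : ℝ) * e := by positivity
    rw [hmr] at c3 c4 hm2
    have h6 : tr ((i * e : ℝ) : ℂ) x =
        tr (((i * e : ℝ) : ℂ) + (((m' * e : ℝ) : ℂ) + ((m₁ * e : ℝ) : ℂ))) q + X n q := by
      rw [hx]
      ext
      · simp [tr]
        ring
      · simp [tr]
    rw [h6]
    refine K9_near (K := K) (w := w) ha3 ?_ ?_ ?_ hw.le (b5 q hq) w3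
    · have h7 : ((i * e : ℝ) : ℂ) + (((m' * e : ℝ) : ℂ) + ((m₁ * e : ℝ) : ℂ)) =
          ((i * e + (m' * e + m₁ * e) : ℝ) : ℂ) := by
        push_cast
        ring
      rw [h7, pc_tr]
      exact hq
    · simp only [tr_fst, add_re, ofReal_re]
      linarith
    · simp only [tr_fst, add_re, ofReal_re]
      linarith
  have e4 : tr ((m₂ * e : ℝ) : ℂ) x = tr ((m * e : ℝ) : ℂ) q + X n q := by
    rw [hx, hmr]
    ext
    · simp [tr]
      ring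
    · simp [tr]
  rw [← e4, ← e3, e2, ← e1, ← Function.iterate_add_apply, ← Function.iterate_add_apply]
  congr 2
  omega

end Pool.Agent.MP_ae5b4e_an_AZ
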