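import Pool.Agent.Lib.MP_ae5b4e_an_AZ.KDefs
import Pool.Agent.Lib.MP_ae5b4e_an_AZ.K9

/-!
# POR, (Z'): uniqueness of the kick
-/

noncomputable section

namespace Pool.Agent.MP_ae5b4e_an_AZ

open Complex Set Filter Topology Metric
open Pool.Agent.MP_ae5b4e_an_A1
open Pool.Agent.MP_ae5b4e_an_BX (Rec)
open Pool.Agent.MP_ae5b4e_an_A3 (rs md Dfc osc_le Per_osc Per_zero)
open Pool.Agent.MP_ae5b4e_an_A4 (am Per SN)
open Pool.Agent.MP_ae5b4e_an_MERO (fo St fo_indep norm_fo_le hasSum_fo)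

private theorem K9b_perz {X : ℂ × ℂ → ℂ × ℂ} {e : ℝ} (hX : ∀ p, X (tr (e : ℂ) p) = X p) (k : ℤ)
    (p : ℂ × ℂ) : X (tr ((k * e : ℝ) : ℂ) p) = X p := by
  obtain ⟨j, rfl | rfl⟩ := k.eq_nat_or_neg
  · have h := K9_per hX j p
    rw [Int.cast_natCast]
    exact h
  · have h := K9_per hX j (tr ((((-(j : ℤ) : ℤ) : ℝ) * e : ℝ) : ℂ) p)
    rw [tr_tr] at h
    rw [← h]
    have h0 : (((j : ℝ) * e : ℝ) : ℂ) + ((((-(j : ℤ) : ℤ) : ℝ) * e : ℝ) : ℂ) = 0 := by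
      push_cast
      ring
    rw [h0, tr_zero]

/-- UNIQUENESS OF THE KICK. Proof. Let `K ⊆ R` be compact, `w` the smaller one of the two widths for
`K`, `Kr := {p | p.1.re = ar ∧ pc p ∈ K}` (compact, `⊆ Or`), `cthickening d Kr ⊆ Or`; also `w ≤ d / 4`.
`Ex.uniq` for the compact `cthickening (d / 2) Kr` gives a radius `r`. For almost all `n`: `ε n ≤ w / 4`,
`‖X n q‖, ‖X' n q‖ < r` over `K`. For `q` with `pc q ∈ K`, `|q.1.re - al| ≤ w`: `m := ⌈(ar - q.1.re) / ε⌉₊`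
(`al < ar`, `w < ar - al`), so `q.1.re + m ε ∈ [ar, ar + ε]`; both relations give
`Zr n (tr (m ε) q + X n q) = Zr n (tr (m ε) q + X' n q)`, and `Ex.uniq` at the point `tr (m ε) q`. For the other
`q`: translate by an integer multiple of `ε` to the abscissas near `al`; `X n, X' n` are periodic. -/
theorem kick_uniq {U : Ultrafilter ℕ} {ε : ℕ → ℝ} {M Ω : Set (ℂ × ℂ)} {g : ℂ × ℂ → ℂ × ℂ}
    {gn : ℕ → ℂ × ℂ → ℂ × ℂ} {z : ℂ × ℂ → ℂ × ℂ} (hV : VF U ε M g gn) (hz : Fw M g Ω z)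
    {Or : Set (ℂ × ℂ)} (hOr : IsOpen Or) (hOrΩ : Or ⊆ Ω) {al ar : ℝ} (ha : al < ar)
    {Zl Zr X X' : ℕ → ℂ × ℂ → ℂ × ℂ} (er : Ex U ε gn Or z Zr) {R : Set (ℝ × ℂ)}
    (hRr : ∀ x ∈ R, ((⟨ar, x.1⟩ : ℂ), x.2) ∈ Or) (hX : Kk U ε gn al ar R Zl Zr X)
    (hX' : Kk U ε gn al ar R Zl Zr X') {K : Set (ℝ × ℂ)} (hK : IsCompact K) (hKR : K ⊆ R) :
    ∀ᶠ n in (U : Filter ℕ), ∀ q, pc q ∈ K → X n q = X' n q := by
  obtain ⟨w1, hw1, hrel1⟩ := hX.rel K hKR hK
  obtain ⟨w2, hw2, hrel2⟩ := hX'.rel K hKR hK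
  have hsub : K9_K ar ar K ⊆ Or := by
    refine K9_sub (R := R) hKR ?_
    intro x hx s hs
    have hs' : s = ar := le_antisymm hs.2 hs.1
    rw [hs']
    exact hRr x hx
  obtain ⟨d, hd, hdO⟩ :=
    (K9_compact (a := ar) (b := ar) hK).exists_cthickening_subset_open hOr hsub
  obtain ⟨r, hr, huniq⟩ := Ex.uniq hz hOr hOrΩ er
    ((K9_compact (a := ar) (b := ar) hK).cthickening (r := d)) hdO
  obtain ⟨w, hwdef⟩ : ∃ w : ℝ, w = min (min w1 w2) (min (d / 2) ((ar - al) / 2)) := ⟨_, rfl⟩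
  have hw : 0 < w := by
    rw [hwdef]
    exact lt_min (lt_min hw1 hw2) (lt_min (by positivity) (by linarith))
  have hww1 : w ≤ w1 := by
    rw [hwdef]
    exact (min_le_left _ _).trans (min_le_left _ _)
  have hww2 : w ≤ w2 := by
    rw [hwdef]
    exact (min_le_left _ _).trans (min_le_right _ _)
  have hwd : w ≤ d / 2 := by
    rw [hwdef]
    exact (min_le_right _ _).trans (min_le_left _ _)
  have hwa : w ≤ (ar - al) / 2 := by
    rw [hwdef]
    exact (min_le_right _ _).trans (min_le_right _ _)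
  have hε : ∀ᶠ n in (U : Filter ℕ), ε n < w := hV.ε_lim.eventually_lt_const hw
  filter_upwards [hrel1, hrel2, huniq, hε, hX.pd.lim K hKR hK (r / 2) (by positivity),
    hX'.pd.lim K hKR hK (r / 2) (by positivity)] with n h1 h2 h3 h4 h5 h6 q hq
  have hεn := hV.ε_pos n
  have key : ∀ q : ℂ × ℂ, pc q ∈ K → |q.1.re - al| ≤ w → X n q = X' n q := by
    intro q hq hqw
    obtain ⟨m, hm⟩ : ∃ m : ℕ, m = ⌈(ar - q.1.re) / ε n⌉₊ := ⟨_, rfl⟩
    obtain ⟨hq1, hq2⟩ := abs_le.mp hqw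
    have hpos : 0 < ar - q.1.re := by linarith
    have hm1 : ar ≤ q.1.re + m * ε n := by
      have h7 := Nat.le_ceil ((ar - q.1.re) / ε n)
      rw [← hm, div_le_iff₀ hεn] at h7
      linarith
    have hm2 : q.1.re + m * ε n ≤ ar + w := by
      have h7 := Nat.ceil_lt_add_one (div_nonneg hpos.le hεn.le)
      rw [← hm] at h7
      have h8 := mul_lt_mul_of_pos_right h7 hεn
      rw [add_mul, div_mul_cancel₀ _ hεn.ne', one_mul] at h8
      linarith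
    have e1 := h1 q hq (hqw.trans hww1) m hm1 (hm2.trans (by linarith))
    have e2 := h2 q hq (hqw.trans hww2) m hm1 (hm2.trans (by linarith))
    have hre : (tr ((m * ε n : ℝ) : ℂ) q).1.re = q.1.re + m * ε n := by
      rw [tr_fst, Complex.add_re, Complex.ofReal_re]
    have hp : tr ((m * ε n : ℝ) : ℂ) q ∈ cthickening d (K9_K ar ar K) := by
      have h7 := K9_near (a := ar) (b := ar) (w := w) (K := K) le_rfl
        (p := tr ((m * ε n : ℝ) : ℂ) q) (v := 0) (by rw [pc_tr]; exact hq)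
        (by rw [hre]; linarith) (by rw [hre]; exact hm2) hw.le (by rw [norm_zero]; exact hw.le)
        (d := d) (by linarith)
      rwa [add_zero] at h7
    have h8 := h3 _ hp (tr ((m * ε n : ℝ) : ℂ) q + X n q) (tr ((m * ε n : ℝ) : ℂ) q + X' n q)
      (by rw [add_sub_cancel_left]; exact (h5 q hq).trans_lt (by linarith))
      (by rw [add_sub_cancel_left]; exact (h6 q hq).trans_lt (by linarith)) (e1.trans e2.symm)
    exact add_left_cancel h8
  obtain ⟨k, hk⟩ : ∃ k : ℤ, k = ⌊(q.1.re - al) / ε n⌋ := ⟨_, rfl⟩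
  have hk1 : (k : ℝ) * ε n ≤ q.1.re - al := by
    have h7 := Int.floor_le ((q.1.re - al) / ε n)
    rwa [← hk, le_div_iff₀ hεn] at h7
  have hk2 : q.1.re - al < (k : ℝ) * ε n + ε n := by
    have h7 := Int.lt_floor_add_one ((q.1.re - al) / ε n)
    rw [← hk, div_lt_iff₀ hεn, add_mul, one_mul] at h7
    exact h7
  have hk3 := key (tr (((((-k : ℤ) : ℝ) * ε n : ℝ)) : ℂ) q) (by rw [pc_tr]; exact hq) (by
    rw [tr_fst, Complex.add_re, Complex.ofReal_re, abs_le]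
    push_cast
    constructor <;> linarith)
  rwa [K9b_perz (hX.pd.per n), K9b_perz (hX'.pd.per n)] at hk3

end Pool.Agent.MP_ae5b4e_an_AZ
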