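import Pool.Agent.Lib.MP_ae5b4e_an_AZ.K8b
import Pool.Agent.Lib.MP_ae5b4e_an_AZ.K9b
import Pool.Agent.Lib.MP_ae5b4e_an_AZ.K12b
import Pool.Agent.Lib.MP_ae5b4e_an_AZ.K15a
import Pool.Agent.Lib.MP_ae5b4e_an_ATK.Fin

/-!
# POR, (Z'): the lower bound at the far parameters where the tip is seen
-/

noncomputable section

namespace Pool.Agent.MP_ae5b4e_an_AZ

open Complex Set Filter Topology Metric
open Pool.Agent.MP_ae5b4e_an_A1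
open Pool.Agent.MP_ae5b4e_an_ATK (Ks Tp Ps tip_lb)
open Pool.Agent.MP_ae5b4e_an_BX (Rec)
open Pool.Agent.MP_ae5b4e_an_NB2 (Sys)
open Pool.Agent.MP_ae5b4e_an_M (S1 C1f Gf bb)
open Pool.Agent.MP_ae5b4e_an_A3 (rs md Dfc)
open PorTR (Hm)

/-- THE TIP SEEN AT THE FAR PARAMETERS with `be` near `bt`: position `θt c` of the tip, the family is
regular outside the cone above it, label and `cos y` along the vertical from below -/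
structure ZTip (q : ℂ → ℂ) (Ω : Set (ℂ × ℂ)) (z : ℂ × ℂ → ℂ × ℂ) (ρ p b0 bt C R0 δt : ℝ)
    (θt : ℂ → ℂ) : Prop where
  δ_pos : 0 < δt
  cont : ContinuousOn θt {c : ℂ | R0 < (1 + p) * c.re ∧ |(1 + p) * c.im - b0 - bt| < δt}
  le : ∀ c : ℂ, R0 < (1 + p) * c.re → |(1 + p) * c.im - b0 - bt| < δt →
    ‖θt c‖ ≤ C * Real.exp (-((1 + p) * c.re))
  C_pos : 0 < C
  reg : ∀ c : ℂ, R0 < (1 + p) * c.re → |(1 + p) * c.im - b0 - bt| < δt → ∀ θ : ℂ, ‖θ‖ < 2 * ρ →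
    θ.im < 2 * (C * Real.exp (-((1 + p) * c.re))) →
    (θ - θt c).im < 3 / 5 * |(θ - θt c).re| → (θ, c) ∈ Ω
  tip : ∀ c : ℂ, R0 < (1 + p) * c.re → |(1 + p) * c.im - b0 - bt| < δt → ∃ lb : ℂ, lb.im < 0 ∧
    q lb ≠ 0 ∧ deriv q lb ≠ 0 ∧
    Tendsto (fun s : ℝ => (z (θt c - I * s, c)).1) (𝓝[>] 0) (𝓝 lb) ∧
    Tendsto (fun s : ℝ => ‖C1f (q (z (θt c - I * s, c)).1 * (z (θt c - I * s, c)).2 ^ 2)‖)
      (𝓝[>] 0) atTop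

theorem K17_ct {p : ℝ} (hp : 0 < p) (b0 bt x : ℝ) : (1 + p) * (ct p b0 bt x).re = x ∧
    (1 + p) * (ct p b0 bt x).im = bt + b0 := by
  have h1 : (1 + p : ℝ) ≠ 0 := by positivity
  unfold ct
  rw [Complex.div_ofReal_re, Complex.div_ofReal_im]
  have e1 : ((x : ℂ) + ((bt + b0 : ℝ) : ℂ) * I).re = x := by simp
  have e2 : ((x : ℂ) + ((bt + b0 : ℝ) : ℂ) * I).im = bt + b0 := by simp
  rw [e1, e2]
  constructor
  · field_simp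
  · field_simp

/-- the parameter as a function of `γ` -/
def K17_sg (c₁ γ₁ γ : ℂ) : ℂ := c₁ + log (γ / γ₁)

theorem K17_sl {γ₁ γ : ℂ} (h1 : γ₁ ≠ 0) (h : γ ∈ ball γ₁ ‖γ₁‖) : γ / γ₁ ∈ slitPlane := by
  have h2 : ‖γ / γ₁ - 1‖ < 1 := by
    have e : γ / γ₁ - 1 = (γ - γ₁) / γ₁ := by field_simp
    rw [e, norm_div, div_lt_one (norm_pos_iff.2 h1), ← dist_eq_norm]
    exact h
  have h3 := Complex.mem_slitPlane_of_norm_lt_one h2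
  rwa [add_sub_cancel] at h3

theorem K17_an {c₁ γ₁ : ℂ} (h1 : γ₁ ≠ 0) :
    AnalyticOnNhd ℂ (K17_sg c₁ γ₁) (ball γ₁ ‖γ₁‖) := by
  intro γ hγ
  have h2 : AnalyticAt ℂ (fun γ : ℂ => γ / γ₁) γ := analyticAt_id.div analyticAt_const h1
  exact analyticAt_const.add (h2.clog (K17_sl h1 hγ))

theorem K17_deriv {c₁ γ₁ γ : ℂ} (h1 : γ₁ ≠ 0) (hγ : γ ∈ ball γ₁ ‖γ₁‖) :
    deriv (K17_sg c₁ γ₁) γ ≠ 0 := by
  have h2 : HasDerivAt (fun γ : ℂ => γ / γ₁) (1 / γ₁) γ := (hasDerivAt_id γ).div_const γ₁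
  have h3 : HasDerivAt (K17_sg c₁ γ₁) ((1 / γ₁) / (γ / γ₁)) γ :=
    (h2.clog (K17_sl h1 hγ)).const_add c₁
  rw [h3.deriv]
  exact div_ne_zero (one_div_ne_zero h1) (slitPlane_ne_zero (K17_sl h1 hγ))

theorem K17_exp {c₁ γ₁ γ s : ℂ} (h1 : γ₁ ≠ 0) (hs : γ₁ = s * cexp c₁)
    (hγ : γ ∈ ball γ₁ ‖γ₁‖) : s * cexp (K17_sg c₁ γ₁ γ) = γ := by
  unfold K17_sg
  rw [Complex.exp_add, Complex.exp_log (slitPlane_ne_zero (K17_sl h1 hγ)), ← mul_assoc, ← hs]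
  field_simp

theorem K17_self {c₁ γ₁ : ℂ} (h1 : γ₁ ≠ 0) : K17_sg c₁ γ₁ γ₁ = c₁ := by
  unfold K17_sg
  rw [div_self h1, log_one, add_zero]

theorem K17_far {M Ω : Set (ℂ × ℂ)} {g z : ℂ × ℂ → ℂ × ℂ} {d ρ p b0 b A C R0 h : ℝ}
    (hG : ZGeo M g Ω z d ρ p b0 b A C R0) (hhρ : 2 * h ≤ ρ)
    (hhd : h * (1 + d) ≤ d * ρ) {c : ℂ} (hc : c ∈ Df p b0 A R0)
    (hC : C * Real.exp (-((1 + p) * c.re)) < h) {θ : ℂ}
    (h1 : ρ - h < |θ.re|) (h2 : |θ.re| < ρ + h) (h3 : |θ.im| < h) : (θ, c) ∈ Ω := by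
  have n1 := Complex.abs_re_le_norm θ
  have n2 := Complex.norm_le_abs_re_add_abs_im θ
  have n3 := le_abs_self θ.im
  refine hG.far c hc.1 hc.2 θ (by linarith) (by linarith) ?_
  have h4 := mul_lt_mul_of_pos_left h1 hG.d_pos
  linarith

theorem K17_n {ρ h : ℝ} (hhρ : 2 * h ≤ ρ) {θ : ℂ} (h1 : |θ.re| ≤ ρ) (h2 : |θ.im| < h) :
    ‖θ‖ < 2 * ρ := by
  have n2 := Complex.norm_le_abs_re_add_abs_im θ
  have n3 := abs_nonneg θ.im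
  linarith

theorem K17_cpt {Y : ℂ → ℝ} {c : ℂ} {r a : ℝ} (hY : ContinuousOn Y (closedBall c r)) (η : ℝ) :
    IsCompact {x : ℝ × ℂ | x.2 ∈ closedBall c r ∧ a ≤ x.1 ∧ x.1 ≤ Y x.2 - η} := by
  obtain ⟨M, hM⟩ := (isCompact_closedBall c r).exists_bound_of_continuousOn hY
  have hS : IsCompact (Icc a (M - η) ×ˢ closedBall c r) :=
    isCompact_Icc.prod (isCompact_closedBall c r)
  have hF : ContinuousOn (fun x : ℝ × ℂ => Y x.2 - η - x.1)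
      (Icc a (M - η) ×ˢ closedBall c r) := by
    have h1 : ContinuousOn (fun x : ℝ × ℂ => Y x.2) (Icc a (M - η) ×ˢ closedBall c r) :=
      hY.comp continuousOn_snd (fun x hx => hx.2)
    exact (h1.sub continuousOn_const).sub continuousOn_fst
  have hcl := hF.preimage_isClosed_of_isClosed hS.isClosed (isClosed_Ici (a := (0 : ℝ)))
  have e : {x : ℝ × ℂ | x.2 ∈ closedBall c r ∧ a ≤ x.1 ∧ x.1 ≤ Y x.2 - η} =
      (Icc a (M - η) ×ˢ closedBall c r) ∩ (fun x : ℝ × ℂ => Y x.2 - η - x.1) ⁻¹' Ici 0 := by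
    ext x
    constructor
    · rintro ⟨a1, a2, a3⟩
      have a4 := (abs_le.1 (hM x.2 a1)).2
      refine ⟨⟨⟨a2, by linarith⟩, a1⟩, ?_⟩
      show 0 ≤ Y x.2 - η - x.1
      linarith
    · rintro ⟨⟨⟨a1, a2⟩, a3⟩, a4⟩
      have a5 : 0 ≤ Y x.2 - η - x.1 := a4
      exact ⟨a3, a1, by linarith⟩
  rw [e]
  exact hS.of_isClosed_subset hcl inter_subset_left

theorem K17_fm {ε : ℕ → ℝ} {X X' : ℕ → ℂ × ℂ → ℂ × ℂ} {y : ℝ} {n : ℕ} {c : ℂ} (h0 : 0 < ε n)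
    (h : ∀ q : ℂ × ℂ, pc q = (y, c) → X n q = X' n q) : fm ε y X n c = fm ε y X' n c := by
  unfold fm md Pool.Agent.MP_ae5b4e_an_A4.am Pool.Agent.MP_ae5b4e_an_MERO.fo
  congr 1
  funext v
  have h1 : rs (ε n) (fun p => (X n p).2) ((v : ℂ) + ((y / ε n : ℝ) : ℂ) * I, c) =
      rs (ε n) (fun p => (X' n p).2) ((v : ℂ) + ((y / ε n : ℝ) : ℂ) * I, c) := by
    unfold rs
    have h2 : pc ((ε n : ℂ) * ((v : ℂ) + ((y / ε n : ℝ) : ℂ) * I), c) = (y, c) := by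
      unfold pc
      have h3 : ((ε n : ℂ) * ((v : ℂ) + ((y / ε n : ℝ) : ℂ) * I)).im = y := by
        simp
        field_simp
      simp only [h3]
    show (X n _).2 = (X' n _).2
    rw [h _ h2]
  beta_reduce
  rw [h1]

/-- THE LOWER BOUND: the hypothesis `hT` of `no_dz`.

Proof. Let `x, h, r, Zl, Zr, X` be given, `c₁ := ct p b0 bt x` (`(1 + p) Re c₁ = x`, `(1 + p) Im c₁ - b0 = bt`),
`t := Im θt c₁`, `|t| ≤ C exp (- x) < h / 2`; `γ₁ := s exp c₁ ≠ 0`. `D' := ball γ₁ ρ₁`, `ρ₁ ≤ ‖γ₁‖ / 2`,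
`σ γ := c₁ + log (γ / γ₁)` (`γ / γ₁` is in the slit plane): analytic, `σ' γ = 1 / γ ≠ 0`, `s exp (σ γ) = γ`,
`σ γ₁ = c₁`; `ρ₁` so small that `σ` maps `D'` into `ball c₁ r` and into the open set of `ZTip.cont`.
(1) THE CHART: `z₁ := z ∘ ch 0 σ` on `Ω₁ := {p | p.2 ∈ D' ∧ ch 0 σ p ∈ Ω}`: `fw_ch`; `Gf q (z₁ p) = p.2`.
`Zl ∘ ch`, `Zr ∘ ch` are exact for `z₁` on `Rec (∓ρ - h) (∓ρ + h) (-h) h ×ˢ D'` (`ex_ch`, `Ex.mono'`).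
`Yb γ := Im θt (σ γ)` is continuous on `D'`. `exists_kick_two` for `z₁` (`w = h`, `y₁ = -h`, `y₂ = h`; the boxes
are in `Ω₁` by `ZGeo.far`, as in `far_data`): `X₁`; its region contains `{γ ∈ D', -h < y < Yb γ}`: for
`|s'| ≤ ρ`, `θ = s' + i y`: `‖θ‖ < 2 ρ`, `Im (θ - θt) < 0` (`ZTip.reg`).
(2) `Ps` with `al = -ρ`, `ar = ρ`, `y₀ := t`, `y₁ := t - h / 8`, `w := h / 4`, `rb := ρ₁ / 4`, `A n p := (X₁ n p).1`,
`B n p := (X₁ n p).2`: the heights of the boxes are in `(-h, h)`; `an`, `lim`, `pas` on the compact set of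
the `(y, γ)`, `γ ∈ closedBall γ₁ rb`, `y₁ ≤ y ≤ Yb γ - η`. `Tp` with `θb = θt c₁`, `g₀ = γ₁`, `s₀ = ρ / 2`. `hG`
with `b₀ = h / 4`. `tip_lb` (`hKs` for the `lb` of `ZTip.tip`): for every `δ`, for almost all `n`,
`exp (- ((t + δ) NN)) ≤ ‖fm ε (t - h / 16) X₁ n γ₁‖`.
(3) `X₂` := kick of `(Zl, Zr)` for `z` over `{c ∈ ball c₁ r₂, -h < y < Im θt c}` (`exists_kick`, `r₂ ≤ r` small, an open
region). `chart_low` with `σ`, `c₀ = γ₁`, `X' = X₁`, `X = X₂`, heights `(-h, t)`, `Or` = right box: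
`exp (- ((t + δ) NN)) ≤ ‖fm ε (-(h / 2)) X₂ n c₁‖`.
(4) `kick_uniq` over the common region `{c ∈ ball c₁ r₂, -h < y < - C exp (- (1 + p) Re c)}` (note
`- C exp (..) ≤ Im θt c` by `ZTip.le`) with `K = {(-(h / 2), c₁)}`: `X n q = X₂ n q` for the `q` at the height
`-(h / 2)` over `c₁`, so `fm ε (-(h / 2)) X n c₁ = fm ε (-(h / 2)) X₂ n c₁` (`md` is an integral over this line).
(5) `t ≤ C exp (- x)`. -/
theorem tip_far {U : Ultrafilter ℕ} {ε : ℕ → ℝ} {Zs : ℕ → Sys} {ξ : ℕ → ℂ × ℂ → ℂ} {q : ℂ → ℂ}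
    {Ω : Set (ℂ × ℂ)} {z : ℂ × ℂ → ℂ × ℂ} {d ρ p b0 b A C R0 bt δt : ℝ} {θt : ℂ → ℂ} {s : ℂ}
    (hs : s ≠ 0) (hV : VF U ε (Hm ×ˢ univ) (gI q) (gx ε ξ)) (hξ : XI U Zs ε ξ)
    (hq : DifferentiableOn ℂ q Hm) (hG : ZGeo (Hm ×ˢ univ) (gI q) Ω z d ρ p b0 b A C R0)
    (hH : ∀ p ∈ Ω, Gf q (z p).1 (z p).2 = s * cexp p.2) (hbt : |bt - Real.pi / 2| < A)
    (hT : ZTip q Ω z ρ p b0 bt C R0 δt θt)
    (hKs : ∀ lb : ℂ, lb.im < 0 → ∀ (R : ℝ) (κ : ℂ → ℂ) (ℓ : ℂ), 0 < R → closedBall lb R ⊆ Hm →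
      DifferentiableOn ℂ κ (ball lb R) → (∀ l ∈ ball lb R, κ l ^ 2 = q l) → κ lb ≠ 0 →
      cexp ℓ = deriv (fun l => 1 / (2 * I * κ l)) lb →
      ∃ (R₁ ρ : ℝ) (X J A Φ : ℂ → ℂ) (Xn Jn An : ℕ → ℂ → ℂ),
        Ks U Zs ε q κ lb ℓ R₁ ρ X J A Φ Xn Jn An) {x : ℝ} (hx : R0 < x) {h r : ℝ}
    {Zl Zr X : ℕ → ℂ × ℂ → ℂ × ℂ} (hh : 0 < h) (hr : 0 < r) (hhρ : 2 * h ≤ ρ)
    (hhd : h * (1 + d) ≤ d * ρ) (hCx : C * Real.exp (-x) < h / 2)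
    (hb : ball (ct p b0 bt x) r ⊆ Df p b0 A R0)
    (el : Ex U ε (gx ε ξ) (Rec (-ρ - h) (-ρ + h) (-h) h ×ˢ ball (ct p b0 bt x) r) z Zl)
    (er : Ex U ε (gx ε ξ) (Rec (ρ - h) (ρ + h) (-h) h ×ˢ ball (ct p b0 bt x) r) z Zr)
    (hX : Kk U ε (gx ε ξ) (-ρ) ρ {y : ℝ × ℂ | y.2 ∈ ball (ct p b0 bt x) r ∧ -h < y.1 ∧
      y.1 < -(C * Real.exp (-((1 + p) * y.2.re)))} Zl Zr X) {δ : ℝ} (hδ : 0 < δ) :
    ∀ᶠ n in (U : Filter ℕ), Real.exp (-((C * Real.exp (-x) + δ) * NN ε n)) ≤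
      ‖fm ε (-(h / 2)) X n (ct p b0 bt x)‖ := by
  have hp := hG.p_pos
  have hρ := hG.ρ_pos
  have hC0 := hG.C_nonneg
  have h0 := hV.ε_pos
  obtain ⟨hre, him⟩ := K17_ct hp b0 bt x
  obtain ⟨c₁, hc₁⟩ : ∃ c₁ : ℂ, c₁ = ct p b0 bt x := ⟨_, rfl⟩
  rw [← hc₁] at hb el er hX hre him ⊢
  obtain ⟨Nt, hNt⟩ : ∃ Nt : Set ℂ,
    Nt = {c : ℂ | R0 < (1 + p) * c.re ∧ |(1 + p) * c.im - b0 - bt| < δt} := ⟨_, rfl⟩
  have hNo : IsOpen Nt := by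
    rw [hNt]
    have k1 : IsOpen {c : ℂ | R0 < (1 + p) * c.re} := isOpen_lt continuous_const (by fun_prop)
    have k2 : IsOpen {c : ℂ | |(1 + p) * c.im - b0 - bt| < δt} :=
      isOpen_lt (by fun_prop) continuous_const
    exact k1.inter k2
  have hc₁N : c₁ ∈ Nt := by
    rw [hNt]
    refine ⟨by rw [hre]; exact hx, ?_⟩
    rw [him]
    have e : bt + b0 - b0 - bt = 0 := by ring
    rw [e, abs_zero]
    exact hT.δ_pos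
  have hNt' : ∀ c ∈ Nt, R0 < (1 + p) * c.re ∧ |(1 + p) * c.im - b0 - bt| < δt := by
    intro c hc
    rw [hNt] at hc
    exact hc
  have hcN := hNt' c₁ hc₁N
  obtain ⟨θb, hθb⟩ : ∃ θb : ℂ, θb = θt c₁ := ⟨_, rfl⟩
  obtain ⟨t, ht⟩ : ∃ t : ℝ, t = θb.im := ⟨_, rfl⟩
  have hθn : ‖θb‖ ≤ C * Real.exp (-x) := by
    have k1 := hT.le c₁ hcN.1 hcN.2
    rwa [hre, ← hθb] at k1
  have hθre : |θb.re| < h / 2 := (Complex.abs_re_le_norm θb).trans_lt (hθn.trans_lt hCx)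
  have hθim : |t| < h / 2 := by
    rw [ht]
    exact (Complex.abs_im_le_norm θb).trans_lt (hθn.trans_lt hCx)
  have htC : t ≤ C * Real.exp (-x) := by
    rw [ht]
    exact ((le_abs_self _).trans (Complex.abs_im_le_norm θb)).trans hθn
  obtain ⟨t1, t2⟩ := abs_lt.1 hθim
  have hcont : ContinuousOn θt Nt := by
    rw [hNt]
    exact hT.cont
  -- the neighbourhood of `c₁`
  have hev : ∀ᶠ c in 𝓝 c₁, c ∈ Nt ∧ c ∈ ball c₁ r ∧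
      C * Real.exp (-((1 + p) * c.re)) < h / 2 ∧ (θt c).im < t + h / 8 := by
    have k1 : ∀ᶠ c in 𝓝 c₁, c ∈ Nt := hNo.mem_nhds hc₁N
    have k2 : ∀ᶠ c in 𝓝 c₁, c ∈ ball c₁ r := ball_mem_nhds c₁ hr
    have k3 : ∀ᶠ c : ℂ in 𝓝 c₁, C * Real.exp (-((1 + p) * c.re)) < h / 2 := by
      have k4 : Continuous fun c : ℂ => C * Real.exp (-((1 + p) * c.re)) := by fun_prop
      refine (k4.tendsto c₁).eventually (gt_mem_nhds ?_)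
      rw [hre]
      exact hCx
    have k5 : ∀ᶠ c in 𝓝 c₁, (θt c).im < t + h / 8 := by
      have k6 : ContinuousAt (fun c => (θt c).im) c₁ :=
        continuous_im.continuousAt.comp (hcont.continuousAt (hNo.mem_nhds hc₁N))
      refine k6.eventually (gt_mem_nhds ?_)
      show (θt c₁).im < t + h / 8
      rw [← hθb, ← ht]
      linarith
    filter_upwards [k1, k2, k3, k5] with c a1 a2 a3 a4
    exact ⟨a1, a2, a3, a4⟩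
  obtain ⟨r₂, hr₂, hN⟩ := Metric.eventually_nhds_iff_ball.1 hev
  have hrr : ball c₁ r₂ ⊆ ball c₁ r := fun c hc => (hN c hc).2.1
  -- the parameter `γ`
  obtain ⟨γ₁, hγ₁⟩ : ∃ γ₁ : ℂ, γ₁ = s * cexp c₁ := ⟨_, rfl⟩
  have hγ0 : γ₁ ≠ 0 := by
    rw [hγ₁]
    exact mul_ne_zero hs (Complex.exp_ne_zero _)
  obtain ⟨σ, hσ⟩ : ∃ σ : ℂ → ℂ, σ = K17_sg c₁ γ₁ := ⟨_, rfl⟩
  have hσ1 : σ γ₁ = c₁ := by
    rw [hσ]
    exact K17_self hγ0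
  have hγb : γ₁ ∈ ball γ₁ ‖γ₁‖ := mem_ball_self (norm_pos_iff.2 hγ0)
  have hevσ : ∀ᶠ γ in 𝓝 γ₁, σ γ ∈ ball c₁ r₂ := by
    have k1 : ContinuousAt σ γ₁ := by
      rw [hσ]
      exact (K17_an hγ0 γ₁ hγb).continuousAt
    refine k1.eventually ?_
    rw [hσ1]
    exact ball_mem_nhds c₁ hr₂
  obtain ⟨ρ₀, hρ₀, hσ0⟩ := Metric.eventually_nhds_iff_ball.1 hevσ
  obtain ⟨ρ₁, hρ₁, hρa, hρb⟩ : ∃ ρ₁ : ℝ, 0 < ρ₁ ∧ ρ₁ ≤ ρ₀ ∧ ρ₁ ≤ ‖γ₁‖ :=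
    ⟨min ρ₀ ‖γ₁‖, lt_min hρ₀ (norm_pos_iff.2 hγ0), min_le_left _ _, min_le_right _ _⟩
  have hDγ : ball γ₁ ρ₁ ⊆ ball γ₁ ‖γ₁‖ := ball_subset_ball hρb
  have hσD : ∀ γ ∈ ball γ₁ ρ₁, σ γ ∈ ball c₁ r₂ := fun γ hγ => hσ0 γ (ball_subset_ball hρa hγ)
  have hσan : AnalyticOnNhd ℂ σ (ball γ₁ ρ₁) := by
    rw [hσ]
    exact (K17_an hγ0).mono hDγ
  have hσ' : ∀ γ ∈ ball γ₁ ρ₁, deriv σ γ ≠ 0 := by
    intro γ hγ
    rw [hσ]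
    exact K17_deriv hγ0 (hDγ hγ)
  have hσe : ∀ γ ∈ ball γ₁ ρ₁, s * cexp (σ γ) = γ := by
    intro γ hγ
    rw [hσ]
    exact K17_exp hγ0 hγ₁ (hDγ hγ)
  have hγD : γ₁ ∈ ball γ₁ ρ₁ := mem_ball_self hρ₁
  -- the chart
  have hch : ∀ p : ℂ × ℂ, ch 0 σ p = (p.1, σ p.2) := by
    intro p
    simp [ch]
  obtain ⟨Ω₁, hΩ₁⟩ : ∃ Ω₁ : Set (ℂ × ℂ), Ω₁ = {p | p.2 ∈ ball γ₁ ρ₁ ∧ ch 0 σ p ∈ Ω} :=
    ⟨_, rfl⟩
  have hmem : ∀ p : ℂ × ℂ, p.2 ∈ ball γ₁ ρ₁ → (p.1, σ p.2) ∈ Ω → p ∈ Ω₁ := by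
    intro p a1 a2
    rw [hΩ₁]
    refine ⟨a1, ?_⟩
    rw [hch]
    exact a2
  have hz₁ : Fw (Hm ×ˢ univ) (gI q) Ω₁ (z ∘ ch 0 σ) := by
    rw [hΩ₁]
    exact fw_ch hG.fw isOpen_ball analyticOnNhd_const hσan hσ'
  have hH₁ : ∀ p ∈ Ω₁, Gf q ((z ∘ ch 0 σ) p).1 ((z ∘ ch 0 σ) p).2 = p.2 := by
    intro p hp'
    rw [hΩ₁] at hp'
    have k1 := hH (ch 0 σ p) hp'.2
    have k2 : (ch 0 σ p).2 = σ p.2 := rfl
    rw [k2, hσe p.2 hp'.1] at k1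
    exact k1
  have el₁ : Ex U ε (gx ε ξ) (Rec (-ρ - h) (-ρ + h) (-h) h ×ˢ ball γ₁ ρ₁) (z ∘ ch 0 σ)
      (fun n => Zl n ∘ ch 0 σ) := by
    refine Ex.mono' (ex_ch el analyticOnNhd_const hσan) ?_
    rintro p ⟨a1, a2⟩
    refine ⟨a2, ?_⟩
    rw [hch]
    exact ⟨a1, hrr (hσD p.2 a2)⟩
  have er₁ : Ex U ε (gx ε ξ) (Rec (ρ - h) (ρ + h) (-h) h ×ˢ ball γ₁ ρ₁) (z ∘ ch 0 σ)
      (fun n => Zr n ∘ ch 0 σ) := by
    refine Ex.mono' (ex_ch er analyticOnNhd_const hσan) ?_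
    rintro p ⟨a1, a2⟩
    refine ⟨a2, ?_⟩
    rw [hch]
    exact ⟨a1, hrr (hσD p.2 a2)⟩
  -- the boxes
  have hL : ∀ θ ∈ Rec (-ρ - h) (-ρ + h) (-h) h, ∀ c ∈ ball c₁ r₂, (θ, c) ∈ Ω := by
    rintro θ ⟨a1, a2, a3, a4⟩ c hc
    have k1 := hN c hc
    have k2 : θ.re < 0 := by linarith
    refine K17_far hG hhρ hhd (hb k1.2.1) (by linarith [k1.2.2.1]) ?_ ?_ (abs_lt.2 ⟨a3, a4⟩)
    · rw [abs_of_neg k2]
      linarith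
    · rw [abs_of_neg k2]
      linarith
  have hR : ∀ θ ∈ Rec (ρ - h) (ρ + h) (-h) h, ∀ c ∈ ball c₁ r₂, (θ, c) ∈ Ω := by
    rintro θ ⟨a1, a2, a3, a4⟩ c hc
    have k1 := hN c hc
    have k2 : 0 < θ.re := by linarith
    refine K17_far hG hhρ hhd (hb k1.2.1) (by linarith [k1.2.2.1]) ?_ ?_ (abs_lt.2 ⟨a3, a4⟩)
    · rw [abs_of_pos k2]
      linarith
    · rw [abs_of_pos k2]
      linarith
  have hlΩ₁ : Rec (-ρ - h) (-ρ + h) (-h) h ×ˢ ball γ₁ ρ₁ ⊆ Ω₁ := fun p hp' =>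
    hmem p hp'.2 (hL p.1 hp'.1 _ (hσD _ hp'.2))
  have hrΩ₁ : Rec (ρ - h) (ρ + h) (-h) h ×ˢ ball γ₁ ρ₁ ⊆ Ω₁ := fun p hp' =>
    hmem p hp'.2 (hR p.1 hp'.1 _ (hσD _ hp'.2))
  have haρ : -ρ < ρ := by linarith
  obtain ⟨X₁, hX₁, hX₁p⟩ := exists_kick_two hV hz₁ haρ hh isOpen_ball el₁ er₁ hlΩ₁ hrΩ₁
  -- below the tip
  have hbel : ∀ c ∈ ball c₁ r₂, ∀ y : ℝ, -h < y → y < (θt c).im → ∀ v ∈ Icc (-ρ) ρ,
      y < h ∧ ((⟨v, y⟩ : ℂ), c) ∈ Ω := by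
    intro c hc y a1 a2 v hv
    have k1 := hN c hc
    have k2 := hNt' c k1.1
    have k3 : y < h := by linarith [k1.2.2.2]
    have k6 : (θt c).im ≤ C * Real.exp (-((1 + p) * c.re)) :=
      ((le_abs_self _).trans (Complex.abs_im_le_norm _)).trans (hT.le c k2.1 k2.2)
    have k7 : 0 < C * Real.exp (-((1 + p) * c.re)) := mul_pos hT.C_pos (Real.exp_pos _)
    refine ⟨k3, hT.reg c k2.1 k2.2 _ (K17_n hhρ (abs_le.2 hv) (abs_lt.2 ⟨a1, k3⟩))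
      (lt_of_lt_of_le a2 (by linarith)) ?_⟩
    have k4 : ((⟨v, y⟩ : ℂ) - θt c).im = y - (θt c).im := by simp
    rw [k4]
    have k5 := abs_nonneg ((⟨v, y⟩ : ℂ) - θt c).re
    linarith
  obtain ⟨R₁, hR₁⟩ : ∃ R₁ : Set (ℝ × ℂ),
    R₁ = {x : ℝ × ℂ | -h < x.1 ∧ x.1 < h ∧ x.2 ∈ ball γ₁ ρ₁} ∩ Rp Ω₁ (-ρ) ρ := ⟨_, rfl⟩
  rw [← hR₁] at hX₁ hX₁p
  have hR₁m : ∀ y : ℝ, ∀ γ ∈ ball γ₁ ρ₁, -h < y → y < (θt (σ γ)).im → (y, γ) ∈ R₁ := by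
    intro y γ hγ a1 a2
    have k1 := hbel (σ γ) (hσD γ hγ) y a1 a2
    rw [hR₁]
    refine ⟨⟨a1, (k1 ρ ⟨haρ.le, le_rfl⟩).1, hγ⟩, fun v hv => ?_⟩
    exact hmem _ hγ (k1 v hv).2
  have hR₁o : IsOpen R₁ := by
    rw [hR₁]
    have k1 : IsOpen {x : ℝ × ℂ | -h < x.1 ∧ x.1 < h ∧ x.2 ∈ ball γ₁ ρ₁} := by
      have k2 : IsOpen {x : ℝ × ℂ | -h < x.1} := isOpen_lt continuous_const continuous_fst
      have k3 : IsOpen {x : ℝ × ℂ | x.1 < h} := isOpen_lt continuous_fst continuous_const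
      have k4 : IsOpen {x : ℝ × ℂ | x.2 ∈ ball γ₁ ρ₁} := isOpen_ball.preimage continuous_snd
      exact k2.inter (k3.inter k4)
    exact k1.inter (isOpen_Rp hz₁.Ω_open _ _)
  obtain ⟨Yb, hYb⟩ : ∃ Yb : ℂ → ℝ, Yb = fun γ => (θt (σ γ)).im := ⟨_, rfl⟩
  have hYb1 : Yb γ₁ = t := by
    rw [hYb]
    show (θt (σ γ₁)).im = t
    rw [hσ1, ← hθb, ht]
  have hρ4 : closedBall γ₁ (ρ₁ / 4) ⊆ ball γ₁ ρ₁ := closedBall_subset_ball (by linarith)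
  have hYbc : ContinuousOn Yb (closedBall γ₁ (ρ₁ / 4)) := by
    rw [hYb]
    have k1 : ContinuousOn σ (closedBall γ₁ (ρ₁ / 4)) := hσan.continuousOn.mono hρ4
    have k2 : ContinuousOn (fun γ => θt (σ γ)) (closedBall γ₁ (ρ₁ / 4)) :=
      hcont.comp k1 fun γ hγ => (hN _ (hσD γ (hρ4 hγ))).1
    exact continuous_im.comp_continuousOn k2
  have hKsub : ∀ η : ℝ, 0 < η → {x : ℝ × ℂ | x.2 ∈ closedBall γ₁ (ρ₁ / 4) ∧ t - h / 8 ≤ x.1 ∧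
      x.1 ≤ Yb x.2 - η} ⊆ R₁ := by
    rintro η hη ⟨y, γ⟩ ⟨a1, a2, a3⟩
    have a2' : t - h / 8 ≤ y := a2
    have a3' : y ≤ Yb γ - η := a3
    refine hR₁m y γ (hρ4 a1) (by linarith) ?_
    rw [hYb] at a3'
    have a4 : y ≤ (θt (σ γ)).im - η := a3'
    linarith
  have hStr : ∀ η : ℝ, ∀ p ∈ Str (t - h / 8) (fun γ => Yb γ - η) γ₁ (ρ₁ / 4),
      pc p ∈ {x : ℝ × ℂ | x.2 ∈ closedBall γ₁ (ρ₁ / 4) ∧ t - h / 8 ≤ x.1 ∧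
        x.1 ≤ Yb x.2 - η} := fun η p hp' =>
    ⟨ball_subset_closedBall hp'.1, hp'.2.1.le, hp'.2.2.le⟩
  have hboxl : Rec (-ρ - h / 4) (-ρ + h / 4) (t - h / 4) (t + h / 4) ×ˢ
      ball γ₁ (2 * (ρ₁ / 4)) ⊆ Rec (-ρ - h) (-ρ + h) (-h) h ×ˢ ball γ₁ ρ₁ := by
    rintro p ⟨⟨a1, a2, a3, a4⟩, a5⟩
    exact ⟨⟨by linarith, by linarith, by linarith, by linarith⟩,
      ball_subset_ball (by linarith) a5⟩
  have hboxr : Rec (ρ - h / 4) (ρ + h / 4) (t - h / 4) (t + h / 4) ×ˢ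
      ball γ₁ (2 * (ρ₁ / 4)) ⊆ Rec (ρ - h) (ρ + h) (-h) h ×ˢ ball γ₁ ρ₁ := by
    rintro p ⟨⟨a1, a2, a3, a4⟩, a5⟩
    exact ⟨⟨by linarith, by linarith, by linarith, by linarith⟩,
      ball_subset_ball (by linarith) a5⟩
  have hPs : Ps U ε (gx ε ξ) (z ∘ ch 0 σ) (-ρ) ρ t (t - h / 8) (h / 4) (ρ₁ / 4) γ₁ Yb
      (fun n => Zl n ∘ ch 0 σ) (fun n => Zr n ∘ ch 0 σ) (fun n p => (X₁ n p).1)
      (fun n p => (X₁ n p).2) := by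
    refine ⟨by linarith, by linarith, haρ, by linarith, by linarith, by rw [hYb1]; linarith,
      Ex.mono' el₁ hboxl, Ex.mono' er₁ hboxr, fun n p => ?_, fun η hη => ?_,
      fun η hη δ' hδ' => ?_, fun η hη => ?_⟩
    · rw [hX₁.pd.per n p]
      exact ⟨rfl, rfl⟩
    · filter_upwards [hX₁.pd.an _ (hKsub η hη) (K17_cpt hYbc η)] with n hn
      exact ⟨fun p hp' => analyticAt_fst.comp (hn p (hStr η p hp')),
        fun p hp' => analyticAt_snd.comp (hn p (hStr η p hp'))⟩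
    · filter_upwards [hX₁.pd.lim _ (hKsub η hη) (K17_cpt hYbc η) δ' hδ'] with n hn p hp'
      have k1 := hn p (hStr η p hp')
      exact ⟨(norm_fst_le _).trans k1, (norm_snd_le _).trans k1⟩
    · obtain ⟨w', hw', k1⟩ := hX₁p _ (hKsub η hη) (K17_cpt hYbc η)
      have k2 : ∀ᶠ n in (U : Filter ℕ), ε n < w' / 4 :=
        hV.ε_lim.eventually (gt_mem_nhds (by linarith))
      filter_upwards [k1, k2] with n a1 a2 p a3 a4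
      exact a1 p (hStr η p a3) (by linarith)
  -- the tip
  obtain ⟨lb, lb1, lb2, lb3, lb4, lb5⟩ := hT.tip c₁ hcN.1 hcN.2
  rw [← hθb] at lb4 lb5
  have hz₁e : ∀ θ : ℂ, (z ∘ ch 0 σ) (θ, γ₁) = z (θ, c₁) := by
    intro θ
    show z (ch 0 σ (θ, γ₁)) = z (θ, c₁)
    rw [hch, hσ1]
  have hCe : 0 < C * Real.exp (-x) := mul_pos hT.C_pos (Real.exp_pos _)
  have hTp : Tp q Ω₁ (z ∘ ch 0 σ) θb γ₁ (C * Real.exp (-x)) lb := by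
    refine ⟨hCe, ?_, lb1, lb2, lb3, ?_, ?_⟩
    · rintro θ ⟨a1, a2⟩
      refine hmem _ hγD ?_
      show (θ, σ γ₁) ∈ Ω
      rw [hσ1]
      have k1 := norm_add_le (θ - θb) θb
      rw [sub_add_cancel] at k1
      refine hT.reg c₁ hcN.1 hcN.2 θ (by linarith) ?_ (by rw [← hθb]; exact a2)
      rw [hre]
      have k2 := (le_abs_self _).trans (Complex.abs_im_le_norm θ)
      linarith
    · simp only [hz₁e]
      exact lb4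
    · simp only [hz₁e]
      exact lb5
  have hlow : ∀ δ : ℝ, 0 < δ → ∀ᶠ n in (U : Filter ℕ),
      Real.exp (-((t + δ) * NN ε n)) ≤ ‖fm ε (t - h / 16) X₁ n γ₁‖ := by
    intro δ' hδ'
    have k1 := tip_lb hV hξ hq hz₁ hH₁ hTp (fun R κ ℓ => hKs lb lb1 R κ ℓ) hPs
      (hboxl.trans hlΩ₁) (hboxr.trans hrΩ₁) (by linarith [(abs_lt.1 hθre).1])
      (by linarith [(abs_lt.1 hθre).2]) ht.symm hYb1 (b₀ := min (h / 4) (C * Real.exp (-x)))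
      (lt_min (by linarith) hCe)
      (fun θ a1 a2 a3 a4 => by
        refine hmem _ hγD ?_
        show (θ, σ γ₁) ∈ Ω
        rw [hσ1]
        have a7 := min_le_left (h / 4) (C * Real.exp (-x))
        have a8 := min_le_right (h / 4) (C * Real.exp (-x))
        obtain ⟨a5, a6⟩ := abs_lt.1 a3
        refine hT.reg c₁ hcN.1 hcN.2 θ ?_ (by rw [hre]; linarith) (by rw [← hθb]; exact a4)
        exact K17_n hhρ (abs_le.2 ⟨a1, a2⟩) (abs_lt.2 ⟨by linarith, by linarith⟩))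
      (y := t - h / 16) (by linarith) (by linarith) hδ'
    filter_upwards [k1] with n hn
    refine le_trans (le_of_eq ?_) hn
    congr 1
    unfold NN
    ring
  -- the kick over `c`
  obtain ⟨X₂, hX₂⟩ := exists_kick hV hG.fw haρ hh isOpen_ball
    (Ex.mono' el (Set.prod_mono_right hrr)) (Ex.mono' er (Set.prod_mono_right hrr))
    (fun p hp' => hL p.1 hp'.1 _ hp'.2) (fun p hp' => hR p.1 hp'.1 _ hp'.2)
  obtain ⟨R₂, hR₂⟩ : ∃ R₂ : Set (ℝ × ℂ),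
    R₂ = {x : ℝ × ℂ | -h < x.1 ∧ x.1 < h ∧ x.2 ∈ ball c₁ r₂} ∩ Rp Ω (-ρ) ρ := ⟨_, rfl⟩
  rw [← hR₂] at hX₂
  have hR₂o : IsOpen R₂ := by
    rw [hR₂]
    have k1 : IsOpen {x : ℝ × ℂ | -h < x.1 ∧ x.1 < h ∧ x.2 ∈ ball c₁ r₂} := by
      have k2 : IsOpen {x : ℝ × ℂ | -h < x.1} := isOpen_lt continuous_const continuous_fst
      have k3 : IsOpen {x : ℝ × ℂ | x.1 < h} := isOpen_lt continuous_fst continuous_const
      have k4 : IsOpen {x : ℝ × ℂ | x.2 ∈ ball c₁ r₂} := isOpen_ball.preimage continuous_snd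
      exact k2.inter (k3.inter k4)
    exact k1.inter (isOpen_Rp hG.fw.Ω_open _ _)
  have hcc : c₁ ∈ ball c₁ r₂ := mem_ball_self hr₂
  have hlow₂ := chart_low (σ := σ) hV hG.fw
    ((Pool.Agent.MP_ae5b4e_an_BX.isOpen_Rec (ρ - h) (ρ + h) (-h) h).prod isOpen_ball)
    (fun p hp' => hR p.1 hp'.1 _ hp'.2) (Ex.mono' er (Set.prod_mono_right hrr)) isOpen_ball hσan
    hγD (hσ' γ₁ hγD) haρ hR₂o hR₁o (y₁ := -h) (t := t) (y := -(h / 2)) (y' := t - h / 16)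
    (by linarith)
    (fun y hy => by
      rw [hσ1, hR₂]
      have k1 := hbel c₁ hcc y hy.1 (by rw [← hθb, ← ht]; exact hy.2)
      exact ⟨⟨hy.1, (k1 ρ ⟨haρ.le, le_rfl⟩).1, hcc⟩, fun v hv => (k1 v hv).2⟩)
    (fun y hy => hR₁m y γ₁ hγD hy.1 (by rw [hσ1, ← hθb, ← ht]; exact hy.2)) hX₂ hX₁
    (fun y hy => by
      rw [hσ1]
      exact ⟨⟨by show ρ - h < ρ; linarith, by show ρ < ρ + h; linarith, hy.1,
        by show y < h; linarith [hy.2]⟩, hcc⟩)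
    ⟨by linarith, by linarith⟩ ⟨by linarith, by linarith⟩ hlow δ hδ
  rw [hσ1] at hlow₂
  -- uniqueness
  obtain ⟨R₃, hR₃⟩ : ∃ R₃ : Set (ℝ × ℂ), R₃ = {y : ℝ × ℂ | y.2 ∈ ball c₁ r₂ ∧ -h < y.1 ∧
      y.1 < -(C * Real.exp (-((1 + p) * y.2.re)))} := ⟨_, rfl⟩
  have hR₃a : R₃ ⊆ {y : ℝ × ℂ | y.2 ∈ ball c₁ r ∧ -h < y.1 ∧
      y.1 < -(C * Real.exp (-((1 + p) * y.2.re)))} := by
    rw [hR₃]
    rintro y ⟨a1, a2, a3⟩
    exact ⟨hrr a1, a2, a3⟩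
  have hR₃b : R₃ ⊆ R₂ := by
    rw [hR₃, hR₂]
    rintro ⟨y, c⟩ ⟨a1, a2, a3⟩
    have a2' : -h < y := a2
    have a3' : y < -(C * Real.exp (-((1 + p) * c.re))) := a3
    have k0 : 0 ≤ C * Real.exp (-((1 + p) * c.re)) := by positivity
    have k1 : y < 0 := by linarith
    refine ⟨⟨a2, by show y < h; linarith, a1⟩, fun v hv => ?_⟩
    have k2 := hb (hrr a1)
    refine hG.far c k2.1 k2.2 _ ?_ (K17_n hhρ (abs_le.2 hv) (abs_lt.2 ⟨a2', by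
      show y < h
      linarith⟩)) ?_
    · have k3 := Complex.abs_im_le_norm (⟨v, y⟩ : ℂ)
      have k4 : |(⟨v, y⟩ : ℂ).im| = -y := abs_of_neg k1
      rw [k4] at k3
      linarith
    · show y < d * |v|
      have k3 := mul_nonneg hG.d_pos.le (abs_nonneg v)
      linarith
  have hKR : ({(-(h / 2), c₁)} : Set (ℝ × ℂ)) ⊆ R₃ := by
    rw [Set.singleton_subset_iff, hR₃]
    refine ⟨hcc, by show -h < -(h / 2); linarith, ?_⟩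
    show -(h / 2) < -(C * Real.exp (-((1 + p) * c₁.re)))
    rw [hre]
    linarith
  have huq := kick_uniq hV hG.fw
    ((Pool.Agent.MP_ae5b4e_an_BX.isOpen_Rec (ρ - h) (ρ + h) (-h) h).prod isOpen_ball)
    (fun p hp' => hR p.1 hp'.1 _ hp'.2) haρ (Ex.mono' er (Set.prod_mono_right hrr)) (R := R₃)
    (fun y hy => by
      rw [hR₃] at hy
      obtain ⟨a1, a2, a3⟩ := hy
      have k0 : 0 ≤ C * Real.exp (-((1 + p) * y.2.re)) := by positivity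
      exact ⟨⟨by show ρ - h < ρ; linarith, by show ρ < ρ + h; linarith, a2,
        by show y.1 < h; linarith⟩, a1⟩)
    (hX.mono hR₃a) (hX₂.mono hR₃b) isCompact_singleton hKR
  filter_upwards [hlow₂, huq] with n a1 a2
  have k1 : fm ε (-(h / 2)) X n c₁ = fm ε (-(h / 2)) X₂ n c₁ :=
    K17_fm (h0 n) fun q' hq' => a2 q' hq'
  rw [k1]
  refine le_trans (Real.exp_le_exp.2 ?_) a1
  have k2 : (t + δ) * NN ε n ≤ (C * Real.exp (-x) + δ) * NN ε n :=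
    mul_le_mul_of_nonneg_right (by linarith) (NN_pos h0 n).le
  linarith

end Pool.Agent.MP_ae5b4e_an_AZ
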