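import Pool.Agent.Lib.MP_ae5b4e_an_AZ.F6
import Pool.Agent.Lib.MP_ae5b4e_an_AZ.K17

/-!
# AZ: from the geometry at a zero of `q` (`ZG`) to the data of the kick part (`ZGeo`, `ZTip`)
-/

noncomputable section

namespace Pool.Agent.MP_ae5b4e_an_AZ

open Complex Set Filter Topology Metric
open Pool.Agent.MP_ae5b4e_an_M (S1 C1f Gf bb)
open Pool.Agent.MP_ae5b4e_an_WD (ZChart)
open Pool.Agent.MP_ae5b4e_an_A1 (Fw gI)
open PorTR (Hm)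

variable {q : ℂ → ℂ} {k : ℕ} {p : ℝ} {lam : ℂ → ℂ} {c₁ : ℂ} {b₁ A B δ R E rr : ℝ} {θt : ℂ → ℂ}
  {Ω : Set (ℂ × ℂ)} {z : ℂ × ℂ → ℂ × ℂ}

/-- The tip in the form of the kick part. Proof. `R0 < (1 + p) Re c` gives `R < Re c`; `be p b₁ c - bt =
(1 + p) Im c - b₁ - bt`; `reg` = `g3`; `lb = lam (exp (p (tip k - c)))`. -/
theorem ZG.ztip (h : ZG q k p lam c₁ b₁ A B δ R E rr θt Ω z) {R0 : ℝ} (h1 : (1 + p) * R ≤ R0) :
    ZTip q Ω z (rr / 2) p b₁ (bt k p) E R0 (1 / 25) θt := by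
  have hp := h.p_pos
  have hR : ∀ c : ℂ, R0 < (1 + p) * c.re → R < c.re := fun c hc =>
    lt_of_mul_lt_mul_left (lt_of_le_of_lt h1 hc) (by linarith)
  have hb : ∀ c : ℂ, |(1 + p) * c.im - b₁ - bt k p| < 1 / 25 → |be p b₁ c - bt k p| < 1 / 25 :=
    fun c hc => hc
  refine ⟨by norm_num, ?_, fun c hc _ => h.tip_le c (hR c hc), h.E_pos, ?_, ?_⟩
  · intro c hc
    exact (h.tip_an c (hR c hc.1)).continuousAt.continuousWithinAt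
  · intro c hc hc2 θ hθ hθ2 hθ3
    exact h.g3 c θ (hR c hc) (hb c hc2) (by linarith) (by linarith) hθ3
  · intro c hc hc2
    obtain ⟨a1, a2, a3⟩ := h.lb c (hR c hc) (hb c hc2)
    obtain ⟨a4, a5⟩ := h.tip c (hR c hc) (hb c hc2)
    exact ⟨_, a1, a2, a3, a4, a5⟩

/-- **ALL DATA OF THE KICK PART**, for an arbitrary chart `lam` and an arbitrary argument `b₁` of its
derivative; the field `ZG.germ` describes the family near `θ = 0`. -/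
theorem zg_all (hq : DifferentiableOn ℂ q Hm) {z₀ : ℂ} {μ k : ℕ} {lam : ℂ → ℂ} {r : ℝ}
    (hch : ZChart q z₀ μ lam r) (hk : 1 ≤ k) {b₁ : ℝ}
    (hb₁ : deriv lam 0 = ‖deriv lam 0‖ * cexp (b₁ * I)) :
    ∃ (A B δ R E rr R0 : ℝ) (θt : ℂ → ℂ) (Ω : Set (ℂ × ℂ)) (z : ℂ × ℂ → ℂ × ℂ),
      ZG q k (2 / μ) lam ((2 / μ : ℝ) * deriv lam 0) b₁ A B δ R E rr θt Ω z ∧
      ZGeo (Hm ×ˢ univ) (gI q) Ω z δ (rr / 2) (2 / μ) b₁ B (A - Real.pi / 2) E R0 ∧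
      ZTip q Ω z (rr / 2) (2 / μ) b₁ (bt k (2 / μ)) E R0 (1 / 25) θt ∧
      |bt k (2 / μ) - Real.pi / 2| < A - Real.pi / 2 ∧
      ∀ x ∈ Ω, Gf q (z x).1 (z x).2 = (-1) ^ k * cexp x.2 := by
  obtain ⟨B, δ, R, E, rr, θt, Ω, z, h⟩ := zgeo hq hch hk hb₁ (A := bt k (2 / μ) + 1) le_rfl
  obtain ⟨R0, hR0⟩ : ∃ R0 : ℝ, R0 = max ((1 + 2 / (μ : ℝ)) * R) (Real.log (4 * E / rr)) := ⟨_, rfl⟩
  have h1 : (1 + 2 / (μ : ℝ)) * R ≤ R0 := hR0 ▸ le_max_left _ _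
  have hE := h.E_pos
  have hrr := h.rr_pos
  have h2 : E * Real.exp (-R0) ≤ rr / 4 := by
    have a1 : Real.log (4 * E / rr) ≤ R0 := hR0 ▸ le_max_right _ _
    have a2 : 0 < 4 * E / rr := by positivity
    have a3 : Real.exp (-R0) ≤ (4 * E / rr)⁻¹ := by
      rw [← Real.exp_log a2, ← Real.exp_neg]
      exact Real.exp_le_exp.2 (by linarith)
    calc E * Real.exp (-R0) ≤ E * (4 * E / rr)⁻¹ := mul_le_mul_of_nonneg_left a3 hE.le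
      _ = rr / 4 := by field_simp
  have h3 : |bt k (2 / μ) - Real.pi / 2| < bt k (2 / μ) + 1 - Real.pi / 2 := by
    have a1 := h.B_gt
    have a2 := h.B_le
    have a3 := Real.pi_pos
    rw [abs_lt]
    constructor <;> linarith
  exact ⟨_, B, δ, R, E, rr, R0, θt, Ω, z, h, h.zgeo hq h1 h2, h.ztip h1, h3, h.fz.gf⟩

end Pool.Agent.MP_ae5b4e_an_AZ
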