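import Pool.Agent.Lib.MP_ae5b4e_an_AZ.ZO
import Pool.Agent.Lib.MP_ae5b4e_an_AZ.K17
import Pool.Agent.Lib.MP_ae5b4e_an_AZ.Y1
import Pool.Agent.Lib.MP_ae5b4e_an_AZ.IdD

/-!
# POR (iii), (Z'): from the data of a point `Z_k` of the line to the geometry `ZGeo`
-/

noncomputable section

namespace Pool.Agent.MP_ae5b4e_an_AZ

open Complex Set Filter Topology Metric
open Pool.Agent.MP_ae5b4e_an_A1
open Pool.Agent.MP_ae5b4e_an_T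
open Pool.Agent.MP_ae5b4e_an_M (S1 C1f Gf bb)
open PorTR (Hm)

/-- GEOMETRY AND IDENTIFICATION (owners: helper63, helper99). `s = (-1)^k`, `s exp c = γ'` = the parameter,
`θ = (τ - Tb γ') / γ'`. The family `z` of `ZGeo` near `(0, c₀)` is the state of the label of the slit
neighbourhood.

Proof. Geometry: sections (g1)-(g4) for the chart `lam (ω ·)`, `p = 2 / μ` (`G*`, `F*`, `ZP`), where `c₀` is a
logarithm of `(-1)^k γ` and `c1 = exp (-(2 / μ) c₀) ω`, `ω ^ μ = 1` (`c1_eq`). Identification: `lb (X, γ') =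
lam (c1 exp (-(2/μ) log (γ'/γ)) exp (2 X/μ))` (`lbd`, `ccf`) is the formula of the family with `om = X`, `ζ = c₀ + log
(γ'/γ)`; `Tm (1 + 2/μ) K` = the time function times `γ'` (`Mod.rel`; both tend to `0` for `Re X → - ∞`); for
`(θ, c)` in the near region `Zf (..)` is the solution of `Tm = γ' θ` in `DZ M`, and the section of (g4) is the
solution in `{Re om < -R4, |Im om| < Vm}`: uniqueness by the injectivity of the time function (one sheet), or by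
continuation from one point. -/
theorem geo_id {q : ℂ → ℂ} {vi : ℂ → ℝ} {L : ℂ × ℂ → ℂ} {γ : ℝ} {ζ : ℂ} {Tb : ℂ → ℂ} {l : ℂ} {k : ℕ}
    {R ρ' : ℝ} {μ : ℕ} {lam : ℂ → ℂ} {r M ρ0 : ℝ} {Y : ℂ → ℂ} {c1 k0 : ℂ} {K lb Zf : ℂ × ℂ → ℂ}
    (hq : DifferentiableOn ℂ q Hm)
    (h : ZC q vi L γ ζ Tb l k R ρ' μ lam r M ρ0 Y c1 k0 K lb Zf) :
    ∃ (Ω : Set (ℂ × ℂ)) (z : ℂ × ℂ → ℂ × ℂ) (d ρ p b0 b A C R0 bt δt : ℝ) (θt : ℂ → ℂ) (s c₀ : ℂ),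
      s ≠ 0 ∧ ZGeo (Hm ×ˢ univ) (gI q) Ω z d ρ p b0 b A C R0 ∧
      (∀ x ∈ Ω, Gf q (z x).1 (z x).2 = s * cexp x.2) ∧ |bt - Real.pi / 2| < A ∧
      ZTip q Ω z ρ p b0 bt C R0 δt θt ∧ s * cexp c₀ = γ ∧
      ∃ e r' : ℝ, 0 < e ∧ 0 < r' ∧ ∀ c ∈ ball c₀ r', ∀ θ : ℂ, ‖θ‖ < 2 * e → θ.im < d * |θ.re| →
        (θ, c) ∈ Ω ∧
        (θ * (s * cexp c) + Tb (s * cexp c), s * cexp c) ∈ Slb Tb ζ γ R ρ' ∧
        z (θ, c) =
          (lb (Zf (θ * (s * cexp c) + Tb (s * cexp c), s * cexp c), s * cexp c),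
            alZ k Y (Zf (θ * (s * cexp c) + Tb (s * cexp c), s * cexp c), s * cexp c)) := by
  have hγ : 0 < γ := h.sln.pos.trans h.sln.lt
  obtain ⟨ω, b₁, -, hch, hb₁, hid⟩ := id_hid (ZC.zsd hγ h)
  obtain ⟨A, B, δ, R₁, E, rr, R0, θt, Ω, z, hZG, hGeo, hTip, hbt, hGf⟩ :=
    zg_all hq hch h.k_pos hb₁
  obtain ⟨e, r', he, hr', hz⟩ := hid hZG
  refine ⟨Ω, z, δ, rr / 2, 2 / μ, b₁, B, A - Real.pi / 2, E, R0, bt k (2 / μ), 1 / 25, θt,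
    (-1) ^ k, zt1 k γ, pow_ne_zero _ (neg_ne_zero.2 one_ne_zero), hGeo, hGf, hbt, hTip, sgm_zt1 k hγ,
    e, r', he, hr', fun c hc θ h1 h2 => ?_⟩
  obtain ⟨a1, -, a3, a4⟩ := hz c hc θ h1 h2
  exact ⟨a1, a3, a4⟩

end Pool.Agent.MP_ae5b4e_an_AZ
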