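import Mathlib

/-! # AZ: sections of proper local biholomorphisms over star convex sets -/

noncomputable section

namespace Pool.Agent.MP_ae5b4e_an_AZ

open Complex Set Filter Topology Metric

theorem isLocalHomeomorph_restrict {E : Type*} [NormedAddCommGroup E] [NormedSpace ℂ E]
    [CompleteSpace E] {f : E → E} {P : Set E} (hP : IsOpen P) (hf : AnalyticOnNhd ℂ f P)
    (hd : ∀ x ∈ P, (fderiv ℂ f x).IsInvertible) :
    IsLocalHomeomorph (fun x : P => f x) := by
  intro x
  obtain ⟨e, he⟩ := hd x x.2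
  have hst : HasStrictFDerivAt f (e : E →L[ℂ] E) x := by
    rw [he]
    exact (hf x x.2).hasStrictFDerivAt
  have hval : IsLocalHomeomorph (Subtype.val : P → E) := hP.isOpenEmbedding_subtypeVal.isLocalHomeomorph
  obtain ⟨ψ, hψ, hψv⟩ := hval x
  refine ⟨ψ.trans (hst.toOpenPartialHomeomorph f), ?_, ?_⟩
  · rw [OpenPartialHomeomorph.trans_source]
    refine ⟨hψ, ?_⟩
    have h1 : ψ x = (x : E) := by rw [← hψv]
    rw [mem_preimage, h1]
    exact hst.mem_toOpenPartialHomeomorph_source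
  · funext y
    have h1 : ψ y = (y : E) := by rw [← hψv]
    simp [OpenPartialHomeomorph.coe_trans, h1]

/-- **Sections of proper local biholomorphisms** over a star convex set. -/
theorem exists_section {E : Type*} [NormedAddCommGroup E] [NormedSpace ℂ E] [CompleteSpace E]
    [ProperSpace E] {f : E → E} {P G : Set E} {x₀ y₀ : E} (hP : IsOpen P)
    (hf : AnalyticOnNhd ℂ f P) (hd : ∀ x ∈ P, (fderiv ℂ f x).IsInvertible) (hG : IsOpen G)
    (hs : StarConvex ℝ y₀ G) (hprop : ∀ C ⊆ G, IsCompact C → IsCompact (P ∩ f ⁻¹' C))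
    (hx : x₀ ∈ P) (hy : f x₀ = y₀) (hyG : y₀ ∈ G) :
    ∃ g : E → E, AnalyticOnNhd ℂ g G ∧ (∀ y ∈ G, g y ∈ P ∧ f (g y) = y) ∧ g y₀ = x₀ := by
  classical
  have hcont : ContinuousOn f P := hf.continuousOn
  set P' : Set E := P ∩ f ⁻¹' G with hP'
  have hP'o : IsOpen P' := hcont.isOpen_inter_preimage hP hG
  have hloc' : IsLocalHomeomorph (fun x : P' => f x) :=
    isLocalHomeomorph_restrict hP'o (fun x hx => hf x hx.1) (fun x hx => hd x hx.1)
  let F : P' → G := fun x => ⟨f x, x.2.2⟩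
  have hFc : Continuous F := by
    refine Continuous.subtype_mk ?_ _
    exact continuousOn_iff_continuous_domRestrict.1 (hcont.mono inter_subset_left)
  have hFl : IsLocalHomeomorph F := by
    have h2 : IsLocalHomeomorph ((Subtype.val : G → E) ∘ F) := hloc'
    exact h2.of_comp hG.isOpenEmbedding_subtypeVal.isLocalHomeomorph hFc
  have : LocallyCompactSpace G := hG.locallyCompactSpace
  have hFp : IsProperMap F := by
    rw [isProperMap_iff_isCompact_preimage]
    refine ⟨hFc, fun K hK => ?_⟩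
    have hK' : IsCompact (Subtype.val '' K : Set E) := hK.image continuous_subtype_val
    have h1 := hprop _ (by rintro _ ⟨y, -, rfl⟩; exact y.2) hK'
    rw [Subtype.isCompact_iff]
    convert h1 using 1
    ext x
    constructor
    · rintro ⟨y, hy, rfl⟩
      exact ⟨y.2.1, ⟨F y, hy, rfl⟩⟩
    · rintro ⟨hxP, ⟨y, hyK, hyx⟩⟩
      have hx' : x ∈ P' := ⟨hxP, by rw [mem_preimage, ← hyx]; exact y.2⟩
      refine ⟨⟨x, hx'⟩, ?_, rfl⟩
      have : F ⟨x, hx'⟩ = y := Subtype.ext hyx.symm
      rw [mem_preimage, this]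
      exact hyK
  have hfin : ∀ y ∈ (univ : Set G), (F ⁻¹' {y}).Finite := by
    intro y _
    have hc : IsCompact (F ⁻¹' {y}) := hFp.isCompact_preimage isCompact_singleton
    refine hc.finite ?_
    exact IsDiscrete.of_openPartialHomeomorph F subset_rfl (fun e _ => by
      obtain ⟨φ, hφ, h⟩ := hFl e
      exact ⟨φ, hφ, h.symm⟩)
  have hcov : IsCoveringMap F := by
    rw [isCoveringMap_iff_isCoveringMapOn_univ]
    exact hFp.isClosedMap.isCoveringMapOn_of_isLocalHomeomorphOn hfin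
      (hFl.isLocalHomeomorphOn.mono (subset_univ _))
  have : ContractibleSpace G := hs.contractibleSpace ⟨y₀, hyG⟩
  have : LocallyPathConnectedSpace G := hG.locallyPathConnectedSpace
  have hx0 : x₀ ∈ P' := ⟨hx, by rw [mem_preimage, hy]; exact hyG⟩
  obtain ⟨g, ⟨hg0, hgF⟩, -⟩ := hcov.existsUnique_continuousMap_lifts (ContinuousMap.id G)
    (⟨y₀, hyG⟩ : G) (⟨x₀, hx0⟩ : P') (Subtype.ext hy)
  have hgF' : ∀ y : G, f (g y) = y := fun y => by
    have := congrFun hgF y
    exact congrArg Subtype.val this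
  let g' : E → E := fun y => if h : y ∈ G then (g ⟨y, h⟩ : E) else 0
  have hg' : ∀ y (h : y ∈ G), g' y = (g ⟨y, h⟩ : E) := fun y h => by simp [g', h]
  have hgc : ContinuousOn g' G := by
    rw [continuousOn_iff_continuous_domRestrict]
    have : G.domRestrict g' = fun y => (g y : E) := by
      funext y
      exact hg' y y.2
    rw [this]
    exact continuous_subtype_val.comp g.continuous
  refine ⟨g', ?_, fun y hy => ?_, ?_⟩
  · intro y hyG'
    have hxP : g' y ∈ P := by rw [hg' y hyG']; exact (g ⟨y, hyG'⟩).2.1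
    obtain ⟨e, he⟩ := hd _ hxP
    have hst : HasStrictFDerivAt f (e : E →L[ℂ] E) (g' y) := by
      rw [he]
      exact (hf _ hxP).hasStrictFDerivAt
    set φ := hst.toOpenPartialHomeomorph f with hφ
    have hsrc : g' y ∈ φ.source := hst.mem_toOpenPartialHomeomorph_source
    have hfy : f (g' y) = y := by rw [hg' y hyG']; exact hgF' _
    have h1 : AnalyticAt ℂ φ.symm y := by
      have h2 : φ (g' y) = y := hfy
      have h3 := φ.analyticAt_symm' hsrc (hf _ hxP) he.symm
      rwa [h2] at h3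
    refine h1.congr ?_
    have h4 : ∀ᶠ z in 𝓝 y, z ∈ G := hG.mem_nhds hyG'
    have h5 : ∀ᶠ z in 𝓝 y, g' z ∈ φ.source :=
      (hgc.continuousAt (hG.mem_nhds hyG')).eventually (φ.open_source.mem_nhds hsrc)
    filter_upwards [h4, h5] with z hz hz'
    have h6 : f (g' z) = z := by rw [hg' z hz]; exact hgF' _
    have h7 : φ (g' z) = z := h6
    rw [← h7, φ.left_inv hz', h7]
  · rw [hg' y hy]
    exact ⟨(g ⟨y, hy⟩).2.1, hgF' _⟩
  · rw [hg' y₀ hyG, hg0]

/-- two continuous lifts over a preconnected set which agree at one point agree -/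
theorem lifts_eqOn {A E : Type*} [TopologicalSpace A] [NormedAddCommGroup E] [NormedSpace ℂ E]
    [CompleteSpace E] {f : E → E} {P : Set E} (hP : IsOpen P) (hf : AnalyticOnNhd ℂ f P)
    (hd : ∀ x ∈ P, (fderiv ℂ f x).IsInvertible) {S : Set A} (hS : IsPreconnected S)
    {g₁ g₂ : A → E} (h₁ : ContinuousOn g₁ S) (h₂ : ContinuousOn g₂ S) (m₁ : ∀ a ∈ S, g₁ a ∈ P)
    (m₂ : ∀ a ∈ S, g₂ a ∈ P) (he : ∀ a ∈ S, f (g₁ a) = f (g₂ a)) {a : A} (ha : a ∈ S)
    (hga : g₁ a = g₂ a) : EqOn g₁ g₂ S := by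
  have hloc := isLocalHomeomorph_restrict hP hf hd
  have hpre : PreconnectedSpace S := Subtype.preconnectedSpace hS
  let G₁ : S → P := fun a => ⟨g₁ a, m₁ a a.2⟩
  let G₂ : S → P := fun a => ⟨g₂ a, m₂ a a.2⟩
  have hc1 : Continuous G₁ :=
    Continuous.subtype_mk (continuousOn_iff_continuous_domRestrict.1 h₁) _
  have hc2 : Continuous G₂ :=
    Continuous.subtype_mk (continuousOn_iff_continuous_domRestrict.1 h₂) _
  have h := (T2Space.isSeparatedMap (fun x : P => f x)).eq_of_comp_eq hloc.isLocallyInjective hc1 hc2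
    (by funext b; exact he b b.2) ⟨a, ha⟩ (Subtype.ext hga)
  intro b hb
  have := congrFun h ⟨b, hb⟩
  exact congrArg Subtype.val this

end Pool.Agent.MP_ae5b4e_an_AZ
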