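import Pool.Agent.Lib.MP_ae5b4e_an_AZ.V7
import Pool.Agent.Lib.MP_ae5b4e_an_T.T4Sheet

/-!
# POR, (Z'), identification: the sheet of T4 near `k π` is the near sheet of AZ up to a translation
-/

noncomputable section

namespace Pool.Agent.MP_ae5b4e_an_AZ

open Complex Set Filter Topology Metric
open Pool.Agent.MP_ae5b4e_an_WB (G)
open Pool.Agent.MP_ae5b4e_an_T (fS fS_props fS_size)

/-- a continuous function with constant exponential is constant on a preconnected set -/
theorem id_const {X : Type*} [TopologicalSpace X] {S : Set X} (hS : IsPreconnected S) {f : X → ℂ}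
    (hf : ContinuousOn f S) {c : ℂ} (he : ∀ x ∈ S, cexp (f x) = c) {x y : X} (hx : x ∈ S)
    (hy : y ∈ S) : f x = f y := by
  have hpi := Real.pi_pos
  have h1 : ∀ z ∈ S, ∃ n : ℤ, f z = f x + n * (2 * Real.pi * I) := fun z hz =>
    Complex.exp_eq_exp_iff_exists_int.1 ((he z hz).trans (he x hx).symm)
  choose! n hn using h1
  have hc : ContinuousOn n S := by
    intro z hz
    have h2 : ∀ᶠ w in 𝓝[S] z, dist (f w) (f z) < 1 := (hf z hz) (ball_mem_nhds _ one_pos)
    have h3 : ∀ᶠ w in 𝓝[S] z, n w = n z := by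
      filter_upwards [h2, self_mem_nhdsWithin] with w hw hwS
      rw [dist_eq_norm, hn w hwS, hn z hz] at hw
      have e : f x + n w * (2 * Real.pi * I) - (f x + n z * (2 * Real.pi * I)) =
          ((n w - n z : ℤ) : ℂ) * (((2 * Real.pi : ℝ) : ℂ) * I) := by
        push_cast
        ring
      rw [e, norm_mul, norm_mul, norm_I, mul_one, Complex.norm_real,
        Real.norm_of_nonneg (by positivity), Complex.norm_intCast] at hw
      by_contra hne
      have h4 : (1 : ℝ) ≤ |((n w - n z : ℤ) : ℝ)| := by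
        have h5 : 1 ≤ |n w - n z| := Int.one_le_abs (sub_ne_zero.2 hne)
        exact_mod_cast h5
      have h6 : (1 : ℝ) * (2 * Real.pi) ≤ |((n w - n z : ℤ) : ℝ)| * (2 * Real.pi) :=
        mul_le_mul_of_nonneg_right h4 (by positivity)
      have := Real.pi_gt_three
      linarith
    exact (tendsto_nhds_of_eventually_eq h3 : Tendsto n (𝓝[S] z) (𝓝 (n z)))
  have h2 : n x = n y := hS.constant hc hx hy
  rw [hn y hy, ← h2]
  have := hn x hx
  exact this

/-- a function with derivative of positive real part on a convex set is injective -/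
theorem id_inj {f f' : ℂ → ℂ} {S : Set ℂ} (hS : Convex ℝ S)
    (hf : ∀ z ∈ S, HasDerivAt f (f' z) z) (hpos : ∀ z ∈ S, 0 < (f' z).re) : InjOn f S := by
  intro v hv v' hv' h
  by_contra hne
  obtain ⟨w, hw⟩ : ∃ w : ℂ, w = v' - v := ⟨_, rfl⟩
  have hw0 : w ≠ 0 := by
    rw [hw]
    exact sub_ne_zero.2 (Ne.symm hne)
  have hre : ∀ t ∈ Icc (0 : ℝ) 1, v + (t : ℂ) * w ∈ S := by
    intro t ht
    have h1 := hS hv hv' (by linarith [ht.2] : 0 ≤ 1 - t) ht.1 (by ring)
    have h2 : (1 - t) • v + t • v' = v + (t : ℂ) * w := by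
      rw [hw, real_smul, real_smul]
      push_cast
      ring
    rwa [h2] at h1
  have hd : ∀ t ∈ Icc (0 : ℝ) 1, HasDerivAt
      (fun t : ℝ => (f (v + (t : ℂ) * w) * (starRingEnd ℂ) w).re)
      ((f' (v + (t : ℂ) * w) * w * (starRingEnd ℂ) w).re) t := by
    intro t ht
    have h1 : HasDerivAt (fun z : ℂ => v + z * w) w (t : ℂ) := by
      simpa using ((hasDerivAt_id (t : ℂ)).mul_const w).const_add v
    have h2 := ((hf _ (hre t ht)).comp (t : ℂ) h1).mul_const ((starRingEnd ℂ) w)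
    exact h2.real_of_complex
  obtain ⟨c, hc, hcc⟩ := exists_hasDerivAt_eq_slope
    (fun t : ℝ => (f (v + (t : ℂ) * w) * (starRingEnd ℂ) w).re)
    (fun t : ℝ => (f' (v + (t : ℂ) * w) * w * (starRingEnd ℂ) w).re) one_pos
    (fun t ht => (hd t ht).continuousAt.continuousWithinAt)
    (fun t ht => hd t (Ioo_subset_Icc_self ht))
  have e1 : v + ((1 : ℝ) : ℂ) * w = v' := by
    rw [hw]
    push_cast
    ring
  have e0 : v + ((0 : ℝ) : ℂ) * w = v := by
    push_cast
    ring
  have e2 : (f' (v + (c : ℂ) * w) * w * (starRingEnd ℂ) w).re =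
      (f' (v + (c : ℂ) * w)).re * normSq w := by
    rw [mul_assoc, mul_conj, re_mul_ofReal]
  simp only [e1, e0] at hcc
  rw [e2, h, sub_self, zero_div] at hcc
  exact (mul_pos (hpos _ (hre c (Ioo_subset_Icc_self hc))) (normSq_pos.2 hw0)).ne' hcc

/-- `om1` is injective on the left half plane -/
theorem om1_injOn_left (k : ℕ) : InjOn (om1 k) {v | v.re < 0} := by
  have hC : ∀ v ∈ {v : ℂ | v.re < 0}, v ∈ C1 := fun v hv => mem_C1_iff.2 (Or.inl (ne_of_lt hv))
  refine id_inj (f' := y1 k) (convex_halfSpace_re_lt 0) (fun v hv => hasDerivAt_om1 k (hC v hv))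
    fun v hv => ?_
  have h1 := (re_y1_mem k (hC v hv)).1
  have h2 := (v5b_Wk_nonneg k).1
  have hpi := Real.pi_pos
  have h3 : 0 ≤ (k : ℝ) * Real.pi := by positivity
  linarith

/-- near `k π` the coordinate `v` is in the left half plane -/
theorem re_neg_of_near (k : ℕ) {v : ℂ} (hv : v ∈ C1) (h : ‖y1 k v - k * Real.pi‖ ≤ 1 / 20) :
    v.re < 0 := by
  by_contra hcon
  push Not at hcon
  have hpi := Real.pi_gt_three
  have h1 := (abs_re_le_norm (y1 k v - k * Real.pi)).trans h
  have h2 : (y1 k v - k * Real.pi).re = (y1 k v).re - k * Real.pi := by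
    rw [sub_re]
    congr 1
    have : (k : ℂ) * Real.pi = ((k * Real.pi : ℝ) : ℂ) := by push_cast; rfl
    rw [this, ofReal_re]
  rw [h2, (v5b_Wk_nonneg k).1, re_y1] at h1
  have h3 := (abs_le.1 h1).2
  rcases hcon.lt_or_eq with h4 | h4
  · have := (arg_diff.1 h4).1
    linarith
  · have h5 : |v.im| < 1 := by
      rcases mem_C1_iff.1 hv with h6 | h6
      · exact absurd h4.symm h6
      · exact h6
    have e1 : 1 + v * I = ((1 - v.im : ℝ) : ℂ) := by
      apply Complex.ext
      · simp [sub_eq_add_neg]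
      · simp [← h4]
    have e2 : 1 - v * I = ((1 + v.im : ℝ) : ℂ) := by
      apply Complex.ext
      · simp
      · simp [← h4]
    rw [abs_lt] at h5
    rw [e1, e2, arg_ofReal_of_nonneg (by linarith), arg_ofReal_of_nonneg (by linarith)] at h3
    linarith

private theorem ida_cos (k : ℕ) : cos ((k : ℂ) * (Real.pi : ℂ)) = (-1) ^ k := by
  have h := Real.cos_nat_mul_pi k
  have h2 : ((Real.cos (k * Real.pi) : ℝ) : ℂ) = ((((-1 : ℝ) ^ k) : ℝ) : ℂ) := by rw [h]
  rw [ofReal_cos] at h2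
  push_cast at h2
  exact h2

private theorem ida_sin (k : ℕ) (δ : ℂ) : sin (δ + k * Real.pi) = (-1) ^ k * sin δ ∧
    cos (δ + k * Real.pi) = (-1) ^ k * cos δ := by
  rw [Complex.sin_add, Complex.cos_add, Complex.sin_nat_mul_pi, ida_cos]
  constructor <;> ring

/-- THE SHEET of T4 in the coordinates `v = - cot y`.

Proof. `fS k (Y x) = x + 2 π i m₀` on a half plane (`fS_props`; `Y x - k π ∈ slitPlane` by `fS_size`), so
`Im v` is bounded for bounded `Im x`, and `Re v < 0` for very negative `Re x`. Then `y1 k v = Y x` and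
`exp (om1 k v) = exp x`. -/
theorem id_sheet {k : ℕ} (hk : 1 ≤ k) {M : ℝ} {Y : ℂ → ℂ}
    (hYa : AnalyticOnNhd ℂ Y {x | x.re < -M})
    (hY : ∀ x : ℂ, x.re < -M → sin (Y x) ≠ 0 ∧ G (Y x) = (-1) ^ k * cexp x)
    (hYl : Tendsto Y (comap re atBot) (𝓝 (k * Real.pi))) (B : ℝ) :
    ∃ (m : ℤ) (M' : ℝ), M ≤ M' ∧ ∀ x : ℂ, x.re < -M' → |x.im| < B → ∃ v : ℂ, v.re < 0 ∧ v ∈ C1 ∧
      om1 k v = x + m * (2 * Real.pi * I) ∧ y1 k v = Y x := by
  have hpi := Real.pi_gt_three
  have hk' : (1 : ℝ) ≤ k := by exact_mod_cast hk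
  have hkp : 3 < (k : ℝ) * Real.pi := by nlinarith
  obtain ⟨C, hC, hsize⟩ := fS_size k
  obtain ⟨M1, hM1⟩ : ∃ M1 : ℝ, ∀ x : ℂ, x.re < -M1 → ‖Y x - k * Real.pi‖ < 1 / 2 := by
    have h1 := hYl (Metric.ball_mem_nhds _ (by norm_num : (0 : ℝ) < 1 / 2))
    rw [Filter.mem_map, Filter.mem_comap] at h1
    obtain ⟨t, ht, h2⟩ := h1
    obtain ⟨a, ha⟩ := Filter.mem_atBot_sets.1 ht
    refine ⟨-a, fun x hx => ?_⟩
    have h3 : x ∈ Y ⁻¹' ball (k * Real.pi : ℂ) (1 / 2) := h2 (ha _ (by linarith))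
    rw [mem_preimage, mem_ball, dist_eq_norm] at h3
    exact h3
  obtain ⟨M2, hM2⟩ : ∃ M2 : ℝ, M2 = max M (max M1 C) := ⟨_, rfl⟩
  have a1 : M ≤ M2 := by rw [hM2]; exact le_max_left _ _
  have a2 : M1 ≤ M2 := by rw [hM2]; exact (le_max_left _ _).trans (le_max_right _ _)
  have a3 : C ≤ M2 := by rw [hM2]; exact (le_max_right _ _).trans (le_max_right _ _)
  -- `Y x - k π` is in the slit plane
  have hslit : ∀ x : ℂ, x.re < -M2 → Y x - k * Real.pi ∈ slitPlane := by
    intro x hx
    by_contra hcon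
    rw [mem_slitPlane_iff, not_or, not_lt, not_not] at hcon
    obtain ⟨c1, c2⟩ := hcon
    obtain ⟨b1, b2⟩ := hY x (by linarith)
    have hne : Y x ≠ k * Real.pi := by
      intro h0
      rw [h0, Complex.sin_nat_mul_pi] at b1
      exact b1 rfl
    have hd := hM1 x (by linarith)
    have h1 := hsize (Y x) hne hd.le
    obtain ⟨δ, hδ⟩ : ∃ δ : ℂ, δ = Y x - k * Real.pi := ⟨_, rfl⟩
    rw [← hδ] at h1 c1 c2
    have hδ0 : δ ≠ 0 := by
      rw [hδ]
      exact sub_ne_zero.2 hne
    have e1 : δ = ((δ.re : ℝ) : ℂ) := by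
      apply Complex.ext
      · simp
      · simp [c2]
    have hre : δ.re < 0 := by
      refine lt_of_le_of_ne c1 fun h0 => hδ0 ?_
      rw [e1, h0, ofReal_zero]
    obtain ⟨t, ht⟩ : ∃ t : ℝ, t = -δ.re := ⟨_, rfl⟩
    have ht0 : 0 < t := by linarith
    have e2 : ‖δ‖ = t := by
      rw [e1, Complex.norm_real, Real.norm_eq_abs, abs_of_neg hre, ht]
    have e3 : (k * Real.pi / δ : ℂ).re = -(k * Real.pi / t) := by
      have : (k * Real.pi / δ : ℂ) = ((-(k * Real.pi / t) : ℝ) : ℂ) := by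
        rw [e1, ht]
        push_cast
        rw [div_neg, neg_neg]
      rw [this, ofReal_re]
    have e4 : Real.log ‖G (Y x)‖ = x.re := by
      rw [b2, norm_mul, norm_pow, norm_neg, norm_one, one_pow, one_mul, Complex.norm_exp,
        Real.log_exp]
    rw [e2, e3, e4] at h1
    have h2 := (abs_le.1 h1).1
    have h3 := Real.log_le_sub_one_of_pos (inv_pos.2 ht0)
    rw [Real.log_inv] at h3
    have h4 : t⁻¹ ≤ k * Real.pi / t := by
      rw [inv_eq_one_div]
      exact div_le_div_of_nonneg_right (by linarith) ht0.le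
    linarith
  -- `fS k (Y x) - x` is constant
  have hconn : IsPreconnected {x : ℂ | x.re < -M2} := (convex_halfSpace_re_lt _).isPreconnected
  have hcont : ContinuousOn (fun x => fS k (Y x) - x) {x : ℂ | x.re < -M2} := by
    intro x hx
    have hx' : x.re < -M2 := hx
    have h1 := hslit x hx'
    have h2 : ‖Y x - k * Real.pi‖ < 1 := (hM1 x (by linarith)).trans (by norm_num)
    have h3 := (fS_props k h2 h1).2.2.2.continuousAt
    have h4 : ContinuousAt Y x := (hYa x (by show x.re < -M; linarith)).continuousAt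
    have h5 : ContinuousAt (fun x => fS k (Y x)) x := ContinuousAt.comp (g := fS k) (f := Y) h3 h4
    exact (h5.sub continuousAt_id).continuousWithinAt
  have hexp : ∀ x ∈ {x : ℂ | x.re < -M2}, cexp (fS k (Y x) - x) = 1 := by
    intro x hx
    have hx' : x.re < -M2 := hx
    have h1 := hslit x hx'
    have h2 : ‖Y x - k * Real.pi‖ < 1 := (hM1 x (by linarith)).trans (by norm_num)
    have h3 := (fS_props k h2 h1).2.1
    rw [Complex.exp_sub, h3, (hY x (by linarith)).2, ← mul_assoc, ← mul_pow]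
    simp
  obtain ⟨x₀, hx₀⟩ : ∃ x₀ : ℂ, x₀.re < -M2 := ⟨((-M2 - 1 : ℝ) : ℂ), by
    rw [ofReal_re]
    linarith⟩
  obtain ⟨D, hD⟩ : ∃ D : ℝ, D = |(fS k (Y x₀) - x₀).im| := ⟨_, rfl⟩
  have hre0 : ∀ x : ℂ, x.re < -M2 → (fS k (Y x)).re = x.re ∧ |(fS k (Y x)).im - x.im| = D := by
    intro x hx
    have h1 : fS k (Y x) - x = fS k (Y x₀) - x₀ := id_const hconn hcont hexp hx hx₀
    have h2 := congrArg norm (hexp x hx)
    rw [Complex.norm_exp, norm_one, Real.exp_eq_one_iff, sub_re] at h2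
    refine ⟨by linarith, ?_⟩
    rw [hD, ← h1, sub_im]
  -- the coordinate `v`
  obtain ⟨b, hb⟩ : ∃ b : ℝ, b = |B| + D + 3 * Real.pi := ⟨_, rfl⟩
  have hD0 : 0 ≤ D := by
    rw [hD]
    exact abs_nonneg _
  have hb0 : 0 < b := by
    rw [hb]
    have := abs_nonneg B
    positivity
  obtain ⟨M', hM'⟩ : ∃ M' : ℝ, M' = max M2 (2 * Real.pi + Real.log (1 + b)) := ⟨_, rfl⟩
  have b1 : M2 ≤ M' := by rw [hM']; exact le_max_left _ _
  have b2 : 2 * Real.pi + Real.log (1 + b) ≤ M' := by rw [hM']; exact le_max_right _ _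
  have key : ∀ x : ℂ, x.re < -M' → |x.im| < B →
      (-(cos (Y x) / sin (Y x))).re < 0 ∧ y1 k (-(cos (Y x) / sin (Y x))) = Y x := by
    intro x hx hxi
    obtain ⟨s1, s2⟩ := hY x (by linarith)
    obtain ⟨r1, r2⟩ := hre0 x (by linarith)
    have hd := hM1 x (by linarith)
    obtain ⟨y, hy⟩ : ∃ y : ℂ, y = Y x := ⟨_, rfl⟩
    rw [← hy] at s1 s2 r1 r2 hd ⊢
    obtain ⟨δ, hδ⟩ : ∃ δ : ℂ, δ = y - k * Real.pi := ⟨_, rfl⟩
    have ey : y = δ + k * Real.pi := by
      rw [hδ]
      ring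
    rw [← hδ] at hd
    obtain ⟨t1, t2⟩ := ida_sin k δ
    rw [← ey] at t1 t2
    have hsq : ((-1 : ℂ) ^ k) ≠ 0 := pow_ne_zero _ (by norm_num)
    have hsδ : sin δ ≠ 0 := by
      intro h0
      rw [t1, h0, mul_zero] at s1
      exact s1 rfl
    obtain ⟨v, hv⟩ : ∃ v : ℂ, v = -(cos y / sin y) := ⟨_, rfl⟩
    have ev : v = -(cos δ / sin δ) := by
      rw [hv, t1, t2, mul_div_mul_left _ _ hsq]
    rw [← hv]
    -- `‖δ v‖ ≤ π`
    have hcos : ‖cos δ‖ ≤ 2 := by
      have e1 : cos δ = (cexp (δ * I) + cexp (-δ * I)) / 2 := rfl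
      have e2 : ‖cexp (δ * I)‖ ≤ 2 := by
        rw [Complex.norm_exp]
        have h1 : (δ * I).re ≤ 1 / 2 := by
          have := (re_le_norm (δ * I))
          rw [norm_mul, norm_I, mul_one] at this
          linarith
        calc Real.exp (δ * I).re ≤ Real.exp (1 / 2) := Real.exp_le_exp.2 h1
          _ ≤ 2 := by
            have h3 : Real.exp (1 / 2) ^ 2 = Real.exp 1 := by
              rw [← Real.exp_nat_mul]
              norm_num
            have h4 := Real.exp_one_lt_d9
            nlinarith [Real.exp_pos (1 / 2 : ℝ)]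
      have e3 : ‖cexp (-δ * I)‖ ≤ 2 := by
        rw [Complex.norm_exp]
        have h1 : (-δ * I).re ≤ 1 / 2 := by
          have := (re_le_norm (-δ * I))
          rw [norm_mul, norm_I, mul_one, norm_neg] at this
          linarith
        calc Real.exp (-δ * I).re ≤ Real.exp (1 / 2) := Real.exp_le_exp.2 h1
          _ ≤ 2 := by
            have h3 : Real.exp (1 / 2) ^ 2 = Real.exp 1 := by
              rw [← Real.exp_nat_mul]
              norm_num
            have h4 := Real.exp_one_lt_d9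
            nlinarith [Real.exp_pos (1 / 2 : ℝ)]
      rw [e1, norm_div]
      have e4 := norm_add_le (cexp (δ * I)) (cexp (-δ * I))
      have e5 : ‖(2 : ℂ)‖ = 2 := by simp
      rw [e5, div_le_iff₀ (by norm_num)]
      linarith
    have hδv : ‖δ * v‖ ≤ Real.pi := by
      have h1 : ‖δ‖ ≤ Real.pi / 2 * ‖sin δ‖ := norm_le_sin (by
        have := abs_re_le_norm δ
        linarith)
      have h2 : 0 < ‖sin δ‖ := norm_pos_iff.2 hsδ
      rw [norm_mul, ev, norm_neg, norm_div, ← mul_div_assoc, div_le_iff₀ h2]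
      calc ‖δ‖ * ‖cos δ‖ ≤ (Real.pi / 2 * ‖sin δ‖) * 2 :=
            mul_le_mul h1 hcos (norm_nonneg _) (by positivity)
        _ = Real.pi * ‖sin δ‖ := by ring
    -- the formula of `fS`
    have hfS : fS k y = 1 + (k * Real.pi : ℝ) * v + δ * v + log (sin δ) := by
      unfold fS
      rw [← hδ]
      have : y * (cos y / sin y) = -((δ + k * Real.pi) * v) := by
        rw [hv, ey]
        ring
      rw [this]
      push_cast
      ring
    have him : (fS k y).im = k * Real.pi * v.im + (δ * v).im + arg (sin δ) := by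
      rw [hfS, add_im, add_im, add_im, one_im, im_ofReal_mul, log_im]
      ring
    have hre : (fS k y).re = 1 + k * Real.pi * v.re + (δ * v).re + Real.log ‖sin δ‖ := by
      rw [hfS, add_re, add_re, add_re, one_re, re_ofReal_mul, log_re]
    have hvi : |v.im| ≤ b := by
      have h1 := abs_le.1 ((abs_im_le_norm (δ * v)).trans hδv)
      have h2 := abs_le.1 (abs_arg_le_pi (sin δ))
      have h3 := abs_le.1 (le_of_eq r2)
      have h4 := abs_lt.1 hxi
      have h5 := le_abs_self B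
      have h6 : |k * Real.pi * v.im| ≤ b := by
        rw [abs_le, hb]
        constructor <;> linarith [h1.1, h1.2, h2.1, h2.2, h3.1, h3.2, h4.1, h4.2]
      rw [abs_mul, abs_of_pos (by linarith : 0 < (k : ℝ) * Real.pi)] at h6
      nlinarith [abs_nonneg v.im]
    have hsn : -Real.log (1 + ‖v‖) ≤ Real.log ‖sin δ‖ := by
      have h1 : ‖sin δ‖ ^ 2 * ‖1 + v ^ 2‖ = 1 := by
        rw [← norm_pow, ← norm_mul]
        have : sin δ ^ 2 * (1 + v ^ 2) = 1 := by
          rw [ev]
          have := Complex.sin_sq_add_cos_sq δ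
          field_simp
          linear_combination this
        rw [this, norm_one]
      have h2 : ‖1 + v ^ 2‖ ≤ (1 + ‖v‖) ^ 2 := by
        have h3 := norm_add_le (1 : ℂ) (v ^ 2)
        rw [norm_one, norm_pow] at h3
        nlinarith [norm_nonneg v]
      have h3 : 1 ≤ ‖sin δ‖ * (1 + ‖v‖) := by
        have h4 : 1 ≤ (‖sin δ‖ * (1 + ‖v‖)) ^ 2 := by
          rw [mul_pow]
          nlinarith [sq_nonneg ‖sin δ‖]
        have h5 : 0 ≤ ‖sin δ‖ * (1 + ‖v‖) := by positivity
        nlinarith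
      rw [← Real.log_inv]
      refine Real.log_le_log (by positivity) ?_
      rw [inv_eq_one_div, div_le_iff₀ (by positivity)]
      exact h3
    have hvr : v.re < 0 := by
      by_contra hcon
      push Not at hcon
      have h1 := (abs_le.1 ((abs_re_le_norm (δ * v)).trans hδv)).1
      have h2 : ‖v‖ ≤ v.re + b := by
        have := norm_le_abs_re_add_abs_im v
        rw [abs_of_nonneg hcon] at this
        linarith
      have h3 : Real.log (1 + ‖v‖) ≤ Real.log (1 + b) + v.re := by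
        have h4 : 1 + ‖v‖ ≤ (1 + b) * (1 + v.re) := by nlinarith
        have h5 := Real.log_le_log (by positivity) h4
        rw [Real.log_mul (by positivity) (by positivity)] at h5
        have h6 := Real.log_le_sub_one_of_pos (by linarith : 0 < 1 + v.re)
        linarith
      have h4 : v.re ≤ k * Real.pi * v.re := by nlinarith
      linarith
    refine ⟨hvr, ?_⟩
    have hvC : v ∈ C1 := mem_C1_iff.2 (Or.inl (ne_of_lt hvr))
    obtain ⟨u1, u2, -, -, -⟩ := trig1 k hvC
    have u3 : cos y = -(v * sin y) := by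
      rw [hv]
      field_simp
    have u4 : sin (y1 k v - y) = 0 := by
      rw [Complex.sin_sub, u2, u3]
      ring
    obtain ⟨n, hn⟩ := Complex.sin_eq_zero_iff.1 u4
    have u5 := congrArg re hn
    have u6 : ((n : ℂ) * (Real.pi : ℂ)).re = n * Real.pi := by
      have : (n : ℂ) * (Real.pi : ℂ) = ((n * Real.pi : ℝ) : ℂ) := by push_cast; rfl
      rw [this, ofReal_re]
    have u7 : y.re = δ.re + k * Real.pi := by
      rw [ey, add_re]
      congr 1
      have : (k : ℂ) * (Real.pi : ℂ) = ((k * Real.pi : ℝ) : ℂ) := by push_cast; rfl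
      rw [this, ofReal_re]
    rw [sub_re, re_y1, u6, u7] at u5
    obtain ⟨w1, w2⟩ := arg_diff.2 hvr
    have w3 := (v5b_Wk_nonneg k).1
    have w4 := abs_lt.1 ((abs_re_le_norm δ).trans_lt hd)
    have w5 : -1 < (n : ℝ) := by
      by_contra h0
      push Not at h0
      have : (n : ℝ) * Real.pi ≤ -1 * Real.pi := mul_le_mul_of_nonneg_right h0 (by linarith)
      linarith [w4.1, w4.2]
    have w6 : (n : ℝ) < 1 := by
      by_contra h0
      push Not at h0
      have : 1 * Real.pi ≤ (n : ℝ) * Real.pi := mul_le_mul_of_nonneg_right h0 (by linarith)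
      linarith [w4.1, w4.2]
    have w7 : n = 0 := by
      have c1 : (-1 : ℤ) < n := by exact_mod_cast w5
      have c2 : n < (1 : ℤ) := by exact_mod_cast w6
      omega
    rw [w7] at hn
    have : y1 k v - y = 0 := by
      rw [hn]
      simp
    exact sub_eq_zero.1 this
  -- the difference `om1 k v - x` is constant
  obtain ⟨S, hS⟩ : ∃ S : Set ℂ, S = {x : ℂ | x.re < -M'} ∩ {x : ℂ | |x.im| < B} := ⟨_, rfl⟩
  have hSc : IsPreconnected S := by
    rw [hS]
    refine ((convex_halfSpace_re_lt _).inter ?_).isPreconnected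
    have h1 : {z : ℂ | |z.im| < B} = Complex.imLm ⁻¹' (Ioo (-B) B) := by
      ext z
      simp [abs_lt]
    rw [h1]
    exact (convex_Ioo _ _).linear_preimage _
  have hcont2 : ContinuousOn (fun x => om1 k (-(cos (Y x) / sin (Y x))) - x) S := by
    intro x hx
    rw [hS] at hx
    obtain ⟨hx1, hx2⟩ := hx
    have hx1' : x.re < -M' := hx1
    have hv := (key x hx1 hx2).1
    have h1 : ContinuousAt Y x := (hYa x (by show x.re < -M; linarith)).continuousAt
    have h2 : ContinuousAt (fun x => -(cos (Y x) / sin (Y x))) x := by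
      have c1 : ContinuousAt (fun x => cos (Y x)) x :=
        Complex.continuous_cos.continuousAt.comp h1
      have c2 : ContinuousAt (fun x => sin (Y x)) x :=
        Complex.continuous_sin.continuousAt.comp h1
      exact (c1.div c2 (hY x (by linarith)).1).neg
    have h3 : ContinuousAt (om1 k) (-(cos (Y x) / sin (Y x))) :=
      (hasDerivAt_om1 k (mem_C1_iff.2 (Or.inl (ne_of_lt hv)))).continuousAt
    have h4 : ContinuousAt (fun x => om1 k (-(cos (Y x) / sin (Y x)))) x :=
      ContinuousAt.comp (g := om1 k) (f := fun x => -(cos (Y x) / sin (Y x))) h3 h2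
    exact (h4.sub continuousAt_id).continuousWithinAt
  have hexp2 : ∀ x ∈ S, cexp (om1 k (-(cos (Y x) / sin (Y x))) - x) = 1 := by
    intro x hx
    rw [hS] at hx
    obtain ⟨hx1, hx2⟩ := hx
    have hx1' : x.re < -M' := hx1
    obtain ⟨hv, hyv⟩ := key x hx1 hx2
    obtain ⟨-, -, -, h4, -⟩ := trig1 k (mem_C1_iff.2 (Or.inl (ne_of_lt hv)))
    obtain ⟨s1, s2⟩ := hY x (by linarith)
    rw [Complex.exp_sub, h4, hyv]
    have h5 : (-1 : ℂ) ^ k * sin (Y x) * cexp (1 + Y x * -(cos (Y x) / sin (Y x))) =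
        (-1) ^ k * G (Y x) := by
      unfold G
      rw [mul_assoc]
      congr 3
      ring
    rw [h5, s2, ← mul_assoc, ← mul_pow]
    simp
  rcases S.eq_empty_or_nonempty with hSe | ⟨x₁, hx₁⟩
  · refine ⟨0, M', a1.trans b1, fun x hx hxi => ?_⟩
    have : x ∈ S := by
      rw [hS]
      exact ⟨hx, hxi⟩
    rw [hSe] at this
    exact this.elim
  · obtain ⟨m, hm⟩ := Complex.exp_eq_one_iff.1 (hexp2 x₁ hx₁)
    refine ⟨m, M', a1.trans b1, fun x hx hxi => ?_⟩
    have hxS : x ∈ S := by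
      rw [hS]
      exact ⟨hx, hxi⟩
    obtain ⟨hv, hyv⟩ := key x hx hxi
    refine ⟨-(cos (Y x) / sin (Y x)), hv, mem_C1_iff.2 (Or.inl (ne_of_lt hv)), ?_, hyv⟩
    have h1 : om1 k (-(cos (Y x) / sin (Y x))) - x = om1 k (-(cos (Y x₁) / sin (Y x₁))) - x₁ :=
      id_const hSc hcont2 hexp2 hxS hx₁
    rw [hm] at h1
    rw [← h1]
    ring

/-- the sheet of T4 is the near sheet of AZ.

Proof. `v` from `id_sheet`; `V' z` is in the left half plane by `re_neg_of_near`; `om1_injOn_left`. -/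
theorem id_shc {k : ℕ} {V₀ Y₀ V' Y' : ℂ → ℂ} (hs : Shc k 1 V₀ Y₀ V' Y') {z v y : ℂ}
    (hz : z ∈ Xc k 1) (hn : ‖Y' z - k * Real.pi‖ ≤ 1 / 20) (hv : v.re < 0) (ho : om1 k v = z)
    (hy : y1 k v = y) : Y' z = y := by
  obtain ⟨h1, h2, h3⟩ := hs.s1 z hz
  rw [h3] at hn
  have h4 := re_neg_of_near k h1 hn
  have h5 : V' z = v := om1_injOn_left k h4 hv (h2.trans ho.symm)
  rw [h3, h5, hy]

end Pool.Agent.MP_ae5b4e_an_AZ
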