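import Pool.Agent.Lib.MP_ae5b4e_an_AZ.IdDefs
import Pool.Agent.Lib.MP_ae5b4e_an_AZ.IdA
import Pool.Agent.Lib.MP_ae5b4e_an_AZ.F1

/-!
# POR, (Z'), identification: the time functions; the chart
-/

noncomputable section

namespace Pool.Agent.MP_ae5b4e_an_AZ

open Complex Set Filter Topology Metric MeasureTheory
open Pool.Agent.MP_ae5b4e_an_WB (G)
open Pool.Agent.MP_ae5b4e_an_WD (ZChart)
open Pool.Agent.MP_ae5b4e_an_T (Slb Mod Tm ccf cgf alZ zm_slit ccf_deriv)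

variable {q : ℂ → ℂ} {l : ℂ} {k : ℕ} {γ0 : ℝ} {ζ : ℂ} {Tb : ℂ → ℂ} {R ρ : ℝ} {Λ : ℂ × ℂ → ℂ}
  {μ : ℕ} {lam : ℂ → ℂ} {r M ρ0 : ℝ} {Y : ℂ → ℂ} {c1 k0 : ℂ} {K lb Zf : ℂ × ℂ → ℂ}

/-- the base parameter: `(-1)^k exp (zt1) = γ0` -/
def zt1 (k : ℕ) (γ0 : ℝ) : ℂ := Real.log γ0 + k * (Real.pi * I)

theorem sgm_zt1 (k : ℕ) {γ0 : ℝ} (h : 0 < γ0) : sgm k (zt1 k γ0) = γ0 := by
  unfold sgm zt1
  rw [Complex.exp_add, ← ofReal_exp, Real.exp_log h, Complex.exp_nat_mul, Complex.exp_pi_mul_I]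
  rw [mul_comm (γ0 : ℂ), ← mul_assoc, ← mul_pow]
  simp

theorem neg_one_pow_sq (k : ℕ) : ((-1 : ℂ) ^ k) * (-1) ^ k = 1 := by
  rw [← mul_pow]
  simp

theorem sgm_ne (k : ℕ) (c : ℂ) : sgm k c ≠ 0 :=
  mul_ne_zero (pow_ne_zero _ (by norm_num)) (Complex.exp_ne_zero _)

theorem sgm_an (k : ℕ) (c : ℂ) : AnalyticAt ℂ (sgm k) c :=
  analyticAt_const.mul analyticAt_id.cexp

theorem sgm_hasDerivAt (k : ℕ) (c : ℂ) : HasDerivAt (sgm k) (sgm k c) c := by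
  unfold sgm
  exact (Complex.hasDerivAt_exp c).const_mul _

/-- `σ / γ0 = exp (c - ζ1)` -/
theorem sgm_div (k : ℕ) {γ0 : ℝ} (h : 0 < γ0) (c : ℂ) : sgm k c / γ0 = cexp (c - zt1 k γ0) := by
  rw [← sgm_zt1 k h]
  unfold sgm
  rw [mul_div_mul_left _ _ (pow_ne_zero _ (by norm_num)), Complex.exp_sub]

theorem log_sgm (k : ℕ) {γ0 : ℝ} (h : 0 < γ0) {c : ℂ} (hc : ‖c - zt1 k γ0‖ < 3) :
    log (sgm k c / γ0) = c - zt1 k γ0 := by
  rw [sgm_div k h]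
  have h1 := abs_lt.1 ((abs_im_le_norm (c - zt1 k γ0)).trans_lt hc)
  have hpi := Real.pi_gt_three
  exact Complex.log_exp (by linarith [h1.1]) (by linarith [h1.2])

/-- the rotation of the chart -/
def omg (k : ℕ) (γ0 : ℝ) (c1 : ℂ) (μ : ℕ) (m : ℤ) : ℂ :=
  c1 * cexp (((2 / μ : ℝ) : ℂ) * (zt1 k γ0 - m * (2 * Real.pi * I)))

theorem id_pmu {μ : ℕ} (hμ : 0 < μ) : (μ : ℂ) * ((2 / μ : ℝ) : ℂ) = 2 := by
  have : (μ : ℂ) ≠ 0 := by exact_mod_cast hμ.ne'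
  push_cast
  field_simp

theorem omg_pow {k : ℕ} {γ0 : ℝ} (h : 0 < γ0) {c1 : ℂ} {μ : ℕ} (hμ : 0 < μ)
    (hc : c1 ^ μ * (γ0 : ℂ) ^ 2 = 1) (m : ℤ) : omg k γ0 c1 μ m ^ μ = 1 := by
  unfold omg
  have e1 : (μ : ℂ) * (((2 / μ : ℝ) : ℂ) * (zt1 k γ0 - m * (2 * Real.pi * I))) =
      (zt1 k γ0 + zt1 k γ0) + ((-2 * m : ℤ) : ℂ) * (2 * Real.pi * I) := by
    rw [← mul_assoc, id_pmu hμ]
    push_cast
    ring
  rw [mul_pow, ← Complex.exp_nat_mul, e1, Complex.exp_add, Complex.exp_int_mul_two_pi_mul_I,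
    mul_one, Complex.exp_add]
  have e2 := sgm_zt1 k h
  unfold sgm at e2
  have e3 : cexp (zt1 k γ0) * cexp (zt1 k γ0) = (γ0 : ℂ) ^ 2 := by
    rw [← e2]
    linear_combination (-(cexp (zt1 k γ0) * cexp (zt1 k γ0))) * neg_one_pow_sq k
  rw [e3, hc]

theorem norm_omg {k : ℕ} {γ0 : ℝ} (h : 0 < γ0) {c1 : ℂ} {μ : ℕ} (hμ : 0 < μ)
    (hc : c1 ^ μ * (γ0 : ℂ) ^ 2 = 1) (m : ℤ) : ‖omg k γ0 c1 μ m‖ = 1 := by
  have h1 := congrArg norm (omg_pow (k := k) h hμ hc m)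
  rw [norm_pow, norm_one] at h1
  exact (pow_eq_one_iff_of_nonneg (norm_nonneg _) hμ.ne').1 h1

/-- a rotated chart is a chart -/
theorem zchart_rot {ω : ℂ} (h : ZChart q l μ lam r) (hω : ω ^ μ = 1) :
    ZChart q l μ (fun c => lam (ω * c)) r := by
  have h1 := congrArg norm hω
  rw [norm_pow, norm_one] at h1
  have hn : ‖ω‖ = 1 := (pow_eq_one_iff_of_nonneg (norm_nonneg _) h.mu.ne').1 h1
  have hmem : ∀ c ∈ ball (0 : ℂ) r, ω * c ∈ ball (0 : ℂ) r := fun c hc => by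
    rw [mem_ball_zero_iff] at hc ⊢
    rwa [norm_mul, hn, one_mul]
  have hω0 : ω ≠ 0 := norm_pos_iff.1 (by rw [hn]; exact one_pos)
  refine ⟨h.pos, h.mu, ?_, ?_, ?_, ?_⟩
  · exact h.d.comp (by fun_prop) hmem
  · show lam (ω * 0) = l
    rw [mul_zero, h.zero]
  · intro c hc
    obtain ⟨h2, h3⟩ := h.val _ (hmem c hc)
    refine ⟨h2, ?_⟩
    rw [h3, mul_pow, hω, one_mul]
  · intro a ha b hb hab
    have h2 := h.inj (hmem a ha) (hmem b hb) hab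
    exact mul_left_cancel₀ hω0 h2

/-- the chart coordinate of T4 in terms of the coordinates of AZ -/
theorem ccf_eq {k : ℕ} {γ0 : ℝ} (h : 0 < γ0) {c1 : ℂ} {μ : ℕ} (hμ : 0 < μ) (m : ℤ) {c : ℂ}
    (hc : ‖c - zt1 k γ0‖ < 3) (x : ℂ) :
    ccf c1 μ γ0 (x, sgm k c) = omg k γ0 c1 μ m *
      cexp (((2 / μ : ℝ) : ℂ) * (x + m * (2 * Real.pi * I) - c)) := by
  unfold ccf cgf omg
  dsimp only
  rw [log_sgm k h hc, mul_assoc, mul_assoc, ← Complex.exp_add, ← Complex.exp_add]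
  congr 2
  push_cast
  ring

/-- THE KERNEL of T4 in terms of the density of AZ.

Proof. Compare the derivative of `lb` (`md.rel`) with the derivative of `lam (ccf ..)`. -/
theorem id_kernel (h : ZSd q l k γ0 ζ Tb R ρ Λ μ lam r M ρ0 Y c1 k0 K lb Zf) (m : ℤ) {c : ℂ}
    (hc : ‖c - zt1 k γ0‖ < 3) (hcb : sgm k c ∈ ball (γ0 : ℂ) ρ0) {x : ℂ} (hx : x.re < -M) :
    cexp (((1 + 2 / μ : ℝ) : ℂ) * x) * K (x, sgm k c) = sgm k c *
      (kap (2 / μ) (fun z => lam (omg k γ0 c1 μ m * z)) (x + m * (2 * Real.pi * I) - c) / Y x) := by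
  have hμ := h.ch.mu
  have hp : (x, sgm k c) ∈ Pool.Agent.MP_ae5b4e_an_T.DZ M ×ˢ ball (γ0 : ℂ) ρ0 := ⟨hx, hcb⟩
  obtain ⟨ω, hω⟩ : ∃ ω, ω = omg k γ0 c1 μ m := ⟨_, rfl⟩
  obtain ⟨C, hC⟩ : ∃ C, C = ccf c1 μ γ0 (x, sgm k c) := ⟨_, rfl⟩
  have hCb : C ∈ ball (0 : ℂ) r := by
    rw [hC]
    exact (h.lbe _ hp).2
  have hlam : HasDerivAt lam (deriv lam C) C :=
    ((h.ch.d C hCb).differentiableAt (isOpen_ball.mem_nhds hCb)).hasDerivAt
  have hY0 : Y x ≠ 0 := by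
    intro h0
    have h1 := (h.Yeq x hx).1
    rw [h0, Complex.sin_zero] at h1
    exact h1 rfl
  -- the two derivatives
  have d1 := h.md.rel _ hp
  have hDo : IsOpen (Pool.Agent.MP_ae5b4e_an_T.DZ M) := h.md.mdl.op
  have d2 : HasDerivAt (fun z => lb (z, sgm k c)) (deriv lam C * (C * (2 / μ))) x := by
    have e1 : (fun z => lb (z, sgm k c)) =ᶠ[𝓝 x] fun z => lam (ccf c1 μ γ0 (z, sgm k c)) := by
      filter_upwards [hDo.mem_nhds hp.1] with z hz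
      exact (h.lbe (z, sgm k c) ⟨hz, hcb⟩).1
    have e2 := ccf_deriv c1 μ γ0 (x, sgm k c)
    rw [← hC] at e2
    have hlam' : HasDerivAt lam (deriv lam C) ((fun z => ccf c1 μ γ0 (z, sgm k c)) x) := by
      have : (fun z => ccf c1 μ γ0 (z, sgm k c)) x = C := hC.symm
      rw [this]
      exact hlam
    exact (hlam'.comp x e2).congr_of_eventuallyEq e1
  have e3 := d1.unique d2
  -- the density
  have hCe := ccf_eq (k := k) h.γ_pos (c1 := c1) hμ m hc x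
  rw [← hC, ← hω] at hCe
  have e4 : deriv (fun z => lam (ω * z)) (cexp (((2 / μ : ℝ) : ℂ) * (x + m * (2 * Real.pi * I) - c)))
      = ω * deriv lam C := by
    have f1 : HasDerivAt (fun z : ℂ => ω * z) ω
        (cexp (((2 / μ : ℝ) : ℂ) * (x + m * (2 * Real.pi * I) - c))) := by
      simpa using (hasDerivAt_id
        (cexp (((2 / μ : ℝ) : ℂ) * (x + m * (2 * Real.pi * I) - c)))).const_mul ω
    have f2 : HasDerivAt lam (deriv lam C) ((fun z : ℂ => ω * z)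
        (cexp (((2 / μ : ℝ) : ℂ) * (x + m * (2 * Real.pi * I) - c)))) := by
      dsimp only
      rw [← hCe]
      exact hlam
    have f3 := f2.comp (cexp (((2 / μ : ℝ) : ℂ) * (x + m * (2 * Real.pi * I) - c))) f1
    rw [mul_comm ω]
    exact f3.deriv
  unfold kap
  rw [← hω, e4]
  have e5 : cexp ((1 + ((2 / μ : ℝ) : ℂ)) * (x + m * (2 * Real.pi * I) - c)) =
      cexp x * cexp (-c) * cexp (((2 / μ : ℝ) : ℂ) * (x + m * (2 * Real.pi * I) - c)) := by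
    have f1 : (1 + ((2 / μ : ℝ) : ℂ)) * (x + m * (2 * Real.pi * I) - c) =
        (x + -c + ((2 / μ : ℝ) : ℂ) * (x + m * (2 * Real.pi * I) - c)) +
          m * (2 * Real.pi * I) := by ring
    rw [f1, Complex.exp_add, Complex.exp_int_mul_two_pi_mul_I, mul_one, Complex.exp_add,
      Complex.exp_add]
  rw [e5]
  have e6 : sgm k c * cexp (-c) = (-1) ^ k := by
    unfold sgm
    rw [mul_assoc, ← Complex.exp_add, add_neg_cancel, Complex.exp_zero, mul_one]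
  have e7 : alZ k Y (x, sgm k c) = (-1) ^ k * sgm k c * Y x * cexp (-x) := rfl
  rw [e7] at e3
  have hs := sgm_ne k c
  have e8 : cexp x * cexp (-x) = 1 := by
    rw [← Complex.exp_add, add_neg_cancel, Complex.exp_zero]
  obtain ⟨E, hE⟩ : ∃ E, E = cexp (((2 / μ : ℝ) : ℂ) * (x + m * (2 * Real.pi * I) - c)) := ⟨_, rfl⟩
  rw [← hE] at hCe ⊢
  obtain ⟨W, hW⟩ : ∃ W, W = cexp (((1 + 2 / μ : ℝ) : ℂ) * x) * K (x, sgm k c) := ⟨_, rfl⟩
  rw [← hW] at e3 ⊢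
  obtain ⟨D, hD⟩ : ∃ D, D = deriv lam C := ⟨_, rfl⟩
  rw [← hD] at e3 ⊢
  have hk2 := neg_one_pow_sq k
  obtain ⟨n, hn⟩ : ∃ n : ℂ, n = (-1) ^ k := ⟨_, rfl⟩
  rw [← hn] at e3 e6 hk2
  have e9 : n * Y x * cexp (-x) * W = D * (C * (2 / μ)) := by
    have f1 : n * sgm k c * Y x * cexp (-x) * W / sgm k c = n * Y x * cexp (-x) * W := by
      field_simp
    rw [← f1]
    exact e3
  have e10 : W * Y x = n * cexp x * (D * (C * (2 / μ))) := by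
    rw [← e9]
    linear_combination (-(W * Y x)) * hk2 - (n * n * W * Y x) * e8
  rw [← mul_div_assoc, eq_div_iff hY0, e10, hCe]
  push_cast
  linear_combination (-(cexp x * D * ω * E * (2 / μ))) * e6

end Pool.Agent.MP_ae5b4e_an_AZ
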