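import Pool.Agent.Lib.MP_ae5b4e_an_AZ.IdB
import Pool.Agent.Lib.MP_ae5b4e_an_T.T4Prim

/-!
# POR, (Z'), identification: the time functions agree; the branch of the coordinate
-/

noncomputable section

namespace Pool.Agent.MP_ae5b4e_an_AZ

open Complex Set Filter Topology Metric MeasureTheory
open Pool.Agent.MP_ae5b4e_an_WB (G)
open Pool.Agent.MP_ae5b4e_an_WD (ZChart)
open Pool.Agent.MP_ae5b4e_an_T (Slb Mod Tm ccf cgf alZ)

variable {q : ℂ → ℂ} {l : ℂ} {k : ℕ} {γ0 : ℝ} {ζ : ℂ} {Tb : ℂ → ℂ} {R ρ : ℝ} {Λ : ℂ × ℂ → ℂ}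
  {μ : ℕ} {lam : ℂ → ℂ} {r M ρ0 : ℝ} {Y : ℂ → ℂ} {c1 k0 : ℂ} {K lb Zf : ℂ × ℂ → ℂ}

/-- THE TIME FUNCTIONS AGREE. Proof. `id_kernel` under the integral. -/
theorem id_time (h : ZSd q l k γ0 ζ Tb R ρ Λ μ lam r M ρ0 Y c1 k0 K lb Zf) (m : ℤ) {c : ℂ}
    (hc : ‖c - zt1 k γ0‖ < 3) (hcb : sgm k c ∈ ball (γ0 : ℂ) ρ0) {Y' : ℂ → ℂ} {x : ℂ}
    (hx : x.re < -M) (hY : ∀ s : ℝ, 0 ≤ s → Y' (x + m * (2 * Real.pi * I) - s) = Y (x - s)) :
    Tm (1 + 2 / μ) K (x, sgm k c) = sgm k c *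
      TZ (kap (2 / μ) (fun z => lam (omg k γ0 c1 μ m * z))) Y' (x + m * (2 * Real.pi * I), c) := by
  unfold Tm TZ
  rw [← integral_const_mul]
  refine setIntegral_congr_fun measurableSet_Ioi fun s hs => ?_
  have hs0 : (0 : ℝ) < s := hs
  have h1 : (x - (s : ℂ)).re < -M := by
    rw [sub_re, ofReal_re]
    linarith
  have h2 := id_kernel h m hc hcb h1
  dsimp only
  rw [h2, hY s hs0.le]
  have e : x - (s : ℂ) + m * (2 * Real.pi * I) - c = x + m * (2 * Real.pi * I) - c - s := by ring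
  rw [e]

/-- the cone is star shaped -/
theorem starConvex_cone (d : ℝ) {e : ℝ} (he : 0 < e) :
    StarConvex ℝ (-(I * e) : ℂ) {θ : ℂ | ‖θ‖ < 2 * e ∧ θ.im < d * |θ.re|} := by
  intro θ hθ a b ha hb hab
  obtain ⟨h1, h2⟩ := hθ
  have e1 : (a • (-(I * e)) + b • θ : ℂ).im = -(a * e) + b * θ.im := by simp
  have e2 : (a • (-(I * e)) + b • θ : ℂ).re = b * θ.re := by simp
  refine ⟨?_, ?_⟩
  · refine (norm_add_le _ _).trans_lt ?_
    rw [norm_smul, norm_smul, norm_neg, norm_mul, norm_I, one_mul, Complex.norm_real,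
      Real.norm_of_nonneg ha, Real.norm_of_nonneg hb, Real.norm_of_nonneg he.le]
    rcases ha.lt_or_eq with h3 | h3
    · have h4 : b * ‖θ‖ ≤ b * (2 * e) := mul_le_mul_of_nonneg_left h1.le hb
      have h5 : a * e < a * (2 * e) := mul_lt_mul_of_pos_left (by linarith) h3
      have h6 : a * (2 * e) + b * (2 * e) = 2 * e := by
        rw [← add_mul, hab, one_mul]
      linarith
    · have hb1 : b = 1 := by linarith
      rw [← h3, hb1]
      linarith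
  · show (a • (-(I * e)) + b • θ : ℂ).im < d * |(a • (-(I * e)) + b • θ : ℂ).re|
    rw [e1, e2, abs_mul, abs_of_nonneg hb]
    rcases hb.lt_or_eq with h3 | h3
    · have h4 := mul_lt_mul_of_pos_left h2 h3
      have h5 : 0 ≤ a * e := mul_nonneg ha he.le
      nlinarith
    · have ha1 : a = 1 := by linarith
      rw [← h3, ha1]
      simp [he]

/-- a point of the region is not on the upper slit -/
theorem cone_slit {θ σ : ℂ} (h1 : θ.im < 1 / 10 * |θ.re|) (h2 : |σ.im| < σ.re) :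
    ¬((θ * σ).re = 0 ∧ 0 ≤ (θ * σ).im) := by
  rintro ⟨h3, h4⟩
  rw [mul_re] at h3
  rw [mul_im] at h4
  have hσ : 0 < σ.re := (abs_nonneg _).trans_lt h2
  have hn : 0 < σ.re ^ 2 + σ.im ^ 2 := by positivity
  obtain ⟨T, hT⟩ : ∃ T, T = θ.re * σ.im + θ.im * σ.re := ⟨_, rfl⟩
  rw [← hT] at h4
  have e1 : θ.im * (σ.re ^ 2 + σ.im ^ 2) = σ.re * T := by
    rw [hT]
    linear_combination (-σ.im) * h3
  have e2 : θ.re * (σ.re ^ 2 + σ.im ^ 2) = σ.im * T := by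
    rw [hT]
    linear_combination σ.re * h3
  have e3 : |θ.re| * (σ.re ^ 2 + σ.im ^ 2) = |σ.im| * T := by
    rw [← abs_of_pos hn, ← abs_mul, e2, abs_mul, abs_of_nonneg h4]
  have e4 : θ.im * (σ.re ^ 2 + σ.im ^ 2) < 1 / 10 * (|σ.im| * T) := by
    rw [← e3, ← mul_assoc]
    exact mul_lt_mul_of_pos_right h1 hn
  rw [e1] at e4
  have h5 := abs_nonneg σ.im
  nlinarith

theorem cone_slitPlane {θ : ℂ} {d : ℝ} (h1 : θ.im < d * |θ.re|) : I * θ ∈ slitPlane := by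
  rw [mem_slitPlane_iff, I_mul_re, I_mul_im]
  by_cases h : θ.re = 0
  · left
    rw [h, abs_zero, mul_zero] at h1
    linarith
  · exact Or.inr h

/-- THE BRANCH of the coordinate `Zf`.

Proof. `β Zf + log E - log (I θ) - c` is continuous on the region with constant exponential. -/
theorem id_branch (h : ZSd q l k γ0 ζ Tb R ρ Λ μ lam r M ρ0 Y c1 k0 K lb Zf) :
    ∃ (e r0 : ℝ) (f0 : ℂ), 0 < e ∧ 0 < r0 ∧ r0 ≤ 1 ∧ ∀ c ∈ ball (zt1 k γ0) r0, ∀ θ : ℂ,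
      ‖θ‖ < 2 * e → θ.im < 1 / 10 * |θ.re| → sgm k c ∈ ball (γ0 : ℂ) ρ ∧
        (θ * sgm k c + Tb (sgm k c), sgm k c) ∈ Slb Tb ζ γ0 R ρ ∧
        ∃ L : ℂ, ‖L‖ ≤ 3 / 200 ∧
          ((1 + 2 / μ : ℝ) : ℂ) * Zf (θ * sgm k c + Tb (sgm k c), sgm k c) =
            f0 + log (I * θ) + c - L := by
  have hγ := h.γ_pos
  have hρ := h.pos
  have hR : 0 < R := hρ.trans_le h.le
  have hβ := h.md.mdl.β_pos
  obtain ⟨β, hβd⟩ : ∃ β : ℝ, β = 1 + 2 / μ := ⟨_, rfl⟩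
  have hβ' : (β : ℂ) = ((1 + 2 / μ : ℝ) : ℂ) := by rw [hβd]
  rw [← hβd] at hβ
  have hβC : (β : ℂ) ≠ 0 := by exact_mod_cast hβ.ne'
  have hk0 := h.md.mdl.k0_ne
  obtain ⟨hTan, hTpr⟩ := h.md.mdl.prim
  -- the radius in the parameter
  obtain ⟨r0, hr0, hr1, hball⟩ : ∃ r0 : ℝ, 0 < r0 ∧ r0 ≤ 1 ∧ ∀ c ∈ ball (zt1 k γ0) r0,
      sgm k c ∈ ball (γ0 : ℂ) (min ρ (γ0 / 2)) ∧ ‖Tb (sgm k c) - ζ‖ < R / 2 := by
    have h1 : ContinuousAt (sgm k) (zt1 k γ0) := (sgm_an k _).continuousAt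
    have h2 : Tendsto (sgm k) (𝓝 (zt1 k γ0)) (𝓝 (γ0 : ℂ)) := by
      have := h1.tendsto
      rwa [sgm_zt1 k hγ] at this
    have h3 : Tendsto Tb (𝓝 (γ0 : ℂ)) (𝓝 ζ) := by
      have := (h.Tan γ0 (mem_ball_self hρ)).continuousAt.tendsto
      rwa [h.T0] at this
    have h4 : ∀ᶠ c in 𝓝 (zt1 k γ0), sgm k c ∈ ball (γ0 : ℂ) (min ρ (γ0 / 2)) :=
      h2 (ball_mem_nhds _ (lt_min hρ (by positivity)))
    have h5 : ∀ᶠ c in 𝓝 (zt1 k γ0), Tb (sgm k c) ∈ ball ζ (R / 2) :=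
      (h3.comp h2) (ball_mem_nhds _ (by positivity))
    obtain ⟨s, hs, h6⟩ := Metric.eventually_nhds_iff_ball.1 (h4.and h5)
    refine ⟨min s 1, lt_min hs one_pos, min_le_right _ _, fun c hc => ?_⟩
    obtain ⟨h7, h8⟩ := h6 c (ball_subset_ball (min_le_left _ _) hc)
    exact ⟨h7, by rwa [mem_ball, dist_eq_norm] at h8⟩
  obtain ⟨e, hed⟩ : ∃ e : ℝ, e = R / (8 * γ0) := ⟨_, rfl⟩
  have he : 0 < e := by
    rw [hed]
    positivity
  have hmem : ∀ c ∈ ball (zt1 k γ0) r0, ∀ θ : ℂ, ‖θ‖ < 2 * e → θ.im < 1 / 10 * |θ.re| →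
      sgm k c ∈ ball (γ0 : ℂ) ρ ∧
        (θ * sgm k c + Tb (sgm k c), sgm k c) ∈ Slb Tb ζ γ0 R ρ := by
    intro c hc θ hθ hθi
    obtain ⟨h1, h2⟩ := hball c hc
    have h3 : sgm k c ∈ ball (γ0 : ℂ) ρ := ball_subset_ball (min_le_left _ _) h1
    have h4 : ‖sgm k c - γ0‖ < γ0 / 2 := by
      have := ball_subset_ball (min_le_right _ _) h1
      rwa [mem_ball, dist_eq_norm] at this
    obtain ⟨σ, hσ⟩ : ∃ σ, σ = sgm k c := ⟨_, rfl⟩
    rw [← hσ] at h2 h3 h4 ⊢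
    have h5 := (abs_re_le_norm (σ - γ0)).trans_lt h4
    have h6 := (abs_im_le_norm (σ - γ0)).trans_lt h4
    rw [sub_re, ofReal_re] at h5
    rw [sub_im, ofReal_im, sub_zero] at h6
    have h7 := (abs_lt.1 h5).1
    have hσn : ‖σ‖ ≤ 3 / 2 * γ0 := by
      have := norm_sub_norm_le σ (γ0 : ℂ)
      rw [Complex.norm_real, Real.norm_of_nonneg hγ.le] at this
      linarith
    refine ⟨h3, ⟨⟨?_, h3⟩, ?_⟩⟩
    · show θ * σ + Tb σ ∈ ball ζ R
      rw [mem_ball, dist_eq_norm]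
      have e1 : θ * σ + Tb σ - ζ = θ * σ + (Tb σ - ζ) := by ring
      rw [e1]
      refine (norm_add_le _ _).trans_lt ?_
      have e2 : ‖θ * σ‖ ≤ (2 * e) * (3 / 2 * γ0) := by
        rw [norm_mul]
        exact mul_le_mul hθ.le hσn (norm_nonneg _) (by positivity)
      have e3 : (2 * e) * (3 / 2 * γ0) = 3 / 8 * R := by
        rw [hed]
        field_simp
      linarith
    · show ¬((θ * σ + Tb σ).re = (Tb σ).re ∧ (Tb σ).im ≤ (θ * σ + Tb σ).im)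
      rw [add_re, add_im]
      rintro ⟨h8, h9⟩
      exact cone_slit hθi (h6.trans (by linarith)) ⟨by linarith, by linarith⟩
  -- the connected region
  obtain ⟨N, hN⟩ : ∃ N : Set (ℂ × ℂ), N = {θ : ℂ | ‖θ‖ < 2 * e ∧ θ.im < 1 / 10 * |θ.re|} ×ˢ
      ball (zt1 k γ0) r0 := ⟨_, rfl⟩
  have hbase : (-(I * e) : ℂ) ∈ {θ : ℂ | ‖θ‖ < 2 * e ∧ θ.im < 1 / 10 * |θ.re|} := by
    refine ⟨?_, ?_⟩
    · rw [norm_neg, norm_mul, norm_I, one_mul, Complex.norm_real, Real.norm_of_nonneg he.le]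
      linarith
    · simp [he]
  have hNc : IsPreconnected N := by
    rw [hN]
    refine IsPreconnected.prod ?_ (convex_ball _ _).isPreconnected
    exact ((starConvex_cone (1 / 10) he).isPathConnected hbase).isConnected.isPreconnected
  obtain ⟨x₀, hx₀⟩ : ∃ x₀ : ℂ × ℂ, x₀ ∈ N := ⟨(-(I * e), zt1 k γ0), by
    rw [hN]
    exact ⟨hbase, mem_ball_self hr0⟩⟩
  obtain ⟨P, hP⟩ : ∃ P : ℂ × ℂ → ℂ × ℂ, P = fun x =>
      (x.1 * sgm k x.2 + Tb (sgm k x.2), sgm k x.2) := ⟨_, rfl⟩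
  obtain ⟨X, hX⟩ : ∃ X : ℂ × ℂ → ℂ × ℂ, X = fun x => (Zf (P x), sgm k x.2) := ⟨_, rfl⟩
  obtain ⟨E, hE⟩ : ∃ E : ℂ × ℂ → ℂ, E = fun p => Tm β K p / (cexp (β * p.1) * (k0 / β)) :=
    ⟨_, rfl⟩
  have hPm : ∀ x ∈ N, sgm k x.2 ∈ ball (γ0 : ℂ) ρ ∧ P x ∈ Slb Tb ζ γ0 R ρ := by
    intro x hx
    rw [hN] at hx
    have h1 := hmem x.2 hx.2 x.1 hx.1.1 hx.1.2
    rw [hP]
    exact h1
  have hXm : ∀ x ∈ N, X x ∈ Pool.Agent.MP_ae5b4e_an_T.DZ M ×ˢ ball (γ0 : ℂ) ρ0 ∧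
      Tm β K (X x) = x.1 * sgm k x.2 := by
    intro x hx
    obtain ⟨h1, h2⟩ := hPm x hx
    obtain ⟨h3, h4⟩ := h.Zt _ h2
    rw [hX]
    refine ⟨⟨h3, ball_subset_ball h.ρ_le h1⟩, ?_⟩
    have e1 : (P x).2 = sgm k x.2 := by rw [hP]
    have e2 : (P x).1 = x.1 * sgm k x.2 + Tb (sgm k x.2) := by rw [hP]
    rw [e1, e2, add_sub_cancel_right] at h4
    rw [hβd]
    exact h4
  have hne : ∀ z : ℂ, cexp (β * z) * (k0 / β) ≠ 0 := fun z =>
    mul_ne_zero (Complex.exp_ne_zero _) (div_ne_zero hk0 hβC)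
  have hTE : ∀ p, Tm β K p = cexp (β * p.1) * (k0 / β) * E p := by
    intro p
    rw [hE]
    beta_reduce
    rw [mul_div_cancel₀ _ (hne p.1)]
  have hE1 : ∀ p ∈ Pool.Agent.MP_ae5b4e_an_T.DZ M ×ˢ ball (γ0 : ℂ) ρ0, ‖E p - 1‖ ≤ 1 / 100 := by
    intro p hp
    have h1 := (hTpr p hp).2
    rw [← hβd] at h1
    have h2 : Tm β K p - cexp (β * p.1) * (k0 / β) =
        cexp (β * p.1) * (k0 / β) * (E p - 1) := by
      rw [hTE p]
      ring
    rw [h2, norm_mul] at h1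
    have h3 : 0 < ‖cexp (β * p.1) * (k0 / β)‖ := norm_pos_iff.2 (hne p.1)
    have h4 : ‖cexp (β * p.1) * (k0 / β)‖ * ‖E p - 1‖ ≤
        ‖cexp (β * p.1) * (k0 / β)‖ * (1 / 100) := by linarith
    exact le_of_mul_le_mul_left h4 h3
  have hEs : ∀ p ∈ Pool.Agent.MP_ae5b4e_an_T.DZ M ×ˢ ball (γ0 : ℂ) ρ0, E p ∈ slitPlane := by
    intro p hp
    rw [mem_slitPlane_iff]
    left
    have h1 := hE1 p hp
    have h2 := abs_re_le_norm (E p - 1)
    rw [sub_re, one_re] at h2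
    have h3 := neg_abs_le ((E p).re - 1)
    linarith
  have hEl : ∀ p ∈ Pool.Agent.MP_ae5b4e_an_T.DZ M ×ˢ ball (γ0 : ℂ) ρ0,
      ‖log (E p)‖ ≤ 3 / 200 := by
    intro p hp
    have h1 := hE1 p hp
    have h2 := norm_log_one_add_half_le_self (z := E p - 1) (by linarith)
    rw [add_sub_cancel] at h2
    linarith
  have hXc : ContinuousOn X N := by
    intro x hx
    obtain ⟨h1, h2⟩ := hPm x hx
    have a1 : ContinuousAt (fun x : ℂ × ℂ => sgm k x.2) x :=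
      ContinuousAt.comp (g := sgm k) (f := fun x : ℂ × ℂ => x.2) (sgm_an k x.2).continuousAt
        continuousAt_snd
    have a2 : ContinuousAt (fun x : ℂ × ℂ => Tb (sgm k x.2)) x :=
      ContinuousAt.comp (g := Tb) (f := fun x : ℂ × ℂ => sgm k x.2)
        (h.Tan _ h1).continuousAt a1
    have a3 : ContinuousAt P x := by
      rw [hP]
      exact ((continuousAt_fst.mul a1).add a2).prodMk a1
    have a4 : ContinuousAt (fun x => Zf (P x)) x :=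
      ContinuousAt.comp (g := Zf) (f := P) (h.Zan _ h2).continuousAt a3
    rw [hX]
    exact (a4.prodMk a1).continuousWithinAt
  have hθ0 : ∀ x ∈ N, x.1 ≠ 0 := by
    intro x hx h0
    rw [hN] at hx
    have h1 := hx.1.2
    rw [h0] at h1
    simp at h1
  obtain ⟨f, hf⟩ : ∃ f : ℂ × ℂ → ℂ, f = fun x =>
      β * (X x).1 + log (E (X x)) - log (I * x.1) - x.2 := ⟨_, rfl⟩
  have hfc : ContinuousOn f N := by
    intro x hx
    obtain ⟨h1, h2⟩ := hXm x hx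
    have a1 : ContinuousWithinAt X N x := hXc x hx
    have a2 : ContinuousAt E (X x) := by
      rw [hE]
      have b1 : ContinuousAt (Tm β K) (X x) := by
        have := (hTan _ h1).continuousAt
        rwa [hβd]
      exact b1.div (by fun_prop) (hne _)
    have a3 : ContinuousWithinAt (fun x => E (X x)) N x := a2.comp_continuousWithinAt a1
    have a4 : ContinuousWithinAt (fun x => log (E (X x))) N x := a3.clog (hEs _ h1)
    have a5 : ContinuousWithinAt (fun x : ℂ × ℂ => log (I * x.1)) N x := by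
      refine ContinuousWithinAt.clog (by fun_prop) ?_
      rw [hN] at hx
      exact cone_slitPlane hx.1.2
    rw [hf]
    exact (((a1.fst.const_mul (β : ℂ)).add a4).sub a5).sub continuousWithinAt_snd
  have hfe : ∀ x ∈ N, cexp (f x) = (-1) ^ k * β / (k0 * I) := by
    intro x hx
    obtain ⟨h1, h2⟩ := hXm x hx
    have h3 := hTE (X x)
    rw [h2] at h3
    have h4 : E (X x) ≠ 0 := slitPlane_ne_zero (hEs _ h1)
    have h5 := hθ0 x hx
    rw [hf]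
    beta_reduce
    rw [Complex.exp_sub, Complex.exp_sub, Complex.exp_add, Complex.exp_log h4,
      Complex.exp_log (mul_ne_zero I_ne_zero h5)]
    unfold sgm at h3
    obtain ⟨A, hA⟩ : ∃ A, A = cexp (β * (X x).1) := ⟨_, rfl⟩
    rw [← hA] at h3 ⊢
    obtain ⟨F, hF⟩ : ∃ F, F = E (X x) := ⟨_, rfl⟩
    rw [← hF] at h3 ⊢
    have h6 : A * F = x.1 * ((-1) ^ k * cexp x.2) * β / k0 := by
      rw [h3]
      field_simp
    rw [h6]
    have h7 := Complex.exp_ne_zero x.2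
    field_simp
  refine ⟨e, r0, f x₀, he, hr0, hr1, fun c hc θ hθ hθi => ?_⟩
  obtain ⟨h1, h2⟩ := hmem c hc θ hθ hθi
  refine ⟨h1, h2, log (E (X (θ, c))), hEl _ (hXm _ ?_).1, ?_⟩
  · rw [hN]
    exact ⟨⟨hθ, hθi⟩, hc⟩
  · have hx : (θ, c) ∈ N := by
      rw [hN]
      exact ⟨⟨hθ, hθi⟩, hc⟩
    have h3 := id_const hNc hfc hfe hx₀ hx
    rw [h3, ← hβ', hf]
    have e1 : (X (θ, c)).1 = Zf (θ * sgm k c + Tb (sgm k c), sgm k c) := by
      rw [hX, hP]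
    rw [← e1]
    ring

end Pool.Agent.MP_ae5b4e_an_AZ
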