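import Pool.Agent.Lib.MP_ae5b4e_an_T.T4Z

/-!
# POR, (Z'): identification of the window label near a point `Z_k` with the family of AZ: definitions

`ZSd` = the data of `slit_Zx` (T4): slit neighbourhood, chart, sheet, model, coordinate `Zf`.
`sgm k c = (-1)^k e^c` = the real parameter `γ` as a function of the parameter `c = ζ` of AZ.
-/

noncomputable section

namespace Pool.Agent.MP_ae5b4e_an_AZ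

open Complex Set Filter Topology Metric
open Pool.Agent.MP_ae5b4e_an_WB (G)
open Pool.Agent.MP_ae5b4e_an_WD (ZChart)
open Pool.Agent.MP_ae5b4e_an_T (Slb Mod Tm ccf alZ)

/-- the data of `slit_Zx` at a point `Z_k` over the real parameter `γ0` -/
structure ZSd (q : ℂ → ℂ) (l : ℂ) (k : ℕ) (γ0 : ℝ) (ζ : ℂ) (Tb : ℂ → ℂ) (R ρ : ℝ)
    (Λ : ℂ × ℂ → ℂ) (μ : ℕ) (lam : ℂ → ℂ) (r M ρ0 : ℝ) (Y : ℂ → ℂ) (c1 k0 : ℂ)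
    (K lb Zf : ℂ × ℂ → ℂ) : Prop where
  γ_pos : 0 < γ0
  k_pos : 1 ≤ k
  pos : 0 < ρ
  le : ρ ≤ R
  Tan : AnalyticOnNhd ℂ Tb (ball (γ0 : ℂ) ρ)
  T0 : Tb γ0 = ζ
  ch : ZChart q l μ lam r
  Yan : AnalyticOnNhd ℂ Y (Pool.Agent.MP_ae5b4e_an_T.DZ M)
  Yeq : ∀ x ∈ Pool.Agent.MP_ae5b4e_an_T.DZ M, sin (Y x) ≠ 0 ∧ G (Y x) = (-1) ^ k * cexp x
  Ylim : Tendsto Y (comap re atBot) (𝓝 (k * Real.pi))
  c1e : c1 ^ μ * (γ0 : ℂ) ^ 2 = 1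
  md : Mod q (Pool.Agent.MP_ae5b4e_an_T.DZ M) (1 + 2 / μ) k0 γ0 ρ0 K lb (alZ k Y)
  lbe : ∀ p ∈ Pool.Agent.MP_ae5b4e_an_T.DZ M ×ˢ ball (γ0 : ℂ) ρ0,
    lb p = lam (ccf c1 μ γ0 p) ∧ ccf c1 μ γ0 p ∈ ball (0 : ℂ) r
  ρ_le : ρ ≤ ρ0
  Λe : ∀ p, Λ p = lb (Zf p, p.2)
  Zan : AnalyticOnNhd ℂ Zf (Slb Tb ζ γ0 R ρ)
  Zt : ∀ p ∈ Slb Tb ζ γ0 R ρ, Zf p ∈ Pool.Agent.MP_ae5b4e_an_T.DZ M ∧
    Tm (1 + 2 / μ) K (Zf p, p.2) = p.1 - Tb p.2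

/-- the real parameter as a function of the parameter of AZ -/
def sgm (k : ℕ) (c : ℂ) : ℂ := (-1) ^ k * cexp c

end Pool.Agent.MP_ae5b4e_an_AZ
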