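import Pool.Agent.Lib.MP_ae5b4e_an_AZ.KDefs

/-!
# POR, (Z'): one function, one `n`: modes and flatness
-/

noncomputable section

namespace Pool.Agent.MP_ae5b4e_an_AZ

open Complex Set Filter Topology Metric
open Pool.Agent.MP_ae5b4e_an_A1
open Pool.Agent.MP_ae5b4e_an_BX (Rec)
open Pool.Agent.MP_ae5b4e_an_A3 (rs md Dfc osc_le Per_osc Per_zero)
open Pool.Agent.MP_ae5b4e_an_A4 (am Per SN)
open Pool.Agent.MP_ae5b4e_an_MERO (fo St fo_indep norm_fo_le hasSum_fo)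

variable {ε y₁ y₂ κ : ℝ} {D : Set ℂ} {F : ℂ × ℂ → ℂ}

private theorem K1_mem {s : ℝ} (hε : 0 < ε) (hs : s ∈ Ioo y₁ y₂) : s / ε ∈ Ioo (y₁ / ε) (y₂ / ε) :=
  ⟨div_lt_div_of_pos_right hs.1 hε, div_lt_div_of_pos_right hs.2 hε⟩

private theorem K1_slice (hε : 0 < ε) (h : Fn ε y₁ y₂ κ D F) {c : ℂ} (hc : c ∈ D) :
    DifferentiableOn ℂ (fun ζ => rs ε F (ζ, c)) (St (y₁ / ε) (y₂ / ε)) ∧
      (∀ t ∈ St (y₁ / ε) (y₂ / ε), rs ε F (t + 1, c) = rs ε F (t, c)) ∧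
      ∀ t ∈ St (y₁ / ε) (y₂ / ε), ‖rs ε F (t, c)‖ ≤ κ := by
  have him : ∀ t ∈ St (y₁ / ε) (y₂ / ε), y₁ < ((ε : ℂ) * t).im ∧ ((ε : ℂ) * t).im < y₂ := by
    rintro t ⟨h1, h2⟩
    rw [im_ofReal_mul]
    rw [div_lt_iff₀' hε] at h1
    rw [lt_div_iff₀' hε] at h2
    exact ⟨h1, h2⟩
  refine ⟨fun t ht => ?_, fun t _ => ?_, fun t ht => ?_⟩
  · obtain ⟨h1, h2⟩ := him t ht
    have h3 : AnalyticAt ℂ (fun ζ : ℂ => F ((ε : ℂ) * ζ, c)) t :=
      AnalyticAt.comp (g := F) (f := fun ζ : ℂ => ((ε : ℂ) * ζ, c)) (h.an _ h1 h2 hc)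
        ((analyticAt_const.mul analyticAt_id).prod analyticAt_const)
    exact h3.differentiableAt.differentiableWithinAt
  · have h1 := h.per ((ε : ℂ) * t, c)
    unfold rs
    rw [← h1]
    unfold tr
    congr 2
    simp only
    ring
  · obtain ⟨h1, h2⟩ := him t ht
    exact h.bd _ h1 h2 hc

/-- The link with `A4.Per`. Proof. `SN (1/ε) y₁ (const y₂) g₀ r` is the set of `p` with `p.2 ∈ ball`,
`y₁ / ε < Im p.1 < y₂ / ε`; `rs ε F p = F (ε p.1, p.2)`: analytic as a composition, period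
`F (ε (ζ + 1), c) = F (tr ε (ε ζ, c))`. -/
theorem Fn.toPer (hε : 0 < ε) {g₀ : ℂ} {r : ℝ} (h : Fn ε y₁ y₂ κ (ball g₀ r) F) :
    Per (1 / ε) y₁ κ (fun _ => y₂) g₀ r (rs ε F) := by
  have him : ∀ t : ℂ, ((ε : ℂ) * t).im = ε * t.im := fun t => by
    rw [im_ofReal_mul]
  have hlow : ∀ p ∈ Pool.Agent.MP_ae5b4e_an_A4.SN (1 / ε) y₁ (fun _ => y₂) g₀ r,
      y₁ < ((ε : ℂ) * p.1).im ∧ ((ε : ℂ) * p.1).im < y₂ ∧ p.2 ∈ ball g₀ r := by
    rintro p ⟨h1, h2, h3⟩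
    rw [him]
    rw [one_div, inv_mul_lt_iff₀ hε] at h2
    simp only at h3
    rw [one_div, lt_inv_mul_iff₀ hε] at h3
    exact ⟨h2, h3, h1⟩
  refine ⟨fun p hp => ?_, fun p hp => ?_, fun p hp => ?_⟩
  · obtain ⟨h1, h2, h3⟩ := hlow p hp
    exact AnalyticAt.comp (g := F) (f := fun p : ℂ × ℂ => ((ε : ℂ) * p.1, p.2))
      (h.an _ h1 h2 h3) ((analyticAt_const.mul analyticAt_fst).prod analyticAt_snd)
  · have h1 := h.per ((ε : ℂ) * p.1, p.2)
    unfold rs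
    rw [← h1]
    unfold tr
    congr 2
    simp only
    ring
  · obtain ⟨h1, h2, h3⟩ := hlow p hp
    exact h.bd _ h1 h2 h3

/-- independence of the height. Proof. `fo_indep` for the slice `ζ ↦ F (ε ζ, c)`, which is
differentiable on `St (y₁ / ε) (y₂ / ε)` and has period `1`. -/
theorem Fn.md_indep (hε : 0 < ε) (h : Fn ε y₁ y₂ κ D F) {c : ℂ} (hc : c ∈ D) {y y' : ℝ}
    (hy : y ∈ Ioo y₁ y₂) (hy' : y' ∈ Ioo y₁ y₂) (m : ℤ) : md ε y F m c = md ε y' F m c := by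
  obtain ⟨h1, h2, -⟩ := K1_slice hε h hc
  exact fo_indep h1 h2 (K1_mem hε hy) (K1_mem hε hy') m

/-- the bound of a mode by the values at any height, also at the ends.
Proof. As `A4.Per.le`: `norm_fo_le` at the heights `s ∈ Ioo y₁ y₂` with `md_indep`, limit `s → y'`. -/
theorem Fn.md_le (hε : 0 < ε) (h : Fn ε y₁ y₂ κ D F) {c : ℂ} (hc : c ∈ D) {y y' : ℝ}
    (hy : y ∈ Ioo y₁ y₂) (hy' : y' ∈ Icc y₁ y₂) (m : ℤ) :
    ‖md ε y F m c‖ ≤ κ * Real.exp (2 * Real.pi * m * y' / ε) := by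
  have hcl : IsClosed {s : ℝ | ‖md ε y F m c‖ ≤ κ * Real.exp (2 * Real.pi * m * s / ε)} :=
    isClosed_le continuous_const (by fun_prop)
  have hsub : Ioo y₁ y₂ ⊆ {s : ℝ | ‖md ε y F m c‖ ≤ κ * Real.exp (2 * Real.pi * m * s / ε)} := by
    intro s hs
    show ‖md ε y F m c‖ ≤ κ * Real.exp (2 * Real.pi * m * s / ε)
    rw [h.md_indep hε hc hy hs m]
    have h1 := norm_fo_le (f := fun ζ => rs ε F (ζ, c)) (y := s / ε) (M := κ) (fun t ht => by
      refine (K1_slice hε h hc).2.2 t ?_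
      show t.im ∈ Ioo (y₁ / ε) (y₂ / ε)
      rw [ht]
      exact K1_mem hε hs) m
    rw [mul_div_assoc]
    exact h1
  have h1 := closure_minimal hsub hcl
  rw [closure_Ioo (ne_of_lt (hy.1.trans hy.2))] at h1
  exact h1 hy'

/-- Proof. `norm_fo_le` for `m = 0` at the height `y`. -/
theorem Fn.md0_le (hε : 0 < ε) (h : Fn ε y₁ y₂ κ D F) {c : ℂ} (hc : c ∈ D) {y : ℝ}
    (hy : y ∈ Ioo y₁ y₂) : ‖md ε y F 0 c‖ ≤ κ := by
  have h1 := h.md_le hε hc hy (Ioo_subset_Icc_self hy) 0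
  rwa [Int.cast_zero, mul_zero, zero_mul, zero_div, Real.exp_zero, mul_one] at h1

/-- Proof. `A4.Per.diff` (with `Fn.toPer`) on balls inside `D`, or `PB.diff_int` directly. -/
theorem Fn.md_diff (hε : 0 < ε) (hD : IsOpen D) (h : Fn ε y₁ y₂ κ D F) {y : ℝ} (hy : y ∈ Ioo y₁ y₂)
    (m : ℤ) : DifferentiableOn ℂ (md ε y F m) D := by
  have h1 := Pool.Agent.MP_ae5b4e_an_PB.diff_int (U := D) hD
    (g := fun p : ℂ × ℂ => rs ε F (p.1 + ((y / ε : ℝ) : ℂ) * I, p.2) *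
      exp (-(2 * Real.pi * I * m * (p.1 + ((y / ε : ℝ) : ℂ) * I)))) ?_
  · exact h1
  · intro x _ ρ hρ
    have him : ((ε : ℂ) * ((x : ℂ) + ((y / ε : ℝ) : ℂ) * I)).im = y := by
      rw [im_ofReal_mul]
      have e : ((x : ℂ) + ((y / ε : ℝ) : ℂ) * I).im = y / ε := by simp
      rw [e, mul_div_cancel₀ _ hε.ne']
    have h3 : AnalyticAt ℂ (fun p : ℂ × ℂ => ((ε : ℂ) * (p.1 + ((y / ε : ℝ) : ℂ) * I), p.2))
        ((x : ℂ), ρ) :=
      (analyticAt_const.mul (analyticAt_fst.add analyticAt_const)).prod analyticAt_snd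
    have h4 : AnalyticAt ℂ (fun p : ℂ × ℂ => rs ε F (p.1 + ((y / ε : ℝ) : ℂ) * I, p.2))
        ((x : ℂ), ρ) :=
      AnalyticAt.comp (g := F)
        (f := fun p : ℂ × ℂ => ((ε : ℂ) * (p.1 + ((y / ε : ℝ) : ℂ) * I), p.2))
        (h.an _ (by rw [him]; exact hy.1) (by rw [him]; exact hy.2) hρ) h3
    refine h4.mul ?_
    have h5 : AnalyticAt ℂ (fun p : ℂ × ℂ => -(2 * Real.pi * I * m *
        (p.1 + ((y / ε : ℝ) : ℂ) * I))) ((x : ℂ), ρ) :=
      ((analyticAt_const.mul (analyticAt_fst.add analyticAt_const))).neg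
    exact h5.cexp

/-- the zero mode is Lipschitz. Proof. `md_diff`, `md0_le`, the Cauchy estimate: for `c, c'` in
`ball c₀ (3 r / 4)` the segment has distance `≥ r / 4` to the boundary: `‖deriv‖ ≤ 4 κ / r`
(`Convex.norm_image_sub_le_of_norm_deriv_le`). -/
theorem Fn.md0_lip (hε : 0 < ε) {c₀ : ℂ} {r : ℝ} (hr : 0 < r) (h : Fn ε y₁ y₂ κ (ball c₀ r) F) {y : ℝ}
    (hy : y ∈ Ioo y₁ y₂) {c c' : ℂ} (hc : c ∈ ball c₀ (3 / 4 * r)) (hc' : c' ∈ ball c₀ (3 / 4 * r)) :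
    ‖md ε y F 0 c - md ε y F 0 c'‖ ≤ 4 * κ / r * ‖c - c'‖ := by
  have hd := h.md_diff hε isOpen_ball hy 0
  have hsub : ball c₀ (3 / 4 * r) ⊆ ball c₀ r := ball_subset_ball (by linarith)
  have hbound : ∀ z ∈ ball c₀ (3 / 4 * r), ‖deriv (md ε y F 0) z‖ ≤ 4 * κ / r := by
    intro z hz
    have hz' : dist z c₀ < 3 / 4 * r := hz
    have hs : closedBall z (r / 4) ⊆ ball c₀ r := by
      intro w hw
      have h1 : dist w z ≤ r / 4 := hw
      have h2 := dist_triangle w z c₀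
      show dist w c₀ < r
      linarith
    have h1 := Complex.norm_deriv_le_of_forall_mem_sphere_norm_le (c := z) (R := r / 4) (C := κ)
      (f := md ε y F 0) (by linarith)
      ((hd.mono hs).diffContOnCl_ball subset_rfl) (fun w hw =>
        h.md0_le hε (hs (sphere_subset_closedBall hw)) hy)
    refine h1.trans (le_of_eq ?_)
    field_simp
  have h1 := (convex_ball c₀ (3 / 4 * r)).norm_image_sub_le_of_norm_deriv_le
    (fun z hz => (hd.differentiableAt (isOpen_ball.mem_nhds (hsub hz)))) hbound hc' hc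
  exact h1

/-- FLATNESS I. Proof. `osc_le` for the slice `ζ ↦ F (ε ζ, c)` (period `1`, strip `y₁ / ε < Im < y₂ / ε`)
with `d / ε ≥ 1`. -/
theorem Fn.flat0 (hε : 0 < ε) (h : Fn ε y₁ y₂ κ D F) {d : ℝ} (hd : ε ≤ d) {p : ℂ × ℂ} (hp : p.2 ∈ D)
    (h1 : y₁ + d < p.1.im) (h2 : p.1.im + d < y₂) {y : ℝ} (hy : y ∈ Ioo y₁ y₂) :
    ‖F p - md ε y F 0 p.2‖ ≤ 4 * κ * Real.exp (-(2 * Real.pi / ε * d)) := by
  obtain ⟨s1, s2, s3⟩ := K1_slice hε h hp
  have e1 : rs ε F (p.1 / ε, p.2) = F p := by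
    unfold rs
    rw [mul_div_cancel₀ _ (by exact_mod_cast hε.ne' : (ε : ℂ) ≠ 0)]
  have him : (p.1 / (ε : ℂ)).im = p.1.im / ε := Complex.div_ofReal_im _ _
  have h3 := osc_le (f := fun ζ => rs ε F (ζ, p.2)) s1 s2 s3 (d := d / ε) (t := p.1 / ε)
    (by rw [one_le_div hε]; exact hd)
    (by rw [him, ← add_div]; exact div_lt_div_of_pos_right h1 hε)
    (by rw [him, ← add_div]; exact div_lt_div_of_pos_right h2 hε) (K1_mem hε hy)
  simp only [e1] at h3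
  have e2 : 2 * Real.pi * (d / ε) = 2 * Real.pi / ε * d := by ring
  rw [e2] at h3
  exact h3

/-- the first mode from the oscillation on one line.
Proof. `md ε y F (-1) c = ∫₀¹ F (ε x + i y, c) exp (2 π i (x + i y / ε)) dx` and the same integral with the
constant `v` in the place of `F` is zero; `‖exp (2 π i (x + i y / ε))‖ = exp (- 2 π y / ε)`. -/
theorem md_osc (hε : 0 < ε) {y δ : ℝ} {c v : ℂ}
    (hF : ∀ x ∈ Icc (0 : ℝ) 1, AnalyticAt ℂ F ((ε : ℂ) * x + y * I, c))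
    (h : ∀ x ∈ Icc (0 : ℝ) 1, ‖F ((ε : ℂ) * x + y * I, c) - v‖ ≤ δ) :
    ‖md ε y F (-1) c‖ ≤ δ * Real.exp (-(2 * Real.pi / ε * y)) := by
  have hε' : (ε : ℂ) ≠ 0 := by exact_mod_cast hε.ne'
  obtain ⟨a, ha⟩ : ∃ a : ℝ, a = y / ε := ⟨_, rfl⟩
  have haε : (ε : ℂ) * ((a : ℂ) * I) = y * I := by
    rw [ha]
    push_cast
    field_simp
  obtain ⟨E, hE⟩ : ∃ E : ℝ → ℂ, E = fun s : ℝ =>
      exp (-(2 * Real.pi * I * ((-1 : ℤ) : ℂ) * (s + (a : ℂ) * I))) := ⟨_, rfl⟩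
  have hEc : Continuous E := by
    rw [hE]
    fun_prop
  have hEn : ∀ s : ℝ, ‖E s‖ = Real.exp (-(2 * Real.pi / ε * y)) := by
    intro s
    rw [hE]
    simp only
    rw [Complex.norm_exp]
    congr 1
    rw [ha]
    simp
    ring
  have hE0 : ∫ s in (0 : ℝ)..1, E s = 0 := by
    have h1 : E = fun s : ℝ => exp (2 * Real.pi * I * ((a : ℂ) * I)) *
        exp (2 * Real.pi * I * (s : ℂ)) := by
      rw [hE]
      funext s
      rw [← Complex.exp_add]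
      congr 1
      push_cast
      ring
    have hpi : (2 * Real.pi * I : ℂ) ≠ 0 := Complex.two_pi_I_ne_zero
    rw [h1, intervalIntegral.integral_const_mul, integral_exp_mul_complex hpi]
    simp [Complex.exp_two_pi_mul_I]
  obtain ⟨f, hf⟩ : ∃ f : ℝ → ℂ, f = fun s : ℝ => F ((ε : ℂ) * s + y * I, c) := ⟨_, rfl⟩
  have hfc : ContinuousOn f (Icc 0 1) := by
    intro s hs
    rw [hf]
    have h1 : ContinuousAt (fun s : ℝ => (((ε : ℂ) * s + y * I, c) : ℂ × ℂ)) s := by fun_prop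
    exact (ContinuousAt.comp (f := fun s : ℝ => (((ε : ℂ) * s + y * I, c) : ℂ × ℂ))
      (hF s hs).continuousAt h1).continuousWithinAt
  have hmd : md ε y F (-1) c = ∫ s in (0 : ℝ)..1, f s * E s := by
    unfold md am fo
    refine intervalIntegral.integral_congr fun s _ => ?_
    rw [hf, hE]
    simp only [rs, ← ha]
    rw [mul_add, haε]
  have hi1 : IntervalIntegrable (fun s => f s * E s) MeasureTheory.volume 0 1 := by
    refine ContinuousOn.intervalIntegrable ?_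
    rw [uIcc_of_le zero_le_one]
    exact hfc.mul hEc.continuousOn
  have hi2 : IntervalIntegrable (fun s => v * E s) MeasureTheory.volume 0 1 :=
    (continuous_const.mul hEc).intervalIntegrable 0 1
  have h2 : md ε y F (-1) c = ∫ s in (0 : ℝ)..1, (f s - v) * E s := by
    have h3 : ∫ s in (0 : ℝ)..1, (f s - v) * E s =
        (∫ s in (0 : ℝ)..1, f s * E s) - ∫ s in (0 : ℝ)..1, v * E s := by
      rw [← intervalIntegral.integral_sub hi1 hi2]
      refine intervalIntegral.integral_congr fun s _ => ?_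
      exact sub_mul _ _ _
    rw [h3, intervalIntegral.integral_const_mul, hE0, mul_zero, sub_zero, hmd]
  rw [h2]
  have h3 := intervalIntegral.norm_integral_le_of_norm_le_const (a := 0) (b := 1)
    (f := fun s : ℝ => (f s - v) * E s) (C := δ * Real.exp (-(2 * Real.pi / ε * y)))
    (fun s hs => by
      rw [uIoc_of_le zero_le_one] at hs
      rw [norm_mul, hEn]
      refine mul_le_mul_of_nonneg_right ?_ (Real.exp_pos _).le
      rw [hf]
      exact h s ⟨hs.1.le, hs.2⟩)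
  rwa [sub_zero, abs_one, mul_one] at h3

end Pool.Agent.MP_ae5b4e_an_AZ
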