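import Pool.Agent.Lib.MP_ae5b4e_an_AZ.K3

/-!
# POR, (Z'): change of the exact families (one `n`)
-/

noncomputable section

namespace Pool.Agent.MP_ae5b4e_an_AZ

open Complex Set Filter Topology Metric
open Pool.Agent.MP_ae5b4e_an_A1
open Pool.Agent.MP_ae5b4e_an_BX (Rec)
open Pool.Agent.MP_ae5b4e_an_A3 (rs md Dfc osc_le Per_osc Per_zero)
open Pool.Agent.MP_ae5b4e_an_A4 (am Per SN)
open Pool.Agent.MP_ae5b4e_an_MERO (fo St fo_indep norm_fo_le hasSum_fo)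

private theorem K4_D {ε h κ r s η : ℝ} {c₀ : ℂ} {F : ℂ × ℂ → ℂ} (hε : 0 < ε) (hh : 0 < h)
    (hr : 0 < r) (hηh : 16 * η ≤ h) (hsη : 16 * s ≤ η)
    (hκ1 : 64 * κ ≤ 1) (hεh : 16 * ε ≤ h) (hF : Fn ε (-h) h κ (ball c₀ r) F)
    {Q Q' : ℂ × ℂ} (h1 : |Q.1.im + h / 4| ≤ s) (h2 : Q.2 ∈ ball c₀ (r / 2))
    (h1' : |Q'.1.im + h / 4| ≤ s) (h2' : Q'.2 ∈ ball c₀ (r / 2)) :
    ‖F Q - F Q'‖ ≤ Real.exp (-(2 * Real.pi / ε * (h / 4 + η / 2))) +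
      4 * κ / r * ‖Q.2 - Q'.2‖ := by
  have hsub : ball c₀ (r / 2) ⊆ ball c₀ r := ball_subset_ball (by linarith)
  have hsub' : ball c₀ (r / 2) ⊆ ball c₀ (3 / 4 * r) := ball_subset_ball (by linarith)
  have hy : (0 : ℝ) ∈ Ioo (-h) h := ⟨by linarith, hh⟩
  have hf : ∀ P : ℂ × ℂ, |P.1.im + h / 4| ≤ s → P.2 ∈ ball c₀ (r / 2) →
      ‖F P - md ε 0 F 0 P.2‖ ≤
        1 / 2 * Real.exp (-(2 * Real.pi / ε * (h / 4 + η / 2))) := by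
    intro P a1 a2
    have a3 := abs_le.mp a1
    have a4 := hF.flat0 hε (d := h / 2) (by linarith) (p := P) (hsub a2) (by linarith [a3.1])
      (by linarith [a3.2]) hy
    have a5 : Real.exp (-(2 * Real.pi / ε * (h / 2))) ≤
        Real.exp (-(2 * Real.pi / ε * (h / 4 + η / 2))) := by
      apply Real.exp_le_exp.mpr
      have a6 : 0 ≤ 2 * Real.pi / ε := by positivity
      have a7 : h / 4 + η / 2 ≤ h / 2 := by linarith
      linarith [mul_le_mul_of_nonneg_left a7 a6]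
    calc ‖F P - md ε 0 F 0 P.2‖ ≤ 4 * κ * Real.exp (-(2 * Real.pi / ε * (h / 2))) := a4
      _ ≤ 1 / 2 * Real.exp (-(2 * Real.pi / ε * (h / 2))) :=
        mul_le_mul_of_nonneg_right (by linarith) (Real.exp_pos _).le
      _ ≤ _ := mul_le_mul_of_nonneg_left a5 (by norm_num)
  have e1 := hf Q h1 h2
  have e2 := hf Q' h1' h2'
  have e3 := hF.md0_lip hε hr hy (hsub' h2) (hsub' h2')
  have e4 : F Q - F Q' = (F Q - md ε 0 F 0 Q.2) - (F Q' - md ε 0 F 0 Q'.2) +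
      (md ε 0 F 0 Q.2 - md ε 0 F 0 Q'.2) := by ring
  have e5 : ‖F Q - F Q'‖ ≤ ‖F Q - md ε 0 F 0 Q.2‖ + ‖F Q' - md ε 0 F 0 Q'.2‖ +
      ‖md ε 0 F 0 Q.2 - md ε 0 F 0 Q'.2‖ := by
    rw [e4]
    exact (norm_add_le _ _).trans (add_le_add (norm_sub_le _ _) le_rfl)
  linarith

private theorem K4_X {ε h κ r s η : ℝ} {c₀ : ℂ} {F : ℂ × ℂ → ℂ} (hε : 0 < ε) (hh : 0 < h)
    (hr : 0 < r) (hs : 0 < s) (hηh : 16 * η ≤ h) (hsη : 16 * s ≤ η)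
    (hκ1 : 64 * κ ≤ 1) (hεh : 16 * ε ≤ h) (hF : Fn ε (-h) (-s) κ (ball c₀ r) F) {y : ℝ}
    (hy : y ∈ Ioo (-h) (-s))
    (hm : ∀ c ∈ ball c₀ r, ‖md ε y F (-1) c‖ ≤ Real.exp (-(2 * Real.pi / ε * η)))
    {Q Q' : ℂ × ℂ} (h1 : |Q.1.im + h / 4| ≤ s) (h2 : Q.2 ∈ ball c₀ (r / 2))
    (h1' : |Q'.1.im + h / 4| ≤ s) (h2' : Q'.2 ∈ ball c₀ (r / 2)) :
    ‖F Q - F Q'‖ ≤ 4 * Real.exp (-(2 * Real.pi / ε * (h / 4 + η / 2))) +
      4 * κ / r * ‖Q.2 - Q'.2‖ := by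
  have hsub : ball c₀ (r / 2) ⊆ ball c₀ r := ball_subset_ball (by linarith)
  have hsub' : ball c₀ (r / 2) ⊆ ball c₀ (3 / 4 * r) := ball_subset_ball (by linarith)
  have hf : ∀ P : ℂ × ℂ, |P.1.im + h / 4| ≤ s → P.2 ∈ ball c₀ (r / 2) →
      ‖F P - md ε y F 0 P.2‖ ≤
        2 * Real.exp (-(2 * Real.pi / ε * (h / 4 + η / 2))) := by
    intro P a1 a2
    have a3 := abs_le.mp a1
    exact hF.flat hε (by linarith) (t := 0) (k := h / 4) (s := s) (η := η) hs (by linarith)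
      (by linarith) (by linarith) (by linarith) (p := P) (hsub a2) (by linarith [a3.1])
      (by linarith [a3.2]) hy (by
        rw [zero_add]
        exact hm _ (hsub a2))
  have e1 := hf Q h1 h2
  have e2 := hf Q' h1' h2'
  have e3 := hF.md0_lip hε hr hy (hsub' h2) (hsub' h2')
  have e4 : F Q - F Q' = (F Q - md ε y F 0 Q.2) - (F Q' - md ε y F 0 Q'.2) +
      (md ε y F 0 Q.2 - md ε y F 0 Q'.2) := by ring
  have e5 : ‖F Q - F Q'‖ ≤ ‖F Q - md ε y F 0 Q.2‖ + ‖F Q' - md ε y F 0 Q'.2‖ +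
      ‖md ε y F 0 Q.2 - md ε y F 0 Q'.2‖ := by
    rw [e4]
    exact (norm_add_le _ _).trans (add_le_add (norm_sub_le _ _) le_rfl)
  linarith

private theorem K4_mem {h κ r s : ℝ} {c₀ : ℂ} (hκs : κ ≤ s) (hκr : 64 * κ ≤ r) (hr : 0 < r)
    {q x : ℂ × ℂ} (hq1 : q.1.im = -(h / 4)) (hq2 : q.2 ∈ ball c₀ (r / 4)) (h1 : ‖x.1‖ ≤ κ)
    (h2 : ‖x.2‖ ≤ κ) : |(q + x).1.im + h / 4| ≤ s ∧ (q + x).2 ∈ ball c₀ (r / 2) := by
  constructor
  · have e1 : (q + x).1.im + h / 4 = x.1.im := by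
      rw [Prod.fst_add, Complex.add_im, hq1]
      ring
    rw [e1]
    exact ((Complex.abs_im_le_norm x.1).trans h1).trans hκs
  · rw [mem_ball, dist_eq_norm] at hq2 ⊢
    have e1 : (q + x).2 - c₀ = (q.2 - c₀) + x.2 := by
      rw [Prod.snd_add]
      ring
    rw [e1]
    have e2 := norm_add_le (q.2 - c₀) x.2
    linarith

/-- CHANGE OF THE EXACT FAMILIES. Level `0`, parameter ball `ball c₀ r`; `Dl, Dr` (deviations of the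
left and right families) over the heights `(-h, h)`, the kicks `X, X'` over `(-h, -s)`.

Proof. `k := h / 4`. For `q` with `Im q.1 = - k`, `q.2 = c ∈ ball c₀ (r / 4)`; `‖·‖` on `ℂ × ℂ` is the
maximum. Write `x ↦ x.2` for the second component, `δ₁ := exp (- 2 π (k + η / 2) / ε)`.
(1) `Dl.2, Dr.2` at the points `Q` with `|Im Q.1 + k| ≤ s`, `Q.2 ∈ ball c₀ (r / 2)`: `Fn.flat0` with
`d = h / 2`: `‖Dl.2 Q - md0 Q.2‖ ≤ 4 κ exp (- π h / ε) ≤ δ₁ / 2` (`h / 2 ≥ k + η / 2`, `κ ≤ 1 / 64`).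
(2) `X.2` at such `Q` (`κ ≤ s`): `Fn.flat` with `t = 0`, `y₂ = - s`: `‖X.2 Q - md0 Q.2‖ ≤ 2 δ₁`.
(3) two points `q, q'` with the same `c`: `‖Dl.2 q - Dl.2 q'‖ ≤ δ₁`;
`X.2 (q + Dl q) - X.2 (q' + Dl q')`: `≤ 4 δ₁ + ‖md0 (c + Dl.2 q) - md0 (c + Dl.2 q')‖ ≤ 4 δ₁ +
(4 κ / r) δ₁ ≤ 5 δ₁` (`md0_lip`); with `Q = q + X' q`: `‖Dr.2 Q - Dr.2 Q'‖ ≤ δ₁ + (4 κ / r) ‖X'.2 q - X'.2
q'‖ ≤ δ₁ + (1 / 2) ‖X'.2 q - X'.2 q'‖`. From the second component of `rel`: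
`‖X'.2 q - X'.2 q'‖ ≤ δ₁ + 5 δ₁ + δ₁ + (1 / 2) ‖..‖`, so `≤ 14 δ₁`.
(4) `md_osc` for `X'.2` at the height `- k`: `≤ 14 δ₁ exp (2 π k / ε) = 14 exp (- π η / ε)`; `md_indep`. -/
theorem flat_tra {ε h κ r s η : ℝ} {c₀ : ℂ} {Dl Dr X X' : ℂ × ℂ → ℂ × ℂ} (hε : 0 < ε) (hh : 0 < h)
    (hr : 0 < r) (hs : 0 < s) (hη : 0 < η) (hηh : 16 * η ≤ h) (hsη : 16 * s ≤ η) (hκs : κ ≤ s)
    (hκr : 64 * κ ≤ r) (hκ1 : 64 * κ ≤ 1) (hεh : 16 * ε ≤ h)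
    (hDl1 : Fn ε (-h) h κ (ball c₀ r) (fun p => (Dl p).1))
    (hDl2 : Fn ε (-h) h κ (ball c₀ r) (fun p => (Dl p).2))
    (hDr1 : Fn ε (-h) h κ (ball c₀ r) (fun p => (Dr p).1))
    (hDr2 : Fn ε (-h) h κ (ball c₀ r) (fun p => (Dr p).2))
    (hX1 : Fn ε (-h) (-s) κ (ball c₀ r) (fun p => (X p).1))
    (hX2 : Fn ε (-h) (-s) κ (ball c₀ r) (fun p => (X p).2))
    (hX'1 : Fn ε (-h) (-s) κ (ball c₀ r) (fun p => (X' p).1))
    (hX'2 : Fn ε (-h) (-s) κ (ball c₀ r) (fun p => (X' p).2))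
    (hrel : ∀ q : ℂ × ℂ, q.1.im = -(h / 4) → q.2 ∈ ball c₀ (r / 4) →
      X' q + Dr (q + X' q) = Dl q + X (q + Dl q)) {y y' : ℝ} (hy : y ∈ Ioo (-h) (-s))
    (hy' : y' ∈ Ioo (-h) (-s))
    (hm : ∀ c ∈ ball c₀ r, ‖md ε y (fun p => (X p).2) (-1) c‖ ≤
      Real.exp (-(2 * Real.pi / ε * η))) :
    ∀ c ∈ ball c₀ (r / 4), ‖md ε y' (fun p => (X' p).2) (-1) c‖ ≤
      14 * Real.exp (-(2 * Real.pi / ε * (η / 2))) := by
  intro c hc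
  have hsh : 256 * s ≤ h := by linarith
  have hsub : ball c₀ (r / 4) ⊆ ball c₀ r := ball_subset_ball (by linarith)
  have hc1 : c ∈ ball c₀ r := hsub hc
  have hk : -(h / 4) ∈ Ioo (-h) (-s) := ⟨by linarith, by linarith⟩
  have hκ4 : 4 * κ / r ≤ 1 / 16 := by
    rw [div_le_iff₀ hr]
    linarith
  obtain ⟨δ, hδ⟩ : ∃ δ : ℝ, δ = Real.exp (-(2 * Real.pi / ε * (h / 4 + η / 2))) := ⟨_, rfl⟩
  have hδ0 : 0 < δ := by
    rw [hδ]
    exact Real.exp_pos _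
  have key : ∀ q q' : ℂ × ℂ, q.1.im = -(h / 4) → q.2 = c → q'.1.im = -(h / 4) → q'.2 = c →
      ‖(X' q).2 - (X' q').2‖ ≤ 14 * δ := by
    intro q q' hq1 hq2 hq1' hq2'
    have m1 : q.2 ∈ ball c₀ (r / 4) := by
      rw [hq2]
      exact hc
    have m1' : q'.2 ∈ ball c₀ (r / 4) := by
      rw [hq2']
      exact hc
    have hin : ∀ p : ℂ × ℂ, p.1.im = -(h / 4) → -h < p.1.im ∧ p.1.im < h ∧ p.1.im < -s := by
      intro p hp
      rw [hp]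
      exact ⟨by linarith, by linarith, by linarith⟩
    have i1 := hin q hq1
    have i1' := hin q' hq1'
    have b1 := hDl1.bd q i1.1 i1.2.1 (hsub m1)
    have b2 := hDl2.bd q i1.1 i1.2.1 (hsub m1)
    have b1' := hDl1.bd q' i1'.1 i1'.2.1 (hsub m1')
    have b2' := hDl2.bd q' i1'.1 i1'.2.1 (hsub m1')
    have x1 := hX'1.bd q i1.1 i1.2.2 (hsub m1)
    have x2 := hX'2.bd q i1.1 i1.2.2 (hsub m1)
    have x1' := hX'1.bd q' i1'.1 i1'.2.2 (hsub m1')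
    have x2' := hX'2.bd q' i1'.1 i1'.2.2 (hsub m1')
    obtain ⟨u1, u2⟩ := K4_mem hκs hκr hr hq1 m1 b1 b2
    obtain ⟨u1', u2'⟩ := K4_mem hκs hκr hr hq1' m1' b1' b2'
    obtain ⟨v1, v2⟩ := K4_mem hκs hκr hr hq1 m1 x1 x2
    obtain ⟨v1', v2'⟩ := K4_mem hκs hκr hr hq1' m1' x1' x2'
    have hk0 : ∀ p : ℂ × ℂ, p.1.im = -(h / 4) → |p.1.im + h / 4| ≤ s := by
      intro p hp
      rw [hp, neg_add_cancel, abs_zero]
      exact hs.le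
    have hhalf : ball c₀ (r / 4) ⊆ ball c₀ (r / 2) := ball_subset_ball (by linarith)
    have g1 := K4_D hε hh hr hηh hsη hκ1 hεh hDl2 (hk0 q hq1) (hhalf m1) (hk0 q' hq1')
      (hhalf m1')
    have g2 := K4_X hε hh hr hs hηh hsη hκ1 hεh hX2 hy hm u1 u2 u1' u2'
    have g3 := K4_D hε hh hr hηh hsη hκ1 hεh hDr2 v1 v2 v1' v2'
    rw [← hδ] at g1 g2 g3
    have z1 : q.2 - q'.2 = 0 := by
      rw [hq2, hq2', sub_self]
    have z2 : (q + Dl q).2 - (q' + Dl q').2 = (Dl q).2 - (Dl q').2 := by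
      rw [Prod.snd_add, Prod.snd_add, hq2, hq2']
      ring
    have z3 : (q + X' q).2 - (q' + X' q').2 = (X' q).2 - (X' q').2 := by
      rw [Prod.snd_add, Prod.snd_add, hq2, hq2']
      ring
    rw [z1, norm_zero, mul_zero, add_zero] at g1
    rw [z2] at g2
    rw [z3] at g3
    have g2' : ‖(X (q + Dl q)).2 - (X (q' + Dl q')).2‖ ≤ 5 * δ := by
      have w1 : 4 * κ / r * ‖(Dl q).2 - (Dl q').2‖ ≤ 1 / 16 * δ :=
        mul_le_mul hκ4 g1 (norm_nonneg _) (by norm_num)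
      linarith
    have g3' : ‖(Dr (q + X' q)).2 - (Dr (q' + X' q')).2‖ ≤ δ +
        1 / 16 * ‖(X' q).2 - (X' q').2‖ := by
      have w1 : 4 * κ / r * ‖(X' q).2 - (X' q').2‖ ≤ 1 / 16 * ‖(X' q).2 - (X' q').2‖ :=
        mul_le_mul_of_nonneg_right hκ4 (norm_nonneg _)
      linarith
    have r1 := congrArg Prod.snd (hrel q hq1 m1)
    have r2 := congrArg Prod.snd (hrel q' hq1' m1')
    rw [Prod.snd_add, Prod.snd_add] at r1 r2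
    have r3 : (X' q).2 - (X' q').2 = ((Dl q).2 - (Dl q').2) +
        ((X (q + Dl q)).2 - (X (q' + Dl q')).2) -
        ((Dr (q + X' q)).2 - (Dr (q' + X' q')).2) := by
      linear_combination r1 - r2
    have r4 : ‖(X' q).2 - (X' q').2‖ ≤ ‖(Dl q).2 - (Dl q').2‖ +
        ‖(X (q + Dl q)).2 - (X (q' + Dl q')).2‖ +
        ‖(Dr (q + X' q)).2 - (Dr (q' + X' q')).2‖ := by
      rw [r3]
      exact (norm_sub_le _ _).trans (add_le_add (norm_add_le _ _) le_rfl)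
    linarith
  have hind := hX'2.md_indep hε hc1 hy' hk (-1)
  rw [hind]
  have hfin := md_osc (F := fun p => (X' p).2) hε (y := -(h / 4)) (δ := 14 * δ) (c := c)
    (v := (X' (((-(h / 4) : ℝ) : ℂ) * I, c)).2)
    (fun x _ => by
      refine hX'2.an _ ?_ ?_ hc1
      · simp
        linarith
      · simp
        linarith)
    (fun x _ => by
      refine key _ _ ?_ rfl ?_ rfl
      · simp
      · simp)
  refine hfin.trans (le_of_eq ?_)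
  rw [hδ, mul_assoc, ← Real.exp_add]
  congr 2
  ring

end Pool.Agent.MP_ae5b4e_an_AZ
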