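import Pool.Agent.Lib.MP_ae5b4e_an_AZ.K10a
import Pool.Agent.Lib.MP_ae5b4e_an_AZ.K4

/-!
# POR, (Z'): a deficient first mode does not depend on the exact families
-/

noncomputable section

namespace Pool.Agent.MP_ae5b4e_an_AZ

open Complex Set Filter Topology Metric
open Pool.Agent.MP_ae5b4e_an_A1
open Pool.Agent.MP_ae5b4e_an_BX (Rec)
open Pool.Agent.MP_ae5b4e_an_A3 (rs md Dfc osc_le Per_osc Per_zero)
open Pool.Agent.MP_ae5b4e_an_A4 (am Per SN)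
open Pool.Agent.MP_ae5b4e_an_MERO (fo St fo_indep norm_fo_le hasSum_fo)

variable {U : Ultrafilter ℕ} {ε : ℕ → ℝ} {M Ω : Set (ℂ × ℂ)} {g : ℂ × ℂ → ℂ × ℂ}
  {gn : ℕ → ℂ × ℂ → ℂ × ℂ} {z : ℂ × ℂ → ℂ × ℂ}

/-- TRANSFER. Proof. `tra_rel`. Let `hd` give the radius `ρ₁` and the constant `c₁`. `h' := h / 2`,
`r' := min (r / 2) (ρ₁ / 2)`, `η := min c₁ (h' / 16)`, `s := η / 16`, `κ := min s (min (r' / 64) (1 / 64))`. For
almost all `n` the eight `Fn` hypotheses of `flat_tra` (with `h', r', s, κ`) hold by `Pd.fn`, `16 ε ≤ h'`,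
the relation on `K := {-(h' / 4)} ×ˢ closedBall c₀ (r' / 4)`, and the bound of the first mode of `X` on
`ball c₀ r'` at the height `- h' / 2` (`Pd.fm_indep` moves the height). `flat_tra` gives
`‖fm ε (-h'/2) X' n c‖ ≤ 14 exp (- NN η / 2) ≤ exp (- (η / 4) NN)` for `NN` large (`NN_lim`), on
`ball c₀ (r' / 4)`; `Pd.fm_indep` moves the height to `y'`. -/
theorem tra (hV : VF U ε M g gn) (hz : Fw M g Ω z) {al ar h r : ℝ} (ha : al < ar) (hh : 0 < h)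
    (hr : 0 < r) {c₀ : ℂ} {Ol Or : Set (ℂ × ℂ)} (hOl : IsOpen Ol) (hOr : IsOpen Or) (hOlΩ : Ol ⊆ Ω)
    (hOrΩ : Or ⊆ Ω) {Zl Zl' Zr Zr' X X' : ℕ → ℂ × ℂ → ℂ × ℂ} (el : Ex U ε gn Ol z Zl)
    (el' : Ex U ε gn Ol z Zl') (er : Ex U ε gn Or z Zr) (er' : Ex U ε gn Or z Zr')
    (bl : ∀ y : ℝ, |y| < h → ∀ c ∈ ball c₀ r, ((⟨al, y⟩ : ℂ), c) ∈ Ol)
    (br : ∀ y : ℝ, |y| < h → ∀ c ∈ ball c₀ r, ((⟨ar, y⟩ : ℂ), c) ∈ Or)
    (hX : Kk U ε gn al ar (Ioo (-h) 0 ×ˢ ball c₀ r) Zl Zr X)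
    (hX' : Kk U ε gn al ar (Ioo (-h) 0 ×ˢ ball c₀ r) Zl' Zr' X') {y y' : ℝ}
    (hy : y ∈ Ioo (-h) 0) (hy' : y' ∈ Ioo (-h) 0) (hd : DefAt U (NN ε) (fm ε y X) c₀) :
    DefAt U (NN ε) (fm ε y' X') c₀ := by
  obtain ⟨Dl, Dr, pDl, pDr, rel⟩ :=
    tra_rel hV hz ha hh hr hOl hOr hOlΩ hOrΩ el el' er er' bl br hX hX'
  obtain ⟨ρ₁, hρ₁, c₁, hc₁, hd⟩ := hd
  obtain ⟨h', hh'⟩ : ∃ h' : ℝ, h' = h / 2 := ⟨_, rfl⟩
  have h'0 : 0 < h' := by rw [hh']; positivity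
  obtain ⟨r', hr'⟩ : ∃ r' : ℝ, r' = min (r / 2) (ρ₁ / 2) := ⟨_, rfl⟩
  have r'0 : 0 < r' := by rw [hr']; positivity
  have r'r : r' < r := by
    rw [hr']; exact (min_le_left _ _).trans_lt (by linarith)
  have r'ρ : r' < ρ₁ := by
    rw [hr']; exact (min_le_right _ _).trans_lt (by linarith)
  obtain ⟨η, hη⟩ : ∃ η : ℝ, η = min c₁ (h' / 16) := ⟨_, rfl⟩
  have η0 : 0 < η := by rw [hη]; positivity
  have ηc : η ≤ c₁ := by rw [hη]; exact min_le_left _ _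
  have ηh : 16 * η ≤ h' := by
    have : η ≤ h' / 16 := by rw [hη]; exact min_le_right _ _
    linarith
  obtain ⟨s, hs⟩ : ∃ s : ℝ, s = η / 16 := ⟨_, rfl⟩
  have s0 : 0 < s := by rw [hs]; positivity
  have sη : 16 * s ≤ η := by rw [hs]; linarith
  obtain ⟨κ, hκ⟩ : ∃ κ : ℝ, κ = min s (min (r' / 64) (1 / 64)) := ⟨_, rfl⟩
  have κ0 : 0 < κ := by rw [hκ]; positivity
  have κs : κ ≤ s := by rw [hκ]; exact min_le_left _ _
  have κr : 64 * κ ≤ r' := by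
    have : κ ≤ r' / 64 := by rw [hκ]; exact (min_le_right _ _).trans (min_le_left _ _)
    linarith
  have κ1 : 64 * κ ≤ 1 := by
    have : κ ≤ 1 / 64 := by rw [hκ]; exact (min_le_right _ _).trans (min_le_right _ _)
    linarith
  have h0 := hV.ε_pos
  obtain ⟨y₀, hy₀⟩ : ∃ y₀ : ℝ, y₀ = -(h' / 2) := ⟨_, rfl⟩
  have y₀m : y₀ ∈ Ioo (-h') (-s) := ⟨by rw [hy₀]; linarith, by rw [hy₀]; linarith⟩
  -- membership of the radii
  have cb : closedBall c₀ r' ⊆ ball c₀ r := closedBall_subset_ball r'r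
  have RD : ∀ v ∈ Icc (-h') h', ∀ c ∈ closedBall c₀ r', (v, c) ∈ Ioo (-h) h ×ˢ ball c₀ r := by
    intro v hv c hc
    exact ⟨⟨by linarith [hv.1], by linarith [hv.2]⟩, cb hc⟩
  have RX : ∀ v ∈ Icc (-h') (-s), ∀ c ∈ closedBall c₀ r', (v, c) ∈ Ioo (-h) 0 ×ˢ ball c₀ r := by
    intro v hv c hc
    exact ⟨⟨by linarith [hv.1], by linarith [hv.2]⟩, cb hc⟩
  -- moving the heights
  have mv : ∀ {Y : ℕ → ℂ × ℂ → ℂ × ℂ}, Pd U ε (Ioo (-h) 0 ×ˢ ball c₀ r) Y → ∀ {v w : ℝ},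
      v ∈ Ioo (-h) 0 → w ∈ Ioo (-h) 0 →
      ∀ᶠ n in (U : Filter ℕ), ∀ c ∈ ball c₀ r', fm ε v Y n c = fm ε w Y n c := by
    intro Y hY v w hv hw
    have q1 : -h < min v w := lt_min hv.1 hw.1
    have q2 : max v w < 0 := max_lt hv.2 hw.2
    have q3 : min v w ≤ v := min_le_left _ _
    have q4 : min v w ≤ w := min_le_right _ _
    have q5 : v ≤ max v w := le_max_left _ _
    have q6 : w ≤ max v w := le_max_right _ _
    refine hY.fm_indep h0 (y₁ := (min v w - h) / 2) (y₂ := max v w / 2) (r := r')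
      ⟨by linarith, by linarith⟩ ⟨by linarith, by linarith⟩ ?_
    intro u hu c hc
    exact ⟨⟨by linarith [hu.1], by linarith [hu.2]⟩, cb hc⟩
  have y₀0 : y₀ ∈ Ioo (-h) 0 := ⟨by rw [hy₀]; linarith, by rw [hy₀]; linarith⟩
  have eε : ∀ᶠ n in (U : Filter ℕ), 16 * ε n ≤ h' := by
    have : ∀ᶠ n in (U : Filter ℕ), ε n < h' / 16 :=
      hV.ε_lim.eventually (gt_mem_nhds (by positivity))
    filter_upwards [this] with n hn
    linarith
  have eN : ∀ᶠ n in (U : Filter ℕ), Real.log 14 * (4 / η) ≤ NN ε n :=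
    (NN_lim h0 hV.ε_lim).eventually (eventually_ge_atTop _)
  have eR := rel ({(-(h' / 4) : ℝ)} ×ˢ closedBall c₀ (r' / 4))
    (by
      rintro ⟨v, c⟩ ⟨hv, hc⟩
      rw [mem_singleton_iff] at hv
      simp only at hv hc
      refine ⟨⟨?_, ?_⟩, cb (closedBall_subset_closedBall (by linarith) hc)⟩
      · show -h < v
        rw [hv]; linarith
      · show v < 0
        rw [hv]; linarith)
    (isCompact_singleton.prod (isCompact_closedBall _ _))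
  refine ⟨r' / 4, by positivity, η / 4, by positivity, ?_⟩
  filter_upwards [hd, pDl.fn κ0 RD, pDr.fn κ0 RD, hX.pd.fn κ0 RX, hX'.pd.fn κ0 RX, eε, eN, eR,
    mv hX.pd hy y₀0, mv hX'.pd hy' y₀0] with n n1 n2 n3 n4 n5 n6 n7 n8 n9 n10 c hc
  have hcr : c ∈ ball c₀ r' := ball_subset_ball (by linarith) hc
  have key := flat_tra (h0 n) h'0 r'0 s0 η0 ηh sη κs κr κ1 n6 n2.1 n2.2 n3.1 n3.2 n4.1 n4.2 n5.1
    n5.2 (fun q q1 q2 => n8 q (by
      show (q.1.im, q.2) ∈ _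
      refine ⟨?_, ?_⟩
      · show q.1.im ∈ ({(-(h' / 4) : ℝ)} : Set ℝ)
        rw [q1]; rfl
      · exact ball_subset_closedBall q2)) y₀m y₀m
    (fun w hw => by
      have := n1 w (ball_subset_ball r'ρ.le hw)
      rw [n9 w hw] at this
      refine (this : ‖md (ε n) y₀ (fun p => (X n p).2) (-1) w‖ ≤ _).trans ?_
      refine Real.exp_le_exp.2 (neg_le_neg ?_)
      rw [mul_comm c₁]
      exact mul_le_mul_of_nonneg_left ηc (NN_pos h0 n).le) c hc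
  rw [n10 c hcr]
  refine (show ‖fm ε y₀ X' n c‖ ≤ 14 * Real.exp (-(NN ε n * (η / 2))) from key).trans ?_
  have h14 : (14 : ℝ) = Real.exp (Real.log 14) := (Real.exp_log (by norm_num)).symm
  rw [h14, ← Real.exp_add]
  refine Real.exp_le_exp.2 ?_
  have h15 : Real.log 14 ≤ NN ε n * (η / 4) := by
    have := mul_le_mul_of_nonneg_right n7 (by positivity : (0 : ℝ) ≤ η / 4)
    have e : Real.log 14 * (4 / η) * (η / 4) = Real.log 14 := by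
      field_simp
    linarith
  have e2 : NN ε n * (η / 2) = NN ε n * (η / 4) + η / 4 * NN ε n := by ring
  linarith

end Pool.Agent.MP_ae5b4e_an_AZ
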