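import Pool.Agent.Lib.MP_ae5b4e_an_AZ.KDefs
import Pool.Agent.Lib.MP_ae5b4e_an_A1.PassF

/-!
# POR, (Z'): periodic deviations of a change of coordinates
-/

noncomputable section

namespace Pool.Agent.MP_ae5b4e_an_AZ

open Complex Set Filter Topology Metric
open Pool.Agent.MP_ae5b4e_an_A1
open Pool.Agent.MP_ae5b4e_an_BX (Rec)
open Pool.Agent.MP_ae5b4e_an_A3 (rs md Dfc osc_le Per_osc Per_zero)
open Pool.Agent.MP_ae5b4e_an_A4 (am Per SN)
open Pool.Agent.MP_ae5b4e_an_MERO (fo St fo_indep norm_fo_le hasSum_fo)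

variable {U : Ultrafilter ℕ} {ε : ℕ → ℝ} {M Ω : Set (ℂ × ℂ)} {g : ℂ × ℂ → ℂ × ℂ}
  {gn : ℕ → ℂ × ℂ → ℂ × ℂ} {z : ℂ × ℂ → ℂ × ℂ}

private theorem K7_def (ε a : ℝ) (D : ℂ × ℂ → ℂ × ℂ) (p : ℂ × ℂ) :
    pe ε a D p = D (tr ((-((round ((p.1.re - a) / ε) : ℤ) * ε) : ℝ) : ℂ) p) := by
  rw [ofReal_neg]
  rfl

private theorem K7_core {O : Set (ℂ × ℂ)} (hO : IsOpen O) {a : ℝ} {R : Set (ℝ × ℂ)}
    (hR : ∀ x ∈ R, ((⟨a, x.1⟩ : ℂ), x.2) ∈ O) {K : Set (ℝ × ℂ)} (hK : K ⊆ R)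
    (hKc : IsCompact K) : ∃ (d : ℝ) (T : Set (ℝ × ℂ)) (C : Set (ℂ × ℂ)), 0 < d ∧ IsOpen T ∧
      K ⊆ T ∧ IsCompact C ∧ C ⊆ O ∧
      ∀ p : ℂ × ℂ, |p.1.re - a| ≤ d → (p.1.im, p.2) ∈ T → p ∈ C := by
  have hj : Continuous fun x : ℝ × ℂ => (((a : ℂ) + (x.1 : ℂ) * I, x.2) : ℂ × ℂ) := by fun_prop
  have hC : IsCompact ((fun x : ℝ × ℂ => (((a : ℂ) + (x.1 : ℂ) * I, x.2) : ℂ × ℂ)) '' K) :=
    hKc.image hj
  have hCO : (fun x : ℝ × ℂ => (((a : ℂ) + (x.1 : ℂ) * I, x.2) : ℂ × ℂ)) '' K ⊆ O := by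
    rintro _ ⟨x, hx, rfl⟩
    have h1 := hR x (hK hx)
    have h2 : (⟨a, x.1⟩ : ℂ) = (a : ℂ) + (x.1 : ℂ) * I := by
      apply Complex.ext
      · simp
      · simp
    rw [h2] at h1
    exact h1
  obtain ⟨d, hd, hdO⟩ := hC.exists_cthickening_subset_open hO hCO
  refine ⟨d / 2, thickening (d / 2) K, _, by positivity, isOpen_thickening,
    self_subset_thickening (by positivity) K, hC.cthickening, hdO, ?_⟩
  intro p hp hT
  obtain ⟨x, hx, hpx⟩ := mem_thickening_iff.1 hT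
  rw [Prod.dist_eq, max_lt_iff] at hpx
  obtain ⟨h1, h2⟩ := hpx
  refine mem_cthickening_of_dist_le p (((a : ℂ) + (x.1 : ℂ) * I, x.2) : ℂ × ℂ) d _
    ⟨x, hx, rfl⟩ ?_
  rw [Prod.dist_eq]
  refine max_le ?_ ?_
  · rw [dist_eq_norm]
    refine (Complex.norm_le_abs_re_add_abs_im _).trans ?_
    have e1 : (p.1 - ((a : ℂ) + (x.1 : ℂ) * I)).re = p.1.re - a := by simp
    have e2 : (p.1 - ((a : ℂ) + (x.1 : ℂ) * I)).im = p.1.im - x.1 := by simp
    change |(p.1 - ((a : ℂ) + (x.1 : ℂ) * I)).re| + |(p.1 - ((a : ℂ) + (x.1 : ℂ) * I)).im| ≤ d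
    rw [e1, e2]
    rw [Real.dist_eq] at h1
    change |p.1.im - x.1| < d / 2 at h1
    linarith
  · change dist p.2 x.2 ≤ d
    change dist p.2 x.2 < d / 2 at h2
    linarith

/-- PERIODIC DEVIATIONS. Proof. `per`: `pe_tr`. Let `K ⊆ R` be compact; `Kc := {p | p.1.re = a ∧ pc p ∈ K}`
is compact (image of `K` under `(y, c) ↦ (a + i y, c)`) and `⊆ O`: `d > 0` with
`cthickening d Kc ⊆ O`, compact. For almost all `n`: `F n` is analytic, `F n (tr ε p) = tr ε (F n p)` and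
`‖F n p - p‖ ≤ δ` on it, and `ε n ≤ d / 4`. `pe_an` with `T := thickening (d / 2) K` (in `ℝ × ℂ`): a point `p`
with `|p.1.re - a| ≤ ε n` and `pc p ∈ T` is in `cthickening d Kc` (the norms are maxima); the deviation
`F n p - p` is periodic there. The bound: `pe` at `p` is the value of the deviation at a reduced
point (`pe_red`). The last clause with `w := d / 2`: `pe_eq`. Compare `A1.Cr.dev` (A1/Pe.lean). -/
theorem Cr_pd (h0 : ∀ n, 0 < ε n) (h1 : Tendsto ε U (𝓝 0)) {O : Set (ℂ × ℂ)} (hO : IsOpen O)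
    {F : ℕ → ℂ × ℂ → ℂ × ℂ} (hF : Cr U ε O F) {a : ℝ} {R : Set (ℝ × ℂ)}
    (hR : ∀ x ∈ R, ((⟨a, x.1⟩ : ℂ), x.2) ∈ O) :
    Pd U ε R (fun n => pe (ε n) a fun p => F n p - p) ∧
      ∀ K ⊆ R, IsCompact K → ∃ w : ℝ, 0 < w ∧ ∀ᶠ n in (U : Filter ℕ), ∀ p : ℂ × ℂ, pc p ∈ K →
        |p.1.re - a| ≤ w → F n p = p + pe (ε n) a (fun p => F n p - p) p := by
  have key : ∀ K ⊆ R, IsCompact K → ∃ d : ℝ, 0 < d ∧ ∀ δ : ℝ, 0 < δ → ∀ᶠ n in (U : Filter ℕ),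
      ∀ p : ℂ × ℂ, pc p ∈ K → AnalyticAt ℂ (pe (ε n) a fun p => F n p - p) p ∧
        ‖pe (ε n) a (fun p => F n p - p) p‖ ≤ δ ∧
        (|p.1.re - a| ≤ d → F n p = p + pe (ε n) a (fun p => F n p - p) p) := by
    intro K hK hKc
    obtain ⟨d, T, C, hd, hT, hKT, hC, hCO, hmem⟩ := K7_core hO hR hK hKc
    refine ⟨d, hd, fun δ hδ => ?_⟩
    have hε : ∀ᶠ n in (U : Filter ℕ), ε n < d := h1.eventually_lt_const hd
    filter_upwards [hε, hF.an _ hCO hC, hF.eq _ hCO hC, hF.lim _ hCO hC δ hδ]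
      with n n1 n2 n3 n4 p hp
    have hn := h0 n
    have hp' : (p.1.im, p.2) ∈ T := hKT hp
    have hD : ∀ p ∈ C, (fun p => F n p - p) (tr (ε n) p) = (fun p => F n p - p) p := by
      intro p hp
      change F n (tr (ε n) p) - tr (ε n) p = F n p - p
      rw [n3 p hp, tr_sub]
    refine ⟨?_, ?_, ?_⟩
    · refine pe_an hn hT (fun q hq1 hq2 => ?_) (fun q hq1 hq2 => ?_) p hp'
      · exact (n2 q (hmem q (by linarith) hq2)).sub analyticAt_id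
      · exact hD q (hmem q (by linarith) hq2)
    · rw [K7_def]
      refine n4 _ (hmem _ ?_ ?_)
      · have h2 := pe_red hn a p.1.re
        rw [tr_fst, add_re, ofReal_re]
        have e : p.1.re + -((round ((p.1.re - a) / ε n) : ℤ) * ε n) - a =
            p.1.re - (round ((p.1.re - a) / ε n) : ℤ) * ε n - a := by ring
        rw [e]
        linarith
      · rw [tr_fst, add_im, ofReal_im, add_zero]
        exact hp'
    · intro hpw
      have h2 := pe_eq (D := fun p => F n p - p) hn n1.le hpw (fun q hq1 hq2 hq3 => by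
        refine hD q (hmem q hq1 ?_)
        rw [hq2, hq3]
        exact hp')
      rw [h2]
      change F n p = p + (F n p - p)
      abel
  refine ⟨⟨fun n p => pe_tr (h0 n) a _ p, ?_, ?_⟩, ?_⟩
  · intro K hK hKc
    obtain ⟨d, -, h⟩ := key K hK hKc
    filter_upwards [h 1 one_pos] with n hn p hp
    exact (hn p hp).1
  · intro K hK hKc δ hδ
    obtain ⟨d, -, h⟩ := key K hK hKc
    filter_upwards [h δ hδ] with n hn p hp
    exact (hn p hp).2.1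
  · intro K hK hKc
    obtain ⟨d, hd, h⟩ := key K hK hKc
    refine ⟨d, hd, ?_⟩
    filter_upwards [h 1 one_pos] with n hn p hp hpw
    exact (hn p hp).2.2 hpw

end Pool.Agent.MP_ae5b4e_an_AZ
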