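import Pool.Agent.Lib.MP_ae5b4e_an_AZ.K5
import Pool.Agent.Lib.MP_ae5b4e_an_AZ.K7

/-!
# POR, (Z'): the relation of the kicks for two pairs of exact families
-/

noncomputable section

namespace Pool.Agent.MP_ae5b4e_an_AZ

open Complex Set Filter Topology Metric
open Pool.Agent.MP_ae5b4e_an_A1
open Pool.Agent.MP_ae5b4e_an_BX (Rec)
open Pool.Agent.MP_ae5b4e_an_A3 (rs md Dfc osc_le Per_osc Per_zero)
open Pool.Agent.MP_ae5b4e_an_A4 (am Per SN)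
open Pool.Agent.MP_ae5b4e_an_MERO (fo St fo_indep norm_fo_le hasSum_fo)

variable {U : Ultrafilter ℕ} {ε : ℕ → ℝ} {M Ω : Set (ℂ × ℂ)} {g : ℂ × ℂ → ℂ × ℂ}
  {gn : ℕ → ℂ × ℂ → ℂ × ℂ} {z : ℂ × ℂ → ℂ × ℂ}

private theorem K10a_per {f : ℂ × ℂ → ℂ × ℂ} {e : ℝ} (hf : ∀ p, f (tr (e : ℂ) p) = f p) (k : ℤ)
    (p : ℂ × ℂ) : f (tr ((k * e : ℝ) : ℂ) p) = f p := by
  induction k using Int.induction_on with
  | zero =>
    rw [Int.cast_zero, zero_mul, ofReal_zero, tr_zero]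
  | succ n ih =>
    have h : tr ((((n : ℤ) + 1 : ℤ) * e : ℝ) : ℂ) p = tr (e : ℂ) (tr (((n : ℤ) * e : ℝ) : ℂ) p) := by
      rw [tr_tr]
      congr 1
      push_cast
      ring
    rw [h, hf, ih]
  | pred n ih =>
    have h : tr (e : ℂ) (tr (((-(n : ℤ) - 1 : ℤ) * e : ℝ) : ℂ) p) =
        tr (((-(n : ℤ) : ℤ) * e : ℝ) : ℂ) p := by
      rw [tr_tr]
      congr 1
      push_cast
      ring
    rw [← hf, h, ih]

private theorem K10a_tr_add (t : ℂ) (q v : ℂ × ℂ) : tr t (q + v) = tr t q + v := by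
  ext
  · simp only [tr_fst, Prod.fst_add]
    ring
  · simp only [tr_snd, Prod.snd_add]

private theorem K10a_pc {K : Set (ℝ × ℂ)} {q v : ℂ × ℂ} {δ : ℝ} (hq : pc q ∈ K) (hv : ‖v‖ ≤ δ) :
    pc (q + v) ∈ cthickening δ K := by
  refine mem_cthickening_of_dist_le _ (pc q) δ K hq ?_
  rw [dist_eq_norm]
  refine le_trans ?_ hv
  have h : pc (q + v) - pc q = (v.1.im, v.2) := by
    ext
    · simp [pc]
    · simp [pc]
  rw [h, Prod.norm_def, Prod.norm_def]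
  exact max_le_max (Complex.abs_im_le_norm v.1) le_rfl

private def K10a_box (a w : ℝ) (S : Set (ℝ × ℂ)) : Set (ℂ × ℂ) :=
  {p | |p.1.re - a| ≤ w ∧ pc p ∈ S}

private theorem K10a_cpt (a w : ℝ) {S : Set (ℝ × ℂ)} (hS : IsCompact S) :
    IsCompact (K10a_box a w S) := by
  have h : K10a_box a w S = (fun y : ℝ × (ℝ × ℂ) => ((y.1 : ℂ) + (y.2.1 : ℂ) * I, y.2.2)) ''
      (Icc (a - w) (a + w) ×ˢ S) := by
    ext p
    constructor
    · rintro ⟨h1, h2⟩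
      obtain ⟨h3, h4⟩ := abs_le.1 h1
      refine ⟨(p.1.re, pc p), ⟨⟨by linarith, by linarith⟩, h2⟩, ?_⟩
      exact Prod.ext (Complex.re_add_im p.1) rfl
    · rintro ⟨⟨s, x⟩, ⟨⟨h1, h2⟩, h3⟩, rfl⟩
      constructor
      · simp only [add_re, ofReal_re, mul_re, I_re, mul_zero, ofReal_im, I_im, mul_one, sub_self,
          add_zero]
        rw [abs_le]
        exact ⟨by linarith, by linarith⟩
      · have h4 : pc ((s : ℂ) + (x.1 : ℂ) * I, x.2) = x := by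
          simp [pc]
        show pc ((s : ℂ) + (x.1 : ℂ) * I, x.2) ∈ S
        rw [h4]
        exact h3
  rw [h]
  exact (isCompact_Icc.prod hS).image (by fun_prop)

private theorem K10a_sub {a : ℝ} {S : Set (ℝ × ℂ)} (hS : IsCompact S) {O : Set (ℂ × ℂ)}
    (hO : IsOpen O) (h : ∀ x ∈ S, ((⟨a, x.1⟩ : ℂ), x.2) ∈ O) :
    ∃ w : ℝ, 0 < w ∧ K10a_box a w S ⊆ O := by
  have h1 : K10a_box a 0 S ⊆ O := by
    rintro p ⟨h2, h3⟩
    have h4 : p.1.re = a := by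
      have := abs_nonpos_iff.1 h2
      linarith
    have h5 := h _ h3
    have h6 : ((⟨a, (pc p).1⟩ : ℂ), (pc p).2) = p := by
      refine Prod.ext (Complex.ext h4.symm rfl) rfl
    rwa [h6] at h5
  obtain ⟨w, hw, hsub⟩ := (K10a_cpt a 0 hS).exists_cthickening_subset_open hO h1
  refine ⟨w, hw, fun p hp => hsub ?_⟩
  refine mem_cthickening_of_dist_le p ((⟨a, p.1.im⟩ : ℂ), p.2) w _ ⟨?_, hp.2⟩ ?_
  · simp
  · rw [Prod.dist_eq, dist_self, dist_eq_norm]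
    have h2 : p.1 - (⟨a, p.1.im⟩ : ℂ) = ((p.1.re - a : ℝ) : ℂ) := by
      apply Complex.ext
      · simp
      · simp
    rw [h2, Complex.norm_real, Real.norm_eq_abs]
    exact max_le hp.1 hw.le

/-- The relation of the two kicks. Proof. `coord` on `Ol`, `Or`: `Fl, Fr` with `Zl (Fl p) = Zl' p`,
`Zr (Fr p) = Zr' p` on compact subsets; `Dl := pe (ε n) al (Fl - id)`, `Dr := pe (ε n) ar (Fr - id)` (`Cr_pd`).
Let `K` be a compact subset of `{(y, c) | -h < y < 0, c ∈ ball c₀ r}`, `K'` a compact neighbourhood of `K` in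
this set. For almost all `n` and `q` with `pc q ∈ K`, `|q.1.re - al| ≤ w` (small): choose `m` with
`q.1.re + m ε ∈ [ar + w / 2, ar + w / 2 + ε]` (`al < ar`). Then
`Zr (Fr (tr (m ε) q + X' q)) = Zr' (tr (m ε) q + X' q) = Φ^[m] (Zl' q) = Φ^[m] (Zl (q + Dl q)) =
Zr (tr (m ε) (q + Dl q) + X (q + Dl q))` (`hX'.rel` for `K`, `hX.rel` for `K'`), and
`Fr (P) = P + Dr P` for `P = tr (m ε) q + X' q` (near the abscissa `ar`), `Dr P = Dr (q + X' q)` by periodicity.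
`Ex.uniq` on a compact neighbourhood of `{p | p.1.re = ar ∧ pc p ∈ K}` in `Or` which contains
`tr (m ε) q` (`w` small; all arguments are within `4 κ` of `tr (m ε) q`): the arguments are equal,
subtract `tr (m ε) q`. For all other `q`: both sides are
`ε`-periodic functions of `q`. -/
theorem tra_rel (hV : VF U ε M g gn) (hz : Fw M g Ω z) {al ar h r : ℝ} (ha : al < ar) (hh : 0 < h)
    (hr : 0 < r) {c₀ : ℂ} {Ol Or : Set (ℂ × ℂ)} (hOl : IsOpen Ol) (hOr : IsOpen Or) (hOlΩ : Ol ⊆ Ω)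
    (hOrΩ : Or ⊆ Ω) {Zl Zl' Zr Zr' X X' : ℕ → ℂ × ℂ → ℂ × ℂ} (el : Ex U ε gn Ol z Zl)
    (el' : Ex U ε gn Ol z Zl') (er : Ex U ε gn Or z Zr) (er' : Ex U ε gn Or z Zr')
    (bl : ∀ y : ℝ, |y| < h → ∀ c ∈ ball c₀ r, ((⟨al, y⟩ : ℂ), c) ∈ Ol)
    (br : ∀ y : ℝ, |y| < h → ∀ c ∈ ball c₀ r, ((⟨ar, y⟩ : ℂ), c) ∈ Or)
    (hX : Kk U ε gn al ar (Ioo (-h) 0 ×ˢ ball c₀ r) Zl Zr X)
    (hX' : Kk U ε gn al ar (Ioo (-h) 0 ×ˢ ball c₀ r) Zl' Zr' X') :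
    ∃ Dl Dr : ℕ → ℂ × ℂ → ℂ × ℂ, Pd U ε (Ioo (-h) h ×ˢ ball c₀ r) Dl ∧
      Pd U ε (Ioo (-h) h ×ˢ ball c₀ r) Dr ∧ ∀ K ⊆ Ioo (-h) 0 ×ˢ ball c₀ r, IsCompact K →
        ∀ᶠ n in (U : Filter ℕ), ∀ q, pc q ∈ K →
          X' n q + Dr n (q + X' n q) = Dl n q + X n (q + Dl n q) := by
  obtain ⟨Fl, cFl, rFl⟩ := coord hV hz hOl hOlΩ el el'
  obtain ⟨Fr, cFr, rFr⟩ := coord hV hz hOr hOrΩ er er'
  have hRl : ∀ x ∈ Ioo (-h) h ×ˢ ball c₀ r, ((⟨al, x.1⟩ : ℂ), x.2) ∈ Ol :=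
    fun x hx => bl x.1 (abs_lt.2 hx.1) x.2 hx.2
  have hRr : ∀ x ∈ Ioo (-h) h ×ˢ ball c₀ r, ((⟨ar, x.1⟩ : ℂ), x.2) ∈ Or :=
    fun x hx => br x.1 (abs_lt.2 hx.1) x.2 hx.2
  obtain ⟨pdl, eql⟩ := Cr_pd hV.ε_pos hV.ε_lim hOl cFl hRl
  obtain ⟨pdr, eqr⟩ := Cr_pd hV.ε_pos hV.ε_lim hOr cFr hRr
  refine ⟨_, _, pdl, pdr, ?_⟩
  obtain ⟨Dl, hDl⟩ : ∃ Dl : ℕ → ℂ × ℂ → ℂ × ℂ,
      Dl = fun n => pe (ε n) al fun p => Fl n p - p := ⟨_, rfl⟩
  obtain ⟨Dr, hDr⟩ : ∃ Dr : ℕ → ℂ × ℂ → ℂ × ℂ,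
      Dr = fun n => pe (ε n) ar fun p => Fr n p - p := ⟨_, rfl⟩
  have hDl' : ∀ n, pe (ε n) al (fun p => Fl n p - p) = Dl n := fun n => by rw [hDl]
  have hDr' : ∀ n, pe (ε n) ar (fun p => Fr n p - p) = Dr n := fun n => by rw [hDr]
  rw [← hDl] at pdl
  rw [← hDr] at pdr
  simp only [hDl'] at eql ⊢
  simp only [hDr'] at eqr ⊢
  clear hDl hDr hDl' hDr'
  intro K hK hKc
  have hRo : IsOpen (Ioo (-h) 0 ×ˢ ball c₀ r : Set (ℝ × ℂ)) := isOpen_Ioo.prod isOpen_ball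
  obtain ⟨δ, hδ, hδR⟩ := hKc.exists_cthickening_subset_open hRo hK
  obtain ⟨K', hK'⟩ : ∃ K' : Set (ℝ × ℂ), K' = cthickening δ K := ⟨_, rfl⟩
  have hK'c : IsCompact K' := by
    rw [hK']
    exact hKc.cthickening
  have hKK' : K ⊆ K' := by
    rw [hK']
    exact self_subset_cthickening K
  have hK'R : K' ⊆ Ioo (-h) 0 ×ˢ ball c₀ r := by
    rw [hK']
    exact hδR
  have hRR : Ioo (-h) 0 ×ˢ ball c₀ r ⊆ Ioo (-h) h ×ˢ ball c₀ r :=
    prod_mono (Ioo_subset_Ioo_right hh.le) le_rfl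
  have hadd : ∀ q v : ℂ × ℂ, pc q ∈ K → ‖v‖ ≤ δ → pc (q + v) ∈ K' := by
    intro q v hq hv
    rw [hK']
    exact K10a_pc hq hv
  obtain ⟨w1, hw1, ev1⟩ := hX'.rel K hK hKc
  obtain ⟨w2, hw2, ev2⟩ := hX.rel K' hK'R hK'c
  obtain ⟨w3, hw3, ev3⟩ := eql K (hK.trans hRR) hKc
  obtain ⟨w4, hw4, ev4⟩ := eqr K' (hK'R.trans hRR) hK'c
  obtain ⟨w5, hw5, sub5⟩ := K10a_sub hKc hOl fun x hx => hRl x (hRR (hK hx))
  obtain ⟨w6, hw6, sub6⟩ := K10a_sub hK'c hOr fun x hx => hRr x (hRR (hK'R hx))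
  obtain ⟨r7, hr7, ev7⟩ := er.uniq hz hOr hOrΩ (K10a_cpt ar w6 hK'c) sub6
  obtain ⟨w, hw⟩ : ∃ w : ℝ, w = min (min (min w1 w2) (min w3 w4)) (min (min w5 w6) (ar - al)) :=
    ⟨_, rfl⟩
  have hw0 : 0 < w := by
    rw [hw]
    have : 0 < ar - al := by linarith
    positivity
  have hwa : w ≤ w1 ∧ w ≤ w2 ∧ w ≤ w3 ∧ w ≤ w4 ∧ w ≤ w5 ∧ w ≤ w6 ∧ w ≤ ar - al := by
    rw [hw]
    simp only [min_le_iff, le_refl, true_or, or_true, and_self]
  clear hw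
  obtain ⟨l1, l2, l3, l4, l5, l6, l7⟩ := hwa
  obtain ⟨κ, hκ⟩ : ∃ κ : ℝ, κ = min (min δ (w / 4)) (r7 / 4) := ⟨_, rfl⟩
  have hκ0 : 0 < κ := by
    rw [hκ]
    positivity
  have hκa : κ ≤ δ ∧ κ ≤ w / 4 ∧ κ ≤ r7 / 4 := by
    rw [hκ]
    simp only [min_le_iff, le_refl, true_or, or_true, and_self]
  clear hκ
  obtain ⟨k1, k2, k3⟩ := hκa
  filter_upwards [ev1, ev2, ev3, ev4, ev7, rFl _ sub5 (K10a_cpt al w5 hKc),
    rFr _ sub6 (K10a_cpt ar w6 hK'c), hX'.pd.lim K hK hKc κ hκ0, hX.pd.lim K' hK'R hK'c κ hκ0,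
    pdl.lim K (hK.trans hRR) hKc κ hκ0, pdr.lim K' (hK'R.trans hRR) hK'c κ hκ0,
    hV.ε_lim.eventually (gt_mem_nhds (show (0 : ℝ) < w / 4 by positivity))]
    with n e1 e2 e3 e4 e7 e5 e6 b1 b2 b3 b4 hε
  have hε0 := hV.ε_pos n
  -- the relation near the abscissa `al`
  have main : ∀ q : ℂ × ℂ, pc q ∈ K → |q.1.re - al| ≤ ε n / 2 →
      X' n q + Dr n (q + X' n q) = Dl n q + X n (q + Dl n q) := by
    intro q hq hqa
    obtain ⟨qa1, qa2⟩ := abs_le.1 hqa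
    have t0 : 0 ≤ (ar + w / 2 - q.1.re) / ε n := by
      apply div_nonneg _ hε0.le
      linarith
    obtain ⟨m, hm⟩ : ∃ m : ℕ, m = ⌈(ar + w / 2 - q.1.re) / ε n⌉₊ := ⟨_, rfl⟩
    have m1 : ar + w / 2 - q.1.re ≤ m * ε n := by
      have := Nat.le_ceil ((ar + w / 2 - q.1.re) / ε n)
      rw [← hm, div_le_iff₀ hε0] at this
      exact this
    have m2 : m * ε n < ar + w / 2 - q.1.re + ε n := by
      have := Nat.ceil_lt_add_one t0
      rw [← hm] at this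
      have h2 := mul_lt_mul_of_pos_right this hε0
      rw [add_mul, div_mul_cancel₀ _ hε0.ne', one_mul] at h2
      exact h2
    have bX' : ‖X' n q‖ ≤ κ := b1 q hq
    have bDl : ‖Dl n q‖ ≤ κ := b3 q hq
    have hre : ∀ v : ℂ × ℂ, |v.1.re| ≤ ‖v‖ := fun v =>
      (Complex.abs_re_le_norm v.1).trans (norm_fst_le v)
    -- left side
    have hqD : pc (q + Dl n q) ∈ K' := hadd q _ hq (bDl.trans k1)
    have bX : ‖X n (q + Dl n q)‖ ≤ κ := b2 _ hqD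
    obtain ⟨d1, d2⟩ := abs_le.1 ((hre (Dl n q)).trans bDl)
    obtain ⟨d3, d4⟩ := abs_le.1 ((hre (X' n q)).trans bX')
    have hqDre : (q + Dl n q).1.re = q.1.re + (Dl n q).1.re := by
      simp
    have r1 := e2 (q + Dl n q) hqD (by
      rw [hqDre, abs_le]
      constructor <;> linarith) m (by rw [hqDre]; linarith) (by rw [hqDre]; linarith)
    have r2 := e1 q hq (by
      rw [abs_le]
      constructor <;> linarith) m (by linarith) (by linarith)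
    have r3 : Zl n (q + Dl n q) = Zl' n q := by
      have h1 := e3 q hq (by
        rw [abs_le]
        constructor <;> linarith)
      rw [← h1]
      refine e5 q ⟨?_, hq⟩
      rw [abs_le]
      constructor <;> linarith
    -- right side
    obtain ⟨P, hP⟩ : ∃ P : ℂ × ℂ, P = tr ((m * ε n : ℝ) : ℂ) q + X' n q := ⟨_, rfl⟩
    have hP2 : P = tr ((m * ε n : ℝ) : ℂ) (q + X' n q) := by
      rw [hP, K10a_tr_add]
    have hpcP : pc P ∈ K' := by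
      rw [hP2, pc_tr]
      exact hadd q _ hq (bX'.trans k1)
    have hPre : P.1.re = q.1.re + m * ε n + (X' n q).1.re := by
      rw [hP]
      simp [tr]
    have r4 : Zr n (P + Dr n P) = Zr' n P := by
      have h1 := e4 P hpcP (by
        rw [hPre, abs_le]
        constructor <;> linarith)
      rw [← h1]
      refine e6 P ⟨?_, hpcP⟩
      rw [hPre, abs_le]
      constructor <;> linarith
    have bDr : ‖Dr n P‖ ≤ κ := b4 P hpcP
    have r5 : Dr n P = Dr n (q + X' n q) := by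
      rw [hP2]
      have := K10a_per (pdr.per n) (m : ℤ) (q + X' n q)
      simpa using this
    have r6 : Zr n (P + Dr n P) =
        Zr n (tr ((m * ε n : ℝ) : ℂ) (q + Dl n q) + X n (q + Dl n q)) := by
      rw [r4, r1, r3, hP, r2]
    have r7' := e7 (tr ((m * ε n : ℝ) : ℂ) q) ⟨?_, ?_⟩ _ _ ?_ ?_ r6
    · rw [hP, K10a_tr_add, add_assoc, add_assoc] at r7'
      have r8 := add_left_cancel r7'
      rw [← hP, r5] at r8
      exact r8
    · rw [tr_fst, add_re, ofReal_re, abs_le]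
      constructor <;> linarith
    · rw [pc_tr]
      exact hKK' hq
    · rw [hP, add_assoc, add_sub_cancel_left, ← hP]
      have := norm_add_le (X' n q) (Dr n P)
      linarith
    · rw [K10a_tr_add, add_assoc, add_sub_cancel_left]
      have := norm_add_le (Dl n q) (X n (q + Dl n q))
      linarith
  -- reduction to the abscissa `al`
  intro q hq
  obtain ⟨k, hk⟩ : ∃ k : ℤ, k = round ((q.1.re - al) / ε n) := ⟨_, rfl⟩
  have hr := pe_red hε0 al q.1.re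
  rw [← hk] at hr
  obtain ⟨q0, hq0⟩ : ∃ q0 : ℂ × ℂ, q0 = tr ((((-k : ℤ) : ℝ) * ε n : ℝ) : ℂ) q := ⟨_, rfl⟩
  have h1 : pc q0 ∈ K := by
    rw [hq0, pc_tr]
    exact hq
  have h2 : |q0.1.re - al| ≤ ε n / 2 := by
    have h3 : q0.1.re = q.1.re - k * ε n := by
      rw [hq0, tr_fst, add_re, ofReal_re]
      push_cast
      ring
    rw [h3]
    exact hr
  have h3 := main q0 h1 h2
  have f1 : X' n q0 = X' n q := by
    rw [hq0]
    exact K10a_per (hX'.pd.per n) _ q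
  have f2 : Dl n q0 = Dl n q := by
    rw [hq0]
    exact K10a_per (pdl.per n) _ q
  have f3 : Dr n (q0 + X' n q) = Dr n (q + X' n q) := by
    rw [hq0, ← K10a_tr_add]
    exact K10a_per (pdr.per n) _ _
  have f4 : X n (q0 + Dl n q) = X n (q + Dl n q) := by
    rw [hq0, ← K10a_tr_add]
    exact K10a_per (hX.pd.per n) _ _
  rw [f1, f2, f3, f4] at h3
  exact h3

end Pool.Agent.MP_ae5b4e_an_AZ
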