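import Pool.Agent.Lib.MP_ae5b4e_an_AZ.KDefs

/-!
# POR, (Z'): charts: families and exact families
-/

noncomputable section

namespace Pool.Agent.MP_ae5b4e_an_AZ

open Complex Set Filter Topology Metric
open Pool.Agent.MP_ae5b4e_an_A1
open Pool.Agent.MP_ae5b4e_an_BX (Rec)
open Pool.Agent.MP_ae5b4e_an_A3 (rs md Dfc osc_le Per_osc Per_zero)
open Pool.Agent.MP_ae5b4e_an_A4 (am Per SN)
open Pool.Agent.MP_ae5b4e_an_MERO (fo St fo_indep norm_fo_le hasSum_fo)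

variable {U : Ultrafilter ℕ} {ε : ℕ → ℝ} {M Ω : Set (ℂ × ℂ)} {g : ℂ × ℂ → ℂ × ℂ}
  {gn : ℕ → ℂ × ℂ → ℂ × ℂ} {z : ℂ × ℂ → ℂ × ℂ} {D : Set ℂ} {τ σ : ℂ → ℂ}

/-- Proof. Composition of analytic maps on the open set `{p | p.2 ∈ D}`. -/
theorem ch_an (hτ : AnalyticOnNhd ℂ τ D) (hσ : AnalyticOnNhd ℂ σ D) :
    AnalyticOnNhd ℂ (ch τ σ) {p | p.2 ∈ D} := by
  intro p hp
  have h1 : AnalyticAt ℂ (fun q : ℂ × ℂ => τ q.2) p := (hτ p.2 hp).fun_comp analyticAt_snd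
  have h2 : AnalyticAt ℂ (fun q : ℂ × ℂ => σ q.2) p := (hσ p.2 hp).fun_comp analyticAt_snd
  exact (analyticAt_fst.add h1).prod h2

/-- Proof. `Ω'` is open (`ch` is continuous on the open set `{p | p.2 ∈ D}`); `z ∘ ch` is analytic,
maps into `M`; `θ ↦ z (θ + τ c, σ c)` has the derivative `g (z (ch p))` (chain rule with
`θ ↦ θ + τ c`); `fderiv (z ∘ ch) p = (fderiv z (ch p)) ∘ (fderiv ch p)` and `fderiv ch p (a, b) =
(a + τ' b, σ' b)` is injective since `σ' ≠ 0`. -/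
theorem fw_ch (hz : Fw M g Ω z) (hD : IsOpen D) (hτ : AnalyticOnNhd ℂ τ D)
    (hσ : AnalyticOnNhd ℂ σ D) (hσ' : ∀ c ∈ D, deriv σ c ≠ 0) :
    Fw M g {p | p.2 ∈ D ∧ ch τ σ p ∈ Ω} (z ∘ ch τ σ) := by
  have hch := ch_an hτ hσ
  refine ⟨?_, ?_, ?_, ?_, ?_⟩
  · exact hch.continuousOn.isOpen_inter_preimage (hD.preimage continuous_snd) hz.Ω_open
  · intro p hp
    exact (hz.z_an _ hp.2).comp (hch p hp.1)
  · intro p hp
    exact hz.maps _ hp.2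
  · intro p hp
    have h1 : HasDerivAt (fun θ => z (θ, σ p.2)) (g (z (ch τ σ p))) (p.1 + τ p.2) :=
      hz.ode (ch τ σ p) hp.2
    exact h1.comp_add_const p.1 (τ p.2)
  · intro p hp
    have h1 : HasFDerivAt (fun q : ℂ × ℂ => τ q.2)
        (deriv τ p.2 • ContinuousLinearMap.snd ℂ ℂ ℂ) p :=
      (hτ p.2 hp.1).differentiableAt.hasDerivAt.comp_hasFDerivAt p hasFDerivAt_snd
    have h2 : HasFDerivAt (fun q : ℂ × ℂ => σ q.2)
        (deriv σ p.2 • ContinuousLinearMap.snd ℂ ℂ ℂ) p :=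
      (hσ p.2 hp.1).differentiableAt.hasDerivAt.comp_hasFDerivAt p hasFDerivAt_snd
    have h3 : HasFDerivAt (ch τ σ)
        ((ContinuousLinearMap.fst ℂ ℂ ℂ + deriv τ p.2 • ContinuousLinearMap.snd ℂ ℂ ℂ).prod
          (deriv σ p.2 • ContinuousLinearMap.snd ℂ ℂ ℂ)) p :=
      (hasFDerivAt_fst.add h1).prodMk h2
    have h4 : HasFDerivAt z (fderiv ℂ z (ch τ σ p)) (ch τ σ p) :=
      (hz.z_an _ hp.2).differentiableAt.hasFDerivAt
    rw [(h4.comp p h3).fderiv]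
    intro x y hxy
    have h5 := hz.inj _ hp.2 hxy
    have h6 : deriv σ p.2 * x.2 = deriv σ p.2 * y.2 := congrArg Prod.snd h5
    have h7 : x.1 + deriv τ p.2 * x.2 = y.1 + deriv τ p.2 * y.2 := congrArg Prod.fst h5
    have h8 : x.2 = y.2 := mul_left_cancel₀ (hσ' p.2 hp.1) h6
    rw [h8] at h7
    exact Prod.ext (add_right_cancel h7) h8

/-- Proof. A compact `K ⊆ {p | p.2 ∈ D ∧ ch τ σ p ∈ O}` has a compact image `ch '' K ⊆ O`;
`ch_tr`. -/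
theorem ex_ch {O : Set (ℂ × ℂ)} {Z : ℕ → ℂ × ℂ → ℂ × ℂ} (hZ : Ex U ε gn O z Z)
    (hτ : AnalyticOnNhd ℂ τ D) (hσ : AnalyticOnNhd ℂ σ D) :
    Ex U ε gn {p | p.2 ∈ D ∧ ch τ σ p ∈ O} (z ∘ ch τ σ) (fun n => Z n ∘ ch τ σ) := by
  have hch := ch_an hτ hσ
  have hK' : ∀ K ⊆ {p : ℂ × ℂ | p.2 ∈ D ∧ ch τ σ p ∈ O}, IsCompact K →
      ch τ σ '' K ⊆ O ∧ IsCompact (ch τ σ '' K) := by
    intro K hK hc
    refine ⟨?_, hc.image_of_continuousOn (hch.continuousOn.mono fun p hp => (hK hp).1)⟩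
    rintro _ ⟨p, hp, rfl⟩
    exact (hK hp).2
  refine ⟨?_, ?_, ?_⟩
  · intro K hK hc
    obtain ⟨k1, k2⟩ := hK' K hK hc
    filter_upwards [hZ.an _ k1 k2] with n hn
    intro p hp
    exact (hn _ (mem_image_of_mem _ hp)).comp (hch p (hK hp).1)
  · intro K hK hc
    obtain ⟨k1, k2⟩ := hK' K hK hc
    filter_upwards [hZ.eq _ k1 k2] with n hn
    intro p hp
    have h := hn _ (mem_image_of_mem _ hp)
    rw [← ch_tr] at h
    exact h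
  · intro K hK hc δ hδ
    obtain ⟨k1, k2⟩ := hK' K hK hc
    filter_upwards [hZ.conv _ k1 k2 δ hδ] with n hn
    intro p hp
    exact hn _ (mem_image_of_mem _ hp)

end Pool.Agent.MP_ae5b4e_an_AZ
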