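import Pool.Agent.Lib.MP_ae5b4e_an_AZ.K12a
import Pool.Agent.Lib.MP_ae5b4e_an_AZ.K11b
import Pool.Agent.Lib.MP_ae5b4e_an_AZ.K3
import Pool.Agent.Lib.MP_ae5b4e_an_AZ.K5

/-!
# POR, (Z'): charts: upper bounds of the first modes
-/

noncomputable section

namespace Pool.Agent.MP_ae5b4e_an_AZ

open Complex Set Filter Topology Metric
open Pool.Agent.MP_ae5b4e_an_A1
open Pool.Agent.MP_ae5b4e_an_BX (Rec)
open Pool.Agent.MP_ae5b4e_an_A3 (rs md Dfc osc_le Per_osc Per_zero)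
open Pool.Agent.MP_ae5b4e_an_A4 (am Per SN)
open Pool.Agent.MP_ae5b4e_an_MERO (fo St fo_indep norm_fo_le hasSum_fo)

variable {U : Ultrafilter ℕ} {ε : ℕ → ℝ} {M Ω : Set (ℂ × ℂ)} {g : ℂ × ℂ → ℂ × ℂ}
  {gn : ℕ → ℂ × ℂ → ℂ × ℂ} {z : ℂ × ℂ → ℂ × ℂ} {D : Set ℂ} {τ σ : ℂ → ℂ}

private theorem K12_snd {f : ℂ × ℂ → ℂ × ℂ} {p : ℂ × ℂ} (h : AnalyticAt ℂ f p) :
    AnalyticAt ℂ (fun q => (f q).2) p :=
  AnalyticAt.comp' (g := Prod.snd) analyticAt_snd h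

/-- DEFICIENT IN THE OLD CHART IMPLIES DEFICIENT IN THE NEW CHART, where the level is `0` (`Yb` = level
in the old chart, `Yb (σ c) = Im τ c`).

Proof. `Dfc` at `γ₀ = σ c₀`: `η₁, ρ₁`. `k := min h₁ h' / 16` (the heights `Im τ c₀ - 5 k, ..` are admissible),
`η := min η₁ (k / 2)`, `s := η / 16`, `κ := 1 / 8`. `Kh := {- k}`: `ch_rel` gives `ρ₂` and the relation. For `c` in a
small ball about `c₀`, `γ := σ c`, `t := Yb γ = Im τ c`: for almost all `n` (uniformly in `c`):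
`Fn (ε n) (t - 4 k) (t - s) κ {γ} (X n ·).2` (the union over `c` in a small closed ball of
`Icc (t - 4 k) (t - s) ×ˢ {γ}` is compact in `R`, `Pd.an`, `Pd.lim`, `Pd.per`), the first mode of `X` is at most
`exp (- (2 π / ε) (t + η))` (`Dfc`, `η ≤ η₁`; the height in `Dfc` is `y`, `Fn.md_indep`). `one_flat` with
`t' = 0`, `τ = τ c`, `L` from `inv_lip`: the second component of the relation at `q = (θ, c)` is
`σ (c + (X' q).2) = σ c + (X (ch q)).2`, so `‖(X' q).2 - (X' q₀).2‖ ≤ L ‖(X (ch q)).2 - (X (ch q₀)).2‖`.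
Conclusion `‖fm ε (-k) X' n c‖ ≤ 4 L exp (- NN η / 2) ≤ exp (- (η / 4) NN)`; `Pd.fm_indep` moves the height
to `y'`. -/
theorem chart_up (hV : VF U ε M g gn) (hz : Fw M g Ω z) {Or : Set (ℂ × ℂ)} (hOr : IsOpen Or)
    (hOrΩ : Or ⊆ Ω) {Zl Zr X X' : ℕ → ℂ × ℂ → ℂ × ℂ} (er : Ex U ε gn Or z Zr) (hD : IsOpen D)
    (hτ : AnalyticOnNhd ℂ τ D) (hσ : AnalyticOnNhd ℂ σ D) {c₀ : ℂ} (hc₀ : c₀ ∈ D)
    (hσ' : deriv σ c₀ ≠ 0) {al ar : ℝ} (ha : al < ar) {R R' : Set (ℝ × ℂ)} {Yb : ℂ → ℝ}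
    (hYb : ∀ c ∈ D, Yb (σ c) = (τ c).im) {h₁ r₁ h' r' y y' : ℝ} (hh₁ : 0 < h₁) (hr₁ : 0 < r₁)
    (hYc : ContinuousOn Yb (ball (σ c₀) r₁)) (hh' : 0 < h') (hr' : 0 < r') (hR : ∀ γ ∈ ball (σ c₀) r₁, ∀ y : ℝ, (τ c₀).im - h₁ < y → y < Yb γ →
      (y, γ) ∈ R) (hR' : ∀ c ∈ ball c₀ r', ∀ y : ℝ, -h' < y → y < 0 → (y, c) ∈ R')
    (hX : Kk U ε gn (al + (τ c₀).re) (ar + (τ c₀).re) R Zl Zr X)
    (hX' : Kk U ε gn al ar R' (fun n => Zl n ∘ ch τ σ) (fun n => Zr n ∘ ch τ σ) X')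
    (h3 : ((⟨ar + (τ c₀).re, (τ c₀).im⟩ : ℂ), σ c₀) ∈ Or) (hy : (τ c₀).im - h₁ < y)
    (hy2 : y < (τ c₀).im) (hy' : y' ∈ Ioo (-h') 0)
    (hd : Dfc U ε y Yb (σ c₀) (fun n p => (X n p).2)) : DefAt U (NN ε) (fm ε y' X') c₀ := by
  have h0 : ∀ n, 0 < ε n := hV.ε_pos
  obtain ⟨T₀, hT₀⟩ : ∃ T₀ : ℝ, T₀ = (τ c₀).im := ⟨_, rfl⟩
  rw [← hT₀] at hR h3 hy hy2
  obtain ⟨η₁, hη₁, ρ₁, hρ₁, hD₁⟩ := hd
  have hYγ : Yb (σ c₀) = T₀ := by rw [hYb c₀ hc₀, hT₀]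
  -- the height `k`
  obtain ⟨δ, hδ, hδO⟩ : ∃ δ : ℝ, 0 < δ ∧ ∀ u : ℝ, |u| < δ →
      ((⟨ar + (τ c₀).re, u + T₀⟩ : ℂ), σ c₀) ∈ Or := by
    have hc : Continuous fun u : ℝ => ((⟨ar + (τ c₀).re, u + T₀⟩ : ℂ), σ c₀) := by
      have he : (fun u : ℝ => ((⟨ar + (τ c₀).re, u + T₀⟩ : ℂ), σ c₀)) = fun u : ℝ =>
          (((ar + (τ c₀).re : ℝ) : ℂ) + ((u + T₀ : ℝ) : ℂ) * I, σ c₀) := by
        funext u
        rw [Complex.mk_eq_add_mul_I]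
      rw [he]
      fun_prop
    have h4 : (fun u : ℝ => ((⟨ar + (τ c₀).re, u + T₀⟩ : ℂ), σ c₀)) ⁻¹' Or ∈ 𝓝 (0 : ℝ) :=
      hc.continuousAt.preimage_mem_nhds (hOr.mem_nhds (by simpa using h3))
    obtain ⟨δ, hδ, h⟩ := Metric.mem_nhds_iff.1 h4
    exact ⟨δ, hδ, fun u hu => h (by simpa [Real.norm_eq_abs] using hu)⟩
  obtain ⟨k, hk0, hkh₁, hkh', hkδ⟩ : ∃ k : ℝ, 0 < k ∧ 16 * k ≤ h₁ ∧ 16 * k ≤ h' ∧ k < δ := by
    refine ⟨min (min (h₁ / 16) (h' / 16)) (δ / 2), by positivity, ?_, ?_, ?_⟩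
    · have := (min_le_left (min (h₁ / 16) (h' / 16)) (δ / 2)).trans (min_le_left _ _)
      linarith
    · have := (min_le_left (min (h₁ / 16) (h' / 16)) (δ / 2)).trans (min_le_right _ _)
      linarith
    · have := min_le_right (min (h₁ / 16) (h' / 16)) (δ / 2)
      linarith
  -- the relation of the kicks
  have hR₁o : IsOpen {x : ℝ × ℂ | x.2 ∈ ball (σ c₀) r₁ ∧ T₀ - h₁ < x.1 ∧ x.1 < Yb x.2} := by
    rw [isOpen_iff_mem_nhds]
    rintro x ⟨hx1, hx2, hx3⟩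
    have hYx : ContinuousAt Yb x.2 := hYc.continuousAt (isOpen_ball.mem_nhds hx1)
    have e1 : ∀ᶠ p : ℝ × ℂ in 𝓝 x, p.2 ∈ ball (σ c₀) r₁ :=
      continuousAt_snd.eventually (isOpen_ball.mem_nhds hx1)
    have e2 : ∀ᶠ p : ℝ × ℂ in 𝓝 x, T₀ - h₁ < p.1 :=
      continuousAt_const.eventually_lt continuousAt_fst hx2
    have e3 : ∀ᶠ p : ℝ × ℂ in 𝓝 x, p.1 < Yb p.2 :=
      continuousAt_fst.eventually_lt (ContinuousAt.comp (f := Prod.snd) hYx continuousAt_snd) hx3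
    filter_upwards [e1, e2, e3] with p h1 h2 h3
    exact ⟨h1, h2, h3⟩
  have hR₁s : {x : ℝ × ℂ | x.2 ∈ ball (σ c₀) r₁ ∧ T₀ - h₁ < x.1 ∧ x.1 < Yb x.2} ⊆ R := by
    rintro ⟨u, γ⟩ ⟨h1, h2, h3⟩
    exact hR γ h1 u h2 h3
  have hR'o : IsOpen (Ioo (-h') 0 ×ˢ ball c₀ r') := isOpen_Ioo.prod isOpen_ball
  have hR's : Ioo (-h') 0 ×ˢ ball c₀ r' ⊆ R' := by
    rintro ⟨u, c⟩ ⟨h1, h2⟩
    exact hR' c h2 u h1.1 h1.2
  obtain ⟨ρ₂, hρ₂, hrel⟩ := ch_rel hV hz hOr hOrΩ er hD hτ hσ hc₀ ha hR₁o hR'o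
    (hX.mono hR₁s) (hX'.mono hR's) (Kh := {-k}) isCompact_singleton
    (by
      rintro _ rfl
      exact ⟨⟨by linarith, by linarith⟩, mem_ball_self hr'⟩)
    (by
      rintro _ rfl
      rw [← hT₀]
      exact ⟨mem_ball_self hr₁, by linarith, by rw [hYγ]; linarith⟩)
    (by
      rintro _ rfl
      rw [← hT₀]
      exact hδO _ (by rw [abs_neg, abs_of_pos hk0]; exact hkδ))
  obtain ⟨L, ρL, hL, hρL, hlip⟩ := inv_lip (hσ c₀ hc₀) hσ'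
  -- constants
  obtain ⟨η, hη0, hηη, hηk⟩ : ∃ η : ℝ, 0 < η ∧ η ≤ η₁ ∧ η ≤ k / 2 :=
    ⟨min η₁ (k / 2), by positivity, min_le_left _ _, min_le_right _ _⟩
  obtain ⟨s, hs0, hsη, hsy⟩ : ∃ s : ℝ, 0 < s ∧ s ≤ η / 16 ∧ s ≤ (T₀ - y) / 4 :=
    ⟨min (η / 16) ((T₀ - y) / 4), lt_min (by positivity) (by linarith), min_le_left _ _,
      min_le_right _ _⟩
  obtain ⟨b, hb1, hb2, hb3⟩ : ∃ b : ℝ, T₀ - h₁ < b ∧ b < y ∧ b < T₀ - 5 * k := by
    obtain ⟨b, h1, h2⟩ := exists_between (show T₀ - h₁ < min y (T₀ - 5 * k) from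
      lt_min hy (by linarith))
    exact ⟨b, h1, h2.trans_le (min_le_left _ _), h2.trans_le (min_le_right _ _)⟩
  -- the small closed ball
  have hev : ∀ᶠ c in 𝓝 c₀, c ∈ D ∧ σ c ∈ ball (σ c₀) r₁ ∧ σ c ∈ ball (σ c₀) ρ₁ ∧
      |(τ c).im - T₀| < k ∧ |(τ c).im - T₀| < (T₀ - y) / 4 ∧ c ∈ ball c₀ r' ∧ c ∈ ball c₀ ρ₂ ∧
      c ∈ ball c₀ (ρL / 2) := by
    have e2 : ContinuousAt σ c₀ := (hσ c₀ hc₀).continuousAt
    have e3 : ContinuousAt (fun c => |(τ c).im - T₀|) c₀ :=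
      ((Complex.continuous_im.continuousAt.comp (hτ c₀ hc₀).continuousAt).sub
        continuousAt_const).abs
    have e4 : ∀ u : ℝ, 0 < u → ∀ᶠ c in 𝓝 c₀, |(τ c).im - T₀| < u := fun u hu =>
      e3.eventually_lt continuousAt_const (by rw [hT₀]; simpa using hu)
    filter_upwards [hD.mem_nhds hc₀, e2.eventually (isOpen_ball.mem_nhds (mem_ball_self hr₁)),
      e2.eventually (isOpen_ball.mem_nhds (mem_ball_self hρ₁)), e4 k hk0,
      e4 ((T₀ - y) / 4) (by linarith), isOpen_ball.mem_nhds (mem_ball_self hr'),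
      isOpen_ball.mem_nhds (mem_ball_self hρ₂),
      isOpen_ball.mem_nhds (mem_ball_self (half_pos hρL))] with c a1 a2 a3 a4 a5 a6 a7 a8
    exact ⟨a1, a2, a3, a4, a5, a6, a7, a8⟩
  obtain ⟨ρ₃, hρ₃, hb⟩ := Metric.nhds_basis_closedBall.eventually_iff.1 hev
  have hcl : closedBall c₀ ρ₃ ⊆ D := fun c hc => (hb hc).1
  -- the compact set of heights in the old chart
  have hKc : IsCompact ((fun x : ℂ × ℝ => (b + x.2 * ((τ x.1).im - s - b), σ x.1)) ''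
      (closedBall c₀ ρ₃ ×ˢ Icc (0 : ℝ) 1)) := by
    refine ((isCompact_closedBall _ _).prod isCompact_Icc).image_of_continuousOn ?_
    have hτ1 : ContinuousOn (fun x : ℂ × ℝ => τ x.1) (closedBall c₀ ρ₃ ×ˢ Icc (0 : ℝ) 1) :=
      (hτ.continuousOn.mono hcl).comp continuousOn_fst (fun x hx => hx.1)
    have hσ1 : ContinuousOn (fun x : ℂ × ℝ => σ x.1) (closedBall c₀ ρ₃ ×ˢ Icc (0 : ℝ) 1) :=
      (hσ.continuousOn.mono hcl).comp continuousOn_fst (fun x hx => hx.1)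
    have hτ2 : ContinuousOn (fun x : ℂ × ℝ => (τ x.1).im) (closedBall c₀ ρ₃ ×ˢ Icc (0 : ℝ) 1) :=
      Complex.continuous_im.comp_continuousOn hτ1
    exact (continuousOn_const.add (continuousOn_snd.mul
      ((hτ2.sub continuousOn_const).sub continuousOn_const))).prodMk hσ1
  have hKR : ((fun x : ℂ × ℝ => (b + x.2 * ((τ x.1).im - s - b), σ x.1)) ''
      (closedBall c₀ ρ₃ ×ˢ Icc (0 : ℝ) 1)) ⊆ R := by
    rintro _ ⟨⟨c, u⟩, ⟨hc, hu⟩, rfl⟩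
    obtain ⟨a1, a2, a3, a4, a5, a6, a7, a8⟩ := hb hc
    have a4' := abs_lt.1 a4
    have h1 : 0 < (τ c).im - s - b := by linarith
    have h2 : 0 ≤ u * ((τ c).im - s - b) := mul_nonneg hu.1 h1.le
    have h3 : u * ((τ c).im - s - b) ≤ (τ c).im - s - b := by
      have := mul_le_mul_of_nonneg_right hu.2 h1.le
      linarith
    refine hR _ a2 _ ?_ ?_
    · change T₀ - h₁ < b + u * ((τ c).im - s - b)
      linarith
    · change b + u * ((τ c).im - s - b) < Yb (σ c)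
      rw [hYb c a1]
      linarith
  have hKc' : IsCompact (({-k} : Set ℝ) ×ˢ closedBall c₀ ρ₃) :=
    isCompact_singleton.prod (isCompact_closedBall _ _)
  have hKR' : ({-k} : Set ℝ) ×ˢ closedBall c₀ ρ₃ ⊆ R' := by
    rintro ⟨u, c⟩ ⟨h1, h2⟩
    obtain rfl : u = -k := h1
    exact hR' c (hb h2).2.2.2.2.2.1 _ (by linarith) (by linarith)
  -- the height `y'`
  obtain ⟨v₁, hv₁, hv₁k, hv₁y⟩ : ∃ v : ℝ, -h' < v ∧ v < -k ∧ v < y' := by
    obtain ⟨v, h1, h2⟩ := exists_between (show -h' < min (-k) y' from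
      lt_min (by linarith) hy'.1)
    exact ⟨v, h1, h2.trans_le (min_le_left _ _), h2.trans_le (min_le_right _ _)⟩
  obtain ⟨v₂, hv₂, hv₂k, hv₂y⟩ : ∃ v : ℝ, v < 0 ∧ -k < v ∧ y' < v := by
    obtain ⟨v, h1, h2⟩ := exists_between (show max (-k) y' < 0 from
      max_lt (by linarith) hy'.2)
    exact ⟨v, h2, (le_max_left _ _).trans_lt h1, (le_max_right _ _).trans_lt h1⟩
  have hind := hX'.pd.fm_indep h0 (y₁ := v₁) (y₂ := v₂) (y := y') (y' := -k) (r := r' / 2)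
    (c₀ := c₀) ⟨hv₁y, hv₂y⟩ ⟨hv₁k, hv₂k⟩ (fun u hu c hc => hR' c
      (closedBall_subset_ball (half_lt_self hr') hc) u (hv₁.trans_le hu.1) (hu.2.trans_lt hv₂))
  have hNN := NN_lim h0 hV.ε_lim
  have hexp : ∀ᶠ n in (U : Filter ℕ), 4 * L * Real.exp (-(NN ε n * (η / 2))) ≤
      Real.exp (-(η / 4 * NN ε n)) := by
    have h1 : Tendsto (fun n => η / 4 * NN ε n) (U : Filter ℕ) atTop :=
      hNN.const_mul_atTop (by positivity)
    have h2 := (Real.tendsto_exp_atTop.comp h1).eventually_ge_atTop (4 * L)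
    filter_upwards [h2] with n hn
    have h3 : Real.exp (-(η / 4 * NN ε n)) =
        Real.exp (η / 4 * NN ε n) * Real.exp (-(NN ε n * (η / 2))) := by
      rw [← Real.exp_add]
      congr 1
      ring
    rw [h3]
    exact mul_le_mul_of_nonneg_right hn (Real.exp_pos _).le
  have hεk : ∀ᶠ n in (U : Filter ℕ), ε n ≤ k / 2 := by
    have := hV.ε_lim.eventually (gt_mem_nhds (half_pos hk0))
    filter_upwards [this] with n hn using le_of_lt hn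
  refine ⟨min ρ₃ (r' / 2), by positivity, η / 4, by positivity, ?_⟩
  filter_upwards [hrel, hX.pd.an _ hKR hKc, hX.pd.lim _ hKR hKc (1 / 8) (by norm_num),
    hX'.pd.an _ hKR' hKc', hX'.pd.lim _ hKR' hKc' (ρL / 4) (by positivity), hD₁, hεk, hexp,
    hind] with n e1 e2 e3 e4 e5 e6 e7 e8 e9 c hc
  have hc3 : c ∈ closedBall c₀ ρ₃ :=
    ball_subset_closedBall (ball_subset_ball (min_le_left _ _) hc)
  have hcr : c ∈ ball c₀ (r' / 2) := ball_subset_ball (min_le_right _ _) hc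
  obtain ⟨a1, a2, a3, a4, a5, a6, a7, a8⟩ := hb hc3
  have a4' := abs_lt.1 a4
  have a5' := abs_lt.1 a5
  -- membership of the heights
  have hmem : ∀ p : ℂ × ℂ, b < p.1.im → p.1.im < (τ c).im - s → p.2 = σ c →
      pc p ∈ ((fun x : ℂ × ℝ => (b + x.2 * ((τ x.1).im - s - b), σ x.1)) ''
      (closedBall c₀ ρ₃ ×ˢ Icc (0 : ℝ) 1)) := by
    intro p h1 h2 h3
    have h4 : 0 < (τ c).im - s - b := by linarith
    refine ⟨(c, (p.1.im - b) / ((τ c).im - s - b)), ⟨hc3, ?_, ?_⟩, ?_⟩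
    · exact div_nonneg (by linarith) h4.le
    · rw [div_le_one h4]
      linarith
    · change (b + (p.1.im - b) / ((τ c).im - s - b) * ((τ c).im - s - b), σ c) = (p.1.im, p.2)
      rw [div_mul_cancel₀ _ h4.ne', h3]
      congr 1
      ring
  have hFn : Fn (ε n) b ((τ c).im - s) (1 / 8) {σ c} (fun p => (X n p).2) := by
    refine ⟨fun p => ?_, fun p h1 h2 h3 => ?_, fun p h1 h2 h3 => ?_⟩
    · change (X n (tr (ε n) p)).2 = (X n p).2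
      rw [hX.pd.per]
    · exact K12_snd (e2 p (hmem p h1 h2 h3))
    · exact (norm_snd_le _).trans (e3 p (hmem p h1 h2 h3))
  have hpk : ∀ θ : ℂ, θ.im = 0 - k → pc (θ, c) ∈ ({-k} : Set ℝ) ×ˢ closedBall c₀ ρ₃ := by
    intro θ hθ
    exact ⟨by change θ.im = -k; rw [hθ, zero_sub], hc3⟩
  have hrel2 : ∀ θ : ℂ, θ.im = 0 - k →
      σ (c + (X' n (θ, c)).2) = σ c + (X n (θ + τ c, σ c)).2 := by
    intro θ hθ
    have h1 := e1 (θ, c) (by change θ.im = -k; rw [hθ, zero_sub]) a7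
    exact congrArg Prod.snd h1
  have hin : ∀ θ : ℂ, θ.im = 0 - k → c + (X' n (θ, c)).2 ∈ ball c₀ ρL := by
    intro θ hθ
    have h1 : ‖(X' n (θ, c)).2‖ ≤ ρL / 4 := (norm_snd_le _).trans (e5 _ (hpk θ hθ))
    have h2 : ‖c - c₀‖ < ρL / 2 := by
      rw [← dist_eq_norm]
      exact a8
    rw [mem_ball, dist_eq_norm]
    have h3 : c + (X' n (θ, c)).2 - c₀ = (c - c₀) + (X' n (θ, c)).2 := by ring
    rw [h3]
    exact (norm_add_le _ _).trans_lt (by linarith)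
  have hfl := one_flat (t' := 0) (k := k) (L := L) (F' := fun p => (X' n p).2) (c := c)
    (η := η) (t := (τ c).im) (h0 n) hFn (by norm_num) hs0 (by linarith) (by linarith)
    (by linarith) le_rfl (by linarith) (by ring) hL.le
    (fun θ hθ => K12_snd (e4 _ (hpk θ hθ)))
    (fun θ θ₀ hθ hθ₀ => by
      have h1 := (hlip _ (hin θ hθ) _ (hin θ₀ hθ₀)).1
      rw [hrel2 θ hθ, hrel2 θ₀ hθ₀, add_sub_add_left_eq_sub, add_sub_add_left_eq_sub] at h1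
      exact h1) (y := y) ⟨by linarith, by linarith⟩
    (by
      refine (e6 _ a3).trans (Real.exp_le_exp.2 (neg_le_neg ?_))
      rw [hYb c a1]
      exact mul_le_mul_of_nonneg_left (by linarith)
        (div_nonneg (by positivity) (h0 n).le))
  rw [e9 c hcr]
  unfold fm
  rw [zero_sub, zero_add] at hfl
  exact hfl.trans e8

end Pool.Agent.MP_ae5b4e_an_AZ
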