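import Pool.Agent.Lib.MP_ae5b4e_an_AZ.KDefs

/-!
# POR, (Z'): a Lipschitz bound
-/

noncomputable section

namespace Pool.Agent.MP_ae5b4e_an_AZ

open Complex Set Filter Topology Metric
open Pool.Agent.MP_ae5b4e_an_A1
open Pool.Agent.MP_ae5b4e_an_BX (Rec)
open Pool.Agent.MP_ae5b4e_an_A3 (rs md Dfc osc_le Per_osc Per_zero)
open Pool.Agent.MP_ae5b4e_an_A4 (am Per SN)
open Pool.Agent.MP_ae5b4e_an_MERO (fo St fo_indep norm_fo_le hasSum_fo)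

variable {U : Ultrafilter ℕ} {ε : ℕ → ℝ} {M Ω : Set (ℂ × ℂ)} {g : ℂ × ℂ → ℂ × ℂ}
  {gn : ℕ → ℂ × ℂ → ℂ × ℂ} {z : ℂ × ℂ → ℂ × ℂ} {D : Set ℂ} {τ σ : ℂ → ℂ}

/-- inverse Lipschitz bound. Proof. `HasStrictDerivAt` of `σ` at `c₀`:
`‖σ x - σ x' - σ' (x - x')‖ ≤ ‖σ'‖ / 2 ‖x - x'‖` near `c₀`. -/
theorem inv_lip {c₀ : ℂ} (hσ : AnalyticAt ℂ σ c₀) (hσ' : deriv σ c₀ ≠ 0) :
    ∃ L ρ : ℝ, 0 < L ∧ 0 < ρ ∧ ∀ x ∈ ball c₀ ρ, ∀ x' ∈ ball c₀ ρ,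
      ‖x - x'‖ ≤ L * ‖σ x - σ x'‖ ∧ ‖σ x - σ x'‖ ≤ L * ‖x - x'‖ := by
  obtain ⟨a, ha⟩ : ∃ a, a = deriv σ c₀ := ⟨_, rfl⟩
  rw [← ha] at hσ'
  have ha0 : 0 < ‖a‖ := norm_pos_iff.2 hσ'
  have h1 : HasStrictDerivAt σ a c₀ := by
    rw [ha]
    exact hσ.hasStrictDerivAt
  have h2 := h1.isLittleO.def (show (0 : ℝ) < ‖a‖ / 2 by positivity)
  obtain ⟨ρ, hρ, h3⟩ := Metric.eventually_nhds_iff.1 h2
  refine ⟨max (2 / ‖a‖) (3 / 2 * ‖a‖), ρ, lt_max_of_lt_left (by positivity), hρ, ?_⟩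
  intro x hx x' hx'
  have h4 := h3 (y := (x, x')) (by
    rw [Prod.dist_eq]
    exact max_lt hx hx')
  have h5 : ‖σ x - σ x' - a * (x - x')‖ ≤ ‖a‖ / 2 * ‖x - x'‖ := by
    refine le_trans (le_of_eq ?_) h4
    simp [mul_comm]
  have h6 : ‖a * (x - x')‖ = ‖a‖ * ‖x - x'‖ := norm_mul _ _
  constructor
  · have h7 : ‖a * (x - x')‖ ≤ ‖σ x - σ x'‖ + ‖σ x - σ x' - a * (x - x')‖ := by
      have e : a * (x - x') = (σ x - σ x') - (σ x - σ x' - a * (x - x')) := by ring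
      nth_rewrite 1 [e]
      exact norm_sub_le _ _
    rw [h6] at h7
    have h8 : ‖a‖ / 2 * ‖x - x'‖ ≤ ‖σ x - σ x'‖ := by linarith
    have h9 : ‖x - x'‖ ≤ 2 / ‖a‖ * ‖σ x - σ x'‖ := by
      rw [div_mul_eq_mul_div, le_div_iff₀ ha0]
      linarith
    exact h9.trans (mul_le_mul_of_nonneg_right (le_max_left _ _) (norm_nonneg _))
  · have h7 : ‖σ x - σ x'‖ ≤ ‖a * (x - x')‖ + ‖σ x - σ x' - a * (x - x')‖ := by
      have e : σ x - σ x' = a * (x - x') + (σ x - σ x' - a * (x - x')) := by ring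
      nth_rewrite 1 [e]
      exact norm_add_le _ _
    rw [h6] at h7
    refine (h7.trans ?_).trans (mul_le_mul_of_nonneg_right (le_max_right _ _) (norm_nonneg _))
    linarith

end Pool.Agent.MP_ae5b4e_an_AZ
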