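import Pool.Agent.Lib.MP_ae5b4e_an_AZ.K8
import Pool.Agent.Lib.MP_ae5b4e_an_AZ.K9
import Pool.Agent.Lib.MP_ae5b4e_an_AZ.K10

/-!
# POR, (Z'): the first mode does not depend on the near data
-/

noncomputable section

namespace Pool.Agent.MP_ae5b4e_an_AZ

open Complex Set Filter Topology Metric
open Pool.Agent.MP_ae5b4e_an_A1
open Pool.Agent.MP_ae5b4e_an_BX (Rec)
open Pool.Agent.MP_ae5b4e_an_A3 (rs md Dfc osc_le Per_osc Per_zero)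
open Pool.Agent.MP_ae5b4e_an_A4 (am Per SN)
open Pool.Agent.MP_ae5b4e_an_MERO (fo St fo_indep norm_fo_le hasSum_fo)

variable {U : Ultrafilter ℕ} {ε : ℕ → ℝ} {M Ω : Set (ℂ × ℂ)} {g : ℂ × ℂ → ℂ × ℂ}
  {gn : ℕ → ℂ × ℂ → ℂ × ℂ} {z : ℂ × ℂ → ℂ × ℂ} {d : ℝ}

private theorem K13_norm (s y : ℝ) : ‖(⟨s, y⟩ : ℂ)‖ ≤ |s| + |y| :=
  Complex.norm_le_abs_re_add_abs_im _

/-- long families and their kick -/
private theorem K13_long (hV : VF U ε M g gn) (hz : Fw M g Ω z) (hd : 0 < d) {e₁ e₂ H r₀ ρ : ℝ}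
    {c₀ : ℂ} (he₁ : 0 < e₁) (he : e₁ ≤ e₂) (hH : 0 < H) (hr₀ : 0 < r₀) (hρ : r₀ < ρ)
    (hreg : ∀ c ∈ ball c₀ ρ, ∀ θ : ℂ, ‖θ‖ < 2 * e₂ → θ.im < d * |θ.re| → (θ, c) ∈ Ω) :
    ∃ h₀ : ℝ, 0 < h₀ ∧ h₀ ≤ H ∧ ∃ ZL ZR XL : ℕ → ℂ × ℂ → ℂ × ℂ,
      Ex U ε gn (Rec (-e₂ - e₁ / 2) (-e₁ + e₁ / 2) (-h₀) h₀ ×ˢ ball c₀ r₀) z ZL ∧
      Ex U ε gn (Rec (e₁ - e₁ / 2) (e₂ + e₁ / 2) (-h₀) h₀ ×ˢ ball c₀ r₀) z ZR ∧
      Kk U ε gn (-e₁) e₁ (Ioo (-h₀) 0 ×ˢ ball c₀ r₀) ZL ZR XL ∧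
      Kk U ε gn (-e₂) e₂ (Ioo (-h₀) 0 ×ˢ ball c₀ r₀) ZL ZR XL := by
  have hcb : ∀ c ∈ closedBall c₀ r₀, c ∈ ball c₀ ρ := fun c hc =>
    closedBall_subset_ball hρ hc
  have hreal : ∀ p : ℂ × ℂ, p.1.im = 0 → e₁ / 2 ≤ |p.1.re| → |p.1.re| ≤ e₂ + e₁ / 2 →
      p.2 ∈ closedBall c₀ r₀ → p ∈ Ω := by
    intro p h1 h2 h3 h4
    refine hreg p.2 (hcb _ h4) p.1 ?_ ?_
    · refine (Complex.norm_le_abs_re_add_abs_im _).trans_lt ?_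
      rw [h1, abs_zero]
      linarith
    · rw [h1]
      have : 0 < |p.1.re| := by linarith
      positivity
  obtain ⟨hL, hL0, hLx⟩ := exists_ex hV hz (a₁ := -e₂ - e₁ / 2) (a₂ := -e₁ + e₁ / 2) (y := 0)
    (by linarith) (g₀ := c₀) hr₀ (fun p h1 h2 h3 h4 => by
      refine hreal p h3 ?_ ?_ h4
      · rw [abs_of_nonpos (by linarith)]
        linarith
      · rw [abs_of_nonpos (by linarith)]
        linarith)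
  obtain ⟨hR, hR0, hRx⟩ := exists_ex hV hz (a₁ := e₁ - e₁ / 2) (a₂ := e₂ + e₁ / 2) (y := 0)
    (by linarith) (g₀ := c₀) hr₀ (fun p h1 h2 h3 h4 => by
      refine hreal p h3 ?_ ?_ h4
      · rw [abs_of_nonneg (by linarith)]
        linarith
      · rw [abs_of_nonneg (by linarith)]
        linarith)
  obtain ⟨h₀, hh₀, hh₀L, hh₀R, hh₀H, hh₀e⟩ : ∃ h₀ : ℝ, 0 < h₀ ∧ h₀ ≤ hL ∧ h₀ ≤ hR ∧ h₀ ≤ H ∧
      h₀ ≤ e₁ / 2 :=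
    ⟨min (min hL hR) (min H (e₁ / 2)), lt_min (lt_min hL0 hR0) (lt_min hH (by linarith)),
      (min_le_left _ _).trans (min_le_left _ _), (min_le_left _ _).trans (min_le_right _ _),
      (min_le_right _ _).trans (min_le_left _ _), (min_le_right _ _).trans (min_le_right _ _)⟩
  obtain ⟨hLΩ, ZL, hZL⟩ := hLx h₀ hh₀ hh₀L
  obtain ⟨hRΩ, ZR, hZR⟩ := hRx h₀ hh₀ hh₀R
  rw [zero_sub, zero_add] at hLΩ hZL hRΩ hZR
  have hsl : Rec (-e₁ - e₁ / 2) (-e₁ + e₁ / 2) (-h₀) h₀ ×ˢ ball c₀ r₀ ⊆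
      Rec (-e₂ - e₁ / 2) (-e₁ + e₁ / 2) (-h₀) h₀ ×ˢ ball c₀ r₀ := by
    rintro p ⟨⟨h1, h2, h3, h4⟩, h5⟩
    exact ⟨⟨by linarith, h2, h3, h4⟩, h5⟩
  have hsr : Rec (e₁ - e₁ / 2) (e₁ + e₁ / 2) (-h₀) h₀ ×ˢ ball c₀ r₀ ⊆
      Rec (e₁ - e₁ / 2) (e₂ + e₁ / 2) (-h₀) h₀ ×ˢ ball c₀ r₀ := by
    rintro p ⟨⟨h1, h2, h3, h4⟩, h5⟩
    exact ⟨⟨h1, by linarith, h3, h4⟩, h5⟩
  obtain ⟨XL, hXL⟩ := exists_kick hV hz (al := -e₁) (ar := e₁) (w := e₁ / 2) (y₁ := -h₀)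
    (y₂ := h₀) (by linarith) (by linarith) (D := ball c₀ r₀) isOpen_ball (Ex.mono' hZL hsl)
    (Ex.mono' hZR hsr) (hsl.trans hLΩ) (hsr.trans hRΩ)
  have hK : Kk U ε gn (-e₁) e₁ (Ioo (-h₀) 0 ×ˢ ball c₀ r₀) ZL ZR XL := by
    refine hXL.mono ?_
    rintro x ⟨⟨h1, h2⟩, h3⟩
    refine ⟨⟨h1, by linarith, h3⟩, ?_⟩
    intro s hs
    refine hreg x.2 (hcb _ (ball_subset_closedBall h3)) ⟨s, x.1⟩ ?_ ?_
    · refine (K13_norm s x.1).trans_lt ?_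
      have h4 : |s| ≤ e₁ := abs_le.2 ⟨hs.1, hs.2⟩
      have h5 : |x.1| ≤ h₀ := abs_le.2 ⟨h1.le, by linarith⟩
      linarith
    · change x.1 < d * |s|
      have : 0 ≤ d * |s| := by positivity
      linarith
  refine ⟨h₀, hh₀, hh₀H, ZL, ZR, XL, hZL, hZR, hK, ?_⟩
  refine kick_pos hV.ε_pos hV.ε_lim (al' := -e₁) (ar' := e₁) (by linarith) (by linarith) he
    ((Pool.Agent.MP_ae5b4e_an_BX.isOpen_Rec _ _ _ _).prod isOpen_ball)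
    ((Pool.Agent.MP_ae5b4e_an_BX.isOpen_Rec _ _ _ _).prod isOpen_ball) hZL hZR ?_ ?_ hK
  · rintro x ⟨⟨h1, h2⟩, h3⟩ s hs
    refine ⟨⟨?_, ?_, h1, ?_⟩, h3⟩
    · change -e₂ - e₁ / 2 < s
      linarith [hs.1]
    · change s < -e₁ + e₁ / 2
      linarith [hs.2]
    · change x.1 < h₀
      linarith
  · rintro x ⟨⟨h1, h2⟩, h3⟩ s hs
    refine ⟨⟨?_, ?_, h1, ?_⟩, h3⟩
    · change e₁ - e₁ / 2 < s
      linarith [hs.1]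
    · change s < e₂ + e₁ / 2
      linarith [hs.2]
    · change x.1 < h₀
      linarith

/-- transfer between near data and other families at the same abscissas -/
private theorem K13_step (hV : VF U ε M g gn) (hz : Fw M g Ω z) (hd : 0 < d) {e h r h₀ r₀ : ℝ}
    {c₀ : ℂ} {Zl Zr X ZL ZR XL : ℕ → ℂ × ℂ → ℂ × ℂ} (hN : Nd U ε gn Ω z d e h r c₀ Zl Zr X)
    (hh₀ : 0 < h₀) (hr₀ : 0 < r₀) (h₀h : h₀ ≤ h) (r₀r : r₀ ≤ r) {Ol Or : Set (ℂ × ℂ)}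
    (hOl : IsOpen Ol) (hOr : IsOpen Or) (el : Ex U ε gn Ol z ZL) (er : Ex U ε gn Or z ZR)
    (bl : ∀ y : ℝ, |y| < h₀ → ∀ c ∈ ball c₀ r₀, ((⟨-e, y⟩ : ℂ), c) ∈ Ol)
    (br : ∀ y : ℝ, |y| < h₀ → ∀ c ∈ ball c₀ r₀, ((⟨e, y⟩ : ℂ), c) ∈ Or)
    (hXL : Kk U ε gn (-e) e (Ioo (-h₀) 0 ×ˢ ball c₀ r₀) ZL ZR XL) :
    DefAt U (NN ε) (fm ε (-(h / 2)) X) c₀ ↔ DefAt U (NN ε) (fm ε (-(h₀ / 2)) XL) c₀ := by
  have he := hN.e_pos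
  have hh := hN.h_pos
  have hhe := hN.h_e
  have hhd := hN.h_d
  have hbox : ∀ p : ℂ × ℂ, e - h < |p.1.re| → |p.1.re| < e + h → |p.1.im| < h →
      p.2 ∈ ball c₀ r → p ∈ Ω := by
    intro p h1 h2 h3 h4
    refine hN.reg p.2 h4 p.1 ?_ ?_
    · refine (Complex.norm_le_abs_re_add_abs_im _).trans_lt ?_
      linarith
    · have h5 : d * (e - h) < d * |p.1.re| := mul_lt_mul_of_pos_left h1 hd
      have h6 := (abs_lt.1 h3).2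
      nlinarith
  have hBl : Rec (-e - h) (-e + h) (-h) h ×ˢ ball c₀ r ⊆ Ω := by
    rintro p ⟨⟨h1, h2, h3, h4⟩, h5⟩
    have h6 : |p.1.re| = -p.1.re := abs_of_nonpos (by linarith)
    exact hbox p (by rw [h6]; linarith) (by rw [h6]; linarith) (abs_lt.2 ⟨h3, h4⟩) h5
  have hBr : Rec (e - h) (e + h) (-h) h ×ˢ ball c₀ r ⊆ Ω := by
    rintro p ⟨⟨h1, h2, h3, h4⟩, h5⟩
    have h6 : |p.1.re| = p.1.re := abs_of_nonneg (by linarith)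
    exact hbox p (by rw [h6]; linarith) (by rw [h6]; linarith) (abs_lt.2 ⟨h3, h4⟩) h5
  have oBl : IsOpen (Rec (-e - h) (-e + h) (-h) h ×ˢ ball c₀ r) :=
    (Pool.Agent.MP_ae5b4e_an_BX.isOpen_Rec _ _ _ _).prod isOpen_ball
  have oBr : IsOpen (Rec (e - h) (e + h) (-h) h ×ˢ ball c₀ r) :=
    (Pool.Agent.MP_ae5b4e_an_BX.isOpen_Rec _ _ _ _).prod isOpen_ball
  have bBl : ∀ y : ℝ, |y| < h → ∀ c ∈ ball c₀ r,
      ((⟨-e, y⟩ : ℂ), c) ∈ Rec (-e - h) (-e + h) (-h) h ×ˢ ball c₀ r := by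
    intro y hy c hc
    obtain ⟨h1, h2⟩ := abs_lt.1 hy
    refine ⟨⟨?_, ?_, h1, h2⟩, hc⟩
    · change -e - h < -e
      linarith
    · change -e < -e + h
      linarith
  have bBr : ∀ y : ℝ, |y| < h → ∀ c ∈ ball c₀ r,
      ((⟨e, y⟩ : ℂ), c) ∈ Rec (e - h) (e + h) (-h) h ×ˢ ball c₀ r := by
    intro y hy c hc
    obtain ⟨h1, h2⟩ := abs_lt.1 hy
    refine ⟨⟨?_, ?_, h1, h2⟩, hc⟩
    · change e - h < e
      linarith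
    · change e < e + h
      linarith
  have hsub : ball c₀ r₀ ⊆ ball c₀ r := ball_subset_ball r₀r
  have hR : Ioo (-h₀) 0 ×ˢ ball c₀ r₀ ⊆ Ioo (-h) 0 ×ˢ ball c₀ r :=
    prod_mono (Ioo_subset_Ioo (by linarith) le_rfl) hsub
  have bl' : ∀ y : ℝ, |y| < h₀ → ∀ c ∈ ball c₀ r₀, ((⟨-e, y⟩ : ℂ), c) ∈
      Ol ∩ Rec (-e - h) (-e + h) (-h) h ×ˢ ball c₀ r := fun y hy c hc =>
    ⟨bl y hy c hc, bBl y (hy.trans_le h₀h) c (hsub hc)⟩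
  have br' : ∀ y : ℝ, |y| < h₀ → ∀ c ∈ ball c₀ r₀, ((⟨e, y⟩ : ℂ), c) ∈
      Or ∩ Rec (e - h) (e + h) (-h) h ×ˢ ball c₀ r := fun y hy c hc =>
    ⟨br y hy c hc, bBr y (hy.trans_le h₀h) c (hsub hc)⟩
  have y1 : -(h / 2) ∈ Ioo (-h) 0 := ⟨by linarith, by linarith⟩
  have y2 : -(h₀ / 2) ∈ Ioo (-h) 0 := ⟨by linarith, by linarith⟩
  have y3 : -(h₀ / 2) ∈ Ioo (-h₀) 0 := ⟨by linarith, by linarith⟩
  constructor
  · intro hD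
    have hD1 : DefAt U (NN ε) (fm ε (-(h₀ / 2)) X) c₀ :=
      tra hV hz (by linarith) hh hN.r_pos oBl oBr hBl hBr hN.exl hN.exl hN.exr hN.exr bBl bBr
        hN.kk hN.kk y1 y2 hD
    exact tra hV hz (by linarith) hh₀ hr₀ (hOl.inter oBl) (hOr.inter oBr)
      (inter_subset_right.trans hBl) (inter_subset_right.trans hBr)
      (Ex.mono' hN.exl inter_subset_right) (Ex.mono' el inter_subset_left)
      (Ex.mono' hN.exr inter_subset_right) (Ex.mono' er inter_subset_left) bl' br'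
      (hN.kk.mono hR) hXL y3 y3 hD1
  · intro hD
    have hD1 : DefAt U (NN ε) (fm ε (-(h₀ / 2)) X) c₀ :=
      tra hV hz (by linarith) hh₀ hr₀ (hOl.inter oBl) (hOr.inter oBr)
        (inter_subset_right.trans hBl) (inter_subset_right.trans hBr)
        (Ex.mono' el inter_subset_left) (Ex.mono' hN.exl inter_subset_right)
        (Ex.mono' er inter_subset_left) (Ex.mono' hN.exr inter_subset_right) bl' br'
        hXL (hN.kk.mono hR) y3 y3 hD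
    exact tra hV hz (by linarith) hh hN.r_pos oBl oBr hBl hBr hN.exl hN.exl hN.exr hN.exr bBl bBr
      hN.kk hN.kk y2 y1 hD1

/-- both data compared with the long families -/
private theorem K13_le (hV : VF U ε M g gn) (hz : Fw M g Ω z) (hd : 0 < d) {e h r e' h' r' : ℝ}
    {c₀ : ℂ} {Zl Zr X Zl' Zr' X' : ℕ → ℂ × ℂ → ℂ × ℂ} (hN : Nd U ε gn Ω z d e h r c₀ Zl Zr X)
    (hN' : Nd U ε gn Ω z d e' h' r' c₀ Zl' Zr' X') (hle : e ≤ e') :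
    DefAt U (NN ε) (fm ε (-(h / 2)) X) c₀ ↔ DefAt U (NN ε) (fm ε (-(h' / 2)) X') c₀ := by
  have he := hN.e_pos
  have hr := hN.r_pos
  have hr' := hN'.r_pos
  have hm : 0 < min r r' := lt_min hr hr'
  obtain ⟨r₀, hr₀, hr₀r, hr₀r'⟩ : ∃ r₀ : ℝ, 0 < r₀ ∧ r₀ < r ∧ r₀ < r' :=
    ⟨min r r' / 2, by linarith, by linarith [min_le_left r r'], by linarith [min_le_right r r']⟩
  obtain ⟨h₀, hh₀, hle0, ZL, ZR, XL, eL, eR, k1, k2⟩ := K13_long hV hz hd he hle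
    (lt_min hN.h_pos hN'.h_pos) hr₀ hr₀r' hN'.reg
  obtain ⟨h1, h2⟩ := le_min_iff.1 hle0
  have oL : IsOpen (Rec (-e' - e / 2) (-e + e / 2) (-h₀) h₀ ×ˢ ball c₀ r₀) :=
    (Pool.Agent.MP_ae5b4e_an_BX.isOpen_Rec _ _ _ _).prod isOpen_ball
  have oR : IsOpen (Rec (e - e / 2) (e' + e / 2) (-h₀) h₀ ×ˢ ball c₀ r₀) :=
    (Pool.Agent.MP_ae5b4e_an_BX.isOpen_Rec _ _ _ _).prod isOpen_ball
  have bL : ∀ s : ℝ, -e' ≤ s → s ≤ -e → ∀ y : ℝ, |y| < h₀ → ∀ c ∈ ball c₀ r₀,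
      ((⟨s, y⟩ : ℂ), c) ∈ Rec (-e' - e / 2) (-e + e / 2) (-h₀) h₀ ×ˢ ball c₀ r₀ := by
    intro s h3 h4 y hy c hc
    obtain ⟨h5, h6⟩ := abs_lt.1 hy
    refine ⟨⟨?_, ?_, h5, h6⟩, hc⟩
    · change -e' - e / 2 < s
      linarith
    · change s < -e + e / 2
      linarith
  have bR : ∀ s : ℝ, e ≤ s → s ≤ e' → ∀ y : ℝ, |y| < h₀ → ∀ c ∈ ball c₀ r₀,
      ((⟨s, y⟩ : ℂ), c) ∈ Rec (e - e / 2) (e' + e / 2) (-h₀) h₀ ×ˢ ball c₀ r₀ := by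
    intro s h3 h4 y hy c hc
    obtain ⟨h5, h6⟩ := abs_lt.1 hy
    refine ⟨⟨?_, ?_, h5, h6⟩, hc⟩
    · change e - e / 2 < s
      linarith
    · change s < e' + e / 2
      linarith
  have s1 := K13_step hV hz hd hN hh₀ hr₀ h1 hr₀r.le oL oR eL eR
    (bL (-e) (by linarith) le_rfl) (bR e le_rfl hle) k1
  have s2 := K13_step hV hz hd hN' hh₀ hr₀ h2 hr₀r'.le oL oR eL eR
    (bL (-e') le_rfl (by linarith)) (bR e' hle le_rfl) k2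
  exact s1.trans s2.symm

/-- THE FIRST MODE DOES NOT DEPEND ON THE NEAR DATA.

Proof. `e₋ := min e e'`, `e₊ := max e e'`, `r₀ := min r r' / 2`. Long families: `exists_ex` for the segments
`[-e₊ - e₋ / 2, -e₋ + e₋ / 2]` and `[e₋ - e₋ / 2, e₊ + e₋ / 2]` at the height `0` (regular by the clause `reg` of
the data with `e₊`), parameter radius `r₀`: `ZL, ZR` on boxes of half height `h₀ ≤ min h h'`,
`h₀ ≤ e₋ / 8`, `(1 + d) h₀ ≤ d e₋ / 2`. `exists_kick` at the abscissas `∓ e₋` (`w = e₋ / 2`): `XL`, over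
`Ioo (-h₀) 0 ×ˢ ball c₀ r₀` (`Kk.mono`, `Rp` as in `nd_exists`). `kick_pos`: `XL` is also a kick at the
abscissas `∓ e₊`. Case `e ≤ e'`: `tra` at `∓ e = ∓ e₋` from `(Zl, Zr, X)` to `(ZL, ZR, XL)` (`Ol` = intersection
of the two boxes, `Ex.mono'`, height `h₀`), then `tra` at `∓ e' = ∓ e₊` from `(ZL, ZR, XL)` to
`(Zl', Zr', X')`. Case `e' ≤ e`: the same with `tra` at `∓ e = ∓ e₊` first. -/
theorem nd_any (hV : VF U ε M g gn) (hz : Fw M g Ω z) (hd : 0 < d) {e h r e' h' r' : ℝ} {c₀ : ℂ}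
    {Zl Zr X Zl' Zr' X' : ℕ → ℂ × ℂ → ℂ × ℂ} (hN : Nd U ε gn Ω z d e h r c₀ Zl Zr X)
    (hN' : Nd U ε gn Ω z d e' h' r' c₀ Zl' Zr' X')
    (hD : DefAt U (NN ε) (fm ε (-(h / 2)) X) c₀) : DefAt U (NN ε) (fm ε (-(h' / 2)) X') c₀ := by
  rcases le_total e e' with h1 | h1
  · exact (K13_le hV hz hd hN hN' h1).1 hD
  · exact (K13_le hV hz hd hN' hN h1).2 hD

end Pool.Agent.MP_ae5b4e_an_AZ
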