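import Pool.Agent.Lib.MP_ae5b4e_an_AZ.K8

/-!
# POR, (Z'): existence of near data
-/

noncomputable section

namespace Pool.Agent.MP_ae5b4e_an_AZ

open Complex Set Filter Topology Metric
open Pool.Agent.MP_ae5b4e_an_A1
open Pool.Agent.MP_ae5b4e_an_BX (Rec)
open Pool.Agent.MP_ae5b4e_an_A3 (rs md Dfc osc_le Per_osc Per_zero)
open Pool.Agent.MP_ae5b4e_an_A4 (am Per SN)
open Pool.Agent.MP_ae5b4e_an_MERO (fo St fo_indep norm_fo_le hasSum_fo)

variable {U : Ultrafilter ℕ} {ε : ℕ → ℝ} {M Ω : Set (ℂ × ℂ)} {g : ℂ × ℂ → ℂ × ℂ}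
  {gn : ℕ → ℂ × ℂ → ℂ × ℂ} {z : ℂ × ℂ → ℂ × ℂ} {d : ℝ}

/-- EXISTENCE OF NEAR DATA. Proof. `exists_ex` over the segments `[-e - e / 2, -e / 2]` and `[e /
2, e + e / 2]` at the height `0` (the points satisfy `‖θ‖ < 2 e`, `0 < d |Re θ|`), parameter ball
of radius `r / 2`: `h₀`; `h := min h₀ (min (e / 2) (d e / (1 + d)))`; restrict (`Ex.mono'`) to
`Rec (∓e - h) (∓e + h)`. `exists_kick` with `w = h`, `y₁ = - h`, `y₂ = h`, `D = ball c₀ (r / 2)`;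
`Kk.mono`: for `- h < y < 0`, `|s| ≤ e`: `‖s + i y‖ ≤ e + h < 2 e`, `y < 0 ≤ d |s|`, so in `Rp`.
-/
theorem nd_exists (hV : VF U ε M g gn) (hz : Fw M g Ω z) (hd : 0 < d) {e r : ℝ} (he : 0 < e)
    (hr : 0 < r) {c₀ : ℂ} (hreg : ∀ c ∈ ball c₀ r, ∀ θ : ℂ, ‖θ‖ < 2 * e → θ.im < d * |θ.re| →
      (θ, c) ∈ Ω) : ∃ (h : ℝ) (Zl Zr X : ℕ → ℂ × ℂ → ℂ × ℂ),
        Nd U ε gn Ω z d e h (r / 2) c₀ Zl Zr X := by
  have hr2 : 0 < r / 2 := by positivity
  have hreg' : ∀ c ∈ closedBall c₀ (r / 2), ∀ θ : ℂ, ‖θ‖ < 2 * e → θ.im < d * |θ.re| →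
      (θ, c) ∈ Ω := fun c hc θ h1 h2 => by
    refine hreg c ?_ θ h1 h2
    rw [mem_ball]
    rw [mem_closedBall] at hc
    linarith
  have hpt : ∀ p : ℂ × ℂ, e / 2 ≤ |p.1.re| → |p.1.re| ≤ e + e / 2 → p.1.im = 0 →
      p.2 ∈ closedBall c₀ (r / 2) → p ∈ Ω := by
    rintro ⟨θ, c⟩ h1 h2 h3 h4
    simp only at h1 h2 h3 h4
    refine hreg' c h4 θ ?_ ?_
    · have h5 := Complex.norm_le_abs_re_add_abs_im θ
      rw [h3, abs_zero, add_zero] at h5
      linarith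
    · rw [h3]
      have : 0 < |θ.re| := by linarith
      positivity
  obtain ⟨hl, hl0, hL⟩ := exists_ex hV hz (a₁ := -e - e / 2) (a₂ := -(e / 2)) (y := 0)
    (by linarith) (g₀ := c₀) hr2 (fun p h1 h2 h3 h4 => by
      refine hpt p ?_ ?_ h3 h4
      · rw [abs_of_nonpos (by linarith)]
        linarith
      · rw [abs_of_nonpos (by linarith)]
        linarith)
  obtain ⟨hr', hr0, hR⟩ := exists_ex hV hz (a₁ := e / 2) (a₂ := e + e / 2) (y := 0)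
    (by linarith) (g₀ := c₀) hr2 (fun p h1 h2 h3 h4 => by
      refine hpt p ?_ ?_ h3 h4
      · rw [abs_of_nonneg (by linarith)]
        linarith
      · rw [abs_of_nonneg (by linarith)]
        linarith)
  set h : ℝ := min (min hl hr') (min (e / 2) (d * e / (1 + d))) with hh
  have hh0 : 0 < h := lt_min (lt_min hl0 hr0) (lt_min (by positivity) (by positivity))
  have h1 : h ≤ hl := (min_le_left _ _).trans (min_le_left _ _)
  have h2 : h ≤ hr' := (min_le_left _ _).trans (min_le_right _ _)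
  have h3 : h ≤ e / 2 := (min_le_right _ _).trans (min_le_left _ _)
  have h4 : h ≤ d * e / (1 + d) := (min_le_right _ _).trans (min_le_right _ _)
  have h5 : h * (1 + d) ≤ d * e := (le_div_iff₀ (by positivity)).1 h4
  obtain ⟨hLΩ, Zl, hZl⟩ := hL h hh0 h1
  obtain ⟨hRΩ, Zr, hZr⟩ := hR h hh0 h2
  have hsL : Rec (-e - h) (-e + h) (-h) h ×ˢ ball c₀ (r / 2) ⊆
      Rec (-e - e / 2) (-(e / 2)) (0 - h) (0 + h) ×ˢ ball c₀ (r / 2) := by
    rintro ⟨θ, c⟩ ⟨⟨a1, a2, a3, a4⟩, a5⟩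
    simp only at a1 a2 a3 a4 a5
    exact ⟨⟨by simp only; linarith, by simp only; linarith, by simp only; linarith,
      by simp only; linarith⟩, a5⟩
  have hsR : Rec (e - h) (e + h) (-h) h ×ˢ ball c₀ (r / 2) ⊆
      Rec (e / 2) (e + e / 2) (0 - h) (0 + h) ×ˢ ball c₀ (r / 2) := by
    rintro ⟨θ, c⟩ ⟨⟨a1, a2, a3, a4⟩, a5⟩
    simp only at a1 a2 a3 a4 a5
    exact ⟨⟨by simp only; linarith, by simp only; linarith, by simp only; linarith,
      by simp only; linarith⟩, a5⟩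
  have exl := Ex.mono' hZl hsL
  have exr := Ex.mono' hZr hsR
  obtain ⟨X, hX⟩ := exists_kick hV hz (al := -e) (ar := e) (by linarith) hh0 isOpen_ball exl exr
    (hsL.trans hLΩ) (hsR.trans hRΩ)
  refine ⟨h, Zl, Zr, X, he, hh0, hr2, by linarith, h5,
    fun c hc => hreg' c (ball_subset_closedBall hc), exl, exr, hX.mono ?_⟩
  rintro ⟨y, c⟩ ⟨⟨a1, a2⟩, a3⟩
  simp only at a1 a2 a3
  refine ⟨⟨a1, by simp only; linarith, a3⟩, fun s hs => ?_⟩
  refine hreg' c (ball_subset_closedBall a3) _ ?_ ?_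
  · have b1 := Complex.norm_le_abs_re_add_abs_im (⟨s, y⟩ : ℂ)
    simp only at b1
    have b2 : |s| ≤ e := abs_le.2 hs
    have b3 : |y| ≤ h := abs_le.2 ⟨a1.le, by linarith⟩
    linarith
  · have b1 : 0 ≤ d * |s| := by positivity
    simp only
    linarith

end Pool.Agent.MP_ae5b4e_an_AZ
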