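import Pool.Agent.Lib.MP_ae5b4e_an_AZ.K13
import Pool.Agent.Lib.MP_ae5b4e_an_AZ.K13a

/-!
# POR, (Z'): the deficiency propagates to all parameters
-/

noncomputable section

namespace Pool.Agent.MP_ae5b4e_an_AZ

open Complex Set Filter Topology Metric
open Pool.Agent.MP_ae5b4e_an_A1
open Pool.Agent.MP_ae5b4e_an_BX (Rec)
open Pool.Agent.MP_ae5b4e_an_A3 (rs md Dfc osc_le Per_osc Per_zero)
open Pool.Agent.MP_ae5b4e_an_A4 (am Per SN)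
open Pool.Agent.MP_ae5b4e_an_MERO (fo St fo_indep norm_fo_le hasSum_fo)

variable {U : Ultrafilter ℕ} {ε : ℕ → ℝ} {M Ω : Set (ℂ × ℂ)} {g : ℂ × ℂ → ℂ × ℂ}
  {gn : ℕ → ℂ × ℂ → ℂ × ℂ} {z : ℂ × ℂ → ℂ × ℂ} {d : ℝ}

/-- Proof. `ball c₁ (r - dist c₁ c₀) ⊆ ball c₀ r`; restrict all clauses. -/
theorem nd_sub {e h r : ℝ} {c₀ c₁ : ℂ} {Zl Zr X : ℕ → ℂ × ℂ → ℂ × ℂ}
    (hN : Nd U ε gn Ω z d e h r c₀ Zl Zr X) (hc : c₁ ∈ ball c₀ r) :
    Nd U ε gn Ω z d e h (r - dist c₁ c₀) c₁ Zl Zr X := by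
  have hsub : ball c₁ (r - dist c₁ c₀) ⊆ ball c₀ r := by
    refine ball_subset_ball' ?_
    linarith
  have hd : dist c₁ c₀ < r := hc
  refine ⟨hN.e_pos, hN.h_pos, by linarith, hN.h_e, hN.h_d, fun c hc' => hN.reg c (hsub hc'),
    Ex.mono' hN.exl (Set.prod_mono_right hsub), Ex.mono' hN.exr (Set.prod_mono_right hsub),
    hN.kk.mono (Set.prod_mono_right hsub)⟩

/-- Proof. `def_prop` on the ball (convex, so preconnected), `N = NN ε` (`NN_lim`). Local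
differentiability: `Pd.fm_diff` with `y₁ = - 3 h / 4`, `y₂ = - h / 4`, small balls. Local upper bounds
`exp (δ NN)`: `Pd.fm_le` with `y₂ = - min δ (h / 4)`. -/
theorem nd_spread (h0 : ∀ n, 0 < ε n) (h1 : Tendsto ε U (𝓝 0)) {e h r : ℝ} {c₀ : ℂ}
    {Zl Zr X : ℕ → ℂ × ℂ → ℂ × ℂ} (hN : Nd U ε gn Ω z d e h r c₀ Zl Zr X) {c₁ : ℂ}
    (hc₁ : c₁ ∈ ball c₀ r) (hD : DefAt U (NN ε) (fm ε (-(h / 2)) X) c₁) :
    ∀ c ∈ ball c₀ r, DefAt U (NN ε) (fm ε (-(h / 2)) X) c := by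
  have hh := hN.h_pos
  have hsub : ∀ w ∈ ball c₀ r, ∀ y₂ : ℝ, y₂ < 0 → ∀ y ∈ Icc (-(3 * h / 4)) y₂,
      ∀ c ∈ closedBall w ((r - dist w c₀) / 2), ((y, c) : ℝ × ℂ) ∈ Ioo (-h) 0 ×ˢ ball c₀ r := by
    intro w hw y₂ hy₂ y hy c hc
    have hw' : dist w c₀ < r := hw
    refine ⟨⟨by linarith [hy.1], by linarith [hy.2]⟩, ?_⟩
    rw [mem_closedBall] at hc
    rw [mem_ball]
    have h2 := dist_triangle c w c₀
    linarith
  have hrad : ∀ w ∈ ball c₀ r, 0 < (r - dist w c₀) / 2 := by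
    intro w hw
    have hw' : dist w c₀ < r := hw
    linarith
  refine def_prop (NN_lim h0 h1) isOpen_ball (convex_ball c₀ r).isPreconnected ?_ ?_ hc₁ hD
  · intro w hw
    refine ⟨(r - dist w c₀) / 2, hrad w hw, ?_⟩
    exact hN.kk.pd.fm_diff h0 (y₁ := -(3 * h / 4)) (y₂ := -(h / 4))
      ⟨by linarith, by linarith⟩ (hsub w hw _ (by linarith))
  · intro δ hδ w hw
    refine ⟨(r - dist w c₀) / 2, hrad w hw, ?_⟩
    have hm : 0 < min δ (h / 4) := lt_min hδ (by linarith)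
    have hm1 : min δ (h / 4) ≤ h / 4 := min_le_right _ _
    have h3 := hN.kk.pd.fm_le h0 (y₁ := -(3 * h / 4)) (y₂ := -min δ (h / 4)) (y := -(h / 2))
      ⟨by linarith, by linarith⟩ (hsub w hw _ (by linarith))
    filter_upwards [h3] with n hn v hv
    refine (hn v hv).trans (Real.exp_le_exp.2 ?_)
    rw [neg_neg]
    exact mul_le_mul_of_nonneg_right (min_le_left _ _) (NN_pos h0 n).le

/-- THE DEFICIENCY PROPAGATES. Proof. Let `S := {c | DfZ .. c}`. For every `c₁` there are near data `Nd`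
on a ball `ball c₁ r₁` (`hn`, `nd_exists`). If `DfZ c` holds for one `c ∈ ball c₁ r₁`: `nd_sub` and `nd_any`
give `DefAt` at `c` for these data, `nd_spread`: for all points of the ball, so `DfZ` on the whole ball
(`nd_sub`). So `S` and its complement are open; `ℂ` is preconnected (`isClopen_iff`). -/
theorem dz_all (hV : VF U ε M g gn) (hz : Fw M g Ω z) (hd : 0 < d)
    (hn : ∀ c : ℂ, ∃ e r : ℝ, 0 < e ∧ 0 < r ∧ ∀ c' ∈ ball c r, ∀ θ : ℂ, ‖θ‖ < 2 * e →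
      θ.im < d * |θ.re| → (θ, c') ∈ Ω) {c₀ : ℂ} (hc : DfZ U ε gn Ω z d c₀) (c : ℂ) :
    DfZ U ε gn Ω z d c := by
  have hloc : ∀ c₁ : ℂ, ∃ r₁ : ℝ, 0 < r₁ ∧ ∀ c ∈ ball c₁ r₁, ∀ c' ∈ ball c₁ r₁,
      DfZ U ε gn Ω z d c → DfZ U ε gn Ω z d c' := by
    intro c₁
    obtain ⟨e, r, he, hr, hreg⟩ := hn c₁
    obtain ⟨h, Zl, Zr, X, hN⟩ := nd_exists hV hz hd he hr hreg
    refine ⟨r / 2, by linarith, fun c hc c' hc' hDZ => ?_⟩
    obtain ⟨e', h', r', Zl', Zr', X', hN', hDef⟩ := hDZ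
    have h3 := nd_any hV hz hd hN' (nd_sub hN hc) hDef
    exact ⟨e, h, r / 2 - dist c' c₁, Zl, Zr, X, nd_sub hN hc',
      nd_spread hV.ε_pos hV.ε_lim hN hc h3 c' hc'⟩
  have hcl : IsClopen {c | DfZ U ε gn Ω z d c} := by
    constructor
    · rw [← isOpen_compl_iff, Metric.isOpen_iff]
      intro c₁ hc₁
      obtain ⟨r₁, hr₁, h3⟩ := hloc c₁
      exact ⟨r₁, hr₁, fun c hc' hDZ => hc₁ (h3 c hc' c₁ (mem_ball_self hr₁) hDZ)⟩
    · rw [Metric.isOpen_iff]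
      intro c₁ hc₁
      obtain ⟨r₁, hr₁, h3⟩ := hloc c₁
      exact ⟨r₁, hr₁, fun c hc' => h3 c₁ (mem_ball_self hr₁) c hc' hc₁⟩
  rcases isClopen_iff.1 hcl with h3 | h3
  · have h4 : c₀ ∈ {c | DfZ U ε gn Ω z d c} := hc
    rw [h3] at h4
    exact absurd h4 (Set.notMem_empty _)
  · have h4 : c ∈ {c | DfZ U ε gn Ω z d c} := by
      rw [h3]
      exact mem_univ c
    exact h4

end Pool.Agent.MP_ae5b4e_an_AZ
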