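import Pool.Agent.Lib.MP_ae5b4e_an_AZ.K15a
import Pool.Agent.Lib.MP_ae5b4e_an_AZ.K14

/-!
# POR, (Z'): the contradiction at large parameters
-/

noncomputable section

namespace Pool.Agent.MP_ae5b4e_an_AZ

open Complex Set Filter Topology Metric
open Pool.Agent.MP_ae5b4e_an_A1
open Pool.Agent.MP_ae5b4e_an_BX (Rec)
open Pool.Agent.MP_ae5b4e_an_A3 (rs md Dfc osc_le Per_osc Per_zero)
open Pool.Agent.MP_ae5b4e_an_A4 (am Per SN)
open Pool.Agent.MP_ae5b4e_an_MERO (fo St fo_indep norm_fo_le hasSum_fo)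

variable {U : Ultrafilter ℕ} {ε : ℕ → ℝ} {M Ω : Set (ℂ × ℂ)} {g : ℂ × ℂ → ℂ × ℂ}
  {gn : ℕ → ℂ × ℂ → ℂ × ℂ} {z : ℂ × ℂ → ℂ × ℂ} {d ρ p b0 b A C R0 : ℝ}

private def K15_T (p b0 : ℝ) (W : ℂ) : ℂ := (W + (b0 : ℂ) * I) / ((1 + p : ℝ) : ℂ)

private theorem K15_re {p b0 : ℝ} (hp : 0 < p) (W : ℂ) : (1 + p) * (K15_T p b0 W).re = W.re := by
  have h1 : (1 + p : ℝ) ≠ 0 := by positivity
  unfold K15_T
  rw [Complex.div_ofReal_re]
  field_simp
  simp

private theorem K15_im {p b0 : ℝ} (hp : 0 < p) (W : ℂ) :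
    (1 + p) * (K15_T p b0 W).im = W.im + b0 := by
  have h1 : (1 + p : ℝ) ≠ 0 := by positivity
  unfold K15_T
  rw [Complex.div_ofReal_im]
  field_simp
  simp

private theorem K15_ball {p b0 s : ℝ} (hp : 0 < p) {W W' : ℂ} (h : W' ∈ ball W s) :
    K15_T p b0 W' ∈ ball (K15_T p b0 W) s := by
  rw [mem_ball, dist_eq_norm] at h ⊢
  have e1 : K15_T p b0 W' - K15_T p b0 W = (W' - W) / ((1 + p : ℝ) : ℂ) := by
    unfold K15_T
    ring
  rw [e1, norm_div, Complex.norm_real, Real.norm_eq_abs, abs_of_pos (by positivity)]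
  refine lt_of_le_of_lt (div_le_self (norm_nonneg _) (by linarith)) h

private theorem K15_diff (p b0 : ℝ) : Differentiable ℂ (K15_T p b0) := by
  unfold K15_T
  fun_prop

private theorem K15_open (p b0 A R1 : ℝ) : IsOpen (Df p b0 A R1) := by
  have h1 : IsOpen {c : ℂ | R1 < (1 + p) * c.re} := isOpen_lt (by fun_prop) (by fun_prop)
  have h2 : IsOpen {c : ℂ | |(1 + p) * c.im - b0 - Real.pi / 2| < A} :=
    isOpen_lt (by fun_prop) (by fun_prop)
  exact h1.inter h2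

private theorem K15_mem {p b0 A R1 : ℝ} (hp : 0 < p) {W : ℂ} (h1 : R1 < W.re)
    (h2 : |W.im - Real.pi / 2| < A) : K15_T p b0 W ∈ Df p b0 A R1 := by
  refine ⟨?_, ?_⟩
  · rw [K15_re hp]
    exact h1
  · rw [K15_im hp, add_sub_cancel_right]
    exact h2

private theorem K15_cb {O : Set ℂ} (hO : IsOpen O) {c : ℂ} (hc : c ∈ O) :
    ∃ s > 0, closedBall c s ⊆ O := by
  obtain ⟨s, hs, h⟩ := Metric.isOpen_iff.1 hO c hc
  exact ⟨s / 2, by positivity, (closedBall_subset_ball (by linarith)).trans h⟩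

/-- the region of the far kick -/
private def K15_R (p b0 A b C h R1 : ℝ) : Set (ℝ × ℂ) :=
  {x : ℝ × ℂ | x.2 ∈ Df p b0 A R1 ∧ -h < x.1 ∧
    (x.1 < -(C * Real.exp (-((1 + p) * x.2.re))) ∨
      (|(1 + p) * x.2.im - b0 - Real.pi / 2| < b ∧ x.1 < 0))}

private theorem K15_box1 {p b0 A b C h R1 y₁ y₂ : ℝ} {c : ℂ} (hc : c ∈ Df p b0 A R1)
    (hy1 : -h < y₁) (hy : y₂ < -(C * Real.exp (-((1 + p) * c.re)))) :
    ∃ s > 0, ∀ y ∈ Icc y₁ y₂, ∀ c' ∈ closedBall c s, (y, c') ∈ K15_R p b0 A b C h R1 := by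
  have hO : IsOpen (Df p b0 A R1 ∩ {c' : ℂ | y₂ < -(C * Real.exp (-((1 + p) * c'.re)))}) :=
    (K15_open p b0 A R1).inter (isOpen_lt (by fun_prop) (by fun_prop))
  obtain ⟨s, hs, h⟩ := K15_cb hO ⟨hc, hy⟩
  refine ⟨s, hs, fun y hy' c' hc' => ?_⟩
  obtain ⟨h1, h2⟩ := h hc'
  exact ⟨h1, hy1.trans_le hy'.1, Or.inl (lt_of_le_of_lt hy'.2 h2)⟩

private theorem K15_box2 {p b0 A b C h R1 y₁ y₂ : ℝ} {c : ℂ} (hc : c ∈ Df p b0 A R1)
    (hb : |(1 + p) * c.im - b0 - Real.pi / 2| < b) (hy1 : -h < y₁) (hy : y₂ < 0) :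
    ∃ s > 0, ∀ y ∈ Icc y₁ y₂, ∀ c' ∈ closedBall c s, (y, c') ∈ K15_R p b0 A b C h R1 := by
  have hO : IsOpen (Df p b0 A R1 ∩ {c' : ℂ | |(1 + p) * c'.im - b0 - Real.pi / 2| < b}) :=
    (K15_open p b0 A R1).inter (isOpen_lt (by fun_prop) (by fun_prop))
  obtain ⟨s, hs, h⟩ := K15_cb hO ⟨hc, hb⟩
  refine ⟨s, hs, fun y hy' c' hc' => ?_⟩
  obtain ⟨h1, h2⟩ := h hc'
  exact ⟨h1, hy1.trans_le hy'.1, Or.inr ⟨h2, lt_of_le_of_lt hy'.2 hy⟩⟩

/-- NO DEFICIENCY. `hT` = the tip theorem at the far parameters with `be = bt`.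

Proof. Suppose `DfZ c₀`. `far_data`. `f n W := fm ε (-(h / 2)) X n ((W + i b0) / (1 + p))`, defined for
`Re W > R1`, `|Im W - π / 2| < A` (then `c = (W + i b0) / (1 + p) ∈ Df`, `(1 + p) Re c = Re W`,
`(1 + p) Im c - b0 = Im W`). `half_strip` with `bc = π / 2`, `N = NN ε`: `hd`: `Pd.fm_diff` on small closed
balls in `Df` (heights between `- 3 h / 4` and `- h / 2 + small`; note `C exp (- Re W) < h / 2`, so take
`y₂ = - h / 2 + κ` with `κ` small; or any two heights around `- h / 2`), composed with the affine map.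
`h1`: `Pd.fm_le` with `y₂ = - (C exp (- Re z) + δ / 2)` at the centre `z` and a ball so small that
`C exp (- Re w) ` varies by less than `δ / 2`. `h2`: `Pd.fm_le` with `y₂ = - min δ (h / 4)`. `h3`: `hT` at
`x > R1 ≥ R0`, the ball of radius `r` about `ct p b0 bt x` inside `Df`. Conclusion: no point of
`Re W > R1`, `|Im W - π / 2| < b` is deficient for `f`. On the other hand let `W := R1 + 1 + i π / 2`,
`c := (W + i b0) / (1 + p)`: by `dz_all` (`hG.near`) `DfZ c`, so there are near data at `c` with `DefAt`.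
The far data restricted to a small ball about `c` (all points of it in the strip) are near data with
`e = ρ` (`Nd`: `reg` = `strip`), so `nd_any`: `DefAt (fm ε (-(h / 2)) X) c`, hence `DefAt f W` (affine change of
variable). Contradiction. -/
theorem no_dz (hV : VF U ε M g gn) (hG : ZGeo M g Ω z d ρ p b0 b A C R0) {bt : ℝ}
    (hbt : |bt - Real.pi / 2| < A)
    (hT : ∀ x : ℝ, R0 < x → ∀ (h r : ℝ) (Zl Zr X : ℕ → ℂ × ℂ → ℂ × ℂ), 0 < h → 0 < r → 2 * h ≤ ρ →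
      h * (1 + d) ≤ d * ρ → C * Real.exp (-x) < h / 2 → ball (ct p b0 bt x) r ⊆ Df p b0 A R0 →
      Ex U ε gn (Rec (-ρ - h) (-ρ + h) (-h) h ×ˢ ball (ct p b0 bt x) r) z Zl →
      Ex U ε gn (Rec (ρ - h) (ρ + h) (-h) h ×ˢ ball (ct p b0 bt x) r) z Zr →
      Kk U ε gn (-ρ) ρ {y : ℝ × ℂ | y.2 ∈ ball (ct p b0 bt x) r ∧ -h < y.1 ∧
        y.1 < -(C * Real.exp (-((1 + p) * y.2.re)))} Zl Zr X →
      ∀ δ : ℝ, 0 < δ → ∀ᶠ n in (U : Filter ℕ),
        Real.exp (-((C * Real.exp (-x) + δ) * NN ε n)) ≤ ‖fm ε (-(h / 2)) X n (ct p b0 bt x)‖)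
    (c₀ : ℂ) : ¬ DfZ U ε gn Ω z d c₀ := by
  intro hDZ
  obtain ⟨h, R1, Zl, Zr, X, hh, hhρ, hhd, hR01, hCR1, hExl, hExr, hKk⟩ := far_data hV hG
  have hK : Kk U ε gn (-ρ) ρ (K15_R p b0 A b C h R1) Zl Zr X := hKk
  have hp := hG.p_pos
  have hC := hG.C_nonneg
  have hNN : ∀ n, 0 ≤ NN ε n := fun n => (NN_pos hV.ε_pos n).le
  have hCx : ∀ x : ℝ, R1 < x → C * Real.exp (-x) < h / 2 := fun x hx => by
    refine lt_of_le_of_lt (mul_le_mul_of_nonneg_left ?_ hC) hCR1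
    exact Real.exp_le_exp.2 (by linarith)
  have hCx0 : ∀ x : ℝ, 0 ≤ C * Real.exp (-x) := fun x => mul_nonneg hC (Real.exp_pos _).le
  have hre : ∀ W : ℂ, Real.exp (-((1 + p) * (K15_T p b0 W).re)) = Real.exp (-W.re) := fun W => by
    rw [K15_re hp]
  -- the centre line
  have hz0 : ¬ DefAt U (NN ε) (fun n W => fm ε (-(h / 2)) X n (K15_T p b0 W))
      (((R1 + 1 : ℝ) : ℂ) + ((Real.pi / 2 : ℝ) : ℂ) * I) := by
    refine half_strip (NN_lim hV.ε_pos hV.ε_lim) (R0 := R1) (A := A) (b := b) (C := C)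
      (bc := Real.pi / 2) (bt := bt) hG.b_gt hG.b_le hbt hC ?_ ?_ ?_ ?_ ?_ ?_
    · intro w hw1 hw2
      have h1 := hCx w.re hw1
      have h2 := hCx0 w.re
      obtain ⟨s, hs, hbox⟩ := K15_box1 (b := b) (C := C) (h := h) (y₁ := -(3 * h / 4))
        (y₂ := -((h / 2 + C * Real.exp (-w.re)) / 2)) (K15_mem (b0 := b0) hp hw1 hw2)
        (by linarith) (by rw [hre]; linarith)
      refine ⟨s, hs, ?_⟩
      filter_upwards [hK.pd.fm_diff hV.ε_pos (y := -(h / 2)) ⟨by linarith, by linarith⟩ hbox]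
        with n hn
      exact hn.comp (K15_diff p b0).differentiableOn fun w' hw' => K15_ball hp hw'
    · intro δ hδ w hw1 hw2
      have h1 := hCx w.re hw1
      have h2 := hCx0 w.re
      obtain ⟨δ', hδ', hδ1, hδ2⟩ : ∃ δ' > 0, δ' ≤ δ / 2 ∧ C * Real.exp (-w.re) + δ' < h / 2 :=
        ⟨min (δ / 2) ((h / 2 - C * Real.exp (-w.re)) / 2), lt_min (by linarith) (by linarith),
          min_le_left _ _, by
            have := min_le_right (δ / 2) ((h / 2 - C * Real.exp (-w.re)) / 2)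
            linarith⟩
      obtain ⟨s, hs, hbox⟩ := K15_box1 (b := b) (C := C) (h := h) (y₁ := -(3 * h / 4))
        (y₂ := -(C * Real.exp (-w.re) + δ')) (K15_mem (b0 := b0) hp hw1 hw2)
        (by linarith) (by rw [hre]; linarith)
      have hO : IsOpen {w' : ℂ | C * Real.exp (-w.re) < C * Real.exp (-w'.re) + δ / 2} :=
        isOpen_lt (by fun_prop) (by fun_prop)
      obtain ⟨s', hs', hb'⟩ := Metric.isOpen_iff.1 hO w (by
        show C * Real.exp (-w.re) < C * Real.exp (-w.re) + δ / 2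
        linarith)
      refine ⟨min s s', lt_min hs hs', ?_⟩
      filter_upwards [hK.pd.fm_le hV.ε_pos (y := -(h / 2)) ⟨by linarith, by linarith⟩ hbox]
        with n hn w' hw'
      refine (hn _ (K15_ball hp (ball_subset_ball (min_le_left _ _) hw'))).trans ?_
      refine Real.exp_le_exp.2 (mul_le_mul_of_nonneg_right ?_ (hNN n))
      have h3 : C * Real.exp (-w.re) < C * Real.exp (-w'.re) + δ / 2 :=
        hb' (ball_subset_ball (min_le_right _ _) hw')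
      linarith
    · intro δ hδ w hw1 hw2
      obtain ⟨s, hs, hbox⟩ := K15_box2 (b := b) (C := C) (h := h) (y₁ := -(3 * h / 4))
        (y₂ := -(min δ (h / 4)))
        (K15_mem (A := A) (b0 := b0) hp hw1 (lt_of_lt_of_le hw2 hG.b_le))
        (by rw [K15_im hp, add_sub_cancel_right]; exact hw2) (by linarith)
        (by have : 0 < min δ (h / 4) := lt_min hδ (by linarith)
            linarith)
      refine ⟨s, hs, ?_⟩
      have h3 := min_le_right δ (h / 4)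
      filter_upwards [hK.pd.fm_le hV.ε_pos (y := -(h / 2)) ⟨by linarith, by linarith⟩ hbox]
        with n hn w' hw'
      refine (hn _ (K15_ball hp hw')).trans ?_
      refine Real.exp_le_exp.2 (mul_le_mul_of_nonneg_right ?_ (hNN n))
      rw [neg_neg]
      exact min_le_left _ _
    · intro δ hδ x hx
      have e1 : K15_T p b0 (x + bt * I) = ct p b0 bt x := by
        unfold K15_T ct
        push_cast
        ring
      have hmem : ct p b0 bt x ∈ Df p b0 A R1 := by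
        rw [← e1]
        refine K15_mem hp ?_ ?_
        · simpa using hx
        · simpa using hbt
      obtain ⟨r, hr, hb'⟩ := K15_cb (K15_open p b0 A R1) hmem
      have hb1 : ball (ct p b0 bt x) r ⊆ Df p b0 A R1 := ball_subset_closedBall.trans hb'
      have hb0 : ball (ct p b0 bt x) r ⊆ Df p b0 A R0 := fun c hc =>
        ⟨lt_of_le_of_lt hR01 (hb1 hc).1, (hb1 hc).2⟩
      have h4 := hT x (lt_of_le_of_lt hR01 hx) h r Zl Zr X hh hr hhρ hhd (hCx x hx) hb0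
        (Ex.mono' hExl (prod_mono_right hb1)) (Ex.mono' hExr (prod_mono_right hb1))
        (hK.mono fun y hy => ⟨hb1 hy.1, hy.2.1, Or.inl hy.2.2⟩) δ hδ
      filter_upwards [h4] with n hn
      show _ ≤ ‖fm ε (-(h / 2)) X n (K15_T p b0 (x + bt * I))‖
      rw [e1]
      exact hn
    · simp
    · have : 0 < b := lt_trans (by positivity) hG.b_gt
      simpa using this
  -- the far data are near data
  apply hz0
  generalize hw : (((R1 + 1 : ℝ) : ℂ) + ((Real.pi / 2 : ℝ) : ℂ) * I) = w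
  have hw1 : R1 < w.re := by
    rw [← hw]
    simp
  have hw2 : |w.im - Real.pi / 2| < b := by
    have : 0 < b := lt_trans (by positivity) hG.b_gt
    rw [← hw]
    simpa using this
  obtain ⟨e', h', r', Zl', Zr', X', hN', hD'⟩ :=
    dz_all hV hG.fw hG.d_pos hG.near hDZ (K15_T p b0 w)
  have hO : IsOpen (Df p b0 A R1 ∩ {c' : ℂ | |(1 + p) * c'.im - b0 - Real.pi / 2| < b}) :=
    (K15_open p b0 A R1).inter (isOpen_lt (by fun_prop) (by fun_prop))
  obtain ⟨r, hr, hb'⟩ := Metric.isOpen_iff.1 hO (K15_T p b0 w)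
    ⟨K15_mem (b0 := b0) hp hw1 (lt_of_lt_of_le hw2 hG.b_le), by
      show |(1 + p) * (K15_T p b0 w).im - b0 - Real.pi / 2| < b
      rw [K15_im hp, add_sub_cancel_right]
      exact hw2⟩
  have hb1 : ball (K15_T p b0 w) r ⊆ Df p b0 A R1 := fun c hc => (hb' hc).1
  have hNd : Nd U ε gn Ω z d ρ h r (K15_T p b0 w) Zl Zr X :=
    ⟨hG.ρ_pos, hh, hr, hhρ, hhd, fun c hc θ hθ1 hθ2 => hG.strip c (hb' hc).2 θ hθ1 hθ2,
      Ex.mono' hExl (prod_mono_right hb1), Ex.mono' hExr (prod_mono_right hb1),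
      hK.mono fun y hy => ⟨hb1 hy.2, hy.1.1, Or.inr ⟨(hb' hy.2).2, hy.1.2⟩⟩⟩
  obtain ⟨s, hs, k, hk, hev⟩ := nd_any hV hG.fw hG.d_pos hN' hNd hD'
  exact ⟨s, hs, k, hk, hev.mono fun n hn w' hw' => hn _ (K15_ball hp hw')⟩

end Pool.Agent.MP_ae5b4e_an_AZ
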