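import Pool.Agent.Lib.MP_ae5b4e_an_AZ.K13
import Pool.Agent.Lib.MP_ae5b4e_an_AZ.K13a
import Pool.Agent.Lib.MP_ae5b4e_an_AZ.K12

/-!
# POR, (Z'): from a deficient kick of a stretch to near data
-/

noncomputable section

namespace Pool.Agent.MP_ae5b4e_an_AZ

open Complex Set Filter Topology Metric
open Pool.Agent.MP_ae5b4e_an_A1
open Pool.Agent.MP_ae5b4e_an_BX (Rec)
open Pool.Agent.MP_ae5b4e_an_A3 (rs md Dfc osc_le Per_osc Per_zero)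
open Pool.Agent.MP_ae5b4e_an_A4 (am Per SN)
open Pool.Agent.MP_ae5b4e_an_MERO (fo St fo_indep norm_fo_le hasSum_fo)

/-- a neighbourhood of a horizontal segment -/
private theorem K16_seg {O : Set (ℂ × ℂ)} (hO : IsOpen O) {a b : ℝ} (hab : a ≤ b) {c₀ : ℂ}
    (h : ∀ s ∈ Icc a b, ((⟨s, 0⟩ : ℂ), c₀) ∈ O) : ∃ κ : ℝ, 0 < κ ∧ ∀ θ c : ℂ, a - κ ≤ θ.re →
      θ.re ≤ b + κ → |θ.im| ≤ κ → c ∈ closedBall c₀ κ → (θ, c) ∈ O := by
  have hS : IsCompact ((Icc a b ×ℂ {(0 : ℝ)}) ×ˢ {c₀} : Set (ℂ × ℂ)) :=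
    (isCompact_Icc.reProdIm isCompact_singleton).prod isCompact_singleton
  have hSO : ((Icc a b ×ℂ {(0 : ℝ)}) ×ˢ {c₀} : Set (ℂ × ℂ)) ⊆ O := by
    rintro ⟨θ, c⟩ ⟨⟨h1, h2⟩, h3⟩
    have h4 : θ = ⟨θ.re, 0⟩ := Complex.ext rfl h2
    have h5 : c = c₀ := h3
    rw [h4, h5]
    exact h _ h1
  obtain ⟨δ, hδ, hδO⟩ := hS.exists_cthickening_subset_open hO hSO
  refine ⟨δ / 2, by positivity, fun θ c h1 h2 h3 h4 => hδO ?_⟩
  have hm1 : a ≤ max a (min b θ.re) := le_max_left _ _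
  have hm2 : max a (min b θ.re) ≤ b := max_le hab (min_le_left _ _)
  refine mem_cthickening_of_dist_le (θ, c) ((⟨max a (min b θ.re), 0⟩ : ℂ), c₀) δ _
    ⟨⟨⟨hm1, hm2⟩, rfl⟩, rfl⟩ ?_
  rw [Prod.dist_eq]
  refine max_le ?_ ?_
  · dsimp only
    rw [dist_eq_norm]
    refine (Complex.norm_le_abs_re_add_abs_im _).trans ?_
    rw [Complex.sub_re, Complex.sub_im]
    dsimp only
    rw [sub_zero]
    have h5 : |θ.re - max a (min b θ.re)| ≤ δ / 2 := by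
      rw [abs_le]
      rcases le_total θ.re b with h6 | h6
      · rw [min_eq_right h6]
        rcases le_total a θ.re with h7 | h7
        · rw [max_eq_right h7]
          constructor <;> linarith
        · rw [max_eq_left h7]
          constructor <;> linarith
      · rw [min_eq_left h6, max_eq_right hab]
        constructor <;> linarith
    linarith
  · have h5 : dist c c₀ ≤ δ / 2 := h4
    dsimp only
    linarith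

/-- FROM THE MACRO FAMILY TO THE NEAR DATA. `z₁` = family of the window in the coordinates `(θ, γ)`
on `Ω₁`, with a singular point at `θ = τ c`, `γ = σ c`; `z` = family of `ZGeo` in the coordinates
`(θ, ζ)` (singular point at `0`); `hid`: they are the same near the singular point. `Zl, Zr` exact
families for `z₁` about the abscissas `al + Re τ c₀`, `ar + Re τ c₀`, `al < 0 < ar`.

Proof. `Ω₂ := {p | p.2 ∈ D ∧ ch τ σ p ∈ Ω₁}`, `z₂ := z₁ ∘ ch τ σ`: `Fw` by `fw_ch`. `Zl ∘ ch`, `Zr ∘ ch` are exact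
for `z₂` (`ex_ch`) on the preimages of `Ol, Or`, which contain boxes
`Rec (al - h) (al + h) (-h) h ×ˢ ball c₀ r₂`, `Rec (ar - h) (ar + h) ..`. `exists_kick` (for `z₂`): `X₂` over
`{- h < y < 0} ×ˢ ball c₀ r₂` (`hpass`). `chart_up`: `DefAt (fm X₂) c₀`. Let `e' := min e (min (-al) ar / 2)`;
the hypothesis `hid` holds for `e'`; `nd_exists` gives near data `(Zn, Zn', Xn)` for `z`, at `∓ e'`, half
height `hn`; by `Ex.congr'` the families are exact for `z₂` (the boxes are in the region of `hid`).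
Long families for `z₂`: `exists_ex` for the segments `[al - κ, -e' + κ]`, `[e' - κ, ar + κ]` at the height
`0` and a small ball about `c₀` (the closed segments over `c₀` are in the open set `Ω₂` by `hseg` for a
small `κ`): `ZL, ZR`; `exists_kick` at `∓ e'`: `XL`; `kick_pos`: `XL` is also the kick at the abscissas
`al, ar`. `tra` (for `z₂`) at `al, ar` from `(Zl ∘ ch, Zr ∘ ch, X₂)` to `(ZL, ZR, XL)`; `tra` at `∓ e'` from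
`(ZL, ZR, XL)` to `(Zn, Zn', Xn)`. So `DfZ`. -/
theorem macro_dz {U : Ultrafilter ℕ} {ε : ℕ → ℝ} {M Ω Ω₁ : Set (ℂ × ℂ)} {g : ℂ × ℂ → ℂ × ℂ}
    {gn : ℕ → ℂ × ℂ → ℂ × ℂ} {z z₁ : ℂ × ℂ → ℂ × ℂ} {D : Set ℂ} {τ σ : ℂ → ℂ}
    (hV : VF U ε M g gn) (hz₁ : Fw M g Ω₁ z₁) (hz : Fw M g Ω z) {d : ℝ} (hd : 0 < d) (hD : IsOpen D)
    (hτ : AnalyticOnNhd ℂ τ D) (hσ : AnalyticOnNhd ℂ σ D) (hσ' : ∀ c ∈ D, deriv σ c ≠ 0) {c₀ : ℂ}
    (hc₀ : c₀ ∈ D) {e r : ℝ} (he : 0 < e) (hr : 0 < r)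
    (hid : ∀ c ∈ ball c₀ r, ∀ θ : ℂ, ‖θ‖ < 2 * e → θ.im < d * |θ.re| →
      (θ, c) ∈ Ω ∧ c ∈ D ∧ ch τ σ (θ, c) ∈ Ω₁ ∧ z (θ, c) = z₁ (ch τ σ (θ, c)))
    {al ar : ℝ} (hal : al < 0) (har : 0 < ar)
    (hseg : ∀ s ∈ Icc al ar, s ≠ 0 → ((⟨s + (τ c₀).re, (τ c₀).im⟩ : ℂ), σ c₀) ∈ Ω₁)
    {Ol Or : Set (ℂ × ℂ)} (hOl : IsOpen Ol) (hOr : IsOpen Or) (hOlΩ : Ol ⊆ Ω₁) (hOrΩ : Or ⊆ Ω₁)
    (hlm : ((⟨al + (τ c₀).re, (τ c₀).im⟩ : ℂ), σ c₀) ∈ Ol)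
    (hrm : ((⟨ar + (τ c₀).re, (τ c₀).im⟩ : ℂ), σ c₀) ∈ Or) {Zl Zr X : ℕ → ℂ × ℂ → ℂ × ℂ}
    (el : Ex U ε gn Ol z₁ Zl) (er : Ex U ε gn Or z₁ Zr) {h₁ r₁ y : ℝ} (hh₁ : 0 < h₁) (hr₁ : 0 < r₁)
    {Yb : ℂ → ℝ} (hYb : ∀ c ∈ D, Yb (σ c) = (τ c).im) (hYc : ContinuousOn Yb (ball (σ c₀) r₁))
    (hpass : ∀ c ∈ ball c₀ r, ∀ y : ℝ, -h₁ < y → y < 0 → ∀ s ∈ Icc al ar,
      ch τ σ ((⟨s, y⟩ : ℂ), c) ∈ Ω₁) {R : Set (ℝ × ℂ)}
    (hR : ∀ γ ∈ ball (σ c₀) r₁, ∀ y : ℝ, (τ c₀).im - h₁ < y → y < Yb γ → (y, γ) ∈ R)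
    (hX : Kk U ε gn (al + (τ c₀).re) (ar + (τ c₀).re) R Zl Zr X) (hy : (τ c₀).im - h₁ < y)
    (hy2 : y < (τ c₀).im) (hdf : Dfc U ε y Yb (σ c₀) (fun n p => (X n p).2)) :
    DfZ U ε gn Ω z d c₀ := by
  classical
  have hballD : ∀ c ∈ ball c₀ r, c ∈ D := by
    intro c hc
    have h1 : ‖(⟨0, -e⟩ : ℂ)‖ < 2 * e := by
      refine (Complex.norm_le_abs_re_add_abs_im _).trans_lt ?_
      simp only [abs_zero, abs_neg, abs_of_pos he]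
      linarith
    refine (hid c hc (⟨0, -e⟩ : ℂ) h1 ?_).2.1
    simp only [abs_zero, mul_zero]
    linarith
  have hopen : ∀ {O : Set (ℂ × ℂ)}, IsOpen O → IsOpen {p : ℂ × ℂ | p.2 ∈ D ∧ ch τ σ p ∈ O} := by
    intro O hO
    exact (ch_an hτ hσ).continuousOn.isOpen_inter_preimage (hD.preimage continuous_snd) hO
  have hΩ₂o : IsOpen {p : ℂ × ℂ | p.2 ∈ D ∧ ch τ σ p ∈ Ω₁} := hopen hz₁.Ω_open
  have hz₂ : Fw M g {p : ℂ × ℂ | p.2 ∈ D ∧ ch τ σ p ∈ Ω₁} (z₁ ∘ ch τ σ) :=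
    fw_ch hz₁ hD hτ hσ hσ'
  have el₂ := ex_ch (D := D) el hτ hσ
  have er₂ := ex_ch (D := D) er hτ hσ
  have hOl₂ := hopen hOl
  have hOr₂ := hopen hOr
  obtain ⟨Ω₂, hΩ₂⟩ : ∃ Ω₂ : Set (ℂ × ℂ), Ω₂ = {p : ℂ × ℂ | p.2 ∈ D ∧ ch τ σ p ∈ Ω₁} := ⟨_, rfl⟩
  obtain ⟨Ol₂, hOl₂e⟩ : ∃ O : Set (ℂ × ℂ), O = {p : ℂ × ℂ | p.2 ∈ D ∧ ch τ σ p ∈ Ol} := ⟨_, rfl⟩
  obtain ⟨Or₂, hOr₂e⟩ : ∃ O : Set (ℂ × ℂ), O = {p : ℂ × ℂ | p.2 ∈ D ∧ ch τ σ p ∈ Or} := ⟨_, rfl⟩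
  rw [← hΩ₂] at hΩ₂o hz₂
  rw [← hOl₂e] at el₂ hOl₂
  rw [← hOr₂e] at er₂ hOr₂
  have memΩ₂ : ∀ θ c : ℂ, (θ, c) ∈ Ω₂ ↔ c ∈ D ∧ ch τ σ (θ, c) ∈ Ω₁ := by
    intro θ c
    rw [hΩ₂]
    exact Iff.rfl
  have hch : ∀ s : ℝ, ch τ σ ((⟨s, 0⟩ : ℂ), c₀) =
      ((⟨s + (τ c₀).re, (τ c₀).im⟩ : ℂ), σ c₀) := by
    intro s
    refine Prod.ext ?_ rfl
    refine Complex.ext ?_ ?_
    · simp [ch]
    · simp [ch]
  have hOlΩ₂ : Ol₂ ⊆ Ω₂ := by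
    rw [hOl₂e, hΩ₂]
    exact fun p hp => ⟨hp.1, hOlΩ hp.2⟩
  have hOrΩ₂ : Or₂ ⊆ Ω₂ := by
    rw [hOr₂e, hΩ₂]
    exact fun p hp => ⟨hp.1, hOrΩ hp.2⟩
  have hseg₂ : ∀ s ∈ Icc al ar, s ≠ 0 → ((⟨s, 0⟩ : ℂ), c₀) ∈ Ω₂ := by
    intro s hs h0
    rw [memΩ₂, hch]
    exact ⟨hc₀, hseg s hs h0⟩
  have hlm₂ : ((⟨al, 0⟩ : ℂ), c₀) ∈ Ol₂ := by
    rw [hOl₂e]
    refine ⟨hc₀, ?_⟩
    rw [hch]
    exact hlm
  have hrm₂ : ((⟨ar, 0⟩ : ℂ), c₀) ∈ Or₂ := by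
    rw [hOr₂e]
    refine ⟨hc₀, ?_⟩
    rw [hch]
    exact hrm
  -- the near data
  obtain ⟨e', he', he1, he2, he3⟩ : ∃ e' : ℝ, 0 < e' ∧ e' ≤ e ∧ 2 * e' ≤ -al ∧ 2 * e' ≤ ar := by
    refine ⟨min e (min (-al) ar / 2), lt_min he (half_pos (lt_min (by linarith) har)),
      min_le_left _ _, ?_, ?_⟩
    · have h1 := min_le_right e (min (-al) ar / 2)
      have h2 := min_le_left (-al) ar
      linarith
    · have h1 := min_le_right e (min (-al) ar / 2)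
      have h2 := min_le_right (-al) ar
      linarith
  obtain ⟨hn, Zn, Zn', Xn, hN⟩ := nd_exists hV hz hd he' hr (c₀ := c₀)
    (fun c hc θ h1 h2 => (hid c hc θ (h1.trans_le (by linarith)) h2).1)
  have hhn := hN.h_pos
  have hne := hN.h_e
  have hnd := hN.h_d
  have hgeo : ∀ θ : ℂ, e' - hn < |θ.re| → |θ.re| < e' + hn → |θ.im| < hn →
      ‖θ‖ < 2 * e ∧ θ.im < d * |θ.re| := by
    intro θ h1 h2 h3
    constructor
    · refine (Complex.norm_le_abs_re_add_abs_im θ).trans_lt ?_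
      linarith
    · have h4 : θ.im ≤ |θ.im| := le_abs_self _
      have h5 : d * (e' - hn) < d * |θ.re| := mul_lt_mul_of_pos_left h1 hd
      nlinarith
  have hr2 : ball c₀ (r / 2) ⊆ ball c₀ r := ball_subset_ball (by linarith)
  have exn : Ex U ε gn (Rec (-e' - hn) (-e' + hn) (-hn) hn ×ˢ ball c₀ (r / 2)) (z₁ ∘ ch τ σ)
      Zn := by
    refine Ex.congr' hN.exl ?_
    rintro ⟨θ, c⟩ ⟨⟨h1, h2, h3, h4⟩, h5⟩
    dsimp only at h1 h2 h3 h4 h5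
    have h6 : |θ.re| = -θ.re := abs_of_neg (by linarith)
    have h7 := hgeo θ (by rw [h6]; linarith) (by rw [h6]; linarith) (abs_lt.2 ⟨h3, h4⟩)
    exact (hid c (hr2 h5) θ h7.1 h7.2).2.2.2
  have exn' : Ex U ε gn (Rec (e' - hn) (e' + hn) (-hn) hn ×ˢ ball c₀ (r / 2)) (z₁ ∘ ch τ σ)
      Zn' := by
    refine Ex.congr' hN.exr ?_
    rintro ⟨θ, c⟩ ⟨⟨h1, h2, h3, h4⟩, h5⟩
    dsimp only at h1 h2 h3 h4 h5
    have h6 : |θ.re| = θ.re := abs_of_pos (by linarith)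
    have h7 := hgeo θ (by rw [h6]; linarith) (by rw [h6]; linarith) (abs_lt.2 ⟨h3, h4⟩)
    exact (hid c (hr2 h5) θ h7.1 h7.2).2.2.2
  -- neighbourhoods of the segments
  obtain ⟨κ₁, hκ₁, hκ₁O⟩ := K16_seg hΩ₂o (a := al) (b := -e') (by linarith) (c₀ := c₀)
    (fun s hs => hseg₂ s ⟨hs.1, by linarith [hs.2]⟩ (by
      have := hs.2
      intro h0
      linarith))
  obtain ⟨κ₂, hκ₂, hκ₂O⟩ := K16_seg hΩ₂o (a := e') (b := ar) (by linarith) (c₀ := c₀)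
    (fun s hs => hseg₂ s ⟨by linarith [hs.1], hs.2⟩ (by
      have := hs.1
      intro h0
      linarith))
  obtain ⟨κ₃, hκ₃, hκ₃O⟩ := K16_seg hOl₂ (a := al) (b := al) le_rfl (c₀ := c₀)
    (fun s hs => by
      have h1 : s = al := le_antisymm hs.2 hs.1
      rw [h1]
      exact hlm₂)
  obtain ⟨κ₄, hκ₄, hκ₄O⟩ := K16_seg hOr₂ (a := ar) (b := ar) le_rfl (c₀ := c₀)
    (fun s hs => by
      have h1 : s = ar := le_antisymm hs.2 hs.1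
      rw [h1]
      exact hrm₂)
  -- the radius
  obtain ⟨ρ, hρ, hρ1, hρ2, hρ3, hρ4, hρ5⟩ : ∃ ρ : ℝ, 0 < ρ ∧ ρ ≤ κ₁ ∧ ρ ≤ κ₂ ∧ ρ ≤ κ₃ ∧ ρ ≤ κ₄ ∧
      ρ ≤ r / 2 := by
    refine ⟨min (min (min κ₁ κ₂) (min κ₃ κ₄)) (r / 2), lt_min (lt_min (lt_min hκ₁ hκ₂)
      (lt_min hκ₃ hκ₄)) (by linarith), ?_, ?_, ?_, ?_, min_le_right _ _⟩
    · exact (min_le_left _ _).trans ((min_le_left _ _).trans (min_le_left _ _))
    · exact (min_le_left _ _).trans ((min_le_left _ _).trans (min_le_right _ _))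
    · exact (min_le_left _ _).trans ((min_le_right _ _).trans (min_le_left _ _))
    · exact (min_le_left _ _).trans ((min_le_right _ _).trans (min_le_right _ _))
  have hρr : ball c₀ ρ ⊆ ball c₀ r := ball_subset_ball (by linarith)
  obtain ⟨h₀₁, hh₀₁, H₁⟩ := exists_ex hV hz₂ (a₁ := al - κ₁) (a₂ := -e' + κ₁) (y := 0)
    (by linarith) (g₀ := c₀) hρ (fun p h1 h2 h3 h4 => hκ₁O p.1 p.2 h1 h2
      (by rw [h3, abs_zero]; exact hκ₁.le) (closedBall_subset_closedBall hρ1 h4))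
  obtain ⟨h₀₂, hh₀₂, H₂⟩ := exists_ex hV hz₂ (a₁ := e' - κ₂) (a₂ := ar + κ₂) (y := 0)
    (by linarith) (g₀ := c₀) hρ (fun p h1 h2 h3 h4 => hκ₂O p.1 p.2 h1 h2
      (by rw [h3, abs_zero]; exact hκ₂.le) (closedBall_subset_closedBall hρ2 h4))
  -- the height
  obtain ⟨h, hh, k1, k2, k3, k4, k5, k6, k7⟩ : ∃ h : ℝ, 0 < h ∧ h ≤ h₀₁ ∧ h ≤ h₀₂ ∧ h ≤ κ₃ ∧
      h ≤ κ₄ ∧ h ≤ h₁ ∧ h ≤ hn ∧ h ≤ e' / 2 := by
    refine ⟨min (min (min h₀₁ h₀₂) (min κ₃ κ₄)) (min h₁ (min hn (e' / 2))),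
      lt_min (lt_min (lt_min hh₀₁ hh₀₂) (lt_min hκ₃ hκ₄))
        (lt_min hh₁ (lt_min hhn (by linarith))), ?_, ?_, ?_, ?_, ?_, ?_, ?_⟩
    · exact (min_le_left _ _).trans ((min_le_left _ _).trans (min_le_left _ _))
    · exact (min_le_left _ _).trans ((min_le_left _ _).trans (min_le_right _ _))
    · exact (min_le_left _ _).trans ((min_le_right _ _).trans (min_le_left _ _))
    · exact (min_le_left _ _).trans ((min_le_right _ _).trans (min_le_right _ _))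
    · exact (min_le_right _ _).trans (min_le_left _ _)
    · exact (min_le_right _ _).trans ((min_le_right _ _).trans (min_le_left _ _))
    · exact (min_le_right _ _).trans ((min_le_right _ _).trans (min_le_right _ _))
  obtain ⟨hLΩ, ZL, eL⟩ := H₁ h hh k1
  obtain ⟨hRΩ, ZR, eR⟩ := H₂ h hh k2
  rw [zero_sub, zero_add] at hLΩ eL hRΩ eR
  have hbo : ∀ a₁ a₂ b₁ b₂ ρ' : ℝ, IsOpen (Rec a₁ a₂ b₁ b₂ ×ˢ ball c₀ ρ') :=
    fun a₁ a₂ b₁ b₂ ρ' => (Pool.Agent.MP_ae5b4e_an_BX.isOpen_Rec _ _ _ _).prod isOpen_ball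
  -- the kick of the old families
  have hl3 : Rec (al - h) (al + h) (-h) h ×ˢ ball c₀ ρ ⊆ Ol₂ := by
    rintro ⟨θ, c⟩ ⟨⟨h1, h2, h3, h4⟩, h5⟩
    exact hκ₃O θ c (by linarith) (by linarith) (abs_le.2 ⟨by linarith, by linarith⟩)
      (ball_subset_closedBall.trans (closedBall_subset_closedBall hρ3) h5)
  have hr3 : Rec (ar - h) (ar + h) (-h) h ×ˢ ball c₀ ρ ⊆ Or₂ := by
    rintro ⟨θ, c⟩ ⟨⟨h1, h2, h3, h4⟩, h5⟩
    exact hκ₄O θ c (by linarith) (by linarith) (abs_le.2 ⟨by linarith, by linarith⟩)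
      (ball_subset_closedBall.trans (closedBall_subset_closedBall hρ4) h5)
  obtain ⟨X₂, hX₂⟩ := exists_kick hV hz₂ (al := al) (ar := ar) (w := h) (y₁ := -h) (y₂ := h)
    (by linarith) hh (D := ball c₀ ρ) isOpen_ball (Ex.mono' el₂ hl3) (Ex.mono' er₂ hr3)
    (hl3.trans hOlΩ₂) (hr3.trans hOrΩ₂)
  have hX₂' : Kk U ε gn al ar (Ioo (-h) 0 ×ˢ ball c₀ ρ) (fun n => Zl n ∘ ch τ σ)
      (fun n => Zr n ∘ ch τ σ) X₂ := by
    refine hX₂.mono ?_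
    rintro ⟨y', c⟩ ⟨⟨h1, h2⟩, h3⟩
    dsimp only at h1 h2 h3
    refine ⟨⟨h1, by dsimp only; linarith, h3⟩, fun s hs => ?_⟩
    rw [memΩ₂]
    exact ⟨hballD c (hρr h3), hpass c (hρr h3) y' (by linarith) h2 s hs⟩
  have hy' : -(h / 2) ∈ Ioo (-h) 0 := ⟨by linarith, by linarith⟩
  have d1 : DefAt U (NN ε) (fm ε (-(h / 2)) X₂) c₀ :=
    chart_up (R' := Ioo (-h) 0 ×ˢ ball c₀ ρ) hV hz₁ hOr hOrΩ er hD hτ hσ hc₀ (hσ' c₀ hc₀)
      (by linarith : al < ar) hYb hh₁ hr₁ hYc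
      hh hρ hR (fun c hc y' h1 h2 => ⟨⟨h1, h2⟩, hc⟩) hX hX₂' hrm hy hy2 hy' hdf
  -- the kick of the long families
  have hκ' : 0 < min κ₁ κ₂ := lt_min hκ₁ hκ₂
  have hκ'1 : min κ₁ κ₂ ≤ κ₁ := min_le_left _ _
  have hκ'2 : min κ₁ κ₂ ≤ κ₂ := min_le_right _ _
  have sL : Rec (-e' - min κ₁ κ₂) (-e' + min κ₁ κ₂) (-h) h ×ˢ ball c₀ ρ ⊆
      Rec (al - κ₁) (-e' + κ₁) (-h) h ×ˢ ball c₀ ρ := by
    rintro ⟨θ, c⟩ ⟨⟨h1, h2, h3, h4⟩, h5⟩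
    exact ⟨⟨by linarith, by linarith, h3, h4⟩, h5⟩
  have sR : Rec (e' - min κ₁ κ₂) (e' + min κ₁ κ₂) (-h) h ×ˢ ball c₀ ρ ⊆
      Rec (e' - κ₂) (ar + κ₂) (-h) h ×ˢ ball c₀ ρ := by
    rintro ⟨θ, c⟩ ⟨⟨h1, h2, h3, h4⟩, h5⟩
    exact ⟨⟨by linarith, by linarith, h3, h4⟩, h5⟩
  obtain ⟨XL, hXL⟩ := exists_kick hV hz₂ (al := -e') (ar := e') (w := min κ₁ κ₂) (y₁ := -h)
    (y₂ := h) (by linarith) hκ' (D := ball c₀ ρ) isOpen_ball (Ex.mono' eL sL) (Ex.mono' eR sR)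
    (sL.trans hLΩ) (sR.trans hRΩ)
  have hXL' : Kk U ε gn (-e') e' (Ioo (-h) 0 ×ˢ ball c₀ ρ) ZL ZR XL := by
    refine hXL.mono ?_
    rintro ⟨y', c⟩ ⟨⟨h1, h2⟩, h3⟩
    dsimp only at h1 h2 h3
    refine ⟨⟨h1, by dsimp only; linarith, h3⟩, fun s hs => ?_⟩
    rw [memΩ₂]
    have h4 : ‖(⟨s, y'⟩ : ℂ)‖ < 2 * e := by
      refine (Complex.norm_le_abs_re_add_abs_im _).trans_lt ?_
      have h5 : |s| ≤ e' := abs_le.2 hs
      have h6 : |y'| < h := abs_lt.2 ⟨h1, by linarith⟩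
      dsimp only
      linarith
    have h5 : (⟨s, y'⟩ : ℂ).im < d * |(⟨s, y'⟩ : ℂ).re| := by
      have h6 : 0 ≤ d * |s| := mul_nonneg hd.le (abs_nonneg s)
      dsimp only
      linarith
    have h6 := hid c (hρr h3) (⟨s, y'⟩ : ℂ) h4 h5
    exact ⟨h6.2.1, h6.2.2.1⟩
  have hXL'' : Kk U ε gn al ar (Ioo (-h) 0 ×ˢ ball c₀ ρ) ZL ZR XL := by
    refine kick_pos hV.ε_pos hV.ε_lim (by linarith : al ≤ -e') (by linarith : -e' < e')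
      (by linarith : e' ≤ ar) (hbo _ _ _ _ _) (hbo _ _ _ _ _) eL eR ?_ ?_ hXL'
    · rintro ⟨y', c⟩ ⟨⟨h1, h2⟩, h3⟩ s ⟨hs1, hs2⟩
      dsimp only at h1 h2 h3
      exact ⟨⟨by dsimp only; linarith, by dsimp only; linarith, h1, by dsimp only; linarith⟩, h3⟩
    · rintro ⟨y', c⟩ ⟨⟨h1, h2⟩, h3⟩ s ⟨hs1, hs2⟩
      dsimp only at h1 h2 h3
      exact ⟨⟨by dsimp only; linarith, by dsimp only; linarith, h1, by dsimp only; linarith⟩, h3⟩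
  -- from the old families to the long families
  have d2 : DefAt U (NN ε) (fm ε (-(h / 2)) XL) c₀ := by
    refine tra hV hz₂ (by linarith : al < ar) hh hρ
      (Ol := (Rec (al - h) (al + h) (-h) h ×ˢ ball c₀ ρ) ∩
        (Rec (al - κ₁) (-e' + κ₁) (-h) h ×ˢ ball c₀ ρ))
      (Or := (Rec (ar - h) (ar + h) (-h) h ×ˢ ball c₀ ρ) ∩
        (Rec (e' - κ₂) (ar + κ₂) (-h) h ×ˢ ball c₀ ρ))
      ((hbo _ _ _ _ _).inter (hbo _ _ _ _ _)) ((hbo _ _ _ _ _).inter (hbo _ _ _ _ _))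
      (inter_subset_right.trans hLΩ) (inter_subset_right.trans hRΩ)
      (Ex.mono' el₂ (inter_subset_left.trans hl3)) (Ex.mono' eL inter_subset_right)
      (Ex.mono' er₂ (inter_subset_left.trans hr3)) (Ex.mono' eR inter_subset_right)
      ?_ ?_ hX₂' hXL'' hy' hy' d1
    · intro y' h1 c h2
      obtain ⟨h3, h4⟩ := abs_lt.1 h1
      exact ⟨⟨⟨by dsimp only; linarith, by dsimp only; linarith, h3, h4⟩, h2⟩,
        ⟨⟨by dsimp only; linarith, by dsimp only; linarith, h3, h4⟩, h2⟩⟩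
    · intro y' h1 c h2
      obtain ⟨h3, h4⟩ := abs_lt.1 h1
      exact ⟨⟨⟨by dsimp only; linarith, by dsimp only; linarith, h3, h4⟩, h2⟩,
        ⟨⟨by dsimp only; linarith, by dsimp only; linarith, h3, h4⟩, h2⟩⟩
  -- from the long families to the near data
  have hkn : Kk U ε gn (-e') e' (Ioo (-h) 0 ×ˢ ball c₀ ρ) Zn Zn' Xn := by
    refine hN.kk.mono ?_
    exact prod_mono (Ioo_subset_Ioo (by linarith) le_rfl) (ball_subset_ball hρ5)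
  have d3 : DefAt U (NN ε) (fm ε (-(h / 2)) Xn) c₀ := by
    refine tra hV hz₂ (by linarith : -e' < e') hh hρ
      (Ol := (Rec (al - κ₁) (-e' + κ₁) (-h) h ×ˢ ball c₀ ρ) ∩
        (Rec (-e' - hn) (-e' + hn) (-hn) hn ×ˢ ball c₀ (r / 2)))
      (Or := (Rec (e' - κ₂) (ar + κ₂) (-h) h ×ˢ ball c₀ ρ) ∩
        (Rec (e' - hn) (e' + hn) (-hn) hn ×ˢ ball c₀ (r / 2)))
      ((hbo _ _ _ _ _).inter (hbo _ _ _ _ _)) ((hbo _ _ _ _ _).inter (hbo _ _ _ _ _))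
      (inter_subset_left.trans hLΩ) (inter_subset_left.trans hRΩ)
      (Ex.mono' eL inter_subset_left) (Ex.mono' exn inter_subset_right)
      (Ex.mono' eR inter_subset_left) (Ex.mono' exn' inter_subset_right)
      ?_ ?_ hXL' hkn hy' hy' d2
    · intro y' h1 c h2
      obtain ⟨h3, h4⟩ := abs_lt.1 h1
      exact ⟨⟨⟨by dsimp only; linarith, by dsimp only; linarith, h3, h4⟩, h2⟩,
        ⟨⟨by dsimp only; linarith, by dsimp only; linarith, by dsimp only; linarith,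
          by dsimp only; linarith⟩, ball_subset_ball hρ5 h2⟩⟩
    · intro y' h1 c h2
      obtain ⟨h3, h4⟩ := abs_lt.1 h1
      exact ⟨⟨⟨by dsimp only; linarith, by dsimp only; linarith, h3, h4⟩, h2⟩,
        ⟨⟨by dsimp only; linarith, by dsimp only; linarith, by dsimp only; linarith,
          by dsimp only; linarith⟩, ball_subset_ball hρ5 h2⟩⟩
  -- the height
  refine ⟨e', hn, r / 2, Zn, Zn', Xn, hN, ?_⟩
  obtain ⟨r', hr', cc, hcc, hev⟩ := d3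
  have hind := hN.kk.pd.fm_indep hV.ε_pos (y₁ := -(3 / 4 * hn)) (y₂ := -(h / 4))
    (y := -(h / 2)) (y' := -(hn / 2)) (r := r / 4) (c₀ := c₀) ⟨by linarith, by linarith⟩
    ⟨by linarith, by linarith⟩ (fun y' hy' c hc =>
      ⟨⟨by have := hy'.1; dsimp only; linarith, by have := hy'.2; dsimp only; linarith⟩,
        closedBall_subset_ball (by linarith) hc⟩)
  refine ⟨min r' (r / 4), lt_min hr' (by linarith), cc, hcc, ?_⟩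
  filter_upwards [hev, hind] with n h1 h2 c hc
  rw [← h2 c (ball_subset_ball (min_le_right _ _) hc)]
  exact h1 c (ball_subset_ball (min_le_left _ _) hc)

end Pool.Agent.MP_ae5b4e_an_AZ
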