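import Pool.Agent.Lib.MP_ae5b4e_an_AZ.K8

/-!
# POR, (Z'): the kick of a window passage
-/

noncomputable section

namespace Pool.Agent.MP_ae5b4e_an_AZ

open Complex Set Filter Topology Metric
open Pool.Agent.MP_ae5b4e_an_A1
open Pool.Agent.MP_ae5b4e_an_BX (Rec)
open Pool.Agent.MP_ae5b4e_an_A3 (rs md Dfc osc_le Per_osc Per_zero)
open Pool.Agent.MP_ae5b4e_an_A4 (am Per SN)
open Pool.Agent.MP_ae5b4e_an_MERO (fo St fo_indep norm_fo_le hasSum_fo)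

/-- THE KICKS OF THE WINDOWS (`A1.BC`, `A1.BZ`). Proof. `Pd`: `per` from `BC.per`; a compact `K` in the
region is contained in `Str y₁ (Yb - η) g₀ r`-heights for some `η > 0` (the continuous function
`Yb x.2 - x.1` is positive on `K`; here the continuity of `Yb` is used), so `BC.pas`, `BC.pas_lim`.
`rel_all` with `Ol := Rec (a i - w) (a i + w) (y₀ - w) (y₀ + w) ×ˢ ball g₀ (2 r)`, the same for `Or` (the
heights of the region are in `(y₀ - w, y₀ + w)` by `BZ.y_gt`, `BZ.Y_lt`) and `BZ.pas` (`ms ε a i n` is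
`⌊(a (i + 1) - a i) / ε n⌋₊`). -/
theorem bz_kk {U : Ultrafilter ℕ} {ε : ℕ → ℝ} {gn : ℕ → ℂ × ℂ → ℂ × ℂ} {z : ℂ × ℂ → ℂ × ℂ}
    {W : ℕ → ℂ × ℂ → ℂ × ℂ} {g₀ : ℂ} {r y₀ y₁ w : ℝ} {P : ℕ} {a : ℕ → ℝ} {T Yb : ℕ → ℂ → ℝ}
    {Z : ℕ → ℕ → ℂ × ℂ → ℂ × ℂ} {f g A B : ℕ → ℕ → ℂ × ℂ → ℂ} (h0 : ∀ n, 0 < ε n)
    (h1 : Tendsto ε U (𝓝 0)) (hr : 0 < r) (hBC : BC U ε g₀ r y₁ P T Yb f g A B)
    (hBZ : BZ U ε gn z W g₀ r y₀ y₁ w P a T Yb Z f g A B) {i : ℕ} (hi : i < P)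
    (ha : a i < a (i + 1)) (hY : ContinuousOn (Yb (i + 1)) (ball g₀ r)) :
    Kk U ε gn (a i) (a (i + 1)) {x : ℝ × ℂ | x.2 ∈ ball g₀ r ∧ y₁ < x.1 ∧ x.1 < Yb (i + 1) x.2}
      (Z i) (Z (i + 1)) (fun n p => (A (i + 1) n p, B (i + 1) n p)) := by
  have hR : ∀ K ⊆ {x : ℝ × ℂ | x.2 ∈ ball g₀ r ∧ y₁ < x.1 ∧ x.1 < Yb (i + 1) x.2}, IsCompact K →
      ∃ η : ℝ, 0 < η ∧ ∀ p : ℂ × ℂ, pc p ∈ K →
        p ∈ Str y₁ (fun γ => Yb (i + 1) γ - η) g₀ r := by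
    intro K hK hKc
    have hc : ContinuousOn (fun x : ℝ × ℂ => Yb (i + 1) x.2 - x.1) K :=
      (hY.comp continuous_snd.continuousOn fun x hx => (hK hx).1).sub continuous_fst.continuousOn
    obtain ⟨η, hη, hη2⟩ := hKc.exists_forall_le' hc (a := 0) fun x hx => by
      have := (hK hx).2.2
      show 0 < Yb (i + 1) x.2 - x.1
      linarith
    refine ⟨η / 2, by positivity, fun p hp => ?_⟩
    have h2 := hK hp
    have h3 := hη2 _ hp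
    refine ⟨h2.1, h2.2.1, ?_⟩
    simp only [pc] at h3
    show p.1.im < Yb (i + 1) p.2 - η / 2
    linarith
  have hin : ∀ x ∈ {x : ℝ × ℂ | x.2 ∈ ball g₀ r ∧ y₁ < x.1 ∧ x.1 < Yb (i + 1) x.2}, ∀ b : ℝ,
      ((⟨b, x.1⟩ : ℂ), x.2) ∈ Rec (b - w) (b + w) (y₀ - w) (y₀ + w) ×ˢ ball g₀ (2 * r) := by
    rintro x ⟨h2, h3, h4⟩ b
    have h5 : x.2 ∈ ball g₀ (2 * r) := ball_subset_ball (by linarith) h2
    have h6 := hBZ.Y_lt i hi x.2 h5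
    have h7 := hBZ.y_gt
    have h8 := hBZ.w_pos
    refine ⟨⟨?_, ?_, ?_, ?_⟩, h5⟩ <;> simp only <;> linarith
  refine rel_all h0 h1 ha ((Pool.Agent.MP_ae5b4e_an_BX.isOpen_Rec _ _ _ _).prod isOpen_ball)
    ((Pool.Agent.MP_ae5b4e_an_BX.isOpen_Rec _ _ _ _).prod isOpen_ball) (hBZ.ex i hi.le)
    (hBZ.ex (i + 1) hi) (fun x hx => hin x hx _) (fun x hx => hin x hx _) ?_ ?_
  · refine ⟨fun n p => ?_, fun K hK hKc => ?_, fun K hK hKc δ hδ => ?_⟩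
    · obtain ⟨-, -, h2, h3⟩ := hBC.per (i + 1) n p
      simp only [h2, h3]
    · obtain ⟨η, hη, hη2⟩ := hR K hK hKc
      filter_upwards [hBC.pas i hi η hη] with n hn p hp
      exact (hn.1 p (hη2 p hp)).prod (hn.2 p (hη2 p hp))
    · obtain ⟨η, hη, hη2⟩ := hR K hK hKc
      filter_upwards [hBC.pas_lim i hi η hη δ hδ] with n hn p hp
      have h2 := hn p (hη2 p hp)
      exact norm_prod_le_iff.2 h2
  · intro K hK hKc
    obtain ⟨η, hη, hη2⟩ := hR K hK hKc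
    filter_upwards [hBZ.pas i hi η hη] with n hn p hp h2 h3
    have h4 := h0 n
    exact hn p (hη2 p hp) (abs_le.2 ⟨by linarith, by linarith⟩)

end Pool.Agent.MP_ae5b4e_an_AZ
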