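import Pool.Agent.Lib.MP_ae5b4e_an_AZ.ZO
import Pool.Agent.Lib.MP_ae5b4e_an_A1.WinBC
import Pool.Agent.Lib.MP_ae5b4e_an_M.VA

/-!
# POR (iii), (Z'): the label of the stretch near a point `Z_k`
-/

noncomputable section

namespace Pool.Agent.MP_ae5b4e_an_AZ

open Complex Set Filter Topology Metric
open Pool.Agent.MP_ae5b4e_an_NB2 (Sys)
open Pool.Agent.MP_ae5b4e_an_PB (Base)
open Pool.Agent.MP_ae5b4e_an_M (Win DI LI vI qI)
open Pool.Agent.MP_ae5b4e_an_WD (dt)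
open Pool.Agent.MP_ae5b4e_an_A1
open Pool.Agent.MP_ae5b4e_an_T
open PorTR (Hm)

variable {Y : Sys} {h R C0 : ℝ} {v : ℂ → ℝ} {G L : ℂ × ℂ → ℂ} {U : Ultrafilter ℕ} {β C1 : ℝ}
  {c V : ℕ → ℝ}

/-- small slit bidiscs about `(Tb (i + 1) g₀, g₀)` are in the slit box: the conditions of the slit box,
except the slit `i + 1`, are open conditions which hold at the centre. -/
theorem slb_sub {vi Vm : ℂ → ℝ} {g₀ r₀ x₁ x₂ v₀ b : ℝ} {P : ℕ} {Tb : ℕ → ℂ → ℂ} {X : ℕ → ℝ}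
    (hSd : Sd vi Vm g₀ r₀ x₁ x₂ v₀ b P Tb X) {i : ℕ} (hi : i < P) :
    ∃ R₁ : ℝ, 0 < R₁ ∧ ∀ R' : ℝ, R' ≤ R₁ → ∀ ρ' : ℝ, ρ' ≤ R₁ →
      Slb (Tb (i + 1)) (Tb (i + 1) g₀) g₀ R' ρ' ⊆ SB g₀ r₀ x₁ x₂ v₀ b P Tb := by
  classical
  have hball : (g₀ : ℂ) ∈ ball (g₀ : ℂ) r₀ := mem_ball_self hSd.r_pos
  have c1 : Continuous fun q : ℂ × ℂ => q.1.re := continuous_re.comp continuous_fst
  have c2 : Continuous fun q : ℂ × ℂ => |q.1.im + v₀| :=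
    ((continuous_im.comp continuous_fst).add continuous_const).abs
  have m1 := Geom_mono hSd (Nat.zero_le i) hi.le
  have m2 : X (i + 1) ≤ X P := Geom_mono hSd (Nat.succ_le_of_lt hi) le_rfl
  have t1 := hSd.Tb_l i hi
  have t2 := hSd.Tb_r i hi
  have t3 := hSd.Tb_im i hi
  have e1 : ∀ᶠ q : ℂ × ℂ in 𝓝 (Tb (i + 1) g₀, (g₀ : ℂ)), q.2 ∈ ball (g₀ : ℂ) r₀ :=
    (isOpen_ball.preimage continuous_snd).mem_nhds hball
  have e2 : ∀ᶠ q : ℂ × ℂ in 𝓝 (Tb (i + 1) g₀, (g₀ : ℂ)), x₁ < q.1.re :=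
    (isOpen_lt continuous_const c1).mem_nhds
      (show x₁ < (Tb (i + 1) g₀).re by linarith [hSd.X_l])
  have e3 : ∀ᶠ q : ℂ × ℂ in 𝓝 (Tb (i + 1) g₀, (g₀ : ℂ)), q.1.re < x₂ :=
    (isOpen_lt c1 continuous_const).mem_nhds
      (show (Tb (i + 1) g₀).re < x₂ by linarith [hSd.X_r])
  have e4 : ∀ᶠ q : ℂ × ℂ in 𝓝 (Tb (i + 1) g₀, (g₀ : ℂ)), |q.1.im + v₀| < b := by
    refine (isOpen_lt c2 continuous_const).mem_nhds ?_
    change |(Tb (i + 1) g₀).im + v₀| < b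
    rw [t3, neg_add_cancel, abs_zero]
    exact hSd.b_pos
  have e5 : ∀ᶠ q : ℂ × ℂ in 𝓝 (Tb (i + 1) g₀, (g₀ : ℂ)), ∀ j ∈ Finset.range P, j ≠ i →
      q.1.re ≠ (Tb (j + 1) q.2).re := by
    rw [Filter.eventually_all_finset]
    intro j hj
    have hj' := Finset.mem_range.1 hj
    by_cases hji : j = i
    · exact Eventually.of_forall fun p hne => absurd hji hne
    have hne : (Tb (i + 1) (g₀ : ℂ)).re - (Tb (j + 1) (g₀ : ℂ)).re ≠ 0 := by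
      rcases lt_or_gt_of_ne hji with hlt | hgt
      · have q1 := hSd.Tb_r j hj'
        have q3 : X (j + 1) ≤ X i := Geom_mono hSd (Nat.succ_le_of_lt hlt) hi.le
        intro h0
        linarith
      · have q1 := hSd.Tb_l j hj'
        have q3 : X (i + 1) ≤ X j := Geom_mono hSd (Nat.succ_le_of_lt hgt) hj'.le
        intro h0
        linarith
    have c3 : ContinuousAt (fun q : ℂ × ℂ => Tb (j + 1) q.2) (Tb (i + 1) g₀, (g₀ : ℂ)) :=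
      ContinuousAt.comp (f := Prod.snd) (g := Tb (j + 1))
        ((hSd.Tb_cont j hj').continuousAt (isOpen_ball.mem_nhds hball)) continuous_snd.continuousAt
    have cc : ContinuousAt (fun q : ℂ × ℂ => q.1.re - (Tb (j + 1) q.2).re)
        (Tb (i + 1) g₀, (g₀ : ℂ)) :=
      c1.continuousAt.sub (continuous_re.continuousAt.comp c3)
    filter_upwards [cc.eventually_ne hne] with p hp _
    exact sub_ne_zero.1 hp
  obtain ⟨R₁, hR₁, hall⟩ := Metric.eventually_nhds_iff_ball.1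
    (e1.and (e2.and (e3.and (e4.and e5))))
  refine ⟨R₁, hR₁, ?_⟩
  rintro R' hR' ρ' hρ' p ⟨⟨hp1, hp2⟩, hp3⟩
  have hpb : p ∈ ball (Tb (i + 1) g₀, (g₀ : ℂ)) R₁ := by
    rw [← ball_prod_same]
    exact ⟨ball_subset_ball hR' hp1, ball_subset_ball hρ' hp2⟩
  obtain ⟨f1, f2, f3, f4, f5⟩ := hall p hpb
  refine ⟨f1, f2, f3, f4, ?_⟩
  intro j hj hcon
  by_cases hji : j = i
  · subst hji
    exact hp3 hcon
  · exact f5 j (Finset.mem_range.2 hj) hji hcon.1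

/-- the fibre of a slit bidisc is star shaped about a point below the tip -/
theorem slb_star {Tb : ℂ → ℂ} {ζ γ : ℂ} {g₀ R' ρ' : ℝ} (hR' : 0 < R')
    (hγ : γ ∈ ball (g₀ : ℂ) ρ') (hT : ‖Tb γ - ζ‖ < R' / 8) :
    ((⟨(Tb γ).re, ζ.im - R' / 2⟩ : ℂ), γ) ∈ Slb Tb ζ g₀ R' ρ' ∧
      IsPreconnected {τ : ℂ | (τ, γ) ∈ Slb Tb ζ g₀ R' ρ'} := by
  have h2 := (abs_re_le_norm (Tb γ - ζ)).trans_lt hT
  have h3 := (abs_im_le_norm (Tb γ - ζ)).trans_lt hT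
  rw [sub_re] at h2
  rw [sub_im, abs_lt] at h3
  set c : ℂ := ⟨(Tb γ).re, ζ.im - R' / 2⟩ with hc
  have hcre : c.re = (Tb γ).re := rfl
  have hcim : c.im = ζ.im - R' / 2 := rfl
  have hcball : c ∈ ball ζ R' := by
    rw [mem_ball, dist_eq_norm]
    refine (Complex.norm_le_abs_re_add_abs_im _).trans_lt ?_
    rw [sub_re, sub_im, hcre, hcim]
    have h1 : |ζ.im - R' / 2 - ζ.im| = R' / 2 := by
      rw [sub_sub_cancel_left, abs_neg, abs_of_pos (by positivity)]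
    rw [h1]
    linarith
  have hcT : c.im < (Tb γ).im := by
    rw [hcim]
    linarith [h3.1]
  have hcK : (c, γ) ∈ Slb Tb ζ g₀ R' ρ' := by
    refine ⟨⟨hcball, hγ⟩, fun h1 => ?_⟩
    exact absurd h1.2 (not_le.2 hcT)
  refine ⟨hcK, ?_⟩
  have hstar : StarConvex ℝ c {τ : ℂ | (τ, γ) ∈ Slb Tb ζ g₀ R' ρ'} := by
    rintro y ⟨⟨hy1, hy2⟩, hy3⟩ a b ha hb hab
    simp only at hy1 hy2 hy3
    have hre : (a • c + b • y).re = a * (Tb γ).re + b * y.re := by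
      rw [add_re, Complex.smul_re, Complex.smul_re, smul_eq_mul, smul_eq_mul, hcre]
    have him : (a • c + b • y).im = a * c.im + b * y.im := by
      rw [add_im, Complex.smul_im, Complex.smul_im, smul_eq_mul, smul_eq_mul]
    have ha' : a = 1 - b := by linarith
    refine ⟨⟨(convex_ball ζ R') hcball hy1 ha hb hab, hy2⟩, ?_⟩
    rintro ⟨h1, h2⟩
    simp only at h1 h2
    rw [hre, ha'] at h1
    rw [him, ha'] at h2
    rcases hb.eq_or_lt with h0 | h0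
    · rw [← h0] at h2
      linarith
    · have h4 : y.re = (Tb γ).re := by
        have h5 : b * (y.re - (Tb γ).re) = 0 := by linarith
        rcases mul_eq_zero.1 h5 with h6 | h6
        · exact absurd h6 h0.ne'
        · linarith
      have h7 : y.im < (Tb γ).im := by
        by_contra h8
        exact hy3 ⟨h4, not_lt.1 h8⟩
      have h9 : 0 ≤ 1 - b := by linarith
      nlinarith [mul_le_mul_of_nonneg_left hcT.le h9, mul_lt_mul_of_pos_left h7 h0]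
  exact (hstar.isPathConnected hcK).isConnected.isPreconnected

/-- THE LABEL OF THE STRETCH IS THE LABEL OF THE SLIT NEIGHBOURHOOD: identity theorem on the fibres of
the slit bidisc (both labels are the limit label below the tip). -/
theorem z_lab (hB : Base Y h R C0 v G L) (HW : Win v U β C1 c V) (x : ℕ → ℝ)
    {Vm : ℂ → ℝ} {g₀ r₀ x₁ x₂ v₀ b : ℝ} {P : ℕ} {Tb : ℕ → ℂ → ℂ} {X : ℕ → ℝ}
    (hSd : Sd (vI v U c V) Vm g₀ r₀ x₁ x₂ v₀ b P Tb X) (hv : vI v U c V g₀ ≤ v₀)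
    {Λ : ℂ × ℂ → ℂ} (hS : Slt (DI v U c V) (LI L h U x c V) Λ (SB g₀ r₀ x₁ x₂ v₀ b P Tb)) {i : ℕ}
    (hi : i < P) {l : ℂ} {k : ℕ} {Rz ρ : ℝ} {μ : ℕ} {lam : ℂ → ℂ} {rz M ρ0 : ℝ} {Ys : ℂ → ℂ}
    {c1 k0 : ℂ} {K lb Zf : ℂ × ℂ → ℂ}
    (hZ : ZC (qI Y h U x c V) (vI v U c V) (LI L h U x c V) g₀ (Tb (i + 1) g₀) (Tb (i + 1)) l k Rz ρ
      μ lam rz M ρ0 Ys c1 k0 K lb Zf) :
    ∃ R' ρ' : ℝ, 0 < R' ∧ 0 < ρ' ∧ R' ≤ Rz ∧ ρ' ≤ ρ ∧
      ∀ p ∈ Slb (Tb (i + 1)) (Tb (i + 1) g₀) g₀ R' ρ', p ∈ SB g₀ r₀ x₁ x₂ v₀ b P Tb ∧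
        zf Λ (p.1 / p.2, p.2) = (lb (Zf p, p.2), alZ k Ys (Zf p, p.2)) := by
  obtain ⟨R₁, hR₁, hsub⟩ := slb_sub hSd hi
  have hρ := hZ.sln.pos
  have hRz : 0 < Rz := hρ.trans_le hZ.sln.le
  set R' : ℝ := min R₁ Rz with hR'def
  have hR' : 0 < R' := lt_min hR₁ hRz
  have hvc : vI v U c V g₀ < v₀ + R' / 4 := by linarith
  have ev1 : ∀ᶠ γ : ℂ in 𝓝 (g₀ : ℂ), vI v U c V γ < v₀ + R' / 4 :=
    Pool.Agent.MP_ae5b4e_an_M.vI_usc hB.nv hB.R_pos HW (g₀ : ℂ) _ hvc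
  have ev2 : ∀ᶠ γ : ℂ in 𝓝 (g₀ : ℂ), ‖Tb (i + 1) γ - Tb (i + 1) g₀‖ < R' / 8 := by
    have hcT : ContinuousAt (fun γ => ‖Tb (i + 1) γ - Tb (i + 1) g₀‖) (g₀ : ℂ) :=
      (((hZ.sln.Tan (g₀ : ℂ) (mem_ball_self hρ)).continuousAt).sub continuousAt_const).norm
    refine hcT.eventually (gt_mem_nhds ?_)
    simp only [sub_self, norm_zero]
    positivity
  obtain ⟨δ, hδ, hall⟩ := Metric.eventually_nhds_iff_ball.1 (ev1.and ev2)
  set ρ' : ℝ := min ρ (min R₁ δ) with hρ'def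
  have hρ' : 0 < ρ' := lt_min hρ (lt_min hR₁ hδ)
  have hρ'1 : ρ' ≤ ρ := min_le_left _ _
  have hρ'2 : ρ' ≤ R₁ := (min_le_right _ _).trans (min_le_left _ _)
  have hρ'3 : ρ' ≤ δ := (min_le_right _ _).trans (min_le_right _ _)
  have hR'1 : R' ≤ R₁ := min_le_left _ _
  have hR'2 : R' ≤ Rz := min_le_right _ _
  have hs1 := hsub R' hR'1 ρ' hρ'2
  have hs2 : Slb (Tb (i + 1)) (Tb (i + 1) g₀) g₀ R' ρ' ⊆
      Slb (Tb (i + 1)) (Tb (i + 1) g₀) g₀ Rz ρ := fun p hp =>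
    ⟨⟨ball_subset_ball hR'2 hp.1.1, ball_subset_ball hρ'1 hp.1.2⟩, hp.2⟩
  refine ⟨R', ρ', hR', hρ', hR'2, hρ'1, ?_⟩
  rintro ⟨τ, γ⟩ hp
  refine ⟨hs1 hp, ?_⟩
  have hγ : γ ∈ ball (g₀ : ℂ) ρ' := hp.1.2
  obtain ⟨g1, g2⟩ := hall γ (ball_subset_ball hρ'3 hγ)
  have hγ0 : γ ≠ 0 := hS.ne _ (hs1 hp)
  obtain ⟨hcS, hconn⟩ := slb_star (Tb := Tb (i + 1)) hR' hγ g2
  have him : (Tb (i + 1) (g₀ : ℂ)).im = -v₀ := hSd.Tb_im i hi
  obtain ⟨cc, hcc⟩ : ∃ cc : ℂ, cc = ⟨(Tb (i + 1) γ).re, (Tb (i + 1) g₀).im - R' / 2⟩ := ⟨_, rfl⟩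
  rw [← hcc] at hcS
  have hccim : cc.im = -v₀ - R' / 2 := by rw [hcc, ← him]
  obtain ⟨F, hF⟩ : ∃ F : Set ℂ, F = {t : ℂ | (t, γ) ∈ Slb (Tb (i + 1)) (Tb (i + 1) g₀) g₀ R' ρ'} :=
    ⟨_, rfl⟩
  rw [← hF] at hconn
  have hFm : ∀ t, t ∈ F ↔ (t, γ) ∈ Slb (Tb (i + 1)) (Tb (i + 1) g₀) g₀ R' ρ' := by
    intro t
    rw [hF]
    rfl
  have hcF : cc ∈ F := (hFm _).2 hcS
  have hτF : τ ∈ F := (hFm _).2 hp
  have hcomp : ∀ {f : ℂ × ℂ → ℂ} {t : ℂ}, AnalyticAt ℂ f (t, γ) →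
      AnalyticAt ℂ (fun t => f (t, γ)) t := by
    intro f t hf
    exact AnalyticAt.comp (g := f) (f := fun t : ℂ => (t, γ)) hf
      (AnalyticAt.prod analyticAt_id analyticAt_const)
  -- an open set below the tip
  obtain ⟨N, hN⟩ : ∃ N : Set ℂ, N = ball (Tb (i + 1) g₀) R' ∩ {t : ℂ | t.im < -v₀ - R' / 4} :=
    ⟨_, rfl⟩
  have hNo : IsOpen N := by
    rw [hN]
    exact isOpen_ball.inter (isOpen_lt continuous_im continuous_const)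
  have hcN : cc ∈ N := by
    rw [hN]
    exact ⟨hcS.1.1, by change cc.im < _; rw [hccim]; linarith⟩
  have hTim : -v₀ - R' / 8 < (Tb (i + 1) γ).im := by
    have h3 := (abs_im_le_norm (Tb (i + 1) γ - Tb (i + 1) g₀)).trans_lt g2
    rw [sub_im, abs_lt, him] at h3
    linarith [h3.1]
  have hNF : ∀ t ∈ N, t ∈ F := by
    intro t ht
    rw [hN] at ht
    refine (hFm t).2 ⟨⟨ht.1, hγ⟩, fun h1 => ?_⟩
    have h2 : t.im < -v₀ - R' / 4 := ht.2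
    have h3 : (Tb (i + 1) γ).im ≤ t.im := h1.2
    linarith
  have hND : ∀ t ∈ N, t.im < -vI v U c V γ := by
    intro t ht
    rw [hN] at ht
    have h2 : t.im < -v₀ - R' / 4 := ht.2
    linarith
  have hN1 : ∀ t ∈ N, Λ (t, γ) = LI L h U x c V (t, γ) := fun t ht =>
    hS.eq (t, γ) (hs1 ((hFm t).1 (hNF t ht))) (hND t ht)
  have hN2 : ∀ t ∈ N, lb (Zf (t, γ), γ) = LI L h U x c V (t, γ) := fun t ht =>
    hZ.sln.eq (t, γ) (hs2 ((hFm t).1 (hNF t ht))) ⟨hγ0, hND t ht⟩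
  have hA1 : AnalyticOnNhd ℂ (fun t => Λ (t, γ)) F := fun t ht =>
    hcomp (hS.an (t, γ) (hs1 ((hFm t).1 ht)))
  have hA2 : AnalyticOnNhd ℂ (fun t => lb (Zf (t, γ), γ)) F := fun t ht =>
    hcomp (f := fun p => lb (Zf p, p.2)) (hZ.sln.an (t, γ) (hs2 ((hFm t).1 ht)))
  have hev : (fun t => Λ (t, γ)) =ᶠ[𝓝 cc] (fun t => lb (Zf (t, γ), γ)) := by
    filter_upwards [hNo.mem_nhds hcN] with t ht
    rw [hN1 t ht, hN2 t ht]
  have hE1 : EqOn (fun t => Λ (t, γ)) (fun t => lb (Zf (t, γ), γ)) F :=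
    AnalyticOnNhd.eqOn_of_preconnected_of_eventuallyEq hA1 hA2 hconn hcF hev
  -- the second component
  have hA3 : AnalyticOnNhd ℂ (fun t => γ * deriv (fun s => Λ (s, γ)) t) F := fun t ht =>
    analyticAt_const.mul ((hA1 t ht).deriv)
  have hA4 : AnalyticOnNhd ℂ (fun t => alZ k Ys (Zf (t, γ), γ)) F := by
    intro t ht
    have ht' := hs2 ((hFm t).1 ht)
    have h1 : AnalyticAt ℂ (fun t => Zf (t, γ)) t := hcomp (hZ.Z_an (t, γ) ht')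
    have h2 : AnalyticAt ℂ (alZ k Ys) (Zf (t, γ), γ) :=
      hZ.mod.aan _ ⟨(hZ.Z_eq (t, γ) ht').1, ball_subset_ball hZ.ρ_le ht'.1.2⟩
    exact AnalyticAt.comp (g := alZ k Ys) (f := fun t : ℂ => (Zf (t, γ), γ)) h2
      (h1.prod analyticAt_const)
  have hev2 : (fun t => γ * deriv (fun s => Λ (s, γ)) t) =ᶠ[𝓝 cc]
      (fun t => alZ k Ys (Zf (t, γ), γ)) := by
    filter_upwards [hNo.mem_nhds hcN] with t ht
    have h1 : deriv (fun s => Λ (s, γ)) t = dt (LI L h U x c V) (t, γ) := by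
      refine Filter.EventuallyEq.deriv_eq ?_
      filter_upwards [hNo.mem_nhds ht] with s hs
      exact hN1 s hs
    rw [h1]
    exact (hZ.st (t, γ) (hs2 ((hFm t).1 (hNF t ht))) ⟨hγ0, hND t ht⟩).2.symm
  have hE2 : EqOn (fun t => γ * deriv (fun s => Λ (s, γ)) t) (fun t => alZ k Ys (Zf (t, γ), γ)) F :=
    AnalyticOnNhd.eqOn_of_preconnected_of_eventuallyEq hA3 hA4 hconn hcF hev2
  have hdm : τ / γ * γ = τ := div_mul_cancel₀ _ hγ0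
  change (Λ (τ / γ * γ, γ), γ * deriv (fun s => Λ (s, γ)) (τ / γ * γ)) =
    (lb (Zf (τ, γ), γ), alZ k Ys (Zf (τ, γ), γ))
  rw [hdm]
  exact Prod.ext (hE1 hτF) (hE2 hτF)

end Pool.Agent.MP_ae5b4e_an_AZ
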