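import Pool.Agent.Lib.MP_ae5b4e_an_A1.WinBC

/-!
# POR (iii), (Z'): passages below the branch point `i + 1` in the slit box
-/

noncomputable section

namespace Pool.Agent.MP_ae5b4e_an_AZ

open Complex Set Filter Topology Metric
open Pool.Agent.MP_ae5b4e_an_A1

/-- Proof. Let `t := Tb (i+1) g₀ / g₀`, `al < ar`, `K := Icc al ar × Icc (- h₁) 0` (compact),
`F ((s, y), γ) := (s + i y) γ + Tb (i+1) γ`,
continuous at the points of `K × {g₀}`. At `γ = g₀`: `Re F = s g₀ + Re Tb (i+1) g₀ ∈ [X i, X (i+1)]`,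
inside `(x₁, x₂)` (`Geom_mono`, `X_l`, `X_r`), `Im F + v₀ = y g₀`, `|y g₀| ≤ h₁ g₀ < b`, and for `j < i`:
`Re Tb (j+1) g₀ < X (j+1) ≤ X i ≤ Re F`, for `j > i`:
`Re Tb (j+1) g₀ > X j ≥ X (i+1) ≥ Re F`. These are open conditions in `(s, y, γ)`, so there is `ρ'` such
that they hold for all `γ ∈ ball g₀ ρ'` (tube lemma). The slit `i + 1`: if `Re ((s + i y) γ) = 0` and
`Im ((s + i y) γ) ≥ 0` with `Re γ > 0` then `y (Re γ ² + Im γ ²) ≥ 0`, but `y < 0`. -/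
theorem z_pass {vi Vm : ℂ → ℝ} {g₀ r₀ x₁ x₂ v₀ b : ℝ} {P : ℕ} {Tb : ℕ → ℂ → ℂ} {X : ℕ → ℝ}
    (hSd : Sd vi Vm g₀ r₀ x₁ x₂ v₀ b P Tb X) {i : ℕ} (hi : i < P) {h₁ : ℝ} (hh : 0 < h₁)
    (hb : h₁ * g₀ < b) :
    ∃ ρ' : ℝ, 0 < ρ' ∧ ∀ γ ∈ ball (g₀ : ℂ) ρ', ∀ y : ℝ, -h₁ < y → y < 0 →
      ∀ s ∈ Icc (X i / g₀ - (Tb (i + 1) g₀ / g₀).re) (X (i + 1) / g₀ - (Tb (i + 1) g₀ / g₀).re),
        (((⟨s, y⟩ : ℂ) + Tb (i + 1) γ / γ) * γ, γ) ∈ SB g₀ r₀ x₁ x₂ v₀ b P Tb := by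
  classical
  have hg := hSd.g_pos
  have hball : (g₀ : ℂ) ∈ ball (g₀ : ℂ) r₀ := mem_ball_self hSd.r_pos
  set K : Set (ℝ × ℝ) := Icc (X i / g₀ - (Tb (i + 1) g₀ / g₀).re)
    (X (i + 1) / g₀ - (Tb (i + 1) g₀ / g₀).re) ×ˢ Icc (-h₁) 0 with hK
  have hKc : IsCompact K := isCompact_Icc.prod isCompact_Icc
  set F : ℂ × (ℝ × ℝ) → ℂ := fun p => ((p.2.1 : ℂ) + (p.2.2 : ℂ) * I) * p.1 + Tb (i + 1) p.1
    with hF
  have cT : ∀ j < P, ∀ a : ℝ × ℝ,
      ContinuousAt (fun p : ℂ × (ℝ × ℝ) => Tb (j + 1) p.1) ((g₀ : ℂ), a) := fun j hj a =>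
    ContinuousAt.comp (f := Prod.fst) (g := Tb (j + 1))
      ((hSd.Tb_cont j hj).continuousAt (isOpen_ball.mem_nhds hball)) continuous_fst.continuousAt
  have cF : ∀ a : ℝ × ℝ, ContinuousAt F ((g₀ : ℂ), a) := by
    intro a
    refine ContinuousAt.add (Continuous.continuousAt ?_) (cT i hi a)
    fun_prop
  have hdre : (Tb (i + 1) g₀ / g₀).re = (Tb (i + 1) g₀).re / g₀ := div_ofReal_re _ _
  have key : ∀ᶠ γ in 𝓝 (g₀ : ℂ), ∀ a ∈ K, x₁ < (F (γ, a)).re ∧ (F (γ, a)).re < x₂ ∧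
      |(F (γ, a)).im + v₀| < b ∧
      ∀ j ∈ Finset.range P, j ≠ i → (F (γ, a)).re ≠ (Tb (j + 1) γ).re := by
    refine hKc.eventually_forall_of_forall_eventually ?_
    rintro ⟨s, y⟩ ⟨⟨hs1, hs2⟩, hy1, hy2⟩
    simp only at hs1 hs2 hy1 hy2
    have hre0 : (F ((g₀ : ℂ), (s, y))).re = s * g₀ + (Tb (i + 1) g₀).re := by simp [hF]
    have him0 : (F ((g₀ : ℂ), (s, y))).im = y * g₀ - v₀ := by
      have := hSd.Tb_im i hi
      simp [hF, this]
      ring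
    have hl : X i ≤ s * g₀ + (Tb (i + 1) g₀).re := by
      rw [hdre, ← sub_div, div_le_iff₀ hg] at hs1
      linarith
    have hr : s * g₀ + (Tb (i + 1) g₀).re ≤ X (i + 1) := by
      rw [hdre, ← sub_div, le_div_iff₀ hg] at hs2
      linarith
    have cre : ContinuousAt (fun p => (F p).re) ((g₀ : ℂ), (s, y)) :=
      continuous_re.continuousAt.comp (cF (s, y))
    have cim : ContinuousAt (fun p => |(F p).im + v₀|) ((g₀ : ℂ), (s, y)) :=
      ((continuous_im.continuousAt.comp (cF (s, y))).add continuousAt_const).abs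
    have m1 := Geom_mono hSd (Nat.zero_le i) hi.le
    have m2 := Geom_mono hSd (Nat.succ_le_of_lt hi) le_rfl
    have e1 : ∀ᶠ p in 𝓝 ((g₀ : ℂ), (s, y)), x₁ < (F p).re := by
      refine cre.eventually (lt_mem_nhds ?_)
      simp only [hre0]
      linarith [hSd.X_l]
    have e2 : ∀ᶠ p in 𝓝 ((g₀ : ℂ), (s, y)), (F p).re < x₂ := by
      refine cre.eventually (gt_mem_nhds ?_)
      simp only [hre0]
      have : X (i + 1) ≤ X P := m2
      linarith [hSd.X_r]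
    have e3 : ∀ᶠ p in 𝓝 ((g₀ : ℂ), (s, y)), |(F p).im + v₀| < b := by
      refine cim.eventually (gt_mem_nhds ?_)
      simp only [him0]
      rw [sub_add_cancel, abs_lt]
      constructor <;> nlinarith
    have e4 : ∀ᶠ p in 𝓝 ((g₀ : ℂ), (s, y)), ∀ j ∈ Finset.range P, j ≠ i →
        (F p).re ≠ (Tb (j + 1) p.1).re := by
      rw [Filter.eventually_all_finset]
      intro j hj
      have hj' := Finset.mem_range.1 hj
      by_cases hji : j = i
      · exact Eventually.of_forall fun p hne => absurd hji hne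
      have hne : (F ((g₀ : ℂ), (s, y))).re - (Tb (j + 1) (g₀ : ℂ)).re ≠ 0 := by
        rw [hre0]
        rcases lt_or_gt_of_ne hji with hlt | hgt
        · have q1 := hSd.Tb_r j hj'
          have q2 := Geom_mono hSd (Nat.succ_le_of_lt hlt) hi.le
          have q3 : X (j + 1) ≤ X i := q2
          intro h0
          linarith
        · have q1 := hSd.Tb_l j hj'
          have q2 := Geom_mono hSd (Nat.succ_le_of_lt hgt) hj'.le
          have q3 : X (i + 1) ≤ X j := q2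
          intro h0
          linarith
      have cc : ContinuousAt (fun p : ℂ × (ℝ × ℝ) => (F p).re - (Tb (j + 1) p.1).re)
          ((g₀ : ℂ), (s, y)) :=
        cre.sub (continuous_re.continuousAt.comp (cT j hj' (s, y)))
      filter_upwards [cc.eventually_ne hne] with p hp _
      exact sub_ne_zero.1 hp
    filter_upwards [e1, e2, e3, e4] with p h1 h2 h3 h4
    exact ⟨h1, h2, h3, h4⟩
  have hre : ∀ᶠ γ : ℂ in 𝓝 (g₀ : ℂ), 0 < γ.re := by
    refine continuous_re.continuousAt.eventually (lt_mem_nhds ?_)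
    simpa using hg
  have hbl : ∀ᶠ γ : ℂ in 𝓝 (g₀ : ℂ), γ ∈ ball (g₀ : ℂ) r₀ := isOpen_ball.mem_nhds hball
  obtain ⟨ρ', hρ', hall⟩ := Metric.eventually_nhds_iff_ball.1 (key.and (hre.and hbl))
  refine ⟨ρ', hρ', ?_⟩
  intro γ hγ y hy1 hy2 s hs
  obtain ⟨k1, k2, k3⟩ := hall γ hγ
  obtain ⟨f1, f2, f3, f4⟩ := k1 (s, y) ⟨hs, ⟨hy1.le, hy2.le⟩⟩
  have hγ0 : γ ≠ 0 := by
    intro h0
    rw [h0] at k2
    simp at k2
  have hmk : (⟨s, y⟩ : ℂ) = (s : ℂ) + (y : ℂ) * I := by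
    apply Complex.ext <;> simp
  have hval : ((⟨s, y⟩ : ℂ) + Tb (i + 1) γ / γ) * γ = F (γ, (s, y)) := by
    rw [hmk, hF]
    simp only
    rw [add_mul, div_mul_cancel₀ _ hγ0]
  rw [hval]
  refine ⟨k3, f1, f2, f3, ?_⟩
  intro j hj hcon
  simp only at hcon
  by_cases hji : j = i
  · subst hji
    obtain ⟨c1, c2⟩ := hcon
    have r1 : (F (γ, (s, y))).re = s * γ.re - y * γ.im + (Tb (j + 1) γ).re := by
      simp [hF]
    have r2 : (F (γ, (s, y))).im = s * γ.im + y * γ.re + (Tb (j + 1) γ).im := by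
      simp [hF]
    rw [r1] at c1
    rw [r2] at c2
    have c3 : s * γ.re = y * γ.im := by linarith
    have c4 : 0 ≤ s * γ.im + y * γ.re := by linarith
    have c5 : 0 ≤ (s * γ.im + y * γ.re) * γ.re := mul_nonneg c4 k2.le
    have c6 : (s * γ.im + y * γ.re) * γ.re = y * (γ.im ^ 2 + γ.re ^ 2) := by
      have : (s * γ.im + y * γ.re) * γ.re = (s * γ.re) * γ.im + y * γ.re ^ 2 := by ring
      rw [this, c3]
      ring
    rw [c6] at c5
    have c7 : 0 < γ.im ^ 2 + γ.re ^ 2 := by positivity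
    nlinarith
  · exact f4 j (Finset.mem_range.2 hj) hji hcon.1

end Pool.Agent.MP_ae5b4e_an_AZ
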