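import Pool.Agent.Lib.MP_ae5b4e_an_AZ.GeoId
import Pool.Agent.Lib.MP_ae5b4e_an_AZ.K18a
import Pool.Agent.Lib.MP_ae5b4e_an_AZ.K18b
import Pool.Agent.Lib.MP_ae5b4e_an_AZ.K15
import Pool.Agent.Lib.MP_ae5b4e_an_AZ.K16
import Pool.Agent.Lib.MP_ae5b4e_an_AZ.K16a
import Pool.Agent.Lib.MP_ae5b4e_an_ATK.Win

/-!
# POR (iii), (Z'): the first mode at a point `Z_k`, in the windows
-/

noncomputable section

namespace Pool.Agent.MP_ae5b4e_an_AZ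

open Complex Set Filter Topology Metric
open Pool.Agent.MP_ae5b4e_an_NB2 (Sys)
open Pool.Agent.MP_ae5b4e_an_PB (Base)
open Pool.Agent.MP_ae5b4e_an_M (Win DI LI vI qI Zn Ln qI_hol)
open Pool.Agent.MP_ae5b4e_an_A1
open Pool.Agent.MP_ae5b4e_an_A3 (md Dfc)
open Pool.Agent.MP_ae5b4e_an_ATK (sb_mem exists_Ks)
open PorTR (Hm)

variable {Y : Sys} {h R C0 : ℝ} {v : ℂ → ℝ} {G L : ℂ × ℂ → ℂ} {U : Ultrafilter ℕ} {β C1 : ℝ}
  {c V : ℕ → ℝ}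

/-- **(Z') IN THE WINDOWS** (the analogue of `ATK.tip_win`; `hv` holds with equality in the application).
Hypotheses on `BC`, `BZ`, `Bo` = conclusion of `A1.win_BC`. -/
theorem z_win (hB : Base Y h R C0 v G L) (HW : Win v U β C1 c V) (x : ℕ → ℝ)
    {ξ : ℕ → ℂ × ℂ → ℂ} (hξ : XI U (fun n => Zn Y h x V n) (fun n => c n / V n) ξ)
    {Vm : ℂ → ℝ} {g₀ r₀ x₁ x₂ v₀ b : ℝ} {P : ℕ} {Tb : ℕ → ℂ → ℂ} {X : ℕ → ℝ}
    (hSd : Sd (vI v U c V) Vm g₀ r₀ x₁ x₂ v₀ b P Tb X) (hv : vI v U c V g₀ ≤ v₀)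
    {Λ : ℂ × ℂ → ℂ} (hS : Slt (DI v U c V) (LI L h U x c V) Λ (SB g₀ r₀ x₁ x₂ v₀ b P Tb))
    {w r : ℝ} (hr : 0 < r)
    (hBo : ∀ i ≤ P, Bo (fun i => X i / g₀) (-v₀ / g₀) w g₀ (2 * r) i ⊆
      {p | (p.1 * p.2, p.2) ∈ SB g₀ r₀ x₁ x₂ v₀ b P Tb})
    {Z : ℕ → ℕ → ℂ × ℂ → ℂ × ℂ} {f g A B : ℕ → ℕ → ℂ × ℂ → ℂ}
    (hBC : BC U (fun n => c n / V n) g₀ r (-v₀ / g₀ - w / 2) P (TX Vm g₀ X) (YB Tb) f g A B)
    (hBZ : BZ U (fun n => c n / V n) (gx (fun n => c n / V n) ξ) (zf Λ)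
      (lab (fun n => c n / V n) (fun n => Ln L h x c V n)) g₀ r (-v₀ / g₀) (-v₀ / g₀ - w / 2)
      w P (fun i => X i / g₀) (TX Vm g₀ X) (YB Tb) Z f g A B) {i : ℕ} (hi : i < P) {l : ℂ} {k : ℕ}
    (hZ : ZO (qI Y h U x c V) (vI v U c V) (LI L h U x c V) g₀ (Tb (i + 1) g₀) (Tb (i + 1)) l k)
    {y : ℝ} (h1 : -v₀ / g₀ - w / 2 < y) (h2 : y < -v₀ / g₀) :
    ¬Dfc U (fun n => c n / V n) y (YB Tb (i + 1)) g₀ (B (i + 1)) := by
  intro hdf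
  have hg := hSd.g_pos
  have hb := hSd.b_pos
  have hw := hBZ.w_pos
  have hgc : (g₀ : ℂ) ≠ 0 := by
    rw [Ne, ofReal_eq_zero]
    exact hg.ne'
  have hq := qI_hol hB HW x (U := U)
  have hV := vf_win hB HW x hξ
  have hre : (Tb (i + 1) g₀ / (g₀ : ℂ)).re = (Tb (i + 1) g₀).re / g₀ := div_ofReal_re _ _
  have him : (Tb (i + 1) g₀ / (g₀ : ℂ)).im = -v₀ / g₀ := by
    rw [div_ofReal_im, hSd.Tb_im i hi]
  have ha : X i / g₀ < (Tb (i + 1) g₀ / (g₀ : ℂ)).re := by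
    rw [hre]
    exact div_lt_div_of_pos_right (hSd.Tb_l i hi) hg
  have ha' : (Tb (i + 1) g₀ / (g₀ : ℂ)).re < X (i + 1) / g₀ := by
    rw [hre]
    exact div_lt_div_of_pos_right (hSd.Tb_r i hi) hg
  obtain ⟨Rz, ρz, μ, lam, rz, M, ρ0, Ys, c1, k0, K, lb, Zf, hZC⟩ := hZ
  obtain ⟨Ω, z, d, ρ, p, b0, b', A', C, R0, bt, δt, θt, s, c₀, hs, hG, hH, hbt, hT, hc₀, e, r', he, hr',
    hid⟩ := geo_id hq hZC
  obtain ⟨R', ρ', hR', hρ', hRz, hρz, hlab⟩ := z_lab hB HW x hSd hv hS hi hZC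
  -- geometry of the boxes
  have hwb : w / 2 * g₀ < b := by
    have k1 : (((⟨X i / g₀, -v₀ / g₀ + 3 * w / 4⟩ : ℂ)), (g₀ : ℂ)) ∈
        Bo (fun i => X i / g₀) (-v₀ / g₀) w g₀ (2 * r) i := by
      refine ⟨⟨?_, ?_, ?_, ?_⟩, mem_ball_self (by linarith)⟩ <;> simp only <;> linarith
    have k2 : |((⟨X i / g₀, -v₀ / g₀ + 3 * w / 4⟩ : ℂ) * (g₀ : ℂ)).im + v₀| < b :=
      (hBo i hi.le k1).2.2.2.1
    have k3 : ((⟨X i / g₀, -v₀ / g₀ + 3 * w / 4⟩ : ℂ) * (g₀ : ℂ)).im + v₀ = 3 * w / 4 * g₀ := by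
      rw [mul_im, ofReal_re, ofReal_im]
      field_simp
      ring
    rw [k3] at k2
    have k4 := (abs_lt.1 k2).2
    have k5 : 0 < w * g₀ := mul_pos hw hg
    linarith
  have hball : ball (g₀ : ℂ) (2 * r) ⊆ ball (g₀ : ℂ) r₀ := by
    intro γ hγ
    have k1 : (((⟨X i / g₀, -v₀ / g₀⟩ : ℂ)), γ) ∈
        Bo (fun i => X i / g₀) (-v₀ / g₀) w g₀ (2 * r) i := by
      refine ⟨⟨?_, ?_, ?_, ?_⟩, hγ⟩ <;> simp only <;> linarith
    exact (hBo i hi.le k1).1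
  obtain ⟨ρp, hρp, hpass⟩ := z_pass hSd hi (h₁ := w / 2) (by linarith) hwb
  -- the maps
  obtain ⟨σ, hσdef⟩ : ∃ σ : ℂ → ℂ, σ = fun c => s * cexp c := ⟨_, rfl⟩
  obtain ⟨τf, hτdef⟩ : ∃ τf : ℂ → ℂ, τf = fun c => Tb (i + 1) (σ c) / σ c := ⟨_, rfl⟩
  have hσv : ∀ c, σ c = s * cexp c := fun c => by rw [hσdef]
  have hτv : ∀ c, τf c = Tb (i + 1) (σ c) / σ c := fun c => by rw [hτdef]
  have hσ₀ : σ c₀ = (g₀ : ℂ) := by rw [hσv, hc₀]
  have hσ0 : ∀ c, σ c ≠ 0 := fun c => by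
    rw [hσv]
    exact mul_ne_zero hs (Complex.exp_ne_zero _)
  have hσan : ∀ c, AnalyticAt ℂ σ c := fun c => by
    rw [hσdef]
    fun_prop
  have hσd : ∀ c, deriv σ c = σ c := fun c => by
    rw [hσdef]
    simp
  have hTan := hZC.sln.Tan
  -- a small ball of parameters
  have hTc : ContinuousAt (fun c => Tb (i + 1) (σ c)) c₀ := by
    have k1 : ContinuousAt (Tb (i + 1)) (σ c₀) := by
      rw [hσ₀]
      exact (hTan _ (mem_ball_self hZC.sln.pos)).continuousAt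
    exact ContinuousAt.comp (g := Tb (i + 1)) k1 (hσan c₀).continuousAt
  obtain ⟨ρm, hρm⟩ : ∃ ρm, ρm = min (min ρz ρ') ρp := ⟨_, rfl⟩
  have hρm0 : 0 < ρm := by
    rw [hρm]
    exact lt_min (lt_min hZC.sln.pos hρ') hρp
  have hρm1 : ρm ≤ ρz := by
    rw [hρm]
    exact (min_le_left _ _).trans (min_le_left _ _)
  have hρm2 : ρm ≤ ρ' := by
    rw [hρm]
    exact (min_le_left _ _).trans (min_le_right _ _)
  have hρm3 : ρm ≤ ρp := by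
    rw [hρm]
    exact min_le_right _ _
  have hev : ∀ᶠ c in 𝓝 c₀, σ c ∈ ball (g₀ : ℂ) ρm ∧ ‖Tb (i + 1) (σ c) - Tb (i + 1) g₀‖ < R' / 2 ∧
      ‖σ c‖ < 2 * g₀ := by
    have k1 : ∀ᶠ c in 𝓝 c₀, σ c ∈ ball (g₀ : ℂ) ρm := by
      refine (hσan c₀).continuousAt ?_
      rw [hσ₀]
      exact ball_mem_nhds _ hρm0
    have k2 : ∀ᶠ c in 𝓝 c₀, ‖Tb (i + 1) (σ c) - Tb (i + 1) g₀‖ < R' / 2 := by
      have k3 : ContinuousAt (fun c => ‖Tb (i + 1) (σ c) - Tb (i + 1) g₀‖) c₀ :=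
        (hTc.sub continuousAt_const).norm
      refine k3.eventually_lt_const ?_
      show ‖Tb (i + 1) (σ c₀) - Tb (i + 1) g₀‖ < R' / 2
      rw [hσ₀, sub_self, norm_zero]
      linarith
    have k3 : ∀ᶠ c in 𝓝 c₀, ‖σ c‖ < 2 * g₀ := by
      refine (hσan c₀).continuousAt.norm.eventually_lt_const ?_
      show ‖σ c₀‖ < 2 * g₀
      rw [hσ₀, Complex.norm_real, Real.norm_of_nonneg hg.le]
      linarith
    filter_upwards [k1, k2, k3] with c a1 a2 a3 using ⟨a1, a2, a3⟩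
  obtain ⟨rD, hrD, hD⟩ := Metric.eventually_nhds_iff_ball.1 hev
  obtain ⟨rr, hrr⟩ : ∃ rr, rr = min rD r' := ⟨_, rfl⟩
  have hrr0 : 0 < rr := by
    rw [hrr]
    exact lt_min hrD hr'
  obtain ⟨ee, hee⟩ : ∃ ee, ee = min e (R' / (16 * g₀)) := ⟨_, rfl⟩
  have hee0 : 0 < ee := by
    rw [hee]
    exact lt_min he (by positivity)
  have hee1 : ee ≤ e := by
    rw [hee]
    exact min_le_left _ _
  have hee2 : ee * (16 * g₀) ≤ R' := by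
    have k1 : ee ≤ R' / (16 * g₀) := by
      rw [hee]
      exact min_le_right _ _
    exact (le_div_iff₀ (by positivity)).1 k1
  have hτ₀ : τf c₀ = Tb (i + 1) g₀ / g₀ := by rw [hτv, hσ₀]
  have hno := no_dz hV hG hbt (fun x' hx' h' r'' Zl Zr X' hh' hr'' e1 e2 e3 e4 e5 e6 e7 δ hδ =>
    tip_far hs hV hξ hq hG hH hbt hT (fun lb' hlb' R'' κ ℓ g1 g2 g3 g4 g5 g6 =>
      exists_Ks hB HW x g1 g2 g3 g4 g5 g6) hx' hh' hr'' e1 e2 e3 e4 e5 e6 e7 hδ) c₀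
  refine hno ?_
  have hYc : ContinuousOn (YB Tb (i + 1)) (ball (g₀ : ℂ) r) := by
    intro γ hγ
    have k1 : γ ∈ ball (g₀ : ℂ) r₀ := hball (ball_subset_ball (by linarith) hγ)
    have k2 : γ ≠ 0 := by
      intro h0
      rw [h0, mem_ball, dist_comm, dist_zero_right, Complex.norm_real,
        Real.norm_of_nonneg hg.le] at k1
      linarith [hSd.r_lt]
    have k3 : ContinuousAt (Tb (i + 1)) γ :=
      (hSd.Tb_cont i hi).continuousAt (isOpen_ball.mem_nhds k1)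
    exact (Complex.continuous_im.continuousAt.comp (k3.div continuousAt_id k2)).continuousWithinAt
  have hkk := bz_kk (fun n => div_pos (HW.c_pos n) (HW.V_pos n)) hV.ε_lim hr hBC hBZ hi (ha.trans ha')
    hYc
  have hal : X i / g₀ - (Tb (i + 1) g₀ / g₀).re < 0 := by linarith
  have har : 0 < X (i + 1) / g₀ - (Tb (i + 1) g₀ / g₀).re := by linarith
  refine macro_dz (D := ball c₀ rD) (τ := τf) (σ := σ) (Ω₁ := {p | (p.1 * p.2, p.2) ∈ SB g₀ r₀ x₁ x₂ v₀ b P Tb})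
    (z₁ := zf Λ) (e := ee) (r := rr) (al := X i / g₀ - (Tb (i + 1) g₀ / g₀).re)
    (ar := X (i + 1) / g₀ - (Tb (i + 1) g₀ / g₀).re) (Ol := Bo (fun i => X i / g₀) (-v₀ / g₀) w g₀ (2 * r) i)
    (Or := Bo (fun i => X i / g₀) (-v₀ / g₀) w g₀ (2 * r) (i + 1)) (Zl := Z i) (Zr := Z (i + 1))
    (X := fun n p => (A (i + 1) n p, B (i + 1) n p)) (h₁ := w / 2) (r₁ := r) (y := y)
    (Yb := YB Tb (i + 1)) (R := {x : ℝ × ℂ | x.2 ∈ ball (g₀ : ℂ) r ∧ -v₀ / g₀ - w / 2 < x.1 ∧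
      x.1 < YB Tb (i + 1) x.2}) hV (fw_slit hB HW x hS) hG.fw hG.d_pos isOpen_ball ?_ ?_ ?_
    (mem_ball_self hrD) hee0 hrr0 ?_ hal har ?_ (isOpen_Bo _ _ _ _ _ _) (isOpen_Bo _ _ _ _ _ _)
    (hBo i hi.le) (hBo (i + 1) hi) ?_ ?_ (hBZ.ex i hi.le) (hBZ.ex (i + 1) hi) (by linarith) hr ?_ ?_ ?_
    ?_ ?_ ?_ ?_ ?_
  · intro c hc
    obtain ⟨k1, -, -⟩ := hD c hc
    have k2 : AnalyticAt ℂ (fun c => Tb (i + 1) (σ c)) c :=
      AnalyticAt.fun_comp (g := Tb (i + 1)) (f := σ) (hTan _ (ball_subset_ball hρm1 k1)) (hσan c)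
    rw [hτdef]
    exact k2.div (hσan c) (hσ0 c)
  · exact fun c _ => hσan c
  · intro c _
    rw [hσd]
    exact hσ0 c
  · -- the identification
    intro c hc θ hθ hθd
    have hcD : c ∈ ball c₀ rD := by
      refine ball_subset_ball ?_ hc
      rw [hrr]
      exact min_le_left _ _
    have hcr : c ∈ ball c₀ r' := by
      refine ball_subset_ball ?_ hc
      rw [hrr]
      exact min_le_right _ _
    obtain ⟨k1, k2, k3⟩ := hD c hcD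
    obtain ⟨m1, m2, m3⟩ := hid c hcr θ (hθ.trans_le (by linarith)) hθd
    rw [← hσv] at m2 m3
    have e1 : (ch τf σ (θ, c)).1 * (ch τf σ (θ, c)).2 = θ * σ c + Tb (i + 1) (σ c) := by
      show (θ + τf c) * σ c = _
      rw [hτv]
      field_simp [hσ0 c]
    have e2 : (ch τf σ (θ, c)).2 = σ c := rfl
    have hP : (θ * σ c + Tb (i + 1) (σ c), σ c) ∈
        Pool.Agent.MP_ae5b4e_an_T.Slb (Tb (i + 1)) (Tb (i + 1) g₀) g₀ R' ρ' := by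
      refine ⟨⟨?_, ball_subset_ball hρm2 k1⟩, m2.2⟩
      show dist (θ * σ c + Tb (i + 1) (σ c)) (Tb (i + 1) g₀) < R'
      rw [dist_eq_norm, add_sub_assoc]
      have n1 : ‖θ * σ c‖ < R' / 2 := by
        rw [norm_mul]
        have n2 : ‖θ‖ * ‖σ c‖ ≤ 2 * ee * (2 * g₀) :=
          mul_le_mul hθ.le k3.le (norm_nonneg _) (by linarith)
        have n3 : 2 * ee * (2 * g₀) = ee * (16 * g₀) / 4 := by ring
        linarith
      exact (norm_add_le _ _).trans_lt (by linarith)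
    obtain ⟨n1, n2⟩ := hlab _ hP
    refine ⟨m1, hcD, ?_, ?_⟩
    · show ((ch τf σ (θ, c)).1 * (ch τf σ (θ, c)).2, (ch τf σ (θ, c)).2) ∈
        SB g₀ r₀ x₁ x₂ v₀ b P Tb
      rw [e1, e2]
      exact n1
    · rw [m3, ← n2]
      congr 1
      refine Prod.ext ?_ rfl
      show (θ * σ c + Tb (i + 1) (σ c)) / σ c = θ + τf c
      rw [hτv]
      field_simp [hσ0 c]
  · -- the segment
    intro s' hs' hs0
    have e1 : (⟨s' + (τf c₀).re, (τf c₀).im⟩ : ℂ).re = s' + (Tb (i + 1) g₀ / (g₀ : ℂ)).re := by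
      rw [hτ₀]
    have e2 : (⟨s' + (τf c₀).re, (τf c₀).im⟩ : ℂ).im = -v₀ / g₀ := by
      rw [hτ₀]
      exact him
    rw [hσ₀]
    refine sb_mem hSd hi ?_ ?_ ?_ ?_
    · rw [e1]
      linarith [hs'.1]
    · rw [e1]
      linarith [hs'.2]
    · rw [e2, sub_self, abs_zero]
      positivity
    · rw [sub_im, sub_re, e1, e2, him, sub_self, add_sub_cancel_right]
      positivity
  · rw [hσ₀]
    refine ⟨⟨?_, ?_, ?_, ?_⟩, mem_ball_self (by linarith)⟩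
    · show X i / g₀ - w < X i / g₀ - (Tb (i + 1) g₀ / g₀).re + (τf c₀).re
      rw [hτ₀]
      linarith
    · show X i / g₀ - (Tb (i + 1) g₀ / g₀).re + (τf c₀).re < X i / g₀ + w
      rw [hτ₀]
      linarith
    · show -v₀ / g₀ - w < (τf c₀).im
      rw [hτ₀, him]
      linarith
    · show (τf c₀).im < -v₀ / g₀ + w
      rw [hτ₀, him]
      linarith
  · rw [hσ₀]
    refine ⟨⟨?_, ?_, ?_, ?_⟩, mem_ball_self (by linarith)⟩
    · show X (i + 1) / g₀ - w < X (i + 1) / g₀ - (Tb (i + 1) g₀ / g₀).re + (τf c₀).re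
      rw [hτ₀]
      linarith
    · show X (i + 1) / g₀ - (Tb (i + 1) g₀ / g₀).re + (τf c₀).re < X (i + 1) / g₀ + w
      rw [hτ₀]
      linarith
    · show -v₀ / g₀ - w < (τf c₀).im
      rw [hτ₀, him]
      linarith
    · show (τf c₀).im < -v₀ / g₀ + w
      rw [hτ₀, him]
      linarith
  · intro c _
    rw [hτv]
    rfl
  · rw [hσ₀]
    exact hYc
  · intro c hc y' hy1 hy2 s' hs'
    have hcD : c ∈ ball c₀ rD := by
      refine ball_subset_ball ?_ hc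
      rw [hrr]
      exact min_le_left _ _
    have k1 := (hD c hcD).1
    have k2 := hpass _ (ball_subset_ball hρm3 k1) y' hy1 hy2 s' hs'
    show (((⟨s', y'⟩ : ℂ) + τf c) * σ c, σ c) ∈ SB g₀ r₀ x₁ x₂ v₀ b P Tb
    rw [hτv]
    exact k2
  · rw [hσ₀, hτ₀, him]
    intro γ hγ y' hy1 hy2
    exact ⟨hγ, hy1, hy2⟩
  · rw [hτ₀]
    rw [sub_add_cancel, sub_add_cancel]
    exact hkk
  · rw [hτ₀, him]
    exact h1
  · rw [hτ₀, him]
    exact h2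
  · rw [hσ₀]
    exact hdf

end Pool.Agent.MP_ae5b4e_an_AZ
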