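import Pool.Agent.Lib.MP_ae5b4e_an_AZ.ZO
import Pool.Agent.Lib.MP_ae5b4e_an_A1.WinBC

/-!
# POR (iii), (Z'): two continuations of the label agree on a fibre
-/

noncomputable section

namespace Pool.Agent.MP_ae5b4e_an_AZ

open Complex Set Filter Topology Metric
open Pool.Agent.MP_ae5b4e_an_A1
open Pool.Agent.MP_ae5b4e_an_T

/-- THE LABEL `Λ` AND THE LABEL OF THE SLIT NEIGHBOURHOOD agree on a connected part `F` of the fibre over `γ`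
which contains a point `τ₁` of the limit domain.

Proof. `γ ≠ 0` (`hZ.sln.lt`: `ρ < g₀`). Near `τ₁` (`F ∩ {im < - vi γ}` is open) `(τ, γ)` is in the domain of `hS.eq` and in
`Dv vi`: `Λ (τ, γ) = L (τ, γ) = lb (Zf (τ, γ), γ)` (`hZ.sln.eq`). Both sides are analytic in `τ` on `F` (`hS.an`, `hZ.sln.an`),
so equal on `F` (`AnalyticOnNhd.eqOn_of_preconnected_of_eventuallyEq`). Second component: `τ ↦ γ deriv (fun s => Λ (s, γ)) τ`
and `τ ↦ alZ k Ys (Zf (τ, γ), γ)` are analytic on `F` (`hZ.mod.aan`, `hZ.Z_an`, `hZ.Z_eq`, `hZ.ρ_le`), and equal near `τ₁`: `hZ.st` gives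
`alZ .. = γ dt L (τ, γ)`, `dt L (τ, γ) = deriv (fun s => L (s, γ)) τ` and `L (., γ) = Λ (., γ)` near `τ`. Identity theorem.
`zf Λ (τ / γ, γ) = (Λ (τ / γ * γ, γ), γ * deriv .. (τ / γ * γ))`, `τ / γ * γ = τ`. -/
theorem fib_id {q : ℂ → ℂ} {vi : ℂ → ℝ} {L Λ : ℂ × ℂ → ℂ} {S : Set (ℂ × ℂ)}
    (hS : Slt {p | p.1.im < -vi p.2} L Λ S) {g₀ : ℝ} {ζ : ℂ} {Tb : ℂ → ℂ} {l : ℂ} {k : ℕ}
    {Rz ρ : ℝ} {μ : ℕ} {lam : ℂ → ℂ} {rz M ρ0 : ℝ} {Ys : ℂ → ℂ} {c1 k0 : ℂ} {K lb Zf : ℂ × ℂ → ℂ}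
    (hZ : ZC q vi L g₀ ζ Tb l k Rz ρ μ lam rz M ρ0 Ys c1 k0 K lb Zf) {γ : ℂ}
    (hγ : γ ∈ ball (g₀ : ℂ) ρ) {F : Set ℂ} (hFo : IsOpen F) (hFc : IsPreconnected F)
    (hF1 : ∀ τ ∈ F, (τ, γ) ∈ S) (hF2 : ∀ τ ∈ F, (τ, γ) ∈ Slb Tb ζ g₀ Rz ρ) {τ₁ : ℂ} (h1 : τ₁ ∈ F)
    (hD : τ₁.im < -vi γ) {τ : ℂ} (hτ : τ ∈ F) :
    zf Λ (τ / γ, γ) = (lb (Zf (τ, γ), γ), alZ k Ys (Zf (τ, γ), γ)) := by
  have hγ0 : γ ≠ 0 := by
    rintro rfl
    have h2 : dist (0 : ℂ) (g₀ : ℂ) < ρ := hγ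
    rw [dist_comm, dist_zero_right, Complex.norm_real, Real.norm_eq_abs] at h2
    have h3 := hZ.sln.lt
    have h4 := le_abs_self g₀
    linarith
  have hline : ∀ s : ℂ, AnalyticAt ℂ (fun s : ℂ => (s, γ)) s := fun s =>
    analyticAt_id.prod analyticAt_const
  have hO : IsOpen (F ∩ {s : ℂ | s.im < -vi γ}) :=
    hFo.inter (isOpen_lt Complex.continuous_im continuous_const)
  have h1O : τ₁ ∈ F ∩ {s : ℂ | s.im < -vi γ} := ⟨h1, hD⟩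
  have eΛ : ∀ s ∈ F ∩ {s : ℂ | s.im < -vi γ}, Λ (s, γ) = L (s, γ) := fun s hs =>
    hS.eq (s, γ) (hF1 s hs.1) hs.2
  have eZ : ∀ s ∈ F ∩ {s : ℂ | s.im < -vi γ}, lb (Zf (s, γ), γ) = L (s, γ) ∧
      alZ k Ys (Zf (s, γ), γ) = γ * Pool.Agent.MP_ae5b4e_an_WD.dt L (s, γ) := fun s hs =>
    hZ.st (s, γ) (hF2 s hs.1) ⟨hγ0, hs.2⟩
  have a1 : AnalyticOnNhd ℂ (fun s => Λ (s, γ)) F := fun s hs =>
    AnalyticAt.fun_comp (g := Λ) (f := fun s : ℂ => (s, γ)) (hS.an _ (hF1 s hs)) (hline s)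
  have a2 : AnalyticOnNhd ℂ (fun s => lb (Zf (s, γ), γ)) F := fun s hs =>
    AnalyticAt.fun_comp (g := fun p : ℂ × ℂ => lb (Zf p, p.2)) (f := fun s : ℂ => (s, γ))
      (hZ.sln.an _ (hF2 s hs)) (hline s)
  have a3 : AnalyticOnNhd ℂ (fun s => γ * deriv (fun s => Λ (s, γ)) s) F := fun s hs =>
    analyticAt_const.mul (a1 s hs).deriv
  have a4 : AnalyticOnNhd ℂ (fun s => alZ k Ys (Zf (s, γ), γ)) F := fun s hs => by
    have e1 : AnalyticAt ℂ (fun s => (Zf (s, γ), γ)) s :=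
      (AnalyticAt.fun_comp (g := Zf) (f := fun s : ℂ => (s, γ)) (hZ.Z_an _ (hF2 s hs))
        (hline s)).prod analyticAt_const
    exact AnalyticAt.fun_comp (g := alZ k Ys) (f := fun s => (Zf (s, γ), γ))
      (hZ.mod.aan _ ⟨(hZ.Z_eq _ (hF2 s hs)).1, ball_subset_ball hZ.ρ_le hγ⟩) e1
  have n1 : (fun s => Λ (s, γ)) =ᶠ[𝓝 τ₁] fun s => lb (Zf (s, γ), γ) := by
    filter_upwards [hO.mem_nhds h1O] with s hs
    rw [eΛ s hs, (eZ s hs).1]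
  have n2 : (fun s => γ * deriv (fun s => Λ (s, γ)) s) =ᶠ[𝓝 τ₁]
      fun s => alZ k Ys (Zf (s, γ), γ) := by
    filter_upwards [hO.mem_nhds h1O] with s hs
    have e1 : (fun s => Λ (s, γ)) =ᶠ[𝓝 s] fun s => L (s, γ) := by
      filter_upwards [hO.mem_nhds hs] with s' hs'
      exact eΛ s' hs'
    rw [(eZ s hs).2, e1.deriv_eq]
    rfl
  have r1 := a1.eqOn_of_preconnected_of_eventuallyEq a2 hFc h1 n1 hτ
  have r2 := a3.eqOn_of_preconnected_of_eventuallyEq a4 hFc h1 n2 hτ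
  dsimp only at r1 r2
  unfold zf
  dsimp only
  rw [div_mul_cancel₀ τ hγ0, r1, r2]

private theorem K18d_convex {s t : Set ℝ} (hs : Convex ℝ s) (ht : Convex ℝ t) :
    Convex ℝ (s ×ℂ t) := by
  intro x hx y hy a b ha hb hab
  constructor
  · have h1 := hs hx.1 hy.1 ha hb hab
    have h2 : (a • x + b • y).re = a • x.re + b • y.re := by
      simp
    change (a • x + b • y).re ∈ s
    rw [h2]
    exact h1
  · have h1 := ht hx.2 hy.2 ha hb hab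
    have h2 : (a • x + b • y).im = a • x.im + b • y.im := by
      simp
    change (a • x + b • y).im ∈ t
    rw [h2]
    exact h1

/-- A SQUARE MINUS CLOSED VERTICAL HALF LINES going up is connected (`T` = the set of the end points, all of
imaginary part `> Im ζ - a / 2`). Proof. `C := {|Re (τ - ζ)| < a, |Im (τ - ζ)| < a, Im τ < Im ζ - a / 2}` is convex, and
contained in the set. `isPreconnected_of_forall` with base point `ζ - i 3 a / 4`: for `τ` in the set the vertical segment `S`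
from `τ` down to `c = Re τ + i (Im ζ - 3 a / 4)` (if `Im τ` is lower, `τ ∈ C`) is in the set (same real part, smaller
imaginary part), `C ∪ S` is preconnected (`IsPreconnected.union`, common point `c`). -/
theorem slit_conn {ζ : ℂ} {a : ℝ} (ha : 0 < a) {T : Set ℂ} (hT : ∀ t ∈ T, ζ.im - a / 2 < t.im) :
    IsPreconnected {τ : ℂ | |τ.re - ζ.re| < a ∧ |τ.im - ζ.im| < a ∧
      ∀ t ∈ T, ¬(τ.re = t.re ∧ t.im ≤ τ.im)} := by
  have hC : Convex ℝ (Ioo (ζ.re - a) (ζ.re + a) ×ℂ Ioo (ζ.im - a) (ζ.im - a / 2)) :=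
    K18d_convex (convex_Ioo _ _) (convex_Ioo _ _)
  have hCs : Ioo (ζ.re - a) (ζ.re + a) ×ℂ Ioo (ζ.im - a) (ζ.im - a / 2) ⊆
      {τ : ℂ | |τ.re - ζ.re| < a ∧ |τ.im - ζ.im| < a ∧
        ∀ t ∈ T, ¬(τ.re = t.re ∧ t.im ≤ τ.im)} := by
    rintro p ⟨hp1, hp2⟩
    have hp1' : p.re ∈ Ioo (ζ.re - a) (ζ.re + a) := hp1
    have hp2' : p.im ∈ Ioo (ζ.im - a) (ζ.im - a / 2) := hp2
    refine ⟨abs_lt.2 ⟨by linarith [hp1'.1], by linarith [hp1'.2]⟩,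
      abs_lt.2 ⟨by linarith [hp2'.1], by linarith [hp2'.2]⟩, fun t ht h => ?_⟩
    have h1 := hT t ht
    linarith [h.2, hp2'.2]
  have hb : (⟨ζ.re, ζ.im - 3 * a / 4⟩ : ℂ) ∈
      Ioo (ζ.re - a) (ζ.re + a) ×ℂ Ioo (ζ.im - a) (ζ.im - a / 2) :=
    ⟨⟨by dsimp only; linarith, by dsimp only; linarith⟩,
      ⟨by dsimp only; linarith, by dsimp only; linarith⟩⟩
  refine isPreconnected_of_forall (⟨ζ.re, ζ.im - 3 * a / 4⟩ : ℂ) fun τ hτ => ?_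
  obtain ⟨h1, h2, h3⟩ := hτ
  rw [abs_lt] at h1 h2
  rcases lt_or_ge τ.im (ζ.im - a / 2) with h4 | h4
  · exact ⟨_, hCs, hb, ⟨⟨by linarith [h1.1], by linarith [h1.2]⟩, ⟨by linarith [h2.1], h4⟩⟩,
      hC.isPreconnected⟩
  · have hS : Convex ℝ (({τ.re} : Set ℝ) ×ℂ Icc (ζ.im - 3 * a / 4) τ.im) :=
      K18d_convex (convex_singleton _) (convex_Icc _ _)
    refine ⟨Ioo (ζ.re - a) (ζ.re + a) ×ℂ Ioo (ζ.im - a) (ζ.im - a / 2) ∪
      ({τ.re} : Set ℝ) ×ℂ Icc (ζ.im - 3 * a / 4) τ.im, union_subset hCs ?_, Or.inl hb,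
      Or.inr ⟨rfl, ⟨by linarith, le_rfl⟩⟩,
      IsPreconnected.union (⟨τ.re, ζ.im - 3 * a / 4⟩ : ℂ) ?_ ?_ hC.isPreconnected
        hS.isPreconnected⟩
    · rintro p ⟨hp1, hp2⟩
      have hp1' : p.re = τ.re := hp1
      have hp2' : p.im ∈ Icc (ζ.im - 3 * a / 4) τ.im := hp2
      refine ⟨?_, abs_lt.2 ⟨by linarith [hp2'.1], by linarith [hp2'.2]⟩, fun t ht h => ?_⟩
      · rw [hp1']
        exact abs_lt.2 h1
      · exact h3 t ht ⟨hp1' ▸ h.1, h.2.trans hp2'.2⟩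
    · exact ⟨⟨by dsimp only; linarith [h1.1], by dsimp only; linarith [h1.2]⟩,
        ⟨by dsimp only; linarith, by dsimp only; linarith⟩⟩
    · exact ⟨rfl, ⟨le_rfl, by dsimp only; linarith⟩⟩

end Pool.Agent.MP_ae5b4e_an_AZ
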