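import Pool.Agent.Lib.MP_ae5b4e_an_AZ.K18a
import Pool.Agent.Lib.MP_ae5b4e_an_AZ.K18d

/-!
# POR (iii), (Z'): the branch point function at a point `Z_k` is unique
-/

noncomputable section

namespace Pool.Agent.MP_ae5b4e_an_AZ

open Complex Set Filter Topology Metric
open Pool.Agent.MP_ae5b4e_an_A1
open Pool.Agent.MP_ae5b4e_an_T

/-- THE BRANCH POINT FUNCTION IS UNIQUE: `Tb' ` from the data of the point `Z_k`, `Tb (i + 1)` from the slit box.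

Proof. `ζ := Tb (i+1) g₀ = Tb' g₀` (`hZ.sln.T0`), `H := Tb (i+1) - Tb'` is analytic at `g₀`, `H g₀ = 0`. Suppose not `∀ᶠ`; then
`H ≠ 0` on a punctured ball about `g₀` (`AnalyticAt.eventually_eq_zero_or_eventually_ne_zero`). `R₁` from `slb_sub`,
`a := min R₁ Rz / 2`; `ρ'` so small that for `γ ∈ ball g₀ ρ'`: `ρ' ≤ ρ, R₁`, both `‖Tb (i+1) γ - ζ‖, ‖Tb' γ - ζ‖ < a / 8`,
`vi γ < v₀ + a / 4` (`husc`, `hv`), `H γ ≠ 0` for `γ ≠ g₀`.
CLAIM: for these `γ ≠ g₀`: `Re (H γ) = 0`. Otherwise put `t := Tb' γ`: `t` is not on the closed half line above `Tb (i+1) γ` (the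
real parts differ), so `(t, γ) ∈ SB` (`slb_sub`) and `Λ (., γ)` is analytic at `t`. `F` := square of half side `a` about
`ζ` minus the half lines above `Tb (i+1) γ` and above `t` (`slit_conn`, `T = {Tb (i+1) γ, t}`): open, preconnected, contains
`ζ - i a / 2`, which is below `- vi γ` (`Im ζ = - v₀`: `hSd.Tb_im`). `fib_id`: for `τ ∈ F`: `γ deriv (fun s => Λ (s, γ)) τ = alZ k Ys (Zf (τ, γ), γ)`.
The points `τ_s := t - i s`, `s → 0+`, are in `F` for small `s` (`Re τ_s = Re t ≠ Re Tb (i+1) γ`, `Im τ_s < Im t`).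
`Tm (1 + 2/μ) K (Zf (τ_s, γ), γ) = - i s → 0`, and `‖Tm β K (z, γ)‖ ≥ (99/100) ‖k0‖ exp (β Re z) / β` (`Mdl.near`: `T4Slit`, `T4Prim` have
the estimate `‖Tm - k0 e^(βz) / β‖ ≤ ..`), so `Re Zf (τ_s, γ) → - ∞`. Then `‖alZ k Ys (z, γ)‖ = ‖γ‖ ‖Ys z‖ exp (- Re z) → ∞`
(`Y_lim`: `‖Ys z‖ → k π > 0`, `k ≥ 1`), but the left side is continuous at `s = 0`, a contradiction.
END: `Re H = 0` on `ball g₀ ρ'` (also at `g₀`), so `H` is constant there (`AnalyticOnNhd.is_constant_or_isOpen` on the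
connected ball: the image of the ball is contained in `{Re = 0}`, not open), `H = H g₀ = 0`: a contradiction. -/
theorem tb_unique {q : ℂ → ℂ} {vi Vm : ℂ → ℝ} {L Λ : ℂ × ℂ → ℂ} {g₀ r₀ x₁ x₂ v₀ b : ℝ} {P : ℕ}
    {Tb : ℕ → ℂ → ℂ} {X : ℕ → ℝ} (hSd : Sd vi Vm g₀ r₀ x₁ x₂ v₀ b P Tb X)
    (husc : UpperSemicontinuous vi) (hv : vi g₀ ≤ v₀)
    (hS : Slt {p | p.1.im < -vi p.2} L Λ (SB g₀ r₀ x₁ x₂ v₀ b P Tb)) {i : ℕ} (hi : i < P)
    (han : AnalyticAt ℂ (Tb (i + 1)) g₀) {Tb' : ℂ → ℂ} {l : ℂ} {k : ℕ} {Rz ρ : ℝ} {μ : ℕ}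
    {lam : ℂ → ℂ} {rz M ρ0 : ℝ} {Ys : ℂ → ℂ} {c1 k0 : ℂ} {K lb Zf : ℂ × ℂ → ℂ}
    (hZ : ZC q vi L g₀ (Tb (i + 1) g₀) Tb' l k Rz ρ μ lam rz M ρ0 Ys c1 k0 K lb Zf) :
    ∀ᶠ γ in 𝓝 (g₀ : ℂ), Tb (i + 1) γ = Tb' γ := by
  obtain ⟨R₁, hR₁, hslb⟩ := slb_sub hSd hi
  obtain ⟨ζ, hζ⟩ : ∃ ζ : ℂ, ζ = Tb (i + 1) g₀ := ⟨_, rfl⟩
  rw [← hζ] at hZ
  have hRz : 0 < Rz := hZ.sln.pos.trans_le hZ.sln.le
  obtain ⟨a, ha⟩ : ∃ a : ℝ, a = min R₁ Rz / 2 := ⟨_, rfl⟩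
  have ha0 : 0 < a := by rw [ha]; positivity
  have haR : 2 * a ≤ R₁ := by
    have := min_le_left R₁ Rz
    linarith
  have haz : 2 * a ≤ Rz := by
    have := min_le_right R₁ Rz
    linarith
  have hζim : ζ.im = -v₀ := by rw [hζ]; exact hSd.Tb_im i hi
  have hρ : 0 < ρ := hZ.sln.pos
  have hTan' : AnalyticAt ℂ Tb' g₀ := hZ.sln.Tan g₀ (mem_ball_self hρ)
  have hT0 : Tb' g₀ = ζ := hZ.sln.T0
  -- the claim
  have claim : ∀ᶠ γ in 𝓝 (g₀ : ℂ), (Tb (i + 1) γ - Tb' γ).re = 0 := by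
    have e1 : ∀ᶠ γ in 𝓝 (g₀ : ℂ), γ ∈ ball (g₀ : ℂ) ρ := ball_mem_nhds _ hρ
    have e2 : ∀ᶠ γ in 𝓝 (g₀ : ℂ), γ ∈ ball (g₀ : ℂ) R₁ := ball_mem_nhds _ hR₁
    have e3 : ∀ᶠ γ in 𝓝 (g₀ : ℂ), Tb (i + 1) γ ∈ ball ζ (a / 8) := by
      refine han.continuousAt.eventually_mem ?_
      rw [← hζ]
      exact ball_mem_nhds _ (by positivity)
    have e4 : ∀ᶠ γ in 𝓝 (g₀ : ℂ), Tb' γ ∈ ball ζ (a / 8) := by
      refine hTan'.continuousAt.eventually_mem ?_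
      rw [hT0]
      exact ball_mem_nhds _ (by positivity)
    have e5 : ∀ᶠ γ in 𝓝 (g₀ : ℂ), vi γ < v₀ + a / 4 :=
      husc g₀ (v₀ + a / 4) (by linarith)
    filter_upwards [e1, e2, e3, e4, e5] with γ f1 f2 f3 f4 f5
    by_contra hre
    obtain ⟨t₁, ht₁⟩ : ∃ t₁ : ℂ, t₁ = Tb (i + 1) γ := ⟨_, rfl⟩
    obtain ⟨t, ht⟩ : ∃ t : ℂ, t = Tb' γ := ⟨_, rfl⟩
    rw [← ht₁] at hre f3
    rw [← ht] at hre f4
    rw [mem_ball, dist_eq_norm] at f3 f4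
    have hne : t.re ≠ t₁.re := by
      intro h0
      rw [sub_re, h0, sub_self] at hre
      exact hre rfl
    have g1 := abs_le.1 (abs_re_le_norm (t₁ - ζ))
    have g2 := abs_le.1 (abs_im_le_norm (t₁ - ζ))
    have g3 := abs_le.1 (abs_re_le_norm (t - ζ))
    have g4 := abs_le.1 (abs_im_le_norm (t - ζ))
    rw [sub_re] at g1 g3
    rw [sub_im] at g2 g4
    -- a point which is near `ζ`
    have hnr : ∀ τ : ℂ, |τ.re - ζ.re| < a → |τ.im - ζ.im| < a → ‖τ - ζ‖ < 2 * a := by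
      intro τ h1 h2
      refine (norm_le_abs_re_add_abs_im _).trans_lt ?_
      rw [sub_re, sub_im]
      linarith
    have hSB : ∀ τ : ℂ, ‖τ - ζ‖ < 2 * a → ¬(τ.re = t₁.re ∧ t₁.im ≤ τ.im) →
        (τ, γ) ∈ SB g₀ r₀ x₁ x₂ v₀ b P Tb := by
      intro τ h1 h2
      refine hslb R₁ le_rfl R₁ le_rfl ⟨⟨?_, f2⟩, ?_⟩
      · rw [← hζ]
        show τ ∈ ball ζ R₁
        rw [mem_ball, dist_eq_norm]
        linarith
      · show ¬(τ.re = (Tb (i + 1) γ).re ∧ (Tb (i + 1) γ).im ≤ τ.im)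
        rw [← ht₁]
        exact h2
    have hSz : ∀ τ : ℂ, ‖τ - ζ‖ < 2 * a → ¬(τ.re = t.re ∧ t.im ≤ τ.im) →
        (τ, γ) ∈ Slb Tb' ζ g₀ Rz ρ := by
      intro τ h1 h2
      refine ⟨⟨?_, f1⟩, ?_⟩
      · show τ ∈ ball ζ Rz
        rw [mem_ball, dist_eq_norm]
        linarith
      · show ¬(τ.re = (Tb' γ).re ∧ (Tb' γ).im ≤ τ.im)
        rw [← ht]
        exact h2
    obtain ⟨F, hF⟩ : ∃ F : Set ℂ, F = {τ : ℂ | |τ.re - ζ.re| < a ∧ |τ.im - ζ.im| < a ∧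
      ∀ t' ∈ ({t₁, t} : Set ℂ), ¬(τ.re = t'.re ∧ t'.im ≤ τ.im)} := ⟨_, rfl⟩
    have hFm : ∀ τ, τ ∈ F ↔ |τ.re - ζ.re| < a ∧ |τ.im - ζ.im| < a ∧
        ¬(τ.re = t₁.re ∧ t₁.im ≤ τ.im) ∧ ¬(τ.re = t.re ∧ t.im ≤ τ.im) := by
      intro τ
      rw [hF]
      constructor
      · rintro ⟨q1, q2, q3⟩
        exact ⟨q1, q2, q3 t₁ (Or.inl rfl), q3 t (Or.inr rfl)⟩
      · rintro ⟨q1, q2, q3, q4⟩
        refine ⟨q1, q2, ?_⟩
        rintro t' (rfl | rfl)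
        · exact q3
        · exact q4
    have hFc : IsPreconnected F := by
      rw [hF]
      refine slit_conn ha0 ?_
      rintro t' (rfl | rfl)
      · linarith
      · linarith
    have hhl : ∀ t' : ℂ, IsOpen {τ : ℂ | ¬(τ.re = t'.re ∧ t'.im ≤ τ.im)} := by
      intro t'
      have h1 : IsClosed ({τ : ℂ | τ.re = t'.re} ∩ {τ : ℂ | t'.im ≤ τ.im}) :=
        (isClosed_eq continuous_re continuous_const).inter
          (isClosed_le continuous_const continuous_im)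
      exact h1.isOpen_compl
    have hFo : IsOpen F := by
      have h1 : F = (({τ : ℂ | |τ.re - ζ.re| < a} ∩ {τ : ℂ | |τ.im - ζ.im| < a}) ∩
          {τ : ℂ | ¬(τ.re = t₁.re ∧ t₁.im ≤ τ.im)}) ∩ {τ : ℂ | ¬(τ.re = t.re ∧ t.im ≤ τ.im)} := by
        ext τ
        rw [hFm]
        constructor
        · rintro ⟨q1, q2, q3, q4⟩
          exact ⟨⟨⟨q1, q2⟩, q3⟩, q4⟩
        · rintro ⟨⟨⟨q1, q2⟩, q3⟩, q4⟩
          exact ⟨q1, q2, q3, q4⟩
      rw [h1]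
      exact (((isOpen_lt (continuous_re.sub continuous_const).abs continuous_const).inter
        (isOpen_lt (continuous_im.sub continuous_const).abs continuous_const)).inter
        (hhl t₁)).inter (hhl t)
    have hF1 : ∀ τ ∈ F, (τ, γ) ∈ SB g₀ r₀ x₁ x₂ v₀ b P Tb := by
      intro τ hτ
      obtain ⟨q1, q2, q3, q4⟩ := (hFm τ).1 hτ
      exact hSB τ (hnr τ q1 q2) q3
    have hF2 : ∀ τ ∈ F, (τ, γ) ∈ Slb Tb' ζ g₀ Rz ρ := by
      intro τ hτ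
      obtain ⟨q1, q2, q3, q4⟩ := (hFm τ).1 hτ
      exact hSz τ (hnr τ q1 q2) q4
    obtain ⟨τ₁, hτ₁⟩ : ∃ τ₁ : ℂ, τ₁ = ⟨ζ.re, ζ.im - a / 2⟩ := ⟨_, rfl⟩
    have hτ₁r : τ₁.re = ζ.re := by rw [hτ₁]
    have hτ₁i : τ₁.im = ζ.im - a / 2 := by rw [hτ₁]
    have hτ₁F : τ₁ ∈ F := by
      rw [hFm]
      refine ⟨?_, ?_, ?_, ?_⟩
      · rw [hτ₁r, sub_self, abs_zero]
        exact ha0
      · rw [hτ₁i, show ζ.im - a / 2 - ζ.im = -(a / 2) by ring, abs_neg, abs_of_pos (by positivity)]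
        linarith
      · rintro ⟨-, q⟩
        rw [hτ₁i] at q
        linarith
      · rintro ⟨-, q⟩
        rw [hτ₁i] at q
        linarith
    have hD₁ : τ₁.im < -vi γ := by
      rw [hτ₁i, hζim]
      linarith
    have hfib := fun τ (hτ : τ ∈ F) => fib_id hS hZ f1 hFo hFc hF1 hF2 hτ₁F hD₁ hτ
    -- the derivative of the label is continuous at `t`
    have htSB : (t, γ) ∈ SB g₀ r₀ x₁ x₂ v₀ b P Tb :=
      hSB t (by linarith) fun q => hne q.1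
    have hγ : γ ≠ 0 := hS.ne _ htSB
    have hlan : AnalyticAt ℂ (fun s => Λ (s, γ)) t :=
      AnalyticAt.fun_comp (g := Λ) (f := fun s : ℂ => (s, γ)) (hS.an (t, γ) htSB)
        (analyticAt_id.prod analyticAt_const)
    -- the path
    obtain ⟨w, hw⟩ : ∃ w : ℝ → ℂ, w = fun s : ℝ => t - I * (s : ℂ) := ⟨_, rfl⟩
    have hwr : ∀ s, (w s).re = t.re := fun s => by rw [hw]; simp
    have hwi : ∀ s, (w s).im = t.im - s := fun s => by rw [hw]; simp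
    have hwc : Tendsto w (𝓝[>] 0) (𝓝 t) := by
      have h1 : Continuous w := by rw [hw]; fun_prop
      have h2 := h1.tendsto 0
      have h3 : w 0 = t := by rw [hw]; simp
      rw [h3] at h2
      exact h2.mono_left nhdsWithin_le_nhds
    have hwF : ∀ᶠ s in 𝓝[>] (0 : ℝ), w s ∈ F := by
      have h1 : ∀ᶠ s in 𝓝[>] (0 : ℝ), s < a / 2 :=
        mem_nhdsWithin_of_mem_nhds (Iio_mem_nhds (by positivity))
      filter_upwards [h1, self_mem_nhdsWithin] with s h1 h2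
      have h2' : 0 < s := h2
      rw [hFm, hwr, hwi]
      refine ⟨abs_lt.2 ⟨by linarith, by linarith⟩, abs_lt.2 ⟨by linarith, by linarith⟩,
        fun q => hne q.1, fun q => ?_⟩
      linarith [q.2]
    obtain ⟨Z, hZd⟩ : ∃ Z : ℝ → ℂ, Z = fun s => Zf (w s, γ) := ⟨_, rfl⟩
    have hZs : ∀ s, Z s = Zf (w s, γ) := fun s => by rw [hZd]
    obtain ⟨β, hβd⟩ : ∃ β : ℝ, β = 1 + 2 / μ := ⟨_, rfl⟩
    have hmdl := hZ.mod.mdl
    have hZe := hZ.Z_eq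
    rw [← hβd] at hmdl hZe
    have hβ : 0 < β := hmdl.β_pos
    have hk0 : (k0 : ℂ) / β ≠ 0 := div_ne_zero hmdl.k0_ne (by exact_mod_cast hβ.ne')
    have hk0' : 0 < ‖(k0 : ℂ) / β‖ := norm_pos_iff.2 hk0
    have hre1 : ∀ᶠ s in 𝓝[>] (0 : ℝ), Real.exp (β * (Z s).re) ≤ 2 / ‖(k0 : ℂ) / β‖ * s := by
      filter_upwards [hwF, self_mem_nhdsWithin] with s h1 h2
      have h2' : 0 < s := h2
      obtain ⟨h3, h4⟩ := hZe _ (hF2 _ h1)
      have h5 := (hmdl.prim.2 (Zf (w s, γ), γ) ⟨h3, ball_subset_ball hZ.ρ_le f1⟩).2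
      dsimp only at h4 h5
      rw [h4, ← hZs, ← ht] at h5
      have h6 : w s - t = -(I * s) := by rw [hw]; ring
      rw [h6] at h5
      have h7 : ‖exp (β * Z s) * (k0 / β)‖ = Real.exp (β * (Z s).re) * ‖(k0 : ℂ) / β‖ := by
        rw [norm_mul, norm_exp]
        congr 2
        simp
      have h8 : ‖-(I * (s : ℂ))‖ = s := by
        rw [norm_neg, norm_mul, norm_I, one_mul, Complex.norm_real, Real.norm_of_nonneg h2'.le]
      have h9 := norm_sub_norm_le (exp (β * Z s) * (k0 / β)) (-(I * (s : ℂ)))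
      rw [norm_sub_rev, h8] at h9
      rw [h7] at h9 h5
      rw [div_mul_eq_mul_div, le_div_iff₀ hk0']
      linarith
    have hre0 : Tendsto (fun s => Real.exp (β * (Z s).re)) (𝓝[>] (0 : ℝ)) (𝓝 0) := by
      have h1 : Tendsto (fun s : ℝ => 2 / ‖(k0 : ℂ) / β‖ * s) (𝓝[>] (0 : ℝ)) (𝓝 0) := by
        have h2 : Continuous fun s : ℝ => 2 / ‖(k0 : ℂ) / β‖ * s := by fun_prop
        have h3 := h2.tendsto 0
        rw [mul_zero] at h3
        exact h3.mono_left nhdsWithin_le_nhds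
      exact squeeze_zero' (Eventually.of_forall fun s => (Real.exp_pos _).le) hre1 h1
    have hre2 : Tendsto (fun s => β * (Z s).re) (𝓝[>] (0 : ℝ)) atBot :=
      Real.tendsto_exp_comp_nhds_zero.1 hre0
    have hre3 : Tendsto (fun s => (Z s).re) (𝓝[>] (0 : ℝ)) atBot :=
      (Filter.tendsto_const_mul_atBot_of_pos hβ).1 hre2
    have hY : Tendsto (fun s => Ys (Z s)) (𝓝[>] (0 : ℝ)) (𝓝 (k * Real.pi)) :=
      hZ.Y_lim.comp (tendsto_comap_iff.2 hre3)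
    have hexp : Tendsto (fun s => Real.exp (-(Z s).re)) (𝓝[>] (0 : ℝ)) atTop :=
      Real.tendsto_exp_atTop.comp (tendsto_neg_atBot_atTop.comp hre3)
    have hkp : 0 < ‖γ‖ * ‖(k * Real.pi : ℂ)‖ := by
      have h1 : (k : ℂ) ≠ 0 := by
        have := hZ.k_pos
        exact_mod_cast (by omega : k ≠ 0)
      have h2 : (Real.pi : ℂ) ≠ 0 := by exact_mod_cast Real.pi_ne_zero
      exact mul_pos (norm_pos_iff.2 hγ) (norm_pos_iff.2 (mul_ne_zero h1 h2))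
    have hbig : Tendsto (fun s => ‖alZ k Ys (Z s, γ)‖) (𝓝[>] (0 : ℝ)) atTop := by
      have h1 := Tendsto.pos_mul_atTop hkp (tendsto_const_nhds.mul hY.norm) hexp
      refine h1.congr fun s => ?_
      unfold alZ
      rw [norm_mul, norm_mul, norm_mul, norm_pow, norm_neg, norm_one, one_pow, one_mul, norm_exp,
        neg_re]
    have hfin : Tendsto (fun s => ‖alZ k Ys (Z s, γ)‖) (𝓝[>] (0 : ℝ))
        (𝓝 ‖γ * deriv (fun s => Λ (s, γ)) t‖) := by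
      have h1 : ContinuousAt (fun τ : ℂ => ‖γ * deriv (fun s => Λ (s, γ)) τ‖) t :=
        (continuousAt_const.mul hlan.deriv.continuousAt).norm
      refine (h1.tendsto.comp hwc).congr' ?_
      filter_upwards [hwF] with s h2
      have h3 := congrArg Prod.snd (hfib _ h2)
      unfold zf at h3
      dsimp only at h3
      rw [div_mul_cancel₀ _ hγ] at h3
      show ‖γ * deriv (fun s => Λ (s, γ)) (w s)‖ = _
      rw [h3, ← hZs]
    exact not_tendsto_nhds_of_tendsto_atTop hbig _ hfin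
  -- the end
  have hH : AnalyticAt ℂ (fun γ => Tb (i + 1) γ - Tb' γ) g₀ := han.sub hTan'
  rcases hH.eventually_constant_or_nhds_le_map_nhds with h1 | h1
  · filter_upwards [h1] with γ h2
    have h3 : Tb (i + 1) (g₀ : ℂ) - Tb' g₀ = 0 := by rw [hT0, hζ, sub_self]
    rw [h3] at h2
    exact sub_eq_zero.1 h2
  · exfalso
    have h2 : {z : ℂ | z.re = 0} ∈ map (fun γ => Tb (i + 1) γ - Tb' γ) (𝓝 (g₀ : ℂ)) := claim
    have h3 := h1 h2
    have h4 : Tb (i + 1) (g₀ : ℂ) - Tb' g₀ = 0 := by rw [hT0, hζ, sub_self]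
    rw [h4] at h3
    obtain ⟨e, he, he'⟩ := Metric.mem_nhds_iff.1 h3
    have h5 : ((e / 2 : ℝ) : ℂ) ∈ ball (0 : ℂ) e := by
      rw [mem_ball_zero_iff, Complex.norm_real, Real.norm_of_nonneg (by positivity)]
      linarith
    have h6 := he' h5
    have h7 : ((e / 2 : ℝ) : ℂ).re = 0 := h6
    rw [ofReal_re] at h7
    linarith

end Pool.Agent.MP_ae5b4e_an_AZ
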