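import Pool.Agent.Lib.MP_ae5b4e_an_AZ.KDefs

/-!
# POR, (Z'): exact families over arbitrary sets of parameters
-/

noncomputable section

namespace Pool.Agent.MP_ae5b4e_an_AZ

open Complex Set Filter Topology Metric
open Pool.Agent.MP_ae5b4e_an_A1
open Pool.Agent.MP_ae5b4e_an_BX (Rec)
open Pool.Agent.MP_ae5b4e_an_A3 (rs md Dfc osc_le Per_osc Per_zero)
open Pool.Agent.MP_ae5b4e_an_A4 (am Per SN)
open Pool.Agent.MP_ae5b4e_an_MERO (fo St fo_indep norm_fo_le hasSum_fo)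

/-- EXACT FAMILIES over boxes of a height which depends only on the compact set of states, over ANY
open set of parameters.

Proof. As `A1.exists_ex` (A1/Box.lean), from `BX.exists_box` with `M' := thickening ρ' K`
(`cthickening ρ' K ⊆ M`, compact, `ρ' > 0`) in the place of `M`: `b₀`, `ρ`. For `j` let `η_j, ε_j` be given
by the box lemma for `δ = 1 / (j + 1)`; `P j n Z := Exa (gn n) (ε n) (Rec a₁ a₂ b₁ b₂) D Z ∧
∀ p ∈ Rec .. ×ˢ D, ‖Z p - z p‖ ≤ 1 / (j + 1)` is antitone in `j` and for almost all `n` there is a `Z`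
(`VF.gn_an`, `VF.conv` on the compact `cthickening ρ' K`); `slow` (`ev_ge`). -/
theorem exists_exD {U : Ultrafilter ℕ} {ε : ℕ → ℝ} {M : Set (ℂ × ℂ)} {g : ℂ × ℂ → ℂ × ℂ}
    {gn : ℕ → ℂ × ℂ → ℂ × ℂ} (hV : VF U ε M g gn) {K : Set (ℂ × ℂ)}
    (hK : IsCompact K) (hKM : K ⊆ M) :
    ∃ b₀ : ℝ, 0 < b₀ ∧ ∀ a₁ a₂ b₁ b₂ τ : ℝ, a₁ < a₂ → b₁ < b₂ → b₂ - b₁ ≤ b₀ → 0 < τ →
      ∀ D : Set ℂ, IsOpen D → ∀ z : ℂ × ℂ → ℂ × ℂ,
        AnalyticOnNhd ℂ z (Rec (a₁ - τ) (a₂ + τ) (b₁ - τ) (b₂ + τ) ×ˢ D) →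
        (∀ p ∈ Rec (a₁ - τ) (a₂ + τ) (b₁ - τ) (b₂ + τ) ×ˢ D, z p ∈ K) →
        (∀ p ∈ Rec (a₁ - τ) (a₂ + τ) (b₁ - τ) (b₂ + τ) ×ˢ D,
          HasDerivAt (fun θ => z (θ, p.2)) (g (z p)) p.1) →
        ∃ Z : ℕ → ℂ × ℂ → ℂ × ℂ, Ex U ε gn (Rec a₁ a₂ b₁ b₂ ×ˢ D) z Z := by
  obtain ⟨ρ', hρ', hρM⟩ := hK.exists_cthickening_subset_open hV.M_open hKM
  obtain ⟨b₀, ρ, hb₀, hρ, hρK, hbox⟩ := Pool.Agent.MP_ae5b4e_an_BX.exists_box
    isOpen_thickening hK (self_subset_thickening hρ' _)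
    (hV.g_an.mono ((thickening_subset_cthickening _ _).trans hρM))
  refine ⟨b₀, hb₀, ?_⟩
  intro a₁ a₂ b₁ b₂ τ ha hb hbb hτ D hD z hz hzK hode
  have hO : IsOpen (Rec a₁ a₂ b₁ b₂ ×ˢ D) :=
    (Pool.Agent.MP_ae5b4e_an_BX.isOpen_Rec _ _ _ _).prod hD
  have key := hbox a₁ a₂ b₁ b₂ τ ha hb hbb hτ D hD z hz hzK hode
  have hKc : IsCompact (cthickening ρ' K) := hK.cthickening
  obtain ⟨Z, hZ⟩ := slow (X := ℂ × ℂ → ℂ × ℂ) (ev_ge hV.ε_pos hV.ε_lim)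
    (P := fun j n Z => Pool.Agent.MP_ae5b4e_an_BX.Exa (gn n) (ε n) (Rec a₁ a₂ b₁ b₂) D Z ∧
      ∀ p ∈ Rec a₁ a₂ b₁ b₂ ×ˢ D, ‖Z p - z p‖ ≤ 1 / ((j : ℝ) + 1))
    (fun j n Z hP => ⟨hP.1, fun p hp => (hP.2 p hp).trans (by
      push_cast
      gcongr
      linarith)⟩)
    (fun j => by
      obtain ⟨η, ε₀, hη, hε₀, hkey⟩ := key (1 / ((j : ℝ) + 1)) (by positivity)
      filter_upwards [hV.ε_lim.eventually (gt_mem_nhds hε₀), hV.gn_an _ hρM hKc,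
        hV.conv _ hρM hKc η hη] with n h1 h2 h3
      exact hkey (ε n) (hV.ε_pos n) h1 (gn n) (h2.mono (thickening_subset_cthickening _ _))
        fun w hw => h3 w (thickening_subset_cthickening _ _ (hρK hw)))
  refine ⟨Z, ?_, ?_, ?_⟩
  · intro K' hK' _
    filter_upwards [hZ 0] with n hn
    exact hn.1.an.mono hK'
  · intro K' hK' hK'c
    obtain ⟨κ', hκ', hκO⟩ := hK'c.exists_cthickening_subset_open hO hK'
    filter_upwards [hZ 0, hV.ε_lim.eventually (gt_mem_nhds hκ')] with n hn h1 p hp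
    have h2 : tr (ε n) p ∈ Rec a₁ a₂ b₁ b₂ ×ˢ D := by
      apply hκO
      refine mem_cthickening_of_dist_le _ p κ' K' hp ?_
      rw [Prod.dist_eq, tr_fst, tr_snd, dist_self, max_eq_left dist_nonneg, dist_eq_norm,
        add_sub_cancel_left, Complex.norm_real, Real.norm_of_nonneg (hV.ε_pos n).le]
      exact h1.le
    exact hn.1.eq p (hK' hp) h2.1
  · intro K' hK' _ δ hδ
    obtain ⟨j, hj⟩ := exists_nat_one_div_lt hδ
    filter_upwards [hZ j] with n hn p hp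
    exact (hn.2 p (hK' hp)).trans hj.le

end Pool.Agent.MP_ae5b4e_an_AZ
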