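import Pool.Agent.Lib.MP_ae5b4e_an_AZ.K8

/-!
# POR, (Z'): existence of the kick, with the two-sided relation at the right box
-/

noncomputable section

namespace Pool.Agent.MP_ae5b4e_an_AZ

open Complex Set Filter Topology Metric
open Pool.Agent.MP_ae5b4e_an_A1
open Pool.Agent.MP_ae5b4e_an_BX (Rec)
open Pool.Agent.MP_ae5b4e_an_A3 (rs md Dfc osc_le Per_osc Per_zero)
open Pool.Agent.MP_ae5b4e_an_A4 (am Per SN)
open Pool.Agent.MP_ae5b4e_an_MERO (fo St fo_indep norm_fo_le hasSum_fo)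

/-- the points over `K` at the abscissa `a` -/
private def K8b_at (a : ℝ) (x : ℝ × ℂ) : ℂ × ℂ := ((⟨a, x.1⟩ : ℂ), x.2)

private theorem K8b_cpt (a : ℝ) {K : Set (ℝ × ℂ)} (hK : IsCompact K) :
    IsCompact (K8b_at a '' K) := by
  refine hK.image ?_
  have h : K8b_at a = fun x : ℝ × ℂ => ((a : ℂ) + (x.1 : ℂ) * I, x.2) := by
    funext x
    unfold K8b_at
    rw [Complex.mk_eq_add_mul_I]
  rw [h]
  fun_prop

private theorem K8b_dist (a : ℝ) (p : ℂ × ℂ) : dist p (K8b_at a (pc p)) = |p.1.re - a| := by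
  have e : p.1 - (⟨a, p.1.im⟩ : ℂ) = ((p.1.re - a : ℝ) : ℂ) := by
    apply Complex.ext
    · simp
    · simp
  change dist p ((⟨a, p.1.im⟩ : ℂ), p.2) = _
  rw [Prod.dist_eq, dist_self, max_eq_left dist_nonneg, dist_eq_norm, e, norm_real,
    Real.norm_eq_abs]

private theorem K8b_mem {a d : ℝ} {K : Set (ℝ × ℂ)} {p : ℂ × ℂ} (hp : pc p ∈ K)
    (h : |p.1.re - a| ≤ d) : p ∈ cthickening d (K8b_at a '' K) := by
  refine mem_cthickening_of_dist_le p _ d _ (mem_image_of_mem _ hp) ?_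
  rw [K8b_dist]
  exact h

/-- EXISTENCE OF THE KICK, WITH THE RELATION ON BOTH SIDES OF `ar`. The same construction as in
`exists_kick` (K8.lean; copy its proof, or reorganise it there): the function
`X n = pe (ε n) ar (F n p - p)` satisfies both clauses. -/
theorem exists_kick_two {U : Ultrafilter ℕ} {ε : ℕ → ℝ} {M Ω : Set (ℂ × ℂ)} {g : ℂ × ℂ → ℂ × ℂ}
    {gn : ℕ → ℂ × ℂ → ℂ × ℂ} {z : ℂ × ℂ → ℂ × ℂ} (hV : VF U ε M g gn) (hz : Fw M g Ω z)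
    {al ar w y₁ y₂ : ℝ} (ha : al < ar)
    (hw : 0 < w) {D : Set ℂ} (hD : IsOpen D) {Zl Zr : ℕ → ℂ × ℂ → ℂ × ℂ}
    (hl : Ex U ε gn (Rec (al - w) (al + w) y₁ y₂ ×ˢ D) z Zl)
    (hr : Ex U ε gn (Rec (ar - w) (ar + w) y₁ y₂ ×ˢ D) z Zr)
    (hlΩ : Rec (al - w) (al + w) y₁ y₂ ×ˢ D ⊆ Ω) (hrΩ : Rec (ar - w) (ar + w) y₁ y₂ ×ˢ D ⊆ Ω) :
    ∃ X, Kk U ε gn al ar ({x : ℝ × ℂ | y₁ < x.1 ∧ x.1 < y₂ ∧ x.2 ∈ D} ∩ Rp Ω al ar) Zl Zr X ∧
      ∀ K ⊆ {x : ℝ × ℂ | y₁ < x.1 ∧ x.1 < y₂ ∧ x.2 ∈ D} ∩ Rp Ω al ar, IsCompact K →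
        ∃ w' : ℝ, 0 < w' ∧ ∀ᶠ n in (U : Filter ℕ), ∀ p : ℂ × ℂ, pc p ∈ K → |p.1.re - ar| ≤ w' →
          Zr n (p + X n p) = push (ε n) (gn n) ⌊(ar - al) / ε n⌋₊ (Zl n) p := by
  have h0 := hV.ε_pos
  have h1 := hV.ε_lim
  have ht : 0 ≤ ar - al := by linarith
  have hRec : ∀ a b c d : ℝ, IsOpen (Rec a b c d) := by
    intro a b c d
    exact (isOpen_lt continuous_const Complex.continuous_re).inter
      ((isOpen_lt Complex.continuous_re continuous_const).inter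
        ((isOpen_lt continuous_const Complex.continuous_im).inter
          (isOpen_lt Complex.continuous_im continuous_const)))
  have hOl : IsOpen (Rec (al - w) (al + w) y₁ y₂ ×ˢ D) := (hRec _ _ _ _).prod hD
  have hOr : IsOpen (Rec (ar - w) (ar + w) y₁ y₂ ×ˢ D) := (hRec _ _ _ _).prod hD
  have hPO := isOpen_PO hz.Ω_open hOl (ar - al)
  obtain ⟨O, hOd⟩ : ∃ O : Set (ℂ × ℂ), O = (Rec (ar - w) (ar + w) y₁ y₂ ×ˢ D) ∩
    PO Ω (Rec (al - w) (al + w) y₁ y₂ ×ˢ D) (ar - al) := ⟨_, rfl⟩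
  have hO : IsOpen O := by
    rw [hOd]
    exact hOr.inter hPO
  have hO1 : O ⊆ Rec (ar - w) (ar + w) y₁ y₂ ×ˢ D := by
    rw [hOd]
    exact inter_subset_left
  have hO2 : O ⊆ PO Ω (Rec (al - w) (al + w) y₁ y₂ ×ˢ D) (ar - al) := by
    rw [hOd]
    exact inter_subset_right
  obtain ⟨F, hF, hFe⟩ := coord hV hz hO (hO1.trans hrΩ) (Ex.mono' hr hO1)
    (Ex.mono' (Ex.push hV hz hOl hl ht) hO2)
  have hR : ∀ x ∈ {x : ℝ × ℂ | y₁ < x.1 ∧ x.1 < y₂ ∧ x.2 ∈ D} ∩ Rp Ω al ar,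
      ((⟨ar, x.1⟩ : ℂ), x.2) ∈ O := by
    rintro x ⟨⟨hx1, hx2, hx3⟩, hx4⟩
    rw [hOd]
    refine ⟨⟨⟨?_, ?_, hx1, hx2⟩, hx3⟩, ⟨⟨?_, hx3⟩, ?_⟩⟩
    · change ar - w < ar
      linarith
    · change ar < ar + w
      linarith
    · refine ⟨?_, ?_, ?_, ?_⟩
      · change al - w < ((⟨ar, x.1⟩ : ℂ) + -((ar - al : ℝ) : ℂ)).re
        rw [Complex.add_re, Complex.neg_re, Complex.ofReal_re]
        change al - w < ar + -(ar - al)
        linarith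
      · change ((⟨ar, x.1⟩ : ℂ) + -((ar - al : ℝ) : ℂ)).re < al + w
        rw [Complex.add_re, Complex.neg_re, Complex.ofReal_re]
        change ar + -(ar - al) < al + w
        linarith
      · change y₁ < ((⟨ar, x.1⟩ : ℂ) + -((ar - al : ℝ) : ℂ)).im
        rw [Complex.add_im, Complex.neg_im, Complex.ofReal_im, neg_zero, add_zero]
        exact hx1
      · change ((⟨ar, x.1⟩ : ℂ) + -((ar - al : ℝ) : ℂ)).im < y₂
        rw [Complex.add_im, Complex.neg_im, Complex.ofReal_im, neg_zero, add_zero]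
        exact hx2
    · intro s hs
      have h2 := hx4 (ar - s) ⟨by linarith [hs.2], by linarith [hs.1]⟩
      have e : tr (-(s : ℂ)) ((⟨ar, x.1⟩ : ℂ), x.2) = ((⟨ar - s, x.1⟩ : ℂ), x.2) := by
        refine Prod.ext ?_ rfl
        change (⟨ar, x.1⟩ : ℂ) + -(s : ℂ) = ⟨ar - s, x.1⟩
        apply Complex.ext
        · rw [Complex.add_re, Complex.neg_re, Complex.ofReal_re]
          rfl
        · rw [Complex.add_im, Complex.neg_im, Complex.ofReal_im, neg_zero, add_zero]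
      rw [e]
      exact h2
  obtain ⟨hP, hPe⟩ := Cr_pd h0 h1 hO hF (a := ar)
    (R := {x : ℝ × ℂ | y₁ < x.1 ∧ x.1 < y₂ ∧ x.2 ∈ D} ∩ Rp Ω al ar) hR
  have hrel : ∀ K ⊆ {x : ℝ × ℂ | y₁ < x.1 ∧ x.1 < y₂ ∧ x.2 ∈ D} ∩ Rp Ω al ar, IsCompact K →
      ∃ w' : ℝ, 0 < w' ∧ ∀ᶠ n in (U : Filter ℕ), ∀ p : ℂ × ℂ, pc p ∈ K → |p.1.re - ar| ≤ w' →
        Zr n (p + pe (ε n) ar (fun p => F n p - p) p) =
          push (ε n) (gn n) ⌊(ar - al) / ε n⌋₊ (Zl n) p := by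
    intro K hKR hK
    obtain ⟨w', hw', hev⟩ := hPe K hKR hK
    have hKr : K8b_at ar '' K ⊆ O := by
      rintro _ ⟨x, hx, rfl⟩
      exact hR x (hKR hx)
    obtain ⟨d, hd, hds⟩ := (K8b_cpt ar hK).exists_cthickening_subset_open hO hKr
    refine ⟨min w' d, lt_min hw' hd, ?_⟩
    filter_upwards [hev, hFe _ hds (K8b_cpt ar hK).cthickening] with n n2 n3 p hp hp1
    have h5 := n2 p hp (hp1.trans (min_le_left _ _))
    have h6 := n3 p (K8b_mem hp (hp1.trans (min_le_right _ _)))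
    rw [h5] at h6
    exact h6
  refine ⟨_, rel_all h0 h1 ha hOl hOr hl hr ?_ ?_ hP ?_, hrel⟩
  · rintro x ⟨⟨hx1, hx2, hx3⟩, -⟩
    refine ⟨⟨?_, ?_, hx1, hx2⟩, hx3⟩
    · change al - w < al
      linarith
    · change al < al + w
      linarith
  · exact fun x hx => hO1 (hR x hx)
  · intro K hKR hK
    obtain ⟨w', hw', hev⟩ := hrel K hKR hK
    have hε : ∀ᶠ n in (U : Filter ℕ), ε n < w' := h1.eventually_lt_const hw'
    filter_upwards [hε, hev] with n n1 n2 p hp hp1 hp2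
    exact n2 p hp ((abs_le.2 ⟨by linarith [h0 n], by linarith⟩ : |p.1.re - ar| ≤ ε n).trans
      n1.le)

end Pool.Agent.MP_ae5b4e_an_AZ
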