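import Pool.Agent.Lib.MP_ae5b4e_an_AZ.K18
import Pool.Agent.Lib.MP_ae5b4e_an_AZ.K18c
import Pool.Agent.Lib.MP_ae5b4e_an_A5.Defs

/-!
# POR (iii), (Z'): a point `Z_k` is not deficient, from the types of section T
-/

noncomputable section

namespace Pool.Agent.MP_ae5b4e_an_AZ

open Complex Set Filter Topology Metric
open Pool.Agent.MP_ae5b4e_an_NB2 (Sys)
open Pool.Agent.MP_ae5b4e_an_PB (Base)
open Pool.Agent.MP_ae5b4e_an_M (Win DI LI vI qI Zn Ln)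
open Pool.Agent.MP_ae5b4e_an_A1
open Pool.Agent.MP_ae5b4e_an_T
open Pool.Agent.MP_ae5b4e_an_A5 (NDf)
open PorTR (Hm)

/-- change of the branch function outside a smaller ball of parameters -/
theorem ZC.congr {q : ℂ → ℂ} {vi : ℂ → ℝ} {L : ℂ × ℂ → ℂ} {γ : ℝ} {ζ : ℂ} {Tb Tb' : ℂ → ℂ} {l : ℂ}
    {k : ℕ} {R ρ ρ₁ : ℝ} {μ : ℕ} {lam : ℂ → ℂ} {r M ρ0 : ℝ} {Y : ℂ → ℂ} {c1 k0 : ℂ}
    {K lb Zf : ℂ × ℂ → ℂ} (h : ZC q vi L γ ζ Tb' l k R ρ μ lam r M ρ0 Y c1 k0 K lb Zf)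
    (h0 : 0 < ρ₁) (h1 : ρ₁ ≤ ρ) (hT : ∀ γ' ∈ ball (γ : ℂ) ρ₁, Tb γ' = Tb' γ') :
    ZC q vi L γ ζ Tb l k R ρ₁ μ lam r M ρ0 Y c1 k0 K lb Zf := by
  have hb : ball (γ : ℂ) ρ₁ ⊆ ball (γ : ℂ) ρ := ball_subset_ball h1
  have hsub : Slb Tb ζ γ R ρ₁ ⊆ Slb Tb' ζ γ R ρ := by
    rintro p ⟨⟨a1, a2⟩, a3⟩
    refine ⟨⟨a1, hb a2⟩, ?_⟩
    rw [← hT _ a2]
    exact a3
  refine ⟨h.low, h.k_pos, h.chart, h.Y_an, h.Y_eq, h.Y_lim, h.c1_eq, h.mod, h.lbd, h1.trans h.ρ_le,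
    ⟨h0, h1.trans h.sln.le, h1.trans_lt h.sln.lt, ?_, ?_, ?_, h.sln.an.mono hsub,
      fun p hp => h.sln.im p (hsub hp), fun p hp => h.sln.eq p (hsub hp), ?_⟩, h.Z_an.mono hsub, ?_,
    fun p hp => h.st p (hsub hp)⟩
  · intro γ' hγ'
    refine (h.sln.Tan γ' (hb hγ')).congr ?_
    filter_upwards [isOpen_ball.mem_nhds hγ'] with g hg using (hT g hg).symm
  · rw [hT _ (mem_ball_self h0)]
    exact h.sln.T0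
  · intro γ' hγ'
    rw [hT _ hγ']
    exact h.sln.Tin γ' (hb hγ')
  · intro γ' hγ'
    rw [hT _ hγ']
    exact h.sln.not_mem γ' (hb hγ')
  · intro p hp
    refine ⟨(h.Z_eq p (hsub hp)).1, ?_⟩
    rw [(h.Z_eq p (hsub hp)).2, hT _ hp.1.2]

variable {Y : Sys} {h R C0 : ℝ} {v : ℂ → ℝ} {G L : ℂ × ℂ → ℂ} {U : Ultrafilter ℕ} {β C1 : ℝ}
  {c V : ℕ → ℝ}

/-- **A POINT `Z_k` IS NOT DEFICIENT**, from the types of section T (the analogue of `A5.ndf_TAt`). -/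
theorem ndf_ZkAt (hB : Base Y h R C0 v G L) (HW : Win v U β C1 c V) (x : ℕ → ℝ) {Cq : ℝ}
    (hL : Lb (qI Y h U x c V) Cq (vI v U c V) (LI L h U x c V))
    (hqn : ∃ z ∈ Hm, ∃ z' ∈ Hm, qI Y h U x c V z ≠ qI Y h U x c V z')
    {g₀ x₁ x₂ b : ℝ} {P : ℕ} {Tb : ℕ → ℂ → ℂ} {Λ : ℂ × ℂ → ℂ} {i : ℕ} (hi : i < P)
    (han : AnalyticAt ℂ (Tb (i + 1)) g₀) {l : ℂ} (hl : l.im < 0) {k : ℕ}
    (hZ : ZkAt (qI Y h U x c V) g₀ (vI v U c V g₀) (fun τ => LI L h U x c V (τ, g₀))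
      (Tb (i + 1) g₀).re l k) :
    NDf Y h v L U x c V g₀ x₁ x₂ b P Tb Λ i := by
  intro ξ hξ Vm r₀ X hSd hS w r hr hBo Z f g A B hBC hBZ y h1 h2
  have hg := hSd.g_pos
  have hτ : Tb (i + 1) g₀ = ((Tb (i + 1) g₀).re : ℂ) - vI v U c V g₀ * I := by
    apply Complex.ext
    · simp
    · rw [hSd.Tb_im i hi]
      simp
  obtain ⟨Tb', -, -, -, -, -, -, -, -, Rz, ρ, μ, lam, rz, M, ρ0, Ys, c1, k0, K, lb, Zf, hZC⟩ :=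
    slit_ZO hL hg hqn hl hZ one_pos
  rw [← hτ] at hZC
  have hev := tb_unique hSd hL.usc le_rfl hS hi han hZC
  obtain ⟨ρ₂, hρ₂, hball⟩ := Metric.eventually_nhds_iff_ball.1 hev
  have hZO : ZO (qI Y h U x c V) (vI v U c V) (LI L h U x c V) g₀ (Tb (i + 1) g₀) (Tb (i + 1)) l k :=
    ⟨Rz, min ρ ρ₂, μ, lam, rz, M, ρ0, Ys, c1, k0, K, lb, Zf,
      hZC.congr (lt_min hZC.sln.pos hρ₂) (min_le_left _ _)
        fun γ' hγ' => hball γ' (ball_subset_ball (min_le_right _ _) hγ')⟩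
  exact z_win hB HW x hξ hSd le_rfl hS hr hBo hBC hBZ hi hZO h1 h2

end Pool.Agent.MP_ae5b4e_an_AZ
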