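import Pool.Agent.Lib.MP_ae5b4e_an_AZ.T1a

/-! # AZ: time function: bounds of the reduced integral, cones -/

noncomputable section

namespace Pool.Agent.MP_ae5b4e_an_AZ

open Complex Set Filter Topology Metric MeasureTheory

variable {p X₀ η : ℝ} {c₁ : ℂ} {κ : ℂ → ℂ} {D : Set ℂ} {c₀ : ℝ} {Y : ℂ → ℂ}

namespace T1c

theorem exp_int (hp : 0 < p) : IntegrableOn (fun t : ℝ => Real.exp (-((1 + p) * t))) (Ioi 0) ∧
    ∫ t in Ioi (0 : ℝ), Real.exp (-((1 + p) * t)) = 1 / (1 + p) := by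
  have e : (fun t : ℝ => Real.exp (-((1 + p) * t))) = fun t : ℝ => Real.exp (-(1 + p) * t) := by
    funext t
    rw [neg_mul]
  have h1 : -(1 + p) < 0 := by linarith
  rw [e]
  refine ⟨integrableOn_exp_mul_Ioi h1 0, ?_⟩
  rw [integral_exp_mul_Ioi h1]
  rw [mul_zero, Real.exp_zero, neg_div_neg_eq]

/-- the leading term -/
def E0 (p : ℝ) (c₁ : ℂ) (x : ℂ × ℂ) : ℂ := c₁ * cexp ((1 + p) * (x.1 - x.2))

theorem E0_ne (hκ : Kap p X₀ η c₁ κ) (x : ℂ × ℂ) : E0 p c₁ x ≠ 0 :=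
  mul_ne_zero hκ.c₁_ne (Complex.exp_ne_zero _)

/-- the reduced density -/
def uu (p : ℝ) (c₁ : ℂ) (κ : ℂ → ℂ) (x : ℂ × ℂ) (t : ℝ) : ℂ :=
  κ (x.1 - x.2 - t) / (c₁ * cexp ((1 + p) * (x.1 - x.2 - t)))

theorem uu_near (hκ : Kap p X₀ η c₁ κ) {x : ℂ × ℂ} (hx : x ∈ DZ D X₀) {t : ℝ} (ht : 0 ≤ t) :
    ‖uu p c₁ κ x t - 1‖ ≤ η := by
  have hre : (x.1 - x.2 - t : ℂ).re < X₀ := by
    have h1 := hx.2
    have h2 : (x.1 - x.2 - t : ℂ).re = (x.1 - x.2).re - t := by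
      rw [Complex.sub_re, Complex.ofReal_re]
    rw [h2]
    linarith
  have h3 := hκ.bd _ hre
  have hne : c₁ * cexp ((1 + p) * (x.1 - x.2 - t)) ≠ 0 :=
    mul_ne_zero hκ.c₁_ne (Complex.exp_ne_zero _)
  unfold uu
  rw [div_sub_one hne, norm_div, div_le_iff₀ (norm_pos_iff.2 hne)]
  exact h3

theorem integrand_eq (hκ : Kap p X₀ η c₁ κ) (x : ℂ × ℂ) (t : ℝ) :
    κ (x.1 - x.2 - t) / Y (x.1 - t) / E0 p c₁ x =
      (Real.exp (-((1 + p) * t)) : ℝ) * (uu p c₁ κ x t / Y (x.1 - t)) := by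
  have e1 : cexp ((1 + p) * (x.1 - x.2 - t)) =
      cexp ((1 + p) * (x.1 - x.2)) * (Real.exp (-((1 + p) * t)) : ℝ) := by
    rw [Complex.ofReal_exp, ← Complex.exp_add]
    congr 1
    push_cast
    ring
  have hne : cexp ((1 + p) * (x.1 - x.2)) ≠ 0 := Complex.exp_ne_zero _
  have hne2 : ((Real.exp (-((1 + p) * t)) : ℝ) : ℂ) ≠ 0 := by
    rw [Complex.ofReal_ne_zero]
    exact (Real.exp_pos _).ne'
  have hc := hκ.c₁_ne
  unfold uu E0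
  rw [e1]
  generalize ((Real.exp (-((1 + p) * t)) : ℝ) : ℂ) = r at hne2 ⊢
  generalize cexp ((1 + p) * (x.1 - x.2)) = e at hne ⊢
  generalize κ (x.1 - x.2 - t) = k
  generalize Y (x.1 - t) = y
  have e2 : r * (k / (c₁ * (e * r))) = k / (c₁ * e) := by field_simp
  rw [← mul_div_assoc, e2]
  ring

theorem JZ_eq (hκ : Kap p X₀ η c₁ κ) (hY : LD D c₀ Y) {x : ℂ × ℂ} (hx : x ∈ DZ D X₀) :
    IntegrableOn (fun t : ℝ => (Real.exp (-((1 + p) * t)) : ℝ) *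
      (uu p c₁ κ x t / Y (x.1 - t))) (Ioi 0) ∧
    JZ p c₁ κ Y x = ∫ t in Ioi (0 : ℝ), ((Real.exp (-((1 + p) * t)) : ℝ) : ℂ) *
      (uu p c₁ κ x t / Y (x.1 - t)) := by
  obtain ⟨h1, -⟩ := TZ_int hκ hY hx
  have h2 := h1.div_const (E0 p c₁ x)
  have e : (fun t : ℝ => κ (x.1 - x.2 - t) / Y (x.1 - t) / E0 p c₁ x) = fun t : ℝ =>
      ((Real.exp (-((1 + p) * t)) : ℝ) : ℂ) * (uu p c₁ κ x t / Y (x.1 - t)) :=
    funext fun t => integrand_eq hκ x t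
  rw [e] at h2
  refine ⟨h2, ?_⟩
  unfold JZ TZ
  rw [← e, integral_div]
  rfl

theorem Y_pos (hY : LD D c₀ Y) {x : ℂ × ℂ} (hx : x ∈ DZ D X₀) {t : ℝ} (ht : 0 ≤ t) :
    0 < ‖Y (x.1 - t)‖ := by
  have h1 := hY.re _ (hY.left _ hx.1 t ht)
  have h2 := Complex.abs_re_le_norm (Y (x.1 - t))
  have h3 := le_abs_self (Y (x.1 - t)).re
  linarith [hY.c₀_pos]

end T1c

/-- If `c ‖Y‖ ≤ Re Y` and `‖Y‖ ≤ C` on the left half line of `om`, then `J` has positive real part.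

Proof. `J = ∫₀^∞ g t dt`, `g t = exp (- (1 + p) t) (1 + h) / Y (om - t)`, `‖h‖ ≤ η ≤ c / 2`.
`Re (1 / Y) = Re Y / ‖Y‖² ≥ c / ‖Y‖`, `Re ((1 + h) / Y) ≥ (c - η) / ‖Y‖ ≥ c / (2 C)`; integrate. Upper bound: `TZ_int`. -/
theorem JZ_bd (hκ : Kap p X₀ η c₁ κ) (hY : LD D c₀ Y) {x : ℂ × ℂ} (hx : x ∈ DZ D X₀) {c C : ℝ}
    (hc : 0 < c) (hη : η ≤ c / 2)
    (hb : ∀ t : ℝ, 0 ≤ t → c * ‖Y (x.1 - t)‖ ≤ (Y (x.1 - t)).re ∧ ‖Y (x.1 - t)‖ ≤ C) :
    c / (2 * C * (1 + p)) ≤ (JZ p c₁ κ Y x).re ∧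
      ‖JZ p c₁ κ Y x‖ ≤ (1 + η) / (c₀ * (1 + p)) := by
  obtain ⟨hint, hJ⟩ := T1c.JZ_eq hκ hY hx
  obtain ⟨hei, hev⟩ := T1c.exp_int hκ.p_pos
  have hp := hκ.p_pos
  constructor
  · have h1 : (∫ t in Ioi (0 : ℝ), ((Real.exp (-((1 + p) * t)) : ℝ) : ℂ) *
        (T1c.uu p c₁ κ x t / Y (x.1 - t))).re =
        ∫ t in Ioi (0 : ℝ), (((Real.exp (-((1 + p) * t)) : ℝ) : ℂ) *
          (T1c.uu p c₁ κ x t / Y (x.1 - t))).re :=
      (Complex.reCLM.integral_comp_comm hint).symm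
    have h2 : c / (2 * C * (1 + p)) =
        ∫ t in Ioi (0 : ℝ), c / (2 * C) * Real.exp (-((1 + p) * t)) := by
      rw [integral_const_mul, hev]
      field_simp
    rw [hJ, h1, h2]
    refine setIntegral_mono_on (hei.const_mul _) hint.re measurableSet_Ioi fun t ht => ?_
    have ht0 : 0 ≤ t := (mem_Ioi.1 ht).le
    have hY0 := T1c.Y_pos hY hx ht0
    have hu := T1c.uu_near hκ hx ht0
    obtain ⟨hb1, hb2⟩ := hb t ht0
    rw [Complex.re_ofReal_mul, mul_comm]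
    refine mul_le_mul_of_nonneg_left ?_ (Real.exp_pos _).le
    generalize T1c.uu p c₁ κ x t = u at hu
    generalize Y (x.1 - t) = y at hY0 hb1 hb2 ⊢
    have hC0 : 0 < C := hY0.trans_le hb2
    have hy0 : y ≠ 0 := norm_pos_iff.1 hY0
    have e1 : u / y = 1 / y + (u - 1) / y := by ring
    have e2 : (1 / y).re = y.re / ‖y‖ ^ 2 := by
      rw [one_div, Complex.inv_re, Complex.normSq_eq_norm_sq]
    have e3 : -(η / ‖y‖) ≤ ((u - 1) / y).re := by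
      have h3 := (abs_le.1 (Complex.abs_re_le_norm ((u - 1) / y))).1
      have h4 : ‖(u - 1) / y‖ ≤ η / ‖y‖ := by
        rw [norm_div]
        exact div_le_div_of_nonneg_right hu hY0.le
      linarith
    have e4 : c / ‖y‖ ≤ y.re / ‖y‖ ^ 2 := by
      rw [div_le_div_iff₀ hY0 (by positivity)]
      calc c * ‖y‖ ^ 2 = c * ‖y‖ * ‖y‖ := by ring
        _ ≤ y.re * ‖y‖ := mul_le_mul_of_nonneg_right hb1 hY0.le
    have e5 : η / ‖y‖ ≤ c / 2 / ‖y‖ := div_le_div_of_nonneg_right hη hY0.le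
    have e6 : c / (2 * C) ≤ c / 2 / ‖y‖ := by
      rw [div_div]
      exact div_le_div_of_nonneg_left hc.le (by positivity) (by linarith)
    have e7 : c / ‖y‖ = c / 2 / ‖y‖ + c / 2 / ‖y‖ := by ring
    rw [e1, Complex.add_re, e2]
    linarith
  · obtain ⟨-, h2⟩ := TZ_int hκ hY hx
    have hE : ‖c₁ * cexp ((1 + p) * (x.1 - x.2))‖ =
        ‖c₁‖ * Real.exp ((1 + p) * (x.1 - x.2).re) := by
      rw [norm_mul, Complex.norm_exp]
      congr 2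
      have : ((1 : ℂ) + p) = ((1 + p : ℝ) : ℂ) := by push_cast; rfl
      rw [this, Complex.re_ofReal_mul]
    have hc0 := hY.c₀_pos
    have hc1 : 0 < ‖c₁‖ := norm_pos_iff.2 hκ.c₁_ne
    unfold JZ
    rw [norm_div, hE, div_le_iff₀ (mul_pos hc1 (Real.exp_pos _))]
    refine h2.trans (le_of_eq ?_)
    ring

/-- If `Y` is near the real number `b > 0` on the left half line, `J` is near `1 / ((1 + p) b)`.

Proof. `(1 + h) / Y - 1 / b = h / Y + (b - Y) / (b Y)`; `‖Y‖ ≥ b - ε ≥ b / 2`. So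
`‖(1 + p) b J - 1‖ ≤ sup ‖b (1 + h) / Y - 1‖ ≤ 2 η + 2 ε / b`. -/
theorem JZ_near (hκ : Kap p X₀ η c₁ κ) (hY : LD D c₀ Y) {x : ℂ × ℂ} (hx : x ∈ DZ D X₀) {b ε : ℝ}
    (hb : 0 < b) (hε : 0 ≤ ε) (hεb : ε ≤ b / 2)
    (h : ∀ t : ℝ, 0 ≤ t → ‖Y (x.1 - t) - b‖ ≤ ε) :
    ‖(1 + p) * b * JZ p c₁ κ Y x - 1‖ ≤ 2 * η + 2 * ε / b := by
  obtain ⟨hint, hJ⟩ := T1c.JZ_eq hκ hY hx
  obtain ⟨hei, hev⟩ := T1c.exp_int hκ.p_pos
  have hp := hκ.p_pos
  have hpc : ((1 : ℂ) + p) ≠ 0 := by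
    have : ((1 : ℂ) + p) = ((1 + p : ℝ) : ℂ) := by push_cast; rfl
    rw [this, Complex.ofReal_ne_zero]
    linarith
  have h1 : (1 : ℂ) =
      ∫ t in Ioi (0 : ℝ), ((1 : ℂ) + p) * ((Real.exp (-((1 + p) * t)) : ℝ) : ℂ) := by
    rw [integral_const_mul, integral_complex_ofReal, hev]
    push_cast
    field_simp
  have hei' : IntegrableOn (fun t : ℝ => ((Real.exp (-((1 + p) * t)) : ℝ) : ℂ)) (Ioi 0) :=
    hei.ofReal
  rw [hJ]
  nth_rewrite 2 [h1]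
  rw [← integral_const_mul, ← integral_sub (hint.const_mul _) (hei'.const_mul _)]
  have h2 : 2 * η + 2 * ε / b = ∫ t in Ioi (0 : ℝ), (2 * η + 2 * ε / b) * ((1 + p) *
      Real.exp (-((1 + p) * t))) := by
    rw [integral_const_mul, integral_const_mul, hev]
    field_simp
  rw [h2]
  refine norm_integral_le_of_norm_le ((hei.const_mul _).const_mul _) ?_
  refine (ae_restrict_iff' measurableSet_Ioi).2 (Eventually.of_forall fun t ht => ?_)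
  have ht0 : 0 ≤ t := (mem_Ioi.1 ht).le
  have hY0 := T1c.Y_pos hY hx ht0
  have hu := T1c.uu_near hκ hx ht0
  have hYb := h t ht0
  have hpp : ((1 : ℂ) + p) = ((1 + p : ℝ) : ℂ) := by push_cast; rfl
  have e1 : ((1 : ℂ) + p) * b * (((Real.exp (-((1 + p) * t)) : ℝ) : ℂ) *
      (T1c.uu p c₁ κ x t / Y (x.1 - t))) - ((1 : ℂ) + p) *
        ((Real.exp (-((1 + p) * t)) : ℝ) : ℂ) =
      (((1 + p) * Real.exp (-((1 + p) * t)) : ℝ) : ℂ) *
        (b * T1c.uu p c₁ κ x t / Y (x.1 - t) - 1) := by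
    push_cast
    ring
  rw [e1, norm_mul, Complex.norm_real, Real.norm_eq_abs, abs_of_pos (by positivity), mul_comm]
  refine mul_le_mul_of_nonneg_right ?_ (by positivity)
  generalize T1c.uu p c₁ κ x t = u at hu
  generalize Y (x.1 - t) = y at hY0 hYb ⊢
  have hy0 : y ≠ 0 := norm_pos_iff.1 hY0
  have hyb : b / 2 ≤ ‖y‖ := by
    have e3 := norm_sub_norm_le (b : ℂ) y
    rw [Complex.norm_real, Real.norm_eq_abs, abs_of_pos hb, norm_sub_rev] at e3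
    linarith
  have e2 : b * u / y - 1 = (b * (u - 1) + (b - y)) / y := by
    field_simp
    ring
  rw [e2, norm_div, div_le_iff₀ hY0]
  have e3 : ‖(b : ℂ) * (u - 1) + (b - y)‖ ≤ b * η + ε := by
    refine (norm_add_le _ _).trans (add_le_add ?_ ?_)
    · rw [norm_mul, Complex.norm_real, Real.norm_eq_abs, abs_of_pos hb]
      exact mul_le_mul_of_nonneg_left hu hb.le
    · rw [norm_sub_rev]
      exact hYb
  have hη := hκ.η_nonneg
  calc ‖(b : ℂ) * (u - 1) + (b - y)‖ ≤ b * η + ε := e3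
    _ = (2 * η + 2 * ε / b) * (b / 2) := by field_simp
    _ ≤ (2 * η + 2 * ε / b) * ‖y‖ := mul_le_mul_of_nonneg_left hyb (by positivity)

/-- `T` lies in a closed convex cone if the integrand does. Proof. The cone `{w | |Re w| ≤ 2 Im w}` is
given by the two linear inequalities `± Re w ≤ 2 Im w`; `integral_re`, `integral_im`, monotonicity. -/
theorem TZ_cone (hκ : Kap p X₀ η c₁ κ) (hY : LD D c₀ Y) {x : ℂ × ℂ} (hx : x ∈ DZ D X₀)
    (h : ∀ t : ℝ, 0 ≤ t → |(κ (x.1 - x.2 - t) / Y (x.1 - t)).re| ≤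
      2 * (κ (x.1 - x.2 - t) / Y (x.1 - t)).im) :
    |(TZ κ Y x).re| ≤ 2 * (TZ κ Y x).im := by
  obtain ⟨hint, -⟩ := TZ_int hκ hY hx
  have h1 : (TZ κ Y x).re = ∫ t in Ioi (0 : ℝ), (κ (x.1 - x.2 - t) / Y (x.1 - t)).re :=
    (Complex.reCLM.integral_comp_comm hint).symm
  have h2 : (TZ κ Y x).im = ∫ t in Ioi (0 : ℝ), (κ (x.1 - x.2 - t) / Y (x.1 - t)).im :=
    (Complex.imCLM.integral_comp_comm hint).symm
  rw [h1, h2, ← integral_const_mul]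
  refine (abs_integral_le_integral_abs (μ := volume.restrict (Ioi (0 : ℝ)))).trans ?_
  exact setIntegral_mono_on hint.re.abs (hint.im.const_mul 2) measurableSet_Ioi
    fun t ht => h t (mem_Ioi.1 ht).le

end Pool.Agent.MP_ae5b4e_an_AZ
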