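import Pool.Agent.Lib.MP_ae5b4e_an_AZ.T1b
import Pool.Agent.Lib.MP_ae5b4e_an_AZ.T1c

/-! # AZ: the time function as an integral from the end `Z` (collection) -/

noncomputable section

namespace Pool.Agent.MP_ae5b4e_an_AZ

open Complex Set Filter Topology Metric MeasureTheory

end Pool.Agent.MP_ae5b4e_an_AZ
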