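import Pool.Agent.Lib.MP_ae5b4e_an_AZ.T1d

/-! # AZ: time function: integrability -/

noncomputable section

namespace Pool.Agent.MP_ae5b4e_an_AZ

open Complex Set Filter Topology Metric MeasureTheory

variable {p X₀ η : ℝ} {c₁ : ℂ} {κ : ℂ → ℂ} {D : Set ℂ} {c₀ : ℝ} {Y : ℂ → ℂ}

/-- Proof. `‖κ (x - t)‖ ≤ (1 + η) ‖c₁‖ exp ((1 + p) (Re x - t))`, `‖Y‖ ≥ Re Y ≥ c₀`. -/
theorem integrand_le (hκ : Kap p X₀ η c₁ κ) (hY : LD D c₀ Y) {x : ℂ × ℂ} (hx : x ∈ DZ D X₀)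
    {t : ℝ} (ht : 0 ≤ t) : ‖κ (x.1 - x.2 - t) / Y (x.1 - t)‖ ≤
      (1 + η) * ‖c₁‖ / c₀ * Real.exp ((1 + p) * (x.1 - x.2).re) * Real.exp (-((1 + p) * t)) := by
  have hη := hκ.η_nonneg
  have hc := hY.c₀_pos
  have h1 : (x.1 - x.2 - (t : ℂ)).re = (x.1 - x.2).re - t := by simp
  have h2 : (x.1 - x.2 - (t : ℂ)).re < X₀ := by
    have := hx.2
    rw [h1]
    linarith
  have h3 : ‖c₁ * cexp ((1 + p) * (x.1 - x.2 - (t : ℂ)))‖ =
      ‖c₁‖ * (Real.exp ((1 + p) * (x.1 - x.2).re) * Real.exp (-((1 + p) * t))) := by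
    rw [norm_mul, Complex.norm_exp, ← Real.exp_add]
    congr 2
    have h4 : ((1 + p : ℂ) * (x.1 - x.2 - (t : ℂ))).re = (1 + p) * (x.1 - x.2 - (t : ℂ)).re := by
      rw [show (1 + p : ℂ) = ((1 + p : ℝ) : ℂ) by push_cast; ring, re_ofReal_mul]
    rw [h4, h1]
    ring
  have h5 := hκ.bd _ h2
  have h6 : ‖κ (x.1 - x.2 - (t : ℂ))‖ ≤
      (1 + η) * ‖c₁ * cexp ((1 + p) * (x.1 - x.2 - (t : ℂ)))‖ := by
    have h7 := norm_add_le (κ (x.1 - x.2 - (t : ℂ)) - c₁ * cexp ((1 + p) * (x.1 - x.2 - (t : ℂ))))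
      (c₁ * cexp ((1 + p) * (x.1 - x.2 - (t : ℂ))))
    rw [sub_add_cancel] at h7
    linarith
  have h8 : c₀ ≤ ‖Y (x.1 - t)‖ :=
    (hY.re _ (hY.left _ hx.1 t ht)).trans ((le_abs_self _).trans (abs_re_le_norm _))
  rw [norm_div]
  calc ‖κ (x.1 - x.2 - (t : ℂ))‖ / ‖Y (x.1 - t)‖
      ≤ ((1 + η) * ‖c₁ * cexp ((1 + p) * (x.1 - x.2 - (t : ℂ)))‖) / c₀ :=
        div_le_div₀ (by positivity) h6 hc h8
    _ = (1 + η) * ‖c₁‖ / c₀ * Real.exp ((1 + p) * (x.1 - x.2).re) *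
        Real.exp (-((1 + p) * t)) := by
        rw [h3]
        ring

/-- Proof. `integrand_le` and `∫₀^∞ exp (- (1 + p) t) dt = 1 / (1 + p)`; measurability: the
integrand is continuous on `[0, ∞)`. -/
theorem TZ_int (hκ : Kap p X₀ η c₁ κ) (hY : LD D c₀ Y) {x : ℂ × ℂ} (hx : x ∈ DZ D X₀) :
    IntegrableOn (fun t : ℝ => κ (x.1 - x.2 - t) / Y (x.1 - t)) (Ioi 0) ∧
      ‖TZ κ Y x‖ ≤ (1 + η) * ‖c₁‖ / (c₀ * (1 + p)) * Real.exp ((1 + p) * (x.1 - x.2).re) := by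
  have hp := hκ.p_pos
  have hc := hY.c₀_pos
  have ha : -(1 + p) < 0 := by linarith
  have hc1 : ContinuousOn (fun t : ℝ => κ (x.1 - x.2 - t) / Y (x.1 - t)) (Ioi 0) := by
    intro t ht
    have ht' : (0 : ℝ) < t := ht
    have h1 : (x.1 - x.2 - (t : ℂ)).re < X₀ := by
      have h2 : (x.1 - x.2 - (t : ℂ)).re = (x.1 - x.2).re - t := by simp
      have := hx.2
      rw [h2]
      linarith
    have h2 : x.1 - (t : ℂ) ∈ D := hY.left _ hx.1 t ht'.le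
    have h3 : Y (x.1 - t) ≠ 0 := by
      intro h
      have h4 := hY.re _ h2
      rw [h, zero_re] at h4
      linarith
    have h5 : ContinuousAt (fun t : ℝ => κ (x.1 - x.2 - t)) t :=
      ContinuousAt.comp (f := fun t : ℝ => x.1 - x.2 - (t : ℂ)) (hκ.an _ h1).continuousAt
        (by fun_prop)
    have h6 : ContinuousAt (fun t : ℝ => Y (x.1 - t)) t :=
      ContinuousAt.comp (f := fun t : ℝ => x.1 - (t : ℂ)) (hY.Y_an _ h2).continuousAt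
        (by fun_prop)
    exact (h5.div h6 h3).continuousWithinAt
  have hg : IntegrableOn (fun t : ℝ => (1 + η) * ‖c₁‖ / c₀ *
      Real.exp ((1 + p) * (x.1 - x.2).re) * Real.exp (-(1 + p) * t)) (Ioi 0) :=
    (integrableOn_exp_mul_Ioi ha 0).const_mul _
  have hle : ∀ᵐ t : ℝ ∂(volume.restrict (Ioi (0 : ℝ))), ‖κ (x.1 - x.2 - t) / Y (x.1 - t)‖ ≤
      (1 + η) * ‖c₁‖ / c₀ * Real.exp ((1 + p) * (x.1 - x.2).re) * Real.exp (-(1 + p) * t) := by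
    filter_upwards [ae_restrict_mem measurableSet_Ioi] with t ht
    have h1 := integrand_le hκ hY hx (le_of_lt (show (0 : ℝ) < t from ht))
    rwa [neg_mul]
  refine ⟨hg.mono' (hc1.aestronglyMeasurable measurableSet_Ioi) hle, ?_⟩
  refine (norm_integral_le_of_norm_le hg hle).trans (le_of_eq ?_)
  rw [integral_const_mul, integral_exp_mul_Ioi ha, mul_zero, Real.exp_zero]
  have h1 : (1 + p) ≠ 0 := by linarith
  field_simp

end Pool.Agent.MP_ae5b4e_an_AZ
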