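import Pool.Agent.Lib.MP_ae5b4e_an_AZ.T1a
import Pool.Agent.Lib.SCV.Osgood

/-! # AZ: time function: analyticity -/

noncomputable section

namespace Pool.Agent.MP_ae5b4e_an_AZ

open Complex Set Filter Topology Metric MeasureTheory

variable {p X₀ η : ℝ} {c₁ : ℂ} {κ : ℂ → ℂ} {D : Set ℂ} {c₀ : ℝ} {Y : ℂ → ℂ}

private theorem T1b_exp {a : ℝ} (ha : 0 < a) (K : ℝ) :
    Integrable (fun t : ℝ => K * Real.exp (-(a * t))) (volume.restrict (Ioi 0)) := by
  have h := (integrableOn_exp_mul_Ioi (neg_lt_zero.2 ha) 0).const_mul K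
  simp only [neg_mul] at h
  exact h

/-- differentiation of an integral with a parameter, with exponential majorant -/
private theorem T1b_par {F : ℂ → ℝ → ℂ} {z₀ : ℂ} {ρ K a : ℝ} (hρ : 0 < ρ) (ha : 0 < a)
    (hd : ∀ t : ℝ, 0 < t → DifferentiableOn ℂ (fun z => F z t) (ball z₀ (2 * ρ)))
    (hb : ∀ z ∈ ball z₀ (2 * ρ), ∀ t : ℝ, 0 < t → ‖F z t‖ ≤ K * Real.exp (-(a * t)))
    (hm : ∀ z ∈ ball z₀ (2 * ρ), AEStronglyMeasurable (F z) (volume.restrict (Ioi 0))) :
    Integrable (fun t => deriv (fun z => F z t) z₀) (volume.restrict (Ioi (0 : ℝ))) ∧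
    HasDerivAt (fun z => ∫ t in Ioi (0 : ℝ), F z t)
      (∫ t in Ioi (0 : ℝ), deriv (fun z => F z t) z₀) z₀ := by
  have h2ρ : 0 < 2 * ρ := by linarith
  have hdz : ∀ t : ℝ, 0 < t → ∀ z ∈ ball z₀ (2 * ρ),
      HasDerivAt (fun w => F w t) (deriv (fun w => F w t) z) z := fun t ht z hz =>
    ((hd t ht).differentiableAt (isOpen_ball.mem_nhds hz)).hasDerivAt
  refine hasDerivAt_integral_of_dominated_loc_of_deriv_le (s := ball z₀ ρ)
    (bound := fun t => K / ρ * Real.exp (-(a * t)))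
    (F' := fun z t => deriv (fun w => F w t) z) (ball_mem_nhds z₀ hρ) ?_ ?_ ?_ ?_
    (T1b_exp ha _) ?_
  · filter_upwards [ball_mem_nhds z₀ h2ρ] with z hz
    exact hm z hz
  · refine (T1b_exp ha K).mono' (hm z₀ (mem_ball_self h2ρ)) ?_
    filter_upwards [ae_restrict_mem measurableSet_Ioi] with t ht
    exact hb z₀ (mem_ball_self h2ρ) t ht
  · obtain ⟨e, he⟩ : ∃ e : ℕ → ℂ, ∀ n, e n = ((ρ / (n + 1) : ℝ) : ℂ) := ⟨_, fun _ => rfl⟩
    have he0 : ∀ n, e n ≠ 0 := by
      intro n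
      rw [he]
      have h1 : (0 : ℝ) < ρ / (n + 1) := by positivity
      exact_mod_cast h1.ne'
    have heb : ∀ n, z₀ + e n ∈ ball z₀ (2 * ρ) := by
      intro n
      rw [mem_ball, dist_eq_norm, add_sub_cancel_left, he, Complex.norm_real,
        Real.norm_of_nonneg (by positivity)]
      have h1 : ρ / ((n : ℝ) + 1) ≤ ρ :=
        div_le_self hρ.le (by linarith [(Nat.cast_nonneg n : (0 : ℝ) ≤ n)])
      linarith
    have het : Tendsto e atTop (𝓝[≠] 0) := by
      refine tendsto_nhdsWithin_iff.2 ⟨?_, Eventually.of_forall he0⟩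
      have h1 : Tendsto (fun n : ℕ => ρ / ((n : ℝ) + 1)) atTop (𝓝 0) := by
        have h2 := (tendsto_one_div_add_atTop_nhds_zero_nat (𝕜 := ℝ)).const_mul ρ
        rw [mul_zero] at h2
        refine h2.congr fun n => ?_
        rw [mul_one_div]
      have h3 := (Complex.continuous_ofReal.tendsto 0).comp h1
      rw [Complex.ofReal_zero] at h3
      exact h3.congr fun n => (he n).symm
    refine aestronglyMeasurable_of_tendsto_ae atTop
      (f := fun (n : ℕ) t => (e n)⁻¹ • (F (z₀ + e n) t - F z₀ t)) (fun n => ?_) ?_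
    · exact AEStronglyMeasurable.const_smul
        (AEStronglyMeasurable.sub (hm _ (heb n)) (hm _ (mem_ball_self h2ρ))) ((e n)⁻¹)
    · filter_upwards [ae_restrict_mem measurableSet_Ioi] with t ht
      exact (hdz t ht z₀ (mem_ball_self h2ρ)).tendsto_slope_zero.comp het
  · filter_upwards [ae_restrict_mem measurableSet_Ioi] with t ht z hz
    have hsub : closedBall z ρ ⊆ ball z₀ (2 * ρ) := by
      intro w hw
      rw [mem_closedBall] at hw
      rw [mem_ball] at hz ⊢
      have := dist_triangle w z z₀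
      linarith
    have h1 := Complex.norm_deriv_le_of_forall_mem_sphere_norm_le
      (f := fun w => F w t) (c := z) hρ ((hd t ht).diffContOnCl_ball hsub)
      (C := K * Real.exp (-(a * t)))
      (fun w hw => hb w (hsub (sphere_subset_closedBall hw)) t ht)
    refine h1.trans (le_of_eq ?_)
    ring
  · filter_upwards [ae_restrict_mem measurableSet_Ioi] with t ht z hz
    exact hdz t ht z (ball_subset_ball (by linarith) hz)

/-- uniform majorant near a point -/
private theorem T1b_maj (hκ : Kap p X₀ η c₁ κ) (hY : LD D c₀ Y) {x : ℂ × ℂ} (hx : x ∈ DZ D X₀)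
    {b : ℝ} (hb : (x.1 - x.2).re ≤ b) {t : ℝ} (ht : 0 < t) :
    ‖κ (x.1 - x.2 - t) / Y (x.1 - t)‖ ≤
      (1 + η) * ‖c₁‖ / c₀ * Real.exp ((1 + p) * b) * Real.exp (-((1 + p) * t)) := by
  have hη := hκ.η_nonneg
  have hc := hY.c₀_pos
  have hp := hκ.p_pos
  refine (integrand_le hκ hY hx ht.le).trans ?_
  have h1 : Real.exp ((1 + p) * (x.1 - x.2).re) ≤ Real.exp ((1 + p) * b) :=
    Real.exp_le_exp.2 (mul_le_mul_of_nonneg_left hb (by linarith))
  have h2 : 0 ≤ (1 + η) * ‖c₁‖ / c₀ := by positivity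
  exact mul_le_mul_of_nonneg_right (mul_le_mul_of_nonneg_left h1 h2) (Real.exp_pos _).le

private theorem T1b_re (x : ℂ) (t : ℝ) : (x - (t : ℂ)).re = x.re - t := by simp

private theorem T1b_ne (hY : LD D c₀ Y) {z : ℂ} (hz : z ∈ D) : Y z ≠ 0 := by
  intro h
  have h1 := hY.re z hz
  have h2 := hY.c₀_pos
  rw [h, zero_re] at h1
  linarith

/-- Derivative in `om`. Proof. The integrand is `- d/dt` of nothing; use instead: for `s` real small
`TZ (om + s, ζ) - TZ (om, ζ) = ∫_{-s}^0 κ (om - ζ - t) / Y (om - t) dt` (translation of the half line), and `TZ` is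
complex differentiable in `om` (differentiation under the integral sign, Cauchy estimates of the
integrand on discs of fixed radius: dominated by `C exp (- (1 + p) t)`), so its complex derivative is the
derivative in the real direction, `κ (om - ζ) / Y om`. (Alternatively: the derivative is
`∫₀^∞ f' (om - t) dt` with `f z = κ (z - ζ) / Y z`, and `∫₀^∞ f' (om - t) dt = f om` because `t ↦ - f (om - t)` is a
primitive which tends to `0`: `integral_Ioi_of_hasDerivAt_of_tendsto`.) -/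
theorem TZ_der (hκ : Kap p X₀ η c₁ κ) (hY : LD D c₀ Y) {x : ℂ × ℂ} (hx : x ∈ DZ D X₀) :
    HasDerivAt (fun z => TZ κ Y (z, x.2)) (κ (x.1 - x.2) / Y x.1) x.1 := by
  have hp := hκ.p_pos
  have hp1 : 0 < 1 + p := by linarith
  have hopen : IsOpen {z : ℂ | (z, x.2) ∈ DZ D X₀} :=
    (isOpen_DZ (X₀ := X₀) hY.D_open).preimage (by fun_prop)
  obtain ⟨r, hr, hrb⟩ := Metric.isOpen_iff.1 hopen x.1 hx
  obtain ⟨ρ, hρd⟩ : ∃ ρ : ℝ, ρ = r / 2 := ⟨_, rfl⟩
  have hρ : 0 < ρ := by rw [hρd]; linarith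
  have hr2 : r = 2 * ρ := by rw [hρd]; ring
  rw [hr2] at hrb
  have hre : ∀ z ∈ ball x.1 (2 * ρ), (z - x.2).re ≤ (x.1 - x.2).re + 2 * ρ := by
    intro z hz
    rw [mem_ball, dist_eq_norm] at hz
    have h1 := (re_le_norm (z - x.1)).trans hz.le
    simp only [sub_re] at h1 ⊢
    linarith
  obtain ⟨f, hf⟩ : ∃ f : ℂ → ℂ, f = fun z => κ (z - x.2) / Y z := ⟨_, rfl⟩
  -- `f` is differentiable at the points of the half line
  have hfd : ∀ z ∈ ball x.1 (2 * ρ), ∀ t : ℝ, 0 ≤ t → DifferentiableAt ℂ f (z - t) := by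
    intro z hz t ht
    have h1 := hrb hz
    have h2 : z - (t : ℂ) ∈ D := hY.left z h1.1 t ht
    have h3 : (z - (t : ℂ) - x.2).re < X₀ := by
      have h4 := h1.2
      simp only [sub_re, ofReal_re] at h4 ⊢
      linarith
    rw [hf]
    refine DifferentiableAt.div ?_ (hY.Y_an _ h2).differentiableAt (T1b_ne hY h2)
    exact DifferentiableAt.comp (g := κ) (f := fun w : ℂ => w - x.2) (z - (t : ℂ))
      (hκ.an _ h3).differentiableAt (by fun_prop)
  have hFf : ∀ (z : ℂ) (t : ℝ), κ (z - x.2 - t) / Y (z - t) = f (z - t) := by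
    intro z t
    rw [hf]
    have h1 : z - x.2 - (t : ℂ) = z - (t : ℂ) - x.2 := by ring
    rw [h1]
  have hdF : ∀ t : ℝ, 0 < t → ∀ z ∈ ball x.1 (2 * ρ),
      HasDerivAt (fun z : ℂ => f (z - (t : ℂ))) (deriv f (z - t)) z := by
    intro t ht z hz
    have h1 := (hfd z hz t ht.le).hasDerivAt
    have h2 : HasDerivAt (fun z : ℂ => z - (t : ℂ)) 1 z := (hasDerivAt_id z).sub_const _
    have h3 := HasDerivAt.comp (h₂ := f) (h := fun z : ℂ => z - (t : ℂ)) z h1 h2
    rwa [mul_one] at h3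
  have hbd : ∀ z ∈ ball x.1 (2 * ρ), ∀ t : ℝ, 0 < t → ‖f (z - t)‖ ≤
      (1 + η) * ‖c₁‖ / c₀ * Real.exp ((1 + p) * ((x.1 - x.2).re + 2 * ρ)) *
        Real.exp (-((1 + p) * t)) := by
    intro z hz t ht
    rw [← hFf]
    exact T1b_maj hκ hY (x := (z, x.2)) (hrb hz) (hre z hz) ht
  obtain ⟨hI, hD⟩ := T1b_par (F := fun z t => f (z - (t : ℂ))) (z₀ := x.1) hρ hp1
    (fun t ht z hz => (hdF t ht z hz).differentiableAt.differentiableWithinAt) hbd
    (fun z hz => by
      have h1 := (TZ_int hκ hY (x := (z, x.2)) (hrb hz)).1.aestronglyMeasurable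
      simp only [hFf] at h1
      exact h1)
  have hx1 : x.1 ∈ ball x.1 (2 * ρ) := mem_ball_self (by linarith)
  have hder : ∀ t ∈ Ioi (0 : ℝ), HasDerivAt (fun t : ℝ => -f (x.1 - t))
      (deriv (fun z : ℂ => f (z - (t : ℂ))) x.1) t := by
    intro t ht
    rw [(hdF t ht x.1 hx1).deriv]
    have h1 := (hfd x.1 hx1 t (le_of_lt ht)).hasDerivAt
    have h2 : HasDerivAt (fun t : ℝ => x.1 - (t : ℂ)) (-1) t := by
      have h3 := (Complex.ofRealCLM.hasDerivAt (x := t)).const_sub x.1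
      simpa using h3
    have h3 := (HasDerivAt.scomp (h := fun t : ℝ => x.1 - (t : ℂ)) (g₁ := f) t h1 h2).neg
    refine h3.congr_deriv ?_
    rw [smul_eq_mul]
    ring
  have hcont : ContinuousWithinAt (fun t : ℝ => -f (x.1 - t)) (Ici 0) 0 := by
    refine ContinuousAt.continuousWithinAt (ContinuousAt.neg ?_)
    refine ContinuousAt.comp (g := f) (f := fun t : ℝ => x.1 - (t : ℂ))
      (hfd x.1 hx1 0 le_rfl).continuousAt (by fun_prop)
  have hlim : Tendsto (fun t : ℝ => -f (x.1 - t)) atTop (𝓝 0) := by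
    have h1 : Tendsto (fun t : ℝ => (1 + η) * ‖c₁‖ / c₀ *
        Real.exp ((1 + p) * ((x.1 - x.2).re + 2 * ρ)) * Real.exp (-((1 + p) * t))) atTop
        (𝓝 0) := by
      have h2 : Tendsto (fun t : ℝ => Real.exp (-((1 + p) * t))) atTop (𝓝 0) :=
        Real.tendsto_exp_neg_atTop_nhds_zero.comp (tendsto_id.const_mul_atTop hp1)
      have h3 := h2.const_mul ((1 + η) * ‖c₁‖ / c₀ *
        Real.exp ((1 + p) * ((x.1 - x.2).re + 2 * ρ)))
      rwa [mul_zero] at h3
    refine squeeze_zero_norm' ?_ h1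
    filter_upwards [eventually_gt_atTop 0] with t ht
    rw [norm_neg]
    exact hbd x.1 hx1 t ht
  have hint := integral_Ioi_of_hasDerivAt_of_tendsto hcont hder hI hlim
  rw [hint] at hD
  have hTZ : (fun z => TZ κ Y (z, x.2)) = fun z => ∫ t in Ioi (0 : ℝ), f (z - (t : ℂ)) := by
    funext z
    unfold TZ
    simp only [hFf]
  rw [hTZ]
  refine hD.congr_deriv ?_
  rw [Complex.ofReal_zero, sub_zero, zero_sub, neg_neg, hf]

/-- Joint analyticity. Proof. `osgood` (`Pool.Agent.Lib.SCV.Osgood`): differentiable in `om` (`TZ_der`) and in `ζ`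
(differentiation under the integral sign, Cauchy estimates of `κ`), and continuous (dominated
convergence: locally uniform majorant `C exp (- (1 + p) t)`). -/
theorem TZ_an (hκ : Kap p X₀ η c₁ κ) (hY : LD D c₀ Y) : AnalyticOnNhd ℂ (TZ κ Y) (DZ D X₀) := by
  have hp := hκ.p_pos
  have hp1 : 0 < 1 + p := by linarith
  have hopen := isOpen_DZ (X₀ := X₀) hY.D_open
  have hκa : ∀ x ∈ DZ D X₀, ∀ t : ℝ, 0 < t → AnalyticAt ℂ κ (x.1 - x.2 - t) := by
    intro x hx t ht
    refine hκ.an _ ?_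
    have h1 := hx.2
    change (x.1 - x.2 - (t : ℂ)).re < X₀
    rw [T1b_re]
    linarith
  refine Pool.Agent.SCV.osgood _ hopen _ ?_
    (fun x hx => (TZ_der hκ hY hx).differentiableAt) ?_
  · intro x hx
    refine ContinuousAt.continuousWithinAt ?_
    have hev : ∀ᶠ y in 𝓝 x, y ∈ DZ D X₀ ∧ (y.1 - y.2).re ≤ (x.1 - x.2).re + 1 := by
      refine Filter.Eventually.and (hopen.mem_nhds hx) ?_
      have h1 : ContinuousAt (fun y : ℂ × ℂ => (y.1 - y.2).re) x := by fun_prop
      filter_upwards [h1.eventually (gt_mem_nhds (show (x.1 - x.2).re < (x.1 - x.2).re + 1 by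
        linarith))] with y hy
      exact hy.le
    refine continuousAt_of_dominated (bound := fun t => (1 + η) * ‖c₁‖ / c₀ *
      Real.exp ((1 + p) * ((x.1 - x.2).re + 1)) * Real.exp (-((1 + p) * t))) ?_ ?_
      (T1b_exp hp1 _) ?_
    · filter_upwards [hev] with y hy
      exact (TZ_int hκ hY hy.1).1.aestronglyMeasurable
    · filter_upwards [hev] with y hy
      filter_upwards [ae_restrict_mem measurableSet_Ioi] with t ht
      exact T1b_maj hκ hY hy.1 hy.2 ht
    · filter_upwards [ae_restrict_mem measurableSet_Ioi] with t ht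
      have h2 : x.1 - (t : ℂ) ∈ D := hY.left _ hx.1 t (le_of_lt ht)
      have h5 : ContinuousAt (fun y : ℂ × ℂ => κ (y.1 - y.2 - t)) x :=
        ContinuousAt.comp (g := κ) (f := fun y : ℂ × ℂ => y.1 - y.2 - (t : ℂ))
          (hκa x hx t ht).continuousAt (by fun_prop)
      have h6 : ContinuousAt (fun y : ℂ × ℂ => Y (y.1 - t)) x :=
        ContinuousAt.comp (g := Y) (f := fun y : ℂ × ℂ => y.1 - (t : ℂ))
          (hY.Y_an _ h2).continuousAt (by fun_prop)
      exact h5.div h6 (T1b_ne hY h2)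
  · intro x hx
    have hopen2 : IsOpen {w : ℂ | (x.1, w) ∈ DZ D X₀} := hopen.preimage (by fun_prop)
    obtain ⟨r, hr, hrb⟩ := Metric.isOpen_iff.1 hopen2 x.2 hx
    obtain ⟨ρ, hρd⟩ : ∃ ρ : ℝ, ρ = r / 2 := ⟨_, rfl⟩
    have hρ : 0 < ρ := by rw [hρd]; linarith
    have hr2 : r = 2 * ρ := by rw [hρd]; ring
    rw [hr2] at hrb
    have hre : ∀ w ∈ ball x.2 (2 * ρ), (x.1 - w).re ≤ (x.1 - x.2).re + 2 * ρ := by
      intro w hw
      rw [mem_ball, dist_comm, dist_eq_norm] at hw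
      have h1 := (re_le_norm (x.2 - w)).trans hw.le
      simp only [sub_re] at h1 ⊢
      linarith
    have hD := (T1b_par (F := fun w t => κ (x.1 - w - (t : ℂ)) / Y (x.1 - (t : ℂ))) (z₀ := x.2)
      (K := (1 + η) * ‖c₁‖ / c₀ * Real.exp ((1 + p) * ((x.1 - x.2).re + 2 * ρ))) hρ hp1
      (fun t ht w hw => by
        refine (DifferentiableAt.div_const ?_ _).differentiableWithinAt
        exact DifferentiableAt.comp (g := κ) (f := fun w : ℂ => x.1 - w - (t : ℂ)) w
          (hκa (x.1, w) (hrb hw) t ht).differentiableAt (by fun_prop))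
      (fun w hw t ht => T1b_maj hκ hY (x := (x.1, w)) (hrb hw) (hre w hw) ht)
      (fun w hw => (TZ_int hκ hY (x := (x.1, w)) (hrb hw)).1.aestronglyMeasurable)).2
    exact hD.differentiableAt

end Pool.Agent.MP_ae5b4e_an_AZ
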