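import Mathlib

/-! # AZ: time function: definitions -/

noncomputable section

namespace Pool.Agent.MP_ae5b4e_an_AZ

open Complex Set Filter Topology Metric MeasureTheory

/-- The density `κ x = c₁ exp ((1 + p) x) (1 + h x)`, `‖h‖ ≤ η`, on the half plane `Re x < X₀`
(`x = om - ζ = (1/2) log q`). -/
structure Kap (p X₀ η : ℝ) (c₁ : ℂ) (κ : ℂ → ℂ) : Prop where
  p_pos : 0 < p
  η_nonneg : 0 ≤ η
  η_le : η ≤ 1 / 20
  c₁_ne : c₁ ≠ 0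
  an : AnalyticOnNhd ℂ κ {x | x.re < X₀}
  bd : ∀ x : ℂ, x.re < X₀ →
    ‖κ x - c₁ * cexp ((1 + p) * x)‖ ≤ η * ‖c₁ * cexp ((1 + p) * x)‖

/-- A domain which is invariant under translations to the left, with `Y` on it. -/
structure LD (D : Set ℂ) (c₀ : ℝ) (Y : ℂ → ℂ) : Prop where
  D_open : IsOpen D
  left : ∀ z ∈ D, ∀ t : ℝ, 0 ≤ t → z - t ∈ D
  c₀_pos : 0 < c₀
  Y_an : AnalyticOnNhd ℂ Y D
  re : ∀ z ∈ D, c₀ ≤ (Y z).re

/-- the time function, normalised by `0` at `Re om = - ∞`; the point is `(om, ζ)` -/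
def TZ (κ Y : ℂ → ℂ) (x : ℂ × ℂ) : ℂ := ∫ t in Ioi (0 : ℝ), κ (x.1 - x.2 - t) / Y (x.1 - t)

/-- the domain of the time function -/
def DZ (D : Set ℂ) (X₀ : ℝ) : Set (ℂ × ℂ) := {x | x.1 ∈ D ∧ (x.1 - x.2).re < X₀}

variable {p X₀ η : ℝ} {c₁ : ℂ} {κ : ℂ → ℂ} {D : Set ℂ} {c₀ : ℝ} {Y : ℂ → ℂ}

theorem isOpen_DZ (hD : IsOpen D) : IsOpen (DZ D X₀) :=
  (hD.preimage continuous_fst).inter
    (isOpen_lt (continuous_re.comp (continuous_fst.sub continuous_snd)) continuous_const)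

/-- the reduced integral `J = T / (c₁ exp ((1 + p) (om - ζ)))` -/
def JZ (p : ℝ) (c₁ : ℂ) (κ Y : ℂ → ℂ) (x : ℂ × ℂ) : ℂ :=
  TZ κ Y x / (c₁ * cexp ((1 + p) * (x.1 - x.2)))

end Pool.Agent.MP_ae5b4e_an_AZ
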