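import Mathlib

/-! # AZ: the coordinate `v = - cot y`

`y = V_+ + arctan v`, `om = 1 + V_+ v + v arctan v - (1/2) log (1 + v²)`, `d om / d v = y`,
`exp om = (-1)^k sin y exp (1 - y cot y)`, `V_+ = (k + 1/2) π`.  The tip is the point `v = i`.
Sheet 1: `C1 = ℂ \ ± i [1, ∞)`.  Sheet 2: `C2 = ℂ \ i (-∞, 1]`; they are glued along `Re v > 0`.
-/

noncomputable section

namespace Pool.Agent.MP_ae5b4e_an_AZ

open Complex Set Filter Topology Metric

/-- `V_+ = (k + 1/2) π` -/
def Wk (k : ℕ) : ℝ := (k + 1 / 2) * Real.pi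

/-- `U_0 = log (e / 2)` -/
def U0 : ℝ := 1 - Real.log 2

/-- the plane without the cuts `± i [1, ∞)` -/
def C1 : Set ℂ := {v | 1 + v * I ∈ slitPlane ∧ 1 - v * I ∈ slitPlane}

/-- the plane without the cut `i (-∞, 1]` -/
def C2 : Set ℂ := {v | -(1 + v * I) ∈ slitPlane ∧ 1 - v * I ∈ slitPlane}

/-- `y` on sheet 1 -/
def y1 (k : ℕ) (v : ℂ) : ℂ := Wk k + (log (1 + v * I) - log (1 - v * I)) / (2 * I)

/-- `om` on sheet 1 -/
def om1 (k : ℕ) (v : ℂ) : ℂ :=
  1 + Wk k * v - ((1 + v * I) * log (1 + v * I) + (1 - v * I) * log (1 - v * I)) / 2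

/-- `y` on sheet 2 -/
def y2 (k : ℕ) (v : ℂ) : ℂ :=
  Wk k + (log (-(1 + v * I)) + Real.pi * I - log (1 - v * I)) / (2 * I)

/-- `om` on sheet 2 -/
def om2 (k : ℕ) (v : ℂ) : ℂ :=
  1 + Wk k * v -
    ((1 + v * I) * (log (-(1 + v * I)) + Real.pi * I) + (1 - v * I) * log (1 - v * I)) / 2

/-- the real part of `om` at the point `i s` of the cut -/
def Uc (s : ℝ) : ℝ := 1 - ((1 - s) * Real.log (1 - s) + (1 + s) * Real.log (1 + s)) / 2

theorem isOpen_C1 : IsOpen C1 :=
  (isOpen_slitPlane.preimage (by fun_prop : Continuous fun v : ℂ => 1 + v * I)).inter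
    (isOpen_slitPlane.preimage (by fun_prop : Continuous fun v : ℂ => 1 - v * I))

theorem isOpen_C2 : IsOpen C2 :=
  (isOpen_slitPlane.preimage (by fun_prop : Continuous fun v : ℂ => -(1 + v * I))).inter
    (isOpen_slitPlane.preimage (by fun_prop : Continuous fun v : ℂ => 1 - v * I))

theorem mem_C1_iff {v : ℂ} : v ∈ C1 ↔ (v.re ≠ 0 ∨ |v.im| < 1) := by
  unfold C1
  simp only [mem_ofPred_eq, mem_slitPlane_iff, add_re, one_re, mul_re, I_re, mul_zero, I_im, mul_one,
    zero_sub, add_im, one_im, mul_im, zero_add, add_zero, sub_re, sub_neg_eq_add, sub_im, ne_eq,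
    neg_eq_zero, abs_lt]
  constructor
  · rintro ⟨h1, h2⟩
    by_cases h : v.re = 0
    · right
      simp only [h, not_true_eq_false, or_false] at h1 h2
      constructor <;> linarith
    · exact Or.inl h
  · rintro (h | ⟨h1, h2⟩)
    · exact ⟨Or.inr h, Or.inr (by simpa using h)⟩
    · exact ⟨Or.inl (by linarith), Or.inl (by linarith)⟩

theorem mem_C2_iff {v : ℂ} : v ∈ C2 ↔ (v.re ≠ 0 ∨ 1 < v.im) := by
  unfold C2
  simp only [mem_ofPred_eq, mem_slitPlane_iff, neg_add_rev, add_re, neg_re, mul_re, I_re, mul_zero,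
    I_im, mul_one, zero_sub, neg_neg, one_re, add_im, neg_im, mul_im, add_zero, one_im, neg_zero,
    ne_eq, neg_eq_zero, sub_re, sub_neg_eq_add, sub_im]
  constructor
  · rintro ⟨h1, h2⟩
    by_cases h : v.re = 0
    · right
      simp only [h, not_true_eq_false, or_false] at h1 h2
      linarith
    · exact Or.inl h
  · rintro (h | h1)
    · exact ⟨Or.inr h, Or.inr (by simpa using h)⟩
    · exact ⟨Or.inl (by linarith), Or.inl (by linarith)⟩

theorem hasDerivAt_om1 (k : ℕ) {v : ℂ} (hv : v ∈ C1) : HasDerivAt (om1 k) (y1 k v) v := by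
  have hp : HasDerivAt (fun v : ℂ => 1 + v * I) I v := by
    simpa using ((hasDerivAt_id v).mul_const I).const_add 1
  have hm : HasDerivAt (fun v : ℂ => 1 - v * I) (-I) v := by
    simpa using ((hasDerivAt_id v).mul_const I).const_sub 1
  have h1 := hp.mul (hp.clog hv.1)
  have h2 := hm.mul (hm.clog hv.2)
  have h3 : HasDerivAt (fun v : ℂ => 1 + (Wk k : ℂ) * v) (Wk k) v := by
    simpa using ((hasDerivAt_id v).const_mul (Wk k : ℂ)).const_add 1
  have h4 := h3.sub ((h1.add h2).div_const 2)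
  have e1 : 1 + v * I ≠ 0 := slitPlane_ne_zero hv.1
  have e2 : 1 - v * I ≠ 0 := slitPlane_ne_zero hv.2
  refine h4.congr_deriv ?_
  unfold y1
  have hI : (I : ℂ) ≠ 0 := I_ne_zero
  have e3 : (log (1 + v * I) - log (1 - v * I)) / (2 * I) =
      -(log (1 + v * I) - log (1 - v * I)) * I / 2 := by
    rw [div_eq_iff (mul_ne_zero two_ne_zero hI)]
    linear_combination (log (1 + v * I) - log (1 - v * I)) * I_sq
  rw [e3]
  have e4 : (1 + v * I) * (I / (1 + v * I)) = I := by field_simp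
  have e7 : (1 - v * I) * (-I / (1 - v * I)) = -I := by field_simp
  rw [e4, e7]
  ring

theorem hasDerivAt_y1 (k : ℕ) {v : ℂ} (hv : v ∈ C1) : HasDerivAt (y1 k) (1 / (1 + v ^ 2)) v := by
  have hp : HasDerivAt (fun v : ℂ => 1 + v * I) I v := by
    simpa using ((hasDerivAt_id v).mul_const I).const_add 1
  have hm : HasDerivAt (fun v : ℂ => 1 - v * I) (-I) v := by
    simpa using ((hasDerivAt_id v).mul_const I).const_sub 1
  have h4 := (((hp.clog hv.1).sub (hm.clog hv.2)).div_const (2 * I)).const_add (Wk k : ℂ)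
  have e1 : 1 + v * I ≠ 0 := slitPlane_ne_zero hv.1
  have e2 : 1 - v * I ≠ 0 := slitPlane_ne_zero hv.2
  have hI : (I : ℂ) ≠ 0 := I_ne_zero
  have e0 : (1 + v ^ 2 : ℂ) = (1 + v * I) * (1 - v * I) := by linear_combination (v ^ 2) * I_sq
  refine h4.congr_deriv ?_
  rw [e0]
  have e8 : I / (1 + v * I) - -I / (1 - v * I) = 2 * I / ((1 + v * I) * (1 - v * I)) := by
    rw [div_sub_div _ _ e1 e2]
    congr 1
    ring
  rw [e8, div_div, mul_comm ((1 + v * I) * (1 - v * I)) (2 * I), ← div_div,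
    div_self (mul_ne_zero two_ne_zero hI)]

theorem hasDerivAt_om2 (k : ℕ) {v : ℂ} (hv : v ∈ C2) : HasDerivAt (om2 k) (y2 k v) v := by
  have hp : HasDerivAt (fun v : ℂ => 1 + v * I) I v := by
    simpa using ((hasDerivAt_id v).mul_const I).const_add 1
  have hm : HasDerivAt (fun v : ℂ => 1 - v * I) (-I) v := by
    simpa using ((hasDerivAt_id v).mul_const I).const_sub 1
  have h1 := hp.mul ((hp.neg.clog hv.1).add_const (Real.pi * I))
  have h2 := hm.mul (hm.clog hv.2)
  have h3 : HasDerivAt (fun v : ℂ => 1 + (Wk k : ℂ) * v) (Wk k) v := by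
    simpa using ((hasDerivAt_id v).const_mul (Wk k : ℂ)).const_add 1
  have h4 := h3.sub ((h1.add h2).div_const 2)
  have e1 : 1 + v * I ≠ 0 := by
    have := slitPlane_ne_zero hv.1
    intro h
    rw [h] at this
    simp at this
  have e2 : 1 - v * I ≠ 0 := slitPlane_ne_zero hv.2
  refine h4.congr_deriv ?_
  unfold y2
  have hI : (I : ℂ) ≠ 0 := I_ne_zero
  have e3 : (log (-(1 + v * I)) + Real.pi * I - log (1 - v * I)) / (2 * I) =
      -(log (-(1 + v * I)) + Real.pi * I - log (1 - v * I)) * I / 2 := by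
    rw [div_eq_iff (mul_ne_zero two_ne_zero hI)]
    linear_combination (log (-(1 + v * I)) + Real.pi * I - log (1 - v * I)) * I_sq
  rw [e3]
  have e5 : -(1 + v * I) ≠ 0 := neg_ne_zero.2 e1
  have e4 : (1 + v * I) * (-I / -(1 + v * I)) = I := by field_simp
  have e7 : (1 - v * I) * (-I / (1 - v * I)) = -I := by field_simp
  simp only [Pi.neg_apply]
  rw [e4, e7]
  ring

theorem hasDerivAt_y2 (k : ℕ) {v : ℂ} (hv : v ∈ C2) : HasDerivAt (y2 k) (1 / (1 + v ^ 2)) v := by
  have hp : HasDerivAt (fun v : ℂ => 1 + v * I) I v := by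
    simpa using ((hasDerivAt_id v).mul_const I).const_add 1
  have hm : HasDerivAt (fun v : ℂ => 1 - v * I) (-I) v := by
    simpa using ((hasDerivAt_id v).mul_const I).const_sub 1
  have h4 := ((((hp.neg.clog hv.1).add_const (Real.pi * I : ℂ)).sub (hm.clog hv.2)).div_const
    (2 * I)).const_add (Wk k : ℂ)
  have e1 : 1 + v * I ≠ 0 := by
    have := slitPlane_ne_zero hv.1
    intro h
    rw [h] at this
    simp at this
  have e2 : 1 - v * I ≠ 0 := slitPlane_ne_zero hv.2
  have hI : (I : ℂ) ≠ 0 := I_ne_zero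
  have e0 : (1 + v ^ 2 : ℂ) = (1 + v * I) * (1 - v * I) := by linear_combination (v ^ 2) * I_sq
  refine h4.congr_deriv ?_
  have e5 : -(1 + v * I) ≠ 0 := neg_ne_zero.2 e1
  rw [e0]
  simp only [Pi.neg_apply]
  have e6 : -I / -(1 + v * I) = I / (1 + v * I) := by rw [neg_div_neg_eq]
  rw [e6]
  have e8 : I / (1 + v * I) - -I / (1 - v * I) = 2 * I / ((1 + v * I) * (1 - v * I)) := by
    rw [div_sub_div _ _ e1 e2]
    congr 1
    ring
  rw [e8, div_div, mul_comm ((1 + v * I) * (1 - v * I)) (2 * I), ← div_div,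
    div_self (mul_ne_zero two_ne_zero hI)]

theorem log_neg_of_im_pos {x : ℂ} (hx : 0 < x.im) : log (-x) = log x - Real.pi * I := by
  apply Complex.ext
  · simp [log_re]
  · simp [log_im, arg_neg_eq_arg_sub_pi_of_im_pos hx]

theorem log_neg_of_im_neg {x : ℂ} (hx : x.im < 0) : log (-x) = log x + Real.pi * I := by
  apply Complex.ext
  · simp [log_re]
  · simp [log_im, arg_neg_eq_arg_add_pi_of_im_neg hx]

/-- the two sheets agree for `Re v > 0` -/
theorem y2_eq_of_pos (k : ℕ) {v : ℂ} (hv : 0 < v.re) : y2 k v = y1 k v ∧ om2 k v = om1 k v := by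
  have h1 : 0 < (1 + v * I).im := by simpa using hv
  have h2 : log (-(1 + v * I)) = log (1 + v * I) - Real.pi * I := log_neg_of_im_pos h1
  constructor
  · unfold y2 y1
    rw [h2]
    ring
  · unfold om2 om1
    rw [h2]
    ring

/-- the two sheets for `Re v < 0` -/
theorem y2_eq_of_neg (k : ℕ) {v : ℂ} (hv : v.re < 0) :
    y2 k v = y1 k v + Real.pi ∧ om2 k v = om1 k v + Real.pi * (v - I) := by
  have h1 : (1 + v * I).im < 0 := by simpa using hv
  have h2 : log (-(1 + v * I)) = log (1 + v * I) + Real.pi * I := log_neg_of_im_neg h1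
  have hI : (I : ℂ) ≠ 0 := I_ne_zero
  constructor
  · unfold y2 y1
    rw [h2]
    field_simp
    ring
  · unfold om2 om1
    rw [h2]
    linear_combination (-(Real.pi : ℂ) * v) * I_sq

end Pool.Agent.MP_ae5b4e_an_AZ
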