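import Pool.Agent.Lib.MP_ae5b4e_an_AZ.V1

/-! # AZ: identities and signs on the two sheets -/

noncomputable section

namespace Pool.Agent.MP_ae5b4e_an_AZ

open Complex Set Filter Topology Metric

theorem exp_Wk (k : ℕ) : cexp ((Wk k : ℂ) * I) = (-1) ^ k * I := by
  have e1 : ((Wk k : ℂ) * I) = k * (Real.pi * I) + Real.pi / 2 * I := by
    unfold Wk
    push_cast
    ring
  rw [e1, Complex.exp_add, Complex.exp_nat_mul, Complex.exp_pi_mul_I, Complex.exp_pi_div_two_mul_I]

/-- the algebra behind both sheets -/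
theorem sheet_alg (k : ℕ) {v Lp Lm : ℂ} (hp : cexp Lp = 1 + v * I) (hm : cexp Lm = 1 - v * I) :
    sin (Wk k + (Lp - Lm) / (2 * I)) = (-1) ^ k * cexp (-((Lp + Lm) / 2)) ∧
    cos (Wk k + (Lp - Lm) / (2 * I)) = -(v * sin (Wk k + (Lp - Lm) / (2 * I))) ∧
    1 + Wk k * v - ((1 + v * I) * Lp + (1 - v * I) * Lm) / 2 =
      1 + (Wk k + (Lp - Lm) / (2 * I)) * v - (Lp + Lm) / 2 := by
  have hI : (I : ℂ) ≠ 0 := I_ne_zero
  set y : ℂ := Wk k + (Lp - Lm) / (2 * I) with hy
  have hyI : y * I = Wk k * I + (Lp - Lm) / 2 := by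
    rw [hy]
    field_simp
  have hsq : ((-1 : ℂ) ^ k) * (-1) ^ k = 1 := by
    rw [← mul_pow]
    norm_num
  set E : ℂ := cexp (-((Lp + Lm) / 2)) with hE
  have h1 : cexp (y * I) = (-1) ^ k * I * (E * (1 + v * I)) := by
    rw [hyI, Complex.exp_add, exp_Wk, ← hp, hE, ← Complex.exp_add]
    congr 2
    ring
  have h2 : cexp (-(y * I)) = -((-1) ^ k * I * (E * (1 - v * I))) := by
    have e0 : E * (1 + v * I) * (E * (1 - v * I)) = 1 := by
      rw [← hm, ← hp, hE, ← Complex.exp_add, ← Complex.exp_add, ← Complex.exp_add]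
      have : -((Lp + Lm) / 2) + Lp + (-((Lp + Lm) / 2) + Lm) = 0 := by ring
      rw [this, Complex.exp_zero]
    apply mul_left_cancel₀ (Complex.exp_ne_zero (y * I))
    rw [← Complex.exp_add, add_neg_cancel, Complex.exp_zero, h1]
    linear_combination (((-1 : ℂ)) ^ k * (-1) ^ k * I ^ 2) * e0 + (I ^ 2) * hsq + I_sq
  have hs : sin y = (-1) ^ k * E := by
    rw [Complex.sin, neg_mul, h1, h2]
    linear_combination (-((-1 : ℂ) ^ k) * E) * I_sq
  refine ⟨hs, ?_, ?_⟩
  · rw [hs, Complex.cos, neg_mul, h1, h2]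
    linear_combination ((-1 : ℂ) ^ k * E * v) * I_sq
  · rw [hy]
    field_simp
    ring_nf
    rw [I_sq]
    ring

theorem exp_log_p1 {v : ℂ} (hv : v ∈ C1) : cexp (log (1 + v * I)) = 1 + v * I :=
  Complex.exp_log (slitPlane_ne_zero hv.1)

theorem exp_log_m1 {v : ℂ} (hv : v ∈ C1) : cexp (log (1 - v * I)) = 1 - v * I :=
  Complex.exp_log (slitPlane_ne_zero hv.2)

theorem ne_p2 {v : ℂ} (hv : v ∈ C2) : 1 + v * I ≠ 0 := by
  have h := slitPlane_ne_zero hv.1
  intro h0
  rw [h0] at h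
  simp at h

theorem exp_log_p2 {v : ℂ} (hv : v ∈ C2) :
    cexp (log (-(1 + v * I)) + Real.pi * I) = 1 + v * I := by
  rw [Complex.exp_add, Complex.exp_pi_mul_I, Complex.exp_log (slitPlane_ne_zero hv.1)]
  ring

theorem exp_log_m2 {v : ℂ} (hv : v ∈ C2) : cexp (log (1 - v * I)) = 1 - v * I :=
  Complex.exp_log (slitPlane_ne_zero hv.2)

/-- consequences of `sheet_alg` -/
theorem sheet_alg2 (k : ℕ) {v Lp Lm : ℂ} (hp : cexp Lp = 1 + v * I) (hm : cexp Lm = 1 - v * I) :
    sin (Wk k + (Lp - Lm) / (2 * I)) ≠ 0 ∧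
    sin (Wk k + (Lp - Lm) / (2 * I)) ^ 2 = 1 / (1 + v ^ 2) ∧
    cexp (1 + Wk k * v - ((1 + v * I) * Lp + (1 - v * I) * Lm) / 2) =
      (-1) ^ k * sin (Wk k + (Lp - Lm) / (2 * I)) *
        cexp (1 + (Wk k + (Lp - Lm) / (2 * I)) * v) := by
  obtain ⟨h1, -, h3⟩ := sheet_alg k hp hm
  have hsq : ((-1 : ℂ) ^ k) * (-1) ^ k = 1 := by
    rw [← mul_pow]
    norm_num
  refine ⟨?_, ?_, ?_⟩
  · rw [h1]
    exact mul_ne_zero (pow_ne_zero _ (by norm_num)) (Complex.exp_ne_zero _)
  · rw [h1, mul_pow, ← pow_mul, mul_comm k 2, pow_mul, neg_one_sq, one_pow, one_mul,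
      ← Complex.exp_nat_mul]
    have e1 : ((2 : ℕ) : ℂ) * -((Lp + Lm) / 2) = -(Lp + Lm) := by
      push_cast
      ring
    rw [e1, Complex.exp_neg, Complex.exp_add, hp, hm, one_div]
    congr 1
    linear_combination (-v ^ 2) * I_sq
  · rw [h3, h1]
    have e1 : 1 + (Wk k + (Lp - Lm) / (2 * I)) * v - (Lp + Lm) / 2 =
        -((Lp + Lm) / 2) + (1 + (Wk k + (Lp - Lm) / (2 * I)) * v) := by ring
    rw [e1, Complex.exp_add]
    linear_combination (-(cexp (-((Lp + Lm) / 2)) *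
      cexp (1 + (Wk k + (Lp - Lm) / (2 * I)) * v))) * hsq

/-- **Trigonometric identities on sheet 1.** -/
theorem trig1 (k : ℕ) {v : ℂ} (hv : v ∈ C1) :
    sin (y1 k v) ≠ 0 ∧ cos (y1 k v) = -(v * sin (y1 k v)) ∧
    sin (y1 k v) ^ 2 = 1 / (1 + v ^ 2) ∧
    cexp (om1 k v) = (-1) ^ k * sin (y1 k v) * cexp (1 + y1 k v * v) ∧
    om1 k v = 1 + y1 k v * v - (log (1 + v * I) + log (1 - v * I)) / 2 := by
  have hp := exp_log_p1 hv
  have hm := exp_log_m1 hv
  have h1 := sheet_alg k hp hm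
  have h2 := sheet_alg2 k hp hm
  exact ⟨h2.1, h1.2.1, h2.2.1, h2.2.2, h1.2.2⟩

/-- **Trigonometric identities on sheet 2.** -/
theorem trig2 (k : ℕ) {v : ℂ} (hv : v ∈ C2) :
    sin (y2 k v) ≠ 0 ∧ cos (y2 k v) = -(v * sin (y2 k v)) ∧
    sin (y2 k v) ^ 2 = 1 / (1 + v ^ 2) ∧
    cexp (om2 k v) = (-1) ^ k * sin (y2 k v) * cexp (1 + y2 k v * v) ∧
    om2 k v = 1 + y2 k v * v - (log (-(1 + v * I)) + Real.pi * I + log (1 - v * I)) / 2 := by
  have hp := exp_log_p2 hv
  have hm := exp_log_m2 hv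
  have h1 := sheet_alg k hp hm
  have h2 := sheet_alg2 k hp hm
  exact ⟨h2.1, h1.2.1, h2.2.1, h2.2.2, h1.2.2⟩

theorem re_div_2I (z : ℂ) : (z / (2 * I)).re = z.im / 2 := by
  have e : z / (2 * I) = -(z * I) / 2 := by
    rw [div_eq_iff (mul_ne_zero two_ne_zero I_ne_zero)]
    linear_combination z * I_sq
  rw [e]
  simp

theorem im_div_2I (z : ℂ) : (z / (2 * I)).im = -z.re / 2 := by
  have e : z / (2 * I) = -(z * I) / 2 := by
    rw [div_eq_iff (mul_ne_zero two_ne_zero I_ne_zero)]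
    linear_combination z * I_sq
  rw [e]
  simp

theorem re_y1 (k : ℕ) (v : ℂ) :
    (y1 k v).re = Wk k + (arg (1 + v * I) - arg (1 - v * I)) / 2 := by
  unfold y1
  rw [add_re, ofReal_re, re_div_2I, sub_im, log_im, log_im]

theorem im_y1 (k : ℕ) (v : ℂ) :
    (y1 k v).im = (Real.log ‖1 - v * I‖ - Real.log ‖1 + v * I‖) / 2 := by
  unfold y1
  rw [add_im, ofReal_im, im_div_2I, sub_re, log_re, log_re]
  ring

theorem im_y2 (k : ℕ) (v : ℂ) :
    (y2 k v).im = (Real.log ‖1 - v * I‖ - Real.log ‖1 + v * I‖) / 2 := by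
  unfold y2
  rw [add_im, ofReal_im, im_div_2I, sub_re, add_re, log_re, log_re, norm_neg]
  simp

/-- the angle between `1 + i v` and `1 - i v` -/
theorem arg_diff {v : ℂ} :
    (0 < v.re → 0 < arg (1 + v * I) - arg (1 - v * I) ∧
      arg (1 + v * I) - arg (1 - v * I) < Real.pi) ∧
    (v.re < 0 → arg (1 + v * I) - arg (1 - v * I) < 0 ∧
      -Real.pi < arg (1 + v * I) - arg (1 - v * I)) := by
  have hsin : v.re ≠ 0 → Real.sin (arg (1 + v * I) - arg (1 - v * I)) =
      2 * v.re / (‖1 + v * I‖ * ‖1 - v * I‖) := by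
    intro hx
    have e1 : 1 + v * I ≠ 0 := by
      intro h
      have := congrArg Complex.im h
      simp at this
      exact hx this
    have e2 : 1 - v * I ≠ 0 := by
      intro h
      have := congrArg Complex.im h
      simp at this
      exact hx this
    rw [Real.sin_sub, sin_arg, sin_arg, cos_arg e1, cos_arg e2]
    have n1 : ‖1 + v * I‖ ≠ 0 := norm_ne_zero_iff.2 e1
    have n2 : ‖1 - v * I‖ ≠ 0 := norm_ne_zero_iff.2 e2
    simp only [add_im, one_im, mul_im, I_im, mul_one, I_re, mul_zero, add_zero, zero_add, sub_re,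
      one_re, mul_re, zero_sub, sub_neg_eq_add, add_re, sub_im]
    field_simp
    ring
  constructor
  · intro hx
    have h1 : 0 < arg (1 + v * I) := by
      rcases lt_trichotomy (arg (1 + v * I)) 0 with h | h | h
      · have := arg_neg_iff.1 h
        simp at this
        linarith
      · have := (arg_eq_zero_iff.1 h).2
        simp at this
        linarith
      · exact h
    have h2 : arg (1 - v * I) < 0 := by
      rw [arg_neg_iff]
      simpa using hx
    have h3 := arg_le_pi (1 + v * I)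
    have h4 := neg_pi_lt_arg (1 - v * I)
    refine ⟨by linarith, ?_⟩
    by_contra hcon
    push Not at hcon
    have h5 := hsin hx.ne'
    have h6 : Real.sin (arg (1 + v * I) - arg (1 - v * I)) ≤ 0 := by
      have : Real.sin (arg (1 + v * I) - arg (1 - v * I) - 2 * Real.pi) ≤ 0 :=
        Real.sin_nonpos_of_nonpos_of_neg_pi_le (by linarith) (by linarith)
      rwa [Real.sin_sub_two_pi] at this
    have n1 : 0 < ‖1 + v * I‖ := norm_pos_iff.2 (by
      intro h
      rw [h] at h1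
      simp at h1)
    have n2 : 0 < ‖1 - v * I‖ := norm_pos_iff.2 (by
      intro h
      rw [h] at h2
      simp at h2)
    have h7 : 0 < 2 * v.re / (‖1 + v * I‖ * ‖1 - v * I‖) := by positivity
    linarith
  · intro hx
    have h1 : arg (1 + v * I) < 0 := by
      rw [arg_neg_iff]
      simpa using hx
    have h2 : 0 < arg (1 - v * I) := by
      rcases lt_trichotomy (arg (1 - v * I)) 0 with h | h | h
      · have := arg_neg_iff.1 h
        simp at this
        linarith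
      · have := (arg_eq_zero_iff.1 h).2
        simp at this
        linarith
      · exact h
    have h3 := arg_le_pi (1 - v * I)
    have h4 := neg_pi_lt_arg (1 + v * I)
    refine ⟨by linarith, ?_⟩
    by_contra hcon
    push Not at hcon
    have h5 := hsin hx.ne
    have h6 : 0 ≤ Real.sin (arg (1 + v * I) - arg (1 - v * I)) := by
      have : 0 ≤ Real.sin (arg (1 + v * I) - arg (1 - v * I) + 2 * Real.pi) :=
        Real.sin_nonneg_of_nonneg_of_le_pi (by linarith) (by linarith)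
      rwa [Real.sin_add_two_pi] at this
    have n1 : 0 < ‖1 + v * I‖ := norm_pos_iff.2 (by
      intro h
      rw [h] at h1
      simp at h1)
    have n2 : 0 < ‖1 - v * I‖ := norm_pos_iff.2 (by
      intro h
      rw [h] at h2
      simp at h2)
    have h7 : 2 * v.re / (‖1 + v * I‖ * ‖1 - v * I‖) < 0 :=
      div_neg_of_neg_of_pos (by linarith) (by positivity)
    linarith

/-- `Re y` on sheet 1 -/
theorem re_y1_mem (k : ℕ) {v : ℂ} (hv : v ∈ C1) :
    Wk k - Real.pi / 2 < (y1 k v).re ∧ (y1 k v).re < Wk k + Real.pi / 2 := by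
  rw [re_y1]
  have hpi := Real.pi_pos
  rcases lt_trichotomy v.re 0 with h | h | h
  · obtain ⟨h1, h2⟩ := arg_diff.2 h
    constructor <;> linarith
  · have hs : |v.im| < 1 := by
      rcases mem_C1_iff.1 hv with h' | h'
      · exact absurd h h'
      · exact h'
    rw [abs_lt] at hs
    have h1 : arg (1 + v * I) = 0 := by
      rw [arg_eq_zero_iff]
      simp [h]
      linarith
    have h2 : arg (1 - v * I) = 0 := by
      rw [arg_eq_zero_iff]
      simp [h]
      linarith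
    rw [h1, h2]
    constructor <;> linarith
  · obtain ⟨h1, h2⟩ := arg_diff.1 h
    constructor <;> linarith

/-- `Re y` on sheet 2 -/
theorem re_y2_mem (k : ℕ) {v : ℂ} (hv : v ∈ C2) :
    Wk k < (y2 k v).re ∧ (y2 k v).re < Wk k + Real.pi := by
  have hpi := Real.pi_pos
  rcases lt_trichotomy v.re 0 with h | h | h
  · rw [(y2_eq_of_neg k h).1, add_re, ofReal_re, re_y1]
    obtain ⟨h1, h2⟩ := arg_diff.2 h
    constructor <;> linarith
  · have hs : 1 < v.im := by
      rcases mem_C2_iff.1 hv with h' | h'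
      · exact absurd h h'
      · exact h'
    unfold y2
    rw [add_re, ofReal_re, re_div_2I, sub_im, add_im, log_im, log_im]
    have h1 : arg (-(1 + v * I)) = 0 := by
      rw [arg_eq_zero_iff]
      simp [h]
      linarith
    have h2 : arg (1 - v * I) = 0 := by
      rw [arg_eq_zero_iff]
      simp [h]
      linarith
    rw [h1, h2]
    have h3 : ((Real.pi : ℂ) * I).im = Real.pi := by simp
    rw [h3]
    constructor <;> linarith
  · rw [(y2_eq_of_pos k h).1, re_y1]
    obtain ⟨h1, h2⟩ := arg_diff.1 h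
    constructor <;> linarith

theorem norm_lt_iff (v : ℂ) : ‖1 + v * I‖ < ‖1 - v * I‖ ↔ 0 < v.im := by
  have h1 : ‖1 + v * I‖ ^ 2 = (1 - v.im) ^ 2 + v.re ^ 2 := by
    rw [← normSq_eq_norm_sq, normSq_apply]
    simp
    ring
  have h2 : ‖1 - v * I‖ ^ 2 = (1 + v.im) ^ 2 + v.re ^ 2 := by
    rw [← normSq_eq_norm_sq, normSq_apply]
    simp
    ring
  have h3 := norm_nonneg (1 + v * I)
  have h4 := norm_nonneg (1 - v * I)
  constructor
  · intro h
    nlinarith
  · intro h
    by_contra hcon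
    push Not at hcon
    nlinarith

theorem norm_p_pos {v : ℂ} (hv : v ∈ C1 ∨ v ∈ C2) : 0 < ‖1 + v * I‖ := by
  rcases hv with hv | hv
  · exact norm_pos_iff.2 (slitPlane_ne_zero hv.1)
  · exact norm_pos_iff.2 (ne_p2 hv)

theorem norm_m_pos {v : ℂ} (hv : v ∈ C1 ∨ v ∈ C2) : 0 < ‖1 - v * I‖ := by
  rcases hv with hv | hv
  · exact norm_pos_iff.2 (slitPlane_ne_zero hv.2)
  · exact norm_pos_iff.2 (slitPlane_ne_zero hv.2)

theorem im_y1_pos (k : ℕ) {v : ℂ} (hv : v ∈ C1) (h : 0 < v.im) : 0 < (y1 k v).im := by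
  rw [im_y1]
  have := Real.log_lt_log (norm_p_pos (Or.inl hv)) ((norm_lt_iff v).2 h)
  linarith

theorem im_y2_pos (k : ℕ) {v : ℂ} (hv : v ∈ C2) (h : 0 < v.im) : 0 < (y2 k v).im := by
  rw [im_y2]
  have := Real.log_lt_log (norm_p_pos (Or.inr hv)) ((norm_lt_iff v).2 h)
  linarith

theorem im_y1_nonneg (k : ℕ) {v : ℂ} (hv : v ∈ C1) (h : 0 ≤ v.im) : 0 ≤ (y1 k v).im := by
  rw [im_y1]
  have h1 : ‖1 + v * I‖ ≤ ‖1 - v * I‖ := by
    rcases h.lt_or_eq with h | h
    · exact ((norm_lt_iff v).2 h).le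
    · have h3 : ‖1 + v * I‖ ^ 2 = ‖1 - v * I‖ ^ 2 := by
        rw [← normSq_eq_norm_sq, normSq_apply, ← normSq_eq_norm_sq, normSq_apply]
        simp [← h]
      nlinarith [norm_nonneg (1 + v * I), norm_nonneg (1 - v * I)]
  have := Real.log_le_log (norm_p_pos (Or.inl hv)) h1
  linarith

end Pool.Agent.MP_ae5b4e_an_AZ
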