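import Pool.Agent.Lib.MP_ae5b4e_an_AZ.V2

/-! # AZ: the function `Uc` -/

noncomputable section

namespace Pool.Agent.MP_ae5b4e_an_AZ

open Complex Set Filter Topology Metric

private theorem V3c_cont : Continuous Uc := by
  have h1 : Continuous fun s : ℝ => (1 - s) * Real.log (1 - s) :=
    Real.continuous_mul_log.comp (continuous_const.sub continuous_id)
  have h2 : Continuous fun s : ℝ => (1 + s) * Real.log (1 + s) :=
    Real.continuous_mul_log.comp (continuous_const.add continuous_id)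
  exact continuous_const.sub ((h1.add h2).div_const 2)

private theorem V3c_deriv {s : ℝ} (h1 : 1 - s ≠ 0) (h2 : 1 + s ≠ 0) :
    HasDerivAt Uc (-((Real.log (1 + s) - Real.log (1 - s)) / 2)) s := by
  have e1 : HasDerivAt (fun s : ℝ => 1 - s) (-1) s := (hasDerivAt_id s).const_sub 1
  have e2 : HasDerivAt (fun s : ℝ => 1 + s) 1 s := (hasDerivAt_id s).const_add 1
  have d1 : HasDerivAt (fun s : ℝ => (1 - s) * Real.log (1 - s))
      ((Real.log (1 - s) + 1) * (-1)) s :=
    HasDerivAt.comp (h₂ := fun x : ℝ => x * Real.log x) (h := fun s : ℝ => 1 - s) s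
      (Real.hasDerivAt_mul_log h1) e1
  have d2 : HasDerivAt (fun s : ℝ => (1 + s) * Real.log (1 + s))
      ((Real.log (1 + s) + 1) * 1) s :=
    HasDerivAt.comp (h₂ := fun x : ℝ => x * Real.log x) (h := fun s : ℝ => 1 + s) s
      (Real.hasDerivAt_mul_log h2) e2
  have d3 := ((d1.add d2).div_const 2).const_sub 1
  refine d3.congr_deriv ?_
  ring

private theorem V3c_one : Uc 1 = U0 := by
  unfold Uc U0
  norm_num

private theorem V3c_zero : Uc 0 = 1 := by
  unfold Uc
  norm_num

private theorem V3c_anti1 : AntitoneOn Uc (Icc 0 1) := by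
  refine antitoneOn_of_deriv_nonpos (convex_Icc 0 1) V3c_cont.continuousOn ?_ ?_
  · intro s hs
    rw [interior_Icc] at hs
    have h := V3c_deriv (s := s) (by linarith [hs.2]) (by linarith [hs.1])
    exact h.differentiableAt.differentiableWithinAt
  · intro s hs
    rw [interior_Icc] at hs
    rw [(V3c_deriv (by linarith [hs.2]) (by linarith [hs.1])).deriv]
    have : Real.log (1 - s) ≤ Real.log (1 + s) :=
      Real.log_le_log (by linarith [hs.2]) (by linarith [hs.1])
    linarith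

private theorem V3c_anti2 : AntitoneOn Uc (Ici 1) := by
  refine antitoneOn_of_deriv_nonpos (convex_Ici 1) V3c_cont.continuousOn ?_ ?_
  · intro s hs
    rw [interior_Ici] at hs
    have hs' : 1 < s := hs
    exact (V3c_deriv (by linarith) (by linarith)).differentiableAt.differentiableWithinAt
  · intro s hs
    rw [interior_Ici] at hs
    have hs' : 1 < s := hs
    rw [(V3c_deriv (by linarith) (by linarith)).deriv]
    have h0 : Real.log (1 - s) = Real.log (s - 1) := by
      rw [← Real.log_neg_eq_log, neg_sub]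
    have : Real.log (s - 1) ≤ Real.log (1 + s) :=
      Real.log_le_log (by linarith) (by linarith)
    linarith

private theorem V3c_santi1 : StrictAntiOn Uc (Icc 0 1) := by
  refine strictAntiOn_of_deriv_neg (convex_Icc 0 1) V3c_cont.continuousOn ?_
  intro s hs
  rw [interior_Icc] at hs
  rw [(V3c_deriv (by linarith [hs.2]) (by linarith [hs.1])).deriv]
  have : Real.log (1 - s) < Real.log (1 + s) :=
    Real.log_lt_log (by linarith [hs.2]) (by linarith [hs.1])
  linarith

private theorem V3c_santi2 : StrictAntiOn Uc (Ici 1) := by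
  refine strictAntiOn_of_deriv_neg (convex_Ici 1) V3c_cont.continuousOn ?_
  intro s hs
  rw [interior_Ici] at hs
  have hs' : 1 < s := hs
  rw [(V3c_deriv (by linarith) (by linarith)).deriv]
  have h0 : Real.log (1 - s) = Real.log (s - 1) := by
    rw [← Real.log_neg_eq_log, neg_sub]
  have : Real.log (s - 1) < Real.log (1 + s) :=
    Real.log_lt_log (by linarith) (by linarith)
  linarith

/-- Proof. `f s := (1 - s) log (1 - s) + (1 + s) log (1 + s)` (even, `Real.log` of the absolute value);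
for `s ≥ 1`: `f s = (1 + s) log (1 + s) - (s - 1) log (s - 1) ≥ f 1 = 2 log 2`: monotone on `[1, ∞)`
(continuous, derivative `log (1 + s) - log (s - 1) > 0` for `s > 1`). -/
theorem Uc_le (s : ℝ) (hs : 1 ≤ s) : Uc s ≤ U0 := by
  rw [← V3c_one]
  exact V3c_anti2 (mem_Ici.2 le_rfl) (mem_Ici.2 hs) hs

/-- Proof. For `0 ≤ s ≤ 1`: `f` of `Uc_le` is monotone on `[0, 1]` (derivative
`log (1 + s) - log (1 - s) ≥ 0`), `f 0 = 0`, `f 1 = 2 log 2`; even. -/
theorem Uc_mem (s : ℝ) (hs : |s| ≤ 1) : U0 ≤ Uc s ∧ Uc s ≤ 1 := by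
  have h0 : Uc s = Uc |s| := by
    rcases abs_cases s with ⟨h, -⟩ | ⟨h, -⟩
    · rw [h]
    · rw [h]
      unfold Uc
      rw [sub_neg_eq_add, ← sub_eq_add_neg]
      ring
  rw [h0]
  constructor
  · rw [← V3c_one]
    exact V3c_anti1 ⟨abs_nonneg s, hs⟩ ⟨zero_le_one, le_rfl⟩ hs
  · rw [← V3c_zero]
    exact V3c_anti1 ⟨le_rfl, zero_le_one⟩ ⟨abs_nonneg s, hs⟩ (abs_nonneg s)

theorem Uc_neg (s : ℝ) : Uc (-s) = Uc s := by
  unfold Uc
  rw [sub_neg_eq_add, ← sub_eq_add_neg]
  ring

/-- `Uc` is monotone on `[1, ∞)`. -/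
theorem Uc_anti : AntitoneOn Uc (Ici 1) := V3c_anti2

/-- The strict form of `Uc_le`. -/
theorem Uc_lt (s : ℝ) (hs : 1 < s) : Uc s < U0 := by
  rw [← V3c_one]
  exact V3c_santi2 (mem_Ici.2 le_rfl) (mem_Ici.2 hs.le) hs

/-- The strict form of `Uc_mem`. -/
theorem Uc_gt (s : ℝ) (hs : |s| < 1) : U0 < Uc s := by
  have h0 : Uc s = Uc |s| := by
    rcases abs_cases s with ⟨h, -⟩ | ⟨h, -⟩
    · rw [h]
    · rw [h, Uc_neg]
  rw [h0, ← V3c_one]
  exact V3c_santi1 ⟨abs_nonneg s, hs.le⟩ ⟨zero_le_one, le_rfl⟩ hs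

end Pool.Agent.MP_ae5b4e_an_AZ
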