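import Pool.Agent.Lib.MP_ae5b4e_an_AZ.V2

/-! # AZ: symmetry and growth -/

noncomputable section

namespace Pool.Agent.MP_ae5b4e_an_AZ

open Complex Set Filter Topology Metric

/-- Proof. `log_conj` in the slit plane; `1 + conj v * I = conj (1 - v * I)`. -/
theorem om1_conj (k : ℕ) {v : ℂ} (hv : v ∈ C1) :
    om1 k ((starRingEnd ℂ) v) = (starRingEnd ℂ) (om1 k v) := by
  have h1 : 1 + (starRingEnd ℂ) v * I = (starRingEnd ℂ) (1 - v * I) := by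
    simp
  have h2 : 1 - (starRingEnd ℂ) v * I = (starRingEnd ℂ) (1 + v * I) := by
    simp [sub_eq_add_neg]
  have a1 := (mem_slitPlane_iff_arg.1 hv.1).1
  have a2 := (mem_slitPlane_iff_arg.1 hv.2).1
  unfold om1
  rw [h1, h2, log_conj _ a1, log_conj _ a2]
  simp only [map_sub, map_add, map_mul, map_div₀, map_one, conj_ofReal, map_ofNat]
  ring

theorem v3d_log_bound {u : ℂ} {r : ℝ} (h1 : 1 ≤ ‖u‖) (h2 : ‖u‖ ≤ 1 + r) :
    ‖log u‖ ≤ r + Real.pi := by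
  have h0 : 0 < ‖u‖ := by linarith
  have hl : 0 ≤ Real.log ‖u‖ := Real.log_nonneg h1
  have hl2 : Real.log ‖u‖ ≤ r := by
    have := Real.log_le_sub_one_of_pos h0
    linarith
  have h3 : ‖log u‖ ≤ |(log u).re| + |(log u).im| := Complex.norm_le_abs_re_add_abs_im _
  rw [log_re, log_im, abs_of_nonneg hl] at h3
  have h4 := abs_arg_le_pi u
  linarith

theorem v3d_norms {v : ℂ} (h2 : 2 ≤ ‖v‖) : (1 ≤ ‖1 + v * I‖ ∧ ‖1 + v * I‖ ≤ 1 + ‖v‖) ∧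
    (1 ≤ ‖1 - v * I‖ ∧ ‖1 - v * I‖ ≤ 1 + ‖v‖) := by
  have hv : ‖v * I‖ = ‖v‖ := by simp
  have h1 : ‖(1 : ℂ)‖ = 1 := norm_one
  refine ⟨⟨?_, ?_⟩, ?_, ?_⟩
  · have : ‖v * I‖ - ‖(1 : ℂ)‖ ≤ ‖1 + v * I‖ := by
      have := norm_sub_norm_le (v * I) (-(1 : ℂ))
      rw [norm_neg] at this
      have e : v * I - -1 = 1 + v * I := by ring
      rwa [e] at this
    linarith
  · have := norm_add_le (1 : ℂ) (v * I)
    linarith
  · have : ‖v * I‖ - ‖(1 : ℂ)‖ ≤ ‖1 - v * I‖ := by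
      have := norm_sub_norm_le (v * I) (1 : ℂ)
      rwa [norm_sub_rev (v * I) 1] at this
    linarith
  · have := norm_sub_le (1 : ℂ) (v * I)
    linarith

/-- the common estimate -/
theorem v3d_core {v y L : ℂ} {a : ℝ} (hy : 3 ≤ ‖y‖) (hL : ‖L‖ ≤ a) :
    3 * ‖v‖ - 1 - a ≤ ‖1 + y * v - L‖ := by
  have h1 : ‖y * v‖ ≤ ‖1 + y * v - L‖ + ‖L - 1‖ := by
    have := norm_add_le (1 + y * v - L) (L - 1)
    have e : 1 + y * v - L + (L - 1) = y * v := by ring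
    rwa [e] at this
  have h2 : ‖L - 1‖ ≤ a + 1 := by
    have := norm_sub_le L (1 : ℂ)
    rw [norm_one] at this
    linarith
  rw [norm_mul] at h1
  nlinarith [norm_nonneg v]

/-- Growth on sheet 1.

Proof. `trig1`: `om = 1 + y v - (Lp + Lm) / 2`. For `‖v‖ ≥ 2`: `1 ≤ ‖1 ± v I‖ ≤ 1 + ‖v‖`, so
`0 ≤ log ‖1 ± v I‖ ≤ ‖v‖` and `‖Lp‖, ‖Lm‖ ≤ ‖v‖ + π`; `‖y‖ ≥ Re y > k π ≥ 3` (`re_y1_mem`); so
`‖om‖ ≥ 3 ‖v‖ - 1 - (‖v‖ + π)`. -/
theorem norm_om1_ge {k : ℕ} (hk : 1 ≤ k) {v : ℂ} (hv : v ∈ C1) (h2 : 2 ≤ ‖v‖) :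
    2 * ‖v‖ - 5 ≤ ‖om1 k v‖ := by
  obtain ⟨⟨p1, p2⟩, m1, m2⟩ := v3d_norms h2
  have hy : 3 ≤ ‖y1 k v‖ := by
    have h3 := (re_y1_mem k hv).1
    have h4 : (y1 k v).re ≤ ‖y1 k v‖ := Complex.re_le_norm _
    have h5 : Real.pi ≤ Wk k - Real.pi / 2 := by
      unfold Wk
      have : (1 : ℝ) ≤ k := by exact_mod_cast hk
      nlinarith [Real.pi_pos]
    have := Real.pi_gt_three
    linarith
  have hL : ‖(log (1 + v * I) + log (1 - v * I)) / 2‖ ≤ ‖v‖ + Real.pi := by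
    rw [norm_div, Complex.norm_two]
    have := norm_add_le (log (1 + v * I)) (log (1 - v * I))
    have b1 := v3d_log_bound p1 p2
    have b2 := v3d_log_bound m1 m2
    linarith
  rw [(trig1 k hv).2.2.2.2]
  have := v3d_core (v := v) hy hL
  have := Real.pi_lt_four
  linarith

/-- Growth on sheet 2. Proof. As `norm_om1_ge`, with `‖log (-u) + π I‖ ≤ ‖v‖ + 2 π`. -/
theorem norm_om2_ge {k : ℕ} (hk : 1 ≤ k) {v : ℂ} (hv : v ∈ C2) (h2 : 2 ≤ ‖v‖) :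
    2 * ‖v‖ - 7 ≤ ‖om2 k v‖ := by
  obtain ⟨⟨p1, p2⟩, m1, m2⟩ := v3d_norms h2
  have hy : 3 ≤ ‖y2 k v‖ := by
    have h3 := (re_y2_mem k hv).1
    have h4 : (y2 k v).re ≤ ‖y2 k v‖ := Complex.re_le_norm _
    have h5 : Real.pi ≤ Wk k := by
      unfold Wk
      have : (1 : ℝ) ≤ k := by exact_mod_cast hk
      nlinarith [Real.pi_pos]
    have := Real.pi_gt_three
    linarith
  have hL : ‖(log (-(1 + v * I)) + Real.pi * I + log (1 - v * I)) / 2‖ ≤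
      ‖v‖ + 3 / 2 * Real.pi := by
    rw [norm_div, Complex.norm_two]
    have t1 := norm_add_le (log (-(1 + v * I)) + Real.pi * I) (log (1 - v * I))
    have t2 := norm_add_le (log (-(1 + v * I))) (Real.pi * I)
    have t3 : ‖(Real.pi : ℂ) * I‖ = Real.pi := by
      rw [norm_mul, norm_I, mul_one, Complex.norm_real, Real.norm_of_nonneg Real.pi_pos.le]
    rw [← norm_neg] at p1 p2
    have b1 := v3d_log_bound p1 p2
    have b2 := v3d_log_bound m1 m2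
    linarith
  rw [(trig2 k hv).2.2.2.2]
  have := v3d_core (v := v) hy hL
  have := Real.pi_lt_four
  linarith

end Pool.Agent.MP_ae5b4e_an_AZ
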