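import Pool.Agent.Lib.MP_ae5b4e_an_AZ.V3a
import Pool.Agent.Lib.MP_ae5b4e_an_AZ.V3d

/-! # AZ: monotonicity on sheet 1 -/

noncomputable section

namespace Pool.Agent.MP_ae5b4e_an_AZ

open Complex Set Filter Topology Metric

theorem v3e_om1_I (k : ℕ) {s : ℝ} (hs : |s| < 1) :
    om1 k (s * I) = (Uc s : ℂ) + Wk k * s * I := by
  obtain ⟨h1, h2⟩ := abs_lt.1 hs
  have e1 : (1 : ℂ) + s * I * I = ((1 - s : ℝ) : ℂ) := by
    rw [mul_assoc, I_mul_I]
    push_cast
    ring
  have e2 : (1 : ℂ) - s * I * I = ((1 + s : ℝ) : ℂ) := by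
    rw [mul_assoc, I_mul_I]
    push_cast
    ring
  unfold om1 Uc
  rw [e1, e2, ← ofReal_log (by linarith), ← ofReal_log (by linarith)]
  push_cast
  ring

/-- the derivative along horizontal lines -/
theorem v3e_horiz (k : ℕ) {x s : ℝ} (hv : (x : ℂ) + s * I ∈ C1) :
    HasDerivAt (fun x' : ℝ => om1 k ((x' : ℂ) + s * I)) (y1 k ((x : ℂ) + s * I)) x := by
  have h1 : HasDerivAt (fun z : ℂ => z + s * I) 1 (x : ℂ) := (hasDerivAt_id _).add_const _
  have h2 := (hasDerivAt_om1 k hv).comp (x : ℂ) h1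
  rw [mul_one] at h2
  exact h2.comp_ofReal

/-- the derivative along vertical lines -/
theorem v3e_vert (k : ℕ) {x s : ℝ} (hv : (x : ℂ) + s * I ∈ C1) :
    HasDerivAt (fun s' : ℝ => om1 k ((x : ℂ) + s' * I)) (y1 k ((x : ℂ) + s * I) * I) s := by
  have h1 : HasDerivAt (fun z : ℂ => (x : ℂ) + z * I) I (s : ℂ) := by
    simpa using ((hasDerivAt_id (s : ℂ)).mul_const I).const_add (x : ℂ)
  have h2 := (hasDerivAt_om1 k hv).comp (s : ℂ) h1
  exact h2.comp_ofReal

theorem v3e_re {f : ℝ → ℂ} {f' : ℂ} {x : ℝ} (h : HasDerivAt f f' x) :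
    HasDerivAt (fun x => (f x).re) f'.re x := by
  exact Complex.reCLM.hasFDerivAt.comp_hasDerivAt x h

theorem v3e_im {f : ℝ → ℂ} {f' : ℂ} {x : ℝ} (h : HasDerivAt f f' x) :
    HasDerivAt (fun x => (f x).im) f'.im x := by
  exact Complex.imCLM.hasFDerivAt.comp_hasDerivAt x h

theorem v3e_re_pos (k : ℕ) {v : ℂ} (hv : v ∈ C1) : 0 < (y1 k v).re := by
  have h1 := (re_y1_mem k hv).1
  have h2 : 0 ≤ Wk k - Real.pi / 2 := by
    unfold Wk
    have : (0 : ℝ) ≤ k := Nat.cast_nonneg k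
    nlinarith [Real.pi_pos]
  linarith

/-- Horizontal and vertical monotonicity on sheet 1, left half plane.

Proof. Let `v = x + i s`, `x < 0`. (a) For every `s`: `x' ↦ Re (om1 k (x' + i s))` is continuous on `(-∞, 0]`
(`continuous_re_om1`) with derivative `Re y1 > 0` for `x' < 0` (`hasDerivAt_om1`, `re_y1_mem`), so
`Re (om1 k v) < Re (om1 k (i s)) = Uc s`. (b) If `|s| < 1`: the horizontal segment is in `C1`; for `0 ≤ s < 1`
`x' ↦ Im (om1 k (x' + i s))` has derivative `Im y1 ≥ 0` (`im_y1_nonneg`), so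
`Im (om1 k v) ≤ Im (om1 k (i s)) = Wk k * s < Wk k`. -/
theorem om1_left (k : ℕ) {v : ℂ} (hx : v.re < 0) : (om1 k v).re < Uc v.im ∧
    (0 ≤ v.im → v.im < 1 → (om1 k v).im ≤ Wk k * v.im) := by
  obtain ⟨x, s⟩ := v
  simp only at hx ⊢
  have ev : (⟨x, s⟩ : ℂ) = (x : ℂ) + s * I := by
    apply Complex.ext <;> simp
  have hmem : ∀ x' : ℝ, x' < 0 → (x' : ℂ) + s * I ∈ C1 := by
    intro x' hx'
    rw [mem_C1_iff]
    left
    simpa using hx'.ne
  constructor
  · have hcont : ContinuousOn (fun x' : ℝ => (om1 k ((x' : ℂ) + s * I)).re) (Iic 0) :=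
      ((continuous_re_om1 k).comp
        (by fun_prop : Continuous fun x' : ℝ => (x' : ℂ) + s * I)).continuousOn
    have hmono : StrictMonoOn (fun x' : ℝ => (om1 k ((x' : ℂ) + s * I)).re) (Iic 0) := by
      refine strictMonoOn_of_deriv_pos (convex_Iic 0) hcont ?_
      intro x' hx'
      rw [interior_Iic] at hx'
      rw [(v3e_re (v3e_horiz k (hmem x' hx'))).deriv]
      exact v3e_re_pos k (hmem x' hx')
    have h1 := hmono (mem_Iic.2 hx.le) (mem_Iic.2 le_rfl) hx
    simp only [ofReal_zero, zero_add] at h1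
    rw [re_om1_I] at h1
    rw [ev]
    exact h1
  · intro h0 h1
    have hmem' : ∀ x' : ℝ, (x' : ℂ) + s * I ∈ C1 := by
      intro x'
      rw [mem_C1_iff]
      right
      simpa using abs_lt.2 ⟨by linarith, h1⟩
    have hmono : Monotone (fun x' : ℝ => (om1 k ((x' : ℂ) + s * I)).im) := by
      refine monotone_of_deriv_nonneg
        (fun x' => (v3e_im (v3e_horiz k (hmem' x'))).differentiableAt) ?_
      intro x'
      rw [(v3e_im (v3e_horiz k (hmem' x'))).deriv]
      exact im_y1_nonneg k (hmem' x') (by simpa using h0)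
    have h2 := hmono hx.le
    simp only [ofReal_zero, zero_add] at h2
    rw [v3e_om1_I k (abs_lt.2 ⟨by linarith, h1⟩)] at h2
    rw [ev]
    simpa using h2

/-- Proof. The vertical line is in `C1` (`v.re ≠ 0`); `s' ↦ Im (om1 k (x + i s'))` has derivative `Re y1 > 0`
(derivative of `om1 k (x + i s')` is `I * y1`), and it is `0` at `s' = 0` (`om1_conj`, the value is real). -/
theorem im_om1_neg (k : ℕ) {v : ℂ} (hx : v.re ≠ 0) : (v.im < 0 → (om1 k v).im < 0) ∧
    (0 < v.im → 0 < (om1 k v).im) ∧ (v.im = 0 → (om1 k v).im = 0) := by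
  obtain ⟨x, s⟩ := v
  simp only at hx ⊢
  have ev : (⟨x, s⟩ : ℂ) = (x : ℂ) + s * I := by
    apply Complex.ext <;> simp
  have hmem : ∀ s' : ℝ, (x : ℂ) + s' * I ∈ C1 := by
    intro s'
    rw [mem_C1_iff]
    left
    simpa using hx
  have hmono : StrictMono (fun s' : ℝ => (om1 k ((x : ℂ) + s' * I)).im) := by
    refine strictMono_of_deriv_pos ?_
    intro s'
    rw [(v3e_im (v3e_vert k (hmem s'))).deriv, mul_im, I_re, I_im, mul_zero, add_zero, mul_one]
    exact v3e_re_pos k (hmem s')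
  have h0 : (om1 k ((x : ℂ) + ((0 : ℝ) : ℂ) * I)).im = 0 := by
    rw [ofReal_zero, zero_mul, add_zero]
    have hx0 : (x : ℂ) ∈ C1 := by
      have := hmem 0
      rwa [ofReal_zero, zero_mul, add_zero] at this
    have h1 := om1_conj k hx0
    rw [conj_ofReal] at h1
    exact conj_eq_iff_im.1 h1.symm
  rw [ev]
  refine ⟨fun h => ?_, fun h => ?_, fun h => ?_⟩
  · have := hmono h
    simp only [h0] at this
    exact this
  · have := hmono h
    simp only [h0] at this
    exact this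
  · rw [h]
    exact h0

/-- Proof. `v = i s`, `|s| < 1`: `1 + v I = 1 - s > 0`, `1 - v I = 1 + s > 0`, real logarithms. -/
theorem om1_I (k : ℕ) {s : ℝ} (hs : |s| < 1) : om1 k (s * I) = (Uc s : ℂ) + Wk k * s * I := by
  exact v3e_om1_I k hs

end Pool.Agent.MP_ae5b4e_an_AZ
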