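import Pool.Agent.Lib.MP_ae5b4e_an_AZ.V3b
import Pool.Agent.Lib.MP_ae5b4e_an_AZ.V3c
import Pool.Agent.Lib.MP_ae5b4e_an_AZ.V3d
import Pool.Agent.Lib.MP_ae5b4e_an_AZ.V3e

/-! # AZ: behaviour of `om` at the cuts (collection) -/

noncomputable section

namespace Pool.Agent.MP_ae5b4e_an_AZ

open Complex Set Filter Topology Metric

end Pool.Agent.MP_ae5b4e_an_AZ
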