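import Pool.Agent.Lib.MP_ae5b4e_an_AZ.V2

/-! # AZ: real parts are continuous -/

noncomputable section

namespace Pool.Agent.MP_ae5b4e_an_AZ

open Complex Set Filter Topology Metric

private theorem V3a_cont_mul_log (f : ℂ → ℝ) (hf : Continuous f) (hb : ∀ u, |f u| ≤ ‖u‖) :
    Continuous fun u : ℂ => f u * Real.log ‖u‖ := by
  rw [continuous_iff_continuousAt]
  intro u
  by_cases hu : u = 0
  · subst hu
    have h0 : f 0 * Real.log ‖(0 : ℂ)‖ = 0 := by simp
    unfold ContinuousAt
    beta_reduce
    rw [h0]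
    refine squeeze_zero_norm (a := fun u : ℂ => |‖u‖ * Real.log ‖u‖|) (fun u => ?_) ?_
    · rw [Real.norm_eq_abs, abs_mul, abs_mul, abs_norm]
      exact mul_le_mul_of_nonneg_right (hb u) (abs_nonneg _)
    · have h1 : Continuous fun u : ℂ => |‖u‖ * Real.log ‖u‖| :=
        (Real.continuous_mul_log.comp continuous_norm).abs
      have h2 := h1.tendsto 0
      simpa using h2
  · exact hf.continuousAt.mul
      ((Real.continuousAt_log (norm_ne_zero_iff.2 hu)).comp continuous_norm.continuousAt)

private theorem V3a_cont_im_arg : Continuous fun u : ℂ => u.im * arg u := by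
  rw [continuous_iff_continuousAt]
  intro u
  by_cases hu : u.im = 0
  · unfold ContinuousAt
    beta_reduce
    rw [hu, zero_mul]
    refine squeeze_zero_norm (a := fun u : ℂ => |u.im| * Real.pi) (fun u => ?_) ?_
    · rw [Real.norm_eq_abs, abs_mul]
      exact mul_le_mul_of_nonneg_left (abs_arg_le_pi u) (abs_nonneg _)
    · have h1 : Continuous fun u : ℂ => |u.im| * Real.pi := (continuous_im.abs).mul_const _
      have h2 := h1.tendsto u
      simpa [hu] using h2
  · exact continuous_im.continuousAt.mul (continuousAt_arg (Or.inr hu))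

/-- Proof. `Re (u log u) = Re u * log ‖u‖ - Im u * arg u`. At `u ∈ slitPlane`: continuity of `log`. At
`u = - r`, `r > 0`: the first term is continuous (`‖u‖ ≠ 0`), `|Im u * arg u| ≤ π |Im u| → 0`. At `u = 0`:
`|Re u * log ‖u‖| ≤ |‖u‖ * log ‖u‖| → 0` (`Real.continuous_mul_log`), `|Im u * arg u| ≤ π |Im u| → 0`. -/
theorem continuous_re_mul_log : Continuous fun u : ℂ => (u * log u).re := by
  have h : (fun u : ℂ => (u * log u).re) = fun u : ℂ => u.re * Real.log ‖u‖ - u.im * arg u := by
    funext u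
    rw [mul_re, log_re, log_im]
  rw [h]
  exact (V3a_cont_mul_log re continuous_re abs_re_le_norm).sub V3a_cont_im_arg

/-- Proof. As before: `|Im u * log ‖u‖| ≤ |‖u‖ * log ‖u‖|` at `0`; elsewhere composition. -/
theorem continuous_im_mul_log_norm : Continuous fun u : ℂ => u.im * Real.log ‖u‖ :=
  V3a_cont_mul_log im continuous_im abs_im_le_norm

private theorem V3a_om1 (k : ℕ) (v : ℂ) : (om1 k v).re = 1 + Wk k * v.re -
    (((1 + v * I) * log (1 + v * I)).re + ((1 - v * I) * log (1 - v * I)).re) / 2 := by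
  have e2 : ∀ z : ℂ, (z / 2).re = z.re / 2 := fun z => by simp
  unfold om1
  rw [sub_re, e2, add_re, add_re, re_ofReal_mul, one_re]

private theorem V3a_om2 (k : ℕ) (v : ℂ) : (om2 k v).re = 1 + Wk k * v.re -
    ((-((-(1 + v * I)) * log (-(1 + v * I))).re - Real.pi * (1 + v * I).im) +
      ((1 - v * I) * log (1 - v * I)).re) / 2 := by
  have e2 : ∀ z : ℂ, (z / 2).re = z.re / 2 := fun z => by simp
  have e3 : (1 + v * I) * (log (-(1 + v * I)) + Real.pi * I) =
      -((-(1 + v * I)) * log (-(1 + v * I))) + Real.pi * ((1 + v * I) * I) := by ring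
  unfold om2
  rw [e3, sub_re, e2, add_re, add_re, add_re, re_ofReal_mul, one_re, neg_re, re_ofReal_mul,
    mul_I_re]
  ring

/-- Proof. `Re (om1 k v) = 1 + Wk k * v.re - ((u log u).re + (w log w).re) / 2`, `u = 1 + v I`, `w = 1 - v I`. -/
theorem continuous_re_om1 (k : ℕ) : Continuous fun v : ℂ => (om1 k v).re := by
  have h := funext (V3a_om1 k)
  rw [h]
  have h1 : Continuous fun v : ℂ => ((1 + v * I) * log (1 + v * I)).re :=
    continuous_re_mul_log.comp (by fun_prop : Continuous fun v : ℂ => 1 + v * I)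
  have h2 : Continuous fun v : ℂ => ((1 - v * I) * log (1 - v * I)).re :=
    continuous_re_mul_log.comp (by fun_prop : Continuous fun v : ℂ => 1 - v * I)
  exact (continuous_const.add (continuous_const.mul continuous_re)).sub
    ((h1.add h2).div_const 2)

/-- Proof. With `u = 1 + v I`: `Re (u (log (-u) + π I)) = - Re ((-u) log (-u)) - π Im u`. -/
theorem continuous_re_om2 (k : ℕ) : Continuous fun v : ℂ => (om2 k v).re := by
  have h := funext (V3a_om2 k)
  rw [h]
  have h1 : Continuous fun v : ℂ => ((-(1 + v * I)) * log (-(1 + v * I))).re :=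
    continuous_re_mul_log.comp (by fun_prop : Continuous fun v : ℂ => -(1 + v * I))
  have h2 : Continuous fun v : ℂ => ((1 - v * I) * log (1 - v * I)).re :=
    continuous_re_mul_log.comp (by fun_prop : Continuous fun v : ℂ => 1 - v * I)
  have h3 : Continuous fun v : ℂ => (1 + v * I).im :=
    continuous_im.comp (by fun_prop : Continuous fun v : ℂ => 1 + v * I)
  exact (continuous_const.add (continuous_const.mul continuous_re)).sub
    (((h1.neg.sub (continuous_const.mul h3)).add h2).div_const 2)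

private theorem V3a_real (a : ℝ) : ((a : ℂ) * log (a : ℂ)).re = a * Real.log a := by
  rw [re_ofReal_mul, Complex.log_ofReal_re]

/-- Proof. `u = 1 - s`, `w = 1 + s` are real, `(u log u).re = (1 - s) * Real.log (1 - s)`
(`Complex.log_ofReal_re`, `Real.log_abs`). -/
theorem re_om1_I (k : ℕ) (s : ℝ) : (om1 k (s * I)).re = Uc s := by
  have e1 : (1 + (s : ℂ) * I * I) = ((1 - s : ℝ) : ℂ) := by
    push_cast
    linear_combination (s : ℂ) * I_sq
  have e2 : (1 - (s : ℂ) * I * I) = ((1 + s : ℝ) : ℂ) := by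
    push_cast
    linear_combination -(s : ℂ) * I_sq
  rw [V3a_om1, e1, e2, V3a_real, V3a_real, re_ofReal_mul, I_re]
  unfold Uc
  ring

/-- Proof. As `re_om1_I`: `((1 - s) (log (-(1 - s)) + π I)).re = (1 - s) * Real.log (1 - s)`. -/
theorem re_om2_I (k : ℕ) (s : ℝ) : (om2 k (s * I)).re = Uc s := by
  have e1 : (1 + (s : ℂ) * I * I) = ((1 - s : ℝ) : ℂ) := by
    push_cast
    linear_combination (s : ℂ) * I_sq
  have e2 : (1 - (s : ℂ) * I * I) = ((1 + s : ℝ) : ℂ) := by
    push_cast
    linear_combination -(s : ℂ) * I_sq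
  have e3 : -((1 - s : ℝ) : ℂ) = ((-(1 - s) : ℝ) : ℂ) := by push_cast; ring
  rw [V3a_om2, e1, e2, e3, V3a_real, V3a_real, re_ofReal_mul, I_re, ofReal_im, Real.log_neg_eq_log]
  unfold Uc
  ring

end Pool.Agent.MP_ae5b4e_an_AZ
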