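import Pool.Agent.Lib.MP_ae5b4e_an_AZ.V3a

/-! # AZ: imaginary parts at the cuts -/

noncomputable section

namespace Pool.Agent.MP_ae5b4e_an_AZ

open Complex Set Filter Topology Metric

theorem v3b_im_mul_log (u : ℂ) : (u * log u).im = u.re * arg u + u.im * Real.log ‖u‖ := by
  rw [mul_im, log_re, log_im]

theorem v3b_im_le (u : ℂ) : (u * log u).im ≤ u.im * Real.log ‖u‖ + Real.pi * |u.re| := by
  rw [v3b_im_mul_log]
  have h1 : u.re * arg u ≤ |u.re| * |arg u| := by
    rw [← abs_mul]
    exact le_abs_self _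
  have h2 := mul_le_mul_of_nonneg_left (abs_arg_le_pi u) (abs_nonneg u.re)
  linarith

theorem v3b_le_im (u : ℂ) : u.im * Real.log ‖u‖ - Real.pi * |u.re| ≤ (u * log u).im := by
  rw [v3b_im_mul_log]
  have h1 : -(|u.re| * |arg u|) ≤ u.re * arg u := by
    rw [← abs_mul]
    exact neg_abs_le _
  have h2 := mul_le_mul_of_nonneg_left (abs_arg_le_pi u) (abs_nonneg u.re)
  linarith

theorem re_ofReal_mul_im_aux (a : ℝ) (v : ℂ) : ((a : ℂ) * v).im = a * v.im := by
  simp

theorem v3b_im_om1 (k : ℕ) (v : ℂ) : (om1 k v).im = Wk k * v.im -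
    (((1 + v * I) * log (1 + v * I)).im + ((1 - v * I) * log (1 - v * I)).im) / 2 := by
  unfold om1
  have e : ∀ z : ℂ, (z / 2).im = z.im / 2 := by
    intro z
    simp
  rw [sub_im, add_im, e, add_im, one_im, re_ofReal_mul_im_aux, zero_add]

theorem v3b_im_om2 (k : ℕ) (v : ℂ) : (om2 k v).im = Wk k * v.im -
    (((1 + v * I) * (log (-(1 + v * I)) + Real.pi * I)).im +
      ((1 - v * I) * log (1 - v * I)).im) / 2 := by
  unfold om2
  have e : ∀ z : ℂ, (z / 2).im = z.im / 2 := by
    intro z
    simp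
  rw [sub_im, add_im, e, add_im, one_im, re_ofReal_mul_im_aux, zero_add]

theorem v3b_sheet2 (u : ℂ) : u.im * Real.log ‖u‖ + Real.pi * (u.re - |u.re|) ≤
    (u * (log (-u) + Real.pi * I)).im := by
  have h0 : (u * (log (-u) + Real.pi * I)).im =
      u.re * arg (-u) + u.im * Real.log ‖u‖ + Real.pi * u.re := by
    rw [mul_im, add_re, add_im, log_re, log_im, norm_neg]
    simp
    ring
  rw [h0]
  have h1 : -(|u.re| * |arg (-u)|) ≤ u.re * arg (-u) := by
    rw [← abs_mul]
    exact neg_abs_le _
  have h2 := mul_le_mul_of_nonneg_left (abs_arg_le_pi (-u)) (abs_nonneg u.re)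
  linarith

/-- Lower bound of the imaginary part near the upper cut.

Proof. `v = x' + i s'`, `u = 1 + v I`, `w = 1 - v I`:
`Im (om1 k v) = W s' - (Im (u log u) + Im (w log w)) / 2`, `Im (u log u) = Im u log ‖u‖ + Re u arg u ≤
Im u log ‖u‖ + π |Re u|`. The function `v ↦ W s' - (Im u log ‖u‖ + π |Re u| + Im (w log w)) / 2` is continuous
at `s I` (`continuous_im_mul_log_norm`; `w = 1 + s` in the slit plane) with value
`W s - π (s - 1) / 2 = W + (s - 1) k π` (`Wk k = (k + 1/2) π`). -/
theorem im_om1_cut (k : ℕ) {s c : ℝ} (hs : 1 ≤ s) (hc : c < Wk k + (s - 1) * (k * Real.pi)) :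
    ∀ᶠ v in 𝓝 ((s : ℂ) * I), c < (om1 k v).im := by
  set f : ℂ → ℝ := fun v => Wk k * v.im - (((1 + v * I).im * Real.log ‖1 + v * I‖ +
    Real.pi * |(1 + v * I).re|) + ((1 - v * I) * log (1 - v * I)).im) / 2 with hf
  have hcont : ContinuousAt f ((s : ℂ) * I) := by
    have c1 : Continuous fun v : ℂ => (1 + v * I).im * Real.log ‖1 + v * I‖ :=
      continuous_im_mul_log_norm.comp (by fun_prop : Continuous fun v : ℂ => 1 + v * I)
    have c2 : Continuous fun v : ℂ => Real.pi * |(1 + v * I).re| :=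
      continuous_const.mul (Complex.continuous_re.comp
        (by fun_prop : Continuous fun v : ℂ => 1 + v * I)).abs
    have c3 : ContinuousAt (fun v : ℂ => ((1 - v * I) * log (1 - v * I)).im) ((s : ℂ) * I) := by
      have c4 : ContinuousAt (fun v : ℂ => 1 - v * I) ((s : ℂ) * I) := by fun_prop
      refine Complex.continuous_im.continuousAt.comp (c4.mul (c4.clog ?_))
      rw [mem_slitPlane_iff]
      left
      simp
      linarith
    have c5 : Continuous fun v : ℂ => Wk k * v.im := continuous_const.mul Complex.continuous_im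
    exact c5.continuousAt.sub (((c1.add c2).continuousAt.add c3).div_const 2)
  have hval : f ((s : ℂ) * I) = Wk k + (s - 1) * (k * Real.pi) := by
    have e1 : (1 : ℂ) + s * I * I = ((1 - s : ℝ) : ℂ) := by
      rw [mul_assoc, I_mul_I]
      push_cast
      ring
    have e2 : (1 : ℂ) - s * I * I = ((1 + s : ℝ) : ℂ) := by
      rw [mul_assoc, I_mul_I]
      push_cast
      ring
    simp only [hf]
    rw [e1, e2, ofReal_im, ofReal_re, v3b_im_mul_log, ofReal_im,
      arg_ofReal_of_nonneg (by linarith), abs_of_nonpos (by linarith)]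
    have e3 : ((s : ℂ) * I).im = s := by simp
    rw [e3]
    unfold Wk
    ring
  have h1 : ∀ᶠ v in 𝓝 ((s : ℂ) * I), c < f v := hcont.eventually (lt_mem_nhds (by rwa [hval]))
  filter_upwards [h1] with v hv
  rw [v3b_im_om1]
  have := v3b_im_le (1 + v * I)
  simp only [hf] at hv
  linarith

/-- The sharper form of `im_om2_cut`. Proof. As below. -/
theorem im_om2_cut' (k : ℕ) {s c : ℝ} (hs : s ≤ 1) (hc : Wk k * max s 0 < c) :
    ∀ᶠ v in 𝓝 ((s : ℂ) * I), (om2 k v).im < c := by
  have hW : Real.pi / 2 ≤ Wk k := by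
    unfold Wk
    have : (0 : ℝ) ≤ k := Nat.cast_nonneg k
    nlinarith [Real.pi_pos]
  have hpi := Real.pi_pos
  have hc0 : 0 < c := by
    have : 0 ≤ Wk k * max s 0 := mul_nonneg (by linarith) (le_max_right _ _)
    linarith
  have hcs : Wk k * s < c :=
    (mul_le_mul_of_nonneg_left (le_max_left s 0) (by linarith)).trans_lt hc
  have c1 : Continuous fun v : ℂ => (1 + v * I).im * Real.log ‖1 + v * I‖ :=
    continuous_im_mul_log_norm.comp (by fun_prop : Continuous fun v : ℂ => 1 + v * I)
  have c2 : Continuous fun v : ℂ => Real.pi * ((1 + v * I).re - |(1 + v * I).re|) := by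
    have c0 : Continuous fun v : ℂ => (1 + v * I).re := Complex.continuous_re.comp
      (by fun_prop : Continuous fun v : ℂ => 1 + v * I)
    exact continuous_const.mul (c0.sub c0.abs)
  have c5 : Continuous fun v : ℂ => Wk k * v.im := continuous_const.mul Complex.continuous_im
  have e1 : (1 : ℂ) + s * I * I = ((1 - s : ℝ) : ℂ) := by
    rw [mul_assoc, I_mul_I]
    push_cast
    ring
  have e2 : (1 : ℂ) - s * I * I = ((1 + s : ℝ) : ℂ) := by
    rw [mul_assoc, I_mul_I]
    push_cast
    ring
  have e3 : ((s : ℂ) * I).im = s := by simp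
  rcases lt_or_ge (-1) s with h1 | h1
  · set f : ℂ → ℝ := fun v => Wk k * v.im - (((1 + v * I).im * Real.log ‖1 + v * I‖ +
      Real.pi * ((1 + v * I).re - |(1 + v * I).re|)) + ((1 - v * I) * log (1 - v * I)).im) / 2
      with hf
    have hcont : ContinuousAt f ((s : ℂ) * I) := by
      have c3 : ContinuousAt (fun v : ℂ => ((1 - v * I) * log (1 - v * I)).im) ((s : ℂ) * I) := by
        have c4 : ContinuousAt (fun v : ℂ => 1 - v * I) ((s : ℂ) * I) := by fun_prop
        refine Complex.continuous_im.continuousAt.comp (c4.mul (c4.clog ?_))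
        rw [mem_slitPlane_iff]
        left
        simp
        linarith
      exact c5.continuousAt.sub (((c1.add c2).continuousAt.add c3).div_const 2)
    have hval : f ((s : ℂ) * I) < c := by
      simp only [hf]
      rw [e1, e2, ofReal_im, ofReal_re, v3b_im_mul_log, ofReal_im,
        arg_ofReal_of_nonneg (by linarith), abs_of_nonneg (by linarith), e3]
      nlinarith
    have h2 : ∀ᶠ v in 𝓝 ((s : ℂ) * I), f v < c := hcont.eventually (gt_mem_nhds hval)
    filter_upwards [h2] with v hv
    rw [v3b_im_om2]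
    have := v3b_sheet2 (1 + v * I)
    simp only [hf] at hv
    linarith
  · set f : ℂ → ℝ := fun v => Wk k * v.im - (((1 + v * I).im * Real.log ‖1 + v * I‖ +
      Real.pi * ((1 + v * I).re - |(1 + v * I).re|)) + ((1 - v * I).im * Real.log ‖1 - v * I‖ -
      Real.pi * |(1 - v * I).re|)) / 2 with hf
    have hcont : Continuous f := by
      have c3 : Continuous fun v : ℂ => (1 - v * I).im * Real.log ‖1 - v * I‖ :=
        continuous_im_mul_log_norm.comp (by fun_prop : Continuous fun v : ℂ => 1 - v * I)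
      have c4 : Continuous fun v : ℂ => Real.pi * |(1 - v * I).re| :=
        continuous_const.mul (Complex.continuous_re.comp
          (by fun_prop : Continuous fun v : ℂ => 1 - v * I)).abs
      exact c5.sub (((c1.add c2).add (c3.sub c4)).div_const 2)
    have hval : f ((s : ℂ) * I) < c := by
      simp only [hf]
      rw [e1, e2, ofReal_im, ofReal_re, ofReal_im, ofReal_re,
        abs_of_nonneg (by linarith : 0 ≤ 1 - s), abs_of_nonpos (by linarith : 1 + s ≤ 0), e3]
      nlinarith
    have h2 : ∀ᶠ v in 𝓝 ((s : ℂ) * I), f v < c :=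
      hcont.continuousAt.eventually (gt_mem_nhds hval)
    filter_upwards [h2] with v hv
    rw [v3b_im_om2]
    have t1 := v3b_sheet2 (1 + v * I)
    have t2 := v3b_le_im (1 - v * I)
    simp only [hf] at hv
    linarith

/-- Upper bound of the imaginary part near the cut of sheet 2.

Proof. `u = 1 + v I`, `w = 1 - v I`, `Im (om2 k v) = W s' - (Im (u (log (-u) + π I)) + Im (w log w)) / 2`.
`Im (u (log (-u) + π I)) = Im u log ‖u‖ + Re u arg (-u) + π Re u ≥ Im u log ‖u‖ + π (Re u - |Re u|)`,
continuous at `s I` with value `0` (`Re u = 1 - s ≥ 0` there). If `- 1 < s`: `w log w` is continuous at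
`w = 1 + s > 0`, imaginary part `0`: so `Im (om2 k v) ≤ (a continuous function with value W s ≤ W)`.
If `s ≤ - 1`: `Im (w log w) ≥ Im w log ‖w‖ - π |Re w|`: value `W s + π (- 1 - s) / 2 ≤ 0 < W`
(`W ≥ π / 2`). -/
theorem im_om2_cut (k : ℕ) {s c : ℝ} (hs : s ≤ 1) (hc : Wk k < c) :
    ∀ᶠ v in 𝓝 ((s : ℂ) * I), (om2 k v).im < c := by
  refine im_om2_cut' k hs (lt_of_le_of_lt ?_ hc)
  have hW : 0 ≤ Wk k := by
    unfold Wk
    positivity
  have := mul_le_mul_of_nonneg_left (max_le hs zero_le_one) hW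
  linarith

end Pool.Agent.MP_ae5b4e_an_AZ
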