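import Pool.Agent.Lib.MP_ae5b4e_an_AZ.V3
import Pool.Agent.Lib.MP_ae5b4e_an_AZ.Lift

/-! # AZ: properness and sections of `om` on the two sheets -/

noncomputable section

namespace Pool.Agent.MP_ae5b4e_an_AZ

open Complex Set Filter Topology Metric

private theorem V4_Wk (k : ℕ) : Wk k - Real.pi / 2 = k * Real.pi := by
  rw [Wk]
  ring

private theorem V4_inv {f : ℂ → ℂ} {a x : ℂ} (h : HasDerivAt f a x) (ha : a ≠ 0) :
    (fderiv ℂ f x).IsInvertible := by
  refine ⟨ContinuousLinearEquiv.unitsEquivAut ℂ (Units.mk0 a ha), ?_⟩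
  rw [h.hasFDerivAt.fderiv]
  ext
  simp

private theorem V4_bdd {S C : Set ℂ} {f : ℂ → ℂ} {a : ℝ} (hC : IsCompact C)
    (hS : ∀ v ∈ S, f v ∈ C) (hf : ∀ v ∈ S, 2 ≤ ‖v‖ → 2 * ‖v‖ - a ≤ ‖f v‖) :
    Bornology.IsBounded S := by
  obtain ⟨M, hM⟩ := hC.isBounded.exists_norm_le
  rw [isBounded_iff_forall_norm_le]
  refine ⟨max 2 ((M + a) / 2), fun v hv => ?_⟩
  rcases le_total 2 ‖v‖ with h | h
  · have h1 := hf v hv h
    have h2 := hM _ (hS v hv)
    exact le_max_of_le_right (by linarith)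
  · exact le_max_of_le_left h

/-- The limit along an ultrafilter. -/
private theorem V4_ultra {S C : Set ℂ} {f : ℂ → ℂ} {v : ℂ} (hC : IsCompact C)
    (hS : ∀ v ∈ S, f v ∈ C) (hv : v ∈ closure S) :
    ∃ (U : Ultrafilter ℂ) (z : ℂ), (U : Filter ℂ) ≤ 𝓝 v ∧ (U : Filter ℂ) ≤ 𝓟 S ∧ z ∈ C ∧
      Tendsto f U (𝓝 z) := by
  have hne : (𝓝[S] v).NeBot := mem_closure_iff_nhdsWithin_neBot.1 hv
  obtain ⟨U, hU⟩ := Ultrafilter.exists_le (𝓝[S] v)
  have hUS : (U : Filter ℂ) ≤ 𝓟 S := hU.trans inf_le_right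
  obtain ⟨z, hz, hzU⟩ := hC.ultrafilter_le_nhds (U.map f) (by
    rw [le_principal_iff, Ultrafilter.mem_coe, Ultrafilter.mem_map]
    exact mem_of_superset (le_principal_iff.1 hUS) fun w hw => hS w hw)
  exact ⟨U, z, hU.trans inf_le_left, hUS, hz, hzU⟩

/-- Common part of the proofs of the closedness. -/
private theorem V4_closed {P C : Set ℂ} {f : ℂ → ℂ} (hC : IsCompact C)
    (hc : ∀ v ∈ P, ContinuousAt f v)
    (hcut : ∀ v, v ∉ P → ∀ (U : Ultrafilter ℂ) (z : ℂ), (U : Filter ℂ) ≤ 𝓝 v →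
      (U : Filter ℂ) ≤ 𝓟 P → z ∈ C → Tendsto f U (𝓝 z) → False) :
    IsClosed (P ∩ f ⁻¹' C) := by
  refine isClosed_of_closure_subset fun v hv => ?_
  obtain ⟨U, z, h1, h2, h3, h4⟩ := V4_ultra (f := f) hC (fun w hw => hw.2) hv
  by_cases hP : v ∈ P
  · refine ⟨hP, ?_⟩
    have h5 : Tendsto f U (𝓝 (f v)) := (hc v hP).mono_left h1
    have h6 : f v = z := tendsto_nhds_unique h5 h4
    show f v ∈ C
    rw [h6]
    exact h3
  · exact (hcut v hP U z h1 (h2.trans (principal_mono.2 inter_subset_left)) h3 h4).elim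

private theorem V4_re {f : ℂ → ℂ} {U : Ultrafilter ℂ} {v z : ℂ} (h1 : (U : Filter ℂ) ≤ 𝓝 v)
    (h4 : Tendsto f U (𝓝 z)) (hc : Continuous fun v => (f v).re) : z.re = (f v).re := by
  have h5 : Tendsto (fun v => (f v).re) U (𝓝 (f v).re) := (hc.tendsto v).mono_left h1
  have h6 : Tendsto (fun v => (f v).re) U (𝓝 z.re) := (continuous_re.tendsto z).comp h4
  exact tendsto_nhds_unique h6 h5

private theorem V4_conj (s : ℝ) : (starRingEnd ℂ) ((s : ℂ) * I) = ((-s : ℝ) : ℂ) * I := by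
  rw [map_mul, conj_ofReal, conj_I]
  push_cast
  ring

/-- PROPERNESS ON SHEET 1.

Proof. Let `K ⊆ G` be compact, `S := C1 ∩ om1 k ⁻¹' K`. Bounded: `K ⊆ closedBall 0 M`, so by `norm_om1_ge`
`‖v‖ ≤ max 2 ((M + 5) / 2)` on `S`. Closed: let `v ∈ closure S`. If `v ∈ C1`: `om1 k` is continuous at `v`
(`hasDerivAt_om1`) and `K` closed, so `v ∈ S`. If `v ∉ C1`: `mem_C1_iff`: `v = s I` with `1 ≤ |s|`. The filter
`F := 𝓝 v ⊓ 𝓟 S` is nontrivial and `map (om1 k) F ≤ 𝓟 K`: there is a cluster point `z ∈ K` of `map (om1 k) F`.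
`Re z = Uc |s|` (`continuous_re_om1`, `re_om1_I`, `Uc_neg`). If `1 ≤ s`: for every `c < W + (s - 1) k π`
`c < Im (om1 k ·)` near `v` (`im_om1_cut`), so `c ≤ Im z` (closed set), hence `W + (s - 1) k π ≤ Im z`:
contradiction to `hcut z _ s`. If `s ≤ - 1`: the same with `om1_conj` (on `C1`; `C1` is invariant under
conjugation): `Im z ≤ - (W + (- s - 1) k π)`. -/
theorem proper1 {k : ℕ} (hk : 1 ≤ k) {G : Set ℂ}
    (hcut : ∀ z ∈ G, ∀ s : ℝ, 1 ≤ s → z.re = Uc s → |z.im| < Wk k + (s - 1) * (k * Real.pi)) :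
    ∀ C ⊆ G, IsCompact C → IsCompact (C1 ∩ om1 k ⁻¹' C) := by
  intro C hCG hC
  have hS : ∀ v ∈ C1 ∩ om1 k ⁻¹' C, om1 k v ∈ C := fun v hv => hv.2
  refine isCompact_of_isClosed_isBounded ?_
    (V4_bdd (a := 5) hC hS fun v hv h2 => norm_om1_ge hk hv.1 h2)
  refine V4_closed hC (fun v hv => (hasDerivAt_om1 k hv).continuousAt) ?_
  intro v hv U z h1 h2 h3 h4
  rw [mem_C1_iff, not_or, not_not, not_lt] at hv
  obtain ⟨hre, him⟩ := hv
  have hvI : v = (v.im : ℂ) * I := by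
    apply Complex.ext
    · simp [hre]
    · simp
  have hzre : z.re = Uc v.im := by
    have h5 := V4_re h1 h4 (continuous_re_om1 k)
    rw [hvI, re_om1_I] at h5
    exact h5
  rcases le_total 0 v.im with h5 | h5
  · rw [abs_of_nonneg h5] at him
    have h6 := hcut z (hCG h3) v.im him hzre
    have h7 : Wk k + (v.im - 1) * (k * Real.pi) ≤ z.im := by
      refine le_of_forall_lt fun c hc => ?_
      obtain ⟨c', hc1, hc2⟩ := exists_between hc
      have h8 : ∀ᶠ w in (U : Filter ℂ), c' < (om1 k w).im := by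
        have h9 := im_om1_cut k him hc2
        rw [← hvI] at h9
        exact h1 h9
      have h10 : Tendsto (fun w => (om1 k w).im) U (𝓝 z.im) := (continuous_im.tendsto z).comp h4
      exact hc1.trans_le (ge_of_tendsto h10 (h8.mono fun w hw => hw.le))
    have h8 := le_abs_self z.im
    linarith
  · rw [abs_of_nonpos h5] at him
    have h6 := hcut z (hCG h3) (-v.im) him (by rw [Uc_neg]; exact hzre)
    have h7 : Wk k + (-v.im - 1) * (k * Real.pi) ≤ -z.im := by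
      refine le_of_forall_lt fun c hc => ?_
      obtain ⟨c', hc1, hc2⟩ := exists_between hc
      have h8 : ∀ᶠ w in (U : Filter ℂ), c' < -(om1 k w).im := by
        have h9 := im_om1_cut k him hc2
        have h10 : Tendsto (starRingEnd ℂ) (𝓝 v) (𝓝 (((-v.im : ℝ) : ℂ) * I)) := by
          have h11 := (continuous_conj.tendsto v)
          rw [← V4_conj, ← hvI]
          exact h11
        have h12 : ∀ᶠ w in (U : Filter ℂ), c' < (om1 k ((starRingEnd ℂ) w)).im :=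
          h1 (h10.eventually h9)
        have h13 : ∀ᶠ w in (U : Filter ℂ), w ∈ C1 := h2 (mem_principal_self _)
        filter_upwards [h12, h13] with w hw hw'
        rw [om1_conj k hw', conj_im] at hw
        exact hw
      have h10 : Tendsto (fun w => -(om1 k w).im) U (𝓝 (-z.im)) :=
        ((continuous_im.tendsto z).comp h4).neg
      exact hc1.trans_le (ge_of_tendsto h10 (h8.mono fun w hw => hw.le))
    have h8 := neg_le_abs z.im
    linarith

/-- PROPERNESS ON SHEET 2.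

Proof. As `proper1` with `norm_om2_ge`; for `v ∈ closure S \ C2`: `mem_C2_iff`: `v = s I`, `s ≤ 1`;
`im_om2_cut`: `Im (om2 k ·) < c` near `v` for every `c > W`; so the cluster point `z ∈ K ⊆ G` has
`Im z ≤ W`: contradiction. -/
theorem proper2 {k : ℕ} (hk : 1 ≤ k) {G : Set ℂ} (hG : ∀ z ∈ G, Wk k < z.im) :
    ∀ C ⊆ G, IsCompact C → IsCompact (C2 ∩ om2 k ⁻¹' C) := by
  intro C hCG hC
  have hS : ∀ v ∈ C2 ∩ om2 k ⁻¹' C, om2 k v ∈ C := fun v hv => hv.2
  refine isCompact_of_isClosed_isBounded ?_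
    (V4_bdd (a := 7) hC hS fun v hv h2 => norm_om2_ge hk hv.1 h2)
  refine V4_closed hC (fun v hv => (hasDerivAt_om2 k hv).continuousAt) ?_
  intro v hv U z h1 h2 h3 h4
  rw [mem_C2_iff, not_or, not_not, not_lt] at hv
  obtain ⟨hre, him⟩ := hv
  have hvI : v = (v.im : ℂ) * I := by
    apply Complex.ext
    · simp [hre]
    · simp
  have h6 := hG z (hCG h3)
  obtain ⟨c, hc1, hc2⟩ := exists_between h6
  have h8 : ∀ᶠ w in (U : Filter ℂ), (om2 k w).im < c := by
    have h9 := im_om2_cut k him hc1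
    rw [← hvI] at h9
    exact h1 h9
  have h10 : Tendsto (fun w => (om2 k w).im) U (𝓝 z.im) := (continuous_im.tendsto z).comp h4
  exact absurd (le_of_tendsto h10 (h8.mono fun w hw => hw.le)) (not_le.2 hc2)

/-- Proof. `exists_section` (E = ℂ, `P = C1`, `f = om1 k`): analytic on `C1` (`hasDerivAt_om1`, complex
differentiable on an open set: `DifferentiableOn.analyticOnNhd`), derivative `y1 ≠ 0`
(`re_y1_mem`: `Re y1 > k π > 0`); `fderiv` of a function with nonzero derivative is invertible. -/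
theorem sec1 {k : ℕ} (hk : 1 ≤ k) {G : Set ℂ} (hG : IsOpen G) {v₀ : ℂ} (hv : v₀ ∈ C1)
    (hs : StarConvex ℝ (om1 k v₀) G) (hmem : om1 k v₀ ∈ G)
    (hcut : ∀ z ∈ G, ∀ s : ℝ, 1 ≤ s → z.re = Uc s → |z.im| < Wk k + (s - 1) * (k * Real.pi)) :
    ∃ g : ℂ → ℂ, AnalyticOnNhd ℂ g G ∧ (∀ z ∈ G, g z ∈ C1 ∧ om1 k (g z) = z) ∧
      g (om1 k v₀) = v₀ := by
  refine exists_section isOpen_C1 ?_ ?_ hG hs (proper1 hk hcut) hv rfl hmem
  · exact DifferentiableOn.analyticOnNhd (fun v hv =>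
      (hasDerivAt_om1 k hv).differentiableAt.differentiableWithinAt) isOpen_C1
  · intro v hv
    refine V4_inv (hasDerivAt_om1 k hv) fun h => ?_
    have h1 := (re_y1_mem k hv).1
    rw [h, zero_re, V4_Wk] at h1
    have h2 : (0 : ℝ) ≤ k * Real.pi := mul_nonneg (Nat.cast_nonneg k) Real.pi_pos.le
    linarith

/-- Proof. As `sec1`. -/
theorem sec2 {k : ℕ} (hk : 1 ≤ k) {G : Set ℂ} (hG : IsOpen G) {v₀ : ℂ} (hv : v₀ ∈ C2)
    (hs : StarConvex ℝ (om2 k v₀) G) (hmem : om2 k v₀ ∈ G) (hG' : ∀ z ∈ G, Wk k < z.im) :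
    ∃ g : ℂ → ℂ, AnalyticOnNhd ℂ g G ∧ (∀ z ∈ G, g z ∈ C2 ∧ om2 k (g z) = z) ∧
      g (om2 k v₀) = v₀ := by
  refine exists_section isOpen_C2 ?_ ?_ hG hs (proper2 hk hG') hv rfl hmem
  · exact DifferentiableOn.analyticOnNhd (fun v hv =>
      (hasDerivAt_om2 k hv).differentiableAt.differentiableWithinAt) isOpen_C2
  · intro v hv
    refine V4_inv (hasDerivAt_om2 k hv) fun h => ?_
    have h1 := (re_y2_mem k hv).1
    rw [h, zero_re] at h1
    have h2 : (0 : ℝ) ≤ Wk k := by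
      have := Real.pi_pos
      rw [Wk]
      positivity
    linarith

end Pool.Agent.MP_ae5b4e_an_AZ
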